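import Mathlib

/-! Modular Schanuel with derivatives for points algebraic over a field with good approximations, part 1: this file joins several modules to save build time. -/

section S_H22_CZ_Defs

set_option autoImplicit false

namespace CZ

open Complex Filter Topology

/-- Cubic data: `f = X^3 + (b2/N) X^2 + (b1/N) X + b0/N` is irreducible over `ℚ`, with roots
`z, conj z` (not real) and `r` (real). -/
structure CData where
  z : ℂ
  r : ℝ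
  N : ℕ
  b2 : ℤ
  b1 : ℤ
  b0 : ℤ
  hz : 0 < z.im
  hN : 0 < N
  he1 : (N : ℂ) * (z + (starRingEnd ℂ) z + r) = -b2
  he2 : (N : ℂ) * (z * (starRingEnd ℂ) z + (z + (starRingEnd ℂ) z) * r) = b1
  he3 : (N : ℂ) * (z * (starRingEnd ℂ) z * r) = -b0
  hirr : ∀ x0 x1 x2 : ℤ, (x0 : ℝ) + x1 * r + x2 * r ^ 2 = 0 → x0 = 0 ∧ x1 = 0 ∧ x2 = 0
  hirz : ∀ x0 x1 x2 : ℤ, (x0 : ℂ) + x1 * z + x2 * z ^ 2 = 0 → x0 = 0 ∧ x1 = 0 ∧ x2 = 0

/-- The base functions: `A` (a theta function, normalised by `A 0 = 1`), `B` (`A ^ 2` times a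
nonconstant elliptic function), for the lattice `ℤ + ℤ z`, and a scaling constant `mu`. -/
structure BaseFn (z : ℂ) where
  A : ℂ → ℂ
  B : ℂ → ℂ
  mu : ℂ
  hmu : mu ≠ 0
  dA : Differentiable ℂ A
  dB : Differentiable ℂ B
  A0 : A 0 = 1
  A1 : ∀ s, A (s + 1) = A s
  Az : ∀ s, A (s + z) = -(exp (-(Real.pi * I * z) - 2 * Real.pi * I * s) * A s)
  B1 : ∀ s, B (s + 1) = B s
  Bz : ∀ s, B (s + z) = exp (2 * (-(Real.pi * I * z) - 2 * Real.pi * I * s)) * B s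
  nc : ¬ ∃ k : ℂ, ∀ᶠ s in 𝓝 (0 : ℂ), B s = k * A s ^ 2

section Alg

variable (c : CData)

/-- The conjugate root. -/
noncomputable def CData.zb : ℂ := (starRingEnd ℂ) c.z

/-- `z - conj z`. -/
noncomputable def CData.A1 : ℂ := c.z - c.zb

/-- `z - r`. -/
noncomputable def CData.A2 : ℂ := c.z - c.r

/-- The derivative `f'`. -/
noncomputable def CData.fp (x : ℂ) : ℂ := 3 * x ^ 2 + 2 * (c.b2 / c.N) * x + c.b1 / c.N

/-- The coefficients of `(f x - f y) / (x - y)` as a polynomial in `y`. -/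
noncomputable def CData.cc (j : Fin 3) (x : ℂ) : ℂ :=
  (![x ^ 2 + (c.b2 / c.N) * x + c.b1 / c.N, x + c.b2 / c.N, 1] : Fin 3 → ℂ) j

/-- The six forms. -/
noncomputable def nu (j : Fin 6) (x : ℂ) : ℂ :=
  (![1, x, x ^ 2, 1 + x, 1 + x ^ 2, x + x ^ 2] : Fin 6 → ℂ) j

/-- The integral combinations of the squares of the six forms. -/
def CData.hh (l : Fin 2) (j : Fin 6) : ℤ :=
  (![![c.b1 - c.b2 - c.N, c.N - c.b2, -c.N, c.b2, c.N, 0],
    ![-c.b0, c.b2 - c.N, -c.N, 0, 0, c.N]] : Fin 2 → Fin 6 → ℤ) l j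

/-- Positive parts. -/
def CData.hp (l : Fin 2) (j : Fin 6) : ℕ := (c.hh l j).toNat

/-- Negative parts. -/
def CData.hm (l : Fin 2) (j : Fin 6) : ℕ := (-c.hh l j).toNat

/-- `beta_0 = N f'`, `beta_1 = N x f'`. -/
noncomputable def CData.be (l : Fin 2) (x : ℂ) : ℂ := c.N * c.fp x * x ^ (l : ℕ)

end Alg

section Fun

variable (c : CData) (b : BaseFn c.z)

/-- The linear forms on `ℂ ^ 3`; the functions of two variables are the restrictions to `y = 0`. -/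
noncomputable def CData.u (j : Fin 6) (w t y : ℂ) : ℂ :=
  c.A1 * nu j c.zb * w + c.A2 * nu j c.r * t + nu j c.z * y

/-- The first three forms. -/
def i3 (j : Fin 3) : Fin 6 := ⟨j, by omega⟩

/-- `θ(u_0) θ(u_1) θ(u_2)`. -/
noncomputable def WW (w t y : ℂ) : ℂ := ∏ j : Fin 3, b.A (c.u (i3 j) w t y)

/-- The (extended) functions `Z_1, Z_2`: `x = conj z, v = w` and `x = r, v = t`. -/
noncomputable def ZZ (x v w t y : ℂ) : ℂ :=
  b.mu * ((∑ j : Fin 3, c.cc j x * (deriv b.A (c.u (i3 j) w t y) *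
    ∏ i ∈ Finset.univ.erase j, b.A (c.u (i3 i) w t y))) +
    2 * Real.pi * I * c.fp x * v * WW c b w t y)

/-- Denominators of the theta quotients. -/
noncomputable def TT (l : Fin 2) (w t y : ℂ) : ℂ := ∏ j : Fin 6, b.A (c.u j w t y) ^ c.hm l j

/-- Numerators of the theta quotients. -/
noncomputable def EE (l : Fin 2) (w t y : ℂ) : ℂ :=
  (∏ j : Fin 6, b.A (c.u j w t y) ^ c.hp l j) *
    exp (Real.pi * I * (c.be l c.zb * c.A1 * w ^ 2 + c.be l c.r * c.A2 * t ^ 2))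

/-- The seven numerators (extended to `ℂ ^ 3`). -/
noncomputable def NX (a : Fin 7) (w t y : ℂ) : ℂ :=
  (![b.B (c.u 0 w t y), b.B (c.u 1 w t y), b.B (c.u 2 w t y),
    ZZ c b c.zb w w t y, ZZ c b c.r t w t y, EE c b 0 w t y, EE c b 1 w t y] : Fin 7 → ℂ) a

/-- The seven denominators (extended to `ℂ ^ 3`). -/
noncomputable def DX (a : Fin 7) (w t y : ℂ) : ℂ :=
  (![b.A (c.u 0 w t y) ^ 2, b.A (c.u 1 w t y) ^ 2, b.A (c.u 2 w t y) ^ 2,
    WW c b w t y, WW c b w t y, TT c b 0 w t y, TT c b 1 w t y] : Fin 7 → ℂ) a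

/-- The functions `Φ_λ` on `ℂ ^ 2`, `λ : Fin 7 → {0, …, D}`. -/
noncomputable def Phi (D : ℕ) (l : Fin 7 → Fin (D + 1)) (x : ℂ × ℂ) : ℂ :=
  ∏ a : Fin 7, NX c b a x.1 x.2 0 ^ (l a : ℕ) * DX c b a x.1 x.2 0 ^ (D - (l a : ℕ))

/-- Linear combinations. -/
noncomputable def FF (D : ℕ) (k : (Fin 7 → Fin (D + 1)) → ℂ) (x : ℂ × ℂ) : ℂ :=
  ∑ l, k l * Phi c b D l x

end Fun

/-- The jet functionals. -/
noncomputable def J (s m : ℕ) (F : ℂ × ℂ → ℂ) : ℂ :=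
  iteratedDeriv s (fun x : ℂ ↦ F (x, (m : ℂ) * x)) 0



section More

variable (c : CData)

/-- The three roots `z, conj z, r`. -/
noncomputable def CData.rt (i : Fin 3) : ℂ := (![c.z, c.zb, (c.r : ℂ)] : Fin 3 → ℂ) i

/-- The real number `be l r`. -/
noncomputable def CData.ber (l : Fin 2) : ℝ :=
  c.N * (3 * c.r ^ 2 + 2 * (c.b2 / c.N) * c.r + c.b1 / c.N) * c.r ^ (l : ℕ)

/-- The element `b(x) = 2 N^5 (x_0 + x_1 (N ρ) + x_2 (N ρ)^2)` of the lattice, at the root `ρ`. -/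
noncomputable def CData.lat (ρ : ℂ) (x : Fin 3 → ℤ) : ℂ :=
  2 * c.N ^ 5 * (x 0 + x 1 * (c.N * ρ) + x 2 * (c.N * ρ) ^ 2)

/-- The real embedding of `b(x)`. -/
noncomputable def CData.latr (x : Fin 3 → ℤ) : ℝ :=
  2 * c.N ^ 5 * (x 0 + x 1 * (c.N * c.r) + x 2 * (c.N * c.r) ^ 2)

/-- Multiplication by `N z` on the coordinates of `b(x)`. -/
def CData.mulz (x : Fin 3 → ℤ) : Fin 3 → ℤ :=
  ![-(c.N ^ 2 * c.b0 * x 2), x 0 - c.N * c.b1 * x 2, x 1 - c.b2 * x 2]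

/-- The exponent of `A (u_j)` in the denominator `DX a`. -/
def CData.qc (a : Fin 7) (j : Fin 6) : ℕ :=
  (![if j = 0 then 2 else 0, if j = 1 then 2 else 0, if j = 2 then 2 else 0,
    if (j : ℕ) < 3 then 1 else 0, if (j : ℕ) < 3 then 1 else 0, c.hm 0 j, c.hm 1 j] : Fin 7 → ℕ) a

/-- The quadratic function belonging to the pair `NX a, DX a`. -/
noncomputable def CData.qa (a : Fin 7) (w t : ℂ) : ℝ :=
  ∑ j : Fin 6, (c.qc a j : ℝ) * (Real.pi / c.z.im * (c.u j w t 0).im ^ 2)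

/-- The total quadratic function. -/
noncomputable def CData.q (w t : ℂ) : ℝ := ∑ a : Fin 7, c.qa a w t

end More

section Ext

variable (c : CData) (b : BaseFn c.z)

/-- The index `λ` with given components. -/
def ix (D : ℕ) (l0 l1 l2 l3 l4 : Fin (D + 1)) (n : Fin 2 → Fin (D + 1)) : Fin 7 → Fin (D + 1) :=
  ![l0, l1, l2, l3, l4, n 0, n 1]

/-- The elliptic block: the sum over `λ_0, λ_1, λ_2` for fixed `λ_3, λ_4` and `(λ_5, λ_6) = n`. -/
noncomputable def QX (D : ℕ) (n : Fin 2 → Fin (D + 1)) (k : (Fin 7 → Fin (D + 1)) → ℂ)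
    (l3 l4 : Fin (D + 1)) (w t y : ℂ) : ℂ :=
  ∑ l0, ∑ l1, ∑ l2, k (ix D l0 l1 l2 l3 l4 n) *
    (NX c b 0 w t y ^ (l0 : ℕ) * DX c b 0 w t y ^ (D - (l0 : ℕ))) *
    (NX c b 1 w t y ^ (l1 : ℕ) * DX c b 1 w t y ^ (D - (l1 : ℕ))) *
    (NX c b 2 w t y ^ (l2 : ℕ) * DX c b 2 w t y ^ (D - (l2 : ℕ)))

/-- The theta block. -/
noncomputable def ET (D : ℕ) (n : Fin 2 → Fin (D + 1)) (w t y : ℂ) : ℂ :=
  (NX c b 5 w t y ^ (n 0 : ℕ) * DX c b 5 w t y ^ (D - (n 0 : ℕ))) *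
    (NX c b 6 w t y ^ (n 1 : ℕ) * DX c b 6 w t y ^ (D - (n 1 : ℕ)))

/-- The sums over the `λ` with `(λ_5, λ_6) = n`, extended to `ℂ ^ 3` and with the translation
parameters `k1, k2` of the two additive functions. -/
noncomputable def GX (D : ℕ) (n : Fin 2 → Fin (D + 1)) (k : (Fin 7 → Fin (D + 1)) → ℂ)
    (w t y k1 k2 : ℂ) : ℂ :=
  ∑ l3, ∑ l4, QX c b D n k l3 l4 w t y *
      ((NX c b 3 w t y + k1 * WW c b w t y) ^ (l3 : ℕ) * WW c b w t y ^ (D - (l3 : ℕ))) *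
      ((NX c b 4 w t y + k2 * WW c b w t y) ^ (l4 : ℕ) * WW c b w t y ^ (D - (l4 : ℕ))) *
      ET c b D n w t y

/-- The shift of the two additive functions: `ka1 v = mu 2 π i f'(zb) v / A1` etc. -/
noncomputable def ka1 (v : ℂ) : ℂ := b.mu * (2 * Real.pi * I * c.fp c.zb * v) / c.A1

/-- See `ka1`. -/
noncomputable def ka2 (v : ℂ) : ℂ := b.mu * (2 * Real.pi * I * c.fp c.r * v) / c.A2

end Ext

/-- The family of lattice elements `xb + i1 (N z) g + i2 (N z)^2 g + j g`. -/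
def CData.fam (c : CData) (xb g : Fin 3 → ℤ) (i1 i2 : ℕ) (j : ℤ) : Fin 3 → ℤ :=
  xb + (i1 : ℤ) • c.mulz g + (i2 : ℤ) • c.mulz (c.mulz g) + j • g

/-- The parameter on which the theta block depends exponentially. -/
noncomputable def CData.Tm (c : CData) (e2 : ℝ) (t : ℂ) : ℝ :=
  Real.pi * c.z.im / Complex.normSq c.A2 * e2 ^ 2 - 2 * Real.pi * e2 * t.im

end CZ

end S_H22_CZ_Defs

section S_H22_CZ_Ba1

set_option autoImplicit false

namespace CZ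

open Complex

variable {z : ℂ} (b : BaseFn z)

lemma A_int (m : ℤ) (s : ℂ) : b.A (s + m) = b.A s := by
  have h : Function.Periodic b.A 1 := b.A1
  have h1 := h.int_mul m s
  rwa [mul_one] at h1

lemma dA_int (m : ℤ) (s : ℂ) : deriv b.A (s + m) = deriv b.A s := by
  have h : (fun x : ℂ => b.A (x + m)) = b.A := funext fun x => A_int b m x
  rw [← deriv_comp_add_const b.A (m : ℂ) s, h]

lemma B_int (m : ℤ) (s : ℂ) : b.B (s + m) = b.B s := by
  have h : Function.Periodic b.B 1 := b.B1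
  have h1 := h.int_mul m s
  rwa [mul_one] at h1

/-- The automorphy factor for the translation by `2 k z`. -/
noncomputable def fac (z : ℂ) (k : ℤ) (s : ℂ) : ℂ :=
  exp (-(Real.pi * I * (2 * k) ^ 2 * z) - 2 * Real.pi * I * (2 * k) * s)

lemma fac_ne (z : ℂ) (k : ℤ) (s : ℂ) : fac z k s ≠ 0 := exp_ne_zero _

/-- `‖fac‖ = exp((π / Y) (Im (s + 2 k z)^2 - (Im s)^2))`. PROOF: `‖exp w‖ = exp (re w)`;
the real part is `π (2k)^2 Y + 2 π (2k) Im s` and `Im (s + 2 k z) = Im s + 2 k Y`. -/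
lemma norm_fac (hz : 0 < z.im) (k : ℤ) (s : ℂ) :
    ‖fac z k s‖ = Real.exp (Real.pi / z.im * (s + 2 * k * z).im ^ 2 -
      Real.pi / z.im * s.im ^ 2) := by
  have e1 : (-(Real.pi * I * (2 * (k : ℂ)) ^ 2 * z) - 2 * Real.pi * I * (2 * k) * s).re =
      4 * Real.pi * k * s.im + 4 * Real.pi * k ^ 2 * z.im := by
    have h2 : (-(Real.pi * I * (2 * (k : ℂ)) ^ 2 * z) - 2 * Real.pi * I * (2 * k) * s) =
        ((-(4 * Real.pi * k ^ 2) : ℝ) : ℂ) * (I * z) + ((-(4 * Real.pi * k) : ℝ) : ℂ) * (I * s) := by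
      push_cast
      ring
    rw [h2, add_re, re_ofReal_mul, re_ofReal_mul, I_mul_re, I_mul_re]
    ring
  have e2 : (s + 2 * k * z).im = s.im + 2 * k * z.im := by
    have h2 : s + 2 * (k : ℂ) * z = s + ((2 * k : ℝ) : ℂ) * z := by
      push_cast
      ring
    rw [h2, add_im, im_ofReal_mul]
  rw [fac, Complex.norm_exp, e1, e2]
  congr 1
  have := hz.ne'
  field_simp
  ring

lemma fac_add (z : ℂ) (k l : ℤ) (s : ℂ) :
    fac z (k + l) s = fac z k (s + 2 * l * z) * fac z l s := by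
  rw [fac, fac, fac, ← exp_add]
  congr 1
  push_cast
  ring

lemma fac_zero (z : ℂ) (s : ℂ) : fac z 0 s = 1 := by
  simp [fac]

lemma fac_gen (f : ℂ → ℂ) (e : ℕ) (h : ∀ s, f (s + 2 * z) = fac z 1 s ^ e * f s) (k : ℤ) :
    ∀ s : ℂ, f (s + 2 * k * z) = fac z k s ^ e * f s := by
  induction k using Int.induction_on with
  | zero =>
    intro s
    rw [fac_zero]
    simp
  | succ k ih =>
    intro s
    have h1 : s + 2 * (((k : ℤ) + 1 : ℤ) : ℂ) * z = (s + 2 * ((k : ℤ) : ℂ) * z) + 2 * z := by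
      push_cast
      ring
    rw [h1, h, ih s, add_comm (k : ℤ) 1, fac_add, mul_pow]
    ring
  | pred k ih =>
    intro s
    have h1 : (s + 2 * ((-(k : ℤ) - 1 : ℤ) : ℂ) * z) + 2 * z = s + 2 * ((-(k : ℤ) : ℤ) : ℂ) * z := by
      push_cast
      ring
    have h2 := h (s + 2 * ((-(k : ℤ) - 1 : ℤ) : ℂ) * z)
    rw [h1, ih s] at h2
    have h3 : fac z (-(k : ℤ)) s = fac z 1 (s + 2 * ((-(k : ℤ) - 1 : ℤ) : ℂ) * z) *
        fac z (-(k : ℤ) - 1) s := by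
      rw [← fac_add]
      congr 1
      ring
    rw [h3, mul_pow, mul_assoc] at h2
    exact (mul_left_cancel₀ (pow_ne_zero _ (fac_ne _ _ _)) h2).symm

lemma A_2z (s : ℂ) : b.A (s + 2 * z) = fac z 1 s ^ 1 * b.A s := by
  have h1 : s + 2 * z = (s + z) + z := by ring
  rw [h1, b.Az, b.Az, pow_one, fac]
  have h2 : exp (-(Real.pi * I * (2 * ((1 : ℤ) : ℂ)) ^ 2 * z) - 2 * Real.pi * I * (2 * ((1 : ℤ) : ℂ)) * s) =
      exp (-(Real.pi * I * z) - 2 * Real.pi * I * (s + z)) *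
        exp (-(Real.pi * I * z) - 2 * Real.pi * I * s) := by
    rw [← exp_add]
    congr 1
    push_cast
    ring
  rw [h2]
  ring

lemma B_2z (s : ℂ) : b.B (s + 2 * z) = fac z 1 s ^ 2 * b.B s := by
  have h1 : s + 2 * z = (s + z) + z := by ring
  rw [h1, b.Bz, b.Bz, fac]
  have h2 : exp (-(Real.pi * I * (2 * ((1 : ℤ) : ℂ)) ^ 2 * z) -
      2 * Real.pi * I * (2 * ((1 : ℤ) : ℂ)) * s) ^ 2 =
      exp (2 * (-(Real.pi * I * z) - 2 * Real.pi * I * (s + z))) *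
        exp (2 * (-(Real.pi * I * z) - 2 * Real.pi * I * s)) := by
    rw [← exp_add, ← exp_nat_mul]
    congr 1
    push_cast
    ring
  rw [h2]
  ring

lemma A_zm (k m : ℤ) (s : ℂ) : b.A (s + (2 * k * z - m)) = fac z k s * b.A s := by
  have h1 := A_int b m (s + (2 * k * z - m))
  have h2 : s + (2 * k * z - m) + m = s + 2 * k * z := by ring
  rw [← h1, h2, fac_gen b.A 1 (A_2z b) k s, pow_one]

lemma dA_zm (k m : ℤ) (s : ℂ) : deriv b.A (s + (2 * k * z - m)) =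
    fac z k s * (deriv b.A s - 2 * Real.pi * I * (2 * k) * b.A s) := by
  have h : (fun x : ℂ => b.A (x + (2 * k * z - m))) = fun x => fac z k x * b.A x :=
    funext fun x => A_zm b k m x
  rw [← deriv_comp_add_const b.A (2 * k * z - m) s, h]
  have h1 : HasDerivAt (fac z k) (fac z k s * (-(2 * Real.pi * I * (2 * k)))) s := by
    have h2 : HasDerivAt (fun x : ℂ => -(Real.pi * I * (2 * k) ^ 2 * z) -
        2 * Real.pi * I * (2 * k) * x) (-(2 * Real.pi * I * (2 * k))) s := by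
      have h3 := ((hasDerivAt_id s).const_mul (2 * Real.pi * I * (2 * (k : ℂ)))).const_sub
        (-(Real.pi * I * (2 * k) ^ 2 * z))
      simpa using h3
    exact h2.cexp
  have h4 := (h1.mul (b.dA s).hasDerivAt).deriv
  have h5 : deriv (fun x => fac z k x * b.A x) s =
      fac z k s * (-(2 * Real.pi * I * (2 * k))) * b.A s + fac z k s * deriv b.A s := h4
  rw [h5]
  ring

lemma B_zm (k m : ℤ) (s : ℂ) : b.B (s + (2 * k * z - m)) = fac z k s ^ 2 * b.B s := by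
  have h1 := B_int b m (s + (2 * k * z - m))
  have h2 : s + (2 * k * z - m) + m = s + 2 * k * z := by ring
  rw [← h1, h2, fac_gen b.B 2 (B_2z b) k s]

end CZ

end S_H22_CZ_Ba1

section S_H22_CZ_Ba2

set_option autoImplicit false

namespace CZ

open Complex

variable {z : ℂ} (b : BaseFn z)

theorem ba2_rep (hz : 0 < z.im) (s : ℂ) : ∃ (k m : ℤ) (x y : ℝ), 0 ≤ x ∧ x ≤ 1 ∧ 0 ≤ y ∧ y ≤ 2 ∧
    s = ((x : ℂ) + y * z) + (2 * k * z - m) := by
  obtain ⟨y, hy⟩ : ∃ y : ℝ, y = s.im / z.im := ⟨_, rfl⟩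
  obtain ⟨k, hk⟩ : ∃ k : ℤ, k = ⌊y / 2⌋ := ⟨_, rfl⟩
  obtain ⟨x, hx⟩ : ∃ x : ℝ, x = s.re - y * z.re := ⟨_, rfl⟩
  have h1 := Int.floor_le (y / 2)
  have h2 := Int.lt_floor_add_one (y / 2)
  have h3 := Int.floor_le x
  have h4 := Int.lt_floor_add_one x
  rw [← hk] at h1 h2
  obtain ⟨n, hn⟩ : ∃ n : ℤ, n = ⌊x⌋ := ⟨_, rfl⟩
  rw [← hn] at h3 h4
  refine ⟨k, -n, x - n, y - 2 * k, by linarith, by linarith, by linarith, by linarith, ?_⟩
  have hyz : y * z.im = s.im := by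
    rw [hy]
    field_simp
  apply Complex.ext
  · simp
    rw [hx]
    ring
  · simp
    rw [← hyz]
    ring

theorem ba2_bound {F : ℂ → ℂ} (hF : Continuous F) (z : ℂ) : ∃ C : ℝ, 0 ≤ C ∧
    ∀ x y : ℝ, 0 ≤ x → x ≤ 1 → 0 ≤ y → y ≤ 2 → ‖F (x + y * z)‖ ≤ C := by
  have hK : IsCompact (Set.Icc (0 : ℝ) 1 ×ˢ Set.Icc (0 : ℝ) 2) := isCompact_Icc.prod isCompact_Icc
  have hG : Continuous fun p : ℝ × ℝ => F (p.1 + p.2 * z) := by
    refine hF.comp ?_
    fun_prop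
  obtain ⟨C, hC⟩ := hK.exists_bound_of_continuousOn hG.continuousOn
  refine ⟨max C 0, le_max_right _ _, fun x y hx hx1 hy hy1 => (hC (x, y) ⟨⟨hx, hx1⟩, ⟨hy, hy1⟩⟩).trans
    (le_max_left _ _)⟩

theorem growth (hz : 0 < z.im) : ∃ C : ℝ, 1 ≤ C ∧ ∀ s : ℂ,
    ‖b.A s‖ ≤ C * Real.exp (Real.pi / z.im * s.im ^ 2) ∧
    ‖deriv b.A s + 2 * Real.pi * I * (s.im / z.im) * b.A s‖ ≤
      C * Real.exp (Real.pi / z.im * s.im ^ 2) ∧
    ‖b.B s‖ ≤ C * Real.exp (2 * (Real.pi / z.im * s.im ^ 2)) := by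
  have hdA : Continuous (deriv b.A) := (b.dA.contDiff (n := 1)).continuous_deriv le_rfl
  obtain ⟨C1, hC1, h1⟩ := ba2_bound b.dA.continuous z
  obtain ⟨C2, hC2, h2⟩ := ba2_bound
    (F := fun s => deriv b.A s + 2 * Real.pi * I * (s.im / z.im) * b.A s)
    (hdA.add (by have := b.dA.continuous; fun_prop)) z
  obtain ⟨C3, hC3, h3⟩ := ba2_bound b.dB.continuous z
  refine ⟨1 + C1 + C2 + C3, by linarith, fun s => ?_⟩
  obtain ⟨k, m, x, y, hx0, hx1, hy0, hy1, hs⟩ := ba2_rep hz s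
  obtain ⟨s0, hs0⟩ : ∃ s0 : ℂ, s0 = (x : ℂ) + y * z := ⟨_, rfl⟩
  have e1 := h1 x y hx0 hx1 hy0 hy1
  have e2 := h2 x y hx0 hx1 hy0 hy1
  have e3 := h3 x y hx0 hx1 hy0 hy1
  rw [← hs0] at e1 e2 e3 hs
  have him : s.im = (s0 + 2 * k * z).im := by
    rw [hs]
    simp
  have him2 : s.im = s0.im + 2 * k * z.im := by
    rw [him]
    simp
  have hp : 0 < Real.pi / z.im := div_pos Real.pi_pos hz
  have hf : ‖fac z k s0‖ ≤ Real.exp (Real.pi / z.im * s.im ^ 2) := by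
    rw [norm_fac hz, him, Real.exp_le_exp]
    have : 0 ≤ Real.pi / z.im * s0.im ^ 2 := by positivity
    linarith
  have hE : 0 < Real.exp (Real.pi / z.im * s.im ^ 2) := Real.exp_pos _
  refine ⟨?_, ?_, ?_⟩
  · rw [show b.A s = fac z k s0 * b.A s0 by rw [hs, A_zm], norm_mul, mul_comm]
    exact mul_le_mul (by linarith) hf (norm_nonneg _) (by linarith)
  · have e4 : deriv b.A s + 2 * Real.pi * I * (s.im / z.im) * b.A s =
        fac z k s0 * (deriv b.A s0 + 2 * Real.pi * I * (s0.im / z.im) * b.A s0) := by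
      have hzc : (z.im : ℂ) ≠ 0 := by exact_mod_cast hz.ne'
      have e5 : ((s.im : ℝ) : ℂ) = s0.im + 2 * k * z.im := by
        rw [him2]
        push_cast
        ring
      rw [e5, show deriv b.A s = fac z k s0 * (deriv b.A s0 - 2 * Real.pi * I * (2 * k) * b.A s0) by
        rw [hs, dA_zm], show b.A s = fac z k s0 * b.A s0 by rw [hs, A_zm]]
      field_simp
      ring
    rw [e4, norm_mul, mul_comm]
    exact mul_le_mul (by linarith) hf (norm_nonneg _) (by linarith)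
  · rw [show b.B s = fac z k s0 ^ 2 * b.B s0 by rw [hs, B_zm], norm_mul, mul_comm, norm_pow]
    refine mul_le_mul (by linarith) ?_ (by positivity) (by linarith)
    rw [two_mul (Real.pi / z.im * s.im ^ 2), Real.exp_add, ← sq]
    exact pow_le_pow_left₀ (norm_nonneg _) hf 2

theorem growth' (hz : 0 < z.im) : ∃ C : ℝ, 1 ≤ C ∧ ∀ s : ℂ,
    ‖b.A s‖ ≤ Real.exp (C * (1 + s.im ^ 2)) ∧ ‖deriv b.A s‖ ≤ Real.exp (C * (1 + s.im ^ 2)) ∧
    ‖b.B s‖ ≤ Real.exp (C * (1 + s.im ^ 2)) := by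
  obtain ⟨C, hC, h⟩ := growth b hz
  have hpi := Real.pi_pos
  obtain ⟨c, hc⟩ : ∃ c : ℝ, c = Real.pi / z.im := ⟨_, rfl⟩
  have hc0 : 0 < c := by
    rw [hc]
    positivity
  obtain ⟨D, hD⟩ : ∃ D : ℝ, D = C * (1 + 2 * c) := ⟨_, rfl⟩
  have hD1 : 1 ≤ D := by
    rw [hD]
    nlinarith
  have hCD : C ≤ D := by
    rw [hD]
    nlinarith
  have hlog : 0 ≤ Real.log D := Real.log_nonneg hD1
  have key : ∀ q a : ℝ, 0 ≤ q → a ≤ (1 + 2 * c) * q → D * Real.exp a ≤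
      Real.exp ((Real.log D + 1 + 2 * c) * (1 + q)) := by
    intro q a hq ha
    have h1 : D * Real.exp a = Real.exp (Real.log D + a) := by
      rw [Real.exp_add, Real.exp_log (by linarith)]
    rw [h1, Real.exp_le_exp]
    nlinarith [mul_nonneg hlog hq]
  refine ⟨Real.log D + 1 + 2 * c, by linarith, fun s => ?_⟩
  obtain ⟨h1, h2, h3⟩ := h s
  rw [← hc] at h1 h2 h3
  have hq : 0 ≤ s.im ^ 2 := sq_nonneg _
  have hE := Real.exp_pos (c * s.im ^ 2)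
  refine ⟨?_, ?_, ?_⟩
  · refine h1.trans ((mul_le_mul_of_nonneg_right hCD hE.le).trans (key _ _ hq ?_))
    nlinarith [mul_nonneg hc0.le hq]
  · have h4 : ‖deriv b.A s‖ ≤ ‖deriv b.A s + 2 * Real.pi * I * (s.im / z.im) * b.A s‖ +
        ‖2 * Real.pi * I * (s.im / z.im) * b.A s‖ := by
      have := norm_sub_le (deriv b.A s + 2 * Real.pi * I * (s.im / z.im) * b.A s)
        (2 * Real.pi * I * (s.im / z.im) * b.A s)
      rwa [add_sub_cancel_right] at this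
    have h5 : ‖2 * Real.pi * I * (s.im / z.im) * b.A s‖ = 2 * c * |s.im| * ‖b.A s‖ := by
      rw [norm_mul, norm_mul, norm_mul, norm_mul, norm_div, Complex.norm_I, Complex.norm_ofNat,
        Complex.norm_real, Complex.norm_real, Complex.norm_real, Real.norm_eq_abs, Real.norm_eq_abs,
        Real.norm_eq_abs, abs_of_pos hpi, abs_of_pos hz, hc]
      ring
    have h6 : |s.im| ≤ 1 + s.im ^ 2 := by
      rw [abs_le]
      constructor <;> nlinarith [sq_nonneg (s.im + 1), sq_nonneg (s.im - 1)]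
    have h7 : ‖deriv b.A s‖ ≤ D * (Real.exp (s.im ^ 2) * Real.exp (c * s.im ^ 2)) := by
      have h8 : 1 + s.im ^ 2 ≤ Real.exp (s.im ^ 2) := by
        have := Real.add_one_le_exp (s.im ^ 2)
        linarith
      have h9 : 2 * c * |s.im| * ‖b.A s‖ ≤ 2 * c * (1 + s.im ^ 2) * (C * Real.exp (c * s.im ^ 2)) :=
        mul_le_mul (mul_le_mul_of_nonneg_left h6 (by positivity)) h1 (norm_nonneg _) (by positivity)
      calc ‖deriv b.A s‖ ≤ C * Real.exp (c * s.im ^ 2) +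
            2 * c * (1 + s.im ^ 2) * (C * Real.exp (c * s.im ^ 2)) := by
              rw [h5] at h4
              linarith
        _ ≤ (1 + s.im ^ 2) * (C * Real.exp (c * s.im ^ 2)) +
            2 * c * (1 + s.im ^ 2) * (C * Real.exp (c * s.im ^ 2)) := by
              have : 0 ≤ s.im ^ 2 * (C * Real.exp (c * s.im ^ 2)) := by positivity
              nlinarith
        _ = D * ((1 + s.im ^ 2) * Real.exp (c * s.im ^ 2)) := by
              rw [hD]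
              ring
        _ ≤ D * (Real.exp (s.im ^ 2) * Real.exp (c * s.im ^ 2)) := by
              refine mul_le_mul_of_nonneg_left ?_ (by linarith)
              exact mul_le_mul_of_nonneg_right h8 hE.le
    rw [← Real.exp_add] at h7
    refine h7.trans (key _ _ hq ?_)
    nlinarith [mul_nonneg hc0.le hq]
  · refine h3.trans ((mul_le_mul_of_nonneg_right hCD (Real.exp_pos _).le).trans (key _ _ hq ?_))
    nlinarith [mul_nonneg hc0.le hq]

theorem near0 : ∃ δ : ℝ, 0 < δ ∧ ∀ s : ℂ, ‖s‖ ≤ δ → 1 / 2 ≤ ‖b.A s‖ := by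
  have h1 : ContinuousAt b.A 0 := b.dA.continuous.continuousAt
  rw [Metric.continuousAt_iff] at h1
  obtain ⟨δ, hδ, h⟩ := h1 (1 / 2) (by norm_num)
  refine ⟨δ / 2, by linarith, fun s hs => ?_⟩
  have h2 := h (x := s) (by rw [dist_zero_right]; linarith)
  rw [b.A0, dist_eq_norm] at h2
  have h3 : ‖(1 : ℂ)‖ ≤ ‖b.A s‖ + ‖b.A s - 1‖ := by
    have := norm_sub_le (b.A s) (b.A s - 1)
    rwa [sub_sub_cancel] at this
  rw [norm_one] at h3
  linarith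

end CZ

end S_H22_CZ_Ba2

section S_H22_U2_Defs

set_option autoImplicit false

namespace U2

open Complex Finset

/-- The real linear function `β`. -/
noncomputable def bet (z x1 x2 : ℂ) : ℝ := x2.re - z.re * (x2.im / z.im) - x1.im / z.im

/-- The weighted size (theta degree `T`). -/
noncomputable def Nw (z : ℂ) (T : ℕ) (F : ℂ → ℂ → ℂ) (x1 x2 : ℂ) : ℝ :=
  ‖F x1 x2‖ * Real.exp (-(Real.pi * T / z.im * (x1.im ^ 2 + x2.im ^ 2)))

/-- The direction of the complex line in `β = 0`. -/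
noncomputable def mu (z : ℂ) : ℂ := -1 / (starRingEnd ℂ) z

/-- The automorphy factor of the lattice point `(m0 + m1 z, m1 + m2 z)`. -/
noncomputable def ef (z : ℂ) (T : ℕ) (m1 m2 : ℤ) (x1 x2 : ℂ) : ℂ :=
  exp (-(Real.pi * I * T * z * ((m1 : ℂ) ^ 2 + (m2 : ℂ) ^ 2)) - 2 * Real.pi * I * T * (m1 * x1 + m2 * x2))

/-- The position on the line `x + v (1, mu z)` of the lattice point `m`. -/
noncomputable def uu (z x2 : ℂ) (m : ℤ × ℤ × ℤ) : ℂ := ((m.2.1 : ℂ) + m.2.2 * z - x2) / mu z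

/-- The (real) offset of the lattice point `m` from this line. -/
noncomputable def ss (z x1 x2 : ℂ) (m : ℤ × ℤ × ℤ) : ℝ :=
  ((m.1 : ℂ) + m.2.1 * z - x1 - uu z x2 m).re

/-- The hypotheses of the Schwarz lemma: `F` is entire with Taylor coefficients `J`, has the automorphy
factors `ef` for the lattice, and its weighted size grows at most like `exp (A (1 + log (1 + |β|)))`. -/
structure FD (z : ℂ) (T : ℕ) (F : ℂ → ℂ → ℂ) (J : ℕ → ℕ → ℂ) (A : ℝ) : Prop where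
  ser : ∀ x1 x2 : ℂ, HasSum (fun p : ℕ × ℕ ↦ J p.1 p.2 * x1 ^ p.1 * x2 ^ p.2) (F x1 x2)
  inv : ∀ (m0 m1 m2 : ℤ) (x1 x2 : ℂ),
    F (x1 + (m0 + m1 * z)) (x2 + (m1 + m2 * z)) = ef z T m1 m2 x1 x2 * F x1 x2
  gr : ∀ x1 x2 : ℂ, Nw z T F x1 x2 ≤ Real.exp (A * (1 + Real.log (1 + |bet z x1 x2|)))

/-- The covering hypothesis. -/
def COV (z : ℂ) (N K : ℕ) : Prop :=
  ∀ θ : ℝ, ∃ m0 m1 m2 : ℤ, |m1| ≤ (K : ℤ) ∧ |m2| ≤ (K : ℤ) ∧
    |(m0 : ℝ) + m1 * (2 * z.re) + m2 * ‖z‖ ^ 2 - θ| ≤ 1 / (N : ℝ)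

section Fun

variable {z : ℂ} (b : CZ.BaseFn z)

/-- `A ^ (2 (D - i)) B ^ i`. -/
noncomputable def HH (D i : ℕ) (s : ℂ) : ℂ := b.A s ^ (2 * (D - i)) * b.B s ^ i

/-- `v_1 = 1 / (2 π i T)`, `T = 2 D`. -/
noncomputable def v1 (D : ℕ) : ℂ := 1 / (2 * Real.pi * I * (2 * D))

/-- `v_2 = z / (2 π i T)`. -/
noncomputable def v2 (z : ℂ) (D : ℕ) : ℂ := z / (2 * Real.pi * I * (2 * D))

/-- The generating function. -/
noncomputable def Psi (D i1 i2 : ℕ) (x1 x2 t : ℂ) : ℂ :=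
  exp (t * x2) * HH b D i1 (x1 + t * v1 D) * HH b D i2 (x2 + t * v2 z D)

/-- The functions. -/
noncomputable def Phi (D i1 i2 k : ℕ) (x1 x2 : ℂ) : ℂ :=
  iteratedDeriv k (fun t ↦ Psi b D i1 i2 x1 x2 t) 0

/-- The Taylor coefficients of `Phi` at the origin. -/
noncomputable def jc (D i1 i2 k a c : ℕ) : ℂ :=
  ∑ p ∈ antidiagonal k, ∑ q ∈ antidiagonal p.2,
    if q.1 ≤ c then
      (k.choose p.1 : ℂ) * (p.2.choose q.1 : ℂ) * v1 D ^ p.1 * v2 z D ^ q.2 *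
        (iteratedDeriv (a + p.1) (HH b D i1) 0 / (a.factorial : ℂ)) *
        (iteratedDeriv (c - q.1 + q.2) (HH b D i2) 0 / ((c - q.1).factorial : ℂ))
    else 0

/-- The index set. -/
abbrev Ix (D Q : ℕ) : Type := Fin (D + 1) × Fin (D + 1) × Fin Q

/-- Linear combinations. -/
noncomputable def FF (D Q : ℕ) (c : Ix D Q → ℂ) (x1 x2 : ℂ) : ℂ :=
  ∑ l, c l * Phi b D l.1 l.2.1 l.2.2 x1 x2

/-- Their Taylor coefficients. -/
noncomputable def JJ (D Q : ℕ) (c : Ix D Q → ℂ) (a e : ℕ) : ℂ :=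
  ∑ l, c l * jc b D l.1 l.2.1 l.2.2 a e

end Fun

end U2

end S_H22_U2_Defs

section S_H22_U2_Bas

set_option autoImplicit false

namespace U2

open Complex Finset

theorem mu_ne {z : ℂ} (hz : 0 < z.im) : mu z ≠ 0 := by
  unfold mu
  have h : (starRingEnd ℂ) z ≠ 0 := by
    intro h0
    have h1 : z = 0 := by simpa using h0
    rw [h1] at hz
    simp at hz
  exact div_ne_zero (by norm_num) h

theorem bet_gam {z : ℂ} (hz : 0 < z.im) (m0 m1 m2 : ℤ) (x1 x2 : ℂ) :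
    bet z (x1 + (m0 + m1 * z)) (x2 + (m1 + m2 * z)) = bet z x1 x2 := by
  have hz' : z.im ≠ 0 := hz.ne'
  simp only [bet, add_re, add_im, mul_re, mul_im, intCast_re, intCast_im, zero_mul, sub_zero, add_zero,
    zero_add]
  field_simp
  ring

private theorem normSq_pos {z : ℂ} (hz : 0 < z.im) : 0 < z.re * z.re + z.im * z.im := by
  have h1 : 0 < z.im * z.im := mul_pos hz hz
  have h2 : 0 ≤ z.re * z.re := mul_self_nonneg _
  linarith

private theorem mu_re {z : ℂ} : (mu z).re = -z.re / (z.re * z.re + z.im * z.im) := by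
  simp only [mu, div_re, neg_re, one_re, neg_im, one_im, conj_re, conj_im, normSq_apply]
  ring

private theorem mu_im {z : ℂ} : (mu z).im = -z.im / (z.re * z.re + z.im * z.im) := by
  simp only [mu, div_im, neg_re, one_re, neg_im, one_im, conj_re, conj_im, normSq_apply]
  ring

theorem bet_line {z : ℂ} (hz : 0 < z.im) (x1 x2 v : ℂ) :
    bet z (x1 + v) (x2 + mu z * v) = bet z x1 x2 := by
  have hz' : z.im ≠ 0 := hz.ne'
  have hn : z.re * z.re + z.im * z.im ≠ 0 := (normSq_pos hz).ne'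
  simp only [bet, add_re, add_im, mul_re, mul_im, mu_re, mu_im]
  field_simp
  ring

theorem bet_re2 (z : ℂ) (x1 x2 : ℂ) (r : ℝ) : bet z x1 (x2 + r) = bet z x1 x2 + r := by
  simp only [bet, add_re, add_im, ofReal_re, ofReal_im, add_zero]
  ring

theorem bet_im1 {z : ℂ} (hz : 0 < z.im) (x1 x2 w : ℂ) :
    bet z (x1 - z.im * w) x2 = bet z x1 x2 + w.im := by
  have hz' : z.im ≠ 0 := hz.ne'
  simp only [bet, sub_im, mul_im, ofReal_re, ofReal_im, zero_mul, add_zero]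
  field_simp
  ring

theorem im_comb {z : ℂ} (hz : 0 < z.im) (x1 x2 : ℂ) :
    (x1 + (starRingEnd ℂ) z * x2).im = -(z.im * bet z x1 x2) := by
  have hz' : z.im ≠ 0 := hz.ne'
  simp only [bet, add_im, mul_im, conj_re, conj_im]
  field_simp
  ring

theorem bet_le (z : ℂ) : ∃ C : ℕ, 1 ≤ C ∧ ∀ x1 x2 : ℂ, |bet z x1 x2| ≤ C * (‖x1‖ + ‖x2‖) := by
  obtain ⟨C, hC⟩ := exists_nat_ge (1 + |z.re / z.im| + |1 / z.im|)
  have h0 : 0 ≤ |z.re / z.im| := abs_nonneg _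
  have h1 : 0 ≤ |1 / z.im| := abs_nonneg _
  refine ⟨C, ?_, fun x1 x2 ↦ ?_⟩
  · have : (1 : ℝ) ≤ C := by linarith
    exact_mod_cast this
  · have e : bet z x1 x2 = x2.re - (z.re / z.im) * x2.im - (1 / z.im) * x1.im := by
      unfold bet
      ring
    rw [e]
    have a1 : |x2.re| ≤ ‖x2‖ := abs_re_le_norm x2
    have a2 : |x2.im| ≤ ‖x2‖ := abs_im_le_norm x2
    have a3 : |x1.im| ≤ ‖x1‖ := abs_im_le_norm x1
    have n1 : 0 ≤ ‖x1‖ := norm_nonneg _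
    have n2 : 0 ≤ ‖x2‖ := norm_nonneg _
    calc |x2.re - (z.re / z.im) * x2.im - (1 / z.im) * x1.im|
        ≤ |x2.re - (z.re / z.im) * x2.im| + |(1 / z.im) * x1.im| := abs_sub _ _
      _ ≤ |x2.re| + |(z.re / z.im) * x2.im| + |(1 / z.im) * x1.im| := by
          have := abs_sub x2.re ((z.re / z.im) * x2.im)
          linarith
      _ = |x2.re| + |z.re / z.im| * |x2.im| + |1 / z.im| * |x1.im| := by
          rw [abs_mul, abs_mul]
      _ ≤ ‖x2‖ + |z.re / z.im| * ‖x2‖ + |1 / z.im| * ‖x1‖ := by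
          have b2 := mul_le_mul_of_nonneg_left a2 h0
          have b3 := mul_le_mul_of_nonneg_left a3 h1
          linarith
      _ ≤ C * (‖x1‖ + ‖x2‖) := by
          have c1 : (1 + |z.re / z.im|) * ‖x2‖ ≤ C * ‖x2‖ :=
            mul_le_mul_of_nonneg_right (by linarith) n2
          have c2 : |1 / z.im| * ‖x1‖ ≤ C * ‖x1‖ :=
            mul_le_mul_of_nonneg_right (by linarith) n1
          nlinarith

theorem norm_ef {z : ℂ} (hz : 0 < z.im) (T : ℕ) (m1 m2 : ℤ) (x1 x2 : ℂ) :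
    ‖ef z T m1 m2 x1 x2‖ = Real.exp (Real.pi * T / z.im *
      ((x1.im + m1 * z.im) ^ 2 + (x2.im + m2 * z.im) ^ 2 - (x1.im ^ 2 + x2.im ^ 2))) := by
  have hz' : z.im ≠ 0 := hz.ne'
  rw [ef, norm_exp]
  congr 1
  simp only [sub_re, neg_re, mul_re, mul_im, add_re, add_im, I_re, I_im, ofReal_re, ofReal_im, natCast_re,
    natCast_im, intCast_re, intCast_im, pow_two, re_ofNat, im_ofNat]
  field_simp
  ring

theorem Nw_gam {z : ℂ} (hz : 0 < z.im) {T : ℕ} {F : ℂ → ℂ → ℂ} {J : ℕ → ℕ → ℂ} {A : ℝ}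
    (hF : FD z T F J A) (m0 m1 m2 : ℤ) (x1 x2 : ℂ) :
    Nw z T F (x1 + (m0 + m1 * z)) (x2 + (m1 + m2 * z)) = Nw z T F x1 x2 := by
  rw [Nw, Nw, hF.inv, norm_mul, norm_ef hz]
  have e1 : (x1 + (m0 + m1 * z)).im = x1.im + m1 * z.im := by simp
  have e2 : (x2 + (m1 + m2 * z)).im = x2.im + m2 * z.im := by simp
  rw [e1, e2, mul_comm (Real.exp _) ‖F x1 x2‖, mul_assoc, ← Real.exp_add]
  congr 2
  ring

private theorem quad_one (P : ℝ) (a e w : ℂ) : P * (a + w * e).im ^ 2 =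
    ((P / 2 : ℝ) * (e * (starRingEnd ℂ) e - e ^ 2) * w ^ 2 +
      (P : ℝ) * (e * (starRingEnd ℂ) a - a * e) * w +
      (P / 2 : ℝ) * (a * (starRingEnd ℂ) a - a ^ 2)).re + P * ‖e‖ ^ 2 * w.im ^ 2 := by
  rw [← normSq_eq_norm_sq, normSq_apply]
  simp only [pow_two, add_re, add_im, sub_re, sub_im, mul_re, mul_im, ofReal_re, ofReal_im, conj_re,
    conj_im]
  ring

theorem quad (P : ℝ) (a1 a2 e1 e2 : ℂ) : ∃ α β γ : ℂ, ∀ w : ℂ,
    P * ((a1 + w * e1).im ^ 2 + (a2 + w * e2).im ^ 2) =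
      (α * w ^ 2 + β * w + γ).re + P * (‖e1‖ ^ 2 + ‖e2‖ ^ 2) * w.im ^ 2 := by
  refine ⟨(P / 2 : ℝ) * (e1 * (starRingEnd ℂ) e1 - e1 ^ 2) + (P / 2 : ℝ) * (e2 * (starRingEnd ℂ) e2 - e2 ^ 2),
    (P : ℝ) * (e1 * (starRingEnd ℂ) a1 - a1 * e1) + (P : ℝ) * (e2 * (starRingEnd ℂ) a2 - a2 * e2),
    (P / 2 : ℝ) * (a1 * (starRingEnd ℂ) a1 - a1 ^ 2) + (P / 2 : ℝ) * (a2 * (starRingEnd ℂ) a2 - a2 ^ 2),
    fun w ↦ ?_⟩
  rw [mul_add, quad_one, quad_one]
  simp only [add_re, add_mul]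
  ring

private theorem inv_mu {z : ℂ} (hz : 0 < z.im) (y : ℂ) : y / mu z = -(y * (starRingEnd ℂ) z) := by
  have h : (starRingEnd ℂ) z ≠ 0 := by
    intro h0
    have h1 : z = 0 := by simpa using h0
    rw [h1] at hz
    simp at hz
  rw [mu]
  field_simp

theorem ss_val {z : ℂ} (hz : 0 < z.im) (x1 x2 : ℂ) (m : ℤ × ℤ × ℤ) :
    ss z x1 x2 m = (m.1 : ℝ) + m.2.1 * (2 * z.re) + m.2.2 * ‖z‖ ^ 2 -
      (x1 + (starRingEnd ℂ) z * x2).re := by
  rw [ss, uu, inv_mu hz, ← normSq_eq_norm_sq, normSq_apply]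
  simp only [add_re, add_im, sub_re, sub_im, neg_re, mul_re, mul_im, intCast_re, intCast_im, conj_re,
    conj_im]
  ring

theorem ss_eq {z : ℂ} (hz : 0 < z.im) (x1 x2 : ℂ) (hb : bet z x1 x2 = 0) (m : ℤ × ℤ × ℤ) :
    (m.1 : ℂ) + m.2.1 * z - x1 - uu z x2 m = (ss z x1 x2 m : ℝ) := by
  apply Complex.ext
  · simp [ss]
  · have h := im_comb hz x1 x2
    rw [hb, mul_zero, neg_zero] at h
    simp only [add_im, mul_im, conj_re, conj_im] at h
    rw [uu, inv_mu hz]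
    simp only [add_re, add_im, sub_re, sub_im, neg_im, mul_re, mul_im, intCast_re, intCast_im, conj_re,
      conj_im, ofReal_im]
    linarith

theorem line_diff {F : ℂ → ℂ → ℂ} {J : ℕ → ℕ → ℂ}
    (hser : ∀ x1 x2 : ℂ, HasSum (fun p : ℕ × ℕ ↦ J p.1 p.2 * x1 ^ p.1 * x2 ^ p.2) (F x1 x2))
    (x1 x2 e1 e2 : ℂ) : Differentiable ℂ fun w : ℂ ↦ F (x1 + w * e1) (x2 + w * e2) := by
  intro w0
  obtain ⟨R, hR⟩ : ∃ R : ℝ, R = ‖w0‖ + 1 := ⟨_, rfl⟩
  have hR0 : 0 ≤ R := by rw [hR]; positivity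
  have hu : Summable (fun p : ℕ × ℕ ↦ ‖J p.1 p.2‖ * (‖x1‖ + R * ‖e1‖) ^ p.1 *
      (‖x2‖ + R * ‖e2‖) ^ p.2) := by
    have h1 := (hser ((‖x1‖ + R * ‖e1‖ : ℝ) : ℂ) ((‖x2‖ + R * ‖e2‖ : ℝ) : ℂ)).summable.norm
    refine h1.congr (fun p ↦ ?_)
    rw [norm_mul, norm_mul, norm_pow, norm_pow, Complex.norm_real, Complex.norm_real,
      Real.norm_eq_abs, Real.norm_eq_abs, abs_of_nonneg (by positivity), abs_of_nonneg (by positivity)]
  have h2 : DifferentiableOn ℂ (fun w : ℂ ↦ ∑' p : ℕ × ℕ, J p.1 p.2 * (x1 + w * e1) ^ p.1 *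
      (x2 + w * e2) ^ p.2) (Metric.ball 0 R) := by
    refine Complex.differentiableOn_tsum_of_summable_norm hu (fun p ↦ ?_) Metric.isOpen_ball ?_
    · refine Differentiable.differentiableOn ?_
      fun_prop
    · intro p w hw
      have h3 : ‖w‖ ≤ R := by
        rw [mem_ball_zero_iff] at hw
        exact hw.le
      have key : ∀ x e : ℂ, ‖x + w * e‖ ≤ ‖x‖ + R * ‖e‖ := by
        intro x e
        refine (norm_add_le _ _).trans ?_
        rw [norm_mul]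
        have h4 := mul_le_mul_of_nonneg_right h3 (norm_nonneg e)
        linarith
      rw [norm_mul, norm_mul, norm_pow, norm_pow]
      exact mul_le_mul (mul_le_mul_of_nonneg_left (pow_le_pow_left₀ (norm_nonneg _) (key _ _) _)
        (norm_nonneg _)) (pow_le_pow_left₀ (norm_nonneg _) (key _ _) _) (by positivity)
        (by positivity)
  have h5 : (fun w : ℂ ↦ F (x1 + w * e1) (x2 + w * e2)) =
      fun w : ℂ ↦ ∑' p : ℕ × ℕ, J p.1 p.2 * (x1 + w * e1) ^ p.1 * (x2 + w * e2) ^ p.2 := by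
    funext w
    exact (hser _ _).tsum_eq.symm
  rw [h5]
  refine h2.differentiableAt (Metric.isOpen_ball.mem_nhds ?_)
  rw [mem_ball_zero_iff, hR]
  linarith

end U2

end S_H22_U2_Bas

section S_H22_U2_Inv

set_option autoImplicit false

namespace U2

open Complex Finset

variable {z : ℂ} (b : CZ.BaseFn z)

theorem HH_diff (D i : ℕ) : Differentiable ℂ (HH b D i) := by
  unfold HH
  exact (b.dA.pow _).mul (b.dB.pow _)

private theorem A_int (n : ℕ) (s : ℂ) : b.A (s + n) = b.A s := by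
  induction n with
  | zero => simp
  | succ n ih =>
    rw [show s + ((n + 1 : ℕ) : ℂ) = (s + n) + 1 by push_cast; ring, b.A1, ih]

private theorem B_int (n : ℕ) (s : ℂ) : b.B (s + n) = b.B s := by
  induction n with
  | zero => simp
  | succ n ih =>
    rw [show s + ((n + 1 : ℕ) : ℂ) = (s + n) + 1 by push_cast; ring, b.B1, ih]

theorem HH_int (D i : ℕ) (n : ℤ) (s : ℂ) : HH b D i (s + n) = HH b D i s := by
  unfold HH
  obtain ⟨m, rfl | rfl⟩ := n.eq_nat_or_neg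
  · rw [Int.cast_natCast, A_int, B_int]
  · have h1 := A_int b m (s + ((-(m : ℤ) : ℤ) : ℂ))
    have h2 := B_int b m (s + ((-(m : ℤ) : ℤ) : ℂ))
    have h3 : s + ((-(m : ℤ) : ℤ) : ℂ) + m = s := by push_cast; ring
    rw [h3] at h1 h2
    rw [← h1, ← h2]

private theorem HH_z1 (D i : ℕ) (hi : i ≤ D) (s : ℂ) : HH b D i (s + z) =
    exp (-(Real.pi * I * ((2 * D : ℕ) : ℂ) * z) -
      2 * Real.pi * I * ((2 * D : ℕ) : ℂ) * s) * HH b D i s := by
  have hA : b.A (s + z) ^ 2 = exp (2 * (-(Real.pi * I * z) - 2 * Real.pi * I * s)) * b.A s ^ 2 := by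
    rw [b.Az s, neg_sq, mul_pow, ← exp_nat_mul]
    push_cast
    rfl
  unfold HH
  rw [pow_mul, hA, b.Bz s, mul_pow, mul_pow, ← exp_nat_mul, ← exp_nat_mul, pow_mul]
  have hx : exp (((D - i : ℕ) : ℂ) * (2 * (-(Real.pi * I * z) - 2 * Real.pi * I * s))) *
      exp ((i : ℂ) * (2 * (-(Real.pi * I * z) - 2 * Real.pi * I * s))) =
      exp (-(Real.pi * I * ((2 * D : ℕ) : ℂ) * z) -
      2 * Real.pi * I * ((2 * D : ℕ) : ℂ) * s) := by
    rw [← exp_add]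
    congr 1
    rw [Nat.cast_sub hi]
    push_cast
    ring
  rw [← hx]
  ring

private theorem HH_zn (D i : ℕ) (hi : i ≤ D) (n : ℕ) (s : ℂ) : HH b D i (s + n * z) =
    exp (-(Real.pi * I * ((2 * D : ℕ) : ℂ) * z * (n : ℂ) ^ 2) -
      2 * Real.pi * I * ((2 * D : ℕ) : ℂ) * (n * s)) * HH b D i s := by
  induction n with
  | zero => simp
  | succ n ih =>
    rw [show s + ((n + 1 : ℕ) : ℂ) * z = (s + n * z) + z by push_cast; ring, HH_z1 b D i hi, ih,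
      ← mul_assoc, ← exp_add]
    congr 2
    push_cast
    ring

theorem HH_z (D i : ℕ) (hi : i ≤ D) (n : ℤ) (s : ℂ) : HH b D i (s + n * z) =
    exp (-(Real.pi * I * ((2 * D : ℕ) : ℂ) * z * (n : ℂ) ^ 2) -
      2 * Real.pi * I * ((2 * D : ℕ) : ℂ) * (n * s)) * HH b D i s := by
  obtain ⟨m, rfl | rfl⟩ := n.eq_nat_or_neg
  · rw [Int.cast_natCast, HH_zn b D i hi]
  · have h1 := HH_zn b D i hi m (s + ((-(m : ℤ) : ℤ) : ℂ) * z)
    have h3 : s + ((-(m : ℤ) : ℤ) : ℂ) * z + m * z = s := by push_cast; ring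
    rw [h3] at h1
    rw [h1, ← mul_assoc, ← exp_add]
    have h4 : -(Real.pi * I * ((2 * D : ℕ) : ℂ) * z * (((-(m : ℤ) : ℤ) : ℂ)) ^ 2) -
      2 * Real.pi * I * ((2 * D : ℕ) : ℂ) * (((-(m : ℤ) : ℤ) : ℂ) * s) +
      (-(Real.pi * I * ((2 * D : ℕ) : ℂ) * z * (m : ℂ) ^ 2) -
      2 * Real.pi * I * ((2 * D : ℕ) : ℂ) * (m * (s + ((-(m : ℤ) : ℤ) : ℂ) * z))) = 0 := by
      push_cast
      ring
    rw [h4, exp_zero, one_mul]

theorem Psi_inv (D i1 i2 : ℕ) (hD : 1 ≤ D) (h1 : i1 ≤ D) (h2 : i2 ≤ D) (m0 m1 m2 : ℤ)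
    (x1 x2 t : ℂ) : Psi b D i1 i2 (x1 + (m0 + m1 * z)) (x2 + (m1 + m2 * z)) t =
      ef z (2 * D) m1 m2 x1 x2 * Psi b D i1 i2 x1 x2 t := by
  have hD0 : (D : ℂ) ≠ 0 := by
    exact_mod_cast (by omega : D ≠ 0)
  have hpi : (Real.pi : ℂ) ≠ 0 := by exact_mod_cast Real.pi_ne_zero
  have hv : (2 : ℂ) * Real.pi * I * (2 * D) ≠ 0 :=
    mul_ne_zero (mul_ne_zero (mul_ne_zero two_ne_zero hpi) I_ne_zero)
      (mul_ne_zero two_ne_zero hD0)
  have hA : HH b D i1 (x1 + (m0 + m1 * z) + t * v1 D) =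
      exp (-(Real.pi * I * ((2 * D : ℕ) : ℂ) * z * (m1 : ℂ) ^ 2) -
      2 * Real.pi * I * ((2 * D : ℕ) : ℂ) * (m1 * (x1 + t * v1 D))) * HH b D i1 (x1 + t * v1 D) := by
    rw [show x1 + ((m0 : ℂ) + m1 * z) + t * v1 D = (x1 + t * v1 D + m1 * z) + (m0 : ℂ) by ring,
      HH_int, HH_z b D i1 h1]
  have hB : HH b D i2 (x2 + (m1 + m2 * z) + t * v2 z D) =
      exp (-(Real.pi * I * ((2 * D : ℕ) : ℂ) * z * (m2 : ℂ) ^ 2) -
      2 * Real.pi * I * ((2 * D : ℕ) : ℂ) * (m2 * (x2 + t * v2 z D))) *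
      HH b D i2 (x2 + t * v2 z D) := by
    rw [show x2 + ((m1 : ℂ) + m2 * z) + t * v2 z D = (x2 + t * v2 z D + m2 * z) + (m1 : ℂ) by ring,
      HH_int, HH_z b D i2 h2]
  have hv1 : 2 * Real.pi * I * (2 * D) * v1 D = 1 := by
    unfold v1
    rw [mul_one_div, div_self hv]
  have hv2 : 2 * Real.pi * I * (2 * D) * v2 z D = z := by
    unfold v2
    rw [mul_div_assoc', mul_comm, mul_div_assoc, div_self hv, mul_one]
  unfold Psi
  rw [hA, hB]
  have hx : exp (t * (x2 + (m1 + m2 * z))) * exp (-(Real.pi * I * ((2 * D : ℕ) : ℂ) * z * (m1 : ℂ) ^ 2) -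
      2 * Real.pi * I * ((2 * D : ℕ) : ℂ) * (m1 * (x1 + t * v1 D))) *
      exp (-(Real.pi * I * ((2 * D : ℕ) : ℂ) * z * (m2 : ℂ) ^ 2) -
      2 * Real.pi * I * ((2 * D : ℕ) : ℂ) * (m2 * (x2 + t * v2 z D))) =
      ef z (2 * D) m1 m2 x1 x2 * exp (t * x2) := by
    unfold ef
    rw [← exp_add, ← exp_add, ← exp_add]
    congr 1
    push_cast
    linear_combination (-(m1 : ℂ) * t) * hv1 + (-(m2 : ℂ) * t) * hv2
  calc exp (t * (x2 + (m1 + m2 * z))) * (exp (-(Real.pi * I * ((2 * D : ℕ) : ℂ) * z * (m1 : ℂ) ^ 2) -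
      2 * Real.pi * I * ((2 * D : ℕ) : ℂ) * (m1 * (x1 + t * v1 D))) * HH b D i1 (x1 + t * v1 D)) *
      (exp (-(Real.pi * I * ((2 * D : ℕ) : ℂ) * z * (m2 : ℂ) ^ 2) -
      2 * Real.pi * I * ((2 * D : ℕ) : ℂ) * (m2 * (x2 + t * v2 z D))) *
      HH b D i2 (x2 + t * v2 z D))
      = (exp (t * (x2 + (m1 + m2 * z))) * exp (-(Real.pi * I * ((2 * D : ℕ) : ℂ) * z * (m1 : ℂ) ^ 2) -
      2 * Real.pi * I * ((2 * D : ℕ) : ℂ) * (m1 * (x1 + t * v1 D))) *
      exp (-(Real.pi * I * ((2 * D : ℕ) : ℂ) * z * (m2 : ℂ) ^ 2) -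
      2 * Real.pi * I * ((2 * D : ℕ) : ℂ) * (m2 * (x2 + t * v2 z D)))) *
      (HH b D i1 (x1 + t * v1 D) * HH b D i2 (x2 + t * v2 z D)) := by ring
    _ = _ := by rw [hx]; ring

theorem Phi_inv (D i1 i2 k : ℕ) (hD : 1 ≤ D) (h1 : i1 ≤ D) (h2 : i2 ≤ D) (m0 m1 m2 : ℤ)
    (x1 x2 : ℂ) : Phi b D i1 i2 k (x1 + (m0 + m1 * z)) (x2 + (m1 + m2 * z)) =
      ef z (2 * D) m1 m2 x1 x2 * Phi b D i1 i2 k x1 x2 := by
  unfold Phi
  have h : (fun t ↦ Psi b D i1 i2 (x1 + (m0 + m1 * z)) (x2 + (m1 + m2 * z)) t) =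
      fun t ↦ ef z (2 * D) m1 m2 x1 x2 * Psi b D i1 i2 x1 x2 t := by
    funext t
    exact Psi_inv b D i1 i2 hD h1 h2 m0 m1 m2 x1 x2 t
  rw [h, iteratedDeriv_const_mul_field]

private theorem Psi_diff (D i1 i2 : ℕ) (x1 x2 : ℂ) :
    Differentiable ℂ (fun t ↦ Psi b D i1 i2 x1 x2 t) := by
  unfold Psi
  have e1 : Differentiable ℂ (fun t : ℂ ↦ exp (t * x2)) :=
    (differentiable_id.mul_const x2).cexp
  have e2 : Differentiable ℂ (fun t : ℂ ↦ HH b D i1 (x1 + t * v1 D)) :=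
    (HH_diff b D i1).comp ((differentiable_id.mul_const (v1 D)).const_add x1)
  have e3 : Differentiable ℂ (fun t : ℂ ↦ HH b D i2 (x2 + t * v2 z D)) :=
    (HH_diff b D i2).comp ((differentiable_id.mul_const (v2 z D)).const_add x2)
  exact (e1.mul e2).mul e3

theorem Phi_shift (D i1 i2 k n : ℕ) (x1 x2 : ℂ) : Phi b D i1 i2 k x1 (x2 + n) =
    ∑ j ∈ range (k + 1), (k.choose j : ℂ) * (n : ℂ) ^ j * Phi b D i1 i2 (k - j) x1 x2 := by
  have h : (fun t ↦ Psi b D i1 i2 x1 (x2 + n) t) =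
      fun t ↦ exp ((n : ℂ) * t) * Psi b D i1 i2 x1 x2 t := by
    funext t
    have e1 : HH b D i2 (x2 + n + t * v2 z D) = HH b D i2 (x2 + t * v2 z D) := by
      have e := HH_int b D i2 (n : ℤ) (x2 + t * v2 z D)
      rw [Int.cast_natCast] at e
      rw [← e]
      congr 1
      ring
    unfold Psi
    rw [e1, show t * (x2 + n) = n * t + t * x2 by ring, exp_add]
    ring
  unfold Phi
  rw [h]
  have hc : Differentiable ℂ (fun t : ℂ ↦ exp ((n : ℂ) * t)) :=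
    (differentiable_id.const_mul (n : ℂ)).cexp
  rw [iteratedDeriv_fun_mul hc.contDiff.contDiffAt (Psi_diff b D i1 i2 x1 x2).contDiff.contDiffAt]
  refine Finset.sum_congr rfl fun j _ ↦ ?_
  have hj : iteratedDeriv j (fun t : ℂ ↦ exp ((n : ℂ) * t)) 0 = (n : ℂ) ^ j := by
    rw [iteratedDeriv_cexp_const_mul]
    simp
  rw [hj]

end U2

end S_H22_U2_Inv

section S_H22_U2_Non

set_option autoImplicit false

namespace U2

open Complex Finset


theorem Non_root (N : ℕ) (hN : 0 < N) : ∃ ζ : ℂ, ‖ζ‖ = 1 ∧ ∀ m m' : ℕ, m < N → m' < N →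
    ∑ k ∈ range N, ((ζ ^ m)⁻¹) ^ k * (ζ ^ k) ^ m' = if m = m' then (N : ℂ) else 0 := by
  have hp := Complex.isPrimitiveRoot_exp N hN.ne'
  set ζ : ℂ := exp (2 * Real.pi * I / N) with hζ
  have h1 : ζ ^ N = 1 := hp.pow_eq_one
  have hn : ‖ζ‖ = 1 := Complex.norm_eq_one_of_pow_eq_one h1 hN.ne'
  have h0 : ζ ≠ 0 := by
    intro h
    rw [h, norm_zero] at hn
    exact zero_ne_one hn
  refine ⟨ζ, hn, fun m m' hm hm' => ?_⟩
  have e : ∀ k, ((ζ ^ m)⁻¹) ^ k * (ζ ^ k) ^ m' = ((ζ ^ m)⁻¹ * ζ ^ m') ^ k := by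
    intro k
    rw [mul_pow, ← pow_mul ζ k m', ← pow_mul ζ m' k, mul_comm k m']
  simp only [e]
  by_cases h : m = m'
  · subst h
    rw [if_pos rfl, inv_mul_cancel₀ (pow_ne_zero _ h0)]
    simp
  · rw [if_neg h]
    have hne : (ζ ^ m)⁻¹ * ζ ^ m' ≠ 1 := by
      intro h2
      apply h
      have h3 : ζ ^ m' = ζ ^ m := by
        have h4 := congrArg (fun t => ζ ^ m * t) h2
        simp only [mul_one] at h4
        rwa [← mul_assoc, mul_inv_cancel₀ (pow_ne_zero _ h0), one_mul] at h4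
      exact (hp.pow_inj hm' hm h3).symm
    rw [geom_sum_eq hne]
    have h5 : ((ζ ^ m)⁻¹ * ζ ^ m') ^ N = 1 := by
      rw [mul_pow, inv_pow, ← pow_mul, ← pow_mul, mul_comm m N, mul_comm m' N, pow_mul, pow_mul,
        h1]
      simp
    rw [h5, sub_self, zero_div]

theorem Non_lin (w0 : ℂ) (r : ℝ) (hr : 0 < r) (hr1 : r ≤ 1) (N : ℕ) (hN : 0 < N) :
    ∃ (w : ℕ → ℂ) (lam : ℕ → ℕ → ℂ), (∀ k, ‖w k - w0‖ ≤ r) ∧
      (∀ i k, ‖lam i k‖ ≤ (2 * (1 + ‖w0‖) / r) ^ N) ∧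
      ∀ c : Fin N → ℂ, ∀ i : Fin N,
        c i = ∑ k ∈ range N, lam i k * ∑ j, c j * w k ^ (j : ℕ) := by
  obtain ⟨ζ, hζ, horth⟩ := Non_root N hN
  have hζ0 : ζ ≠ 0 := by
    intro h
    rw [h, norm_zero] at hζ
    exact zero_ne_one hζ
  have hNc : (N : ℂ) ≠ 0 := by exact_mod_cast hN.ne'
  have hrc : (r : ℂ) ≠ 0 := by exact_mod_cast hr.ne'
  refine ⟨fun k => w0 + r * ζ ^ k, fun i k => (∑ m ∈ range N,
    ((Polynomial.X - Polynomial.C w0 : Polynomial ℂ) ^ m).coeff i * ((r : ℂ) ^ m)⁻¹ *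
      ((ζ ^ m)⁻¹) ^ k) / N, ?_, ?_, ?_⟩
  · intro k
    simp only [add_sub_cancel_left, norm_mul, norm_pow, hζ, one_pow, mul_one]
    rw [Complex.norm_real, Real.norm_of_nonneg hr.le]
  · intro i k
    set K : ℝ := 2 * (1 + ‖w0‖) / r with hK
    have hK1 : 1 ≤ K := by
      rw [hK, le_div_iff₀ hr]
      have := norm_nonneg w0
      linarith
    have hterm : ∀ m ∈ range N, ‖((Polynomial.X - Polynomial.C w0 : Polynomial ℂ) ^ m).coeff i *
        ((r : ℂ) ^ m)⁻¹ * ((ζ ^ m)⁻¹) ^ k‖ ≤ K ^ N := by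
      intro m hm
      have hmN : m ≤ N := (Finset.mem_range.1 hm).le
      rw [norm_mul, norm_mul, norm_pow, norm_inv, norm_inv, norm_pow, norm_pow, hζ,
        Complex.norm_real, Real.norm_of_nonneg hr.le]
      simp only [one_pow, inv_one, mul_one]
      have hXC : (Polynomial.X - Polynomial.C w0 : Polynomial ℂ) =
          Polynomial.X + Polynomial.C (-w0) := by
        rw [Polynomial.C_neg, sub_eq_add_neg]
      rw [hXC, Polynomial.coeff_X_add_C_pow, norm_mul, norm_pow, norm_neg, Complex.norm_natCast]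
      have h1 : ‖w0‖ ^ (m - i) ≤ (1 + ‖w0‖) ^ m := by
        calc ‖w0‖ ^ (m - i) ≤ (1 + ‖w0‖) ^ (m - i) :=
              pow_le_pow_left₀ (norm_nonneg _) (by linarith) _
          _ ≤ (1 + ‖w0‖) ^ m :=
              pow_le_pow_right₀ (by linarith [norm_nonneg w0]) (Nat.sub_le _ _)
      have h2 : ((m.choose i : ℕ) : ℝ) ≤ 2 ^ m := by
        have := Nat.choose_le_two_pow m i
        exact_mod_cast this
      have h3 : ‖w0‖ ^ (m - i) * (m.choose i : ℝ) * (r ^ m)⁻¹ ≤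
          (1 + ‖w0‖) ^ m * 2 ^ m * (r ^ m)⁻¹ := by
        apply mul_le_mul_of_nonneg_right _ (by positivity)
        exact mul_le_mul h1 h2 (by positivity) (by positivity)
      refine h3.trans ?_
      have h4 : (1 + ‖w0‖) ^ m * 2 ^ m * (r ^ m)⁻¹ = K ^ m := by
        rw [hK, div_pow, mul_pow, div_eq_mul_inv]; ring
      rw [h4]
      exact pow_le_pow_right₀ hK1 hmN
    have hsum := norm_sum_le (range N) (fun m =>
      ((Polynomial.X - Polynomial.C w0 : Polynomial ℂ) ^ m).coeff i *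
        ((r : ℂ) ^ m)⁻¹ * ((ζ ^ m)⁻¹) ^ k)
    have h5 := Finset.sum_le_sum hterm
    rw [Finset.sum_const, Finset.card_range, nsmul_eq_mul] at h5
    have h6 := hsum.trans h5
    rw [norm_div, Complex.norm_natCast, div_le_iff₀ (by exact_mod_cast hN)]
    rw [mul_comm (K ^ N)]
    exact h6
  · intro c i
    set p : Polynomial ℂ := ∑ j : Fin N, Polynomial.C (c j) * Polynomial.X ^ (j : ℕ) with hp
    have hpd : p.degree < N := Polynomial.degree_sum_fin_lt c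
    have hpn : p.natDegree < N := by
      by_cases h0 : p = 0
      · rw [h0]; simpa using hN
      · exact (Polynomial.natDegree_lt_iff_degree_lt h0).2 hpd
    have hpc : p.coeff i = c i := by
      rw [hp]
      simp only [Polynomial.finsetSum_coeff, Polynomial.coeff_C_mul, Polynomial.coeff_X_pow]
      rw [Finset.sum_eq_single i]
      · simp
      · intro j _ hj
        have : (i : ℕ) ≠ (j : ℕ) := fun h => hj (Fin.ext h.symm)
        simp [this]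
      · intro h
        exact absurd (Finset.mem_univ _) h
    have hpe : ∀ x, ∑ j, c j * x ^ (j : ℕ) = p.eval x := by
      intro x
      rw [hp, Polynomial.eval_finsetSum]
      refine Finset.sum_congr rfl fun j _ => ?_
      simp
    set q : Polynomial ℂ := Polynomial.taylor w0 p with hq
    have hqn : q.natDegree < N := by rw [hq, Polynomial.natDegree_taylor]; exact hpn
    have hqe : ∀ k, p.eval (w0 + r * ζ ^ k) =
        ∑ m ∈ range N, q.coeff m * ((r : ℂ) ^ m * (ζ ^ k) ^ m) := by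
      intro k
      have h1 : q.eval (r * ζ ^ k) = p.eval (w0 + r * ζ ^ k) := by
        rw [hq, Polynomial.taylor_eval, add_comm]
      rw [← h1, Polynomial.eval_eq_sum_range' hqn]
      refine Finset.sum_congr rfl fun m _ => ?_
      rw [mul_pow]
    have hcoef : c i = ∑ m ∈ range N,
        q.coeff m * ((Polynomial.X - Polynomial.C w0 : Polynomial ℂ) ^ m).coeff i := by
      have h1 := Polynomial.sum_taylor_eq p w0
      rw [Polynomial.sum_over_range' _ (by intro n; simp) N (by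
        rw [Polynomial.natDegree_taylor]; exact hpn)] at h1
      have h2 := congrArg (fun f => Polynomial.coeff f (i : ℕ)) h1
      simp only [Polynomial.finsetSum_coeff, Polynomial.coeff_C_mul] at h2
      rw [← hpc, ← h2]
    simp only [hpe, hqe]
    rw [hcoef]
    have e1 : ∀ k ∈ range N, (∑ m ∈ range N,
        ((Polynomial.X - Polynomial.C w0 : Polynomial ℂ) ^ m).coeff i * ((r : ℂ) ^ m)⁻¹ *
        ((ζ ^ m)⁻¹) ^ k) / N * (∑ m ∈ range N, q.coeff m * ((r : ℂ) ^ m * (ζ ^ k) ^ m)) =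
        ∑ m ∈ range N, ∑ m' ∈ range N,
          ((Polynomial.X - Polynomial.C w0 : Polynomial ℂ) ^ m).coeff i * ((r : ℂ) ^ m)⁻¹ *
            (q.coeff m' * (r : ℂ) ^ m') / N * (((ζ ^ m)⁻¹) ^ k * (ζ ^ k) ^ m') := by
      intro k _
      rw [div_mul_eq_mul_div, Finset.sum_mul_sum, Finset.sum_div]
      refine Finset.sum_congr rfl fun m _ => ?_
      rw [Finset.sum_div]
      refine Finset.sum_congr rfl fun m' _ => ?_
      ring
    rw [Finset.sum_congr rfl e1, Finset.sum_comm]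
    refine Finset.sum_congr rfl fun m hm => ?_
    rw [Finset.sum_comm]
    have hmN := Finset.mem_range.1 hm
    have e2 : ∀ m' ∈ range N, ∑ k ∈ range N,
        ((Polynomial.X - Polynomial.C w0 : Polynomial ℂ) ^ m).coeff i * ((r : ℂ) ^ m)⁻¹ *
            (q.coeff m' * (r : ℂ) ^ m') / N * (((ζ ^ m)⁻¹) ^ k * (ζ ^ k) ^ m') =
        ((Polynomial.X - Polynomial.C w0 : Polynomial ℂ) ^ m).coeff i * ((r : ℂ) ^ m)⁻¹ *
            (q.coeff m' * (r : ℂ) ^ m') / N * (if m = m' then (N : ℂ) else 0) := by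
      intro m' hm'
      rw [← Finset.mul_sum, horth m m' hmN (Finset.mem_range.1 hm')]
    rw [Finset.sum_congr rfl e2, Finset.sum_eq_single m]
    · rw [if_pos rfl, div_mul_cancel₀ _ hNc]
      have h7 : ((r : ℂ) ^ m)⁻¹ * (r : ℂ) ^ m = 1 := inv_mul_cancel₀ (pow_ne_zero _ hrc)
      calc q.coeff m * ((Polynomial.X - Polynomial.C w0 : Polynomial ℂ) ^ m).coeff i =
            ((Polynomial.X - Polynomial.C w0 : Polynomial ℂ) ^ m).coeff i * q.coeff m *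
              (((r : ℂ) ^ m)⁻¹ * (r : ℂ) ^ m) := by rw [h7]; ring
        _ = _ := by ring
    · intro m' _ hne
      rw [if_neg (fun h => hne h.symm), mul_zero]
    · intro h
      exact absurd hm h

/-- the image of the quotient contains a ball -/
theorem Non_open {z : ℂ} (b : CZ.BaseFn z) : ∃ (w0 : ℂ) (r : ℝ), 0 < r ∧ r ≤ 1 ∧
    ∀ w, ‖w - w0‖ ≤ r → ∃ s : ℂ, ‖s‖ ≤ 1 ∧ 1 / 2 ≤ ‖b.A s‖ ∧ b.B s = w * b.A s ^ 2 := by
  have hA0 : b.A 0 ≠ 0 := by rw [b.A0]; exact one_ne_zero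
  have hAa : AnalyticAt ℂ b.A 0 := b.dA.analyticAt 0
  have hBa : AnalyticAt ℂ b.B 0 := b.dB.analyticAt 0
  have hg : AnalyticAt ℂ (fun s => b.B s / b.A s ^ 2) 0 :=
    hBa.div (hAa.pow 2) (pow_ne_zero _ hA0)
  have hev : ∀ᶠ s in nhds (0 : ℂ), ‖s‖ < 1 ∧ 1 / 2 < ‖b.A s‖ := by
    apply Filter.Eventually.and
    · have : Continuous fun s : ℂ => ‖s‖ := continuous_norm
      exact this.continuousAt.eventually_lt continuousAt_const (by simp)
    · have : Continuous fun s : ℂ => ‖b.A s‖ := b.dA.continuous.norm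
      refine continuousAt_const.eventually_lt this.continuousAt ?_
      rw [b.A0, norm_one]; norm_num
  have hne : ∀ s, 1 / 2 < ‖b.A s‖ → b.A s ≠ 0 := by
    intro s hs h
    rw [h, norm_zero] at hs
    norm_num at hs
  rcases hg.eventually_constant_or_nhds_le_map_nhds with h | h
  · exfalso
    apply b.nc
    refine ⟨b.B 0 / b.A 0 ^ 2, ?_⟩
    filter_upwards [h, hev] with s hs hs2
    have h1 := hne s hs2.2
    rw [← hs]
    field_simp
  · have hS : {s : ℂ | ‖s‖ < 1 ∧ 1 / 2 < ‖b.A s‖} ∈ nhds (0 : ℂ) := hev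
    have himg : (fun s => b.B s / b.A s ^ 2) '' {s : ℂ | ‖s‖ < 1 ∧ 1 / 2 < ‖b.A s‖} ∈
        nhds ((fun s => b.B s / b.A s ^ 2) 0) := h (Filter.image_mem_map hS)
    obtain ⟨ρ, hρ, hball⟩ := Metric.mem_nhds_iff.1 himg
    refine ⟨(fun s => b.B s / b.A s ^ 2) 0, min (ρ / 2) 1, by positivity, min_le_right _ _, ?_⟩
    intro w hw
    have hwb : w ∈ Metric.ball ((fun s => b.B s / b.A s ^ 2) 0) ρ := by
      rw [Metric.mem_ball, dist_eq_norm]
      have h1 := hw.trans (min_le_left _ _)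
      linarith
    obtain ⟨s, ⟨hs1, hs2⟩, hs3⟩ := hball hwb
    refine ⟨s, hs1.le, hs2.le, ?_⟩
    have h1 := hne s hs2
    rw [← hs3]
    field_simp

theorem Non_HH {z : ℂ} (b : CZ.BaseFn z) (D : ℕ) (i : Fin (D + 1)) (s w : ℂ)
    (h : b.B s = w * b.A s ^ 2) : HH b D i s = w ^ (i : ℕ) * b.A s ^ (2 * D) := by
  unfold HH
  have hi : (i : ℕ) ≤ D := Nat.lt_succ_iff.1 i.2
  rw [h, mul_pow, ← pow_mul, mul_left_comm, ← pow_add]
  congr 2
  omega

variable {z : ℂ} (b : CZ.BaseFn z)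

theorem nondeg : ∃ C : ℕ, 1 ≤ C ∧ ∀ (D : ℕ) (c : Fin (D + 1) → Fin (D + 1) → ℂ),
    ∃ x1 x2 : ℂ, ‖x1‖ ≤ 1 ∧ ‖x2‖ ≤ 1 ∧ ∀ i1 i2, ‖c i1 i2‖ ≤ (C : ℝ) ^ (D + 1) *
      ‖∑ j1, ∑ j2, c j1 j2 * HH b D j1 x1 * HH b D j2 x2‖ := by
  obtain ⟨w0, r, hr, hr1, hw⟩ := Non_open b
  set K : ℝ := 2 * (1 + ‖w0‖) / r with hK
  have hK1 : 1 ≤ K := by
    rw [hK, le_div_iff₀ hr]
    have := norm_nonneg w0
    linarith
  have hC1 : (1 : ℝ) ≤ 64 * K ^ 2 := by nlinarith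
  refine ⟨⌈64 * K ^ 2⌉₊, ?_, ?_⟩
  · have h1 := Nat.le_ceil (64 * K ^ 2)
    have h2 : (1 : ℝ) ≤ (⌈64 * K ^ 2⌉₊ : ℝ) := hC1.trans h1
    exact_mod_cast h2
  intro D c
  obtain ⟨w, lam, hwr, hlam, hid⟩ := Non_lin w0 r hr hr1 (D + 1) (Nat.succ_pos D)
  have hne : ((range (D + 1)) ×ˢ (range (D + 1))).Nonempty :=
    ⟨(0, 0), Finset.mem_product.2 ⟨by simp, by simp⟩⟩
  set P : ℕ × ℕ → ℝ := fun k => ‖∑ j1, ∑ j2, c j1 j2 * w k.1 ^ (j1 : ℕ) * w k.2 ^ (j2 : ℕ)‖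
    with hP
  obtain ⟨⟨k1, k2⟩, -, hmax⟩ := Finset.exists_max_image _ P hne
  obtain ⟨x1, hx1, hA1, hB1⟩ := hw (w k1) (hwr k1)
  obtain ⟨x2, hx2, hA2, hB2⟩ := hw (w k2) (hwr k2)
  refine ⟨x1, x2, hx1, hx2, fun i1 i2 => ?_⟩
  have hHH : ∑ j1, ∑ j2, c j1 j2 * HH b D j1 x1 * HH b D j2 x2 =
      (b.A x1 ^ (2 * D) * b.A x2 ^ (2 * D)) *
        ∑ j1, ∑ j2, c j1 j2 * w k1 ^ (j1 : ℕ) * w k2 ^ (j2 : ℕ) := by
    rw [Finset.mul_sum]
    refine Finset.sum_congr rfl fun j1 _ => ?_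
    rw [Finset.mul_sum]
    refine Finset.sum_congr rfl fun j2 _ => ?_
    rw [Non_HH b D j1 x1 (w k1) hB1, Non_HH b D j2 x2 (w k2) hB2]
    ring
  have hlow : P (k1, k2) ≤ 16 ^ (D + 1) *
      ‖∑ j1, ∑ j2, c j1 j2 * HH b D j1 x1 * HH b D j2 x2‖ := by
    rw [hHH, norm_mul, norm_mul, norm_pow, norm_pow]
    have h1 : (1 / 2 : ℝ) ^ (2 * D) ≤ ‖b.A x1‖ ^ (2 * D) :=
      pow_le_pow_left₀ (by norm_num) hA1 _
    have h2 : (1 / 2 : ℝ) ^ (2 * D) ≤ ‖b.A x2‖ ^ (2 * D) :=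
      pow_le_pow_left₀ (by norm_num) hA2 _
    have h3 : (1 / 16 : ℝ) ^ D ≤ ‖b.A x1‖ ^ (2 * D) * ‖b.A x2‖ ^ (2 * D) := by
      have h4 := mul_le_mul h1 h2 (by positivity) (by positivity)
      have h5 : (1 / 2 : ℝ) ^ (2 * D) * (1 / 2 : ℝ) ^ (2 * D) = (1 / 16 : ℝ) ^ D := by
        rw [← mul_pow, pow_mul]; norm_num
      rwa [h5] at h4
    have h6 : (1 : ℝ) ≤ 16 ^ (D + 1) * (‖b.A x1‖ ^ (2 * D) * ‖b.A x2‖ ^ (2 * D)) := by
      have h7 : (16 : ℝ) ^ (D + 1) * (1 / 16 : ℝ) ^ D = 16 := by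
        rw [pow_succ, mul_right_comm, ← mul_pow]; norm_num
      have h8 : (16 : ℝ) ^ (D + 1) * (1 / 16 : ℝ) ^ D ≤
          16 ^ (D + 1) * (‖b.A x1‖ ^ (2 * D) * ‖b.A x2‖ ^ (2 * D)) :=
        mul_le_mul_of_nonneg_left h3 (by positivity)
      linarith
    have h9 : P (k1, k2) = 1 * P (k1, k2) := (one_mul _).symm
    rw [h9, ← mul_assoc]
    exact mul_le_mul_of_nonneg_right h6 (norm_nonneg _)
  -- expand the coefficient
  have hexp : c i1 i2 = ∑ l1 ∈ range (D + 1), ∑ l2 ∈ range (D + 1),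
      lam i1 l1 * lam i2 l2 *
        ∑ j1, ∑ j2, c j1 j2 * w l1 ^ (j1 : ℕ) * w l2 ^ (j2 : ℕ) := by
    rw [hid (fun j => c j i2) i1]
    refine Finset.sum_congr rfl fun l1 _ => ?_
    have e1 : ∑ j1, c j1 i2 * w l1 ^ (j1 : ℕ) = ∑ l2 ∈ range (D + 1), lam i2 l2 *
        ∑ j1, ∑ j2, c j1 j2 * w l1 ^ (j1 : ℕ) * w l2 ^ (j2 : ℕ) := by
      have e2 := hid (fun j2 => ∑ j1, c j1 j2 * w l1 ^ (j1 : ℕ)) i2
      rw [e2]
      refine Finset.sum_congr rfl fun l2 _ => ?_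
      congr 1
      rw [Finset.sum_comm]
      refine Finset.sum_congr rfl fun j2 _ => ?_
      rw [Finset.sum_mul]
    rw [e1, Finset.mul_sum]
    refine Finset.sum_congr rfl fun l2 _ => ?_
    ring
  have hbd : ‖c i1 i2‖ ≤ (4 * K ^ 2) ^ (D + 1) * P (k1, k2) := by
    rw [hexp]
    have hP0 : 0 ≤ P (k1, k2) := norm_nonneg _
    have hKN : 0 ≤ K ^ (D + 1) := by positivity
    have t1 : ∀ l1 ∈ range (D + 1), ∀ l2 ∈ range (D + 1), ‖lam i1 l1 * lam i2 l2 *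
        ∑ j1, ∑ j2, c j1 j2 * w l1 ^ (j1 : ℕ) * w l2 ^ (j2 : ℕ)‖ ≤
        K ^ (D + 1) * K ^ (D + 1) * P (k1, k2) := by
      intro l1 hl1 l2 hl2
      rw [norm_mul, norm_mul]
      have h1 := hmax (l1, l2) (Finset.mem_product.2 ⟨hl1, hl2⟩)
      exact mul_le_mul (mul_le_mul (hlam i1 l1) (hlam i2 l2) (norm_nonneg _) hKN) h1
        (norm_nonneg _) (by positivity)
    have t2 : ‖∑ l1 ∈ range (D + 1), ∑ l2 ∈ range (D + 1), lam i1 l1 * lam i2 l2 *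
        ∑ j1, ∑ j2, c j1 j2 * w l1 ^ (j1 : ℕ) * w l2 ^ (j2 : ℕ)‖ ≤
        ∑ l1 ∈ range (D + 1), ∑ l2 ∈ range (D + 1), K ^ (D + 1) * K ^ (D + 1) * P (k1, k2) := by
      refine (norm_sum_le _ _).trans (Finset.sum_le_sum fun l1 hl1 => ?_)
      exact (norm_sum_le _ _).trans (Finset.sum_le_sum fun l2 hl2 => t1 l1 hl1 l2 hl2)
    refine t2.trans ?_
    rw [Finset.sum_const, Finset.sum_const, Finset.card_range, nsmul_eq_mul, nsmul_eq_mul]
    have t3 : (((D + 1 : ℕ)) : ℝ) ≤ 2 ^ (D + 1) := by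
      have := (Nat.lt_two_pow_self (n := D + 1)).le
      exact_mod_cast this
    have t4 : ((D + 1 : ℕ) : ℝ) * (((D + 1 : ℕ)) : ℝ) ≤ 2 ^ (D + 1) * 2 ^ (D + 1) :=
      mul_le_mul t3 t3 (by positivity) (by positivity)
    have t5 : ((D + 1 : ℕ) : ℝ) * (((D + 1 : ℕ) : ℝ) * (K ^ (D + 1) * K ^ (D + 1) *
        P (k1, k2))) = (((D + 1 : ℕ) : ℝ) * ((D + 1 : ℕ) : ℝ)) *
          (K ^ (D + 1) * K ^ (D + 1) * P (k1, k2)) := by ring
    have t6 : (4 * K ^ 2) ^ (D + 1) * P (k1, k2) = (2 ^ (D + 1) * 2 ^ (D + 1)) *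
        (K ^ (D + 1) * K ^ (D + 1) * P (k1, k2)) := by
      have : (4 * K ^ 2) = 2 * 2 * (K * K) := by ring
      rw [this, mul_pow, mul_pow, mul_pow]; ring
    rw [t5, t6]
    exact mul_le_mul_of_nonneg_right t4 (by positivity)
  calc ‖c i1 i2‖ ≤ (4 * K ^ 2) ^ (D + 1) * P (k1, k2) := hbd
    _ ≤ (4 * K ^ 2) ^ (D + 1) * (16 ^ (D + 1) *
        ‖∑ j1, ∑ j2, c j1 j2 * HH b D j1 x1 * HH b D j2 x2‖) :=
        mul_le_mul_of_nonneg_left hlow (by positivity)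
    _ = (64 * K ^ 2) ^ (D + 1) *
        ‖∑ j1, ∑ j2, c j1 j2 * HH b D j1 x1 * HH b D j2 x2‖ := by
        rw [← mul_assoc, ← mul_pow]
        congr 2
        ring
    _ ≤ _ := by
        apply mul_le_mul_of_nonneg_right _ (norm_nonneg _)
        exact pow_le_pow_left₀ (by positivity) (Nat.le_ceil _) _

end U2

end S_H22_U2_Non
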