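import Mathlib

/-! Modular Schanuel with derivatives for points algebraic over a field with good approximations, part 2: this file joins several modules to save build time. -/

section S_H60_AZ_Defs

set_option autoImplicit false

namespace AZ

open Complex Finset

/-- The data of the number field. `ze s = s(ζ)`, `nu j s = s(ν_j)`, `nu0 j = σ₀(ν_j)`, `nus j s = s(ν*_j)`. -/
structure KD (S ι : Type) [Fintype S] [DecidableEq S] [Fintype ι] [DecidableEq ι] where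
  z : ℂ
  o : S
  bar : S → S
  ze : S → ℂ
  nu : ι → S → ℂ
  nu0 : ι → ℂ
  nus : ι → S → ℂ
  N : ℕ
  T1 : ι → ι → ℤ
  T2 : ι → ι → ℤ
  C0 : ℝ
  hz : 0 < z.im
  hS : 2 ≤ Fintype.card S
  bar_bar : ∀ s, bar (bar s) = s
  bar_o : bar o = o
  ze_o : ze o = (starRingEnd ℂ) z
  ze_bar : ∀ s, s ≠ o → ze (bar s) = (starRingEnd ℂ) (ze s)
  ze_ne : ∀ s, ze s ≠ z
  nu_o : ∀ j, nu j o = (starRingEnd ℂ) (nu0 j)
  nu_bar : ∀ j s, s ≠ o → nu j (bar s) = (starRingEnd ℂ) (nu j s)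
  nus_bar : ∀ j s, s ≠ o → nus j (bar s) = (starRingEnd ℂ) (nus j s)
  dual : ∀ s t, ∑ j, nu j s * nus j t = if s = t then 1 else 0
  dual0 : ∀ s, ∑ j, nu0 j * nus j s = 0
  hN : 0 < N
  hT1 : ∀ i j, ((T1 i j : ℤ) : ℂ) = N * (nu0 i * nu0 j + ∑ s, nu i s * nu j s)
  hT2 : ∀ i j, ((T2 i j : ℤ) : ℂ) = N * (z * (nu0 i * nu0 j) + ∑ s, ze s * (nu i s * nu j s))
  hnorm : ∀ m : ι → ℤ, m ≠ 0 → 1 ≤ ‖(∑ j, (m j : ℂ) * nu0 j) * ∏ s, ∑ j, (m j : ℂ) * nu j s‖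
  hC0 : 1 ≤ C0
  hcov : ∀ h : ℝ, 1 ≤ h → ∀ a : S → ℂ, (∀ s, s ≠ o → a (bar s) = (starRingEnd ℂ) (a s)) →
    ∃ n : ι → ℤ, ‖a o - N * ∑ i, (n i : ℂ) * nu i o‖ ^ 2 ≤ C0 * h ^ (Fintype.card S - 1) ∧
      ∀ s, s ≠ o → ‖a s - N * ∑ i, (n i : ℂ) * nu i s‖ ≤ C0 / h
  alg_z : IsAlgebraic ℚ z
  alg_ze : ∀ s, IsAlgebraic ℚ (ze s)
  alg_nu : ∀ j s, IsAlgebraic ℚ (nu j s)
  alg_nus : ∀ j s, IsAlgebraic ℚ (nus j s)

variable {S ι : Type} [Fintype S] [DecidableEq S] [Fintype ι] [DecidableEq ι]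

namespace KD

variable (K : KD S ι)

/-- The linear forms `u_j`. -/
noncomputable def u (j : ι) (x : S → ℂ) : ℂ := ∑ s, (K.z - K.ze s) * K.nu j s * x s

/-- `v_j = Im u_j / Im z`. -/
noncomputable def v (j : ι) (x : S → ℂ) : ℝ := (K.u j x).im / K.z.im

/-- The quadratic weight. -/
noncomputable def q (x : S → ℂ) : ℝ := Real.pi / K.z.im * ∑ j, (K.u j x).im ^ 2

/-- `m*`. -/
noncomputable def st (m : ι → ℂ) (s : S) : ℂ := ∑ j, m j * K.nus j s

/-- The coefficient of `Im(w)^2` in the direction `b`. -/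
noncomputable def cq (b : S → ℂ) : ℝ := Real.pi / K.z.im * ∑ j, ‖K.u j b‖ ^ 2

/-- The points of the lattice. -/
noncomputable def gam (n : ι → ℤ) (s : S) : ℂ := K.N * ∑ i, (n i : ℂ) * K.nu i s

/-- The real subspace `V`. -/
def V : Set (S → ℂ) := {x | ∀ s, s ≠ K.o → x (K.bar s) = (starRingEnd ℂ) (x s)}

/-- The distance from `V`, as a vector. -/
noncomputable def bb (x : S → ℂ) (s : S) : ℂ :=
  if s = K.o then 0 else (x s - (starRingEnd ℂ) (x (K.bar s))) / (2 * I)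

variable (c0 : ℂ)

/-- The coefficient `a(m)` (a product of theta coefficients). -/
noncomputable def am (m : ι → ℤ) : ℂ :=
  ∏ j, (c0 * (-1) ^ (m j) * exp (Real.pi * I * (m j : ℂ) ^ 2 * K.z))

/-- The exponential terms. -/
noncomputable def tm (m : ι → ℤ) (x : S → ℂ) : ℂ :=
  K.am c0 m * exp (2 * Real.pi * I * ∑ j, (m j : ℂ) * K.u j x)

/-- `∏ (x_s + m*_s)^(κ_s)`. -/
noncomputable def mon (κ : S → ℕ) (m : ι → ℤ) (x : S → ℂ) : ℂ :=
  ∏ s, (x s + K.st (fun j ↦ (m j : ℂ)) s) ^ κ s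

/-- The functions `Φ_κ`. -/
noncomputable def Phi (κ : S → ℕ) (x : S → ℂ) : ℂ := ∑' m : ι → ℤ, K.tm c0 m x * K.mon κ m x

/-- Linear combinations. -/
noncomputable def FF (Q : ℕ) (c : (S → Fin (Q + 1)) → ℂ) (x : S → ℂ) : ℂ :=
  ∑ κ, c κ * K.Phi c0 (fun s ↦ (κ s : ℕ)) x

/-- `b_s(m) = (z - s ζ) m^s`. -/
noncomputable def bs (m : ι → ℂ) (s : S) : ℂ := (K.z - K.ze s) * ∑ j, m j * K.nu j s

/-- The coefficient of `x ^ n` in `exp(2 π i b x) (x + α)^κ`. -/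
noncomputable def cf (κ n : ℕ) (b α : ℂ) : ℂ :=
  ∑ i ∈ range (n + 1), (κ.choose i : ℂ) * α ^ (κ - i) *
    ((2 * Real.pi * I * b) ^ (n - i) / ((n - i).factorial : ℂ))

/-- The Taylor coefficients of `Φ_κ` at `0`. -/
noncomputable def jc (κ n : S → ℕ) : ℂ :=
  ∑' m : ι → ℤ, K.am c0 m * ∏ s, cf (κ s) (n s) (K.bs (fun j ↦ (m j : ℂ)) s)
    (K.st (fun j ↦ (m j : ℂ)) s)

/-- The Taylor coefficients of `FF`. -/
noncomputable def JJ (Q : ℕ) (c : (S → Fin (Q + 1)) → ℂ) (n : S → ℕ) : ℂ :=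
  ∑ κ, c κ * K.jc c0 (fun s ↦ (κ s : ℕ)) n

/-- The weighted size of a function. -/
noncomputable def Nw (F : (S → ℂ) → ℂ) (x : S → ℂ) : ℝ := ‖F x‖ * Real.exp (-K.q x)

/-- Sums of `P_c (x + m*)`. -/
noncomputable def PP (Q : ℕ) (c : (S → Fin (Q + 1)) → ℂ) (m : ι → ℤ) (x : S → ℂ) : ℂ :=
  ∑ κ, c κ * K.mon (fun s ↦ (κ s : ℕ)) m x

/-- The vectors of the real shifts. -/
noncomputable def tt (r : ι → ℝ) (s : S) : ℂ :=
  if s = K.o then 0 else (∑ i, (r i : ℂ) * K.nu i s) / (K.z - K.ze s)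

/-- The frequencies. -/
noncomputable def om (m : ι → ℤ) (i : ι) : ℝ :=
  (∑ s ∈ univ.erase K.o, (∑ j, (m j : ℂ) * K.nu j s) * K.nu i s).re

/-- The hypotheses of the Schwarz lemma: `F` is entire with Taylor coefficients `J`, its weighted size is
invariant under the lattice and grows at most like `exp (A (1 + log (1 + ‖bb x‖)))`. -/
structure FDat (F : (S → ℂ) → ℂ) (J : (S → ℕ) → ℂ) (A : ℝ) : Prop where
  ser : ∀ x, HasSum (fun n : S → ℕ ↦ J n * ∏ s, x s ^ n s) (F x)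
  inv : ∀ n x, K.Nw F (x + K.gam n) = K.Nw F x
  gr : ∀ x, K.Nw F x ≤ Real.exp (A * (1 + Real.log (1 + ‖K.bb x‖)))

end KD

end AZ

end S_H60_AZ_Defs

section S_H60_AZ_Ba1

set_option autoImplicit false

namespace AZ

open Complex Finset

variable {S ι : Type} [Fintype S] [DecidableEq S] [Fintype ι] [DecidableEq ι] (K : KD S ι)

theorem bar_ne {s : S} (hs : s ≠ K.o) : K.bar s ≠ K.o := by
  intro h
  apply hs
  rw [← K.bar_bar s, h, K.bar_o]

private theorem Ba1_bb_ne (x : S → ℂ) {s : S} (hs : s ≠ K.o) :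
    K.bb x s = (x s - (starRingEnd ℂ) (x (K.bar s))) / (2 * I) := by
  unfold KD.bb
  rw [if_neg hs]

private theorem Ba1_bb_o (x : S → ℂ) : K.bb x K.o = 0 := by
  unfold KD.bb
  rw [if_pos rfl]

private theorem Ba1_2I : (2 * I : ℂ) ≠ 0 := mul_ne_zero two_ne_zero I_ne_zero

theorem V_iff (x : S → ℂ) : x ∈ K.V ↔ K.bb x = 0 := by
  constructor
  · intro h
    funext s
    rw [Pi.zero_apply]
    by_cases hs : s = K.o
    · rw [hs, Ba1_bb_o]
    · rw [Ba1_bb_ne K x hs]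
      have h1 := h (K.bar s) (bar_ne K hs)
      rw [K.bar_bar] at h1
      rw [← h1, sub_self, zero_div]
  · intro h s hs
    have h1 : K.bb x (K.bar s) = 0 := by rw [h]; rfl
    rw [Ba1_bb_ne K x (bar_ne K hs), K.bar_bar, div_eq_zero_iff] at h1
    rcases h1 with h1 | h1
    · exact sub_eq_zero.1 h1
    · exact absurd h1 Ba1_2I

theorem bb_bar (x : S → ℂ) (s : S) (hs : s ≠ K.o) :
    K.bb x (K.bar s) = (starRingEnd ℂ) (K.bb x s) := by
  rw [Ba1_bb_ne K x (bar_ne K hs), Ba1_bb_ne K x hs, K.bar_bar, map_div₀, map_sub, map_mul,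
    Complex.conj_conj, Complex.conj_I]
  have h2 : (starRingEnd ℂ) (2 : ℂ) = 2 := by
    rw [← Complex.ofReal_ofNat, Complex.conj_ofReal]
  rw [h2]
  have h3 : (2 * -I : ℂ) ≠ 0 := mul_ne_zero two_ne_zero (neg_ne_zero.2 I_ne_zero)
  rw [div_eq_div_iff Ba1_2I h3]
  ring

private theorem Ba1_half (x : S → ℂ) {s : S} (hs : s ≠ K.o) :
    x s - I * K.bb x s = (x s + (starRingEnd ℂ) (x (K.bar s))) / 2 := by
  rw [Ba1_bb_ne K x hs]
  have hI := I_ne_zero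
  field_simp
  ring

theorem sub_bb_mem (x : S → ℂ) : (fun s ↦ x s - I * K.bb x s) ∈ K.V := by
  intro s hs
  show x (K.bar s) - I * K.bb x (K.bar s) = (starRingEnd ℂ) (x s - I * K.bb x s)
  rw [Ba1_half K x (bar_ne K hs), Ba1_half K x hs, K.bar_bar, map_div₀, map_add,
    Complex.conj_conj]
  have h2 : (starRingEnd ℂ) (2 : ℂ) = 2 := by
    rw [← Complex.ofReal_ofNat, Complex.conj_ofReal]
  rw [h2, add_comm]

private theorem Ba1_real (g : S → ℂ) (g0 : ℂ)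
    (hg : ∀ s, s ≠ K.o → g (K.bar s) = (starRingEnd ℂ) (g s)) (ho : g K.o = (starRingEnd ℂ) g0) :
    (starRingEnd ℂ) (∑ s, g s + g0) = ∑ s, g s + g0 := by
  have h1 : ∑ s, g s = g K.o + ∑ s ∈ univ.erase K.o, g s :=
    (Finset.add_sum_erase _ _ (mem_univ K.o)).symm
  have h2 : (starRingEnd ℂ) (∑ s ∈ univ.erase K.o, g s) = ∑ s ∈ univ.erase K.o, g s := by
    rw [map_sum]
    refine Finset.sum_bij' (fun s _ ↦ K.bar s) (fun s _ ↦ K.bar s) ?_ ?_ ?_ ?_ ?_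
    · intro s hs
      exact Finset.mem_erase.2 ⟨bar_ne K (Finset.mem_erase.1 hs).1, mem_univ _⟩
    · intro s hs
      exact Finset.mem_erase.2 ⟨bar_ne K (Finset.mem_erase.1 hs).1, mem_univ _⟩
    · intro s _
      exact K.bar_bar s
    · intro s _
      exact K.bar_bar s
    · intro s hs
      exact (hg s (Finset.mem_erase.1 hs).1).symm
  rw [h1, map_add, map_add, h2, ho, Complex.conj_conj]
  ring

/-- the value of `v_j` on `V` -/
private theorem Ba1_v {x : S → ℂ} (hx : x ∈ K.V) (j : ι) :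
    ((K.v j x : ℝ) : ℂ) = ∑ s, K.nu j s * x s + K.nu0 j * (starRingEnd ℂ) (x K.o) := by
  set T : ℂ := ∑ s, K.nu j s * x s + K.nu0 j * (starRingEnd ℂ) (x K.o) with hT
  set T' : ℂ := ∑ s, K.ze s * (K.nu j s * x s) + K.z * (K.nu0 j * (starRingEnd ℂ) (x K.o)) with hT'
  have h1 : (starRingEnd ℂ) T = T := by
    apply Ba1_real K
    · intro s hs
      rw [K.nu_bar j s hs, hx s hs, map_mul]
    · rw [K.nu_o, map_mul, Complex.conj_conj]
  have h2 : (starRingEnd ℂ) T' = T' := by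
    apply Ba1_real K
    · intro s hs
      rw [K.nu_bar j s hs, hx s hs, K.ze_bar s hs, map_mul, map_mul]
    · rw [K.nu_o, K.ze_o, map_mul, map_mul, Complex.conj_conj]
  have h3 : K.u j x = K.z * T - T' := by
    rw [hT, hT']
    unfold KD.u
    have e1 : ∑ s, (K.z - K.ze s) * K.nu j s * x s =
        K.z * ∑ s, K.nu j s * x s - ∑ s, K.ze s * (K.nu j s * x s) := by
      rw [Finset.mul_sum, ← Finset.sum_sub_distrib]
      refine Finset.sum_congr rfl fun s _ ↦ ?_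
      ring
    rw [e1]
    ring
  obtain ⟨r, hr⟩ := Complex.conj_eq_iff_real.1 h1
  obtain ⟨r', hr'⟩ := Complex.conj_eq_iff_real.1 h2
  have h4 : (K.u j x).im = K.z.im * r := by
    rw [h3, hr, hr']
    simp
  have h5 : K.v j x = r := by
    unfold KD.v
    rw [h4, mul_div_cancel_left₀ _ K.hz.ne']
  rw [h5, hr]

theorem st_v {x : S → ℂ} (hx : x ∈ K.V) (s : S) :
    K.st (fun j ↦ ((K.v j x : ℝ) : ℂ)) s = x s := by
  unfold KD.st
  have h1 : ∀ j, ((K.v j x : ℝ) : ℂ) * K.nus j s =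
      ∑ t, (K.nu j t * K.nus j s) * x t + (starRingEnd ℂ) (x K.o) * (K.nu0 j * K.nus j s) := by
    intro j
    rw [Ba1_v K hx j, add_mul, Finset.sum_mul]
    congr 1
    · refine Finset.sum_congr rfl fun t _ ↦ ?_
      ring
    · ring
  simp only [h1]
  rw [Finset.sum_add_distrib, Finset.sum_comm, ← Finset.mul_sum, K.dual0 s, mul_zero, add_zero]
  have h2 : ∀ t, ∑ j, K.nu j t * K.nus j s * x t = if t = s then x t else 0 := by
    intro t
    rw [← Finset.sum_mul, K.dual t s]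
    split_ifs
    · rw [one_mul]
    · rw [zero_mul]
  simp only [h2]
  rw [Finset.sum_ite_eq' Finset.univ s x, if_pos (mem_univ s)]

private theorem Ba1_u_add (j : ι) (x y : S → ℂ) :
    K.u j (fun s ↦ x s + y s) = K.u j x + K.u j y := by
  unfold KD.u
  rw [← Finset.sum_add_distrib]
  refine Finset.sum_congr rfl fun s _ ↦ ?_
  ring

private theorem Ba1_v_add (j : ι) (x y : S → ℂ) :
    K.v j (fun s ↦ x s + y s) = K.v j x + K.v j y := by
  unfold KD.v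
  rw [Ba1_u_add, Complex.add_im, add_div]

private theorem Ba1_u_le (j : ι) (y : S → ℂ) :
    ‖K.u j y‖ ≤ (∑ t, ‖(K.z - K.ze t) * K.nu j t‖) * ‖y‖ := by
  unfold KD.u
  refine (norm_sum_le _ _).trans ?_
  rw [Finset.sum_mul]
  refine Finset.sum_le_sum fun t _ ↦ ?_
  rw [norm_mul]
  exact mul_le_mul_of_nonneg_left (norm_le_pi_norm y t) (norm_nonneg _)

private theorem Ba1_v_le (j : ι) (y : S → ℂ) :
    |K.v j y| ≤ (∑ t, ‖(K.z - K.ze t) * K.nu j t‖) / K.z.im * ‖y‖ := by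
  unfold KD.v
  rw [abs_div, abs_of_pos K.hz, div_mul_eq_mul_div]
  refine div_le_div_of_nonneg_right ?_ K.hz.le
  exact (Complex.abs_im_le_norm _).trans (Ba1_u_le K j y)

theorem dist_V : ∃ C : ℝ, 1 ≤ C ∧ ∀ (x : S → ℂ) (s : S),
    ‖x s - K.st (fun j ↦ ((K.v j x : ℝ) : ℂ)) s‖ ≤ C * ‖K.bb x‖ := by
  have hnn : ∀ j, 0 ≤ (∑ t, ‖(K.z - K.ze t) * K.nu j t‖) / K.z.im := fun j ↦
    div_nonneg (Finset.sum_nonneg fun t _ ↦ norm_nonneg _) K.hz.le
  refine ⟨1 + ∑ j, (∑ t, ‖(K.z - K.ze t) * K.nu j t‖) / K.z.im * ∑ s, ‖K.nus j s‖, ?_, ?_⟩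
  · have : 0 ≤ ∑ j, (∑ t, ‖(K.z - K.ze t) * K.nu j t‖) / K.z.im * ∑ s, ‖K.nus j s‖ :=
      Finset.sum_nonneg fun j _ ↦ mul_nonneg (hnn j) (Finset.sum_nonneg fun s _ ↦ norm_nonneg _)
    linarith
  · intro x s
    set a : S → ℂ := fun s ↦ x s - I * K.bb x s with ha
    set b : S → ℂ := fun s ↦ I * K.bb x s with hb
    have haV : a ∈ K.V := sub_bb_mem K x
    have hx : x = fun s ↦ a s + b s := by
      funext s
      rw [ha, hb]
      ring
    have hbn : ‖b‖ ≤ ‖K.bb x‖ := by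
      rw [pi_norm_le_iff_of_nonneg (norm_nonneg _)]
      intro t
      rw [hb]
      show ‖I * K.bb x t‖ ≤ _
      rw [norm_mul, Complex.norm_I, one_mul]
      exact norm_le_pi_norm _ t
    have h1 : K.st (fun j ↦ ((K.v j x : ℝ) : ℂ)) s =
        a s + K.st (fun j ↦ ((K.v j b : ℝ) : ℂ)) s := by
      rw [← st_v K haV s]
      unfold KD.st
      rw [← Finset.sum_add_distrib]
      refine Finset.sum_congr rfl fun j _ ↦ ?_
      have h2 : K.v j x = K.v j a + K.v j b := by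
        conv_lhs => rw [hx]
        exact Ba1_v_add K j a b
      show ((K.v j x : ℝ) : ℂ) * K.nus j s =
        ((K.v j a : ℝ) : ℂ) * K.nus j s + ((K.v j b : ℝ) : ℂ) * K.nus j s
      rw [h2]
      push_cast
      ring
    have h3 : x s - K.st (fun j ↦ ((K.v j x : ℝ) : ℂ)) s =
        b s - K.st (fun j ↦ ((K.v j b : ℝ) : ℂ)) s := by
      rw [h1, ha, hb]
      ring
    rw [h3]
    refine (norm_sub_le _ _).trans ?_
    have h4 : ‖b s‖ ≤ ‖K.bb x‖ := (norm_le_pi_norm b s).trans hbn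
    have h5 : ‖K.st (fun j ↦ ((K.v j b : ℝ) : ℂ)) s‖ ≤
        (∑ j, (∑ t, ‖(K.z - K.ze t) * K.nu j t‖) / K.z.im * ∑ s, ‖K.nus j s‖) * ‖K.bb x‖ := by
      unfold KD.st
      refine (norm_sum_le _ _).trans ?_
      rw [Finset.sum_mul]
      refine Finset.sum_le_sum fun j _ ↦ ?_
      rw [norm_mul, Complex.norm_real, Real.norm_eq_abs]
      have h6 : ‖K.nus j s‖ ≤ ∑ s, ‖K.nus j s‖ :=
        Finset.single_le_sum (f := fun s ↦ ‖K.nus j s‖) (fun s _ ↦ norm_nonneg _) (mem_univ s)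
      have h7 : |K.v j b| ≤ (∑ t, ‖(K.z - K.ze t) * K.nu j t‖) / K.z.im * ‖K.bb x‖ :=
        (Ba1_v_le K j b).trans (mul_le_mul_of_nonneg_left hbn (hnn j))
      calc |K.v j b| * ‖K.nus j s‖
          ≤ ((∑ t, ‖(K.z - K.ze t) * K.nu j t‖) / K.z.im * ‖K.bb x‖) * ∑ s, ‖K.nus j s‖ :=
            mul_le_mul h7 h6 (norm_nonneg _) (mul_nonneg (hnn j) (norm_nonneg _))
        _ = _ := by ring
    calc ‖b s‖ + ‖K.st (fun j ↦ ((K.v j b : ℝ) : ℂ)) s‖ ≤ ‖K.bb x‖ +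
          (∑ j, (∑ t, ‖(K.z - K.ze t) * K.nu j t‖) / K.z.im * ∑ s, ‖K.nus j s‖) * ‖K.bb x‖ :=
          add_le_add h4 h5
      _ = _ := by ring

end AZ

end S_H60_AZ_Ba1

section S_H60_AZ_Ba2

set_option autoImplicit false

namespace AZ

open Complex Finset

variable {S ι : Type} [Fintype S] [DecidableEq S] [Fintype ι] [DecidableEq ι] (K : KD S ι)

theorem Ba2_id (P : ℝ) (a e w : ℂ) : P * (a + w * e).im ^ 2 =
    ((P / 2 : ℂ) * (e * (starRingEnd ℂ) e - e ^ 2) * w ^ 2 + (P : ℂ) * (e * (starRingEnd ℂ) a - a * e) * w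
      + (P / 2 : ℂ) * (a * (starRingEnd ℂ) a - a ^ 2)).re + P * ‖e‖ ^ 2 * w.im ^ 2 := by
  rw [Complex.sq_norm, Complex.normSq_apply]
  obtain ⟨a1, a2⟩ := a
  obtain ⟨e1, e2⟩ := e
  obtain ⟨w1, w2⟩ := w
  have h2 : (P / 2 : ℂ) = ((P / 2 : ℝ) : ℂ) := by push_cast; rfl
  rw [h2]
  simp only [Complex.add_re, Complex.add_im, Complex.mul_re, Complex.mul_im, Complex.sub_re, Complex.sub_im,
    Complex.conj_re, Complex.conj_im, Complex.ofReal_re, Complex.ofReal_im, pow_two]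
  ring

theorem u_add (j : ι) (x y : S → ℂ) : K.u j (x + y) = K.u j x + K.u j y := by
  simp only [KD.u, Pi.add_apply, mul_add, sum_add_distrib]

theorem u_smul (j : ι) (w : ℂ) (x : S → ℂ) : K.u j (w • x) = w * K.u j x := by
  simp only [KD.u, Pi.smul_apply, smul_eq_mul, mul_sum]
  exact Finset.sum_congr rfl (fun s _ => by ring)

theorem norm_u_le : ∃ C : ℝ, 1 ≤ C ∧ ∀ (j : ι) (x : S → ℂ), ‖K.u j x‖ ≤ C * ‖x‖ := by
  refine ⟨1 + ∑ j, ∑ s, ‖(K.z - K.ze s) * K.nu j s‖, ?_, ?_⟩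
  · have : 0 ≤ ∑ j, ∑ s, ‖(K.z - K.ze s) * K.nu j s‖ :=
      sum_nonneg (fun j _ => sum_nonneg (fun s _ => norm_nonneg _))
    linarith
  · intro j x
    have h1 : ‖K.u j x‖ ≤ (∑ s, ‖(K.z - K.ze s) * K.nu j s‖) * ‖x‖ := by
      rw [KD.u, sum_mul]
      refine (norm_sum_le _ _).trans (sum_le_sum (fun s _ => ?_))
      rw [norm_mul]
      exact mul_le_mul_of_nonneg_left (norm_le_pi_norm x s) (norm_nonneg _)
    have h2 : ∑ s, ‖(K.z - K.ze s) * K.nu j s‖ ≤ ∑ j, ∑ s, ‖(K.z - K.ze s) * K.nu j s‖ :=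
      single_le_sum (f := fun j => ∑ s, ‖(K.z - K.ze s) * K.nu j s‖)
        (fun j _ => sum_nonneg (fun s _ => norm_nonneg _)) (mem_univ j)
    refine h1.trans (mul_le_mul_of_nonneg_right ?_ (norm_nonneg _))
    linarith

theorem v_le : ∃ C : ℝ, 1 ≤ C ∧ ∀ (j : ι) (x : S → ℂ), |K.v j x| ≤ C * ‖x‖ := by
  obtain ⟨C, hC, h⟩ := norm_u_le K
  have hz := K.hz
  refine ⟨C / K.z.im + 1, ?_, ?_⟩
  · have : 0 ≤ C / K.z.im := by positivity
    linarith
  · intro j x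
    have h1 : |K.v j x| ≤ C / K.z.im * ‖x‖ := by
      rw [KD.v, abs_div, abs_of_pos hz, div_mul_eq_mul_div]
      exact div_le_div_of_nonneg_right ((Complex.abs_im_le_norm _).trans (h j x)) hz.le
    have := norm_nonneg x
    nlinarith

theorem q_nonneg (x : S → ℂ) : 0 ≤ K.q x := by
  have hz := K.hz
  have hP : 0 ≤ Real.pi / K.z.im := div_nonneg Real.pi_pos.le hz.le
  exact mul_nonneg hP (sum_nonneg (fun j _ => sq_nonneg _))

theorem cq_nonneg (b : S → ℂ) : 0 ≤ K.cq b := by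
  have hz := K.hz
  have hP : 0 ≤ Real.pi / K.z.im := div_nonneg Real.pi_pos.le hz.le
  exact mul_nonneg hP (sum_nonneg (fun j _ => sq_nonneg _))

theorem cq_le : ∃ C : ℝ, 1 ≤ C ∧ ∀ b : S → ℂ, K.cq b ≤ C * ‖b‖ ^ 2 := by
  obtain ⟨C, hC, h⟩ := norm_u_le K
  have hz := K.hz
  have hP : 0 ≤ Real.pi / K.z.im := div_nonneg Real.pi_pos.le hz.le
  refine ⟨Real.pi / K.z.im * (Fintype.card ι * C ^ 2) + 1, ?_, ?_⟩
  · have : 0 ≤ Real.pi / K.z.im * (Fintype.card ι * C ^ 2) := by positivity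
    linarith
  · intro b
    have h1 : ∑ j, ‖K.u j b‖ ^ 2 ≤ ∑ _j : ι, (C ^ 2 * ‖b‖ ^ 2) := by
      refine sum_le_sum (fun j _ => ?_)
      rw [← mul_pow]
      exact pow_le_pow_left₀ (norm_nonneg _) (h j b) 2
    have h2 : ∑ _j : ι, (C ^ 2 * ‖b‖ ^ 2) = Fintype.card ι * C ^ 2 * ‖b‖ ^ 2 := by
      rw [sum_const, card_univ, nsmul_eq_mul]; ring
    rw [h2] at h1
    have h3 : K.cq b ≤ Real.pi / K.z.im * (Fintype.card ι * C ^ 2 * ‖b‖ ^ 2) :=
      mul_le_mul_of_nonneg_left h1 hP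
    have h4 := sq_nonneg ‖b‖
    nlinarith

theorem Ba2_q_le_cq (x : S → ℂ) : K.q x ≤ K.cq x := by
  have hz := K.hz
  have hP : 0 ≤ Real.pi / K.z.im := div_nonneg Real.pi_pos.le hz.le
  refine mul_le_mul_of_nonneg_left (sum_le_sum (fun j _ => ?_)) hP
  have := Complex.abs_im_le_norm (K.u j x)
  rw [← sq_abs]
  exact pow_le_pow_left₀ (abs_nonneg _) this 2

theorem q_le : ∃ C : ℝ, 1 ≤ C ∧ ∀ x : S → ℂ, K.q x ≤ C * ‖x‖ ^ 2 := by
  obtain ⟨C, hC, h⟩ := cq_le K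
  exact ⟨C, hC, fun x => (Ba2_q_le_cq K x).trans (h x)⟩

theorem bb_le (x : S → ℂ) : ‖K.bb x‖ ≤ ‖x‖ := by
  rw [pi_norm_le_iff_of_nonneg (norm_nonneg x)]
  intro s
  unfold KD.bb
  split_ifs with h
  · simp
  · rw [norm_div]
    have h1 : ‖(2 * I : ℂ)‖ = 2 := by simp
    rw [h1, div_le_iff₀ (by norm_num)]
    refine (norm_sub_le _ _).trans ?_
    have h2 := norm_le_pi_norm x s
    have h3 := norm_le_pi_norm x (K.bar s)
    have h4 : ‖(starRingEnd ℂ) (x (K.bar s))‖ = ‖x (K.bar s)‖ := RCLike.norm_conj _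
    rw [h4]
    linarith

theorem bb_add (x y : S → ℂ) : K.bb (x + y) = K.bb x + K.bb y := by
  funext s
  simp only [KD.bb, Pi.add_apply, map_add]
  split_ifs with h
  · simp
  · ring

theorem st_le : ∃ C : ℝ, 1 ≤ C ∧ ∀ (m : ι → ℂ) (s : S), ‖K.st m s‖ ≤ C * ∑ j, ‖m j‖ := by
  refine ⟨1 + ∑ j, ∑ s, ‖K.nus j s‖, ?_, ?_⟩
  · have : 0 ≤ ∑ j, ∑ s, ‖K.nus j s‖ :=
      sum_nonneg (fun j _ => sum_nonneg (fun s _ => norm_nonneg _))
    linarith
  · intro m s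
    rw [KD.st, mul_sum]
    refine (norm_sum_le _ _).trans (sum_le_sum (fun j _ => ?_))
    rw [norm_mul, mul_comm]
    refine mul_le_mul_of_nonneg_right ?_ (norm_nonneg _)
    have h1 : ‖K.nus j s‖ ≤ ∑ s, ‖K.nus j s‖ :=
      single_le_sum (f := fun s => ‖K.nus j s‖) (fun s _ => norm_nonneg _) (mem_univ s)
    have h2 : ∑ s, ‖K.nus j s‖ ≤ ∑ j, ∑ s, ‖K.nus j s‖ :=
      single_le_sum (f := fun j => ∑ s, ‖K.nus j s‖)
        (fun j _ => sum_nonneg (fun s _ => norm_nonneg _)) (mem_univ j)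
    linarith

theorem st_add (m n : ι → ℂ) (s : S) : K.st (fun j ↦ m j + n j) s = K.st m s + K.st n s := by
  simp only [KD.st, add_mul, sum_add_distrib]

theorem q_line (x b : S → ℂ) : ∃ α β γ : ℂ, ∀ w : ℂ,
    K.q (x + w • b) = (α * w ^ 2 + β * w + γ).re + K.cq b * w.im ^ 2 := by
  set P : ℝ := Real.pi / K.z.im with hP
  refine ⟨∑ j, (P / 2 : ℂ) * (K.u j b * (starRingEnd ℂ) (K.u j b) - K.u j b ^ 2),
    ∑ j, (P : ℂ) * (K.u j b * (starRingEnd ℂ) (K.u j x) - K.u j x * K.u j b),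
    ∑ j, (P / 2 : ℂ) * (K.u j x * (starRingEnd ℂ) (K.u j x) - K.u j x ^ 2), ?_⟩
  intro w
  rw [KD.q, KD.cq, ← hP, mul_sum, mul_sum, sum_mul, sum_mul, sum_mul, ← sum_add_distrib, ← sum_add_distrib,
    Complex.re_sum, ← sum_add_distrib]
  refine sum_congr rfl (fun j _ => ?_)
  rw [u_add, u_smul]
  exact Ba2_id P (K.u j x) (K.u j b) w

theorem q_line0 (b : S → ℂ) : ∃ α : ℂ, ‖α‖ ≤ K.cq b ∧ ∀ w : ℂ,
    K.q (w • b) = (α * w ^ 2).re + K.cq b * w.im ^ 2 := by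
  set P : ℝ := Real.pi / K.z.im with hP
  have hP0 : 0 ≤ P := div_nonneg Real.pi_pos.le K.hz.le
  refine ⟨∑ j, (P / 2 : ℂ) * (K.u j b * (starRingEnd ℂ) (K.u j b) - K.u j b ^ 2), ?_, ?_⟩
  · rw [KD.cq, ← hP, mul_sum]
    refine (norm_sum_le _ _).trans (sum_le_sum (fun j _ => ?_))
    have h1 : ‖K.u j b * (starRingEnd ℂ) (K.u j b) - K.u j b ^ 2‖ ≤ 2 * ‖K.u j b‖ ^ 2 := by
      refine (norm_sub_le _ _).trans ?_
      rw [norm_mul, norm_pow, RCLike.norm_conj]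
      nlinarith
    have h2 : ‖(P / 2 : ℂ)‖ = P / 2 := by
      rw [show (P / 2 : ℂ) = ((P / 2 : ℝ) : ℂ) by push_cast; rfl, Complex.norm_real, Real.norm_eq_abs,
        abs_of_nonneg (by positivity)]
    rw [norm_mul, h2]
    nlinarith
  · intro w
    rw [KD.q, KD.cq, ← hP, mul_sum, mul_sum, sum_mul, sum_mul, Complex.re_sum, ← sum_add_distrib]
    refine sum_congr rfl (fun j _ => ?_)
    rw [u_smul]
    have := Ba2_id P 0 (K.u j b) w
    simpa using this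

end AZ

end S_H60_AZ_Ba2

section S_H60_AZ_Ldf

set_option autoImplicit false

namespace AZ

open Complex Finset

variable {S ι : Type} [Fintype S] [DecidableEq S] [Fintype ι] [DecidableEq ι] (K : KD S ι)

theorem line_diff (F : (S → ℂ) → ℂ) (J : (S → ℕ) → ℂ)
    (hser : ∀ x, HasSum (fun n : S → ℕ ↦ J n * ∏ s, x s ^ n s) (F x)) (x b : S → ℂ) :
    Differentiable ℂ fun w : ℂ ↦ F (x + w • b) := by
  intro w0
  obtain ⟨R, hR⟩ : ∃ R : ℝ, R = ‖w0‖ + 1 := ⟨_, rfl⟩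
  have hR0 : 0 ≤ R := by rw [hR]; positivity
  have hu : Summable (fun n : S → ℕ ↦ ‖J n‖ * ∏ s, (‖x s‖ + R * ‖b s‖) ^ n s) := by
    have h1 := (hser (fun s ↦ ((‖x s‖ + R * ‖b s‖ : ℝ) : ℂ))).summable.norm
    refine h1.congr (fun n ↦ ?_)
    rw [norm_mul, norm_prod]
    congr 1
    refine Finset.prod_congr rfl (fun s _ ↦ ?_)
    rw [norm_pow, Complex.norm_real, Real.norm_eq_abs, abs_of_nonneg (by positivity)]
  have h2 : DifferentiableOn ℂ (fun w : ℂ ↦ ∑' n : S → ℕ, J n * ∏ s, (x s + w * b s) ^ n s)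
      (Metric.ball 0 R) := by
    refine Complex.differentiableOn_tsum_of_summable_norm hu (fun n ↦ ?_) Metric.isOpen_ball ?_
    · refine Differentiable.differentiableOn ?_
      refine Differentiable.const_mul ?_ _
      fun_prop
    · intro n w hw
      rw [norm_mul, norm_prod]
      refine mul_le_mul_of_nonneg_left ?_ (norm_nonneg _)
      refine Finset.prod_le_prod (fun s _ ↦ norm_nonneg _) (fun s _ ↦ ?_)
      rw [norm_pow]
      refine pow_le_pow_left₀ (norm_nonneg _) ?_ _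
      refine (norm_add_le _ _).trans ?_
      rw [norm_mul]
      have h3 : ‖w‖ ≤ R := by
        rw [mem_ball_zero_iff] at hw
        exact hw.le
      have h4 := mul_le_mul_of_nonneg_right h3 (norm_nonneg (b s))
      linarith
  have h5 : (fun w : ℂ ↦ F (x + w • b)) = fun w : ℂ ↦ ∑' n : S → ℕ, J n * ∏ s, (x s + w * b s) ^ n s := by
    funext w
    exact (hser (x + w • b)).tsum_eq.symm
  rw [h5]
  refine h2.differentiableAt (Metric.isOpen_ball.mem_nhds ?_)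
  rw [mem_ball_zero_iff, hR]
  linarith

theorem line_G (F : (S → ℂ) → ℂ) (J : (S → ℕ) → ℂ)
    (hser : ∀ x, HasSum (fun n : S → ℕ ↦ J n * ∏ s, x s ^ n s) (F x)) (x b : S → ℂ) :
    ∃ G : ℂ → ℂ, Differentiable ℂ G ∧
      ∀ w, ‖G w‖ = K.Nw F (x + w • b) * Real.exp (K.cq b * w.im ^ 2) := by
  obtain ⟨α, β, γ, h⟩ := q_line K x b
  refine ⟨fun w ↦ F (x + w • b) * exp (-(α * w ^ 2 + β * w + γ)), ?_, ?_⟩
  · refine (line_diff F J hser x b).mul ?_
    fun_prop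
  · intro w
    rw [norm_mul, Complex.norm_exp, KD.Nw, h w, mul_assoc, ← Real.exp_add]
    congr 2
    rw [Complex.neg_re]
    ring

end AZ

end S_H60_AZ_Ldf

section S_H60_AZ_Int

set_option autoImplicit false

namespace AZ

open Complex Finset

variable {S ι : Type} [Fintype S] [DecidableEq S] [Fintype ι] [DecidableEq ι] (K : KD S ι)

/-- `bb` on the line `a + w b`, `a ∈ V`, `b` a multiple of `bb x`. -/
private theorem Int_bb (x a : S → ℂ) (ha : a ∈ K.V) (τ : ℝ) (w : ℂ) :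
    K.bb (a + w • (((τ⁻¹ : ℝ) : ℂ) • K.bb x)) = ((w.im : ℝ) : ℂ) • (((τ⁻¹ : ℝ) : ℂ) • K.bb x) := by
  funext s
  by_cases hs : s = K.o
  · have h1 : K.bb (a + w • (((τ⁻¹ : ℝ) : ℂ) • K.bb x)) s = 0 := by
      unfold KD.bb
      rw [if_pos hs]
    have h2 : K.bb x s = 0 := by
      unfold KD.bb
      rw [if_pos hs]
    rw [h1, Pi.smul_apply, Pi.smul_apply, h2, smul_zero, smul_zero]
  · have h1 : K.bb (a + w • (((τ⁻¹ : ℝ) : ℂ) • K.bb x)) s =
        ((a s + w * (((τ⁻¹ : ℝ) : ℂ) * K.bb x s)) -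
          (starRingEnd ℂ) (a (K.bar s) + w * (((τ⁻¹ : ℝ) : ℂ) * K.bb x (K.bar s)))) / (2 * I) := by
      conv_lhs => unfold KD.bb
      rw [if_neg hs]
      rfl
    have h2 : (starRingEnd ℂ) (a (K.bar s)) = a s := by
      rw [ha s hs, Complex.conj_conj]
    have h3 : (starRingEnd ℂ) (K.bb x (K.bar s)) = K.bb x s := by
      rw [bb_bar K x s hs, Complex.conj_conj]
    rw [h1, Pi.smul_apply, Pi.smul_apply, smul_eq_mul, smul_eq_mul, map_add, map_mul, map_mul, h2, h3,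
      Complex.conj_ofReal]
    have h4 : w - (starRingEnd ℂ) w = 2 * ((w.im : ℝ) : ℂ) * I := by
      apply Complex.ext <;> simp
      ring
    have hI : (2 * I : ℂ) ≠ 0 := mul_ne_zero two_ne_zero Complex.I_ne_zero
    rw [div_eq_iff hI]
    linear_combination (((τ⁻¹ : ℝ) : ℂ) * K.bb x s) * h4

theorem interp : ∃ C : ℝ, 1 ≤ C ∧ ∀ (F : (S → ℂ) → ℂ) (J : (S → ℕ) → ℂ) (A : ℝ), K.FDat F J A → 0 ≤ A →
    ∀ (R L A1 : ℝ), 0 < R → (∀ x ∈ K.V, K.Nw F x ≤ Real.exp (-L)) →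
    (∀ x, ‖K.bb x‖ = R → K.Nw F x ≤ Real.exp A1) → ∀ x, ‖K.bb x‖ ≤ R →
      K.Nw F x ≤ Real.exp (-(L * (1 - ‖K.bb x‖ / R)) + (A1 + C * R ^ 2) * (‖K.bb x‖ / R)) := by
  obtain ⟨C, hC, hcq⟩ := cq_le K
  refine ⟨C, hC, fun F J A hF hA R L A1 hR hV hR1 x hx => ?_⟩
  obtain ⟨τ, hτ⟩ : ∃ τ : ℝ, τ = ‖K.bb x‖ := ⟨_, rfl⟩
  rw [← hτ] at hx ⊢
  have hτ0 : 0 ≤ τ := by rw [hτ]; exact norm_nonneg _
  rcases hτ0.eq_or_lt with h0 | hτp
  · have h1 : K.bb x = 0 := by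
      rw [← norm_eq_zero, ← hτ, ← h0]
    rw [← h0]
    have h2 := hV x ((V_iff K x).2 h1)
    simpa using h2
  have hτc : ((τ : ℝ) : ℂ) ≠ 0 := by
    exact_mod_cast hτp.ne'
  obtain ⟨a, haD⟩ : ∃ a : S → ℂ, a = fun s ↦ x s - I * K.bb x s := ⟨_, rfl⟩
  have ha : a ∈ K.V := by rw [haD]; exact sub_bb_mem K x
  obtain ⟨b, hb⟩ : ∃ b : S → ℂ, b = ((τ⁻¹ : ℝ) : ℂ) • K.bb x := ⟨_, rfl⟩
  have hbn : ‖b‖ = 1 := by
    rw [hb, norm_smul, ← hτ, Complex.norm_real, Real.norm_eq_abs, abs_of_pos (inv_pos.2 hτp),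
      inv_mul_cancel₀ hτp.ne']
  have hxab : x = a + (I * (τ : ℂ)) • b := by
    funext s
    rw [haD, hb, Pi.add_apply, Pi.smul_apply, Pi.smul_apply, smul_eq_mul, smul_eq_mul]
    push_cast
    field_simp
    ring
  have hbbw : ∀ w : ℂ, K.bb (a + w • b) = ((w.im : ℝ) : ℂ) • b := by
    intro w
    rw [hb]
    exact Int_bb K x a ha τ w
  have hbbn : ∀ w : ℂ, ‖K.bb (a + w • b)‖ = |w.im| := by
    intro w
    rw [hbbw, norm_smul, hbn, mul_one, Complex.norm_real, Real.norm_eq_abs]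
  have hcb : K.cq b ≤ C := by
    have := hcq b
    rw [hbn] at this
    linarith
  have hcb0 : 0 ≤ K.cq b := cq_nonneg K b
  obtain ⟨G, hGd, hG⟩ := line_G K F J hF.ser a b
  have hNw0 : ∀ y, 0 ≤ K.Nw F y := by
    intro y
    unfold KD.Nw
    positivity
  -- the function on the vertical strip
  have hre : ∀ s : ℂ, (I * s).im = s.re := by
    intro s
    simp
  have hGs : ∀ s : ℂ, ‖G (I * s)‖ = K.Nw F (a + (I * s) • b) * Real.exp (K.cq b * s.re ^ 2) := by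
    intro s
    rw [hG (I * s), hre]
  have hbd : ∀ s : ℂ, |s.re| ≤ R → Real.exp (K.cq b * s.re ^ 2) ≤ Real.exp (C * R ^ 2) := by
    intro s hs
    apply Real.exp_le_exp.2
    have h1 : s.re ^ 2 ≤ R ^ 2 := by
      rw [← sq_abs]
      exact pow_le_pow_left₀ (abs_nonneg _) hs 2
    have h2 : K.cq b * s.re ^ 2 ≤ C * s.re ^ 2 := mul_le_mul_of_nonneg_right hcb (sq_nonneg _)
    have h3 : C * s.re ^ 2 ≤ C * R ^ 2 := mul_le_mul_of_nonneg_left h1 (by linarith)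
    linarith
  have hfd : Differentiable ℂ (fun s : ℂ => G (I * s)) :=
    hGd.comp (differentiable_id.const_mul I)
  have h3l := Complex.HadamardThreeLines.norm_le_interp_of_mem_verticalClosedStrip'
    (f := fun s : ℂ => G (I * s)) (z := (τ : ℂ)) (a := Real.exp (-L))
    (b := Real.exp (A1 + C * R ^ 2)) (l := 0) (u := R) hR
    (by
      show (τ : ℂ).re ∈ Set.Icc 0 R
      rw [Complex.ofReal_re]
      exact ⟨hτ0, hx⟩)
    hfd.diffContOnCl
    (by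
      refine ⟨Real.exp (A * (1 + Real.log (1 + R))) * Real.exp (C * R ^ 2), ?_⟩
      rintro _ ⟨s, hs, rfl⟩
      have hs' : s.re ∈ Set.Icc 0 R := hs
      have habs : |s.re| = s.re := abs_of_nonneg hs'.1
      show ‖G (I * s)‖ ≤ _
      rw [hGs]
      refine mul_le_mul ?_ (hbd s (by rw [habs]; exact hs'.2)) (Real.exp_pos _).le (Real.exp_pos _).le
      refine (hF.gr _).trans (Real.exp_le_exp.2 ?_)
      rw [hbbn, hre, habs]
      refine mul_le_mul_of_nonneg_left ?_ hA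
      have h1 : Real.log (1 + s.re) ≤ Real.log (1 + R) :=
        Real.log_le_log (by linarith [hs'.1]) (by linarith [hs'.2])
      linarith)
    (by
      intro s hs
      have hs' : s.re = 0 := hs
      show ‖G (I * s)‖ ≤ _
      rw [hGs, hs']
      have h1 : a + (I * s) • b ∈ K.V := by
        rw [V_iff K, ← norm_eq_zero, hbbn, hre, hs', abs_zero]
      have h2 := hV _ h1
      simpa using h2)
    (by
      intro s hs
      have hs' : s.re = R := hs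
      have habs : |s.re| = R := by rw [hs', abs_of_pos hR]
      show ‖G (I * s)‖ ≤ _
      rw [hGs, Real.exp_add]
      refine mul_le_mul ?_ (hbd s habs.le) (Real.exp_pos _).le (Real.exp_pos _).le
      refine hR1 _ ?_
      rw [hbbn, hre, habs])
  have h5 : K.Nw F x ≤ ‖G (I * (τ : ℂ))‖ := by
    rw [hGs, ← hxab, Complex.ofReal_re]
    have h6 : 1 ≤ Real.exp (K.cq b * τ ^ 2) := Real.one_le_exp (by positivity)
    exact le_mul_of_one_le_right (hNw0 x) h6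
  refine h5.trans (h3l.trans (le_of_eq ?_))
  rw [Complex.ofReal_re, sub_zero, sub_zero, ← Real.exp_mul, ← Real.exp_mul, ← Real.exp_add]
  congr 1
  ring

end AZ

end S_H60_AZ_Int
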