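import Mathlib
import Pool.Agent.H32.AKM.P01
import Pool.Agent.H32.AKM.P02

/-! Modular Schanuel with derivatives for points algebraic over a field with good approximations, part 3: this file joins several modules to save build time. -/

section S_H60_AZ_Cau

set_option autoImplicit false

namespace AZ

open Complex Finset

variable {S : Type} [Fintype S] [DecidableEq S]

private theorem Cau_orth (N : ℕ) (ζ : ℂ) (hζ : IsPrimitiveRoot ζ N) (hN : 0 < N) (a b : ℕ)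
    (ha : a < N) (hb : b < N) (hab : a ≠ b) :
    ∑ j : Fin N, (ζ ^ (j : ℕ)) ^ a * ((ζ ^ (j : ℕ))⁻¹) ^ b = 0 := by
  have h0 : ζ ≠ 0 := hζ.ne_zero hN.ne'
  have h1 : ∀ j : ℕ, (ζ ^ j) ^ a * ((ζ ^ j)⁻¹) ^ b = (ζ ^ a * (ζ ^ b)⁻¹) ^ j := by
    intro j
    rw [mul_pow, inv_pow, inv_pow, ← pow_mul, ← pow_mul, ← pow_mul, ← pow_mul, mul_comm j a,
      mul_comm j b]
  have h2 : ζ ^ a * (ζ ^ b)⁻¹ ≠ 1 := by
    intro h
    apply hab
    apply hζ.pow_inj ha hb
    have h3 : ζ ^ b ≠ 0 := pow_ne_zero _ h0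
    rw [← div_eq_mul_inv, div_eq_one_iff_eq h3] at h
    exact h
  have h3 : (ζ ^ a * (ζ ^ b)⁻¹) ^ N = 1 := by
    rw [mul_pow, inv_pow, ← pow_mul, ← pow_mul, mul_comm a N, mul_comm b N, pow_mul, pow_mul,
      hζ.pow_eq_one, one_pow, one_pow, inv_one, one_mul]
  rw [Finset.sum_congr rfl (fun (j : Fin N) _ => h1 j),
    Fin.sum_univ_eq_sum_range (fun j => (ζ ^ a * (ζ ^ b)⁻¹) ^ j), geom_sum_eq h2, h3, sub_self,
    zero_div]

theorem cauchy_est (F : (S → ℂ) → ℂ) (J : (S → ℕ) → ℂ)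
    (hser : ∀ x, HasSum (fun n : S → ℕ ↦ J n * ∏ s, x s ^ n s) (F x)) (B : ℝ)
    (hB : ∀ x, (∀ s, ‖x s‖ = 1) → ‖F x‖ ≤ B) (n : S → ℕ) : ‖J n‖ ≤ B := by
  have hJ : Summable fun m => ‖J m‖ := by
    have h := (hser fun _ => 1).summable
    simp only [one_pow, Finset.prod_const_one, mul_one] at h
    exact h.norm
  have hkey : ∀ T : Finset (S → ℕ), n ∈ T → ‖J n‖ ≤ B + ∑' m : {m // m ∉ T}, ‖J m‖ := by
    intro T hnT
    obtain ⟨N, hN, hT⟩ : ∃ N : ℕ, 0 < N ∧ ∀ m ∈ T, ∀ s, m s < N := by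
      refine ⟨(∑ m ∈ T, ∑ s, m s) + 1, by omega, fun m hm s => ?_⟩
      have h1 : m s ≤ ∑ s, m s :=
        Finset.single_le_sum (f := fun s => m s) (fun _ _ => Nat.zero_le _) (Finset.mem_univ s)
      have h2 : ∑ s, m s ≤ ∑ m ∈ T, ∑ s, m s :=
        Finset.single_le_sum (f := fun m : S → ℕ => ∑ s, m s) (fun _ _ => Nat.zero_le _) hm
      omega
    obtain ⟨ζ, hζ⟩ : ∃ ζ : ℂ, IsPrimitiveRoot ζ N := ⟨_, Complex.isPrimitiveRoot_exp N hN.ne'⟩
    have h0 : ζ ≠ 0 := hζ.ne_zero hN.ne'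
    have hnorm : ∀ j : ℕ, ‖ζ ^ j‖ = 1 := by
      intro j
      rw [norm_pow, hζ.norm'_eq_one hN.ne', one_pow]
    obtain ⟨x, hx⟩ : ∃ x : (S → Fin N) → S → ℂ, x = fun k s => ζ ^ (k s : ℕ) := ⟨_, rfl⟩
    obtain ⟨c, hc⟩ : ∃ c : (S → Fin N) → ℂ, c = fun k => ∏ s, ((x k s)⁻¹) ^ n s := ⟨_, rfl⟩
    obtain ⟨W, hW⟩ : ∃ W : (S → ℕ) → ℂ, W = fun m => ∑ k, c k * ∏ s, x k s ^ m s := ⟨_, rfl⟩
    obtain ⟨P, hP⟩ : ∃ P : ℝ, P = (Fintype.card (S → Fin N) : ℝ) := ⟨_, rfl⟩
    have hP0 : 0 < P := by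
      rw [hP, Fintype.card_fun, Fintype.card_fin]
      have : 0 < N ^ Fintype.card S := pow_pos hN _
      exact_mod_cast this
    have hxn : ∀ k s, ‖x k s‖ = 1 := by
      intro k s
      rw [hx]
      exact hnorm _
    have hcn : ∀ k, ‖c k‖ = 1 := by
      intro k
      rw [hc]
      simp only [norm_prod, norm_pow, norm_inv, hxn, inv_one, one_pow, Finset.prod_const_one]
    have hA : HasSum (fun m => J m * W m) (∑ k, c k * F (x k)) := by
      have h := hasSum_sum (s := (Finset.univ : Finset (S → Fin N)))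
        (fun k _ => (hser (x k)).mul_left (c k))
      have e : (fun m => J m * W m) = fun m => ∑ k, c k * (J m * ∏ s, x k s ^ m s) := by
        funext m
        rw [hW]
        simp only
        rw [Finset.mul_sum]
        refine Finset.sum_congr rfl fun k _ => ?_
        ring
      rw [e]
      exact h
    have hAn : ‖∑ k, c k * F (x k)‖ ≤ P * B := by
      refine (norm_sum_le _ _).trans ?_
      have h1 : ∀ k ∈ (Finset.univ : Finset (S → Fin N)), ‖c k * F (x k)‖ ≤ B := by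
        intro k _
        rw [norm_mul, hcn, one_mul]
        exact hB _ (hxn k)
      refine (Finset.sum_le_sum h1).trans (le_of_eq ?_)
      rw [Finset.sum_const, Finset.card_univ, nsmul_eq_mul, hP]
    have hWn : ∀ m, ‖W m‖ ≤ P := by
      intro m
      rw [hW]
      refine (norm_sum_le _ _).trans ?_
      have h1 : ∀ k ∈ (Finset.univ : Finset (S → Fin N)), ‖c k * ∏ s, x k s ^ m s‖ ≤ 1 := by
        intro k _
        rw [norm_mul, hcn, one_mul, norm_prod]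
        simp only [norm_pow, hxn, one_pow, Finset.prod_const_one, le_refl]
      refine (Finset.sum_le_sum h1).trans (le_of_eq ?_)
      rw [Finset.sum_const, Finset.card_univ, nsmul_eq_mul, hP, mul_one]
    have hW1 : W n = (P : ℂ) := by
      rw [hW]
      have h1 : ∀ k ∈ (Finset.univ : Finset (S → Fin N)), c k * ∏ s, x k s ^ n s = 1 := by
        intro k _
        rw [hc]
        simp only
        rw [← Finset.prod_mul_distrib]
        refine Finset.prod_eq_one fun s _ => ?_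
        have h2 : x k s ≠ 0 := by
          intro h3
          have h4 := hxn k s
          rw [h3, norm_zero] at h4
          exact zero_ne_one h4
        rw [← mul_pow, inv_mul_cancel₀ h2, one_pow]
      simp only
      rw [Finset.sum_congr rfl h1, Finset.sum_const, Finset.card_univ, nsmul_eq_mul, hP, mul_one]
      push_cast
      rfl
    have hW0 : ∀ m ∈ T, m ≠ n → W m = 0 := by
      intro m hm hmn
      have h1 : W m = ∏ s, ∑ j : Fin N, (ζ ^ (j : ℕ)) ^ m s * ((ζ ^ (j : ℕ))⁻¹) ^ n s := by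
        rw [Finset.prod_univ_sum, Fintype.piFinset_univ, hW]
        refine Finset.sum_congr rfl fun k _ => ?_
        rw [hc, hx]
        simp only
        rw [← Finset.prod_mul_distrib]
        exact Finset.prod_congr rfl fun s _ => mul_comm _ _
      obtain ⟨s, hs⟩ : ∃ s, m s ≠ n s := by
        by_contra hcon
        push Not at hcon
        exact hmn (funext hcon)
      rw [h1]
      exact Finset.prod_eq_zero (Finset.mem_univ s)
        (Cau_orth N ζ hζ hN (m s) (n s) (hT m hm s) (hT n hnT s) hs)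
    have hsplit := hA.summable.sum_add_tsum_subtype_compl T
    rw [hA.tsum_eq] at hsplit
    have hfirst : ∑ m ∈ T, J m * W m = J n * W n := by
      refine Finset.sum_eq_single_of_mem n hnT fun m hm hmn => ?_
      rw [hW0 m hm hmn, mul_zero]
    rw [hfirst, hW1] at hsplit
    have hrest : ‖∑' m : {m // m ∉ T}, J m * W m‖ ≤ (∑' m : {m // m ∉ T}, ‖J m‖) * P := by
      have hs : Summable fun m : {m // m ∉ T} => ‖J m‖ := hJ.subtype _
      refine tsum_of_norm_bounded (hs.hasSum.mul_right P) fun m => ?_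
      rw [norm_mul]
      exact mul_le_mul_of_nonneg_left (hWn m) (norm_nonneg _)
    have h5 : ‖J n * (P : ℂ)‖ ≤ P * B + (∑' m : {m // m ∉ T}, ‖J m‖) * P := by
      rw [eq_sub_of_add_eq hsplit]
      exact (norm_sub_le _ _).trans (add_le_add hAn hrest)
    rw [norm_mul, Complex.norm_real, Real.norm_of_nonneg hP0.le] at h5
    have h6 : ‖J n‖ * P ≤ (B + ∑' m : {m // m ∉ T}, ‖J m‖) * P := by
      linarith
    exact le_of_mul_le_mul_right h6 hP0
  have hlim : Filter.Tendsto (fun T : Finset (S → ℕ) => B + ∑' m : {m // m ∉ T}, ‖J m‖)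
      Filter.atTop (nhds (B + 0)) :=
    tendsto_const_nhds.add (tendsto_tsum_compl_atTop_zero fun m => ‖J m‖)
  rw [add_zero] at hlim
  refine ge_of_tendsto hlim (Filter.eventually_atTop.2 ⟨{n}, fun T hT => ?_⟩)
  exact hkey T (hT (Finset.mem_singleton_self n))

end AZ

end S_H60_AZ_Cau

section S_H22_U2_Cau

set_option autoImplicit false

namespace U2

theorem cauchy2 (F : ℂ → ℂ → ℂ) (J : ℕ → ℕ → ℂ)
    (hser : ∀ x1 x2 : ℂ, HasSum (fun p : ℕ × ℕ ↦ J p.1 p.2 * x1 ^ p.1 * x2 ^ p.2) (F x1 x2))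
    (κ B : ℝ) (hκ : 0 < κ) (hB : ∀ x1 x2 : ℂ, ‖x1‖ = κ → ‖x2‖ = κ → ‖F x1 x2‖ ≤ B) (a e : ℕ) :
    ‖J a e‖ ≤ B / κ ^ (a + e) := by
  have hκ' : (κ : ℂ) ≠ 0 := by exact_mod_cast hκ.ne'
  have hκn : ‖(κ : ℂ)‖ = κ := by rw [Complex.norm_real, Real.norm_of_nonneg hκ.le]
  have h := AZ.cauchy_est (S := Fin 2) (fun x => F (κ * x 0) (κ * x 1))
    (fun n => J (n 0) (n 1) * (κ : ℂ) ^ (n 0 + n 1)) ?_ B ?_ ![a, e]
  · simp only [Matrix.cons_val_zero, Matrix.cons_val_one, norm_mul, norm_pow, hκn] at h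
    rw [le_div_iff₀ (pow_pos hκ _)]
    exact h
  · intro x
    have h1 := hser (κ * x 0) (κ * x 1)
    rw [← (finTwoArrowEquiv ℕ).hasSum_iff] at h1
    have h2 : (fun n : Fin 2 → ℕ => J (n 0) (n 1) * (κ : ℂ) ^ (n 0 + n 1) * ∏ s, x s ^ n s) =
        (fun p : ℕ × ℕ => J p.1 p.2 * ((κ : ℂ) * x 0) ^ p.1 * ((κ : ℂ) * x 1) ^ p.2) ∘
          (finTwoArrowEquiv ℕ) := by
      funext n
      change _ = J (n 0) (n 1) * ((κ : ℂ) * x 0) ^ (n 0) * ((κ : ℂ) * x 1) ^ (n 1)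
      rw [Fin.prod_univ_two, mul_pow, mul_pow, pow_add]
      ring
    rw [h2]
    exact h1
  · intro x hx
    apply hB
    · rw [norm_mul, hκn, hx, mul_one]
    · rw [norm_mul, hκn, hx, mul_one]

end U2

end S_H22_U2_Cau

section S_H22_U2_Dec

set_option autoImplicit false

namespace U2

open Complex Finset

private theorem Dec_split {F : ℂ → ℂ → ℂ} {J : ℕ → ℕ → ℂ}
    (hser : ∀ x1 x2 : ℂ, HasSum (fun p : ℕ × ℕ ↦ J p.1 p.2 * x1 ^ p.1 * x2 ^ p.2) (F x1 x2))
    (S1 : ℕ) : ∃ G1 G2 : ℂ → ℂ → ℂ,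
      (∀ x1 x2 : ℂ, HasSum (fun p : ℕ × ℕ ↦
        (fun a e : ℕ => if e < S1 then J a e else 0) p.1 p.2 * x1 ^ p.1 * x2 ^ p.2) (G1 x1 x2)) ∧
      (∀ x1 x2 : ℂ, HasSum (fun p : ℕ × ℕ ↦
        (fun a e : ℕ => J a (e + S1)) p.1 p.2 * x1 ^ p.1 * x2 ^ p.2) (G2 x1 x2)) ∧
      ∀ x1 x2 : ℂ, F x1 x2 = G1 x1 x2 + x2 ^ S1 * G2 x1 x2 := by
  have hinj : Function.Injective (fun p : ℕ × ℕ => (p.1, p.2 + S1)) := by
    intro p q h
    simp only [Prod.mk.injEq, Nat.add_right_cancel_iff] at h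
    exact Prod.ext h.1 h.2
  have s1 : ∀ x1 x2 : ℂ, Summable (fun p : ℕ × ℕ ↦
      (fun a e : ℕ => if e < S1 then J a e else 0) p.1 p.2 * x1 ^ p.1 * x2 ^ p.2) := by
    intro x1 x2
    refine Summable.of_norm_bounded (hser x1 x2).summable.norm fun p => ?_
    by_cases h : p.2 < S1
    · simp [h]
    · simp [h]
      positivity
  have s2 : ∀ x1 x2 : ℂ, Summable (fun p : ℕ × ℕ ↦
      (fun a e : ℕ => J a (e + S1)) p.1 p.2 * x1 ^ p.1 * x2 ^ p.2) := by
    intro x1 x2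
    have h1 := (hser ((‖x1‖ : ℝ) : ℂ) ((max 1 ‖x2‖ : ℝ) : ℂ)).summable.norm
    have h2 := h1.comp_injective hinj
    refine Summable.of_norm_bounded h2 fun p => ?_
    have hR1 : 1 ≤ max 1 ‖x2‖ := le_max_left _ _
    have hR2 : ‖x2‖ ≤ max 1 ‖x2‖ := le_max_right _ _
    simp only [Function.comp_apply, norm_mul, norm_pow, Complex.norm_real, norm_norm,
      Real.norm_eq_abs]
    have hR0 : (0 : ℝ) < max 1 ‖x2‖ := zero_lt_one.trans_le hR1
    rw [abs_of_pos hR0, abs_of_nonneg (norm_nonneg x1)]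
    have h5 : ‖x2‖ ^ p.2 ≤ (max 1 ‖x2‖) ^ (p.2 + S1) :=
      (pow_le_pow_left₀ (norm_nonneg _) hR2 _).trans
        (pow_le_pow_right₀ hR1 (Nat.le_add_right _ _))
    exact mul_le_mul_of_nonneg_left h5
      (mul_nonneg (norm_nonneg _) (pow_nonneg (norm_nonneg _) _))
  refine ⟨fun x1 x2 => ∑' p : ℕ × ℕ,
      (fun a e : ℕ => if e < S1 then J a e else 0) p.1 p.2 * x1 ^ p.1 * x2 ^ p.2,
    fun x1 x2 => ∑' p : ℕ × ℕ, (fun a e : ℕ => J a (e + S1)) p.1 p.2 * x1 ^ p.1 * x2 ^ p.2,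
    fun x1 x2 => (s1 x1 x2).hasSum, fun x1 x2 => (s2 x1 x2).hasSum, fun x1 x2 => ?_⟩
  have h3 : HasSum (fun p : ℕ × ℕ => (if p.2 < S1 then 0 else J p.1 p.2) * x1 ^ p.1 * x2 ^ p.2)
      (x2 ^ S1 * ∑' p : ℕ × ℕ, (fun a e : ℕ => J a (e + S1)) p.1 p.2 * x1 ^ p.1 * x2 ^ p.2) := by
    rw [← hinj.hasSum_iff]
    · have h4 := ((s2 x1 x2).hasSum).mul_left (x2 ^ S1)
      have h5 : ((fun p : ℕ × ℕ => (if p.2 < S1 then 0 else J p.1 p.2) * x1 ^ p.1 * x2 ^ p.2) ∘
          fun p : ℕ × ℕ => (p.1, p.2 + S1)) =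
          fun i : ℕ × ℕ => x2 ^ S1 * ((fun a e => J a (e + S1)) i.1 i.2 * x1 ^ i.1 * x2 ^ i.2) := by
        funext p
        simp only [Function.comp_apply]
        rw [if_neg (by omega)]
        ring
      rw [h5]
      exact h4
    · intro p hp
      rw [if_pos, zero_mul, zero_mul]
      by_contra hcon
      push Not at hcon
      exact hp ⟨(p.1, p.2 - S1), by simp [Nat.sub_add_cancel hcon]⟩
  have h5 := (s1 x1 x2).hasSum.add h3
  have h6 := hser x1 x2
  refine h6.unique ?_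
  convert h5 using 1
  funext p
  by_cases h : p.2 < S1
  · simp [h]
  · simp [h]

private theorem Dec_pow (n : ℕ) : (n : ℝ) ^ 2 * 4 ^ n ≤ 16 ^ n := by
  have h1 : (n : ℝ) ≤ 2 ^ n := by exact_mod_cast (Nat.lt_two_pow_self (n := n)).le
  have h2 : (n : ℝ) ^ 2 ≤ 4 ^ n := by
    calc (n : ℝ) ^ 2 ≤ (2 ^ n) ^ 2 := pow_le_pow_left₀ (by positivity) h1 2
      _ = 4 ^ n := by
        rw [← pow_mul, mul_comm, pow_mul]
        norm_num
  calc (n : ℝ) ^ 2 * 4 ^ n ≤ 4 ^ n * 4 ^ n := by gcongr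
    _ = 16 ^ n := by
      rw [← mul_pow]
      norm_num

/-- The sum of the bounding series. -/
private theorem Dec_sum (n : ℕ) (u v : ℝ) (hu : 0 ≤ u) (hv : 0 ≤ v) :
    ∃ σ : ℝ, HasSum (fun p : ℕ × ℕ => (if p.1 + p.2 < n then u else 0) +
      v * ((3 / 8 : ℝ) ^ p.1 * (3 / 8 : ℝ) ^ p.2)) σ ∧ σ ≤ n ^ 2 * u + v * (64 / 25) := by
  have h1 : HasSum (fun p : ℕ × ℕ => (if p.1 + p.2 < n then u else 0))
      (∑ p ∈ range n ×ˢ range n, if p.1 + p.2 < n then u else 0) := by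
    refine hasSum_sum_of_ne_finset_zero fun p hp => ?_
    rw [if_neg]
    intro h
    apply hp
    rw [mem_product, mem_range, mem_range]
    constructor <;> omega
  have hg : HasSum (fun k : ℕ => (3 / 8 : ℝ) ^ k) (8 / 5) := by
    have := hasSum_geometric_of_lt_one (r := (3 / 8 : ℝ)) (by norm_num) (by norm_num)
    convert this using 1
    norm_num
  have h2 : HasSum (fun p : ℕ × ℕ => (3 / 8 : ℝ) ^ p.1 * (3 / 8 : ℝ) ^ p.2) (8 / 5 * (8 / 5)) :=
    hg.mul hg (hg.summable.mul_of_nonneg hg.summable (fun k => by positivity)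
      (fun k => by positivity))
  have h3 := h1.add (h2.mul_left v)
  refine ⟨_, h3, ?_⟩
  have h4 : (∑ p ∈ range n ×ˢ range n, if p.1 + p.2 < n then u else 0) ≤ n ^ 2 * u := by
    calc (∑ p ∈ range n ×ˢ range n, if p.1 + p.2 < n then u else 0)
        ≤ ∑ _p ∈ range n ×ˢ range n, u := sum_le_sum fun p _ => by
          split_ifs
          · exact le_rfl
          · exact hu
      _ = n ^ 2 * u := by
          rw [sum_const, card_product, card_range, nsmul_eq_mul]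
          push_cast
          ring
  have h5 : v * (8 / 5 * (8 / 5)) = v * (64 / 25) := by norm_num
  linarith

theorem loc_dec {z : ℂ} (hz : 0 < z.im) : ∃ C : ℕ, 1 ≤ C ∧
    ∀ (T : ℕ) (F : ℂ → ℂ → ℂ) (J : ℕ → ℕ → ℂ) (A : ℝ), 1 ≤ T → FD z T F J A →
    ∀ (S1 S2 N : ℕ) (η Ms s : ℝ), 1 ≤ N → 0 ≤ η →
      (∀ a e, e < S1 → a + e < S1 + S2 → ‖J a e‖ ≤ η) →
      (∀ y1 y2, |bet z y1 y2| ≤ C / N → Nw z T F y1 y2 ≤ Ms) → |s| ≤ 2 / (N : ℝ) →
      ∃ a b : ℂ → ℂ, Differentiable ℂ a ∧ Differentiable ℂ b ∧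
        (∀ ζ : ℂ, F (ζ - s) (mu z * ζ) = a ζ + ζ ^ S1 * b ζ) ∧
        ∀ ζ : ℂ, ‖ζ‖ ≤ 1 / (C * N) →
          ‖a ζ‖ ≤ Real.exp (C * T) * Ms / 8 ^ S2 + (C : ℝ) ^ (S1 + S2) * η := by
  obtain ⟨C1, hC1, hbet⟩ := bet_le z
  obtain ⟨C2, hC2⟩ := exists_nat_ge ‖mu z‖
  obtain ⟨C3, hC3⟩ := exists_nat_ge (8192 * Real.pi / z.im)
  refine ⟨128 * C1 + C2 + C3 + 16, by omega, ?_⟩
  intro T F J A hT hF S1 S2 N η Ms s hN hη hJ hNw hs
  set C : ℕ := 128 * C1 + C2 + C3 + 16 with hC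
  have hN1 : (1 : ℝ) ≤ N := by exact_mod_cast hN
  have hN0 : (0 : ℝ) < N := by linarith
  have hCr : (C : ℝ) = 128 * C1 + C2 + C3 + 16 := by
    rw [hC]
    push_cast
    ring
  have hC10 : (0 : ℝ) ≤ C1 := by positivity
  have hC20 : (0 : ℝ) ≤ C2 := by positivity
  have hC30 : (0 : ℝ) ≤ C3 := by positivity
  have hC16 : (16 : ℝ) ≤ C := by linarith
  have hC0 : (0 : ℝ) < C := by linarith
  obtain ⟨G1, G2, hG1, hG2, hFG⟩ := Dec_split hF.ser S1
  refine ⟨fun ζ => G1 (-s + ζ * 1) (0 + ζ * mu z),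
    fun ζ => mu z ^ S1 * G2 (-s + ζ * 1) (0 + ζ * mu z),
    line_diff (J := fun a e : ℕ => if e < S1 then J a e else 0) hG1 _ _ _ _,
    (line_diff (J := fun a e : ℕ => J a (e + S1)) hG2 _ _ _ _).const_mul _, fun ζ => ?_,
    fun ζ hζ => ?_⟩
  · have e1 : ζ - (s : ℂ) = -s + ζ * 1 := by ring
    have e2 : mu z * ζ = 0 + ζ * mu z := by ring
    rw [hFG, e1, e2, zero_add, mul_pow]
    ring
  -- the bound
  have hMs : 0 ≤ Ms := by
    refine le_trans ?_ (hNw 0 0 ?_)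
    · unfold Nw
      positivity
    · have : bet z 0 0 = 0 := by simp [bet]
      rw [this, abs_zero]
      positivity
  set B : ℝ := Ms * Real.exp (C * T) with hB
  have hB0 : 0 ≤ B := by positivity
  have hcau : ∀ a e : ℕ, ‖J a e‖ ≤ B / (64 / N : ℝ) ^ (a + e) := by
    refine cauchy2 F J hF.ser (64 / N) B (by positivity) fun x1 x2 hx1 hx2 => ?_
    have h1 : Nw z T F x1 x2 ≤ Ms := by
      refine hNw x1 x2 ((hbet x1 x2).trans ?_)
      rw [hx1, hx2]
      have : (C1 : ℝ) * (64 / N + 64 / N) = 128 * C1 / N := by ring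
      rw [this]
      gcongr
      linarith
    have h2 : ‖F x1 x2‖ = Nw z T F x1 x2 *
        Real.exp (Real.pi * T / z.im * (x1.im ^ 2 + x2.im ^ 2)) := by
      unfold Nw
      rw [mul_assoc, ← Real.exp_add, neg_add_cancel, Real.exp_zero, mul_one]
    rw [h2, hB]
    have h3 : Real.pi * T / z.im * (x1.im ^ 2 + x2.im ^ 2) ≤ C * T := by
      have h4 : x1.im ^ 2 ≤ 4096 := by
        have h5 : |x1.im| ≤ 64 := by
          refine (Complex.abs_im_le_norm x1).trans ?_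
          rw [hx1]
          exact div_le_self (by norm_num) hN1
        have h6 := abs_le.1 h5
        nlinarith [h6.1, h6.2]
      have h4' : x2.im ^ 2 ≤ 4096 := by
        have h5 : |x2.im| ≤ 64 := by
          refine (Complex.abs_im_le_norm x2).trans ?_
          rw [hx2]
          exact div_le_self (by norm_num) hN1
        have h6 := abs_le.1 h5
        nlinarith [h6.1, h6.2]
      calc Real.pi * T / z.im * (x1.im ^ 2 + x2.im ^ 2)
          ≤ Real.pi * T / z.im * (4096 + 4096) := by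
            refine mul_le_mul_of_nonneg_left (add_le_add h4 h4') ?_
            positivity
        _ = 8192 * Real.pi / z.im * T := by ring
        _ ≤ C * T := by
            refine mul_le_mul_of_nonneg_right ?_ (by positivity)
            linarith
    exact mul_le_mul h1 (Real.exp_le_exp.2 h3) (Real.exp_pos _).le hMs
  -- the arguments are small
  have hCN : 1 / ((C : ℝ) * N) ≤ 1 / N := by
    refine one_div_le_one_div_of_le hN0 ?_
    nlinarith
  have hx1 : ‖(-s + ζ * 1 : ℂ)‖ ≤ 3 / N := by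
    calc ‖(-s + ζ * 1 : ℂ)‖ ≤ ‖(-s : ℂ)‖ + ‖(ζ * 1 : ℂ)‖ := norm_add_le _ _
      _ = |s| + ‖ζ‖ := by rw [norm_neg, mul_one, Complex.norm_real, Real.norm_eq_abs]
      _ ≤ 2 / N + 1 / N := add_le_add hs (hζ.trans hCN)
      _ = 3 / N := by ring
  have hx2 : ‖(0 + ζ * mu z : ℂ)‖ ≤ 3 / N := by
    rw [zero_add, norm_mul]
    calc ‖ζ‖ * ‖mu z‖ ≤ 1 / ((C : ℝ) * N) * C := by
          refine mul_le_mul hζ (hC2.trans (by linarith)) (norm_nonneg _) (by positivity)
      _ = 1 / N := by field_simp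
      _ ≤ 3 / N := by
          gcongr
          norm_num
  have h3N : (3 : ℝ) / N ≤ 4 := (div_le_self (by norm_num) hN1).trans (by norm_num)
  have h3N0 : (0 : ℝ) ≤ 3 / N := by positivity
  show ‖G1 (-s + ζ * 1) (0 + ζ * mu z)‖ ≤ _
  generalize (-s + ζ * 1 : ℂ) = y1 at hx1
  generalize (0 + ζ * mu z : ℂ) = y2 at hx2
  obtain ⟨σ, hσ, hσle⟩ := Dec_sum (S1 + S2) (4 ^ (S1 + S2) * η) (B * (1 / 8) ^ (S2 + 1))
    (by positivity) (by positivity)
  have hterm : ∀ p : ℕ × ℕ,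
      ‖(fun a e : ℕ => if e < S1 then J a e else 0) p.1 p.2 * y1 ^ p.1 * y2 ^ p.2‖ ≤
      (if p.1 + p.2 < S1 + S2 then 4 ^ (S1 + S2) * η else 0) +
        B * (1 / 8) ^ (S2 + 1) * ((3 / 8 : ℝ) ^ p.1 * (3 / 8 : ℝ) ^ p.2) := by
    rintro ⟨a, e⟩
    simp only
    have hpos : 0 ≤ B * (1 / 8) ^ (S2 + 1) * ((3 / 8 : ℝ) ^ a * (3 / 8 : ℝ) ^ e) := by positivity
    by_cases he : e < S1
    · rw [if_pos he, norm_mul, norm_mul, norm_pow, norm_pow]
      have hyy : ‖y1‖ ^ a * ‖y2‖ ^ e ≤ (3 / N : ℝ) ^ (a + e) := by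
        rw [pow_add]
        exact mul_le_mul (pow_le_pow_left₀ (norm_nonneg _) hx1 _)
          (pow_le_pow_left₀ (norm_nonneg _) hx2 _) (by positivity) (by positivity)
      by_cases hn : a + e < S1 + S2
      · rw [if_pos hn]
        have h1 : ‖J a e‖ * ‖y1‖ ^ a * ‖y2‖ ^ e ≤ 4 ^ (S1 + S2) * η := by
          calc ‖J a e‖ * ‖y1‖ ^ a * ‖y2‖ ^ e = ‖J a e‖ * (‖y1‖ ^ a * ‖y2‖ ^ e) := by ring
            _ ≤ η * 4 ^ (S1 + S2) := by
                refine mul_le_mul (hJ a e he hn) (hyy.trans ?_) (by positivity) hη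
                calc (3 / N : ℝ) ^ (a + e) ≤ 4 ^ (a + e) := pow_le_pow_left₀ h3N0 h3N _
                  _ ≤ 4 ^ (S1 + S2) := pow_le_pow_right₀ (by norm_num) hn.le
            _ = _ := by ring
        linarith
      · rw [if_neg hn, zero_add]
        have hk : S2 + 1 ≤ a + e := by omega
        calc ‖J a e‖ * ‖y1‖ ^ a * ‖y2‖ ^ e = ‖J a e‖ * (‖y1‖ ^ a * ‖y2‖ ^ e) := by ring
          _ ≤ B / (64 / N : ℝ) ^ (a + e) * (3 / N : ℝ) ^ (a + e) :=
              mul_le_mul (hcau a e) hyy (by positivity) (by positivity)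
          _ = B * ((1 / 8 : ℝ) ^ (a + e) * (3 / 8) ^ (a + e)) := by
              rw [← mul_pow, div_mul_eq_mul_div, mul_div_assoc, ← div_pow]
              congr 2
              field_simp
              norm_num
          _ ≤ B * ((1 / 8 : ℝ) ^ (S2 + 1) * (3 / 8) ^ (a + e)) := by
              refine mul_le_mul_of_nonneg_left (mul_le_mul_of_nonneg_right ?_ (by positivity)) hB0
              exact pow_le_pow_of_le_one (by norm_num) (by norm_num) hk
          _ = _ := by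
              rw [pow_add (3 / 8 : ℝ)]
              ring
    · rw [if_neg he, zero_mul, zero_mul, norm_zero]
      have h1 : 0 ≤ (if a + e < S1 + S2 then 4 ^ (S1 + S2) * η else 0) := by
        split_ifs
        · positivity
        · exact le_rfl
      linarith
  have hfin : ‖G1 y1 y2‖ ≤ σ := by
    rw [← (hG1 y1 y2).tsum_eq]
    exact tsum_of_norm_bounded hσ hterm
  refine hfin.trans (hσle.trans ?_)
  have h1 : ((S1 + S2 : ℕ) : ℝ) ^ 2 * (4 ^ (S1 + S2) * η) ≤ (C : ℝ) ^ (S1 + S2) * η := by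
    rw [← mul_assoc]
    refine mul_le_mul_of_nonneg_right ((Dec_pow _).trans ?_) hη
    exact pow_le_pow_left₀ (by norm_num) hC16 _
  have h2 : B * (1 / 8) ^ (S2 + 1) * (64 / 25) ≤ Real.exp (C * T) * Ms / 8 ^ S2 := by
    have h3 : B * (1 / 8) ^ (S2 + 1) * (64 / 25) = B / 8 ^ S2 * (8 / 25) := by
      rw [pow_succ, one_div, inv_pow]
      ring
    rw [h3, hB, mul_comm Ms]
    have h4 : 0 ≤ Real.exp (C * T) * Ms / 8 ^ S2 := by positivity
    linarith
  linarith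

end U2

end S_H22_U2_Dec

section S_H22_U2_Geo

set_option autoImplicit false

namespace U2

open Complex

theorem Geo_uu {z : ℂ} (x2 : ℂ) (m : ℤ × ℤ × ℤ) :
    ‖uu z x2 m‖ = ‖z‖ * ‖(m.2.1 : ℂ) + m.2.2 * z - x2‖ := by
  rw [uu, mu, norm_div, norm_div, norm_neg, norm_one, Complex.norm_conj, one_div, div_inv_eq_mul,
    mul_comm]

theorem Geo_uu_sub {z : ℂ} (x2 : ℂ) (m m' : ℤ × ℤ × ℤ) :
    ‖uu z x2 m - uu z x2 m'‖ =
      ‖z‖ * ‖((m.2.1 - m'.2.1 : ℤ) : ℂ) + ((m.2.2 - m'.2.2 : ℤ) : ℂ) * z‖ := by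
  have : uu z x2 m - uu z x2 m' =
      (((m.2.1 - m'.2.1 : ℤ) : ℂ) + ((m.2.2 - m'.2.2 : ℤ) : ℂ) * z) / mu z := by
    rw [uu, uu, ← sub_div]
    congr 1
    push_cast
    ring
  rw [this, mu, norm_div, norm_div, norm_neg, norm_one, Complex.norm_conj, one_div, div_inv_eq_mul,
    mul_comm]

theorem Geo_round {z : ℂ} (hz : 0 < z.im) (x2 : ℂ) : ∃ a1 a2 : ℤ,
    ‖(a1 : ℂ) + a2 * z - x2‖ ≤ (1 + ‖z‖) / 2 := by
  set r2 : ℝ := x2.im / z.im with hr2
  set r1 : ℝ := x2.re - z.re * r2 with hr1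
  refine ⟨round r1, round r2, ?_⟩
  have hx : x2 = (r1 : ℂ) + r2 * z := by
    apply Complex.ext
    · simp [hr1]
      ring
    · simp [hr2]
      field_simp
  have e : ((round r1 : ℤ) : ℂ) + ((round r2 : ℤ) : ℂ) * z - x2 =
      (((round r1 : ℝ) - r1 : ℝ) : ℂ) + (((round r2 : ℝ) - r2 : ℝ) : ℂ) * z := by
    conv_lhs => rw [hx]
    push_cast
    ring
  rw [e]
  have h1 : |(round r1 : ℝ) - r1| ≤ 1 / 2 := by
    rw [abs_sub_comm]
    exact abs_sub_round r1
  have h2 : |(round r2 : ℝ) - r2| ≤ 1 / 2 := by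
    rw [abs_sub_comm]
    exact abs_sub_round r2
  calc ‖(((round r1 : ℝ) - r1 : ℝ) : ℂ) + (((round r2 : ℝ) - r2 : ℝ) : ℂ) * z‖
      ≤ ‖(((round r1 : ℝ) - r1 : ℝ) : ℂ)‖ + ‖(((round r2 : ℝ) - r2 : ℝ) : ℂ) * z‖ :=
        norm_add_le _ _
    _ = |(round r1 : ℝ) - r1| + |(round r2 : ℝ) - r2| * ‖z‖ := by
        rw [norm_mul, Complex.norm_real, Complex.norm_real, Real.norm_eq_abs, Real.norm_eq_abs]
    _ ≤ 1 / 2 + 1 / 2 * ‖z‖ := by
        have := mul_le_mul_of_nonneg_right h2 (norm_nonneg z)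
        linarith
    _ = (1 + ‖z‖) / 2 := by ring

theorem Geo_sep {z : ℂ} (hz : 0 < z.im) (a b : ℤ) (h : a ≠ 0 ∨ b ≠ 0) :
    min 1 z.im ≤ ‖(a : ℂ) + b * z‖ := by
  by_cases hb : b = 0
  · have ha : a ≠ 0 := by
      rcases h with h | h
      · exact h
      · exact absurd hb h
    rw [hb]
    have h1 : (1 : ℝ) ≤ |(a : ℝ)| := by
      have := Int.one_le_abs ha
      exact_mod_cast this
    have h2 : ‖(a : ℂ) + ((0 : ℤ) : ℂ) * z‖ = |(a : ℝ)| := by
      rw [Int.cast_zero, zero_mul, add_zero, Complex.norm_intCast]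
    rw [h2]
    exact (min_le_left _ _).trans h1
  · have h1 : (1 : ℝ) ≤ |(b : ℝ)| := by
      have := Int.one_le_abs hb
      exact_mod_cast this
    have h2 : |((a : ℂ) + b * z).im| ≤ ‖(a : ℂ) + b * z‖ := Complex.abs_im_le_norm _
    have h3 : ((a : ℂ) + b * z).im = b * z.im := by simp
    rw [h3, abs_mul, abs_of_pos hz] at h2
    have h4 : z.im ≤ |(b : ℝ)| * z.im := by
      have := mul_le_mul_of_nonneg_right h1 hz.le
      linarith
    exact (min_le_right _ _).trans (h4.trans h2)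

/-- pigeonhole -/
theorem Geo_pig (α α' : ℝ) (N M : ℕ) (hN : 1 ≤ N) : ∃ g : Fin (M ^ 2 / N) → ℕ × ℕ,
    Function.Injective g ∧ (∀ i, (g i).1 < M ∧ (g i).2 < M) ∧
    ∀ i j, |Int.fract (α * (g i).1 + α' * (g i).2) - Int.fract (α * (g j).1 + α' * (g j).2)| ≤
      1 / (N : ℝ) := by
  classical
  have hN0 : (0 : ℝ) < N := by exact_mod_cast hN
  set fr : ℕ × ℕ → ℝ := fun p => Int.fract (α * p.1 + α' * p.2) with hfr
  have hfr0 : ∀ p, 0 ≤ fr p := fun p => Int.fract_nonneg _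
  have hfr1 : ∀ p, fr p < 1 := fun p => Int.fract_lt_one _
  obtain ⟨y, -, hy⟩ := Finset.exists_le_card_fiber_of_mul_le_card_of_maps_to
    (s := Finset.range M ×ˢ Finset.range M) (t := Finset.range N)
    (f := fun p => ⌊(N : ℝ) * fr p⌋₊) (n := M ^ 2 / N)
    (by
      intro p _
      rw [Finset.mem_range, Nat.floor_lt (mul_nonneg hN0.le (hfr0 p))]
      have := mul_lt_mul_of_pos_left (hfr1 p) hN0
      linarith)
    ⟨0, Finset.mem_range.2 hN⟩
    (by
      rw [Finset.card_range, Finset.card_product, Finset.card_range, ← sq]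
      exact Nat.mul_div_le _ _)
  obtain ⟨S, hS, hSc⟩ := Finset.exists_subset_card_eq hy
  refine ⟨fun i => ((Finset.equivFinOfCardEq hSc).symm i : ℕ × ℕ), ?_, ?_, ?_⟩
  · intro i j hij
    exact (Finset.equivFinOfCardEq hSc).symm.injective (Subtype.ext hij)
  · intro i
    have := hS ((Finset.equivFinOfCardEq hSc).symm i).2
    rw [Finset.mem_filter, Finset.mem_product, Finset.mem_range, Finset.mem_range] at this
    exact this.1
  · have hb : ∀ i, (y : ℝ) ≤ N * fr ((Finset.equivFinOfCardEq hSc).symm i : ℕ × ℕ) ∧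
        N * fr ((Finset.equivFinOfCardEq hSc).symm i : ℕ × ℕ) < y + 1 := by
      intro i
      have := hS ((Finset.equivFinOfCardEq hSc).symm i).2
      rw [Finset.mem_filter] at this
      have h2 := this.2
      rw [Nat.floor_eq_iff (mul_nonneg hN0.le (hfr0 _))] at h2
      exact h2
    intro i j
    have hi := hb i
    have hj := hb j
    change |fr _ - fr _| ≤ _
    have hab : ∀ p q : ℕ × ℕ, (y : ℝ) ≤ N * fr p ∧ N * fr p < y + 1 →
        (y : ℝ) ≤ N * fr q ∧ N * fr q < y + 1 → |fr p - fr q| ≤ 1 / (N : ℝ) := by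
      intro p q hp hq
      rw [abs_le, le_div_iff₀ hN0, neg_le, le_div_iff₀ hN0]
      constructor <;> nlinarith [hp.1, hp.2, hq.1, hq.2]
    exact hab _ _ hi hj

theorem geo {z : ℂ} (hz : 0 < z.im) : ∃ C : ℕ, 1 ≤ C ∧ ∀ N K M : ℕ, 1 ≤ N → COV z N K → K + 1 ≤ M →
    ∀ x1 x2 : ℂ, bet z x1 x2 = 0 → ∃ f : Fin (M ^ 2 / N) → ℤ × ℤ × ℤ,
      (∀ i, ‖uu z x2 (f i)‖ ≤ C * M ∧ |ss z x1 x2 (f i)| ≤ 2 / (N : ℝ)) ∧
      ∀ i j, i ≠ j → 1 / (C : ℝ) ≤ ‖uu z x2 (f i) - uu z x2 (f j)‖ := by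
  have hz0 : 0 < ‖z‖ := norm_pos_iff.2 (by rintro rfl; simp at hz)
  have hmin : 0 < min 1 z.im := lt_min one_pos hz
  obtain ⟨C, hC⟩ := exists_nat_ge (1 + 3 * ‖z‖ * (1 + ‖z‖) + 1 / (‖z‖ * min 1 z.im))
  have hp1 : 0 ≤ 3 * ‖z‖ * (1 + ‖z‖) := by positivity
  have hp2 : 0 ≤ 1 / (‖z‖ * min 1 z.im) := by positivity
  have hC1 : (1 : ℝ) ≤ C := by linarith
  refine ⟨C, by exact_mod_cast hC1, ?_⟩
  intro N K M hN hcov hKM x1 x2 hb
  have hN0 : (0 : ℝ) < N := by exact_mod_cast hN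
  set α : ℝ := 2 * z.re with hα
  set α' : ℝ := ‖z‖ ^ 2 with hα'
  set θ : ℝ := (x1 + (starRingEnd ℂ) z * x2).re with hθ
  obtain ⟨a1, a2, ha⟩ := Geo_round hz x2
  obtain ⟨c0, c1, c2, hc1, hc2, hc⟩ := hcov (θ - a1 * α - a2 * α')
  obtain ⟨g, hgi, hgM, hgf⟩ := Geo_pig α α' N M hN
  by_cases hM0 : M ^ 2 / N = 0
  · have : IsEmpty (Fin (M ^ 2 / N)) := by
      rw [hM0]
      infer_instance
    exact ⟨isEmptyElim, isEmptyElim, isEmptyElim⟩
  set i0 : Fin (M ^ 2 / N) := ⟨0, Nat.pos_of_ne_zero hM0⟩ with hi0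
  refine ⟨fun i => (c0 - (⌊α * (g i).1 + α' * (g i).2⌋ - ⌊α * (g i0).1 + α' * (g i0).2⌋),
    a1 + c1 + (((g i).1 : ℤ) - (g i0).1), a2 + c2 + (((g i).2 : ℤ) - (g i0).2)), ?_, ?_⟩
  · intro i
    have hd : ∀ a b : ℕ, a < M → b < M → |((a : ℤ) : ℝ) - ((b : ℤ) : ℝ)| ≤ M := by
      intro a b ha hb
      have h1 : (a : ℝ) ≤ M := by exact_mod_cast ha.le
      have h2 : (b : ℝ) ≤ M := by exact_mod_cast hb.le
      have h3 : (0 : ℝ) ≤ a := Nat.cast_nonneg _
      have h4 : (0 : ℝ) ≤ b := Nat.cast_nonneg _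
      rw [Int.cast_natCast, Int.cast_natCast, abs_le]
      constructor <;> linarith
    have hd1 := hd _ _ (hgM i).1 (hgM i0).1
    have hd2 := hd _ _ (hgM i).2 (hgM i0).2
    have hcr : ∀ c : ℤ, |c| ≤ (K : ℤ) → |(c : ℝ)| ≤ M := by
      intro c hc
      have h1 : |(c : ℝ)| ≤ K := by exact_mod_cast hc
      have h2 : ((K : ℝ)) + 1 ≤ M := by exact_mod_cast hKM
      linarith
    have hc1' := hcr c1 hc1
    have hc2' := hcr c2 hc2
    have hM1 : (1 : ℝ) ≤ M := by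
      have : 1 ≤ M := by omega
      exact_mod_cast this
    constructor
    · rw [Geo_uu]
      have e : (((a1 + c1 + (((g i).1 : ℤ) - (g i0).1) : ℤ)) : ℂ) +
          (((a2 + c2 + (((g i).2 : ℤ) - (g i0).2) : ℤ)) : ℂ) * z - x2 =
          ((a1 : ℂ) + a2 * z - x2) +
          (((c1 : ℝ) + ((((g i).1 : ℤ) : ℝ) - (((g i0).1 : ℤ) : ℝ)) : ℝ) : ℂ) +
          (((c2 : ℝ) + ((((g i).2 : ℤ) : ℝ) - (((g i0).2 : ℤ) : ℝ)) : ℝ) : ℂ) * z := by
        push_cast
        ring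
      have h1 : ‖(((c1 : ℝ) + ((((g i).1 : ℤ) : ℝ) - (((g i0).1 : ℤ) : ℝ)) : ℝ) : ℂ)‖ ≤
          2 * M := by
        rw [Complex.norm_real, Real.norm_eq_abs]
        refine (abs_add_le _ _).trans ?_
        linarith
      have h2 : ‖(((c2 : ℝ) + ((((g i).2 : ℤ) : ℝ) - (((g i0).2 : ℤ) : ℝ)) : ℝ) : ℂ) * z‖ ≤
          2 * M * ‖z‖ := by
        rw [norm_mul, Complex.norm_real, Real.norm_eq_abs]
        refine mul_le_mul_of_nonneg_right ?_ hz0.le
        refine (abs_add_le _ _).trans ?_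
        linarith
      have h3 : ‖(((a1 + c1 + (((g i).1 : ℤ) - (g i0).1) : ℤ)) : ℂ) +
          (((a2 + c2 + (((g i).2 : ℤ) - (g i0).2) : ℤ)) : ℂ) * z - x2‖ ≤
          3 * (1 + ‖z‖) * M := by
        rw [e]
        refine (norm_add_le _ _).trans ?_
        have h4 := norm_add_le ((a1 : ℂ) + a2 * z - x2)
          (((c1 : ℝ) + ((((g i).1 : ℤ) : ℝ) - (((g i0).1 : ℤ) : ℝ)) : ℝ) : ℂ)
        have h5 : (1 + ‖z‖) / 2 ≤ (1 + ‖z‖) * M := by
          have : 0 ≤ (1 + ‖z‖) := by positivity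
          nlinarith
        nlinarith
      calc ‖z‖ * ‖(((a1 + c1 + (((g i).1 : ℤ) - (g i0).1) : ℤ)) : ℂ) +
          (((a2 + c2 + (((g i).2 : ℤ) - (g i0).2) : ℤ)) : ℂ) * z - x2‖
          ≤ ‖z‖ * (3 * (1 + ‖z‖) * M) := mul_le_mul_of_nonneg_left h3 hz0.le
        _ = (3 * ‖z‖ * (1 + ‖z‖)) * M := by ring
        _ ≤ C * M := by
            refine mul_le_mul_of_nonneg_right ?_ (by linarith)
            linarith
    · rw [ss_val hz]
      have hf := hgf i i0
      have e1 := Int.self_sub_floor (α * (g i).1 + α' * (g i).2)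
      have e2 := Int.self_sub_floor (α * (g i0).1 + α' * (g i0).2)
      have e : ((c0 - (⌊α * (g i).1 + α' * (g i).2⌋ - ⌊α * (g i0).1 + α' * (g i0).2⌋) : ℤ) : ℝ) +
          ((a1 + c1 + (((g i).1 : ℤ) - (g i0).1) : ℤ) : ℝ) * (2 * z.re) +
          ((a2 + c2 + (((g i).2 : ℤ) - (g i0).2) : ℤ) : ℝ) * ‖z‖ ^ 2 -
          (x1 + (starRingEnd ℂ) z * x2).re =
          ((c0 : ℝ) + c1 * (2 * z.re) + c2 * ‖z‖ ^ 2 - (θ - a1 * α - a2 * α')) +
          (Int.fract (α * (g i).1 + α' * (g i).2) -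
            Int.fract (α * (g i0).1 + α' * (g i0).2)) := by
        rw [← e1, ← e2, hα, hα', hθ]
        push_cast
        ring
      rw [e]
      refine (abs_add_le _ _).trans ?_
      have : 2 / (N : ℝ) = 1 / N + 1 / N := by ring
      rw [this]
      exact add_le_add hc hf
  · intro i j hij
    rw [Geo_uu_sub]
    have hne : ((g i).1 : ℤ) - (g j).1 ≠ 0 ∨ ((g i).2 : ℤ) - (g j).2 ≠ 0 := by
      by_contra hcon
      push Not at hcon
      apply hij
      apply hgi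
      apply Prod.ext
      · omega
      · omega
    have h1 := Geo_sep hz _ _ hne
    have e1 : (a1 + c1 + (((g i).1 : ℤ) - (g i0).1)) - (a1 + c1 + (((g j).1 : ℤ) - (g i0).1)) =
        ((g i).1 : ℤ) - (g j).1 := by ring
    have e2 : (a2 + c2 + (((g i).2 : ℤ) - (g i0).2)) - (a2 + c2 + (((g j).2 : ℤ) - (g i0).2)) =
        ((g i).2 : ℤ) - (g j).2 := by ring
    rw [e1, e2]
    have h2 := mul_le_mul_of_nonneg_left h1 hz0.le
    have h3 : 0 < ‖z‖ * min 1 z.im := mul_pos hz0 hmin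
    have h4 : 1 / (C : ℝ) ≤ ‖z‖ * min 1 z.im := by
      rw [div_le_iff₀ (by linarith)]
      have h5 : 1 / (‖z‖ * min 1 z.im) ≤ C := by linarith
      rw [div_le_iff₀ h3] at h5
      linarith
    exact h4.trans h2

end U2

end S_H22_U2_Geo

section S_H22_U2_Hm

set_option autoImplicit false

namespace U2

open Complex Metric

theorem Hm_gen (n : ℕ) (u : Fin n → ℂ) (δ R : ℝ)
    (hδ : 0 < δ) (hδR : δ ≤ R) (hu : ∀ i, ‖u i‖ ≤ R)
    (hsep : ∀ i j, i ≠ j → 2 * δ ≤ ‖u i - u j‖) (m : ℕ) :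
    ∀ (g : ℂ → ℂ) (s : Fin n → ℕ) (ε M : ℝ), Differentiable ℂ g → ∑ i, s i = m → 0 ≤ ε →
    (∀ i, ∃ a b : ℂ → ℂ, DifferentiableOn ℂ a (ball (u i) δ) ∧
      ContinuousOn a (closedBall (u i) δ) ∧ ContinuousAt b (u i) ∧
      (∀ v ∈ closedBall (u i) δ, g v = a v + (v - u i) ^ (s i) * b v) ∧
      ∀ v ∈ closedBall (u i) δ, ‖a v‖ ≤ ε) →
    (∀ v, ‖v‖ ≤ 4 * R → ‖g v‖ ≤ M) →
    ‖g 0‖ ≤ (1 / 3) ^ m * M + 2 * (m : ℝ) * (2 * R / δ) ^ m * ε := by
  have hR : 0 < R := lt_of_lt_of_le hδ hδR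
  have hq : 1 ≤ 2 * R / δ := by
    rw [le_div_iff₀ hδ]
    linarith
  induction m with
  | zero =>
    intro g s ε M _ _ _ _ hM
    have := hM 0 (by rw [norm_zero]; positivity)
    simpa using this
  | succ m ih =>
    intro g s ε M hg hs hε hloc hM
    obtain ⟨j, hj⟩ : ∃ j, 0 < s j := by
      by_contra hcon
      push Not at hcon
      have : ∑ i, s i = 0 := Finset.sum_eq_zero fun i _ => Nat.le_zero.1 (hcon i)
      omega
    obtain ⟨k, hk⟩ : ∃ k, s j = k + 1 := ⟨s j - 1, by omega⟩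
    choose a b ha1 ha2 hb hab hae using hloc
    set c := g (u j) with hc
    have hmem : ∀ i, u i ∈ closedBall (u i) δ := fun i => mem_closedBall_self hδ.le
    have hcj : c = a j (u j) := by
      rw [hc, hab j (u j) (hmem j), sub_self, hk]
      simp
    have hcε : ‖c‖ ≤ ε := by
      rw [hcj]
      exact hae j _ (hmem j)
    set g1 : ℂ → ℂ := dslope g (u j) with hg1
    have hg1d : Differentiable ℂ g1 := by
      rw [← differentiableOn_univ, hg1, Complex.differentiableOn_dslope Filter.univ_mem]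
      exact hg.differentiableOn
    have hg1v : ∀ v, v ≠ u j → g1 v = (g v - c) / (v - u j) := by
      intro v hv
      rw [hg1, dslope_of_ne _ hv, slope_def_field]
    have hgv : ∀ v, g v = c + (v - u j) * g1 v := by
      intro v
      have := sub_smul_dslope g (u j) v
      rw [smul_eq_mul] at this
      rw [hg1, this, hc]
      ring
    -- the bound of `g1` on the big ball
    have hM1 : ∀ v, ‖v‖ ≤ 4 * R → ‖g1 v‖ ≤ (M + ε) / (3 * R) := by
      intro v hv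
      have hfr : ∀ z ∈ frontier (ball (0 : ℂ) (4 * R)), ‖g1 z‖ ≤ (M + ε) / (3 * R) := by
        intro z hz
        rw [frontier_ball _ (by positivity), mem_sphere_zero_iff_norm] at hz
        have h3 : 3 * R ≤ ‖z - u j‖ := by
          have := norm_sub_norm_le z (u j)
          have := hu j
          linarith
        have hne : z ≠ u j := by
          intro h
          rw [h, sub_self, norm_zero] at h3
          linarith
        rw [hg1v z hne, norm_div]
        have h4 : ‖g z - c‖ ≤ M + ε := by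
          have h5 := norm_sub_le (g z) c
          have h6 := hM z hz.le
          linarith
        have h7 : 0 ≤ M + ε := (norm_nonneg _).trans h4
        exact div_le_div₀ h7 h4 (by positivity) h3
      refine Complex.norm_le_of_forall_mem_frontier_norm_le (U := ball (0 : ℂ) (4 * R))
        isBounded_ball hg1d.diffContOnCl hfr ?_
      rw [closure_ball _ (by positivity), mem_closedBall_zero_iff]
      exact hv
    -- the local structure of `g1`
    have hloc1 : ∀ i, ∃ a' b' : ℂ → ℂ, DifferentiableOn ℂ a' (ball (u i) δ) ∧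
        ContinuousOn a' (closedBall (u i) δ) ∧ ContinuousAt b' (u i) ∧
        (∀ v ∈ closedBall (u i) δ, g1 v = a' v + (v - u i) ^ (Function.update s j k i) * b' v) ∧
        ∀ v ∈ closedBall (u i) δ, ‖a' v‖ ≤ 2 * ε / δ := by
      intro i
      by_cases hij : i = j
      · subst hij
        have hnb : ball (u i) δ ∈ nhds (u i) := ball_mem_nhds _ hδ
        have hncb : closedBall (u i) δ ∈ nhds (u i) := closedBall_mem_nhds _ hδ
        have hdd : DifferentiableOn ℂ (dslope (a i) (u i)) (ball (u i) δ) :=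
          (Complex.differentiableOn_dslope hnb).2 (ha1 i)
        have hda : DifferentiableAt ℂ (a i) (u i) := (ha1 i).differentiableAt hnb
        have hdc : ContinuousOn (dslope (a i) (u i)) (closedBall (u i) δ) :=
          (continuousOn_dslope hncb).2 ⟨ha2 i, hda⟩
        refine ⟨dslope (a i) (u i), b i, hdd, hdc, hb i, ?_, ?_⟩
        · rw [Function.update_self]
          have hne : ∀ v ∈ closedBall (u i) δ, v ≠ u i →
              g1 v = dslope (a i) (u i) v + (v - u i) ^ k * b i v := by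
            intro v hv hvne
            have hvv : v - u i ≠ 0 := sub_ne_zero.2 hvne
            rw [hg1v v hvne, dslope_of_ne _ hvne, slope_def_field, hab i v hv, hcj, hk]
            field_simp
            ring
          intro v hv
          by_cases hvi : v = u i
          · subst hvi
            have hev : g1 =ᶠ[nhdsWithin (u i) {u i}ᶜ]
                fun v => dslope (a i) (u i) v + (v - u i) ^ k * b i v := by
              have h1 : closedBall (u i) δ ∈ nhdsWithin (u i) {u i}ᶜ :=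
                mem_nhdsWithin_of_mem_nhds hncb
              filter_upwards [h1, self_mem_nhdsWithin] with v hv1 hv2
              exact hne v hv1 hv2
            have t1 : Filter.Tendsto g1 (nhdsWithin (u i) {u i}ᶜ) (nhds (g1 (u i))) :=
              (hg1d.continuous.tendsto _).mono_left nhdsWithin_le_nhds
            have t2 : Filter.Tendsto (fun v => dslope (a i) (u i) v + (v - u i) ^ k * b i v)
                (nhdsWithin (u i) {u i}ᶜ)
                (nhds (dslope (a i) (u i) (u i) + (u i - u i) ^ k * b i (u i))) := by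
              refine Filter.Tendsto.mono_left ?_ nhdsWithin_le_nhds
              have c1 : ContinuousAt (dslope (a i) (u i)) (u i) := hdc.continuousAt hncb
              have c2 : ContinuousAt (fun v : ℂ => (v - u i) ^ k) (u i) := by fun_prop
              exact (c1.add (c2.mul (hb i)))
            exact tendsto_nhds_unique_of_eventuallyEq t1 t2 hev
          · exact hne v hv hvi
        · have hfr : ∀ z ∈ frontier (ball (u i) δ), ‖dslope (a i) (u i) z‖ ≤ 2 * ε / δ := by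
            intro z hz
            rw [frontier_ball _ hδ.ne', mem_sphere_iff_norm] at hz
            have hne : z ≠ u i := by
              intro h
              rw [h, sub_self, norm_zero] at hz
              exact hδ.ne hz
            rw [dslope_of_ne _ hne, slope_def_field, norm_div, hz]
            have h1 := norm_sub_le (a i z) (a i (u i))
            have h2 := hae i z (by rw [mem_closedBall_iff_norm]; exact hz.le)
            have h3 := hae i (u i) (hmem i)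
            gcongr
            linarith
          intro v hv
          refine Complex.norm_le_of_forall_mem_frontier_norm_le (U := ball (u i) δ)
            isBounded_ball ⟨hdd, ?_⟩ hfr ?_
          · rw [closure_ball _ hδ.ne']
            exact hdc
          · rw [closure_ball _ hδ.ne']
            exact hv
      · have hfar : ∀ v ∈ closedBall (u i) δ, δ ≤ ‖v - u j‖ := by
          intro v hv
          rw [mem_closedBall_iff_norm] at hv
          have h1 := hsep i j hij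
          have h2 : ‖u i - u j‖ ≤ ‖v - u j‖ + ‖v - u i‖ := by
            have : u i - u j = (v - u j) - (v - u i) := by ring
            rw [this]
            exact norm_sub_le _ _
          linarith
        have hnz : ∀ v ∈ closedBall (u i) δ, v - u j ≠ 0 := by
          intro v hv h
          have := hfar v hv
          rw [h, norm_zero] at this
          linarith
        refine ⟨fun v => (a i v - c) / (v - u j), fun v => b i v / (v - u j), ?_, ?_, ?_, ?_, ?_⟩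
        · intro v hv
          have h1 := ha1 i v hv
          have h2 := hnz v (ball_subset_closedBall hv)
          exact (h1.sub_const c).div
            ((differentiableAt_id.sub_const (u j)).differentiableWithinAt) h2
        · intro v hv
          have h1 := ha2 i v hv
          exact (h1.sub continuousWithinAt_const).div
            (continuousWithinAt_id.sub continuousWithinAt_const) (hnz v hv)
        · exact (hb i).div (continuousAt_id.sub continuousAt_const) (hnz _ (hmem i))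
        · intro v hv
          rw [Function.update_of_ne hij]
          have h2 := hnz v hv
          rw [hg1v v (sub_ne_zero.1 h2), hab i v hv]
          field_simp
          ring
        · intro v hv
          have h1 := hfar v hv
          have h2 := norm_sub_le (a i v) c
          have h3 := hae i v hv
          rw [norm_div]
          exact div_le_div₀ (by positivity) (by linarith) hδ h1
    have hsum : ∑ i, Function.update s j k i = m := by
      have h1 := Finset.sum_update_of_mem (Finset.mem_univ j) s k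
      have h2 := Finset.add_sum_erase Finset.univ s (Finset.mem_univ j)
      rw [Finset.sdiff_singleton_eq_erase] at h1
      omega
    have hfin := ih g1 (Function.update s j k) (2 * ε / δ) ((M + ε) / (3 * R)) hg1d hsum
      (by positivity) hloc1 hM1
    have h0 : ‖g 0‖ ≤ ε + R * ‖g1 0‖ := by
      rw [hgv 0]
      refine (norm_add_le _ _).trans ?_
      rw [norm_mul, zero_sub, norm_neg]
      have := hu j
      gcongr
    have h1 : R * ‖g1 0‖ ≤ (1 / 3) ^ (m + 1) * (M + ε)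
        + 2 * (m : ℝ) * (2 * R / δ) ^ (m + 1) * ε := by
      refine (mul_le_mul_of_nonneg_left hfin hR.le).trans (le_of_eq ?_)
      rw [pow_succ, pow_succ]
      field_simp
    have h2 : ε * (1 / 3) ^ (m + 1) ≤ ε := by
      have : ((1 : ℝ) / 3) ^ (m + 1) ≤ 1 := pow_le_one₀ (by norm_num) (by norm_num)
      nlinarith
    have h3 : ε ≤ (2 * R / δ) ^ (m + 1) * ε := by
      have : 1 ≤ (2 * R / δ) ^ (m + 1) := one_le_pow₀ hq
      nlinarith
    push_cast
    nlinarith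

theorem hermite (g : ℂ → ℂ) (hg : Differentiable ℂ g) (n S : ℕ) (u : Fin n → ℂ) (δ R ε M : ℝ)
    (hδ : 0 < δ) (hδR : δ ≤ R) (hu : ∀ i, ‖u i‖ ≤ R)
    (hsep : ∀ i j, i ≠ j → 2 * δ ≤ ‖u i - u j‖) (hε : 0 ≤ ε)
    (hloc : ∀ i, ∃ a b : ℂ → ℂ, Differentiable ℂ a ∧ Differentiable ℂ b ∧
      (∀ v, g v = a v + (v - u i) ^ S * b v) ∧ ∀ v, ‖v - u i‖ ≤ δ → ‖a v‖ ≤ ε)
    (hM : ∀ v, ‖v‖ ≤ 4 * R → ‖g v‖ ≤ M) :
    ‖g 0‖ ≤ (1 / 3) ^ (n * S) * M + 2 * (n * S : ℕ) * (2 * R / δ) ^ (n * S) * ε := by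
  refine Hm_gen n u δ R hδ hδR hu hsep (n * S) g (fun _ => S) ε M hg ?_ hε ?_ hM
  · simp
  · intro i
    obtain ⟨a, b, ha, hb, hab, hae⟩ := hloc i
    refine ⟨a, b, ha.differentiableOn, ha.continuous.continuousOn, hb.continuous.continuousAt,
      fun v _ => hab v, fun v hv => hae v ?_⟩
    rwa [← mem_closedBall_iff_norm]

end U2

end S_H22_U2_Hm

section S_H22_U2_Int

set_option autoImplicit false

namespace U2

open Complex Finset

theorem interp {z : ℂ} (hz : 0 < z.im) : ∃ C : ℕ, 1 ≤ C ∧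
    ∀ (T : ℕ) (F : ℂ → ℂ → ℂ) (J : ℕ → ℕ → ℂ) (A : ℝ), 1 ≤ T → 0 ≤ A → FD z T F J A →
    ∀ R L A1 : ℝ, 0 < R → (∀ x1 x2, bet z x1 x2 = 0 → Nw z T F x1 x2 ≤ Real.exp (-L)) →
      (∀ x1 x2, |bet z x1 x2| = R → Nw z T F x1 x2 ≤ Real.exp A1) →
      ∀ x1 x2, |bet z x1 x2| ≤ R → Nw z T F x1 x2 ≤
        Real.exp (-(L * (1 - |bet z x1 x2| / R)) + (A1 + C * T * R ^ 2) * (|bet z x1 x2| / R)) := by
  obtain ⟨C, hC⟩ := exists_nat_ge (max 1 (Real.pi * z.im))
  have hC1 : (1 : ℝ) ≤ C := (le_max_left _ _).trans hC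
  have hC2 : Real.pi * z.im ≤ C := (le_max_right _ _).trans hC
  refine ⟨C, by exact_mod_cast hC1, ?_⟩
  intro T F J A hT hA hF R L A1 hR hV hR1 x1 x2 hx
  obtain ⟨t, ht⟩ : ∃ t, t = bet z x1 x2 := ⟨_, rfl⟩
  obtain ⟨τ, hτ⟩ : ∃ τ, τ = |bet z x1 x2| := ⟨_, rfl⟩
  rw [← hτ] at hx ⊢
  have hτ0 : 0 ≤ τ := by rw [hτ]; exact abs_nonneg _
  obtain ⟨σ, hσ, hσt⟩ : ∃ σ : ℝ, σ ^ 2 = 1 ∧ t = σ * τ := by
    rcases le_total 0 t with h | h
    · refine ⟨1, by norm_num, ?_⟩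
      rw [hτ, ← ht, abs_of_nonneg h, one_mul]
    · refine ⟨-1, by norm_num, ?_⟩
      rw [hτ, ← ht, abs_of_nonpos h]
      ring
  have hσa : |σ| = 1 := by
    have h1 : |σ| ^ 2 = 1 := by rw [sq_abs, hσ]
    have h2 := abs_nonneg σ
    nlinarith
  have hY : (z.im : ℂ) ≠ 0 := by exact_mod_cast hz.ne'
  obtain ⟨y1, hy1⟩ : ∃ y1 : ℂ, y1 = x1 - z.im * (-(I * (t : ℂ))) := ⟨_, rfl⟩
  have hx1 : x1 = y1 - z.im * (I * (t : ℂ)) := by
    rw [hy1]
    ring
  have hby : bet z y1 x2 = 0 := by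
    rw [hy1, bet_im1 hz, ← ht]
    simp
  have hbw : ∀ w : ℂ, bet z (y1 - z.im * w) x2 = w.im := by
    intro w
    rw [bet_im1 hz, hby, zero_add]
  obtain ⟨α, β, γ, hq⟩ := quad (Real.pi * T / z.im) y1 x2 (-(z.im : ℂ)) 0
  obtain ⟨G, hG⟩ : ∃ G : ℂ → ℂ, G = fun w => F (y1 - z.im * w) x2 *
    exp (-(α * w ^ 2 + β * w + γ)) := ⟨_, rfl⟩
  have hFd : Differentiable ℂ fun w : ℂ => F (y1 - z.im * w) x2 := by
    have h1 := line_diff hF.ser y1 x2 (-(z.im : ℂ)) 0
    have h2 : (fun w : ℂ => F (y1 + w * -(z.im : ℂ)) (x2 + w * 0)) =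
        fun w : ℂ => F (y1 - z.im * w) x2 := by
      funext w
      rw [mul_zero, add_zero]
      congr 1
      ring
    rwa [h2] at h1
  have hGd : Differentiable ℂ G := by
    rw [hG]
    exact hFd.mul (by fun_prop)
  have hGn : ∀ w : ℂ, ‖G w‖ = Nw z T F (y1 - z.im * w) x2 *
      Real.exp (Real.pi * T * z.im * w.im ^ 2) := by
    intro w
    rw [hG]
    show ‖F (y1 - z.im * w) x2 * exp (-(α * w ^ 2 + β * w + γ))‖ = _
    rw [norm_mul, Complex.norm_exp, Nw, mul_assoc, ← Real.exp_add]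
    congr 2
    have e1 := hq w
    have e2 : y1 + w * -(z.im : ℂ) = y1 - z.im * w := by ring
    rw [e2, mul_zero, add_zero, norm_neg, norm_zero, Complex.norm_real, Real.norm_eq_abs,
      sq_abs] at e1
    rw [e1, Complex.neg_re]
    field_simp
    ring
  have hNw0 : ∀ y y', 0 ≤ Nw z T F y y' := by
    intro y y'
    unfold Nw
    positivity
  -- the function on the vertical strip
  have him : ∀ s : ℂ, ((σ : ℂ) * (I * s)).im = σ * s.re := by
    intro s
    simp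
  have hGs : ∀ s : ℂ, ‖G ((σ : ℂ) * (I * s))‖ =
      Nw z T F (y1 - z.im * ((σ : ℂ) * (I * s))) x2 *
        Real.exp (Real.pi * T * z.im * s.re ^ 2) := by
    intro s
    rw [hGn, him, mul_pow, hσ, one_mul]
  have hbet : ∀ s : ℂ, |bet z (y1 - z.im * ((σ : ℂ) * (I * s))) x2| = |s.re| := by
    intro s
    rw [hbw, him, abs_mul, hσa, one_mul]
  have hbd : ∀ s : ℂ, |s.re| ≤ R →
      Real.exp (Real.pi * T * z.im * s.re ^ 2) ≤ Real.exp (C * T * R ^ 2) := by
    intro s hs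
    apply Real.exp_le_exp.2
    have h1 : s.re ^ 2 ≤ R ^ 2 := by
      rw [← sq_abs]
      exact pow_le_pow_left₀ (abs_nonneg _) hs 2
    have hT0 : (0 : ℝ) ≤ T := Nat.cast_nonneg T
    calc Real.pi * T * z.im * s.re ^ 2 = (Real.pi * z.im) * (T * s.re ^ 2) := by ring
      _ ≤ C * (T * s.re ^ 2) := mul_le_mul_of_nonneg_right hC2 (by positivity)
      _ ≤ C * (T * R ^ 2) := mul_le_mul_of_nonneg_left
          (mul_le_mul_of_nonneg_left h1 hT0) (Nat.cast_nonneg C)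
      _ = C * T * R ^ 2 := by ring
  have hfd : Differentiable ℂ (fun s : ℂ => G ((σ : ℂ) * (I * s))) :=
    hGd.comp ((differentiable_id.const_mul I).const_mul (σ : ℂ))
  have h3l := Complex.HadamardThreeLines.norm_le_interp_of_mem_verticalClosedStrip'
    (f := fun s : ℂ => G ((σ : ℂ) * (I * s))) (z := (τ : ℂ)) (a := Real.exp (-L))
    (b := Real.exp (A1 + C * T * R ^ 2)) (l := 0) (u := R) hR
    (by
      show (τ : ℂ).re ∈ Set.Icc 0 R
      rw [Complex.ofReal_re]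
      exact ⟨hτ0, hx⟩)
    hfd.diffContOnCl
    (by
      refine ⟨Real.exp (A * (1 + Real.log (1 + R))) * Real.exp (C * T * R ^ 2), ?_⟩
      rintro _ ⟨s, hs, rfl⟩
      have hs' : s.re ∈ Set.Icc 0 R := hs
      have habs : |s.re| = s.re := abs_of_nonneg hs'.1
      show ‖G ((σ : ℂ) * (I * s))‖ ≤ _
      rw [hGs]
      refine mul_le_mul ?_ (hbd s (by rw [habs]; exact hs'.2)) (Real.exp_pos _).le (Real.exp_pos _).le
      refine (hF.gr _ _).trans (Real.exp_le_exp.2 ?_)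
      rw [hbet, habs]
      refine mul_le_mul_of_nonneg_left ?_ hA
      have h1 : Real.log (1 + s.re) ≤ Real.log (1 + R) :=
        Real.log_le_log (by linarith [hs'.1]) (by linarith [hs'.2])
      linarith)
    (by
      intro s hs
      have hs' : s.re = 0 := hs
      show ‖G ((σ : ℂ) * (I * s))‖ ≤ _
      rw [hGs, hs']
      have h1 : bet z (y1 - z.im * ((σ : ℂ) * (I * s))) x2 = 0 := by
        rw [← abs_eq_zero, hbet, hs', abs_zero]
      have h2 := hV _ _ h1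
      simpa using h2)
    (by
      intro s hs
      have hs' : s.re = R := hs
      have habs : |s.re| = R := by rw [hs', abs_of_pos hR]
      show ‖G ((σ : ℂ) * (I * s))‖ ≤ _
      rw [hGs, Real.exp_add]
      refine mul_le_mul ?_ (hbd s habs.le) (Real.exp_pos _).le (Real.exp_pos _).le
      refine hR1 _ _ ?_
      rw [hbet, habs])
  have hIt : (σ : ℂ) * (I * (τ : ℂ)) = I * (t : ℂ) := by
    rw [hσt]
    push_cast
    ring
  have h5 : Nw z T F x1 x2 ≤ ‖G ((σ : ℂ) * (I * (τ : ℂ)))‖ := by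
    rw [hGs, hIt, ← hx1, Complex.ofReal_re]
    have h6 : 1 ≤ Real.exp (Real.pi * T * z.im * τ ^ 2) := Real.one_le_exp (by positivity)
    exact le_mul_of_one_le_right (hNw0 x1 x2) h6
  refine h5.trans (h3l.trans (le_of_eq ?_))
  rw [Complex.ofReal_re, sub_zero, sub_zero, ← Real.exp_mul, ← Real.exp_mul, ← Real.exp_add]
  congr 1
  ring

end U2

end S_H22_U2_Int

section S_H22_U2_Lin

set_option autoImplicit false

namespace U2

open Complex Finset

theorem line_fun {z : ℂ} (hz : 0 < z.im) : ∃ C : ℕ, 1 ≤ C ∧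
    ∀ (T : ℕ) (F : ℂ → ℂ → ℂ) (J : ℕ → ℕ → ℂ) (A : ℝ), 1 ≤ T → FD z T F J A →
    ∀ x1 x2 : ℂ, bet z x1 x2 = 0 → ∃ g : ℂ → ℂ, Differentiable ℂ g ∧ ‖g 0‖ = Nw z T F x1 x2 ∧
      (∀ M0 : ℝ, (∀ y1 y2, bet z y1 y2 = 0 → Nw z T F y1 y2 ≤ M0) →
        ∀ v, ‖g v‖ ≤ M0 * Real.exp (C * T * ‖v‖ ^ 2)) ∧
      ∀ (S1 S2 N : ℕ) (η Ms : ℝ) (m : ℤ × ℤ × ℤ), 1 ≤ N → 0 ≤ η →
        (∀ a e, e < S1 → a + e < S1 + S2 → ‖J a e‖ ≤ η) →
        (∀ y1 y2, |bet z y1 y2| ≤ C / N → Nw z T F y1 y2 ≤ Ms) →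
        |ss z x1 x2 m| ≤ 2 / (N : ℝ) →
        ∃ a b : ℂ → ℂ, Differentiable ℂ a ∧ Differentiable ℂ b ∧
          (∀ v, g v = a v + (v - uu z x2 m) ^ S1 * b v) ∧
          ∀ v, ‖v - uu z x2 m‖ ≤ 1 / (C * N) →
            ‖a v‖ ≤ Real.exp (C * T * (‖uu z x2 m‖ + 1) ^ 2) *
              (Real.exp (C * T) * Ms / 8 ^ S2 + (C : ℝ) ^ (S1 + S2) * η) := by
  obtain ⟨C0, hC0, hdec⟩ := loc_dec hz
  set μ := mu z with hμ
  have hμ0 : μ ≠ 0 := mu_ne hz
  set c1 : ℝ := Real.pi * (1 + ‖μ‖ ^ 2) / z.im with hc1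
  set C : ℕ := C0 + ⌈c1⌉₊ with hC
  have hCC0 : (C0 : ℝ) ≤ C := by
    rw [hC]
    push_cast
    have : (0 : ℝ) ≤ (⌈c1⌉₊ : ℝ) := Nat.cast_nonneg _
    linarith
  have hC1 : c1 ≤ C := by
    rw [hC]
    push_cast
    have h1 := Nat.le_ceil c1
    have h2 : (0 : ℝ) ≤ (C0 : ℝ) := Nat.cast_nonneg _
    linarith
  have hC0pos : (1 : ℝ) ≤ C0 := by exact_mod_cast hC0
  refine ⟨C, by omega, ?_⟩
  intro T F J A hT hF x1 x2 hb
  set P : ℝ := Real.pi * T / z.im with hP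
  have hP0 : 0 ≤ P := by positivity
  have hPc : P * (1 + ‖μ‖ ^ 2) ≤ C * T := by
    have : P * (1 + ‖μ‖ ^ 2) = c1 * T := by
      rw [hP, hc1]
      field_simp
    rw [this]
    exact mul_le_mul_of_nonneg_right hC1 (Nat.cast_nonneg _)
  obtain ⟨α, β, γ, hq⟩ := quad P x1 x2 1 μ
  rw [norm_one, one_pow] at hq
  set Q : ℂ → ℂ := fun v => α * v ^ 2 + β * v + γ with hQ
  have hQd : Differentiable ℂ Q := by
    rw [hQ]
    fun_prop
  have hexpd : Differentiable ℂ fun v => exp (-Q v) := hQd.neg.cexp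
  have himle : ∀ v : ℂ, v.im ^ 2 ≤ ‖v‖ ^ 2 := by
    intro v
    have := abs_im_le_norm v
    rw [← sq_abs v.im]
    gcongr
  set g : ℂ → ℂ := fun v => F (x1 + v * 1) (x2 + v * μ) * exp (-Q v) with hg
  have hNwnn : ∀ y1 y2, 0 ≤ Nw z T F y1 y2 := by
    intro y1 y2
    unfold Nw
    positivity
  have hgn : ∀ v, ‖g v‖ = Nw z T F (x1 + v * 1) (x2 + v * μ) *
      Real.exp (P * (1 + ‖μ‖ ^ 2) * v.im ^ 2) := by
    intro v
    have h1 := hq v
    rw [hg]
    simp only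
    unfold Nw
    rw [norm_mul, norm_exp, mul_assoc, ← Real.exp_add]
    congr 2
    rw [neg_re]
    linarith
  refine ⟨g, ?_, ?_, ?_, ?_⟩
  · exact (line_diff hF.ser x1 x2 1 μ).mul hexpd
  · rw [hgn 0]
    simp
  · intro M0 hM0 v
    rw [hgn v]
    have h1 : Nw z T F (x1 + v * 1) (x2 + v * μ) ≤ M0 := by
      refine hM0 _ _ ?_
      rw [mul_one, mul_comm v μ, bet_line hz, hb]
    have h2 : 0 ≤ M0 := (hNwnn _ _).trans h1
    refine mul_le_mul h1 (Real.exp_le_exp.2 ?_) (Real.exp_pos _).le h2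
    exact mul_le_mul hPc (himle v) (sq_nonneg _) (by positivity)
  · intro S1 S2 N η Ms m hN hη hJ hMs hs
    have hNr : (1 : ℝ) ≤ N := by exact_mod_cast hN
    have hMs0 : 0 ≤ Ms := by
      refine (hNwnn 0 0).trans (hMs 0 0 ?_)
      have : bet z 0 0 = 0 := by
        unfold bet
        simp
      rw [this, abs_zero]
      positivity
    have hMs' : ∀ y1 y2, |bet z y1 y2| ≤ C0 / N → Nw z T F y1 y2 ≤ Ms := by
      intro y1 y2 h
      refine hMs y1 y2 (h.trans ?_)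
      gcongr
    set s := ss z x1 x2 m with hsdef
    obtain ⟨a0, b0, ha0, hb0, hab, hbd⟩ := hdec T F J A hT hF S1 S2 N η Ms s hN hη hJ hMs' hs
    set u := uu z x2 m with hu
    have hγ2 : x2 + μ * u = (m.2.1 : ℂ) + m.2.2 * z := by
      rw [hu]
      unfold uu
      rw [← hμ]
      field_simp
      ring
    have hγ1 : x1 + u + (s : ℂ) = (m.1 : ℂ) + m.2.1 * z := by
      have := ss_eq hz x1 x2 hb m
      rw [← hu, ← hsdef] at this
      linear_combination -this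
    set E : ℂ → ℂ := fun v => ef z T m.2.1 m.2.2 ((v - u) - s) (μ * (v - u)) * exp (-Q v) with hE
    have hEd : Differentiable ℂ E := by
      refine Differentiable.mul ?_ hexpd
      unfold ef
      fun_prop
    have hgE : ∀ v, g v = E v * F ((v - u) - s) (μ * (v - u)) := by
      intro v
      have h1 := hF.inv m.1 m.2.1 m.2.2 ((v - u) - s) (μ * (v - u))
      have h2 : (v - u) - s + ((m.1 : ℂ) + m.2.1 * z) = x1 + v * 1 := by
        rw [← hγ1]
        ring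
      have h3 : μ * (v - u) + ((m.2.1 : ℂ) + m.2.2 * z) = x2 + v * μ := by
        rw [← hγ2]
        ring
      rw [h2, h3] at h1
      rw [hg, hE]
      simp only
      rw [h1]
      ring
    have hEn : ∀ v, ‖E v‖ ≤ Real.exp (C * T * ‖v‖ ^ 2) := by
      intro v
      rw [hE]
      simp only
      rw [norm_mul, norm_exp, norm_ef hz, ← Real.exp_add]
      refine Real.exp_le_exp.2 ?_
      have h2 : ((v - u) - s).im + (m.2.1 : ℝ) * z.im = (x1 + v * 1).im := by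
        have h : (v - u) - s + ((m.1 : ℂ) + m.2.1 * z) = x1 + v * 1 := by
          rw [← hγ1]
          ring
        rw [← h]
        simp
      have h3 : (μ * (v - u)).im + (m.2.2 : ℝ) * z.im = (x2 + v * μ).im := by
        have h : μ * (v - u) + ((m.2.1 : ℂ) + m.2.2 * z) = x2 + v * μ := by
          rw [← hγ2]
          ring
        rw [← h]
        simp
      rw [h2, h3, neg_re, ← hP]
      have h1 := hq v
      have h4 : 0 ≤ P * (((v - u) - s).im ^ 2 + (μ * (v - u)).im ^ 2) := by positivity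
      have h5 : P * (1 + ‖μ‖ ^ 2) * v.im ^ 2 ≤ C * T * ‖v‖ ^ 2 :=
        mul_le_mul hPc (himle v) (sq_nonneg _) (by positivity)
      have h6 : (Q v).re = (α * v ^ 2 + β * v + γ).re := rfl
      linarith
    refine ⟨fun v => E v * a0 (v - u), fun v => E v * b0 (v - u), ?_, ?_, ?_, ?_⟩
    · exact hEd.mul (ha0.comp (differentiable_id.sub_const u))
    · exact hEd.mul (hb0.comp (differentiable_id.sub_const u))
    · intro v
      simp only
      rw [hgE v, hab (v - u)]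
      ring
    · intro v hv
      simp only
      rw [norm_mul]
      have h1 : ‖v - u‖ ≤ 1 / (C0 * N) := by
        refine hv.trans ?_
        gcongr
      have h2 : ‖v - u‖ ≤ 1 := by
        refine h1.trans ?_
        rw [div_le_one (by positivity)]
        nlinarith
      have h3 : ‖v‖ ≤ ‖u‖ + 1 := by
        have : v = (v - u) + u := by ring
        rw [this]
        refine (norm_add_le _ _).trans ?_
        linarith
      have h4 := hbd (v - u) h1
      have hM1 : 0 ≤ Real.exp (C0 * T) * Ms / 8 ^ S2 := by positivity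
      have h5 : Real.exp (C0 * T) * Ms / 8 ^ S2 + (C0 : ℝ) ^ (S1 + S2) * η ≤
          Real.exp (C * T) * Ms / 8 ^ S2 + (C : ℝ) ^ (S1 + S2) * η := by
        gcongr
      refine mul_le_mul ((hEn v).trans (Real.exp_le_exp.2 ?_)) (h4.trans h5) (norm_nonneg _)
        (Real.exp_pos _).le
      gcongr

end U2

end S_H22_U2_Lin

section S_H22_U2_Sc1

set_option autoImplicit false

namespace U2

private theorem sc1_nonneg (z : ℂ) (T : ℕ) (F : ℂ → ℂ → ℂ) (x1 x2 : ℂ) : 0 ≤ Nw z T F x1 x2 := by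
  unfold Nw
  positivity

private theorem sc1_third {W : ℕ} {y : ℝ} (h : y + 1 ≤ W) :
    (1 / 3 : ℝ) ^ W * Real.exp y ≤ 1 / 2 := by
  have he : Real.exp 1 < 3 := lt_trans Real.exp_one_lt_d9 (by norm_num)
  have h0 : 0 < Real.exp 1 := Real.exp_pos 1
  have h1 : (1 / 3 : ℝ) ≤ Real.exp (-1) := by
    rw [Real.exp_neg, ← one_div]
    exact one_div_le_one_div_of_le h0 he.le
  have h2 : (1 / 3 : ℝ) ^ W ≤ Real.exp (-(W : ℝ)) := by
    refine (pow_le_pow_left₀ (by norm_num) h1 W).trans (le_of_eq ?_)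
    rw [← Real.exp_nat_mul]
    congr 1
    ring
  have h3 : (2 : ℝ) ≤ Real.exp 1 := by
    have := Real.add_one_le_exp (1 : ℝ)
    linarith
  have h4 : Real.exp (-1) ≤ 1 / 2 := by
    rw [Real.exp_neg, ← one_div]
    exact one_div_le_one_div_of_le (by norm_num) h3
  calc (1 / 3 : ℝ) ^ W * Real.exp y ≤ Real.exp (-(W : ℝ)) * Real.exp y :=
        mul_le_mul_of_nonneg_right h2 (Real.exp_pos _).le
    _ = Real.exp (-(W : ℝ) + y) := (Real.exp_add _ _).symm
    _ ≤ Real.exp (-1) := Real.exp_le_exp.2 (by linarith)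
    _ ≤ 1 / 2 := h4

private theorem sc1_eight (S2 : ℕ) : Real.exp S2 / 8 ^ S2 ≤ Real.exp (-S2) := by
  have he : Real.exp 1 < 2.7182818286 := Real.exp_one_lt_d9
  have h0 : 0 < Real.exp 1 := Real.exp_pos 1
  have h1 : Real.exp 2 ≤ 8 := by
    have h2 : Real.exp 2 = Real.exp 1 * Real.exp 1 := by
      rw [← Real.exp_add]
      norm_num
    rw [h2]
    nlinarith
  have h3 : Real.exp (2 * S2) ≤ (8 : ℝ) ^ S2 := by
    have h4 : Real.exp (2 * S2) = Real.exp 2 ^ S2 := by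
      rw [← Real.exp_nat_mul]
      congr 1
      ring
    rw [h4]
    exact pow_le_pow_left₀ (Real.exp_pos _).le h1 S2
  rw [div_le_iff₀ (by positivity)]
  calc Real.exp S2 = Real.exp (-S2) * Real.exp (2 * S2) := by
        rw [← Real.exp_add]
        congr 1
        ring
    _ ≤ Real.exp (-S2) * 8 ^ S2 := mul_le_mul_of_nonneg_left h3 (Real.exp_pos _).le

/-- The size of the error factor. -/
private theorem sc1_size {Cg Cl C C3 T N M W : ℕ} {Λ q : ℝ} (hN : 1 ≤ N) (hM : 1 ≤ M) (hT : 1 ≤ T)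
    (hΛ : Λ = Real.log (M * N + 2)) (hW : W ≤ C * T * M ^ 2) (hq0 : 0 ≤ q) (hq : q ≤ C3 * M * N) :
    4 * (W : ℝ) * q ^ W * Real.exp (Cl * T * ((Cg + 1) * M) ^ 2) * Real.exp (Cl * T) ≤
      Real.exp ((4 * C + C * (C3 + 1) + Cl * (Cg + 1) ^ 2 + Cl) * (T * M ^ 2 * Λ)) := by
  have hN' : (1 : ℝ) ≤ N := by exact_mod_cast hN
  have hM' : (1 : ℝ) ≤ M := by exact_mod_cast hM
  have hT' : (1 : ℝ) ≤ T := by exact_mod_cast hT
  have hMN : (1 : ℝ) ≤ M * N := by nlinarith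
  have hexpΛ : Real.exp Λ = M * N + 2 := by
    rw [hΛ, Real.exp_log (by linarith)]
  have hΛ1 : 1 ≤ Λ := by
    rw [hΛ, Real.le_log_iff_exp_le (by linarith)]
    have he : Real.exp 1 < 3 := lt_trans Real.exp_one_lt_d9 (by norm_num)
    linarith
  have hW' : (W : ℝ) ≤ C * T * M ^ 2 := by exact_mod_cast hW
  have hTM : (1 : ℝ) ≤ T * M ^ 2 := by nlinarith
  have hTM0 : (0 : ℝ) ≤ T * M ^ 2 := by linarith
  have hX : (T : ℝ) * M ^ 2 ≤ T * M ^ 2 * Λ := le_mul_of_one_le_right hTM0 hΛ1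
  have hX0 : (0 : ℝ) ≤ T * M ^ 2 * Λ := hTM0.trans hX
  have hTX : (T : ℝ) ≤ T * M ^ 2 * Λ := by
    have h1 : (T : ℝ) ≤ T * M ^ 2 := le_mul_of_one_le_right (by linarith) (one_le_pow₀ hM')
    linarith
  have h1 : 4 * (W : ℝ) ≤ Real.exp (4 * C * (T * M ^ 2 * Λ)) := by
    have h2 := Real.add_one_le_exp (4 * C * (T * M ^ 2 * Λ) : ℝ)
    have h3 : (C : ℝ) * (T * M ^ 2) ≤ C * (T * M ^ 2 * Λ) :=
      mul_le_mul_of_nonneg_left hX (Nat.cast_nonneg _)
    nlinarith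
  have h2 : q ≤ Real.exp ((C3 + 1) * Λ) := by
    have h3 : (C3 : ℝ) ≤ Real.exp (C3 * Λ) := by
      have h4 := Real.add_one_le_exp (C3 * Λ : ℝ)
      have h5 : (C3 : ℝ) ≤ C3 * Λ := le_mul_of_one_le_right (Nat.cast_nonneg _) hΛ1
      linarith
    have h6 : (M : ℝ) * N ≤ Real.exp Λ := by
      rw [hexpΛ]
      linarith
    calc q ≤ C3 * M * N := hq
      _ = C3 * (M * N) := by ring
      _ ≤ Real.exp (C3 * Λ) * Real.exp Λ :=
          mul_le_mul h3 h6 (by linarith) (Real.exp_pos _).le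
      _ = Real.exp ((C3 + 1) * Λ) := by
          rw [← Real.exp_add]
          congr 1
          ring
  have h3 : q ^ W ≤ Real.exp (C * (C3 + 1) * (T * M ^ 2 * Λ)) := by
    calc q ^ W ≤ Real.exp ((C3 + 1) * Λ) ^ W := pow_le_pow_left₀ hq0 h2 W
      _ = Real.exp (W * ((C3 + 1) * Λ)) := (Real.exp_nat_mul _ _).symm
      _ ≤ Real.exp (C * (C3 + 1) * (T * M ^ 2 * Λ)) := by
          apply Real.exp_le_exp.2
          have h4 : (0 : ℝ) ≤ (C3 + 1) * Λ := by positivity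
          calc (W : ℝ) * ((C3 + 1) * Λ) ≤ (C * T * M ^ 2) * ((C3 + 1) * Λ) :=
                mul_le_mul_of_nonneg_right hW' h4
            _ = C * (C3 + 1) * (T * M ^ 2 * Λ) := by ring
  have h4 : Real.exp (Cl * T * ((Cg + 1) * M) ^ 2) ≤
      Real.exp (Cl * (Cg + 1) ^ 2 * (T * M ^ 2 * Λ)) := by
    apply Real.exp_le_exp.2
    calc (Cl : ℝ) * T * ((Cg + 1) * M) ^ 2 = Cl * (Cg + 1) ^ 2 * (T * M ^ 2) := by ring
      _ ≤ _ := mul_le_mul_of_nonneg_left hX (by positivity)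
  have h5 : Real.exp (Cl * T : ℝ) ≤ Real.exp (Cl * (T * M ^ 2 * Λ)) :=
    Real.exp_le_exp.2 (mul_le_mul_of_nonneg_left hTX (Nat.cast_nonneg _))
  have h6 : Real.exp ((4 * C + C * (C3 + 1) + Cl * (Cg + 1) ^ 2 + Cl) * (T * M ^ 2 * Λ)) =
      Real.exp (4 * C * (T * M ^ 2 * Λ)) * Real.exp (C * (C3 + 1) * (T * M ^ 2 * Λ)) *
      Real.exp (Cl * (Cg + 1) ^ 2 * (T * M ^ 2 * Λ)) * Real.exp (Cl * (T * M ^ 2 * Λ)) := by
    rw [← Real.exp_add, ← Real.exp_add, ← Real.exp_add]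
    congr 1
    ring
  rw [h6]
  gcongr

theorem sc1 {z : ℂ} (hz : 0 < z.im) : ∃ C C2 : ℕ, 1 ≤ C ∧ C ≤ C2 ∧
    ∀ (T N K M S2 : ℕ) (F : ℂ → ℂ → ℂ) (J : ℕ → ℕ → ℂ) (A : ℝ), 1 ≤ T → 1 ≤ N → 1 ≤ S2 →
    0 ≤ A → FD z T F J A → COV z N K → K + 1 ≤ M → N ≤ M →
    C2 * T * (M : ℝ) ^ 2 * Real.log (M * N + 2) ≤ S2 → ∀ η Ms : ℝ, 0 ≤ η →
    (∀ a e, e < C * T * N → a + e < C * T * N + S2 → ‖J a e‖ ≤ η) →
    (∀ y1 y2, |bet z y1 y2| ≤ C2 / N → Nw z T F y1 y2 ≤ Ms) →
    ∀ x1 x2, bet z x1 x2 = 0 →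
      Nw z T F x1 x2 ≤ Real.exp (-S2) * Ms + Real.exp (C2 * S2) * η := by
  obtain ⟨Cg, hCg, hgeo⟩ := geo hz
  obtain ⟨Cl, hCl, hline⟩ := line_fun hz
  obtain ⟨C, hC⟩ : ∃ C : ℕ, C = 2 * (16 * Cl * (Cg + 1) ^ 2 + 1) := ⟨_, rfl⟩
  obtain ⟨C3, hC3⟩ : ∃ C3 : ℕ, C3 = 4 * (Cg + 1) * (Cg + Cl) := ⟨_, rfl⟩
  obtain ⟨C2, hC2⟩ : ∃ C2 : ℕ, C2 = 4 * C + C * (C3 + 1) + Cl * (Cg + 1) ^ 2 + Cl + (2 * Cl + 1) :=
    ⟨_, rfl⟩
  refine ⟨C, C2, by omega, by omega, ?_⟩
  intro T N K M S2 F J A hT hN hS2 hA hF hCOV hKM hNM hS η Ms hη hJ hMs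
  have hM1 : 1 ≤ M := by omega
  have hN' : (1 : ℝ) ≤ N := by exact_mod_cast hN
  have hM' : (1 : ℝ) ≤ M := by exact_mod_cast hM1
  have hT' : (1 : ℝ) ≤ T := by exact_mod_cast hT
  have hCg' : (1 : ℝ) ≤ Cg := by exact_mod_cast hCg
  have hCl' : (1 : ℝ) ≤ Cl := by exact_mod_cast hCl
  have hCr : (C : ℝ) = 2 * (16 * Cl * (Cg + 1) ^ 2 + 1) := by
    rw [hC]
    push_cast
    ring
  have hC3r : (C3 : ℝ) = 4 * (Cg + 1) * (Cg + Cl) := by
    rw [hC3]
    push_cast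
    ring
  have hC2r : (C2 : ℝ) = 4 * C + C * (C3 + 1) + Cl * (Cg + 1) ^ 2 + Cl + (2 * Cl + 1) := by
    rw [hC2]
    push_cast
    ring
  have hClC2 : (Cl : ℝ) ≤ C2 := by
    have : Cl ≤ C2 := by omega
    exact_mod_cast this
  -- the number of zeros
  obtain ⟨W, hWdef⟩ : ∃ W : ℕ, W = M ^ 2 / N * (C * T * N) := ⟨_, rfl⟩
  have hnN : M ^ 2 / N * N ≤ M ^ 2 := Nat.div_mul_le_self _ _
  have hn2 : M ^ 2 ≤ 2 * (M ^ 2 / N * N) := by
    have h1 := Nat.div_add_mod (M ^ 2) N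
    have h2 := Nat.mod_lt (M ^ 2) hN
    have h3 : N ≤ M ^ 2 := hNM.trans (by rw [sq]; exact Nat.le_mul_of_pos_left _ hM1)
    have h4 : 1 ≤ M ^ 2 / N := Nat.div_pos h3 hN
    have h5 : N * 1 ≤ N * (M ^ 2 / N) := Nat.mul_le_mul_left _ h4
    rw [Nat.mul_comm (M ^ 2 / N) N]
    omega
  have hWup : W ≤ C * T * M ^ 2 := by
    rw [hWdef]
    calc M ^ 2 / N * (C * T * N) = C * T * (M ^ 2 / N * N) := by ring
      _ ≤ C * T * M ^ 2 := Nat.mul_le_mul_left _ hnN
  have hWlow : (C : ℝ) * T * M ^ 2 / 2 ≤ W := by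
    have h1 : C * T * M ^ 2 ≤ 2 * W := by
      rw [hWdef]
      calc C * T * M ^ 2 ≤ C * T * (2 * (M ^ 2 / N * N)) := Nat.mul_le_mul_left _ hn2
        _ = 2 * (M ^ 2 / N * (C * T * N)) := by ring
    have h2 : (C : ℝ) * T * M ^ 2 ≤ 2 * W := by exact_mod_cast h1
    linarith
  have hTM : (1 : ℝ) ≤ T * M ^ 2 := by nlinarith
  obtain ⟨Λ, hΛ⟩ : ∃ Λ : ℝ, Λ = Real.log (M * N + 2) := ⟨_, rfl⟩
  rw [← hΛ] at hS
  -- the radii
  obtain ⟨R, hR⟩ : ∃ R : ℝ, R = (Cg + 1) * M := ⟨_, rfl⟩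
  obtain ⟨δ, hδ⟩ : ∃ δ : ℝ, δ = 1 / (2 * (Cg + Cl) * N) := ⟨_, rfl⟩
  have hD : (1 : ℝ) ≤ 2 * (Cg + Cl) * N := by nlinarith
  have hδ0 : 0 < δ := by
    rw [hδ]
    positivity
  have hδ1 : δ ≤ 1 := by
    rw [hδ, div_le_one (by linarith)]
    exact hD
  have hR1 : 1 ≤ R := by
    rw [hR]
    nlinarith
  have hq : 2 * R / δ = C3 * M * N := by
    rw [hδ, hR, hC3r]
    field_simp
    ring
  have hMs0 : 0 ≤ Ms := by
    refine (sc1_nonneg z T F 0 0).trans (hMs 0 0 ?_)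
    have : bet z 0 0 = 0 := by simp [bet]
    rw [this, abs_zero]
    positivity
  obtain ⟨ε, hε⟩ : ∃ ε : ℝ, ε = Real.exp (Cl * T * R ^ 2) *
      (Real.exp (Cl * T) * Ms / 8 ^ S2 + (Cl : ℝ) ^ (C * T * N + S2) * η) := ⟨_, rfl⟩
  have hε0 : 0 ≤ ε := by
    rw [hε]
    positivity
  obtain ⟨E, hE⟩ : ∃ E : ℝ, E = 2 * (W : ℝ) * (2 * R / δ) ^ W * ε := ⟨_, rfl⟩
  have hE0 : 0 ≤ E := by
    rw [hE]
    positivity
  -- the main step
  have hstep : ∀ M0 : ℝ, 0 ≤ M0 → (∀ y1 y2, bet z y1 y2 = 0 → Nw z T F y1 y2 ≤ M0) →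
      ∀ x1 x2, bet z x1 x2 = 0 → Nw z T F x1 x2 ≤ M0 / 2 + E := by
    intro M0 hM0 hb x1 x2 hx
    obtain ⟨g, hg, hg0, hgM, hgl⟩ := hline T F J A hT hF x1 x2 hx
    obtain ⟨f, hf1, hf2⟩ := hgeo N K M hN hCOV hKM x1 x2 hx
    have h1 : ‖g 0‖ ≤ (1 / 3) ^ (M ^ 2 / N * (C * T * N)) *
        (M0 * Real.exp (16 * (Cl * T) * R ^ 2)) +
        2 * ((M ^ 2 / N * (C * T * N) : ℕ) : ℝ) * (2 * R / δ) ^ (M ^ 2 / N * (C * T * N)) * ε := by
      refine hermite g hg (M ^ 2 / N) (C * T * N) (fun i => uu z x2 (f i)) δ R ε _ hδ0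
        (by linarith) ?_ ?_ hε0 ?_ ?_
      · intro i
        refine (hf1 i).1.trans ?_
        rw [hR]
        nlinarith
      · intro i j hij
        refine le_trans ?_ (hf2 i j hij)
        rw [hδ]
        have h2 : 2 * (1 / (2 * ((Cg : ℝ) + Cl) * N)) = 1 / ((Cg + Cl) * N) := by
          field_simp
        rw [h2]
        apply one_div_le_one_div_of_le (by linarith)
        nlinarith
      · intro i
        obtain ⟨a, b, ha, hb', hab, hae⟩ := hgl (C * T * N) S2 N η Ms (f i) hN hη hJ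
          (fun y1 y2 h2 => hMs y1 y2 (h2.trans (by gcongr))) (hf1 i).2
        refine ⟨a, b, ha, hb', hab, fun v hv => (hae v (hv.trans ?_)).trans ?_⟩
        · rw [hδ]
          apply one_div_le_one_div_of_le (by positivity)
          nlinarith
        · rw [hε]
          have h3 : ‖uu z x2 (f i)‖ + 1 ≤ R := by
            have := (hf1 i).1
            rw [hR]
            nlinarith
          have h4 : (0 : ℝ) ≤ ‖uu z x2 (f i)‖ + 1 := by positivity
          gcongr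
      · intro v hv
        refine (hgM M0 hb v).trans (mul_le_mul_of_nonneg_left (Real.exp_le_exp.2 ?_) hM0)
        have h2 : ‖v‖ ^ 2 ≤ (4 * R) ^ 2 := pow_le_pow_left₀ (norm_nonneg _) hv 2
        have h3 : (0 : ℝ) ≤ Cl * T := by positivity
        calc (Cl : ℝ) * T * ‖v‖ ^ 2 ≤ Cl * T * (4 * R) ^ 2 := mul_le_mul_of_nonneg_left h2 h3
          _ = 16 * (Cl * T) * R ^ 2 := by ring
    rw [hg0, ← hWdef, ← hE] at h1
    have h2 : (1 / 3 : ℝ) ^ W * Real.exp (16 * (Cl * T) * R ^ 2) ≤ 1 / 2 := by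
      apply sc1_third
      refine le_trans ?_ hWlow
      rw [hCr, hR]
      nlinarith
    have h3 : (1 / 3 : ℝ) ^ W * (M0 * Real.exp (16 * (Cl * T) * R ^ 2)) ≤ M0 / 2 := by
      calc (1 / 3 : ℝ) ^ W * (M0 * Real.exp (16 * (Cl * T) * R ^ 2)) =
            M0 * ((1 / 3 : ℝ) ^ W * Real.exp (16 * (Cl * T) * R ^ 2)) := by ring
        _ ≤ M0 * (1 / 2) := mul_le_mul_of_nonneg_left h2 hM0
        _ = M0 / 2 := by ring
    linarith
  -- iteration
  have hiter : ∀ k : ℕ, ∀ x1 x2, bet z x1 x2 = 0 →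
      Nw z T F x1 x2 ≤ Real.exp A * (1 / 2) ^ k + 2 * E := by
    intro k
    induction k with
    | zero =>
      intro x1 x2 hx
      have h1 := hF.gr x1 x2
      rw [hx, abs_zero, add_zero, Real.log_one, add_zero, mul_one] at h1
      rw [pow_zero, mul_one]
      linarith
    | succ k ih =>
      intro x1 x2 hx
      have h1 := hstep _ (by positivity) ih x1 x2 hx
      rw [pow_succ]
      linarith
  intro x1 x2 hx
  have hlim : Nw z T F x1 x2 ≤ 2 * E := by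
    have h1 : Filter.Tendsto (fun k : ℕ => Real.exp A * (1 / 2 : ℝ) ^ k + 2 * E) Filter.atTop
        (nhds (Real.exp A * 0 + 2 * E)) :=
      ((tendsto_pow_atTop_nhds_zero_of_lt_one (by norm_num) (by norm_num)).const_mul _).add_const _
    rw [mul_zero, zero_add] at h1
    exact ge_of_tendsto' h1 (fun k => hiter k x1 x2 hx)
  refine hlim.trans ?_
  -- the size of the error
  have hsize := sc1_size (Cg := Cg) (Cl := Cl) (C := C) (C3 := C3) (Λ := Λ) (q := 2 * R / δ)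
    hN hM1 hT hΛ hWup (by positivity) hq.le
  have hΛ1 : 1 ≤ Λ := by
    rw [hΛ, Real.le_log_iff_exp_le (by nlinarith)]
    have he : Real.exp 1 < 3 := lt_trans Real.exp_one_lt_d9 (by norm_num)
    nlinarith
  have hX0 : (0 : ℝ) ≤ T * M ^ 2 * Λ := by positivity
  have hS' : (C2 : ℝ) * (T * M ^ 2 * Λ) ≤ (S2 : ℝ) := by
    calc (C2 : ℝ) * (T * M ^ 2 * Λ) = C2 * T * (M : ℝ) ^ 2 * Λ := by ring
      _ ≤ (S2 : ℝ) := hS
  have hsize2 : 4 * (W : ℝ) * (2 * R / δ) ^ W * Real.exp (Cl * T * R ^ 2) * Real.exp (Cl * T) ≤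
      Real.exp S2 := by
    rw [hR] at hsize ⊢
    refine hsize.trans (Real.exp_le_exp.2 (le_trans ?_ hS'))
    apply mul_le_mul_of_nonneg_right _ hX0
    rw [hC2r]
    linarith
  have hsize3 : 4 * (W : ℝ) * (2 * R / δ) ^ W * Real.exp (Cl * T * R ^ 2) ≤ Real.exp S2 := by
    refine le_trans ?_ hsize2
    apply le_mul_of_one_le_right (by positivity)
    exact Real.one_le_exp (by positivity)
  have hS1 : C * T * N ≤ S2 := by
    have h1 : (C : ℝ) * T * N ≤ S2 := by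
      refine le_trans ?_ hS'
      have h2 : (N : ℝ) ≤ M := by exact_mod_cast hNM
      have h3 : (N : ℝ) ≤ M ^ 2 * Λ := by
        have h5 : (M : ℝ) * 1 ≤ M * M := mul_le_mul_of_nonneg_left hM' (by linarith)
        have h6 : (M : ℝ) ^ 2 ≤ M ^ 2 * Λ := le_mul_of_one_le_right (by positivity) hΛ1
        rw [mul_one, ← sq] at h5
        linarith
      have h4 : (C : ℝ) ≤ C2 := by
        have : C ≤ C2 := by omega
        exact_mod_cast this
      calc (C : ℝ) * T * N = C * (T * N) := by ring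
        _ ≤ C2 * (T * (M ^ 2 * Λ)) :=
            mul_le_mul h4 (mul_le_mul_of_nonneg_left h3 (by linarith)) (by positivity)
              (Nat.cast_nonneg _)
        _ = C2 * (T * M ^ 2 * Λ) := by ring
    exact_mod_cast h1
  have hpow : (Cl : ℝ) ^ (C * T * N + S2) ≤ Real.exp (2 * Cl * S2) := by
    calc (Cl : ℝ) ^ (C * T * N + S2) ≤ (Cl : ℝ) ^ (2 * S2) :=
          pow_le_pow_right₀ hCl' (by omega)
      _ ≤ Real.exp Cl ^ (2 * S2) := by
          apply pow_le_pow_left₀ (by linarith)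
          have := Real.add_one_le_exp (Cl : ℝ)
          linarith
      _ = Real.exp (2 * Cl * S2) := by
          rw [← Real.exp_nat_mul]
          congr 1
          push_cast
          ring
  have hfirst : 4 * (W : ℝ) * (2 * R / δ) ^ W * Real.exp (Cl * T * R ^ 2) *
      (Real.exp (Cl * T) * Ms / 8 ^ S2) ≤ Real.exp (-S2) * Ms := by
    calc 4 * (W : ℝ) * (2 * R / δ) ^ W * Real.exp (Cl * T * R ^ 2) *
          (Real.exp (Cl * T) * Ms / 8 ^ S2) =
          4 * (W : ℝ) * (2 * R / δ) ^ W * Real.exp (Cl * T * R ^ 2) * Real.exp (Cl * T) *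
            (Ms / 8 ^ S2) := by ring
      _ ≤ Real.exp S2 * (Ms / 8 ^ S2) := mul_le_mul_of_nonneg_right hsize2 (by positivity)
      _ = Real.exp S2 / 8 ^ S2 * Ms := by ring
      _ ≤ Real.exp (-S2) * Ms := mul_le_mul_of_nonneg_right (sc1_eight S2) hMs0
  have hsecond : 4 * (W : ℝ) * (2 * R / δ) ^ W * Real.exp (Cl * T * R ^ 2) *
      ((Cl : ℝ) ^ (C * T * N + S2) * η) ≤ Real.exp (C2 * S2) * η := by
    calc 4 * (W : ℝ) * (2 * R / δ) ^ W * Real.exp (Cl * T * R ^ 2) *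
          ((Cl : ℝ) ^ (C * T * N + S2) * η) ≤
          Real.exp S2 * (Real.exp (2 * Cl * S2) * η) := by
          apply mul_le_mul hsize3 (mul_le_mul_of_nonneg_right hpow hη) (by positivity)
            (Real.exp_pos _).le
      _ = Real.exp ((1 + 2 * Cl) * S2) * η := by
          rw [← mul_assoc, ← Real.exp_add]
          congr 2
          ring
      _ ≤ Real.exp (C2 * S2) * η := by
          apply mul_le_mul_of_nonneg_right (Real.exp_le_exp.2 _) hη
          apply mul_le_mul_of_nonneg_right _ (Nat.cast_nonneg _)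
          have : 1 + 2 * Cl ≤ C2 := by omega
          exact_mod_cast this
  calc 2 * E = 4 * (W : ℝ) * (2 * R / δ) ^ W * Real.exp (Cl * T * R ^ 2) *
        (Real.exp (Cl * T) * Ms / 8 ^ S2) + 4 * (W : ℝ) * (2 * R / δ) ^ W *
        Real.exp (Cl * T * R ^ 2) * ((Cl : ℝ) ^ (C * T * N + S2) * η) := by
        rw [hE, hε]
        ring
    _ ≤ _ := add_le_add hfirst hsecond

end U2

end S_H22_U2_Sc1

section S_H22_U2_Sc2

set_option autoImplicit false

namespace U2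

private theorem sc2_one_le_log {x : ℝ} (hx : 3 ≤ x) : 1 ≤ Real.log x := by
  rw [Real.le_log_iff_exp_le (by linarith)]
  have := Real.exp_one_lt_d9
  linarith

theorem schwarz {z : ℂ} (hz : 0 < z.im) : ∃ C C2 : ℕ, 1 ≤ C ∧ C ≤ C2 ∧
    ∀ (T N K M S2 : ℕ) (F : ℂ → ℂ → ℂ) (J : ℕ → ℕ → ℂ) (A : ℝ), 1 ≤ T → 1 ≤ N → 1 ≤ S2 →
    0 ≤ A → FD z T F J A → COV z N K → K + 1 ≤ M → N ≤ M →
    C2 * T * (M : ℝ) ^ 2 * Real.log (M * N + 2) ≤ S2 → ∀ η : ℝ, 0 ≤ η →
    (∀ a e, e < C * T * N → a + e < C * T * N + S2 → ‖J a e‖ ≤ η) →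
    ∀ x1 x2, bet z x1 x2 = 0 →
      Nw z T F x1 x2 ≤ Real.exp (-(((S2 : ℝ) * N) ^ 2 / (C2 * T)) +
        C2 * A * Real.log (S2 * N + 2)) + Real.exp (C2 * S2) * η := by
  obtain ⟨C, Cp, hC1, hCCp, hsc⟩ := sc1 hz
  obtain ⟨Ci, hCi, hint⟩ := interp hz
  refine ⟨C, 64 * Ci * Cp ^ 2 + Cp + 1, hC1, by omega, ?_⟩
  intro T N K M S2 F J A hT hN hS2 hA hFD hcov hKM hNM hS η hη hJ x1 x2 hx
  have hCp1 : 1 ≤ Cp := hC1.trans hCCp
  set C2 : ℕ := 64 * Ci * Cp ^ 2 + Cp + 1 with hC2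
  have hTr : (1 : ℝ) ≤ T := by exact_mod_cast hT
  have hNr : (1 : ℝ) ≤ N := by exact_mod_cast hN
  have hMr : (1 : ℝ) ≤ M := by exact_mod_cast (hN.trans hNM)
  have hSr : (1 : ℝ) ≤ S2 := by exact_mod_cast hS2
  have hCir : (1 : ℝ) ≤ Ci := by exact_mod_cast hCi
  have hCpr : (1 : ℝ) ≤ Cp := by exact_mod_cast hCp1
  have hC2r : (C2 : ℝ) = 64 * Ci * Cp ^ 2 + Cp + 1 := by rw [hC2]; push_cast; ring
  have hC2a : (64 : ℝ) * Ci * Cp ^ 2 ≤ C2 := by rw [hC2r]; linarith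
  have hC2b : (Cp : ℝ) + 1 ≤ C2 := by
    rw [hC2r]
    have : (0 : ℝ) ≤ 64 * Ci * Cp ^ 2 := by positivity
    linarith
  have hlogM : 1 ≤ Real.log ((M : ℝ) * N + 2) := by
    apply sc2_one_le_log
    have : (1 : ℝ) ≤ (M : ℝ) * N := one_le_mul_of_one_le_of_one_le hMr hNr
    linarith
  have hlogS : 1 ≤ Real.log ((S2 : ℝ) * N + 2) := by
    apply sc2_one_le_log
    have : (1 : ℝ) ≤ (S2 : ℝ) * N := one_le_mul_of_one_le_of_one_le hSr hNr
    linarith
  -- the condition of `sc1`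
  have hX : (0 : ℝ) ≤ T * (M : ℝ) ^ 2 * Real.log ((M : ℝ) * N + 2) := by positivity
  have hSc1 : (Cp : ℝ) * T * (M : ℝ) ^ 2 * Real.log ((M : ℝ) * N + 2) ≤ S2 := by
    refine le_trans ?_ hS
    have : (Cp : ℝ) * (T * (M : ℝ) ^ 2 * Real.log ((M : ℝ) * N + 2)) ≤
        C2 * (T * (M : ℝ) ^ 2 * Real.log ((M : ℝ) * N + 2)) :=
      mul_le_mul_of_nonneg_right (by linarith) hX
    linarith [this]
  have hSbig : (C2 : ℝ) * T ≤ S2 := by
    refine le_trans ?_ hS
    have h1 : (1 : ℝ) ≤ (M : ℝ) ^ 2 * Real.log ((M : ℝ) * N + 2) :=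
      one_le_mul_of_one_le_of_one_le (one_le_pow₀ hMr) hlogM
    have h2 : (0 : ℝ) ≤ (C2 : ℝ) * T := by positivity
    have h3 := mul_le_mul_of_nonneg_left h1 h2
    linarith
  -- the supremum on `bet = 0`
  set S : Set ℝ := {r | ∃ y1 y2, bet z y1 y2 = 0 ∧ r = Nw z T F y1 y2} with hSdef
  have hNw0 : ∀ y1 y2, 0 ≤ Nw z T F y1 y2 := fun y1 y2 ↦ by
    unfold Nw; positivity
  have hbdd : BddAbove S := by
    refine ⟨Real.exp A, ?_⟩
    rintro r ⟨y1, y2, hy, rfl⟩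
    have h := hFD.gr y1 y2
    rw [hy] at h
    simpa using h
  set M0 : ℝ := sSup S with hM0
  have hM0le : ∀ y1 y2, bet z y1 y2 = 0 → Nw z T F y1 y2 ≤ M0 := fun y1 y2 hy ↦
    le_csSup hbdd ⟨y1, y2, hy, rfl⟩
  have hSne : S.Nonempty := ⟨_, x1, x2, hx, rfl⟩
  have hM0A : M0 ≤ Real.exp A := by
    refine csSup_le hSne ?_
    rintro r ⟨y1, y2, hy, rfl⟩
    have h := hFD.gr y1 y2
    rw [hy] at h
    simpa using h
  have hM00 : 0 ≤ M0 := (hNw0 x1 x2).trans (hM0le x1 x2 hx)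
  have hmain : Nw z T F x1 x2 ≤ M0 := hM0le x1 x2 hx
  rcases hM00.eq_or_lt with h0 | hpos
  · have h1 : 0 ≤ Real.exp (C2 * S2) * η := by positivity
    have h2 := (Real.exp_pos (-(((S2 : ℝ) * N) ^ 2 / (C2 * T)) +
        C2 * A * Real.log (S2 * N + 2))).le
    linarith
  set r : ℝ := S2 * N / (8 * Ci * Cp * T) with hr
  have hden : (0 : ℝ) < 8 * Ci * Cp * T := by positivity
  have hrpos : 0 < r := by rw [hr]; positivity
  set A1 : ℝ := A * (1 + Real.log (1 + r)) with hA1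
  set W : ℝ := A1 + Ci * T * r ^ 2 with hW
  set l : ℝ := Real.log M0 with hl
  have hexpl : Real.exp l = M0 := Real.exp_log hpos
  have hlA : l ≤ A := by
    rw [hl, Real.log_le_iff_le_exp hpos]
    exact hM0A
  have hlog1r : 0 ≤ Real.log (1 + r) := Real.log_nonneg (by linarith)
  have hAA1 : A ≤ A1 := by
    rw [hA1]
    nlinarith
  have hWl : 0 ≤ W - l := by
    have : (0 : ℝ) ≤ Ci * T * r ^ 2 := by positivity
    rw [hW]; linarith
  have hin := hint T F J A hT hA hFD r (-l) A1 hrpos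
    (fun y1 y2 hy ↦ by rw [neg_neg, hexpl]; exact hM0le y1 y2 hy)
    (fun y1 y2 hy ↦ by rw [hA1, ← hy]; exact hFD.gr y1 y2)
  set ϑ : ℝ := Cp / (N * r) with hϑ
  have hNpos : (0 : ℝ) < N := by linarith
  have hϑpos : 0 < ϑ := by rw [hϑ]; positivity
  have hCpNr : (Cp : ℝ) / N ≤ r := by
    rw [div_le_iff₀ hNpos, hr, div_mul_eq_mul_div, le_div_iff₀ hden]
    have h1 : (64 : ℝ) * Ci * Cp ^ 2 * T ≤ S2 := by
      refine le_trans (mul_le_mul_of_nonneg_right hC2a (by positivity)) hSbig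
    have h2 : (S2 : ℝ) ≤ S2 * N * N := by
      rw [mul_assoc]
      exact le_mul_of_one_le_right (Nat.cast_nonneg _) (one_le_mul_of_one_le_of_one_le hNr hNr)
    have h3 : (Cp : ℝ) * (8 * Ci * Cp * T) ≤ 64 * Ci * Cp ^ 2 * T := by
      have h4 : (0 : ℝ) ≤ Ci * Cp ^ 2 * T := by positivity
      have h5 : (Cp : ℝ) * (8 * Ci * Cp * T) = 8 * (Ci * Cp ^ 2 * T) := by ring
      have h6 : (64 : ℝ) * Ci * Cp ^ 2 * T = 64 * (Ci * Cp ^ 2 * T) := by ring
      rw [h5, h6]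
      exact mul_le_mul_of_nonneg_right (by norm_num) h4
    linarith
  have hMs : ∀ y1 y2, |bet z y1 y2| ≤ Cp / N →
      Nw z T F y1 y2 ≤ Real.exp (l + ϑ * (W - l)) := by
    intro y1 y2 hy
    refine (hin y1 y2 (hy.trans hCpNr)).trans ?_
    rw [Real.exp_le_exp]
    have h1 : |bet z y1 y2| / r ≤ ϑ := by
      rw [hϑ, ← div_div]
      exact div_le_div_of_nonneg_right hy hrpos.le
    have h2 : |bet z y1 y2| / r * (W - l) ≤ ϑ * (W - l) := mul_le_mul_of_nonneg_right h1 hWl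
    have h3 : -(-l * (1 - |bet z y1 y2| / r)) + W * (|bet z y1 y2| / r) =
        l + |bet z y1 y2| / r * (W - l) := by ring
    rw [h3]
    linarith
  have hsc' := hsc T N K M S2 F J A hT hN hS2 hA hFD hcov hKM hNM hSc1 η
    (Real.exp (l + ϑ * (W - l))) hη hJ hMs
  have hM0b : M0 ≤ Real.exp (-S2) * Real.exp (l + ϑ * (W - l)) + Real.exp (Cp * S2) * η := by
    refine csSup_le hSne ?_
    rintro r' ⟨y1, y2, hy, rfl⟩
    exact hsc' y1 y2 hy
  by_cases hcase : M0 ≤ 2 * (Real.exp (Cp * S2) * η)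
  · have h1 : 2 * Real.exp (Cp * S2) ≤ Real.exp (C2 * S2) := by
      have h2 : (2 : ℝ) ≤ Real.exp S2 := by
        have := Real.add_one_le_exp (S2 : ℝ)
        linarith
      have h3 : Real.exp S2 * Real.exp (Cp * S2) ≤ Real.exp (C2 * S2) := by
        rw [← Real.exp_add, Real.exp_le_exp]
        nlinarith
      have h4 := Real.exp_pos ((Cp : ℝ) * S2)
      nlinarith
    have h2 := (Real.exp_pos (-(((S2 : ℝ) * N) ^ 2 / (C2 * T)) +
        C2 * A * Real.log (S2 * N + 2))).le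
    have h3 : 2 * (Real.exp (Cp * S2) * η) ≤ Real.exp (C2 * S2) * η := by
      have := mul_le_mul_of_nonneg_right h1 hη
      linarith
    linarith
  · push Not at hcase
    have h1 : M0 ≤ 2 * (Real.exp (-S2) * Real.exp (l + ϑ * (W - l))) := by linarith
    have h2 : l ≤ Real.log 2 + (-S2 + (l + ϑ * (W - l))) := by
      have h3 : Real.exp l ≤ Real.exp (Real.log 2 + (-S2 + (l + ϑ * (W - l)))) := by
        rw [hexpl, Real.exp_add, Real.exp_log (by norm_num : (0:ℝ) < 2), Real.exp_add]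
        exact h1
      exact Real.exp_le_exp.1 h3
    have hlog2 : Real.log 2 ≤ 3 / 4 := by
      have := Real.log_two_lt_d9
      linarith
    have h3 : (S2 : ℝ) / 4 ≤ ϑ * (W - l) := by linarith
    have hϑr : ϑ * (N * r) = Cp := by
      rw [hϑ]; field_simp
    have h4 : (S2 : ℝ) * N * r / (4 * Cp) ≤ W - l := by
      rw [div_le_iff₀ (by positivity)]
      have h5 : (S2 : ℝ) / 4 * (N * r) ≤ ϑ * (W - l) * (N * r) :=
        mul_le_mul_of_nonneg_right h3 (by positivity)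
      have h6 : ϑ * (W - l) * (N * r) = Cp * (W - l) := by
        rw [← hϑr]; ring
      rw [h6] at h5
      linarith
    have hCipos : (0 : ℝ) < Ci := by linarith
    have hCppos : (0 : ℝ) < Cp := by linarith
    have hTpos : (0 : ℝ) < T := by linarith
    have h7 : (Ci : ℝ) * T * r ^ 2 - S2 * N * r / (4 * Cp) =
        -(((S2 : ℝ) * N) ^ 2 / (64 * Ci * Cp ^ 2 * T)) := by
      rw [hr]; field_simp; ring
    have h8 : ((S2 : ℝ) * N) ^ 2 / (C2 * T) ≤ ((S2 : ℝ) * N) ^ 2 / (64 * Ci * Cp ^ 2 * T) := by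
      apply div_le_div_of_nonneg_left (by positivity) (by positivity)
      exact mul_le_mul_of_nonneg_right hC2a hTpos.le
    have h9 : r ≤ S2 * N := by
      rw [hr]
      apply div_le_self (by positivity)
      have h91 : (1 : ℝ) ≤ Ci * Cp * T :=
        one_le_mul_of_one_le_of_one_le (one_le_mul_of_one_le_of_one_le hCir hCpr) hTr
      have h92 : (8 : ℝ) * Ci * Cp * T = 8 * (Ci * Cp * T) := by ring
      rw [h92]
      exact one_le_mul_of_one_le_of_one_le (by norm_num) h91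
    have h10 : Real.log (1 + r) ≤ Real.log (S2 * N + 2) :=
      Real.log_le_log (by linarith) (by linarith)
    have h11 : A1 ≤ C2 * A * Real.log (S2 * N + 2) := by
      have h12 : 1 + Real.log (1 + r) ≤ 2 * Real.log (S2 * N + 2) := by linarith
      have h13 : (2 : ℝ) * Real.log (S2 * N + 2) ≤ C2 * Real.log (S2 * N + 2) :=
        mul_le_mul_of_nonneg_right (by linarith) (by linarith)
      rw [hA1]
      have := mul_le_mul_of_nonneg_left (h12.trans h13) hA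
      linarith
    have h14 : l ≤ -(((S2 : ℝ) * N) ^ 2 / (C2 * T)) + C2 * A * Real.log (S2 * N + 2) := by
      rw [hW] at h4
      linarith
    have h15 : M0 ≤ Real.exp (-(((S2 : ℝ) * N) ^ 2 / (C2 * T)) +
        C2 * A * Real.log (S2 * N + 2)) := by
      rw [← hexpl]; exact Real.exp_le_exp.2 h14
    have h16 : 0 ≤ Real.exp (C2 * S2) * η := by positivity
    linarith

end U2

end S_H22_U2_Sc2

section S_H22_U2_Spr

set_option autoImplicit false

namespace U2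

theorem spread {z : ℂ} (hz : 0 < z.im) : ∃ C : ℕ, 1 ≤ C ∧
    ∀ (T : ℕ) (F : ℂ → ℂ → ℂ) (J : ℕ → ℕ → ℂ) (A : ℝ), 1 ≤ T → 0 ≤ A → FD z T F J A →
    ∀ L r : ℝ, 0 ≤ L → 1 ≤ r → (∀ x1 x2, bet z x1 x2 = 0 → Nw z T F x1 x2 ≤ Real.exp (-L)) →
      ∀ x1 x2, |bet z x1 x2| ≤ r → Nw z T F x1 x2 ≤
        Real.exp (-(L / 2) + C * A * Real.log (r + 2) + C * T * r ^ 2) := by
  obtain ⟨Ci, hCi, hI⟩ := interp hz
  refine ⟨2 * Ci, by omega, ?_⟩
  intro T F J A hT hA hF L r hL hr h0 x1 x2 hx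
  have hCi' : (1 : ℝ) ≤ Ci := by exact_mod_cast hCi
  have hT' : (1 : ℝ) ≤ T := by exact_mod_cast hT
  have hR : (0 : ℝ) < 2 * r := by linarith
  have h1 := hI T F J A hT hA hF (2 * r) L (A * (1 + Real.log (1 + 2 * r))) hR h0 (by
    intro y1 y2 hy
    have := hF.gr y1 y2
    rw [hy] at this
    exact this) x1 x2 (by linarith)
  refine h1.trans (Real.exp_le_exp.2 ?_)
  set s : ℝ := |bet z x1 x2| / (2 * r) with hs
  have hs0 : 0 ≤ s := div_nonneg (abs_nonneg _) hR.le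
  have hs1 : s ≤ 1 / 2 := by
    rw [hs, div_le_iff₀ hR]
    linarith
  have hl1 : 1 ≤ Real.log (r + 2) := by
    rw [Real.le_log_iff_exp_le (by linarith)]
    have := Real.exp_one_lt_d9
    linarith
  have hl2 : Real.log (1 + 2 * r) ≤ 2 * Real.log (r + 2) := by
    have h2 : 2 * Real.log (r + 2) = Real.log ((r + 2) ^ 2) := by
      rw [Real.log_pow]
      norm_num
    rw [h2]
    apply Real.log_le_log (by linarith)
    nlinarith
  have hl0 : 0 ≤ Real.log (1 + 2 * r) := Real.log_nonneg (by linarith)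
  have hA1 : 0 ≤ A * (1 + Real.log (1 + 2 * r)) + Ci * T * (2 * r) ^ 2 := by positivity
  have e1 : -(L * (1 - s)) ≤ -(L / 2) := by nlinarith
  have e2 : (A * (1 + Real.log (1 + 2 * r)) + Ci * T * (2 * r) ^ 2) * s ≤
      (A * (1 + Real.log (1 + 2 * r)) + Ci * T * (2 * r) ^ 2) * (1 / 2) := mul_le_mul_of_nonneg_left hs1 hA1
  have e3 : A * (1 + Real.log (1 + 2 * r)) ≤ A * (3 * Real.log (r + 2)) := mul_le_mul_of_nonneg_left (by linarith) hA
  have e4 : (3 / 2 : ℝ) * (A * Real.log (r + 2)) ≤ (2 * Ci : ℝ) * (A * Real.log (r + 2)) := by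
    apply mul_le_mul_of_nonneg_right (by linarith)
    positivity
  push_cast
  nlinarith [e1, e2, e3, e4]

end U2

end S_H22_U2_Spr
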