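import Mathlib

/-! Modular Schanuel with derivatives for points algebraic over a field with good approximations, part 4: this file joins several modules to save build time. -/

section S_H32_T3_Ht

namespace H32.T3

open Height Height.AdmissibleAbsValues MvPolynomial Finset

section nrm

variable {ι : Type*}

/-- The sum of the absolute values of the coefficients. -/
noncomputable def nrm (P : MvPolynomial ι ℤ) : ℝ := ∑ m ∈ P.support, |((P.coeff m : ℤ) : ℝ)|

lemma nrm_nonneg (P : MvPolynomial ι ℤ) : 0 ≤ nrm P := sum_nonneg fun _ _ ↦ abs_nonneg _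

lemma nrm_eq {P : MvPolynomial ι ℤ} {S : Finset (ι →₀ ℕ)} (h : P.support ⊆ S) :
    nrm P = ∑ m ∈ S, |((P.coeff m : ℤ) : ℝ)| := by
  unfold nrm
  refine sum_subset h fun m _ hm ↦ ?_
  rw [notMem_support_iff.mp hm]
  simp

lemma nrm_zero : nrm (0 : MvPolynomial ι ℤ) = 0 := by simp [nrm]

lemma nrm_add_le (P Q : MvPolynomial ι ℤ) : nrm (P + Q) ≤ nrm P + nrm Q := by
  classical
  rw [nrm_eq (support_add (p := P) (q := Q)), nrm_eq (subset_union_left (s₂ := Q.support)),
    nrm_eq (subset_union_right (s₁ := P.support)), ← sum_add_distrib]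
  refine sum_le_sum fun m _ ↦ ?_
  rw [coeff_add]
  push_cast
  exact abs_add_le _ _

lemma nrm_sum_le {α : Type*} (s : Finset α) (P : α → MvPolynomial ι ℤ) :
    nrm (∑ i ∈ s, P i) ≤ ∑ i ∈ s, nrm (P i) := by
  classical
  induction s using Finset.induction_on with
  | empty => simp [nrm_zero]
  | insert i t hi ih =>
    rw [sum_insert hi, sum_insert hi]
    exact (nrm_add_le _ _).trans (by gcongr)

lemma nrm_monomial (m : ι →₀ ℕ) (c : ℤ) : nrm (monomial m c) = |(c : ℝ)| := by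
  classical
  rw [nrm_eq (support_monomial_subset (s := m) (a := c))]
  simp

lemma nrm_monomial_mul (m : ι →₀ ℕ) (c : ℤ) (P : MvPolynomial ι ℤ) :
    nrm (monomial m c * P) ≤ |(c : ℝ)| * nrm P := by
  classical
  have h : monomial m c * P = ∑ k ∈ P.support, monomial (m + k) (c * P.coeff k) := by
    conv_lhs => rw [P.as_sum, mul_sum]
    refine sum_congr rfl fun k _ ↦ ?_
    rw [monomial_mul]
  rw [h]
  refine (nrm_sum_le _ _).trans ?_
  unfold nrm
  rw [mul_sum]
  refine sum_le_sum fun k _ ↦ ?_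
  have := nrm_monomial (m + k) (c * P.coeff k)
  unfold nrm at this
  rw [this]
  push_cast
  rw [abs_mul]

lemma nrm_mul_le (P Q : MvPolynomial ι ℤ) : nrm (P * Q) ≤ nrm P * nrm Q := by
  classical
  conv_lhs => rw [P.as_sum, sum_mul]
  refine (nrm_sum_le _ _).trans ?_
  rw [nrm, sum_mul]
  exact sum_le_sum fun m _ ↦ nrm_monomial_mul _ _ _

lemma nrm_C (c : ℤ) : nrm (C c : MvPolynomial ι ℤ) = |(c : ℝ)| := nrm_monomial _ _

lemma nrm_X (i : ι) : nrm (X i : MvPolynomial ι ℤ) = 1 := by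
  rw [X, nrm_monomial]; simp

lemma nrm_one : nrm (1 : MvPolynomial ι ℤ) = 1 := by
  have := nrm_C (ι := ι) 1
  simpa using this

lemma nrm_neg (P : MvPolynomial ι ℤ) : nrm (-P) = nrm P := by
  unfold nrm
  rw [support_neg]
  refine sum_congr rfl fun m _ ↦ ?_
  simp

lemma nrm_pow_le (P : MvPolynomial ι ℤ) (n : ℕ) : nrm (P ^ n) ≤ nrm P ^ n := by
  induction n with
  | zero => simp [nrm_one]
  | succ n ih =>
    rw [pow_succ, pow_succ]
    exact (nrm_mul_le _ _).trans (by gcongr; exact nrm_nonneg _)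

lemma one_le_nrm {P : MvPolynomial ι ℤ} (h : P ≠ 0) : 1 ≤ nrm P := by
  obtain ⟨m, hm⟩ := support_nonempty.mpr h
  have h1 : |((P.coeff m : ℤ) : ℝ)| ≤ nrm P :=
    single_le_sum (f := fun m ↦ |((P.coeff m : ℤ) : ℝ)|) (fun _ _ ↦ abs_nonneg _) hm
  have h2 : P.coeff m ≠ 0 := mem_support_iff.mp hm
  have h3 : (1 : ℝ) ≤ |((P.coeff m : ℤ) : ℝ)| := by
    have := Int.one_le_abs h2
    exact_mod_cast this
  linarith

end nrm

section abs

variable {K : Type*} [Field K] {ι : Type*} [Fintype ι]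

lemma abv_natCast_le (v : AbsoluteValue K ℝ) (n : ℕ) : v (n : K) ≤ n := by
  induction n with
  | zero => simp
  | succ n ih =>
    push_cast
    exact (v.add_le _ _).trans (by rw [v.map_one]; gcongr)

lemma abv_intCast_le (v : AbsoluteValue K ℝ) (n : ℤ) : v (n : K) ≤ |(n : ℝ)| := by
  rcases Int.eq_nat_or_neg n with ⟨m, rfl | rfl⟩
  · simpa using abv_natCast_le v m
  · simpa using abv_natCast_le v m

lemma prod_le_of_deg (v : AbsoluteValue K ℝ) (x : ι → K) {m : ι →₀ ℕ} {d : ι → ℕ}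
    (h : ∀ i, m i ≤ d i) : ∏ i, v (x i) ^ m i ≤ ∏ i, max (v (x i)) 1 ^ d i := by
  refine prod_le_prod (fun i _ ↦ by positivity) fun i _ ↦ ?_
  calc v (x i) ^ m i ≤ max (v (x i)) 1 ^ m i := by gcongr; exact le_max_left _ _
    _ ≤ _ := pow_le_pow_right₀ (le_max_right _ _) (h i)

lemma abv_aeval_le (v : AbsoluteValue K ℝ) (x : ι → K) (P : MvPolynomial ι ℤ) {d : ι → ℕ}
    (hd : ∀ m ∈ P.support, ∀ i, m i ≤ d i) :
    v (aeval x P) ≤ nrm P * ∏ i, max (v (x i)) 1 ^ d i := by
  rw [aeval_def, eval₂_eq']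
  refine (v.sum_le _ _).trans ?_
  rw [nrm, sum_mul]
  refine sum_le_sum fun m hm ↦ ?_
  rw [v.map_mul, map_prod]
  simp_rw [map_pow]
  have h1 : v ((algebraMap ℤ K) (coeff m P)) ≤ |((coeff m P : ℤ) : ℝ)| := by
    simpa using abv_intCast_le v (coeff m P)
  exact mul_le_mul h1 (prod_le_of_deg v x (hd m hm)) (prod_nonneg fun i _ ↦ by positivity)
    (abs_nonneg _)

lemma abv_aeval_le_nonarch {v : AbsoluteValue K ℝ} (hv : IsNonarchimedean v) (x : ι → K)
    (P : MvPolynomial ι ℤ) {d : ι → ℕ} (hd : ∀ m ∈ P.support, ∀ i, m i ≤ d i) :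
    v (aeval x P) ≤ ∏ i, max (v (x i)) 1 ^ d i := by
  have hpos : 0 < ∏ i, max (v (x i)) 1 ^ d i :=
    prod_pos fun i _ ↦ pow_pos (lt_of_lt_of_le one_pos (le_max_right _ _)) _
  rw [aeval_def, eval₂_eq']
  rcases P.support.eq_empty_or_nonempty with h | h
  · rw [h]; simpa using hpos.le
  have key : ∀ m ∈ P.support, v ((algebraMap ℤ K) (coeff m P) * ∏ i, x i ^ m i) ≤
      ∏ i, max (v (x i)) 1 ^ d i := by
    intro m hm
    rw [v.map_mul, map_prod]
    simp_rw [map_pow]
    have h1 : v ((algebraMap ℤ K) (coeff m P)) ≤ 1 := by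
      have : v ((coeff m P : ℤ) : K) ≤ 1 := IsNonarchimedean.apply_intCast_le_one hv
      simpa using this
    calc _ ≤ 1 * ∏ i, v (x i) ^ m i := by
          gcongr
      _ = ∏ i, v (x i) ^ m i := one_mul _
      _ ≤ _ := prod_le_of_deg v x (hd m hm)
  have hsum : ∀ s : Finset (ι →₀ ℕ), (∀ m ∈ s, v ((algebraMap ℤ K) (coeff m P) * ∏ i, x i ^ m i) ≤
      ∏ i, max (v (x i)) 1 ^ d i) → v (∑ m ∈ s, (algebraMap ℤ K) (coeff m P) * ∏ i, x i ^ m i) ≤
      ∏ i, max (v (x i)) 1 ^ d i := by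
    classical
    intro s
    induction s using Finset.induction_on with
    | empty => intro _; simpa using hpos.le
    | insert m t hm ih =>
      intro hs
      rw [sum_insert hm]
      exact (hv _ _).trans (max_le (hs m (mem_insert_self _ _))
        (ih fun m' hm' ↦ hs m' (mem_insert_of_mem hm')))
  exact hsum _ key

end abs

section height

variable {K : Type*} [Field K] [AdmissibleAbsValues K] {ι : Type*} [Fintype ι]

lemma finite_max (y : K) :
    (fun v : nonarchAbsVal (K := K) ↦ max (v.val y) 1).HasFiniteMulSupport := by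
  rcases eq_or_ne y 0 with h | h
  · simp [h, Function.HasFiniteMulSupport]
  · refine (hasFiniteMulSupport h).subset fun v hv ↦ ?_
    rw [Function.mem_mulSupport] at hv ⊢
    intro h1
    apply hv
    rw [h1]; simp

lemma finite_max_pow (y : K) (n : ℕ) :
    (fun v : nonarchAbsVal (K := K) ↦ max (v.val y) 1 ^ n).HasFiniteMulSupport :=
  (finite_max y).subset fun v hv ↦ by
    rw [Function.mem_mulSupport] at hv ⊢
    intro h1
    apply hv
    rw [h1, one_pow]

lemma finite_prod (x : ι → K) (d : ι → ℕ) :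
    (fun v : nonarchAbsVal (K := K) ↦ ∏ i, max (v.val (x i)) 1 ^ d i).HasFiniteMulSupport := by
  refine (Set.finite_iUnion fun i ↦ finite_max_pow (x i) (d i)).subset fun v hv ↦ ?_
  rw [Function.mem_mulSupport] at hv
  rw [Set.mem_iUnion]
  by_contra hcon
  push Not at hcon
  apply hv
  refine prod_eq_one fun i _ ↦ ?_
  have := hcon i
  rwa [Function.mem_mulSupport, not_not] at this

lemma prod_mulHeight₁ (x : ι → K) (d : ι → ℕ) :
    ∏ i, mulHeight₁ (x i) ^ d i =
      (archAbsVal.map fun v : AbsoluteValue K ℝ ↦ ∏ i, max (v (x i)) 1 ^ d i).prod *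
      ∏ᶠ v : nonarchAbsVal (K := K), ∏ i, max (v.val (x i)) 1 ^ d i := by
  simp_rw [mulHeight₁_eq, mul_pow]
  rw [prod_mul_distrib]
  congr 1
  · rw [Multiset.prod_map_prod]
    refine prod_congr rfl fun i _ ↦ ?_
    rw [Multiset.prod_map_pow]
  · rw [finprod_prod_comm _ _ fun i _ ↦ finite_max_pow (x i) (d i)]
    refine prod_congr rfl fun i _ ↦ ?_
    rw [finprod_pow (finite_max (x i))]

/-- Height of a tuple of values of integer polynomials. -/
theorem mulHeight_aeval_le {κ : Type*} [Finite κ] (x : ι → K) (P : κ → MvPolynomial ι ℤ)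
    {d : ι → ℕ} (hd : ∀ j, ∀ m ∈ (P j).support, ∀ i, m i ≤ d i) {B : ℝ} (hB : 1 ≤ B)
    (hP : ∀ j, nrm (P j) ≤ B) :
    mulHeight (fun j ↦ aeval x (P j)) ≤ B ^ totalWeight K * ∏ i, mulHeight₁ (x i) ^ d i := by
  have h1 : (1 : ℝ) ≤ B ^ totalWeight K * ∏ i, mulHeight₁ (x i) ^ d i :=
    one_le_mul_of_one_le_of_one_le (one_le_pow₀ hB)
      (Finset.one_le_prod fun i _ ↦ one_le_pow₀ (one_le_mulHeight₁ _))
  rcases isEmpty_or_nonempty κ with hκ | hκ
  · rw [mulHeight_eq_one_of_subsingleton]; exact h1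
  rcases eq_or_ne (fun j ↦ aeval x (P j)) 0 with h | h
  · rw [h, mulHeight_zero]; exact h1
  have hB0 : 0 ≤ B := by linarith
  rw [mulHeight_eq h, prod_mulHeight₁, ← mul_assoc, totalWeight, ← Multiset.prod_replicate,
    ← Multiset.map_const', ← Multiset.prod_map_mul]
  have hpos : ∀ v : AbsoluteValue K ℝ, 0 < ∏ i, max (v (x i)) 1 ^ d i := fun v ↦
    prod_pos fun i _ ↦ pow_pos (lt_of_lt_of_le one_pos (le_max_right _ _)) _
  gcongr
  · exact finprod_nonneg fun v ↦ Real.iSup_nonneg_of_nonnegHomClass v.val _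
  · exact Multiset.prod_map_nonneg fun v _ ↦ mul_nonneg hB0 (hpos v).le
  · refine Multiset.prod_map_le_prod_map₀ _ _
      (fun v _ ↦ Real.iSup_nonneg_of_nonnegHomClass v _) fun v _ ↦ ?_
    refine ciSup_le fun j ↦ (abv_aeval_le v x (P j) (hd j)).trans ?_
    have := (hpos v).le
    gcongr
    exact hP j
  · refine finprod_le_finprod (by fun_prop (disch := assumption))
      (fun v ↦ Real.iSup_nonneg_of_nonnegHomClass v.val _) ?_ fun v ↦ ?_
    · exact finite_prod x d
    · exact ciSup_le fun j ↦ abv_aeval_le_nonarch (isNonarchimedean _ v.prop) x (P j) (hd j)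

/-- Height of a value of an integer polynomial. -/
theorem mulHeight₁_aeval_le (x : ι → K) (P : MvPolynomial ι ℤ)
    {d : ι → ℕ} (hd : ∀ m ∈ P.support, ∀ i, m i ≤ d i) {B : ℝ} (hB : 1 ≤ B) (hP : nrm P ≤ B) :
    mulHeight₁ (aeval x P) ≤ B ^ totalWeight K * ∏ i, mulHeight₁ (x i) ^ d i := by
  have h := mulHeight_aeval_le (κ := Fin 2) x ![P, 1] (d := d) ?_ hB ?_
  · rw [mulHeight₁_eq_mulHeight]
    convert h using 2
    ext j
    fin_cases j <;> simp
  · intro j
    fin_cases j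
    · exact hd
    · intro m hm i
      have h1 : m ∈ (1 : MvPolynomial ι ℤ).support := hm
      rw [support_one, mem_singleton] at h1
      simp [h1]
  · intro j
    fin_cases j
    · exact hP
    · simpa [nrm_one] using hB

/-- Height of a root of a polynomial. -/
theorem mulHeight₁_root_le {n : ℕ} (b : Fin (n + 1) → K) (ξ : K) (hb : b (Fin.last n) ≠ 0)
    (h : ∑ i, b i * ξ ^ (i : ℕ) = 0) :
    mulHeight₁ ξ ≤ (n : ℝ) ^ totalWeight K * mulHeight b := by
  -- normalise
  set c : Fin (n + 1) → K := fun i ↦ (b (Fin.last n))⁻¹ * b i with hc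
  have hcb : mulHeight c = mulHeight b := by
    have := mulHeight_smul_eq_mulHeight b (inv_ne_zero hb)
    rw [← this]
    rfl
  have hcl : c (Fin.last n) = 1 := inv_mul_cancel₀ hb
  have hsum : ∑ i, c i * ξ ^ (i : ℕ) = 0 := by
    have : ∑ i, c i * ξ ^ (i : ℕ) = (b (Fin.last n))⁻¹ * ∑ i, b i * ξ ^ (i : ℕ) := by
      rw [mul_sum]
      refine sum_congr rfl fun i _ ↦ ?_
      rw [hc]; ring
    rw [this, h, mul_zero]
  rw [Fin.sum_univ_castSucc, hcl, one_mul, Fin.val_last] at hsum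
  simp only [Fin.val_castSucc] at hsum
  have hn : n ≠ 0 := by
    rintro rfl
    simp at hsum
  have hn1 : (1 : ℝ) ≤ n := by exact_mod_cast Nat.one_le_iff_ne_zero.mpr hn
  have hξ : ξ ^ n = -∑ i : Fin n, c i.castSucc * ξ ^ (i : ℕ) := by linear_combination hsum
  have hc0 : c ≠ 0 := fun h0 ↦ by
    have := congrFun h0 (Fin.last n)
    rw [hcl] at this
    exact one_ne_zero this
  have hsup : ∀ v : AbsoluteValue K ℝ, ∀ i, v (c i) ≤ ⨆ i, v (c i) := fun v i ↦
    Finite.le_ciSup (fun i ↦ v (c i)) i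
  have hsup1 : ∀ v : AbsoluteValue K ℝ, 1 ≤ ⨆ i, v (c i) := fun v ↦ by
    have := hsup v (Fin.last n)
    rwa [hcl, v.map_one] at this
  have harch : ∀ v : AbsoluteValue K ℝ, max (v ξ) 1 ≤ n * ⨆ i, v (c i) := by
    intro v
    have h1 := hsup1 v
    refine max_le ?_ (by nlinarith)
    rcases le_or_gt (v ξ) 1 with h2 | h2
    · nlinarith
    have hv0 : 0 < v ξ := by linarith
    have h3 : v ξ ^ n ≤ n * (⨆ i, v (c i)) * v ξ ^ (n - 1) := by
      rw [← v.map_pow, hξ, v.map_neg]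
      refine (v.sum_le _ _).trans ?_
      calc ∑ i : Fin n, v (c i.castSucc * ξ ^ (i : ℕ))
          ≤ ∑ _i : Fin n, (⨆ i, v (c i)) * v ξ ^ (n - 1) := by
            refine sum_le_sum fun i _ ↦ ?_
            rw [v.map_mul, v.map_pow]
            have := hsup v i.castSucc
            gcongr
            · exact h2.le
            · omega
        _ = _ := by simp [mul_assoc]
    obtain ⟨k, rfl⟩ := Nat.exists_eq_succ_of_ne_zero hn
    rw [Nat.succ_sub_one, pow_succ] at h3
    have hk : 0 < v ξ ^ k := by positivity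
    have h4 : v ξ ^ k * v ξ ≤ v ξ ^ k * (((k.succ : ℕ) : ℝ) * ⨆ i, v (c i)) := by linarith
    exact le_of_mul_le_mul_left h4 hk
  have hnon : ∀ v : AbsoluteValue K ℝ, IsNonarchimedean v → max (v ξ) 1 ≤ ⨆ i, v (c i) := by
    intro v hv
    have h1 := hsup1 v
    refine max_le ?_ h1
    rcases le_or_gt (v ξ) 1 with h2 | h2
    · linarith
    have hv0 : 0 < v ξ := by linarith
    have h3 : v ξ ^ n ≤ (⨆ i, v (c i)) * v ξ ^ (n - 1) := by
      rw [← v.map_pow, hξ, v.map_neg]
      have hle : ∀ s : Finset (Fin n), v (∑ i ∈ s, c i.castSucc * ξ ^ (i : ℕ)) ≤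
          (⨆ i, v (c i)) * v ξ ^ (n - 1) := by
        intro s
        induction s using Finset.induction_on with
        | empty => simp; positivity
        | insert i t hi ih =>
          rw [sum_insert hi]
          refine (hv _ _).trans (max_le ?_ ih)
          rw [v.map_mul, v.map_pow]
          have := hsup v i.castSucc
          gcongr
          · exact h2.le
          · omega
      exact hle _
    obtain ⟨k, rfl⟩ := Nat.exists_eq_succ_of_ne_zero hn
    rw [Nat.succ_sub_one, pow_succ] at h3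
    have hk : 0 < v ξ ^ k := by positivity
    have h4 : v ξ ^ k * v ξ ≤ v ξ ^ k * ⨆ i, v (c i) := by linarith
    exact le_of_mul_le_mul_left h4 hk
  rw [← hcb, mulHeight_eq hc0, mulHeight₁_eq, ← mul_assoc, totalWeight,
    ← Multiset.prod_replicate, ← Multiset.map_const', ← Multiset.prod_map_mul]
  gcongr
  · exact finprod_nonneg fun v ↦ by positivity
  · exact Multiset.prod_map_nonneg fun v _ ↦ mul_nonneg (by positivity)
      (Real.iSup_nonneg_of_nonnegHomClass v _)
  · refine Multiset.prod_map_le_prod_map₀ _ _ (fun v _ ↦ by positivity) fun v _ ↦ harch v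
  · refine finprod_le_finprod (finite_max ξ) (fun v ↦ by positivity) (by fun_prop (disch := assumption))
      fun v ↦ hnon v.val (isNonarchimedean _ v.prop)

end height

section liouville

open NumberField

variable {K : Type*} [Field K] [NumberField K]

/-- Liouville inequality. -/
theorem liouville (σ : K →+* ℂ) {y : K} (hy : y ≠ 0) : (mulHeight₁ y)⁻¹ ≤ ‖σ y‖ := by
  classical
  set v : InfinitePlace K := InfinitePlace.mk σ with hv
  have hvy : v y = ‖σ y‖ := rfl
  have hpos : 0 < ‖σ y‖ := by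
    rw [norm_pos_iff]
    exact (map_ne_zero σ).mpr hy
  have h1 : ‖σ y‖⁻¹ ≤ mulHeight₁ y := by
    rw [← mulHeight₁_inv, NumberField.mulHeight₁_eq]
    have h2 : (1 : ℝ) ≤ ∏ᶠ w : FinitePlace K, max (w y⁻¹) 1 :=
      one_le_finprod fun _ ↦ le_max_right _ _
    have h3 : max (v y⁻¹) 1 ^ v.mult ≤ ∏ w : InfinitePlace K, max (w y⁻¹) 1 ^ w.mult := by
      rw [← Finset.mul_prod_erase _ _ (Finset.mem_univ v)]
      refine le_mul_of_one_le_right (by positivity) ?_
      exact Finset.one_le_prod fun w _ ↦ one_le_pow₀ (le_max_right _ _)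
    have h4 : ‖σ y‖⁻¹ ≤ max (v y⁻¹) 1 := by
      rw [map_inv₀, hvy]
      exact le_max_left _ _
    have h5 : max (v y⁻¹) 1 ≤ max (v y⁻¹) 1 ^ v.mult :=
      le_self_pow₀ (le_max_right _ _) v.mult_ne_zero
    calc ‖σ y‖⁻¹ ≤ max (v y⁻¹) 1 ^ v.mult * 1 := by rw [mul_one]; exact h4.trans h5
      _ ≤ _ := by gcongr
  exact inv_le_of_inv_le₀ hpos h1

end liouville

end H32.T3

end S_H32_T3_Ht

section S_H32_T3_Der

namespace H32.T3

open MvPolynomial Finset

/-- The images of the variables. -/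
noncomputable def dv : Fin 5 → MvPolynomial (Fin 5) ℤ :=
  ![X 1, C 6 * X 0 ^ 2 - X 3, -X 0 - X 4, 0, 0]

/-- The derivation. -/
noncomputable def DD : Derivation ℤ (MvPolynomial (Fin 5) ℤ) (MvPolynomial (Fin 5) ℤ) :=
  mkDerivation ℤ dv

lemma nrm_dv (i : Fin 5) : nrm (dv i) ≤ 7 := by
  fin_cases i
  · change nrm (X 1) ≤ 7
    rw [nrm_X]; norm_num
  · change nrm (C 6 * X 0 ^ 2 - X 3) ≤ 7
    rw [sub_eq_add_neg]
    refine (nrm_add_le _ _).trans ?_
    rw [nrm_neg, nrm_X]
    have h1 := nrm_mul_le (C 6 : MvPolynomial (Fin 5) ℤ) (X 0 ^ 2)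
    have h2 := nrm_pow_le (X 0 : MvPolynomial (Fin 5) ℤ) 2
    rw [nrm_X, one_pow] at h2
    rw [nrm_C] at h1
    have h3 := nrm_nonneg (X 0 ^ 2 : MvPolynomial (Fin 5) ℤ)
    have h4 : |((6 : ℤ) : ℝ)| = 6 := by norm_num
    rw [h4] at h1
    linarith
  · change nrm (-X 0 - X 4) ≤ 7
    rw [sub_eq_add_neg]
    refine (nrm_add_le _ _).trans ?_
    rw [nrm_neg, nrm_neg, nrm_X, nrm_X]; norm_num
  · change nrm 0 ≤ 7
    rw [nrm_zero]; norm_num
  · change nrm 0 ≤ 7
    rw [nrm_zero]; norm_num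

lemma deg_dv (i : Fin 5) : (dv i).totalDegree ≤ 2 := by
  fin_cases i
  · change (X 1 : MvPolynomial (Fin 5) ℤ).totalDegree ≤ 2
    rw [totalDegree_X]; norm_num
  · change (C 6 * X 0 ^ 2 - X 3 : MvPolynomial (Fin 5) ℤ).totalDegree ≤ 2
    refine (totalDegree_sub _ _).trans (max_le ?_ ?_)
    · refine (totalDegree_mul _ _).trans ?_
      rw [totalDegree_C, zero_add]
      refine (totalDegree_pow _ _).trans ?_
      rw [totalDegree_X]
    · rw [totalDegree_X]; norm_num
  · change (-X 0 - X 4 : MvPolynomial (Fin 5) ℤ).totalDegree ≤ 2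
    refine (totalDegree_sub _ _).trans (max_le ?_ ?_)
    · rw [totalDegree_neg, totalDegree_X]; norm_num
    · rw [totalDegree_X]; norm_num
  · change (0 : MvPolynomial (Fin 5) ℤ).totalDegree ≤ 2
    simp
  · change (0 : MvPolynomial (Fin 5) ℤ).totalDegree ≤ 2
    simp

lemma DD_monomial (s : Fin 5 →₀ ℕ) (r : ℤ) :
    DD (monomial s r) = r • ∑ i, monomial (s - Finsupp.single i 1) ((s i : ℕ) : ℤ) * dv i := by
  rw [DD, mkDerivation_monomial, Finsupp.sum_fintype _ _ (by simp)]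
  simp [smul_eq_mul]

lemma nrm_DD_monomial (s : Fin 5 →₀ ℕ) (r : ℤ) :
    nrm (DD (monomial s r)) ≤ |(r : ℝ)| * (7 * s.degree) := by
  rw [DD_monomial, smul_eq_C_mul]
  refine (nrm_mul_le _ _).trans ?_
  rw [nrm_C]
  gcongr
  refine (nrm_sum_le _ _).trans ?_
  calc ∑ i, nrm (monomial (s - Finsupp.single i 1) ((s i : ℕ) : ℤ) * dv i)
      ≤ ∑ i, (s i : ℝ) * 7 := by
        refine sum_le_sum fun i _ ↦ (nrm_monomial_mul _ _ _).trans ?_
        have := nrm_dv i
        have h0 : (0 : ℝ) ≤ s i := by positivity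
        simp only [Int.cast_natCast, abs_of_nonneg h0]
        gcongr
    _ = 7 * s.degree := by
        rw [← sum_mul, Finsupp.degree_eq_sum]
        push_cast
        ring

lemma nrm_DD_le (P : MvPolynomial (Fin 5) ℤ) : nrm (DD P) ≤ 7 * P.totalDegree * nrm P := by
  conv_lhs => rw [P.as_sum, map_sum]
  refine (nrm_sum_le _ _).trans ?_
  rw [nrm, mul_sum]
  refine sum_le_sum fun m hm ↦ (nrm_DD_monomial _ _).trans ?_
  have h1 : m.degree ≤ P.totalDegree := by
    have := le_totalDegree hm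
    rw [Finsupp.sum_fintype _ _ (by simp)] at this
    rwa [Finsupp.degree_eq_sum]
  have h2 : (m.degree : ℝ) ≤ P.totalDegree := by exact_mod_cast h1
  have h3 := abs_nonneg ((coeff m P : ℤ) : ℝ)
  nlinarith

lemma deg_DD_monomial (s : Fin 5 →₀ ℕ) (r : ℤ) :
    (DD (monomial s r)).totalDegree ≤ s.degree + 1 := by
  rw [DD_monomial]
  refine (totalDegree_smul_le _ _).trans ?_
  refine totalDegree_finsetSum_le fun i _ ↦ ?_
  rcases Nat.eq_zero_or_pos (s i) with h | h
  · simp [h]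
  refine (totalDegree_mul _ _).trans ?_
  have h1 := deg_dv i
  have h2 : (monomial (s - Finsupp.single i 1) ((s i : ℕ) : ℤ)).totalDegree + 1 ≤ s.degree := by
    rw [totalDegree_monomial _ (by exact_mod_cast h.ne')]
    have h3 : (s - Finsupp.single i 1) + Finsupp.single i 1 = s :=
      tsub_add_cancel_of_le (by
        rw [Finsupp.single_le_iff]; exact h)
    have h4 := congrArg Finsupp.degree h3
    rw [map_add, Finsupp.degree_single] at h4
    rw [Finsupp.degree_eq_sum, ← Finsupp.sum_fintype (f := s - Finsupp.single i 1) (fun _ e ↦ e) (by simp)] at h4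
    exact h4.le
  omega

lemma deg_DD_le (P : MvPolynomial (Fin 5) ℤ) : (DD P).totalDegree ≤ P.totalDegree + 1 := by
  conv_lhs => rw [P.as_sum, map_sum]
  refine totalDegree_finsetSum_le fun m hm ↦ (deg_DD_monomial _ _).trans ?_
  have h1 : m.degree ≤ P.totalDegree := by
    have := le_totalDegree hm
    rw [Finsupp.sum_fintype _ _ (by simp)] at this
    rwa [Finsupp.degree_eq_sum]
  omega

lemma deg_iter (P : MvPolynomial (Fin 5) ℤ) (t : ℕ) :
    (DD^[t] P).totalDegree ≤ P.totalDegree + t := by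
  induction t with
  | zero => simp
  | succ t ih =>
    rw [Function.iterate_succ_apply']
    have := deg_DD_le (DD^[t] P)
    omega

lemma nrm_iter (P : MvPolynomial (Fin 5) ℤ) (t : ℕ) :
    nrm (DD^[t] P) ≤ (7 * (P.totalDegree + t)) ^ t * nrm P := by
  have key : ∀ s, s ≤ t → nrm (DD^[s] P) ≤ (7 * (P.totalDegree + t : ℝ)) ^ s * nrm P := by
    intro s
    induction s with
    | zero => intro _; simp
    | succ s ih =>
      intro hs
      rw [Function.iterate_succ_apply']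
      refine (nrm_DD_le _).trans ?_
      have h1 : ((DD^[s] P).totalDegree : ℝ) ≤ P.totalDegree + t := by
        have := deg_iter P s
        exact_mod_cast (show (DD^[s] P).totalDegree ≤ P.totalDegree + t by omega)
      have h2 := ih (by omega)
      have h3 := nrm_nonneg (DD^[s] P)
      calc 7 * ((DD^[s] P).totalDegree : ℝ) * nrm (DD^[s] P)
          ≤ 7 * (P.totalDegree + t : ℝ) * ((7 * (P.totalDegree + t : ℝ)) ^ s * nrm P) := by gcongr
        _ = _ := by rw [pow_succ]; ring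
  exact key t le_rfl

/-- The derivatives of the monomial `℘^a (ζ - κ u)^b`. -/
noncomputable def W (a b t : ℕ) : MvPolynomial (Fin 5) ℤ := DD^[t] (X 0 ^ a * X 2 ^ b)

lemma deg_X_pow (a b : ℕ) : (X 0 ^ a * X 2 ^ b : MvPolynomial (Fin 5) ℤ).totalDegree ≤ a + b := by
  refine (totalDegree_mul _ _).trans ?_
  have h1 := totalDegree_pow (X 0 : MvPolynomial (Fin 5) ℤ) a
  have h2 := totalDegree_pow (X 2 : MvPolynomial (Fin 5) ℤ) b
  rw [totalDegree_X, mul_one] at h1 h2
  omega

lemma deg_W (a b t : ℕ) : (W a b t).totalDegree ≤ a + b + t :=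
  (deg_iter _ _).trans (by have := deg_X_pow a b; omega)

lemma nrm_W (a b t : ℕ) : nrm (W a b t) ≤ (7 * (a + b + t)) ^ t := by
  refine (nrm_iter _ _).trans ?_
  have h1 : nrm (X 0 ^ a * X 2 ^ b : MvPolynomial (Fin 5) ℤ) ≤ 1 := by
    refine (nrm_mul_le _ _).trans ?_
    have h1 := nrm_pow_le (X 0 : MvPolynomial (Fin 5) ℤ) a
    have h2 := nrm_pow_le (X 2 : MvPolynomial (Fin 5) ℤ) b
    rw [nrm_X, one_pow] at h1 h2
    have h3 := nrm_nonneg (X 0 ^ a : MvPolynomial (Fin 5) ℤ)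
    have h4 := nrm_nonneg (X 2 ^ b : MvPolynomial (Fin 5) ℤ)
    nlinarith
  have h2 : ((X 0 ^ a * X 2 ^ b : MvPolynomial (Fin 5) ℤ).totalDegree : ℝ) ≤ a + b := by
    exact_mod_cast deg_X_pow a b
  have h3 := nrm_nonneg (X 0 ^ a * X 2 ^ b : MvPolynomial (Fin 5) ℤ)
  calc _ ≤ (7 * ((a + b : ℝ) + t)) ^ t * 1 := by gcongr
    _ = _ := by rw [mul_one]

lemma W_succ (a b t : ℕ) : W a b (t + 1) = DD (W a b t) := by
  rw [W, Function.iterate_succ_apply', W]

/-- The analytic meaning of the derivation. -/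
lemma hasDerivAt_aeval {f : Fin 5 → ℂ → ℂ} {lam : ℂ} {u : ℂ}
    (hf : ∀ i, HasDerivAt (f i) (lam * aeval (fun j ↦ f j u) (dv i)) u)
    (P : MvPolynomial (Fin 5) ℤ) :
    HasDerivAt (fun u ↦ aeval (fun j ↦ f j u) P) (lam * aeval (fun j ↦ f j u) (DD P)) u := by
  induction P using MvPolynomial.induction_on with
  | C a =>
    simp only [algHom_C, derivation_C, map_zero, mul_zero]
    exact hasDerivAt_const _ _
  | add p q hp hq =>
    simp only [map_add, mul_add]
    exact hp.add hq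
  | mul_X p i hp =>
    have h := hp.mul (hf i)
    have e : (fun u ↦ aeval (fun j ↦ f j u) (p * X i)) =
        (fun u ↦ aeval (fun j ↦ f j u) p) * f i := by
      ext u; simp
    have hD : DD (X i) = dv i := mkDerivation_X _ _ _
    have e2 : lam * aeval (fun j ↦ f j u) (DD (p * X i)) =
        lam * aeval (fun j ↦ f j u) (DD p) * f i u +
          aeval (fun j ↦ f j u) p * (lam * aeval (fun j ↦ f j u) (dv i)) := by
      rw [Derivation.leibniz, hD]
      simp only [smul_eq_mul, map_add, map_mul, aeval_X]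
      ring
    rw [e, e2]
    exact h

end H32.T3

end S_H32_T3_Der

section S_H32_T3_Siegel

namespace H32.T3

open MvPolynomial Finset Height NumberField

lemma norm_le_mulHeight₁ {K : Type*} [Field K] [NumberField K] (σ : K →+* ℂ) (y : K) :
    ‖σ y‖ ≤ mulHeight₁ y := by
  rcases eq_or_ne y 0 with rfl | hy
  · rw [map_zero, norm_zero]
    exact (zero_le_one).trans (one_le_mulHeight₁ _)
  have h := liouville σ (inv_ne_zero hy)
  rw [mulHeight₁_inv, map_inv₀, norm_inv] at h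
  have h0 : 0 < ‖σ y‖ := norm_pos_iff.mpr ((map_ne_zero σ).mpr hy)
  exact (inv_le_inv₀ (by linarith [one_le_mulHeight₁ y]) h0).mp h

/-- Box principle. -/
theorem pigeon {I J : Type*} [Fintype I] [Fintype J] (c : J → I → ℂ) {U ε : ℝ}
    (hc : ∀ j i, ‖c j i‖ ≤ U) (hε : 0 < ε) (B K : ℕ)
    (hK : Fintype.card I * B * U / ε ≤ K)
    (hcard : (2 * K + 1) ^ (2 * Fintype.card J) < (B + 1) ^ Fintype.card I) :
    ∃ p : I → ℤ, p ≠ 0 ∧ (∀ i, |p i| ≤ B) ∧ ∀ j, ‖∑ i, (p i : ℂ) * c j i‖ ≤ 2 * ε := by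
  classical
  set ell : (I → Fin (B + 1)) → J → ℂ := fun x j ↦ ∑ i, ((x i : ℕ) : ℂ) * c j i with hell
  have hb : ∀ x j, ‖ell x j‖ / ε ≤ K := by
    intro x j
    refine le_trans ?_ hK
    gcongr
    refine (norm_sum_le _ _).trans ?_
    calc ∑ i, ‖((x i : ℕ) : ℂ) * c j i‖ ≤ ∑ _i : I, (B : ℝ) * U := by
          refine sum_le_sum fun i _ ↦ ?_
          rw [norm_mul, Complex.norm_natCast]
          have h1 : ((x i : ℕ) : ℝ) ≤ B := by exact_mod_cast Nat.lt_succ_iff.mp (x i).2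
          have h2 := hc j i
          gcongr
      _ = _ := by simp [mul_assoc]
  have hfl : ∀ y : ℝ, |y| ≤ K → ⌊y⌋ ∈ Icc (-(K : ℤ)) K := by
    intro y hy
    rw [abs_le] at hy
    rw [mem_Icc]
    refine ⟨?_, ?_⟩
    · rw [Int.le_floor]; push_cast; exact hy.1
    · have : (⌊y⌋ : ℝ) ≤ K := (Int.floor_le y).trans hy.2
      exact_mod_cast this
  have hre : ∀ x j, |(ell x j).re / ε| ≤ K := fun x j ↦ by
    rw [abs_div, abs_of_pos hε]
    exact (div_le_div_of_nonneg_right (Complex.abs_re_le_norm _) hε.le).trans (hb x j)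
  have him : ∀ x j, |(ell x j).im / ε| ≤ K := fun x j ↦ by
    rw [abs_div, abs_of_pos hε]
    exact (div_le_div_of_nonneg_right (Complex.abs_im_le_norm _) hε.le).trans (hb x j)
  set f : (I → Fin (B + 1)) → (J → (Icc (-(K : ℤ)) K) × (Icc (-(K : ℤ)) K)) := fun x j ↦
    (⟨⌊(ell x j).re / ε⌋, hfl _ (hre x j)⟩, ⟨⌊(ell x j).im / ε⌋, hfl _ (him x j)⟩) with hf
  have hcd : Fintype.card (J → (Icc (-(K : ℤ)) K) × (Icc (-(K : ℤ)) K)) <
      Fintype.card (I → Fin (B + 1)) := by
    rw [Fintype.card_fun, Fintype.card_fun, Fintype.card_prod, Fintype.card_coe, Int.card_Icc,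
      Fintype.card_fin]
    have e : (K + 1 - -(K : ℤ)).toNat = 2 * K + 1 := by omega
    rw [e, ← pow_two, ← pow_mul]
    exact hcard
  obtain ⟨x, y, hxy, hfxy⟩ := Fintype.exists_ne_map_eq_of_card_lt f hcd
  have hfloor : ∀ a b : ℝ, ⌊a / ε⌋ = ⌊b / ε⌋ → |a - b| ≤ ε := by
    intro a b hab
    have h1 := Int.abs_sub_lt_one_of_floor_eq_floor hab
    rw [← sub_div, abs_div, abs_of_pos hε, div_lt_one hε] at h1
    exact h1.le
  refine ⟨fun i ↦ (x i : ℤ) - (y i : ℤ), ?_, ?_, ?_⟩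
  · intro h
    apply hxy
    ext i
    have := congrFun h i
    simp only [Pi.zero_apply] at this
    omega
  · intro i
    have h1 := (x i).2
    have h2 := (y i).2
    change |((x i : ℕ) : ℤ) - ((y i : ℕ) : ℤ)| ≤ B
    rw [abs_le]
    constructor <;> omega
  · intro j
    have e : ∑ i, (((x i : ℤ) - (y i : ℤ) : ℤ) : ℂ) * c j i = ell x j - ell y j := by
      rw [hell]
      simp only
      rw [← sum_sub_distrib]
      refine sum_congr rfl fun i _ ↦ ?_
      push_cast
      ring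
    rw [e]
    have h1 := congrFun hfxy j
    rw [hf] at h1
    simp only [Prod.mk.injEq, Subtype.mk.injEq] at h1
    have h2 := hfloor _ _ h1.1
    have h3 := hfloor _ _ h1.2
    have h4 := Complex.norm_le_abs_re_add_abs_im (ell x j - ell y j)
    rw [Complex.sub_re, Complex.sub_im] at h4
    linarith

/-- The auxiliary polynomial and its derivatives. -/
noncomputable def PP {L : ℕ} (p : Fin L × Fin L → ℤ) (t : ℕ) : MvPolynomial (Fin 5) ℤ :=
  ∑ i, C (p i) * W (i.1 : ℕ) (i.2 : ℕ) t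

lemma DD_C_mul (c : ℤ) (P : MvPolynomial (Fin 5) ℤ) : DD (C c * P) = C c * DD P := by
  rw [Derivation.leibniz]
  have : DD (C c) = 0 := by
    rw [← algebraMap_eq]
    exact DD.map_algebraMap c
  rw [this, smul_zero, add_zero, smul_eq_mul]

lemma PP_succ {L : ℕ} (p : Fin L × Fin L → ℤ) (t : ℕ) : PP p (t + 1) = DD (PP p t) := by
  rw [PP, PP, map_sum]
  refine sum_congr rfl fun i _ ↦ ?_
  rw [DD_C_mul, W_succ]

lemma PP_zero {L : ℕ} (p : Fin L × Fin L → ℤ) :
    PP p 0 = ∑ i, C (p i) * (X 0 ^ (i.1 : ℕ) * X 2 ^ (i.2 : ℕ)) := rfl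

lemma deg_PP {L : ℕ} (p : Fin L × Fin L → ℤ) (t : ℕ) : (PP p t).totalDegree ≤ 2 * L + t := by
  refine totalDegree_finsetSum_le fun i _ ↦ (totalDegree_mul _ _).trans ?_
  rw [totalDegree_C, zero_add]
  have := deg_W (i.1 : ℕ) (i.2 : ℕ) t
  have h1 := i.1.2
  have h2 := i.2.2
  omega

lemma nrm_W' {L : ℕ} (i : Fin L × Fin L) (t : ℕ) :
    nrm (W (i.1 : ℕ) (i.2 : ℕ) t) ≤ (7 * (2 * L + t : ℝ)) ^ t := by
  refine (nrm_W _ _ _).trans ?_
  have h1 : ((i.1 : ℕ) : ℝ) ≤ L := by exact_mod_cast i.1.2.le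
  have h2 : ((i.2 : ℕ) : ℝ) ≤ L := by exact_mod_cast i.2.2.le
  gcongr
  linarith

lemma nrm_PP {L : ℕ} {p : Fin L × Fin L → ℤ} {B : ℝ} (hB : ∀ i, |(p i : ℝ)| ≤ B) (t : ℕ) :
    nrm (PP p t) ≤ L ^ 2 * B * (7 * (2 * L + t : ℝ)) ^ t := by
  refine (nrm_sum_le _ _).trans ?_
  calc ∑ i, nrm (C (p i) * W (i.1 : ℕ) (i.2 : ℕ) t)
      ≤ ∑ _i : Fin L × Fin L, B * (7 * (2 * L + t : ℝ)) ^ t := by
        refine sum_le_sum fun i _ ↦ (nrm_mul_le _ _).trans ?_
        rw [nrm_C]
        have h1 := hB i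
        have h2 := nrm_W' i t
        have h3 := nrm_nonneg (W (i.1 : ℕ) (i.2 : ℕ) t)
        have h4 : 0 ≤ B := (abs_nonneg _).trans h1
        gcongr
    _ = _ := by
      simp only [sum_const, card_univ, Fintype.card_prod, Fintype.card_fin, nsmul_eq_mul]
      push_cast
      ring

section

variable {K : Type*} [Field K] [NumberField K]

lemma height_value {x : Fin 5 → K} {Λ : ℕ} (hΛ : totalWeight K ≤ Λ)
    (hx : ∀ i, mulHeight₁ (x i) ≤ Real.exp Λ) {P : MvPolynomial (Fin 5) ℤ} {n : ℕ} {B : ℝ}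
    (hB : 1 ≤ B) (hP : nrm P ≤ B) (hn : P.totalDegree ≤ n) :
    mulHeight₁ (aeval x P) ≤ B ^ Λ * Real.exp (5 * Λ * n) := by
  have h := mulHeight₁_aeval_le x P (d := fun _ ↦ n) ?_ hB hP
  · refine h.trans ?_
    have h1 : ∏ i, mulHeight₁ (x i) ^ n ≤ ∏ _i : Fin 5, Real.exp Λ ^ n := by
      refine prod_le_prod (fun i _ ↦ by positivity) fun i _ ↦ ?_
      have := hx i
      gcongr
    have h2 : ∏ _i : Fin 5, Real.exp Λ ^ n = Real.exp (5 * Λ * n) := by
      simp only [prod_const, card_univ, Fintype.card_fin]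
      rw [← pow_mul, ← Real.exp_nat_mul]
      congr 1
      push_cast
      ring
    rw [← h2]
    have h3 : B ^ totalWeight K ≤ B ^ Λ := pow_le_pow_right₀ hB hΛ
    gcongr
  · intro m hm i
    have h1 := le_totalDegree hm
    have h2 : m i ≤ m.sum fun _ e ↦ e := by
      rw [Finsupp.sum_fintype _ _ (by simp)]
      exact single_le_sum (f := fun i ↦ m i) (fun _ _ ↦ Nat.zero_le _) (mem_univ i)
    omega

/-- Construction of the auxiliary polynomial. -/
theorem exists_aux (σ : K →+* ℂ) {x : Fin 5 → K} {Λ L T B : ℕ} (hΛ1 : 1 ≤ Λ)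
    (hΛ : totalWeight K ≤ Λ) (hx : ∀ i, mulHeight₁ (x i) ≤ Real.exp Λ) (hL : 1 ≤ L) (hT : 1 ≤ T)
    (hLT : 12 * Λ * T ≤ L ^ 2)
    (hB : Real.log (L ^ 2 * (7 * (2 * L + T : ℝ)) ^ T) + 3 * (2 * L + T) + 1 ≤ Real.log B) :
    ∃ p : Fin L × Fin L → ℤ, p ≠ 0 ∧ (∀ i, |p i| ≤ B) ∧ ∀ t < T, aeval x (PP p t) = 0 := by
  have hLr : (1 : ℝ) ≤ L := by exact_mod_cast hL
  have hTr : (1 : ℝ) ≤ T := by exact_mod_cast hT
  have hΛr : (1 : ℝ) ≤ Λ := by exact_mod_cast hΛ1
  set U0 : ℝ := (7 * (2 * L + T : ℝ)) ^ T with hU0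
  have hU01 : 1 ≤ U0 := one_le_pow₀ (by linarith)
  have hlogpos : 0 ≤ Real.log (L ^ 2 * U0) := Real.log_nonneg (by nlinarith)
  have hlogB : 0 < Real.log B := by linarith
  have hB1 : (1 : ℝ) < B := by
    by_contra hcon
    push Not at hcon
    have := Real.log_nonpos (Nat.cast_nonneg B) hcon
    linarith
  set n : ℝ := 2 * L + T with hn
  have hn1 : 1 ≤ n := by rw [hn]; linarith
  set U : ℝ := U0 ^ Λ * Real.exp (5 * Λ * n) with hU
  have hU1 : 1 ≤ U := by
    rw [hU]
    refine one_le_mul_of_one_le_of_one_le (one_le_pow₀ hU01) (Real.one_le_exp (by positivity))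
  set H : ℝ := (L ^ 2 * B * U0) ^ Λ * Real.exp (5 * Λ * n) with hH
  have hLBU : 1 ≤ L ^ 2 * B * U0 := by
    have : (1 : ℝ) ≤ L ^ 2 := one_le_pow₀ hLr
    exact one_le_mul_of_one_le_of_one_le (one_le_mul_of_one_le_of_one_le this hB1.le) hU01
  have hH1 : 1 ≤ H := by
    rw [hH]
    refine one_le_mul_of_one_le_of_one_le (one_le_pow₀ hLBU) (Real.one_le_exp (by positivity))
  set ε : ℝ := (4 * H)⁻¹ with hε
  have hε0 : 0 < ε := by rw [hε]; positivity
  set Q : ℝ := (L ^ 2 : ℝ) * B * U / ε with hQ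
  have hQ' : Q = L ^ 2 * B * U * (4 * H) := by rw [hQ, hε, div_inv_eq_mul]
  have hQ1 : 1 ≤ Q := by
    rw [hQ']
    have h1 : (1 : ℝ) ≤ L ^ 2 * B := one_le_mul_of_one_le_of_one_le (one_le_pow₀ hLr) hB1.le
    refine one_le_mul_of_one_le_of_one_le (one_le_mul_of_one_le_of_one_le h1 hU1) (by linarith)
  -- the values of the derivatives
  have hW : ∀ (i : Fin L × Fin L) (t : ℕ), t < T →
      ‖σ (aeval x (W (i.1 : ℕ) (i.2 : ℕ) t))‖ ≤ U := by
    intro i t ht
    refine (norm_le_mulHeight₁ _ _).trans ?_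
    have h1 := height_value hΛ hx (P := W (i.1 : ℕ) (i.2 : ℕ) t) (n := 2 * L + T) hU01 ?_ ?_
    · refine h1.trans ?_
      rw [hU, hn]; push_cast; exact le_rfl
    · refine (nrm_W' i t).trans ?_
      have ht' : (t : ℝ) ≤ T := by exact_mod_cast ht.le
      calc (7 * (2 * L + t : ℝ)) ^ t ≤ (7 * (2 * L + T : ℝ)) ^ t := by gcongr
        _ ≤ (7 * (2 * L + T : ℝ)) ^ T := pow_le_pow_right₀ (by linarith) ht.le
    · have := deg_W (i.1 : ℕ) (i.2 : ℕ) t
      have h1 := i.1.2
      have h2 := i.2.2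
      omega
  have hKQ : (Fintype.card (Fin L × Fin L) : ℝ) * B * U / ε ≤ (⌈Q⌉₊ : ℕ) := by
    refine le_trans (le_of_eq ?_) (Nat.le_ceil Q)
    rw [hQ]
    simp only [Fintype.card_prod, Fintype.card_fin]
    push_cast
    ring
  have hcardQ : (2 * ⌈Q⌉₊ + 1) ^ (2 * Fintype.card (Fin T)) <
      (B + 1) ^ Fintype.card (Fin L × Fin L) := by
    -- the cardinality inequality
    simp only [Fintype.card_prod, Fintype.card_fin]
    have h5 : ((2 * ⌈Q⌉₊ + 1 : ℕ) : ℝ) ≤ 5 * Q := by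
      have := Nat.ceil_lt_add_one (a := Q) (by linarith)
      push_cast
      linarith
    have hlog : 2 * (T : ℝ) * Real.log (5 * Q) < (L : ℝ) ^ 2 * Real.log (B + 1) := by
      have e1 : Real.log (5 * Q) = Real.log 20 + Real.log (L ^ 2 * U0) + Real.log B - Real.log U0 +
          (Λ * Real.log U0 + 5 * Λ * n) +
          (Λ * (Real.log (L ^ 2 * U0) + Real.log B) + 5 * Λ * n) := by
        have h20 : Real.log 20 = Real.log 5 + Real.log 4 := by
          rw [← Real.log_mul (by norm_num) (by norm_num)]; norm_num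
        have hLpos : (L : ℝ) ^ 2 ≠ 0 := by positivity
        have hBpos : (B : ℝ) ≠ 0 := by positivity
        have hUpos : U ≠ 0 := by positivity
        have hHpos : H ≠ 0 := by positivity
        have hU0pos : U0 ≠ 0 := by positivity
        have l1 : Real.log (5 * Q) = Real.log 5 + Real.log Q :=
          Real.log_mul (by norm_num) (by positivity)
        have lQ : Real.log Q = Real.log (L ^ 2) + Real.log B + Real.log U +
            (Real.log 4 + Real.log H) := by
          rw [hQ', Real.log_mul (by positivity) (by positivity),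
            Real.log_mul (by positivity) hUpos, Real.log_mul hLpos hBpos,
            Real.log_mul (by norm_num) hHpos]
        have lU : Real.log U = Λ * Real.log U0 + 5 * Λ * n := by
          rw [hU, Real.log_mul (by positivity) (by positivity), Real.log_exp, Real.log_pow]
        have lH : Real.log H = Λ * (Real.log (L ^ 2) + Real.log B + Real.log U0) + 5 * Λ * n := by
          rw [hH, Real.log_mul (by positivity) (by positivity), Real.log_exp,
            Real.log_pow (L ^ 2 * B * U0 : ℝ) Λ,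
            Real.log_mul (by positivity) hU0pos, Real.log_mul hLpos hBpos]
        have lLU : Real.log (L ^ 2 * U0) = Real.log (L ^ 2) + Real.log U0 :=
          Real.log_mul hLpos hU0pos
        rw [l1, lQ, lU, lH, lLU, h20]
        ring
      have h20 : Real.log 20 ≤ 3 := by
        rw [show (20 : ℝ) = Real.exp (Real.log 20) by rw [Real.exp_log]; norm_num, Real.log_exp]
        rw [Real.log_le_iff_le_exp (by norm_num)]
        have h1 := Real.exp_one_gt_d9
        have h2 : Real.exp 3 = Real.exp 1 ^ 3 := by rw [← Real.exp_nat_mul]; norm_num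
        rw [h2]
        calc (20 : ℝ) ≤ 2.7182818283 ^ 3 := by norm_num
          _ ≤ _ := by gcongr
      have hlU0 : 0 ≤ Real.log U0 := Real.log_nonneg hU01
      have hlL : Real.log U0 ≤ Real.log (L ^ 2 * U0) := by
        apply Real.log_le_log (by positivity)
        nlinarith [one_le_pow₀ (n := 2) hLr]
      set a := Real.log (L ^ 2 * U0) with ha
      set b := Real.log (B : ℝ) with hb
      have h6 : Real.log (5 * Q) ≤ Λ * (3 + 2 * b + 3 * a + 10 * n) := by
        rw [e1]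
        have h7 : Real.log 20 + a + b - Real.log U0 ≤ Λ * (3 + a + b) := by
          nlinarith
        have h8 : Λ * Real.log U0 ≤ Λ * a := by gcongr
        nlinarith
      have h9 : b ≤ Real.log (B + 1) := Real.log_le_log (by linarith) (by linarith)
      have hLT' : 12 * (Λ : ℝ) * T ≤ L ^ 2 := by exact_mod_cast hLT
      have h10 : 3 + 2 * b + 3 * a + 10 * n < 6 * b := by nlinarith
      calc 2 * (T : ℝ) * Real.log (5 * Q) ≤ 2 * T * (Λ * (3 + 2 * b + 3 * a + 10 * n)) := by gcongr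
        _ < 2 * T * (Λ * (6 * b)) := by gcongr
        _ = 12 * Λ * T * b := by ring
        _ ≤ L ^ 2 * b := by gcongr
        _ ≤ _ := by gcongr
    have h7 : ((2 * ⌈Q⌉₊ + 1 : ℕ) : ℝ) ^ (2 * T) < ((B + 1 : ℕ) : ℝ) ^ (L * L) := by
      calc ((2 * ⌈Q⌉₊ + 1 : ℕ) : ℝ) ^ (2 * T) ≤ (5 * Q) ^ (2 * T) := by gcongr
        _ = Real.exp (2 * T * Real.log (5 * Q)) := by
          rw [show (2 * T * Real.log (5 * Q) : ℝ) = ((2 * T : ℕ) : ℝ) * Real.log (5 * Q) by
            push_cast; ring, Real.exp_nat_mul, Real.exp_log (by positivity)]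
        _ < Real.exp (L ^ 2 * Real.log (B + 1)) := Real.exp_lt_exp.mpr hlog
        _ = _ := by
          rw [show (L ^ 2 * Real.log (B + 1) : ℝ) = ((L * L : ℕ) : ℝ) * Real.log (B + 1) by
            push_cast; ring, Real.exp_nat_mul, Real.exp_log (by positivity)]
          push_cast
          rfl
    exact_mod_cast h7
  obtain ⟨p, hp0, hpB, hp⟩ := pigeon (I := Fin L × Fin L) (J := Fin T)
    (fun j i ↦ σ (aeval x (W (i.1 : ℕ) (i.2 : ℕ) (j : ℕ)))) (U := U) (ε := ε)
    (fun j i ↦ hW i j j.2) hε0 B ⌈Q⌉₊ hKQ hcardQ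
  refine ⟨p, hp0, hpB, fun t ht ↦ ?_⟩
  by_contra hne
  have h1 := liouville σ hne
  have hpB' : ∀ i, |(p i : ℝ)| ≤ B := fun i ↦ by
    have := hpB i
    exact_mod_cast this
  have h2 : mulHeight₁ (aeval x (PP p t)) ≤ H := by
    have h3 := height_value hΛ hx (P := PP p t) (n := 2 * L + T) hLBU ?_ ?_
    · refine h3.trans ?_
      rw [hH, hn]; push_cast; exact le_rfl
    · refine (nrm_PP hpB' t).trans ?_
      have ht' : (t : ℝ) ≤ T := by exact_mod_cast ht.le
      gcongr
      calc (7 * (2 * L + t : ℝ)) ^ t ≤ (7 * (2 * L + T : ℝ)) ^ t := by gcongr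
        _ ≤ (7 * (2 * L + T : ℝ)) ^ T := pow_le_pow_right₀ (by linarith) ht.le
    · have := deg_PP p t
      omega
  have h3 : ‖σ (aeval x (PP p t))‖ ≤ 2 * ε := by
    have e : σ (aeval x (PP p t)) =
        ∑ i, (p i : ℂ) * σ (aeval x (W (i.1 : ℕ) (i.2 : ℕ) t)) := by
      rw [PP, map_sum, map_sum]
      refine sum_congr rfl fun i _ ↦ ?_
      rw [map_mul, map_mul]
      congr 1
      rw [algHom_C]
      simp
    rw [e]
    exact hp ⟨t, ht⟩
  have h4 : 2 * ε = H⁻¹ / 2 := by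
    rw [hε, mul_inv]; ring
  have h5 : H⁻¹ ≤ (mulHeight₁ (aeval x (PP p t)))⁻¹ := by
    apply inv_anti₀ _ h2
    linarith [one_le_mulHeight₁ (aeval x (PP p t))]
  have h6 : 0 < H⁻¹ := by positivity
  linarith

end

end H32.T3

end S_H32_T3_Siegel
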