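import Mathlib
import Pool.Agent.H32.AKM.P01
import Pool.Agent.H32.AKM.P04

/-! Modular Schanuel with derivatives for points algebraic over a field with good approximations, part 5: this file joins several modules to save build time. -/

section S_H22_U2_Gro

set_option autoImplicit false

namespace U2

open Complex Finset

theorem Gro_per {z : ℂ} (hz : 0 < z.im) (g : ℂ → ℝ) (hg : Continuous g)
    (h1 : ∀ s, g (s + 1) = g s) (h2 : ∀ s, g (s + z) = g s) :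
    ∃ C : ℕ, 1 ≤ C ∧ ∀ s, g s ≤ C := by
  obtain ⟨C, hC⟩ := (isCompact_closedBall (0:ℂ) (1 + z.im)).exists_bound_of_continuousOn
    hg.continuousOn
  have p1 : Function.Periodic g (1 : ℂ) := h1
  have p2 : Function.Periodic g z := h2
  refine ⟨⌈C⌉₊ + 1, by omega, fun s => ?_⟩
  have key : ∀ s : ℂ, 0 ≤ s.im → s.im ≤ z.im → 0 ≤ s.re → s.re ≤ 1 → g s ≤ C := by
    intro s a1 a2 a3 a4
    refine (le_abs_self _).trans (hC s ?_)
    rw [mem_closedBall_zero_iff]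
    refine (Complex.norm_le_abs_re_add_abs_im s).trans ?_
    rw [abs_of_nonneg a1, abs_of_nonneg a3]
    linarith
  have e1 : ∀ (n : ℤ) (s : ℂ), g (s - n * z) = g s := fun n s => p2.sub_int_mul_eq n
  have e2 : ∀ (n : ℤ) (s : ℂ), g (s - n) = g s := fun n s => by
    have := p1.sub_int_mul_eq (x := s) n
    rwa [mul_one] at this
  set s' : ℂ := s - (⌊s.im / z.im⌋ : ℤ) * z with hs'
  set s'' : ℂ := s' - (⌊s'.re⌋ : ℤ) with hs''
  have e3 : g s'' = g s := by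
    rw [hs'', e2, hs', e1]
  have i1 : s''.im = s.im - ⌊s.im / z.im⌋ * z.im := by
    rw [hs'', hs']
    simp
  have i2 : s''.re = s'.re - ⌊s'.re⌋ := by
    rw [hs'']
    simp
  have f1 := Int.floor_le (s.im / z.im)
  have f2 := Int.lt_floor_add_one (s.im / z.im)
  rw [le_div_iff₀ hz] at f1
  rw [div_lt_iff₀ hz] at f2
  have f3 := Int.floor_le s'.re
  have f4 := Int.lt_floor_add_one s'.re
  have h := key s'' (by rw [i1]; linarith) (by rw [i1]; linarith) (by rw [i2]; linarith)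
    (by rw [i2]; linarith)
  rw [e3] at h
  have h5 := Nat.le_ceil C
  push_cast
  linarith

theorem Gro_th {z : ℂ} (hz : 0 < z.im) (f : ℂ → ℂ) (c : ℝ) (hf : Continuous f)
    (h1 : ∀ s, f (s + 1) = f s)
    (h2 : ∀ s, ‖f (s + z)‖ = Real.exp (c * (Real.pi * z.im + 2 * Real.pi * s.im)) * ‖f s‖) :
    ∃ C : ℕ, 1 ≤ C ∧ ∀ s, ‖f s‖ ≤ C * Real.exp (c * (Real.pi / z.im * s.im ^ 2)) := by
  obtain ⟨C, hC1, hC⟩ := Gro_per hz
    (fun s => ‖f s‖ * Real.exp (-(c * (Real.pi / z.im * s.im ^ 2)))) (by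
      refine hf.norm.mul (Real.continuous_exp.comp ?_)
      fun_prop) (by
      intro s
      simp only [h1, Complex.add_im, Complex.one_im, add_zero]) (by
      intro s
      simp only [h2, Complex.add_im]
      rw [mul_assoc, mul_comm ‖f s‖, ← mul_assoc, ← Real.exp_add, mul_comm]
      congr 2
      field_simp
      ring)
  refine ⟨C, hC1, fun s => ?_⟩
  have h := hC s
  rw [Real.exp_neg, ← div_eq_mul_inv, div_le_iff₀ (Real.exp_pos _)] at h
  exact h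

variable {z : ℂ} (b : CZ.BaseFn z)

theorem Gro_base (hz : 0 < z.im) : ∃ C : ℕ, 1 ≤ C ∧ ∀ s : ℂ,
    ‖b.A s‖ ≤ C * Real.exp (Real.pi / z.im * s.im ^ 2) ∧
    ‖b.B s‖ ≤ C * Real.exp (2 * (Real.pi / z.im * s.im ^ 2)) := by
  have n1 : ∀ s : ℂ, (-(Real.pi * I * z) - 2 * Real.pi * I * s).re
      = Real.pi * z.im + 2 * Real.pi * s.im := by
    intro s
    simp
  obtain ⟨C1, h11, h12⟩ := Gro_th hz b.A 1 b.dA.continuous b.A1 (by
    intro s
    rw [b.Az, norm_neg, norm_mul, Complex.norm_exp, n1, one_mul])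
  obtain ⟨C2, h21, h22⟩ := Gro_th hz b.B 2 b.dB.continuous b.B1 (by
    intro s
    rw [b.Bz, norm_mul, Complex.norm_exp]
    have : (2 * (-(Real.pi * I * z) - 2 * Real.pi * I * s)).re
        = 2 * (Real.pi * z.im + 2 * Real.pi * s.im) := by
      rw [← n1]
      have h2 : (2 : ℂ) = ((2 : ℝ) : ℂ) := by norm_num
      rw [h2, Complex.re_ofReal_mul]
    rw [this])
  have hc1 : (1 : ℝ) ≤ C1 := by exact_mod_cast h11
  have hc2 : (1 : ℝ) ≤ C2 := by exact_mod_cast h21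
  refine ⟨C1 * C2, Nat.mul_le_mul h11 h21, fun s => ⟨?_, ?_⟩⟩
  · refine (h12 s).trans ?_
    rw [one_mul]
    push_cast
    gcongr
    nlinarith
  · refine (h22 s).trans ?_
    push_cast
    gcongr
    nlinarith

theorem HH_bd (hz : 0 < z.im) : ∃ C : ℕ, 1 ≤ C ∧ ∀ D i : ℕ, i ≤ D → ∀ s : ℂ,
    ‖HH b D i s‖ ≤ (C : ℝ) ^ D * Real.exp (Real.pi * ((2 * D : ℕ) : ℝ) / z.im * s.im ^ 2) := by
  obtain ⟨C, hC1, hC⟩ := Gro_base b hz
  have hc : (1 : ℝ) ≤ C := by exact_mod_cast hC1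
  refine ⟨C ^ 2, Nat.one_le_pow _ _ hC1, fun D i hi s => ?_⟩
  obtain ⟨hA, hB⟩ := hC s
  obtain ⟨j, rfl⟩ := Nat.exists_eq_add_of_le hi
  have hij : i + j - i = j := by omega
  unfold HH
  rw [norm_mul, norm_pow, norm_pow, hij]
  have e1 : ‖b.A s‖ ^ (2 * j) ≤ (C * Real.exp (Real.pi / z.im * s.im ^ 2)) ^ (2 * j) := by
    gcongr
  have e2 : ‖b.B s‖ ^ i ≤ (C * Real.exp (2 * (Real.pi / z.im * s.im ^ 2))) ^ i := by
    gcongr
  refine (mul_le_mul e1 e2 (by positivity) (by positivity)).trans ?_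
  rw [mul_pow, mul_pow, ← Real.exp_nat_mul, ← Real.exp_nat_mul]
  have e3 : (C : ℝ) ^ (2 * j) * Real.exp (((2 * j : ℕ) : ℝ) * (Real.pi / z.im * s.im ^ 2))
      * ((C : ℝ) ^ i * Real.exp ((i : ℝ) * (2 * (Real.pi / z.im * s.im ^ 2))))
      = (C : ℝ) ^ (2 * j + i)
        * Real.exp (Real.pi * ((2 * (i + j) : ℕ) : ℝ) / z.im * s.im ^ 2) := by
    have e4 : Real.pi * ((2 * (i + j) : ℕ) : ℝ) / z.im * s.im ^ 2
        = ((2 * j : ℕ) : ℝ) * (Real.pi / z.im * s.im ^ 2)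
          + (i : ℝ) * (2 * (Real.pi / z.im * s.im ^ 2)) := by
      push_cast
      ring
    rw [e4, Real.exp_add, pow_add]
    ring
  rw [e3]
  have e5 : (C : ℝ) ^ (2 * j + i) ≤ (((C ^ 2 : ℕ) : ℝ)) ^ (i + j) := by
    push_cast
    rw [← pow_mul]
    exact pow_le_pow_right₀ hc (by omega)
  gcongr

theorem Gro_im1 {D : ℕ} (hD : 1 ≤ D) (t : ℂ) :
    (t * v1 D).im = -(t.re / (2 * Real.pi * (2 * D))) := by
  have hD' : (D : ℂ) ≠ 0 := by exact_mod_cast (by omega : D ≠ 0)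
  have hp : (Real.pi : ℂ) ≠ 0 := by exact_mod_cast Real.pi_ne_zero
  have h : t * v1 D = (((1 / (2 * Real.pi * (2 * D)) : ℝ)) : ℂ) * (-(I * t)) := by
    unfold v1
    push_cast
    field_simp
    rw [Complex.I_sq]
    ring
  rw [h, Complex.im_ofReal_mul]
  simp
  ring

theorem Gro_im2 {D : ℕ} (hD : 1 ≤ D) (t : ℂ) :
    (t * v2 z D).im = -((t * z).re / (2 * Real.pi * (2 * D))) := by
  have h : t * v2 z D = (t * z) * v1 D := by
    unfold v1 v2
    ring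
  rw [h, Gro_im1 hD]

theorem Psi_bd (hz : 0 < z.im) : ∃ C : ℕ, 1 ≤ C ∧ ∀ D i1 i2 : ℕ, 1 ≤ D → i1 ≤ D → i2 ≤ D →
    ∀ x1 x2 t : ℂ, Nw z (2 * D) (fun y1 y2 ↦ Psi b D i1 i2 y1 y2 t) x1 x2 ≤
      (C : ℝ) ^ D * Real.exp (‖t‖ * |bet z x1 x2| + C * ‖t‖ ^ 2) := by
  obtain ⟨C, hC1, hC⟩ := HH_bd b hz
  have hc : (1 : ℝ) ≤ C := by exact_mod_cast hC1
  set C3 : ℕ := ⌈(1 + ‖z‖ ^ 2) / (4 * Real.pi * z.im)⌉₊ with hC3
  have hC3' : (1 + ‖z‖ ^ 2) / (4 * Real.pi * z.im) ≤ C3 := Nat.le_ceil _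
  refine ⟨C ^ 2 + C3, by nlinarith, ?_⟩
  intro D i1 i2 hD h1 h2 x1 x2 t
  have hDr : (1 : ℝ) ≤ D := by exact_mod_cast hD
  have hpi := Real.pi_pos
  unfold Nw Psi
  rw [norm_mul, norm_mul, Complex.norm_exp]
  have b1 := hC D i1 h1 (x1 + t * v1 D)
  have b2 := hC D i2 h2 (x2 + t * v2 z D)
  have b3 : Real.exp (t * x2).re * ‖HH b D i1 (x1 + t * v1 D)‖ * ‖HH b D i2 (x2 + t * v2 z D)‖
      * Real.exp (-(Real.pi * ((2 * D : ℕ) : ℝ) / z.im * (x1.im ^ 2 + x2.im ^ 2)))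
      ≤ Real.exp (t * x2).re * ((C : ℝ) ^ D *
        Real.exp (Real.pi * ((2 * D : ℕ) : ℝ) / z.im * (x1 + t * v1 D).im ^ 2))
      * ((C : ℝ) ^ D * Real.exp (Real.pi * ((2 * D : ℕ) : ℝ) / z.im * (x2 + t * v2 z D).im ^ 2))
      * Real.exp (-(Real.pi * ((2 * D : ℕ) : ℝ) / z.im * (x1.im ^ 2 + x2.im ^ 2))) := by
    gcongr
  refine b3.trans ?_
  have b4 : Real.exp (t * x2).re * ((C : ℝ) ^ D *
        Real.exp (Real.pi * ((2 * D : ℕ) : ℝ) / z.im * (x1 + t * v1 D).im ^ 2))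
      * ((C : ℝ) ^ D * Real.exp (Real.pi * ((2 * D : ℕ) : ℝ) / z.im * (x2 + t * v2 z D).im ^ 2))
      * Real.exp (-(Real.pi * ((2 * D : ℕ) : ℝ) / z.im * (x1.im ^ 2 + x2.im ^ 2)))
      = ((C : ℝ) ^ 2) ^ D * Real.exp ((t * x2).re
        + Real.pi * ((2 * D : ℕ) : ℝ) / z.im * (x1 + t * v1 D).im ^ 2
        + Real.pi * ((2 * D : ℕ) : ℝ) / z.im * (x2 + t * v2 z D).im ^ 2
        - Real.pi * ((2 * D : ℕ) : ℝ) / z.im * (x1.im ^ 2 + x2.im ^ 2)) := by
    rw [sub_eq_add_neg, Real.exp_add, Real.exp_add, Real.exp_add, ← pow_mul, two_mul, pow_add]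
    ring
  rw [b4]
  have b5 : (t * x2).re
        + Real.pi * ((2 * D : ℕ) : ℝ) / z.im * (x1 + t * v1 D).im ^ 2
        + Real.pi * ((2 * D : ℕ) : ℝ) / z.im * (x2 + t * v2 z D).im ^ 2
        - Real.pi * ((2 * D : ℕ) : ℝ) / z.im * (x1.im ^ 2 + x2.im ^ 2)
      = t.re * bet z x1 x2 + (t.re ^ 2 + (t * z).re ^ 2) / (4 * Real.pi * (2 * D) * z.im) := by
    rw [Complex.add_im, Complex.add_im, Gro_im1 hD, Gro_im2 hD]
    unfold bet
    have hz' : z.im ≠ 0 := hz.ne'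
    have hD0 : (D : ℝ) ≠ 0 := by positivity
    simp only [Complex.mul_re]
    push_cast
    field_simp
    ring
  rw [b5]
  have c1 : t.re * bet z x1 x2 ≤ ‖t‖ * |bet z x1 x2| := by
    refine (le_abs_self _).trans ?_
    rw [abs_mul]
    gcongr
    exact Complex.abs_re_le_norm t
  have c2 : (t.re ^ 2 + (t * z).re ^ 2) / (4 * Real.pi * (2 * D) * z.im)
      ≤ (((C ^ 2 + C3 : ℕ) : ℝ)) * ‖t‖ ^ 2 := by
    have d1 : t.re ^ 2 ≤ ‖t‖ ^ 2 := by
      rw [← sq_abs t.re]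
      gcongr
      exact Complex.abs_re_le_norm t
    have d2 : (t * z).re ^ 2 ≤ ‖t‖ ^ 2 * ‖z‖ ^ 2 := by
      rw [← sq_abs (t * z).re, ← mul_pow, ← norm_mul]
      gcongr
      exact Complex.abs_re_le_norm _
    have d3 : (t.re ^ 2 + (t * z).re ^ 2) / (4 * Real.pi * (2 * D) * z.im)
        ≤ (‖t‖ ^ 2 * (1 + ‖z‖ ^ 2)) / (4 * Real.pi * z.im) := by
      have : 4 * Real.pi * z.im ≤ 4 * Real.pi * (2 * D) * z.im := by
        have hq : 0 < 4 * Real.pi * z.im := by positivity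
        nlinarith
      have hn : t.re ^ 2 + (t * z).re ^ 2 ≤ ‖t‖ ^ 2 * (1 + ‖z‖ ^ 2) := by linarith
      exact div_le_div₀ (by positivity) hn (by positivity) this
    refine d3.trans ?_
    have d4 : (‖t‖ ^ 2 * (1 + ‖z‖ ^ 2)) / (4 * Real.pi * z.im)
        = (1 + ‖z‖ ^ 2) / (4 * Real.pi * z.im) * ‖t‖ ^ 2 := by ring
    rw [d4]
    gcongr
    push_cast
    nlinarith
  have c3 : (C : ℝ) ^ 2 ≤ (((C ^ 2 + C3 : ℕ) : ℝ)) := by
    push_cast
    have : (0:ℝ) ≤ C3 := by positivity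
    linarith
  gcongr

theorem Gro_Psi_diff (D i1 i2 : ℕ) (x1 x2 : ℂ) :
    Differentiable ℂ fun t ↦ Psi b D i1 i2 x1 x2 t := by
  unfold Psi
  have h1 : Differentiable ℂ fun t : ℂ ↦ HH b D i1 (x1 + t * v1 D) :=
    (HH_diff b D i1).comp (by fun_prop)
  have h2 : Differentiable ℂ fun t : ℂ ↦ HH b D i2 (x2 + t * v2 z D) :=
    (HH_diff b D i2).comp (by fun_prop)
  have h3 : Differentiable ℂ fun t : ℂ ↦ exp (t * x2) := by fun_prop
  exact (h3.mul h1).mul h2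

theorem Phi_gr (hz : 0 < z.im) : ∃ C : ℕ, 1 ≤ C ∧ ∀ D i1 i2 k : ℕ, 1 ≤ D → i1 ≤ D → i2 ≤ D →
    ∀ x1 x2 : ℂ, Nw z (2 * D) (Phi b D i1 i2 k) x1 x2 ≤
      (C : ℝ) ^ (D + k) * ((k : ℝ) + 1 + |bet z x1 x2|) ^ k := by
  obtain ⟨C, hC1, hC⟩ := Psi_bd b hz
  have hc : (1 : ℝ) ≤ C := by exact_mod_cast hC1
  set C4 : ℕ := ⌈Real.exp (1 + C)⌉₊ with hC4
  have hC4' : Real.exp (1 + C) ≤ C4 := Nat.le_ceil _
  have hC41 : (1 : ℝ) ≤ C4 := by
    have : (1:ℝ) ≤ Real.exp (1 + C) := Real.one_le_exp (by positivity)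
    linarith
  have hC41' : 1 ≤ C4 := by exact_mod_cast hC41
  refine ⟨C * C4, Nat.mul_le_mul hC1 hC41', ?_⟩
  intro D i1 i2 k hD h1 h2 x1 x2
  set B : ℝ := |bet z x1 x2| with hB
  have hB0 : 0 ≤ B := abs_nonneg _
  set K : ℝ := (k : ℝ) + 1 with hK
  have hK1 : 1 ≤ K := by
    have : (0:ℝ) ≤ k := by positivity
    linarith
  have hsK : 1 ≤ Real.sqrt K := by
    rw [Real.one_le_sqrt]
    exact hK1
  have hsK2 : Real.sqrt K * Real.sqrt K = K := Real.mul_self_sqrt (by linarith)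
  set ρ : ℝ := K / (Real.sqrt K + B) with hρ
  have hden : 0 < Real.sqrt K + B := by linarith
  have hρ0 : 0 < ρ := by positivity
  have hρB : ρ * B ≤ K := by
    rw [hρ, div_mul_eq_mul_div, div_le_iff₀ hden]
    nlinarith
  have hρs : ρ ≤ Real.sqrt K := by
    rw [hρ, div_le_iff₀ hden]
    nlinarith
  have hρ2 : ρ ^ 2 ≤ K := by
    nlinarith
  set W : ℝ := Real.pi * ((2 * D : ℕ) : ℝ) / z.im * (x1.im ^ 2 + x2.im ^ 2) with hW
  have hsph : ∀ t ∈ Metric.sphere (0:ℂ) ρ, ‖Psi b D i1 i2 x1 x2 t‖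
      ≤ (C : ℝ) ^ D * Real.exp (K * (1 + C)) * Real.exp W := by
    intro t ht
    have ht' : ‖t‖ = ρ := by simpa using ht
    have h := hC D i1 i2 hD h1 h2 x1 x2 t
    unfold Nw at h
    rw [Real.exp_neg, ← div_eq_mul_inv, div_le_iff₀ (Real.exp_pos _)] at h
    refine h.trans ?_
    gcongr
    rw [ht', ← hB]
    nlinarith
  have hcau := Complex.norm_iteratedDeriv_le_of_forall_mem_sphere_norm_le k hρ0
    (Gro_Psi_diff b D i1 i2 x1 x2).diffContOnCl hsph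
  unfold Nw Phi
  rw [← hW, Real.exp_neg, ← div_eq_mul_inv, div_le_iff₀ (Real.exp_pos _)]
  refine hcau.trans ?_
  have hfac : (k.factorial : ℝ) ≤ K ^ k := by
    have h5 : k.factorial ≤ k ^ k := Nat.factorial_le_pow k
    have h6 : (k.factorial : ℝ) ≤ (k : ℝ) ^ k := by exact_mod_cast h5
    refine h6.trans ?_
    gcongr
    linarith
  have hq : (k.factorial : ℝ) / ρ ^ k ≤ (K + B) ^ k := by
    rw [div_le_iff₀ (by positivity), ← mul_pow]
    refine hfac.trans ?_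
    gcongr
    rw [hρ, mul_div_assoc', le_div_iff₀ hden]
    have hsK3 : Real.sqrt K ≤ K := by nlinarith
    have hK0 : 0 ≤ K := by linarith
    nlinarith [mul_le_mul_of_nonneg_left hsK3 hK0]
  have hexp : Real.exp (K * (1 + C)) ≤ (C4 : ℝ) ^ (D + k) := by
    have h7 : Real.exp (K * (1 + C)) = Real.exp (1 + C) ^ (k + 1) := by
      rw [← Real.exp_nat_mul]
      congr 1
      rw [hK]
      push_cast
      ring
    rw [h7]
    calc Real.exp (1 + C) ^ (k + 1) ≤ (C4 : ℝ) ^ (k + 1) := by gcongr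
      _ ≤ (C4 : ℝ) ^ (D + k) := pow_le_pow_right₀ hC41 (by omega)
  have hCD : (C : ℝ) ^ D ≤ (C : ℝ) ^ (D + k) := pow_le_pow_right₀ hc (by omega)
  calc (k.factorial : ℝ) * ((C : ℝ) ^ D * Real.exp (K * (1 + C)) * Real.exp W) / ρ ^ k
      = (k.factorial : ℝ) / ρ ^ k * ((C : ℝ) ^ D * Real.exp (K * (1 + C))) * Real.exp W := by
        ring
    _ ≤ (K + B) ^ k * ((C : ℝ) ^ (D + k) * (C4 : ℝ) ^ (D + k)) * Real.exp W := by
        gcongr
    _ = (((C * C4 : ℕ) : ℝ)) ^ (D + k) * (K + B) ^ k * Real.exp W := by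
        push_cast
        rw [mul_pow]
        ring

end U2

end S_H22_U2_Gro

section S_H22_U2_Ser

set_option autoImplicit false

namespace U2

open Complex Finset

variable {z : ℂ} (b : CZ.BaseFn z)

private theorem Ser_diff {h : ℂ → ℂ} (hh : Differentiable ℂ h) (j : ℕ) :
    Differentiable ℂ (iteratedDeriv j h) := by
  have h1 : ContDiff ℂ ⊤ h := hh.contDiff
  exact h1.differentiable_iteratedDeriv j (by exact_mod_cast WithTop.coe_lt_top _)

private theorem Ser_iter (h : ℂ → ℂ) (a j : ℕ) :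
    iteratedDeriv a (iteratedDeriv j h) = iteratedDeriv (a + j) h := by
  rw [iteratedDeriv_eq_iterate, iteratedDeriv_eq_iterate, iteratedDeriv_eq_iterate,
    Function.iterate_add_apply]

private theorem Ser_tay {h : ℂ → ℂ} (hh : Differentiable ℂ h) (j : ℕ) (x : ℂ) :
    HasSum (fun a : ℕ ↦ iteratedDeriv (a + j) h 0 / (a.factorial : ℂ) * x ^ a)
      (iteratedDeriv j h x) := by
  have h1 := hasSum_taylorSeries_of_entire (Ser_diff hh j) 0 x
  have h2 : (fun n : ℕ ↦ ((n.factorial : ℂ))⁻¹ • (x - 0) ^ n •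
      iteratedDeriv n (iteratedDeriv j h) 0) =
      fun a : ℕ ↦ iteratedDeriv (a + j) h 0 / (a.factorial : ℂ) * x ^ a := by
    funext a
    rw [Ser_iter, sub_zero, smul_eq_mul, smul_eq_mul, div_eq_mul_inv]
    ring
  rw [h2] at h1
  exact h1

/-- the shifted series -/
private theorem Ser_shift {h : ℂ → ℂ} (hh : Differentiable ℂ h) (l j : ℕ) (x : ℂ) :
    HasSum (fun c : ℕ ↦ if l ≤ c then
      iteratedDeriv (c - l + j) h 0 / ((c - l).factorial : ℂ) * x ^ c else 0)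
      (x ^ l * iteratedDeriv j h x) := by
  have h1 := (Ser_tay hh j x).mul_left (x ^ l)
  have hinj : Function.Injective (fun c : ℕ => c + l) := fun a b h => Nat.add_right_cancel h
  have h2 : HasSum ((fun c : ℕ ↦ if l ≤ c then
      iteratedDeriv (c - l + j) h 0 / ((c - l).factorial : ℂ) * x ^ c else 0) ∘
      (fun c : ℕ => c + l)) (x ^ l * iteratedDeriv j h x) := by
    have he : ((fun c : ℕ ↦ if l ≤ c then
      iteratedDeriv (c - l + j) h 0 / ((c - l).factorial : ℂ) * x ^ c else 0) ∘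
      (fun c : ℕ => c + l)) =
        fun c ↦ x ^ l * (iteratedDeriv (c + j) h 0 / (c.factorial : ℂ) * x ^ c) := by
      funext c
      show (if l ≤ c + l then
        iteratedDeriv (c + l - l + j) h 0 / ((c + l - l).factorial : ℂ) * x ^ (c + l) else 0) = _
      rw [if_pos (Nat.le_add_left l c), Nat.add_sub_cancel, pow_add]
      ring
    rw [he]
    exact h1
  refine (hinj.hasSum_iff ?_).1 h2
  intro c hc
  rw [if_neg]
  intro hlc
  exact hc ⟨c - l, Nat.sub_add_cancel hlc⟩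

private theorem Ser_comp {h : ℂ → ℂ} (hh : Differentiable ℂ h) (j : ℕ) (x v : ℂ) :
    iteratedDeriv j (fun t ↦ h (x + t * v)) 0 = v ^ j * iteratedDeriv j h x := by
  have h1 : (fun t : ℂ ↦ h (x + t * v)) = fun t ↦ (fun s ↦ h (x + s)) (v * t) := by
    funext t
    show _ = h (x + v * t)
    rw [mul_comm v t]
  have hc : ContDiff ℂ j (fun s ↦ h (x + s)) :=
    (hh.comp (differentiable_id.const_add x)).contDiff
  rw [h1, iteratedDeriv_comp_const_mul hc]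
  show v ^ j * iteratedDeriv j (fun s ↦ h (x + s)) (v * 0) = _
  rw [iteratedDeriv_comp_const_add]
  show v ^ j * iteratedDeriv j h (x + v * 0) = _
  rw [mul_zero, add_zero]

private theorem Ser_exp (j : ℕ) (x : ℂ) :
    iteratedDeriv j (fun t : ℂ ↦ exp (t * x)) 0 = x ^ j := by
  have h1 : (fun t : ℂ ↦ exp (t * x)) = fun t ↦ exp (x * t) := by
    funext t
    rw [mul_comm]
  rw [h1, iteratedDeriv_cexp_const_mul]
  simp

private theorem Ser_lei {f g : ℂ → ℂ} (hf : Differentiable ℂ f) (hg : Differentiable ℂ g) (k : ℕ) :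
    iteratedDeriv k (fun t ↦ f t * g t) 0 =
      ∑ p ∈ antidiagonal k, (k.choose p.1 : ℂ) * iteratedDeriv p.1 f 0 * iteratedDeriv p.2 g 0 := by
  have h1 := iteratedDeriv_fun_mul (n := k) (x := (0 : ℂ)) (f := f) (g := g)
    hf.contDiff.contDiffAt hg.contDiff.contDiffAt
  rw [h1, Finset.Nat.sum_antidiagonal_eq_sum_range_succ_mk]

private theorem Ser_P (D i1 i2 k : ℕ) (x1 x2 : ℂ) :
    Phi b D i1 i2 k x1 x2 = ∑ p ∈ antidiagonal k, ∑ q ∈ antidiagonal p.2,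
      ((k.choose p.1 : ℂ) * (p.2.choose q.1 : ℂ) * v1 D ^ p.1 * v2 z D ^ q.2) *
        (iteratedDeriv p.1 (HH b D i1) x1 * (x2 ^ q.1 * iteratedDeriv q.2 (HH b D i2) x2)) := by
  have hH1 := HH_diff b D i1
  have hH2 := HH_diff b D i2
  have hd1 : Differentiable ℂ (fun t : ℂ ↦ HH b D i1 (x1 + t * v1 D)) :=
    hH1.comp ((differentiable_id.mul_const _).const_add _)
  have hd2 : Differentiable ℂ (fun t : ℂ ↦ HH b D i2 (x2 + t * v2 z D)) :=
    hH2.comp ((differentiable_id.mul_const _).const_add _)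
  have hd0 : Differentiable ℂ (fun t : ℂ ↦ exp (t * x2)) :=
    (differentiable_id.mul_const _).cexp
  have hd3 : Differentiable ℂ (fun t : ℂ ↦ exp (t * x2) * HH b D i2 (x2 + t * v2 z D)) :=
    hd0.mul hd2
  have e1 : (fun t ↦ Psi b D i1 i2 x1 x2 t) = fun t ↦ HH b D i1 (x1 + t * v1 D) *
      (exp (t * x2) * HH b D i2 (x2 + t * v2 z D)) := by
    funext t
    unfold Psi
    ring
  unfold Phi
  rw [e1, Ser_lei hd1 hd3]
  refine Finset.sum_congr rfl fun p _ => ?_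
  rw [Ser_comp hH1, Ser_lei hd0 hd2 p.2, Finset.mul_sum]
  refine Finset.sum_congr rfl fun q _ => ?_
  rw [Ser_exp, Ser_comp hH2]
  ring

private theorem Ser_J (D i1 i2 k : ℕ) (x1 x2 : ℂ) (r : ℕ × ℕ) :
    jc b D i1 i2 k r.1 r.2 * x1 ^ r.1 * x2 ^ r.2 =
      ∑ p ∈ antidiagonal k, ∑ q ∈ antidiagonal p.2,
      ((k.choose p.1 : ℂ) * (p.2.choose q.1 : ℂ) * v1 D ^ p.1 * v2 z D ^ q.2) *
        ((iteratedDeriv (r.1 + p.1) (HH b D i1) 0 / (r.1.factorial : ℂ) * x1 ^ r.1) *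
          (if q.1 ≤ r.2 then
            iteratedDeriv (r.2 - q.1 + q.2) (HH b D i2) 0 / ((r.2 - q.1).factorial : ℂ) * x2 ^ r.2
            else 0)) := by
  unfold jc
  rw [mul_assoc, Finset.sum_mul]
  refine Finset.sum_congr rfl fun p _ => ?_
  rw [Finset.sum_mul]
  refine Finset.sum_congr rfl fun q _ => ?_
  by_cases hq : q.1 ≤ r.2
  · rw [if_pos hq, if_pos hq]
    ring
  · rw [if_neg hq, if_neg hq, zero_mul, mul_zero, mul_zero]

private theorem Ser_mul {f g : ℕ → ℂ} {s t : ℂ} (hf : HasSum f s) (hg : HasSum g t) :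
    HasSum (fun r : ℕ × ℕ ↦ f r.1 * g r.2) (s * t) :=
  hf.mul hg (summable_mul_of_summable_norm hf.summable.norm hg.summable.norm)

theorem Phi_ser (D i1 i2 k : ℕ) (x1 x2 : ℂ) :
    HasSum (fun p : ℕ × ℕ ↦ jc b D i1 i2 k p.1 p.2 * x1 ^ p.1 * x2 ^ p.2)
      (Phi b D i1 i2 k x1 x2) := by
  have e := funext (Ser_J b D i1 i2 k x1 x2)
  rw [Ser_P b, e]
  apply hasSum_sum
  intro p _
  apply hasSum_sum
  intro q _
  apply HasSum.mul_left
  have h1 := Ser_tay (HH_diff b D i1) p.1 x1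
  have h2 := Ser_shift (HH_diff b D i2) q.1 q.2 x2
  have h3 := Ser_mul h1 h2
  exact h3

end U2

end S_H22_U2_Ser

section S_H22_U2_Fdt

set_option autoImplicit false

namespace U2

open Complex Finset

variable {z : ℂ} (b : CZ.BaseFn z)

private theorem fdt_bound {C0 D Q : ℕ} (hC : 1 ≤ C0) (hD : 1 ≤ D) (hQ : 1 ≤ Q) {β : ℝ} (hβ : 0 ≤ β) :
    ((D : ℝ) + 1) * ((D : ℝ) + 1) * Q * ((C0 : ℝ) ^ (D + Q) * ((Q : ℝ) + 1 + β) ^ Q) ≤
      Real.exp (((3 + C0 : ℕ) : ℝ) * (D + Q) * Real.log (Q + 2) * (1 + Real.log (1 + β))) := by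
  have hD0 : (1 : ℝ) ≤ D := by exact_mod_cast hD
  have hQ0 : (1 : ℝ) ≤ Q := by exact_mod_cast hQ
  have hC0 : (1 : ℝ) ≤ C0 := by exact_mod_cast hC
  set Lq := Real.log ((Q : ℝ) + 2) with hLq
  set u := Real.log (1 + β) with hu
  have hLq1 : 1 ≤ Lq := by
    rw [hLq, Real.le_log_iff_exp_le (by linarith)]
    have := Real.exp_one_lt_d9
    linarith
  have hu0 : 0 ≤ u := Real.log_nonneg (by linarith)
  have e1 : (D : ℝ) + 1 ≤ Real.exp D := Real.add_one_le_exp _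
  have e2 : (Q : ℝ) ≤ Real.exp Q := by
    have := Real.add_one_le_exp (Q : ℝ)
    linarith
  have e3 : (C0 : ℝ) ^ (D + Q) = Real.exp (((D : ℝ) + Q) * Real.log C0) := by
    rw [← Real.rpow_natCast, Real.rpow_def_of_pos (by linarith)]
    push_cast
    ring_nf
  have e4 : ((Q : ℝ) + 1 + β) ^ Q ≤ Real.exp (Q * (Lq + u)) := by
    have h1 : (Q : ℝ) + 1 + β ≤ Real.exp (Lq + u) := by
      rw [Real.exp_add, hLq, hu, Real.exp_log (by linarith), Real.exp_log (by linarith)]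
      nlinarith [mul_nonneg (by linarith : (0 : ℝ) ≤ Q) hβ]
    calc ((Q : ℝ) + 1 + β) ^ Q ≤ Real.exp (Lq + u) ^ Q := pow_le_pow_left₀ (by linarith) h1 Q
      _ = Real.exp (Q * (Lq + u)) := (Real.exp_nat_mul _ _).symm
  have e5 : Real.log C0 ≤ C0 := by
    have := Real.log_le_sub_one_of_pos (show (0 : ℝ) < C0 by linarith)
    linarith
  have e6 : 0 ≤ Real.log C0 := Real.log_nonneg hC0
  calc ((D : ℝ) + 1) * ((D : ℝ) + 1) * Q * ((C0 : ℝ) ^ (D + Q) * ((Q : ℝ) + 1 + β) ^ Q)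
      ≤ Real.exp D * Real.exp D * Real.exp Q *
        (Real.exp (((D : ℝ) + Q) * Real.log C0) * Real.exp (Q * (Lq + u))) := by
        rw [e3]
        have h1 : (0 : ℝ) ≤ (D : ℝ) + 1 := by linarith
        have h2 : (0 : ℝ) ≤ (Q : ℝ) := by linarith
        have h3 : (0 : ℝ) ≤ ((Q : ℝ) + 1 + β) ^ Q := pow_nonneg (by linarith) _
        have := Real.exp_pos (D : ℝ)
        have := Real.exp_pos (Q : ℝ)
        have := Real.exp_pos (((D : ℝ) + Q) * Real.log C0)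
        gcongr
    _ = Real.exp ((D : ℝ) + D + Q + (((D : ℝ) + Q) * Real.log C0 + Q * (Lq + u))) := by
        rw [← Real.exp_add, ← Real.exp_add, ← Real.exp_add, ← Real.exp_add]
    _ ≤ Real.exp (((3 + C0 : ℕ) : ℝ) * (D + Q) * Lq * (1 + u)) := by
        rw [Real.exp_le_exp]
        push_cast
        have a1 : (1 : ℝ) ≤ Lq * (1 + u) := by nlinarith
        have a2 : (Lq + u) ≤ Lq * (1 + u) := by nlinarith
        have hDQ : (0 : ℝ) ≤ (D : ℝ) + Q := by linarith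
        have b1 : (D : ℝ) + D + Q ≤ 2 * ((D : ℝ) + Q) * (Lq * (1 + u)) := by
          have := mul_le_mul_of_nonneg_left a1 (by linarith : (0 : ℝ) ≤ 2 * ((D : ℝ) + Q))
          linarith
        have b2 : ((D : ℝ) + Q) * Real.log C0 ≤ C0 * ((D : ℝ) + Q) * (Lq * (1 + u)) := by
          have h1 : ((D : ℝ) + Q) * Real.log C0 ≤ C0 * ((D : ℝ) + Q) := by nlinarith
          have h2 := mul_le_mul_of_nonneg_left a1 (by positivity : (0 : ℝ) ≤ C0 * ((D : ℝ) + Q))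
          linarith
        have b3 : (Q : ℝ) * (Lq + u) ≤ ((D : ℝ) + Q) * (Lq * (1 + u)) := by
          have h1 := mul_le_mul_of_nonneg_left a2 (by linarith : (0 : ℝ) ≤ (Q : ℝ))
          have h2 : (Q : ℝ) * (Lq * (1 + u)) ≤ ((D : ℝ) + Q) * (Lq * (1 + u)) := by
            refine mul_le_mul_of_nonneg_right (by linarith) (by linarith)
          linarith
        nlinarith

theorem fdat (hz : 0 < z.im) : ∃ C : ℕ, 1 ≤ C ∧ ∀ D Q : ℕ, 1 ≤ D → 1 ≤ Q → ∀ c : Ix D Q → ℂ,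
    (∀ l, ‖c l‖ ≤ 1) →
      FD z (2 * D) (FF b D Q c) (JJ b D Q c) (C * (D + Q) * Real.log (Q + 2)) := by
  obtain ⟨C0, hC0, hgr⟩ := Phi_gr b hz
  refine ⟨3 + C0, by omega, fun D Q hD hQ c hc => ⟨?_, ?_, ?_⟩⟩
  · intro x1 x2
    have h := hasSum_sum (s := (univ : Finset (Ix D Q)))
      (f := fun (l : Ix D Q) (p : ℕ × ℕ) => c l * (jc b D l.1 l.2.1 l.2.2 p.1 p.2 * x1 ^ p.1 * x2 ^ p.2))
      (a := fun l : Ix D Q => c l * Phi b D l.1 l.2.1 l.2.2 x1 x2)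
      (fun l _ => (Phi_ser b D l.1 l.2.1 l.2.2 x1 x2).mul_left (c l))
    have e : (fun p : ℕ × ℕ => JJ b D Q c p.1 p.2 * x1 ^ p.1 * x2 ^ p.2) = fun p : ℕ × ℕ =>
        ∑ l : Ix D Q, c l * (jc b D l.1 l.2.1 l.2.2 p.1 p.2 * x1 ^ p.1 * x2 ^ p.2) := by
      funext p
      unfold JJ
      rw [sum_mul, sum_mul]
      exact sum_congr rfl fun l _ => by ring
    rw [e]
    exact h
  · intro m0 m1 m2 x1 x2
    unfold FF
    rw [mul_sum]
    refine sum_congr rfl fun l _ => ?_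
    rw [Phi_inv b D l.1 l.2.1 l.2.2 hD (Nat.lt_succ_iff.1 l.1.2) (Nat.lt_succ_iff.1 l.2.1.2)]
    ring
  · intro x1 x2
    set β := |bet z x1 x2| with hβ
    have hβ0 : 0 ≤ β := abs_nonneg _
    set E := Real.exp (-(Real.pi * ((2 * D : ℕ) : ℝ) / z.im * (x1.im ^ 2 + x2.im ^ 2))) with hE
    have hE0 : 0 < E := Real.exp_pos _
    have h1 : Nw z (2 * D) (FF b D Q c) x1 x2 ≤
        ∑ l : Ix D Q, Nw z (2 * D) (Phi b D l.1 l.2.1 l.2.2) x1 x2 := by
      unfold Nw FF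
      rw [← sum_mul]
      refine mul_le_mul_of_nonneg_right ?_ hE0.le
      refine (norm_sum_le _ _).trans (sum_le_sum fun l _ => ?_)
      rw [norm_mul]
      exact mul_le_of_le_one_left (norm_nonneg _) (hc l)
    have hC0' : (1 : ℝ) ≤ C0 := by exact_mod_cast hC0
    have h2 : ∀ l : Ix D Q, Nw z (2 * D) (Phi b D l.1 l.2.1 l.2.2) x1 x2 ≤
        (C0 : ℝ) ^ (D + Q) * ((Q : ℝ) + 1 + β) ^ Q := by
      intro l
      have hk : (l.2.2 : ℕ) ≤ Q := l.2.2.2.le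
      have hk' : ((l.2.2 : ℕ) : ℝ) ≤ Q := by exact_mod_cast hk
      refine (hgr D l.1 l.2.1 l.2.2 hD (Nat.lt_succ_iff.1 l.1.2) (Nat.lt_succ_iff.1 l.2.1.2) x1 x2).trans ?_
      have a1 : (C0 : ℝ) ^ (D + (l.2.2 : ℕ)) ≤ (C0 : ℝ) ^ (D + Q) := pow_le_pow_right₀ hC0' (by omega)
      have a2 : (((l.2.2 : ℕ) : ℝ) + 1 + β) ^ (l.2.2 : ℕ) ≤ ((Q : ℝ) + 1 + β) ^ Q := by
        have b1 : (((l.2.2 : ℕ) : ℝ) + 1 + β) ^ (l.2.2 : ℕ) ≤ ((Q : ℝ) + 1 + β) ^ (l.2.2 : ℕ) :=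
          pow_le_pow_left₀ (by positivity) (by linarith) _
        refine b1.trans ?_
        exact pow_le_pow_right₀ (by have : (0 : ℝ) ≤ Q := Nat.cast_nonneg Q; linarith) hk
      exact mul_le_mul a1 a2 (pow_nonneg (by positivity) _) (by positivity)
    have h3 : ∑ l : Ix D Q, Nw z (2 * D) (Phi b D l.1 l.2.1 l.2.2) x1 x2 ≤
        ((D : ℝ) + 1) * ((D : ℝ) + 1) * Q * ((C0 : ℝ) ^ (D + Q) * ((Q : ℝ) + 1 + β) ^ Q) := by
      refine (sum_le_sum fun l _ => h2 l).trans ?_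
      rw [sum_const, card_univ, nsmul_eq_mul]
      have hcard : ((Fintype.card (Ix D Q) : ℕ) : ℝ) = ((D : ℝ) + 1) * ((D : ℝ) + 1) * Q := by
        rw [Fintype.card_prod, Fintype.card_prod, Fintype.card_fin, Fintype.card_fin]
        push_cast
        ring
      rw [hcard]
    exact h1.trans (h3.trans (fdt_bound hC0 hD hQ hβ0))

theorem dim_V (D Q S1 S2 : ℕ) (h : 2 * (S1 * (S1 + S2)) ≤ (D + 1) ^ 2 * Q) :
    ∃ V : Submodule ℂ (Ix D Q → ℂ), Fintype.card (Ix D Q) ≤ 2 * Module.finrank ℂ V ∧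
      ∀ c ∈ V, ∀ a e : ℕ, e < S1 → a + e < S1 + S2 → JJ b D Q c a e = 0 := by
  let Λ : (Ix D Q → ℂ) →ₗ[ℂ] (Fin S1 × Fin (S1 + S2) → ℂ) :=
    { toFun := fun c p => JJ b D Q c p.2 p.1
      map_add' := by
        intro c c'
        funext p
        simp only [JJ, Pi.add_apply, add_mul, sum_add_distrib]
      map_smul' := by
        intro t c
        funext p
        simp only [JJ, Pi.smul_apply, smul_eq_mul, RingHom.id_apply, mul_sum, mul_assoc] }
  refine ⟨LinearMap.ker Λ, ?_, ?_⟩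
  · have h1 := LinearMap.finrank_range_add_finrank_ker Λ
    have h2 : Module.finrank ℂ (LinearMap.range Λ) ≤ Module.finrank ℂ (Fin S1 × Fin (S1 + S2) → ℂ) :=
      Submodule.finrank_le _
    rw [Module.finrank_fintype_fun_eq_card, Fintype.card_prod, Fintype.card_fin, Fintype.card_fin] at h2
    rw [Module.finrank_fintype_fun_eq_card] at h1
    have h3 : Fintype.card (Ix D Q) = (D + 1) ^ 2 * Q := by
      rw [Fintype.card_prod, Fintype.card_prod, Fintype.card_fin, Fintype.card_fin]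
      ring
    rw [h3] at h1 ⊢
    omega
  · intro c hc a e he hae
    have h1 : Λ c = 0 := LinearMap.mem_ker.1 hc
    have h2 := congrFun h1 (⟨e, he⟩, ⟨a, by omega⟩)
    exact h2

end U2

end S_H22_U2_Fdt

section S_H22_U2_Lg

set_option autoImplicit false

namespace U2

open Complex Finset

private lemma Lg_coeff_mul (a b : ℂ) (c : ℝ) (q : Polynomial ℂ) (N : ℝ) (hb : ‖b‖ ≤ c) (hc : 0 ≤ c) (ha : ‖a‖ ≤ 1)
    (hN : ∀ j, ‖q.coeff j‖ ≤ N) (j : ℕ) :
    ‖((Polynomial.C a * (Polynomial.X - Polynomial.C b)) * q).coeff j‖ ≤ (1 + c) * N := by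
  have hN0 : 0 ≤ N := (norm_nonneg _).trans (hN 0)
  have e : (Polynomial.C a * (Polynomial.X - Polynomial.C b)) * q =
      Polynomial.C a * (Polynomial.X * q - Polynomial.C b * q) := by ring
  rw [e, Polynomial.coeff_C_mul, Polynomial.coeff_sub, Polynomial.coeff_C_mul]
  have h1 : ‖(Polynomial.X * q).coeff j‖ ≤ N := by
    rcases j with _ | j
    · rw [Polynomial.coeff_X_mul_zero, norm_zero]; exact hN0
    · rw [Polynomial.coeff_X_mul]; exact hN j
  have h2 : ‖b * q.coeff j‖ ≤ c * N := by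
    rw [norm_mul]
    exact mul_le_mul hb (hN j) (norm_nonneg _) hc
  calc ‖a * ((Polynomial.X * q).coeff j - b * q.coeff j)‖
      = ‖a‖ * ‖(Polynomial.X * q).coeff j - b * q.coeff j‖ := norm_mul _ _
    _ ≤ 1 * (N + c * N) := by
        refine mul_le_mul ha ((norm_sub_le _ _).trans (add_le_add h1 h2)) (norm_nonneg _) zero_le_one
    _ = (1 + c) * N := by ring

private lemma Lg_basis (n : ℕ) (s : Finset ℕ) (hn : n ∉ s) (j : ℕ) :
    ‖(∏ l ∈ s, Lagrange.basisDivisor (n : ℂ) (l : ℂ)).coeff j‖ ≤ ∏ l ∈ s, (1 + (l : ℝ)) := by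
  induction s using Finset.induction_on generalizing j with
  | empty =>
    rw [Finset.prod_empty, Finset.prod_empty, Polynomial.coeff_one]
    split_ifs <;> simp
  | insert l s hl ih =>
    rw [Finset.prod_insert hl, Finset.prod_insert hl]
    have hns : n ∉ s := fun h ↦ hn (Finset.mem_insert_of_mem h)
    have hnl : n ≠ l := fun h ↦ hn (h ▸ Finset.mem_insert_self _ _)
    have hinv : ‖((n : ℂ) - (l : ℂ))⁻¹‖ ≤ 1 := by
      rw [norm_inv]
      refine inv_le_one_of_one_le₀ ?_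
      have e : ((n : ℂ) - (l : ℂ)) = (((n : ℤ) - (l : ℤ) : ℤ) : ℂ) := by push_cast; ring
      rw [e, Complex.norm_intCast]
      have hz : ((n : ℤ) - (l : ℤ)) ≠ 0 := by omega
      exact_mod_cast Int.one_le_abs hz
    exact Lg_coeff_mul _ _ _ _ _ (by simp) (Nat.cast_nonneg l) hinv (fun j ↦ ih hns j) j

theorem coeff_le (Q : ℕ) (E : ℕ → ℂ) (ε : ℝ)
    (h : ∀ n, n < Q → ‖∑ j ∈ range Q, E j * (n : ℂ) ^ j‖ ≤ ε) (j : ℕ) (hj : j < Q) :
    ‖E j‖ ≤ Q * (Q.factorial : ℝ) * ε := by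
  classical
  set p : Polynomial ℂ := ∑ i ∈ range Q, Polynomial.C (E i) * Polynomial.X ^ i with hp
  have hcoef : p.coeff j = E j := by
    rw [hp, Polynomial.finsetSum_coeff, Finset.sum_eq_single j]
    · simp
    · intro b _ hb
      rw [Polynomial.coeff_C_mul_X_pow, if_neg (fun h ↦ hb h.symm)]
    · intro hjn
      exact absurd (Finset.mem_range.2 hj) hjn
  have hdeg : p.degree < (range Q).card := by
    rw [Finset.card_range, Polynomial.degree_lt_iff_coeff_zero]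
    intro m hm
    rw [hp, Polynomial.finsetSum_coeff]
    refine Finset.sum_eq_zero fun i hi ↦ ?_
    have := Finset.mem_range.1 hi
    rw [Polynomial.coeff_C_mul_X_pow, if_neg (by omega)]
  have heval : ∀ i ∈ range Q, Polynomial.eval (((fun n : ℕ ↦ (n : ℂ)) i)) p =
      (fun n : ℕ ↦ Polynomial.eval (n : ℂ) p) i := fun i _ ↦ rfl
  have hinj : Set.InjOn (fun n : ℕ ↦ (n : ℂ)) (range Q : Finset ℕ) := Nat.cast_injective.injOn
  have hint := Lagrange.eq_interpolate_of_eval_eq (fun n : ℕ ↦ Polynomial.eval (n : ℂ) p) hinj hdeg heval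
  have hval : ∀ n, n < Q → ‖Polynomial.eval (n : ℂ) p‖ ≤ ε := by
    intro n hn
    have e : Polynomial.eval (n : ℂ) p = ∑ j ∈ range Q, E j * (n : ℂ) ^ j := by
      rw [hp, Polynomial.eval_finsetSum]
      refine Finset.sum_congr rfl fun i _ ↦ ?_
      simp
    rw [e]; exact h n hn
  have hε : 0 ≤ ε := (norm_nonneg _).trans (h j hj)
  have hc : E j = ∑ n ∈ range Q, Polynomial.eval (n : ℂ) p *
      (Lagrange.basis (range Q) (fun n : ℕ ↦ (n : ℂ)) n).coeff j := by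
    rw [← hcoef]
    conv_lhs => rw [hint, Lagrange.interpolate_apply, Polynomial.finsetSum_coeff]
    refine Finset.sum_congr rfl fun n _ ↦ ?_
    rw [Polynomial.coeff_C_mul]
  have hfac : ∏ l ∈ range Q, (1 + (l : ℝ)) = (Q.factorial : ℝ) := by
    rw [← Finset.prod_range_add_one_eq_factorial]
    push_cast
    exact Finset.prod_congr rfl fun l _ ↦ by ring
  have hbas : ∀ n ∈ range Q, ‖(Lagrange.basis (range Q) (fun n : ℕ ↦ (n : ℂ)) n).coeff j‖ ≤ (Q.factorial : ℝ) := by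
    intro n hn
    have h1 := Lg_basis n ((range Q).erase n) (Finset.notMem_erase _ _) j
    refine le_trans h1 ?_
    rw [← hfac, ← Finset.mul_prod_erase (range Q) (fun l ↦ (1 + (l : ℝ))) hn]
    have h2 : 0 ≤ ∏ l ∈ (range Q).erase n, (1 + (l : ℝ)) := Finset.prod_nonneg fun l _ ↦ by positivity
    have h3 : (1 : ℝ) ≤ 1 + (n : ℝ) := by
      have : (0 : ℝ) ≤ n := Nat.cast_nonneg n
      linarith
    nlinarith
  rw [hc]
  calc ‖∑ n ∈ range Q, Polynomial.eval (n : ℂ) p *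
      (Lagrange.basis (range Q) (fun n : ℕ ↦ (n : ℂ)) n).coeff j‖
      ≤ ∑ n ∈ range Q, ‖Polynomial.eval (n : ℂ) p *
      (Lagrange.basis (range Q) (fun n : ℕ ↦ (n : ℂ)) n).coeff j‖ := norm_sum_le _ _
    _ ≤ ∑ _n ∈ range Q, ε * (Q.factorial : ℝ) := by
        refine Finset.sum_le_sum fun n hn ↦ ?_
        rw [norm_mul]
        exact mul_le_mul (hval n (Finset.mem_range.1 hn)) (hbas n hn) (norm_nonneg _) hε
    _ = Q * (Q.factorial : ℝ) * ε := by
        rw [Finset.sum_const, Finset.card_range, nsmul_eq_mul]; ring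

end U2

end S_H22_U2_Lg

section S_H22_U2_Ze

set_option autoImplicit false

namespace U2

open Complex Finset

variable {z : ℂ} (b : CZ.BaseFn z)

theorem ze_geo (m Q : ℕ) : ∑ k ∈ range Q, (if m < k then (1 / 2 : ℝ) ^ (k - m - 1) else 0) =
    2 - 2 * (1 / 2 : ℝ) ^ (Q - m - 1) := by
  induction Q with
  | zero => simp
  | succ Q ih =>
    rw [sum_range_succ, ih]
    by_cases h : m < Q
    · rw [if_pos h]
      have h1 : Q + 1 - m - 1 = (Q - m - 1) + 1 := by omega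
      rw [h1, pow_succ]
      ring
    · rw [if_neg h]
      have h1 : Q + 1 - m - 1 = 0 := by omega
      have h2 : Q - m - 1 = 0 := by omega
      rw [h1, h2]
      ring

theorem ze_bet (hz : 0 < z.im) {x1 x2 : ℂ} (h1 : ‖x1‖ ≤ 1) (h2 : ‖x2‖ ≤ 1) :
    |bet z x1 x2| ≤ 1 + |z.re| / z.im + 1 / z.im := by
  have a1 : |x1.im| ≤ 1 := (Complex.abs_im_le_norm x1).trans h1
  have a2 : |x2.im| ≤ 1 := (Complex.abs_im_le_norm x2).trans h2
  have a3 : |x2.re| ≤ 1 := (Complex.abs_re_le_norm x2).trans h2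
  have b1 : |z.re * (x2.im / z.im)| ≤ |z.re| / z.im := by
    rw [abs_mul, abs_div, abs_of_pos hz]
    calc |z.re| * (|x2.im| / z.im) ≤ |z.re| * (1 / z.im) := by gcongr
      _ = |z.re| / z.im := by ring
  have b2 : |x1.im / z.im| ≤ 1 / z.im := by
    rw [abs_div, abs_of_pos hz]
    gcongr
  unfold bet
  calc |x2.re - z.re * (x2.im / z.im) - x1.im / z.im|
      ≤ |x2.re - z.re * (x2.im / z.im)| + |x1.im / z.im| := abs_sub _ _
    _ ≤ |x2.re| + |z.re * (x2.im / z.im)| + |x1.im / z.im| := by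
        gcongr
        exact abs_sub _ _
    _ ≤ _ := by linarith

theorem ze_wt (hz : 0 < z.im) (D : ℕ) {x1 x2 : ℂ} (h1 : ‖x1‖ ≤ 1) (h2 : ‖x2‖ ≤ 1) :
    Real.exp (-(4 * Real.pi / z.im * D)) ≤
      Real.exp (-(Real.pi * ((2 * D : ℕ) : ℝ) / z.im * (x1.im ^ 2 + x2.im ^ 2))) := by
  have a1 : |x1.im| ≤ 1 := (Complex.abs_im_le_norm x1).trans h1
  have a2 : |x2.im| ≤ 1 := (Complex.abs_im_le_norm x2).trans h2
  have c1 : x1.im ^ 2 ≤ 1 := by
    rw [← sq_abs]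
    exact pow_le_one₀ (abs_nonneg _) a1
  have c2 : x2.im ^ 2 ≤ 1 := by
    rw [← sq_abs]
    exact pow_le_one₀ (abs_nonneg _) a2
  apply Real.exp_le_exp.2
  apply neg_le_neg
  have h3 : 0 ≤ Real.pi * ((2 * D : ℕ) : ℝ) / z.im := by positivity
  calc Real.pi * ((2 * D : ℕ) : ℝ) / z.im * (x1.im ^ 2 + x2.im ^ 2)
      ≤ Real.pi * ((2 * D : ℕ) : ℝ) / z.im * 2 := by
        apply mul_le_mul_of_nonneg_left _ h3
        linarith
    _ = 4 * Real.pi / z.im * D := by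
        push_cast
        ring

theorem ze_phi (hz : 0 < z.im) : ∃ M : ℝ, 1 ≤ M ∧ ∀ D Q i1 i2 k : ℕ, 1 ≤ D → i1 ≤ D → i2 ≤ D →
    k < Q → ∀ x1 x2 : ℂ, ‖x1‖ ≤ 1 → ‖x2‖ ≤ 1 →
      ‖Phi b D i1 i2 k x1 x2‖ ≤ M ^ D * (M * Q) ^ k := by
  obtain ⟨C, hC, hgr⟩ := Phi_gr b hz
  have hC' : (1 : ℝ) ≤ C := by exact_mod_cast hC
  set B0 : ℝ := 1 + |z.re| / z.im + 1 / z.im with hB0
  have hB0' : 1 ≤ B0 := by
    have h1 : 0 ≤ |z.re| / z.im := by positivity
    have h2 : 0 ≤ 1 / z.im := by positivity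
    linarith
  set e0 : ℝ := Real.exp (4 * Real.pi / z.im) with he0
  have he0' : 1 ≤ e0 := by
    apply Real.one_le_exp
    positivity
  refine ⟨e0 * C * (1 + B0), ?_, ?_⟩
  · have h1 : 1 ≤ e0 * C := one_le_mul_of_one_le_of_one_le he0' hC'
    have h2 : 1 ≤ 1 + B0 := by linarith
    exact one_le_mul_of_one_le_of_one_le h1 h2
  · intro D Q i1 i2 k hD h1 h2 hk x1 x2 hx1 hx2
    have hw := ze_wt hz D hx1 hx2
    have hg := hgr D i1 i2 k hD h1 h2 x1 x2
    have hbt := ze_bet hz hx1 hx2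
    have hQ1 : (1 : ℝ) ≤ Q := by
      have : 1 ≤ Q := by omega
      exact_mod_cast this
    have h3 : ‖Phi b D i1 i2 k x1 x2‖ * Real.exp (-(4 * Real.pi / z.im * D)) ≤
        (C : ℝ) ^ (D + k) * ((k : ℝ) + 1 + |bet z x1 x2|) ^ k :=
      (mul_le_mul_of_nonneg_left hw (norm_nonneg _)).trans hg
    have h4 : Real.exp (4 * Real.pi / z.im * D) = e0 ^ D := by
      rw [he0, ← Real.exp_nat_mul]
      ring_nf
    have h5 : ‖Phi b D i1 i2 k x1 x2‖ ≤
        e0 ^ D * ((C : ℝ) ^ (D + k) * ((k : ℝ) + 1 + |bet z x1 x2|) ^ k) := by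
      calc ‖Phi b D i1 i2 k x1 x2‖ = Real.exp (4 * Real.pi / z.im * D) *
            (‖Phi b D i1 i2 k x1 x2‖ * Real.exp (-(4 * Real.pi / z.im * D))) := by
              rw [Real.exp_neg]
              field_simp
        _ ≤ _ := by
              rw [h4]
              gcongr
    have hk' : (k : ℝ) + 1 ≤ Q := by exact_mod_cast hk
    have h6 : (k : ℝ) + 1 + |bet z x1 x2| ≤ Q * (1 + B0) := by
      calc (k : ℝ) + 1 + |bet z x1 x2| ≤ Q + B0 := by linarith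
        _ ≤ Q + Q * B0 := by nlinarith
        _ = _ := by ring
    calc ‖Phi b D i1 i2 k x1 x2‖
        ≤ e0 ^ D * ((C : ℝ) ^ (D + k) * ((k : ℝ) + 1 + |bet z x1 x2|) ^ k) := h5
      _ ≤ e0 ^ D * ((C : ℝ) ^ (D + k) * (Q * (1 + B0)) ^ k) := by gcongr
      _ = (e0 * C * 1) ^ D * (1 * C * (1 + B0) * Q) ^ k := by
          simp only [mul_pow, pow_add, one_pow, mul_one, one_mul]
          ring
      _ ≤ (e0 * C * (1 + B0)) ^ D * (e0 * C * (1 + B0) * Q) ^ k := by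
          gcongr
          linarith

theorem ze_phi0 (D i1 i2 : ℕ) (x1 x2 : ℂ) :
    Phi b D i1 i2 0 x1 x2 = HH b D i1 x1 * HH b D i2 x2 := by
  unfold Phi Psi
  rw [iteratedDeriv_zero]
  simp

/-- coefficients of the polynomial of integer shifts -/
noncomputable def zeE (D Q : ℕ) (c : Ix D Q → ℂ) (x1 x2 : ℂ) (j : ℕ) : ℂ :=
  ∑ l : Ix D Q, c l * (((l.2.2 : ℕ).choose j : ℕ) : ℂ) * Phi b D l.1 l.2.1 (l.2.2 - j) x1 x2

theorem ze_shift (D Q : ℕ) (c : Ix D Q → ℂ) (x1 x2 : ℂ) (n : ℕ) :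
    FF b D Q c x1 (x2 + n) = ∑ j ∈ range Q, zeE b D Q c x1 x2 j * (n : ℂ) ^ j := by
  unfold FF zeE
  simp only [sum_mul]
  rw [sum_comm]
  refine sum_congr rfl fun l _ => ?_
  rw [Phi_shift, mul_sum]
  have h1 : range ((l.2.2 : ℕ) + 1) ⊆ range Q := by
    intro j hj
    rw [mem_range] at hj ⊢
    have := l.2.2.2
    omega
  rw [← sum_subset h1]
  · refine sum_congr rfl fun j _ => ?_
    ring
  · intro j _ hj
    rw [mem_range, not_lt] at hj
    rw [Nat.choose_eq_zero_of_lt (by omega)]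
    simp

/-- the part of a coefficient with fixed last index -/
noncomputable def zeT (D Q : ℕ) (c : Ix D Q → ℂ) (x1 x2 : ℂ) (j : ℕ) (k : Fin Q) : ℂ :=
  ∑ p : Fin (D + 1) × Fin (D + 1), c (p.1, p.2, k) * (((k : ℕ).choose j : ℕ) : ℂ) *
    Phi b D p.1 p.2 (k - j) x1 x2

theorem ze_E (D Q : ℕ) (c : Ix D Q → ℂ) (x1 x2 : ℂ) (j : ℕ) :
    zeE b D Q c x1 x2 j = ∑ k, zeT b D Q c x1 x2 j k := by
  unfold zeE zeT
  rw [sum_comm]
  rw [Fintype.sum_prod_type, Fintype.sum_prod_type]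
  refine sum_congr rfl fun i1 _ => ?_
  rw [Fintype.sum_prod_type]

theorem ze_T_le (D Q : ℕ) (hD : 1 ≤ D) (c : Ix D Q → ℂ) {x1 x2 : ℂ} (h1 : ‖x1‖ ≤ 1)
    (h2 : ‖x2‖ ≤ 1) {M : ℝ} (_hM : 1 ≤ M)
    (hph : ∀ D Q i1 i2 k : ℕ, 1 ≤ D → i1 ≤ D → i2 ≤ D →
      k < Q → ∀ x1 x2 : ℂ, ‖x1‖ ≤ 1 → ‖x2‖ ≤ 1 →
      ‖Phi b D i1 i2 k x1 x2‖ ≤ M ^ D * (M * Q) ^ k) (j : ℕ) (k : Fin Q) (hjk : j ≤ k) :
    ‖zeT b D Q c x1 x2 j k‖ ≤ ((D : ℝ) + 1) ^ 2 *
      (‖(fun p : Fin (D + 1) × Fin (D + 1) ↦ c (p.1, p.2, k))‖ * M ^ D *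
        (M * (Q : ℝ) ^ 2) ^ ((k : ℕ) - j)) := by
  have hQ0 : (0 : ℝ) ≤ Q := Nat.cast_nonneg _
  have hch : (((k : ℕ).choose j : ℕ) : ℝ) ≤ (Q : ℝ) ^ ((k : ℕ) - j) := by
    rw [← Nat.choose_symm hjk]
    calc (((k : ℕ).choose ((k : ℕ) - j) : ℕ) : ℝ) ≤ ((k : ℕ) : ℝ) ^ ((k : ℕ) - j) := by
          exact_mod_cast Nat.choose_le_pow _ _
      _ ≤ _ := by
          gcongr
          exact_mod_cast k.2.le
  have hterm : ∀ p : Fin (D + 1) × Fin (D + 1),
      ‖c (p.1, p.2, k) * (((k : ℕ).choose j : ℕ) : ℂ) * Phi b D p.1 p.2 (k - j) x1 x2‖ ≤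
        ‖(fun p : Fin (D + 1) × Fin (D + 1) ↦ c (p.1, p.2, k))‖ * M ^ D *
        (M * (Q : ℝ) ^ 2) ^ ((k : ℕ) - j) := by
    intro p
    have h3 : ‖c (p.1, p.2, k)‖ ≤ ‖(fun p : Fin (D + 1) × Fin (D + 1) ↦ c (p.1, p.2, k))‖ :=
      norm_le_pi_norm (fun p : Fin (D + 1) × Fin (D + 1) ↦ c (p.1, p.2, k)) p
    have h4 := hph D Q p.1 p.2 (k - j) hD (by omega) (by omega) (by omega) x1 x2 h1 h2
    rw [norm_mul, norm_mul, Complex.norm_natCast]
    calc ‖c (p.1, p.2, k)‖ * (((k : ℕ).choose j : ℕ) : ℝ) * ‖Phi b D p.1 p.2 (k - j) x1 x2‖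
        ≤ ‖(fun p : Fin (D + 1) × Fin (D + 1) ↦ c (p.1, p.2, k))‖ *
          (Q : ℝ) ^ ((k : ℕ) - j) * (M ^ D * (M * Q) ^ ((k : ℕ) - j)) := by
          gcongr
      _ = _ := by
          rw [show M * (Q : ℝ) ^ 2 = Q * (M * Q) by ring, mul_pow (Q : ℝ)]
          ring
  unfold zeT
  refine (norm_sum_le _ _).trans ?_
  refine (sum_le_sum fun p _ => hterm p).trans ?_
  rw [sum_const, nsmul_eq_mul]
  apply le_of_eq
  congr 1
  rw [card_univ, Fintype.card_prod, Fintype.card_fin]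
  push_cast
  ring

theorem ze_num (hz : 0 < z.im) {M C1 : ℝ} (hM : 1 ≤ M) (hC1 : 1 ≤ C1) {C : ℕ}
    (hC : 8 + 4 * Real.log (M * C1) + 4 * Real.pi / z.im ≤ C) {D Q : ℕ} (hD : 1 ≤ D)
    (hQ : 1 ≤ Q) : Real.exp (-(C * Q * (D + Real.log (Q + 2)))) ≤
      ((4 * ((D : ℝ) + 1) ^ 2 * (M * C1) ^ (D + 1) * (Q : ℝ) ^ 2) ^ Q)⁻¹ /
        (2 * C1 ^ (D + 1) * (Q * (Q.factorial : ℝ))) * Real.exp (-(4 * Real.pi / z.im * D)) := by
  set L := Real.log (M * C1) with hL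
  set lq := Real.log ((Q : ℝ) + 2) with hlq
  have hMC : 1 ≤ M * C1 := one_le_mul_of_one_le_of_one_le hM hC1
  have hL0 : 0 ≤ L := Real.log_nonneg hMC
  have hQ' : (1 : ℝ) ≤ Q := by exact_mod_cast hQ
  have hD' : (1 : ℝ) ≤ D := by exact_mod_cast hD
  have hlq0 : 0 ≤ lq := Real.log_nonneg (by linarith)
  have hex : Real.exp L = M * C1 := Real.exp_log (by linarith)
  have hexq : Real.exp lq = Q + 2 := Real.exp_log (by linarith)
  have hQlq : (Q : ℝ) ≤ Real.exp lq := by rw [hexq]; linarith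
  have hp4 : 0 ≤ 4 * Real.pi / z.im := by positivity
  have hW : 4 * ((D : ℝ) + 1) ^ 2 * (M * C1) ^ (D + 1) * (Q : ℝ) ^ 2 ≤
      Real.exp ((5 + 2 * L) * (D + lq)) := by
    have h1 : (4 : ℝ) ≤ Real.exp 3 := by
      have := Real.add_one_le_exp (3 : ℝ)
      linarith
    have h2 : (D : ℝ) + 1 ≤ Real.exp D := Real.add_one_le_exp _
    have h3 : (M * C1) ^ (D + 1) = Real.exp (((D : ℝ) + 1) * L) := by
      rw [← hex, ← Real.exp_nat_mul]
      push_cast
      rfl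
    calc 4 * ((D : ℝ) + 1) ^ 2 * (M * C1) ^ (D + 1) * (Q : ℝ) ^ 2
        ≤ Real.exp 3 * (Real.exp D) ^ 2 * Real.exp (((D : ℝ) + 1) * L) * (Real.exp lq) ^ 2 := by
          rw [h3]
          gcongr
      _ = Real.exp (3 + 2 * D + (D + 1) * L + 2 * lq) := by
          rw [← Real.exp_nat_mul, ← Real.exp_nat_mul, ← Real.exp_add, ← Real.exp_add,
            ← Real.exp_add]
          push_cast
          rfl
      _ ≤ _ := by
          apply Real.exp_le_exp.2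
          have h5 : (D + 1) * L ≤ 2 * L * D := by nlinarith
          have h6 : 0 ≤ 2 * L * lq := by positivity
          nlinarith
  have hWpos : 0 < 4 * ((D : ℝ) + 1) ^ 2 * (M * C1) ^ (D + 1) * (Q : ℝ) ^ 2 := by positivity
  have hden : 2 * C1 ^ (D + 1) * (Q * (Q.factorial : ℝ)) ≤
      Real.exp (1 + 2 * L * D + lq + Q * lq) := by
    have h1 : (2 : ℝ) ≤ Real.exp 1 := by
      have := Real.add_one_le_exp (1 : ℝ)
      linarith
    have h2 : C1 ^ (D + 1) ≤ Real.exp (2 * L * D) := by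
      calc C1 ^ (D + 1) ≤ (M * C1) ^ (D + 1) := by
            gcongr
            nlinarith
        _ = Real.exp (((D : ℝ) + 1) * L) := by
            rw [← hex, ← Real.exp_nat_mul]
            push_cast
            rfl
        _ ≤ _ := by
            apply Real.exp_le_exp.2
            nlinarith
    have h3 : (Q.factorial : ℝ) ≤ Real.exp (Q * lq) := by
      calc (Q.factorial : ℝ) ≤ (Q : ℝ) ^ Q := by exact_mod_cast Nat.factorial_le_pow Q
        _ ≤ (Real.exp lq) ^ Q := by gcongr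
        _ = _ := by rw [← Real.exp_nat_mul]
    calc 2 * C1 ^ (D + 1) * (Q * (Q.factorial : ℝ))
        ≤ Real.exp 1 * Real.exp (2 * L * D) * (Real.exp lq * Real.exp (Q * lq)) := by
          gcongr
      _ = _ := by
          rw [← Real.exp_add, ← Real.exp_add, ← Real.exp_add]
          congr 1
          ring
  have hden0 : 0 < 2 * C1 ^ (D + 1) * (Q * (Q.factorial : ℝ)) := by positivity
  have hS : 0 ≤ (D : ℝ) + lq := by positivity
  have hS1 : 1 ≤ (D : ℝ) + lq := by linarith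
  calc Real.exp (-(C * Q * (D + lq)))
      ≤ Real.exp (-(Q * ((5 + 2 * L) * (D + lq)))) * Real.exp (-(1 + 2 * L * D + lq + Q * lq)) *
        Real.exp (-(4 * Real.pi / z.im * D)) := by
        rw [← Real.exp_add, ← Real.exp_add]
        apply Real.exp_le_exp.2
        set P0 := 4 * Real.pi / z.im with hP0
        have hQS : (D : ℝ) + lq ≤ Q * (D + lq) := by nlinarith
        have k1 : 1 ≤ Q * ((D : ℝ) + lq) := by linarith
        have k2 : 2 * L * D ≤ 2 * L * (Q * (D + lq)) := by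
          apply mul_le_mul_of_nonneg_left _ (by positivity)
          linarith
        have k3 : lq ≤ Q * ((D : ℝ) + lq) := by linarith
        have k4 : Q * lq ≤ Q * ((D : ℝ) + lq) := by
          apply mul_le_mul_of_nonneg_left _ (by positivity)
          linarith
        have k5 : P0 * D ≤ P0 * (Q * ((D : ℝ) + lq)) := by
          apply mul_le_mul_of_nonneg_left _ hp4
          linarith
        have k6 : (8 + 4 * L + P0) * (Q * ((D : ℝ) + lq)) ≤ C * (Q * ((D : ℝ) + lq)) := by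
          apply mul_le_mul_of_nonneg_right hC
          positivity
        nlinarith
    _ = (Real.exp ((5 + 2 * L) * (D + lq)) ^ Q)⁻¹ /
          Real.exp (1 + 2 * L * D + lq + Q * lq) * Real.exp (-(4 * Real.pi / z.im * D)) := by
        rw [← Real.exp_nat_mul, ← Real.exp_neg, Real.exp_neg (1 + 2 * L * D + lq + Q * lq)]
        rfl
    _ ≤ _ := by
        gcongr

theorem ze (hz : 0 < z.im) : ∃ C : ℕ, 1 ≤ C ∧ ∀ D Q : ℕ, 1 ≤ D → 1 ≤ Q → ∀ c : Ix D Q → ℂ,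
    (∀ l, ‖c l‖ ≤ 1) → (∃ l, ‖c l‖ = 1) → ∃ x1 x2 : ℂ, |bet z x1 x2| ≤ Q + C ∧
      Real.exp (-(C * Q * (D + Real.log (Q + 2)))) ≤ Nw z (2 * D) (FF b D Q c) x1 x2 := by
  obtain ⟨M, hM, hph⟩ := ze_phi b hz
  obtain ⟨C1n, hC1n, hnd⟩ := nondeg b
  set C1 : ℝ := (C1n : ℝ) with hC1def
  have hC1 : 1 ≤ C1 := by
    rw [hC1def]
    exact_mod_cast hC1n
  set B0 : ℝ := 1 + |z.re| / z.im + 1 / z.im with hB0
  have hB0' : 0 ≤ B0 := by positivity
  have hL0 : 0 ≤ Real.log (M * C1) :=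
    Real.log_nonneg (one_le_mul_of_one_le_of_one_le hM hC1)
  have hp0 : 0 ≤ 4 * Real.pi / z.im := by positivity
  set C : ℕ := ⌈8 + 4 * Real.log (M * C1) + 4 * Real.pi / z.im + B0⌉₊ with hCdef
  have hCle : 8 + 4 * Real.log (M * C1) + 4 * Real.pi / z.im + B0 ≤ C := Nat.le_ceil _
  refine ⟨C, ?_, ?_⟩
  · have : (1 : ℝ) ≤ C := by linarith
    exact_mod_cast this
  intro D Q hD hQ c _ hc1
  obtain ⟨l0, hl0⟩ := hc1
  have hQ' : (1 : ℝ) ≤ Q := by exact_mod_cast hQ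
  have hD' : (1 : ℝ) ≤ D := by exact_mod_cast hD
  set W : ℝ := 4 * ((D : ℝ) + 1) ^ 2 * (M * C1) ^ (D + 1) * (Q : ℝ) ^ 2 with hW
  have hMC : 1 ≤ M * C1 := one_le_mul_of_one_le_of_one_le hM hC1
  have hW1 : 1 ≤ W := by
    have h1 : 1 ≤ (M * C1) ^ (D + 1) := one_le_pow₀ hMC
    have h2 : 1 ≤ (Q : ℝ) ^ 2 := one_le_pow₀ hQ'
    have h3 : 1 ≤ 4 * ((D : ℝ) + 1) ^ 2 := by nlinarith
    exact one_le_mul_of_one_le_of_one_le (one_le_mul_of_one_le_of_one_le h3 h1) h2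
  have hW0 : 0 < W := by linarith
  -- the maximal index
  let cs : Fin Q → ℝ := fun k => ‖(fun p : Fin (D + 1) × Fin (D + 1) ↦ c (p.1, p.2, k))‖
  have hne : Nonempty (Fin Q) := ⟨l0.2.2⟩
  obtain ⟨ks, hks⟩ := Finite.exists_max (fun k : Fin Q => W ^ (k : ℕ) * cs k)
  have hcs0 : ∀ k, 0 ≤ cs k := fun k => norm_nonneg _
  have hcsl0 : 1 ≤ cs l0.2.2 := by
    rw [← hl0]
    exact norm_le_pi_norm (fun p : Fin (D + 1) × Fin (D + 1) ↦ c (p.1, p.2, l0.2.2))
      (l0.1, l0.2.1)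
  have hcsks : (W ^ Q)⁻¹ ≤ cs ks := by
    have h1 : 1 ≤ W ^ (ks : ℕ) * cs ks := by
      calc (1 : ℝ) ≤ W ^ (l0.2.2 : ℕ) * cs l0.2.2 :=
            one_le_mul_of_one_le_of_one_le (one_le_pow₀ hW1) hcsl0
        _ ≤ _ := hks l0.2.2
    have h2 : 1 ≤ W ^ Q * cs ks := by
      refine h1.trans ?_
      apply mul_le_mul_of_nonneg_right _ (hcs0 ks)
      exact pow_le_pow_right₀ hW1 ks.2.le
    rw [inv_le_iff_one_le_mul₀' (by positivity)]
    exact h2
  have hcspos : 0 < cs ks := lt_of_lt_of_le (by positivity) hcsks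
  obtain ⟨x1, x2, hx1, hx2, hnd'⟩ := hnd D (fun i1 i2 => c (i1, i2, ks))
  -- the main term
  have hmain : cs ks ≤ C1 ^ (D + 1) * ‖zeT b D Q c x1 x2 ks ks‖ := by
    have h1 : zeT b D Q c x1 x2 ks ks =
        ∑ j1, ∑ j2, c (j1, j2, ks) * HH b D j1 x1 * HH b D j2 x2 := by
      unfold zeT
      rw [Fintype.sum_prod_type]
      refine sum_congr rfl fun j1 _ => sum_congr rfl fun j2 _ => ?_
      rw [Nat.sub_self, Nat.choose_self, ze_phi0]
      push_cast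
      ring
    rw [h1]
    refine (pi_norm_le_iff_of_nonneg (by positivity)).2 fun p => ?_
    exact hnd' p.1 p.2
  -- the other terms
  have hrest : ∀ k : Fin Q, k ≠ ks → ‖zeT b D Q c x1 x2 ks k‖ ≤
      cs ks / (4 * C1 ^ (D + 1)) *
        (if (ks : ℕ) < (k : ℕ) then (1 / 2 : ℝ) ^ ((k : ℕ) - ks - 1) else 0) := by
    intro k hk
    by_cases hlt : (ks : ℕ) < (k : ℕ)
    · rw [if_pos hlt]
      have h1 := ze_T_le b D Q hD c hx1 hx2 hM hph ks k hlt.le
      have h2 : W ^ ((k : ℕ) - ks) * cs k ≤ cs ks := by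
        have h3 := hks k
        have h4 : W ^ (k : ℕ) = W ^ (ks : ℕ) * W ^ ((k : ℕ) - ks) := by
          rw [← pow_add]
          congr 1
          omega
        simp only [h4] at h3
        rw [mul_assoc] at h3
        exact le_of_mul_le_mul_left h3 (by positivity)
      have h5 : cs k ≤ cs ks * (W⁻¹) ^ ((k : ℕ) - ks) := by
        rw [inv_pow, ← div_eq_mul_inv, le_div_iff₀ (by positivity), mul_comm]
        exact h2
      set e := (k : ℕ) - ks with he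
      have he1 : e = (e - 1) + 1 := by omega
      have hr : W⁻¹ * (M * (Q : ℝ) ^ 2) =
          1 / (4 * ((D : ℝ) + 1) ^ 2 * (M ^ D * C1 ^ (D + 1))) := by
        rw [hW, mul_pow, pow_succ M]
        field_simp
      have hr2 : W⁻¹ * (M * (Q : ℝ) ^ 2) ≤ 1 / 2 := by
        rw [hr]
        apply one_div_le_one_div_of_le (by norm_num)
        have h6 : 1 ≤ M ^ D * C1 ^ (D + 1) :=
          one_le_mul_of_one_le_of_one_le (one_le_pow₀ hM) (one_le_pow₀ hC1)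
        nlinarith
      have hr0 : 0 ≤ W⁻¹ * (M * (Q : ℝ) ^ 2) := by positivity
      calc ‖zeT b D Q c x1 x2 ks k‖
          ≤ ((D : ℝ) + 1) ^ 2 * (cs k * M ^ D * (M * (Q : ℝ) ^ 2) ^ e) := h1
        _ ≤ ((D : ℝ) + 1) ^ 2 * (cs ks * (W⁻¹) ^ e * M ^ D * (M * (Q : ℝ) ^ 2) ^ e) := by
            gcongr
        _ = ((D : ℝ) + 1) ^ 2 * cs ks * M ^ D * (W⁻¹ * (M * (Q : ℝ) ^ 2)) ^ e := by
            rw [mul_pow]
            ring
        _ = ((D : ℝ) + 1) ^ 2 * cs ks * M ^ D * (W⁻¹ * (M * (Q : ℝ) ^ 2)) *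
              (W⁻¹ * (M * (Q : ℝ) ^ 2)) ^ (e - 1) := by
            conv_lhs => rw [he1, pow_succ]
            ring
        _ ≤ ((D : ℝ) + 1) ^ 2 * cs ks * M ^ D * (W⁻¹ * (M * (Q : ℝ) ^ 2)) *
              (1 / 2) ^ (e - 1) := by
            gcongr
        _ = _ := by
            rw [hr]
            field_simp
    · rw [if_neg hlt, mul_zero]
      have hlt' : (k : ℕ) < ks := by
        have : (k : ℕ) ≠ ks := fun h => hk (Fin.ext h)
        omega
      have h1 : zeT b D Q c x1 x2 ks k = 0 := by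
        unfold zeT
        refine sum_eq_zero fun p _ => ?_
        rw [Nat.choose_eq_zero_of_lt hlt']
        simp
      rw [h1, norm_zero]
  -- the coefficient
  have hE : cs ks / (2 * C1 ^ (D + 1)) ≤ ‖zeE b D Q c x1 x2 ks‖ := by
    have h1 : zeE b D Q c x1 x2 ks = zeT b D Q c x1 x2 ks ks +
        ∑ k ∈ univ.erase ks, zeT b D Q c x1 x2 ks k := by
      rw [ze_E, add_sum_erase _ _ (mem_univ ks)]
    have h2 : ‖∑ k ∈ univ.erase ks, zeT b D Q c x1 x2 ks k‖ ≤ cs ks / (2 * C1 ^ (D + 1)) := by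
      calc ‖∑ k ∈ univ.erase ks, zeT b D Q c x1 x2 ks k‖
          ≤ ∑ k ∈ univ.erase ks, ‖zeT b D Q c x1 x2 ks k‖ := norm_sum_le _ _
        _ ≤ ∑ k ∈ univ.erase ks, cs ks / (4 * C1 ^ (D + 1)) *
              (if (ks : ℕ) < (k : ℕ) then (1 / 2 : ℝ) ^ ((k : ℕ) - ks - 1) else 0) :=
            sum_le_sum fun k hk => hrest k (ne_of_mem_erase hk)
        _ ≤ ∑ k : Fin Q, cs ks / (4 * C1 ^ (D + 1)) *
              (if (ks : ℕ) < (k : ℕ) then (1 / 2 : ℝ) ^ ((k : ℕ) - ks - 1) else 0) := by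
            apply sum_le_sum_of_subset_of_nonneg (erase_subset _ _)
            intro k _ _
            have : (0 : ℝ) ≤ if (ks : ℕ) < (k : ℕ) then (1 / 2 : ℝ) ^ ((k : ℕ) - ks - 1)
                else 0 := by
              split_ifs <;> positivity
            positivity
        _ = cs ks / (4 * C1 ^ (D + 1)) * ∑ k ∈ range Q,
              (if (ks : ℕ) < k then (1 / 2 : ℝ) ^ (k - ks - 1) else 0) := by
            rw [← mul_sum, Fin.sum_univ_eq_sum_range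
              (fun k => if (ks : ℕ) < k then (1 / 2 : ℝ) ^ (k - ks - 1) else 0)]
        _ ≤ cs ks / (4 * C1 ^ (D + 1)) * 2 := by
            rw [ze_geo]
            gcongr
            have : (0 : ℝ) ≤ (1 / 2) ^ (Q - ks - 1) := by positivity
            linarith
        _ = _ := by
            field_simp
            norm_num
    have h3 : cs ks / C1 ^ (D + 1) ≤ ‖zeT b D Q c x1 x2 ks ks‖ := by
      rw [div_le_iff₀ (by positivity), mul_comm]
      exact hmain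
    have h4 : ‖zeT b D Q c x1 x2 ks ks‖ ≤ ‖zeE b D Q c x1 x2 ks‖ +
        ‖∑ k ∈ univ.erase ks, zeT b D Q c x1 x2 ks k‖ := by
      have h5 : zeT b D Q c x1 x2 ks ks = zeE b D Q c x1 x2 ks -
          ∑ k ∈ univ.erase ks, zeT b D Q c x1 x2 ks k := by
        rw [h1]
        ring
      rw [h5]
      exact norm_sub_le _ _
    have h6 : cs ks / C1 ^ (D + 1) = cs ks / (2 * C1 ^ (D + 1)) + cs ks / (2 * C1 ^ (D + 1)) := by
      field_simp
      norm_num
    linarith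
  -- the values
  obtain ⟨n, hn⟩ := Finite.exists_max (fun n : Fin Q => ‖FF b D Q c x1 (x2 + (n : ℕ))‖)
  have hco := coeff_le Q (zeE b D Q c x1 x2) ‖FF b D Q c x1 (x2 + (n : ℕ))‖ (by
    intro n' hn'
    rw [← ze_shift]
    exact hn ⟨n', hn'⟩) ks ks.2
  refine ⟨x1, x2 + (n : ℕ), ?_, ?_⟩
  · have h1 : bet z x1 (x2 + (n : ℕ)) = bet z x1 x2 + (n : ℕ) := by
      unfold bet
      simp only [Complex.add_re, Complex.add_im, Complex.natCast_re, Complex.natCast_im,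
        add_zero]
      ring
    rw [h1]
    have h2 := ze_bet hz hx1 hx2
    have h3 : ((n : ℕ) : ℝ) ≤ Q := by exact_mod_cast n.2.le
    have h4 : |((n : ℕ) : ℝ)| = ((n : ℕ) : ℝ) := abs_of_nonneg (Nat.cast_nonneg _)
    calc |bet z x1 x2 + ((n : ℕ) : ℝ)| ≤ |bet z x1 x2| + |((n : ℕ) : ℝ)| := abs_add_le _ _
      _ ≤ B0 + Q := by
          rw [h4]
          exact add_le_add h2 h3
      _ ≤ _ := by linarith
  · have hfac : (0 : ℝ) < Q.factorial := by exact_mod_cast Nat.factorial_pos Q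
    have h1 : (W ^ Q)⁻¹ / (2 * C1 ^ (D + 1) * (Q * (Q.factorial : ℝ))) ≤
        ‖FF b D Q c x1 (x2 + (n : ℕ))‖ := by
      rw [div_le_iff₀ (by positivity)]
      have h2 : (W ^ Q)⁻¹ / (2 * C1 ^ (D + 1)) ≤ Q * (Q.factorial : ℝ) *
          ‖FF b D Q c x1 (x2 + (n : ℕ))‖ := by
        calc (W ^ Q)⁻¹ / (2 * C1 ^ (D + 1)) ≤ cs ks / (2 * C1 ^ (D + 1)) := by gcongr
          _ ≤ _ := hE.trans hco
      rw [div_le_iff₀ (by positivity)] at h2
      linarith
    have h3 := ze_num (z := z) hz hM hC1 (C := C) (by linarith) hD hQ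
    have h4 := ze_wt hz D hx1 hx2
    unfold Nw
    have h5 : (x2 + ((n : ℕ) : ℂ)).im = x2.im := by
      simp only [Complex.add_im, Complex.natCast_im, add_zero]
    rw [h5]
    calc Real.exp (-(C * Q * (D + Real.log (Q + 2)))) ≤ (W ^ Q)⁻¹ /
          (2 * C1 ^ (D + 1) * (Q * (Q.factorial : ℝ))) * Real.exp (-(4 * Real.pi / z.im * D)) :=
          h3
      _ ≤ _ := mul_le_mul h1 h4 (Real.exp_nonneg _) (norm_nonneg _)

end U2

end S_H22_U2_Ze

section S_H32_CZ_Ca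

set_option autoImplicit false

namespace CZ

theorem ca_unitary {Λ : Type*} [Fintype Λ] [DecidableEq Λ]
    (b : OrthonormalBasis Λ ℂ (EuclideanSpace ℂ Λ)) :
    ‖(Matrix.of fun l k ↦ (b k) l : Matrix Λ Λ ℂ).det‖ = 1 := by
  set U : Matrix Λ Λ ℂ := Matrix.of fun l k ↦ (b k) l with hU
  have h1 : U.conjTranspose * U = 1 := by
    ext k k'
    rw [Matrix.mul_apply, Matrix.one_apply]
    have h2 := orthonormal_iff_ite.1 b.orthonormal k k'
    rw [EuclideanSpace.inner_eq_star_dotProduct] at h2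
    rw [← h2]
    simp only [dotProduct, Matrix.conjTranspose_apply, hU, Matrix.of_apply, Pi.star_apply]
    exact Finset.sum_congr rfl fun l _ => mul_comm _ _
  have h3 : star U.det * U.det = 1 := by
    rw [← Matrix.det_conjTranspose, ← Matrix.det_mul, h1, Matrix.det_one]
  have h4 : ‖U.det‖ * ‖U.det‖ = 1 := by
    have := congrArg norm h3
    rwa [norm_mul, norm_star, norm_one] at this
  have h5 := norm_nonneg U.det
  nlinarith

theorem ca_det {Λ : Type*} [Fintype Λ] [DecidableEq Λ] (B : Matrix Λ Λ ℂ) (s : Finset Λ)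
    (ε D : ℝ) (h1 : ∀ r, ∀ k ∈ s, ‖B r k‖ ≤ ε) (h2 : ∀ r, ∀ k, k ∉ s → ‖B r k‖ ≤ D) :
    ‖B.det‖ ≤ (Fintype.card Λ).factorial * (ε ^ s.card * D ^ (Fintype.card Λ - s.card)) := by
  rw [Matrix.det_apply]
  refine (norm_sum_le _ _).trans ?_
  have h3 : ∀ σ : Equiv.Perm Λ, ‖Equiv.Perm.sign σ • ∏ i, B (σ i) i‖ ≤
      ε ^ s.card * D ^ (Fintype.card Λ - s.card) := by
    intro σ
    have h4 : ‖Equiv.Perm.sign σ • ∏ i, B (σ i) i‖ = ∏ i, ‖B (σ i) i‖ := by
      rw [← norm_prod]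
      rcases Int.units_eq_one_or (Equiv.Perm.sign σ) with h | h
      · rw [h, one_smul]
      · rw [h, Units.neg_smul, one_smul, norm_neg]
    rw [h4]
    have h5 : ∏ i, ‖B (σ i) i‖ ≤ ∏ i, (if i ∈ s then ε else D) := by
      refine Finset.prod_le_prod (fun i _ => norm_nonneg _) fun i _ => ?_
      split_ifs with h
      · exact h1 _ _ h
      · exact h2 _ _ h
    refine h5.trans (le_of_eq ?_)
    rw [Finset.prod_ite, Finset.prod_const, Finset.prod_const]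
    have h6 : (Finset.univ.filter fun i => i ∈ s) = s := by ext; simp
    have h7 : (Finset.univ.filter fun i => i ∉ s) = sᶜ := by ext; simp
    rw [h6, h7, Finset.card_compl]
  refine (Finset.sum_le_sum fun σ _ => h3 σ).trans (le_of_eq ?_)
  rw [Finset.sum_const, Finset.card_univ, Fintype.card_perm, nsmul_eq_mul]

theorem det_le_of_small {Λ : Type*} [Fintype Λ] [DecidableEq Λ] (A : Matrix Λ Λ ℂ)
    (V : Submodule ℂ (Λ → ℂ)) (ε T : ℝ) (hε : 0 ≤ ε) (hε1 : ε ≤ 1) (hT1 : 1 ≤ T)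
    (hT : ∀ i j, ‖A i j‖ ≤ T)
    (hV : ∀ c ∈ V, (∀ l, ‖c l‖ ≤ 1) → ∀ i, ‖∑ l, c l * A i l‖ ≤ ε)
    (hcard : Fintype.card Λ ≤ 2 * Module.finrank ℂ V) :
    ‖A.det‖ ^ 2 ≤ ((Fintype.card Λ : ℝ) ^ (2 * Fintype.card Λ) * T ^ Fintype.card Λ) ^ 2 *
      ε ^ Fintype.card Λ := by
  let V' : Submodule ℂ (EuclideanSpace ℂ Λ) :=
    V.comap (WithLp.linearEquiv 2 ℂ (Λ → ℂ)).toLinearMap
  have hfr : Module.finrank ℂ V' = Module.finrank ℂ V := by
    have e : V ≃ₗ[ℂ] V' :=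
      ((WithLp.linearEquiv 2 ℂ (Λ → ℂ)).symm.submoduleMap V).trans
        (LinearEquiv.ofEq _ _ (by
          ext x
          simp only [V', Submodule.mem_map, Submodule.mem_comap]
          constructor
          · rintro ⟨y, hy, rfl⟩
            simpa using hy
          · intro hx
            exact ⟨_, hx, by simp⟩))
    exact e.finrank_eq.symm
  have hL'L : Module.finrank ℂ V ≤ Fintype.card Λ := by
    have := Submodule.finrank_le V
    rwa [Module.finrank_fintype_fun_eq_card] at this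
  obtain ⟨s, -, hs⟩ := Finset.exists_subset_card_eq (s := (Finset.univ : Finset Λ))
    (n := Module.finrank ℂ V') (by rw [hfr, Finset.card_univ]; exact hL'L)
  let w := stdOrthonormalBasis ℂ V'
  let e := s.equivFinOfCardEq hs
  let v : Λ → EuclideanSpace ℂ Λ := fun l => if h : l ∈ s then (w (e ⟨l, h⟩) : V') else 0
  have hv : Orthonormal ℂ ((s : Set Λ).domRestrict v) := by
    have h1 : Orthonormal ℂ (fun l : s => ((w (e l) : V') : EuclideanSpace ℂ Λ)) :=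
      (w.orthonormal.comp e e.injective).comp_linearIsometry V'.subtypeₗᵢ
    have h2 : ((s : Set Λ).domRestrict v) =
        (fun l : s => ((w (e l) : V') : EuclideanSpace ℂ Λ)) := by
      funext l
      have hl : (l : Λ) ∈ s := l.2
      simp only [Set.domRestrict_apply, v, dif_pos hl]
      rfl
    rw [h2]; exact h1
  obtain ⟨b, hb⟩ := hv.exists_orthonormalBasis_extension_of_card_eq
    (by rw [finrank_euclideanSpace])
  have hbV : ∀ k ∈ s, (fun l => (b k) l) ∈ V := by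
    intro k hk
    rw [hb k hk]
    simp only [v, dif_pos hk]
    exact (w (e ⟨k, hk⟩)).2
  have hb1 : ∀ k l, ‖(b k) l‖ ≤ 1 := by
    intro k l
    refine (PiLp.norm_apply_le (b k) l).trans (le_of_eq (b.orthonormal.1 k))
  set U : Matrix Λ Λ ℂ := Matrix.of fun l k ↦ (b k) l with hU
  have hdet : ‖A.det‖ = ‖(A * U).det‖ := by
    rw [Matrix.det_mul, norm_mul, ca_unitary b, mul_one]
  have hB1 : ∀ r, ∀ k ∈ s, ‖(A * U) r k‖ ≤ ε := by
    intro r k hk
    rw [Matrix.mul_apply]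
    have := hV _ (hbV k hk) (hb1 k) r
    refine le_trans (le_of_eq ?_) this
    congr 1
    exact Finset.sum_congr rfl fun l _ => mul_comm _ _
  have hB2 : ∀ r, ∀ k, k ∉ s → ‖(A * U) r k‖ ≤ (Fintype.card Λ : ℝ) * T := by
    intro r k _
    rw [Matrix.mul_apply]
    refine (norm_sum_le _ _).trans ?_
    have : ∀ l ∈ Finset.univ, ‖A r l * U l k‖ ≤ T := by
      intro l _
      rw [norm_mul]
      calc ‖A r l‖ * ‖U l k‖ ≤ T * 1 :=
            mul_le_mul (hT r l) (hb1 k l) (norm_nonneg _) (by linarith)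
        _ = T := mul_one T
    refine (Finset.sum_le_sum this).trans (le_of_eq ?_)
    rw [Finset.sum_const, Finset.card_univ, nsmul_eq_mul]
  have hmain := ca_det (A * U) s ε _ hB1 hB2
  rw [← hdet, hs, hfr] at hmain
  set L := Fintype.card Λ
  set L' := Module.finrank ℂ V
  have hX : ((L.factorial : ℕ) : ℝ) ≤ (L : ℝ) ^ L := by exact_mod_cast Nat.factorial_le_pow L
  have hZ : ((L : ℝ) * T) ^ (L - L') ≤ (L : ℝ) ^ L * T ^ L := by
    rw [mul_pow]
    have hTT : T ^ (L - L') ≤ T ^ L := pow_le_pow_right₀ hT1 (Nat.sub_le _ _)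
    have hLL : (L : ℝ) ^ (L - L') ≤ (L : ℝ) ^ L := by
      rcases Nat.eq_zero_or_pos L with h0 | h0
      · rw [h0]; simp
      · exact pow_le_pow_right₀ (by exact_mod_cast h0) (Nat.sub_le _ _)
    exact mul_le_mul hLL hTT (by positivity) (by positivity)
  have hY : (ε ^ L') ^ 2 ≤ ε ^ L := by
    rw [← pow_mul, mul_comm L' 2]
    exact pow_le_pow_of_le_one hε hε1 hcard
  have hP : (0 : ℝ) ≤ (L : ℝ) ^ L := by positivity
  have hT0 : (0 : ℝ) ≤ T ^ L := by positivity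
  have hZ0 : (0 : ℝ) ≤ ((L : ℝ) * T) ^ (L - L') := by positivity
  have hY0 : (0 : ℝ) ≤ ε ^ L' := by positivity
  calc ‖A.det‖ ^ 2 ≤ ((L.factorial : ℕ) * (ε ^ L' * ((L : ℝ) * T) ^ (L - L'))) ^ 2 :=
        pow_le_pow_left₀ (norm_nonneg _) hmain 2
    _ ≤ ((L : ℝ) ^ L * (ε ^ L' * ((L : ℝ) ^ L * T ^ L))) ^ 2 := by
        refine pow_le_pow_left₀ (by positivity) ?_ 2
        refine mul_le_mul hX ?_ (by positivity) hP
        exact mul_le_mul_of_nonneg_left hZ hY0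
    _ = ((L : ℝ) ^ (2 * L) * T ^ L) ^ 2 * (ε ^ L') ^ 2 := by ring
    _ ≤ ((L : ℝ) ^ (2 * L) * T ^ L) ^ 2 * ε ^ L :=
        mul_le_mul_of_nonneg_left hY (by positivity)

theorem exists_det_ne_zero {R Λ : Type*} [Fintype Λ] [DecidableEq Λ] (A : R → Λ → ℂ)
    (h : ∀ c : Λ → ℂ, c ≠ 0 → ∃ r, ∑ l, c l * A r l ≠ 0) :
    ∃ J : Λ → R, (Matrix.of fun i l ↦ A (J i) l).det ≠ 0 := by
  have htop : Submodule.span ℂ (Set.range A) = ⊤ := by
    by_contra hne
    obtain ⟨f, hf, hle⟩ := Submodule.exists_le_ker_of_lt_top _ (lt_top_iff_ne_top.2 hne)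
    have hfx : ∀ x : Λ → ℂ, f x = ∑ l, f (Pi.single l 1) * x l := by
      intro x
      conv_lhs => rw [pi_eq_sum_univ' x]
      rw [map_sum]
      refine Finset.sum_congr rfl fun l _ => ?_
      rw [map_smul, smul_eq_mul, mul_comm]
    have hc : (fun l => f (Pi.single l 1)) ≠ (0 : Λ → ℂ) := by
      intro h0
      apply hf
      ext l
      have := congrFun h0 l
      simpa using this
    obtain ⟨r, hr⟩ := h _ hc
    apply hr
    rw [← hfx]
    exact hle (Submodule.subset_span ⟨r, rfl⟩)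
  obtain ⟨κ, a, ha, hspan, hli⟩ := exists_linearIndependent' ℂ A
  have hb : ⊤ ≤ Submodule.span ℂ (Set.range (A ∘ a)) := by rw [hspan, htop]
  let b := Module.Basis.mk hli hb
  have : Fintype κ := FiniteDimensional.fintypeBasisIndex b
  have hcard : Fintype.card Λ = Fintype.card κ := by
    rw [← Module.finrank_eq_card_basis b, Module.finrank_fintype_fun_eq_card]
  let e := Fintype.equivOfCardEq hcard
  refine ⟨fun i => a (e i), ?_⟩
  have h1 : LinearIndependent ℂ (Matrix.of fun i l ↦ A (a (e i)) l).row :=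
    hli.comp e e.injective
  have h2 := Matrix.linearIndependent_rows_iff_isUnit.1 h1
  exact ((Matrix.isUnit_iff_isUnit_det _).1 h2).ne_zero

end CZ

end S_H32_CZ_Ca

section S_H32_CZ_Cc

set_option autoImplicit false

namespace CZ

open MvPolynomial H32.T3

theorem Cc_deg {k : ℕ} (F : MvPolynomial (Fin k) ℤ) (N : ℕ) (hN : F.totalDegree ≤ N) {m : Fin k →₀ ℕ}
    (hm : m ∈ F.support) : ∑ i, m i ≤ N := by
  have h1 := MvPolynomial.le_totalDegree hm
  rw [Finsupp.sum_fintype _ _ (fun _ => rfl)] at h1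
  exact h1.trans hN

theorem Cc_aeval {k : ℕ} (F : MvPolynomial (Fin k) ℤ) (P : Fin k → ℂ) :
    aeval P F = ∑ m ∈ F.support, ((F.coeff m : ℤ) : ℂ) * ∏ i, P i ^ m i := by
  rw [MvPolynomial.aeval_def, MvPolynomial.eval₂_eq']
  rfl

theorem aeval_le {k : ℕ} (F : MvPolynomial (Fin k) ℤ) (N : ℕ) (hN : F.totalDegree ≤ N)
    (P : Fin k → ℂ) (B : ℝ) (hB : 1 ≤ B) (hP : ∀ i, ‖P i‖ ≤ B) :
    ‖aeval P F‖ ≤ nrm F * B ^ N := by
  rw [Cc_aeval]
  refine (norm_sum_le _ _).trans ?_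
  unfold nrm
  rw [Finset.sum_mul]
  refine Finset.sum_le_sum fun m hm => ?_
  rw [norm_mul, Complex.norm_intCast, norm_prod]
  have h1 : ∏ i, ‖P i ^ m i‖ ≤ ∏ i, B ^ m i := by
    refine Finset.prod_le_prod (fun i _ => norm_nonneg _) (fun i _ => ?_)
    rw [norm_pow]
    exact pow_le_pow_left₀ (norm_nonneg _) (hP i) _
  have h2 : ∏ i, B ^ m i ≤ B ^ N := by
    rw [Finset.prod_pow_eq_pow_sum]
    exact pow_le_pow_right₀ hB (Cc_deg F N hN hm)
  exact mul_le_mul_of_nonneg_left (h1.trans h2) (abs_nonneg _)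

/-- two products of `n` factors which are close factor by factor -/
def Cc_St (B δ : ℝ) (n : ℕ) (u v : ℂ) : Prop := ‖u‖ ≤ B ^ n ∧ ‖v‖ ≤ B ^ n ∧ ‖u - v‖ ≤ n * B ^ n * δ

theorem Cc_St_one (B δ : ℝ) : Cc_St B δ 0 1 1 := by
  unfold Cc_St
  simp

theorem Cc_St_mul {B δ : ℝ} (hB : 1 ≤ B) {a b : ℕ} {u v x y : ℂ} (h1 : Cc_St B δ a u v)
    (h2 : Cc_St B δ b x y) : Cc_St B δ (a + b) (u * x) (v * y) := by
  obtain ⟨hu, hv, huv⟩ := h1
  obtain ⟨hx, hy, hxy⟩ := h2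
  have hB0 : 0 < B := by linarith
  refine ⟨?_, ?_, ?_⟩
  · rw [norm_mul, pow_add]
    exact mul_le_mul hu hx (norm_nonneg _) (by positivity)
  · rw [norm_mul, pow_add]
    exact mul_le_mul hv hy (norm_nonneg _) (by positivity)
  · have e : u * x - v * y = (u - v) * x + v * (x - y) := by ring
    rw [e]
    refine (norm_add_le _ _).trans ?_
    rw [norm_mul, norm_mul]
    have h3 : ‖u - v‖ * ‖x‖ ≤ (a * B ^ a * δ) * B ^ b :=
      mul_le_mul huv hx (norm_nonneg _) ((norm_nonneg _).trans huv)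
    have h4 : ‖v‖ * ‖x - y‖ ≤ B ^ a * (b * B ^ b * δ) :=
      mul_le_mul hv hxy (norm_nonneg _) (by positivity)
    have h5 : (a * B ^ a * δ) * B ^ b + B ^ a * (b * B ^ b * δ) = ((a + b : ℕ) : ℝ) * B ^ (a + b) * δ := by
      push_cast
      ring
    linarith

theorem Cc_St_pow {B δ : ℝ} (hB : 1 ≤ B) {u v : ℂ} (h : Cc_St B δ 1 u v) (n : ℕ) :
    Cc_St B δ n (u ^ n) (v ^ n) := by
  induction n with
  | zero => simpa using Cc_St_one B δ
  | succ n ih =>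
    rw [pow_succ, pow_succ]
    exact Cc_St_mul hB ih h

theorem Cc_St_prod {B δ : ℝ} (hB : 1 ≤ B) {ι : Type*} (s : Finset ι) (m : ι → ℕ) (u v : ι → ℂ)
    (h : ∀ i, Cc_St B δ 1 (u i) (v i)) :
    Cc_St B δ (∑ i ∈ s, m i) (∏ i ∈ s, u i ^ m i) (∏ i ∈ s, v i ^ m i) := by
  classical
  induction s using Finset.induction_on with
  | empty => simpa using Cc_St_one B δ
  | insert a s ha ih =>
    rw [Finset.sum_insert ha, Finset.prod_insert ha, Finset.prod_insert ha]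
    exact Cc_St_mul hB (Cc_St_pow hB (h a) _) ih

/-- (`0 ≤ δ` is needed only for `k = 0`.) -/
theorem aeval_sub_le {k : ℕ} (F : MvPolynomial (Fin k) ℤ) (N : ℕ) (hN : F.totalDegree ≤ N)
    (P Q : Fin k → ℂ) (B δ : ℝ) (hB : 1 ≤ B) (hP : ∀ i, ‖P i‖ ≤ B) (hQ : ∀ i, ‖Q i‖ ≤ B)
    (hδ : ∀ i, ‖Q i - P i‖ ≤ δ) (hδ0 : 0 ≤ δ) :
    ‖aeval Q F - aeval P F‖ ≤ nrm F * (N * B ^ N * δ) := by
  rw [Cc_aeval, Cc_aeval, ← Finset.sum_sub_distrib]
  refine (norm_sum_le _ _).trans ?_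
  unfold nrm
  rw [Finset.sum_mul]
  refine Finset.sum_le_sum fun m hm => ?_
  rw [← mul_sub, norm_mul, Complex.norm_intCast]
  refine mul_le_mul_of_nonneg_left ?_ (abs_nonneg _)
  have h1 : ∀ i, Cc_St B δ 1 (Q i) (P i) := by
    intro i
    refine ⟨by rw [pow_one]; exact hQ i, by rw [pow_one]; exact hP i, ?_⟩
    refine (hδ i).trans ?_
    rw [Nat.cast_one, one_mul, pow_one]
    exact le_mul_of_one_le_left hδ0 hB
  have h2 := (Cc_St_prod hB Finset.univ m Q P h1).2.2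
  refine h2.trans ?_
  have h3 : ∑ i, m i ≤ N := Cc_deg F N hN hm
  have h4 : ((∑ i, m i : ℕ) : ℝ) ≤ N := by exact_mod_cast h3
  have h5 : B ^ (∑ i, m i) ≤ B ^ N := pow_le_pow_right₀ hB h3
  have hB0 : 0 < B := by linarith
  gcongr

theorem Cc_nrm_one {k : ℕ} : nrm (1 : MvPolynomial (Fin k) ℤ) = 1 := by
  have h := nrm_monomial (0 : Fin k →₀ ℕ) (1 : ℤ)
  rw [← MvPolynomial.C_apply, MvPolynomial.C_1] at h
  rw [h]
  norm_num

theorem Cc_nrm_prod {k : ℕ} {ι : Type*} (s : Finset ι) (f : ι → MvPolynomial (Fin k) ℤ) (B : ℝ) (hB : 0 ≤ B)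
    (h : ∀ i ∈ s, nrm (f i) ≤ B) : nrm (∏ i ∈ s, f i) ≤ B ^ s.card := by
  classical
  induction s using Finset.induction_on with
  | empty => simp [Cc_nrm_one]
  | insert a s ha ih =>
    rw [Finset.prod_insert ha, Finset.card_insert_of_notMem ha, pow_succ, mul_comm (B ^ s.card)]
    refine (nrm_mul_le _ _).trans ?_
    exact mul_le_mul (h a (Finset.mem_insert_self _ _)) (ih fun i hi => h i (Finset.mem_insert_of_mem hi))
      (nrm_nonneg _) hB

theorem Cc_nrm_sign {k : ℕ} (u : ℤˣ) (p : MvPolynomial (Fin k) ℤ) : nrm (u • p) = nrm p := by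
  rcases Int.units_eq_one_or u with h | h
  · rw [h, one_smul]
  · rw [h]
    have e : ((-1 : ℤˣ) • p) = -p := by simp
    rw [e]
    unfold nrm
    rw [MvPolynomial.support_neg]
    refine Finset.sum_congr rfl fun m _ => ?_
    rw [MvPolynomial.coeff_neg]
    push_cast
    rw [abs_neg]

theorem nrm_det_le {k : ℕ} {Λ : Type*} [Fintype Λ] [DecidableEq Λ]
    (M : Matrix Λ Λ (MvPolynomial (Fin k) ℤ)) (B : ℝ) (hB : 0 ≤ B) (h : ∀ i j, nrm (M i j) ≤ B) :
    nrm M.det ≤ (Fintype.card Λ : ℝ) ^ Fintype.card Λ * B ^ Fintype.card Λ := by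
  rw [Matrix.det_apply]
  refine (nrm_sum_le _ _).trans ?_
  have h1 : ∀ σ ∈ (Finset.univ : Finset (Equiv.Perm Λ)),
      nrm (Equiv.Perm.sign σ • ∏ i, M (σ i) i) ≤ B ^ Fintype.card Λ := by
    intro σ _
    rw [Cc_nrm_sign]
    exact Cc_nrm_prod Finset.univ _ B hB fun i _ => h _ _
  refine (Finset.sum_le_sum h1).trans ?_
  rw [Finset.sum_const, nsmul_eq_mul, Finset.card_univ, Fintype.card_perm]
  have h2 : ((Fintype.card Λ).factorial : ℝ) ≤ (Fintype.card Λ : ℝ) ^ Fintype.card Λ := by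
    exact_mod_cast Nat.factorial_le_pow _
  exact mul_le_mul_of_nonneg_right h2 (by positivity)

theorem totalDegree_det_le {k : ℕ} {Λ : Type*} [Fintype Λ] [DecidableEq Λ]
    (M : Matrix Λ Λ (MvPolynomial (Fin k) ℤ)) (N : ℕ) (h : ∀ i j, (M i j).totalDegree ≤ N) :
    M.det.totalDegree ≤ Fintype.card Λ * N := by
  rw [Matrix.det_apply]
  refine MvPolynomial.totalDegree_finsetSum_le fun σ _ => ?_
  have h1 : (Equiv.Perm.sign σ • ∏ i, M (σ i) i).totalDegree ≤ (∏ i, M (σ i) i).totalDegree :=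
    MvPolynomial.totalDegree_smul_le _ _
  refine h1.trans ((MvPolynomial.totalDegree_finsetProd _ _).trans ?_)
  refine (Finset.sum_le_sum fun i _ => h _ _).trans ?_
  rw [Finset.sum_const, Finset.card_univ, smul_eq_mul]

end CZ

end S_H32_CZ_Cc

section S_H32_CZ_Cg

set_option autoImplicit false

namespace CZ

open MvPolynomial
open H32.T3 (nrm)

theorem exists_J {k : ℕ} (P : Fin k → ℂ) : ∃ M1 : ℕ, ∀ M : ℕ, M1 ≤ M →
    ∀ (Λ : Type) (_ : Fintype Λ) (_ : DecidableEq Λ) (R : Type)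
      (W : R → Λ → MvPolynomial (Fin k) ℤ), Real.log (Fintype.card Λ) ≤ M →
      (∀ s l, ((W s l).totalDegree : ℝ) ≤ (M : ℝ) ^ 1410 ∧
        nrm (W s l) ≤ Real.exp ((M : ℝ) ^ 1410)) →
      (∀ c : Λ → ℂ, (∀ l, ‖c l‖ ≤ 1) → (∃ l, ‖c l‖ = 1) →
        ∃ s, Real.exp (-(M : ℝ) ^ 4430) ≤ ‖∑ l, c l * aeval P (W s l)‖) →
    ∀ Q : Fin k → ℂ, (∀ i, ‖Q i - P i‖ ≤ Real.exp (-(3 * (M : ℝ) ^ 4430))) →
      ∃ J : Λ → R, (Matrix.of fun i l ↦ aeval Q (W (J i) l)).det ≠ 0 := by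
  obtain ⟨B, hB⟩ : ∃ B : ℝ, B = 2 + ∑ i, ‖P i‖ := ⟨_, rfl⟩
  have hPs : ∀ i, ‖P i‖ ≤ ∑ i, ‖P i‖ := fun i =>
    Finset.single_le_sum (f := fun i => ‖P i‖) (fun j _ => norm_nonneg _) (Finset.mem_univ i)
  have hB2 : 2 ≤ B := by
    rw [hB]
    have : 0 ≤ ∑ i, ‖P i‖ := Finset.sum_nonneg fun i _ => norm_nonneg _
    linarith
  have hB1 : 1 ≤ B := by linarith
  have hlB : 0 ≤ Real.log B := Real.log_nonneg hB1
  have hPB : ∀ i, ‖P i‖ ≤ B := fun i => by
    have := hPs i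
    linarith
  refine ⟨⌈3 + Real.log B⌉₊, ?_⟩
  intro M hM Λ _ _ R W hcard hW hZ Q hQ
  have hM' : 3 + Real.log B ≤ (M : ℝ) := (Nat.le_ceil _).trans (by exact_mod_cast hM)
  have hM3 : 3 ≤ (M : ℝ) := by linarith
  have hM1 : 1 ≤ (M : ℝ) := by linarith
  have hMN : (M : ℝ) ≤ (M : ℝ) ^ 1410 := le_self_pow₀ hM1 (by norm_num)
  have hNZ : (M : ℝ) ^ 1410 * M ≤ (M : ℝ) ^ 4430 := by
    rw [← pow_succ]
    exact pow_le_pow_right₀ hM1 (by norm_num)
  have hdeg : ∀ s l, (W s l).totalDegree ≤ M ^ 1410 := by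
    intro s l
    have h := (hW s l).1
    have h2 : ((W s l).totalDegree : ℝ) ≤ ((M ^ 1410 : ℕ) : ℝ) := by
      rw [Nat.cast_pow]
      exact h
    exact Nat.cast_le.1 h2
  have hNc : ((M ^ 1410 : ℕ) : ℝ) = (M : ℝ) ^ 1410 := Nat.cast_pow _ _
  generalize hNn : M ^ 1410 = Nn at hdeg hNc
  generalize (M : ℝ) ^ 1410 = N at hMN hNZ hNc hW
  generalize (M : ℝ) ^ 4430 = Z at hNZ hZ hQ
  have hN1 : 1 ≤ N := by linarith
  have hN0 : 0 < N := by linarith
  have hZ0 : 0 < Z := by nlinarith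
  have hδ1 : Real.exp (-(3 * Z)) ≤ 1 := Real.exp_le_one_iff.2 (by linarith)
  have hQB : ∀ i, ‖Q i‖ ≤ B := by
    intro i
    have h1 : ‖Q i‖ ≤ ‖Q i - P i‖ + ‖P i‖ := by
      have := norm_add_le (Q i - P i) (P i)
      rwa [sub_add_cancel] at this
    have h2 := hQ i
    have h3 := hPs i
    linarith
  apply exists_det_ne_zero (fun s l => aeval Q (W s l))
  intro c hc
  by_contra hcon
  push Not at hcon
  have hne : ∃ l, c l ≠ 0 := Function.ne_iff.1 hc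
  obtain ⟨l1, hl1⟩ := hne
  haveI : Nonempty Λ := ⟨l1⟩
  obtain ⟨l0, hl0⟩ := Finite.exists_max (fun l => ‖c l‖)
  have hm0 : 0 < ‖c l0‖ := lt_of_lt_of_le (norm_pos_iff.2 hl1) (hl0 l1)
  have hcn : ∀ l, ‖c l * ((‖c l0‖ : ℝ) : ℂ)⁻¹‖ = ‖c l‖ / ‖c l0‖ := by
    intro l
    rw [norm_mul, norm_inv, Complex.norm_real, norm_norm, div_eq_mul_inv]
  obtain ⟨s, hs⟩ := hZ (fun l => c l * ((‖c l0‖ : ℝ) : ℂ)⁻¹)
    (fun l => by
      rw [hcn, div_le_one hm0]
      exact hl0 l)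
    ⟨l0, by rw [hcn, div_self hm0.ne']⟩
  have h0 : ∑ l, (c l * ((‖c l0‖ : ℝ) : ℂ)⁻¹) * aeval Q (W s l) = 0 := by
    have e : ∀ l ∈ (Finset.univ : Finset Λ), (c l * ((‖c l0‖ : ℝ) : ℂ)⁻¹) * aeval Q (W s l) =
        (c l * aeval Q (W s l)) * ((‖c l0‖ : ℝ) : ℂ)⁻¹ := fun l _ => by ring
    rw [Finset.sum_congr rfl e, ← Finset.sum_mul, hcon s, zero_mul]
  have hdiff : ‖∑ l, (c l * ((‖c l0‖ : ℝ) : ℂ)⁻¹) * aeval P (W s l)‖ ≤
      (Fintype.card Λ : ℝ) * (Real.exp N * (N * B ^ Nn * Real.exp (-(3 * Z)))) := by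
    have e : ∑ l, (c l * ((‖c l0‖ : ℝ) : ℂ)⁻¹) * aeval P (W s l) =
        ∑ l, -((c l * ((‖c l0‖ : ℝ) : ℂ)⁻¹) * (aeval Q (W s l) - aeval P (W s l))) := by
      have e2 : ∀ l ∈ (Finset.univ : Finset Λ),
          -((c l * ((‖c l0‖ : ℝ) : ℂ)⁻¹) * (aeval Q (W s l) - aeval P (W s l))) =
          (c l * ((‖c l0‖ : ℝ) : ℂ)⁻¹) * aeval P (W s l) -
            (c l * ((‖c l0‖ : ℝ) : ℂ)⁻¹) * aeval Q (W s l) := fun l _ => by ring
      rw [Finset.sum_congr rfl e2, Finset.sum_sub_distrib, h0, sub_zero]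
    rw [e]
    have h1 := norm_sum_le (Finset.univ : Finset Λ)
      (fun l => -((c l * ((‖c l0‖ : ℝ) : ℂ)⁻¹) * (aeval Q (W s l) - aeval P (W s l))))
    refine h1.trans ?_
    have h2 : ∀ l ∈ (Finset.univ : Finset Λ),
        ‖-((c l * ((‖c l0‖ : ℝ) : ℂ)⁻¹) * (aeval Q (W s l) - aeval P (W s l)))‖ ≤
        Real.exp N * (N * B ^ Nn * Real.exp (-(3 * Z))) := by
      intro l _
      rw [norm_neg, norm_mul, hcn]
      have g1 : ‖c l‖ / ‖c l0‖ ≤ 1 := by
        rw [div_le_one hm0]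
        exact hl0 l
      have g2 := aeval_sub_le (W s l) Nn (hdeg s l) P Q B (Real.exp (-(3 * Z))) hB1 hPB hQB hQ
        (Real.exp_pos _).le
      rw [hNc] at g2
      have g3 : nrm (W s l) * (N * B ^ Nn * Real.exp (-(3 * Z))) ≤
          Real.exp N * (N * B ^ Nn * Real.exp (-(3 * Z))) :=
        mul_le_mul_of_nonneg_right (hW s l).2 (by positivity)
      calc ‖c l‖ / ‖c l0‖ * ‖aeval Q (W s l) - aeval P (W s l)‖
          ≤ 1 * ‖aeval Q (W s l) - aeval P (W s l)‖ :=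
            mul_le_mul_of_nonneg_right g1 (norm_nonneg _)
        _ = ‖aeval Q (W s l) - aeval P (W s l)‖ := one_mul _
        _ ≤ _ := g2.trans g3
    refine (Finset.sum_le_sum h2).trans (le_of_eq ?_)
    rw [Finset.sum_const, Finset.card_univ, nsmul_eq_mul]
  have hL0 : 0 < (Fintype.card Λ : ℝ) := by exact_mod_cast Fintype.card_pos
  have hL : (Fintype.card Λ : ℝ) ≤ Real.exp M := (Real.log_le_iff_le_exp hL0).1 hcard
  have hNe : N ≤ Real.exp N := by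
    have := Real.add_one_le_exp N
    linarith
  have hBe : B ^ Nn = Real.exp (N * Real.log B) := by
    rw [← hNc, mul_comm, Real.exp_mul, Real.exp_log (by linarith), Real.rpow_natCast]
  have hbig : (Fintype.card Λ : ℝ) * (Real.exp N * (N * B ^ Nn * Real.exp (-(3 * Z)))) ≤
      Real.exp (M + N + N + N * Real.log B + -(3 * Z)) := by
    rw [hBe, Real.exp_add, Real.exp_add, Real.exp_add, Real.exp_add]
    have h1 : Real.exp N * (N * Real.exp (N * Real.log B) * Real.exp (-(3 * Z))) ≤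
        Real.exp N * (Real.exp N * Real.exp (N * Real.log B) * Real.exp (-(3 * Z))) := by
      gcongr
    calc (Fintype.card Λ : ℝ) *
          (Real.exp N * (N * Real.exp (N * Real.log B) * Real.exp (-(3 * Z))))
        ≤ Real.exp M *
          (Real.exp N * (Real.exp N * Real.exp (N * Real.log B) * Real.exp (-(3 * Z)))) := by
          exact mul_le_mul hL h1 (by positivity) (by positivity)
      _ = _ := by ring
  have hfin : Real.exp (M + N + N + N * Real.log B + -(3 * Z)) < Real.exp (-Z) := by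
    apply Real.exp_lt_exp.2
    have h1 : N * (3 + Real.log B) ≤ N * M := mul_le_mul_of_nonneg_left hM' hN0.le
    nlinarith
  linarith

end CZ

end S_H32_CZ_Cg

section S_H32_CZ_Q0

set_option autoImplicit false

namespace CZ

open MvPolynomial
open H32.T3 (nrm)

/-- The variables. -/
abbrev Vr : Type := (Fin 3 × Fin 6) ⊕ Fin 8

/-- Twisted derivation. -/
noncomputable def TD {σ : Type*} (dv : σ → MvPolynomial σ ℤ) (g P : MvPolynomial σ ℤ) :
    MvPolynomial σ ℤ := mkDerivation ℤ dv P + g * P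

/-- Variables `X_j`, `X1_j`, `Y_j`. -/
noncomputable def xv (a : Fin 3) (j : Fin 6) : MvPolynomial Vr ℤ := X (Sum.inl (a, j))

/-- The other variables. -/
noncomputable def kv (i : Fin 8) : MvPolynomial Vr ℤ := X (Sum.inr i)

/-- The six forms, as polynomials. -/
noncomputable def nuP (j : Fin 6) (x : MvPolynomial Vr ℤ) : MvPolynomial Vr ℤ :=
  (![1, x, x ^ 2, 1 + x, 1 + x ^ 2, x + x ^ 2] : Fin 6 → MvPolynomial Vr ℤ) j

/-- `u_j` in the direction `(1, m)`. -/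
noncomputable def alP (m : ℕ) (j : Fin 6) : MvPolynomial Vr ℤ :=
  (kv 1 - kv 2) * nuP j (kv 2) + C (m : ℤ) * ((kv 1 - kv 3) * nuP j (kv 3))

/-- The derivation on the variables. -/
noncomputable def dvP (m : ℕ) : Vr → MvPolynomial Vr ℤ
  | Sum.inl (0, j) => alP m j * xv 1 j
  | Sum.inl (1, j) => alP m j * (C 6 * xv 0 j ^ 2 - kv 5)
  | Sum.inl (2, j) => alP m j * (-xv 0 j - kv 6)
  | Sum.inr 0 => 1
  | Sum.inr _ => 0

section

variable (c : CData)

/-- `f'`. -/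
noncomputable def fpP (x : MvPolynomial Vr ℤ) : MvPolynomial Vr ℤ :=
  C 3 * x ^ 2 + C (2 * c.b2) * kv 4 * x + C c.b1 * kv 4

/-- `N f' x^l`. -/
noncomputable def beP (l : Fin 2) (x : MvPolynomial Vr ℤ) : MvPolynomial Vr ℤ :=
  (C (3 * (c.N : ℤ)) * x ^ 2 + C (2 * c.b2) * x + C c.b1) * x ^ (l : ℕ)

/-- The coefficients of `(f x - f y)/(x - y)`. -/
noncomputable def ccP (j : Fin 3) (x : MvPolynomial Vr ℤ) : MvPolynomial Vr ℤ :=
  (![x ^ 2 + C c.b2 * kv 4 * x + C c.b1 * kv 4, x + C c.b2 * kv 4, 1] :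
    Fin 3 → MvPolynomial Vr ℤ) j

/-- `Z_1 / W`. -/
noncomputable def zP1 : MvPolynomial Vr ℤ :=
  ∑ j : Fin 3, ccP c j (kv 2) * xv 2 (i3 j) + kv 7 * fpP c (kv 2) * kv 0

/-- `Z_2 / W` in the direction `(1, m)`. -/
noncomputable def zP2 (m : ℕ) : MvPolynomial Vr ℤ :=
  ∑ j : Fin 3, ccP c j (kv 3) * xv 2 (i3 j) + C (m : ℤ) * (kv 7 * fpP c (kv 3) * kv 0)

/-- The algebraic part of `Φ_l`. -/
noncomputable def polP {D : ℕ} (m : ℕ) (l : Fin 7 → Fin (D + 1)) : MvPolynomial Vr ℤ :=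
  xv 0 0 ^ (l 0 : ℕ) * xv 0 1 ^ (l 1 : ℕ) * xv 0 2 ^ (l 2 : ℕ) * zP1 c ^ (l 3 : ℕ) *
    zP2 c m ^ (l 4 : ℕ)

/-- The exponent of `A(u_j)` in `Φ_l`. -/
def nnE (D : ℕ) (l : Fin 7 → Fin (D + 1)) (j : Fin 6) : ℕ :=
  (if (j : ℕ) < 3 then 4 * D else 0) +
    (c.hp 0 j * (l 5 : ℕ) + c.hm 0 j * (D - (l 5 : ℕ))) +
    (c.hp 1 j * (l 6 : ℕ) + c.hm 1 j * (D - (l 6 : ℕ)))

/-- The factor of the twisted derivation. -/
noncomputable def gP (D m : ℕ) (l : Fin 7 → Fin (D + 1)) : MvPolynomial Vr ℤ :=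
  ∑ j : Fin 6, C (nnE c D l j : ℤ) * (alP m j * xv 2 j) +
    kv 7 * kv 0 * (C ((l 5 : ℕ) : ℤ) * (beP c 0 (kv 2) * (kv 1 - kv 2) +
        C ((m : ℤ) ^ 2) * (beP c 0 (kv 3) * (kv 1 - kv 3))) +
      C ((l 6 : ℕ) : ℤ) * (beP c 1 (kv 2) * (kv 1 - kv 2) +
        C ((m : ℤ) ^ 2) * (beP c 1 (kv 3) * (kv 1 - kv 3))))

/-- The polynomial of the jet `J s m (Φ_l)`. -/
noncomputable def jP (D s m : ℕ) (l : Fin 7 → Fin (D + 1)) : MvPolynomial Vr ℤ :=
  (TD (dvP m) (gP c D m l))^[s] (polP c m l)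

end

/-- The analytic data near `0` attached to base functions: `X = B / A ^ 2` etc. -/
structure BaseSys {z : ℂ} (b : BaseFn z) (lam h kap ep : ℂ) (ε : ℝ) (X X1 Y : ℂ → ℂ) : Prop where
  hε : 0 < ε
  hlam : lam ≠ 0
  hmu : b.mu = lam⁻¹
  hB : ∀ s : ℂ, ‖s‖ < ε → b.B s = b.A s ^ 2 * X s
  hA : ∀ s : ℂ, ‖s‖ < ε → b.mu * deriv b.A s = b.A s * Y s
  dX : ∀ s : ℂ, ‖s‖ < ε → HasDerivAt X (lam * X1 s) s
  dX1 : ∀ s : ℂ, ‖s‖ < ε → HasDerivAt X1 (lam * (6 * X s ^ 2 - h)) s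
  dY : ∀ s : ℂ, ‖s‖ < ε → HasDerivAt Y (lam * (-X s - kap)) s
  X0 : X 0 = ep
  X10 : X1 0 = 0
  Y0 : Y 0 = 0

/-- The constants. -/
noncomputable def cst (c : CData) (lam h kap ep : ℂ) : Vr → ℂ
  | Sum.inl (0, _) => ep
  | Sum.inl (_, _) => 0
  | Sum.inr i => (![0, c.z, c.zb, c.r, 1 / c.N, h, kap, 2 * Real.pi * Complex.I / lam ^ 2] :
      Fin 8 → ℂ) i

end CZ

end S_H32_CZ_Q0

section S_H32_CZ_Qa

set_option autoImplicit false

namespace CZ

open MvPolynomial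
open H32.T3 (nrm)

variable {σ : Type*} [Fintype σ]

private lemma der_monomial' (dv : σ → MvPolynomial σ ℤ) (s : σ →₀ ℕ) (r : ℤ) :
    mkDerivation ℤ dv (monomial s r) =
      r • ∑ i, monomial (s - Finsupp.single i 1) ((s i : ℕ) : ℤ) * dv i := by
  rw [mkDerivation_monomial, Finsupp.sum_fintype _ _ (by simp)]
  simp [smul_eq_mul]

private lemma nrm_der_monomial (dv : σ → MvPolynomial σ ℤ) (a : ℝ) (hc : ∀ i, nrm (dv i) ≤ a)
    (s : σ →₀ ℕ) (r : ℤ) :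
    nrm (mkDerivation ℤ dv (monomial s r)) ≤ |(r : ℝ)| * (a * s.degree) := by
  rw [der_monomial', smul_eq_C_mul]
  refine (H32.T3.nrm_mul_le _ _).trans ?_
  rw [H32.T3.nrm_C]
  gcongr
  refine (H32.T3.nrm_sum_le _ _).trans ?_
  calc ∑ i, nrm (monomial (s - Finsupp.single i 1) ((s i : ℕ) : ℤ) * dv i)
      ≤ ∑ i, (s i : ℝ) * a := by
        refine Finset.sum_le_sum fun i _ ↦ (H32.T3.nrm_monomial_mul _ _ _).trans ?_
        have := hc i
        have h0 : (0 : ℝ) ≤ s i := by positivity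
        simp only [Int.cast_natCast, abs_of_nonneg h0]
        gcongr
    _ = a * s.degree := by
        rw [← Finset.sum_mul, Finsupp.degree_eq_sum]
        push_cast
        ring

private lemma degree_le_of_mem (P : MvPolynomial σ ℤ) {m : σ →₀ ℕ} (hm : m ∈ P.support) :
    m.degree ≤ P.totalDegree := by
  have := le_totalDegree hm
  rw [Finsupp.sum_fintype _ _ (by simp)] at this
  rwa [Finsupp.degree_eq_sum]

private lemma nrm_der_le (dv : σ → MvPolynomial σ ℤ) (a : ℝ) (ha : 0 ≤ a)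
    (hc : ∀ i, nrm (dv i) ≤ a) (P : MvPolynomial σ ℤ) :
    nrm (mkDerivation ℤ dv P) ≤ a * P.totalDegree * nrm P := by
  conv_lhs => rw [P.as_sum, map_sum]
  refine (H32.T3.nrm_sum_le _ _).trans ?_
  rw [nrm, Finset.mul_sum]
  refine Finset.sum_le_sum fun m hm ↦ (nrm_der_monomial dv a hc _ _).trans ?_
  have h1 := degree_le_of_mem P hm
  have h2 : (m.degree : ℝ) ≤ P.totalDegree := by exact_mod_cast h1
  have h3 := abs_nonneg ((coeff m P : ℤ) : ℝ)
  rw [mul_comm]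
  gcongr

private lemma deg_der_monomial (dv : σ → MvPolynomial σ ℤ) (e : ℕ)
    (hdv : ∀ i, (dv i).totalDegree ≤ e + 1) (s : σ →₀ ℕ) (r : ℤ) :
    (mkDerivation ℤ dv (monomial s r)).totalDegree ≤ s.degree + e := by
  rw [der_monomial']
  refine (totalDegree_smul_le _ _).trans ?_
  refine totalDegree_finsetSum_le fun i _ ↦ ?_
  rcases Nat.eq_zero_or_pos (s i) with h | h
  · simp [h]
  refine (totalDegree_mul _ _).trans ?_
  have h1 := hdv i
  have h2 : (monomial (s - Finsupp.single i 1) ((s i : ℕ) : ℤ)).totalDegree + 1 ≤ s.degree := by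
    rw [totalDegree_monomial _ (by exact_mod_cast h.ne')]
    have h3 : (s - Finsupp.single i 1) + Finsupp.single i 1 = s :=
      tsub_add_cancel_of_le (by
        rw [Finsupp.single_le_iff]; exact h)
    have h4 := congrArg Finsupp.degree h3
    rw [map_add, Finsupp.degree_single] at h4
    rw [Finsupp.degree_eq_sum, ← Finsupp.sum_fintype (f := s - Finsupp.single i 1)
      (fun _ e ↦ e) (by simp)] at h4
    exact h4.le
  omega

private lemma deg_der_le (dv : σ → MvPolynomial σ ℤ) (e : ℕ)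
    (hdv : ∀ i, (dv i).totalDegree ≤ e + 1) (P : MvPolynomial σ ℤ) :
    (mkDerivation ℤ dv P).totalDegree ≤ P.totalDegree + e := by
  conv_lhs => rw [P.as_sum, map_sum]
  refine totalDegree_finsetSum_le fun m hm ↦ (deg_der_monomial dv e hdv _ _).trans ?_
  have h1 := degree_le_of_mem P hm
  omega

private lemma deg_TD_le (dv : σ → MvPolynomial σ ℤ) (g : MvPolynomial σ ℤ) (e : ℕ)
    (hdv : ∀ i, (dv i).totalDegree ≤ e + 1) (hg : g.totalDegree ≤ e) (P : MvPolynomial σ ℤ) :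
    (TD dv g P).totalDegree ≤ P.totalDegree + e := by
  rw [TD]
  refine (totalDegree_add _ _).trans (max_le (deg_der_le dv e hdv P) ?_)
  have := totalDegree_mul g P
  omega

theorem deg_TD_iter (dv : σ → MvPolynomial σ ℤ) (g : MvPolynomial σ ℤ) (e : ℕ)
    (hdv : ∀ i, (dv i).totalDegree ≤ e + 1) (hg : g.totalDegree ≤ e) (P : MvPolynomial σ ℤ)
    (t : ℕ) : ((TD dv g)^[t] P).totalDegree ≤ P.totalDegree + e * t := by
  induction t with
  | zero => simp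
  | succ t ih =>
    rw [Function.iterate_succ_apply']
    have := deg_TD_le dv g e hdv hg ((TD dv g)^[t] P)
    rw [mul_add, mul_one]
    omega

private lemma nrm_TD_le (dv : σ → MvPolynomial σ ℤ) (g : MvPolynomial σ ℤ) (a ag : ℝ)
    (ha : 0 ≤ a) (hc : ∀ i, nrm (dv i) ≤ a) (hcg : nrm g ≤ ag) (P : MvPolynomial σ ℤ) :
    nrm (TD dv g P) ≤ (a * P.totalDegree + ag) * nrm P := by
  rw [TD]
  refine (H32.T3.nrm_add_le _ _).trans ?_
  have h1 := nrm_der_le dv a ha hc P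
  have h2 := H32.T3.nrm_mul_le g P
  have h3 := mul_le_mul_of_nonneg_right hcg (H32.T3.nrm_nonneg P)
  rw [add_mul]
  linarith

theorem nrm_TD_iter (dv : σ → MvPolynomial σ ℤ) (g : MvPolynomial σ ℤ) (e : ℕ)
    (hdv : ∀ i, (dv i).totalDegree ≤ e + 1) (hg : g.totalDegree ≤ e) (a ag : ℝ) (ha : 0 ≤ a)
    (hc : ∀ i, nrm (dv i) ≤ a) (hcg : nrm g ≤ ag) (P : MvPolynomial σ ℤ) (t : ℕ) :
    nrm ((TD dv g)^[t] P) ≤ (a * (P.totalDegree + e * t) + ag) ^ t * nrm P := by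
  have hag : 0 ≤ ag := (H32.T3.nrm_nonneg g).trans hcg
  have key : ∀ s, s ≤ t →
      nrm ((TD dv g)^[s] P) ≤ (a * ((P.totalDegree : ℝ) + e * t) + ag) ^ s * nrm P := by
    intro s
    induction s with
    | zero => intro _; simp
    | succ s ih =>
      intro hs
      rw [Function.iterate_succ_apply']
      refine (nrm_TD_le dv g a ag ha hc hcg _).trans ?_
      have h1 : (((TD dv g)^[s] P).totalDegree : ℝ) ≤ P.totalDegree + e * t := by
        have h := deg_TD_iter dv g e hdv hg P s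
        have h' : e * s ≤ e * t := Nat.mul_le_mul_left e (by omega)
        exact_mod_cast (show ((TD dv g)^[s] P).totalDegree ≤ P.totalDegree + e * t by omega)
      have h2 := ih (by omega)
      have h3 := H32.T3.nrm_nonneg ((TD dv g)^[s] P)
      calc (a * (((TD dv g)^[s] P).totalDegree : ℝ) + ag) * nrm ((TD dv g)^[s] P)
          ≤ (a * ((P.totalDegree : ℝ) + e * t) + ag) *
              ((a * ((P.totalDegree : ℝ) + e * t) + ag) ^ s * nrm P) := by gcongr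
        _ = _ := by rw [pow_succ]; ring
  exact key t le_rfl

theorem nrm_rename {τ : Type*} [Fintype τ] (e : σ ≃ τ) (P : MvPolynomial σ ℤ) :
    nrm (rename e P) = nrm P := by
  classical
  unfold nrm
  rw [support_rename_of_injective e.injective,
    Finset.sum_image (fun x _ y _ h ↦ Finsupp.mapDomain_injective e.injective h)]
  refine Finset.sum_congr rfl fun m _ ↦ ?_
  rw [coeff_rename_mapDomain _ e.injective]

theorem hasDerivAt_aeval' {f : σ → ℂ → ℂ} {lam u : ℂ} (dv : σ → MvPolynomial σ ℤ)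
    (hf : ∀ i, HasDerivAt (f i) (lam * aeval (fun j ↦ f j u) (dv i)) u)
    (P : MvPolynomial σ ℤ) :
    HasDerivAt (fun v ↦ aeval (fun j ↦ f j v) P)
      (lam * aeval (fun j ↦ f j u) (mkDerivation ℤ dv P)) u := by
  induction P using MvPolynomial.induction_on with
  | C a =>
    simp only [algHom_C, derivation_C, map_zero, mul_zero]
    exact hasDerivAt_const _ _
  | add p q hp hq =>
    simp only [map_add, mul_add]
    exact hp.add hq
  | mul_X p i hp =>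
    have h := hp.mul (hf i)
    have e : (fun u ↦ aeval (fun j ↦ f j u) (p * X i)) =
        (fun u ↦ aeval (fun j ↦ f j u) p) * f i := by
      ext u; simp
    have hD : mkDerivation ℤ dv (X i) = dv i := mkDerivation_X _ _ _
    have e2 : lam * aeval (fun j ↦ f j u) (mkDerivation ℤ dv (p * X i)) =
        lam * aeval (fun j ↦ f j u) (mkDerivation ℤ dv p) * f i u +
          aeval (fun j ↦ f j u) p * (lam * aeval (fun j ↦ f j u) (dv i)) := by
      rw [Derivation.leibniz, hD]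
      simp only [smul_eq_mul, map_add, map_mul, aeval_X]
      ring
    rw [e, e2]
    exact h

theorem iteratedDeriv_TD {f : σ → ℂ → ℂ} {m : ℂ → ℂ} {lam : ℂ} (dv : σ → MvPolynomial σ ℤ)
    (g : MvPolynomial σ ℤ) (U : Set ℂ) (hU : IsOpen U)
    (hf : ∀ u ∈ U, ∀ i, HasDerivAt (f i) (lam * aeval (fun j ↦ f j u) (dv i)) u)
    (hm : ∀ u ∈ U, HasDerivAt m (lam * (m u * aeval (fun j ↦ f j u) g)) u)
    (P : MvPolynomial σ ℤ) (s : ℕ) (u : ℂ) (hu : u ∈ U) :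
    iteratedDeriv s (fun v ↦ m v * aeval (fun j ↦ f j v) P) u =
      lam ^ s * (m u * aeval (fun j ↦ f j u) ((TD dv g)^[s] P)) := by
  induction s generalizing u with
  | zero => simp
  | succ s ih =>
    rw [iteratedDeriv_succ]
    have heq : iteratedDeriv s (fun v ↦ m v * aeval (fun j ↦ f j v) P) =ᶠ[nhds u]
        fun v ↦ lam ^ s * (m v * aeval (fun j ↦ f j v) ((TD dv g)^[s] P)) := by
      filter_upwards [hU.mem_nhds hu] with v hv
      exact ih v hv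
    rw [heq.deriv_eq, Function.iterate_succ_apply']
    have h1 := ((hm u hu).mul (hasDerivAt_aeval' dv (hf u hu) ((TD dv g)^[s] P))).const_mul
      (lam ^ s)
    have h2 := h1.deriv
    have h3 : (fun v ↦ lam ^ s * (m v * aeval (fun j ↦ f j v) ((TD dv g)^[s] P))) =
        fun y ↦ lam ^ s * (m * fun v ↦ aeval (fun j ↦ f j v) ((TD dv g)^[s] P)) y := rfl
    rw [h3, h2]
    simp only [TD, map_add, map_mul]
    ring

end CZ

end S_H32_CZ_Qa
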