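import Mathlib

/-! Modular Schanuel with derivatives for points algebraic over a field with good approximations, part 6: this file joins several modules to save build time. -/

section S_H32_E2s

open UpperHalfPlane hiding I
open Complex EisensteinSeries ModularForm MatrixGroups
open scoped Real

namespace H32

/-- The almost holomorphic weight two Eisenstein series. -/
noncomputable def E2s (τ : ℍ) : ℂ := EisensteinSeries.E2 τ - 3 / (π * (τ.im : ℂ))

lemma E2_smul (γ : SL(2, ℤ)) (τ : ℍ) :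
    EisensteinSeries.E2 (γ • τ) = (denom γ τ) ^ 2 * EisensteinSeries.E2 τ
      - 6 * I / π * (γ 1 0 : ℂ) * denom γ τ := by
  have h := congrFun (EisensteinSeries.E2_slash_action γ) τ
  have hd : denom (γ : GL (Fin 2) ℝ) τ ≠ 0 := denom_ne_zero _ τ
  have hpi : (π : ℂ) ≠ 0 := by exact_mod_cast Real.pi_ne_zero
  simp only [ModularForm.SL_slash_apply, Pi.sub_apply, Pi.smul_apply, EisensteinSeries.D2,
    riemannZeta_two, smul_eq_mul] at h
  rw [zpow_neg, ← div_eq_mul_inv, div_eq_iff (zpow_ne_zero _ hd)] at h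
  rw [h]
  simp only [zpow_ofNat]
  field_simp

lemma E2s_smul (γ : SL(2, ℤ)) (τ : ℍ) :
    E2s (γ • τ) = (denom γ τ) ^ 2 * E2s τ := by
  have hd : denom (γ : GL (Fin 2) ℝ) τ ≠ 0 := denom_ne_zero _ τ
  have hpi : (π : ℂ) ≠ 0 := by exact_mod_cast Real.pi_ne_zero
  have hy : (τ.im : ℂ) ≠ 0 := by exact_mod_cast τ.im_ne_zero
  have him : ((γ • τ).im : ℂ) = τ.im / (denom γ τ * (starRingEnd ℂ) (denom γ τ)) := by
    rw [ModularGroup.im_smul_eq_div_normSq]
    push_cast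
    rw [Complex.normSq_eq_conj_mul_self]
    ring
  have hconj : (starRingEnd ℂ) (denom (γ : GL (Fin 2) ℝ) τ) = denom γ τ - 2 * I * τ.im * (γ 1 0 : ℂ) := by
    rw [ModularGroup.denom_apply]
    apply Complex.ext <;> simp <;> ring
  have hc : (starRingEnd ℂ) (denom (γ : GL (Fin 2) ℝ) τ) ≠ 0 := by
    simpa using hd
  unfold E2s
  rw [E2_smul, him, hconj]
  rw [hconj] at hc
  field_simp
  ring_nf
  try simp [Complex.I_sq]
  try ring

end H32

end S_H32_E2s

section S_H32_IntQ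

open UpperHalfPlane hiding I
open Complex EisensteinSeries ModularForm MatrixGroups
open scoped Real

namespace H32

/-- The nome. -/
noncomputable def qq (τ : ℍ) : ℂ := Function.Periodic.qParam 1 (τ : ℂ)

lemma qq_eq (τ : ℍ) : qq τ = Complex.exp (2 * π * I * τ) := by
  simp [qq, Function.Periodic.qParam]

lemma norm_qq_lt (τ : ℍ) : ‖qq τ‖ < 1 := Function.Periodic.norm_qParam_lt_one one_pos τ.im_pos

/-- `f` has a convergent `q`-expansion with integral coefficients. -/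
def IntQ (f : ℍ → ℂ) : Prop :=
  ∃ c : ℕ → ℤ, ∀ τ : ℍ, HasSum (fun m : ℕ ↦ (c m : ℂ) * qq τ ^ m) (f τ)

lemma IntQ.const (n : ℤ) : IntQ (fun _ ↦ (n : ℂ)) := by
  refine ⟨fun m ↦ if m = 0 then n else 0, fun τ ↦ ?_⟩
  convert hasSum_ite_eq 0 (n : ℂ) using 2 with m
  split_ifs with h <;> simp [h]

lemma IntQ.add {f g : ℍ → ℂ} (hf : IntQ f) (hg : IntQ g) : IntQ (fun τ ↦ f τ + g τ) := by
  obtain ⟨a, ha⟩ := hf
  obtain ⟨b, hb⟩ := hg
  refine ⟨fun m ↦ a m + b m, fun τ ↦ ?_⟩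
  convert (ha τ).add (hb τ) using 2 with m
  push_cast; ring

lemma IntQ.mul {f g : ℍ → ℂ} (hf : IntQ f) (hg : IntQ g) : IntQ (fun τ ↦ f τ * g τ) := by
  obtain ⟨a, ha⟩ := hf
  obtain ⟨b, hb⟩ := hg
  refine ⟨fun m ↦ ∑ p ∈ Finset.HasAntidiagonal.antidiagonal m, a p.1 * b p.2, fun τ ↦ ?_⟩
  have h1 := (ha τ).summable.norm
  have h2 := (hb τ).summable.norm
  have h3 := summable_norm_sum_mul_antidiagonal_of_summable_norm h1 h2
  have h4 := tsum_mul_tsum_eq_tsum_sum_antidiagonal_of_summable_norm h1 h2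
  rw [(ha τ).tsum_eq, (hb τ).tsum_eq] at h4
  change HasSum _ (f τ * g τ)
  rw [h4]
  have h5 := h3.of_norm.hasSum
  refine h5.congr_fun fun m ↦ ?_
  push_cast
  rw [Finset.sum_mul]
  refine Finset.sum_congr rfl fun p hp ↦ ?_
  rw [← (Finset.HasAntidiagonal.mem_antidiagonal.mp hp), pow_add]
  ring

lemma IntQ.const_mul {f : ℍ → ℂ} (n : ℤ) (hf : IntQ f) : IntQ (fun τ ↦ (n : ℂ) * f τ) :=
  (IntQ.const n).mul hf

lemma IntQ.sub {f g : ℍ → ℂ} (hf : IntQ f) (hg : IntQ g) : IntQ (fun τ ↦ f τ - g τ) := by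
  have := hf.add (hg.const_mul (-1))
  simpa [sub_eq_add_neg] using this

lemma IntQ.pow {f : ℍ → ℂ} (hf : IntQ f) (n : ℕ) : IntQ (fun τ ↦ f τ ^ n) := by
  induction n with
  | zero => simpa using IntQ.const 1
  | succ n ih => simpa [pow_succ] using ih.mul hf

lemma IntQ.sum {ι : Type*} {s : Finset ι} {f : ι → ℍ → ℂ} (hf : ∀ i ∈ s, IntQ (f i)) :
    IntQ (fun τ ↦ ∑ i ∈ s, f i τ) := by
  classical
  induction s using Finset.induction_on with
  | empty => simpa using IntQ.const 0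
  | insert i t hi ih =>
    simp only [Finset.sum_insert hi]
    exact (hf i (Finset.mem_insert_self _ _)).add
      (ih fun j hj ↦ hf j (Finset.mem_insert_of_mem hj))

lemma IntQ_E2 : IntQ EisensteinSeries.E2 := by
  refine ⟨fun m ↦ if m = 0 then 1 else -24 * (ArithmeticFunction.sigma 1 m : ℤ), fun τ ↦ ?_⟩
  have := EisensteinSeries.hasSum_qExpansion_E2 (z := τ)
  convert this using 2 with m
  rw [qq_eq]
  by_cases h : m = 0 <;> simp [h]

lemma hasSum_E4 (τ : ℍ) : HasSum (fun m : ℕ ↦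
    (((if m = 0 then 1 else 240 * (ArithmeticFunction.sigma 3 m : ℤ)) : ℤ) : ℂ) * qq τ ^ m)
      (E₄ τ) := by
  have h := ModularForm.hasSum_qExpansion (E₄) one_pos one_mem_strictPeriods_SL τ
  convert h using 2 with m
  rw [E_qExpansion_coeff _ ⟨2, rfl⟩, show bernoulli 4 = -1 / 30 by decide +kernel]
  congr 1
  split_ifs with h <;> norm_num

lemma hasSum_E6 (τ : ℍ) : HasSum (fun m : ℕ ↦
    (((if m = 0 then 1 else -504 * (ArithmeticFunction.sigma 5 m : ℤ)) : ℤ) : ℂ) * qq τ ^ m)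
      (E₆ τ) := by
  have h := ModularForm.hasSum_qExpansion (E₆) one_pos one_mem_strictPeriods_SL τ
  convert h using 2 with m
  rw [E_qExpansion_coeff _ ⟨3, rfl⟩, show bernoulli 6 = 1 / 42 by decide +kernel]
  congr 1
  split_ifs with h <;> norm_num

lemma IntQ_E4 : IntQ (fun τ ↦ E₄ τ) := ⟨_, hasSum_E4⟩

lemma IntQ_E6 : IntQ (fun τ ↦ E₆ τ) := ⟨_, hasSum_E6⟩

end H32

end S_H32_IntQ

section S_H32_HeckeQ

open UpperHalfPlane hiding I
open Complex EisensteinSeries ModularForm MatrixGroups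
open scoped Real

namespace H32

/-- The point `(a τ + b) / d` of the upper half-plane. -/
noncomputable def act (a b d : ℕ) (ha : 0 < a) (hd : 0 < d) (τ : ℍ) : ℍ :=
  ⟨((a : ℂ) * τ + b) / d, by
    have h1 : ((a : ℂ) * τ + b) / d = (((a : ℝ) * τ.re + b) / d : ℝ) + ((a * τ.im / d : ℝ) : ℂ) * I := by
      apply Complex.ext <;> simp [Complex.div_natCast_re, Complex.div_natCast_im]
    rw [h1]
    have ha' : (0 : ℝ) < a := by exact_mod_cast ha
    have hd' : (0 : ℝ) < d := by exact_mod_cast hd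
    have := τ.im_pos
    simp only [Complex.add_im, Complex.ofReal_im, Complex.mul_im, Complex.ofReal_re, Complex.I_im,
      Complex.I_re]
    positivity⟩

lemma coe_act (a b d : ℕ) (ha : 0 < a) (hd : 0 < d) (τ : ℍ) :
    (act a b d ha hd τ : ℂ) = ((a : ℂ) * τ + b) / d := rfl

lemma im_act (a b d : ℕ) (ha : 0 < a) (hd : 0 < d) (τ : ℍ) :
    (act a b d ha hd τ).im = a * τ.im / d := by
  change (((a : ℂ) * τ + b) / d).im = _
  simp [Complex.div_natCast_im]

lemma sum_roots (d m : ℕ) (hd : 0 < d) :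
    ∑ b ∈ Finset.range d, (Complex.exp (2 * π * I / d) ^ b) ^ m = if d ∣ m then (d : ℂ) else 0 := by
  have hprim := Complex.isPrimitiveRoot_exp d hd.ne'
  have h1 : ∀ b ∈ Finset.range d, (Complex.exp (2 * π * I / d) ^ b) ^ m =
      (Complex.exp (2 * π * I / d) ^ m) ^ b := fun b _ ↦ by
    rw [← pow_mul, ← pow_mul, mul_comm b m]
  rw [Finset.sum_congr rfl h1]
  split_ifs with h
  · have : Complex.exp (2 * π * I / d) ^ m = 1 := (hprim.pow_eq_one_iff_dvd m).mpr h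
    simp [this]
  · have hne : Complex.exp (2 * π * I / d) ^ m ≠ 1 := fun h' ↦
      h ((hprim.pow_eq_one_iff_dvd m).mp h')
    rw [geom_sum_eq hne, ← pow_mul, mul_comm m d, pow_mul, hprim.pow_eq_one, one_pow]
    simp

lemma qq_act (a b d : ℕ) (ha : 0 < a) (hd : 0 < d) (τ : ℍ) :
    qq (act a b d ha hd τ) = Complex.exp (2 * π * I * a * τ / d) *
      Complex.exp (2 * π * I / d) ^ b := by
  rw [qq_eq, coe_act, ← Complex.exp_nat_mul, ← Complex.exp_add]
  congr 1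
  have hd' : (d : ℂ) ≠ 0 := by exact_mod_cast hd.ne'
  field_simp

lemma IntQ.sum_act {G : ℍ → ℂ} (hG : IntQ G) (a d : ℕ) (ha : 0 < a) (hd : 0 < d) :
    IntQ (fun τ ↦ ∑ b ∈ Finset.range d, G (act a b d ha hd τ)) := by
  obtain ⟨c, hc⟩ := hG
  refine ⟨fun n ↦ if a ∣ n then d * c (d * (n / a)) else 0, fun τ ↦ ?_⟩
  set s : ℂ := Complex.exp (2 * π * I * a * τ / d) with hs
  have hsd : s ^ d = qq τ ^ a := by
    rw [hs, qq_eq, ← Complex.exp_nat_mul, ← Complex.exp_nat_mul]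
    congr 1
    have hd' : (d : ℂ) ≠ 0 := by exact_mod_cast hd.ne'
    field_simp
  have h1 : HasSum (fun m ↦ ∑ b ∈ Finset.range d, (c m : ℂ) * qq (act a b d ha hd τ) ^ m)
      (∑ b ∈ Finset.range d, G (act a b d ha hd τ)) :=
    hasSum_sum fun b _ ↦ hc _
  have h2 : ∀ m, ∑ b ∈ Finset.range d, (c m : ℂ) * qq (act a b d ha hd τ) ^ m =
      if d ∣ m then d * c m * s ^ m else 0 := by
    intro m
    have : ∀ b ∈ Finset.range d, (c m : ℂ) * qq (act a b d ha hd τ) ^ m =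
        c m * s ^ m * (Complex.exp (2 * π * I / d) ^ b) ^ m := fun b _ ↦ by
      rw [qq_act, mul_pow]; ring
    rw [Finset.sum_congr rfl this, ← Finset.mul_sum, sum_roots d m hd]
    split_ifs <;> ring
  rw [funext h2] at h1
  -- restrict to multiples of `d`
  have hinj : Function.Injective (fun j : ℕ ↦ d * j) := fun i j hij ↦
    Nat.eq_of_mul_eq_mul_left hd hij
  have h3 : HasSum (fun j : ℕ ↦ (d : ℂ) * c (d * j) * (qq τ ^ a) ^ j)
      (∑ b ∈ Finset.range d, G (act a b d ha hd τ)) := by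
    have h4 := (hinj.hasSum_iff (f := fun m ↦ if d ∣ m then (d : ℂ) * c m * s ^ m else 0)
      (a := ∑ b ∈ Finset.range d, G (act a b d ha hd τ)) ?_).mpr h1
    · refine h4.congr_fun fun j ↦ ?_
      change _ = if d ∣ d * j then (d : ℂ) * c (d * j) * s ^ (d * j) else 0
      rw [if_pos (dvd_mul_right d j), ← hsd, ← pow_mul]
    · intro m hm
      rw [if_neg]
      rintro ⟨j, rfl⟩
      exact hm ⟨j, rfl⟩
  have hinja : Function.Injective (fun j : ℕ ↦ a * j) := fun i j hij ↦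
    Nat.eq_of_mul_eq_mul_left ha hij
  refine (hinja.hasSum_iff ?_).mp ?_
  · intro m hm
    have : ¬ a ∣ m := by
      rintro ⟨j, rfl⟩
      exact hm ⟨j, rfl⟩
    simp [this]
  · refine h3.congr_fun fun j ↦ ?_
    change (((if a ∣ a * j then (d : ℤ) * c (d * (a * j / a)) else 0 : ℤ)) : ℂ) * qq τ ^ (a * j) = _
    rw [if_pos (dvd_mul_right a j), Nat.mul_div_cancel_left j ha, pow_mul]
    push_cast
    ring

end H32

end S_H32_HeckeQ

section S_H32_ValI

open UpperHalfPlane hiding I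
open Complex EisensteinSeries ModularForm MatrixGroups
open scoped Real

namespace H32

/-- A power series with integral coefficients. -/
def IntPS (p : PowerSeries ℂ) : Prop :=
  ∃ p' : PowerSeries ℤ, p = PowerSeries.map (Int.castRingHom ℂ) p'

lemma intPS_of_coeff {p : PowerSeries ℂ} (h : ∀ m, ∃ c : ℤ, p.coeff m = (c : ℂ)) : IntPS p := by
  choose c hc using h
  refine ⟨PowerSeries.mk c, ?_⟩
  ext m
  simp [hc]

lemma intPS_of_intQ {k : ℤ} (f : ModularForm 𝒮ℒ k) (hf : IntQ f) : IntPS (qExpansion 1 f) := by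
  obtain ⟨c, hc⟩ := hf
  refine intPS_of_coeff fun m ↦ ⟨c m, ?_⟩
  exact (ModularFormClass.qExpansion_coeff_unique (c := fun m ↦ (c m : ℂ)) one_pos
    one_mem_strictPeriods_SL (fun τ ↦ by simpa [qq] using hc τ) m).symm

/-- `(E₄ - 1) / 240`. -/
noncomputable def psA : PowerSeries ℤ :=
  PowerSeries.mk fun m ↦ if m = 0 then 0 else (ArithmeticFunction.sigma 3 m : ℤ)

/-- `(1 - E₆) / 504`. -/
noncomputable def psB : PowerSeries ℤ :=
  PowerSeries.mk fun m ↦ if m = 0 then 0 else (ArithmeticFunction.sigma 5 m : ℤ)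

lemma sigma_dvd (m : ℕ) : (12 : ℤ) ∣
    5 * (ArithmeticFunction.sigma 3 m : ℤ) + 7 * (ArithmeticFunction.sigma 5 m : ℤ) := by
  rw [ArithmeticFunction.sigma_apply, ArithmeticFunction.sigma_apply]
  push_cast
  rw [Finset.mul_sum, Finset.mul_sum, ← Finset.sum_add_distrib]
  refine Finset.dvd_sum fun d _ ↦ ?_
  have h : ∀ x : ZMod 12, 5 * x ^ 3 + 7 * x ^ 5 = 0 := by decide
  have := h (d : ZMod 12)
  refine (ZMod.intCast_zmod_eq_zero_iff_dvd _ 12).mp ?_
  push_cast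
  exact this

/-- `(5 A + 7 B) / 12`. -/
noncomputable def psC : PowerSeries ℤ :=
  PowerSeries.mk fun m ↦ if m = 0 then 0 else
    (5 * (ArithmeticFunction.sigma 3 m : ℤ) + 7 * (ArithmeticFunction.sigma 5 m : ℤ)) / 12

lemma psC_eq : PowerSeries.C 12 * psC = PowerSeries.C 5 * psA + PowerSeries.C 7 * psB := by
  ext m
  simp only [psA, psB, psC, PowerSeries.coeff_C_mul, PowerSeries.coeff_mk, map_add]
  split_ifs with h
  · simp
  · exact Int.mul_ediv_cancel' (sigma_dvd m)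

lemma qE4 : qExpansion 1 E₄ =
    PowerSeries.map (Int.castRingHom ℂ) (1 + PowerSeries.C 240 * psA) := by
  ext m
  rw [E_qExpansion_coeff _ ⟨2, rfl⟩, show bernoulli 4 = -1 / 30 by decide +kernel,
    PowerSeries.coeff_map, map_add, PowerSeries.coeff_C_mul, psA, PowerSeries.coeff_mk,
    PowerSeries.coeff_one]
  split_ifs with h
  · norm_num
  · push_cast
    norm_num

lemma qE6 : qExpansion 1 E₆ =
    PowerSeries.map (Int.castRingHom ℂ) (1 - PowerSeries.C 504 * psB) := by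
  ext m
  rw [E_qExpansion_coeff _ ⟨3, rfl⟩, show bernoulli 6 = 1 / 42 by decide +kernel,
    PowerSeries.coeff_map, map_sub, PowerSeries.coeff_C_mul, psB, PowerSeries.coeff_mk,
    PowerSeries.coeff_one]
  split_ifs with h
  · norm_num
  · push_cast
    norm_num

/-- the integral power series of the discriminant. -/
noncomputable def psD : PowerSeries ℤ :=
  psC + PowerSeries.C 100 * psA ^ 2 + PowerSeries.C 8000 * psA ^ 3 - PowerSeries.C 147 * psB ^ 2

lemma psD_eq : PowerSeries.C 1728 * psD =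
    (1 + PowerSeries.C 240 * psA) ^ 3 - (1 - PowerSeries.C 504 * psB) ^ 2 := by
  have h : PowerSeries.C (1728 : ℤ) * psC =
      PowerSeries.C 144 * (PowerSeries.C 5 * psA + PowerSeries.C 7 * psB) := by
    rw [← psC_eq, ← mul_assoc, ← map_mul]; norm_num
  rw [psD]
  have e : ∀ n : ℤ, (PowerSeries.C n : PowerSeries ℤ) = (n : PowerSeries ℤ) := fun n ↦ by
    simp
  simp only [e] at h ⊢
  push_cast at h ⊢
  linear_combination h

/-- `E₄³ - E₆²` as a modular form. -/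
noncomputable def fD : ModularForm 𝒮ℒ 12 :=
  ModularForm.mcast (by decide) (E₄.pow 3) - ModularForm.mcast (by decide) (E₆.pow 2)

lemma fD_apply (z : ℍ) : fD z = E₄ z ^ 3 - E₆ z ^ 2 := by
  simp only [fD, coe_mcast, coe_pow, sub_apply, Pi.pow_apply]

lemma q_disc : qExpansion 1 discriminant = PowerSeries.map (Int.castRingHom ℂ) psD := by
  have h1 : qExpansion 1 fD = PowerSeries.map (Int.castRingHom ℂ) (PowerSeries.C 1728 * psD) := by
    rw [psD_eq]
    simp only [fD, FunLike.coe_sub, coe_mcast,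
      ModularForm.qExpansion_sub one_pos one_mem_strictPeriods_SL,
      ModularForm.qExpansion_pow one_pos one_mem_strictPeriods_SL]
    rw [qE4, qE6]
    simp
  have h2 : (discriminant : ℍ → ℂ) = (1 / 1728 : ℂ) • ⇑fD := by
    ext z
    rw [Pi.smul_apply, fD_apply, discriminant_eq_E₄_cube_sub_E₆_sq z, smul_eq_mul]
    ring
  rw [h2, ModularForm.qExpansion_smul one_pos one_mem_strictPeriods_SL, h1]
  ext m
  rw [PowerSeries.coeff_smul, PowerSeries.coeff_map, PowerSeries.coeff_map,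
    PowerSeries.coeff_C_mul]
  simp

lemma psD_coeff_zero : psD.coeff 0 = 0 := by
  simp [psD, psA, psB, psC]

lemma psD_coeff_one : psD.coeff 1 = 1 := by
  have h := discriminant_qExpansion_coeff_one
  rw [q_disc, PowerSeries.coeff_map, eq_intCast] at h
  exact_mod_cast h

lemma exists_unit_psD : ∃ U V : PowerSeries ℤ, psD = PowerSeries.X * U ∧ U * V = 1 := by
  obtain ⟨U, hU⟩ : PowerSeries.X ∣ psD := by
    rw [PowerSeries.X_dvd_iff]
    simpa using psD_coeff_zero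
  have h1 : PowerSeries.constantCoeff U = 1 := by
    have := psD_coeff_one
    rw [← PowerSeries.coeff_zero_eq_constantCoeff_apply]
    rw [hU, show (1 : ℕ) = 0 + 1 from rfl, PowerSeries.coeff_succ_X_mul] at this
    exact this
  have h2 : IsUnit U := by
    rw [PowerSeries.isUnit_iff_constantCoeff, h1]
    exact isUnit_one
  obtain ⟨V, hV⟩ := h2.exists_right_inv
  exact ⟨U, V, hU, hV⟩

lemma intPS_div {k : ℤ} (f : ModularForm 𝒮ℒ k) (h0 : (qExpansion 1 f).coeff 0 = 0)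
    (hf : IntPS (qExpansion 1 f)) :
    IntPS (qExpansion 1 (CuspForm.discriminantEquiv (toCuspForm f h0))) := by
  obtain ⟨p, hp⟩ := hf
  obtain ⟨U, V, hU, hV⟩ := exists_unit_psD
  have hp0 : p.coeff 0 = 0 := by
    rw [hp, PowerSeries.coeff_map, eq_intCast] at h0
    exact_mod_cast h0
  obtain ⟨h, hh⟩ : PowerSeries.X ∣ p := by
    rw [PowerSeries.X_dvd_iff]
    simpa using hp0
  have key := qExpansion_eq_qExpansion_discriminant_mul f h0
  rw [hp, q_disc, hh, hU, map_mul, map_mul, PowerSeries.map_X, mul_assoc] at key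
  have key2 := mul_left_cancel₀ PowerSeries.X_ne_zero key
  refine ⟨V * h, ?_⟩
  rw [map_mul, key2, ← mul_assoc, ← map_mul, mul_comm V U, hV, map_one, one_mul]

lemma smul_I : ModularGroup.S • UpperHalfPlane.I = UpperHalfPlane.I := by
  rw [UpperHalfPlane.modular_S_smul]
  ext
  simp

lemma denom_S_I : denom ((ModularGroup.S : SL(2, ℤ)) : GL (Fin 2) ℝ) UpperHalfPlane.I = Complex.I := by
  rw [ModularGroup.denom_S]
  simp

lemma modForm_smul {k : ℤ} (f : ModularForm 𝒮ℒ k) (γ : SL(2, ℤ)) (τ : ℍ) :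
    f (γ • τ) = denom γ τ ^ k * f τ := by
  have h := congrFun (f.slash_action_eq' (γ : GL (Fin 2) ℝ) ⟨γ, rfl⟩) τ
  have h2 := ModularForm.SL_slash_apply (k := k) f γ τ
  have hd : denom (γ : GL (Fin 2) ℝ) τ ≠ 0 := denom_ne_zero _ τ
  rw [ModularForm.SL_slash] at h2
  have h3 : f τ = f (γ • τ) * denom γ τ ^ (-k) := by
    rw [← h2]; exact h.symm
  rw [h3, zpow_neg]
  field_simp

lemma value_I_mod_four {k : ℤ} (f : ModularForm 𝒮ℒ k) (hk : k % 4 = 2) :
    f UpperHalfPlane.I = 0 := by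
  have h := modForm_smul f ModularGroup.S UpperHalfPlane.I
  rw [smul_I, denom_S_I] at h
  have h2 : (Complex.I : ℂ) ^ k = -1 := by
    obtain ⟨m, hm⟩ : ∃ m : ℤ, k = 4 * m + 2 := ⟨k / 4, by omega⟩
    rw [hm, zpow_add₀ Complex.I_ne_zero, zpow_mul]
    have : (Complex.I : ℂ) ^ (4 : ℤ) = 1 := by
      have := Complex.I_pow_four
      exact_mod_cast this
    rw [this, one_zpow, one_mul]
    have := Complex.I_sq
    exact_mod_cast this
  rw [h2] at h
  linear_combination (1 / 2 : ℂ) * h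

lemma E6_I : E₆ UpperHalfPlane.I = 0 := value_I_mod_four E₆ (by norm_num)

lemma E4_I_ne : E₄ UpperHalfPlane.I ≠ 0 := by
  intro h
  have := discriminant_eq_E₄_cube_sub_E₆_sq UpperHalfPlane.I
  rw [h, E6_I] at this
  exact discriminant_ne_zero UpperHalfPlane.I (by simpa using this)

lemma disc_I : (1728 : ℂ) * discriminant UpperHalfPlane.I = E₄ UpperHalfPlane.I ^ 3 := by
  have := discriminant_eq_E₄_cube_sub_E₆_sq UpperHalfPlane.I
  rw [E6_I] at this
  rw [this]; ring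

/-- Values at `i` of level one forms with integral `q`-expansions. -/
theorem value_I {ω : ℂ} (hω : ω ^ 4 = E₄ UpperHalfPlane.I) (k : ℕ) :
    ∀ f : ModularForm 𝒮ℒ (k : ℤ), IntPS (qExpansion 1 f) →
      ∃ z : ℤ, (1728 : ℂ) ^ k * f UpperHalfPlane.I = z * ω ^ k := by
  induction k using Nat.strong_induction_on with | _ k ih =>
  intro f hf
  rcases Nat.even_or_odd k with he | ho
  swap
  · have : f = 0 := ModularForm.levelOne_odd_weight_eq_zero (by exact_mod_cast ho) f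
    exact ⟨0, by simp [this]⟩
  by_cases h4 : k % 4 = 2
  · refine ⟨0, ?_⟩
    rw [value_I_mod_four f (by omega)]
    simp
  obtain ⟨j, hj⟩ : ∃ j, k = j * 4 := ⟨k / 4, by obtain ⟨r, hr⟩ := he; omega⟩
  -- subtract a multiple of `E₄ ^ j`
  set e : ModularForm 𝒮ℒ (k : ℤ) := ModularForm.mcast (by rw [hj]; push_cast; ring) (E₄.pow j) with he
  have heq : qExpansion 1 e = (qExpansion 1 E₄) ^ j := by
    rw [he]
    simp only [coe_mcast, ModularForm.qExpansion_pow one_pos one_mem_strictPeriods_SL]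
  obtain ⟨p, hp⟩ := hf
  set c0 : ℤ := p.coeff 0 with hc0
  set f1 : ModularForm 𝒮ℒ (k : ℤ) := f - (c0 : ℂ) • e with hf1
  have hq1 : qExpansion 1 f1 = PowerSeries.map (Int.castRingHom ℂ)
      (p - PowerSeries.C c0 * (1 + PowerSeries.C 240 * psA) ^ j) := by
    rw [hf1, FunLike.coe_sub, ModularForm.qExpansion_sub one_pos one_mem_strictPeriods_SL,
      FunLike.coe_smul, ModularForm.qExpansion_smul one_pos one_mem_strictPeriods_SL, heq, qE4,
      hp, map_sub, map_mul, map_pow, PowerSeries.smul_eq_C_mul, PowerSeries.map_C]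
    rfl
  have h0 : (qExpansion 1 f1).coeff 0 = 0 := by
    rw [hq1, PowerSeries.coeff_map]
    have : (p - PowerSeries.C c0 * (1 + PowerSeries.C 240 * psA) ^ j).coeff 0 = 0 := by
      rw [map_sub, PowerSeries.coeff_C_mul]
      simp [hc0, psA]
    rw [this]; simp
  have hq1' : IntPS (qExpansion 1 f1) := ⟨_, hq1⟩
  have hg := intPS_div f1 h0 hq1'
  set g := CuspForm.discriminantEquiv (toCuspForm f1 h0) with hgdef
  have hval : f1 UpperHalfPlane.I = discriminant UpperHalfPlane.I * g UpperHalfPlane.I := by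
    have := discriminant_mul_discriminantEquiv_apply (toCuspForm f1 h0) UpperHalfPlane.I
    rw [hgdef, this]
    rfl
  have hfval : f UpperHalfPlane.I = c0 * E₄ UpperHalfPlane.I ^ j +
      discriminant UpperHalfPlane.I * g UpperHalfPlane.I := by
    rw [← hval, hf1]
    simp only [sub_apply, smul_apply, smul_eq_mul, he, coe_mcast, coe_pow, Pi.pow_apply]
    ring
  have hE : E₄ UpperHalfPlane.I ^ j = ω ^ k := by
    rw [← hω, ← pow_mul, hj, mul_comm]
  rcases lt_or_ge k 12 with hk | hk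
  · have hg0 : g = 0 :=
      rank_zero_iff_forall_zero.mp (levelOne_neg_weight_rank_zero (by omega)) g
    refine ⟨1728 ^ k * c0, ?_⟩
    rw [hfval, hg0, hE]
    push_cast
    simp
    ring
  · obtain ⟨z, hz⟩ := ih (k - 12) (by omega)
      (ModularForm.mcast (by omega) g) (by simpa using hg)
    have hz' : (1728 : ℂ) ^ (k - 12) * g UpperHalfPlane.I = z * ω ^ (k - 12) := hz
    refine ⟨1728 ^ k * c0 + 1728 ^ 11 * z, ?_⟩
    have h12 : (1728 : ℂ) ^ k = 1728 ^ (k - 12) * 1728 ^ 12 := by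
      rw [← pow_add]; congr 1; omega
    have hw : ω ^ k = ω ^ (k - 12) * ω ^ 12 := by
      rw [← pow_add]; congr 1; omega
    have hE3 : E₄ UpperHalfPlane.I ^ 3 = ω ^ 12 := by
      rw [← hω, ← pow_mul]
    have hd := disc_I
    rw [hE3] at hd
    rw [hfval, hE]
    push_cast
    rw [hw, h12]
    linear_combination (1728 : ℂ) ^ 12 * discriminant UpperHalfPlane.I * hz' +
      (1728 : ℂ) ^ 11 * z * ω ^ (k - 12) * hd

end H32

end S_H32_ValI

section S_H32_Hecke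

open UpperHalfPlane hiding I
open Complex EisensteinSeries ModularForm MatrixGroups
open scoped Real

namespace H32

/-- The triples `(a, b, d)` with `a d = N` and `0 ≤ b < d`. -/
def SN (N : ℕ) : Finset (ℕ × ℕ × ℕ) :=
  ((Finset.range (N + 1)) ×ˢ (Finset.range (N + 1)) ×ˢ (Finset.range (N + 1))).filter
    (fun s ↦ s.1 * s.2.2 = N ∧ s.2.1 < s.2.2)

lemma mem_SN {N : ℕ} (hN : 0 < N) {s : ℕ × ℕ × ℕ} :
    s ∈ SN N ↔ s.1 * s.2.2 = N ∧ s.2.1 < s.2.2 := by
  simp only [SN, Finset.mem_filter, Finset.mem_product, Finset.mem_range, and_iff_right_iff_imp]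
  rintro ⟨h1, h2⟩
  have ha : s.1 ≤ N := Nat.le_of_dvd hN ⟨_, h1.symm⟩
  have hd : s.2.2 ≤ N := Nat.le_of_dvd hN ⟨s.1, by rw [mul_comm]; exact h1.symm⟩
  omega

lemma SN_pos {N : ℕ} (hN : 0 < N) {s : ℕ × ℕ × ℕ} (hs : s ∈ SN N) : 0 < s.1 ∧ 0 < s.2.2 := by
  obtain ⟨h1, h2⟩ := (mem_SN hN).mp hs
  refine ⟨Nat.pos_of_ne_zero fun h ↦ ?_, by omega⟩
  rw [h] at h1
  omega

lemma sum_SN {N : ℕ} (hN : 0 < N) (f : ℕ → ℕ → ℕ → ℂ) :
    ∑ s ∈ SN N, f s.1 s.2.1 s.2.2 =
      ∑ p ∈ N.divisorsAntidiagonal, ∑ b ∈ Finset.range p.2, f p.1 b p.2 := by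
  rw [Finset.sum_sigma']
  refine Finset.sum_bij' (fun s _ ↦ (⟨(s.1, s.2.2), s.2.1⟩ : (_ : ℕ × ℕ) × ℕ))
    (fun p _ ↦ (p.1.1, p.2, p.1.2)) ?_ ?_ ?_ ?_ ?_
  · intro s hs
    obtain ⟨h1, h2⟩ := (mem_SN hN).mp hs
    simp [h1, h2, hN.ne']
  · rintro ⟨⟨a, d⟩, b⟩ hp
    simp only [Finset.mem_sigma, Nat.mem_divisorsAntidiagonal, Finset.mem_range] at hp
    exact (mem_SN hN).mpr ⟨hp.1.1, hp.2⟩
  · rintro ⟨a, b, d⟩ hs; rfl
  · rintro ⟨⟨a, d⟩, b⟩ hp; rfl
  · rintro ⟨a, b, d⟩ hs; rfl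

/-- The upper triangular matrix attached to a triple. -/
def toM (s : ℕ × ℕ × ℕ) : Matrix (Fin 2) (Fin 2) ℤ := !![(s.1 : ℤ), s.2.1; 0, s.2.2]

lemma det_toM (s : ℕ × ℕ × ℕ) : (toM s).det = s.1 * s.2.2 := by
  simp [toM, Matrix.det_fin_two]

/-- Every integral matrix of determinant `N > 0` is `γ M` with `M` in our list. -/
lemma exists_rep {N : ℕ} (hN : 0 < N) (A : Matrix (Fin 2) (Fin 2) ℤ) (hA : A.det = N) :
    ∃ s ∈ SN N, ∃ γ : SL(2, ℤ), A = γ.1 * toM s := by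
  set B : FixedDetMatrix (Fin 2) ℤ (N : ℤ) := ⟨A, hA⟩
  have hN' : (N : ℤ) ≠ 0 := by exact_mod_cast hN.ne'
  have key : ∀ B : FixedDetMatrix (Fin 2) ℤ (N : ℤ), ∃ s ∈ SN N, ∃ γ : SL(2, ℤ), B.1 = γ.1 * toM s := by
    intro B
    induction B using FixedDetMatrices.induction_on hN' with
    | h0 A h1 h2 h3 h4 =>
      have hdet : A.1 0 0 * A.1 1 1 = N := by
        have := A.2
        rw [Matrix.det_fin_two, h1, mul_zero, sub_zero] at this
        exact this
      have hN2 : (0 : ℤ) < N := by exact_mod_cast hN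
      have hd : 0 < A.1 1 1 := by
        rw [← hdet] at hN2
        exact (pos_iff_pos_of_mul_pos hN2).mp h2
      rw [abs_of_nonneg h3, abs_of_pos hd] at h4
      refine ⟨((A.1 0 0).toNat, (A.1 0 1).toNat, (A.1 1 1).toNat), ?_, 1, ?_⟩
      · rw [mem_SN hN]
        constructor
        · zify
          rw [Int.toNat_of_nonneg h2.le, Int.toNat_of_nonneg hd.le]
          exact hdet
        · change (A.1 0 1).toNat < (A.1 1 1).toNat
          omega
      · ext i j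
        fin_cases i <;> fin_cases j <;> simp [toM, h1, h2.le, hd.le, h3]
    | hS B hB =>
      obtain ⟨s, hs, γ, h⟩ := hB
      refine ⟨s, hs, ModularGroup.S * γ, ?_⟩
      rw [FixedDetMatrices.smul_coe, h, Matrix.SpecialLinearGroup.coe_mul, Matrix.mul_assoc]
    | hT B hB =>
      obtain ⟨s, hs, γ, h⟩ := hB
      refine ⟨s, hs, ModularGroup.T * γ, ?_⟩
      rw [FixedDetMatrices.smul_coe, h, Matrix.SpecialLinearGroup.coe_mul, Matrix.mul_assoc]
  exact key B

lemma toM_inj {N : ℕ} (hN : 0 < N) {s t : ℕ × ℕ × ℕ} (hs : s ∈ SN N) (ht : t ∈ SN N)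
    (γ : SL(2, ℤ)) (h : toM s = γ.1 * toM t) : s = t := by
  obtain ⟨a, b, d⟩ := s
  obtain ⟨a', b', d'⟩ := t
  obtain ⟨hs1, hs2⟩ := (mem_SN hN).mp hs
  obtain ⟨ht1, ht2⟩ := (mem_SN hN).mp ht
  obtain ⟨hsa, hsd⟩ := SN_pos hN hs
  obtain ⟨hta, htd⟩ := SN_pos hN ht
  simp only at hs1 hs2 ht1 ht2 hsa hsd hta htd
  have h00 := congrFun (congrFun h 0) 0
  have h01 := congrFun (congrFun h 0) 1
  have h10 := congrFun (congrFun h 1) 0
  have h11 := congrFun (congrFun h 1) 1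
  simp only [toM, Matrix.mul_apply, Fin.sum_univ_two, Matrix.of_apply, Matrix.cons_val', Matrix.cons_val_zero,
    Matrix.cons_val_one, Matrix.cons_val_fin_one, mul_zero, add_zero] at h00 h01 h10 h11
  have hdet := γ.det_coe
  rw [Matrix.det_fin_two] at hdet
  have ha0 : (a' : ℤ) ≠ 0 := by exact_mod_cast hta.ne'
  have h10' : γ.1 1 0 = 0 := by
    rcases mul_eq_zero.mp h10.symm with h | h
    · exact h
    · exact absurd h ha0
  rw [h10'] at h11 hdet
  simp only [zero_mul, zero_add, mul_zero, sub_zero] at h11 hdet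
  have hp : 0 < γ.1 0 0 := by
    have : (0 : ℤ) < γ.1 0 0 * a' := by rw [← h00]; exact_mod_cast hsa
    exact (pos_iff_pos_of_mul_pos this).mpr (by exact_mod_cast hta)
  have h1 : γ.1 0 0 = 1 := by
    rcases Int.mul_eq_one_iff_eq_one_or_neg_one.mp hdet with h | h
    · exact h.1
    · omega
  rw [h1, one_mul] at hdet
  rw [h1, one_mul] at h00 h01
  rw [hdet, one_mul] at h11
  have haa : a = a' := by exact_mod_cast h00
  have hdd : d = d' := by exact_mod_cast h11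
  subst haa hdd
  have hbb : b = b' := by
    have hb1 : (b : ℤ) % d = b := Int.emod_eq_of_lt (by positivity) (by exact_mod_cast hs2)
    have hb2 : (b' : ℤ) % d = b' := Int.emod_eq_of_lt (by positivity) (by exact_mod_cast ht2)
    have : (b : ℤ) % d = (b' : ℤ) % d := by rw [h01]; simp
    rw [hb1, hb2] at this
    exact_mod_cast this
  rw [hbb]

/-- An integral matrix of nonzero determinant as a real invertible matrix. -/
noncomputable def toG (A : Matrix (Fin 2) (Fin 2) ℤ) : GL (Fin 2) ℝ :=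
  open Classical in
  if h : (A.map (Int.cast : ℤ → ℝ)).det ≠ 0 then Matrix.GeneralLinearGroup.mkOfDetNeZero _ h else 1

lemma toG_val {A : Matrix (Fin 2) (Fin 2) ℤ} (hA : 0 < A.det) :
    (toG A).val = A.map (Int.cast : ℤ → ℝ) := by
  have h : (A.map (Int.cast : ℤ → ℝ)).det ≠ 0 := by
    have : (A.map (Int.cast : ℤ → ℝ)).det = (A.det : ℝ) := by
      simp [Matrix.det_fin_two]
    rw [this]
    exact_mod_cast hA.ne'
  rw [toG, dif_pos h]
  rfl

lemma det_toG {A : Matrix (Fin 2) (Fin 2) ℤ} (hA : 0 < A.det) :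
    (toG A).val.det = A.det := by
  rw [toG_val hA]
  simp [Matrix.det_fin_two]

lemma toG_mul {A B : Matrix (Fin 2) (Fin 2) ℤ} (hA : 0 < A.det) (hB : 0 < B.det) :
    toG (A * B) = toG A * toG B := by
  have hAB : 0 < (A * B).det := by rw [Matrix.det_mul]; positivity
  apply Units.ext
  rw [toG_val hAB, Units.val_mul, toG_val hA, toG_val hB]
  ext i j
  simp [Matrix.mul_apply]

lemma toG_SL (γ : SL(2, ℤ)) : toG γ.1 = (γ : GL (Fin 2) ℝ) := by
  have h : 0 < γ.1.det := by rw [γ.det_coe]; norm_num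
  apply Units.ext
  rw [toG_val h]
  ext i j
  simp

/-- The scaled slash action of an integral matrix of determinant `N`. -/
noncomputable def HA (F : ℍ → ℂ) (k N : ℕ) (A : Matrix (Fin 2) (Fin 2) ℤ) (τ : ℍ) : ℂ :=
  (N / denom (toG A) τ) ^ k * F (toG A • τ)

/-- Weight `k` invariance under the modular group. -/
def WInv (F : ℍ → ℂ) (k : ℕ) : Prop :=
  ∀ (γ : SL(2, ℤ)) (τ : ℍ), F (γ • τ) = denom γ τ ^ k * F τ

lemma sigma_pos {g : GL (Fin 2) ℝ} (h : 0 < g.val.det) (z : ℂ) : σ g z = z := by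
  have h' : 0 < g.det.val := by rw [Matrix.GeneralLinearGroup.val_det_apply]; exact h
  rw [σ, if_pos h']
  rfl

lemma denom_mul' (g : GL (Fin 2) ℝ) {h : GL (Fin 2) ℝ} (hh : 0 < h.val.det) (τ : ℍ) :
    denom (g * h) τ = denom g (h • τ : ℍ) * denom h τ := by
  rw [denom_cocycle_σ, sigma_pos hh]

lemma det_SL_pos (γ : SL(2, ℤ)) : 0 < (γ : GL (Fin 2) ℝ).val.det := by
  have h : 0 < γ.1.det := by rw [γ.det_coe]; norm_num
  rw [← toG_SL, det_toG h]
  exact_mod_cast h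

lemma HA_left {F : ℍ → ℂ} {k N : ℕ} (hF : WInv F k) {A : Matrix (Fin 2) (Fin 2) ℤ}
    (hA : 0 < A.det) (γ : SL(2, ℤ)) (τ : ℍ) : HA F k N (γ.1 * A) τ = HA F k N A τ := by
  have h : 0 < γ.1.det := by rw [γ.det_coe]; norm_num
  have hA' : 0 < (toG A).val.det := by rw [det_toG hA]; exact_mod_cast hA
  have h1 : F ((γ : GL (Fin 2) ℝ) • toG A • τ) = denom γ (toG A • τ : ℍ) ^ k * F (toG A • τ) :=
    hF γ (toG A • τ)
  have h3 : denom (γ : GL (Fin 2) ℝ) (toG A • τ : ℍ) ≠ 0 := denom_ne_zero _ _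
  have h4 : denom (toG A) τ ≠ 0 := denom_ne_zero _ _
  unfold HA
  rw [toG_mul h hA, mul_smul, toG_SL, denom_mul' _ hA', h1, ← mul_assoc, ← mul_pow]
  congr 2
  field_simp

lemma HA_right {F : ℍ → ℂ} {k N : ℕ} {A : Matrix (Fin 2) (Fin 2) ℤ}
    (hA : 0 < A.det) (γ : SL(2, ℤ)) (τ : ℍ) :
    HA F k N A (γ • τ) = denom γ τ ^ k * HA F k N (A * γ.1) τ := by
  have h : 0 < γ.1.det := by rw [γ.det_coe]; norm_num
  have h3 : denom (γ : GL (Fin 2) ℝ) τ ≠ 0 := denom_ne_zero _ _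
  have h4 : denom (toG A) (γ • τ : ℍ) ≠ 0 := denom_ne_zero _ _
  unfold HA
  rw [toG_mul hA h, mul_smul, toG_SL, denom_mul' _ (det_SL_pos γ), ← mul_assoc, ← mul_pow]
  change _ = (_ * (_ / (denom (toG A) (γ • τ : ℍ) * _))) ^ k * F (toG A • γ • τ)
  congr 2
  field_simp

/-- Sums over the representatives are modular. -/
lemma sum_WInv {N : ℕ} (hN : 0 < N) (k : ℕ) (G : Matrix (Fin 2) (Fin 2) ℤ → ℍ → ℂ)
    (h1 : ∀ (A : Matrix (Fin 2) (Fin 2) ℤ), A.det = N → ∀ (γ : SL(2, ℤ)) (τ : ℍ),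
      G (γ.1 * A) τ = G A τ)
    (h2 : ∀ (A : Matrix (Fin 2) (Fin 2) ℤ), A.det = N → ∀ (γ : SL(2, ℤ)) (τ : ℍ),
      G A (γ • τ) = denom γ τ ^ k * G (A * γ.1) τ) :
    WInv (fun τ ↦ ∑ s ∈ SN N, G (toM s) τ) k := by
  intro γ τ
  simp only
  rw [Finset.mul_sum]
  have hdet : ∀ s ∈ SN N, (toM s).det = N := fun s hs ↦ by
    rw [det_toM]; exact_mod_cast ((mem_SN hN).mp hs).1
  have hex : ∀ s : {s // s ∈ SN N}, ∃ t : {s // s ∈ SN N}, ∃ δ : SL(2, ℤ),
      toM s.1 * γ.1 = δ.1 * toM t.1 := fun s ↦ by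
    obtain ⟨t, ht, δ, h⟩ := exists_rep hN (toM s.1 * γ.1) (by
      rw [Matrix.det_mul, γ.det_coe, mul_one, hdet s.1 s.2])
    exact ⟨⟨t, ht⟩, δ, h⟩
  choose f δ hf using hex
  have hinj : Function.Injective f := by
    intro s t hst
    have e1 := hf s
    have e2 := hf t
    rw [hst] at e1
    have hδ : (δ s).1 * ((δ s)⁻¹).1 = 1 := by
      rw [← Matrix.SpecialLinearGroup.coe_mul, mul_inv_cancel]; rfl
    have e3 : toM s.1 * γ.1 = ((δ s) * (δ t)⁻¹ : SL(2, ℤ)).1 * toM t.1 * γ.1 := by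
      rw [Matrix.mul_assoc, e2, e1, Matrix.SpecialLinearGroup.coe_mul, Matrix.mul_assoc,
        ← Matrix.mul_assoc _ (δ t).1, ← Matrix.SpecialLinearGroup.coe_mul, inv_mul_cancel]
      simp
    have e4 : toM s.1 = ((δ s) * (δ t)⁻¹ : SL(2, ℤ)).1 * toM t.1 := by
      have := congrArg (· * (γ⁻¹ : SL(2, ℤ)).1) e3
      simp only [Matrix.mul_assoc] at this
      rw [← Matrix.SpecialLinearGroup.coe_mul, mul_inv_cancel] at this
      simpa using this
    exact Subtype.ext (toM_inj hN s.2 t.2 _ e4)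
  have hbij : Function.Bijective f := Finite.injective_iff_bijective.mp hinj
  rw [← Finset.sum_coe_sort (SN N) (fun s ↦ G (toM s) (γ • τ)),
    ← Finset.sum_coe_sort (SN N) (fun s ↦ denom γ τ ^ k * G (toM s) τ),
    ← hbij.sum_comp (fun s ↦ denom γ τ ^ k * G (toM s.1) τ)]
  refine Finset.sum_congr rfl fun s _ ↦ ?_
  rw [h2 _ (hdet s.1 s.2), hf s, h1 _ (hdet _ (f s).2)]

end H32

end S_H32_Hecke

section S_H32_HeckeM

open UpperHalfPlane hiding I
open Complex EisensteinSeries ModularForm MatrixGroups Manifold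
open scoped Real

namespace H32

lemma IntQ.mdiff {f : ℍ → ℂ} (hf : IntQ f) : MDiff f := by
  obtain ⟨c, hc⟩ := hf
  rw [UpperHalfPlane.mdifferentiable_iff]
  intro z hz
  have hz' : 0 < z.im := hz
  set y : ℝ := z.im / 2 with hy
  have hy0 : 0 < y := by positivity
  set U : Set ℂ := {w | y < w.im} with hU
  have hUo : IsOpen U := isOpen_lt continuous_const Complex.continuous_im
  have hzU : z ∈ U := by change y < z.im; linarith
  set τ₀ : ℍ := ⟨(y : ℂ) * I, by simpa using hy0⟩ with hτ₀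
  have h0 : ‖qq τ₀‖ = Real.exp (-2 * π * y) := by
    rw [qq_eq, Complex.norm_exp]
    congr 1
    simp [hτ₀, UpperHalfPlane.coe_mk]
  have hs : Summable fun m ↦ ‖(c m : ℂ)‖ * Real.exp (-2 * π * y) ^ m := by
    have := (hc τ₀).summable.norm
    simpa [norm_mul, norm_pow, h0] using this
  have hd : DifferentiableOn ℂ (fun w ↦ ∑' m, (c m : ℂ) * Complex.exp (2 * π * I * w) ^ m) U := by
    refine differentiableOn_tsum_of_summable_norm hs (fun m ↦ ?_) hUo ?_
    · fun_prop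
    · intro m w hw
      rw [norm_mul, norm_pow]
      gcongr
      rw [Complex.norm_exp]
      apply Real.exp_le_exp.mpr
      have hw' : y < w.im := hw
      have : (2 * π * I * w).re = -2 * π * w.im := by simp
      rw [this]
      nlinarith [Real.pi_pos]
  have heq : ∀ w ∈ U, (f ∘ UpperHalfPlane.ofComplex) w =
      ∑' m, (c m : ℂ) * Complex.exp (2 * π * I * w) ^ m := by
    intro w hw
    have hw' : 0 < w.im := lt_trans hy0 hw
    have := (hc ⟨w, hw'⟩).tsum_eq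
    rw [Function.comp_apply, UpperHalfPlane.ofComplex_apply_of_im_pos hw', ← this]
    simp [qq_eq]
  exact ((hd.congr heq).differentiableAt (hUo.mem_nhds hzU)).differentiableWithinAt

lemma IntQ.bdd {f : ℍ → ℂ} (hf : IntQ f) : IsBoundedAtImInfty f := by
  obtain ⟨c, hc⟩ := hf
  rw [UpperHalfPlane.isBoundedAtImInfty_iff]
  have h0 : ‖qq UpperHalfPlane.I‖ = Real.exp (-2 * π) := by
    rw [qq_eq, Complex.norm_exp]
    congr 1
    simp
  have hs : Summable fun m ↦ ‖(c m : ℂ)‖ * Real.exp (-2 * π) ^ m := by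
    have := (hc UpperHalfPlane.I).summable.norm
    simpa [norm_mul, norm_pow, h0] using this
  refine ⟨∑' m, ‖(c m : ℂ)‖ * Real.exp (-2 * π) ^ m, 1, fun τ hτ ↦ ?_⟩
  rw [← (hc τ).tsum_eq]
  refine tsum_of_norm_bounded hs.hasSum fun m ↦ ?_
  rw [norm_mul, norm_pow]
  gcongr
  rw [qq_eq, Complex.norm_exp]
  apply Real.exp_le_exp.mpr
  have : (2 * π * I * (τ : ℂ)).re = -2 * π * τ.im := by simp
  rw [this]
  nlinarith [Real.pi_pos]

/-- An integral weight `k` invariant function is a modular form. -/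
lemma exists_modForm {f : ℍ → ℂ} {k : ℕ} (hf : IntQ f) (hk : WInv f k) :
    ∃ F : ModularForm 𝒮ℒ (k : ℤ), ∀ τ, F τ = f τ := by
  have hsl : ∀ γ : SL(2, ℤ), f ∣[(k : ℤ)] γ = f := by
    intro γ
    ext τ
    rw [ModularForm.SL_slash_apply, hk γ τ]
    have hd : denom (γ : GL (Fin 2) ℝ) τ ≠ 0 := denom_ne_zero _ τ
    rw [zpow_neg, zpow_natCast]
    field_simp
  refine ⟨{ toFun := f
            slash_action_eq' := fun _ ⟨γ, hγ⟩ ↦ hγ ▸ hsl γ
            holo' := hf.mdiff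
            bdd_at_cusps' := fun {c} hc ↦ by
              rw [Subgroup.IsArithmetic.isCusp_iff_isCusp_SL2Z] at hc
              rw [OnePoint.isBoundedAt_iff_forall_SL2Z hc]
              intro γ _
              rw [hsl γ]
              exact hf.bdd }, fun τ ↦ rfl⟩

end H32

end S_H32_HeckeM

section S_H32_HeckeI

open UpperHalfPlane hiding I
open Complex EisensteinSeries ModularForm MatrixGroups Manifold
open scoped Real

namespace H32

/-- The point `(a τ + b) / d`. -/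
noncomputable def tact (s : ℕ × ℕ × ℕ) (τ : ℍ) : ℍ :=
  open Classical in
  if h : 0 < s.1 ∧ 0 < s.2.2 then act s.1 s.2.1 s.2.2 h.1 h.2 τ else τ

lemma tact_eq {a b d : ℕ} (ha : 0 < a) (hd : 0 < d) (τ : ℍ) :
    tact (a, b, d) τ = act a b d ha hd τ := by
  rw [tact, dif_pos ⟨ha, hd⟩]

lemma coe_tact {s : ℕ × ℕ × ℕ} (ha : 0 < s.1) (hd : 0 < s.2.2) (τ : ℍ) :
    (tact s τ : ℂ) = ((s.1 : ℂ) * τ + s.2.1) / s.2.2 := by
  rw [tact, dif_pos ⟨ha, hd⟩, coe_act]

lemma im_tact {s : ℕ × ℕ × ℕ} (ha : 0 < s.1) (hd : 0 < s.2.2) (τ : ℍ) :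
    (tact s τ).im = s.1 * τ.im / s.2.2 := by
  rw [tact, dif_pos ⟨ha, hd⟩, im_act]

lemma det_toM_pos {s : ℕ × ℕ × ℕ} (ha : 0 < s.1) (hd : 0 < s.2.2) : 0 < (toM s).det := by
  rw [det_toM]
  have : 0 < s.1 * s.2.2 := Nat.mul_pos ha hd
  exact_mod_cast this

lemma denom_toM {s : ℕ × ℕ × ℕ} (ha : 0 < s.1) (hd : 0 < s.2.2) (z : ℂ) :
    denom (toG (toM s)) z = s.2.2 := by
  rw [denom, toG_val (det_toM_pos ha hd)]
  simp [toM]

lemma toG_smul {s : ℕ × ℕ × ℕ} (ha : 0 < s.1) (hd : 0 < s.2.2) (τ : ℍ) :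
    toG (toM s) • τ = tact s τ := by
  have hpos := det_toM_pos ha hd
  have h1 : 0 < (toG (toM s)).det.val := by
    rw [Matrix.GeneralLinearGroup.val_det_apply, det_toG hpos]; exact_mod_cast hpos
  ext
  rw [coe_smul_of_det_pos h1, denom_toM ha hd, coe_tact ha hd, num, toG_val hpos]
  simp [toM]

lemma HA_toM (F : ℍ → ℂ) (k : ℕ) {N : ℕ} (hN : 0 < N) {s : ℕ × ℕ × ℕ} (hs : s ∈ SN N) (τ : ℍ) :
    HA F k N (toM s) τ = (s.1 : ℂ) ^ k * F (tact s τ) := by
  obtain ⟨ha, hd⟩ := SN_pos hN hs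
  have h1 := ((mem_SN hN).mp hs).1
  unfold HA
  rw [toG_smul ha hd, denom_toM ha hd]
  congr 2
  have hd' : (s.2.2 : ℂ) ≠ 0 := by exact_mod_cast hd.ne'
  rw [div_eq_iff hd', ← h1]
  push_cast
  ring

lemma E2s_I : E2s UpperHalfPlane.I = 0 := by
  have h := E2s_smul ModularGroup.S UpperHalfPlane.I
  rw [smul_I, denom_S_I, Complex.I_sq] at h
  have : (2 : ℂ) * E2s UpperHalfPlane.I = 0 := by linear_combination h
  simpa using this

lemma WInv_E4 : WInv (fun τ ↦ E₄ τ) 4 := by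
  intro γ τ
  have := modForm_smul E₄ γ τ
  simpa using this

lemma WInv_E6 : WInv (fun τ ↦ E₆ τ) 6 := by
  intro γ τ
  have := modForm_smul E₆ γ τ
  simpa using this

lemma WInv_E2s : WInv E2s 2 := E2s_smul

/-- The monomial function attached to an integral matrix. -/
noncomputable def GG (u v w N : ℕ) (A : Matrix (Fin 2) (Fin 2) ℤ) (τ : ℍ) : ℂ :=
  (HA E2s 2 N A τ - N * E2s τ) ^ u * HA (fun τ ↦ E₄ τ) 4 N A τ ^ v *
    HA (fun τ ↦ E₆ τ) 6 N A τ ^ w

lemma GG_left (u v w N : ℕ) {A : Matrix (Fin 2) (Fin 2) ℤ} (hA : 0 < A.det) (γ : SL(2, ℤ))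
    (τ : ℍ) : GG u v w N (γ.1 * A) τ = GG u v w N A τ := by
  unfold GG
  rw [HA_left WInv_E2s hA, HA_left WInv_E4 hA, HA_left WInv_E6 hA]

lemma GG_right (u v w N : ℕ) {A : Matrix (Fin 2) (Fin 2) ℤ} (hA : 0 < A.det) (γ : SL(2, ℤ))
    (τ : ℍ) : GG u v w N A (γ • τ) =
      denom γ τ ^ (2 * u + 4 * v + 6 * w) * GG u v w N (A * γ.1) τ := by
  unfold GG
  rw [HA_right hA, HA_right hA, HA_right hA, WInv_E2s γ τ]
  have e : denom (γ : GL (Fin 2) ℝ) τ ^ 2 * HA E2s 2 N (A * γ.1) τ -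
      N * (denom (γ : GL (Fin 2) ℝ) τ ^ 2 * E2s τ) =
      denom (γ : GL (Fin 2) ℝ) τ ^ 2 * (HA E2s 2 N (A * γ.1) τ - N * E2s τ) := by ring
  rw [e, mul_pow]
  ring

lemma GG_toM (u v w : ℕ) {N : ℕ} (hN : 0 < N) {s : ℕ × ℕ × ℕ} (hs : s ∈ SN N) (τ : ℍ) :
    GG u v w N (toM s) τ =
      ((s.1 : ℂ) ^ 2 * EisensteinSeries.E2 (tact s τ) - N * EisensteinSeries.E2 τ) ^ u *
      ((s.1 : ℂ) ^ 4 * E₄ (tact s τ)) ^ v * ((s.1 : ℂ) ^ 6 * E₆ (tact s τ)) ^ w := by
  obtain ⟨ha, hd⟩ := SN_pos hN hs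
  have h1 := ((mem_SN hN).mp hs).1
  unfold GG
  rw [HA_toM _ _ hN hs, HA_toM _ _ hN hs, HA_toM _ _ hN hs]
  congr 3
  unfold E2s
  rw [im_tact ha hd]
  have hd' : (s.2.2 : ℂ) ≠ 0 := by exact_mod_cast hd.ne'
  have ha' : (s.1 : ℂ) ≠ 0 := by exact_mod_cast ha.ne'
  have hpi : (π : ℂ) ≠ 0 := by exact_mod_cast Real.pi_ne_zero
  have hy : (τ.im : ℂ) ≠ 0 := by exact_mod_cast τ.im_ne_zero
  rw [← h1]
  push_cast
  field_simp
  ring

/-- The power sum of weight `2 u + 4 v + 6 w`. -/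
lemma WInv_sum (u v w : ℕ) {N : ℕ} (hN : 0 < N) :
    WInv (fun τ ↦ ∑ s ∈ SN N, GG u v w N (toM s) τ) (2 * u + 4 * v + 6 * w) := by
  have hN' : (0 : ℤ) < N := by exact_mod_cast hN
  exact sum_WInv hN _ (GG u v w N) (fun A hA γ τ ↦ GG_left u v w N (hA ▸ hN') γ τ)
    (fun A hA γ τ ↦ GG_right u v w N (hA ▸ hN') γ τ)

lemma IntQ_E4' : IntQ (fun τ ↦ E₄ τ) := IntQ_E4
lemma IntQ_E6' : IntQ (fun τ ↦ E₆ τ) := IntQ_E6

lemma IntQ_sum (u v w : ℕ) {N : ℕ} (hN : 0 < N) :
    IntQ (fun τ ↦ ∑ s ∈ SN N, GG u v w N (toM s) τ) := by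
  have e1 : (fun τ ↦ ∑ s ∈ SN N, GG u v w N (toM s) τ) = fun τ ↦
      ∑ p ∈ N.divisorsAntidiagonal, ∑ m ∈ Finset.range (u + 1),
        ((u.choose m : ℤ) : ℂ) * ((((-(N : ℤ)) : ℤ) : ℂ) * EisensteinSeries.E2 τ) ^ (u - m) *
        ∑ b ∈ Finset.range p.2,
        (((p.1 : ℤ) : ℂ) ^ 2 * EisensteinSeries.E2 (tact (p.1, b, p.2) τ)) ^ m *
      (((p.1 : ℤ) : ℂ) ^ 4 * E₄ (tact (p.1, b, p.2) τ)) ^ v *
      (((p.1 : ℤ) : ℂ) ^ 6 * E₆ (tact (p.1, b, p.2) τ)) ^ w := by
    ext τ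
    rw [Finset.sum_congr rfl fun s hs ↦ GG_toM u v w hN hs τ]
    rw [sum_SN hN (fun a b d ↦ ((a : ℂ) ^ 2 * EisensteinSeries.E2 (tact (a, b, d) τ) -
      N * EisensteinSeries.E2 τ) ^ u * ((a : ℂ) ^ 4 * E₄ (tact (a, b, d) τ)) ^ v *
      ((a : ℂ) ^ 6 * E₆ (tact (a, b, d) τ)) ^ w)]
    refine Finset.sum_congr rfl fun p _ ↦ ?_
    simp_rw [Finset.mul_sum]
    rw [Finset.sum_comm]
    refine Finset.sum_congr rfl fun b _ ↦ ?_
    rw [sub_eq_add_neg, add_pow, Finset.sum_mul, Finset.sum_mul]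
    refine Finset.sum_congr rfl fun m _ ↦ ?_
    push_cast
    ring
  rw [e1]
  refine IntQ.sum fun p hp ↦ IntQ.sum fun m _ ↦ IntQ.mul ?_ ?_
  · exact (IntQ.const _).mul ((IntQ_E2.const_mul _).pow _)
  · have hp' := Nat.mem_divisorsAntidiagonal.mp hp
    have ha : 0 < p.1 := Nat.pos_of_ne_zero fun h ↦ by
      rw [h, zero_mul] at hp'; exact hp'.2 hp'.1.symm
    have hd : 0 < p.2 := Nat.pos_of_ne_zero fun h ↦ by
      rw [h, mul_zero] at hp'; exact hp'.2 hp'.1.symm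
    have hH : IntQ (fun τ ↦ (((p.1 : ℤ) : ℂ) ^ 2 * EisensteinSeries.E2 τ) ^ m *
      (((p.1 : ℤ) : ℂ) ^ 4 * E₄ τ) ^ v *
      (((p.1 : ℤ) : ℂ) ^ 6 * E₆ τ) ^ w) := by
      have e2 := IntQ_E2.const_mul ((p.1 : ℤ) ^ 2)
      have e4 := IntQ_E4'.const_mul ((p.1 : ℤ) ^ 4)
      have e6 := IntQ_E6'.const_mul ((p.1 : ℤ) ^ 6)
      push_cast at e2 e4 e6 ⊢
      exact ((e2.pow m).mul (e4.pow v)).mul (e6.pow w)
    have := hH.sum_act p.1 p.2 ha hd
    simpa [tact_eq ha hd] using this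

theorem hecke_sum {ω : ℂ} (hω : ω ^ 4 = E₄ UpperHalfPlane.I) {N : ℕ} (hN : 0 < N) (u v w : ℕ) :
    ∃ z : ℤ, 1728 ^ (2 * u + 4 * v + 6 * w) * ∑ s ∈ SN N,
      ((s.1 : ℂ) ^ 2 * E2s (tact s UpperHalfPlane.I)) ^ u *
      ((s.1 : ℂ) ^ 4 * E₄ (tact s UpperHalfPlane.I)) ^ v *
      ((s.1 : ℂ) ^ 6 * E₆ (tact s UpperHalfPlane.I)) ^ w = z * ω ^ (2 * u + 4 * v + 6 * w) := by
  obtain ⟨F, hF⟩ := exists_modForm (IntQ_sum u v w hN) (WInv_sum u v w hN)
  have hF' : IntQ (fun τ ↦ F τ) := by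
    have : (fun τ ↦ F τ) = fun τ ↦ ∑ s ∈ SN N, GG u v w N (toM s) τ := funext hF
    rw [this]; exact IntQ_sum u v w hN
  obtain ⟨z, hz⟩ := value_I hω _ F (intPS_of_intQ F hF')
  refine ⟨z, ?_⟩
  rw [← hz, hF]
  congr 1
  refine Finset.sum_congr rfl fun s hs ↦ ?_
  unfold GG
  rw [E2s_I, mul_zero, sub_zero, HA_toM _ _ hN hs, HA_toM _ _ hN hs, HA_toM _ _ hN hs]

end H32

end S_H32_HeckeI

section S_H32_T3_A0

open UpperHalfPlane hiding I
open Complex EisensteinSeries ModularForm MatrixGroups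
open scoped Real

namespace H32.T3



section nr

open Polynomial Finset

/-- The sum of the absolute values of the coefficients. -/
noncomputable def nr (P : ℤ[X]) : ℝ := ∑ i ∈ P.support, |((P.coeff i : ℤ) : ℝ)|

lemma nr_nonneg (P : ℤ[X]) : 0 ≤ nr P := sum_nonneg fun _ _ ↦ abs_nonneg _

lemma nr_eq {P : ℤ[X]} {S : Finset ℕ} (h : P.support ⊆ S) :
    nr P = ∑ i ∈ S, |((P.coeff i : ℤ) : ℝ)| := by
  unfold nr
  refine sum_subset h fun m _ hm ↦ ?_
  rw [notMem_support_iff.mp hm]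
  simp

lemma nr_zero : nr 0 = 0 := by simp [nr]

lemma nr_add_le (P Q : ℤ[X]) : nr (P + Q) ≤ nr P + nr Q := by
  rw [nr_eq (support_add (p := P) (q := Q)), nr_eq (subset_union_left (s₂ := Q.support)),
    nr_eq (subset_union_right (s₁ := P.support)), ← sum_add_distrib]
  refine sum_le_sum fun m _ ↦ ?_
  rw [coeff_add]
  push_cast
  exact abs_add_le _ _

lemma nr_sum_le {α : Type*} (s : Finset α) (P : α → ℤ[X]) :
    nr (∑ i ∈ s, P i) ≤ ∑ i ∈ s, nr (P i) := by
  classical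
  induction s using Finset.induction_on with
  | empty => simp [nr_zero]
  | insert i t hi ih =>
    rw [sum_insert hi, sum_insert hi]
    exact (nr_add_le _ _).trans (by gcongr)

lemma nr_monomial (m : ℕ) (c : ℤ) : nr (monomial m c) = |(c : ℝ)| := by
  rw [nr_eq (support_monomial_subset m c)]
  simp

lemma nr_monomial_mul (m : ℕ) (c : ℤ) (P : ℤ[X]) :
    nr (monomial m c * P) ≤ |(c : ℝ)| * nr P := by
  have h : monomial m c * P = ∑ k ∈ P.support, monomial (m + k) (c * P.coeff k) := by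
    conv_lhs => rw [P.as_sum_support, mul_sum]
    refine sum_congr rfl fun k _ ↦ ?_
    rw [monomial_mul_monomial]
  rw [h]
  refine (nr_sum_le _ _).trans ?_
  unfold nr
  rw [mul_sum]
  refine sum_le_sum fun k _ ↦ ?_
  have := nr_monomial (m + k) (c * P.coeff k)
  unfold nr at this
  rw [this]
  push_cast
  rw [abs_mul]

lemma nr_mul_le (P Q : ℤ[X]) : nr (P * Q) ≤ nr P * nr Q := by
  conv_lhs => rw [P.as_sum_support, sum_mul]
  refine (nr_sum_le _ _).trans ?_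
  rw [nr, sum_mul]
  exact sum_le_sum fun m _ ↦ nr_monomial_mul _ _ _

lemma nr_C (c : ℤ) : nr (C c) = |(c : ℝ)| := nr_monomial _ _

lemma nr_X_pow (n : ℕ) : nr (X ^ n) = 1 := by
  rw [X_pow_eq_monomial, nr_monomial]; simp

lemma nr_one : nr 1 = 1 := by
  have := nr_C 1
  simpa using this

lemma nr_neg (P : ℤ[X]) : nr (-P) = nr P := by
  unfold nr
  rw [support_neg]
  refine sum_congr rfl fun m _ ↦ ?_
  simp

lemma coeff_le_nr (P : ℤ[X]) (i : ℕ) : |((P.coeff i : ℤ) : ℝ)| ≤ nr P := by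
  by_cases h : i ∈ P.support
  · exact single_le_sum (f := fun m ↦ |((P.coeff m : ℤ) : ℝ)|) (fun _ _ ↦ abs_nonneg _) h
  · rw [notMem_support_iff.mp h]
    simpa using nr_nonneg P

end nr

/-- The `j`-function. -/
noncomputable def jf (τ : ℍ) : ℂ := E₄ τ ^ 3 / discriminant τ

lemma jf_mul (τ : ℍ) : jf τ * discriminant τ = E₄ τ ^ 3 :=
  div_mul_cancel₀ _ (discriminant_ne_zero τ)

lemma jf_sub (τ : ℍ) : (jf τ - 1728) * discriminant τ = E₆ τ ^ 2 := by
  have := discriminant_eq_E₄_cube_sub_E₆_sq τ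
  rw [sub_mul, jf_mul, this]
  ring

/-- The constant coefficient of the `q`-expansion. -/
lemma norm_coeff_zero_le {k : ℤ} (f : ModularForm 𝒮ℒ k) {B t : ℝ} (ht : 0 < t)
    (hB : ∀ τ : ℍ, τ.im = t → ‖f τ‖ ≤ B) : ‖(qExpansion 1 f).coeff 0‖ ≤ B := by
  rw [ModularFormClass.qExpansion_coeff_eq_intervalIntegral (t := t) f one_pos
    one_mem_strictPeriods_SL 0 ht]
  have h := intervalIntegral.norm_integral_le_of_norm_le_const (a := (0 : ℝ)) (b := 1)
    (f := fun u : ℝ ↦ 1 / Function.Periodic.qParam 1 (u + t * I) ^ 0 *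
      f ⟨u + t * I, by simpa using ht⟩) (C := B) ?_
  · simpa using h
  · intro u _
    simp only [pow_zero, div_one, one_mul]
    apply hB
    simp [UpperHalfPlane.im]

lemma norm_qq (τ : ℍ) : ‖qq τ‖ = Real.exp (-2 * π * τ.im) := by
  rw [qq_eq, Complex.norm_exp]
  congr 1
  simp

lemma tail_bound {f : ℍ → ℂ} {c : ℕ → ℂ} (hf : ∀ τ, HasSum (fun m ↦ c m * qq τ ^ m) (f τ))
    (n : ℕ) : ∃ C : ℝ, 0 ≤ C ∧ ∀ τ : ℍ, 1 ≤ τ.im →
      ‖f τ - ∑ m ∈ Finset.range n, c m * qq τ ^ m‖ ≤ C * ‖qq τ‖ ^ n := by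
  have h0 : ‖qq UpperHalfPlane.I‖ = Real.exp (-2 * π) := by
    rw [norm_qq]; simp
  have hs : Summable fun m ↦ ‖c (m + n)‖ * Real.exp (-2 * π) ^ m := by
    have h1 := ((summable_nat_add_iff n).mpr (hf UpperHalfPlane.I).summable.norm).mul_right
      ((Real.exp (-2 * π) ^ n)⁻¹)
    refine h1.congr fun m ↦ ?_
    rw [norm_mul, norm_pow, h0, pow_add]
    have : Real.exp (-2 * π) ^ n ≠ 0 := by positivity
    field_simp
  refine ⟨∑' m, ‖c (m + n)‖ * Real.exp (-2 * π) ^ m, tsum_nonneg fun _ ↦ by positivity,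
    fun τ hτ ↦ ?_⟩
  have h1 := (hasSum_nat_add_iff' n).mpr (hf τ)
  rw [← h1.tsum_eq, ← tsum_mul_right]
  refine tsum_of_norm_bounded (hs.mul_right _).hasSum fun m ↦ ?_
  rw [norm_mul, norm_pow, pow_add, mul_assoc]
  gcongr
  rw [norm_qq]
  apply Real.exp_le_exp.mpr
  nlinarith [Real.pi_pos]

lemma hasSum_disc (τ : ℍ) :
    HasSum (fun m : ℕ ↦ ((psD.coeff m : ℤ) : ℂ) * qq τ ^ m) (discriminant τ) := by
  have h := ModularForm.hasSum_qExpansion (k := 12) CuspForm.discriminant one_pos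
    one_mem_strictPeriods_SL τ
  refine h.congr_fun fun m ↦ ?_
  change _ = (PowerSeries.coeff m) (qExpansion 1 ModularForm.discriminant) * _
  rw [q_disc, PowerSeries.coeff_map, eq_intCast]
  rfl

/-- Behaviour at infinity. -/
lemma near_inf : ∃ Y : ℝ, 1 ≤ Y ∧ ∀ τ : ℍ, Y ≤ τ.im →
    ‖qq τ‖ / 2 ≤ ‖discriminant τ‖ ∧ ‖discriminant τ‖ ≤ 2 * ‖qq τ‖ ∧
      1 / 2 ≤ ‖E₆ τ‖ ∧ ‖E₆ τ‖ ≤ 2 := by
  obtain ⟨C1, hC1, h1⟩ := tail_bound hasSum_disc 2
  obtain ⟨C2, hC2, h2⟩ := tail_bound hasSum_E6 1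
  refine ⟨2 * C1 + 2 * C2 + 1, by linarith, fun τ hτ ↦ ?_⟩
  have hτ1 : 1 ≤ τ.im := by linarith
  have h3 := h1 τ hτ1
  have h4 := h2 τ hτ1
  rw [Finset.sum_range_succ, Finset.sum_range_one, psD_coeff_zero, psD_coeff_one] at h3
  simp only [Int.cast_zero, zero_mul, Int.cast_one, pow_one, one_mul, zero_add] at h3
  rw [Finset.sum_range_one] at h4
  simp only [if_true, Int.cast_one, pow_zero, mul_one, pow_one] at h4
  have hq0 : 0 < ‖qq τ‖ := by rw [norm_qq]; positivity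
  have hq : ‖qq τ‖ * τ.im ≤ 1 := by
    rw [norm_qq]
    have h5 : τ.im ≤ Real.exp (2 * π * τ.im) := by
      have h6 := Real.add_one_le_exp (2 * π * τ.im)
      nlinarith [Real.pi_gt_three]
    calc Real.exp (-2 * π * τ.im) * τ.im ≤ Real.exp (-2 * π * τ.im) * Real.exp (2 * π * τ.im) := by
          gcongr
      _ = 1 := by rw [← Real.exp_add]; simp
  have h5 : C1 * ‖qq τ‖ ≤ 1 / 2 := by
    have : (2 * C1) * ‖qq τ‖ ≤ τ.im * ‖qq τ‖ := by gcongr; linarith
    linarith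
  have h6 : C2 * ‖qq τ‖ ≤ 1 / 2 := by
    have : (2 * C2) * ‖qq τ‖ ≤ τ.im * ‖qq τ‖ := by gcongr; linarith
    linarith
  have h7 : C1 * ‖qq τ‖ ^ 2 ≤ ‖qq τ‖ / 2 := by
    calc C1 * ‖qq τ‖ ^ 2 = (C1 * ‖qq τ‖) * ‖qq τ‖ := by ring
      _ ≤ 1 / 2 * ‖qq τ‖ := by gcongr
      _ = _ := by ring
  have h8 := norm_sub_norm_le (qq τ) (qq τ - discriminant τ)
  rw [norm_sub_rev (qq τ) (discriminant τ)] at h8
  have h9 := norm_sub_norm_le (discriminant τ) (qq τ)
  have h10 := norm_sub_norm_le (E₆ τ) 1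
  have h11 := norm_sub_norm_le 1 (E₆ τ)
  rw [norm_sub_rev 1 (E₆ τ)] at h11
  rw [norm_one] at h10 h11
  have e : qq τ - (qq τ - discriminant τ) = discriminant τ := by ring
  rw [e] at h8
  refine ⟨by linarith, by linarith, by linarith, by linarith⟩

/-- Forms of weight `12 M` with integral `q`-expansion are `Δ ^ M` times an integer polynomial
in `j`, with explicit bounds. -/
theorem exists_polyJ {t : ℝ} (ht : 0 < t) {δ a : ℝ} (hδ : 0 < δ)
    (hΔ : ∀ τ : ℍ, τ.im = t → δ ≤ ‖discriminant τ‖) (ha1 : 1 ≤ a)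
    (ha : ∀ τ : ℍ, τ.im = t → ‖E₄ τ‖ ≤ a) {C : ℝ} (hC : 2 ≤ C) (hC' : 2 * a ^ 3 / δ ≤ C)
    (hC'' : a ^ 3 ≤ C) :
    ∀ (M : ℕ) (f : ModularForm 𝒮ℒ ((12 * M : ℕ) : ℤ)) (B : ℝ), IntPS (qExpansion 1 f) →
      (∀ τ : ℍ, τ.im = t → ‖f τ‖ ≤ B) → ∃ P : Polynomial ℤ, P.natDegree ≤ M ∧
        nr P ≤ B * C ^ (2 * M ^ 2) ∧ ∀ τ, f τ = Polynomial.aeval (jf τ) P * discriminant τ ^ M := by
  have step : ∀ (M : ℕ) (f : ModularForm 𝒮ℒ ((12 * M : ℕ) : ℤ)) (B : ℝ),
      IntPS (qExpansion 1 f) → (∀ τ : ℍ, τ.im = t → ‖f τ‖ ≤ B) →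
      ∃ (c0 : ℤ) (g : ModularForm 𝒮ℒ (((12 * M : ℕ) : ℤ) - 12)), IntPS (qExpansion 1 g) ∧
        |(c0 : ℝ)| ≤ B ∧ ∀ τ, f τ = c0 * E₄ τ ^ (3 * M) + discriminant τ * g τ := by
    intro M f B hf hB
    set e : ModularForm 𝒮ℒ ((12 * M : ℕ) : ℤ) :=
      ModularForm.mcast (by push_cast; ring) (E₄.pow (3 * M)) with he
    have heq : qExpansion 1 e = (qExpansion 1 E₄) ^ (3 * M) := by
      rw [he]
      simp only [coe_mcast, ModularForm.qExpansion_pow one_pos one_mem_strictPeriods_SL]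
    have hcoef := norm_coeff_zero_le f ht hB
    obtain ⟨p, hp⟩ := hf
    set c0 : ℤ := p.coeff 0 with hc0
    set f1 : ModularForm 𝒮ℒ ((12 * M : ℕ) : ℤ) := f - (c0 : ℂ) • e with hf1
    have hq1 : qExpansion 1 f1 = PowerSeries.map (Int.castRingHom ℂ)
        (p - PowerSeries.C c0 * (1 + PowerSeries.C 240 * psA) ^ (3 * M)) := by
      rw [hf1, FunLike.coe_sub, ModularForm.qExpansion_sub one_pos one_mem_strictPeriods_SL,
        FunLike.coe_smul, ModularForm.qExpansion_smul one_pos one_mem_strictPeriods_SL, heq, qE4,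
        hp, map_sub, map_mul, map_pow, PowerSeries.smul_eq_C_mul, PowerSeries.map_C]
      rfl
    have h0 : (qExpansion 1 f1).coeff 0 = 0 := by
      rw [hq1, PowerSeries.coeff_map]
      have : (p - PowerSeries.C c0 * (1 + PowerSeries.C 240 * psA) ^ (3 * M)).coeff 0 = 0 := by
        rw [map_sub, PowerSeries.coeff_C_mul]
        simp [hc0, psA]
      rw [this]; simp
    have hq1' : IntPS (qExpansion 1 f1) := ⟨_, hq1⟩
    have hg := intPS_div f1 h0 hq1'
    refine ⟨c0, CuspForm.discriminantEquiv (toCuspForm f1 h0), hg, ?_, fun τ ↦ ?_⟩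
    · rw [hp, PowerSeries.coeff_map, eq_intCast, Complex.norm_intCast] at hcoef
      exact hcoef
    · rw [discriminant_mul_discriminantEquiv_apply (toCuspForm f1 h0) τ]
      change _ = _ + f1 τ
      rw [hf1]
      simp only [sub_apply, smul_apply, smul_eq_mul, he, coe_mcast, coe_pow, Pi.pow_apply]
      ring
  have hC0 : 0 < C := by linarith
  have hC1 : 1 ≤ C := by linarith
  intro M
  induction M with
  | zero =>
    intro f B hf hB
    obtain ⟨c0, g, hg, hc0, hfg⟩ := step 0 f B hf hB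
    have hg0 : g = 0 := rank_zero_iff_forall_zero.mp (levelOne_neg_weight_rank_zero (by simp)) g
    refine ⟨Polynomial.C c0, by simp, ?_, fun τ ↦ ?_⟩
    · rw [nr_C]; simpa using hc0
    · rw [hfg τ, hg0]
      simp
  | succ M ih =>
    intro f B hf hB
    have hB0 : 0 ≤ B := by
      have h1 := hB ⟨(t : ℂ) * I, by simpa using ht⟩ (by simp [UpperHalfPlane.im])
      exact (norm_nonneg _).trans h1
    obtain ⟨c0, g, hg, hc0, hfg⟩ := step (M + 1) f B hf hB
    have hB' : ∀ τ : ℍ, τ.im = t → ‖g τ‖ ≤ B * C ^ (M + 1) := by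
      intro τ hτ
      have h1 := hΔ τ hτ
      have h2 := ha τ hτ
      have h3 : discriminant τ * g τ = f τ - c0 * E₄ τ ^ (3 * (M + 1)) := by
        rw [hfg τ]; ring
      have h4 : ‖discriminant τ‖ * ‖g τ‖ ≤ B + B * a ^ (3 * (M + 1)) := by
        rw [← norm_mul, h3]
        refine (norm_sub_le _ _).trans ?_
        rw [norm_mul, norm_pow, Complex.norm_intCast]
        have := hB τ hτ
        gcongr
      have ha3 : 1 ≤ a ^ (3 * (M + 1)) := one_le_pow₀ ha1
      have h5 : δ * ‖g τ‖ ≤ 2 * B * a ^ (3 * (M + 1)) := by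
        calc δ * ‖g τ‖ ≤ ‖discriminant τ‖ * ‖g τ‖ := by gcongr
          _ ≤ _ := h4
          _ ≤ _ := by nlinarith
      have h6 : ‖g τ‖ ≤ B * (2 * a ^ 3 / δ) * (a ^ 3) ^ M := by
        have e : B * (2 * a ^ 3 / δ) * (a ^ 3) ^ M = 2 * B * a ^ (3 * (M + 1)) / δ := by
          rw [pow_mul]; ring
        rw [e, le_div_iff₀ hδ]
        linarith
      refine h6.trans ?_
      rw [pow_succ C M, mul_assoc, mul_comm (C ^ M)]
      gcongr
    obtain ⟨P, hP1, hP2, hP3⟩ := ih (ModularForm.mcast (by push_cast; ring) g) _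
      (by simpa using hg) (fun τ hτ ↦ hB' τ hτ)
    refine ⟨Polynomial.C c0 * Polynomial.X ^ (M + 1) + P, ?_, ?_, fun τ ↦ ?_⟩
    · refine (Polynomial.natDegree_add_le _ _).trans (max_le ?_ (by omega))
      exact Polynomial.natDegree_C_mul_X_pow_le _ _
    · have h1 : nr (Polynomial.C c0 * Polynomial.X ^ (M + 1)) ≤ B := by
        refine (nr_mul_le _ _).trans ?_
        rw [nr_C, nr_X_pow, mul_one]
        exact hc0
      refine (nr_add_le _ _).trans ?_
      have h2 : nr P ≤ B * C ^ (2 * M ^ 2 + M + 1) := by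
        refine hP2.trans (le_of_eq ?_)
        rw [mul_assoc, ← pow_add]
        congr 2
        ring
      have h3 : (1 : ℝ) ≤ C ^ (2 * M ^ 2 + M + 1) := one_le_pow₀ hC1
      calc nr (Polynomial.C c0 * Polynomial.X ^ (M + 1)) + nr P
          ≤ B * C ^ (2 * M ^ 2 + M + 1) + B * C ^ (2 * M ^ 2 + M + 1) := by
            have : B ≤ B * C ^ (2 * M ^ 2 + M + 1) := le_mul_of_one_le_right hB0 h3
            linarith
        _ = B * (2 * C ^ (2 * M ^ 2 + M + 1)) := by ring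
        _ ≤ B * (C * C ^ (2 * M ^ 2 + M + 1)) := by gcongr
        _ = B * C ^ (2 * M ^ 2 + M + 2) := by ring
        _ ≤ _ := by
          gcongr
          nlinarith
    · have h1 := hP3 τ
      have h2 : g τ = (Polynomial.aeval (jf τ)) P * discriminant τ ^ M := h1
      rw [hfg τ, h2]
      rw [map_add, map_mul, Polynomial.aeval_C, map_pow, Polynomial.aeval_X,
        algebraMap_int_eq, eq_intCast]
      have h3 : E₄ τ ^ (3 * (M + 1)) = jf τ ^ (M + 1) * discriminant τ ^ (M + 1) := by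
        rw [← mul_pow, jf_mul, ← pow_mul]
      rw [h3]
      ring

end H32.T3

end S_H32_T3_A0

section S_H32_T3_A1

open UpperHalfPlane hiding I
open Complex EisensteinSeries ModularForm MatrixGroups
open scoped Real

namespace H32.T3

open Polynomial Finset

/-- `F` is an integer polynomial in `j` of degree at most `d` and norm at most `B`. -/
def JP (d : ℕ) (B : ℝ) (F : ℍ → ℂ) : Prop :=
  ∃ P : ℤ[X], P.natDegree ≤ d ∧ nr P ≤ B ∧ ∀ τ, F τ = aeval (jf τ) P

lemma JP.nonneg {d : ℕ} {B : ℝ} {F : ℍ → ℂ} (h : JP d B F) : 0 ≤ B := by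
  obtain ⟨P, -, h2, -⟩ := h
  exact (nr_nonneg P).trans h2

lemma JP.mono {d d' : ℕ} {B B' : ℝ} {F : ℍ → ℂ} (h : JP d B F) (hd : d ≤ d') (hB : B ≤ B') :
    JP d' B' F := by
  obtain ⟨P, h1, h2, h3⟩ := h
  exact ⟨P, h1.trans hd, h2.trans hB, h3⟩

lemma JP.mul {d d' : ℕ} {B B' : ℝ} {F G : ℍ → ℂ} (hF : JP d B F) (hG : JP d' B' G) :
    JP (d + d') (B * B') (fun τ ↦ F τ * G τ) := by
  have hB := hF.nonneg
  obtain ⟨P, h1, h2, h3⟩ := hF
  obtain ⟨Q, k1, k2, k3⟩ := hG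
  refine ⟨P * Q, natDegree_mul_le_of_le h1 k1, (nr_mul_le _ _).trans ?_, fun τ ↦ ?_⟩
  · have := nr_nonneg Q
    gcongr
  · simp only [map_mul, h3, k3]

lemma JP.const (c : ℤ) : JP 0 |(c : ℝ)| (fun _ ↦ (c : ℂ)) :=
  ⟨C c, by simp, by rw [nr_C], fun τ ↦ by simp⟩

lemma JP.const_mul {d : ℕ} {B : ℝ} {F : ℍ → ℂ} (hF : JP d B F) (c : ℤ) :
    JP d (|(c : ℝ)| * B) (fun τ ↦ c * F τ) := by
  have := (JP.const c).mul hF
  rwa [zero_add] at this

lemma JP.sum {α : Type*} (s : Finset α) {d : ℕ} {B : α → ℝ} {F : α → ℍ → ℂ}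
    (h : ∀ i ∈ s, JP d (B i) (F i)) : JP d (∑ i ∈ s, B i) (fun τ ↦ ∑ i ∈ s, F i τ) := by
  classical
  induction s using Finset.induction_on with
  | empty => exact ⟨0, by simp, by simp [nr_zero], by simp⟩
  | insert i t hi ih =>
    obtain ⟨P, h1, h2, h3⟩ := h i (mem_insert_self _ _)
    obtain ⟨Q, k1, k2, k3⟩ := ih fun j hj ↦ h j (mem_insert_of_mem hj)
    refine ⟨P + Q, (natDegree_add_le _ _).trans (max_le h1 k1), ?_, fun τ ↦ ?_⟩
    · rw [sum_insert hi]
      exact (nr_add_le _ _).trans (add_le_add h2 k2)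
    · have e := k3 τ
      simp only at e ⊢
      rw [sum_insert hi, map_add, h3, e]

variable {S : Type} [Fintype S]

/-- elementary symmetric functions of the values of a family. -/
noncomputable def es (x : S → ℍ → ℂ) (k : ℕ) (τ : ℍ) : ℂ :=
  MvPolynomial.aeval (fun s ↦ x s τ) (MvPolynomial.esymm S ℤ k)

lemma es_zero (x : S → ℍ → ℂ) (τ : ℍ) : es x 0 τ = 1 := by
  simp [es, MvPolynomial.esymm_zero]

lemma es_newton (x : S → ℍ → ℂ) (k : ℕ) (τ : ℍ) : (k : ℂ) * es x k τ =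
    (-1) ^ (k + 1) * ∑ a ∈ (Finset.HasAntidiagonal.antidiagonal k).filter (fun a ↦ a.1 < k),
      (-1) ^ a.1 * es x a.1 τ * ∑ s, x s τ ^ a.2 := by
  have h := congrArg (MvPolynomial.aeval (fun s ↦ x s τ)) (MvPolynomial.mul_esymm_eq_sum S ℤ k)
  simp only [map_mul, map_natCast, map_pow, map_neg, map_one, map_sum, MvPolynomial.psum,
    MvPolynomial.aeval_X] at h
  exact h

lemma newton_JP (x : S → ℍ → ℂ) (c : ℕ) {B : ℝ} (hB : 1 ≤ B)
    (hp : ∀ k, 1 ≤ k → k ≤ Fintype.card S → JP (c * k) B (fun τ ↦ ∑ s, x s τ ^ k)) :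
    ∀ k ≤ Fintype.card S, JP (c * k) ((((Fintype.card S).factorial : ℝ) * B) ^ k)
      (fun τ ↦ (k.factorial : ℂ) * es x k τ) := by
  set M := Fintype.card S with hM
  have hMB : 1 ≤ (M.factorial : ℝ) * B := by
    have : (1 : ℝ) ≤ M.factorial := by exact_mod_cast Nat.one_le_iff_ne_zero.mpr M.factorial_ne_zero
    exact one_le_mul_of_one_le_of_one_le this hB
  intro k
  induction k using Nat.strong_induction_on with | _ k ih =>
  intro hk
  rcases Nat.eq_zero_or_pos k with rfl | hk0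
  · refine ⟨1, by simp, ?_, fun τ ↦ ?_⟩
    · rw [nr_one]; simp
    · simp [es_zero]
  -- the terms
  set A := (Finset.HasAntidiagonal.antidiagonal k).filter (fun a ↦ a.1 < k) with hA
  have hmem : ∀ a ∈ A, a.1 + a.2 = k ∧ a.1 < k := fun a ha ↦ by
    rw [hA, mem_filter, Finset.HasAntidiagonal.mem_antidiagonal] at ha
    exact ha
  set C' : ℕ × ℕ → ℤ := fun a ↦ (-1) ^ (k + 1) * (-1) ^ a.1 *
    (((k - 1).factorial / a.1.factorial : ℕ) : ℤ) with hC'
  have hterm : ∀ a ∈ A, JP (c * k) ((k - 1).factorial * (((M.factorial : ℝ) * B) ^ (k - 1) * B))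
      (fun τ ↦ (C' a : ℂ) * (((a.1.factorial : ℂ) * es x a.1 τ) * ∑ s, x s τ ^ a.2)) := by
    intro a ha
    obtain ⟨h1, h2⟩ := hmem a ha
    have h3 := ih a.1 h2 (by omega)
    have h4 := hp a.2 (by omega) (by omega)
    refine ((h3.mul h4).const_mul (C' a)).mono (le_of_eq ?_) ?_
    · rw [← mul_add, h1]
    · have h5 : |((C' a : ℤ) : ℝ)| ≤ (k - 1).factorial := by
        rw [hC']
        simp only [Int.cast_mul, Int.cast_pow, Int.cast_neg, Int.cast_one, Int.cast_natCast]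
        rw [abs_mul, abs_mul, abs_pow, abs_pow, abs_neg, abs_one, one_pow, one_pow, one_mul,
          one_mul, Nat.abs_cast]
        exact_mod_cast Nat.div_le_self _ _
      have h6 : ((M.factorial : ℝ) * B) ^ a.1 ≤ ((M.factorial : ℝ) * B) ^ (k - 1) :=
        pow_le_pow_right₀ hMB (by omega)
      have h7 : (0 : ℝ) ≤ ((M.factorial : ℝ) * B) ^ a.1 := by positivity
      have h8 : 0 ≤ B := by linarith
      gcongr
  have hsum := JP.sum A hterm
  have heq : (fun τ ↦ (k.factorial : ℂ) * es x k τ) = fun τ ↦ ∑ a ∈ A,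
      (C' a : ℂ) * (((a.1.factorial : ℂ) * es x a.1 τ) * ∑ s, x s τ ^ a.2) := by
    ext τ
    have h1 : (k.factorial : ℂ) = ((k - 1).factorial : ℂ) * k := by
      rw [← Nat.mul_factorial_pred hk0.ne']
      push_cast; ring
    rw [h1, mul_assoc, es_newton, mul_sum, mul_sum]
    refine sum_congr rfl fun a ha ↦ ?_
    obtain ⟨h2, h3⟩ := hmem a ha
    have h4 : (((k - 1).factorial / a.1.factorial : ℕ) : ℂ) * a.1.factorial =
        ((k - 1).factorial : ℂ) := by
      rw [← Nat.cast_mul, Nat.div_mul_cancel (Nat.factorial_dvd_factorial (by omega))]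
    rw [hC']
    simp only [Int.cast_mul, Int.cast_pow, Int.cast_neg, Int.cast_one, Int.cast_natCast]
    rw [← h4]
    ring
  rw [heq]
  refine hsum.mono le_rfl ?_
  rw [sum_const, nsmul_eq_mul]
  have hcard : (A.card : ℝ) ≤ k := by
    have h1 : A.card ≤ k := by
      have h2 : A.image Prod.fst ⊆ range k := by
        intro i hi
        obtain ⟨a, ha, rfl⟩ := mem_image.mp hi
        exact mem_range.mpr (hmem a ha).2
      have h3 : (A.image Prod.fst).card = A.card := by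
        refine card_image_of_injOn fun a ha b hb hab ↦ ?_
        have h4 := hmem a ha
        have h5 := hmem b hb
        ext
        · exact hab
        · have : a.1 = b.1 := hab
          omega
      rw [← h3]
      simpa using card_le_card h2
    exact_mod_cast h1
  have hpow : (0 : ℝ) ≤ ((M.factorial : ℝ) * B) ^ (k - 1) := by positivity
  have hB0 : 0 ≤ B := by linarith
  calc (A.card : ℝ) * ((k - 1).factorial * (((M.factorial : ℝ) * B) ^ (k - 1) * B))
      ≤ k * ((k - 1).factorial * (((M.factorial : ℝ) * B) ^ (k - 1) * B)) := by gcongr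
    _ = (k.factorial : ℝ) * B * ((M.factorial : ℝ) * B) ^ (k - 1) := by
      rw [← Nat.mul_factorial_pred hk0.ne']
      push_cast
      ring
    _ ≤ (M.factorial : ℝ) * B * ((M.factorial : ℝ) * B) ^ (k - 1) := by
      have : (k.factorial : ℝ) ≤ M.factorial := by exact_mod_cast Nat.factorial_le hk
      gcongr
    _ = ((M.factorial : ℝ) * B) ^ k := by
      rw [← pow_succ']
      congr 1
      omega

/-- the polynomial relation satisfied by the members of the family. -/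
theorem exists_rel (x : S → ℍ → ℂ) (c : ℕ) {B : ℝ} (hB : 1 ≤ B)
    (hp : ∀ k, 1 ≤ k → k ≤ Fintype.card S → JP (c * k) B (fun τ ↦ ∑ s, x s τ ^ k)) :
    ∃ r : ℕ → ℤ[X], r (Fintype.card S) = C ((Fintype.card S).factorial : ℤ) ∧
      (∀ i, (r i).natDegree ≤ c * Fintype.card S) ∧
      (∀ i, nr (r i) ≤ (((Fintype.card S).factorial : ℝ) * B) ^ (Fintype.card S + 1)) ∧
      ∀ (τ : ℍ) (u : ℂ), ∑ i ∈ range (Fintype.card S + 1), aeval (jf τ) (r i) * u ^ i =
        ((Fintype.card S).factorial : ℂ) * ∏ s, (u - x s τ) := by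
  have hN := newton_JP x c hB hp
  set M := Fintype.card S with hM
  choose! E hE1 hE2 hE3 using hN
  have hMB : 1 ≤ (M.factorial : ℝ) * B := by
    have : (1 : ℝ) ≤ M.factorial := by exact_mod_cast Nat.one_le_iff_ne_zero.mpr M.factorial_ne_zero
    exact one_le_mul_of_one_le_of_one_le this hB
  -- coefficient `i` is `(-1)^(M-i) M!/(M-i)! E_{M-i}`
  set r : ℕ → ℤ[X] := fun i ↦ if i = M then C (M.factorial : ℤ) else
    if i < M then C ((-1) ^ (M - i) * ((M.factorial / (M - i).factorial : ℕ) : ℤ)) * E (M - i)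
    else 0 with hr
  refine ⟨r, by simp [hr], fun i ↦ ?_, fun i ↦ ?_, fun τ u ↦ ?_⟩
  · rw [hr]
    simp only
    split_ifs with h1 h2
    · simp
    · refine (natDegree_C_mul_le _ _).trans ((hE1 (M - i) (by omega)).trans ?_)
      gcongr
      omega
    · simp
  · rw [hr]
    simp only
    have hpow : (1 : ℝ) ≤ ((M.factorial : ℝ) * B) ^ (M + 1) := one_le_pow₀ hMB
    split_ifs with h1 h2
    · rw [nr_C, pow_succ]
      have h3 : (1 : ℝ) ≤ ((M.factorial : ℝ) * B) ^ M := one_le_pow₀ hMB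
      rw [Int.cast_natCast, Nat.abs_cast]
      have h4 : (M.factorial : ℝ) ≤ M.factorial * B := le_mul_of_one_le_right (by positivity) hB
      exact h4.trans (le_mul_of_one_le_left (by linarith) h3)
    · refine (nr_mul_le _ _).trans ?_
      rw [nr_C]
      have h3 : |(((-1) ^ (M - i) * ((M.factorial / (M - i).factorial : ℕ) : ℤ) : ℤ) : ℝ)| ≤
          M.factorial * B := by
        simp only [Int.cast_mul, Int.cast_pow, Int.cast_neg, Int.cast_one, Int.cast_natCast]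
        rw [abs_mul, abs_pow, abs_neg, abs_one, one_pow, one_mul, Nat.abs_cast]
        have h4 : ((M.factorial / (M - i).factorial : ℕ) : ℝ) ≤ M.factorial := by
          exact_mod_cast Nat.div_le_self _ _
        exact h4.trans (le_mul_of_one_le_right (by positivity) hB)
      have h4 := hE2 (M - i) (by omega)
      have h5 : ((M.factorial : ℝ) * B) ^ (M - i) ≤ ((M.factorial : ℝ) * B) ^ M :=
        pow_le_pow_right₀ hMB (by omega)
      calc _ ≤ (M.factorial * B) * ((M.factorial : ℝ) * B) ^ M := by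
            have := nr_nonneg (E (M - i))
            have h6 := h4.trans h5
            gcongr
        _ = _ := by rw [pow_succ]; ring
    · rw [nr_zero]
      linarith
  · -- Vieta
    have hV := congrArg (Polynomial.map (MvPolynomial.aeval (fun s ↦ -x s τ) :
      MvPolynomial S ℤ →ₐ[ℤ] ℂ).toRingHom) (MvPolynomial.prod_C_add_X_eq_sum_esymm ℤ S)
    have hV2 := congrArg (Polynomial.eval u) hV
    rw [Polynomial.map_prod, Polynomial.eval_prod, Polynomial.map_sum,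
      Polynomial.eval_finsetSum] at hV2
    simp only [Polynomial.map_add, Polynomial.map_mul, Polynomial.map_pow, Polynomial.map_X,
      Polynomial.map_C, eval_add, eval_mul, eval_pow, eval_X, eval_C, AlgHom.toRingHom_eq_coe,
      RingHom.coe_coe, MvPolynomial.aeval_X] at hV2
    have hes : ∀ j, MvPolynomial.aeval (fun s ↦ -x s τ) (MvPolynomial.esymm S ℤ j) =
        (-1) ^ j * es x j τ := by
      intro j
      rw [es, MvPolynomial.esymm, map_sum, map_sum, mul_sum]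
      refine sum_congr rfl fun t ht ↦ ?_
      rw [map_prod, map_prod]
      simp only [MvPolynomial.aeval_X]
      rw [prod_neg, (mem_powersetCard.mp ht).2]
    have hprod : ∏ s, (u - x s τ) = ∑ j ∈ range (M + 1), (-1) ^ j * es x j τ * u ^ (M - j) := by
      calc ∏ s, (u - x s τ) = ∏ s, (u + -x s τ) := by simp only [sub_eq_add_neg]
        _ = _ := by
          rw [hV2]
          refine sum_congr rfl fun j _ ↦ ?_
          rw [hes]
    rw [hprod, mul_sum, ← sum_range_reflect]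
    refine sum_congr rfl fun j hj ↦ ?_
    have hj' : j ≤ M := Nat.lt_succ_iff.mp (mem_range.mp hj)
    have e1 : M + 1 - 1 - j = M - j := by omega
    rw [e1]
    rcases Nat.eq_zero_or_pos j with rfl | hj0
    · simp [hr, es_zero]
    · have h1 : M - j ≠ M := by omega
      have h2 : M - j < M := by omega
      have h3 : M - (M - j) = j := by omega
      rw [hr]
      simp only [if_neg h1, if_pos h2]
      rw [h3, map_mul, aeval_C, ← hE3 j hj' τ]
      have h4 : ((M.factorial / j.factorial : ℕ) : ℂ) * j.factorial = (M.factorial : ℂ) := by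
        rw [← Nat.cast_mul, Nat.div_mul_cancel (Nat.factorial_dvd_factorial hj')]
      rw [algebraMap_int_eq, eq_intCast]
      simp only [Int.cast_mul, Int.cast_pow, Int.cast_neg, Int.cast_one, Int.cast_natCast]
      rw [← h4]
      ring

end H32.T3

end S_H32_T3_A1
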