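import Mathlib
import Pool.Agent.H32.AKM.P06

/-! Modular Schanuel with derivatives for points algebraic over a field with good approximations, part 7: this file joins several modules to save build time. -/

section S_H32_Indep

open UpperHalfPlane hiding I
open Complex EisensteinSeries ModularForm MatrixGroups Manifold
open scoped Real Topology

namespace H32

lemma analytic_of_mdiff {f : ℍ → ℂ} (hf : MDiff f) :
    AnalyticOnNhd ℂ (fun w ↦ f (ofComplex w)) upperHalfPlaneSet := by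
  rw [UpperHalfPlane.mdifferentiable_iff] at hf
  exact DifferentiableOn.analyticOnNhd hf isOpen_upperHalfPlaneSet

lemma preconnected_H : IsPreconnected upperHalfPlaneSet := by
  exact (convex_halfSpace_im_gt 0).isPreconnected

lemma analytic_E2 : AnalyticOnNhd ℂ (fun w ↦ E2 (ofComplex w)) upperHalfPlaneSet :=
  analytic_of_mdiff IntQ_E2.mdiff
lemma analytic_E4 : AnalyticOnNhd ℂ (fun w ↦ E₄ (ofComplex w)) upperHalfPlaneSet :=
  analytic_of_mdiff IntQ_E4'.mdiff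
lemma analytic_E6 : AnalyticOnNhd ℂ (fun w ↦ E₆ (ofComplex w)) upperHalfPlaneSet :=
  analytic_of_mdiff IntQ_E6'.mdiff

lemma E6_not_zero : ¬ ∀ w ∈ upperHalfPlaneSet, E₆ (ofComplex w) = 0 := by
  intro h
  have h1 : ∀ τ : ℍ, E₆ τ = 0 := fun τ ↦ by
    have := h τ τ.im_pos
    rwa [ofComplex_apply] at this
  apply E_ne_zero (k := 6) (by norm_num) ⟨3, rfl⟩
  ext τ
  exact h1 τ

open Polynomial in
lemma indep46 (N : ℕ) : ∀ R : Polynomial (Polynomial ℂ), R.natDegree ≤ N →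
    (∀ (u : ℂ) (τ : ℍ), u ≠ 0 → R.evalEval (u ^ 4 * E₄ τ) (u ^ 6 * E₆ τ) = 0) → R = 0 := by
  induction N with
  | zero =>
    intro R hR h
    obtain ⟨p, rfl⟩ : ∃ p, R = C p := ⟨_, eq_C_of_natDegree_le_zero hR⟩
    have hp : p = 0 := by
      apply eq_zero_of_infinite_isRoot
      have hinf : Set.Infinite (Set.range fun m : ℕ ↦ ((m : ℂ) + 1) * E₄ UpperHalfPlane.I) := by
        refine Set.infinite_range_of_injective fun a b hab ↦ ?_
        have := mul_right_cancel₀ E4_I_ne hab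
        have h2 : (a : ℂ) = b := by linear_combination this
        exact_mod_cast h2
      refine hinf.mono ?_
      rintro _ ⟨m, rfl⟩
      obtain ⟨u, hu⟩ := IsAlgClosed.exists_pow_nat_eq ((m : ℂ) + 1) (n := 4) (by norm_num)
      have hm : (m : ℂ) + 1 ≠ 0 := by exact_mod_cast Nat.succ_ne_zero m
      have hu0 : u ≠ 0 := by
        rintro rfl
        rw [zero_pow (by norm_num)] at hu
        exact hm hu.symm
      have := h u UpperHalfPlane.I hu0
      rw [evalEval_C, hu] at this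
      exact this
    rw [hp, map_zero]
  | succ N ih =>
    intro R hR h
    have h0 : R.coeff 0 = 0 := by
      apply eq_zero_of_infinite_isRoot
      have hinf : Set.Infinite (Set.range fun m : ℕ ↦ ((m : ℂ) + 1) * E₄ UpperHalfPlane.I) := by
        refine Set.infinite_range_of_injective fun a b hab ↦ ?_
        have := mul_right_cancel₀ E4_I_ne hab
        have h2 : (a : ℂ) = b := by linear_combination this
        exact_mod_cast h2
      refine hinf.mono ?_
      rintro _ ⟨m, rfl⟩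
      obtain ⟨u, hu⟩ := IsAlgClosed.exists_pow_nat_eq ((m : ℂ) + 1) (n := 4) (by norm_num)
      have hm : (m : ℂ) + 1 ≠ 0 := by exact_mod_cast Nat.succ_ne_zero m
      have hu0 : u ≠ 0 := by
        rintro rfl
        rw [zero_pow (by norm_num)] at hu
        exact hm hu.symm
      have := h u UpperHalfPlane.I hu0
      rw [E6_I, mul_zero, hu, evalEval, map_zero, ← coeff_zero_eq_eval_zero] at this
      exact this
    have hdiv : R.divX * X = R := by
      have := divX_mul_X_add R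
      rwa [h0, map_zero, add_zero] at this
    have h' : ∀ (u : ℂ) (τ : ℍ), u ≠ 0 → R.divX.evalEval (u ^ 4 * E₄ τ) (u ^ 6 * E₆ τ) = 0 := by
      intro u τ hu
      have hmul : ∀ w ∈ upperHalfPlaneSet,
          (fun w ↦ R.divX.evalEval (u ^ 4 * E₄ (ofComplex w)) (u ^ 6 * E₆ (ofComplex w))) w *
          (fun w ↦ E₆ (ofComplex w)) w = 0 := by
        intro w _
        have h1 := h u (ofComplex w) hu
        rw [← hdiv, evalEval_mul, evalEval_X] at h1
        have hu6 : u ^ 6 ≠ 0 := pow_ne_zero _ hu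
        have h2 : u ^ 6 * (R.divX.evalEval (u ^ 4 * E₄ (ofComplex w)) (u ^ 6 * E₆ (ofComplex w)) *
          E₆ (ofComplex w)) = 0 := by linear_combination h1
        exact (mul_eq_zero.mp h2).resolve_left hu6
      have hana : AnalyticOnNhd ℂ (fun w ↦ R.divX.evalEval (u ^ 4 * E₄ (ofComplex w))
          (u ^ 6 * E₆ (ofComplex w))) upperHalfPlaneSet := by
        have e : (fun w ↦ R.divX.evalEval (u ^ 4 * E₄ (ofComplex w)) (u ^ 6 * E₆ (ofComplex w))) =
            fun w ↦ ∑ i ∈ R.divX.support, (aeval (u ^ 4 * E₄ (ofComplex w)) (R.divX.coeff i)) *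
              (u ^ 6 * E₆ (ofComplex w)) ^ i := by
          ext w
          rw [evalEval, eval_eq_sum (p := R.divX), Polynomial.sum, eval_finsetSum]
          refine Finset.sum_congr rfl fun i _ ↦ ?_
          simp [coe_aeval_eq_eval]
        rw [e]
        refine Finset.analyticOnNhd_fun_sum _ fun i _ ↦ ?_
        refine AnalyticOnNhd.mul ?_ ((analyticOnNhd_const.mul analytic_E6).pow i)
        exact (analyticOnNhd_const.mul analytic_E4).aeval_polynomial _
      rcases AnalyticOnNhd.eq_zero_or_eq_zero_of_mul_eq_zero hana analytic_E6 hmul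
        preconnected_H with h3 | h3
      · have := h3 τ τ.im_pos
        simpa [ofComplex_apply] using this
      · exact absurd h3 E6_not_zero
    have hdeg : R.divX.natDegree ≤ N := by
      rw [natDegree_divX_eq_natDegree_tsub_one]
      omega
    rw [← hdiv, ih _ hdeg h', zero_mul]

end H32

end S_H32_Indep

section S_H32_Indep2

open UpperHalfPlane hiding I
open Complex EisensteinSeries ModularForm MatrixGroups Manifold
open scoped Real Topology
open MvPolynomial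

namespace H32

/-- A polynomial in one variable obtained by substitution. -/
lemma poly_sub (P : MvPolynomial (Fin 4) ℂ) (g : Fin 4 → Polynomial ℂ) (t : ℂ) :
    (aeval g P).eval t = aeval (fun i ↦ (g i).eval t) P := by
  have h : (Polynomial.evalRingHom t).comp (aeval g : MvPolynomial (Fin 4) ℂ →ₐ[ℂ] _).toRingHom =
      (aeval (fun i ↦ (g i).eval t) : MvPolynomial (Fin 4) ℂ →ₐ[ℂ] _).toRingHom := by
    apply MvPolynomial.ringHom_ext
    · intro r; simp
    · intro i; simp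
  exact congrArg (fun f ↦ f P) h

lemma poly_zero_of_infinite {p : Polynomial ℂ} (f : ℕ → ℂ) (hf : Function.Injective f)
    (h : ∀ m, p.eval (f m) = 0) : p = 0 := by
  apply Polynomial.eq_zero_of_infinite_isRoot
  refine (Set.infinite_range_of_injective hf).mono ?_
  rintro _ ⟨m, rfl⟩
  exact h m

/-- A family of unimodular matrices. -/
def gM (c m : ℕ) : SL(2, ℤ) := ⟨!![1, (m : ℤ); (c : ℤ), c * m + 1], by
  rw [Matrix.det_fin_two]
  simp
  ring⟩

lemma denom_gM (c m : ℕ) (τ : ℍ) :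
    denom ((gM c m : SL(2, ℤ)) : GL (Fin 2) ℝ) τ = c * τ + (c * m + 1) := by
  rw [ModularGroup.denom_apply]
  simp [gM]

lemma gM_10 (c m : ℕ) : (gM c m) 1 0 = c := by
  simp [gM]

lemma smul_gM_zero (m : ℕ) (τ : ℍ) : ((gM 0 m • τ : ℍ) : ℂ) = τ + m := by
  rw [coe_specialLinearGroup_apply]
  simp [gM]

theorem indep_H (P : MvPolynomial (Fin 4) ℂ)
    (h : ∀ τ : ℍ, aeval ![(τ : ℂ), E2 τ, E₄ τ, E₆ τ] P = 0) : P = 0 := by
  -- the first variable is free
  have ha : ∀ (t : ℂ) (τ : ℍ), aeval ![t, E2 τ, E₄ τ, E₆ τ] P = 0 := by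
    intro t τ
    set g : Fin 4 → Polynomial ℂ :=
      ![Polynomial.X, Polynomial.C (E2 τ), Polynomial.C (E₄ τ), Polynomial.C (E₆ τ)] with hg
    have hev : ∀ s : ℂ, (fun i ↦ (g i).eval s) = ![s, E2 τ, E₄ τ, E₆ τ] := by
      intro s; ext i; fin_cases i <;> simp [hg]
    have hp : aeval g P = 0 := by
      refine poly_zero_of_infinite (fun m : ℕ ↦ (τ : ℂ) + m) (fun a b hab ↦ by
        have : (a : ℂ) = b := add_left_cancel hab
        exact_mod_cast this) fun m ↦ ?_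
      rw [poly_sub, hev, ← smul_gM_zero]
      have h1 := h (gM 0 m • τ)
      have hden : denom ((gM 0 m : SL(2, ℤ)) : GL (Fin 2) ℝ) τ = 1 := by
        rw [denom_gM]; simp
      have e2 : E2 (gM 0 m • τ) = E2 τ := by
        rw [E2_smul, hden, gM_10]
        simp
      have e4 : E₄ (gM 0 m • τ) = E₄ τ := by
        have := WInv_E4 (gM 0 m) τ
        simp only at this
        rw [this, hden]
        simp
      have e6 : E₆ (gM 0 m • τ) = E₆ τ := by
        have := WInv_E6 (gM 0 m) τ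
        simp only at this
        rw [this, hden]
        simp
      rwa [e2, e4, e6] at h1
    have := poly_sub P g t
    rw [hp, hev] at this
    simpa using this.symm
  -- modular transformations
  have hb1 : ∀ (t u : ℂ) (τ : ℍ) (c : ℕ), 0 < c →
      aeval ![t, u ^ 2 * E2 τ - 6 * I / π * c * u, u ^ 4 * E₄ τ, u ^ 6 * E₆ τ] P = 0 := by
    intro t u τ c hc
    set g : Fin 4 → Polynomial ℂ :=
      ![Polynomial.C t, Polynomial.X ^ 2 * Polynomial.C (E2 τ) -
        Polynomial.C (6 * I / π * c) * Polynomial.X, Polynomial.X ^ 4 * Polynomial.C (E₄ τ),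
        Polynomial.X ^ 6 * Polynomial.C (E₆ τ)] with hg
    have hev : ∀ s : ℂ, (fun i ↦ (g i).eval s) =
        ![t, s ^ 2 * E2 τ - 6 * I / π * c * s, s ^ 4 * E₄ τ, s ^ 6 * E₆ τ] := by
      intro s; ext i
      fin_cases i
      · simp [hg]
      · simp [hg]
        ring
      · simp [hg]
        ring
      · simp [hg]
        ring
    have hc' : (c : ℂ) ≠ 0 := by exact_mod_cast hc.ne'
    have hp : aeval g P = 0 := by
      refine poly_zero_of_infinite (fun m : ℕ ↦ (c : ℂ) * τ + (c * m + 1)) (fun a b hab ↦ by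
        have h1 : (c : ℂ) * ((a : ℂ) - b) = 0 := by
          simp only at hab
          linear_combination hab
        have h2 : (a : ℂ) - b = 0 := (mul_eq_zero.mp h1).resolve_left hc'
        have : (a : ℂ) = b := by linear_combination h2
        exact_mod_cast this) fun m ↦ ?_
      rw [poly_sub, hev]
      set γ : SL(2, ℤ) := gM c m with hγ
      have hden : denom (γ : GL (Fin 2) ℝ) τ = c * τ + (c * m + 1) := denom_gM c m τ
      have h1 := ha t (γ • τ)
      have e2 := E2_smul γ τ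
      have e4 := WInv_E4 γ τ
      have e6 := WInv_E6 γ τ
      have e10 : γ 1 0 = c := gM_10 c m
      simp only at e4 e6
      rw [e2, e4, e6, hden, e10] at h1
      exact_mod_cast h1
    have := poly_sub P g u
    rw [hp, hev] at this
    simpa using this.symm
  have hb2 : ∀ (t u c : ℂ) (τ : ℍ),
      aeval ![t, u ^ 2 * E2 τ - 6 * I / π * c * u, u ^ 4 * E₄ τ, u ^ 6 * E₆ τ] P = 0 := by
    intro t u c τ
    set g : Fin 4 → Polynomial ℂ :=
      ![Polynomial.C t, Polynomial.C (u ^ 2 * E2 τ) -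
        Polynomial.C (6 * I / π) * Polynomial.X * Polynomial.C u, Polynomial.C (u ^ 4 * E₄ τ),
        Polynomial.C (u ^ 6 * E₆ τ)] with hg
    have hev : ∀ s : ℂ, (fun i ↦ (g i).eval s) =
        ![t, u ^ 2 * E2 τ - 6 * I / π * s * u, u ^ 4 * E₄ τ, u ^ 6 * E₆ τ] := by
      intro s; ext i; fin_cases i <;> simp [hg]
    have hp : aeval g P = 0 := by
      refine poly_zero_of_infinite (fun m : ℕ ↦ ((m + 1 : ℕ) : ℂ)) (fun a b hab ↦ by
        simp only at hab
        have : a + 1 = b + 1 := by exact_mod_cast hab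
        omega) fun m ↦ ?_
      rw [poly_sub, hev]
      exact hb1 t u τ (m + 1) (Nat.succ_pos m)
    have := poly_sub P g c
    rw [hp, hev] at this
    simpa using this.symm
  have hb3 : ∀ (t x u : ℂ) (τ : ℍ), u ≠ 0 →
      aeval ![t, x, u ^ 4 * E₄ τ, u ^ 6 * E₆ τ] P = 0 := by
    intro t x u τ hu
    have hpi : (π : ℂ) ≠ 0 := by exact_mod_cast Real.pi_ne_zero
    have hI : Complex.I ≠ 0 := Complex.I_ne_zero
    have := hb2 t u ((u ^ 2 * E2 τ - x) * π / (6 * I * u)) τ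
    have e : u ^ 2 * E2 τ - 6 * I / π * ((u ^ 2 * E2 τ - x) * π / (6 * I * u)) * u = x := by
      field_simp
      ring
    rwa [e] at this
  -- conclusion
  have hc : ∀ t x y z : ℂ, aeval ![t, x, y, z] P = 0 := by
    intro t x y z
    set R : Polynomial (Polynomial ℂ) := aeval ![Polynomial.C (Polynomial.C t),
      Polynomial.C (Polynomial.C x), Polynomial.C Polynomial.X, Polynomial.X] P with hR
    have hev : ∀ y z : ℂ, R.evalEval y z = aeval ![t, x, y, z] P := by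
      intro y z
      have h : (Polynomial.evalEvalRingHom y z).comp (aeval (![Polynomial.C (Polynomial.C t),
          Polynomial.C (Polynomial.C x), Polynomial.C Polynomial.X, Polynomial.X] :
            Fin 4 → Polynomial (Polynomial ℂ)) :
          MvPolynomial (Fin 4) ℂ →ₐ[ℂ] Polynomial (Polynomial ℂ)).toRingHom =
          (aeval ![t, x, y, z] : MvPolynomial (Fin 4) ℂ →ₐ[ℂ] ℂ).toRingHom := by
        apply MvPolynomial.ringHom_ext
        · intro r
          simp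
        · intro i
          fin_cases i <;> simp
      exact congrArg (fun f ↦ f P) h
    have hR0 : R = 0 := indep46 _ R le_rfl fun u τ hu ↦ by
      rw [hev]; exact hb3 t x u τ hu
    rw [← hev, hR0]
    simp
  apply MvPolynomial.funext
  intro x
  have := hc (x 0) (x 1) (x 2) (x 3)
  have e : ![x 0, x 1, x 2, x 3] = x := by
    ext i; fin_cases i <;> rfl
  rw [e] at this
  simpa [aeval_eq_eval] using this

end H32

end S_H32_Indep2

section S_H32_Ramanujan

open UpperHalfPlane hiding I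
open Complex EisensteinSeries ModularForm MatrixGroups Manifold
open scoped Real Topology
open Derivative

namespace H32

/-- Integral `q`-expansion with prescribed constant term. -/
def IntQv (v : ℤ) (f : ℍ → ℂ) : Prop :=
  ∃ c : ℕ → ℤ, c 0 = v ∧ ∀ τ : ℍ, HasSum (fun m : ℕ ↦ (c m : ℂ) * qq τ ^ m) (f τ)

lemma IntQv.intQ {v : ℤ} {f : ℍ → ℂ} (h : IntQv v f) : IntQ f := by
  obtain ⟨c, -, hc⟩ := h
  exact ⟨c, hc⟩

lemma IntQv.add {v w : ℤ} {f g : ℍ → ℂ} (hf : IntQv v f) (hg : IntQv w g) :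
    IntQv (v + w) (fun τ ↦ f τ + g τ) := by
  obtain ⟨a, ha0, ha⟩ := hf
  obtain ⟨b, hb0, hb⟩ := hg
  refine ⟨fun m ↦ a m + b m, by simp [ha0, hb0], fun τ ↦ ?_⟩
  convert (ha τ).add (hb τ) using 2 with m
  push_cast; ring

lemma IntQv.mul {v w : ℤ} {f g : ℍ → ℂ} (hf : IntQv v f) (hg : IntQv w g) :
    IntQv (v * w) (fun τ ↦ f τ * g τ) := by
  obtain ⟨a, ha0, ha⟩ := hf
  obtain ⟨b, hb0, hb⟩ := hg
  refine ⟨fun m ↦ ∑ p ∈ Finset.HasAntidiagonal.antidiagonal m, a p.1 * b p.2,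
    by simp [ha0, hb0], fun τ ↦ ?_⟩
  have h1 := (ha τ).summable.norm
  have h2 := (hb τ).summable.norm
  have h3 := summable_norm_sum_mul_antidiagonal_of_summable_norm h1 h2
  have h4 := tsum_mul_tsum_eq_tsum_sum_antidiagonal_of_summable_norm h1 h2
  rw [(ha τ).tsum_eq, (hb τ).tsum_eq] at h4
  change HasSum _ (f τ * g τ)
  rw [h4]
  have h5 := h3.of_norm.hasSum
  refine h5.congr_fun fun m ↦ ?_
  push_cast
  rw [Finset.sum_mul]
  refine Finset.sum_congr rfl fun p hp ↦ ?_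
  rw [← (Finset.HasAntidiagonal.mem_antidiagonal.mp hp), pow_add]
  ring

lemma IntQv.const_mul {v : ℤ} {f : ℍ → ℂ} (n : ℤ) (hf : IntQv v f) :
    IntQv (n * v) (fun τ ↦ (n : ℂ) * f τ) := by
  obtain ⟨a, ha0, ha⟩ := hf
  refine ⟨fun m ↦ n * a m, by simp [ha0], fun τ ↦ ?_⟩
  refine ((ha τ).mul_left (n : ℂ)).congr_fun fun m ↦ ?_
  push_cast; ring

lemma IntQ.D {f : ℍ → ℂ} (hf : IntQ f) : IntQv 0 (normalizedDerivOfComplex f) := by
  obtain ⟨c, hc⟩ := hf
  refine ⟨fun m ↦ m * c m, by simp, fun τ ↦ ?_⟩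
  have hz' : 0 < (τ : ℂ).im := τ.im_pos
  set y : ℝ := (τ : ℂ).im / 2 with hy
  have hy0 : 0 < y := by positivity
  set U : Set ℂ := {w | y < w.im} with hU
  have hUo : IsOpen U := isOpen_lt continuous_const Complex.continuous_im
  have hzU : (τ : ℂ) ∈ U := by change y < (τ : ℂ).im; linarith
  set τ₀ : ℍ := ⟨(y : ℂ) * I, by simpa using hy0⟩ with hτ₀
  have h0 : ‖qq τ₀‖ = Real.exp (-2 * π * y) := by
    rw [qq_eq, Complex.norm_exp]
    congr 1
    simp [hτ₀, UpperHalfPlane.coe_mk]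
  have hs : Summable fun m ↦ ‖(c m : ℂ)‖ * Real.exp (-2 * π * y) ^ m := by
    have := (hc τ₀).summable.norm
    simpa [norm_mul, norm_pow, h0] using this
  have hd := hasSum_deriv_of_summable_norm (F := fun (m : ℕ) (w : ℂ) ↦
    (c m : ℂ) * Complex.exp (2 * π * I * w) ^ m) hs (fun m ↦ by fun_prop) hUo
    (fun m w hw ↦ by
      rw [norm_mul, norm_pow]
      gcongr
      rw [Complex.norm_exp]
      apply Real.exp_le_exp.mpr
      have hw' : y < w.im := hw
      have : (2 * π * I * w).re = -2 * π * w.im := by simp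
      rw [this]
      nlinarith [Real.pi_pos]) hzU
  have heq : (f ∘ UpperHalfPlane.ofComplex) =ᶠ[𝓝 (τ : ℂ)] fun w ↦
      ∑' m, (c m : ℂ) * Complex.exp (2 * π * I * w) ^ m := by
    filter_upwards [hUo.mem_nhds hzU] with w hw
    have hw' : 0 < w.im := lt_trans hy0 hw
    have := (hc ⟨w, hw'⟩).tsum_eq
    rw [Function.comp_apply, UpperHalfPlane.ofComplex_apply_of_im_pos hw', ← this]
    simp [qq_eq]
  rw [← heq.deriv_eq] at hd
  have hpi : (2 * π * I : ℂ) ≠ 0 := by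
    have : (π : ℂ) ≠ 0 := by exact_mod_cast Real.pi_ne_zero
    simp [this]
  have h5 := hd.mul_left (2 * π * I : ℂ)⁻¹
  refine h5.congr_fun fun m ↦ ?_
  have hder : HasDerivAt (fun w : ℂ ↦ (c m : ℂ) * Complex.exp (2 * π * I * w) ^ m)
      ((c m : ℂ) * (m * Complex.exp (2 * π * I * τ) ^ (m - 1) *
        (Complex.exp (2 * π * I * τ) * (2 * π * I)))) (τ : ℂ) := by
    have h6 : HasDerivAt (fun w : ℂ ↦ 2 * π * I * w) (2 * π * I) (τ : ℂ) := by
      simpa using (hasDerivAt_id (τ : ℂ)).const_mul (2 * π * I)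
    exact ((h6.cexp.pow m).const_mul _)
  rw [hder.deriv, qq_eq]
  push_cast
  rcases Nat.eq_zero_or_pos m with rfl | hm
  · simp
  · have e : Complex.exp (2 * π * I * τ) ^ m =
        Complex.exp (2 * π * I * τ) ^ (m - 1) * Complex.exp (2 * π * I * τ) := by
      rw [← pow_succ, Nat.sub_add_cancel hm]
    rw [e]
    field_simp

lemma eq_zero_of_low_weight {f : ℍ → ℂ} {k : ℕ} (hf : IntQv 0 f) (hk : WInv f k) (hk12 : k < 12)
    (τ : ℍ) : f τ = 0 := by
  obtain ⟨F, hF⟩ := exists_modForm hf.intQ hk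
  obtain ⟨c, hc0, hc⟩ := hf
  have h1 := ModularFormClass.qExpansion_coeff_unique (f := F) (c := fun m ↦ (c m : ℂ)) one_pos
    one_mem_strictPeriods_SL (fun τ ↦ by rw [hF]; simpa [qq] using hc τ) 0
  have h2 : F = 0 := by
    apply ModularForm.sturm_bound_levelOne_nat
    have : k / 12 = 0 := by omega
    rw [this]
    have h3 : (qExpansion 1 F).coeff 0 = 0 := by
      rw [← h1]; simp [hc0]
    have h4 := PowerSeries.nat_le_order (qExpansion 1 F) 1 (fun i hi ↦ by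
      have : i = 0 := by omega
      rw [this]; exact h3)
    exact lt_of_lt_of_le (by norm_num) h4
  rw [← hF, h2]
  rfl

lemma WInv_of_slash {f : ℍ → ℂ} {k : ℕ} (h : ∀ γ : SL(2, ℤ), f ∣[(k : ℤ)] γ = f) :
    WInv f k := by
  intro γ τ
  have h1 := congrFun (h γ) τ
  rw [ModularForm.SL_slash_apply] at h1
  have hd : denom (γ : GL (Fin 2) ℝ) τ ≠ 0 := denom_ne_zero _ τ
  rw [← h1, zpow_neg, zpow_natCast]
  field_simp

lemma WInv.add {f g : ℍ → ℂ} {k : ℕ} (hf : WInv f k) (hg : WInv g k) :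
    WInv (fun τ ↦ f τ + g τ) k := by
  intro γ τ
  simp only [hf γ τ, hg γ τ]
  ring

lemma IntQv_E2 : IntQv 1 E2 := by
  refine ⟨fun m ↦ if m = 0 then 1 else -24 * (ArithmeticFunction.sigma 1 m : ℤ), by simp,
    fun τ ↦ ?_⟩
  have := EisensteinSeries.hasSum_qExpansion_E2 (z := τ)
  convert this using 2 with m
  rw [qq_eq]
  by_cases h : m = 0 <;> simp [h]

lemma IntQv_E4 : IntQv 1 (fun τ ↦ E₄ τ) := ⟨_, by simp, hasSum_E4⟩

lemma IntQv_E6 : IntQv 1 (fun τ ↦ E₆ τ) := ⟨_, by simp, hasSum_E6⟩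

lemma D_E4 (τ : ℍ) : normalizedDerivOfComplex (fun τ ↦ E₄ τ) τ = (E2 τ * E₄ τ - E₆ τ) / 3 := by
  have hm : MDiff (fun τ : ℍ ↦ E₄ τ) := IntQ_E4'.mdiff
  have h1 : IntQv (3 * 0 + (-1 * (1 * 1) + 1)) (fun τ ↦ ((3 : ℤ) : ℂ) *
      normalizedDerivOfComplex (fun τ ↦ E₄ τ) τ + (((-1 : ℤ) : ℂ) * (E2 τ * E₄ τ) + E₆ τ)) :=
    ((IntQ_E4'.D).const_mul 3).add (((IntQv_E2.mul IntQv_E4).const_mul (-1)).add IntQv_E6)
  have h2 : WInv (fun τ ↦ ((3 : ℤ) : ℂ) *
      normalizedDerivOfComplex (fun τ ↦ E₄ τ) τ + (((-1 : ℤ) : ℂ) * (E2 τ * E₄ τ) + E₆ τ)) 6 := by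
    have h3 : WInv (serreDerivative 4 (fun τ ↦ E₄ τ)) 6 := by
      apply WInv_of_slash
      intro γ
      have h4 := serreDerivative_slash_invariant (k := 4) (F := fun τ ↦ E₄ τ) hm (γ := γ) (by
        ext τ
        rw [ModularForm.SL_slash_apply]
        have := WInv_E4 γ τ
        simp only at this
        rw [this]
        have hd : denom (γ : GL (Fin 2) ℝ) τ ≠ 0 := denom_ne_zero _ τ
        rw [zpow_neg]
        have e : denom (γ : GL (Fin 2) ℝ) τ ^ (4 : ℤ) = denom (γ : GL (Fin 2) ℝ) τ ^ 4 := by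
          norm_cast
        rw [e]
        field_simp)
      exact_mod_cast h4
    intro γ τ
    have h5 := h3 γ τ
    have h6 := WInv_E6 γ τ
    simp only [serreDerivative_apply] at h5 h6 ⊢
    rw [h6]
    push_cast
    linear_combination 3 * h5
  have h3 := eq_zero_of_low_weight (by simpa using h1) h2 (by norm_num) τ
  push_cast at h3
  linear_combination h3 / 3

lemma D_E6 (τ : ℍ) : normalizedDerivOfComplex (fun τ ↦ E₆ τ) τ = (E2 τ * E₆ τ - E₄ τ ^ 2) / 2 := by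
  have hm : MDiff (fun τ : ℍ ↦ E₆ τ) := IntQ_E6'.mdiff
  have h1 : IntQv (2 * 0 + (-1 * (1 * 1) + 1 * 1)) (fun τ ↦ ((2 : ℤ) : ℂ) *
      normalizedDerivOfComplex (fun τ ↦ E₆ τ) τ + (((-1 : ℤ) : ℂ) * (E2 τ * E₆ τ) + E₄ τ * E₄ τ)) :=
    ((IntQ_E6'.D).const_mul 2).add (((IntQv_E2.mul IntQv_E6).const_mul (-1)).add
      (IntQv_E4.mul IntQv_E4))
  have h2 : WInv (fun τ ↦ ((2 : ℤ) : ℂ) *
      normalizedDerivOfComplex (fun τ ↦ E₆ τ) τ + (((-1 : ℤ) : ℂ) * (E2 τ * E₆ τ) + E₄ τ * E₄ τ))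
      8 := by
    have h3 : WInv (serreDerivative 6 (fun τ ↦ E₆ τ)) 8 := by
      apply WInv_of_slash
      intro γ
      have h4 := serreDerivative_slash_invariant (k := 6) (F := fun τ ↦ E₆ τ) hm (γ := γ) (by
        ext τ
        rw [ModularForm.SL_slash_apply]
        have := WInv_E6 γ τ
        simp only at this
        rw [this]
        have hd : denom (γ : GL (Fin 2) ℝ) τ ≠ 0 := denom_ne_zero _ τ
        rw [zpow_neg]
        have e : denom (γ : GL (Fin 2) ℝ) τ ^ (6 : ℤ) = denom (γ : GL (Fin 2) ℝ) τ ^ 6 := by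
          norm_cast
        rw [e]
        field_simp)
      exact_mod_cast h4
    intro γ τ
    have h5 := h3 γ τ
    have h6 := WInv_E4 γ τ
    simp only [serreDerivative_apply] at h5 h6 ⊢
    rw [h6]
    push_cast
    linear_combination 2 * h5
  have h3 := eq_zero_of_low_weight (by simpa using h1) h2 (by norm_num) τ
  push_cast at h3
  linear_combination h3 / 2

end H32

end S_H32_Ramanujan

section S_H32_JDeriv

open UpperHalfPlane hiding I
open Complex EisensteinSeries ModularForm MatrixGroups Manifold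
open scoped Real Topology
open Derivative

namespace H32

section

variable {E4 E6 J : ℂ → ℂ}

lemma exp_eq_qq (m : ℕ) (τ : ℍ) :
    Complex.exp (2 * (Real.pi : ℂ) * Complex.I * ((m : ℂ) + 1) * τ) = qq τ ^ (m + 1) := by
  rw [qq_eq, ← Complex.exp_nat_mul]
  congr 1
  push_cast
  ring

lemma E4_eq (h4 : ∀ τ : ℂ, E4 τ = 1 + 240 * ∑' m : ℕ, ((ArithmeticFunction.sigma 3 (m + 1) : ℕ) : ℂ) *
    Complex.exp (2 * (Real.pi : ℂ) * Complex.I * ((m : ℂ) + 1) * τ)) (τ : ℍ) : E4 τ = E₄ τ := by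
  rw [h4]
  have h := hasSum_E4 τ
  have h1 := (hasSum_nat_add_iff' 1).mpr h
  simp only [Finset.sum_range_one, if_true, Int.cast_one, pow_zero, mul_one] at h1
  have h2 : ∑' m : ℕ, ((ArithmeticFunction.sigma 3 (m + 1) : ℕ) : ℂ) *
      Complex.exp (2 * (Real.pi : ℂ) * Complex.I * ((m : ℂ) + 1) * τ) = (E₄ τ - 1) / 240 := by
    have h3 := h1.div_const (240 : ℂ)
    refine HasSum.tsum_eq (h3.congr_fun fun m ↦ ?_)
    rw [exp_eq_qq, if_neg (Nat.succ_ne_zero m)]
    push_cast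
    ring
  rw [h2]
  ring

lemma E6_eq (h6 : ∀ τ : ℂ, E6 τ = 1 - 504 * ∑' m : ℕ, ((ArithmeticFunction.sigma 5 (m + 1) : ℕ) : ℂ) *
    Complex.exp (2 * (Real.pi : ℂ) * Complex.I * ((m : ℂ) + 1) * τ)) (τ : ℍ) : E6 τ = E₆ τ := by
  rw [h6]
  have h := hasSum_E6 τ
  have h1 := (hasSum_nat_add_iff' 1).mpr h
  simp only [Finset.sum_range_one, if_true, Int.cast_one, pow_zero, mul_one] at h1
  have h2 : ∑' m : ℕ, ((ArithmeticFunction.sigma 5 (m + 1) : ℕ) : ℂ) *
      Complex.exp (2 * (Real.pi : ℂ) * Complex.I * ((m : ℂ) + 1) * τ) = (E₆ τ - 1) / (-504) := by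
    have h3 := h1.div_const (-504 : ℂ)
    refine HasSum.tsum_eq (h3.congr_fun fun m ↦ ?_)
    rw [exp_eq_qq, if_neg (Nat.succ_ne_zero m)]
    push_cast
    ring
  rw [h2]
  ring

/-- `e2, e4, e6` as functions on `ℂ`. -/
noncomputable def e2 (w : ℂ) : ℂ := E2 (ofComplex w)
/-- `e2, e4, e6` as functions on `ℂ`. -/
noncomputable def e4 (w : ℂ) : ℂ := E₄ (ofComplex w)
/-- `e2, e4, e6` as functions on `ℂ`. -/
noncomputable def e6 (w : ℂ) : ℂ := E₆ (ofComplex w)

lemma hasDeriv_e4 {w : ℂ} (hw : 0 < w.im) :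
    HasDerivAt e4 (2 * π * I * ((e2 w * e4 w - e6 w) / 3)) w := by
  have h1 := D_E4 ⟨w, hw⟩
  have hm : MDiff (fun τ : ℍ ↦ E₄ τ) := IntQ_E4'.mdiff
  rw [UpperHalfPlane.mdifferentiable_iff] at hm
  have h2 := (hm w hw).differentiableAt (isOpen_upperHalfPlaneSet.mem_nhds hw)
  have hpi : (2 * π * I : ℂ) ≠ 0 := by
    have : (π : ℂ) ≠ 0 := by exact_mod_cast Real.pi_ne_zero
    simp [this]
  have h3 : deriv e4 w = 2 * π * I * ((e2 w * e4 w - e6 w) / 3) := by
    unfold normalizedDerivOfComplex at h1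
    have h4 : deriv ((fun τ : ℍ ↦ E₄ τ) ∘ ofComplex) w = deriv e4 w := rfl
    change (2 * π * I)⁻¹ * deriv ((fun τ : ℍ ↦ E₄ τ) ∘ ofComplex) w = _ at h1
    rw [h4] at h1
    have h5 : ofComplex w = ⟨w, hw⟩ := ofComplex_apply_of_im_pos hw
    rw [e2, e4, e6, h5, ← h1]
    field_simp
  rw [← h3]
  exact h2.hasDerivAt

lemma hasDeriv_e6 {w : ℂ} (hw : 0 < w.im) :
    HasDerivAt e6 (2 * π * I * ((e2 w * e6 w - e4 w ^ 2) / 2)) w := by
  have h1 := D_E6 ⟨w, hw⟩
  have hm : MDiff (fun τ : ℍ ↦ E₆ τ) := IntQ_E6'.mdiff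
  rw [UpperHalfPlane.mdifferentiable_iff] at hm
  have h2 := (hm w hw).differentiableAt (isOpen_upperHalfPlaneSet.mem_nhds hw)
  have hpi : (2 * π * I : ℂ) ≠ 0 := by
    have : (π : ℂ) ≠ 0 := by exact_mod_cast Real.pi_ne_zero
    simp [this]
  have h3 : deriv e6 w = 2 * π * I * ((e2 w * e6 w - e4 w ^ 2) / 2) := by
    unfold normalizedDerivOfComplex at h1
    have h4 : deriv ((fun τ : ℍ ↦ E₆ τ) ∘ ofComplex) w = deriv e6 w := rfl
    change (2 * π * I)⁻¹ * deriv ((fun τ : ℍ ↦ E₆ τ) ∘ ofComplex) w = _ at h1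
    rw [h4] at h1
    have h5 : ofComplex w = ⟨w, hw⟩ := ofComplex_apply_of_im_pos hw
    rw [e2, e4, e6, h5, ← h1]
    field_simp
  rw [← h3]
  exact h2.hasDerivAt

lemma disc_ne {w : ℂ} : e4 w ^ 3 - e6 w ^ 2 ≠ 0 := by
  have h1 := discriminant_eq_E₄_cube_sub_E₆_sq (ofComplex w)
  have h2 := discriminant_ne_zero (ofComplex w)
  intro h
  apply h2
  rw [h1]
  unfold e4 e6 at h
  rw [h, zero_div]

/-- The first derivative of `J`. -/
noncomputable def J1 (w : ℂ) : ℂ :=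
  -1728 * (2 * π * I) * (e4 w ^ 2 * e6 w) / (e4 w ^ 3 - e6 w ^ 2)

/-- The second derivative of `J`. -/
noncomputable def J2 (w : ℂ) : ℂ :=
  -1728 * (2 * π * I) ^ 2 * ((1 / 6) * e2 w * e4 w ^ 2 * e6 w - (2 / 3) * e4 w * e6 w ^ 2 -
    (1 / 2) * e4 w ^ 4) / (e4 w ^ 3 - e6 w ^ 2)

lemma hasDeriv_J {w : ℂ} (hw : 0 < w.im) :
    HasDerivAt (fun w ↦ 1728 * e4 w ^ 3 / (e4 w ^ 3 - e6 w ^ 2)) (J1 w) w := by
  have h4 := hasDeriv_e4 hw
  have h6 := hasDeriv_e6 hw
  have h := ((h4.pow 3).const_mul 1728).div ((h4.pow 3).sub (h6.pow 2)) (disc_ne (w := w))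
  refine h.congr_deriv ?_
  have hd := disc_ne (w := w)
  unfold J1
  simp only [Pi.pow_apply, Pi.sub_apply]
  field_simp
  push_cast
  ring

lemma hasDeriv_J1 {w : ℂ} (hw : 0 < w.im) : HasDerivAt J1 (J2 w) w := by
  have h4 := hasDeriv_e4 hw
  have h6 := hasDeriv_e6 hw
  have h := (((h4.pow 2).mul h6).const_mul (-1728 * (2 * π * I : ℂ))).div
    ((h4.pow 3).sub (h6.pow 2)) (disc_ne (w := w))
  refine h.congr_deriv ?_
  have hd := disc_ne (w := w)
  unfold J2
  simp only [Pi.pow_apply, Pi.sub_apply, Pi.mul_apply]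
  field_simp
  push_cast
  ring

lemma J_values (h4 : ∀ τ : ℂ, E4 τ = 1 + 240 * ∑' m : ℕ,
      ((ArithmeticFunction.sigma 3 (m + 1) : ℕ) : ℂ) *
      Complex.exp (2 * (Real.pi : ℂ) * Complex.I * ((m : ℂ) + 1) * τ))
    (h6 : ∀ τ : ℂ, E6 τ = 1 - 504 * ∑' m : ℕ, ((ArithmeticFunction.sigma 5 (m + 1) : ℕ) : ℂ) *
      Complex.exp (2 * (Real.pi : ℂ) * Complex.I * ((m : ℂ) + 1) * τ))
    (hJ : ∀ τ : ℂ, J τ = 1728 * E4 τ ^ 3 / (E4 τ ^ 3 - E6 τ ^ 2)) {w : ℂ} (hw : 0 < w.im) :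
    J w = 1728 * e4 w ^ 3 / (e4 w ^ 3 - e6 w ^ 2) ∧ deriv J w = J1 w ∧
      deriv (deriv J) w = J2 w := by
  have hopen : {w : ℂ | 0 < w.im} ∈ 𝓝 w := isOpen_upperHalfPlaneSet.mem_nhds hw
  have hval : ∀ v : ℂ, 0 < v.im → J v = 1728 * e4 v ^ 3 / (e4 v ^ 3 - e6 v ^ 2) := by
    intro v hv
    have h1 := E4_eq h4 ⟨v, hv⟩
    have h2 := E6_eq h6 ⟨v, hv⟩
    have h3 : ofComplex v = ⟨v, hv⟩ := ofComplex_apply_of_im_pos hv
    rw [hJ, e4, e6, h3, ← h1, ← h2]
  have hd : ∀ v : ℂ, 0 < v.im → deriv J v = J1 v := by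
    intro v hv
    have hopen' : {w : ℂ | 0 < w.im} ∈ 𝓝 v := isOpen_upperHalfPlaneSet.mem_nhds hv
    have he : J =ᶠ[𝓝 v] fun w ↦ 1728 * e4 w ^ 3 / (e4 w ^ 3 - e6 w ^ 2) := by
      filter_upwards [hopen'] with u hu using hval u hu
    rw [he.deriv_eq, (hasDeriv_J hv).deriv]
  refine ⟨hval w hw, hd w hw, ?_⟩
  have he : deriv J =ᶠ[𝓝 w] J1 := by
    filter_upwards [hopen] with u hu using hd u hu
  rw [he.deriv_eq, (hasDeriv_J1 hw).deriv]

end

end H32

end S_H32_JDeriv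

section S_H32_Boundary

open UpperHalfPlane hiding I
open Complex EisensteinSeries ModularForm MatrixGroups Manifold
open scoped Real Topology
open MvPolynomial Filter

namespace H32

lemma exists_gamma (r : ℚ) : ∃ γ : SL(2, ℤ), γ 0 0 = r.num ∧ γ 1 0 = r.den := by
  have h : IsCoprime r.num (r.den : ℤ) := by
    rw [Int.isCoprime_iff_nat_coprime]
    simpa using r.reduced
  obtain ⟨u, v, huv⟩ := h
  refine ⟨⟨!![r.num, -v; (r.den : ℤ), u], ?_⟩, ?_, ?_⟩
  · rw [Matrix.det_fin_two]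
    simp only [Matrix.of_apply, Matrix.cons_val', Matrix.cons_val_zero, Matrix.cons_val_fin_one,
      Matrix.cons_val_one]
    linear_combination huv
  · simp
  · simp

lemma smul_gamma {r : ℚ} {γ : SL(2, ℤ)} (h0 : γ 0 0 = r.num) (h1 : γ 1 0 = r.den) (τ : ℍ) :
    ((γ • τ : ℍ) : ℂ) = r - 1 / (r.den * denom γ τ) := by
  have hd : denom (γ : GL (Fin 2) ℝ) τ ≠ 0 := denom_ne_zero _ τ
  have hN : (r.den : ℂ) ≠ 0 := by exact_mod_cast r.den_ne_zero
  have hdet := γ.det_coe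
  rw [Matrix.det_fin_two] at hdet
  have hden : denom (γ : GL (Fin 2) ℝ) τ = (r.den : ℂ) * τ + ((γ 1 1 : ℤ) : ℂ) := by
    rw [ModularGroup.denom_apply]
    have : ((γ 1 0 : ℤ) : ℂ) = r.den := by rw [h1]; push_cast; rfl
    rw [this]
  have hr : (r : ℂ) = (r.num : ℂ) / r.den := by
    exact_mod_cast congrArg (Rat.cast : ℚ → ℂ) (Rat.num_div_den r).symm
  rw [coe_specialLinearGroup_apply]
  have e0 : ((algebraMap ℤ ℝ (γ 0 0) : ℝ) : ℂ) = (r.num : ℂ) := by rw [h0]; simp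
  have e1 : ((algebraMap ℤ ℝ (γ 1 0) : ℝ) : ℂ) = (r.den : ℂ) := by rw [h1]; simp
  have e2 : ((algebraMap ℤ ℝ (γ 0 1) : ℝ) : ℂ) = ((γ 0 1 : ℤ) : ℂ) := by simp
  have e3 : ((algebraMap ℤ ℝ (γ 1 1) : ℝ) : ℂ) = ((γ 1 1 : ℤ) : ℂ) := by simp
  rw [e0, e1, e2, e3, ← hden, hr]
  have hdetC : (r.num : ℂ) * ((γ 1 1 : ℤ) : ℂ) - ((γ 0 1 : ℤ) : ℂ) * (r.den : ℂ) = 1 := by
    have h3 : (γ 0 0) * (γ 1 1) - (γ 0 1) * (γ 1 0) = 1 := hdet
    rw [h0, h1] at h3
    exact_mod_cast congrArg (Int.cast : ℤ → ℂ) h3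
  rw [div_sub_div _ _ hN (mul_ne_zero hN hd), div_eq_div_iff hd (mul_ne_zero hN (mul_ne_zero hN hd))]
  rw [hden]
  linear_combination (-(r.den : ℂ) * ((r.den : ℂ) * τ + ((γ 1 1 : ℤ) : ℂ))) * hdetC

end H32

end S_H32_Boundary

section S_H32_BL

open UpperHalfPlane hiding I
open Complex EisensteinSeries ModularForm MatrixGroups Manifold
open scoped Real Topology
open MvPolynomial Filter Metric

namespace H32

lemma coeff_zero_of_eval {S : Finset (Fin 3 → ℕ)} {a : (Fin 3 → ℕ) → ℂ}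
    (h : ∀ x y z : ℂ, ∑ ν ∈ S, a ν * (x ^ ν 0 * y ^ ν 1 * z ^ ν 2) = 0) : ∀ ν ∈ S, a ν = 0 := by
  classical
  set Q : MvPolynomial (Fin 3) ℂ := ∑ ν ∈ S, monomial (Finsupp.equivFunOnFinite.symm ν) (a ν) with hQ
  have hQ0 : Q = 0 := by
    apply MvPolynomial.funext
    intro x
    rw [map_zero, hQ, map_sum, ← h (x 0) (x 1) (x 2)]
    refine Finset.sum_congr rfl fun ν _ ↦ ?_
    rw [eval_monomial, Finsupp.prod_fintype _ _ (by simp), Fin.prod_univ_three]
    rfl
  intro ν hν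
  have h1 := congrArg (coeff (Finsupp.equivFunOnFinite.symm ν)) hQ0
  rw [hQ, coeff_sum, coeff_zero, Finset.sum_eq_single ν] at h1
  · simpa using h1
  · intro μ _ hne
    rw [coeff_monomial, if_neg]
    intro h
    exact hne (Finsupp.equivFunOnFinite.symm.injective h)
  · intro h; exact absurd hν h

theorem boundary {S : Finset (Fin 3 → ℕ)} {r : ℚ} {c : (Fin 3 → ℕ) → ℂ → ℂ}
    (hc : ∀ ν ∈ S, AnalyticAt ℂ (c ν) r)
    (h : ∀ᶠ τ in 𝓝 (r : ℂ), 0 < τ.im →
      ∑ ν ∈ S, c ν τ * (e2 τ ^ ν 0 * e4 τ ^ ν 1 * e6 τ ^ ν 2) = 0) :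
    ∀ ν ∈ S, ∀ᶠ τ in 𝓝 (r : ℂ), c ν τ = 0 := by
  classical
  obtain ⟨γ, hγ0, hγ1⟩ := exists_gamma r
  have hN : (r.den : ℂ) ≠ 0 := by exact_mod_cast r.den_ne_zero
  have hN1 : (1 : ℝ) ≤ r.den := by exact_mod_cast r.den_pos
  have hev : ∀ᶠ τ in 𝓝 (r : ℂ), (∀ ν ∈ S, AnalyticAt ℂ (c ν) τ) ∧ (0 < τ.im →
      ∑ ν ∈ S, c ν τ * (e2 τ ^ ν 0 * e4 τ ^ ν 1 * e6 τ ^ ν 2) = 0) := by
    refine Eventually.and ?_ h
    rw [Filter.eventually_all_finset]
    exact fun ν hν ↦ (hc ν hν).eventually_analyticAt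
  obtain ⟨ε, hε, hball⟩ := Metric.eventually_nhds_iff_ball.mp hev
  set κ : ℂ := 6 * I / π * r.den with hκ
  set W : ℕ := ∑ ν ∈ S, (2 * ν 0 + 4 * ν 1 + 6 * ν 2) with hW
  have hWν : ∀ ν ∈ S, 2 * ν 0 + 4 * ν 1 + 6 * ν 2 ≤ W := fun ν hν ↦
    Finset.single_le_sum (f := fun ν : Fin 3 → ℕ ↦ 2 * ν 0 + 4 * ν 1 + 6 * ν 2)
      (fun _ _ ↦ Nat.zero_le _) hν
  set f : ℍ → ℂ → ℂ := fun τ x ↦ ∑ ν ∈ S, c ν (r - x / r.den) *
    x ^ (W - (2 * ν 0 + 4 * ν 1 + 6 * ν 2)) *
    ((E2 τ - κ * x) ^ ν 0 * E₄ τ ^ ν 1 * E₆ τ ^ ν 2) with hf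
  have hmem : ∀ x ∈ ball (0 : ℂ) ε, (r : ℂ) - x / r.den ∈ ball (r : ℂ) ε := by
    intro x hx
    rw [mem_ball_zero_iff] at hx
    rw [mem_ball_iff_norm]
    have : (r : ℂ) - x / r.den - r = -(x / r.den) := by ring
    rw [this, norm_neg, norm_div, Complex.norm_natCast]
    calc ‖x‖ / r.den ≤ ‖x‖ / 1 := by gcongr
      _ = ‖x‖ := div_one _
      _ < ε := hx
  have hana : ∀ τ, AnalyticOnNhd ℂ (f τ) (ball 0 ε) := by
    intro τ x hx
    refine Finset.analyticAt_fun_sum _ fun ν hν ↦ ?_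
    have h1 : AnalyticAt ℂ (fun x : ℂ ↦ (r : ℂ) - x / r.den) x := by
      have : AnalyticAt ℂ (fun x : ℂ ↦ (r : ℂ) - (r.den : ℂ)⁻¹ * x) x := by fun_prop
      refine this.congr (Eventually.of_forall fun y ↦ ?_)
      simp only [div_eq_mul_inv]
      ring
    have h2 : AnalyticAt ℂ (fun x : ℂ ↦ c ν ((r : ℂ) - x / r.den)) x :=
      AnalyticAt.fun_comp (g := c ν) (f := fun x : ℂ ↦ (r : ℂ) - x / r.den)
        ((hball _ (hmem x hx)).1 ν hν) h1
    have h3 : AnalyticAt ℂ (fun x : ℂ ↦ x ^ (W - (2 * ν 0 + 4 * ν 1 + 6 * ν 2))) x := by fun_prop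
    have h4 : AnalyticAt ℂ (fun x : ℂ ↦ (E2 τ - κ * x) ^ ν 0 * E₄ τ ^ ν 1 * E₆ τ ^ ν 2) x := by
      fun_prop
    exact (h2.fun_mul h3).fun_mul h4
  have hzero : ∀ τ, Set.EqOn (f τ) 0 (ball 0 ε) := by
    intro τ
    refine (hana τ).eqOn_zero_of_preconnected_of_frequently_eq_zero
      (convex_ball (0 : ℂ) ε).isPreconnected (mem_ball_self hε) ?_
    -- the sequence
    set w : ℕ → ℍ := fun k ↦ gM 0 k • τ with hw
    set u : ℕ → ℂ := fun k ↦ denom (γ : GL (Fin 2) ℝ) (w k) with hu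
    have hu_eq : ∀ k, u k = r.den * (k : ℂ) + (r.den * τ + ((γ 1 1 : ℤ) : ℂ)) := by
      intro k
      rw [hu]
      simp only
      rw [ModularGroup.denom_apply, smul_gM_zero]
      have : ((γ 1 0 : ℤ) : ℂ) = r.den := by rw [hγ1]; push_cast; rfl
      rw [this]
      ring
    have hu0 : ∀ k, u k ≠ 0 := fun k ↦ denom_ne_zero _ (w k)
    have hutend : Tendsto (fun k ↦ ‖u k‖) atTop atTop := by
      have h1 : Tendsto (fun k : ℕ ↦ (r.den : ℝ) * (k : ℝ)) atTop atTop :=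
        (tendsto_natCast_atTop_atTop).const_mul_atTop (by linarith)
      have h2 : Tendsto (fun k : ℕ ↦ (r.den : ℝ) * (k : ℝ) -
          ‖(r.den : ℂ) * τ + ((γ 1 1 : ℤ) : ℂ)‖) atTop atTop :=
        tendsto_atTop_add_const_right _ _ h1
      refine tendsto_atTop_mono (fun k ↦ ?_) h2
      rw [hu_eq]
      have h3 : ‖(r.den : ℂ) * (k : ℂ)‖ = (r.den : ℝ) * k := by
        rw [norm_mul, Complex.norm_natCast, Complex.norm_natCast]
      rw [← h3]
      have h4 := norm_sub_le (((r.den : ℂ) * (k : ℂ)) + ((r.den : ℂ) * τ + ((γ 1 1 : ℤ) : ℂ)))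
        ((r.den : ℂ) * τ + ((γ 1 1 : ℤ) : ℂ))
      rw [add_sub_cancel_right] at h4
      linarith
    have hx0 : Tendsto (fun k ↦ (u k)⁻¹) atTop (𝓝 0) := by
      rw [tendsto_zero_iff_norm_tendsto_zero]
      simp only [norm_inv]
      exact tendsto_inv_atTop_zero.comp hutend
    have hx : Tendsto (fun k ↦ (u k)⁻¹) atTop (𝓝[≠] 0) :=
      tendsto_nhdsWithin_iff.mpr ⟨hx0, Eventually.of_forall fun k ↦ inv_ne_zero (hu0 k)⟩
    refine hx.frequently (Eventually.frequently ?_)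
    have hball' : ∀ᶠ k in atTop, (u k)⁻¹ ∈ ball (0 : ℂ) ε :=
      hx0.eventually (ball_mem_nhds 0 hε)
    filter_upwards [hball'] with k hk
    have h1 : ((γ • w k : ℍ) : ℂ) = r - (u k)⁻¹ / r.den := by
      have hk0 := hu0 k
      rw [smul_gamma hγ0 hγ1]
      change (r : ℂ) - 1 / (r.den * u k) = _
      field_simp
    have h2 := (hball _ (hmem _ hk)).2
    rw [← h1] at h2
    have h3 := h2 (γ • w k).im_pos
    have hden : denom ((gM 0 k : SL(2, ℤ)) : GL (Fin 2) ℝ) τ = 1 := by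
      rw [denom_gM]; simp
    have f2 : E2 (w k) = E2 τ := by
      rw [hw]
      simp only
      rw [E2_smul, hden, gM_10]
      simp
    have f4 : E₄ (w k) = E₄ τ := by
      have := WInv_E4 (gM 0 k) τ
      simp only at this
      rw [hw]
      simp only
      rw [this, hden]
      simp
    have f6 : E₆ (w k) = E₆ τ := by
      have := WInv_E6 (gM 0 k) τ
      simp only at this
      rw [hw]
      simp only
      rw [this, hden]
      simp
    have g2 : e2 (γ • w k : ℍ) = u k ^ 2 * E2 τ - κ * u k := by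
      rw [e2, ofComplex_apply, E2_smul, f2, hγ1, hκ]
      push_cast
      ring
    have g4 : e4 (γ • w k : ℍ) = u k ^ 4 * E₄ τ := by
      have := WInv_E4 γ (w k)
      simp only at this
      rw [e4, ofComplex_apply, this, f4]
    have g6 : e6 (γ • w k : ℍ) = u k ^ 6 * E₆ τ := by
      have := WInv_E6 γ (w k)
      simp only at this
      rw [e6, ofComplex_apply, this, f6]
    rw [g2, g4, g6] at h3
    have h4 : f τ (u k)⁻¹ = ((u k)⁻¹) ^ W * ∑ ν ∈ S, c ν ↑(γ • w k : ℍ) *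
        ((u k ^ 2 * E2 τ - κ * u k) ^ ν 0 * (u k ^ 4 * E₄ τ) ^ ν 1 * (u k ^ 6 * E₆ τ) ^ ν 2) := by
      rw [Finset.mul_sum, hf]
      refine Finset.sum_congr rfl fun ν hν ↦ ?_
      rw [h1]
      have h5 := hu0 k
      have h6 : (u k ^ 2 * E2 τ - κ * u k) ^ ν 0 * (u k ^ 4 * E₄ τ) ^ ν 1 * (u k ^ 6 * E₆ τ) ^ ν 2 =
          u k ^ (2 * ν 0 + 4 * ν 1 + 6 * ν 2) *
          ((E2 τ - κ * (u k)⁻¹) ^ ν 0 * E₄ τ ^ ν 1 * E₆ τ ^ ν 2) := by
        have e : u k ^ 2 * E2 τ - κ * u k = u k ^ 2 * (E2 τ - κ * (u k)⁻¹) := by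
          field_simp
        rw [e, mul_pow, mul_pow, mul_pow, ← pow_mul, ← pow_mul, ← pow_mul, pow_add, pow_add]
        ring
      rw [h6]
      have h7 : ((u k)⁻¹) ^ W = ((u k)⁻¹) ^ (W - (2 * ν 0 + 4 * ν 1 + 6 * ν 2)) *
          ((u k)⁻¹) ^ (2 * ν 0 + 4 * ν 1 + 6 * ν 2) := by
        rw [← pow_add, Nat.sub_add_cancel (hWν ν hν)]
      rw [h7]
      have h8 : ((u k)⁻¹) ^ (2 * ν 0 + 4 * ν 1 + 6 * ν 2) * u k ^ (2 * ν 0 + 4 * ν 1 + 6 * ν 2) = 1 := by
        rw [← mul_pow, inv_mul_cancel₀ h5, one_pow]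
      linear_combination (-(c ν (r - (u k)⁻¹ / r.den)) * (u k)⁻¹ ^ (W - (2 * ν 0 + 4 * ν 1 + 6 * ν 2)) *
        ((E2 τ - κ * (u k)⁻¹) ^ ν 0 * E₄ τ ^ ν 1 * E₆ τ ^ ν 2)) * h8
    rw [h4, h3, mul_zero]
  -- independence
  have hcz : ∀ x ∈ ball (0 : ℂ) ε, x ≠ 0 → ∀ ν ∈ S, c ν (r - x / r.den) = 0 := by
    intro x hx hx0
    set a : (Fin 3 → ℕ) → ℂ := fun ν ↦ c ν (r - x / r.den) *
      x ^ (W - (2 * ν 0 + 4 * ν 1 + 6 * ν 2)) with ha
    set P : MvPolynomial (Fin 4) ℂ := ∑ ν ∈ S, C (a ν) *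
      ((X 1 - C (κ * x)) ^ ν 0 * X 2 ^ ν 1 * X 3 ^ ν 2) with hP
    have hPev : ∀ t x' y z : ℂ, aeval ![t, x', y, z] P =
        ∑ ν ∈ S, a ν * ((x' - κ * x) ^ ν 0 * y ^ ν 1 * z ^ ν 2) := by
      intro t x' y z
      rw [hP, map_sum]
      refine Finset.sum_congr rfl fun ν _ ↦ ?_
      simp
    have hP0 : P = 0 := by
      apply indep_H
      intro τ
      rw [hPev]
      have := hzero τ hx
      exact this
    have h1 : ∀ ν ∈ S, a ν = 0 := by
      apply coeff_zero_of_eval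
      intro x' y z
      have h2 := hPev 0 (x' + κ * x) y z
      rw [hP0, map_zero, add_sub_cancel_right] at h2
      exact h2.symm
    intro ν hν
    have h2 := h1 ν hν
    exact (mul_eq_zero.mp h2).resolve_right (pow_ne_zero _ hx0)
  intro ν hν
  have hfreq : ∃ᶠ τ in 𝓝[≠] (r : ℂ), c ν τ = 0 := by
    apply Eventually.frequently
    rw [eventually_nhdsWithin_iff]
    have h1 : ∀ᶠ τ in 𝓝 (r : ℂ), (r.den : ℂ) * (r - τ) ∈ ball (0 : ℂ) ε := by
      have h2 : Continuous fun τ : ℂ ↦ (r.den : ℂ) * (r - τ) := by fun_prop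
      have h3 := h2.tendsto (r : ℂ)
      simp only [sub_self, mul_zero] at h3
      exact h3.eventually (ball_mem_nhds 0 hε)
    filter_upwards [h1] with τ h2 h3
    have h4 : (r.den : ℂ) * (r - τ) ≠ 0 := mul_ne_zero hN (sub_ne_zero.mpr (Ne.symm h3))
    have h5 := hcz _ h2 h4 ν hν
    have h6 : (r : ℂ) - (r.den : ℂ) * (r - τ) / r.den = τ := by
      field_simp
      ring
    rwa [h6] at h5
  exact ((hc ν hν).frequently_zero_iff_eventually_zero).mp hfreq

end H32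

end S_H32_BL

section S_H32_Indep3

open UpperHalfPlane hiding I
open Complex EisensteinSeries ModularForm MatrixGroups Manifold
open scoped Real Topology
open MvPolynomial

namespace H32

/-- The data along the line `t ↦ α + β t`, with `y(t) = c + d t`. -/
noncomputable def DD (α β c d : ℂ) (t : ℂ) : Fin 4 → ℂ :=
  ![t, E2 (ofComplex (α + β * t)) - 3 / (π * (c + d * t)), E₄ (ofComplex (α + β * t)),
    E₆ (ofComplex (α + β * t))]

lemma analytic_DD {α β c d t₀ : ℂ} (him : 0 < (α + β * t₀).im) (hy : c + d * t₀ ≠ 0) (k : Fin 4) :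
    AnalyticAt ℂ (fun t ↦ DD α β c d t k) t₀ := by
  have hlin : AnalyticAt ℂ (fun t : ℂ ↦ α + β * t) t₀ := by fun_prop
  have hpi : (π : ℂ) ≠ 0 := by exact_mod_cast Real.pi_ne_zero
  have h2 : AnalyticAt ℂ (fun t : ℂ ↦ E2 (ofComplex (α + β * t))) t₀ :=
    AnalyticAt.fun_comp (g := fun w ↦ E2 (ofComplex w)) (f := fun t : ℂ ↦ α + β * t)
      (analytic_E2 _ him) hlin
  have h4 : AnalyticAt ℂ (fun t : ℂ ↦ E₄ (ofComplex (α + β * t))) t₀ :=
    AnalyticAt.fun_comp (g := fun w ↦ E₄ (ofComplex w)) (f := fun t : ℂ ↦ α + β * t)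
      (analytic_E4 _ him) hlin
  have h6 : AnalyticAt ℂ (fun t : ℂ ↦ E₆ (ofComplex (α + β * t))) t₀ :=
    AnalyticAt.fun_comp (g := fun w ↦ E₆ (ofComplex w)) (f := fun t : ℂ ↦ α + β * t)
      (analytic_E6 _ him) hlin
  have h3 : AnalyticAt ℂ (fun t : ℂ ↦ (π : ℂ) * (c + d * t)) t₀ := by fun_prop
  have h5 : AnalyticAt ℂ (fun t : ℂ ↦ 3 / ((π : ℂ) * (c + d * t))) t₀ :=
    analyticAt_const.fun_div h3 (mul_ne_zero hpi hy)
  fin_cases k
  · exact analyticAt_id
  · exact h2.fun_sub h5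
  · exact h4
  · exact h6

/-- The polynomial obtained after clearing denominators. -/
noncomputable def QQ (α β c d : ℂ) (P : MvPolynomial (Fin 4) ℂ) : MvPolynomial (Fin 4) ℂ :=
  ∑ m ∈ P.support, C (P.coeff m) * (C β⁻¹ * (X 0 - C α)) ^ m 0 *
    ((C c + C d * (C β⁻¹ * (X 0 - C α))) * X 1 - C (3 / (π : ℂ))) ^ m 1 *
    (C c + C d * (C β⁻¹ * (X 0 - C α))) ^ (P.totalDegree - m 1) * X 2 ^ m 2 * X 3 ^ m 3

lemma eval_QQ {α β c d : ℂ} (hβ : β ≠ 0) (P : MvPolynomial (Fin 4) ℂ) {t x y z : ℂ}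
    (hy : c + d * t ≠ 0) : aeval ![α + β * t, x, y, z] (QQ α β c d P) =
      (c + d * t) ^ P.totalDegree * aeval ![t, x - 3 / (π * (c + d * t)), y, z] P := by
  have hpi : (π : ℂ) ≠ 0 := by exact_mod_cast Real.pi_ne_zero
  rw [aeval_def, aeval_def, eval₂_eq' _ _ P, QQ, eval₂_sum, Finset.mul_sum]
  refine Finset.sum_congr rfl fun m hm ↦ ?_
  have hm1 : m 1 ≤ P.totalDegree := by
    refine le_trans ?_ (le_totalDegree hm)
    rw [Finsupp.sum_fintype _ _ (by simp)]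
    exact Finset.single_le_sum (f := fun l ↦ m l) (fun _ _ ↦ Nat.zero_le _) (Finset.mem_univ 1)
  simp only [eval₂_mul, eval₂_pow, eval₂_C, eval₂_X, eval₂_sub, eval₂_add, Fin.prod_univ_four,
    Matrix.cons_val_zero, Matrix.cons_val_one, Matrix.cons_val, Algebra.algebraMap_self,
    RingHom.id_apply]
  have e1 : β⁻¹ * (α + β * t - α) = t := by field_simp; ring
  rw [e1]
  have e2 : (c + d * t) * x - 3 / (π : ℂ) = (c + d * t) * (x - 3 / (π * (c + d * t))) := by
    field_simp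
  rw [e2, mul_pow]
  have e3 : (c + d * t) ^ P.totalDegree = (c + d * t) ^ m 1 * (c + d * t) ^ (P.totalDegree - m 1) := by
    rw [← pow_add, Nat.add_sub_cancel' hm1]
  rw [e3]
  ring

theorem indep_germ {α β c d t₀ : ℂ} (hβ : β ≠ 0) (him : 0 < (α + β * t₀).im)
    (hy : c + d * t₀ ≠ 0) (P : MvPolynomial (Fin 4) ℂ)
    (h : ∀ᶠ t in 𝓝 t₀, aeval (DD α β c d t) P = 0) : P = 0 := by
  have hQ : QQ α β c d P = 0 := by
    apply indep_H
    have hana : AnalyticOnNhd ℂ (fun w ↦ aeval (![w, E2 (ofComplex w), E₄ (ofComplex w),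
        E₆ (ofComplex w)] : Fin 4 → ℂ) (QQ α β c d P)) upperHalfPlaneSet := by
      intro w hw
      refine AnalyticAt.aeval_mvPolynomial (fun i ↦ ?_) _
      fin_cases i
      · exact analyticAt_id
      · exact analytic_E2 w hw
      · exact analytic_E4 w hw
      · exact analytic_E6 w hw
    have hev : ∀ᶠ w in 𝓝 (α + β * t₀), aeval (![w, E2 (ofComplex w), E₄ (ofComplex w),
        E₆ (ofComplex w)] : Fin 4 → ℂ) (QQ α β c d P) = 0 := by
      have hcont : Filter.Tendsto (fun w : ℂ ↦ (w - α) / β) (𝓝 (α + β * t₀)) (𝓝 t₀) := by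
        have h1 : Continuous fun w : ℂ ↦ (w - α) / β := by fun_prop
        have h2 := h1.tendsto (α + β * t₀)
        have h3 : (α + β * t₀ - α) / β = t₀ := by field_simp; ring
        rwa [h3] at h2
      have hyev : ∀ᶠ t in 𝓝 t₀, c + d * t ≠ 0 := by
        have h1 : Continuous fun t : ℂ ↦ c + d * t := by fun_prop
        exact h1.continuousAt.eventually_ne hy
      filter_upwards [hcont.eventually h, hcont.eventually hyev] with w h1 h2
      have h3 : α + β * ((w - α) / β) = w := by field_simp; ring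
      have h4 := eval_QQ (α := α) hβ P (x := E2 (ofComplex w)) (y := E₄ (ofComplex w))
        (z := E₆ (ofComplex w)) h2
      rw [h3] at h4
      rw [h4]
      unfold DD at h1
      rw [h3] at h1
      rw [h1, mul_zero]
    have h0 := hana.eqOn_zero_of_preconnected_of_eventuallyEq_zero preconnected_H him hev
    intro τ
    have := h0 τ.im_pos
    simpa [ofComplex_apply] using this
  have hP : ∀ t x y z : ℂ, c + d * t ≠ 0 → aeval ![t, x, y, z] P = 0 := by
    intro t x y z ht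
    have h1 := eval_QQ (α := α) hβ P (x := x + 3 / (π * (c + d * t))) (y := y) (z := z) ht
    rw [hQ, map_zero, add_sub_cancel_right] at h1
    have h2 : (c + d * t) ^ P.totalDegree ≠ 0 := pow_ne_zero _ ht
    exact (mul_eq_zero.mp h1.symm).resolve_left h2
  have hprod : (C c + C d * X 0) * P = 0 := by
    apply MvPolynomial.funext
    intro x
    rw [map_mul, map_zero]
    by_cases hx : c + d * x 0 = 0
    · simp [hx]
    · have h1 := hP (x 0) (x 1) (x 2) (x 3) hx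
      have e : ![x 0, x 1, x 2, x 3] = x := by
        ext i; fin_cases i <;> rfl
      rw [e] at h1
      have h2 : eval x P = 0 := by simpa [aeval_eq_eval] using h1
      rw [h2, mul_zero]
  rcases mul_eq_zero.mp hprod with h1 | h1
  · exfalso
    have h2 := congrArg (eval fun _ ↦ t₀) h1
    simp at h2
    exact hy h2
  · exact h1

end H32

end S_H32_Indep3
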