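import Mathlib
import Pool.Agent.H32.AKM.P04

/-! Modular Schanuel with derivatives for points algebraic over a field with good approximations, part 8: this file joins several modules to save build time. -/

section S_H32_CZ_N0

set_option autoImplicit false

namespace CZ

open Polynomial

/-- `a` bounds the denominators of `x`: for all `p` the `p`-adic part of the height of `x`
(product over all embeddings in an algebraic closure of `ℚ_p`) is at most `|a|_p⁻¹`. -/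
def LocBd {E : Type*} [Field E] [NumberField E] (x : E) (a : ℕ) : Prop :=
  ∀ (p : ℕ) [Fact p.Prime], ∏ σ : E →+* PadicAlgCl p, max 1 ‖σ x‖ ≤ ‖((a : ℕ) : PadicAlgCl p)‖⁻¹

/-- The denominator of `x`. -/
noncomputable def den {E : Type*} [Field E] [NumberField E] (x : E) : ℕ :=
  sInf {a : ℕ | 0 < a ∧ LocBd x a}

/-- The (not normalised) logarithmic height. -/
noncomputable def hE {E : Type*} [Field E] [NumberField E] (x : E) : ℝ :=
  Real.log (den x) + ∑ φ : E →+* ℂ, Real.log (max 1 ‖φ x‖)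

/-- There is an algebraic point (a tuple `x` of elements of a number field `E`) of size at most `t`
and a set of embeddings for which the images of `x` are close to `P`, of total closeness `≥ V`. -/
def ApprAt {k : ℕ} (P : Fin k → ℂ) (t V : ℝ) : Prop :=
  ∃ (E : Type) (_ : Field E) (_ : NumberField E) (x : Fin k → E)
    (S : Finset (E →+* ℂ)) (d : (E →+* ℂ) → ℝ),
    (Module.finrank ℚ E : ℝ) ≤ t ∧ (∀ i, hE (x i) ≤ t) ∧
    (∀ φ ∈ S, 0 ≤ d φ ∧ ∀ i, ‖φ (x i) - P i‖ ≤ Real.exp (-d φ)) ∧ V ≤ ∑ φ ∈ S, d φ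

/-- Approximations by algebraic points with exponent `κ`. -/
def Appr {k : ℕ} (P : Fin k → ℂ) (κ : ℝ) : Prop :=
  ∀ U0 : ℝ, ∃ t V : ℝ, 1 ≤ t ∧ U0 ≤ V ∧ t ^ κ ≤ V ∧ ApprAt P t V

/-- Sum of the absolute values of the coefficients, one variable. -/
noncomputable def nr (f : ℤ[X]) : ℝ := f.sum fun _ a ↦ |(a : ℝ)|

/-- Sum of the absolute values of the coefficients, two variables. -/
noncomputable def nr2 (P : ℤ[X][X]) : ℝ := P.sum fun _ f ↦ nr f

/-- Degree in the inner variable. -/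
noncomputable def dX (P : ℤ[X][X]) : ℕ := P.support.sup fun j ↦ (P.coeff j).natDegree

/-- Total degree. -/
noncomputable def dT (P : ℤ[X][X]) : ℕ := P.support.sup fun j ↦ j + (P.coeff j).natDegree

/-- Size of a polynomial in two variables. -/
noncomputable def mu2 (P : ℤ[X][X]) : ℝ := P.natDegree + dX P + Real.log (nr2 P)

/-- Mahler measure of an integer polynomial. -/
noncomputable def mah (f : ℤ[X]) : ℝ := (f.map (Int.castRingHom ℂ)).mahlerMeasure

/-- Value at `(x, y)`, where `x` is put in the inner variable. -/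
noncomputable def evH {A : Type*} [CommRing A] (x y : A) : ℤ[X][X] →+* A :=
  eval₂RingHom (eval₂RingHom (Int.castRingHom A) x) y

/-- The shear: inner variable `X ↦ X - k Y`, outer variable fixed. -/
noncomputable def shr (k : ℤ) : ℤ[X][X] →+* ℤ[X][X] :=
  eval₂RingHom (eval₂RingHom (Int.castRingHom ℤ[X][X]) (C X - C (C k) * X)) X

end CZ

end S_H32_CZ_N0

section S_H32_CZ_Ha

set_option autoImplicit false

namespace CZ

open Polynomial

variable {E : Type*} [Field E] [NumberField E]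

theorem norm_le_one_of_integral {p : ℕ} [Fact p.Prime] {y : PadicAlgCl p} (hy : IsIntegral ℤ y) :
    ‖y‖ ≤ 1 := by
  have h1 : IsIntegral (Valued.v (R := PadicAlgCl p)).integer y := hy.tower_top
  have h2 := (Valuation.integer.integers (Valued.v (R := PadicAlgCl p))).mem_of_integral h1
  have h3 : Valued.v (R := PadicAlgCl p) y ≤ 1 := h2
  rw [PadicAlgCl.valuation_def] at h3
  exact_mod_cast h3

theorem exists_locBd (x : E) : ∃ a : ℕ, 0 < a ∧ LocBd x a := by
  have hx : IsAlgebraic ℤ x := (IsFractionRing.isAlgebraic_iff ℤ ℚ E).2 (IsAlgebraic.of_finite ℚ x)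
  obtain ⟨y, hy, hint⟩ := hx.exists_integral_multiple
  refine ⟨y.natAbs ^ Module.finrank ℚ E, pow_pos (Int.natAbs_pos.2 hy) _, fun p _ => ?_⟩
  have hn : ‖((y.natAbs : ℕ) : PadicAlgCl p)‖ = ‖((y : ℤ) : PadicAlgCl p)‖ := by
    rcases Int.natAbs_eq y with h | h
    · conv_rhs => rw [h]
      rw [Int.cast_natCast]
    · conv_rhs => rw [h]
      rw [Int.cast_neg, Int.cast_natCast, norm_neg]
  have hy0 : ((y : ℤ) : PadicAlgCl p) ≠ 0 := Int.cast_ne_zero.2 hy
  have hyp : 0 < ‖((y : ℤ) : PadicAlgCl p)‖ := norm_pos_iff.2 hy0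
  have hy1 : ‖((y : ℤ) : PadicAlgCl p)‖ ≤ 1 := IsUltrametricDist.norm_intCast_le_one _ y
  rw [Nat.cast_pow, norm_pow, hn, ← inv_pow, ← NumberField.Embeddings.card E (PadicAlgCl p),
    ← Finset.card_univ, ← Finset.prod_const]
  refine Finset.prod_le_prod (fun σ _ => zero_le_one.trans (le_max_left _ _)) fun σ _ =>
    max_le ((one_le_inv₀ hyp).2 hy1) ?_
  have h1 : IsIntegral ℤ (σ (y • x)) := hint.map σ.toIntAlgHom
  have h2 := norm_le_one_of_integral h1
  rw [zsmul_eq_mul, map_mul, map_intCast, norm_mul] at h2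
  rw [← one_div, le_div_iff₀ hyp, mul_comm]
  exact h2

theorem den_spec (x : E) : 0 < den x ∧ LocBd x (den x) :=
  Nat.sInf_mem (exists_locBd x)

theorem den_le {x : E} {a : ℕ} (ha : 0 < a) (h : LocBd x a) : den x ≤ a :=
  Nat.sInf_le ⟨ha, h⟩

theorem hE_nonneg (x : E) : 0 ≤ hE x := by
  unfold hE
  refine add_nonneg (Real.log_nonneg ?_) (Finset.sum_nonneg fun φ _ => Real.log_nonneg (le_max_left _ _))
  exact_mod_cast (den_spec x).1

theorem prod_emb_gen {A : Type*} [Field A] [IsAlgClosed A] [CharZero A] (y : E) :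
    ∏ σ : E →+* A, σ y = ((Algebra.norm ℚ y : ℚ) : A) := by
  have h1 := Algebra.norm_eq_prod_embeddings ℚ A y
  rw [eq_ratCast] at h1
  rw [h1]
  exact Fintype.prod_equiv (RingHom.equivRatAlgHom E A) _ _ fun σ => rfl

theorem prod_emb_padic (p : ℕ) [Fact p.Prime] (y : E) :
    ∏ σ : E →+* PadicAlgCl p, σ y = ((Algebra.norm ℚ y : ℚ) : PadicAlgCl p) :=
  prod_emb_gen y

theorem prod_emb_complex (y : E) :
    ∏ φ : E →+* ℂ, φ y = ((Algebra.norm ℚ y : ℚ) : ℂ) :=
  prod_emb_gen y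

theorem int_of_padic (q : ℚ) (h : ∀ (p : ℕ) [Fact p.Prime], ‖(q : PadicAlgCl p)‖ ≤ 1) :
    ∃ n : ℤ, q = n := by
  by_cases hd : q.den = 1
  · exact ⟨q.num, (Rat.coe_int_num_of_den_eq_one hd).symm⟩
  exfalso
  obtain ⟨p, hp, hpd⟩ := Nat.exists_prime_and_dvd hd
  have : Fact p.Prime := ⟨hp⟩
  have h1 := h p
  have h2 : ‖(q : ℚ_[p])‖ ≤ 1 := by
    rw [← PadicAlgCl.norm_extends, map_ratCast]
    exact h1
  have h3 : ‖((q.num : ℤ) : ℚ_[p])‖ < 1 := by
    have h4 : ((q.num : ℤ) : ℚ_[p]) = (q : ℚ_[p]) * ((q.den : ℕ) : ℚ_[p]) := by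
      have := Rat.mul_den_eq_num q
      exact_mod_cast this.symm
    have h5 : ‖((q.den : ℕ) : ℚ_[p])‖ < 1 := Padic.norm_natCast_lt_one_iff.2 hpd
    rw [h4, norm_mul]
    calc ‖(q : ℚ_[p])‖ * ‖((q.den : ℕ) : ℚ_[p])‖ ≤ 1 * ‖((q.den : ℕ) : ℚ_[p])‖ :=
          mul_le_mul_of_nonneg_right h2 (norm_nonneg _)
      _ < 1 := by rwa [one_mul]
  have h4 : (p : ℤ) ∣ q.num := Padic.norm_intCast_lt_one_iff.1 h3
  have h5 : p ∣ q.num.natAbs := Int.natCast_dvd.1 h4
  exact hp.one_lt.ne' (Nat.dvd_one.1 (q.reduced ▸ Nat.dvd_gcd h5 hpd))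

end CZ

end S_H32_CZ_Ha

section S_H32_CZ_Hc

set_option autoImplicit false

namespace CZ

open Polynomial

theorem Hc_gprod {Ω : Type*} [NormedField Ω] (hΩ : IsNonarchimedean (norm : Ω → ℝ))
    {ι : Type*} (α : ι → Ω) (s : Finset ι) (q : Polynomial Ω) :
    q.gaussNorm (NormedField.toAbsoluteValue Ω) 1 * ∏ i ∈ s, max 1 ‖α i‖ ≤
      (q * ∏ i ∈ s, (X - C (α i))).gaussNorm (NormedField.toAbsoluteValue Ω) 1 := by
  classical
  have hna : IsNonarchimedean (NormedField.toAbsoluteValue Ω) := hΩ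
  induction s using Finset.induction_on with
  | empty => simp
  | insert i s hi ih =>
    rw [Finset.prod_insert hi, Finset.prod_insert hi]
    have h1 : max 1 ‖α i‖ ≤ (X - C (α i)).gaussNorm (NormedField.toAbsoluteValue Ω) 1 := by
      refine max_le ?_ ?_
      · have h2 := (X - C (α i)).le_gaussNorm (NormedField.toAbsoluteValue Ω) (zero_le_one) 1
        have h3 : (X - C (α i)).coeff 1 = 1 := by
          rw [coeff_sub, coeff_X_one, coeff_C_of_ne_zero one_ne_zero, sub_zero]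
        rw [h3, map_one, one_pow, one_mul] at h2
        exact h2
      · have h2 := (X - C (α i)).le_gaussNorm (NormedField.toAbsoluteValue Ω) (zero_le_one) 0
        have h3 : (X - C (α i)).coeff 0 = - α i := by
          rw [coeff_sub, coeff_X_zero, coeff_C_zero, zero_sub]
        rw [h3, pow_zero, mul_one] at h2
        have h4 : (NormedField.toAbsoluteValue Ω) (- α i) = ‖α i‖ := norm_neg (α i)
        rw [h4] at h2
        exact h2
    have h5 : q * ((X - C (α i)) * ∏ i ∈ s, (X - C (α i))) =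
        (X - C (α i)) * (q * ∏ i ∈ s, (X - C (α i))) := by ring
    rw [h5, gaussNorm_mul hna zero_lt_one]
    have h6 : 0 ≤ q.gaussNorm (NormedField.toAbsoluteValue Ω) 1 :=
      q.gaussNorm_nonneg _ zero_le_one
    calc q.gaussNorm (NormedField.toAbsoluteValue Ω) 1 * (max 1 ‖α i‖ * ∏ i ∈ s, max 1 ‖α i‖)
        = max 1 ‖α i‖ * (q.gaussNorm (NormedField.toAbsoluteValue Ω) 1 *
          ∏ i ∈ s, max 1 ‖α i‖) := by ring
      _ ≤ _ := mul_le_mul h1 ih (mul_nonneg h6 (Finset.prod_nonneg fun _ _ =>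
          le_trans zero_le_one (le_max_left _ _))) ((X - C (α i)).gaussNorm_nonneg _ zero_le_one)

/-- Gauss lemma over a nonarchimedean normed field. -/
theorem gauss_prod {Ω : Type*} [NormedField Ω] (hΩ : IsNonarchimedean (norm : Ω → ℝ))
    {ι : Type*} [Fintype ι] (α : ι → Ω) (c : Ω)
    (h : ∀ j, ‖(C c * ∏ i, (X - C (α i))).coeff j‖ ≤ 1) :
    ‖c‖ * ∏ i, max 1 ‖α i‖ ≤ 1 := by
  have h1 := Hc_gprod hΩ α Finset.univ (C c)
  rw [gaussNorm_C] at h1
  refine le_trans h1 ?_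
  obtain ⟨i, hi⟩ := exists_eq_gaussNorm (NormedField.toAbsoluteValue Ω) 1 (C c * ∏ i, (X - C (α i)))
  rw [hi, one_pow, mul_one]
  exact h i

theorem Hc_roots {E : Type*} [Field E] [NumberField E] {Ω : Type*} [Field Ω] [CharZero Ω]
    [IsAlgClosed Ω] (r : ℤ[X]) (hr : Irreducible r) (y : E) (hy : aeval y r = 0)
    (hn : r.natDegree = Module.finrank ℚ E) :
    (r.map (Int.castRingHom Ω)).roots =
      (Finset.univ : Finset (E →+* Ω)).val.map (fun σ => σ y) := by
  have hn0 : r.natDegree ≠ 0 := by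
    rw [hn]
    exact Module.finrank_pos.ne'
  have hprim : r.IsPrimitive := hr.isPrimitive hn0
  have hirr : Irreducible (r.map (Int.castRingHom ℚ)) :=
    (Polynomial.IsPrimitive.Int.irreducible_iff_irreducible_map_cast hprim).1 hr
  have hroot : aeval y (r.map (Int.castRingHom ℚ)) = 0 := by
    rw [← hy]
    exact aeval_map_algebraMap ℚ y r
  have hmin := minpoly.eq_of_irreducible hirr hroot
  have hlc : (r.map (Int.castRingHom ℚ)).leadingCoeff⁻¹ ≠ 0 :=
    inv_ne_zero (leadingCoeff_ne_zero.2 hirr.ne_zero)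
  have hdeg : (minpoly ℚ y).natDegree = Module.finrank ℚ E := by
    rw [← hmin, natDegree_mul_C hlc, natDegree_map_eq_of_injective (RingHom.injective_int _), hn]
  have htop := (Field.primitive_element_iff_minpoly_natDegree_eq ℚ y).2 hdeg
  have hinj0 := (Field.primitive_element_iff_algHom_eq_of_eval' ℚ Ω
    (fun x => IsAlgClosed.splits _) y).1 htop
  have hinj : Function.Injective (fun σ : E →+* Ω => σ y) := by
    intro σ τ h
    have h1 : σ.toRatAlgHom = τ.toRatAlgHom := hinj0 h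
    exact RingHom.ext fun x => DFunLike.congr_fun h1 x
  have hR0 : r.map (Int.castRingHom Ω) ≠ 0 := by
    intro h
    have h1 : (r.map (Int.castRingHom Ω)).natDegree = r.natDegree :=
      natDegree_map_eq_of_injective (RingHom.injective_int _) r
    rw [h, natDegree_zero] at h1
    exact hn0 h1.symm
  symm
  refine Multiset.eq_of_le_of_card_le ?_ ?_
  · rw [Multiset.le_iff_subset (Multiset.Nodup.map hinj (Finset.nodup _))]
    intro z hz
    obtain ⟨σ, -, rfl⟩ := Multiset.mem_map.1 hz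
    rw [mem_roots hR0]
    show eval (σ y) (r.map (Int.castRingHom Ω)) = 0
    rw [eval_map]
    have h1 : σ (aeval y r) = 0 := by rw [hy, map_zero]
    rw [aeval_def, hom_eval₂] at h1
    have h2 : σ.comp (algebraMap ℤ E) = Int.castRingHom Ω := RingHom.ext_int _ _
    rw [h2] at h1
    exact h1
  · rw [Multiset.card_map]
    have h1 : Multiset.card (Finset.univ : Finset (E →+* Ω)).val = Module.finrank ℚ E := by
      have h2 := NumberField.Embeddings.card E Ω
      rw [← h2]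
      rfl
    rw [h1, ← hn, ← natDegree_map_eq_of_injective (RingHom.injective_int (Int.castRingHom Ω)) r]
    exact card_roots' _

variable {E : Type*} [Field E] [NumberField E]

theorem Hc_prod {Ω : Type*} [Field Ω] [CharZero Ω]
    [IsAlgClosed Ω] (r : ℤ[X]) (hr : Irreducible r) (y : E) (hy : aeval y r = 0)
    (hn : r.natDegree = Module.finrank ℚ E) :
    C ((r.leadingCoeff : ℤ) : Ω) * ∏ σ : E →+* Ω, (X - C (σ y)) = r.map (Int.castRingHom Ω) := by
  have h1 := Hc_roots (Ω := Ω) r hr y hy hn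
  have h2 : Multiset.card (r.map (Int.castRingHom Ω)).roots = (r.map (Int.castRingHom Ω)).natDegree :=
    (IsAlgClosed.splits _).natDegree_eq_card_roots.symm
  have h3 := C_leadingCoeff_mul_prod_multiset_X_sub_C h2
  rw [h1, Multiset.map_map, leadingCoeff_map_of_injective (RingHom.injective_int _)] at h3
  exact h3

theorem locBd_root (r : ℤ[X]) (hr : Irreducible r) (y : E) (hy : aeval y r = 0)
    (hn : r.natDegree = Module.finrank ℚ E) : LocBd y r.leadingCoeff.natAbs := by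
  intro p _
  have hint : ∀ a : ℤ, ‖(a : PadicAlgCl p)‖ ≤ 1 := by
    intro a
    have h1 : ((a : ℚ_[p]) : PadicAlgCl p) = (a : PadicAlgCl p) := map_intCast (algebraMap ℚ_[p] (PadicAlgCl p)) a
    rw [← h1, PadicAlgCl.norm_extends]
    exact Padic.norm_int_le_one a
  have h1 := gauss_prod (PadicAlgCl.isNonarchimedean p) (fun σ : E →+* PadicAlgCl p => σ y)
    ((r.leadingCoeff : ℤ) : PadicAlgCl p) (fun j => by
      rw [Hc_prod r hr y hy hn, coeff_map]
      exact hint _)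
  have hlc : ((r.leadingCoeff : ℤ) : PadicAlgCl p) ≠ 0 := by
    rw [Int.cast_ne_zero]
    exact leadingCoeff_ne_zero.2 hr.ne_zero
  have h2 : ‖((r.leadingCoeff.natAbs : ℕ) : PadicAlgCl p)‖ = ‖((r.leadingCoeff : ℤ) : PadicAlgCl p)‖ := by
    rcases Int.natAbs_eq r.leadingCoeff with h | h
    · conv_rhs => rw [h]
      rw [Int.cast_natCast]
    · conv_rhs => rw [h]
      rw [Int.cast_neg, norm_neg, Int.cast_natCast]
  rw [h2, ← one_div, le_div_iff₀ (norm_pos_iff.2 hlc), mul_comm]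
  exact h1

theorem hE_root (r : ℤ[X]) (hr : Irreducible r) (y : E) (hy : aeval y r = 0)
    (hn : r.natDegree = Module.finrank ℚ E) : hE y ≤ Real.log (mah r) := by
  have hlc0 : r.leadingCoeff ≠ 0 := leadingCoeff_ne_zero.2 hr.ne_zero
  have h1 : den y ≤ r.leadingCoeff.natAbs :=
    den_le (Int.natAbs_pos.2 hlc0) (locBd_root r hr y hy hn)
  have h2 := (den_spec y).1
  unfold hE mah
  rw [mahlerMeasure_eq_leadingCoeff_mul_prod_roots, Hc_roots r hr y hy hn, Multiset.map_map,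
    leadingCoeff_map_of_injective (RingHom.injective_int _)]
  have h3 : (Multiset.map ((fun a : ℂ => max 1 ‖a‖) ∘ fun σ : E →+* ℂ => σ y)
      (Finset.univ : Finset (E →+* ℂ)).val).prod = ∏ φ : E →+* ℂ, max 1 ‖φ y‖ := rfl
  rw [h3]
  have h4 : 0 < ∏ φ : E →+* ℂ, max 1 ‖φ y‖ :=
    Finset.prod_pos fun _ _ => lt_of_lt_of_le zero_lt_one (le_max_left _ _)
  have h5 : ‖(Int.castRingHom ℂ) r.leadingCoeff‖ = (r.leadingCoeff.natAbs : ℝ) := by
    rw [eq_intCast, Complex.norm_intCast, ← Int.cast_abs, Int.abs_eq_natAbs, Int.cast_natCast]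
  have h6 : (0:ℝ) < (r.leadingCoeff.natAbs : ℝ) := by
    exact_mod_cast Int.natAbs_pos.2 hlc0
  rw [h5, Real.log_mul h6.ne' h4.ne', Real.log_prod]
  · refine add_le_add_left ?_ _
    exact Real.log_le_log (by exact_mod_cast h2) (by exact_mod_cast h1)
  · intro φ _
    exact (lt_of_lt_of_le zero_lt_one (le_max_left _ _)).ne'

end CZ

end S_H32_CZ_Hc

section S_H32_CZ_Hd

set_option autoImplicit false

namespace CZ

open Polynomial

variable {E : Type*} [Field E] [NumberField E]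

theorem Hd_main (x y y' : E) (K δ : ℕ) (hδ : 1 ≤ δ) (hδK : δ ≤ K)
    (hp : ∀ (p : ℕ) [Fact p.Prime] (σ : E →+* PadicAlgCl p),
      max 1 ‖σ x‖ ≤ max 1 ‖σ y‖ * max 1 ‖σ y'‖ * ‖((δ : ℕ) : PadicAlgCl p)‖⁻¹)
    (hc : ∀ φ : E →+* ℂ, max 1 ‖φ x‖ ≤ 2 * K * (max 1 ‖φ y‖ * max 1 ‖φ y'‖)) :
    hE x ≤ hE y + hE y' + 2 * Module.finrank ℚ E * Real.log (2 * K) := by
  obtain ⟨hy0, hy⟩ := den_spec y
  obtain ⟨hy'0, hy'⟩ := den_spec y'
  obtain ⟨hx0, -⟩ := den_spec x
  have hK1 : (1 : ℝ) ≤ K := by exact_mod_cast hδ.trans hδK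
  have hden : den x ≤ den y * den y' * δ ^ Module.finrank ℚ E := by
    refine den_le (by positivity) ?_
    intro p hpp
    have h1 : ∏ σ : E →+* PadicAlgCl p, max 1 ‖σ x‖ ≤
        ∏ σ : E →+* PadicAlgCl p, (max 1 ‖σ y‖ * max 1 ‖σ y'‖ * ‖((δ : ℕ) : PadicAlgCl p)‖⁻¹) :=
      Finset.prod_le_prod (fun σ _ => by positivity) fun σ _ => hp p σ
    refine h1.trans ?_
    rw [Finset.prod_mul_distrib, Finset.prod_mul_distrib, Finset.prod_const, Finset.card_univ,
      NumberField.Embeddings.card]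
    push_cast
    rw [norm_mul, norm_mul, norm_pow, mul_inv, mul_inv, inv_pow]
    have h2 := hy p
    have h3 := hy' p
    have h4 : (0 : ℝ) ≤ ∏ σ : E →+* PadicAlgCl p, max 1 ‖σ y'‖ :=
      Finset.prod_nonneg fun σ _ => by positivity
    exact mul_le_mul_of_nonneg_right (mul_le_mul h2 h3 h4 (by positivity)) (by positivity)
  have hlog : Real.log (den x) ≤ Real.log (den y) + Real.log (den y') +
      Module.finrank ℚ E * Real.log (2 * K) := by
    have h1 : (den x : ℝ) ≤ den y * den y' * (2 * K) ^ Module.finrank ℚ E := by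
      have h2 : (den x : ℝ) ≤ den y * den y' * δ ^ Module.finrank ℚ E := by exact_mod_cast hden
      refine h2.trans ?_
      have h3 : (δ : ℝ) ≤ 2 * K := by
        have : (δ : ℝ) ≤ K := by exact_mod_cast hδK
        linarith
      gcongr
    have hx1 : (0 : ℝ) < den x := by exact_mod_cast hx0
    have hy1 : (0 : ℝ) < den y := by exact_mod_cast hy0
    have hy1' : (0 : ℝ) < den y' := by exact_mod_cast hy'0
    have h4 := Real.log_le_log hx1 h1
    rwa [Real.log_mul (by positivity) (by positivity), Real.log_mul (by positivity) (by positivity),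
      Real.log_pow] at h4
  have hsum : ∑ φ : E →+* ℂ, Real.log (max 1 ‖φ x‖) ≤ ∑ φ : E →+* ℂ, Real.log (max 1 ‖φ y‖) +
      ∑ φ : E →+* ℂ, Real.log (max 1 ‖φ y'‖) + Module.finrank ℚ E * Real.log (2 * K) := by
    have h1 : ∀ φ : E →+* ℂ, Real.log (max 1 ‖φ x‖) ≤
        Real.log (max 1 ‖φ y‖) + Real.log (max 1 ‖φ y'‖) + Real.log (2 * K) := by
      intro φ
      have a1 : 0 < max 1 ‖φ x‖ := lt_max_of_lt_left one_pos
      have a2 : 0 < max 1 ‖φ y‖ := lt_max_of_lt_left one_pos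
      have a3 : 0 < max 1 ‖φ y'‖ := lt_max_of_lt_left one_pos
      have h2 := Real.log_le_log a1 (hc φ)
      rw [Real.log_mul (by positivity) (by positivity), Real.log_mul a2.ne' a3.ne'] at h2
      linarith
    refine (Finset.sum_le_sum fun φ _ => h1 φ).trans ?_
    rw [Finset.sum_add_distrib, Finset.sum_add_distrib, Finset.sum_const, Finset.card_univ,
      NumberField.Embeddings.card, nsmul_eq_mul]
  unfold hE
  linarith

/-- the case of two linear forms over one nonarchimedean field -/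
theorem Hd_pad {A : Type*} [NormedField A] [IsUltrametricDist A] (X1 X2 : A) (k k' δ : ℕ)
    (hδ : (δ : A) = (k : A) - k' ∨ (δ : A) = (k' : A) - k) (h0 : (δ : A) ≠ 0) :
    max 1 ‖X1‖ ≤ max 1 ‖X1 + k * X2‖ * max 1 ‖X1 + k' * X2‖ * ‖(δ : A)‖⁻¹ ∧
    max 1 ‖X2‖ ≤ max 1 ‖X1 + k * X2‖ * max 1 ‖X1 + k' * X2‖ * ‖(δ : A)‖⁻¹ := by
  have hd1 : ‖(δ : A)‖ ≤ 1 := IsUltrametricDist.norm_natCast_le_one A δ
  have hk1 : ‖(k : A)‖ ≤ 1 := IsUltrametricDist.norm_natCast_le_one A k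
  have hk1' : ‖(k' : A)‖ ≤ 1 := IsUltrametricDist.norm_natCast_le_one A k'
  have hd0 : 0 < ‖(δ : A)‖ := norm_pos_iff.2 h0
  obtain ⟨Y, hY⟩ : ∃ Y, Y = X1 + k * X2 := ⟨_, rfl⟩
  obtain ⟨Z, hZ⟩ : ∃ Z, Z = X1 + k' * X2 := ⟨_, rfl⟩
  rw [← hY, ← hZ]
  have hM1 : (1 : ℝ) ≤ max 1 ‖Y‖ := le_max_left _ _
  have hM2 : (1 : ℝ) ≤ max 1 ‖Z‖ := le_max_left _ _
  have hYM : ‖Y‖ ≤ max 1 ‖Y‖ * max 1 ‖Z‖ :=
    (le_max_right 1 ‖Y‖).trans (le_mul_of_one_le_right (by linarith) hM2)
  have hZM : ‖Z‖ ≤ max 1 ‖Y‖ * max 1 ‖Z‖ :=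
    (le_max_right 1 ‖Z‖).trans (le_mul_of_one_le_left (by linarith) hM1)
  have h1M : (1 : ℝ) ≤ max 1 ‖Y‖ * max 1 ‖Z‖ := one_le_mul_of_one_le_of_one_le hM1 hM2
  have hone : (1 : ℝ) ≤ max 1 ‖Y‖ * max 1 ‖Z‖ * ‖(δ : A)‖⁻¹ :=
    one_le_mul_of_one_le_of_one_le h1M (by rw [one_le_inv₀ hd0]; exact hd1)
  have hkey : ∀ X W : A, X * (δ : A) = W → ‖W‖ ≤ max 1 ‖Y‖ * max 1 ‖Z‖ →
      max 1 ‖X‖ ≤ max 1 ‖Y‖ * max 1 ‖Z‖ * ‖(δ : A)‖⁻¹ := by
    intro X W hXW hW
    refine max_le hone ?_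
    rw [← hXW, norm_mul] at hW
    rwa [← div_eq_mul_inv, le_div_iff₀ hd0]
  have hsub : ∀ U V : A, ‖U‖ ≤ max 1 ‖Y‖ * max 1 ‖Z‖ → ‖V‖ ≤ max 1 ‖Y‖ * max 1 ‖Z‖ →
      ‖U - V‖ ≤ max 1 ‖Y‖ * max 1 ‖Z‖ := fun U V h1 h2 =>
    by
    rw [sub_eq_add_neg]
    exact (IsUltrametricDist.norm_add_le_max U (-V)).trans (max_le h1 (by rw [norm_neg]; exact h2))
  have hkZ : ‖(k : A) * Z‖ ≤ max 1 ‖Y‖ * max 1 ‖Z‖ := by
    rw [norm_mul]
    exact (mul_le_of_le_one_left (norm_nonneg _) hk1).trans hZM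
  have hkY : ‖(k' : A) * Y‖ ≤ max 1 ‖Y‖ * max 1 ‖Z‖ := by
    rw [norm_mul]
    exact (mul_le_of_le_one_left (norm_nonneg _) hk1').trans hYM
  rcases hδ with hδ | hδ
  · refine ⟨hkey X1 (k * Z - k' * Y) ?_ (hsub _ _ hkZ hkY), hkey X2 (Y - Z) ?_ (hsub _ _ hYM hZM)⟩
    · rw [hδ, hY, hZ]
      ring
    · rw [hδ, hY, hZ]
      ring
  · refine ⟨hkey X1 (k' * Y - k * Z) ?_ (hsub _ _ hkY hkZ), hkey X2 (Z - Y) ?_ (hsub _ _ hZM hYM)⟩
    · rw [hδ, hY, hZ]
      ring
    · rw [hδ, hY, hZ]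
      ring

/-- the complex case -/
theorem Hd_cpx (X1 X2 : ℂ) (K k k' δ : ℕ) (hkK : k ≤ K) (hkK' : k' ≤ K) (hδ1 : 1 ≤ δ) (hK : 1 ≤ K)
    (hδ : (δ : ℂ) = (k : ℂ) - k' ∨ (δ : ℂ) = (k' : ℂ) - k) :
    max 1 ‖X1‖ ≤ 2 * K * (max 1 ‖X1 + k * X2‖ * max 1 ‖X1 + k' * X2‖) ∧
    max 1 ‖X2‖ ≤ 2 * K * (max 1 ‖X1 + k * X2‖ * max 1 ‖X1 + k' * X2‖) := by
  have hkr : (k : ℝ) ≤ K := by exact_mod_cast hkK
  have hkr' : (k' : ℝ) ≤ K := by exact_mod_cast hkK'
  have hK1 : (1 : ℝ) ≤ K := by exact_mod_cast hK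
  have hd1 : 1 ≤ ‖(δ : ℂ)‖ := by
    rw [Complex.norm_natCast]
    exact_mod_cast hδ1
  obtain ⟨Y, hY⟩ : ∃ Y, Y = X1 + k * X2 := ⟨_, rfl⟩
  obtain ⟨Z, hZ⟩ : ∃ Z, Z = X1 + k' * X2 := ⟨_, rfl⟩
  rw [← hY, ← hZ]
  have hM1 : (1 : ℝ) ≤ max 1 ‖Y‖ := le_max_left _ _
  have hM2 : (1 : ℝ) ≤ max 1 ‖Z‖ := le_max_left _ _
  have hYM : ‖Y‖ ≤ max 1 ‖Y‖ * max 1 ‖Z‖ :=
    (le_max_right 1 ‖Y‖).trans (le_mul_of_one_le_right (by linarith) hM2)
  have hZM : ‖Z‖ ≤ max 1 ‖Y‖ * max 1 ‖Z‖ :=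
    (le_max_right 1 ‖Z‖).trans (le_mul_of_one_le_left (by linarith) hM1)
  have h1M : (1 : ℝ) ≤ max 1 ‖Y‖ * max 1 ‖Z‖ := one_le_mul_of_one_le_of_one_le hM1 hM2
  obtain ⟨M, hM⟩ : ∃ M, M = max 1 ‖Y‖ * max 1 ‖Z‖ := ⟨_, rfl⟩
  rw [← hM] at hYM hZM h1M ⊢
  have hone : (1 : ℝ) ≤ 2 * K * M := by nlinarith
  have hkey : ∀ X W : ℂ, X * (δ : ℂ) = W → ‖W‖ ≤ 2 * K * M → max 1 ‖X‖ ≤ 2 * K * M := by
    intro X W hXW hW
    refine max_le hone ?_
    rw [← hXW, norm_mul] at hW
    have h2 : ‖X‖ ≤ ‖X‖ * ‖(δ : ℂ)‖ := le_mul_of_one_le_right (norm_nonneg _) hd1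
    linarith
  have hsub : ∀ U V : ℂ, ‖U‖ ≤ K * M → ‖V‖ ≤ K * M → ‖U - V‖ ≤ 2 * K * M := fun U V h1 h2 => by
    have := norm_sub_le U V
    linarith
  have hkZ : ‖(k : ℂ) * Z‖ ≤ K * M := by
    rw [norm_mul, Complex.norm_natCast]
    exact mul_le_mul hkr hZM (norm_nonneg _) (by linarith)
  have hkY : ‖(k' : ℂ) * Y‖ ≤ K * M := by
    rw [norm_mul, Complex.norm_natCast]
    exact mul_le_mul hkr' hYM (norm_nonneg _) (by linarith)
  have hY1 : ‖Y‖ ≤ K * M := by nlinarith [norm_nonneg Y]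
  have hZ1 : ‖Z‖ ≤ K * M := by nlinarith [norm_nonneg Z]
  rcases hδ with hδ | hδ
  · refine ⟨hkey X1 (k * Z - k' * Y) ?_ (hsub _ _ hkZ hkY), hkey X2 (Y - Z) ?_ (hsub _ _ hY1 hZ1)⟩
    · rw [hδ, hY, hZ]
      ring
    · rw [hδ, hY, hZ]
      ring
  · refine ⟨hkey X1 (k' * Y - k * Z) ?_ (hsub _ _ hkY hkZ), hkey X2 (Z - Y) ?_ (hsub _ _ hZ1 hY1)⟩
    · rw [hδ, hY, hZ]
      ring
    · rw [hδ, hY, hZ]
      ring

theorem hE_two (x1 x2 : E) (K k k' : ℕ) (hk : 1 ≤ k) (hk' : 1 ≤ k') (hkK : k ≤ K) (hkK' : k' ≤ K)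
    (hne : k ≠ k') :
    hE x1 ≤ hE (x1 + k * x2) + hE (x1 + k' * x2) +
        2 * Module.finrank ℚ E * Real.log (2 * K) ∧
      hE x2 ≤ hE (x1 + k * x2) + hE (x1 + k' * x2) +
        2 * Module.finrank ℚ E * Real.log (2 * K) := by
  obtain ⟨δ, h1, h2, h3⟩ : ∃ δ : ℕ, 1 ≤ δ ∧ δ ≤ K ∧ (k = k' + δ ∨ k' = k + δ) := by
    rcases lt_or_gt_of_ne hne with h | h
    · exact ⟨k' - k, by omega, by omega, Or.inr (by omega)⟩
    · exact ⟨k - k', by omega, by omega, Or.inl (by omega)⟩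
  have hA : ∀ (A : Type) [NormedField A] , (δ : A) = (k : A) - k' ∨ (δ : A) = (k' : A) - k := by
    intro A _
    rcases h3 with h | h
    · left
      rw [h]
      push_cast
      ring
    · right
      rw [h]
      push_cast
      ring
  have hp : ∀ (p : ℕ) [Fact p.Prime] (σ : E →+* PadicAlgCl p),
      max 1 ‖σ x1‖ ≤ max 1 ‖σ (x1 + k * x2)‖ * max 1 ‖σ (x1 + k' * x2)‖ *
        ‖((δ : ℕ) : PadicAlgCl p)‖⁻¹ ∧
      max 1 ‖σ x2‖ ≤ max 1 ‖σ (x1 + k * x2)‖ * max 1 ‖σ (x1 + k' * x2)‖ *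
        ‖((δ : ℕ) : PadicAlgCl p)‖⁻¹ := by
    intro p hpp σ
    have h := Hd_pad (σ x1) (σ x2) k k' δ (hA _) (Nat.cast_ne_zero.2 (by omega))
    rw [map_add, map_add, map_mul, map_mul, map_natCast, map_natCast]
    exact h
  have hc : ∀ φ : E →+* ℂ,
      max 1 ‖φ x1‖ ≤ 2 * K * (max 1 ‖φ (x1 + k * x2)‖ * max 1 ‖φ (x1 + k' * x2)‖) ∧
      max 1 ‖φ x2‖ ≤ 2 * K * (max 1 ‖φ (x1 + k * x2)‖ * max 1 ‖φ (x1 + k' * x2)‖) := by
    intro φ
    have h := Hd_cpx (φ x1) (φ x2) K k k' δ hkK hkK' h1 (hk.trans hkK) (hA _)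
    rw [map_add, map_add, map_mul, map_mul, map_natCast, map_natCast]
    exact h
  exact ⟨Hd_main x1 _ _ K δ h1 h2 (fun p _ σ => (hp p σ).1) (fun φ => (hc φ).1),
    Hd_main x2 _ _ K δ h1 h2 (fun p _ σ => (hp p σ).2) (fun φ => (hc φ).2)⟩

open Classical in
theorem Hd_fib {E' : Type*} [Field E'] [NumberField E'] [Algebra E E'] {A : Type*}
    [Field A] [CharZero A] [IsAlgClosed A] (τ : E →+* A) :
    (Finset.univ.filter fun σ : E' →+* A => σ.comp (algebraMap E E') = τ).card =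
      Module.finrank E E' := by
  let _ := τ.toAlgebra
  have hfd : FiniteDimensional E E' := Module.Finite.right ℚ E E'
  rw [← AlgHom.card E E' A, ← Fintype.card_subtype]
  refine Fintype.card_congr ⟨fun σ => ⟨σ.1, fun x => ?_⟩, fun σ => ⟨σ.toRingHom, ?_⟩, ?_, ?_⟩
  · exact RingHom.congr_fun σ.2 x
  · ext x
    exact σ.commutes x
  · intro σ
    rfl
  · intro σ
    rfl

theorem prod_restrict {E' : Type*} [Field E'] [NumberField E'] [Algebra E E'] {A : Type*}
    [Field A] [CharZero A] [IsAlgClosed A] (g : (E →+* A) → ℝ) :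
    ∏ σ : E' →+* A, g (σ.comp (algebraMap E E')) = (∏ σ : E →+* A, g σ) ^ Module.finrank E E' := by
  classical
  rw [← Finset.prod_pow, ← Finset.prod_fiberwise Finset.univ
    (fun σ : E' →+* A => σ.comp (algebraMap E E')) (fun σ => g (σ.comp (algebraMap E E')))]
  refine Finset.prod_congr rfl fun τ _ => ?_
  rw [← Hd_fib (E' := E') τ, ← Finset.prod_const]
  refine Finset.prod_congr rfl fun σ hσ => ?_
  rw [(Finset.mem_filter.1 hσ).2]

theorem hE_algebraMap {E' : Type*} [Field E'] [NumberField E'] [Algebra E E'] (x : E) :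
    hE (algebraMap E E' x) ≤ Module.finrank E E' * hE x := by
  obtain ⟨hx0, hx⟩ := den_spec x
  obtain ⟨hx0', -⟩ := den_spec (algebraMap E E' x)
  have hden : den (algebraMap E E' x) ≤ den x ^ Module.finrank E E' := by
    refine den_le (pow_pos hx0 _) ?_
    intro p hp
    have h1 := prod_restrict (E := E) (E' := E') (A := PadicAlgCl p) (fun σ => max 1 ‖σ x‖)
    have h2 : ∏ σ : E' →+* PadicAlgCl p, max 1 ‖σ (algebraMap E E' x)‖ =
        (∏ σ : E →+* PadicAlgCl p, max 1 ‖σ x‖) ^ Module.finrank E E' := h1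
    rw [h2]
    push_cast
    rw [norm_pow, ← inv_pow]
    exact pow_le_pow_left₀ (Finset.prod_nonneg fun σ _ => by positivity) (hx p) _
  have hlog : Real.log (den (algebraMap E E' x)) ≤ Module.finrank E E' * Real.log (den x) := by
    rw [← Real.log_pow]
    refine Real.log_le_log (by exact_mod_cast hx0') (by exact_mod_cast hden)
  have h3 := prod_restrict (E := E) (E' := E') (A := ℂ) (fun σ => max 1 ‖σ x‖)
  have h4 : ∏ σ : E' →+* ℂ, max 1 ‖σ (algebraMap E E' x)‖ =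
      (∏ σ : E →+* ℂ, max 1 ‖σ x‖) ^ Module.finrank E E' := h3
  have hsum : ∑ φ : E' →+* ℂ, Real.log (max 1 ‖φ (algebraMap E E' x)‖) =
      Module.finrank E E' * ∑ φ : E →+* ℂ, Real.log (max 1 ‖φ x‖) := by
    rw [← Real.log_prod (fun φ _ => (lt_max_of_lt_left one_pos).ne'),
      ← Real.log_prod (fun φ _ => (lt_max_of_lt_left one_pos).ne'), h4, Real.log_pow]
  unfold hE
  rw [hsum]
  nlinarith

end CZ

end S_H32_CZ_Hd

section S_H32_CZ_He

set_option autoImplicit false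

namespace CZ

open Polynomial

variable {E : Type*} [Field E] [NumberField E]

/-- The absolute value `y ↦ ‖σ y‖`. -/
noncomputable def He_av {A : Type*} [NormedField A] (σ : E →+* A) : AbsoluteValue E ℝ where
  toFun y := ‖σ y‖
  map_mul' := by
    intro x y
    rw [map_mul, norm_mul]
  nonneg' := fun x => norm_nonneg _
  eq_zero' := by
    intro x
    rw [norm_eq_zero, map_eq_zero]
  add_le' := by
    intro x y
    rw [map_add]
    exact norm_add_le _ _

theorem He_av_apply {A : Type*} [NormedField A] (σ : E →+* A) (y : E) : He_av σ y = ‖σ y‖ := rfl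

theorem He_pow {a b M : ℝ} {k : ℕ} (ha : 1 < a) (h : b * a ^ (k + 1) ≤ M * a ^ k) :
    a * b ≤ M := by
  have hk : 0 < a ^ k := by
    have : 0 < a := by linarith
    positivity
  have h4 : a ^ k * (a * b) ≤ a ^ k * M := by
    rw [pow_succ] at h
    linarith
  exact le_of_mul_le_mul_left h4 hk

theorem He_root (v : AbsoluteValue E ℝ) (n : ℕ) (c : ℕ → E) (y : E) (M : ℝ)
    (h0 : ∑ j ∈ Finset.range (n + 1), c j * y ^ j = 0) (hn : 1 ≤ n)
    (hM : ∀ j ≤ n, v (c j) ≤ M) : max 1 (v y) * v (c n) ≤ n * M := by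
  have hM0 : 0 ≤ M := (v.nonneg _).trans (hM n le_rfl)
  have hn1 : (1 : ℝ) ≤ n := by exact_mod_cast hn
  rcases le_or_gt (v y) 1 with h | h
  · rw [max_eq_left h, one_mul]
    refine (hM n le_rfl).trans ?_
    nlinarith
  · rw [max_eq_right h.le]
    rw [Finset.sum_range_succ] at h0
    have h1 : c n * y ^ n = -∑ j ∈ Finset.range n, c j * y ^ j := by linear_combination h0
    have h2 : v (c n) * v y ^ n ≤ n * M * v y ^ (n - 1) := by
      rw [← v.map_pow, ← v.map_mul, h1, v.map_neg]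
      refine (v.sum_le _ _).trans ?_
      calc ∑ j ∈ Finset.range n, v (c j * y ^ j) ≤ ∑ _j ∈ Finset.range n, M * v y ^ (n - 1) := by
            refine Finset.sum_le_sum fun j hj => ?_
            rw [v.map_mul, v.map_pow]
            have := Finset.mem_range.1 hj
            exact mul_le_mul (hM j (by omega)) (pow_le_pow_right₀ h.le (by omega)) (by positivity)
              hM0
        _ = _ := by
            rw [Finset.sum_const, Finset.card_range, nsmul_eq_mul]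
            ring
    obtain ⟨k, rfl⟩ := Nat.exists_eq_succ_of_ne_zero (by omega : n ≠ 0)
    rw [Nat.succ_sub_one] at h2
    exact He_pow h h2

theorem He_rootN (v : AbsoluteValue E ℝ) (hv : IsNonarchimedean v) (n : ℕ) (c : ℕ → E) (y : E)
    (M : ℝ) (h0 : ∑ j ∈ Finset.range (n + 1), c j * y ^ j = 0) (hn : 1 ≤ n)
    (hM : ∀ j ≤ n, v (c j) ≤ M) : max 1 (v y) * v (c n) ≤ M := by
  have hM0 : 0 ≤ M := (v.nonneg _).trans (hM n le_rfl)
  rcases le_or_gt (v y) 1 with h | h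
  · rw [max_eq_left h, one_mul]
    exact hM n le_rfl
  · rw [max_eq_right h.le]
    rw [Finset.sum_range_succ] at h0
    have h1 : c n * y ^ n = -∑ j ∈ Finset.range n, c j * y ^ j := by linear_combination h0
    have hvy : 0 < v y := by linarith
    have hle : ∀ s : Finset ℕ, (∀ j ∈ s, j < n) → v (∑ j ∈ s, c j * y ^ j) ≤
        M * v y ^ (n - 1) := by
      intro s
      induction s using Finset.induction_on with
      | empty =>
        intro _
        rw [Finset.sum_empty, v.map_zero]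
        positivity
      | insert i t hi ih =>
        intro hs
        rw [Finset.sum_insert hi]
        refine (hv _ _).trans (max_le ?_ (ih fun j hj => hs j (Finset.mem_insert_of_mem hj)))
        rw [v.map_mul, v.map_pow]
        have := hs i (Finset.mem_insert_self _ _)
        exact mul_le_mul (hM i (by omega)) (pow_le_pow_right₀ h.le (by omega)) (by positivity) hM0
    have h2 : v (c n) * v y ^ n ≤ M * v y ^ (n - 1) := by
      rw [← v.map_pow, ← v.map_mul, h1, v.map_neg]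
      exact hle _ fun j hj => Finset.mem_range.1 hj
    obtain ⟨k, rfl⟩ := Nat.exists_eq_succ_of_ne_zero (by omega : n ≠ 0)
    rw [Nat.succ_sub_one] at h2
    exact He_pow h h2

theorem He_deg {k : ℕ} (F : MvPolynomial (Fin k) ℤ) (N : ℕ) (hN : F.totalDegree ≤ N) :
    ∀ m ∈ F.support, ∀ i, m i ≤ N := by
  intro m hm i
  have h1 := MvPolynomial.le_totalDegree hm
  refine le_trans ?_ (h1.trans hN)
  by_cases h : i ∈ m.support
  · exact Finset.single_le_sum (f := fun i => m i) (fun _ _ => Nat.zero_le _) h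
  · rw [Finsupp.notMem_support_iff.1 h]
    exact Nat.zero_le _

theorem He_padic {k : ℕ} (x : Fin k → E) (N : ℕ) (p : ℕ) [Fact p.Prime] :
    ∏ σ : E →+* PadicAlgCl p, ∏ i, max ‖σ (x i)‖ 1 ^ N ≤
      ‖(((∏ i, den (x i)) ^ N : ℕ) : PadicAlgCl p)‖⁻¹ := by
  rw [Finset.prod_comm]
  push_cast
  rw [norm_pow, norm_prod, ← inv_pow, ← Finset.prod_inv_distrib, ← Finset.prod_pow]
  refine Finset.prod_le_prod (fun i _ => by positivity) fun i _ => ?_
  rw [Finset.prod_pow]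
  refine pow_le_pow_left₀ (by positivity) ?_ _
  have h := (den_spec (x i)).2 p
  have h2 : ∏ σ : E →+* PadicAlgCl p, max ‖σ (x i)‖ 1 =
      ∏ σ : E →+* PadicAlgCl p, max 1 ‖σ (x i)‖ :=
    Finset.prod_congr rfl fun σ _ => max_comm _ _
  rw [h2]
  exact h

theorem hE_root_le {k : ℕ} (x : Fin k → E) (n : ℕ) (G : ℕ → MvPolynomial (Fin k) ℤ) (N : ℕ) (B : ℝ)
    (hB : 1 ≤ B) (hN : ∀ j ≤ n, (G j).totalDegree ≤ N) (hG : ∀ j ≤ n, H32.T3.nrm (G j) ≤ B) (y : E)
    (h0 : ∑ j ∈ Finset.range (n + 1), MvPolynomial.aeval x (G j) * y ^ j = 0)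
    (hn : MvPolynomial.aeval x (G n) ≠ 0) :
    hE y ≤ Module.finrank ℚ E * Real.log (n * B) + N * ∑ i, hE (x i) := by
  have hn1 : 1 ≤ n := by
    rcases Nat.eq_zero_or_pos n with h | h
    · exfalso
      subst h
      rw [Finset.sum_range_one, pow_zero, mul_one] at h0
      exact hn h0
    · exact h
  have hnR : (1 : ℝ) ≤ n := by exact_mod_cast hn1
  obtain ⟨z, hz⟩ : ∃ z, z = MvPolynomial.aeval x (G n) := ⟨_, rfl⟩
  obtain ⟨ν, hν⟩ : ∃ ν : ℚ, ν = Algebra.norm ℚ z := ⟨_, rfl⟩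
  have hz0 : z ≠ 0 := by rw [hz]; exact hn
  have hν0 : ν ≠ 0 := by rw [hν]; exact Algebra.norm_ne_zero_iff.2 hz0
  obtain ⟨A, hA⟩ : ∃ A : ℕ, A = (∏ i, den (x i)) ^ N := ⟨_, rfl⟩
  have hA0 : A ≠ 0 := by
    rw [hA]
    exact pow_ne_zero _ (Finset.prod_ne_zero_iff.2 fun i _ => (den_spec (x i)).1.ne')
  -- the p-adic estimate
  have hpad : ∀ (p : ℕ) [Fact p.Prime], ‖((A : ℕ) : PadicAlgCl p)‖ ≠ 0 ∧
      ‖(ν : PadicAlgCl p)‖ ≠ 0 ∧
      (∏ σ : E →+* PadicAlgCl p, max 1 ‖σ y‖) * ‖(ν : PadicAlgCl p)‖ ≤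
        ‖((A : ℕ) : PadicAlgCl p)‖⁻¹ := by
    intro p _
    refine ⟨?_, ?_, ?_⟩
    · rw [norm_ne_zero_iff]
      exact_mod_cast hA0
    · rw [norm_ne_zero_iff]
      exact_mod_cast hν0
    · rw [hν, ← prod_emb_padic p z, norm_prod, ← Finset.prod_mul_distrib]
      rw [hA]
      refine le_trans (Finset.prod_le_prod (fun σ _ => by positivity) fun σ _ => ?_)
        (He_padic x N p)
      have hv : IsNonarchimedean (He_av σ) := by
        intro a b
        rw [He_av_apply, He_av_apply, He_av_apply, map_add]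
        exact PadicAlgCl.isNonarchimedean p _ _
      have h1 := He_rootN (He_av σ) hv n (fun j => MvPolynomial.aeval x (G j)) y
        (∏ i, max ‖σ (x i)‖ 1 ^ N) h0 hn1 (fun j hj =>
          H32.T3.abv_aeval_le_nonarch hv x (G j) (d := fun _ => N) (He_deg (G j) N (hN j hj)))
      rw [hz]
      exact h1
  obtain ⟨n0, hn0⟩ := int_of_padic ((A : ℚ) * ν) (fun p hp => by
    obtain ⟨h1, h2, h3⟩ := hpad p
    push_cast
    rw [norm_mul]
    have h4 : ‖(ν : PadicAlgCl p)‖ ≤ ‖((A : ℕ) : PadicAlgCl p)‖⁻¹ := by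
      refine le_trans ?_ h3
      have h5 : (1 : ℝ) ≤ ∏ σ : E →+* PadicAlgCl p, max 1 ‖σ y‖ :=
        Finset.one_le_prod fun σ _ => le_max_left _ _
      have := mul_le_mul_of_nonneg_right h5 (norm_nonneg (ν : PadicAlgCl p))
      linarith
    calc ‖((A : ℕ) : PadicAlgCl p)‖ * ‖(ν : PadicAlgCl p)‖ ≤
          ‖((A : ℕ) : PadicAlgCl p)‖ * ‖((A : ℕ) : PadicAlgCl p)‖⁻¹ :=
          mul_le_mul_of_nonneg_left h4 (norm_nonneg _)
      _ = 1 := mul_inv_cancel₀ h1)
  have hn00 : n0 ≠ 0 := by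
    intro h
    rw [h, Int.cast_zero, mul_eq_zero] at hn0
    rcases hn0 with h | h
    · exact hA0 (by exact_mod_cast h)
    · exact hν0 h
  have ha0 : 0 < n0.natAbs := Int.natAbs_pos.2 hn00
  have hloc : LocBd y n0.natAbs := by
    intro p hp
    obtain ⟨h1, h2, h3⟩ := hpad p
    have hnorm : ‖((n0.natAbs : ℕ) : PadicAlgCl p)‖ = ‖((n0 : ℤ) : PadicAlgCl p)‖ := by
      rcases Int.natAbs_eq n0 with h | h
      · conv_rhs => rw [h]
        rw [Int.cast_natCast]
      · conv_rhs => rw [h]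
        rw [Int.cast_neg, norm_neg, Int.cast_natCast]
    have h4 : ((n0 : ℤ) : PadicAlgCl p) = ((A : ℕ) : PadicAlgCl p) * (ν : PadicAlgCl p) := by
      have h5 : ((((A : ℚ) * ν : ℚ)) : PadicAlgCl p) = (((n0 : ℤ) : ℚ) : PadicAlgCl p) := by
        rw [hn0]
      rw [Rat.cast_intCast] at h5
      rw [← h5]
      push_cast
      ring
    rw [hnorm, h4, norm_mul, mul_inv]
    have hνpos : 0 < ‖(ν : PadicAlgCl p)‖ := lt_of_le_of_ne (norm_nonneg _) (Ne.symm h2)
    rw [← div_eq_mul_inv, le_div_iff₀ hνpos]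
    exact h3
  have hden : den y ≤ n0.natAbs := den_le ha0 hloc
  have hdy : 0 < den y := (den_spec y).1
  -- the archimedean size
  have hνabs : |(ν : ℝ)| = ∏ φ : E →+* ℂ, ‖φ z‖ := by
    rw [← norm_prod, prod_emb_complex z, ← hν, Complex.norm_ratCast]
  have hφz : ∀ φ : E →+* ℂ, 0 < ‖φ z‖ := fun φ => norm_pos_iff.2 ((map_ne_zero φ).2 hz0)
  have hlogν : Real.log |(ν : ℝ)| = ∑ φ : E →+* ℂ, Real.log ‖φ z‖ := by
    rw [hνabs, Real.log_prod fun φ _ => (hφz φ).ne']
  have hna : ((n0.natAbs : ℕ) : ℝ) = A * |(ν : ℝ)| := by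
    have h5 : (((n0 : ℤ) : ℚ) : ℝ) = (((A : ℚ) * ν : ℚ) : ℝ) := by rw [hn0]
    push_cast at h5
    rw [Nat.cast_natAbs, Int.cast_abs, h5, abs_mul, Nat.abs_cast]
  have hAR : (0 : ℝ) < A := by exact_mod_cast Nat.pos_of_ne_zero hA0
  have hνR : (0 : ℝ) < |(ν : ℝ)| := abs_pos.2 (by exact_mod_cast hν0)
  have hlogA : Real.log (A : ℝ) = N * ∑ i, Real.log (den (x i)) := by
    rw [hA]
    push_cast
    rw [Real.log_pow, Real.log_prod fun i _ => by
      have := (den_spec (x i)).1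
      positivity]
  have hlogden : Real.log (den y) ≤ N * ∑ i, Real.log (den (x i)) +
      ∑ φ : E →+* ℂ, Real.log ‖φ z‖ := by
    rw [← hlogA, ← hlogν, ← Real.log_mul hAR.ne' hνR.ne', ← hna]
    exact Real.log_le_log (by exact_mod_cast hdy) (by exact_mod_cast hden)
  have hnB : (0 : ℝ) < n * B := by positivity
  have harch : ∀ φ : E →+* ℂ, Real.log (max 1 ‖φ y‖) + Real.log ‖φ z‖ ≤
      Real.log (n * B) + N * ∑ i, Real.log (max 1 ‖φ (x i)‖) := by
    intro φ
    have hP : 0 < ∏ i, max ‖φ (x i)‖ 1 ^ N :=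
      Finset.prod_pos fun i _ => pow_pos (lt_of_lt_of_le one_pos (le_max_right _ _)) _
    have h1 := He_root (He_av φ) n (fun j => MvPolynomial.aeval x (G j)) y
      (B * ∏ i, max ‖φ (x i)‖ 1 ^ N) h0 hn1 (fun j hj =>
        (H32.T3.abv_aeval_le (He_av φ) x (G j) (d := fun _ => N) (He_deg (G j) N (hN j hj))).trans
          (mul_le_mul_of_nonneg_right (hG j hj) hP.le))
    have h2 : max 1 ‖φ y‖ * ‖φ z‖ ≤ n * (B * ∏ i, max ‖φ (x i)‖ 1 ^ N) := by
      rw [hz]
      exact h1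
    have hm : (0 : ℝ) < max 1 ‖φ y‖ := lt_of_lt_of_le one_pos (le_max_left _ _)
    rw [← Real.log_mul hm.ne' (hφz φ).ne']
    refine (Real.log_le_log (mul_pos hm (hφz φ)) h2).trans (le_of_eq ?_)
    rw [← mul_assoc, Real.log_mul hnB.ne' hP.ne', Real.log_prod fun i _ =>
      (pow_pos (lt_of_lt_of_le one_pos (le_max_right _ _)) _).ne', Finset.mul_sum]
    congr 1
    refine Finset.sum_congr rfl fun i _ => ?_
    rw [Real.log_pow, max_comm]
  have hsum := Finset.sum_le_sum fun (φ : E →+* ℂ) (_ : φ ∈ Finset.univ) => harch φ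
  rw [Finset.sum_add_distrib, Finset.sum_add_distrib, Finset.sum_const, Finset.card_univ,
    NumberField.Embeddings.card E ℂ, nsmul_eq_mul, ← Finset.mul_sum, Finset.sum_comm] at hsum
  unfold hE
  rw [Finset.sum_add_distrib, mul_add]
  linarith

end CZ

end S_H32_CZ_He

section S_H32_CZ_Na

set_option autoImplicit false

namespace CZ

open Polynomial

section gen

variable {R : Type*} [CommRing R] (N : R → ℝ)

theorem Na_eq (h0 : N 0 = 0) (f : R[X]) {s : Finset ℕ} (hs : f.support ⊆ s) :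
    (f.sum fun _ a ↦ N a) = ∑ i ∈ s, N (f.coeff i) := by
  rw [Polynomial.sum_def]
  refine Finset.sum_subset hs fun i _ hi => ?_
  rw [Polynomial.notMem_support_iff.1 hi, h0]

theorem Na_nonneg (hp : ∀ a, 0 ≤ N a) (f : R[X]) : 0 ≤ (f.sum fun _ a ↦ N a) := by
  rw [Polynomial.sum_def]
  exact Finset.sum_nonneg fun i _ => hp _

theorem Na_add_le (h0 : N 0 = 0) (ha : ∀ a b, N (a + b) ≤ N a + N b) (f g : R[X]) :
    ((f + g).sum fun _ a ↦ N a) ≤ (f.sum fun _ a ↦ N a) + (g.sum fun _ a ↦ N a) := by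
  classical
  rw [Na_eq N h0 (f + g) (s := f.support ∪ g.support) Polynomial.support_add,
    Na_eq N h0 f (s := f.support ∪ g.support) Finset.subset_union_left,
    Na_eq N h0 g (s := f.support ∪ g.support) Finset.subset_union_right, ← Finset.sum_add_distrib]
  refine Finset.sum_le_sum fun i _ => ?_
  rw [Polynomial.coeff_add]
  exact ha _ _

theorem Na_sum_le (h0 : N 0 = 0) (ha : ∀ a b, N (a + b) ≤ N a + N b) {ι : Type*} (s : Finset ι)
    (f : ι → R[X]) :
    ((∑ i ∈ s, f i).sum fun _ a ↦ N a) ≤ ∑ i ∈ s, ((f i).sum fun _ a ↦ N a) := by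
  classical
  induction s using Finset.induction_on with
  | empty => simp
  | insert i s hi ih =>
    rw [Finset.sum_insert hi, Finset.sum_insert hi]
    exact (Na_add_le N h0 ha _ _).trans (add_le_add le_rfl ih)

theorem Na_mono_mul_le (h0 : N 0 = 0) (hm : ∀ a b, N (a * b) ≤ N a * N b) (a : R) (i : ℕ)
    (g : R[X]) : ((C a * X ^ i * g).sum fun _ a ↦ N a) ≤ N a * (g.sum fun _ a ↦ N a) := by
  classical
  have hc : ∀ n, (C a * X ^ i * g).coeff n = if i ≤ n then a * g.coeff (n - i) else 0 := by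
    intro n
    rw [mul_assoc, Polynomial.coeff_C_mul, Polynomial.coeff_X_pow_mul']
    split_ifs
    · rfl
    · rw [mul_zero]
  have hs : (C a * X ^ i * g).support ⊆ g.support.image (fun j => j + i) := by
    intro n hn
    rw [Polynomial.mem_support_iff, hc] at hn
    split_ifs at hn with hin
    · rw [Finset.mem_image]
      refine ⟨n - i, ?_, by omega⟩
      rw [Polynomial.mem_support_iff]
      intro h
      rw [h, mul_zero] at hn
      exact hn rfl
    · exact absurd rfl hn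
  rw [Na_eq N h0 _ hs, Finset.sum_image (fun x _ y _ h => Nat.add_right_cancel h),
    Polynomial.sum_def, Finset.mul_sum]
  refine Finset.sum_le_sum fun j _ => ?_
  rw [hc, if_pos (Nat.le_add_left i j), Nat.add_sub_cancel]
  exact hm _ _

theorem Na_mul_le (h0 : N 0 = 0) (ha : ∀ a b, N (a + b) ≤ N a + N b)
    (hm : ∀ a b, N (a * b) ≤ N a * N b) (f g : R[X]) :
    ((f * g).sum fun _ a ↦ N a) ≤ (f.sum fun _ a ↦ N a) * (g.sum fun _ a ↦ N a) := by
  have e : f * g = ∑ i ∈ f.support, C (f.coeff i) * X ^ i * g := by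
    rw [← Finset.sum_mul, ← Polynomial.as_sum_support_C_mul_X_pow]
  rw [e]
  refine (Na_sum_le N h0 ha _ _).trans ?_
  rw [Polynomial.sum_def f, Finset.sum_mul]
  exact Finset.sum_le_sum fun i _ => Na_mono_mul_le N h0 hm _ _ _

theorem Na_neg (hn : ∀ a, N (-a) = N a) (f : R[X]) :
    ((-f).sum fun _ a ↦ N a) = (f.sum fun _ a ↦ N a) := by
  rw [Polynomial.sum_def, Polynomial.sum_def, Polynomial.support_neg]
  refine Finset.sum_congr rfl fun i _ => ?_
  rw [Polynomial.coeff_neg, hn]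

theorem Na_sum_coeff_le (hp : ∀ a, 0 ≤ N a) (h0 : N 0 = 0) (f : R[X]) (s : Finset ℕ) :
    ∑ i ∈ s, N (f.coeff i) ≤ (f.sum fun _ a ↦ N a) := by
  classical
  rw [Na_eq N h0 f (s := f.support ∪ s) Finset.subset_union_left]
  exact Finset.sum_le_sum_of_subset_of_nonneg Finset.subset_union_right fun i _ _ => hp _

theorem Na_coeff_le (hp : ∀ a, 0 ≤ N a) (h0 : N 0 = 0) (f : R[X]) (i : ℕ) :
    N (f.coeff i) ≤ (f.sum fun _ a ↦ N a) := by
  have := Na_sum_coeff_le N hp h0 f {i}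
  rwa [Finset.sum_singleton] at this

theorem Na_le_of_coeff (h0 : N 0 = 0) {f : R[X]} {m : ℕ} {H : ℝ} (hm : f.natDegree < m)
    (h : ∀ i, N (f.coeff i) ≤ H) : (f.sum fun _ a ↦ N a) ≤ m * H := by
  rw [Na_eq N h0 f (s := Finset.range m) (Polynomial.supp_subset_range hm)]
  refine (Finset.sum_le_card_nsmul _ _ H fun i _ => h i).trans ?_
  rw [Finset.card_range, nsmul_eq_mul]

end gen

theorem Na_z0 : (fun a : ℤ => |(a : ℝ)|) 0 = 0 := by simp

theorem Na_zadd (a b : ℤ) : (fun a : ℤ => |(a : ℝ)|) (a + b) ≤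
    (fun a : ℤ => |(a : ℝ)|) a + (fun a : ℤ => |(a : ℝ)|) b := by
  show |((a + b : ℤ) : ℝ)| ≤ |(a : ℝ)| + |(b : ℝ)|
  rw [Int.cast_add]
  exact abs_add_le _ _

theorem Na_zmul (a b : ℤ) : (fun a : ℤ => |(a : ℝ)|) (a * b) ≤
    (fun a : ℤ => |(a : ℝ)|) a * (fun a : ℤ => |(a : ℝ)|) b := by
  show |((a * b : ℤ) : ℝ)| ≤ |(a : ℝ)| * |(b : ℝ)|
  rw [Int.cast_mul, abs_mul]

theorem nr_nonneg (f : ℤ[X]) : 0 ≤ nr f :=
  Na_nonneg (fun a : ℤ => |(a : ℝ)|) (fun a => abs_nonneg _) f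

theorem nr_add_le (f g : ℤ[X]) : nr (f + g) ≤ nr f + nr g :=
  Na_add_le (fun a : ℤ => |(a : ℝ)|) Na_z0 Na_zadd f g

theorem nr_sum_le {ι : Type*} (s : Finset ι) (f : ι → ℤ[X]) : nr (∑ i ∈ s, f i) ≤ ∑ i ∈ s, nr (f i) :=
  Na_sum_le (fun a : ℤ => |(a : ℝ)|) Na_z0 Na_zadd s f

theorem nr_mul_le (f g : ℤ[X]) : nr (f * g) ≤ nr f * nr g :=
  Na_mul_le (fun a : ℤ => |(a : ℝ)|) Na_z0 Na_zadd Na_zmul f g

theorem nr_neg (f : ℤ[X]) : nr (-f) = nr f :=
  Na_neg (fun a : ℤ => |(a : ℝ)|) (fun a => by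
    show |((-a : ℤ) : ℝ)| = |(a : ℝ)|
    rw [Int.cast_neg, abs_neg]) f

theorem Na_nr_zero : nr 0 = 0 := Polynomial.sum_zero_index _

theorem Na_nr_one : nr 1 = 1 := by
  have h : nr (C (1 : ℤ)) = 1 := by
    unfold nr
    rw [Polynomial.sum_C_index (by simp)]
    simp
  rwa [Polynomial.C_1] at h

theorem nr_prod_le {ι : Type*} (s : Finset ι) (f : ι → ℤ[X]) : nr (∏ i ∈ s, f i) ≤ ∏ i ∈ s, nr (f i) := by
  classical
  induction s using Finset.induction_on with
  | empty =>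
    rw [Finset.prod_empty, Finset.prod_empty, Na_nr_one]
  | insert i s hi ih =>
    rw [Finset.prod_insert hi, Finset.prod_insert hi]
    exact (nr_mul_le _ _).trans (mul_le_mul_of_nonneg_left ih (nr_nonneg _))

theorem abs_coeff_le_nr (f : ℤ[X]) (i : ℕ) : |(f.coeff i : ℝ)| ≤ nr f :=
  Na_coeff_le (fun a : ℤ => |(a : ℝ)|) (fun a => abs_nonneg _) Na_z0 f i

theorem one_le_nr {f : ℤ[X]} (hf : f ≠ 0) : 1 ≤ nr f := by
  refine le_trans ?_ (abs_coeff_le_nr f f.natDegree)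
  have h1 : f.coeff f.natDegree ≠ 0 := by
    rw [Polynomial.coeff_natDegree]
    exact Polynomial.leadingCoeff_ne_zero.2 hf
  have h2 := Int.one_le_abs h1
  have h3 : ((1 : ℤ) : ℝ) ≤ ((|f.coeff f.natDegree| : ℤ) : ℝ) := by exact_mod_cast h2
  rwa [Int.cast_one, Int.cast_abs] at h3

theorem nr_le_of_coeff {f : ℤ[X]} {m : ℕ} {H : ℝ} (hm : f.natDegree < m)
    (h : ∀ i, |(f.coeff i : ℝ)| ≤ H) : nr f ≤ m * H :=
  Na_le_of_coeff (fun a : ℤ => |(a : ℝ)|) Na_z0 hm h

theorem nr2_nonneg (P : ℤ[X][X]) : 0 ≤ nr2 P :=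
  Na_nonneg nr nr_nonneg P

theorem nr2_add_le (P Q : ℤ[X][X]) : nr2 (P + Q) ≤ nr2 P + nr2 Q :=
  Na_add_le nr Na_nr_zero nr_add_le P Q

theorem nr2_sum_le {ι : Type*} (s : Finset ι) (P : ι → ℤ[X][X]) :
    nr2 (∑ i ∈ s, P i) ≤ ∑ i ∈ s, nr2 (P i) :=
  Na_sum_le nr Na_nr_zero nr_add_le s P

theorem nr2_mul_le (P Q : ℤ[X][X]) : nr2 (P * Q) ≤ nr2 P * nr2 Q :=
  Na_mul_le nr Na_nr_zero nr_add_le nr_mul_le P Q

theorem nr2_neg (P : ℤ[X][X]) : nr2 (-P) = nr2 P :=
  Na_neg nr nr_neg P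

theorem nr_coeff_le_nr2 (P : ℤ[X][X]) (j : ℕ) : nr (P.coeff j) ≤ nr2 P :=
  Na_coeff_le nr nr_nonneg Na_nr_zero P j

theorem one_le_nr2 {P : ℤ[X][X]} (hP : P ≠ 0) : 1 ≤ nr2 P := by
  refine le_trans ?_ (nr_coeff_le_nr2 P P.natDegree)
  apply one_le_nr
  rw [Polynomial.coeff_natDegree]
  exact Polynomial.leadingCoeff_ne_zero.2 hP

/-- The sum of `nr` of finitely many distinct coefficients. -/
theorem sum_nr_coeff_le_nr2 (P : ℤ[X][X]) (s : Finset ℕ) : ∑ j ∈ s, nr (P.coeff j) ≤ nr2 P :=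
  Na_sum_coeff_le nr nr_nonneg Na_nr_zero P s

theorem nr2_le_of_coeff {P : ℤ[X][X]} {m a : ℕ} {H : ℝ} (ha : P.natDegree < a)
    (hm : ∀ j, (P.coeff j).natDegree < m) (h : ∀ j i, |((P.coeff j).coeff i : ℝ)| ≤ H) :
    nr2 P ≤ m * a * H := by
  have h1 : nr2 P ≤ a * (m * H) :=
    Na_le_of_coeff nr Na_nr_zero ha (fun j => nr_le_of_coeff (hm j) (h j))
  refine h1.trans (le_of_eq ?_)
  ring

theorem norm_aeval_le (f : ℤ[X]) (x : ℂ) (B : ℝ) (hB : 1 ≤ B) (hx : ‖x‖ ≤ B) :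
    ‖aeval x f‖ ≤ nr f * B ^ f.natDegree := by
  rw [Polynomial.aeval_eq_sum_range]
  refine (norm_sum_le _ _).trans ?_
  have e : nr f = ∑ i ∈ Finset.range (f.natDegree + 1), |(f.coeff i : ℝ)| :=
    Na_eq (fun a : ℤ => |(a : ℝ)|) Na_z0 f (Polynomial.supp_subset_range (Nat.lt_succ_self _))
  rw [e, Finset.sum_mul]
  refine Finset.sum_le_sum fun i hi => ?_
  have hi' : i ≤ f.natDegree := Nat.lt_succ_iff.1 (Finset.mem_range.1 hi)
  have h1 : ‖f.coeff i • x ^ i‖ = |(f.coeff i : ℝ)| * ‖x‖ ^ i := by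
    rw [zsmul_eq_mul, norm_mul, norm_pow, Complex.norm_intCast]
  rw [h1]
  refine mul_le_mul_of_nonneg_left ?_ (abs_nonneg _)
  exact (pow_le_pow_left₀ (norm_nonneg _) hx i).trans (pow_le_pow_right₀ hB hi')

end CZ

end S_H32_CZ_Na

section S_H32_CZ_Nb

set_option autoImplicit false

namespace CZ

open Polynomial

theorem coeff_le_dX (P : ℤ[X][X]) (j : ℕ) : (P.coeff j).natDegree ≤ dX P := by
  by_cases h : j ∈ P.support
  · exact Finset.le_sup (f := fun j ↦ (P.coeff j).natDegree) h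
  · rw [notMem_support_iff.1 h]
    simp

theorem Nb_coeff_swap (P : ℤ[X][X]) (i j : ℕ) :
    ((Bivariate.swap P).coeff i).coeff j = (P.coeff j).coeff i := by
  induction P using Polynomial.induction_on' with
  | add p q hp hq => rw [map_add, coeff_add, coeff_add, hp, hq, coeff_add, coeff_add]
  | monomial n a =>
    induction a using Polynomial.induction_on' with
    | add p q hp hq =>
      rw [map_add, map_add, coeff_add, coeff_add, hp, hq, coeff_add, coeff_add]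
    | monomial m r =>
      rw [Bivariate.swap_monomial_monomial, coeff_monomial, coeff_monomial]
      split_ifs with h1 h2 h2
      · rw [coeff_monomial, coeff_monomial, if_pos h1, if_pos h2]
      · rw [coeff_monomial, if_neg h2, coeff_zero]
      · rw [coeff_monomial, if_neg h1, coeff_zero]
      · rfl

theorem dX_le_iff {P : ℤ[X][X]} {m : ℕ} : dX P ≤ m ↔ ∀ j, (P.coeff j).natDegree ≤ m := by
  exact ⟨fun h j => (coeff_le_dX P j).trans h, fun h => Finset.sup_le fun j _ => h j⟩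

theorem Nb_natDegree_swap (P : ℤ[X][X]) : (Bivariate.swap P).natDegree = dX P := by
  apply le_antisymm
  · rw [natDegree_le_iff_coeff_eq_zero]
    intro N hN
    ext j
    rw [Nb_coeff_swap, coeff_zero]
    exact coeff_eq_zero_of_natDegree_lt ((coeff_le_dX P j).trans_lt hN)
  · rw [dX_le_iff]
    intro j
    rw [natDegree_le_iff_coeff_eq_zero]
    intro N hN
    rw [← Nb_coeff_swap, coeff_eq_zero_of_natDegree_lt hN, coeff_zero]

theorem dX_mul {P Q : ℤ[X][X]} (hP : P ≠ 0) (hQ : Q ≠ 0) : dX (P * Q) = dX P + dX Q := by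
  rw [← Nb_natDegree_swap, ← Nb_natDegree_swap P, ← Nb_natDegree_swap Q, map_mul]
  exact natDegree_mul ((map_ne_zero_iff _ Bivariate.swap.injective).mpr hP)
    ((map_ne_zero_iff _ Bivariate.swap.injective).mpr hQ)

theorem dX_multiset_prod (s : Multiset ℤ[X][X]) (hs : ∀ A ∈ s, A ≠ 0) :
    dX s.prod = (s.map dX).sum := by
  induction s using Multiset.induction_on with
  | empty =>
    rw [Multiset.prod_zero, Multiset.map_zero, Multiset.sum_zero, ← Nb_natDegree_swap, map_one,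
      natDegree_one]
  | cons a s ih =>
    have h0 : s.prod ≠ 0 := Multiset.prod_ne_zero fun h => hs 0 (Multiset.mem_cons_of_mem h) rfl
    rw [Multiset.prod_cons, Multiset.map_cons, Multiset.sum_cons,
      dX_mul (hs a (Multiset.mem_cons_self a s)) h0, ih fun A hA => hs A (Multiset.mem_cons_of_mem hA)]

theorem natDegree_le_dT (P : ℤ[X][X]) : P.natDegree ≤ dT P := by
  by_cases hP : P = 0
  · rw [hP]
    simp
  · have h := Finset.le_sup (f := fun j ↦ j + (P.coeff j).natDegree) (natDegree_mem_support_of_nonzero hP)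
    exact (Nat.le_add_right _ _).trans h

theorem dX_le_dT (P : ℤ[X][X]) : dX P ≤ dT P := by
  refine Finset.sup_le fun j hj => ?_
  have h := Finset.le_sup (f := fun j ↦ j + (P.coeff j).natDegree) hj
  exact (Nat.le_add_left _ _).trans h

theorem dT_le (P : ℤ[X][X]) : dT P ≤ P.natDegree + dX P := by
  exact Finset.sup_le fun j hj => Nat.add_le_add (le_natDegree_of_mem_supp j hj) (coeff_le_dX P j)

theorem mu2_nonneg (P : ℤ[X][X]) : 0 ≤ mu2 P := by
  have h : 0 ≤ Real.log (nr2 P) := by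
    by_cases hP : P = 0
    · have h0 : nr2 P = 0 := by
        rw [hP]
        unfold nr2
        simp
      rw [h0, Real.log_zero]
    · exact Real.log_nonneg (one_le_nr2 hP)
  unfold mu2
  positivity

theorem natDegree_swap (P : ℤ[X][X]) : (Bivariate.swap P).natDegree = dX P := by
  exact Nb_natDegree_swap P

theorem dX_swap (P : ℤ[X][X]) : dX (Bivariate.swap P) = P.natDegree := by
  rw [← natDegree_swap, Bivariate.swap_swap_apply]

theorem Nb_nr {f : ℤ[X]} {b : ℕ} (h : f.natDegree < b) :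
    nr f = ∑ i ∈ Finset.range b, |(f.coeff i : ℝ)| := by
  unfold nr
  exact sum_over_range' f (by simp) b h

theorem Nb_nr2 {P : ℤ[X][X]} {a b : ℕ} (ha : P.natDegree < a) (hb : ∀ j, (P.coeff j).natDegree < b) :
    nr2 P = ∑ j ∈ Finset.range a, ∑ i ∈ Finset.range b, |((P.coeff j).coeff i : ℝ)| := by
  unfold nr2
  rw [sum_over_range' P (fun _ => by unfold nr; simp) a ha]
  exact Finset.sum_congr rfl fun j _ => Nb_nr (hb j)

theorem nr2_swap (P : ℤ[X][X]) : nr2 (Bivariate.swap P) = nr2 P := by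
  have h1 : (Bivariate.swap P).natDegree < dX P + 1 := by rw [natDegree_swap]; omega
  have h2 : ∀ j, ((Bivariate.swap P).coeff j).natDegree < P.natDegree + 1 := fun j => by
    have := coeff_le_dX (Bivariate.swap P) j
    rw [dX_swap] at this
    omega
  have h3 : ∀ j, (P.coeff j).natDegree < dX P + 1 := fun j => Nat.lt_succ_of_le (coeff_le_dX P j)
  rw [Nb_nr2 h1 h2, Nb_nr2 (Nat.lt_succ_self _) h3, Finset.sum_comm]
  refine Finset.sum_congr rfl fun j _ => Finset.sum_congr rfl fun i _ => ?_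
  rw [Nb_coeff_swap]

theorem Nb_evH_mon {A : Type*} [CommRing A] (x y : A) (n m : ℕ) (r : ℤ) :
    evH x y (monomial n (monomial m r)) = (r : A) * x ^ m * y ^ n := by
  unfold evH
  rw [coe_eval₂RingHom, eval₂_monomial, coe_eval₂RingHom, eval₂_monomial]
  simp

theorem evH_swap {A : Type*} [CommRing A] (x y : A) (P : ℤ[X][X]) :
    evH y x (Bivariate.swap P) = evH x y P := by
  induction P using Polynomial.induction_on' with
  | add p q hp hq => rw [map_add, map_add, map_add, hp, hq]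
  | monomial n a =>
    induction a using Polynomial.induction_on' with
    | add p q hp hq => rw [map_add, map_add, map_add, map_add, hp, hq]
    | monomial m r =>
      rw [Bivariate.swap_monomial_monomial, Nb_evH_mon, Nb_evH_mon]
      ring

theorem evH_eq {A : Type*} [CommRing A] (x y : A) (P : ℤ[X][X]) :
    evH x y P = ∑ j ∈ Finset.range (P.natDegree + 1), aeval x (P.coeff j) * y ^ j := by
  unfold evH
  rw [coe_eval₂RingHom, eval₂_eq_sum_range]
  refine Finset.sum_congr rfl fun j _ => ?_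
  rw [coe_eval₂RingHom, aeval_def, algebraMap_int_eq]

/-- `evH x y P` is the value at `y` of the polynomial `P` with `x` substituted. -/
theorem evH_eval {A : Type*} [CommRing A] (x y : A) (P : ℤ[X][X]) :
    evH x y P = (P.map (eval₂RingHom (Int.castRingHom A) x)).eval y := by
  unfold evH
  rw [eval_map, coe_eval₂RingHom]

theorem map_evH {A B : Type*} [CommRing A] [CommRing B] (φ : A →+* B) (x y : A) (P : ℤ[X][X]) :
    φ (evH x y P) = evH (φ x) (φ y) P := by
  rw [evH_eq, evH_eq, map_sum]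
  refine Finset.sum_congr rfl fun j _ => ?_
  rw [map_mul, map_pow]
  have h := aeval_algHom_apply φ.toIntAlgHom x (P.coeff j)
  have h' : aeval (φ x) (P.coeff j) = φ (aeval x (P.coeff j)) := h
  rw [h']

theorem norm_evH_le (P : ℤ[X][X]) (x y : ℂ) (B : ℝ) (hB : 1 ≤ B) (hx : ‖x‖ ≤ B) (hy : ‖y‖ ≤ B) :
    ‖evH x y P‖ ≤ nr2 P * B ^ (dX P + P.natDegree) := by
  rw [evH_eq]
  have hB0 : 0 ≤ B := by linarith
  calc ‖∑ j ∈ Finset.range (P.natDegree + 1), aeval x (P.coeff j) * y ^ j‖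
      ≤ ∑ j ∈ Finset.range (P.natDegree + 1), ‖aeval x (P.coeff j) * y ^ j‖ := norm_sum_le _ _
    _ ≤ ∑ j ∈ Finset.range (P.natDegree + 1), nr (P.coeff j) * B ^ (dX P + P.natDegree) := by
        refine Finset.sum_le_sum fun j hj => ?_
        have hj' : j ≤ P.natDegree := Nat.lt_succ_iff.1 (Finset.mem_range.1 hj)
        rw [norm_mul, norm_pow]
        have h1 := norm_aeval_le (P.coeff j) x B hB hx
        have h2 : ‖y‖ ^ j ≤ B ^ j := pow_le_pow_left₀ (norm_nonneg _) hy j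
        have h3 := nr_nonneg (P.coeff j)
        calc ‖aeval x (P.coeff j)‖ * ‖y‖ ^ j
            ≤ (nr (P.coeff j) * B ^ (P.coeff j).natDegree) * B ^ j :=
              mul_le_mul h1 h2 (by positivity) (by positivity)
          _ = nr (P.coeff j) * B ^ ((P.coeff j).natDegree + j) := by rw [pow_add]; ring
          _ ≤ nr (P.coeff j) * B ^ (dX P + P.natDegree) :=
              mul_le_mul_of_nonneg_left (pow_le_pow_right₀ hB (Nat.add_le_add (coeff_le_dX P j) hj')) h3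
    _ = (∑ j ∈ Finset.range (P.natDegree + 1), nr (P.coeff j)) * B ^ (dX P + P.natDegree) := by
        rw [Finset.sum_mul]
    _ ≤ nr2 P * B ^ (dX P + P.natDegree) :=
        mul_le_mul_of_nonneg_right (sum_nr_coeff_le_nr2 P _) (by positivity)

open MvPolynomial in
theorem Nb_mv_coeff (a b : ℕ) (c : ℕ → ℕ → ℚ) (j0 i0 : ℕ) (hj : j0 < a) (hi : i0 < b) :
    MvPolynomial.coeff (Finsupp.single (0 : Fin 2) i0 + Finsupp.single (1 : Fin 2) j0)
      (∑ j ∈ Finset.range a, ∑ i ∈ Finset.range b,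
        MvPolynomial.monomial (Finsupp.single (0 : Fin 2) i + Finsupp.single (1 : Fin 2) j) (c j i)) =
      c j0 i0 := by
  have hinj : ∀ i j : ℕ, (Finsupp.single (0 : Fin 2) i + Finsupp.single (1 : Fin 2) j =
      Finsupp.single (0 : Fin 2) i0 + Finsupp.single (1 : Fin 2) j0) → i = i0 ∧ j = j0 := by
    intro i j h
    have h0 := DFunLike.congr_fun h (0 : Fin 2)
    have h1 := DFunLike.congr_fun h (1 : Fin 2)
    simp at h0 h1
    exact ⟨h0, h1⟩
  rw [MvPolynomial.coeff_sum, Finset.sum_eq_single j0, MvPolynomial.coeff_sum, Finset.sum_eq_single i0,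
    MvPolynomial.coeff_monomial, if_pos rfl]
  · intro i _ hne
    rw [MvPolynomial.coeff_monomial, if_neg]
    exact fun h => hne (hinj i j0 h).1
  · intro h
    exact absurd (Finset.mem_range.2 hi) h
  · intro j _ hne
    rw [MvPolynomial.coeff_sum]
    refine Finset.sum_eq_zero fun i _ => ?_
    rw [MvPolynomial.coeff_monomial, if_neg]
    exact fun h => hne (hinj i j h).2
  · intro h
    exact absurd (Finset.mem_range.2 hj) h

theorem Nb_mv_aeval (θ1 θ2 : ℂ) (i j : ℕ) (c : ℚ) :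
    MvPolynomial.aeval ![θ1, θ2]
      (MvPolynomial.monomial (Finsupp.single (0 : Fin 2) i + Finsupp.single (1 : Fin 2) j) c) =
      (c : ℂ) * θ1 ^ i * θ2 ^ j := by
  rw [MvPolynomial.aeval_monomial, Finsupp.prod_add_index' (fun _ => pow_zero _) (fun _ _ _ => pow_add _ _ _)]
  simp [Finsupp.prod_single_index, mul_assoc]

/-- Algebraic independence of `θ1, θ2` in terms of `evH`. -/
theorem evH_ne_zero {θ1 θ2 : ℂ} (hθ : AlgebraicIndependent ℚ ![θ1, θ2]) {P : ℤ[X][X]}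
    (hP : P ≠ 0) : evH θ1 θ2 P ≠ 0 := by
  intro h0
  apply hP
  have hb : ∀ j, (P.coeff j).natDegree < dX P + 1 := fun j => Nat.lt_succ_of_le (coeff_le_dX P j)
  have e1 : MvPolynomial.aeval ![θ1, θ2]
      (∑ j ∈ Finset.range (P.natDegree + 1), ∑ i ∈ Finset.range (dX P + 1),
        MvPolynomial.monomial (Finsupp.single (0 : Fin 2) i + Finsupp.single (1 : Fin 2) j)
          (((P.coeff j).coeff i : ℤ) : ℚ)) = evH θ1 θ2 P := by
    rw [evH_eq, map_sum]
    refine Finset.sum_congr rfl fun j _ => ?_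
    rw [map_sum, aeval_eq_sum_range' (hb j), Finset.sum_mul]
    refine Finset.sum_congr rfl fun i _ => ?_
    rw [Nb_mv_aeval]
    simp
  have e2 : (∑ j ∈ Finset.range (P.natDegree + 1), ∑ i ∈ Finset.range (dX P + 1),
        MvPolynomial.monomial (Finsupp.single (0 : Fin 2) i + Finsupp.single (1 : Fin 2) j)
          (((P.coeff j).coeff i : ℤ) : ℚ)) = 0 := by
    apply hθ
    rw [e1, h0, map_zero]
  ext j i
  rw [coeff_zero, coeff_zero]
  by_cases hj : j < P.natDegree + 1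
  · by_cases hi : i < dX P + 1
    · have h := Nb_mv_coeff (P.natDegree + 1) (dX P + 1) (fun j i => (((P.coeff j).coeff i : ℤ) : ℚ)) j i hj hi
      rw [e2, MvPolynomial.coeff_zero] at h
      exact_mod_cast h.symm
    · exact coeff_eq_zero_of_natDegree_lt ((hb j).trans_le (not_lt.1 hi))
  · rw [coeff_eq_zero_of_natDegree_lt (show P.natDegree < j by omega), coeff_zero]

end CZ

end S_H32_CZ_Nb

section S_H32_CZ_Pe

set_option autoImplicit false

namespace CZ

open Polynomial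

/-- The image of the inner variable. -/
noncomputable def Pe_p (k : ℤ) : ℤ[X][X] := C X - C (C k) * X

/-- The shear on constants. -/
noncomputable def Pe_s (k : ℤ) : ℤ[X] →+* ℤ[X][X] :=
  eval₂RingHom (Int.castRingHom ℤ[X][X]) (Pe_p k)

theorem Pe_cast (a : ℤ) : Int.castRingHom ℤ[X][X] a = C (C a) :=
  RingHom.congr_fun (RingHom.ext_int (Int.castRingHom ℤ[X][X]) ((C : ℤ[X] →+* ℤ[X][X]).comp C)) a

theorem Pe_shr_C (k : ℤ) (f : ℤ[X]) : shr k (C f) = Pe_s k f := by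
  change eval₂ _ _ (C f) = _
  rw [eval₂_C]
  rfl

theorem Pe_shr_X (k : ℤ) : shr k X = X := by
  change eval₂ _ _ X = _
  rw [eval₂_X]

theorem Pe_shr_CX (k : ℤ) : shr k (C X) = C X - C (C k) * X := by
  rw [Pe_shr_C]
  change eval₂ _ _ X = _
  rw [eval₂_X]
  rfl

theorem Pe_shr_CC (k a : ℤ) : shr k (C (C a)) = C (C a) := by
  rw [Pe_shr_C]
  change eval₂ _ _ (C a) = _
  rw [eval₂_C, Pe_cast]

theorem Pe_evH_X {A : Type*} [CommRing A] (x y : A) : evH x y X = y := by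
  change eval₂ _ _ X = _
  rw [eval₂_X]

theorem Pe_evH_CX {A : Type*} [CommRing A] (x y : A) : evH x y (C X) = x := by
  change eval₂ _ _ (C X) = _
  rw [eval₂_C]
  change eval₂ _ _ X = _
  rw [eval₂_X]

theorem Pe_evH_CC {A : Type*} [CommRing A] (x y : A) (a : ℤ) : evH x y (C (C a)) = (a : A) := by
  change eval₂ _ _ (C (C a)) = _
  rw [eval₂_C]
  change eval₂ _ _ (C a) = _
  rw [eval₂_C]
  rfl

theorem Pe_ext {A : Type*} [CommRing A] (f g : ℤ[X][X] →+* A) (h1 : f X = g X)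
    (h2 : f (C X) = g (C X)) : f = g := by
  refine Polynomial.ringHom_ext' ?_ h1
  refine Polynomial.ringHom_ext' ?_ h2
  exact RingHom.ext_int _ _

theorem evH_shr {A : Type*} [CommRing A] (k : ℤ) (x y : A) (P : ℤ[X][X]) :
    evH (x + k * y) y (shr k P) = evH x y P := by
  have h : (evH (x + k * y) y).comp (shr k) = evH x y := by
    refine Pe_ext _ _ ?_ ?_
    · rw [RingHom.comp_apply, Pe_shr_X, Pe_evH_X, Pe_evH_X]
    · rw [RingHom.comp_apply, Pe_shr_CX, map_sub, map_mul, Pe_evH_CX, Pe_evH_CC, Pe_evH_X,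
        Pe_evH_CX]
      ring
  exact RingHom.congr_fun h P

theorem shr_shr (k : ℤ) (P : ℤ[X][X]) : shr (-k) (shr k P) = P := by
  have h : (shr (-k)).comp (shr k) = RingHom.id _ := by
    refine Pe_ext _ _ ?_ ?_
    · rw [RingHom.comp_apply, Pe_shr_X, Pe_shr_X]
      rfl
    · rw [RingHom.comp_apply, Pe_shr_CX, map_sub, map_mul, Pe_shr_CX, Pe_shr_CC, Pe_shr_X]
      rw [C_neg, C_neg]
      change _ = C X
      ring
  exact RingHom.congr_fun h P

/-- The shear as an automorphism. -/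
noncomputable def shrE (k : ℤ) : ℤ[X][X] ≃+* ℤ[X][X] :=
  RingEquiv.ofRingHom (shr k) (shr (-k))
    (RingHom.ext fun P ↦ by simpa using shr_shr (-k) P) (RingHom.ext fun P ↦ shr_shr k P)

theorem Pe_s_sum (k : ℤ) (f : ℤ[X]) :
    Pe_s k f = ∑ i ∈ f.support, C (C (f.coeff i)) * Pe_p k ^ i := by
  change eval₂ _ _ f = _
  rw [eval₂_eq_sum, Polynomial.sum]
  refine Finset.sum_congr rfl fun i _ => ?_
  rw [Pe_cast]

theorem Pe_shr_sum (k : ℤ) (P : ℤ[X][X]) :
    shr k P = ∑ j ∈ P.support, Pe_s k (P.coeff j) * X ^ j := by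
  change eval₂ _ _ P = _
  rw [eval₂_eq_sum, Polynomial.sum]
  rfl

theorem Pe_p_natDegree (k : ℤ) : (Pe_p k).natDegree ≤ 1 := by
  unfold Pe_p
  refine (natDegree_sub_le _ _).trans ?_
  rw [natDegree_C]
  refine max_le (Nat.zero_le _) ?_
  exact (natDegree_C_mul_le _ _).trans natDegree_X_le

theorem Pe_pow_natDegree (k : ℤ) (i : ℕ) : (Pe_p k ^ i).natDegree ≤ i := by
  refine natDegree_pow_le.trans ?_
  calc i * (Pe_p k).natDegree ≤ i * 1 := Nat.mul_le_mul_left _ (Pe_p_natDegree k)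
    _ = i := mul_one _

theorem Pe_s_natDegree (k : ℤ) (f : ℤ[X]) : (Pe_s k f).natDegree ≤ f.natDegree := by
  rw [Pe_s_sum]
  refine natDegree_sum_le_of_forall_le _ _ fun i hi => ?_
  refine (natDegree_C_mul_le _ _).trans ?_
  exact (Pe_pow_natDegree k i).trans (le_natDegree_of_mem_supp i hi)

theorem natDegree_shr_le (k : ℤ) (P : ℤ[X][X]) : (shr k P).natDegree ≤ dT P := by
  rw [Pe_shr_sum]
  refine natDegree_sum_le_of_forall_le _ _ fun j hj => ?_
  refine natDegree_mul_le.trans ?_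
  rw [natDegree_X_pow]
  refine (Nat.add_le_add_right (Pe_s_natDegree k (P.coeff j)) j).trans ?_
  rw [add_comm]
  exact Finset.le_sup (f := fun j => j + (P.coeff j).natDegree) hj

theorem Pe_dX_mul_le (P Q : ℤ[X][X]) : dX (P * Q) ≤ dX P + dX Q := by
  rcases eq_or_ne P 0 with h | h
  · rw [h, zero_mul]
    have : dX (0 : ℤ[X][X]) = 0 := by simp [dX]
    rw [this]
    exact Nat.zero_le _
  · rcases eq_or_ne Q 0 with h' | h'
    · rw [h', mul_zero]
      have : dX (0 : ℤ[X][X]) = 0 := by simp [dX]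
      rw [this]
      exact Nat.zero_le _
    · exact (dX_mul h h').le

theorem Pe_dX_sum_le {ι : Type*} (s : Finset ι) (P : ι → ℤ[X][X]) (m : ℕ)
    (h : ∀ i ∈ s, dX (P i) ≤ m) : dX (∑ i ∈ s, P i) ≤ m := by
  rw [dX_le_iff]
  intro j
  rw [finsetSum_coeff]
  exact natDegree_sum_le_of_forall_le _ _ fun i hi => (coeff_le_dX _ _).trans (h i hi)

theorem Pe_dX_C (f : ℤ[X]) : dX (C f) ≤ f.natDegree := by
  rw [dX_le_iff]
  intro j
  rw [coeff_C]
  split_ifs
  · exact le_rfl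
  · rw [natDegree_zero]
    exact Nat.zero_le _

theorem Pe_dX_X_pow (j : ℕ) : dX (X ^ j : ℤ[X][X]) = 0 := by
  rw [← Nat.le_zero, dX_le_iff]
  intro i
  rw [coeff_X_pow]
  split_ifs
  · simp
  · simp

theorem Pe_dX_p (k : ℤ) : dX (Pe_p k) ≤ 1 := by
  rw [dX_le_iff]
  intro j
  unfold Pe_p
  rw [coeff_sub, coeff_C, coeff_C_mul, coeff_X]
  refine (natDegree_sub_le _ _).trans ?_
  refine max_le ?_ ?_
  · split_ifs
    · exact natDegree_X_le
    · simp
  · split_ifs
    · simp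
    · simp

theorem Pe_dX_pow (k : ℤ) (i : ℕ) : dX (Pe_p k ^ i) ≤ i := by
  induction i with
  | zero =>
    rw [pow_zero, ← C_1]
    exact (Pe_dX_C 1).trans (by simp)
  | succ n ih =>
    rw [pow_succ]
    exact (Pe_dX_mul_le _ _).trans (Nat.add_le_add ih (Pe_dX_p k))

theorem Pe_dX_s (k : ℤ) (f : ℤ[X]) : dX (Pe_s k f) ≤ f.natDegree := by
  rw [Pe_s_sum]
  refine Pe_dX_sum_le _ _ _ fun i hi => ?_
  refine (Pe_dX_mul_le _ _).trans ?_
  have h1 := Pe_dX_C (C (f.coeff i))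
  rw [natDegree_C] at h1
  have h2 := Pe_dX_pow k i
  have h3 := le_natDegree_of_mem_supp i hi
  omega

theorem dX_shr_le (k : ℤ) (P : ℤ[X][X]) : dX (shr k P) ≤ dX P := by
  rw [Pe_shr_sum]
  refine Pe_dX_sum_le _ _ _ fun j _ => ?_
  refine (Pe_dX_mul_le _ _).trans ?_
  rw [Pe_dX_X_pow, add_zero]
  exact (Pe_dX_s k _).trans (coeff_le_dX P j)

theorem Pe_nr_C (a : ℤ) : nr (C a) = |(a : ℝ)| := by
  unfold nr
  rw [sum_C_index (by simp)]

theorem Pe_nr2_C (f : ℤ[X]) : nr2 (C f) = nr f := by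
  unfold nr2
  rw [sum_C_index]
  unfold nr
  rw [sum_zero_index]

theorem Pe_nr_X : nr X = 1 := by
  unfold nr
  rw [sum_X_index (by simp)]
  simp

theorem Pe_nr_one : nr (1 : ℤ[X]) = 1 := by
  rw [← C_1, Pe_nr_C]
  simp

theorem Pe_nr_zero : nr (0 : ℤ[X]) = 0 := by
  unfold nr
  rw [sum_zero_index]

theorem Pe_nr2_X : nr2 X = 1 := by
  unfold nr2
  rw [sum_X_index Pe_nr_zero, Pe_nr_one]

theorem Pe_nr2_one : nr2 (1 : ℤ[X][X]) = 1 := by
  rw [← C_1, Pe_nr2_C, Pe_nr_one]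

theorem Pe_nr2_pow (P : ℤ[X][X]) (i : ℕ) : nr2 (P ^ i) ≤ nr2 P ^ i := by
  induction i with
  | zero => rw [pow_zero, pow_zero, Pe_nr2_one]
  | succ n ih =>
    rw [pow_succ, pow_succ]
    exact (nr2_mul_le _ _).trans (mul_le_mul_of_nonneg_right ih (nr2_nonneg _))

theorem Pe_nr2_p (k : ℤ) : nr2 (Pe_p k) ≤ 1 + |(k : ℝ)| := by
  unfold Pe_p
  rw [sub_eq_add_neg]
  refine (nr2_add_le _ _).trans ?_
  rw [Pe_nr2_C, Pe_nr_X, nr2_neg]
  refine add_le_add_right ?_ _
  refine (nr2_mul_le _ _).trans ?_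
  rw [Pe_nr2_C, Pe_nr_C, Pe_nr2_X, mul_one]

theorem Pe_nr2_s (k : ℤ) (f : ℤ[X]) : nr2 (Pe_s k f) ≤ (1 + |(k : ℝ)|) ^ f.natDegree * nr f := by
  have hk : (1 : ℝ) ≤ 1 + |(k : ℝ)| := by linarith [abs_nonneg (k : ℝ)]
  rw [Pe_s_sum]
  refine (nr2_sum_le _ _).trans ?_
  unfold nr
  rw [Polynomial.sum, Finset.mul_sum]
  refine Finset.sum_le_sum fun i hi => ?_
  refine (nr2_mul_le _ _).trans ?_
  rw [Pe_nr2_C, Pe_nr_C, mul_comm]
  refine mul_le_mul_of_nonneg_right ?_ (abs_nonneg _)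
  refine (Pe_nr2_pow _ _).trans ?_
  refine (pow_le_pow_left₀ (nr2_nonneg _) (Pe_nr2_p k) i).trans ?_
  exact pow_le_pow_right₀ hk (le_natDegree_of_mem_supp i hi)

theorem nr2_shr_le (k : ℤ) (P : ℤ[X][X]) : nr2 (shr k P) ≤ (1 + |(k : ℝ)|) ^ dX P * nr2 P := by
  have hk : (1 : ℝ) ≤ 1 + |(k : ℝ)| := by linarith [abs_nonneg (k : ℝ)]
  have h0 : nr2 P = ∑ j ∈ P.support, nr (P.coeff j) := rfl
  rw [Pe_shr_sum, h0, Finset.mul_sum]
  refine (nr2_sum_le _ _).trans (Finset.sum_le_sum fun j _ => ?_)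
  refine (nr2_mul_le _ _).trans ?_
  have h1 : nr2 (X ^ j : ℤ[X][X]) ≤ 1 := by
    refine (Pe_nr2_pow _ _).trans ?_
    rw [Pe_nr2_X, one_pow]
  refine (mul_le_mul_of_nonneg_left h1 (nr2_nonneg _)).trans ?_
  rw [mul_one]
  refine (Pe_nr2_s k _).trans ?_
  exact mul_le_mul_of_nonneg_right (pow_le_pow_right₀ hk (coeff_le_dX P j)) (nr_nonneg _)

theorem Pe_pow_coeff (k : ℤ) (m : ℕ) : (Pe_p k ^ m).coeff m = C ((-k) ^ m) := by
  have h := coeff_pow_of_natDegree_le (m := m) (Pe_p_natDegree k)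
  rw [mul_one] at h
  rw [h]
  have h1 : (Pe_p k).coeff 1 = C (-k) := by
    unfold Pe_p
    rw [coeff_sub, coeff_C, if_neg one_ne_zero, coeff_C_mul, coeff_X_one, mul_one, zero_sub, C_neg]
  rw [h1, C_pow]

theorem Pe_s_coeff (k : ℤ) (f : ℤ[X]) (m : ℕ) (hm : f.natDegree ≤ m) :
    (Pe_s k f).coeff m = C (f.coeff m * (-k) ^ m) := by
  rw [Pe_s_sum, finsetSum_coeff]
  have h1 : ∀ i ∈ f.support, i ≠ m → (C (C (f.coeff i)) * Pe_p k ^ i).coeff m = 0 := by
    intro i hi hne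
    have h2 : i ≤ m := (le_natDegree_of_mem_supp i hi).trans hm
    refine coeff_eq_zero_of_natDegree_lt ?_
    refine (natDegree_C_mul_le _ _).trans_lt ?_
    exact (Pe_pow_natDegree k i).trans_lt (lt_of_le_of_ne h2 hne)
  rw [Finset.sum_eq_single m h1 ?_]
  · rw [coeff_C_mul, Pe_pow_coeff, C_mul]
  · intro hm'
    rw [notMem_support_iff.1 hm', C_0, C_0, zero_mul, coeff_zero]

theorem shr_lead (A : ℤ[X][X]) (hA : A ≠ 0) :
    ∃ Bad : Finset ℤ, Bad.card ≤ dT A ∧ ∀ k ∉ Bad, (shr k A).natDegree = dT A ∧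
      ∃ c : ℤ, c ≠ 0 ∧ (shr k A).leadingCoeff = C c := by
  classical
  set d := dT A with hd
  let t : ℤ[X] := ∑ j ∈ A.support, C ((A.coeff j).coeff (d - j)) * X ^ (d - j)
  have hle : ∀ j ∈ A.support, j + (A.coeff j).natDegree ≤ d := fun j hj =>
    Finset.le_sup (f := fun j => j + (A.coeff j).natDegree) hj
  have htd : t.natDegree ≤ d := by
    refine natDegree_sum_le_of_forall_le _ _ fun j _ => ?_
    refine (natDegree_C_mul_X_pow_le _ _).trans (Nat.sub_le _ _)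
  have hcoef : ∀ k : ℤ, (shr k A).coeff d = C (t.eval (-k)) := by
    intro k
    rw [Pe_shr_sum, finsetSum_coeff, eval_finsetSum, map_sum]
    refine Finset.sum_congr rfl fun j hj => ?_
    have h1 := hle j hj
    rw [coeff_mul_X_pow', if_pos (by omega), Pe_s_coeff k _ _ (by omega), eval_mul, eval_C,
      eval_pow, eval_X]
  have ht : t ≠ 0 := by
    have hne : A.support.Nonempty := support_nonempty.2 hA
    obtain ⟨j, hj, hjd⟩ := Finset.exists_mem_eq_sup A.support hne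
      (fun j => j + (A.coeff j).natDegree)
    have hjd' : j + (A.coeff j).natDegree = d := hjd.symm
    intro h0
    have h1 : t.coeff (d - j) = (A.coeff j).coeff (d - j) := by
      rw [finsetSum_coeff, Finset.sum_eq_single j]
      · rw [coeff_C_mul_X_pow, if_pos rfl]
      · intro i hi hne'
        rw [coeff_C_mul_X_pow, if_neg]
        have h2 := hle i hi
        have h3 := hle j hj
        omega
      · intro h
        exact absurd hj h
    rw [h0, coeff_zero] at h1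
    have h2 : d - j = (A.coeff j).natDegree := by omega
    rw [h2] at h1
    have h3 : A.coeff j ≠ 0 := mem_support_iff.1 hj
    exact h3 (leadingCoeff_eq_zero.1 h1.symm)
  refine ⟨t.roots.toFinset.image (fun z => -z), ?_, ?_⟩
  · refine Finset.card_image_le.trans ?_
    refine (Multiset.toFinset_card_le _).trans ?_
    exact (card_roots' t).trans htd
  · intro k hk
    have h1 : t.eval (-k) ≠ 0 := by
      intro h
      apply hk
      rw [Finset.mem_image]
      refine ⟨-k, ?_, neg_neg k⟩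
      rw [Multiset.mem_toFinset, mem_roots ht]
      exact h
    have h2 : (shr k A).coeff d ≠ 0 := by
      rw [hcoef, Ne, C_eq_zero]
      exact h1
    have h3 : (shr k A).natDegree = d :=
      le_antisymm (natDegree_shr_le k A) (le_natDegree_of_ne_zero h2)
    refine ⟨h3, t.eval (-k), h1, ?_⟩
    rw [leadingCoeff, h3, hcoef]

end CZ

end S_H32_CZ_Pe

section S_H32_CZ_Pf

set_option autoImplicit false

namespace CZ

open Polynomial

theorem natDegree_det_le {n : ℕ} (M : Matrix (Fin n) (Fin n) ℤ[X]) (b : Fin n → ℕ)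
    (h : ∀ i j, (M i j).natDegree ≤ b j) : M.det.natDegree ≤ ∑ j, b j := by
  rw [Matrix.det_apply]
  refine natDegree_sum_le_of_forall_le _ _ (fun σ _ => ?_)
  have h1 : (∏ i, M (σ i) i).natDegree ≤ ∑ j, b j :=
    (natDegree_prod_le _ _).trans (Finset.sum_le_sum fun i _ => h (σ i) i)
  rcases Int.units_eq_one_or (Equiv.Perm.sign σ) with hs | hs
  · rw [hs, one_smul]
    exact h1
  · rw [hs, Units.neg_smul, one_smul, natDegree_neg]
    exact h1

theorem nr_det_le {n : ℕ} (M : Matrix (Fin n) (Fin n) ℤ[X]) : nr M.det ≤ ∏ j, ∑ i, nr (M i j) := by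
  classical
  rw [Matrix.det_apply]
  refine (nr_sum_le _ _).trans ?_
  have h1 : ∀ σ : Equiv.Perm (Fin n), nr (Equiv.Perm.sign σ • ∏ i, M (σ i) i) ≤
      ∏ i, nr (M (σ i) i) := by
    intro σ
    rcases Int.units_eq_one_or (Equiv.Perm.sign σ) with hs | hs
    · rw [hs, one_smul]
      exact nr_prod_le _ _
    · rw [hs, Units.neg_smul, one_smul, nr_neg]
      exact nr_prod_le _ _
  refine (Finset.sum_le_sum fun σ _ => h1 σ).trans ?_
  rw [Finset.prod_univ_sum]
  have h2 : ∑ σ : Equiv.Perm (Fin n), ∏ i, nr (M (σ i) i) =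
      ∑ p ∈ (Finset.univ : Finset (Equiv.Perm (Fin n))).image
          (fun σ : Equiv.Perm (Fin n) => (σ : Fin n → Fin n)),
        ∏ i, nr (M (p i) i) := by
    rw [Finset.sum_image]
    intro σ _ τ _ h
    exact DFunLike.coe_injective h
  rw [h2]
  refine Finset.sum_le_sum_of_subset_of_nonneg ?_ ?_
  · intro p _
    rw [Fintype.mem_piFinset]
    intro i
    exact Finset.mem_univ _
  · intro p _ _
    exact Finset.prod_nonneg fun i _ => nr_nonneg _

lemma pf_nr_zero : nr (0 : ℤ[X]) = 0 := by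
  unfold nr
  simp

lemma pf_col (h : ℤ[X][X]) (a k N : ℕ) :
    ∑ i : Fin N, nr (if (i : ℕ) ∈ Set.Icc a (a + k) then h.coeff (i - a) else 0) ≤ nr2 h := by
  classical
  have h1 : ∀ i : Fin N, nr (if (i : ℕ) ∈ Set.Icc a (a + k) then h.coeff (i - a) else 0) =
      if a ≤ (i : ℕ) ∧ (i : ℕ) ≤ a + k then nr (h.coeff (i - a)) else 0 := by
    intro i
    by_cases hi : (i : ℕ) ∈ Set.Icc a (a + k)
    · rw [if_pos hi, if_pos (Set.mem_Icc.1 hi)]
    · rw [if_neg hi, if_neg (fun h' => hi (Set.mem_Icc.2 h')), pf_nr_zero]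
  rw [Finset.sum_congr rfl (fun i _ => h1 i), ← Finset.sum_filter]
  have h2 : ∑ i ∈ (Finset.univ : Finset (Fin N)).filter
      (fun i : Fin N => a ≤ (i : ℕ) ∧ (i : ℕ) ≤ a + k), nr (h.coeff ((i : ℕ) - a)) =
      ∑ j ∈ ((Finset.univ : Finset (Fin N)).filter
      (fun i : Fin N => a ≤ (i : ℕ) ∧ (i : ℕ) ≤ a + k)).image (fun i : Fin N => (i : ℕ) - a),
        nr (h.coeff j) := by
    rw [Finset.sum_image]
    intro i hi j hj hij
    have hi' := (Finset.mem_filter.1 (Finset.mem_coe.1 hi)).2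
    have hj' := (Finset.mem_filter.1 (Finset.mem_coe.1 hj)).2
    have hij' : (i : ℕ) - a = (j : ℕ) - a := hij
    apply Fin.ext
    omega
  rw [h2]
  exact sum_nr_coeff_le_nr2 h _

theorem nr_resultant_le (f g : ℤ[X][X]) (m n : ℕ) :
    nr (resultant f g m n) ≤ nr2 f ^ n * nr2 g ^ m := by
  unfold resultant
  refine (nr_det_le _).trans ?_
  rw [Fin.prod_univ_add, mul_comm]
  refine mul_le_mul ?_ ?_ ?_ (pow_nonneg (nr2_nonneg f) n)
  · calc ∏ j : Fin n, ∑ i, nr (sylvester f g m n i (Fin.natAdd m j))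
        ≤ ∏ _j : Fin n, nr2 f := by
          refine Finset.prod_le_prod (fun j _ => Finset.sum_nonneg fun i _ => nr_nonneg _)
            (fun j _ => ?_)
          refine le_trans (le_of_eq ?_) (pf_col f j m (m + n))
          refine Finset.sum_congr rfl (fun i _ => ?_)
          simp [sylvester]
      _ = nr2 f ^ n := by
          rw [Finset.prod_const, Finset.card_univ, Fintype.card_fin]
  · calc ∏ j : Fin m, ∑ i, nr (sylvester f g m n i (Fin.castAdd n j))
        ≤ ∏ _j : Fin m, nr2 g := by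
          refine Finset.prod_le_prod (fun j _ => Finset.sum_nonneg fun i _ => nr_nonneg _)
            (fun j _ => ?_)
          refine le_trans (le_of_eq ?_) (pf_col g j n (m + n))
          refine Finset.sum_congr rfl (fun i _ => ?_)
          simp [sylvester]
      _ = nr2 g ^ m := by
          rw [Finset.prod_const, Finset.card_univ, Fintype.card_fin]
  · exact Finset.prod_nonneg fun j _ => Finset.sum_nonneg fun i _ => nr_nonneg _

theorem natDegree_resultant_le (f g : ℤ[X][X]) (m n : ℕ) :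
    (resultant f g m n).natDegree ≤ n * dX f + m * dX g := by
  unfold resultant
  have h := natDegree_det_le (sylvester f g m n)
    (fun j => j.addCases (fun _ => dX g) (fun _ => dX f)) (by
      intro i j
      refine j.addCases (fun j₁ => ?_) (fun j₁ => ?_)
      · simp only [sylvester, Matrix.of_apply, Fin.addCases_left]
        split_ifs
        · exact coeff_le_dX g _
        · rw [natDegree_zero]
          exact Nat.zero_le _
      · simp only [sylvester, Matrix.of_apply, Fin.addCases_right]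
        split_ifs
        · exact coeff_le_dX f _
        · rw [natDegree_zero]
          exact Nat.zero_le _)
  refine h.trans (le_of_eq ?_)
  rw [Fin.sum_univ_add]
  simp only [Fin.addCases_left, Fin.addCases_right, Finset.sum_const, Finset.card_univ,
    Fintype.card_fin, smul_eq_mul]
  ring

end CZ

end S_H32_CZ_Pf
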