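import Mathlib

/-! Modular Schanuel with derivatives for points algebraic over a field with good approximations, part 10: this file joins several modules to save build time. -/

section S_H32_T3_Theta

namespace H32.T3

open Complex Filter Topology Finset

/-- Half of the theta product. -/
noncomputable def AA (p x : ℂ) : ℂ := ∏' n : ℕ, (1 + -(p ^ (2 * n + 1) * x))

lemma summable_pow_aux {p : ℂ} (hp : ‖p‖ < 1) (x : ℂ) :
    HasSum (fun n : ℕ ↦ ‖-(p ^ (2 * n + 1) * x)‖) (‖p‖ * ‖x‖ / (1 - ‖p‖ ^ 2)) := by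
  have h : (fun n : ℕ ↦ ‖-(p ^ (2 * n + 1) * x)‖) = fun n : ℕ ↦ (‖p‖ * ‖x‖) * (‖p‖ ^ 2) ^ n := by
    ext n
    rw [norm_neg, norm_mul, norm_pow]
    ring
  rw [h, div_eq_mul_inv]
  refine (hasSum_geometric_of_lt_one (by positivity) ?_).mul_left _
  have := norm_nonneg p
  nlinarith

lemma multipliable_AA {p : ℂ} (hp : ‖p‖ < 1) (x : ℂ) :
    Multipliable fun n : ℕ ↦ (1 + -(p ^ (2 * n + 1) * x)) :=
  multipliable_one_add_of_summable (summable_pow_aux hp x).summable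

lemma mlu_AA {p : ℂ} (hp : ‖p‖ < 1) (R : ℝ) :
    MultipliableLocallyUniformlyOn (fun (n : ℕ) (x : ℂ) ↦ 1 + -(p ^ (2 * n + 1) * x))
      (Metric.ball (0 : ℂ) R) := by
  refine Summable.multipliableLocallyUniformlyOn_nat_one_add
    (f := fun (n : ℕ) (x : ℂ) ↦ -(p ^ (2 * n + 1) * x)) Metric.isOpen_ball
    (summable_pow_aux hp R).summable ?_ ?_
  · refine Filter.Eventually.of_forall fun n x hx ↦ ?_
    rw [mem_ball_zero_iff] at hx
    rw [norm_neg, norm_neg, norm_mul, norm_mul]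
    have h1 : ‖x‖ ≤ ‖(R : ℂ)‖ := by
      rw [Complex.norm_real]
      exact hx.le.trans (le_abs_self _)
    gcongr
  · intro n
    fun_prop

lemma differentiable_AA {p : ℂ} (hp : ‖p‖ < 1) : Differentiable ℂ (AA p) := by
  intro x
  have h := (mlu_AA hp (‖x‖ + 1)).hasProdLocallyUniformlyOn.differentiableOn
    (.of_forall fun _ ↦ by simpa [Finset.prod_fn] using
      DifferentiableOn.finsetProd (fun _ _ ↦ by fun_prop)) Metric.isOpen_ball
  have hx : x ∈ Metric.ball (0 : ℂ) (‖x‖ + 1) := by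
    rw [mem_ball_zero_iff]; linarith
  exact (h x hx).differentiableAt (Metric.isOpen_ball.mem_nhds hx)

lemma AA_succ {p : ℂ} (hp : ‖p‖ < 1) (x : ℂ) : AA p x = (1 - p * x) * AA p (p ^ 2 * x) := by
  have h1 : (fun n : ℕ ↦ 1 + -(p ^ (2 * (n + 1) + 1) * x)) =
      fun n : ℕ ↦ 1 + -(p ^ (2 * n + 1) * (p ^ 2 * x)) := by
    ext n; ring
  have h2 : Multipliable fun n : ℕ ↦ 1 + -(p ^ (2 * (n + 1) + 1) * x) := by
    rw [h1]; exact multipliable_AA hp (p ^ 2 * x)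
  rw [AA, tprod_eq_zero_mul' h2, AA, h1]
  congr 1
  ring

lemma AA_iter {p : ℂ} (hp : ‖p‖ < 1) (x : ℂ) (M : ℕ) :
    AA p x = (∏ n ∈ range M, (1 - p ^ (2 * n + 1) * x)) * AA p (p ^ (2 * M) * x) := by
  induction M with
  | zero => simp
  | succ M ih =>
    rw [ih, prod_range_succ, mul_assoc, AA_succ hp]
    congr 2
    · ring_nf
    · congr 1; ring

lemma AA_sub_one {p : ℂ} (hp : ‖p‖ < 1) (x : ℂ) :
    ‖AA p x - 1‖ ≤ Real.exp (‖p‖ * ‖x‖ / (1 - ‖p‖ ^ 2)) - 1 := by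
  have h1 := (multipliable_AA hp x).hasProd
  have h2 : Tendsto (fun s : Finset ℕ ↦ ‖∏ n ∈ s, (1 + -(p ^ (2 * n + 1) * x)) - 1‖) atTop
      (𝓝 ‖AA p x - 1‖) := ((h1.sub_const 1).norm)
  refine le_of_tendsto h2 (.of_forall fun s ↦ ?_)
  refine (Finset.norm_prod_one_add_sub_one_le s _).trans ?_
  have h3 := summable_pow_aux hp x
  have h4 := h3.summable.sum_le_tsum s (fun _ _ ↦ norm_nonneg _)
  rw [h3.tsum_eq] at h4
  gcongr

lemma AA_ne_zero {p : ℂ} (hp : ‖p‖ < 1) {x : ℂ} (hx : ‖p * x‖ < 1) : AA p x ≠ 0 := by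
  refine tprod_one_add_ne_zero_of_summable (fun n h ↦ ?_) (summable_pow_aux hp x).summable
  have h1 : ‖p ^ (2 * n + 1) * x‖ < 1 := by
    calc ‖p ^ (2 * n + 1) * x‖ = ‖p‖ ^ (2 * n) * ‖p * x‖ := by
          rw [norm_mul, norm_pow, norm_mul]; ring
      _ ≤ 1 * ‖p * x‖ := by
          gcongr
          exact pow_le_one₀ (norm_nonneg _) hp.le
      _ < 1 := by rwa [one_mul]
  have h2 : p ^ (2 * n + 1) * x = 1 := by linear_combination -h
  rw [h2, norm_one] at h1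
  exact lt_irrefl _ h1

/-- Upper bound. -/
lemma AA_le {p : ℂ} {r : ℝ} (hr : r < 1) (hp : ‖p‖ ≤ r) {x : ℂ} {M : ℕ}
    (hx : ‖p‖ ^ (2 * M) * ‖x‖ ≤ 1) :
    ‖AA p x‖ ≤ (1 + ‖x‖) ^ M * Real.exp (r / (1 - r ^ 2)) := by
  have hp1 : ‖p‖ < 1 := hp.trans_lt hr
  have hr0 : 0 ≤ r := (norm_nonneg p).trans hp
  rw [AA_iter hp1 x M, norm_mul]
  have h1 : ‖∏ n ∈ range M, (1 - p ^ (2 * n + 1) * x)‖ ≤ (1 + ‖x‖) ^ M := by
    rw [norm_prod]
    calc ∏ n ∈ range M, ‖1 - p ^ (2 * n + 1) * x‖ ≤ ∏ _n ∈ range M, (1 + ‖x‖) := by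
          refine prod_le_prod (fun _ _ ↦ norm_nonneg _) fun n _ ↦ ?_
          refine (norm_sub_le _ _).trans ?_
          rw [norm_one, norm_mul, norm_pow]
          have : ‖p‖ ^ (2 * n + 1) ≤ 1 := pow_le_one₀ (norm_nonneg _) hp1.le
          have h0 := norm_nonneg x
          nlinarith
      _ = _ := by simp
  have h2 : ‖AA p (p ^ (2 * M) * x)‖ ≤ Real.exp (r / (1 - r ^ 2)) := by
    have h3 := AA_sub_one hp1 (p ^ (2 * M) * x)
    have h4 : ‖AA p (p ^ (2 * M) * x)‖ ≤ ‖AA p (p ^ (2 * M) * x) - 1‖ + 1 := by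
      have := norm_add_le (AA p (p ^ (2 * M) * x) - 1) 1
      rw [sub_add_cancel, norm_one] at this
      exact this
    refine h4.trans ?_
    have h5 : ‖p‖ * ‖p ^ (2 * M) * x‖ / (1 - ‖p‖ ^ 2) ≤ r / (1 - r ^ 2) := by
      rw [norm_mul, norm_pow]
      have h6 : 0 < 1 - r ^ 2 := by nlinarith
      have h7 : ‖p‖ ^ 2 ≤ r ^ 2 := by gcongr
      have h8 := norm_nonneg p
      apply div_le_div₀ hr0 _ h6 (by linarith)
      calc ‖p‖ * (‖p‖ ^ (2 * M) * ‖x‖) ≤ ‖p‖ * 1 := by gcongr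
        _ ≤ r := by linarith
    have h6 := Real.exp_le_exp.mpr h5
    linarith
  gcongr

/-- Lower bound. -/
lemma AA_ge {r ρ : ℝ} (hr : r < 1) (hr0 : 0 ≤ r) (hρ0 : 0 ≤ ρ) (hρ : r * ρ < 1) :
    ∃ c : ℝ, 0 < c ∧ ∀ p x : ℂ, ‖p‖ ≤ r → ‖x‖ ≤ ρ → c ≤ ‖AA p x‖ := by
  have h6 : 0 < 1 - r ^ 2 := by nlinarith
  -- the tail
  obtain ⟨M, hM⟩ : ∃ M : ℕ, r * ((r ^ 2) ^ M * ρ) / (1 - r ^ 2) ≤ Real.log (3 / 2) := by
    have h1 : Tendsto (fun M : ℕ ↦ r * ((r ^ 2) ^ M * ρ) / (1 - r ^ 2)) atTop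
        (𝓝 (r * (0 * ρ) / (1 - r ^ 2))) := by
      have := tendsto_pow_atTop_nhds_zero_of_lt_one (r := r ^ 2) (by positivity) (by nlinarith)
      exact (((this.mul_const ρ).const_mul r).div_const _)
    rw [zero_mul, mul_zero, zero_div] at h1
    have h2 : 0 < Real.log (3 / 2) := Real.log_pos (by norm_num)
    exact (h1.eventually_le_const h2).exists
  refine ⟨(1 - r * ρ) ^ M * (1 / 2), by have : 0 < 1 - r * ρ := by linarith
                                        positivity, fun p x hp hx ↦ ?_⟩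
  have hp1 : ‖p‖ < 1 := hp.trans_lt hr
  rw [AA_iter hp1 x M, norm_mul]
  have h0 : 0 < 1 - r * ρ := by linarith
  have h1 : (1 - r * ρ) ^ M ≤ ‖∏ n ∈ range M, (1 - p ^ (2 * n + 1) * x)‖ := by
    rw [norm_prod]
    calc (1 - r * ρ) ^ M = ∏ _n ∈ range M, (1 - r * ρ) := by simp
      _ ≤ _ := by
        refine prod_le_prod (fun _ _ ↦ h0.le) fun n _ ↦ ?_
        have h2 := norm_sub_norm_le 1 (p ^ (2 * n + 1) * x)
        rw [norm_one] at h2
        have h3 : ‖p ^ (2 * n + 1) * x‖ ≤ r * ρ := by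
          rw [norm_mul, norm_pow, pow_succ]
          have h4 : ‖p‖ ^ (2 * n) ≤ 1 := pow_le_one₀ (norm_nonneg _) hp1.le
          calc ‖p‖ ^ (2 * n) * ‖p‖ * ‖x‖ ≤ 1 * r * ρ := by gcongr
            _ = _ := by rw [one_mul]
        linarith
  have h2 : 1 / 2 ≤ ‖AA p (p ^ (2 * M) * x)‖ := by
    have h3 := AA_sub_one hp1 (p ^ (2 * M) * x)
    have h4 : 1 - ‖AA p (p ^ (2 * M) * x) - 1‖ ≤ ‖AA p (p ^ (2 * M) * x)‖ := by
      have := norm_sub_norm_le (1 : ℂ) (1 - AA p (p ^ (2 * M) * x))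
      rw [norm_one, sub_sub_cancel, norm_sub_rev] at this
      exact this
    have h5 : ‖p‖ * ‖p ^ (2 * M) * x‖ / (1 - ‖p‖ ^ 2) ≤ Real.log (3 / 2) := by
      refine le_trans ?_ hM
      rw [norm_mul, norm_pow, pow_mul]
      have h7 : ‖p‖ ^ 2 ≤ r ^ 2 := by gcongr
      have h8 := norm_nonneg p
      apply div_le_div₀ (by positivity) _ h6 (by linarith)
      gcongr
    have h6 := Real.exp_le_exp.mpr h5
    rw [Real.exp_log (by norm_num)] at h6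
    linarith
  gcongr

/-- The logarithmic derivative. -/
lemma logDeriv_AA {p : ℂ} (hp : ‖p‖ < 1) {x : ℂ} (hx : ‖p * x‖ < 1) :
    logDeriv (AA p) x = ∑' n : ℕ, -(p ^ (2 * n + 1) / (1 - p ^ (2 * n + 1) * x)) := by
  have hx' : x ∈ Metric.ball (0 : ℂ) (‖x‖ + 1) := by
    rw [mem_ball_zero_iff]; linarith
  have hlt : ∀ n : ℕ, ‖p ^ (2 * n + 1) * x‖ ≤ ‖p * x‖ := fun n ↦ by
    calc ‖p ^ (2 * n + 1) * x‖ = ‖p‖ ^ (2 * n) * ‖p * x‖ := by
          rw [norm_mul, norm_pow, norm_mul]; ring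
      _ ≤ 1 * ‖p * x‖ := by
          gcongr
          exact pow_le_one₀ (norm_nonneg _) hp.le
      _ = _ := one_mul _
  have hge : ∀ n : ℕ, 1 - ‖p * x‖ ≤ ‖1 - p ^ (2 * n + 1) * x‖ := fun n ↦ by
    have h2 := norm_sub_norm_le 1 (p ^ (2 * n + 1) * x)
    rw [norm_one] at h2
    have := hlt n
    linarith
  have hld : ∀ n : ℕ, logDeriv (fun x : ℂ ↦ 1 + -(p ^ (2 * n + 1) * x)) x =
      -(p ^ (2 * n + 1) / (1 - p ^ (2 * n + 1) * x)) := by
    intro n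
    rw [logDeriv_apply]
    have : deriv (fun x : ℂ ↦ 1 + -(p ^ (2 * n + 1) * x)) x = -(p ^ (2 * n + 1)) := by
      have h := ((hasDerivAt_id x).const_mul (p ^ (2 * n + 1))).neg.const_add 1
      simp only [mul_one] at h
      exact h.deriv
    rw [this, neg_div, sub_eq_add_neg]
  have hsum : Summable fun n : ℕ ↦ -(p ^ (2 * n + 1) / (1 - p ^ (2 * n + 1) * x)) := by
    refine Summable.of_norm_bounded (g := fun n : ℕ ↦ ‖-(p ^ (2 * n + 1) * 1)‖ / (1 - ‖p * x‖))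
      ((summable_pow_aux hp 1).summable.div_const _) fun n ↦ ?_
    rw [norm_neg, norm_neg, mul_one, norm_div]
    have := hge n
    gcongr
  have key := logDeriv_tprod_eq_tsum (s := Metric.ball (0 : ℂ) (‖x‖ + 1)) Metric.isOpen_ball hx'
    (f := fun (n : ℕ) (x : ℂ) ↦ 1 + -(p ^ (2 * n + 1) * x)) ?_ ?_ ?_ (mlu_AA hp _) ?_
  · change logDeriv (AA p) x = _ at key
    rw [key]
    exact tsum_congr hld
  · intro n h
    have h1 := hge n
    rw [sub_eq_add_neg (1 : ℂ), h, norm_zero] at h1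
    linarith
  · intro n; fun_prop
  · simp_rw [hld]; exact hsum
  · exact AA_ne_zero hp hx

end H32.T3

end S_H32_T3_Theta

section S_H32_T3_Theta2

namespace H32.T3

open Complex Filter Topology Finset

/-- The theta product. -/
noncomputable def th (p w : ℂ) : ℂ := AA p w * AA p w⁻¹

/-- The derivation `d / ds` for `w = exp (2 π i s)`. -/
noncomputable def Dw (f : ℂ → ℂ) (w : ℂ) : ℂ := 2 * Real.pi * I * w * deriv f w

noncomputable def th1 (p : ℂ) : ℂ → ℂ := Dw (th p)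

noncomputable def th2 (p : ℂ) : ℂ → ℂ := Dw (th1 p)

lemma isOpen_U : IsOpen ({0}ᶜ : Set ℂ) := isOpen_compl_singleton

lemma mem_U {w : ℂ} : w ∈ ({0}ᶜ : Set ℂ) ↔ w ≠ 0 := by simp

lemma diff_th {p : ℂ} (hp : ‖p‖ < 1) : DifferentiableOn ℂ (th p) {0}ᶜ := by
  intro w hw
  have h1 := differentiable_AA hp w
  have h2 : DifferentiableAt ℂ (fun w ↦ AA p w⁻¹) w :=
    (differentiable_AA hp w⁻¹).comp w (differentiableAt_inv (mem_U.mp hw))
  exact (h1.mul h2).differentiableWithinAt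

lemma diff_Dw {f : ℂ → ℂ} (hf : DifferentiableOn ℂ f {0}ᶜ) : DifferentiableOn ℂ (Dw f) {0}ᶜ := by
  have h := hf.deriv isOpen_U
  unfold Dw
  fun_prop

lemma diff_th1 {p : ℂ} (hp : ‖p‖ < 1) : DifferentiableOn ℂ (th1 p) {0}ᶜ := diff_Dw (diff_th hp)

lemma diff_th2 {p : ℂ} (hp : ‖p‖ < 1) : DifferentiableOn ℂ (th2 p) {0}ᶜ := diff_Dw (diff_th1 hp)

lemma th_q {p : ℂ} (hp : ‖p‖ < 1) (hp0 : p ≠ 0) {w : ℂ} (hw : w ≠ 0) :
    th p (p ^ 2 * w) = -(p * w)⁻¹ * th p w := by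
  rw [th, th, AA_succ hp w, AA_succ hp (p ^ 2 * w)⁻¹]
  have e : p ^ 2 * (p ^ 2 * w)⁻¹ = w⁻¹ := by field_simp
  rw [e]
  field_simp
  ring

lemma Dw_q {p : ℂ} (hp0 : p ≠ 0) {f g : ℂ → ℂ} (hf : DifferentiableOn ℂ f {0}ᶜ)
    (hg : DifferentiableOn ℂ g {0}ᶜ) (h : ∀ w ≠ 0, f (p ^ 2 * w) = -(p * w)⁻¹ * g w)
    {w : ℂ} (hw : w ≠ 0) :
    Dw f (p ^ 2 * w) = -(p * w)⁻¹ * (Dw g w - 2 * Real.pi * I * g w) := by
  have hpw : p ^ 2 * w ≠ 0 := mul_ne_zero (pow_ne_zero _ hp0) hw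
  have h1 : HasDerivAt f (deriv f (p ^ 2 * w)) (p ^ 2 * w) :=
    ((hf _ hpw).differentiableAt (isOpen_U.mem_nhds hpw)).hasDerivAt
  have h2 : HasDerivAt (fun w ↦ f (p ^ 2 * w)) (deriv f (p ^ 2 * w) * (p ^ 2 * 1)) w :=
    h1.comp w ((hasDerivAt_id w).const_mul (p ^ 2))
  have h3 : HasDerivAt g (deriv g w) w :=
    ((hg _ hw).differentiableAt (isOpen_U.mem_nhds hw)).hasDerivAt
  have h4 : HasDerivAt (fun w ↦ -(p * w)⁻¹ * g w)
      (-(-(p * 1) / (p * w) ^ 2) * g w + -(p * w)⁻¹ * deriv g w) w :=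
    ((((hasDerivAt_id w).const_mul p).fun_inv (mul_ne_zero hp0 hw)).fun_neg).mul h3
  have h5 : (fun w ↦ f (p ^ 2 * w)) =ᶠ[𝓝 w] fun w ↦ -(p * w)⁻¹ * g w := by
    filter_upwards [isOpen_U.mem_nhds hw] with v hv using h v hv
  have h6 := h2.unique (h4.congr_of_eventuallyEq h5)
  have h7 : p ^ 2 * deriv f (p ^ 2 * w) = (p * w ^ 2)⁻¹ * g w - (p * w)⁻¹ * deriv g w := by
    rw [mul_one] at h6
    rw [mul_comm, h6]
    field_simp
    ring
  rw [Dw, Dw]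
  have h8 : 2 * Real.pi * I * (p ^ 2 * w) * deriv f (p ^ 2 * w) =
      2 * Real.pi * I * w * (p ^ 2 * deriv f (p ^ 2 * w)) := by ring
  rw [h8, h7]
  field_simp
  ring

lemma th1_q {p : ℂ} (hp : ‖p‖ < 1) (hp0 : p ≠ 0) {w : ℂ} (hw : w ≠ 0) :
    th1 p (p ^ 2 * w) = -(p * w)⁻¹ * (th1 p w - 2 * Real.pi * I * th p w) :=
  Dw_q hp0 (diff_th hp) (diff_th hp) (fun _ hw ↦ th_q hp hp0 hw) hw

lemma th2_q {p : ℂ} (hp : ‖p‖ < 1) (hp0 : p ≠ 0) {w : ℂ} (hw : w ≠ 0) :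
    th2 p (p ^ 2 * w) = -(p * w)⁻¹ *
      (th2 p w - 2 * (2 * Real.pi * I) * th1 p w + (2 * Real.pi * I) ^ 2 * th p w) := by
  have hd : DifferentiableOn ℂ (fun w ↦ th1 p w - 2 * Real.pi * I * th p w) {0}ᶜ :=
    (diff_th1 hp).sub ((diff_th hp).const_mul _)
  have h := Dw_q hp0 (diff_th1 hp) hd (fun _ hw ↦ th1_q hp hp0 hw) hw
  have e : Dw (fun w ↦ th1 p w - 2 * Real.pi * I * th p w) w =
      th2 p w - 2 * Real.pi * I * th1 p w := by
    have h1 : HasDerivAt (th1 p) (deriv (th1 p) w) w :=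
      ((diff_th1 hp _ hw).differentiableAt (isOpen_U.mem_nhds hw)).hasDerivAt
    have h2 : HasDerivAt (th p) (deriv (th p) w) w :=
      ((diff_th hp _ hw).differentiableAt (isOpen_U.mem_nhds hw)).hasDerivAt
    have h3 := (h1.fun_sub (h2.const_mul (2 * Real.pi * I))).deriv
    rw [Dw, h3, th2, th1, Dw, Dw]
    ring
  rw [e] at h
  change th2 p (p ^ 2 * w) = _ at h
  rw [h]
  ring

/-- The closed annulus. -/
def Ann (p : ℂ) (M : ℕ) : Set ℂ := {w | ‖p‖ ^ (2 * M) ≤ ‖w‖ ∧ ‖w‖ * ‖p‖ ^ (2 * M) ≤ 1}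

lemma Ann_ne_zero {p : ℂ} (hp0 : p ≠ 0) {M : ℕ} {w : ℂ} (hw : w ∈ Ann p M) : w ≠ 0 := by
  rintro rfl
  have h1 := hw.1
  rw [norm_zero] at h1
  have h2 : 0 < ‖p‖ ^ (2 * M) := by
    have := norm_pos_iff.mpr hp0
    positivity
  linarith

lemma th_le {p : ℂ} {r c : ℝ} (hr : r < 1) (hp : ‖p‖ ≤ r) (hc : 1 ≤ c)
    (hpc : Real.exp (-c) ≤ ‖p‖) {M : ℕ} {w : ℂ} (hw : w ∈ Ann p M) :
    ‖th p w‖ ≤ Real.exp ((4 * c + 2 + 2 * r / (1 - r ^ 2)) * (M + 1) ^ 2) := by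
  have hp0 : 0 < ‖p‖ := (Real.exp_pos _).trans_le hpc
  have hpn : p ≠ 0 := norm_pos_iff.mp hp0
  have hr0 : 0 ≤ r := hp0.le.trans hp
  have hw0 := Ann_ne_zero hpn hw
  have hwn : 0 < ‖w‖ := norm_pos_iff.mpr hw0
  have hpM : 0 < ‖p‖ ^ (2 * M) := by positivity
  have hpinv : (‖p‖ ^ (2 * M))⁻¹ ≤ Real.exp (2 * c * M) := by
    have h1 : Real.exp (-c) ^ (2 * M) ≤ ‖p‖ ^ (2 * M) := by gcongr
    have h2 : Real.exp (-c) ^ (2 * M) = (Real.exp (2 * c * M))⁻¹ := by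
      rw [← Real.exp_nat_mul, ← Real.exp_neg]
      congr 1
      push_cast; ring
    rw [h2] at h1
    exact inv_le_of_inv_le₀ (Real.exp_pos _) h1
  have key : ∀ x : ℂ, ‖x‖ * ‖p‖ ^ (2 * M) ≤ 1 → ‖AA p x‖ ≤
      Real.exp ((2 * c * M + 1) * M + r / (1 - r ^ 2)) := by
    intro x hx
    have h1 := AA_le hr hp (x := x) (M := M) (by linarith)
    have hxle : ‖x‖ ≤ Real.exp (2 * c * M) := by
      refine le_trans ?_ hpinv
      rw [← one_div]
      exact (le_div_iff₀ hpM).mpr hx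
    have h2 : 1 + ‖x‖ ≤ Real.exp (2 * c * M + 1) := by
      rw [Real.exp_add]
      have h3 : 1 ≤ Real.exp (2 * c * M) := Real.one_le_exp (by positivity)
      have h4 := Real.add_one_le_exp (1 : ℝ)
      nlinarith
    refine h1.trans ?_
    rw [Real.exp_add, mul_comm (2 * c * M + 1 : ℝ), Real.exp_nat_mul]
    gcongr
  have h1 := key w hw.2
  have h2 := key w⁻¹ (by
    rw [norm_inv]
    calc ‖w‖⁻¹ * ‖p‖ ^ (2 * M) ≤ ‖w‖⁻¹ * ‖w‖ := by gcongr; exact hw.1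
      _ = 1 := inv_mul_cancel₀ hwn.ne')
  rw [th, norm_mul]
  calc ‖AA p w‖ * ‖AA p w⁻¹‖ ≤ Real.exp ((2 * c * M + 1) * M + r / (1 - r ^ 2)) *
        Real.exp ((2 * c * M + 1) * M + r / (1 - r ^ 2)) := by gcongr
    _ = Real.exp (2 * ((2 * c * M + 1) * M + r / (1 - r ^ 2))) := by
      rw [← Real.exp_add]; congr 1; ring
    _ ≤ _ := by
      apply Real.exp_le_exp.mpr
      have h6 : 0 < 1 - r ^ 2 := by nlinarith
      have h7 : 0 ≤ r / (1 - r ^ 2) := by positivity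
      have hM : (0 : ℝ) ≤ M := Nat.cast_nonneg M
      have e : 2 * r / (1 - r ^ 2) = 2 * (r / (1 - r ^ 2)) := by ring
      rw [e]
      set a := r / (1 - r ^ 2)
      have h8 : a ≤ a * (M + 1) ^ 2 := by
        refine le_mul_of_one_le_right h7 (one_le_pow₀ (by linarith))
      nlinarith [mul_nonneg (by linarith : (0:ℝ) ≤ c) hM]

lemma Ann_ball {p : ℂ} {r : ℝ} (hr : r < 1) (hp0 : p ≠ 0) (hp : ‖p‖ ≤ r) {M : ℕ}
    {w : ℂ} (hw : w ∈ Ann p M) {v : ℂ} (hv : ‖v - w‖ ≤ (1 - r ^ 2) * ‖w‖) : v ∈ Ann p (M + 1) := by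
  have hw0 := Ann_ne_zero hp0 hw
  have hwn : 0 < ‖w‖ := norm_pos_iff.mpr hw0
  have hpn : 0 < ‖p‖ := norm_pos_iff.mpr hp0
  have hr0 : 0 < r := hpn.trans_le hp
  have hρ : 0 < 1 - r ^ 2 := by nlinarith
  have hpr : ‖p‖ ^ 2 ≤ r ^ 2 := by gcongr
  have h1 : ‖w‖ - (1 - r ^ 2) * ‖w‖ ≤ ‖v‖ := by
    have := norm_sub_norm_le w v
    rw [norm_sub_rev] at this
    linarith
  have h2 : ‖v‖ ≤ ‖w‖ + (1 - r ^ 2) * ‖w‖ := by
    have := norm_sub_norm_le v w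
    linarith
  have h3 : ‖p‖ ^ (2 * (M + 1)) = ‖p‖ ^ (2 * M) * ‖p‖ ^ 2 := by ring
  refine ⟨?_, ?_⟩
  · rw [h3]
    calc ‖p‖ ^ (2 * M) * ‖p‖ ^ 2 ≤ ‖w‖ * r ^ 2 := by gcongr; exact hw.1
      _ ≤ ‖v‖ := by linarith
  · rw [h3]
    calc ‖v‖ * (‖p‖ ^ (2 * M) * ‖p‖ ^ 2) ≤ (‖w‖ + (1 - r ^ 2) * ‖w‖) * (‖p‖ ^ (2 * M) * r ^ 2) := by
          gcongr
      _ = (‖w‖ * ‖p‖ ^ (2 * M)) * ((2 - r ^ 2) * r ^ 2) := by ring
      _ ≤ 1 * 1 := by
          gcongr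
          · nlinarith
          · exact hw.2
          · nlinarith [sq_nonneg (r ^ 2 - 1)]
      _ = 1 := one_mul 1

/-- Cauchy's estimate for `Dw`. -/
lemma Dw_le {p : ℂ} {r : ℝ} (hr : r < 1) (hp0 : p ≠ 0) (hp : ‖p‖ ≤ r) {f : ℂ → ℂ}
    (hf : DifferentiableOn ℂ f {0}ᶜ) {M : ℕ} {S : ℝ} (hS : ∀ w ∈ Ann p (M + 1), ‖f w‖ ≤ S)
    {w : ℂ} (hw : w ∈ Ann p M) : ‖Dw f w‖ ≤ 2 * Real.pi / (1 - r ^ 2) * S := by
  have hw0 := Ann_ne_zero hp0 hw
  have hwn : 0 < ‖w‖ := norm_pos_iff.mpr hw0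
  have hpn : 0 < ‖p‖ := norm_pos_iff.mpr hp0
  have hr0 : 0 < r := hpn.trans_le hp
  have hρ : 0 < 1 - r ^ 2 := by nlinarith
  have hR : 0 < (1 - r ^ 2) * ‖w‖ := by positivity
  have hsub : ∀ v : ℂ, dist v w ≤ (1 - r ^ 2) * ‖w‖ → v ∈ Ann p (M + 1) := by
    intro v hv
    rw [dist_eq_norm] at hv
    exact Ann_ball hr hp0 hp hw hv
  have hd : DiffContOnCl ℂ f (Metric.ball w ((1 - r ^ 2) * ‖w‖)) := by
    apply DifferentiableOn.diffContOnCl
    apply hf.mono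
    intro v hv
    have h1 := Metric.closure_ball_subset_closedBall hv
    exact Ann_ne_zero hp0 (hsub v (Metric.mem_closedBall.mp h1))
  have h1 := Complex.norm_deriv_le_of_forall_mem_sphere_norm_le hR hd
    (fun z hz ↦ hS z (hsub z (le_of_eq (Metric.mem_sphere.mp hz))))
  rw [Dw]
  have e : ‖2 * (Real.pi : ℂ) * I * w * deriv f w‖ = 2 * Real.pi * ‖w‖ * ‖deriv f w‖ := by
    rw [norm_mul, norm_mul, norm_mul, norm_mul, Complex.norm_I, Complex.norm_real,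
      Real.norm_of_nonneg Real.pi_pos.le]
    norm_num
  rw [e]
  calc 2 * Real.pi * ‖w‖ * ‖deriv f w‖ ≤ 2 * Real.pi * ‖w‖ * (S / ((1 - r ^ 2) * ‖w‖)) := by
        gcongr
    _ = _ := by field_simp

lemma Ann_mono {p : ℂ} (hp : ‖p‖ ≤ 1) {M N : ℕ} (h : M ≤ N) : Ann p M ⊆ Ann p N := by
  intro w hw
  have h1 : ‖p‖ ^ (2 * N) ≤ ‖p‖ ^ (2 * M) := pow_le_pow_of_le_one (norm_nonneg _) hp (by omega)
  refine ⟨h1.trans hw.1, le_trans ?_ hw.2⟩
  gcongr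

end H32.T3

end S_H32_T3_Theta2

section S_H32_T3_Schwarz

namespace H32.T3

open Complex Filter Topology Finset

/-- Finite Taylor expansion with bounds. -/
theorem taylor_div {f : ℂ → ℂ} {c : ℂ} {r S : ℝ} (hr : 0 < r)
    (hf : DifferentiableOn ℂ f (Metric.ball c r)) (hS : ∀ w ∈ Metric.ball c r, ‖f w‖ ≤ S) (T : ℕ) :
    ∃ (a : ℕ → ℂ) (g : ℂ → ℂ), DifferentiableOn ℂ g (Metric.ball c r) ∧
      (∀ w, f w = ∑ t ∈ range T, a t * (w - c) ^ t + (w - c) ^ T * g w) ∧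
      (∀ t, t < T → ‖a t‖ ≤ (2 / r) ^ t * S) ∧ (∀ w ∈ Metric.ball c r, ‖g w‖ ≤ (2 / r) ^ T * S) := by
  have hc : c ∈ Metric.ball c r := Metric.mem_ball_self hr
  induction T with
  | zero => exact ⟨0, f, hf, by simp, by simp, by simpa using hS⟩
  | succ T ih =>
    obtain ⟨a, g, hg, hfg, ha, hgS⟩ := ih
    refine ⟨fun t ↦ if t = T then g c else a t, dslope g c, ?_, ?_, ?_, ?_⟩
    · exact (Complex.differentiableOn_dslope (Metric.ball_mem_nhds c hr)).mpr hg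
    · intro w
      rw [sum_range_succ]
      beta_reduce
      rw [if_pos rfl, hfg w]
      have h1 : ∑ t ∈ range T, (if t = T then g c else a t) * (w - c) ^ t =
          ∑ t ∈ range T, a t * (w - c) ^ t := by
        refine sum_congr rfl fun t ht ↦ ?_
        rw [if_neg (by have := mem_range.mp ht; omega)]
      rw [h1]
      have h2 := sub_smul_dslope g c w
      rw [smul_eq_mul] at h2
      rw [pow_succ]
      linear_combination -(w - c) ^ T * h2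
    · intro t ht
      rcases eq_or_ne t T with rfl | hne
      · simp only [if_true]
        exact hgS c hc
      · simp only [hne, if_false]
        exact ha t (by omega)
    · intro w hw
      have hmaps : Set.MapsTo g (Metric.ball c r)
          (Metric.closedBall (g c) (2 * ((2 / r) ^ T * S))) := by
        intro v hv
        rw [Metric.mem_closedBall, dist_eq_norm]
        have h1 := hgS v hv
        have h2 := hgS c hc
        have h3 := norm_sub_le (g v) (g c)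
        linarith
      refine (Complex.norm_dslope_le_div_of_mapsTo_ball hg hmaps hw).trans (le_of_eq ?_)
      rw [pow_succ]
      ring

lemma iter_deriv {U : Set ℂ} (hU : IsOpen U) {Φ : ℕ → ℂ → ℂ} {lam : ℂ}
    (h : ∀ t, ∀ s ∈ U, HasDerivAt (Φ t) (lam * Φ (t + 1) s) s) (t : ℕ) :
    ∀ s ∈ U, iteratedDeriv t (Φ 0) s = lam ^ t * Φ t s := by
  induction t with
  | zero => intro s _; simp
  | succ t ih =>
    intro s hs
    rw [iteratedDeriv_succ]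
    have h1 : iteratedDeriv t (Φ 0) =ᶠ[𝓝 s] fun s ↦ lam ^ t * Φ t s := by
      filter_upwards [hU.mem_nhds hs] with v hv using ih v hv
    rw [h1.deriv_eq, ((h t s hs).const_mul (lam ^ t)).deriv]
    ring

/-- Vanishing order from the derivatives. -/
lemma order_of_system {U : Set ℂ} (hU : IsOpen U) (h0U : (0 : ℂ) ∈ U) {Φ : ℕ → ℂ → ℂ} {lam : ℂ}
    (h : ∀ t, ∀ s ∈ U, HasDerivAt (Φ t) (lam * Φ (t + 1) s) s) {T : ℕ}
    (h0 : ∀ t < T, Φ t 0 = 0) :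
    ∃ g, AnalyticAt ℂ g 0 ∧ ∀ᶠ s in 𝓝 (0 : ℂ), Φ 0 s = s ^ T * g s := by
  have hd : DifferentiableOn ℂ (Φ 0) U := fun s hs ↦
    (h 0 s hs).differentiableAt.differentiableWithinAt
  have han : AnalyticAt ℂ (Φ 0) 0 := hd.analyticAt (hU.mem_nhds h0U)
  have h1 : (T : ℕ∞) ≤ analyticOrderAt (Φ 0) 0 := by
    rw [natCast_le_analyticOrderAt_iff_iteratedDeriv_eq_zero han]
    intro i hi
    rw [iter_deriv hU h i 0 h0U, h0 i hi, mul_zero]
  rw [natCast_le_analyticOrderAt han] at h1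
  obtain ⟨g, hg, hev⟩ := h1
  refine ⟨g, hg, ?_⟩
  filter_upwards [hev] with s hs
  rw [hs, sub_zero, smul_eq_mul]

/-- The Schwarz lemma on the annulus. -/
theorem schwarz_ann {p : ℂ} (hp0 : p ≠ 0) (hp1 : ‖p‖ < 1) {N T : ℕ} (hT : 1 ≤ T)
    (hN : ‖p‖ ^ (4 * N) ≤ 1 / 2)
    {G pol g : ℂ → ℂ} (hG : DifferentiableOn ℂ G {0}ᶜ) (hpol : DifferentiableOn ℂ pol {0}ᶜ)
    (hg : AnalyticAt ℂ g 1) (hloc : ∀ᶠ w in 𝓝 (1 : ℂ), G w - pol w = (w - 1) ^ T * g w)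
    {E η : ℝ} (hE : ∀ w ∈ Ann p (2 * N), ‖G w‖ ≤ E) (hη : ∀ w ∈ Ann p (2 * N), ‖pol w‖ ≤ η)
    {w : ℂ} (hw : w ∈ Ann p N) : ‖G w‖ ≤ η + (E + η) * (4 * ‖p‖ ^ N) ^ T := by
  classical
  have hpn : 0 < ‖p‖ := norm_pos_iff.mpr hp0
  set R : ℝ := (‖p‖ ^ (4 * N))⁻¹ with hR
  have hRpos : 0 < R := by positivity
  have hRinv : R⁻¹ = ‖p‖ ^ (4 * N) := by rw [hR, inv_inv]
  have hR2 : 2 ≤ R := by
    rw [hR]
    rw [le_inv_comm₀ (by norm_num) (by positivity)]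
    linarith
  have h1Ann : (1 : ℂ) ∈ Ann p (2 * N) := by
    refine ⟨?_, ?_⟩
    · rw [norm_one]; exact pow_le_one₀ (norm_nonneg _) hp1.le
    · rw [norm_one, one_mul]; exact pow_le_one₀ (norm_nonneg _) hp1.le
  have hE0 : 0 ≤ E := (norm_nonneg _).trans (hE 1 h1Ann)
  have hη0 : 0 ≤ η := (norm_nonneg _).trans (hη 1 h1Ann)
  have hAnn : ∀ v : ℂ, R⁻¹ ≤ ‖v‖ → ‖v‖ ≤ R → v ∈ Ann p (2 * N) := by
    intro v h1 h2
    have e : 2 * (2 * N) = 4 * N := by ring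
    refine ⟨by rw [e, ← hRinv]; exact h1, ?_⟩
    rw [e, ← hRinv]
    calc ‖v‖ * R⁻¹ ≤ R * R⁻¹ := by gcongr
      _ = 1 := mul_inv_cancel₀ hRpos.ne'
  -- the quotient
  set H : ℂ → ℂ := fun w ↦ if w = 1 then g 1 else (G w - pol w) / (w - 1) ^ T with hH
  have hHd : DifferentiableOn ℂ H {0}ᶜ := by
    intro v hv
    rcases eq_or_ne v 1 with rfl | hne
    · have h1 : H =ᶠ[𝓝 1] g := by
        filter_upwards [hloc] with v hv
        rw [hH]
        simp only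
        split_ifs with h
        · rw [h]
        · rw [hv, mul_div_cancel_left₀]
          exact pow_ne_zero _ (sub_ne_zero.mpr h)
      exact (hg.differentiableAt.congr_of_eventuallyEq h1).differentiableWithinAt
    · have h1 : H =ᶠ[𝓝 v] fun w ↦ (G w - pol w) / (w - 1) ^ T := by
        filter_upwards [isOpen_ne.mem_nhds hne] with u hu
        rw [hH]
        simp only
        rw [if_neg hu]
      have h2 : DifferentiableAt ℂ (fun w ↦ (G w - pol w) / (w - 1) ^ T) v := by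
        have hGv := (hG v hv).differentiableAt (isOpen_U.mem_nhds hv)
        have hpv := (hpol v hv).differentiableAt (isOpen_U.mem_nhds hv)
        have h3 : (v - 1) ^ T ≠ 0 := pow_ne_zero _ (sub_ne_zero.mpr hne)
        exact (hGv.fun_sub hpv).fun_div (by fun_prop) h3
      exact (h2.congr_of_eventuallyEq h1).differentiableWithinAt
  set Φ : ℂ → ℂ := fun w ↦ H w ^ 2 * w ^ T with hΦ
  have hΦd : DifferentiableOn ℂ Φ {0}ᶜ := by
    rw [hΦ]
    fun_prop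
  -- the open annulus
  set U : Set ℂ := {v | R⁻¹ < ‖v‖ ∧ ‖v‖ < R} with hU
  have hUb : Bornology.IsBounded U := by
    refine (Metric.isBounded_ball (x := (0 : ℂ)) (r := R)).subset fun v hv ↦ ?_
    rw [mem_ball_zero_iff]; exact hv.2
  have hUcl : closure U ⊆ {v | R⁻¹ ≤ ‖v‖ ∧ ‖v‖ ≤ R} := by
    apply closure_minimal
    · intro v hv; exact ⟨hv.1.le, hv.2.le⟩
    · exact (isClosed_le continuous_const continuous_norm).inter
        (isClosed_le continuous_norm continuous_const)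
  have hUo : IsOpen U := (isOpen_lt continuous_const continuous_norm).inter
    (isOpen_lt continuous_norm continuous_const)
  have hne0 : ∀ v : ℂ, R⁻¹ ≤ ‖v‖ → v ≠ 0 := by
    rintro v hv rfl
    rw [norm_zero] at hv
    have : 0 < R⁻¹ := by positivity
    linarith
  have hdc : DiffContOnCl ℂ Φ U := by
    apply DifferentiableOn.diffContOnCl
    exact hΦd.mono fun v hv ↦ hne0 v (hUcl hv).1
  have hfr : ∀ v ∈ frontier U, ‖Φ v‖ ≤ (E + η) ^ 2 * (4 / R) ^ T := by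
    intro v hv
    have h1 := hUcl (frontier_subset_closure hv)
    have h2 : v ∉ U := by
      have := hUo.frontier_eq ▸ hv
      exact this.2
    have h3 : ‖v‖ = R ∨ ‖v‖ = R⁻¹ := by
      rcases eq_or_lt_of_le h1.2 with h | h
      · exact Or.inl h
      · right
        by_contra hcon
        exact h2 ⟨lt_of_le_of_ne h1.1 (Ne.symm hcon), h⟩
    have hv0 : 0 < ‖v‖ := norm_pos_iff.mpr (hne0 v h1.1)
    have h4 : ‖v‖ / ‖v - 1‖ ^ 2 ≤ 4 / R := by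
      rcases h3 with h3 | h3
      · have h5 : R - 1 ≤ ‖v - 1‖ := by
          have := norm_sub_norm_le v 1
          rw [norm_one, h3] at this
          exact this
        have h6 : 0 < R - 1 := by linarith
        calc ‖v‖ / ‖v - 1‖ ^ 2 ≤ R / (R - 1) ^ 2 := by rw [h3]; gcongr
          _ ≤ 4 / R := by
            rw [div_le_div_iff₀ (by positivity) hRpos]
            nlinarith
      · have h5 : 1 - R⁻¹ ≤ ‖v - 1‖ := by
          have := norm_sub_norm_le 1 v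
          rw [norm_one, h3, norm_sub_rev] at this
          exact this
        have h7 : R⁻¹ ≤ 1 / 2 := by
          rw [hRinv]; exact hN
        have h6 : 0 < 1 - R⁻¹ := by linarith
        calc ‖v‖ / ‖v - 1‖ ^ 2 ≤ R⁻¹ / (1 - R⁻¹) ^ 2 := by rw [h3]; gcongr
          _ ≤ 4 / R := by
            rw [div_le_iff₀ (by positivity), div_eq_mul_inv]
            have h8 : 0 < R⁻¹ := by positivity
            have h9 : 1 ≤ 4 * (1 - R⁻¹) ^ 2 := by nlinarith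
            nlinarith
    have hvne : v ≠ 1 := by
      rintro rfl
      rw [norm_one] at h3
      rcases h3 with h3 | h3
      · linarith
      · have h7 : R⁻¹ ≤ 1 / 2 := by rw [hRinv]; exact hN
        linarith
    have h5 : ‖Φ v‖ = ‖G v - pol v‖ ^ 2 * (‖v‖ / ‖v - 1‖ ^ 2) ^ T := by
      rw [hΦ]
      simp only
      rw [norm_mul, norm_pow, norm_pow, hH]
      simp only [if_neg hvne]
      rw [norm_div, norm_pow, div_pow, div_pow, ← pow_mul, ← pow_mul, mul_comm T 2]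
      ring
    rw [h5]
    have h6 : ‖G v - pol v‖ ≤ E + η := by
      have h7 := hAnn v h1.1 h1.2
      exact (norm_sub_le _ _).trans (add_le_add (hE v h7) (hη v h7))
    gcongr
  -- the conclusion
  have hwn : 0 < ‖w‖ := norm_pos_iff.mpr (Ann_ne_zero hp0 hw)
  have hpN : ‖p‖ ^ (4 * N) = (‖p‖ ^ (2 * N)) ^ 2 := by rw [← pow_mul]; congr 1; ring
  have hp2N : 0 < ‖p‖ ^ (2 * N) := by positivity
  have hp2N1 : ‖p‖ ^ (2 * N) < 1 := by
    by_contra hcon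
    push Not at hcon
    rw [hpN] at hN
    nlinarith
  have hw' : w ∈ U := by
    refine ⟨?_, ?_⟩
    · rw [hRinv, hpN]
      refine lt_of_lt_of_le ?_ hw.1
      nlinarith
    · rw [hR, hpN]
      have h1 : ‖w‖ ≤ (‖p‖ ^ (2 * N))⁻¹ := by
        rw [← one_div]; exact (le_div_iff₀ hp2N).mpr hw.2
      refine h1.trans_lt ?_
      apply inv_strictAnti₀ (by positivity)
      nlinarith
  have hmax := Complex.norm_le_of_forall_mem_frontier_norm_le hUb hdc hfr (subset_closure hw')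
  have hsq : ‖G w - pol w‖ ^ 2 ≤ ((E + η) * (4 * ‖p‖ ^ N) ^ T) ^ 2 := by
    rcases eq_or_ne w 1 with rfl | hne
    · have h1 := hloc.self_of_nhds
      rw [sub_self, zero_pow (by omega), zero_mul] at h1
      rw [h1, norm_zero, zero_pow (by norm_num)]
      positivity
    · have h5 : ‖G w - pol w‖ ^ 2 = ‖Φ w‖ * (‖w - 1‖ ^ 2 / ‖w‖) ^ T := by
        have hd : ‖w - 1‖ ≠ 0 := norm_ne_zero_iff.mpr (sub_ne_zero.mpr hne)
        rw [hΦ]
        simp only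
        rw [norm_mul, norm_pow, norm_pow, hH]
        simp only [if_neg hne]
        rw [norm_div, norm_pow, div_pow, div_pow, ← pow_mul, ← pow_mul, mul_comm T 2]
        field_simp
      have h6 : ‖w - 1‖ ^ 2 / ‖w‖ ≤ 4 * (‖p‖ ^ (2 * N))⁻¹ := by
        have h7 : ‖w - 1‖ ≤ ‖w‖ + 1 := by
          have := norm_sub_le w 1
          rwa [norm_one] at this
        rw [div_le_iff₀ hwn]
        set a := ‖p‖ ^ (2 * N) with ha
        have h8 : a ≤ ‖w‖ := hw.1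
        have h9 : ‖w‖ * a ≤ 1 := hw.2
        have h10 : ‖w - 1‖ ^ 2 ≤ (‖w‖ + 1) ^ 2 := by gcongr
        refine h10.trans ?_
        rw [mul_assoc, mul_comm a⁻¹, ← mul_assoc, ← div_eq_mul_inv, le_div_iff₀ hp2N]
        nlinarith
      have h7 : 4 / R * (4 * (‖p‖ ^ (2 * N))⁻¹) = (4 * ‖p‖ ^ N) ^ 2 := by
        rw [div_eq_mul_inv, hRinv, hpN]
        have : ‖p‖ ^ (2 * N) = (‖p‖ ^ N) ^ 2 := by rw [← pow_mul]; congr 1; ring
        rw [this]
        have h0 : 0 < ‖p‖ ^ N := by positivity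
        field_simp
      rw [h5]
      calc ‖Φ w‖ * (‖w - 1‖ ^ 2 / ‖w‖) ^ T
          ≤ ((E + η) ^ 2 * (4 / R) ^ T) * (4 * (‖p‖ ^ (2 * N))⁻¹) ^ T := by gcongr
        _ = (E + η) ^ 2 * ((4 / R) * (4 * (‖p‖ ^ (2 * N))⁻¹)) ^ T := by
          rw [mul_pow (4 / R : ℝ)]; ring
        _ = _ := by rw [h7, mul_pow (E + η), ← pow_mul, ← pow_mul, mul_comm 2 T]
  have hfin : ‖G w - pol w‖ ≤ (E + η) * (4 * ‖p‖ ^ N) ^ T :=
    le_of_sq_le_sq hsq (by positivity)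
  have h1 : ‖G w‖ ≤ ‖G w - pol w‖ + ‖pol w‖ := by
    have := norm_add_le (G w - pol w) (pol w)
    rwa [sub_add_cancel] at this
  have h2 : ‖pol w‖ ≤ η := by
    apply hη
    exact Ann_mono hp1.le (by omega) hw
  linarith

end H32.T3

end S_H32_T3_Schwarz

section S_H32_T3_Theta3

namespace H32.T3

open Complex Filter Topology Finset

noncomputable def P1 (lam p w : ℂ) : ℂ := lam⁻¹ * th1 p w

noncomputable def P2 (lam G p w : ℂ) : ℂ :=
  (lam ^ 2)⁻¹ * (th1 p w ^ 2 - th p w * th2 p w - G * th p w ^ 2)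

lemma diff_P1 {p : ℂ} (hp : ‖p‖ < 1) (lam : ℂ) : DifferentiableOn ℂ (P1 lam p) {0}ᶜ :=
  (diff_th1 hp).const_mul _

lemma diff_P2 {p : ℂ} (hp : ‖p‖ < 1) (lam G : ℂ) : DifferentiableOn ℂ (P2 lam G p) {0}ᶜ := by
  have h0 := diff_th hp
  have h1 := diff_th1 hp
  have h2 := diff_th2 hp
  unfold P2
  fun_prop

lemma P1_q {p : ℂ} (hp : ‖p‖ < 1) (hp0 : p ≠ 0) (lam : ℂ) {w : ℂ} (hw : w ≠ 0) :
    P1 lam p (p ^ 2 * w) = -(p * w)⁻¹ * (P1 lam p w - 2 * Real.pi * I / lam * th p w) := by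
  rw [P1, P1, th1_q hp hp0 hw]
  ring

lemma P2_q {p : ℂ} (hp : ‖p‖ < 1) (hp0 : p ≠ 0) (lam G : ℂ) {w : ℂ} (hw : w ≠ 0) :
    P2 lam G p (p ^ 2 * w) = (-(p * w)⁻¹) ^ 2 * P2 lam G p w := by
  rw [P2, P2, th_q hp hp0 hw, th1_q hp hp0 hw, th2_q hp hp0 hw]
  ring

/-- Uniform growth bounds. -/
theorem growth {r c B0 : ℝ} (hr : r < 1) (hr0 : 0 ≤ r) (hc : 1 ≤ c) (hB0 : 1 ≤ B0) :
    ∃ C : ℝ, 1 ≤ C ∧ ∀ p lam G : ℂ, ‖p‖ ≤ r → Real.exp (-c) ≤ ‖p‖ → ‖lam⁻¹‖ ≤ B0 → ‖G‖ ≤ B0 →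
      ∀ (M : ℕ), ∀ w ∈ Ann p M, ‖th p w‖ ≤ Real.exp (C * (M + 1) ^ 2) ∧
        ‖P1 lam p w‖ ≤ Real.exp (C * (M + 1) ^ 2) ∧
        ‖P2 lam G p w‖ ≤ Real.exp (C * (M + 1) ^ 2) := by
  have hρ : 0 < 1 - r ^ 2 := by nlinarith
  set C1 : ℝ := 4 * c + 2 + 2 * r / (1 - r ^ 2) with hC1
  have hC10 : 0 ≤ C1 := by positivity
  set K : ℝ := 1 + 2 * Real.pi / (1 - r ^ 2) with hK
  have hK1 : 1 ≤ K := by
    have : 0 ≤ 2 * Real.pi / (1 - r ^ 2) := by positivity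
    linarith
  have hK0 : 2 * Real.pi / (1 - r ^ 2) ≤ K := by linarith
  refine ⟨Real.log (3 * B0 ^ 3 * K ^ 2) + 18 * C1 + 1, ?_, ?_⟩
  · have : 0 ≤ Real.log (3 * B0 ^ 3 * K ^ 2) := by
      apply Real.log_nonneg
      have h1 : 1 ≤ B0 ^ 3 := one_le_pow₀ hB0
      have h2 : 1 ≤ K ^ 2 := one_le_pow₀ hK1
      nlinarith
    linarith
  intro p lam G hp hpc hlam hG M w hw
  have hpn : 0 < ‖p‖ := (Real.exp_pos _).trans_le hpc
  have hp0 : p ≠ 0 := norm_pos_iff.mp hpn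
  have hp1 : ‖p‖ < 1 := hp.trans_lt hr
  have b0 : ∀ N : ℕ, ∀ w ∈ Ann p N, ‖th p w‖ ≤ Real.exp (C1 * (N + 1) ^ 2) :=
    fun N w hw ↦ th_le hr hp hc hpc hw
  have b1 : ∀ N : ℕ, ∀ w ∈ Ann p N, ‖th1 p w‖ ≤ K * Real.exp (C1 * (N + 2) ^ 2) := by
    intro N w hw
    refine (Dw_le hr hp0 hp (diff_th hp1) (b0 (N + 1)) hw).trans ?_
    push_cast
    rw [show ((N : ℝ) + 1 + 1) = N + 2 by ring]
    gcongr
  have b2 : ∀ N : ℕ, ∀ w ∈ Ann p N, ‖th2 p w‖ ≤ K ^ 2 * Real.exp (C1 * (N + 3) ^ 2) := by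
    intro N w hw
    refine (Dw_le hr hp0 hp (diff_th1 hp1) (b1 (N + 1)) hw).trans ?_
    push_cast
    rw [show ((N : ℝ) + 1 + 2) = N + 3 by ring, pow_two K, mul_assoc]
    gcongr
  have hM : (0 : ℝ) ≤ M := Nat.cast_nonneg M
  set E : ℝ := Real.exp (C1 * (M + 3) ^ 2) with hE
  have hE1 : 1 ≤ E := Real.one_le_exp (by positivity)
  have e0 : ‖th p w‖ ≤ E := (b0 M w hw).trans (Real.exp_le_exp.mpr (by gcongr; linarith))
  have e1 : ‖th1 p w‖ ≤ K * E := (b1 M w hw).trans (by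
    rw [hE]; gcongr; linarith)
  have e2 : ‖th2 p w‖ ≤ K ^ 2 * E := b2 M w hw
  have hEE : 3 * B0 ^ 3 * K ^ 2 * E ^ 2 ≤
      Real.exp ((Real.log (3 * B0 ^ 3 * K ^ 2) + 18 * C1 + 1) * (M + 1) ^ 2) := by
    have h1 : 3 * B0 ^ 3 * K ^ 2 * E ^ 2 =
        Real.exp (Real.log (3 * B0 ^ 3 * K ^ 2) + 2 * (C1 * (M + 3) ^ 2)) := by
      rw [Real.exp_add, Real.exp_log (by positivity), hE, ← Real.exp_nat_mul]
      norm_num
    rw [h1]
    apply Real.exp_le_exp.mpr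
    have h2 : 0 ≤ Real.log (3 * B0 ^ 3 * K ^ 2) := by
      apply Real.log_nonneg
      have h1 : 1 ≤ B0 ^ 3 := one_le_pow₀ hB0
      have h2 : 1 ≤ K ^ 2 := one_le_pow₀ hK1
      nlinarith
    have h3 : Real.log (3 * B0 ^ 3 * K ^ 2) ≤ Real.log (3 * B0 ^ 3 * K ^ 2) * (M + 1) ^ 2 :=
      le_mul_of_one_le_right h2 (one_le_pow₀ (by linarith))
    have h4 : 2 * (C1 * (M + 3) ^ 2) ≤ 18 * C1 * (M + 1) ^ 2 := by
      have : ((M : ℝ) + 3) ^ 2 ≤ 9 * (M + 1) ^ 2 := by nlinarith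
      nlinarith
    have h5 : (0 : ℝ) ≤ (M + 1) ^ 2 := by positivity
    nlinarith
  have hB3 : 1 ≤ B0 ^ 3 := one_le_pow₀ hB0
  have hB2 : 1 ≤ B0 ^ 2 := one_le_pow₀ hB0
  have hK2 : 1 ≤ K ^ 2 := one_le_pow₀ hK1
  refine ⟨?_, ?_, ?_⟩
  · refine le_trans ?_ hEE
    calc ‖th p w‖ ≤ 1 * 1 * 1 * E := by linarith
      _ ≤ 3 * B0 ^ 3 * K ^ 2 * E ^ 2 := by
        gcongr
        · nlinarith
        · exact le_self_pow₀ hE1 (by norm_num)
  · refine le_trans ?_ hEE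
    rw [P1, norm_mul]
    calc ‖lam⁻¹‖ * ‖th1 p w‖ ≤ B0 * (K * E) := by gcongr
      _ = B0 * K * E := by ring
      _ ≤ 3 * B0 ^ 3 * K ^ 2 * E ^ 2 := by
        gcongr
        · have : B0 ≤ B0 ^ 3 := le_self_pow₀ hB0 (by norm_num)
          nlinarith
        · exact le_self_pow₀ hK1 (by norm_num)
        · exact le_self_pow₀ hE1 (by norm_num)
  · refine le_trans ?_ hEE
    rw [P2, norm_mul, ← inv_pow, norm_pow]
    have h1 : ‖th1 p w ^ 2 - th p w * th2 p w - G * th p w ^ 2‖ ≤ 3 * B0 * K ^ 2 * E ^ 2 := by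
      calc ‖th1 p w ^ 2 - th p w * th2 p w - G * th p w ^ 2‖
          ≤ ‖th1 p w‖ ^ 2 + ‖th p w‖ * ‖th2 p w‖ + ‖G‖ * ‖th p w‖ ^ 2 := by
            refine (norm_sub_le _ _).trans ?_
            rw [norm_mul, norm_pow]
            gcongr
            refine (norm_sub_le _ _).trans ?_
            rw [norm_mul, norm_pow]
        _ ≤ (K * E) ^ 2 + E * (K ^ 2 * E) + B0 * E ^ 2 := by gcongr
        _ = (2 * K ^ 2 + B0) * E ^ 2 := by ring
        _ ≤ _ := by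
          gcongr
          nlinarith
    calc ‖lam⁻¹‖ ^ 2 * ‖th1 p w ^ 2 - th p w * th2 p w - G * th p w ^ 2‖
        ≤ B0 ^ 2 * (3 * B0 * K ^ 2 * E ^ 2) := by gcongr
      _ = _ := by ring

/-- Lower bound near `w = 1`. -/
theorem near_one {r : ℝ} (hr : r < 1) (hr0 : 0 ≤ r) :
    ∃ c : ℝ, 0 < c ∧ ∀ p w : ℂ, ‖p‖ ≤ r → ‖w - 1‖ ≤ (1 - r) / 2 → c ≤ ‖th p w‖ := by
  have hρ : r * (2 / (1 + r)) < 1 := by
    rw [mul_div_assoc', div_lt_one (by linarith)]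
    linarith
  obtain ⟨c, hc, h⟩ := AA_ge hr hr0 (ρ := 2 / (1 + r)) (by positivity) hρ
  refine ⟨c * c, by positivity, fun p w hp hw ↦ ?_⟩
  have h1 : ‖w‖ ≤ 2 / (1 + r) := by
    have h2 := norm_sub_norm_le w 1
    rw [norm_one] at h2
    rw [le_div_iff₀ (by linarith)]
    nlinarith [norm_nonneg w, sq_nonneg (1 - r)]
  have h2 : ‖w⁻¹‖ ≤ 2 / (1 + r) := by
    have h2 := norm_sub_norm_le 1 w
    rw [norm_one, norm_sub_rev] at h2
    have h3 : (1 + r) / 2 ≤ ‖w‖ := by linarith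
    rw [norm_inv]
    have h4 : (2 / (1 + r)) = ((1 + r) / 2)⁻¹ := by rw [inv_div]
    rw [h4]
    exact inv_anti₀ (by positivity) h3
  rw [th, norm_mul]
  have := h p w hp h1
  have := h p w⁻¹ hp h2
  gcongr

lemma th_p {p : ℂ} (hp : ‖p‖ < 1) (hp0 : p ≠ 0) : th p p = 0 := by
  rw [th, AA_succ hp p⁻¹, mul_inv_cancel₀ hp0]
  simp

lemma th_fac {p : ℂ} (hp : ‖p‖ < 1) {w : ℂ} :
    th p w = (1 - p * w⁻¹) * (AA p w * AA p (p ^ 2 * w⁻¹)) := by
  rw [th, AA_succ hp w⁻¹]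
  ring

lemma th1_p {p : ℂ} (hp : ‖p‖ < 1) (hp0 : p ≠ 0) :
    th1 p p = 2 * Real.pi * I * (AA p p * AA p p) := by
  have h1 : HasDerivAt (AA p) (deriv (AA p) p) p := (differentiable_AA hp p).hasDerivAt
  have hinv : HasDerivAt (fun w : ℂ ↦ w⁻¹) (-(p ^ 2)⁻¹) p := hasDerivAt_inv hp0
  have h2 : HasDerivAt (fun w ↦ AA p (p ^ 2 * w⁻¹))
      (deriv (AA p) (p ^ 2 * p⁻¹) * (p ^ 2 * (-(p ^ 2)⁻¹))) p :=
    HasDerivAt.comp (h₂ := AA p) (h := fun w : ℂ ↦ p ^ 2 * w⁻¹) p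
      (differentiable_AA hp (p ^ 2 * p⁻¹)).hasDerivAt (hinv.const_mul (p ^ 2))
  have h3 : HasDerivAt (fun w : ℂ ↦ 1 - p * w⁻¹) (-(p * (-(p ^ 2)⁻¹))) p :=
    (hinv.const_mul p).const_sub 1
  have h4 := (h3.mul (h1.mul h2)).deriv
  have e : th p = (fun w : ℂ ↦ 1 - p * w⁻¹) * (AA p * fun w ↦ AA p (p ^ 2 * w⁻¹)) := by
    ext w
    simp only [Pi.mul_apply]
    exact th_fac hp
  rw [th1, Dw, e, h4]
  simp only [Pi.mul_apply]
  have e2 : p ^ 2 * p⁻¹ = p := by field_simp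
  rw [mul_inv_cancel₀ hp0, e2]
  field_simp
  ring

/-- Near the pole. -/
theorem near_pole {r c B0 : ℝ} (hr : r < 1) (hr0 : 0 ≤ r) (hc : 1 ≤ c) (hB0 : 1 ≤ B0) :
    ∃ C : ℝ, 1 ≤ C ∧ ∀ p lam G : ℂ, ‖p‖ ≤ r → Real.exp (-c) ≤ ‖p‖ → lam ≠ 0 → ‖lam⁻¹‖ ≤ B0 →
      ‖lam‖ ≤ B0 → ‖G‖ ≤ B0 → ∀ B : ℝ, 1 ≤ B → ∃ w : ℂ, ‖p‖ ^ 2 ≤ ‖w‖ ∧ ‖w‖ ≤ 1 ∧
        (C * B)⁻¹ ≤ ‖th p w‖ ∧ B * ‖th p w‖ ^ 2 ≤ ‖P2 lam G p w‖ := by
  obtain ⟨C1, hC1, hgr⟩ := growth hr hr0 hc hB0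
  obtain ⟨c1, hc1, hlow⟩ := AA_ge hr hr0 (ρ := 1) (by norm_num) (by linarith)
  set S : ℝ := Real.exp (C1 * 9) with hS
  have hS1 : 1 ≤ S := Real.one_le_exp (by positivity)
  -- lower bound for `P2` at the pole
  set m : ℝ := (B0⁻¹) ^ 2 * (2 * Real.pi * c1 ^ 2) ^ 2 with hm
  have hB00 : 0 < B0 := by linarith
  have hm0 : 0 < m := by
    have := Real.pi_pos
    positivity
  have hρ0 : 0 < 1 - r ^ 2 := by nlinarith
  -- the size of `η`
  set U : ℝ := Real.exp (r / (1 - r ^ 2)) with hU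
  have hU1 : 1 ≤ U := Real.one_le_exp (by positivity)
  set η1 : ℝ := min (min ((1 - r) / 2) ((1 - r ^ 2) / 4))
    (min ((1 - r ^ 2) * m / (12 * S)) (m / (2 * U ^ 4))) with hη1
  have hη10 : 0 < η1 := by
    rw [hη1]
    refine lt_min (lt_min (by linarith) (by linarith)) (lt_min ?_ ?_) <;> positivity
  have hη1a : η1 ≤ (1 - r) / 2 := (min_le_left _ _).trans (min_le_left _ _)
  have hη1b : η1 ≤ (1 - r ^ 2) / 4 := (min_le_left _ _).trans (min_le_right _ _)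
  have hη1c : η1 ≤ (1 - r ^ 2) * m / (12 * S) := (min_le_right _ _).trans (min_le_left _ _)
  have hη1d : η1 ≤ m / (2 * U ^ 4) := (min_le_right _ _).trans (min_le_right _ _)
  refine ⟨max 1 (η1 * c1 ^ 2)⁻¹, le_max_left _ _, ?_⟩
  intro p lam G hp hpc hlam0 hlam hlam' hG B hB
  have hpn : 0 < ‖p‖ := (Real.exp_pos _).trans_le hpc
  have hp0 : p ≠ 0 := norm_pos_iff.mp hpn
  have hp1 : ‖p‖ < 1 := hp.trans_lt hr
  set η : ℝ := η1 / B with hη
  have hB' : 0 < B := by linarith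
  have hη0 : 0 < η := by positivity
  have hηle : η ≤ η1 := div_le_self hη10.le hB
  have hη1' : η < 1 := by linarith
  have hone : (0 : ℝ) < 1 - η := by linarith
  have honeC : ((1 - η : ℝ) : ℂ) ≠ 0 := by exact_mod_cast hone.ne'
  set w : ℂ := p * ((1 - η : ℝ) : ℂ)⁻¹ with hw
  have hw0 : w ≠ 0 := mul_ne_zero hp0 (inv_ne_zero honeC)
  have hpw : p * w⁻¹ = ((1 - η : ℝ) : ℂ) := by
    rw [hw]; field_simp
  have hnw : ‖w‖ = ‖p‖ / (1 - η) := by
    rw [hw, norm_mul, norm_inv, Complex.norm_real, Real.norm_of_nonneg hone.le, div_eq_mul_inv]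
  have hw1 : ‖w‖ ≤ 1 := by
    rw [hnw, div_le_one hone]; linarith
  have hwp : ‖p‖ ≤ ‖w‖ := by
    rw [hnw, le_div_iff₀ hone]; nlinarith
  have hp2 : ‖p‖ ^ 2 ≤ ‖p‖ := by nlinarith
  have hx2 : ‖p ^ 2 * w⁻¹‖ ≤ 1 := by
    have : p ^ 2 * w⁻¹ = p * ((1 - η : ℝ) : ℂ) := by rw [← hpw]; ring
    rw [this, norm_mul, Complex.norm_real, Real.norm_of_nonneg hone.le]
    nlinarith
  have hthn : ‖th p w‖ = η * (‖AA p w‖ * ‖AA p (p ^ 2 * w⁻¹)‖) := by
    rw [th_fac hp1, hpw, norm_mul, norm_mul]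
    congr 1
    have : (1 : ℂ) - ((1 - η : ℝ) : ℂ) = (η : ℂ) := by push_cast; ring
    rw [this, Complex.norm_real, Real.norm_of_nonneg hη0.le]
  have hlo1 := hlow p w hp hw1
  have hlo2 := hlow p _ hp hx2
  have hup : ∀ x : ℂ, ‖x‖ ≤ 1 → ‖AA p x‖ ≤ U := by
    intro x hx
    have := AA_le hr hp (x := x) (M := 0) (by simpa using hx)
    simpa using this
  have hup1 := hup w hw1
  have hup2 := hup _ hx2
  have hth_lo : η * c1 ^ 2 ≤ ‖th p w‖ := by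
    rw [hthn, pow_two c1]
    gcongr
  have hth_hi : ‖th p w‖ ≤ η * U ^ 2 := by
    rw [hthn, pow_two U]
    gcongr
  -- `P2`
  have hpAnn : p ∈ Ann p 1 := by
    refine ⟨by simpa using hp2, ?_⟩
    have : ‖p‖ ^ 2 ≤ 1 := by nlinarith
    simp only [mul_one]
    nlinarith
  have hP2p : m ≤ ‖P2 lam G p p‖ := by
    have e : P2 lam G p p = (lam⁻¹) ^ 2 * (2 * Real.pi * I * (AA p p * AA p p)) ^ 2 := by
      rw [P2, th_p hp1 hp0, th1_p hp1 hp0]
      ring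
    rw [e, norm_mul, norm_pow, norm_pow, hm]
    have h1 : B0⁻¹ ≤ ‖lam⁻¹‖ := by
      rw [norm_inv]
      exact inv_anti₀ (norm_pos_iff.mpr hlam0) hlam'
    have h2 : 2 * Real.pi * c1 ^ 2 ≤ ‖2 * Real.pi * I * (AA p p * AA p p)‖ := by
      have h3 := hlow p p hp hp1.le
      rw [norm_mul, norm_mul, norm_mul, norm_mul, Complex.norm_I, Complex.norm_real,
        Real.norm_of_nonneg Real.pi_pos.le]
      have h4 := Real.pi_pos
      have h5 : ‖(2 : ℂ)‖ = 2 := by norm_num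
      rw [h5, mul_one, pow_two]
      gcongr
    gcongr
  have hball : ∀ v ∈ Metric.ball p ((1 - r ^ 2) * ‖p‖), v ∈ Ann p 2 := by
    intro v hv
    rw [Metric.mem_ball, dist_eq_norm] at hv
    exact Ann_ball hr hp0 hp hpAnn hv.le
  have hS' : ∀ v ∈ Ann p 2, ‖P2 lam G p v‖ ≤ S := by
    intro v hv
    have := (hgr p lam G hp hpc hlam hG 2 v hv).2.2
    rw [hS]
    norm_num at this ⊢
    exact this
  have hmaps : Set.MapsTo (P2 lam G p) (Metric.ball p ((1 - r ^ 2) * ‖p‖))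
      (Metric.ball (P2 lam G p p) (3 * S)) := by
    intro v hv
    rw [Metric.mem_ball, dist_eq_norm]
    have h1 := hS' v (hball v hv)
    have h2 := hS' p (Ann_mono hp1.le (by norm_num) hpAnn)
    have h3 := norm_sub_le (P2 lam G p v) (P2 lam G p p)
    linarith
  have hdist : dist w p ≤ 2 * η * ‖p‖ := by
    rw [dist_eq_norm]
    have e : w - p = p * (((η / (1 - η) : ℝ)) : ℂ) := by
      have h1 : (1 : ℂ) - (η : ℂ) ≠ 0 := by
        have := honeC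
        push_cast at this
        exact this
      rw [hw]
      push_cast
      field_simp
      ring
    rw [e, norm_mul, Complex.norm_real, Real.norm_of_nonneg (by positivity)]
    have : η / (1 - η) ≤ 2 * η := by
      rw [div_le_iff₀ hone]
      nlinarith
    calc ‖p‖ * (η / (1 - η)) ≤ ‖p‖ * (2 * η) := by gcongr
      _ = _ := by ring
  have hwball : w ∈ Metric.ball p ((1 - r ^ 2) * ‖p‖) := by
    rw [Metric.mem_ball]
    refine hdist.trans_lt ?_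
    gcongr
    linarith
  have hdiff : DifferentiableOn ℂ (P2 lam G p) (Metric.ball p ((1 - r ^ 2) * ‖p‖)) :=
    (diff_P2 hp1 lam G).mono fun v hv ↦ Ann_ne_zero hp0 (hball v hv)
  have hlip := Complex.dist_le_div_mul_dist_of_mapsTo_ball hdiff
    (hmaps.mono_right Metric.ball_subset_closedBall) hwball
  have hlip2 : ‖P2 lam G p w - P2 lam G p p‖ ≤ m / 2 := by
    rw [dist_eq_norm] at hlip
    refine hlip.trans ?_
    calc 3 * S / ((1 - r ^ 2) * ‖p‖) * dist w p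
        ≤ 3 * S / ((1 - r ^ 2) * ‖p‖) * (2 * η * ‖p‖) := by gcongr
      _ = 6 * S * η / (1 - r ^ 2) := by field_simp; ring
      _ ≤ 6 * S * ((1 - r ^ 2) * m / (12 * S)) / (1 - r ^ 2) := by
        gcongr
        exact hηle.trans hη1c
      _ = m / 2 := by field_simp; ring
  have hP2w : m / 2 ≤ ‖P2 lam G p w‖ := by
    have h1 := norm_sub_norm_le (P2 lam G p p) (P2 lam G p w)
    rw [norm_sub_rev] at h1
    linarith
  refine ⟨w, hp2.trans hwp, hw1, ?_, ?_⟩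
  · refine le_trans ?_ hth_lo
    rw [mul_inv]
    have h1 : (max 1 (η1 * c1 ^ 2)⁻¹)⁻¹ ≤ η1 * c1 ^ 2 := by
      apply inv_le_of_inv_le₀ (by positivity)
      exact le_max_right _ _
    calc (max 1 (η1 * c1 ^ 2)⁻¹)⁻¹ * B⁻¹ ≤ (η1 * c1 ^ 2) * B⁻¹ := by gcongr
      _ = _ := by rw [hη]; ring
  · refine le_trans ?_ hP2w
    calc B * ‖th p w‖ ^ 2 ≤ B * (η * U ^ 2) ^ 2 := by gcongr
      _ = η1 * (η1 / B) * U ^ 4 := by rw [hη]; field_simp
      _ ≤ η1 * 1 * U ^ 4 := by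
        gcongr
      _ ≤ m / (2 * U ^ 4) * 1 * U ^ 4 := by gcongr
      _ = m / 2 := by field_simp

end H32.T3

end S_H32_T3_Theta3

section S_H32_T3_Wp

namespace H32.T3

open UpperHalfPlane hiding I
open Complex EisensteinSeries ModularForm Filter Topology

/-- The lattice. -/
noncomputable def LL (τ : ℍ) : PeriodPair where
  ω₁ := τ
  ω₂ := 1
  indep := by
    rw [LinearIndependent.pair_iff]
    intro s t h
    have h1 := congrArg Complex.im h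
    have h2 := congrArg Complex.re h
    simp at h1 h2
    have h3 : s = 0 := by
      rcases h1 with h1 | h1
      · exact h1
      · exact absurd h1 τ.im_ne_zero
    subst h3
    simp at h2
    exact ⟨rfl, h2⟩

lemma LL_symm (τ : ℍ) (x : ℤ × ℤ) :
    ((LL τ).latticeEquivProd.symm x).1 = x.1 * (τ : ℂ) + x.2 := by
  rw [PeriodPair.latticeEquiv_symm_apply]
  simp [LL]

lemma riemannZeta_six : riemannZeta 6 = (Real.pi : ℂ) ^ 6 / 945 := by
  have h := riemannZeta_two_mul_nat (k := 3) (by norm_num)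
  rw [show bernoulli (2 * 3) = 1 / 42 by decide +kernel] at h
  norm_num at h
  rw [h]
  ring

lemma riemannZeta_four' : riemannZeta 4 = (Real.pi : ℂ) ^ 4 / 90 := by
  have h := riemannZeta_two_mul_nat (k := 2) (by norm_num)
  rw [show bernoulli (2 * 2) = -1 / 30 by decide +kernel] at h
  norm_num at h
  rw [h]
  ring

lemma G_eq (τ : ℍ) {k : ℕ} (hk : 3 ≤ k) :
    (LL τ).G k = riemannZeta k * eisensteinSeries (N := 1) 0 k τ := by
  rw [← tsum_eisSummand_eq_riemannZeta_mul_eisensteinSeries hk, PeriodPair.G,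
    ← (LL τ).latticeEquivProd.symm.toEquiv.tsum_eq, ← (finTwoArrowEquiv ℤ).symm.tsum_eq]
  refine tsum_congr fun x ↦ ?_
  have := LL_symm τ x
  change (((((LL τ).latticeEquivProd.symm x).1 : ℂ)) ^ k)⁻¹ = _
  rw [this]
  simp [eisSummand]

lemma g2_eq (τ : ℍ) : (LL τ).g₂ = 4 * (Real.pi : ℂ) ^ 4 / 3 * E₄ τ := by
  have h : (E₄ τ : ℂ) = (1 / 2 : ℂ) * eisensteinSeries (N := 1) 0 4 τ := rfl
  have h1 := G_eq τ (k := 4) (by norm_num)
  rw [PeriodPair.g₂, h1, h]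
  push_cast
  rw [riemannZeta_four']
  ring

lemma g3_eq (τ : ℍ) : (LL τ).g₃ = 8 * (Real.pi : ℂ) ^ 6 / 27 * E₆ τ := by
  have h : (E₆ τ : ℂ) = (1 / 2 : ℂ) * eisensteinSeries (N := 1) 0 6 τ := rfl
  have h1 := G_eq τ (k := 6) (by norm_num)
  rw [PeriodPair.g₃, h1, h]
  push_cast
  rw [riemannZeta_six]
  ring

/-- `x / (1 - x)^2`. -/
noncomputable def ff (x : ℂ) : ℂ := x / (1 - x) ^ 2

lemma tsum_row {z : ℂ} (hz : 0 < z.im) :
    ∑' n : ℤ, 1 / (z + n) ^ 2 = (2 * Real.pi * I) ^ 2 * ff (Complex.exp (2 * Real.pi * I * z)) := by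
  have h := qExpansion_identity (k := 1) le_rfl ⟨z, hz⟩
  have h1 : ‖Complex.exp (2 * Real.pi * I * z)‖ < 1 := norm_exp_two_pi_I_lt_one ⟨z, hz⟩
  have h2 := tsum_coe_mul_geometric_of_norm_lt_one h1
  simp only [pow_one, Nat.factorial_one, Nat.cast_one, div_one] at h
  change ∑' n : ℤ, 1 / (z + n) ^ 2 = _ at h
  rw [h]
  change _ * ∑' n : ℕ, (n : ℂ) * Complex.exp (2 * Real.pi * I * z) ^ n = _
  rw [h2, ff]
  ring

lemma tsum_row_neg {z : ℂ} (hz : z.im < 0) :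
    ∑' n : ℤ, 1 / (z + n) ^ 2 =
      (2 * Real.pi * I) ^ 2 * ff (Complex.exp (2 * Real.pi * I * (-z))) := by
  rw [← tsum_row (z := -z) (by simpa using hz), ← (Equiv.neg ℤ).tsum_eq]
  refine tsum_congr fun n ↦ ?_
  simp only [Equiv.neg_apply]
  congr 1
  push_cast
  ring

lemma summable_row (z : ℂ) : Summable fun n : ℤ ↦ 1 / (z + n) ^ 2 := by
  have h := linear_right_summable z 1 (k := 2) le_rfl
  refine h.congr fun n ↦ ?_
  simp

lemma norm_ff_le {x : ℂ} {ρ : ℝ} (hρ : ρ < 1) (hx : ‖x‖ ≤ ρ) : ‖ff x‖ ≤ ‖x‖ / (1 - ρ) ^ 2 := by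
  rw [ff, norm_div, norm_pow]
  have h1 := norm_sub_norm_le 1 x
  rw [norm_one] at h1
  have h2 : 0 < 1 - ρ := by linarith
  gcongr
  linarith

lemma summable_ff {q v : ℂ} (hq : ‖q‖ < 1) (hv : ‖v‖ < 1) :
    Summable fun n : ℕ ↦ ff (q ^ n * v) := by
  refine Summable.of_norm_bounded (g := fun n : ℕ ↦ ‖q‖ ^ n * (‖v‖ / (1 - ‖v‖) ^ 2))
    ((summable_geometric_of_lt_one (norm_nonneg _) hq).mul_right _) fun n ↦ ?_
  have h1 : ‖q ^ n * v‖ ≤ ‖v‖ := by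
    rw [norm_mul, norm_pow]
    exact mul_le_of_le_one_left (norm_nonneg _) (pow_le_one₀ (norm_nonneg _) hq.le)
  refine (norm_ff_le hv h1).trans (le_of_eq ?_)
  rw [norm_mul, norm_pow]
  ring

/-- The row-sum formula for `℘`. -/
theorem wp_eq (τ : ℍ) {u : ℂ} (h0 : 0 < u.im) (h1 : u.im < τ.im) :
    (LL τ).weierstrassP u = (2 * Real.pi * I) ^ 2 *
      (∑' n : ℕ, ff (Complex.exp (2 * Real.pi * I * τ) ^ n * Complex.exp (2 * Real.pi * I * u)) +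
        ∑' n : ℕ, ff (Complex.exp (2 * Real.pi * I * τ) ^ n *
          Complex.exp (2 * Real.pi * I * (τ - u)))) - G2 τ := by
  set q := Complex.exp (2 * Real.pi * I * τ) with hq
  set v := Complex.exp (2 * Real.pi * I * u) with hv
  set v' := Complex.exp (2 * Real.pi * I * (τ - u)) with hv'
  have hq1 : ‖q‖ < 1 := norm_exp_two_pi_I_lt_one τ
  have hv1 : ‖v‖ < 1 := norm_exp_two_pi_I_lt_one ⟨u, h0⟩
  have hv1' : ‖v'‖ < 1 := norm_exp_two_pi_I_lt_one ⟨τ - u, by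
    change 0 < ((τ : ℂ) - u).im
    rw [Complex.sub_im, UpperHalfPlane.coe_im]; linarith⟩
  -- the double sum
  have hs1 := (LL τ).hasSum_weierstrassP u
  have hs2 : HasSum (fun x : ℤ × ℤ ↦ 1 / (u - (x.1 * (τ : ℂ) + x.2)) ^ 2 -
      1 / (x.1 * (τ : ℂ) + x.2) ^ 2) ((LL τ).weierstrassP u) := by
    rw [← (LL τ).latticeEquivProd.symm.toEquiv.hasSum_iff] at hs1
    have e : (fun x : ℤ × ℤ ↦ 1 / (u - (x.1 * (τ : ℂ) + x.2)) ^ 2 -
      1 / (x.1 * (τ : ℂ) + x.2) ^ 2) = (fun l : (LL τ).lattice ↦ 1 / (u - (l : ℂ)) ^ 2 -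
        1 / (l : ℂ) ^ 2) ∘ (LL τ).latticeEquivProd.symm.toEquiv := by
      ext x
      have := LL_symm τ x
      simp only [Function.comp_apply]
      change _ = 1 / (u - ((((LL τ).latticeEquivProd.symm x).1 : ℂ))) ^ 2 -
        1 / ((((LL τ).latticeEquivProd.symm x).1 : ℂ)) ^ 2
      rw [this]
    rw [e]
    exact hs1
  -- rows
  set R : ℤ → ℂ := fun m ↦ ∑' n : ℤ, 1 / ((u - m * (τ : ℂ)) + n) ^ 2 with hR
  have hrow : ∀ m : ℤ, HasSum (fun n : ℤ ↦ 1 / (u - (m * (τ : ℂ) + n)) ^ 2 -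
      1 / (m * (τ : ℂ) + n) ^ 2) (R m - e2Summand m τ) := by
    intro m
    refine HasSum.sub ?_ ?_
    · have h2 := (summable_row (u - m * (τ : ℂ))).hasSum
      rw [← (Equiv.neg ℤ).hasSum_iff] at h2
      refine h2.congr_fun fun n ↦ ?_
      simp only [Function.comp_apply, Equiv.neg_apply]
      congr 2
      push_cast
      ring
    · have h2 := (e2Summand_summable m τ).hasSum
      refine h2.congr_fun fun n ↦ ?_
      simp [eisSummand]
  have hcol : HasSum (fun m : ℤ ↦ R m - e2Summand m τ) ((LL τ).weierstrassP u) :=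
    hs2.prod_fiberwise hrow
  -- the sum of the rows
  have hR1 : ∀ n : ℕ, R (-(n : ℤ)) = (2 * Real.pi * I) ^ 2 * ff (q ^ n * v) := by
    intro n
    have him : 0 < (u - ((-(n : ℤ) : ℤ) : ℂ) * (τ : ℂ)).im := by
      have h3 := τ.im_pos
      have h4 : (u - ((-(n : ℤ) : ℤ) : ℂ) * (τ : ℂ)).im = u.im + n * τ.im := by
        push_cast
        simp
      rw [h4]
      positivity
    rw [hR]
    simp only
    rw [tsum_row him]
    congr 2
    rw [hq, hv, ← Complex.exp_nat_mul, ← Complex.exp_add]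
    congr 1
    push_cast
    ring
  have hR2 : ∀ n : ℕ, R ((n : ℤ) + 1) = (2 * Real.pi * I) ^ 2 * ff (q ^ n * v') := by
    intro n
    have him : (u - (((n : ℤ) + 1 : ℤ) : ℂ) * (τ : ℂ)).im < 0 := by
      have h3 := τ.im_pos
      have h4 : (u - (((n : ℤ) + 1 : ℤ) : ℂ) * (τ : ℂ)).im = u.im - (n + 1) * τ.im := by
        push_cast
        simp
      rw [h4]
      have h5 : (0 : ℝ) ≤ n := Nat.cast_nonneg n
      nlinarith
    rw [hR]
    simp only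
    rw [tsum_row_neg him]
    congr 2
    rw [hq, hv', ← Complex.exp_nat_mul, ← Complex.exp_add]
    congr 1
    push_cast
    ring
  have hsR : HasSum R ((2 * Real.pi * I) ^ 2 * (∑' n : ℕ, ff (q ^ n * v)) +
      (2 * Real.pi * I) ^ 2 * ∑' n : ℕ, ff (q ^ n * v')) := by
    rw [← (Equiv.neg ℤ).hasSum_iff]
    refine HasSum.of_nat_of_neg_add_one ?_ ?_
    · have := ((summable_ff hq1 hv1).hasSum).mul_left ((2 * Real.pi * I) ^ 2)
      refine this.congr_fun fun n ↦ ?_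
      simp only [Function.comp_apply, Equiv.neg_apply]
      exact hR1 n
    · have := ((summable_ff hq1 hv1').hasSum).mul_left ((2 * Real.pi * I) ^ 2)
      refine this.congr_fun fun n ↦ ?_
      simp only [Function.comp_apply, Equiv.neg_apply, neg_neg]
      exact hR2 n
  have he : HasSum (fun m : ℤ ↦ e2Summand m τ) _ :=
    (hsR.sub hcol).congr_fun fun m ↦ (by ring : e2Summand m τ = R m - (R m - e2Summand m τ))
  have hG : G2 τ = _ := (tsum_eq_of_summable_unconditional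
    (L := SummationFilter.symmetricIcc ℤ) he.summable).trans he.tsum_eq
  rw [hG]
  ring

end H32.T3

end S_H32_T3_Wp
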