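import Mathlib
import Pool.Agent.H32.AKM.P04
import Pool.Agent.H32.AKM.P09
import Pool.Agent.H32.AKM.P10

/-! Modular Schanuel with derivatives for points algebraic over a field with good approximations, part 11: this file joins several modules to save build time. -/

section S_H32_T3_Wp2

namespace H32.T3

open UpperHalfPlane hiding I
open Complex EisensteinSeries ModularForm Filter Topology

noncomputable def gg (p x : ℂ) : ℂ := ∑' n : ℕ, p ^ (2 * n + 1) * x / (1 - p ^ (2 * n + 1) * x)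

lemma norm_pow_mul_le {p x : ℂ} (hp : ‖p‖ < 1) (n : ℕ) : ‖p ^ (2 * n + 1) * x‖ ≤ ‖p * x‖ := by
  calc ‖p ^ (2 * n + 1) * x‖ = ‖p‖ ^ (2 * n) * ‖p * x‖ := by
        rw [norm_mul, norm_pow, norm_mul]; ring
    _ ≤ 1 * ‖p * x‖ := by
        gcongr
        exact pow_le_one₀ (norm_nonneg _) hp.le
    _ = _ := one_mul _

lemma one_sub_ne {y : ℂ} (hy : ‖y‖ < 1) : 1 - y ≠ 0 := by
  intro h
  have : y = 1 := by linear_combination -h
  rw [this, norm_one] at hy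
  exact lt_irrefl _ hy

lemma hasDerivAt_gg {p x : ℂ} (hp : ‖p‖ < 1) (hx : ‖p * x‖ < 1) :
    HasDerivAt (gg p) (∑' n : ℕ, p ^ (2 * n + 1) / (1 - p ^ (2 * n + 1) * x) ^ 2) x := by
  obtain ⟨ρ, hρ1, hρ2⟩ := exists_between hx
  have hρ0 : 0 < ρ := (norm_nonneg _).trans_lt hρ1
  set U : Set ℂ := {y | ‖p * y‖ < ρ} with hU
  have hUo : IsOpen U := isOpen_lt (by fun_prop) continuous_const
  have hxU : x ∈ U := hρ1
  set F : ℕ → ℂ → ℂ := fun n y ↦ p ^ (2 * n + 1) * y / (1 - p ^ (2 * n + 1) * y) with hF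
  have hne : ∀ n, ∀ y ∈ U, 1 - p ^ (2 * n + 1) * y ≠ 0 := fun n y hy ↦
    one_sub_ne (((norm_pow_mul_le hp n).trans_lt hy).trans hρ2)
  have hd : ∀ n, ∀ y ∈ U, HasDerivAt (F n)
      (p ^ (2 * n + 1) / (1 - p ^ (2 * n + 1) * y) ^ 2) y := by
    intro n y hy
    have h1 : HasDerivAt (fun y : ℂ ↦ p ^ (2 * n + 1) * y) (p ^ (2 * n + 1) * 1) y :=
      (hasDerivAt_id y).const_mul _
    have h2 := h1.fun_div (h1.const_sub 1) (hne n y hy)
    refine h2.congr_deriv ?_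
    congr 1
    ring
  have hu : Summable fun n : ℕ ↦ (‖p‖ ^ 2) ^ n * (ρ / (1 - ρ)) :=
    (summable_geometric_of_lt_one (by positivity) (by nlinarith [norm_nonneg p])).mul_right _
  have hle : ∀ (n : ℕ) (y : ℂ), y ∈ U → ‖F n y‖ ≤ (‖p‖ ^ 2) ^ n * (ρ / (1 - ρ)) := by
    intro n y hy
    rw [hF]
    simp only
    rw [norm_div]
    have h1 := norm_sub_norm_le 1 (p ^ (2 * n + 1) * y)
    rw [norm_one] at h1
    have h2 := (norm_pow_mul_le (x := y) hp n).trans hy.le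
    have h3 : ‖p ^ (2 * n + 1) * y‖ ≤ (‖p‖ ^ 2) ^ n * ρ := by
      calc ‖p ^ (2 * n + 1) * y‖ = (‖p‖ ^ 2) ^ n * ‖p * y‖ := by
            rw [norm_mul, norm_pow, norm_mul]; ring
        _ ≤ _ := by gcongr; exact hy.le
    have h4 : 0 < 1 - ρ := by linarith
    rw [mul_div_assoc']
    gcongr
    linarith
  have hdiff := differentiableOn_tsum_of_summable_norm hu
    (fun n y hy ↦ (hd n y hy).differentiableAt.differentiableWithinAt) hUo hle
  have h1 := hasSum_deriv_of_summable_norm hu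
    (fun n y hy ↦ (hd n y hy).differentiableAt.differentiableWithinAt) hUo hle hxU
  have h2 := ((hdiff x hxU).differentiableAt (hUo.mem_nhds hxU)).hasDerivAt
  have h3 : (fun n ↦ deriv (F n) x) =
      fun n : ℕ ↦ p ^ (2 * n + 1) / (1 - p ^ (2 * n + 1) * x) ^ 2 := by
    ext n; exact (hd n x hxU).deriv
  rw [h3] at h1
  rw [h1.tsum_eq]
  exact h2

lemma mul_deriv_gg {p x : ℂ} :
    x * ∑' n : ℕ, p ^ (2 * n + 1) / (1 - p ^ (2 * n + 1) * x) ^ 2 =
      ∑' n : ℕ, ff (p ^ (2 * n + 1) * x) := by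
  rw [← tsum_mul_left]
  refine tsum_congr fun n ↦ ?_
  rw [ff]
  ring

lemma AA_deriv {p x : ℂ} (hp : ‖p‖ < 1) (hx : ‖p * x‖ < 1) :
    x * deriv (AA p) x = -gg p x * AA p x := by
  have h := logDeriv_AA hp hx
  have h0 := AA_ne_zero hp hx
  rw [logDeriv_apply, div_eq_iff h0] at h
  rw [h, gg, ← mul_assoc, ← tsum_mul_left, ← tsum_neg]
  congr 1
  refine tsum_congr fun n ↦ ?_
  ring

/-- The region where the theta product has no zero. -/
def Reg (p : ℂ) : Set ℂ := {w | w ≠ 0 ∧ ‖p * w‖ < 1 ∧ ‖p * w⁻¹‖ < 1}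

lemma isOpen_Reg (p : ℂ) : IsOpen (Reg p) := by
  rw [isOpen_iff_mem_nhds]
  intro w hw
  have h1 : ContinuousAt (fun w : ℂ ↦ ‖p * w‖) w := by fun_prop
  have h2 : ContinuousAt (fun w : ℂ ↦ ‖p * w⁻¹‖) w :=
    ((continuousAt_inv₀ hw.1).const_mul p).norm
  filter_upwards [isOpen_U.mem_nhds hw.1, h1.eventually_lt continuousAt_const hw.2.1,
    h2.eventually_lt continuousAt_const hw.2.2] with v h3 h4 h5 using ⟨h3, h4, h5⟩

lemma th_ne_zero {p w : ℂ} (hp : ‖p‖ < 1) (hw : w ∈ Reg p) : th p w ≠ 0 :=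
  mul_ne_zero (AA_ne_zero hp hw.2.1) (AA_ne_zero hp hw.2.2)

noncomputable def zt (p w : ℂ) : ℂ := 2 * Real.pi * I * (gg p w⁻¹ - gg p w)

lemma th1_eq {p w : ℂ} (hp : ‖p‖ < 1) (hw : w ∈ Reg p) : th1 p w = th p w * zt p w := by
  obtain ⟨h0, h1, h2⟩ := hw
  have d1 : HasDerivAt (AA p) (deriv (AA p) w) w := (differentiable_AA hp w).hasDerivAt
  have d2 : HasDerivAt (fun w ↦ AA p w⁻¹) (deriv (AA p) w⁻¹ * (-(w ^ 2)⁻¹)) w :=
    HasDerivAt.comp (h₂ := AA p) (h := fun w : ℂ ↦ w⁻¹) w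
      (differentiable_AA hp w⁻¹).hasDerivAt (hasDerivAt_inv h0)
  have d3 := (d1.mul d2).deriv
  have e : th p = AA p * fun w ↦ AA p w⁻¹ := rfl
  rw [th1, Dw, e, d3]
  have e1 := AA_deriv hp h1
  have e2 := AA_deriv hp h2
  have e3 : 2 * Real.pi * I * w * (deriv (AA p) w * AA p w⁻¹ +
      AA p w * (deriv (AA p) w⁻¹ * (-(w ^ 2)⁻¹))) =
      2 * Real.pi * I * ((w * deriv (AA p) w) * AA p w⁻¹ -
        AA p w * (w⁻¹ * deriv (AA p) w⁻¹)) := by
    field_simp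
    ring
  rw [e3, e1, e2, zt]
  simp only [Pi.mul_apply]
  ring

lemma hasDerivAt_zt {p w : ℂ} (hp : ‖p‖ < 1) (hw : w ∈ Reg p) :
    ∃ d : ℂ, HasDerivAt (zt p) d w ∧ 2 * Real.pi * I * w * d =
      -((2 * Real.pi * I) ^ 2 * (∑' n : ℕ, ff (p ^ (2 * n + 1) * w) +
        ∑' n : ℕ, ff (p ^ (2 * n + 1) * w⁻¹))) := by
  obtain ⟨h0, h1, h2⟩ := hw
  have d1 := hasDerivAt_gg hp h1
  have d2 := HasDerivAt.comp (h₂ := gg p) (h := fun w : ℂ ↦ w⁻¹) w (hasDerivAt_gg hp h2)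
    (hasDerivAt_inv h0)
  have d3 := (d2.sub d1).const_mul (2 * Real.pi * I)
  refine ⟨_, d3, ?_⟩
  rw [← mul_deriv_gg, ← mul_deriv_gg]
  field_simp
  ring

lemma P2_eq {p w : ℂ} (hp : ‖p‖ < 1) (hw : w ∈ Reg p) (lam G : ℂ) :
    P2 lam G p w = (lam ^ 2)⁻¹ * (th p w ^ 2 * ((2 * Real.pi * I) ^ 2 *
      (∑' n : ℕ, ff (p ^ (2 * n + 1) * w) + ∑' n : ℕ, ff (p ^ (2 * n + 1) * w⁻¹)) - G)) := by
  obtain ⟨d, hd, hd2⟩ := hasDerivAt_zt hp hw
  have h1 : HasDerivAt (th p) (deriv (th p) w) w :=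
    ((diff_th hp _ hw.1).differentiableAt (isOpen_U.mem_nhds hw.1)).hasDerivAt
  have h2 := h1.mul hd
  have h3 : th1 p =ᶠ[𝓝 w] th p * zt p := by
    filter_upwards [(isOpen_Reg p).mem_nhds hw] with v hv using th1_eq hp hv
  have h4 := (h2.congr_of_eventuallyEq h3).deriv
  have h5 : th2 p w = th1 p w * zt p w + th p w * (2 * Real.pi * I * w * d) := by
    rw [th2, Dw, h4, th1, Dw]
    ring
  rw [P2, h5, hd2, th1_eq hp hw]
  congr 1
  ring

/-- `exp (2 π i s)`. -/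
noncomputable def ee (s : ℂ) : ℂ := Complex.exp (2 * Real.pi * I * s)

noncomputable def pp (τ : ℍ) : ℂ := Complex.exp (Real.pi * I * τ)

lemma ee_ne (s : ℂ) : ee s ≠ 0 := Complex.exp_ne_zero _

lemma pp_ne (τ : ℍ) : pp τ ≠ 0 := Complex.exp_ne_zero _

lemma hasDerivAt_ee (s : ℂ) : HasDerivAt ee (2 * Real.pi * I * ee s) s := by
  have h : HasDerivAt (fun s : ℂ ↦ 2 * Real.pi * I * s) (2 * Real.pi * I * 1) s :=
    (hasDerivAt_id s).const_mul _
  refine h.cexp.congr_deriv ?_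
  rw [ee]
  ring

lemma norm_pp (τ : ℍ) : ‖pp τ‖ = Real.exp (-(Real.pi * τ.im)) := by
  rw [pp, Complex.norm_exp]
  congr 1
  simp [Complex.mul_re, Complex.mul_im]

lemma norm_pp_lt (τ : ℍ) : ‖pp τ‖ < 1 := by
  rw [norm_pp]
  apply Real.exp_lt_one_iff.mpr
  have := τ.im_pos
  have := Real.pi_pos
  nlinarith

lemma norm_ee (s : ℂ) : ‖ee s‖ = Real.exp (-(2 * Real.pi * s.im)) := by
  rw [ee, Complex.norm_exp]
  congr 1
  simp [Complex.mul_re, Complex.mul_im]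

lemma ee_mem_Reg {τ : ℍ} {s : ℂ} (hs : |s.im| < τ.im / 2) : ee s ∈ Reg (pp τ) := by
  rw [abs_lt] at hs
  refine ⟨ee_ne s, ?_, ?_⟩
  · rw [norm_mul, norm_pp, norm_ee, ← Real.exp_add]
    apply Real.exp_lt_one_iff.mpr
    nlinarith [Real.pi_pos]
  · rw [norm_mul, norm_inv, norm_pp, norm_ee, ← Real.exp_neg, ← Real.exp_add]
    apply Real.exp_lt_one_iff.mpr
    nlinarith [Real.pi_pos]

/-- The numerator of `℘`. -/
theorem P2_wp {τ : ℍ} {s : ℂ} (hs : |s.im| < τ.im / 2) (lam : ℂ) :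
    P2 lam (G2 τ) (pp τ) (ee s) =
      (lam ^ 2)⁻¹ * (th (pp τ) (ee s) ^ 2 * (LL τ).weierstrassP (s + τ / 2)) := by
  rw [P2_eq (norm_pp_lt τ) (ee_mem_Reg hs)]
  have hs' := hs
  rw [abs_lt] at hs
  have him : (s + τ / 2 : ℂ).im = s.im + τ.im / 2 := by
    rw [Complex.add_im]
    congr 1
    have : ((τ : ℂ) / 2) = (τ : ℂ) / ((2 : ℝ) : ℂ) := by norm_num
    rw [this, Complex.div_ofReal_im, UpperHalfPlane.coe_im]
  rw [wp_eq τ (u := s + τ / 2) (by rw [him]; linarith) (by rw [him]; linarith)]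
  congr 5
  · refine tsum_congr fun n ↦ ?_
    congr 1
    rw [pp, ee, ← Complex.exp_nat_mul, ← Complex.exp_nat_mul, ← Complex.exp_add,
      ← Complex.exp_add]
    congr 1
    push_cast
    ring
  · refine tsum_congr fun n ↦ ?_
    congr 1
    rw [pp, ee, ← Complex.exp_neg, ← Complex.exp_nat_mul, ← Complex.exp_nat_mul,
      ← Complex.exp_add, ← Complex.exp_add]
    congr 1
    push_cast
    ring

/-- The derivative of the zeta part. -/
theorem hasDerivAt_P1 {τ : ℍ} {s : ℂ} (hs : |s.im| < τ.im / 2) {lam : ℂ} (hlam : lam ≠ 0) :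
    HasDerivAt (fun s ↦ P1 lam (pp τ) (ee s) / th (pp τ) (ee s))
      (lam * (-((lam ^ 2)⁻¹ * (LL τ).weierstrassP (s + τ / 2)) - (lam ^ 2)⁻¹ * G2 τ)) s := by
  have hw := ee_mem_Reg hs
  have hp := norm_pp_lt τ
  obtain ⟨d, hd, hd2⟩ := hasDerivAt_zt hp hw
  have h1 := (hd.comp s (hasDerivAt_ee s)).const_mul lam⁻¹
  have hev : (fun s ↦ P1 lam (pp τ) (ee s) / th (pp τ) (ee s)) =ᶠ[𝓝 s]
      fun s ↦ lam⁻¹ * (zt (pp τ) ∘ ee) s := by
    have hc : ContinuousAt ee s := (hasDerivAt_ee s).continuousAt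
    filter_upwards [hc.preimage_mem_nhds ((isOpen_Reg _).mem_nhds hw)] with v hv
    have h3 := th_ne_zero hp hv
    rw [P1, th1_eq hp hv, Function.comp_apply]
    field_simp
  refine (h1.congr_of_eventuallyEq hev).congr_deriv ?_
  have h4 := P2_eq hp hw lam (G2 τ)
  have h5 := P2_wp hs lam
  rw [h4] at h5
  have h6 := th_ne_zero hp hw
  have h7 : (2 * Real.pi * I) ^ 2 *
      (∑' n : ℕ, ff (pp τ ^ (2 * n + 1) * ee s) + ∑' n : ℕ, ff (pp τ ^ (2 * n + 1) * (ee s)⁻¹)) -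
      G2 τ = (LL τ).weierstrassP (s + τ / 2) := by
    have h8 : (lam ^ 2)⁻¹ ≠ 0 := inv_ne_zero (pow_ne_zero _ hlam)
    exact mul_left_cancel₀ (pow_ne_zero 2 h6) (mul_left_cancel₀ h8 h5)
  rw [← h7]
  have h9 : lam⁻¹ * (d * (2 * Real.pi * I * ee s)) = lam⁻¹ * (2 * Real.pi * I * ee s * d) := by ring
  rw [h9, hd2]
  field_simp
  ring

end H32.T3

end S_H32_T3_Wp2

section S_H32_T3_Wp3

namespace H32.T3

open UpperHalfPlane hiding I
open Complex EisensteinSeries ModularForm Filter Topology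

/-- The open strip. -/
def Strip (τ : ℍ) : Set ℂ := {u | 0 < u.im ∧ u.im < τ.im}

lemma isOpen_Strip (τ : ℍ) : IsOpen (Strip τ) :=
  (isOpen_lt continuous_const Complex.continuous_im).inter
    (isOpen_lt Complex.continuous_im continuous_const)

lemma isPreconnected_Strip (τ : ℍ) : IsPreconnected (Strip τ) := by
  have h : Convex ℝ (Strip τ) :=
    (convex_halfSpace_im_gt 0).inter (convex_halfSpace_im_lt τ.im)
  exact h.isPreconnected

lemma Strip_lattice {τ : ℍ} {u : ℂ} (hu : u ∈ Strip τ) : u ∉ (LL τ).lattice := by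
  intro h
  rw [PeriodPair.mem_lattice] at h
  obtain ⟨m, n, h⟩ := h
  have h1 := congrArg Complex.im h
  have h2 : ((m : ℂ) * (LL τ).ω₁ + (n : ℂ) * (LL τ).ω₂).im = m * τ.im := by
    change ((m : ℂ) * (τ : ℂ) + (n : ℂ) * 1).im = m * τ.im
    simp
  rw [h2] at h1
  obtain ⟨h3, h4⟩ := hu
  rw [← h1] at h3 h4
  have hτ := τ.im_pos
  have h5 : (0 : ℝ) < m := by
    by_contra hcon
    push Not at hcon
    nlinarith
  have h6 : (m : ℝ) < 1 := by
    by_contra hcon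
    push Not at hcon
    nlinarith
  have h7 : 0 < m := by exact_mod_cast h5
  have h8 : m < 1 := by exact_mod_cast h6
  omega

lemma hasDerivAt_wp {τ : ℍ} {u : ℂ} (hu : u ∈ Strip τ) :
    HasDerivAt (LL τ).weierstrassP ((LL τ).derivWeierstrassP u) u := by
  have h1 := (LL τ).analyticOnNhd_weierstrassP u (Strip_lattice hu)
  have h2 := h1.differentiableAt.hasDerivAt
  rwa [PeriodPair.deriv_weierstrassP] at h2

lemma wp_not_const (τ : ℍ) : ¬ ∀ z ∈ Strip τ, (LL τ).derivWeierstrassP z = 0 := by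
  intro hz
  -- `℘` is constant on the strip
  set z₀ : ℂ := I * (τ.im / 2 : ℝ) with hz₀
  have hτ := τ.im_pos
  have hI : ∀ t : ℝ, (I * (t : ℂ)).im = t := fun t ↦ by simp
  have hz0 : z₀ ∈ Strip τ := by
    rw [hz₀]
    refine ⟨?_, ?_⟩ <;> rw [hI] <;> linarith
  have hconst : ∀ z ∈ Strip τ, (LL τ).weierstrassP z = (LL τ).weierstrassP z₀ := by
    intro z hz'
    have hd : DifferentiableOn ℂ (LL τ).weierstrassP (Strip τ) := fun w hw ↦
      (hasDerivAt_wp hw).differentiableAt.differentiableWithinAt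
    have hder : (Strip τ).EqOn (deriv (LL τ).weierstrassP) 0 := fun w hw ↦ by
      rw [PeriodPair.deriv_weierstrassP]
      exact hz w hw
    exact (isOpen_Strip τ).is_const_of_deriv_eq_zero (isPreconnected_Strip τ) hd hder hz' hz0
  set c := (LL τ).weierstrassP z₀
  have hcont : ContinuousAt ((LL τ).weierstrassPExcept 0) 0 :=
    ((LL τ).analyticAt_weierstrassPExcept 0).continuousAt
  have h0mem : (0 : ℂ) ∈ (LL τ).lattice := zero_mem _
  -- limits along `i t`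
  have hline : Tendsto (fun t : ℝ ↦ I * (t : ℂ)) (𝓝[>] 0) (𝓝 0) := by
    have : Tendsto (fun t : ℝ ↦ I * (t : ℂ)) (𝓝 0) (𝓝 (I * ((0 : ℝ) : ℂ))) :=
      (Continuous.tendsto (by fun_prop) 0)
    rw [Complex.ofReal_zero, mul_zero] at this
    exact this.mono_left nhdsWithin_le_nhds
  have hl1 : Tendsto (fun t : ℝ ↦ (I * (t : ℂ)) ^ 2 * (LL τ).weierstrassPExcept 0 (I * t) + 1)
      (𝓝[>] 0) (𝓝 (0 ^ 2 * (LL τ).weierstrassPExcept 0 0 + 1)) :=
    ((hline.pow 2).mul (hcont.tendsto.comp hline)).add_const 1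
  have hl2 : Tendsto (fun t : ℝ ↦ (I * (t : ℂ)) ^ 2 * c) (𝓝[>] 0) (𝓝 (0 ^ 2 * c)) :=
    (hline.pow 2).mul_const c
  have heq : (fun t : ℝ ↦ (I * (t : ℂ)) ^ 2 * (LL τ).weierstrassPExcept 0 (I * t) + 1) =ᶠ[𝓝[>] 0]
      fun t : ℝ ↦ (I * (t : ℂ)) ^ 2 * c := by
    filter_upwards [Ioo_mem_nhdsGT hτ] with t ht
    have htS : I * (t : ℂ) ∈ Strip τ := by
      refine ⟨?_, ?_⟩ <;> rw [hI]
      · exact ht.1
      · exact ht.2
    have h1 := (LL τ).weierstrassPExcept_add ⟨0, h0mem⟩ (I * t)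
    rw [hconst _ htS] at h1
    simp only [sub_zero] at h1
    have hne : I * (t : ℂ) ≠ 0 := mul_ne_zero I_ne_zero (by exact_mod_cast ht.1.ne')
    have h3 : (I * (t : ℂ)) ^ 2 * (1 / (I * t) ^ 2) = 1 := mul_one_div_cancel (pow_ne_zero _ hne)
    have h4 : (1 : ℂ) / 0 ^ 2 = 0 := by simp
    rw [← h1, h4, sub_zero]
    linear_combination -h3
  have h2 := tendsto_nhds_unique (hl1.congr' heq) hl2
  norm_num at h2

theorem hasDerivAt_wp' {τ : ℍ} {u : ℂ} (hu : u ∈ Strip τ) :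
    HasDerivAt (LL τ).derivWeierstrassP
      (6 * (LL τ).weierstrassP u ^ 2 - (LL τ).g₂ / 2) u := by
  set P := (LL τ).weierstrassP
  set P' := (LL τ).derivWeierstrassP with hP'
  have hanP : AnalyticOnNhd ℂ P (Strip τ) := fun z hz ↦
    (LL τ).analyticOnNhd_weierstrassP z (Strip_lattice hz)
  have hanP' : AnalyticOnNhd ℂ P' (Strip τ) := fun z hz ↦
    (LL τ).analyticOnNhd_derivWeierstrassP z (Strip_lattice hz)
  have hprod : ∀ z ∈ Strip τ, P' z * (deriv P' z - (6 * P z ^ 2 - (LL τ).g₂ / 2)) = 0 := by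
    intro z hz
    have h1 : HasDerivAt P (P' z) z := hasDerivAt_wp hz
    have h2 : HasDerivAt P' (deriv P' z) z := (hanP' z hz).differentiableAt.hasDerivAt
    have h3 : HasDerivAt (fun z ↦ P' z ^ 2) (2 * P' z ^ 1 * deriv P' z) z := by
      simpa using h2.fun_pow 2
    have h4 : HasDerivAt (fun z ↦ 4 * P z ^ 3 - (LL τ).g₂ * P z - (LL τ).g₃)
        (4 * (3 * P z ^ 2 * P' z) - (LL τ).g₂ * P' z) z := by
      have := ((h1.fun_pow 3).const_mul 4).fun_sub (h1.const_mul (LL τ).g₂)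
      simpa using this.sub_const (LL τ).g₃
    have h5 : (fun z ↦ P' z ^ 2) =ᶠ[𝓝 z] fun z ↦ 4 * P z ^ 3 - (LL τ).g₂ * P z - (LL τ).g₃ := by
      filter_upwards [(isOpen_Strip τ).mem_nhds hz] with w hw
      exact (LL τ).derivWeierstrassP_sq w (Strip_lattice hw)
    have h6 := h3.unique (h4.congr_of_eventuallyEq h5)
    linear_combination h6 / 2
  have han2 : AnalyticOnNhd ℂ (fun z ↦ deriv P' z - (6 * P z ^ 2 - (LL τ).g₂ / 2)) (Strip τ) := by
    intro z hz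
    have h1 := hanP z hz
    have h2 := (hanP' z hz).deriv
    fun_prop
  rcases hanP'.eq_zero_or_eq_zero_of_mul_eq_zero han2 hprod (isPreconnected_Strip τ) with h | h
  · exact absurd h (wp_not_const τ)
  · have h1 := h u hu
    have h2 : deriv P' u = 6 * P u ^ 2 - (LL τ).g₂ / 2 := by linear_combination h1
    rw [← h2]
    exact (hanP' u hu).differentiableAt.hasDerivAt

lemma half_mem {τ : ℍ} {s : ℂ} (hs : |s.im| < τ.im / 2) : s + (τ : ℂ) / 2 ∈ Strip τ := by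
  have him : (s + τ / 2 : ℂ).im = s.im + τ.im / 2 := by
    rw [Complex.add_im]
    congr 1
    have : ((τ : ℂ) / 2) = (τ : ℂ) / ((2 : ℝ) : ℂ) := by norm_num
    rw [this, Complex.div_ofReal_im, UpperHalfPlane.coe_im]
  rw [abs_lt] at hs
  refine ⟨?_, ?_⟩ <;> rw [him] <;> linarith

lemma wp'_half (τ : ℍ) : (LL τ).derivWeierstrassP ((τ : ℂ) / 2) = 0 := by
  have h1 := (LL τ).derivWeierstrassP_neg ((τ : ℂ) / 2)
  have h2 := (LL τ).derivWeierstrassP_add_coe (-((τ : ℂ) / 2)) ⟨(LL τ).ω₁, (LL τ).ω₁_mem_lattice⟩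
  have h3 : (-((τ : ℂ) / 2)) + (LL τ).ω₁ = (τ : ℂ) / 2 := by
    change (-((τ : ℂ) / 2)) + (τ : ℂ) = (τ : ℂ) / 2
    ring
  change (LL τ).derivWeierstrassP ((-((τ : ℂ) / 2)) + (LL τ).ω₁) = _ at h2
  rw [h3, h1] at h2
  have h4 : (2 : ℂ) * (LL τ).derivWeierstrassP ((τ : ℂ) / 2) = 0 := by linear_combination h2
  rcases mul_eq_zero.mp h4 with h | h
  · norm_num at h
  · exact h

/-- The data attached to `τ` and a square root `lam` of `g₃ / g₂`. -/
theorem system {τ : ℍ} {lam : ℂ} (h4 : E₄ τ ≠ 0) (h6 : E₆ τ ≠ 0)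
    (hlam : lam ^ 2 = (LL τ).g₃ / (LL τ).g₂) :
    ∃ X X1 Y : ℂ → ℂ,
      (∀ s : ℂ, |s.im| < τ.im / 2 →
        P2 lam (G2 τ) (pp τ) (ee s) = th (pp τ) (ee s) ^ 2 * X s ∧
        P1 lam (pp τ) (ee s) = th (pp τ) (ee s) * Y s ∧
        HasDerivAt X (lam * X1 s) s ∧
        HasDerivAt X1 (lam * (6 * X s ^ 2 - 27 / 2 * (E₄ τ ^ 3 / E₆ τ ^ 2))) s ∧
        HasDerivAt Y (lam * (-X s - 3 / 2 * (E2 τ * E₄ τ / E₆ τ))) s) ∧
      X1 0 = 0 ∧ Y 0 = 0 ∧
      4 * X 0 ^ 3 - 2 * (27 / 2 * (E₄ τ ^ 3 / E₆ τ ^ 2)) * X 0 -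
        2 * (27 / 2 * (E₄ τ ^ 3 / E₆ τ ^ 2)) = 0 := by
  have hpi : (Real.pi : ℂ) ≠ 0 := by exact_mod_cast Real.pi_ne_zero
  have hg2 := g2_eq τ
  have hg3 := g3_eq τ
  have hg20 : (LL τ).g₂ ≠ 0 := by
    rw [hg2]
    exact mul_ne_zero (div_ne_zero (mul_ne_zero (by norm_num) (pow_ne_zero _ hpi)) (by norm_num)) h4
  have hg30 : (LL τ).g₃ ≠ 0 := by
    rw [hg3]
    exact mul_ne_zero (div_ne_zero (mul_ne_zero (by norm_num) (pow_ne_zero _ hpi)) (by norm_num)) h6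
  have hlam0 : lam ≠ 0 := by
    rintro rfl
    rw [zero_pow (by norm_num)] at hlam
    exact div_ne_zero hg30 hg20 hlam.symm
  have hh : (LL τ).g₂ / (2 * lam ^ 4) = 27 / 2 * (E₄ τ ^ 3 / E₆ τ ^ 2) := by
    have : lam ^ 4 = ((LL τ).g₃ / (LL τ).g₂) ^ 2 := by rw [← hlam]; ring
    rw [this, hg2, hg3]
    field_simp
    ring
  have hk : (lam ^ 2)⁻¹ * G2 τ = 3 / 2 * (E2 τ * E₄ τ / E₆ τ) := by
    have hE2 : E2 τ = (3 / (Real.pi : ℂ) ^ 2) * G2 τ := by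
      have : E2 τ = (1 / (2 * riemannZeta 2)) * G2 τ := rfl
      rw [this, riemannZeta_two]
      field_simp
      ring
    rw [hlam, hE2, hg2, hg3]
    field_simp
    ring
  refine ⟨fun s ↦ (lam ^ 2)⁻¹ * (LL τ).weierstrassP (s + τ / 2),
    fun s ↦ (lam ^ 3)⁻¹ * (LL τ).derivWeierstrassP (s + τ / 2),
    fun s ↦ P1 lam (pp τ) (ee s) / th (pp τ) (ee s), ?_, ?_, ?_, ?_⟩
  · intro s hs
    have hth := th_ne_zero (norm_pp_lt τ) (ee_mem_Reg hs)
    have hS := half_mem hs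
    refine ⟨?_, ?_, ?_, ?_, ?_⟩
    · rw [P2_wp hs]; ring
    · field_simp
    · have h1 := (hasDerivAt_wp hS).comp_add_const s ((τ : ℂ) / 2)
      refine (h1.const_mul (lam ^ 2)⁻¹).congr_deriv ?_
      field_simp
    · have h1 := (hasDerivAt_wp' hS).comp_add_const s ((τ : ℂ) / 2)
      refine (h1.const_mul (lam ^ 3)⁻¹).congr_deriv ?_
      rw [← hh]
      field_simp
    · refine (hasDerivAt_P1 hs hlam0).congr_deriv ?_
      rw [← hk]
  · simp only [zero_add]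
    rw [wp'_half, mul_zero]
  · have h0 : ee 0 = 1 := by simp [ee]
    have hs : |(0 : ℂ).im| < τ.im / 2 := by
      have := τ.im_pos
      simpa using this
    have h1 : P1 lam (pp τ) (ee 0) = 0 := by
      rw [P1, th1_eq (norm_pp_lt τ) (ee_mem_Reg hs), zt, h0, inv_one]
      simp
    simp only
    rw [h1, zero_div]
  · simp only [zero_add]
    have h1 := (LL τ).derivWeierstrassP_sq ((τ : ℂ) / 2) (Strip_lattice (by
      have := half_mem (τ := τ) (s := 0) (by have := τ.im_pos; simpa using this)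
      rwa [zero_add] at this))
    rw [wp'_half] at h1
    have hl3 : (LL τ).g₃ = lam ^ 2 * (LL τ).g₂ := by
      rw [hlam]; field_simp
    rw [hl3] at h1
    rw [← hh]
    field_simp
    linear_combination (-1) * h1

end H32.T3

end S_H32_T3_Wp3

section S_H32_T3_CoreA

namespace H32.T3

open Complex Filter Topology Finset

/-- Uniform analytic data. -/
structure EllData (r C σ : ℝ) (p lam G h κ e : ℂ) : Prop where
  p0 : p ≠ 0
  hp : ‖p‖ ≤ r
  hpC : Real.exp (-C) ≤ ‖p‖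
  growth : ∀ (M : ℕ), ∀ w ∈ Ann p M, ‖th p w‖ ≤ Real.exp (C * (M + 1) ^ 2) ∧
    ‖P1 lam p w‖ ≤ Real.exp (C * (M + 1) ^ 2) ∧ ‖P2 lam G p w‖ ≤ Real.exp (C * (M + 1) ^ 2)
  near : ∀ w : ℂ, ‖w - 1‖ ≤ (1 - r) / 2 → C⁻¹ ≤ ‖th p w‖
  pole : ∀ B : ℝ, 1 ≤ B → ∃ w : ℂ, ‖p‖ ^ 2 ≤ ‖w‖ ∧ ‖w‖ ≤ 1 ∧
    (C * B)⁻¹ ≤ ‖th p w‖ ∧ B * ‖th p w‖ ^ 2 ≤ ‖P2 lam G p w‖
  lam0 : lam ≠ 0
  lamC : ‖lam‖ ≤ C
  lamC' : ‖lam⁻¹‖ ≤ C
  sys : ∃ X X1 Y : ℂ → ℂ, (∀ s : ℂ, |s.im| < σ →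
      P2 lam G p (ee s) = th p (ee s) ^ 2 * X s ∧ P1 lam p (ee s) = th p (ee s) * Y s ∧
      HasDerivAt X (lam * X1 s) s ∧ HasDerivAt X1 (lam * (6 * X s ^ 2 - h)) s ∧
      HasDerivAt Y (lam * (-X s - κ)) s) ∧ X1 0 = 0 ∧ Y 0 = 0 ∧ X 0 = e

/-- The auxiliary function, with the poles removed. -/
noncomputable def FF (lam G p : ℂ) {L : ℕ} (a : Fin L × Fin L → ℤ) (w : ℂ) : ℂ :=
  ∑ i, (a i : ℂ) * (P2 lam G p w ^ (i.1 : ℕ) * P1 lam p w ^ (i.2 : ℕ) *
    th p w ^ (3 * L - 2 * i.1 - i.2))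

lemma diff_FF {p : ℂ} (hp : ‖p‖ < 1) (lam G : ℂ) {L : ℕ} (a : Fin L × Fin L → ℤ) :
    DifferentiableOn ℂ (FF lam G p a) {0}ᶜ := by
  have h0 := diff_th hp
  have h1 := diff_P1 hp lam
  have h2 := diff_P2 hp lam G
  unfold FF
  fun_prop

/-- The main value. -/
noncomputable def SS {L : ℕ} (a : Fin L × Fin L → ℤ) (X Y : ℂ) : ℂ :=
  ∑ i, (a i : ℂ) * (X ^ (i.1 : ℕ) * Y ^ (i.2 : ℕ))

lemma FF_eq {lam G p : ℂ} {L : ℕ} (a : Fin L × Fin L → ℤ) {w X Y : ℂ}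
    (h2 : P2 lam G p w = th p w ^ 2 * X) (h1 : P1 lam p w = th p w * Y) :
    FF lam G p a w = th p w ^ (3 * L) * SS a X Y := by
  rw [FF, SS, mul_sum]
  refine sum_congr rfl fun i _ ↦ ?_
  rw [h2, h1]
  have hi1 := i.1.2
  have hi2 := i.2.2
  have e : th p w ^ (3 * L) = (th p w ^ 2) ^ (i.1 : ℕ) * th p w ^ (i.2 : ℕ) *
      th p w ^ (3 * L - 2 * i.1 - i.2) := by
    rw [← pow_mul, ← pow_add, ← pow_add]
    congr 1
    omega
  rw [e, mul_pow, mul_pow]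
  ring

lemma FF_le {lam G p : ℂ} {L : ℕ} {a : Fin L × Fin L → ℤ} {B : ℝ} (ha : ∀ i, |(a i : ℝ)| ≤ B)
    {w : ℂ} {E : ℝ} (hE : 1 ≤ E) (h0 : ‖th p w‖ ≤ E) (h1 : ‖P1 lam p w‖ ≤ E)
    (h2 : ‖P2 lam G p w‖ ≤ E) : ‖FF lam G p a w‖ ≤ L ^ 2 * B * E ^ (3 * L) := by
  refine (norm_sum_le _ _).trans ?_
  calc ∑ i, ‖(a i : ℂ) * (P2 lam G p w ^ (i.1 : ℕ) * P1 lam p w ^ (i.2 : ℕ) *
        th p w ^ (3 * L - 2 * i.1 - i.2))‖
      ≤ ∑ _i : Fin L × Fin L, B * E ^ (3 * L) := by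
        refine sum_le_sum fun i _ ↦ ?_
        have hB : 0 ≤ B := (abs_nonneg _).trans (ha i)
        rw [norm_mul, norm_mul, norm_mul, norm_pow, norm_pow, norm_pow, Complex.norm_intCast]
        have h3 := ha i
        have h4 : ‖P2 lam G p w‖ ^ (i.1 : ℕ) * ‖P1 lam p w‖ ^ (i.2 : ℕ) *
            ‖th p w‖ ^ (3 * L - 2 * i.1 - i.2) ≤ E ^ (3 * L) := by
          calc _ ≤ E ^ (i.1 : ℕ) * E ^ (i.2 : ℕ) * E ^ (3 * L - 2 * i.1 - i.2) := by gcongr
            _ = E ^ ((i.1 : ℕ) + i.2 + (3 * L - 2 * i.1 - i.2)) := by rw [pow_add, pow_add]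
            _ ≤ _ := by
              apply pow_le_pow_right₀ hE
              have hi1 := i.1.2
              have hi2 := i.2.2
              omega
        gcongr
    _ = _ := by
      simp only [sum_const, card_univ, Fintype.card_prod, Fintype.card_fin, nsmul_eq_mul]
      push_cast
      ring

lemma pow_sub_pow_le {Y Y' : ℂ} {V : ℝ} (hV : 1 ≤ V) (h : ‖Y‖ ≤ V) (h' : ‖Y'‖ ≤ V) (b : ℕ) :
    ‖Y ^ b - Y' ^ b‖ ≤ b * V ^ b * ‖Y - Y'‖ := by
  induction b with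
  | zero => simp
  | succ b ih =>
    have e : Y ^ (b + 1) - Y' ^ (b + 1) = (Y ^ b - Y' ^ b) * Y + Y' ^ b * (Y - Y') := by ring
    rw [e]
    refine (norm_add_le _ _).trans ?_
    rw [norm_mul, norm_mul, norm_pow]
    have hd := norm_nonneg (Y - Y')
    calc ‖Y ^ b - Y' ^ b‖ * ‖Y‖ + ‖Y'‖ ^ b * ‖Y - Y'‖
        ≤ (b * V ^ b * ‖Y - Y'‖) * V + V ^ b * ‖Y - Y'‖ := by gcongr
      _ ≤ (b * V ^ b * ‖Y - Y'‖) * V + V ^ (b + 1) * ‖Y - Y'‖ := by
        gcongr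
        exact Nat.le_succ b
      _ = _ := by push_cast; ring

lemma SS_sub_le {L : ℕ} {a : Fin L × Fin L → ℤ} {B : ℝ} (ha : ∀ i, |(a i : ℝ)| ≤ B)
    {X Y Y' : ℂ} {V : ℝ} (hV : 1 ≤ V) (hX : ‖X‖ ≤ V) (h : ‖Y‖ ≤ V) (h' : ‖Y'‖ ≤ V) :
    ‖SS a X Y - SS a X Y'‖ ≤ L ^ 3 * B * V ^ (2 * L) * ‖Y - Y'‖ := by
  rw [SS, SS, ← sum_sub_distrib]
  refine (norm_sum_le _ _).trans ?_
  calc ∑ i, ‖(a i : ℂ) * (X ^ (i.1 : ℕ) * Y ^ (i.2 : ℕ)) -
        (a i : ℂ) * (X ^ (i.1 : ℕ) * Y' ^ (i.2 : ℕ))‖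
      ≤ ∑ _i : Fin L × Fin L, B * (V ^ L * (L * V ^ L * ‖Y - Y'‖)) := by
        refine sum_le_sum fun i _ ↦ ?_
        have hB : 0 ≤ B := (abs_nonneg _).trans (ha i)
        rw [← mul_sub, ← mul_sub, norm_mul, norm_mul, norm_pow, Complex.norm_intCast]
        have h3 := ha i
        have h4 := pow_sub_pow_le hV h h' (i.2 : ℕ)
        have hd := norm_nonneg (Y - Y')
        have h5 : ‖X‖ ^ (i.1 : ℕ) ≤ V ^ L := by
          calc ‖X‖ ^ (i.1 : ℕ) ≤ V ^ (i.1 : ℕ) := by gcongr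
            _ ≤ V ^ L := pow_le_pow_right₀ hV i.1.2.le
        have h6 : ‖Y ^ (i.2 : ℕ) - Y' ^ (i.2 : ℕ)‖ ≤ L * V ^ L * ‖Y - Y'‖ := by
          refine h4.trans ?_
          have h7 : ((i.2 : ℕ) : ℝ) ≤ L := by exact_mod_cast i.2.2.le
          have h8 : V ^ (i.2 : ℕ) ≤ V ^ L := pow_le_pow_right₀ hV i.2.2.le
          gcongr
        gcongr
    _ = _ := by
      simp only [sum_const, card_univ, Fintype.card_prod, Fintype.card_fin, nsmul_eq_mul]
      push_cast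
      ring

/-- The perturbed local functions. -/
noncomputable def fl (X X1 Y : ℂ → ℂ) (lam κ h k' : ℂ) : Fin 5 → ℂ → ℂ :=
  ![X, X1, fun s ↦ Y s + (κ - k') * lam * s, fun _ ↦ h, fun _ ↦ k']

open MvPolynomial in
lemma hasDerivAt_fl {X X1 Y : ℂ → ℂ} {lam κ h k' s : ℂ}
    (h1 : HasDerivAt X (lam * X1 s) s) (h2 : HasDerivAt X1 (lam * (6 * X s ^ 2 - h)) s)
    (h3 : HasDerivAt Y (lam * (-X s - κ)) s) (i : Fin 5) :
    HasDerivAt (fl X X1 Y lam κ h k' i)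
      (lam * aeval (fun j ↦ fl X X1 Y lam κ h k' j s) (dv i)) s := by
  fin_cases i
  · change HasDerivAt X (lam * aeval (fun j ↦ fl X X1 Y lam κ h k' j s)
      (MvPolynomial.X 1 : MvPolynomial (Fin 5) ℤ)) s
    rw [aeval_X]
    exact h1
  · change HasDerivAt X1 (lam * aeval (fun j ↦ fl X X1 Y lam κ h k' j s)
      (C 6 * MvPolynomial.X 0 ^ 2 - MvPolynomial.X 3 : MvPolynomial (Fin 5) ℤ)) s
    refine h2.congr_deriv ?_
    rw [map_sub, map_mul, map_pow, aeval_X, aeval_X, algHom_C]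
    simp [fl]
  · change HasDerivAt (fun s ↦ Y s + (κ - k') * lam * s)
      (lam * aeval (fun j ↦ fl X X1 Y lam κ h k' j s)
      (-MvPolynomial.X 0 - MvPolynomial.X 4 : MvPolynomial (Fin 5) ℤ)) s
    have h4 := h3.add ((hasDerivAt_id s).const_mul ((κ - k') * lam))
    refine h4.congr_deriv ?_
    rw [map_sub, map_neg, aeval_X, aeval_X]
    simp [fl]
    ring
  · change HasDerivAt (fun _ ↦ h) (lam * aeval (fun j ↦ fl X X1 Y lam κ h k' j s)
      (0 : MvPolynomial (Fin 5) ℤ)) s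
    rw [map_zero, mul_zero]
    exact hasDerivAt_const _ _
  · change HasDerivAt (fun _ ↦ k') (lam * aeval (fun j ↦ fl X X1 Y lam κ h k' j s)
      (0 : MvPolynomial (Fin 5) ℤ)) s
    rw [map_zero, mul_zero]
    exact hasDerivAt_const _ _

open MvPolynomial in
lemma aeval_PP_zero {L : ℕ} (a : Fin L × Fin L → ℤ) (v : Fin 5 → ℂ) :
    aeval v (PP a 0) = SS a (v 0) (v 2) := by
  rw [PP_zero, map_sum, SS]
  refine sum_congr rfl fun i _ ↦ ?_
  rw [map_mul, map_mul, map_pow, map_pow, aeval_X, aeval_X, algHom_C]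
  simp

/-- The chart at `w = 1`. -/
noncomputable def sl (w : ℂ) : ℂ := Complex.log w / (2 * Real.pi * I)

lemma ee_sl {w : ℂ} (hw : w ≠ 0) : ee (sl w) = w := by
  have hpi : (2 * (Real.pi : ℂ) * I) ≠ 0 := Complex.two_pi_I_ne_zero
  rw [ee, sl, mul_div_cancel₀ _ hpi, Complex.exp_log hw]

lemma norm_sl {w : ℂ} (hw : ‖w - 1‖ ≤ 1 / 2) : ‖sl w‖ ≤ ‖w - 1‖ / 2 := by
  have h1 := Complex.norm_log_one_add_half_le_self hw
  rw [add_sub_cancel] at h1
  rw [sl, norm_div]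
  have h2 : ‖(2 * (Real.pi : ℂ) * I)‖ = 2 * Real.pi := by
    rw [norm_mul, norm_mul, Complex.norm_I, Complex.norm_real, Real.norm_of_nonneg Real.pi_pos.le]
    norm_num
  rw [h2, div_le_iff₀ (by positivity)]
  have h3 := Real.pi_gt_three
  have h4 := norm_nonneg (w - 1)
  nlinarith

lemma analyticAt_sl {w : ℂ} (hw : ‖w - 1‖ ≤ 1 / 2) : AnalyticAt ℂ sl w := by
  have h1 : w ∈ Complex.slitPlane := by
    have := Complex.mem_slitPlane_of_norm_lt_one (z := w - 1) (by linarith)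
    rwa [add_sub_cancel] at this
  have := analyticAt_clog h1
  unfold sl
  have h2 : (2 * (Real.pi : ℂ) * I) ≠ 0 := Complex.two_pi_I_ne_zero
  exact this.div analyticAt_const h2

lemma sl_one : sl 1 = 0 := by simp [sl]

open MvPolynomial in
/-- The key analytic estimate. -/
theorem core_small {r C σ : ℝ} {p lam G h κ e : ℂ} (hr : r < 1) (hr0 : 0 ≤ r) (hC : 1 ≤ C)
    (hσ : 0 < σ) (D : EllData r C σ p lam G h κ e) {L : ℕ} {a : Fin L × Fin L → ℤ} {B : ℝ}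
    (ha : ∀ i, |(a i : ℝ)| ≤ B) (hB0 : 0 ≤ B) {k' : ℂ} (hk : ‖κ - k'‖ ≤ C⁻¹) {T N : ℕ}
    (hT : 1 ≤ T) (hN1 : 1 ≤ N) (hN : ‖p‖ ^ (4 * N) ≤ 1 / 2)
    (hvan : ∀ t < T, aeval ![e, 0, 0, h, k'] (PP a t) = 0)
    {r1 V S η ε : ℝ} (hr1 : r1 = min ((1 - r) / 2) σ) (hV : V = 2 * (Real.exp (4 * C) * C ^ 2))
    (hS : S = ‖κ - k'‖ * (L ^ 3 * B * V ^ (2 * L) * C * Real.exp (4 * C) ^ (3 * L)))
    (hη : η = T * ((4 / r1) * (‖p‖ ^ (4 * N))⁻¹) ^ T * S)
    (hε : ε = η + (L ^ 2 * B * Real.exp (C * (2 * N + 1) ^ 2) ^ (3 * L) + η) *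
      (4 * ‖p‖ ^ N) ^ T) :
    (∀ w ∈ Ann p N, ‖FF lam G p a w‖ ≤ ε) ∧
    ‖lam‖ ^ T * ‖aeval ![e, 0, 0, h, k'] (PP a T)‖ ≤
      T.factorial * (C ^ (3 * L) * ε + S) / (r1 / 16) ^ T := by
  obtain ⟨hp0, hpr, -, hgrow, hnear, -, hlam0, hlamC, -, X, X1, Y, hsys, hX10, hY0, hX0⟩ := D
  have hp1 : ‖p‖ < 1 := hpr.trans_lt hr
  have hpn : 0 < ‖p‖ := norm_pos_iff.mpr hp0
  have hC0 : 0 < C := by linarith
  have hr1pos : 0 < r1 := by rw [hr1]; exact lt_min (by linarith) hσ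
  have hr1a : r1 ≤ (1 - r) / 2 := by rw [hr1]; exact min_le_left _ _
  have hr1b : r1 ≤ σ := by rw [hr1]; exact min_le_right _ _
  have hr1c : r1 ≤ 1 / 2 := by linarith
  have hexp4 : 1 ≤ Real.exp (4 * C) := Real.one_le_exp (by linarith)
  have hCC : 1 ≤ C ^ 2 := one_le_pow₀ hC
  have hV2 : 1 ≤ V / 2 := by
    rw [hV]
    have := one_le_mul_of_one_le_of_one_le hexp4 hCC
    linarith
  have hV1 : 1 ≤ V := by linarith
  set δ := ‖κ - k'‖ with hδ
  have hδ0 : 0 ≤ δ := norm_nonneg _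
  have hδC : δ * C ≤ 1 := by
    calc δ * C ≤ C⁻¹ * C := by gcongr
      _ = 1 := inv_mul_cancel₀ hC0.ne'
  have hS0 : 0 ≤ S := by rw [hS]; positivity
  have hη0 : 0 ≤ η := by rw [hη]; positivity
  -- the functions
  set f := fl X X1 Y lam κ h k' with hf
  set Φ : ℕ → ℂ → ℂ := fun t s ↦ aeval (fun j ↦ f j s) (PP a t) with hΦ
  set U : Set ℂ := {s | |s.im| < σ} with hU
  have hUo : IsOpen U := isOpen_lt (by fun_prop) continuous_const
  have h0U : (0 : ℂ) ∈ U := by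
    change |(0 : ℂ).im| < σ
    simpa using hσ
  have hder : ∀ t, ∀ s ∈ U, HasDerivAt (Φ t) (lam * Φ (t + 1) s) s := by
    intro t s hs
    obtain ⟨-, -, h1, h2, h3⟩ := hsys s hs
    have := hasDerivAt_aeval (f := fl X X1 Y lam κ h k')
      (fun i ↦ hasDerivAt_fl (k' := k') h1 h2 h3 i) (PP a t)
    rw [hΦ]
    simp only
    rw [PP_succ]
    exact this
  have hf0 : (fun j ↦ f j 0) = ![e, 0, 0, h, k'] := by
    ext j
    fin_cases j
    · change X 0 = e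
      exact hX0
    · change X1 0 = 0
      exact hX10
    · change Y 0 + (κ - k') * lam * 0 = 0
      rw [hY0]; ring
    · rfl
    · rfl
  have hΦ0 : ∀ t, Φ t 0 = aeval ![e, 0, 0, h, k'] (PP a t) := by
    intro t
    rw [hΦ]
    simp only
    rw [hf0]
  have hΦS : ∀ s, Φ 0 s = SS a (X s) (Y s + (κ - k') * lam * s) := by
    intro s
    rw [hΦ]
    simp only
    rw [aeval_PP_zero]
    rfl
  -- local geometry
  have hball : ∀ w : ℂ, ‖w - 1‖ ≤ r1 → w ∈ Ann p 1 := by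
    intro w hw
    have h1 := norm_sub_norm_le 1 w
    rw [norm_one, norm_sub_rev] at h1
    have h2 := norm_sub_norm_le w 1
    rw [norm_one] at h2
    refine ⟨?_, ?_⟩
    · rw [mul_one]
      have h3 : ‖p‖ ^ 2 ≤ ‖p‖ := by nlinarith
      linarith
    · rw [mul_one]
      have h3 : ‖p‖ ^ 2 ≤ r ^ 2 := by gcongr
      have h4 : ‖w‖ ≤ (3 - r) / 2 := by linarith
      have h5 : 0 ≤ (3 - r) / 2 := by linarith
      calc ‖w‖ * ‖p‖ ^ 2 ≤ (3 - r) / 2 * r ^ 2 := by gcongr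
        _ ≤ 1 := by nlinarith [mul_nonneg hr0 (by linarith : (0:ℝ) ≤ 1 - r)]
  have hXY : ∀ s ∈ U, ‖ee s - 1‖ ≤ r1 → ‖X s‖ ≤ V / 2 ∧ ‖Y s‖ ≤ V / 2 := by
    intro s hs hes
    obtain ⟨h2, h1, -, -, -⟩ := hsys s hs
    have hg := hgrow 1 _ (hball _ hes)
    have hlow := hnear _ (hes.trans hr1a)
    have hth : 0 < ‖th p (ee s)‖ := lt_of_lt_of_le (by positivity) hlow
    have hinv : ‖th p (ee s)‖⁻¹ ≤ C := inv_le_of_inv_le₀ hC0 hlow
    have e4 : C * (((1 : ℕ) : ℝ) + 1) ^ 2 = 4 * C := by norm_num; ring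
    rw [e4] at hg
    have hV' : V / 2 = Real.exp (4 * C) * C ^ 2 := by rw [hV]; ring
    refine ⟨?_, ?_⟩
    · have e : ‖X s‖ = ‖P2 lam G p (ee s)‖ * (‖th p (ee s)‖⁻¹) ^ 2 := by
        rw [h2, norm_mul, norm_pow]
        field_simp
      rw [e, hV']
      gcongr
      exact hg.2.2
    · have e : ‖Y s‖ = ‖P1 lam p (ee s)‖ * ‖th p (ee s)‖⁻¹ := by
        rw [h1, norm_mul]
        field_simp
      rw [e, hV']
      have : C ≤ C ^ 2 := le_self_pow₀ hC (by norm_num)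
      calc ‖P1 lam p (ee s)‖ * ‖th p (ee s)‖⁻¹ ≤ Real.exp (4 * C) * C := by
            gcongr
            exact hg.2.1
        _ ≤ _ := by gcongr
  have hdiff : ∀ s ∈ U, ‖ee s - 1‖ ≤ r1 → ‖s‖ ≤ 1 →
      ‖SS a (X s) (Y s) - Φ 0 s‖ ≤ L ^ 3 * B * V ^ (2 * L) * (δ * C) := by
    intro s hs hes hs1
    obtain ⟨hX, hY⟩ := hXY s hs hes
    rw [hΦS]
    have hpert : ‖(κ - k') * lam * s‖ ≤ δ * C := by
      rw [norm_mul, norm_mul]
      calc ‖κ - k'‖ * ‖lam‖ * ‖s‖ ≤ δ * C * 1 := by gcongr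
        _ = δ * C := mul_one _
    have hY' : ‖Y s + (κ - k') * lam * s‖ ≤ V := by
      refine (norm_add_le _ _).trans ?_
      linarith
    have := SS_sub_le ha hV1 (hX.trans (by linarith)) (hY.trans (by linarith)) hY'
    refine this.trans ?_
    have e : Y s - (Y s + (κ - k') * lam * s) = -((κ - k') * lam * s) := by ring
    rw [e, norm_neg]
    gcongr
  -- the error function near `1`
  have hslU : ∀ w : ℂ, ‖w - 1‖ ≤ r1 → sl w ∈ U ∧ ee (sl w) = w ∧ ‖sl w‖ ≤ 1 := by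
    intro w hw
    have h1 := norm_sl (hw.trans hr1c)
    have hw0 := Ann_ne_zero hp0 (hball w hw)
    refine ⟨?_, ee_sl hw0, by linarith⟩
    change |(sl w).im| < σ
    have := Complex.abs_im_le_norm (sl w)
    linarith
  set Er : ℂ → ℂ := fun w ↦ FF lam G p a w - th p w ^ (3 * L) * Φ 0 (sl w) with hEr
  have hErd : DifferentiableOn ℂ Er (Metric.ball 1 r1) := by
    intro w hw
    rw [Metric.mem_ball, dist_eq_norm] at hw
    obtain ⟨h1, -, -⟩ := hslU w hw.le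
    have hw0 := Ann_ne_zero hp0 (hball w hw.le)
    have d1 : DifferentiableAt ℂ (FF lam G p a) w :=
      (diff_FF hp1 lam G a w hw0).differentiableAt (isOpen_U.mem_nhds hw0)
    have d2 : DifferentiableAt ℂ (th p) w :=
      (diff_th hp1 w hw0).differentiableAt (isOpen_U.mem_nhds hw0)
    have d3 : DifferentiableAt ℂ (fun w ↦ Φ 0 (sl w)) w :=
      ((hder 0 _ h1).differentiableAt).comp w (analyticAt_sl (hw.le.trans hr1c)).differentiableAt
    exact (d1.fun_sub ((d2.fun_pow _).fun_mul d3)).differentiableWithinAt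
  have hErS : ∀ w ∈ Metric.ball (1 : ℂ) r1, ‖Er w‖ ≤ S := by
    intro w hw
    rw [Metric.mem_ball, dist_eq_norm] at hw
    obtain ⟨h1, h2, h3⟩ := hslU w hw.le
    have hg := (hgrow 1 _ (hball _ hw.le)).1
    have e4 : C * (((1 : ℕ) : ℝ) + 1) ^ 2 = 4 * C := by norm_num; ring
    rw [e4] at hg
    obtain ⟨s2, s1, -, -, -⟩ := hsys (sl w) h1
    have e1 : FF lam G p a w = th p w ^ (3 * L) * SS a (X (sl w)) (Y (sl w)) := by
      rw [h2] at s1 s2
      exact FF_eq a s2 s1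
    have e2 : Er w = th p w ^ (3 * L) * (SS a (X (sl w)) (Y (sl w)) - Φ 0 (sl w)) := by
      rw [hEr]
      simp only
      rw [e1]; ring
    rw [e2, norm_mul, norm_pow, hS]
    have h5 := hdiff (sl w) h1 (by rw [h2]; exact hw.le) h3
    calc ‖th p w‖ ^ (3 * L) * ‖SS a (X (sl w)) (Y (sl w)) - Φ 0 (sl w)‖
        ≤ Real.exp (4 * C) ^ (3 * L) * (L ^ 3 * B * V ^ (2 * L) * (δ * C)) := by gcongr
      _ = _ := by ring
  obtain ⟨ac, g2, hg2d, hg2, hac, -⟩ := taylor_div hr1pos hErd hErS T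
  -- the order of the exact function
  obtain ⟨g0, hg0, hg0e⟩ := order_of_system hUo h0U hder (T := T) (fun t ht ↦ by
    rw [hΦ0]; exact hvan t ht)
  set ks : ℂ → ℂ := dslope sl 1 with hks
  have hksd : AnalyticAt ℂ ks 1 := by
    have h1 : DifferentiableOn ℂ sl (Metric.ball 1 (1 / 2)) := by
      intro w hw
      rw [Metric.mem_ball, dist_eq_norm] at hw
      exact (analyticAt_sl hw.le).differentiableAt.differentiableWithinAt
    have h2 := (Complex.differentiableOn_dslope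
      (Metric.ball_mem_nhds (1 : ℂ) (by norm_num : (0 : ℝ) < 1 / 2))).mpr h1
    exact h2.analyticAt (Metric.ball_mem_nhds _ (by norm_num))
  have hksl : ∀ w, sl w = (w - 1) * ks w := by
    intro w
    have := sub_smul_dslope sl 1 w
    rw [smul_eq_mul, sl_one, sub_zero] at this
    exact this.symm
  have hsl1 : AnalyticAt ℂ sl 1 := analyticAt_sl (by simp)
  have hth1 : AnalyticAt ℂ (th p) 1 :=
    (diff_th hp1).analyticAt (isOpen_U.mem_nhds (by simp))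
  set g1 : ℂ → ℂ := fun w ↦ th p w ^ (3 * L) * (ks w ^ T * g0 (sl w)) with hg1
  have hg1a : AnalyticAt ℂ g1 1 := by
    have h1 : AnalyticAt ℂ (fun w ↦ g0 (sl w)) 1 := by
      have : AnalyticAt ℂ g0 (sl 1) := by rw [sl_one]; exact hg0
      exact this.comp hsl1
    exact (hth1.fun_pow _).fun_mul ((hksd.fun_pow _).fun_mul h1)
  have hg2a : AnalyticAt ℂ g2 1 := hg2d.analyticAt (Metric.ball_mem_nhds _ hr1pos)
  set pol : ℂ → ℂ := fun w ↦ ∑ t ∈ range T, ac t * (w - 1) ^ t with hpol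
  have hloc : ∀ᶠ w in 𝓝 (1 : ℂ), FF lam G p a w - pol w = (w - 1) ^ T * (g1 w + g2 w) := by
    have h1 : ∀ᶠ w in 𝓝 (1 : ℂ), Φ 0 (sl w) = (sl w) ^ T * g0 (sl w) := by
      have h2 : Tendsto sl (𝓝 1) (𝓝 0) := by
        have := hsl1.continuousAt.tendsto
        rwa [sl_one] at this
      exact h2.eventually hg0e
    filter_upwards [h1] with w hw
    have h3 := hg2 w
    rw [hEr] at h3
    simp only at h3
    rw [hg1, hpol]
    simp only
    rw [hw, hksl w, mul_pow] at h3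
    rw [← hksl w] at h3
    linear_combination h3
  have hpold : DifferentiableOn ℂ pol {0}ᶜ := by
    rw [hpol]
    fun_prop
  -- bounds on the big annulus
  have hEbig : ∀ w ∈ Ann p (2 * N), ‖FF lam G p a w‖ ≤
      L ^ 2 * B * Real.exp (C * (2 * N + 1) ^ 2) ^ (3 * L) := by
    intro w hw
    have h1 := hgrow (2 * N) w hw
    push_cast at h1
    exact FF_le ha (Real.one_le_exp (by positivity)) h1.1 h1.2.1 h1.2.2
  set P := (‖p‖ ^ (4 * N))⁻¹ with hP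
  have hPpos : 0 < ‖p‖ ^ (4 * N) := by positivity
  have hP1 : 1 ≤ P := by
    rw [hP]
    exact (one_le_inv₀ hPpos).mpr (by linarith)
  have hbase : 1 ≤ 4 / r1 * P := by
    have : 1 ≤ 4 / r1 := by rw [le_div_iff₀ hr1pos]; linarith
    exact one_le_mul_of_one_le_of_one_le this hP1
  have hηbig : ∀ w ∈ Ann p (2 * N), ‖pol w‖ ≤ η := by
    intro w hw
    have hw1 : ‖w - 1‖ ≤ 2 * P := by
      have h1 := norm_sub_le w 1
      rw [norm_one] at h1
      have h2 : ‖w‖ ≤ P := by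
        rw [hP, ← one_div]
        rw [le_div_iff₀ hPpos]
        have := hw.2
        rwa [show 2 * (2 * N) = 4 * N by ring] at this
      linarith
    rw [hpol]
    simp only
    refine (norm_sum_le _ _).trans ?_
    rw [hη]
    calc ∑ t ∈ range T, ‖ac t * (w - 1) ^ t‖ ≤ ∑ _t ∈ range T, (4 / r1 * P) ^ T * S := by
          refine sum_le_sum fun t ht ↦ ?_
          have ht' := mem_range.mp ht
          rw [norm_mul, norm_pow]
          calc ‖ac t‖ * ‖w - 1‖ ^ t ≤ ((2 / r1) ^ t * S) * (2 * P) ^ t := by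
                gcongr
                exact hac t ht'
            _ = (4 / r1 * P) ^ t * S := by
                rw [show (4 / r1 * P : ℝ) = (2 / r1) * (2 * P) by ring, mul_pow (2 / r1)]
                ring
            _ ≤ _ := by
                gcongr
      _ = _ := by simp; ring
  have hfirst : ∀ w ∈ Ann p N, ‖FF lam G p a w‖ ≤ ε := by
    intro w hw
    rw [hε]
    exact schwarz_ann hp0 hp1 hT hN (diff_FF hp1 lam G a) hpold (hg1a.add hg2a)
      hloc hEbig hηbig hw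
  refine ⟨hfirst, ?_⟩
  have hε0 : 0 ≤ ε := (norm_nonneg _).trans (hfirst 1 ⟨by
    rw [norm_one]; exact pow_le_one₀ (norm_nonneg _) hp1.le, by
    rw [norm_one, one_mul]; exact pow_le_one₀ (norm_nonneg _) hp1.le⟩)
  -- Cauchy
  have hρ : 0 < r1 / 16 := by positivity
  have hsph : ∀ s : ℂ, ‖s‖ ≤ r1 / 16 → s ∈ U ∧ ‖ee s - 1‖ ≤ r1 := by
    intro s hs
    refine ⟨?_, ?_⟩
    · change |s.im| < σ
      have := Complex.abs_im_le_norm s
      linarith
    · have h1 : ‖2 * (Real.pi : ℂ) * I * s‖ = 2 * Real.pi * ‖s‖ := by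
        rw [norm_mul, norm_mul, norm_mul, Complex.norm_I, Complex.norm_real,
          Real.norm_of_nonneg Real.pi_pos.le]
        norm_num
      have hpi := Real.pi_lt_four
      have hpi0 := Real.pi_pos
      have h0 := norm_nonneg s
      have h2 : 2 * Real.pi * ‖s‖ ≤ 8 * ‖s‖ := by nlinarith
      have h3 := Complex.norm_exp_sub_one_le (x := 2 * (Real.pi : ℂ) * I * s) (by
        rw [h1]; linarith)
      rw [h1] at h3
      rw [ee]
      linarith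
  have hbd : ∀ s : ℂ, ‖s‖ ≤ r1 / 16 → ‖Φ 0 s‖ ≤ C ^ (3 * L) * ε + S := by
    intro s hs
    obtain ⟨h1, h2⟩ := hsph s hs
    obtain ⟨s2, s1, -, -, -⟩ := hsys s h1
    have e1 := FF_eq a s2 s1
    have h3 := hfirst (ee s) (Ann_mono hp1.le hN1 (hball _ h2))
    have hlow := hnear _ (h2.trans hr1a)
    have hth : 0 < ‖th p (ee s)‖ := lt_of_lt_of_le (by positivity) hlow
    have hinv : ‖th p (ee s)‖⁻¹ ≤ C := inv_le_of_inv_le₀ hC0 hlow
    have h4 : ‖SS a (X s) (Y s)‖ ≤ C ^ (3 * L) * ε := by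
      have e2 : ‖SS a (X s) (Y s)‖ = (‖th p (ee s)‖⁻¹) ^ (3 * L) * ‖FF lam G p a (ee s)‖ := by
        rw [e1, norm_mul, norm_pow, ← mul_assoc, ← mul_pow, inv_mul_cancel₀ hth.ne', one_pow,
          one_mul]
      rw [e2]
      gcongr
    have h5 := hdiff s h1 h2 (by linarith)
    have h6 : (L : ℝ) ^ 3 * B * V ^ (2 * L) * (δ * C) ≤ S := by
      rw [hS]
      have h7 : 1 ≤ Real.exp (4 * C) ^ (3 * L) := one_le_pow₀ hexp4
      have h8 : 0 ≤ (L : ℝ) ^ 3 * B * V ^ (2 * L) * (δ * C) := by positivity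
      calc (L : ℝ) ^ 3 * B * V ^ (2 * L) * (δ * C)
          ≤ (L : ℝ) ^ 3 * B * V ^ (2 * L) * (δ * C) * Real.exp (4 * C) ^ (3 * L) :=
            le_mul_of_one_le_right h8 h7
        _ = _ := by ring
    have h7 : ‖Φ 0 s‖ ≤ ‖SS a (X s) (Y s)‖ + ‖SS a (X s) (Y s) - Φ 0 s‖ := by
      have := norm_sub_le (SS a (X s) (Y s)) (SS a (X s) (Y s) - Φ 0 s)
      rwa [sub_sub_cancel] at this
    linarith
  have hdc : DiffContOnCl ℂ (Φ 0) (Metric.ball 0 (r1 / 16)) := by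
    apply DifferentiableOn.diffContOnCl
    intro s hs
    have h1 := Metric.closure_ball_subset_closedBall hs
    rw [mem_closedBall_zero_iff] at h1
    exact (hder 0 s (hsph s h1).1).differentiableAt.differentiableWithinAt
  have hcau := Complex.norm_iteratedDeriv_le_of_forall_mem_sphere_norm_le T hρ hdc (fun s hs ↦ by
    rw [mem_sphere_zero_iff_norm] at hs
    exact hbd s hs.le)
  rw [iter_deriv hUo hder T 0 h0U, hΦ0, norm_mul, norm_pow] at hcau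
  exact hcau

end H32.T3

end S_H32_T3_CoreA

section S_H32_T3_CoreB

namespace H32.T3

open Complex Filter Topology Finset
open scoped fwdDiff

/-- A nonzero integer polynomial is large at large points. -/
lemma one_le_eval {P : Polynomial ℤ} (hP : P ≠ 0) {B : ℝ} (hB : ∀ i, |(P.coeff i : ℝ)| ≤ B)
    {x : ℂ} (hx : B + 1 ≤ ‖x‖) : 1 ≤ ‖Polynomial.aeval x P‖ := by
  set n := P.natDegree with hn
  have h1 : Polynomial.aeval x P = ∑ i ∈ range n, (P.coeff i : ℂ) * x ^ i +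
      (P.leadingCoeff : ℂ) * x ^ n := by
    rw [Polynomial.aeval_eq_sum_range, sum_range_succ]
    simp [hn]
  have hl : (1 : ℝ) ≤ ‖(P.leadingCoeff : ℂ)‖ := by
    rw [Complex.norm_intCast]
    have := Int.one_le_abs (Polynomial.leadingCoeff_ne_zero.mpr hP)
    exact_mod_cast this
  have hB0 : 0 ≤ B := (abs_nonneg _).trans (hB 0)
  have h2 : ‖∑ i ∈ range n, (P.coeff i : ℂ) * x ^ i‖ ≤ ‖x‖ ^ n - 1 := by
    refine (norm_sum_le _ _).trans ?_
    calc ∑ i ∈ range n, ‖(P.coeff i : ℂ) * x ^ i‖ ≤ ∑ i ∈ range n, (‖x‖ - 1) * ‖x‖ ^ i := by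
          refine sum_le_sum fun i _ ↦ ?_
          rw [norm_mul, norm_pow, Complex.norm_intCast]
          have := hB i
          gcongr
          linarith
      _ = (∑ i ∈ range n, ‖x‖ ^ i) * (‖x‖ - 1) := by rw [← mul_sum, mul_comm]
      _ = ‖x‖ ^ n - 1 := geom_sum_mul _ _
  have h3 : ‖x‖ ^ n ≤ ‖(P.leadingCoeff : ℂ) * x ^ n‖ := by
    rw [norm_mul, norm_pow]
    have : 0 ≤ ‖x‖ ^ n := by positivity
    nlinarith
  rw [h1]
  have h4 := norm_sub_norm_le ((P.leadingCoeff : ℂ) * x ^ n)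
    (-∑ i ∈ range n, (P.coeff i : ℂ) * x ^ i)
  rw [norm_neg, sub_neg_eq_add, add_comm ((P.leadingCoeff : ℂ) * x ^ n)] at h4
  linarith

/-- Finite differences of a polynomial. -/
lemma fwd_bound {R : Polynomial ℂ} (hR : 1 ≤ ‖R.leadingCoeff‖) {L : ℕ} (hRL : R.natDegree ≤ L)
    {c Y : ℂ} (hc : c ≠ 0) {C M : ℝ} (hC : 1 ≤ 2 * C) (hcC : C⁻¹ ≤ ‖c‖)
    (hM : ∀ k : ℕ, k ≤ R.natDegree → ‖R.eval (Y - k * c)‖ ≤ M) : 1 ≤ (2 * C) ^ L * M := by
  set n := R.natDegree with hn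
  set q : Polynomial ℂ := Polynomial.C (-c) * Polynomial.X + Polynomial.C Y with hq
  have hqd : q.natDegree = 1 := Polynomial.natDegree_linear (neg_ne_zero.mpr hc)
  have hql : q.leadingCoeff = -c := Polynomial.leadingCoeff_linear (neg_ne_zero.mpr hc)
  have hQd : (R.comp q).natDegree = n := by
    rw [Polynomial.natDegree_comp, hqd, mul_one]
  have hQl : (R.comp q).leadingCoeff = R.leadingCoeff * (-c) ^ n := by
    rw [Polynomial.leadingCoeff_comp (by rw [hqd]; norm_num), hql]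
  have h1 := (R.comp q).fwdDiff_iter_degree_eq_factorial
  rw [hQd, hQl] at h1
  have h2 := congrFun h1 0
  rw [fwdDiff_iter_eq_sum_shift] at h2
  have hC0 : 0 < C := by linarith
  have hM0 : 0 ≤ M := (norm_nonneg _).trans (hM 0 (Nat.zero_le _))
  have h3 : ‖∑ k ∈ range (n + 1), ((-1 : ℤ) ^ (n - k) * (n.choose k : ℤ)) •
      (R.comp q).eval (0 + k • (1 : ℂ))‖ ≤ 2 ^ n * M := by
    refine (norm_sum_le _ _).trans ?_
    calc ∑ k ∈ range (n + 1), ‖((-1 : ℤ) ^ (n - k) * (n.choose k : ℤ)) •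
          (R.comp q).eval (0 + k • (1 : ℂ))‖ ≤ ∑ k ∈ range (n + 1), (n.choose k : ℝ) * M := by
          refine sum_le_sum fun k hk ↦ ?_
          have hk' : k ≤ n := by have := mem_range.mp hk; omega
          rw [zsmul_eq_mul, norm_mul]
          have e1 : ‖(((-1 : ℤ) ^ (n - k) * (n.choose k : ℤ) : ℤ) : ℂ)‖ = n.choose k := by
            push_cast
            rw [norm_mul, norm_pow, norm_neg, norm_one, one_pow, one_mul, Complex.norm_natCast]
          rw [e1]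
          have e2 : (R.comp q).eval (0 + k • (1 : ℂ)) = R.eval (Y - k * c) := by
            rw [Polynomial.eval_comp]
            congr 1
            simp [hq]
            ring
          rw [e2]
          gcongr
          exact hM k hk'
      _ = 2 ^ n * M := by
          rw [← sum_mul, ← Nat.cast_sum, Nat.sum_range_choose]
          push_cast
          rfl
  rw [h2] at h3
  have h4 : ‖c‖ ^ n ≤ 2 ^ n * M := by
    refine le_trans ?_ h3
    simp only [Pi.smul_apply, smul_eq_mul, Pi.natCast_apply]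
    rw [norm_mul, norm_mul, norm_pow, norm_neg, Complex.norm_natCast]
    have h5 : (1 : ℝ) ≤ n.factorial := by exact_mod_cast n.factorial_pos
    have h6 : 0 ≤ ‖c‖ ^ n := by positivity
    calc ‖c‖ ^ n = 1 * ‖c‖ ^ n * 1 := by ring
      _ ≤ _ := by gcongr
  have h5 : (C⁻¹) ^ n ≤ 2 ^ n * M := le_trans (by gcongr) h4
  have h6 : 1 ≤ (2 * C) ^ n * M := by
    have : C ^ n * (C⁻¹) ^ n = 1 := by rw [← mul_pow, mul_inv_cancel₀ hC0.ne', one_pow]
    calc (1 : ℝ) = C ^ n * (C⁻¹) ^ n := this.symm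
      _ ≤ C ^ n * (2 ^ n * M) := by gcongr
      _ = _ := by rw [mul_pow]; ring
  refine h6.trans ?_
  gcongr

/-- The zero estimate. -/
theorem zero_est {r C σ : ℝ} {p lam G h κ e : ℂ} (hr : r < 1) (hC : 1 ≤ C)
    (D : EllData r C σ p lam G h κ e) {L : ℕ} {a : Fin L × Fin L → ℤ} {B : ℝ}
    (ha : ∀ i, |(a i : ℝ)| ≤ B) (hB0 : 0 ≤ B) (ha0 : a ≠ 0) {ε : ℝ}
    (hε : ∀ w ∈ Ann p L, ‖FF lam G p a w‖ ≤ ε) :
    1 ≤ (2 * C) ^ L * ((C * (B + 1)) ^ (3 * L) * ε) := by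
  obtain ⟨hp0, hpr, -, -, -, hpole, hlam0, hlamC, -, -⟩ := D
  have hp1 : ‖p‖ < 1 := hpr.trans_lt hr
  have hpn : 0 < ‖p‖ := norm_pos_iff.mpr hp0
  have hC0 : 0 < C := by linarith
  obtain ⟨w, hw1, hw2, hw3, hw4⟩ := hpole (B + 1) (by linarith)
  have hCB : 0 < C * (B + 1) := by positivity
  have hwn : 0 < ‖w‖ := lt_of_lt_of_le (by positivity) hw1
  have hw0 : w ≠ 0 := norm_pos_iff.mp hwn
  have hth0 : 0 < ‖th p w‖ := lt_of_lt_of_le (by positivity) hw3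
  set c : ℂ := 2 * Real.pi * I / lam with hc
  have hc0 : c ≠ 0 := div_ne_zero Complex.two_pi_I_ne_zero hlam0
  have hcn : C⁻¹ ≤ ‖c‖ := by
    rw [hc, norm_div, norm_mul, norm_mul, Complex.norm_I, Complex.norm_real,
      Real.norm_of_nonneg Real.pi_pos.le]
    have h1 := Real.pi_gt_three
    have h2 : 0 < ‖lam‖ := norm_pos_iff.mpr hlam0
    rw [le_div_iff₀ h2]
    have h3 : C⁻¹ * ‖lam‖ ≤ 1 := by
      calc C⁻¹ * ‖lam‖ ≤ C⁻¹ * C := by gcongr
        _ = 1 := inv_mul_cancel₀ hC0.ne'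
    have h4 : ‖(2 : ℂ)‖ = 2 := by norm_num
    rw [h4]
    linarith
  set X0 : ℂ := P2 lam G p w / th p w ^ 2 with hX0
  set Y0 : ℂ := P1 lam p w / th p w with hY0
  have hthne : th p w ≠ 0 := norm_pos_iff.mp hth0
  have hX0n : B + 1 ≤ ‖X0‖ := by
    rw [hX0, norm_div, norm_pow, le_div_iff₀ (by positivity)]
    exact hw4
  -- the translates
  have key : ∀ l : ℕ, p ^ (2 * l) * w ≠ 0 ∧ ‖th p w‖ ≤ ‖th p (p ^ (2 * l) * w)‖ ∧
      P2 lam G p (p ^ (2 * l) * w) = th p (p ^ (2 * l) * w) ^ 2 * X0 ∧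
      P1 lam p (p ^ (2 * l) * w) = th p (p ^ (2 * l) * w) * (Y0 - l * c) := by
    intro l
    induction l with
    | zero =>
      simp only [mul_zero, pow_zero, one_mul, Nat.cast_zero, zero_mul, sub_zero]
      refine ⟨hw0, le_rfl, ?_, ?_⟩
      · rw [hX0]; field_simp
      · rw [hY0]; field_simp
    | succ l ih =>
      obtain ⟨i1, i2, i3, i4⟩ := ih
      set v := p ^ (2 * l) * w with hv
      have e : p ^ (2 * (l + 1)) * w = p ^ 2 * v := by rw [hv]; ring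
      rw [e]
      have hpv : p * v ≠ 0 := mul_ne_zero hp0 i1
      refine ⟨mul_ne_zero (pow_ne_zero _ hp0) i1, ?_, ?_, ?_⟩
      · rw [th_q hp1 hp0 i1, norm_mul, norm_neg, norm_inv]
        have h1 : ‖p * v‖ ≤ 1 := by
          rw [norm_mul, hv, norm_mul, norm_pow]
          have h2 : ‖p‖ ^ (2 * l) ≤ 1 := pow_le_one₀ (norm_nonneg _) hp1.le
          calc ‖p‖ * (‖p‖ ^ (2 * l) * ‖w‖) ≤ 1 * (1 * 1) := by gcongr
            _ = 1 := by norm_num
        have h2 : 1 ≤ ‖p * v‖⁻¹ := (one_le_inv₀ (norm_pos_iff.mpr hpv)).mpr h1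
        calc ‖th p w‖ ≤ 1 * ‖th p v‖ := by rw [one_mul]; exact i2
          _ ≤ _ := by gcongr
      · rw [P2_q hp1 hp0 lam G i1, th_q hp1 hp0 i1, i3]
        ring
      · rw [P1_q hp1 hp0 lam i1, th_q hp1 hp0 i1, i4]
        push_cast
        ring
  -- the polynomial in the second variable
  set Pb : ℕ → Polynomial ℤ := fun b ↦ ∑ i : Fin L × Fin L,
    if (i.2 : ℕ) = b then Polynomial.C (a i) * Polynomial.X ^ (i.1 : ℕ) else 0 with hPb
  set R : Polynomial ℂ := ∑ i : Fin L × Fin L,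
    Polynomial.C ((a i : ℂ) * X0 ^ (i.1 : ℕ)) * Polynomial.X ^ (i.2 : ℕ) with hR
  have hReval : ∀ y : ℂ, R.eval y = SS a X0 y := by
    intro y
    rw [hR, SS, Polynomial.eval_finsetSum]
    refine sum_congr rfl fun i _ ↦ ?_
    simp only [Polynomial.eval_mul, Polynomial.eval_C, Polynomial.eval_pow, Polynomial.eval_X]
    ring
  have hRcoeff : ∀ b, R.coeff b = Polynomial.aeval X0 (Pb b) := by
    intro b
    rw [hR, hPb, Polynomial.finsetSum_coeff]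
    simp only
    rw [map_sum]
    refine sum_congr rfl fun i _ ↦ ?_
    rw [Polynomial.coeff_C_mul, Polynomial.coeff_X_pow]
    split_ifs with h1 h2 h2
    · simp
    · exact absurd h1.symm h2
    · exact absurd h2.symm h1
    · simp
  have hPbcoeff : ∀ b j, |((Pb b).coeff j : ℝ)| ≤ B := by
    intro b j
    by_cases hj : j < L ∧ b < L
    · have h1 : (Pb b).coeff j = a (⟨j, hj.1⟩, ⟨b, hj.2⟩) := by
        rw [hPb, Polynomial.finsetSum_coeff]
        rw [Finset.sum_eq_single (⟨j, hj.1⟩, ⟨b, hj.2⟩)]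
        · simp
        · intro i _ hi
          split_ifs with h2
          · rw [Polynomial.coeff_C_mul, Polynomial.coeff_X_pow, if_neg, mul_zero]
            rintro rfl
            apply hi
            ext
            · rfl
            · exact h2
          · simp
        · simp
      rw [h1]
      exact ha _
    · have h1 : (Pb b).coeff j = 0 := by
        rw [hPb, Polynomial.finsetSum_coeff]
        refine Finset.sum_eq_zero fun i _ ↦ ?_
        split_ifs with h2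
        · rw [Polynomial.coeff_C_mul, Polynomial.coeff_X_pow, if_neg, mul_zero]
          rintro rfl
          exact hj ⟨i.1.2, h2 ▸ i.2.2⟩
        · simp
      rw [h1]
      simpa using hB0
  have hRne : R ≠ 0 := by
    obtain ⟨i, hi⟩ := Function.ne_iff.mp ha0
    intro h0
    have h1 : Polynomial.aeval X0 (Pb i.2) = 0 := by
      rw [← hRcoeff, h0, Polynomial.coeff_zero]
    have h2 : Pb i.2 ≠ 0 := by
      intro h3
      have h4 : (Pb i.2).coeff i.1 = a i := by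
        rw [hPb, Polynomial.finsetSum_coeff]
        rw [Finset.sum_eq_single i]
        · simp
        · intro k _ hk
          split_ifs with h2
          · rw [Polynomial.coeff_C_mul, Polynomial.coeff_X_pow, if_neg, mul_zero]
            intro h5
            apply hk
            ext
            · exact h5.symm
            · exact h2
          · simp
        · simp
      rw [h3, Polynomial.coeff_zero] at h4
      exact hi h4.symm
    have h3 := one_le_eval h2 (hPbcoeff i.2) hX0n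
    rw [h1, norm_zero] at h3
    linarith
  have hRlead : 1 ≤ ‖R.leadingCoeff‖ := by
    have h1 : R.leadingCoeff = Polynomial.aeval X0 (Pb R.natDegree) := hRcoeff _
    rw [h1]
    refine one_le_eval ?_ (hPbcoeff _) hX0n
    intro h2
    rw [h2, map_zero] at h1
    exact hRne (Polynomial.leadingCoeff_eq_zero.mp h1)
  have hRdeg : R.natDegree + 1 ≤ L := by
    have h3 : ∀ m, L ≤ m → R.coeff m = 0 := by
      intro m hm
      rw [hR, Polynomial.finsetSum_coeff]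
      refine Finset.sum_eq_zero fun i _ ↦ ?_
      rw [Polynomial.coeff_C_mul, Polynomial.coeff_X_pow, if_neg, mul_zero]
      intro h2
      have := i.2.2
      omega
    have h1 : R.coeff R.natDegree ≠ 0 := Polynomial.leadingCoeff_ne_zero.mpr hRne
    by_contra hcon
    exact h1 (h3 _ (by omega))
  refine fwd_bound hRlead (by omega : R.natDegree ≤ L) (c := c) (Y := Y0) hc0 (by linarith) hcn ?_
  intro k hk
  obtain ⟨k1, k2, k3, k4⟩ := key k
  rw [hReval]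
  have hFF := FF_eq a k3 k4
  have hmem : p ^ (2 * k) * w ∈ Ann p L := by
    refine ⟨?_, ?_⟩
    · rw [norm_mul, norm_pow]
      calc ‖p‖ ^ (2 * L) ≤ ‖p‖ ^ (2 * k + 2) :=
            pow_le_pow_of_le_one hpn.le hp1.le (by omega)
        _ = ‖p‖ ^ (2 * k) * ‖p‖ ^ 2 := by rw [pow_add]
        _ ≤ _ := by gcongr
    · rw [norm_mul, norm_pow]
      have h2 : ‖p‖ ^ (2 * k) ≤ 1 := pow_le_one₀ (norm_nonneg _) hp1.le
      have h3 : ‖p‖ ^ (2 * L) ≤ 1 := pow_le_one₀ (norm_nonneg _) hp1.le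
      calc ‖p‖ ^ (2 * k) * ‖w‖ * ‖p‖ ^ (2 * L) ≤ 1 * 1 * 1 := by gcongr
        _ = 1 := by norm_num
  have h1 := hε _ hmem
  have hthk : 0 < ‖th p (p ^ (2 * k) * w)‖ := hth0.trans_le k2
  have h2 : ‖th p (p ^ (2 * k) * w)‖⁻¹ ≤ C * (B + 1) :=
    inv_le_of_inv_le₀ hCB (hw3.trans k2)
  have e2 : ‖SS a X0 (Y0 - k * c)‖ = (‖th p (p ^ (2 * k) * w)‖⁻¹) ^ (3 * L) *
      ‖FF lam G p a (p ^ (2 * k) * w)‖ := by
    rw [hFF, norm_mul, norm_pow, ← mul_assoc, ← mul_pow, inv_mul_cancel₀ hthk.ne', one_pow,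
      one_mul]
  rw [e2]
  gcongr

end H32.T3

end S_H32_T3_CoreB

section S_H32_T3_Measure

namespace H32.T3

open Complex Filter Topology Finset Height NumberField

lemma exists_big (K : ℝ) (hK : 1 ≤ K) : ∃ Λ0 : ℕ, ∀ Λ : ℕ, Λ0 ≤ Λ → Big K Λ := by
  have h1 : Tendsto (fun Λ : ℕ ↦ (Λ : ℝ) / 100) atTop atTop :=
    tendsto_natCast_atTop_atTop.atTop_div_const (by norm_num)
  have h2 := (Real.tendsto_pow_mul_exp_neg_atTop_nhds_zero 16).comp h1
  have h3 : ∀ᶠ Λ : ℕ in atTop, ((Λ : ℝ) / 100) ^ 16 * Real.exp (-((Λ : ℝ) / 100)) ≤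
      (1 / 100) ^ 16 := h2.eventually_le_const (by norm_num)
  have h4 : ∀ᶠ Λ : ℕ in atTop, 10 ^ 6 * K ^ 2 ≤ (Λ : ℝ) :=
    tendsto_natCast_atTop_atTop.eventually_ge_atTop _
  obtain ⟨Λ0, h⟩ := (h3.and h4).exists_forall_of_atTop
  refine ⟨Λ0, fun Λ hΛ ↦ ⟨hK, (h Λ hΛ).2, ?_⟩⟩
  have h5 := (h Λ hΛ).1
  have h6 : (Λ : ℝ) ^ 16 * Real.exp (-((Λ : ℝ) / 100)) ≤ 1 := by
    have e : ((Λ : ℝ) / 100) ^ 16 = (Λ : ℝ) ^ 16 * (1 / 100) ^ 16 := by rw [div_pow]; ring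
    rw [e] at h5
    have h7 : (0 : ℝ) < (1 / 100) ^ 16 := by positivity
    have h8 : (Λ : ℝ) ^ 16 * Real.exp (-((Λ : ℝ) / 100)) * (1 / 100) ^ 16 ≤ 1 * (1 / 100) ^ 16 := by
      linarith
    exact le_of_mul_le_mul_right h8 h7
  rw [Real.exp_neg] at h6
  rwa [← div_eq_mul_inv, div_le_one (Real.exp_pos _)] at h6

open MvPolynomial in
lemma ringHom_aeval {K : Type*} [Field K] (s : K →+* ℂ) (x : Fin 5 → K)
    (P : MvPolynomial (Fin 5) ℤ) : s (aeval x P) = aeval (fun i ↦ s (x i)) P := by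
  have h := MvPolynomial.comp_aeval_apply x (s.toIntAlgHom) P
  exact h

/-- The transcendence measure for `κ = (3/2) E₂E₄/E₆`, uniform in the analytic data. -/
theorem measure {r C σ : ℝ} (hr : r < 1) (hr0 : 0 < r) (hC : 1 ≤ C) (hσ : 0 < σ) :
    ∃ Λ0 : ℕ, ∀ (p lam G h κ e : ℂ), EllData r C σ p lam G h κ e →
      ∀ (K : Type) [Field K] [NumberField K] (s : K →+* ℂ) (x : Fin 5 → K) (Λ : ℕ), Λ0 ≤ Λ →
        totalWeight K ≤ Λ → (∀ i, mulHeight₁ (x i) ≤ Real.exp Λ) → s (x 0) = e → x 1 = 0 →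
        x 2 = 0 → s (x 3) = h → Real.exp (-(Λ : ℝ) ^ 22) ≤ ‖κ - s (x 4)‖ := by
  -- the constants
  set r1 : ℝ := min ((1 - r) / 2) σ with hr1
  set V : ℝ := 2 * (Real.exp (4 * C) * C ^ 2) with hV
  have hr1pos : 0 < r1 := by rw [hr1]; exact lt_min (by linarith) hσ
  have hr1le : r1 ≤ 1 := by
    rw [hr1]
    exact (min_le_left _ _).trans (by linarith)
  have hexp4 : 1 ≤ Real.exp (4 * C) := Real.one_le_exp (by linarith)
  have hV1 : 1 ≤ V := by
    rw [hV]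
    have := one_le_mul_of_one_le_of_one_le hexp4 (one_le_pow₀ (n := 2) hC)
    linarith
  have h16 : 1 ≤ 16 / r1 := by rw [le_div_iff₀ hr1pos]; linarith
  have hlr : 0 < -Real.log r := by
    have := Real.log_neg hr0 hr
    linarith
  set KK : ℝ := 4 * C + Real.log V + Real.log (16 / r1) + (-Real.log r)⁻¹ + 1 with hKK
  have k1 : 0 ≤ Real.log V := Real.log_nonneg hV1
  have k2 : 0 ≤ Real.log (16 / r1) := Real.log_nonneg h16
  have k3 : 0 < (-Real.log r)⁻¹ := by positivity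
  have hK1 : 1 ≤ KK := by linarith
  have hKC : C ≤ KK := by linarith
  have hK0 : 0 < KK := by linarith
  have c1 : C ≤ Real.exp KK := by
    have := Real.add_one_le_exp KK
    linarith
  have c2 : Real.exp (4 * C) ≤ Real.exp KK := Real.exp_le_exp.mpr (by linarith)
  have c3 : V ≤ Real.exp KK := by
    rw [← Real.exp_log (by linarith : 0 < V)]
    exact Real.exp_le_exp.mpr (by linarith)
  have c4 : 16 / r1 ≤ Real.exp KK := by
    rw [← Real.exp_log (by linarith : 0 < 16 / r1)]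
    exact Real.exp_le_exp.mpr (by linarith)
  have c5 : 4 / r1 ≤ Real.exp KK := by
    refine le_trans ?_ c4
    gcongr
    norm_num
  have c6 : r ≤ Real.exp (-KK⁻¹) := by
    have h1 : KK⁻¹ ≤ -Real.log r := by
      apply inv_le_of_inv_le₀ hlr
      linarith
    calc r = Real.exp (Real.log r) := (Real.exp_log hr0).symm
      _ ≤ _ := Real.exp_le_exp.mpr (by linarith)
  obtain ⟨Λ0, hbig⟩ := exists_big KK hK1
  refine ⟨Λ0, ?_⟩
  intro p lam G h κ e D K _ _ s x Λ hΛ0 hΛK hxh hs0 hx1 hx2 hs3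
  have hb := hbig Λ hΛ0
  have hΛ6 := hb.x6
  have hΛ1 : (1 : ℝ) ≤ Λ := hb.x1
  have hΛpos : (0 : ℝ) < Λ := hb.x0
  have hΛ1' : 1 ≤ Λ := by exact_mod_cast hΛ1
  set L : ℕ := 12 * Λ ^ 5 with hL
  set T : ℕ := 12 * Λ ^ 9 with hT
  set Bn : ℕ := ⌈Real.exp ((Λ : ℝ) ^ 10)⌉₊ with hBn
  have hLr : (L : ℝ) = 12 * (Λ : ℝ) ^ 5 := by rw [hL]; push_cast; ring
  have hTr : (T : ℝ) = 12 * (Λ : ℝ) ^ 9 := by rw [hT]; push_cast; ring
  have hL1 : 1 ≤ L := by rw [hL]; have : 0 < Λ ^ 5 := by positivity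
                         omega
  have hT1 : 1 ≤ T := by rw [hT]; have : 0 < Λ ^ 9 := by positivity
                         omega
  have hB1 : Real.exp ((Λ : ℝ) ^ 10) ≤ (Bn : ℝ) := Nat.le_ceil _
  have hB2 : (Bn : ℝ) ≤ Real.exp ((Λ : ℝ) ^ 10 + 1) := by
    have h1 := (Nat.ceil_lt_add_one (Real.exp_pos ((Λ : ℝ) ^ 10)).le).le
    have h2 : 1 ≤ Real.exp ((Λ : ℝ) ^ 10) := Real.one_le_exp (by positivity)
    rw [Real.exp_add]
    have h3 := Real.add_one_le_exp (1 : ℝ)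
    nlinarith
  have hB1' : (1 : ℝ) ≤ Bn := (Real.one_le_exp (by positivity)).trans hB1
  have hBlog : (Λ : ℝ) ^ 10 ≤ Real.log Bn := by
    rw [Real.le_log_iff_exp_le (by linarith)]
    exact hB1
  have hLT : 12 * Λ * T ≤ L ^ 2 := by
    apply le_of_eq
    rw [hL, hT]
    ring
  have hLpos : (0 : ℝ) < L := by rw [hLr]; positivity
  have hTpos : (0 : ℝ) < T := by rw [hTr]; positivity
  have hSieg : Real.log (L ^ 2 * (7 * (2 * L + T : ℝ)) ^ T) + 3 * (2 * L + T) + 1 ≤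
      Real.log Bn := by
    have h1 := hb.siegel hLr hTr hBlog
    rw [Real.log_mul (by positivity) (by positivity), Real.log_pow, Real.log_pow]
    push_cast
    linarith
  obtain ⟨a, ha0, haB, havan⟩ := exists_aux s hΛ1' hΛK hxh hL1 hT1 hLT hSieg
  have haB' : ∀ i, |(a i : ℝ)| ≤ (Bn : ℝ) := fun i ↦ by
    have := haB i
    exact_mod_cast this
  by_contra hcon
  push Not at hcon
  set k' : ℂ := s (x 4) with hk'
  have hδ := hcon.le
  have hv : (fun i ↦ s (x i)) = ![e, 0, 0, h, k'] := by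
    ext i
    fin_cases i
    · exact hs0
    · change s (x 1) = 0
      rw [hx1, map_zero]
    · change s (x 2) = 0
      rw [hx2, map_zero]
    · exact hs3
    · rfl
  have hval : ∀ P : MvPolynomial (Fin 5) ℤ,
      MvPolynomial.aeval ![e, 0, 0, h, k'] P = s (MvPolynomial.aeval x P) := by
    intro P
    rw [ringHom_aeval, hv]
  have hkC : ‖κ - k'‖ ≤ C⁻¹ := by
    refine hδ.trans ?_
    calc Real.exp (-(Λ : ℝ) ^ 22) ≤ Real.exp (-KK) := by
          apply Real.exp_le_exp.mpr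
          have h1 := hb.Kx
          have h2 : (Λ : ℝ) ≤ (Λ : ℝ) ^ 22 := le_self_pow₀ hΛ1 (by norm_num)
          linarith
      _ = (Real.exp KK)⁻¹ := Real.exp_neg _
      _ ≤ C⁻¹ := inv_anti₀ (by linarith) c1
  set S : ℝ := ‖κ - k'‖ * (L ^ 3 * Bn * V ^ (2 * L) * C * Real.exp (4 * C) ^ (3 * L)) with hS
  have hS0 : 0 ≤ S := by rw [hS]; positivity
  have hS1 : S ≤ Real.exp (-(Λ : ℝ) ^ 22 + 2 * (Λ : ℝ) ^ 10) :=
    hb.S_le hLr hδ (norm_nonneg _) hB2 (by linarith) c3 (by linarith) c1 (by linarith) c2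
      (by positivity) hS
  have hS2 : S ≤ Real.exp (-(Λ : ℝ) ^ 21) := by
    refine hS1.trans (Real.exp_le_exp.mpr ?_)
    have a3 : 10 * (Λ : ℝ) ^ 21 ≤ (Λ : ℝ) ^ 22 := hb.pw (by linarith) (by norm_num)
    have a4 : 10 * (Λ : ℝ) ^ 10 ≤ (Λ : ℝ) ^ 21 := hb.pw (by linarith) (by norm_num)
    have a5 : 0 < (Λ : ℝ) ^ 21 := by positivity
    linarith
  have hpn : 0 < ‖p‖ := norm_pos_iff.mpr D.p0
  have hp1 : ‖p‖ < 1 := D.hp.trans_lt hr
  -- bounds for powers of `‖p‖`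
  have hPinv : ∀ N : ℕ, (‖p‖ ^ (4 * N))⁻¹ ≤ Real.exp (4 * N * KK) := by
    intro N
    have h1 : Real.exp (-KK) ≤ ‖p‖ := (Real.exp_le_exp.mpr (by linarith)).trans D.hpC
    have h2 : Real.exp (-KK) ^ (4 * N) ≤ ‖p‖ ^ (4 * N) := by gcongr
    have h3 : Real.exp (-KK) ^ (4 * N) = (Real.exp (4 * N * KK))⁻¹ := by
      rw [← Real.exp_nat_mul, ← Real.exp_neg]
      congr 1
      push_cast; ring
    rw [h3] at h2
    exact inv_le_of_inv_le₀ (Real.exp_pos _) h2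
  have hhalf : ∀ N : ℕ, KK ≤ N → ‖p‖ ^ (4 * N) ≤ 1 / 2 := by
    intro N hN
    calc ‖p‖ ^ (4 * N) ≤ Real.exp (-KK⁻¹) ^ (4 * N) := by
          gcongr
          exact D.hp.trans c6
      _ = Real.exp (-(4 * (N / KK))) := by
          rw [← Real.exp_nat_mul]
          congr 1
          push_cast; ring
      _ ≤ Real.exp (-1) := by
          apply Real.exp_le_exp.mpr
          have : 1 ≤ N / KK := (one_le_div hK0).mpr hN
          linarith
      _ ≤ 1 / 2 := by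
          rw [Real.exp_neg, one_div]
          apply inv_anti₀ (by norm_num)
          have := Real.add_one_le_exp (1 : ℝ)
          linarith
  have hdata : ∀ (T' N : ℕ), 1 ≤ T' → 1 ≤ N → KK ≤ N → (T' : ℝ) ≤ 1728 * (Λ : ℝ) ^ 15 →
      (N : ℝ) ≤ 12 * (Λ : ℝ) ^ 5 →
      (∀ t < T', MvPolynomial.aeval ![e, 0, 0, h, k'] (PP a t) = 0) →
      ∃ η ε : ℝ, 0 ≤ η ∧ η ≤ Real.exp (-(Λ : ℝ) ^ 21) ∧
        ε = η + (L ^ 2 * Bn * Real.exp (C * (2 * N + 1) ^ 2) ^ (3 * L) + η) *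
          (4 * ‖p‖ ^ N) ^ T' ∧
        (∀ w ∈ Ann p N, ‖FF lam G p a w‖ ≤ ε) ∧
        ‖lam‖ ^ T' * ‖MvPolynomial.aeval ![e, 0, 0, h, k'] (PP a T')‖ ≤
          T'.factorial * (C ^ (3 * L) * ε + S) / (r1 / 16) ^ T' := by
    intro T' N hT' hN hKN hT'2 hN2 hvan
    refine ⟨T' * ((4 / r1) * (‖p‖ ^ (4 * N))⁻¹) ^ T' * S, _, by positivity, ?_, rfl, ?_⟩
    · exact hb.eta_le hT'2 hN2 c5 (by positivity) (hPinv N) (by positivity) hS1 hS0 rfl
    · exact core_small hr hr0.le hC hσ D haB' (by linarith) hkC hT' hN (hhalf N hKN) hvan hr1 hV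
        hS rfl rfl
  by_cases hall : ∀ t < L ^ 3, MvPolynomial.aeval x (PP a t) = 0
  · -- case B
    have hL3 : ((L ^ 3 : ℕ) : ℝ) = 1728 * (Λ : ℝ) ^ 15 := by
      push_cast
      rw [hLr]
      ring
    obtain ⟨η, ε, hη0, hη, hε, hFF, -⟩ := hdata (L ^ 3) L (Nat.one_le_pow _ _ hL1) hL1 (by
      rw [hLr]
      have h1 := hb.Kx
      have h2 : (Λ : ℝ) ≤ (Λ : ℝ) ^ 5 := le_self_pow₀ hΛ1 (by norm_num)
      linarith) hL3.le hLr.le (fun t ht ↦ by rw [hval, hall t ht, map_zero])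
    have hz := zero_est hr hC D haB' (by linarith) ha0 hFF
    exact hb.caseB hLr hL3 hB2 hB1' hKC hC c1 (norm_nonneg _) D.hp c6 hη hη0 hε hz
  · -- case A
    push Not at hall
    obtain ⟨t0, ht0, hne0⟩ := hall
    classical
    set T' := Nat.find (⟨t0, hne0⟩ : ∃ t, MvPolynomial.aeval x (PP a t) ≠ 0) with hT'
    have hT'ne : MvPolynomial.aeval x (PP a T') ≠ 0 :=
      Nat.find_spec (⟨t0, hne0⟩ : ∃ t, MvPolynomial.aeval x (PP a t) ≠ 0)
    have hT'min : ∀ t < T', MvPolynomial.aeval x (PP a t) = 0 := by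
      intro t ht
      have := Nat.find_min (⟨t0, hne0⟩ : ∃ t, MvPolynomial.aeval x (PP a t) ≠ 0) ht
      rwa [not_not] at this
    have hTT' : T ≤ T' := by
      by_contra hlt
      exact hT'ne (havan T' (by omega))
    have hT'lt : T' < L ^ 3 := lt_of_le_of_lt (Nat.find_min' _ hne0) ht0
    have hT'r : 12 * (Λ : ℝ) ^ 9 ≤ (T' : ℝ) := by
      rw [← hTr]; exact_mod_cast hTT'
    have hT'r2 : (T' : ℝ) ≤ 1728 * (Λ : ℝ) ^ 15 := by
      have h1 : (T' : ℝ) ≤ ((L ^ 3 : ℕ) : ℝ) := by exact_mod_cast hT'lt.le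
      refine h1.trans (le_of_eq ?_)
      push_cast
      rw [hLr]
      ring
    have hNr : ((Λ ^ 3 : ℕ) : ℝ) = (Λ : ℝ) ^ 3 := by push_cast; ring
    obtain ⟨η, ε, hη0, hη, hε, hFF, hder⟩ := hdata T' (Λ ^ 3) (by omega)
      (Nat.one_le_pow _ _ hΛ1') (by
      rw [hNr]
      have h1 := hb.Kx
      have h2 : (Λ : ℝ) ≤ (Λ : ℝ) ^ 3 := le_self_pow₀ hΛ1 (by norm_num)
      linarith) hT'r2 (by
      rw [hNr]
      have h2 : (1 : ℝ) * (Λ : ℝ) ^ 3 ≤ (Λ : ℝ) ^ 5 := hb.pw hΛ1 (by norm_num)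
      have h3 : (0 : ℝ) < (Λ : ℝ) ^ 5 := by positivity
      linarith) (fun t ht ↦ by rw [hval, hT'min t ht, map_zero])
    have hε3 := hb.epsA hLr hNr hT'r hT'r2 hB2 (by linarith) hKC (norm_nonneg _) D.hp c6 hη hη0 hε
    have hε0 : 0 ≤ ε := by rw [hε]; positivity
    have hlamC : C⁻¹ ≤ ‖lam‖ := by
      have h1 := D.lamC'
      rw [norm_inv] at h1
      exact inv_le_of_inv_le₀ (norm_pos_iff.mpr D.lam0) h1
    have hlow : ((L ^ 2 * Bn * (7 * (2 * L + T')) ^ T' : ℝ) ^ Λ *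
        Real.exp (5 * Λ * (2 * L + T')))⁻¹ ≤
        ‖MvPolynomial.aeval ![e, 0, 0, h, k'] (PP a T')‖ := by
      rw [hval]
      refine le_trans ?_ (liouville s hT'ne)
      apply inv_anti₀
      · linarith [one_le_mulHeight₁ (MvPolynomial.aeval x (PP a T'))]
      have h1 := height_value hΛK hxh (P := PP a T') (n := 2 * L + T')
        (B := L ^ 2 * Bn * (7 * (2 * L + T' : ℝ)) ^ T') ?_ (nrm_PP haB' T') (deg_PP a T')
      · refine h1.trans (le_of_eq ?_)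
        push_cast
        ring_nf
      · have h2 : (1 : ℝ) ≤ L := by exact_mod_cast hL1
        have h3 : (0 : ℝ) ≤ T' := Nat.cast_nonneg _
        refine one_le_mul_of_one_le_of_one_le (one_le_mul_of_one_le_of_one_le
          (one_le_pow₀ h2) hB1') (one_le_pow₀ (by linarith))
    exact hb.caseA rfl hLr hT'r hT'r2 hB2 hB1' c1 (by linarith) hS2 hε0 hε3
      (by positivity : 0 < r1 / 16) (by rw [inv_div]; exact c4) hlamC hlow hder

end H32.T3

end S_H32_T3_Measure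

section S_H32_T3_Measure2

namespace H32.T3

open UpperHalfPlane hiding I
open Complex EisensteinSeries ModularForm Filter Topology Finset Height NumberField

lemma continuous_E4 : Continuous (fun τ : ℍ ↦ (E₄ τ : ℂ)) := E₄.holo'.continuous
lemma continuous_E6 : Continuous (fun τ : ℍ ↦ (E₆ τ : ℂ)) := E₆.holo'.continuous
lemma continuous_E2 : Continuous (fun τ : ℍ ↦ E2 τ) := E2_mdifferentiable.continuous

lemma G2_eq (τ : ℍ) : G2 τ = (Real.pi : ℂ) ^ 2 / 3 * E2 τ := by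
  have hpi : (Real.pi : ℂ) ≠ 0 := by exact_mod_cast Real.pi_ne_zero
  have : E2 τ = (1 / (2 * riemannZeta 2)) * G2 τ := rfl
  rw [this, riemannZeta_two]
  field_simp
  ring

lemma continuous_G2 : Continuous (fun τ : ℍ ↦ G2 τ) := by
  have : (fun τ : ℍ ↦ G2 τ) = fun τ ↦ (Real.pi : ℂ) ^ 2 / 3 * E2 τ := funext G2_eq
  rw [this]
  exact continuous_const.mul continuous_E2

/-- Uniform analytic data near `z`. -/
theorem exists_data (z : ℍ) (h4 : E₄ z ≠ 0) (h6 : E₆ z ≠ 0) :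
    ∃ r C σ : ℝ, r < 1 ∧ 0 < r ∧ 1 ≤ C ∧ 0 < σ ∧ ∀ᶠ τ : ℍ in 𝓝 z, ∃ lam e : ℂ,
      EllData r C σ (pp τ) lam (G2 τ) (27 / 2 * (E₄ τ ^ 3 / E₆ τ ^ 2))
        (3 / 2 * (E2 τ * E₄ τ / E₆ τ)) e ∧
      4 * e ^ 3 - 2 * (27 / 2 * (E₄ τ ^ 3 / E₆ τ ^ 2)) * e -
        2 * (27 / 2 * (E₄ τ ^ 3 / E₆ τ ^ 2)) = 0 := by
  have hy := z.im_pos
  have hpi := Real.pi_pos
  set r : ℝ := Real.exp (-(Real.pi * (z.im / 2))) with hr
  set c : ℝ := Real.pi * (2 * z.im) + 1 with hc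
  have hr1 : r < 1 := Real.exp_lt_one_iff.mpr (by
    have : 0 < Real.pi * (z.im / 2) := by positivity
    linarith)
  have hr0 : 0 < r := Real.exp_pos _
  have hc1 : 1 ≤ c := by
    have : 0 < Real.pi * (2 * z.im) := by positivity
    linarith
  -- the square of `lam`
  set Q : ℍ → ℂ := fun τ ↦ (LL τ).g₃ / (LL τ).g₂ with hQ
  have hpiC : (Real.pi : ℂ) ≠ 0 := by exact_mod_cast Real.pi_ne_zero
  have hQe : ∀ τ : ℍ, Q τ = (8 * (Real.pi : ℂ) ^ 6 / 27 * E₆ τ) / (4 * (Real.pi : ℂ) ^ 4 / 3 * E₄ τ) := by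
    intro τ
    rw [hQ]
    simp only
    rw [g2_eq, g3_eq]
  have hden : (4 * (Real.pi : ℂ) ^ 4 / 3 * E₄ z) ≠ 0 :=
    mul_ne_zero (div_ne_zero (mul_ne_zero (by norm_num) (pow_ne_zero _ hpiC)) (by norm_num)) h4
  have hnum : (8 * (Real.pi : ℂ) ^ 6 / 27 * E₆ z) ≠ 0 :=
    mul_ne_zero (div_ne_zero (mul_ne_zero (by norm_num) (pow_ne_zero _ hpiC)) (by norm_num)) h6
  have hQz : Q z ≠ 0 := by rw [hQe]; exact div_ne_zero hnum hden
  have hQc : ContinuousAt Q z := by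
    have : Q = fun τ ↦ (8 * (Real.pi : ℂ) ^ 6 / 27 * E₆ τ) / (4 * (Real.pi : ℂ) ^ 4 / 3 * E₄ τ) :=
      funext hQe
    rw [this]
    exact ((continuous_const.mul continuous_E6).continuousAt).div
      ((continuous_const.mul continuous_E4).continuousAt) hden
  -- the bound `B0`
  set B0 : ℝ := 1 + 2 * ‖Q z‖ + 2 * ‖Q z‖⁻¹ + (‖G2 z‖ + 1) with hB0
  have hQn : 0 < ‖Q z‖ := norm_pos_iff.mpr hQz
  have hQi : 0 < ‖Q z‖⁻¹ := by positivity
  have hB01 : 1 ≤ B0 := by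
    have := norm_nonneg (G2 z)
    linarith
  obtain ⟨C1, hC1, hgr⟩ := growth hr1 hr0.le hc1 hB01
  obtain ⟨C2, hC2, hne⟩ := near_one hr1 hr0.le
  obtain ⟨C3, hC3, hpo⟩ := near_pole hr1 hr0.le hc1 hB01
  set C : ℝ := C1 + C2⁻¹ + C3 + B0 + c with hC
  have hC2i : 0 < C2⁻¹ := by positivity
  refine ⟨r, C, z.im / 4, hr1, hr0, by linarith, by positivity, ?_⟩
  have ev1 : ∀ᶠ τ : ℍ in 𝓝 z, z.im / 2 < τ.im :=
    UpperHalfPlane.continuous_im.continuousAt.eventually_const_lt (by linarith)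
  have ev2 : ∀ᶠ τ : ℍ in 𝓝 z, τ.im < 2 * z.im :=
    UpperHalfPlane.continuous_im.continuousAt.eventually_lt_const (by linarith)
  have ev3 : ∀ᶠ τ : ℍ in 𝓝 z, ‖Q τ‖ < 2 * ‖Q z‖ :=
    hQc.norm.eventually_lt_const (by linarith)
  have ev4 : ∀ᶠ τ : ℍ in 𝓝 z, ‖Q z‖ / 2 < ‖Q τ‖ :=
    hQc.norm.eventually_const_lt (by linarith)
  have ev5 : ∀ᶠ τ : ℍ in 𝓝 z, ‖G2 τ‖ < ‖G2 z‖ + 1 :=
    continuous_G2.norm.continuousAt.eventually_lt_const (by linarith)
  have ev6 : ∀ᶠ τ : ℍ in 𝓝 z, (E₄ τ : ℂ) ≠ 0 := continuous_E4.continuousAt.eventually_ne h4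
  have ev7 : ∀ᶠ τ : ℍ in 𝓝 z, (E₆ τ : ℂ) ≠ 0 := continuous_E6.continuousAt.eventually_ne h6
  filter_upwards [ev1, ev2, ev3, ev4, ev5, ev6, ev7] with τ t1 t2 t3 t4 t5 t6 t7
  obtain ⟨lam, hlam⟩ : ∃ lam : ℂ, lam ^ 2 = Q τ := ⟨(Q τ) ^ (1 / 2 : ℂ), by
    rw [← Complex.cpow_nat_mul]; norm_num⟩
  obtain ⟨X, X1, Y, hsys, hX1, hY, hX⟩ := system t6 t7 hlam
  have hQτ : 0 < ‖Q τ‖ := by linarith
  have hlam0 : lam ≠ 0 := by
    rintro rfl
    rw [zero_pow (by norm_num)] at hlam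
    rw [← hlam, norm_zero] at hQτ
    exact lt_irrefl _ hQτ
  have hln : ‖lam‖ ^ 2 = ‖Q τ‖ := by rw [← norm_pow, hlam]
  have hlpos : 0 < ‖lam‖ := norm_pos_iff.mpr hlam0
  have hlamB : ‖lam‖ ≤ B0 := by
    by_contra hcon
    push Not at hcon
    have h1 : B0 ≤ ‖lam‖ ^ 2 := by nlinarith
    have h2 := norm_nonneg (G2 z)
    rw [hln] at h1
    linarith
  have hlamB' : ‖lam⁻¹‖ ≤ B0 := by
    rw [norm_inv]
    by_contra hcon
    push Not at hcon
    have h0 : 0 < ‖lam‖⁻¹ := by positivity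
    have h1 : B0 ≤ (‖lam‖⁻¹) ^ 2 := by nlinarith
    have h2 := norm_nonneg (G2 z)
    rw [inv_pow, hln] at h1
    have h3 : ‖Q τ‖⁻¹ ≤ 2 * ‖Q z‖⁻¹ := by
      have : ‖Q τ‖⁻¹ ≤ (‖Q z‖ / 2)⁻¹ := inv_anti₀ (by positivity) t4.le
      rw [inv_div, div_eq_mul_inv] at this
      exact this
    linarith
  have hGB : ‖G2 τ‖ ≤ B0 := by linarith
  have hpr : ‖pp τ‖ ≤ r := by
    rw [norm_pp, hr]
    apply Real.exp_le_exp.mpr
    have : Real.pi * (z.im / 2) ≤ Real.pi * τ.im := by gcongr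
    linarith
  have hpc : Real.exp (-c) ≤ ‖pp τ‖ := by
    rw [norm_pp]
    apply Real.exp_le_exp.mpr
    have : Real.pi * τ.im ≤ Real.pi * (2 * z.im) := by gcongr
    linarith
  refine ⟨lam, X 0, ⟨pp_ne τ, hpr, ?_, ?_, ?_, ?_, hlam0, by linarith, by linarith,
    X, X1, Y, ?_, hX1, hY, rfl⟩, hX⟩
  · refine le_trans ?_ hpc
    apply Real.exp_le_exp.mpr
    linarith
  · intro M w hw
    obtain ⟨g1, g2, g3⟩ := hgr (pp τ) lam (G2 τ) hpr hpc hlamB' hGB M w hw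
    have hle : Real.exp (C1 * (M + 1) ^ 2) ≤ Real.exp (C * (M + 1) ^ 2) := by
      apply Real.exp_le_exp.mpr
      gcongr
      linarith
    exact ⟨g1.trans hle, g2.trans hle, g3.trans hle⟩
  · intro w hw
    refine le_trans ?_ (hne (pp τ) w hpr hw)
    apply inv_le_of_inv_le₀ hC2
    linarith
  · intro B hB
    obtain ⟨w, w1, w2, w3, w4⟩ := hpo (pp τ) lam (G2 τ) hpr hpc hlam0 hlamB' hlamB hGB B hB
    refine ⟨w, w1, w2, le_trans ?_ w3, w4⟩
    apply inv_anti₀ (by positivity)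
    gcongr
    linarith
  · intro s hs
    exact hsys s (by linarith)

/-- The transcendence measure. -/
theorem measure_tau (z : ℍ) (h4 : E₄ z ≠ 0) (h6 : E₆ z ≠ 0) :
    ∃ Λ0 : ℕ, ∀ᶠ τ : ℍ in 𝓝 z, ∃ e : ℂ,
      4 * e ^ 3 - 2 * (27 / 2 * (E₄ τ ^ 3 / E₆ τ ^ 2)) * e -
        2 * (27 / 2 * (E₄ τ ^ 3 / E₆ τ ^ 2)) = 0 ∧
      ∀ (K : Type) [Field K] [NumberField K] (s : K →+* ℂ) (x0 x3 x4 : K) (Λ : ℕ), Λ0 ≤ Λ →
        totalWeight K ≤ Λ → mulHeight₁ x0 ≤ Real.exp Λ → mulHeight₁ x3 ≤ Real.exp Λ →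
        mulHeight₁ x4 ≤ Real.exp Λ → s x0 = e → s x3 = 27 / 2 * (E₄ τ ^ 3 / E₆ τ ^ 2) →
        Real.exp (-(Λ : ℝ) ^ 22) ≤ ‖3 / 2 * (E2 τ * E₄ τ / E₆ τ) - s x4‖ := by
  obtain ⟨r, C, σ, hr, hr0, hC, hσ, hev⟩ := exists_data z h4 h6
  obtain ⟨Λ0, hm⟩ := measure hr hr0 hC hσ
  refine ⟨Λ0, ?_⟩
  filter_upwards [hev] with τ hτ
  obtain ⟨lam, e, hD, he⟩ := hτ
  refine ⟨e, he, ?_⟩
  intro K _ _ s x0 x3 x4 Λ hΛ hw h0 h3 h4 hs0 hs3
  have := hm _ _ _ _ _ _ hD K s ![x0, 0, 0, x3, x4] Λ hΛ hw (fun i ↦ ?_) hs0 rfl rfl hs3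
  · exact this
  · have h1 : mulHeight₁ (0 : K) ≤ Real.exp Λ := by
      rw [mulHeight₁_zero]
      exact Real.one_le_exp (Nat.cast_nonneg _)
    fin_cases i
    · exact h0
    · exact h1
    · exact h1
    · exact h3
    · exact h4

end H32.T3

end S_H32_T3_Measure2
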