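import Mathlib
import Pool.Agent.H32.AKM.P01
import Pool.Agent.H32.AKM.P02
import Pool.Agent.H32.AKM.P05
import Pool.Agent.H32.AKM.P07
import Pool.Agent.H32.AKM.P08
import Pool.Agent.H32.AKM.P11

/-! Modular Schanuel with derivatives for points algebraic over a field with good approximations, part 12: this file joins several modules to save build time. -/

section S_H32_AZ_A0

set_option autoImplicit false

namespace AZ

open MvPolynomial CZ

/-- The derivation. -/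
noncomputable def tdv : Fin 5 → MvPolynomial (Fin 5) ℤ :=
  ![X 1, C 6 * X 0 ^ 2 - X 3, -X 0 - X 4, 0, 0]

/-- The Taylor coefficients of the theta function. -/
noncomputable def at5 (r : ℕ) : MvPolynomial (Fin 5) ℤ := (TD tdv (X 2))^[r] 1

/-- The variables. -/
abbrev Vs (S ι : Type) : Type := Fin 6 ⊕ ((ι × S) ⊕ (ι × S))

section

variable {S ι : Type} [Fintype S] [DecidableEq S] [Fintype ι] [DecidableEq ι]

/-- `at5` in the variables `Vs`. -/
noncomputable def atV (S ι : Type) (r : ℕ) : MvPolynomial (Vs S ι) ℤ :=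
  rename (fun i : Fin 5 ↦ Sum.inl i.castSucc) (at5 r)

/-- Replace `∏_j m_j^(r_j)` by `∏_j at (r_j)`. -/
noncomputable def MM (F : MvPolynomial (ι ⊕ Vs S ι) ℤ) : MvPolynomial (Vs S ι) ℤ :=
  ∑ u ∈ F.support, C (coeff u F) *
    ((∏ j, atV S ι (u (Sum.inl j))) * ∏ v, X v ^ u (Sum.inr v))

/-- `m*_s`. -/
noncomputable def nusP (s : S) : MvPolynomial (ι ⊕ Vs S ι) ℤ :=
  ∑ j, X (Sum.inl j) * X (Sum.inr (Sum.inr (Sum.inl (j, s))))

/-- `b_s(m)`. -/
noncomputable def bsP (s : S) : MvPolynomial (ι ⊕ Vs S ι) ℤ :=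
  ∑ j, X (Sum.inl j) * X (Sum.inr (Sum.inr (Sum.inr (j, s))))

/-- One factor. -/
noncomputable def cfP (κ n : ℕ) (s : S) : MvPolynomial (ι ⊕ Vs S ι) ℤ :=
  ∑ i ∈ Finset.range (n + 1), C ((κ.choose i * n.descFactorial i : ℕ) : ℤ) *
    (nusP s ^ (κ - i) * X (Sum.inr (Sum.inl 5)) ^ i * bsP s ^ (n - i))

/-- The polynomial of the Taylor coefficient. -/
noncomputable def FP (κ n : S → ℕ) : MvPolynomial (ι ⊕ Vs S ι) ℤ := ∏ s, cfP (κ s) (n s) s

end

/-- The values of the variables. -/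
noncomputable def cstV {S ι : Type} [Fintype S] [DecidableEq S] [Fintype ι] [DecidableEq ι]
    (K : KD S ι) (lam h kap ep : ℂ) : Vs S ι → ℂ
  | Sum.inl i => (![ep, 0, 0, h, kap, 2 * Real.pi * Complex.I / lam ^ 2] : Fin 6 → ℂ) i
  | Sum.inr (Sum.inl p) => K.nus p.1 p.2
  | Sum.inr (Sum.inr p) => (K.z - K.ze p.2) * K.nu p.1 p.2

end AZ

end S_H32_AZ_A0

section S_H22_U2_DefA

set_option autoImplicit false

namespace U2

open MvPolynomial CZ
open H32.T3 (nrm)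

/-- The polynomial of the `p`-th derivative of `HH b D i` at the origin. -/
noncomputable def hp (D i p : ℕ) : MvPolynomial (Fin 5) ℤ :=
  (TD AZ.tdv (C ((2 * D : ℕ) : ℤ) * X 2))^[p] (X 0 ^ i)

/-- `hp` in seven variables. -/
noncomputable def hp7 (D i p : ℕ) : MvPolynomial (Fin 7) ℤ :=
  rename (Fin.castLE (by decide : 5 ≤ 7)) (hp D i p)

/-- The polynomial of the Taylor coefficient `jc D i1 i2 k a e`. -/
noncomputable def WP (D i1 i2 k a e : ℕ) : MvPolynomial (Fin 7) ℤ :=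
  ∑ p ∈ Finset.HasAntidiagonal.antidiagonal k, ∑ q ∈ Finset.HasAntidiagonal.antidiagonal p.2,
    if q.1 ≤ e then
      C ((k.choose p.1 * p.2.choose q.1 * e.descFactorial q.1 * (2 * D) ^ q.1 : ℕ) : ℤ) *
        (hp7 D i1 (a + p.1) * hp7 D i2 (e - q.1 + q.2) * (X 5 ^ q.1 * X 6 ^ q.2))
    else 0

/-- The values of the variables. -/
noncomputable def cs7 (z lam h kap ep : ℂ) : Fin 7 → ℂ :=
  ![ep, 0, 0, h, kap, 2 * Real.pi * Complex.I / lam ^ 2, z]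

/-- Data for the criterion: sizes `C Q log (Q + 2)`, lower bound `exp (-C N Q^2)`, upper bound
`exp (-N Q^2 / C)` on a subspace of at least half the dimension. -/
def Dat {m : ℕ} (P : Fin m → ℂ) (C N Q : ℕ) : Prop :=
  ∃ (Λ : Type) (_ : Fintype Λ) (R : Type) (W : R → Λ → MvPolynomial (Fin m) ℤ),
    0 < Fintype.card Λ ∧ Real.log (Fintype.card Λ) ≤ C * Q * Real.log (Q + 2) ∧
    (∀ s l, ((W s l).totalDegree : ℝ) ≤ C * Q * Real.log (Q + 2) ∧
      nrm (W s l) ≤ Real.exp (C * Q * Real.log (Q + 2))) ∧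
    (∀ c : Λ → ℂ, (∀ l, ‖c l‖ ≤ 1) → (∃ l, ‖c l‖ = 1) →
      ∃ s, Real.exp (-(C * N * (Q : ℝ) ^ 2)) ≤ ‖∑ l, c l * aeval P (W s l)‖) ∧
    ∃ V : Submodule ℂ (Λ → ℂ), Fintype.card Λ ≤ 2 * Module.finrank ℂ V ∧
      ∀ c ∈ V, (∀ l, ‖c l‖ ≤ 1) → ∀ s,
        ‖∑ l, c l * aeval P (W s l)‖ ≤ Real.exp (-(N * (Q : ℝ) ^ 2 / C))

/-- Lower bound for the values of integer polynomials of degree at most two at `z`. -/
def Low (z : ℂ) : Prop :=
  ∃ C : ℕ, ∀ (H : ℕ) (p0 p1 p2 : ℤ), 1 ≤ H → |p0| ≤ (H : ℤ) → |p1| ≤ (H : ℤ) → |p2| ≤ (H : ℤ) →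
    (p0 ≠ 0 ∨ p1 ≠ 0 ∨ p2 ≠ 0) →
    Real.exp (-(C * Real.log (H + 2) ^ 5)) ≤ ‖(p0 : ℂ) * z ^ 2 - p1 * z + p2‖

end U2

end S_H22_U2_DefA

section S_H22_U2_Dt1

set_option autoImplicit false

namespace U2

open Complex

theorem dat_low (lam : ℂ) (hlam : lam ≠ 0) (Ch : ℕ) : ∃ C' : ℕ, Ch ≤ C' ∧
    ∀ D N Q : ℕ, 1 ≤ D → D ≤ Q → 1 ≤ N → ∀ J Wv : Ix D Q → ℕ → ℕ → ℂ,
    (∀ l a e, (a.factorial : ℂ) * e.factorial *
      (2 * Real.pi * Complex.I * (2 * D) / lam) ^ (l.2.2 : ℕ) * J l a e =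
        lam ^ (a + e) * Wv l a e) →
    (∀ c : Ix D Q → ℂ, (∀ l, ‖c l‖ ≤ 1) → (∃ l, ‖c l‖ = 1) → ∃ a e : ℕ, a + e ≤ Ch * Q ∧
      Real.exp (-(Ch * N * (Q : ℝ) ^ 2)) ≤ ‖∑ l, c l * J l a e‖) →
    ∀ c : Ix D Q → ℂ, (∀ l, ‖c l‖ ≤ 1) → (∃ l, ‖c l‖ = 1) → ∃ a e : ℕ, a + e ≤ Ch * Q ∧
      Real.exp (-(C' * N * (Q : ℝ) ^ 2)) ≤ ‖∑ l, c l * Wv l a e‖ := by
  obtain ⟨r0, hr0⟩ : ∃ r0 : ℝ, r0 = min 1 (4 * Real.pi / ‖lam‖) := ⟨_, rfl⟩
  have hl : 0 < ‖lam‖ := norm_pos_iff.2 hlam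
  have hr0p : 0 < r0 := by
    rw [hr0]
    exact lt_min one_pos (div_pos (by positivity) hl)
  have hr01 : r0 ≤ 1 := by rw [hr0]; exact min_le_left _ _
  obtain ⟨B, hB⟩ : ∃ B : ℝ, B = max 1 ‖lam‖ := ⟨_, rfl⟩
  have hB1 : 1 ≤ B := by rw [hB]; exact le_max_left _ _
  have hBp : 0 < B := by linarith
  have hBl : ‖lam‖ ≤ B := by rw [hB]; exact le_max_right _ _
  obtain ⟨C1, hC1⟩ := exists_nat_ge (-Real.log r0 + Ch * Real.log B)
  refine ⟨Ch + C1, Nat.le_add_right _ _, ?_⟩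
  intro D N Q hD hDQ hN J Wv hrel hlow c hc hc1
  obtain ⟨l0, hl0⟩ := hc1
  obtain ⟨ρ, hρ⟩ : ∃ ρ : ℂ, ρ = 2 * Real.pi * Complex.I * (2 * D) / lam := ⟨_, rfl⟩
  rw [← hρ] at hrel
  have hD1 : (1 : ℝ) ≤ D := by exact_mod_cast hD
  have hρn : ‖ρ‖ = 4 * Real.pi * D / ‖lam‖ := by
    rw [hρ, norm_div, norm_mul, norm_mul, norm_mul, norm_mul, Complex.norm_I, Complex.norm_natCast,
      Complex.norm_ofNat, Complex.norm_real, Real.norm_eq_abs, abs_of_pos Real.pi_pos]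
    ring
  have hρr : r0 ≤ ‖ρ‖ := by
    rw [hρn, hr0]
    refine (min_le_right _ _).trans ?_
    rw [div_le_div_iff_of_pos_right hl]
    have := Real.pi_pos
    nlinarith
  obtain ⟨c', hc'⟩ : ∃ c' : Ix D Q → ℂ, ∀ l, c' l = c l * ρ ^ (l.2.2 : ℕ) := ⟨_, fun _ => rfl⟩
  have hsum : ∀ a e : ℕ, lam ^ (a + e) * ∑ l, c l * Wv l a e =
      (a.factorial : ℂ) * e.factorial * ∑ l, c' l * J l a e := by
    intro a e
    rw [Finset.mul_sum, Finset.mul_sum]
    refine Finset.sum_congr rfl fun l _ => ?_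
    rw [hc']
    linear_combination (-(c l)) * hrel l a e
  have : Nonempty (Ix D Q) := ⟨l0⟩
  obtain ⟨l1, hl1⟩ := Finite.exists_max (fun l => ‖c' l‖)
  obtain ⟨m, hm⟩ : ∃ m : ℝ, m = ‖c' l1‖ := ⟨_, rfl⟩
  have hm1 : r0 ^ Q ≤ m := by
    have h1 : ‖c' l0‖ = ‖ρ‖ ^ (l0.2.2 : ℕ) := by
      rw [hc', norm_mul, hl0, one_mul, norm_pow]
    rw [hm]
    refine le_trans ?_ (hl1 l0)
    rw [h1]
    refine le_trans ?_ (pow_le_pow_left₀ hr0p.le hρr _)
    exact pow_le_pow_of_le_one hr0p.le hr01 l0.2.2.2.le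
  have hmp : 0 < m := lt_of_lt_of_le (pow_pos hr0p Q) hm1
  obtain ⟨a, e, hae, h2⟩ := hlow (fun l => c' l / (m : ℂ)) (by
    intro l
    rw [norm_div, Complex.norm_real, Real.norm_eq_abs, abs_of_pos hmp, div_le_one hmp, hm]
    exact hl1 l) ⟨l1, by
      rw [norm_div, Complex.norm_real, Real.norm_eq_abs, abs_of_pos hmp, ← hm, div_self hmp.ne']⟩
  refine ⟨a, e, hae, ?_⟩
  have h3 : ∑ l, c' l / (m : ℂ) * J l a e = (∑ l, c' l * J l a e) / (m : ℂ) := by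
    rw [Finset.sum_div]
    exact Finset.sum_congr rfl fun l _ => by ring
  rw [h3, norm_div, Complex.norm_real, Real.norm_eq_abs, abs_of_pos hmp, le_div_iff₀ hmp] at h2
  have h4 : ‖lam‖ ^ (a + e) * ‖∑ l, c l * Wv l a e‖ =
      (a.factorial : ℝ) * e.factorial * ‖∑ l, c' l * J l a e‖ := by
    rw [← norm_pow, ← norm_mul, hsum, norm_mul, norm_mul, Complex.norm_natCast,
      Complex.norm_natCast]
  have hfa : (1 : ℝ) ≤ a.factorial := by exact_mod_cast Nat.one_le_iff_ne_zero.2 (Nat.factorial_ne_zero a)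
  have hfe : (1 : ℝ) ≤ e.factorial := by exact_mod_cast Nat.one_le_iff_ne_zero.2 (Nat.factorial_ne_zero e)
  have hfae : (1 : ℝ) ≤ (a.factorial : ℝ) * e.factorial := by nlinarith
  have h5 : ‖∑ l, c' l * J l a e‖ ≤ ‖lam‖ ^ (a + e) * ‖∑ l, c l * Wv l a e‖ := by
    rw [h4]
    exact le_mul_of_one_le_left (norm_nonneg _) hfae
  have h6 : ‖lam‖ ^ (a + e) ≤ B ^ (Ch * Q) :=
    (pow_le_pow_left₀ (norm_nonneg _) hBl _).trans (pow_le_pow_right₀ hB1 hae)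
  have h7 : Real.exp (-(Ch * N * (Q : ℝ) ^ 2)) * r0 ^ Q ≤
      B ^ (Ch * Q) * ‖∑ l, c l * Wv l a e‖ := by
    calc Real.exp (-(Ch * N * (Q : ℝ) ^ 2)) * r0 ^ Q
        ≤ Real.exp (-(Ch * N * (Q : ℝ) ^ 2)) * m :=
          mul_le_mul_of_nonneg_left hm1 (Real.exp_pos _).le
      _ ≤ ‖∑ l, c' l * J l a e‖ := h2
      _ ≤ ‖lam‖ ^ (a + e) * ‖∑ l, c l * Wv l a e‖ := h5
      _ ≤ _ := mul_le_mul_of_nonneg_right h6 (norm_nonneg _)
  have hQ1 : (1 : ℝ) ≤ Q := by exact_mod_cast hD.trans hDQ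
  have hN1 : (1 : ℝ) ≤ N := by exact_mod_cast hN
  have hNQ : (Q : ℝ) ≤ N * (Q : ℝ) ^ 2 := by
    have e1 : (1 : ℝ) ≤ N * Q := by nlinarith
    nlinarith
  have h8 : Real.exp (-(((Ch + C1 : ℕ) : ℝ) * N * (Q : ℝ) ^ 2)) * B ^ (Ch * Q) ≤
      Real.exp (-(Ch * N * (Q : ℝ) ^ 2)) * r0 ^ Q := by
    have e1 : B ^ (Ch * Q) = Real.exp ((Ch * Q : ℕ) * Real.log B) := by
      rw [Real.exp_nat_mul, Real.exp_log hBp]
    have e2 : r0 ^ Q = Real.exp ((Q : ℕ) * Real.log r0) := by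
      rw [Real.exp_nat_mul, Real.exp_log hr0p]
    rw [e1, e2, ← Real.exp_add, ← Real.exp_add, Real.exp_le_exp]
    push_cast
    have e3 : (0 : ℝ) ≤ C1 := Nat.cast_nonneg _
    have e4 : (C1 : ℝ) * Q ≤ C1 * (N * (Q : ℝ) ^ 2) := mul_le_mul_of_nonneg_left hNQ e3
    have e5 : (-Real.log r0 + Ch * Real.log B) * Q ≤ C1 * Q :=
      mul_le_mul_of_nonneg_right hC1 (by linarith)
    nlinarith
  have hBQ : 0 < B ^ (Ch * Q) := pow_pos hBp _
  have h9 : Real.exp (-(((Ch + C1 : ℕ) : ℝ) * N * (Q : ℝ) ^ 2)) * B ^ (Ch * Q) ≤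
      ‖∑ l, c l * Wv l a e‖ * B ^ (Ch * Q) := by
    refine (h8.trans h7).trans (le_of_eq ?_)
    ring
  exact le_of_mul_le_mul_right h9 hBQ

end U2

end S_H22_U2_Dt1

section S_H22_U2_Dt2

set_option autoImplicit false

namespace U2

open Complex

private theorem dt2_num (Ch M N Q : ℕ) (hCh : 1 ≤ Ch) (hM : 1 ≤ M) (hN : 1 ≤ N)
    (hQ : 64 * Ch ^ 4 * M ≤ Q) :
    ((M * Q : ℕ) : ℝ) ^ (2 * Ch * Q) * Real.exp (-(N * (Q : ℝ) ^ 2 / Ch)) ≤
      Real.exp (-(N * (Q : ℝ) ^ 2 / (64 * Ch ^ 4 * M : ℕ))) := by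
  have hCh' : (1 : ℝ) ≤ Ch := by exact_mod_cast hCh
  have hM' : (1 : ℝ) ≤ M := by exact_mod_cast hM
  have hN' : (1 : ℝ) ≤ N := by exact_mod_cast hN
  have hQ' : 64 * (Ch : ℝ) ^ 4 * M ≤ Q := by exact_mod_cast hQ
  have hCh4 : (1 : ℝ) ≤ (Ch : ℝ) ^ 4 := one_le_pow₀ hCh'
  have hQ1 : (1 : ℝ) ≤ Q := by nlinarith
  have hMQ : (0 : ℝ) < (M : ℝ) * Q := by positivity
  have hlog : Real.log ((M : ℝ) * Q) ≤ 2 * Real.sqrt ((M : ℝ) * Q) := by
    have h1 : Real.log (Real.sqrt ((M : ℝ) * Q)) ≤ Real.sqrt ((M : ℝ) * Q) - 1 :=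
      Real.log_le_sub_one_of_pos (Real.sqrt_pos.2 hMQ)
    rw [Real.log_sqrt hMQ.le] at h1
    linarith
  have hs : 8 * (Ch : ℝ) ^ 2 * Real.sqrt ((M : ℝ) * Q) ≤ Q := by
    have h1 : Real.sqrt ((M : ℝ) * Q) ≤ Q / (8 * (Ch : ℝ) ^ 2) := by
      rw [Real.sqrt_le_left (by positivity), div_pow, le_div_iff₀ (by positivity)]
      calc (M : ℝ) * Q * (8 * (Ch : ℝ) ^ 2) ^ 2 = (64 * (Ch : ℝ) ^ 4 * M) * Q := by ring
        _ ≤ (Q : ℝ) * Q := mul_le_mul_of_nonneg_right hQ' (by positivity)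
        _ = (Q : ℝ) ^ 2 := by ring
    rw [le_div_iff₀ (by positivity)] at h1
    linarith
  have hkey : 4 * (Ch : ℝ) ^ 2 * Real.log ((M : ℝ) * Q) ≤ Q := by
    have : 4 * (Ch : ℝ) ^ 2 * Real.log ((M : ℝ) * Q) ≤
        4 * (Ch : ℝ) ^ 2 * (2 * Real.sqrt ((M : ℝ) * Q)) :=
      mul_le_mul_of_nonneg_left hlog (by positivity)
    linarith
  have e1 : ((M * Q : ℕ) : ℝ) ^ (2 * Ch * Q) =
      Real.exp ((2 * Ch * Q : ℝ) * Real.log ((M : ℝ) * Q)) := by
    rw [mul_comm ((2 * Ch * Q : ℝ)) _, Real.exp_mul, Real.exp_log hMQ]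
    have : (2 * Ch * Q : ℝ) = ((2 * Ch * Q : ℕ) : ℝ) := by push_cast; ring
    rw [this, Real.rpow_natCast]
    push_cast
    ring
  rw [e1, ← Real.exp_add]
  apply Real.exp_le_exp.2
  have h2 : (N : ℝ) * (Q : ℝ) ^ 2 / (64 * Ch ^ 4 * M : ℕ) ≤ N * (Q : ℝ) ^ 2 / (2 * Ch) := by
    apply div_le_div_of_nonneg_left (by positivity) (by positivity)
    push_cast
    have h3 : (Ch : ℝ) ≤ (Ch : ℝ) ^ 4 := le_self_pow₀ hCh' (by norm_num)
    nlinarith
  have h4 : (2 * Ch * Q : ℝ) * Real.log ((M : ℝ) * Q) ≤ N * (Q : ℝ) ^ 2 / (2 * Ch) := by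
    rw [le_div_iff₀ (by positivity)]
    calc (2 * Ch * Q : ℝ) * Real.log ((M : ℝ) * Q) * (2 * Ch) =
        Q * (4 * (Ch : ℝ) ^ 2 * Real.log ((M : ℝ) * Q)) := by ring
      _ ≤ Q * Q := mul_le_mul_of_nonneg_left hkey (by positivity)
      _ = 1 * (Q : ℝ) ^ 2 := by ring
      _ ≤ N * (Q : ℝ) ^ 2 := mul_le_mul_of_nonneg_right hN' (by positivity)
  have h5 : (N : ℝ) * (Q : ℝ) ^ 2 / Ch = N * (Q : ℝ) ^ 2 / (2 * Ch) + N * (Q : ℝ) ^ 2 / (2 * Ch) := by
    field_simp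
    ring
  rw [h5]
  linarith

theorem dat_up (lam : ℂ) (hlam : lam ≠ 0) (Ch : ℕ) (hCh : 1 ≤ Ch) : ∃ C' : ℕ, 1 ≤ C' ∧
    ∀ D N Q : ℕ, 1 ≤ D → D ≤ Q → 1 ≤ N → C' ≤ Q → ∀ J Wv : Ix D Q → ℕ → ℕ → ℂ,
    (∀ l a e, (a.factorial : ℂ) * e.factorial *
      (2 * Real.pi * Complex.I * (2 * D) / lam) ^ (l.2.2 : ℕ) * J l a e =
        lam ^ (a + e) * Wv l a e) →
    ∀ V : Submodule ℂ (Ix D Q → ℂ), (∀ c ∈ V, (∀ l, ‖c l‖ ≤ 1) → ∀ a e : ℕ,
      ‖∑ l, c l * J l a e‖ ≤ Real.exp (-(N * (Q : ℝ) ^ 2 / Ch))) →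
    ∃ V' : Submodule ℂ (Ix D Q → ℂ), Module.finrank ℂ V' = Module.finrank ℂ V ∧
      ∀ c ∈ V', (∀ l, ‖c l‖ ≤ 1) → ∀ a e : ℕ, a + e ≤ Ch * Q →
        ‖∑ l, c l * Wv l a e‖ ≤ Real.exp (-(N * (Q : ℝ) ^ 2 / C')) := by
  have hl : 0 < ‖lam‖ := norm_pos_iff.2 hlam
  obtain ⟨C0, hC0⟩ := exists_nat_ge (4 * Real.pi / ‖lam‖)
  obtain ⟨L0, hL0⟩ := exists_nat_ge (1 / ‖lam‖)
  set C1 := C0 + 1 with hC1
  set L := L0 + 1 with hL
  have hC1r : 4 * Real.pi / ‖lam‖ ≤ (C1 : ℝ) := by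
    rw [hC1]; push_cast; linarith
  have hLr : 1 / ‖lam‖ ≤ (L : ℝ) := by
    rw [hL]; push_cast; linarith
  set M := L * Ch * C1 with hM
  have hL1 : 1 ≤ L := by omega
  have hC11 : 1 ≤ C1 := by omega
  have hM1 : 1 ≤ M := Nat.one_le_iff_ne_zero.2 (by positivity)
  refine ⟨64 * Ch ^ 4 * M, Nat.one_le_iff_ne_zero.2 (by positivity), ?_⟩
  intro D N Q hD hDQ hN hQ J Wv hJ V hV
  set ρ : ℂ := 2 * Real.pi * Complex.I * (2 * D) / lam with hρdef
  have hDC : (D : ℂ) ≠ 0 := by exact_mod_cast (by omega : D ≠ 0)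
  have hρ : ρ ≠ 0 := by
    rw [hρdef]
    refine div_ne_zero (mul_ne_zero (mul_ne_zero (mul_ne_zero two_ne_zero ?_) I_ne_zero)
      (mul_ne_zero two_ne_zero hDC)) hlam
    exact_mod_cast Real.pi_ne_zero
  have hρn : ‖ρ‖ ≤ ((C1 * Q : ℕ) : ℝ) := by
    have e1 : ‖ρ‖ = 4 * Real.pi / ‖lam‖ * D := by
      rw [hρdef, norm_div, norm_mul, norm_mul, norm_mul, norm_mul, norm_I, Complex.norm_real,
        Complex.norm_natCast, Real.norm_of_nonneg Real.pi_pos.le]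
      simp only [Complex.norm_ofNat]
      ring
    rw [e1]
    push_cast
    exact mul_le_mul hC1r (by exact_mod_cast hDQ) (by positivity) (by positivity)
  have hQ1 : 1 ≤ Q := by omega
  have hCQ1 : (1 : ℝ) ≤ ((C1 * Q : ℕ) : ℝ) := by
    exact_mod_cast Nat.one_le_iff_ne_zero.2 (by positivity)
  let φ : (Ix D Q → ℂ) ≃ₗ[ℂ] (Ix D Q → ℂ) :=
    LinearEquiv.piCongrRight fun l =>
      LinearEquiv.smulOfNeZero ℂ ℂ (ρ ^ (l.2.2 : ℕ)) (pow_ne_zero _ hρ)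
  have hφ : ∀ c l, φ c l = ρ ^ (l.2.2 : ℕ) * c l := fun c l => rfl
  refine ⟨V.map (φ.symm : (Ix D Q → ℂ) →ₗ[ℂ] (Ix D Q → ℂ)),
    LinearEquiv.finrank_map_eq φ.symm V, ?_⟩
  intro c hc hc1 a e hae
  have hcV : φ c ∈ V := by
    have := (Submodule.mem_map_equiv (e := φ.symm) V).1 hc
    simpa using this
  set B : ℝ := ((C1 * Q : ℕ) : ℝ) ^ Q with hB
  have hB1 : 1 ≤ B := one_le_pow₀ hCQ1
  have hB0 : 0 < B := by linarith
  have hBC : (B : ℂ) ≠ 0 := by exact_mod_cast hB0.ne'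
  have hc2 := hV ((1 / (B : ℂ)) • φ c) (V.smul_mem _ hcV) (by
    intro l
    rw [Pi.smul_apply, hφ, smul_eq_mul, norm_mul, norm_mul, norm_div, norm_one, norm_pow,
      Complex.norm_real, Real.norm_of_nonneg hB0.le]
    have h1 : ‖ρ‖ ^ (l.2.2 : ℕ) ≤ B := by
      calc ‖ρ‖ ^ (l.2.2 : ℕ) ≤ ((C1 * Q : ℕ) : ℝ) ^ (l.2.2 : ℕ) :=
            pow_le_pow_left₀ (norm_nonneg _) hρn _
        _ ≤ B := pow_le_pow_right₀ hCQ1 l.2.2.isLt.le
    have h2 : ‖ρ‖ ^ (l.2.2 : ℕ) * ‖c l‖ ≤ B * 1 :=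
      mul_le_mul h1 (hc1 l) (norm_nonneg _) hB0.le
    calc 1 / B * (‖ρ‖ ^ (l.2.2 : ℕ) * ‖c l‖) ≤ 1 / B * (B * 1) :=
          mul_le_mul_of_nonneg_left h2 (by positivity)
      _ = 1 := by field_simp) a e
  set Y : ℂ := ∑ l, ((1 / (B : ℂ)) • φ c) l * J l a e with hY
  have hsum : lam ^ (a + e) * ∑ l, c l * Wv l a e =
      (a.factorial : ℂ) * e.factorial * B * Y := by
    rw [hY, Finset.mul_sum, Finset.mul_sum]
    refine Finset.sum_congr rfl fun l _ => ?_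
    rw [Pi.smul_apply, hφ, smul_eq_mul]
    have h1 := hJ l a e
    have h2 : lam ^ (a + e) * (c l * Wv l a e) = c l * (lam ^ (a + e) * Wv l a e) := by ring
    rw [h2, ← h1]
    field_simp
  have hn := congrArg norm hsum
  rw [norm_mul, norm_mul, norm_mul, norm_mul, norm_pow, Complex.norm_natCast,
    Complex.norm_natCast, Complex.norm_real, Real.norm_of_nonneg hB0.le] at hn
  set Z := ‖∑ l, c l * Wv l a e‖ with hZ
  have hZ0 : 0 ≤ Z := norm_nonneg _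
  have hLl : 1 ≤ (L : ℝ) * ‖lam‖ := by
    rw [div_le_iff₀ hl] at hLr
    exact hLr
  have hL1r : (1 : ℝ) ≤ L := by exact_mod_cast hL1
  have hfac : ((a.factorial : ℝ) * e.factorial) ≤ ((Ch * Q : ℕ) : ℝ) ^ (Ch * Q) := by
    have h1 : a.factorial * e.factorial ≤ (a + e).factorial :=
      Nat.le_of_dvd (Nat.factorial_pos _) (Nat.factorial_mul_factorial_dvd_factorial_add a e)
    have h2 : (a + e).factorial ≤ (Ch * Q).factorial := Nat.factorial_le hae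
    have h3 : (Ch * Q).factorial ≤ (Ch * Q) ^ (Ch * Q) := Nat.factorial_le_pow _
    exact_mod_cast h1.trans (h2.trans h3)
  have hE0 : 0 < Real.exp (-(N * (Q : ℝ) ^ 2 / Ch)) := Real.exp_pos _
  have step1 : Z ≤ (L : ℝ) ^ (Ch * Q) * (((Ch * Q : ℕ) : ℝ) ^ (Ch * Q) * B *
      Real.exp (-(N * (Q : ℝ) ^ 2 / Ch))) := by
    calc Z ≤ ((L : ℝ) * ‖lam‖) ^ (a + e) * Z := le_mul_of_one_le_left hZ0 (one_le_pow₀ hLl)
      _ = (L : ℝ) ^ (a + e) * (‖lam‖ ^ (a + e) * Z) := by ring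
      _ = (L : ℝ) ^ (a + e) * ((a.factorial : ℝ) * e.factorial * B * ‖Y‖) := by rw [hn]
      _ ≤ (L : ℝ) ^ (Ch * Q) * (((Ch * Q : ℕ) : ℝ) ^ (Ch * Q) * B *
            Real.exp (-(N * (Q : ℝ) ^ 2 / Ch))) := by
        apply mul_le_mul (pow_le_pow_right₀ hL1r hae) _ (by positivity) (by positivity)
        apply mul_le_mul (mul_le_mul_of_nonneg_right hfac hB0.le) hc2 (norm_nonneg _)
          (by positivity)
  have hMQr : (1 : ℝ) ≤ ((M * Q : ℕ) : ℝ) := by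
    exact_mod_cast Nat.one_le_iff_ne_zero.2 (by positivity)
  have step2 : (L : ℝ) ^ (Ch * Q) * (((Ch * Q : ℕ) : ℝ) ^ (Ch * Q)) * B ≤
      ((M * Q : ℕ) : ℝ) ^ (2 * Ch * Q) := by
    have h1 : (L : ℝ) ^ (Ch * Q) * (((Ch * Q : ℕ) : ℝ) ^ (Ch * Q)) ≤
        ((M * Q : ℕ) : ℝ) ^ (Ch * Q) := by
      rw [← mul_pow]
      apply pow_le_pow_left₀ (by positivity)
      have : L * (Ch * Q) ≤ M * Q := by
        rw [hM]
        calc L * (Ch * Q) = L * Ch * 1 * Q := by ring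
          _ ≤ L * Ch * C1 * Q := Nat.mul_le_mul_right _ (Nat.mul_le_mul_left _ hC11)
      exact_mod_cast this
    have h2 : B ≤ ((M * Q : ℕ) : ℝ) ^ (Ch * Q) := by
      calc B ≤ ((M * Q : ℕ) : ℝ) ^ Q := by
            apply pow_le_pow_left₀ (by positivity)
            have : C1 * Q ≤ M * Q := by
              apply Nat.mul_le_mul_right
              rw [hM]
              calc C1 = 1 * C1 := (one_mul _).symm
                _ ≤ L * Ch * C1 := Nat.mul_le_mul_right _ (Nat.one_le_iff_ne_zero.2 (by positivity))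
            exact_mod_cast this
        _ ≤ ((M * Q : ℕ) : ℝ) ^ (Ch * Q) :=
            pow_le_pow_right₀ hMQr (Nat.le_mul_of_pos_left _ (by omega))
    calc (L : ℝ) ^ (Ch * Q) * (((Ch * Q : ℕ) : ℝ) ^ (Ch * Q)) * B ≤
        ((M * Q : ℕ) : ℝ) ^ (Ch * Q) * ((M * Q : ℕ) : ℝ) ^ (Ch * Q) :=
          mul_le_mul h1 h2 hB0.le (by positivity)
      _ = ((M * Q : ℕ) : ℝ) ^ (2 * Ch * Q) := by
          rw [← pow_add]; congr 1; ring
  calc Z ≤ (L : ℝ) ^ (Ch * Q) * (((Ch * Q : ℕ) : ℝ) ^ (Ch * Q) * B *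
        Real.exp (-(N * (Q : ℝ) ^ 2 / Ch))) := step1
    _ = ((L : ℝ) ^ (Ch * Q) * (((Ch * Q : ℕ) : ℝ) ^ (Ch * Q)) * B) *
        Real.exp (-(N * (Q : ℝ) ^ 2 / Ch)) := by ring
    _ ≤ ((M * Q : ℕ) : ℝ) ^ (2 * Ch * Q) * Real.exp (-(N * (Q : ℝ) ^ 2 / Ch)) :=
        mul_le_mul_of_nonneg_right step2 hE0.le
    _ ≤ _ := dt2_num Ch M N Q hCh hM1 hN hQ

end U2

end S_H22_U2_Dt2

section S_H32_AZ_At

set_option autoImplicit false

namespace AZ

open MvPolynomial CZ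
open H32.T3 (nrm)

private theorem At_nrm (i : Fin 5) : nrm (tdv i) ≤ 7 := by
  fin_cases i
  · change nrm (X 1) ≤ 7
    rw [H32.T3.nrm_X]; norm_num
  · change nrm (C 6 * X 0 ^ 2 - X 3) ≤ 7
    rw [sub_eq_add_neg]
    refine (H32.T3.nrm_add_le _ _).trans ?_
    rw [H32.T3.nrm_neg, H32.T3.nrm_X]
    have h1 := H32.T3.nrm_mul_le (C 6 : MvPolynomial (Fin 5) ℤ) (X 0 ^ 2)
    have h2 := H32.T3.nrm_pow_le (X 0 : MvPolynomial (Fin 5) ℤ) 2
    rw [H32.T3.nrm_X, one_pow] at h2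
    rw [H32.T3.nrm_C] at h1
    have h3 := H32.T3.nrm_nonneg (X 0 ^ 2 : MvPolynomial (Fin 5) ℤ)
    have h4 : |((6 : ℤ) : ℝ)| = 6 := by norm_num
    rw [h4] at h1
    linarith
  · change nrm (-X 0 - X 4) ≤ 7
    rw [sub_eq_add_neg]
    refine (H32.T3.nrm_add_le _ _).trans ?_
    rw [H32.T3.nrm_neg, H32.T3.nrm_neg, H32.T3.nrm_X, H32.T3.nrm_X]; norm_num
  · change nrm 0 ≤ 7
    rw [H32.T3.nrm_zero]; norm_num
  · change nrm 0 ≤ 7
    rw [H32.T3.nrm_zero]; norm_num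

private theorem At_deg (i : Fin 5) : (tdv i).totalDegree ≤ 1 + 1 := by
  fin_cases i
  · change (X 1 : MvPolynomial (Fin 5) ℤ).totalDegree ≤ 2
    rw [totalDegree_X]; norm_num
  · change (C 6 * X 0 ^ 2 - X 3 : MvPolynomial (Fin 5) ℤ).totalDegree ≤ 2
    refine (totalDegree_sub _ _).trans (max_le ?_ ?_)
    · refine (totalDegree_mul _ _).trans ?_
      rw [totalDegree_C, zero_add]
      refine (totalDegree_pow _ _).trans ?_
      rw [totalDegree_X]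
    · rw [totalDegree_X]; norm_num
  · change (-X 0 - X 4 : MvPolynomial (Fin 5) ℤ).totalDegree ≤ 2
    refine (totalDegree_sub _ _).trans (max_le ?_ ?_)
    · rw [totalDegree_neg, totalDegree_X]; norm_num
    · rw [totalDegree_X]; norm_num
  · change (0 : MvPolynomial (Fin 5) ℤ).totalDegree ≤ 2
    simp
  · change (0 : MvPolynomial (Fin 5) ℤ).totalDegree ≤ 2
    simp

theorem at5_val {z : ℂ} (b : BaseFn z) (lam h kap ep : ℂ) (ε : ℝ) (Xf X1f Yf : ℂ → ℂ)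
    (hb : BaseSys b lam h kap ep ε Xf X1f Yf) (r : ℕ) :
    iteratedDeriv r b.A 0 = lam ^ r * aeval (![ep, 0, 0, h, kap] : Fin 5 → ℂ) (at5 r) := by
  obtain ⟨f, hf⟩ : ∃ f : Fin 5 → ℂ → ℂ, f = ![Xf, X1f, Yf, fun _ ↦ h, fun _ ↦ kap] := ⟨_, rfl⟩
  have h0 : ∀ u, f 0 u = Xf u := fun u ↦ by rw [hf]; rfl
  have h1 : ∀ u, f 1 u = X1f u := fun u ↦ by rw [hf]; rfl
  have h2 : ∀ u, f 2 u = Yf u := fun u ↦ by rw [hf]; rfl
  have h3 : ∀ u, f 3 u = h := fun u ↦ by rw [hf]; rfl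
  have h4 : ∀ u, f 4 u = kap := fun u ↦ by rw [hf]; rfl
  have hD : ∀ u ∈ Metric.ball (0 : ℂ) ε, ∀ i,
      HasDerivAt (f i) (lam * aeval (fun j ↦ f j u) (tdv i)) u := by
    intro u hu i
    have hu' : ‖u‖ < ε := by simpa using hu
    fin_cases i
    · have e : aeval (fun j ↦ f j u) (tdv 0) = X1f u := by
        change aeval (fun j ↦ f j u) (X 1) = X1f u
        rw [aeval_X, h1]
      have e2 : f 0 = Xf := funext h0
      change HasDerivAt (f 0) (lam * aeval (fun j ↦ f j u) (tdv 0)) u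
      rw [e, e2]
      exact hb.dX u hu'
    · have e : aeval (fun j ↦ f j u) (tdv 1) = 6 * Xf u ^ 2 - h := by
        change aeval (fun j ↦ f j u) (C 6 * X 0 ^ 2 - X 3) = _
        simp only [map_sub, map_mul, map_pow, aeval_X, h0, h3]
        simp
      have e2 : f 1 = X1f := funext h1
      change HasDerivAt (f 1) (lam * aeval (fun j ↦ f j u) (tdv 1)) u
      rw [e, e2]
      exact hb.dX1 u hu'
    · have e : aeval (fun j ↦ f j u) (tdv 2) = -Xf u - kap := by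
        change aeval (fun j ↦ f j u) (-X 0 - X 4) = _
        simp only [map_sub, map_neg, aeval_X, h0, h4]
      have e2 : f 2 = Yf := funext h2
      change HasDerivAt (f 2) (lam * aeval (fun j ↦ f j u) (tdv 2)) u
      rw [e, e2]
      exact hb.dY u hu'
    · have e : aeval (fun j ↦ f j u) (tdv 3) = 0 := by
        change aeval (fun j ↦ f j u) (0 : MvPolynomial (Fin 5) ℤ) = 0
        simp
      have e2 : f 3 = fun _ ↦ h := funext h3
      change HasDerivAt (f 3) (lam * aeval (fun j ↦ f j u) (tdv 3)) u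
      rw [e, e2, mul_zero]
      exact hasDerivAt_const _ _
    · have e : aeval (fun j ↦ f j u) (tdv 4) = 0 := by
        change aeval (fun j ↦ f j u) (0 : MvPolynomial (Fin 5) ℤ) = 0
        simp
      have e2 : f 4 = fun _ ↦ kap := funext h4
      change HasDerivAt (f 4) (lam * aeval (fun j ↦ f j u) (tdv 4)) u
      rw [e, e2, mul_zero]
      exact hasDerivAt_const _ _
  have hM : ∀ u ∈ Metric.ball (0 : ℂ) ε,
      HasDerivAt b.A (lam * (b.A u * aeval (fun j ↦ f j u) (X 2 : MvPolynomial (Fin 5) ℤ))) u := by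
    intro u hu
    have hu' : ‖u‖ < ε := by simpa using hu
    have h5 := hb.hA u hu'
    rw [hb.hmu] at h5
    have h6 : deriv b.A u = lam * (b.A u * Yf u) := by
      rw [← h5, ← mul_assoc, mul_inv_cancel₀ hb.hlam, one_mul]
    rw [aeval_X, h2, ← h6]
    exact (b.dA u).hasDerivAt
  have h7 := iteratedDeriv_TD (f := f) (m := b.A) (lam := lam) tdv (X 2) (Metric.ball 0 ε)
    Metric.isOpen_ball hD hM 1 r 0 (Metric.mem_ball_self hb.hε)
  have h8 : (fun v ↦ b.A v * aeval (fun j ↦ f j v) (1 : MvPolynomial (Fin 5) ℤ)) = b.A := by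
    funext v
    simp
  have h9 : (fun j ↦ f j 0) = (![ep, 0, 0, h, kap] : Fin 5 → ℂ) := by
    funext j
    fin_cases j
    · exact (h0 0).trans hb.X0
    · exact (h1 0).trans hb.X10
    · exact (h2 0).trans hb.Y0
    · exact h3 0
    · exact h4 0
  rw [h8, h9, b.A0, one_mul] at h7
  exact h7

theorem at5_bd (r : ℕ) : (at5 r).totalDegree ≤ r ∧ nrm (at5 r) ≤ (7 * r + 1 : ℝ) ^ r := by
  have hg : (X 2 : MvPolynomial (Fin 5) ℤ).totalDegree ≤ 1 := by rw [totalDegree_X]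
  constructor
  · have h := deg_TD_iter tdv (X 2) 1 At_deg hg 1 r
    rw [totalDegree_one] at h
    unfold at5
    omega
  · have h := nrm_TD_iter tdv (X 2) 1 At_deg hg 7 1 (by norm_num) At_nrm
      (by rw [H32.T3.nrm_X]) 1 r
    rw [totalDegree_one, H32.T3.nrm_one] at h
    unfold at5
    refine h.trans (le_of_eq ?_)
    push_cast
    ring

end AZ

end S_H32_AZ_At

section S_H22_U2_Hpp

set_option autoImplicit false

namespace U2

open MvPolynomial CZ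
open H32.T3 (nrm)

theorem Hpp_nrm (i : Fin 5) : nrm (AZ.tdv i) ≤ 7 := by
  fin_cases i
  · change nrm (X 1) ≤ 7
    rw [H32.T3.nrm_X]; norm_num
  · change nrm (C 6 * X 0 ^ 2 - X 3) ≤ 7
    rw [sub_eq_add_neg]
    refine (H32.T3.nrm_add_le _ _).trans ?_
    rw [H32.T3.nrm_neg, H32.T3.nrm_X]
    have h1 := H32.T3.nrm_mul_le (C 6 : MvPolynomial (Fin 5) ℤ) (X 0 ^ 2)
    have h2 := H32.T3.nrm_pow_le (X 0 : MvPolynomial (Fin 5) ℤ) 2
    rw [H32.T3.nrm_X, one_pow] at h2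
    rw [H32.T3.nrm_C] at h1
    have h3 := H32.T3.nrm_nonneg (X 0 ^ 2 : MvPolynomial (Fin 5) ℤ)
    have h4 : |((6 : ℤ) : ℝ)| = 6 := by norm_num
    rw [h4] at h1
    linarith
  · change nrm (-X 0 - X 4) ≤ 7
    rw [sub_eq_add_neg]
    refine (H32.T3.nrm_add_le _ _).trans ?_
    rw [H32.T3.nrm_neg, H32.T3.nrm_neg, H32.T3.nrm_X, H32.T3.nrm_X]; norm_num
  · change nrm 0 ≤ 7
    rw [H32.T3.nrm_zero]; norm_num
  · change nrm 0 ≤ 7
    rw [H32.T3.nrm_zero]; norm_num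

theorem Hpp_deg (i : Fin 5) : (AZ.tdv i).totalDegree ≤ 1 + 1 := by
  fin_cases i
  · change (X 1 : MvPolynomial (Fin 5) ℤ).totalDegree ≤ 2
    rw [totalDegree_X]; norm_num
  · change (C 6 * X 0 ^ 2 - X 3 : MvPolynomial (Fin 5) ℤ).totalDegree ≤ 2
    refine (totalDegree_sub _ _).trans (max_le ?_ ?_)
    · refine (totalDegree_mul _ _).trans ?_
      rw [totalDegree_C, zero_add]
      refine (totalDegree_pow _ _).trans ?_
      rw [totalDegree_X]
    · rw [totalDegree_X]; norm_num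
  · change (-X 0 - X 4 : MvPolynomial (Fin 5) ℤ).totalDegree ≤ 2
    refine (totalDegree_sub _ _).trans (max_le ?_ ?_)
    · rw [totalDegree_neg, totalDegree_X]; norm_num
    · rw [totalDegree_X]; norm_num
  · change (0 : MvPolynomial (Fin 5) ℤ).totalDegree ≤ 2
    simp
  · change (0 : MvPolynomial (Fin 5) ℤ).totalDegree ≤ 2
    simp

theorem hp_val {z : ℂ} (b : BaseFn z) (lam h kap ep : ℂ) (ε : ℝ) (Xf X1f Yf : ℂ → ℂ)
    (hb : BaseSys b lam h kap ep ε Xf X1f Yf) (D i p : ℕ) (hi : i ≤ D) :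
    iteratedDeriv p (HH b D i) 0 =
      lam ^ p * aeval (![ep, 0, 0, h, kap] : Fin 5 → ℂ) (hp D i p) := by
  obtain ⟨f, hf⟩ : ∃ f : Fin 5 → ℂ → ℂ, f = ![Xf, X1f, Yf, fun _ ↦ h, fun _ ↦ kap] := ⟨_, rfl⟩
  have h0 : ∀ u, f 0 u = Xf u := fun u ↦ by rw [hf]; rfl
  have h1 : ∀ u, f 1 u = X1f u := fun u ↦ by rw [hf]; rfl
  have h2 : ∀ u, f 2 u = Yf u := fun u ↦ by rw [hf]; rfl
  have h3 : ∀ u, f 3 u = h := fun u ↦ by rw [hf]; rfl
  have h4 : ∀ u, f 4 u = kap := fun u ↦ by rw [hf]; rfl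
  have hD : ∀ u ∈ Metric.ball (0 : ℂ) ε, ∀ i,
      HasDerivAt (f i) (lam * aeval (fun j ↦ f j u) (AZ.tdv i)) u := by
    intro u hu i
    have hu' : ‖u‖ < ε := by simpa using hu
    fin_cases i
    · have e : aeval (fun j ↦ f j u) (AZ.tdv 0) = X1f u := by
        change aeval (fun j ↦ f j u) (X 1) = X1f u
        rw [aeval_X, h1]
      have e2 : f 0 = Xf := funext h0
      change HasDerivAt (f 0) (lam * aeval (fun j ↦ f j u) (AZ.tdv 0)) u
      rw [e, e2]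
      exact hb.dX u hu'
    · have e : aeval (fun j ↦ f j u) (AZ.tdv 1) = 6 * Xf u ^ 2 - h := by
        change aeval (fun j ↦ f j u) (C 6 * X 0 ^ 2 - X 3) = _
        simp only [map_sub, map_mul, map_pow, aeval_X, h0, h3]
        simp
      have e2 : f 1 = X1f := funext h1
      change HasDerivAt (f 1) (lam * aeval (fun j ↦ f j u) (AZ.tdv 1)) u
      rw [e, e2]
      exact hb.dX1 u hu'
    · have e : aeval (fun j ↦ f j u) (AZ.tdv 2) = -Xf u - kap := by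
        change aeval (fun j ↦ f j u) (-X 0 - X 4) = _
        simp only [map_sub, map_neg, aeval_X, h0, h4]
      have e2 : f 2 = Yf := funext h2
      change HasDerivAt (f 2) (lam * aeval (fun j ↦ f j u) (AZ.tdv 2)) u
      rw [e, e2]
      exact hb.dY u hu'
    · have e : aeval (fun j ↦ f j u) (AZ.tdv 3) = 0 := by
        change aeval (fun j ↦ f j u) (0 : MvPolynomial (Fin 5) ℤ) = 0
        simp
      have e2 : f 3 = fun _ ↦ h := funext h3
      change HasDerivAt (f 3) (lam * aeval (fun j ↦ f j u) (AZ.tdv 3)) u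
      rw [e, e2, mul_zero]
      exact hasDerivAt_const _ _
    · have e : aeval (fun j ↦ f j u) (AZ.tdv 4) = 0 := by
        change aeval (fun j ↦ f j u) (0 : MvPolynomial (Fin 5) ℤ) = 0
        simp
      have e2 : f 4 = fun _ ↦ kap := funext h4
      change HasDerivAt (f 4) (lam * aeval (fun j ↦ f j u) (AZ.tdv 4)) u
      rw [e, e2, mul_zero]
      exact hasDerivAt_const _ _
  have hM : ∀ u ∈ Metric.ball (0 : ℂ) ε,
      HasDerivAt (fun v ↦ b.A v ^ (2 * D)) (lam * (b.A u ^ (2 * D) *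
        aeval (fun j ↦ f j u) (C ((2 * D : ℕ) : ℤ) * X 2 : MvPolynomial (Fin 5) ℤ))) u := by
    intro u hu
    have hu' : ‖u‖ < ε := by simpa using hu
    have h5 := hb.hA u hu'
    rw [hb.hmu] at h5
    have h6 : deriv b.A u = lam * (b.A u * Yf u) := by
      rw [← h5, ← mul_assoc, mul_inv_cancel₀ hb.hlam, one_mul]
    have h7 : HasDerivAt b.A (lam * (b.A u * Yf u)) u := by
      rw [← h6]
      exact (b.dA u).hasDerivAt
    have h8 := h7.pow (2 * D)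
    have h9 : lam * (b.A u ^ (2 * D) *
        aeval (fun j ↦ f j u) (C ((2 * D : ℕ) : ℤ) * X 2 : MvPolynomial (Fin 5) ℤ)) =
        ((2 * D : ℕ) : ℂ) * b.A u ^ (2 * D - 1) * (lam * (b.A u * Yf u)) := by
      rw [map_mul, aeval_X, h2]
      have h10 : aeval (fun j ↦ f j u) (C ((2 * D : ℕ) : ℤ) : MvPolynomial (Fin 5) ℤ) =
          ((2 * D : ℕ) : ℂ) := by
        rw [aeval_C]
        simp
      rw [h10]
      rcases Nat.eq_zero_or_pos D with hD0 | hD0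
      · subst hD0
        simp
      · have h11 : b.A u ^ (2 * D) = b.A u ^ (2 * D - 1) * b.A u := by
          rw [← pow_succ]
          congr 1
          omega
        rw [h11]
        ring
    rw [h9]
    exact h8
  have h7 := iteratedDeriv_TD (f := f) (m := fun v ↦ b.A v ^ (2 * D)) (lam := lam) AZ.tdv
    (C ((2 * D : ℕ) : ℤ) * X 2) (Metric.ball 0 ε)
    Metric.isOpen_ball hD hM (X 0 ^ i) p 0 (Metric.mem_ball_self hb.hε)
  have h8 : HH b D i =ᶠ[nhds 0] (fun v ↦ b.A v ^ (2 * D) *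
      aeval (fun j ↦ f j v) (X 0 ^ i : MvPolynomial (Fin 5) ℤ)) := by
    filter_upwards [Metric.ball_mem_nhds (0 : ℂ) hb.hε] with v hv
    have hv' : ‖v‖ < ε := by simpa using hv
    unfold HH
    rw [map_pow, aeval_X, h0, hb.hB v hv', mul_pow, ← pow_mul, ← mul_assoc, ← pow_add]
    congr 2
    omega
  have h9 : (fun j ↦ f j 0) = (![ep, 0, 0, h, kap] : Fin 5 → ℂ) := by
    funext j
    fin_cases j
    · exact (h0 0).trans hb.X0
    · exact (h1 0).trans hb.X10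
    · exact (h2 0).trans hb.Y0
    · exact h3 0
    · exact h4 0
  rw [h9] at h7
  simp only [b.A0, one_pow, one_mul] at h7
  rw [h8.iteratedDeriv_eq p, h7]
  rfl

theorem hp_bd (D i p : ℕ) (hi : i ≤ D) : (hp D i p).totalDegree ≤ D + p ∧
    nrm (hp D i p) ≤ (9 * ((D : ℝ) + p + 1)) ^ p := by
  have hdC : (C ((2 * D : ℕ) : ℤ) * X 2 : MvPolynomial (Fin 5) ℤ).totalDegree ≤ 1 := by
    refine (totalDegree_mul _ _).trans ?_
    rw [totalDegree_C, zero_add, totalDegree_X]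
  have hdX : (X 0 ^ i : MvPolynomial (Fin 5) ℤ).totalDegree ≤ D := by
    refine (totalDegree_pow _ _).trans ?_
    rw [totalDegree_X, mul_one]
    exact hi
  have hnX : nrm (X 0 ^ i : MvPolynomial (Fin 5) ℤ) ≤ 1 := by
    have h2 := H32.T3.nrm_pow_le (X 0 : MvPolynomial (Fin 5) ℤ) i
    rwa [H32.T3.nrm_X, one_pow] at h2
  have hnC : nrm (C ((2 * D : ℕ) : ℤ) * X 2 : MvPolynomial (Fin 5) ℤ) ≤ 2 * D := by
    have h1 := H32.T3.nrm_mul_le (C ((2 * D : ℕ) : ℤ) : MvPolynomial (Fin 5) ℤ) (X 2)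
    rw [H32.T3.nrm_X, H32.T3.nrm_C, mul_one] at h1
    refine h1.trans (le_of_eq ?_)
    push_cast
    rw [abs_of_nonneg (by positivity)]
  constructor
  · have h := deg_TD_iter AZ.tdv (C ((2 * D : ℕ) : ℤ) * X 2) 1 Hpp_deg hdC (X 0 ^ i) p
    unfold hp
    omega
  · have h := nrm_TD_iter AZ.tdv (C ((2 * D : ℕ) : ℤ) * X 2) 1 Hpp_deg hdC 7 (2 * D)
      (by norm_num) Hpp_nrm hnC (X 0 ^ i) p
    unfold hp
    refine h.trans ?_
    have hdX' : ((X 0 ^ i : MvPolynomial (Fin 5) ℤ).totalDegree : ℝ) ≤ D := by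
      exact_mod_cast hdX
    have hnn := H32.T3.nrm_nonneg (X 0 ^ i : MvPolynomial (Fin 5) ℤ)
    have hb1 : (0 : ℝ) ≤ 7 * (((X 0 ^ i : MvPolynomial (Fin 5) ℤ).totalDegree : ℝ) + (1 : ℕ) * p)
        + 2 * D := by positivity
    calc (7 * (((X 0 ^ i : MvPolynomial (Fin 5) ℤ).totalDegree : ℝ) + (1 : ℕ) * p) + 2 * D) ^ p
          * nrm (X 0 ^ i : MvPolynomial (Fin 5) ℤ)
        ≤ (9 * ((D : ℝ) + p + 1)) ^ p * 1 := by
          refine mul_le_mul (pow_le_pow_left₀ hb1 ?_ _) hnX hnn (by positivity)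
          push_cast
          have : (0 : ℝ) ≤ p := Nat.cast_nonneg _
          linarith
      _ = _ := mul_one _

end U2

end S_H22_U2_Hpp

section S_H22_U2_Nc1

set_option autoImplicit false

namespace U2

private theorem Nc1_line (α : ℝ) {N K : ℕ} (hK : 1 ≤ K) {q a : ℤ} (hq0 : 0 < q)
    (hqN : q ≤ N) (h1 : |(q : ℝ) * α - a| ≤ 1 / (N : ℝ)) (h2 : 1 / (K : ℝ) ≤ |(q : ℝ) * α - a|)
    (θ : ℝ) : ∃ m0 m : ℤ, |m| ≤ ((N * (K + 1) : ℕ) : ℤ) ∧ |(m0 : ℝ) + m * α - θ| ≤ 1 / (N : ℝ) := by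
  set d : ℝ := |(q : ℝ) * α - a| with hd
  have hK0 : (0 : ℝ) < K := by exact_mod_cast hK
  have hd0 : 0 < d := lt_of_lt_of_le (by positivity) h2
  set j : ℤ := ⌊Int.fract θ / d⌋ with hj
  have hf0 := Int.fract_nonneg θ
  have hf1 := Int.fract_lt_one θ
  have hj0 : 0 ≤ j := Int.floor_nonneg.2 (div_nonneg hf0 hd0.le)
  have hj1 : (j : ℝ) * d ≤ Int.fract θ := by
    have h := Int.floor_le (Int.fract θ / d)
    rwa [le_div_iff₀ hd0] at h
  have hj2 : Int.fract θ < (j : ℝ) * d + d := by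
    have h := Int.lt_floor_add_one (Int.fract θ / d)
    rw [div_lt_iff₀ hd0] at h
    linarith
  have hjK : j ≤ K := by
    have h3 : (j : ℝ) * (1 / K) ≤ 1 := by
      have h4 : (j : ℝ) * (1 / K) ≤ j * d :=
        mul_le_mul_of_nonneg_left h2 (by exact_mod_cast hj0)
      linarith
    have h5 : (j : ℝ) ≤ K := by
      rw [mul_one_div, div_le_one hK0] at h3
      exact h3
    exact_mod_cast h5
  have hjq : |j * q| ≤ ((N * (K + 1) : ℕ) : ℤ) := by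
    rw [abs_of_nonneg (mul_nonneg hj0 hq0.le)]
    push_cast
    nlinarith
  have hfl : (⌊θ⌋ : ℝ) = θ - Int.fract θ := by
    have := Int.floor_add_fract θ
    linarith
  have hfin : |(j : ℝ) * d - Int.fract θ| ≤ 1 / (N : ℝ) := by
    rw [abs_le]
    constructor <;> linarith
  rcases le_total 0 ((q : ℝ) * α - a) with h | h
  · refine ⟨⌊θ⌋ - j * a, j * q, hjq, ?_⟩
    have e : ((⌊θ⌋ - j * a : ℤ) : ℝ) + ((j * q : ℤ) : ℝ) * α - θ = j * d - Int.fract θ := by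
      rw [hd, abs_of_nonneg h]
      push_cast
      rw [hfl]
      ring
    rw [e]
    exact hfin
  · refine ⟨⌊θ⌋ + j * a, -(j * q), by rwa [abs_neg], ?_⟩
    have e : ((⌊θ⌋ + j * a : ℤ) : ℝ) + ((-(j * q) : ℤ) : ℝ) * α - θ = j * d - Int.fract θ := by
      rw [hd, abs_of_nonpos h]
      push_cast
      rw [hfl]
      ring
    rw [e]
    exact hfin

private theorem Nc1_a {α : ℝ} {N : ℕ} (hN : 1 ≤ N) {q a : ℤ} (hq0 : 0 < q) (hqN : q ≤ N)
    (h1 : |(q : ℝ) * α - a| ≤ 1 / (N : ℝ)) : |(a : ℝ)| ≤ N * (|α| + 1) := by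
  have hN0 : (1 : ℝ) ≤ N := by exact_mod_cast hN
  have h2 : 1 / (N : ℝ) ≤ 1 := by
    rw [div_le_one (by linarith)]
    exact hN0
  have h3 : |(a : ℝ)| ≤ |(q : ℝ) * α| + |(q : ℝ) * α - a| := by
    have e : (a : ℝ) = (q : ℝ) * α - ((q : ℝ) * α - a) := by ring
    calc |(a : ℝ)| = |(q : ℝ) * α - ((q : ℝ) * α - a)| := by rw [← e]
      _ ≤ _ := abs_sub _ _
  have h4 : |(q : ℝ) * α| ≤ N * |α| := by
    rw [abs_mul]
    refine mul_le_mul_of_nonneg_right ?_ (abs_nonneg _)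
    rw [abs_of_nonneg (by exact_mod_cast hq0.le)]
    exact_mod_cast hqN
  linarith

private theorem Nc1_z (z : ℂ) : z ^ 2 = ((2 * z.re : ℝ) : ℂ) * z - ((‖z‖ ^ 2 : ℝ) : ℂ) := by
  have h1 := Complex.mul_conj z
  rw [Complex.normSq_eq_norm_sq] at h1
  rw [← h1, ← Complex.add_conj]
  ring

private theorem Nc1_int {x : ℤ} {C N : ℕ} {B : ℝ} (hB : B ≤ C) (h : |(x : ℝ)| ≤ B * (N : ℝ) ^ 2) :
    |x| ≤ ((C * N ^ 2 : ℕ) : ℤ) := by
  have h1 : |(x : ℝ)| ≤ C * (N : ℝ) ^ 2 := h.trans (mul_le_mul_of_nonneg_right hB (by positivity))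
  exact_mod_cast h1

theorem cov_or (z : ℂ) (hz : 0 < z.im) : ∃ C : ℕ, 1 ≤ C ∧ ∀ N K : ℕ, 1 ≤ N → 1 ≤ K →
    COV z N (N * (K + 1)) ∨ ∃ p0 p1 p2 : ℤ, 1 ≤ p0 ∧ |p0| ≤ (C * N ^ 2 : ℕ) ∧
      |p1| ≤ (C * N ^ 2 : ℕ) ∧ |p2| ≤ (C * N ^ 2 : ℕ) ∧
      ‖(p0 : ℂ) * z ^ 2 - p1 * z + p2‖ ≤ C * N / K := by
  refine ⟨⌈|2 * z.re| + ‖z‖ ^ 2 + ‖z‖ + 3⌉₊, ?_, ?_⟩
  · rw [Nat.one_le_ceil_iff]
    positivity
  intro N K hN hK
  set C : ℕ := ⌈|2 * z.re| + ‖z‖ ^ 2 + ‖z‖ + 3⌉₊ with hC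
  have hCle : |2 * z.re| + ‖z‖ ^ 2 + ‖z‖ + 3 ≤ C := Nat.le_ceil _
  clear_value C
  have hz0 := norm_nonneg z
  have ha0 := abs_nonneg (2 * z.re)
  have hN0 : (0 : ℝ) < N := by exact_mod_cast hN
  have hK0 : (0 : ℝ) < K := by exact_mod_cast hK
  have hNN : 1 / ((N : ℝ) + 1) ≤ 1 / (N : ℝ) := one_div_le_one_div_of_le hN0 (by linarith)
  obtain ⟨a1, q1, hq10, hq1N, h1⟩ := Real.exists_int_int_abs_mul_sub_le (2 * z.re) hN
  obtain ⟨a2, q2, hq20, hq2N, h2⟩ := Real.exists_int_int_abs_mul_sub_le (‖z‖ ^ 2) hN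
  replace h1 := h1.trans hNN
  replace h2 := h2.trans hNN
  by_cases c1 : 1 / (K : ℝ) ≤ |(q1 : ℝ) * (2 * z.re) - a1|
  · left
    intro θ
    obtain ⟨m0, m, hm, h⟩ := Nc1_line _ hK hq10 hq1N h1 c1 θ
    refine ⟨m0, m, 0, hm, by simp, ?_⟩
    simpa using h
  by_cases c2 : 1 / (K : ℝ) ≤ |(q2 : ℝ) * ‖z‖ ^ 2 - a2|
  · left
    intro θ
    obtain ⟨m0, m, hm, h⟩ := Nc1_line _ hK hq20 hq2N h2 c2 θ
    refine ⟨m0, 0, m, by simp, hm, ?_⟩
    simpa using h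
  right
  rw [not_le] at c1 c2
  have hb1 := Nc1_a hN hq10 hq1N h1
  have hb2 := Nc1_a hN hq20 hq2N h2
  rw [abs_of_nonneg (sq_nonneg ‖z‖)] at hb2
  have hq1' : |(q1 : ℝ)| ≤ N := by
    rw [abs_of_nonneg (by exact_mod_cast hq10.le)]
    exact_mod_cast hq1N
  have hq2' : |(q2 : ℝ)| ≤ N := by
    rw [abs_of_nonneg (by exact_mod_cast hq20.le)]
    exact_mod_cast hq2N
  refine ⟨q1 * q2, a1 * q2, a2 * q1, ?_, ?_, ?_, ?_, ?_⟩
  · have := mul_pos hq10 hq20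
    omega
  · refine Nc1_int (B := 1) (by nlinarith) ?_
    push_cast
    rw [abs_mul, one_mul, sq]
    exact mul_le_mul hq1' hq2' (abs_nonneg _) hN0.le
  · refine Nc1_int (B := |2 * z.re| + 1) (by nlinarith) ?_
    push_cast
    rw [abs_mul]
    calc |(a1 : ℝ)| * |(q2 : ℝ)| ≤ (N * (|2 * z.re| + 1)) * N :=
          mul_le_mul hb1 hq2' (abs_nonneg _) (by positivity)
      _ = _ := by ring
  · refine Nc1_int (B := ‖z‖ ^ 2 + 1) (by linarith) ?_
    push_cast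
    rw [abs_mul]
    calc |(a2 : ℝ)| * |(q1 : ℝ)| ≤ (N * (‖z‖ ^ 2 + 1)) * N :=
          mul_le_mul hb2 hq1' (abs_nonneg _) (by positivity)
      _ = _ := by ring
  · have e : (((q1 * q2 : ℤ) : ℂ)) * z ^ 2 - ((a1 * q2 : ℤ) : ℂ) * z + ((a2 * q1 : ℤ) : ℂ) =
        ((q2 : ℝ) : ℂ) * (((q1 : ℝ) * (2 * z.re) - a1 : ℝ) : ℂ) * z -
          ((q1 : ℝ) : ℂ) * (((q2 : ℝ) * ‖z‖ ^ 2 - a2 : ℝ) : ℂ) := by
      rw [Nc1_z z]
      push_cast
      ring
    rw [e]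
    refine (norm_sub_le _ _).trans ?_
    rw [norm_mul, norm_mul, norm_mul, Complex.norm_real, Complex.norm_real, Complex.norm_real,
      Complex.norm_real, Real.norm_eq_abs, Real.norm_eq_abs, Real.norm_eq_abs, Real.norm_eq_abs]
    have g1 : |(q2 : ℝ)| * |(q1 : ℝ) * (2 * z.re) - a1| ≤ N * (1 / K) :=
      mul_le_mul hq2' c1.le (abs_nonneg _) hN0.le
    have g2 : |(q1 : ℝ)| * |(q2 : ℝ) * ‖z‖ ^ 2 - a2| ≤ N * (1 / K) :=
      mul_le_mul hq1' c2.le (abs_nonneg _) hN0.le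
    have g3 : |(q2 : ℝ)| * |(q1 : ℝ) * (2 * z.re) - a1| * ‖z‖ ≤ N * (1 / K) * ‖z‖ :=
      mul_le_mul_of_nonneg_right g1 hz0
    have g4 : (N : ℝ) * (1 / K) * ‖z‖ + N * (1 / K) = (‖z‖ + 1) * N / K := by
      field_simp
    have g5 : (‖z‖ + 1) * N / K ≤ C * N / K := by
      gcongr
      nlinarith
    linarith

theorem cov_one (z : ℂ) : COV z 1 0 := by
  intro θ
  refine ⟨⌊θ⌋, 0, 0, by simp, by simp, ?_⟩
  have h1 := Int.floor_le θ
  have h2 := Int.lt_floor_add_one θ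
  simp only [Int.cast_zero, zero_mul, add_zero, Nat.cast_one, div_one]
  rw [abs_le]
  constructor <;> linarith

end U2

end S_H22_U2_Nc1

section S_H22_U2_Wpp

set_option autoImplicit false

namespace U2

open MvPolynomial CZ
open H32.T3 (nrm)

private theorem WP_ren {n m : ℕ} (f : Fin n → Fin m) (hf : Function.Injective f)
    (P : MvPolynomial (Fin n) ℤ) : nrm (rename f P) = nrm P := by
  classical
  unfold nrm
  rw [support_rename_of_injective hf,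
    Finset.sum_image (fun x _ y _ h ↦ Finsupp.mapDomain_injective hf h)]
  refine Finset.sum_congr rfl fun m _ ↦ ?_
  rw [coeff_rename_mapDomain _ hf]

private theorem WP_hp7 (z lam h kap ep : ℂ) (D i p : ℕ) :
    aeval (cs7 z lam h kap ep) (hp7 D i p) =
      aeval (![ep, 0, 0, h, kap] : Fin 5 → ℂ) (hp D i p) := by
  unfold hp7
  rw [aeval_rename]
  congr 2
  funext i
  fin_cases i <;> rfl

private theorem WP_alg (lam w D2 z H1 H2 fa fr fe ds B : ℂ) (a j l m r : ℕ) (hlam : lam ≠ 0)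
    (hw : w ≠ 0) (hD : D2 ≠ 0) (hfa : fa ≠ 0) (hfr : fr ≠ 0) (hfe : fe = fr * ds) :
    fa * fe * (w * D2 / lam) ^ (j + (l + m)) * (B * (1 / (w * D2)) ^ j * (z / (w * D2)) ^ m *
      (lam ^ (a + j) * H1 / fa) * (lam ^ (r + m) * H2 / fr)) =
    lam ^ (a + (l + r)) * (B * ds * D2 ^ l * (H1 * H2 * ((w / lam ^ 2) ^ l * z ^ m))) := by
  rw [hfe, div_pow, div_pow, div_pow, div_pow, one_pow, mul_pow, mul_pow, mul_pow]
  simp only [pow_add]
  field_simp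
  ring

theorem WP_val {z : ℂ} (b : BaseFn z) (lam h kap ep : ℂ) (ε : ℝ) (Xf X1f Yf : ℂ → ℂ)
    (hb : BaseSys b lam h kap ep ε Xf X1f Yf) (D i1 i2 k a e : ℕ) (hD : 1 ≤ D) (h1 : i1 ≤ D)
    (h2 : i2 ≤ D) :
    (a.factorial : ℂ) * e.factorial * (2 * Real.pi * Complex.I * (2 * D) / lam) ^ k *
      jc b D i1 i2 k a e = lam ^ (a + e) * aeval (cs7 z lam h kap ep) (WP D i1 i2 k a e) := by
  unfold jc WP
  rw [map_sum, Finset.mul_sum, Finset.mul_sum]
  refine Finset.sum_congr rfl fun p hpa => ?_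
  rw [map_sum, Finset.mul_sum, Finset.mul_sum]
  refine Finset.sum_congr rfl fun q hq => ?_
  rw [Finset.HasAntidiagonal.mem_antidiagonal] at hpa hq
  by_cases hqe : q.1 ≤ e
  · rw [if_pos hqe, if_pos hqe]
    obtain ⟨r, hr⟩ := Nat.exists_eq_add_of_le hqe
    have hr' : e - q.1 = r := by omega
    have hk : k = p.1 + (q.1 + q.2) := by omega
    have hfe : (e.factorial : ℂ) = (r.factorial : ℂ) * (e.descFactorial q.1 : ℂ) := by
      rw [← hr']
      exact_mod_cast (Nat.factorial_mul_descFactorial hqe).symm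
    rw [hr', hp_val b lam h kap ep ε Xf X1f Yf hb D i1 (a + p.1) h1,
      hp_val b lam h kap ep ε Xf X1f Yf hb D i2 (r + q.2) h2]
    have hcs5 : cs7 z lam h kap ep 5 = 2 * Real.pi * Complex.I / lam ^ 2 := rfl
    have hcs6 : cs7 z lam h kap ep 6 = z := rfl
    simp only [map_mul, map_pow, aeval_X, WP_hp7, hcs5, hcs6, algHom_C]
    have hD' : (2 * (D : ℂ)) ≠ 0 := by
      have : (D : ℂ) ≠ 0 := by exact_mod_cast (by omega : D ≠ 0)
      exact mul_ne_zero two_ne_zero this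
    have hw : (2 * (Real.pi : ℂ) * Complex.I) ≠ 0 := by
      have := Real.pi_pos.ne'
      have h3 : (Real.pi : ℂ) ≠ 0 := by exact_mod_cast this
      exact mul_ne_zero (mul_ne_zero two_ne_zero h3) Complex.I_ne_zero
    have key := WP_alg lam (2 * Real.pi * Complex.I) (2 * D) z
      (aeval (![ep, 0, 0, h, kap] : Fin 5 → ℂ) (hp D i1 (a + p.1)))
      (aeval (![ep, 0, 0, h, kap] : Fin 5 → ℂ) (hp D i2 (r + q.2)))
      (a.factorial : ℂ) (r.factorial : ℂ) (e.factorial : ℂ) (e.descFactorial q.1 : ℂ)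
      ((k.choose p.1 : ℂ) * (p.2.choose q.1 : ℂ)) a p.1 q.1 q.2 r hb.hlam hw hD'
      (by exact_mod_cast a.factorial_ne_zero) (by exact_mod_cast r.factorial_ne_zero) hfe
    rw [← hk, ← hr] at key
    unfold v1 v2
    rw [key]
    have hc : (algebraMap ℤ ℂ) ((k.choose p.1 * p.2.choose q.1 * e.descFactorial q.1 *
        (2 * D) ^ q.1 : ℕ) : ℤ) = (k.choose p.1 : ℂ) * (p.2.choose q.1 : ℂ) *
        (e.descFactorial q.1 : ℂ) * (2 * (D : ℂ)) ^ q.1 := by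
      simp
    rw [hc]
  · rw [if_neg hqe, if_neg hqe, map_zero, mul_zero, mul_zero]

private theorem WP_num {D k a e j l m : ℕ} (hk : j + (l + m) = k) (hl : l ≤ e) :
    ((k.choose j * (l + m).choose l * e.descFactorial l * (2 * D) ^ l : ℕ) : ℝ) *
      ((9 * ((D : ℝ) + (a + j : ℕ) + 1)) ^ (a + j) *
        (9 * ((D : ℝ) + (e - l + m : ℕ) + 1)) ^ (e - l + m)) ≤
      (9 * ((D : ℝ) + k + a + e + 2)) ^ (6 * k + a + e) := by
  set U : ℝ := 9 * ((D : ℝ) + k + a + e + 2) with hU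
  have hD0 : (0 : ℝ) ≤ D := Nat.cast_nonneg _
  have hk0 : (0 : ℝ) ≤ k := Nat.cast_nonneg _
  have ha0 : (0 : ℝ) ≤ a := Nat.cast_nonneg _
  have he0 : (0 : ℝ) ≤ e := Nat.cast_nonneg _
  have hU1 : 1 ≤ U := by rw [hU]; linarith
  have hpow : ∀ {x : ℝ} {i n : ℕ}, 0 ≤ x → x ≤ U → i ≤ n → x ^ i ≤ U ^ n := by
    intro x i n hx hxU hin
    exact (pow_le_pow_left₀ hx hxU i).trans (pow_le_pow_right₀ hU1 hin)
  have h1 : ((k.choose j : ℕ) : ℝ) ≤ U ^ k := by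
    have h2 : k.choose j ≤ 2 ^ k := Nat.choose_le_two_pow _ _
    have h3 : ((k.choose j : ℕ) : ℝ) ≤ 2 ^ k := by exact_mod_cast h2
    exact h3.trans (hpow (by norm_num) (by rw [hU]; linarith) le_rfl)
  have h2 : (((l + m).choose l : ℕ) : ℝ) ≤ U ^ k := by
    have h2 : (l + m).choose l ≤ 2 ^ (l + m) := Nat.choose_le_two_pow _ _
    have h3 : (((l + m).choose l : ℕ) : ℝ) ≤ 2 ^ (l + m) := by exact_mod_cast h2
    exact h3.trans (hpow (by norm_num) (by rw [hU]; linarith) (by omega))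
  have h3 : ((e.descFactorial l : ℕ) : ℝ) ≤ U ^ k := by
    have h2 : e.descFactorial l ≤ e ^ l := Nat.descFactorial_le_pow _ _
    have h3 : ((e.descFactorial l : ℕ) : ℝ) ≤ (e : ℝ) ^ l := by exact_mod_cast h2
    exact h3.trans (hpow he0 (by rw [hU]; linarith) (by omega))
  have h4 : (2 * (D : ℝ)) ^ l ≤ U ^ k := hpow (by linarith) (by rw [hU]; linarith) (by omega)
  have h5 : (9 * ((D : ℝ) + (a + j : ℕ) + 1)) ^ (a + j) ≤ U ^ (a + k) := by
    have h6 : ((a + j : ℕ) : ℝ) ≤ a + k := by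
      have : a + j ≤ a + k := by omega
      exact_mod_cast this
    exact hpow (by positivity) (by rw [hU]; linarith) (by omega)
  have h6 : (9 * ((D : ℝ) + (e - l + m : ℕ) + 1)) ^ (e - l + m) ≤ U ^ (e + k) := by
    have h6 : ((e - l + m : ℕ) : ℝ) ≤ e + k := by
      have : e - l + m ≤ e + k := by omega
      exact_mod_cast this
    exact hpow (by positivity) (by rw [hU]; linarith) (by omega)
  have e1 : U ^ (6 * k + a + e) =
      U ^ k * U ^ k * U ^ k * U ^ k * (U ^ (a + k) * U ^ (e + k)) := by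
    simp only [← pow_add]
    congr 1
    ring
  rw [e1]
  push_cast
  push_cast at h5 h6
  gcongr

private theorem WP_log {s : ℝ} (hs : 1 ≤ s) (n : ℕ) (hn : (n : ℝ) ≤ 8 * s) :
    (9 * (s + 1)) ^ n ≤ Real.exp (40 * s * Real.log (s + 1)) := by
  have h1 : 0 < 9 * (s + 1) := by linarith
  have h2 : Real.log (9 * (s + 1)) ≤ 5 * Real.log (s + 1) := by
    have h3 : 9 * (s + 1) ≤ (s + 1) ^ 5 := by
      have h4 : (2 : ℝ) ^ 4 ≤ (s + 1) ^ 4 := pow_le_pow_left₀ (by norm_num) (by linarith) 4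
      have h5 : (s + 1) ^ 5 = (s + 1) ^ 4 * (s + 1) := by ring
      rw [h5]
      apply mul_le_mul_of_nonneg_right _ (by linarith)
      linarith
    have h6 := Real.log_le_log h1 h3
    rwa [Real.log_pow] at h6
  have h0 : 0 ≤ Real.log (s + 1) := Real.log_nonneg (by linarith)
  calc (9 * (s + 1)) ^ n = Real.exp (n * Real.log (9 * (s + 1))) := by
        rw [Real.exp_nat_mul, Real.exp_log h1]
    _ ≤ Real.exp (40 * s * Real.log (s + 1)) := by
        apply Real.exp_le_exp.2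
        have hn0 : (0 : ℝ) ≤ n := Nat.cast_nonneg _
        nlinarith

theorem WP_bd : ∃ C : ℕ, 1 ≤ C ∧ ∀ D i1 i2 k a e : ℕ, i1 ≤ D → i2 ≤ D →
    ((WP D i1 i2 k a e).totalDegree : ℝ) ≤ C * ((D : ℝ) + k + a + e + 1) ∧
    nrm (WP D i1 i2 k a e) ≤ Real.exp (C * ((D : ℝ) + k + a + e + 1) *
      Real.log ((D : ℝ) + k + a + e + 2)) := by
  refine ⟨40, by norm_num, fun D i1 i2 k a e h1 h2 => ⟨?_, ?_⟩⟩
  · have hd : (WP D i1 i2 k a e).totalDegree ≤ 2 * D + a + e + 2 * k := by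
      unfold WP
      refine totalDegree_finsetSum_le fun p hp => totalDegree_finsetSum_le fun q hq => ?_
      rw [Finset.HasAntidiagonal.mem_antidiagonal] at hp hq
      by_cases hqe : q.1 ≤ e
      · rw [if_pos hqe]
        have e1 : (hp7 D i1 (a + p.1)).totalDegree ≤ D + (a + p.1) :=
          (totalDegree_rename_le _ _).trans (hp_bd D i1 (a + p.1) h1).1
        have e2 : (hp7 D i2 (e - q.1 + q.2)).totalDegree ≤ D + (e - q.1 + q.2) :=
          (totalDegree_rename_le _ _).trans (hp_bd D i2 (e - q.1 + q.2) h2).1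
        have e3 : ((X 5 : MvPolynomial (Fin 7) ℤ) ^ q.1 * X 6 ^ q.2).totalDegree ≤ q.1 + q.2 := by
          refine (totalDegree_mul _ _).trans (Nat.add_le_add ?_ ?_)
          · refine (totalDegree_pow _ _).trans ?_
            rw [totalDegree_X, mul_one]
          · refine (totalDegree_pow _ _).trans ?_
            rw [totalDegree_X, mul_one]
        refine (totalDegree_mul _ _).trans ?_
        rw [totalDegree_C, zero_add]
        refine (totalDegree_mul _ _).trans ?_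
        refine (Nat.add_le_add ((totalDegree_mul _ _).trans (Nat.add_le_add e1 e2)) e3).trans ?_
        omega
      · rw [if_neg hqe, totalDegree_zero]
        exact Nat.zero_le _
    have hd' : ((WP D i1 i2 k a e).totalDegree : ℝ) ≤ 2 * D + a + e + 2 * k := by
      exact_mod_cast hd
    have hD0 : (0 : ℝ) ≤ D := Nat.cast_nonneg _
    have hk0 : (0 : ℝ) ≤ k := Nat.cast_nonneg _
    have ha0 : (0 : ℝ) ≤ a := Nat.cast_nonneg _
    have he0 : (0 : ℝ) ≤ e := Nat.cast_nonneg _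
    push_cast
    linarith
  · set U : ℝ := 9 * ((D : ℝ) + k + a + e + 2) with hU
    have hD0 : (0 : ℝ) ≤ D := Nat.cast_nonneg _
    have hk0 : (0 : ℝ) ≤ k := Nat.cast_nonneg _
    have ha0 : (0 : ℝ) ≤ a := Nat.cast_nonneg _
    have he0 : (0 : ℝ) ≤ e := Nat.cast_nonneg _
    have hU1 : 1 ≤ U := by rw [hU]; linarith
    have hterm : nrm (WP D i1 i2 k a e) ≤
        ∑ p ∈ Finset.HasAntidiagonal.antidiagonal k,
          ∑ q ∈ Finset.HasAntidiagonal.antidiagonal p.2, U ^ (6 * k + a + e) := by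
      unfold WP
      refine (H32.T3.nrm_sum_le _ _).trans (Finset.sum_le_sum fun p hp => ?_)
      refine (H32.T3.nrm_sum_le _ _).trans (Finset.sum_le_sum fun q hq => ?_)
      rw [Finset.HasAntidiagonal.mem_antidiagonal] at hp hq
      by_cases hqe : q.1 ≤ e
      · rw [if_pos hqe]
        have e1 : nrm (hp7 D i1 (a + p.1)) ≤ (9 * ((D : ℝ) + (a + p.1 : ℕ) + 1)) ^ (a + p.1) := by
          unfold hp7
          rw [WP_ren _ (Fin.castLE_injective _)]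
          exact (hp_bd D i1 (a + p.1) h1).2
        have e2 : nrm (hp7 D i2 (e - q.1 + q.2)) ≤
            (9 * ((D : ℝ) + (e - q.1 + q.2 : ℕ) + 1)) ^ (e - q.1 + q.2) := by
          unfold hp7
          rw [WP_ren _ (Fin.castLE_injective _)]
          exact (hp_bd D i2 (e - q.1 + q.2) h2).2
        have e3 : nrm ((X 5 : MvPolynomial (Fin 7) ℤ) ^ q.1 * X 6 ^ q.2) ≤ 1 := by
          refine (H32.T3.nrm_mul_le _ _).trans ?_
          have f1 := H32.T3.nrm_pow_le (X 5 : MvPolynomial (Fin 7) ℤ) q.1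
          have f2 := H32.T3.nrm_pow_le (X 6 : MvPolynomial (Fin 7) ℤ) q.2
          rw [H32.T3.nrm_X, one_pow] at f1 f2
          exact mul_le_one₀ f1 (H32.T3.nrm_nonneg _) f2
        have e4 := WP_num (D := D) (a := a) (show p.1 + (q.1 + q.2) = k by omega) hqe
        rw [← hU, hq] at e4
        refine le_trans ?_ e4
        refine (H32.T3.nrm_mul_le _ _).trans ?_
        rw [H32.T3.nrm_C]
        have e5 : |((((k.choose p.1 * p.2.choose q.1 * e.descFactorial q.1 *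
            (2 * D) ^ q.1 : ℕ) : ℤ)) : ℝ)| = ((k.choose p.1 * p.2.choose q.1 *
            e.descFactorial q.1 * (2 * D) ^ q.1 : ℕ) : ℝ) := by
          rw [Int.cast_natCast]
          exact abs_of_nonneg (Nat.cast_nonneg _)
        rw [e5]
        apply mul_le_mul_of_nonneg_left _ (Nat.cast_nonneg _)
        refine (H32.T3.nrm_mul_le _ _).trans ?_
        refine (mul_le_mul_of_nonneg_left e3 (H32.T3.nrm_nonneg _)).trans ?_
        rw [mul_one]
        refine (H32.T3.nrm_mul_le _ _).trans ?_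
        exact mul_le_mul e1 e2 (H32.T3.nrm_nonneg _) (by positivity)
      · rw [if_neg hqe, H32.T3.nrm_zero]
        positivity
    have hcount : ∑ p ∈ Finset.HasAntidiagonal.antidiagonal k,
          ∑ q ∈ Finset.HasAntidiagonal.antidiagonal p.2, U ^ (6 * k + a + e) ≤
        ((k : ℝ) + 1) * (((k : ℝ) + 1) * U ^ (6 * k + a + e)) := by
      have h3 : ∀ p ∈ Finset.HasAntidiagonal.antidiagonal k,
          ∑ q ∈ Finset.HasAntidiagonal.antidiagonal p.2, U ^ (6 * k + a + e) ≤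
            ((k : ℝ) + 1) * U ^ (6 * k + a + e) := by
        intro p hp
        rw [Finset.HasAntidiagonal.mem_antidiagonal] at hp
        rw [Finset.sum_const, Finset.Nat.card_antidiagonal, nsmul_eq_mul]
        apply mul_le_mul_of_nonneg_right _ (by positivity)
        have : p.2 + 1 ≤ k + 1 := by omega
        exact_mod_cast this
      refine (Finset.sum_le_sum h3).trans ?_
      rw [Finset.sum_const, Finset.Nat.card_antidiagonal, nsmul_eq_mul]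
      push_cast
      exact le_rfl
    have hk1 : (k : ℝ) + 1 ≤ U := by rw [hU]; linarith
    have hfin : ((k : ℝ) + 1) * (((k : ℝ) + 1) * U ^ (6 * k + a + e)) ≤
        U ^ (6 * k + a + e + 2) := by
      have h3 : U ^ (6 * k + a + e + 2) = U * (U * U ^ (6 * k + a + e)) := by ring
      rw [h3]
      gcongr
    have hs1 : (1 : ℝ) ≤ (D : ℝ) + k + a + e + 1 := by linarith
    have hlog := WP_log hs1 (6 * k + a + e + 2) (by push_cast; linarith)
    have hU2 : 9 * ((D : ℝ) + k + a + e + 1 + 1) = U := by rw [hU]; ring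
    have hU3 : (D : ℝ) + k + a + e + 1 + 1 = (D : ℝ) + k + a + e + 2 := by ring
    rw [hU2, hU3] at hlog
    push_cast
    exact hterm.trans (hcount.trans (hfin.trans hlog))

end U2

end S_H22_U2_Wpp

section S_H32_CZ_Qf

set_option autoImplicit false

open EisensteinSeries ModularForm UpperHalfPlane

namespace CZ

open Polynomial in
theorem Qf_cubic {N b2 b1 b0 : ℤ} (hN : N ≠ 0) {x : ℂ}
    (h : (N : ℂ) * x ^ 3 + b2 * x ^ 2 + b1 * x + b0 = 0) : IsAlgebraic ℤ x := by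
  refine ⟨C N * X ^ 3 + C b2 * X ^ 2 + C b1 * X + C b0, ?_, ?_⟩
  · intro h0
    have h1 := congrArg (fun p => Polynomial.coeff p 3) h0
    simp only [coeff_add, coeff_C_mul, coeff_X_pow, coeff_X, coeff_C, coeff_zero] at h1
    norm_num at h1
    exact hN h1
  · simpa using h

theorem Qf_roots (c : CData) : IsAlgebraic ℤ c.z ∧ IsAlgebraic ℤ c.zb ∧ IsAlgebraic ℤ (c.r : ℂ) := by
  have hN : (c.N : ℤ) ≠ 0 := by
    have := c.hN
    omega
  have h1 := c.he1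
  have h2 := c.he2
  have h3 := c.he3
  have e1 : (c.b2 : ℂ) = -((c.N : ℂ) * (c.z + c.zb + c.r)) := by
    rw [CData.zb, h1]; ring
  have e2 : (c.b1 : ℂ) = (c.N : ℂ) * (c.z * c.zb + (c.z + c.zb) * c.r) := by
    rw [CData.zb, h2]
  have e3 : (c.b0 : ℂ) = -((c.N : ℂ) * (c.z * c.zb * c.r)) := by
    rw [CData.zb, h3]; ring
  refine ⟨Qf_cubic hN (b2 := c.b2) (b1 := c.b1) (b0 := c.b0) ?_,
    Qf_cubic hN (b2 := c.b2) (b1 := c.b1) (b0 := c.b0) ?_,
    Qf_cubic hN (b2 := c.b2) (b1 := c.b1) (b0 := c.b0) ?_⟩ <;>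
  · rw [e1, e2, e3]
    push_cast
    ring

open Polynomial in
theorem Qf_ep {K : Type*} [Field K] [Algebra K ℂ] {h ep : ℂ} (hh : IsAlgebraic K h)
    (he : 4 * ep ^ 3 - 2 * h * ep - 2 * h = 0) : IsAlgebraic K ep := by
  have hh' : h ∈ algebraicClosure K ℂ := mem_algebraicClosure_iff.2 hh
  have h1 : IsAlgebraic (algebraicClosure K ℂ) ep := by
    refine ⟨C 4 * X ^ 3 - C (2 * ⟨h, hh'⟩) * X - C (2 * ⟨h, hh'⟩), ?_, ?_⟩
    · intro h0
      have h1 := congrArg (fun p => Polynomial.coeff p 3) h0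
      simp at h1
    · have e : (algebraMap (algebraicClosure K ℂ) ℂ) ⟨h, hh'⟩ = h := rfl
      simp only [map_sub, map_mul, map_pow, aeval_C, aeval_X, map_ofNat, e]
      exact he
  exact h1.restrictScalars K

theorem cst_alg (c : CData) (τ : ℍ) (hτ : (τ : ℂ) = c.z) (he4 : E₄ τ ≠ 0) (he6 : E₆ τ ≠ 0)
    (E4 E6 Jf : ℂ → ℂ)
    (h4 : ∀ τ : ℂ, E4 τ = 1 + 240 * ∑' m : ℕ, ((ArithmeticFunction.sigma 3 (m + 1) : ℕ) : ℂ) *
          Complex.exp (2 * (Real.pi : ℂ) * Complex.I * ((m : ℂ) + 1) * τ))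
    (h6 : ∀ τ : ℂ, E6 τ = 1 - 504 * ∑' m : ℕ, ((ArithmeticFunction.sigma 5 (m + 1) : ℕ) : ℂ) *
          Complex.exp (2 * (Real.pi : ℂ) * Complex.I * ((m : ℂ) + 1) * τ))
    (hJ : ∀ τ : ℂ, Jf τ = 1728 * E4 τ ^ 3 / (E4 τ ^ 3 - E6 τ ^ 2)) (lam ep : ℂ)
    (hlam : 2 * Real.pi * Complex.I / lam ^ 2 = 9 * Complex.I * (E₄ τ / (Real.pi * E₆ τ)))
    (hep : 4 * ep ^ 3 - 2 * (27 / 2 * (E₄ τ ^ 3 / E₆ τ ^ 2)) * ep -
        2 * (27 / 2 * (E₄ τ ^ 3 / E₆ τ ^ 2)) = 0) (v : Vr) :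
    IsAlgebraic (IntermediateField.adjoin ℚ
      ({Jf c.z, deriv Jf c.z, deriv (deriv Jf) c.z} : Set ℂ))
      (cst c lam (27 / 2 * (E₄ τ ^ 3 / E₆ τ ^ 2)) (3 / 2 * (E2 τ * E₄ τ / E₆ τ)) ep v) := by
  obtain ⟨v0, v1, v2⟩ := H32.J_values h4 h6 hJ c.hz
  have hof : ofComplex c.z = τ := by rw [← hτ]; exact ofComplex_apply τ
  have ha : H32.e4 c.z = E₄ τ := by rw [H32.e4, hof]
  have hb : H32.e6 c.z = E₆ τ := by rw [H32.e6, hof]
  have hg : H32.e2 c.z = E2 τ := by rw [H32.e2, hof]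
  have hΔ : E₄ τ ^ 3 - E₆ τ ^ 2 ≠ 0 := by
    have := H32.disc_ne (w := c.z)
    rwa [ha, hb] at this
  rw [ha, hb] at v0
  rw [H32.J1, ha, hb] at v1
  rw [H32.J2, ha, hb, hg] at v2
  generalize hK : IntermediateField.adjoin ℚ
      ({Jf c.z, deriv Jf c.z, deriv (deriv Jf) c.z} : Set ℂ) = K
  have m0 : IsAlgebraic K (Jf c.z) := by
    have : Jf c.z ∈ K := by
      rw [← hK]; exact IntermediateField.subset_adjoin _ _ (by simp)
    exact isAlgebraic_algebraMap (⟨_, this⟩ : K)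
  have m1 : IsAlgebraic K (deriv Jf c.z) := by
    have : deriv Jf c.z ∈ K := by
      rw [← hK]; exact IntermediateField.subset_adjoin _ _ (by simp)
    exact isAlgebraic_algebraMap (⟨_, this⟩ : K)
  have m2 : IsAlgebraic K (deriv (deriv Jf) c.z) := by
    have : deriv (deriv Jf) c.z ∈ K := by
      rw [← hK]; exact IntermediateField.subset_adjoin _ _ (by simp)
    exact isAlgebraic_algebraMap (⟨_, this⟩ : K)
  obtain ⟨M, hM⟩ : ∃ M : IntermediateField K ℂ, ∀ x, x ∈ M ↔ IsAlgebraic K x :=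
    ⟨algebraicClosure K ℂ, fun x => mem_algebraicClosure_iff⟩
  rw [← hM] at m0 m1 m2
  have nat_mem : ∀ n : ℕ, (n : ℂ) ∈ M := fun n => natCast_mem M n
  have mI : Complex.I ∈ M := by
    rw [hM]
    refine IsAlgebraic.of_pow (n := 2) (by norm_num) ?_
    rw [Complex.I_sq, ← hM]
    exact neg_mem (one_mem M)
  have hπ : (Real.pi : ℂ) ≠ 0 := by exact_mod_cast Real.pi_ne_zero
  have hI := Complex.I_ne_zero
  have i1728 : (1728 : ℂ) ∈ M := by exact_mod_cast nat_mem 1728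
  have i2 : (2 : ℂ) ∈ M := by exact_mod_cast nat_mem 2
  have i3 : (3 : ℂ) ∈ M := by exact_mod_cast nat_mem 3
  have i6 : (6 : ℂ) ∈ M := by exact_mod_cast nat_mem 6
  have i9 : (9 : ℂ) ∈ M := by exact_mod_cast nat_mem 9
  have i27 : (27 : ℂ) ∈ M := by exact_mod_cast nat_mem 27
  generalize E₄ τ = a at *
  generalize E₆ τ = b at *
  generalize E2 τ = g at *
  have mt : a ^ 3 / b ^ 2 ∈ M := by
    have e : a ^ 3 / b ^ 2 = Jf c.z / (Jf c.z - 1728) := by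
      have e1 : Jf c.z - 1728 = 1728 * b ^ 2 / (a ^ 3 - b ^ 2) := by
        rw [v0]; field_simp; ring
      rw [e1, v0]
      field_simp
    rw [e]
    exact div_mem m0 (sub_mem m0 i1728)
  have mu : a / (Real.pi * b) ∈ M := by
    have e : a / (Real.pi * b) = -2 * Complex.I * (Jf c.z / deriv Jf c.z) := by
      rw [v0, v1]
      field_simp
    rw [e]
    exact mul_mem (mul_mem (neg_mem i2) mI) (div_mem m0 m1)
  have mk : g * a / b ∈ M := by
    have e : g * a / b = 6 * ((deriv (deriv Jf) c.z / deriv Jf c.z) * (a / (Real.pi * b)) /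
        (2 * Complex.I) + 2 / 3 + (a ^ 3 / b ^ 2) / 2) := by
      rw [v1, v2]
      field_simp
      ring
    rw [e]
    exact mul_mem i6 (add_mem (add_mem (div_mem (mul_mem (div_mem m2 m1) mu) (mul_mem i2 mI))
      (div_mem i2 i3)) (div_mem mt i2))
  have mh : 27 / 2 * (a ^ 3 / b ^ 2) ∈ M := mul_mem (div_mem i27 i2) mt
  have mep : ep ∈ M := by
    rw [hM]
    exact Qf_ep ((hM _).1 mh) hep
  obtain ⟨z1, z2, z3⟩ := Qf_roots c
  have inj : Function.Injective (algebraMap ℤ K) := (algebraMap ℤ K).injective_int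
  have mz : c.z ∈ M := (hM _).2 (z1.extendScalars inj)
  have mzb : c.zb ∈ M := (hM _).2 (z2.extendScalars inj)
  have mr : (c.r : ℂ) ∈ M := (hM _).2 (z3.extendScalars inj)
  rw [← hM]
  rcases v with ⟨i, j⟩ | i
  · fin_cases i
    · exact mep
    · exact zero_mem M
    · exact zero_mem M
  · fin_cases i
    · exact zero_mem M
    · exact mz
    · exact mzb
    · exact mr
    · exact div_mem (one_mem M) (nat_mem c.N)
    · exact mh
    · exact mul_mem (div_mem i3 i2) mk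
    · show 2 * Real.pi * Complex.I / lam ^ 2 ∈ M
      rw [hlam]
      exact mul_mem (mul_mem i9 mI) mu

end CZ

end S_H32_CZ_Qf

section S_H32_CZ_Qg

set_option autoImplicit false

open EisensteinSeries ModularForm UpperHalfPlane

namespace CZ

open Filter Topology

/-- uniqueness of the solution with a double pole -/
theorem Qg_unique (φ ψ : ℂ → ℂ) (g2 g3 : ℂ) (hφ : AnalyticAt ℂ φ 0) (hψ : AnalyticAt ℂ ψ 0)
    (h0 : φ 0 = ψ 0)
    (e1 : ∀ᶠ u in 𝓝[≠] (0 : ℂ), (deriv φ u - 2 / u ^ 3) ^ 2 =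
      4 * (φ u + 1 / u ^ 2) ^ 3 - g2 * (φ u + 1 / u ^ 2) - g3)
    (e2 : ∀ᶠ u in 𝓝[≠] (0 : ℂ), (deriv ψ u - 2 / u ^ 3) ^ 2 =
      4 * (ψ u + 1 / u ^ 2) ^ 3 - g2 * (ψ u + 1 / u ^ 2) - g3) :
    ∀ᶠ u in 𝓝 (0 : ℂ), φ u - ψ u = 0 := by
  by_contra hcon
  have hh : AnalyticAt ℂ (fun u => φ u - ψ u) 0 := hφ.sub hψ
  obtain ⟨n, k, hk, hk0, hkeq⟩ := hh.exists_eventuallyEq_pow_smul_nonzero_iff.2 hcon
  simp only [sub_zero, smul_eq_mul] at hkeq
  have hP : ContinuousAt (fun u : ℂ => u ^ 3 * (deriv φ u + deriv ψ u) - 4) 0 := by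
    have h1 := hφ.deriv.continuousAt
    have h2 := hψ.deriv.continuousAt
    fun_prop
  have hQ : ContinuousAt (fun u : ℂ => 4 * ((1 + u ^ 2 * φ u) ^ 2 + (1 + u ^ 2 * φ u) *
      (1 + u ^ 2 * ψ u) + (1 + u ^ 2 * ψ u) ^ 2) - g2 * u ^ 4) 0 := by
    have h1 := hφ.continuousAt
    have h2 := hψ.continuousAt
    fun_prop
  have hkk : ContinuousAt (fun u : ℂ => (n : ℂ) * k u + u * deriv k u) 0 := by
    have h1 := hk.deriv.continuousAt
    have h2 := hk.continuousAt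
    fun_prop
  have hd : ∀ᶠ u in 𝓝 (0 : ℂ), u * (deriv φ u - deriv ψ u) =
      u ^ n * ((n : ℂ) * k u + u * deriv k u) := by
    have h1 : (fun u => φ u - ψ u) =ᶠ[𝓝 0] fun u => u ^ n * k u := hkeq
    have h2 := h1.deriv
    filter_upwards [h2, hφ.eventually_analyticAt, hψ.eventually_analyticAt,
      hk.eventually_analyticAt] with u h3 h4 h5 h6
    rw [deriv_fun_sub h4.differentiableAt h5.differentiableAt,
      deriv_fun_mul (differentiableAt_pow n) h6.differentiableAt, deriv_pow_field] at h3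
    rw [h3]
    rcases Nat.eq_zero_or_pos n with rfl | hn
    · simp
    · obtain ⟨m, rfl⟩ : ∃ m, n = m + 1 := ⟨n - 1, by omega⟩
      simp only [Nat.add_sub_cancel, pow_succ]
      ring
  have hmain : ∀ᶠ u in 𝓝[≠] (0 : ℂ), ((n : ℂ) * k u + u * deriv k u) *
      (u ^ 3 * (deriv φ u + deriv ψ u) - 4) =
      k u * (4 * ((1 + u ^ 2 * φ u) ^ 2 + (1 + u ^ 2 * φ u) *
      (1 + u ^ 2 * ψ u) + (1 + u ^ 2 * ψ u) ^ 2) - g2 * u ^ 4) := by
    filter_upwards [e1, e2, nhdsWithin_le_nhds hd, nhdsWithin_le_nhds hkeq, self_mem_nhdsWithin]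
      with u h1 h2 h3 h4 hu
    have hu0 : u ≠ 0 := hu
    have h5 : u * (deriv φ u - deriv ψ u) * (u ^ 3 * (deriv φ u + deriv ψ u) - 4) =
        (φ u - ψ u) * (4 * ((1 + u ^ 2 * φ u) ^ 2 + (1 + u ^ 2 * φ u) *
        (1 + u ^ 2 * ψ u) + (1 + u ^ 2 * ψ u) ^ 2) - g2 * u ^ 4) := by
      have h6 : (deriv φ u - 2 / u ^ 3) ^ 2 - (deriv ψ u - 2 / u ^ 3) ^ 2 =
          (4 * (φ u + 1 / u ^ 2) ^ 3 - g2 * (φ u + 1 / u ^ 2) - g3) -
          (4 * (ψ u + 1 / u ^ 2) ^ 3 - g2 * (ψ u + 1 / u ^ 2) - g3) := by rw [h1, h2]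
      have h7 : u ^ 4 * ((deriv φ u - 2 / u ^ 3) ^ 2 - (deriv ψ u - 2 / u ^ 3) ^ 2) =
          u ^ 4 * ((4 * (φ u + 1 / u ^ 2) ^ 3 - g2 * (φ u + 1 / u ^ 2) - g3) -
          (4 * (ψ u + 1 / u ^ 2) ^ 3 - g2 * (ψ u + 1 / u ^ 2) - g3)) := by rw [h6]
      have h8 : u ^ 4 * ((deriv φ u - 2 / u ^ 3) ^ 2 - (deriv ψ u - 2 / u ^ 3) ^ 2) =
          u * (deriv φ u - deriv ψ u) * (u ^ 3 * (deriv φ u + deriv ψ u) - 4) := by
        field_simp
        ring
      have h9 : u ^ 4 * ((4 * (φ u + 1 / u ^ 2) ^ 3 - g2 * (φ u + 1 / u ^ 2) - g3) -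
          (4 * (ψ u + 1 / u ^ 2) ^ 3 - g2 * (ψ u + 1 / u ^ 2) - g3)) =
          (φ u - ψ u) * (4 * ((1 + u ^ 2 * φ u) ^ 2 + (1 + u ^ 2 * φ u) *
          (1 + u ^ 2 * ψ u) + (1 + u ^ 2 * ψ u) ^ 2) - g2 * u ^ 4) := by
        field_simp
        ring
      rw [← h8, h7, h9]
    rw [h3, h4, mul_assoc, mul_assoc] at h5
    exact mul_left_cancel₀ (pow_ne_zero n hu0) h5
  have hl := (hkk.mul hP).tendsto.mono_left (nhdsWithin_le_nhds (s := {(0 : ℂ)}ᶜ))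
  have hr := (hk.continuousAt.mul hQ).tendsto.mono_left (nhdsWithin_le_nhds (s := {(0 : ℂ)}ᶜ))
  have hlim := tendsto_nhds_unique_of_eventuallyEq hl hr hmain
  simp only [Pi.mul_apply] at hlim
  have h1 : k 0 * ((n : ℂ) * 4 + 12) = 0 := by
    ring_nf at hlim ⊢
    linear_combination -hlim
  have h2 : ((n : ℂ) * 4 + 12) = 0 := (mul_eq_zero.1 h1).resolve_left hk0
  have h3 : ((n * 4 + 12 : ℕ) : ℂ) = 0 := by exact_mod_cast h2
  have h4 : n * 4 + 12 = 0 := by exact_mod_cast h3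
  omega

theorem lattice_stable (L : PeriodPair) (c : ℂ) (hc : c ≠ 0) (h2 : c ^ 4 * L.g₂ = L.g₂)
    (h3 : c ^ 6 * L.g₃ = L.g₃) (l : ℂ) (hl : l ∈ L.lattice) : c⁻¹ * l ∈ L.lattice := by
  by_contra hnot
  obtain ⟨φ, hφd⟩ : ∃ φ : ℂ → ℂ, φ = L.weierstrassPExcept 0 := ⟨_, rfl⟩
  have hφ : AnalyticAt ℂ φ 0 := by rw [hφd]; exact L.analyticAt_weierstrassPExcept 0
  have hφ0 : φ 0 = 0 := by rw [hφd]; exact L.weierstrassPExcept_zero 0
  have hf : ∀ u, L.weierstrassP u = φ u + 1 / u ^ 2 := by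
    intro u
    have h := L.weierstrassPExcept_add ⟨0, zero_mem _⟩ u
    simp only [sub_zero] at h
    rw [← h, hφd]
    simp
  obtain ⟨ψ, hψd⟩ : ∃ ψ : ℂ → ℂ, ψ = fun u => c ^ 2 * φ (c * u) := ⟨_, rfl⟩
  have hψ : AnalyticAt ℂ ψ 0 := by
    rw [hψd]
    have h4 : AnalyticAt ℂ (fun u : ℂ => c * u) 0 := by fun_prop
    have h5 : AnalyticAt ℂ (fun u => φ (c * u)) 0 :=
      AnalyticAt.comp' (g := φ) (by rw [mul_zero]; exact hφ) h4
    exact analyticAt_const.mul h5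
  have hψ0 : ψ 0 = 0 := by rw [hψd]; simp [hφ0]
  have hg : ∀ u, c ^ 2 * L.weierstrassP (c * u) = ψ u + 1 / u ^ 2 := by
    intro u
    rw [hf, hψd]
    field_simp
  -- the differential equations
  have hdf : ∀ᶠ u in 𝓝[≠] (0 : ℂ), u ∉ L.lattice := by
    have h4 := L.compl_lattice_sdiff_singleton_mem_nhds 0
    filter_upwards [nhdsWithin_le_nhds h4, self_mem_nhdsWithin] with u h5 h6 h7
    exact h5 ⟨h7, h6⟩
  have hcu : Tendsto (fun u : ℂ => c * u) (𝓝[≠] 0) (𝓝[≠] 0) := by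
    refine tendsto_nhdsWithin_iff.2 ⟨?_, ?_⟩
    · have : Tendsto (fun u : ℂ => c * u) (𝓝 0) (𝓝 (c * 0)) :=
        (continuous_const.mul continuous_id).tendsto 0
      rw [mul_zero] at this
      exact this.mono_left nhdsWithin_le_nhds
    · filter_upwards [self_mem_nhdsWithin] with u hu
      exact mul_ne_zero hc hu
  have hdg : ∀ᶠ u in 𝓝[≠] (0 : ℂ), c * u ∉ L.lattice := hcu.eventually hdf
  have hpole : ∀ u : ℂ, u ≠ 0 → HasDerivAt (fun w : ℂ => 1 / w ^ 2) (-2 / u ^ 3) u := by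
    intro u hu
    have h4 := (hasDerivAt_pow 2 u).inv (pow_ne_zero 2 hu)
    simp only [Nat.cast_ofNat, Nat.add_one_sub_one, pow_one] at h4
    have h5 : (fun w : ℂ => 1 / w ^ 2) = fun w : ℂ => (w ^ 2)⁻¹ := by
      funext w
      rw [one_div]
    rw [h5]
    have h6 : -2 / u ^ 3 = -(2 * u) / (u ^ 2) ^ 2 := by
      rw [div_eq_div_iff (pow_ne_zero 3 hu) (pow_ne_zero 2 (pow_ne_zero 2 hu))]
      ring
    rw [h6]
    exact h4
  have hfd : ∀ u, u ∉ L.lattice → HasDerivAt L.weierstrassP (L.derivWeierstrassP u) u := by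
    intro u hu
    have h4 := (L.analyticOnNhd_weierstrassP u hu).differentiableAt.hasDerivAt
    rwa [PeriodPair.deriv_weierstrassP] at h4
  have e1 : ∀ᶠ u in 𝓝[≠] (0 : ℂ), (deriv φ u - 2 / u ^ 3) ^ 2 =
      4 * (φ u + 1 / u ^ 2) ^ 3 - L.g₂ * (φ u + 1 / u ^ 2) - L.g₃ := by
    filter_upwards [hdf, nhdsWithin_le_nhds hφ.eventually_analyticAt, self_mem_nhdsWithin]
      with u h4 h5 h6
    have h7 : HasDerivAt L.weierstrassP (deriv φ u + -2 / u ^ 3) u := by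
      have h8 := h5.differentiableAt.hasDerivAt.add (hpole u h6)
      have h9 : L.weierstrassP = fun w => φ w + 1 / w ^ 2 := funext hf
      rw [h9]
      exact h8
    have h10 := h7.unique (hfd u h4)
    have h11 := L.derivWeierstrassP_sq u h4
    rw [← hf u, ← h11, ← h10]
    ring
  have e2 : ∀ᶠ u in 𝓝[≠] (0 : ℂ), (deriv ψ u - 2 / u ^ 3) ^ 2 =
      4 * (ψ u + 1 / u ^ 2) ^ 3 - L.g₂ * (ψ u + 1 / u ^ 2) - L.g₃ := by
    filter_upwards [hdg, nhdsWithin_le_nhds hψ.eventually_analyticAt, self_mem_nhdsWithin]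
      with u h4 h5 h6
    have h7 : HasDerivAt (fun w => c ^ 2 * L.weierstrassP (c * w)) (deriv ψ u + -2 / u ^ 3) u := by
      have h8 := h5.differentiableAt.hasDerivAt.add (hpole u h6)
      have h9 : (fun w => c ^ 2 * L.weierstrassP (c * w)) = fun w => ψ w + 1 / w ^ 2 := funext hg
      rw [h9]
      exact h8
    have h8 : HasDerivAt (fun w => c ^ 2 * L.weierstrassP (c * w))
        (c ^ 2 * (L.derivWeierstrassP (c * u) * c)) u := by
      have h9 : HasDerivAt (fun w : ℂ => c * w) c u := by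
        simpa using (hasDerivAt_id u).const_mul c
      exact ((hfd (c * u) h4).comp u h9).const_mul (c ^ 2)
    have h10 := h7.unique h8
    have h11 := L.derivWeierstrassP_sq (c * u) h4
    have h12 : (deriv ψ u - 2 / u ^ 3) ^ 2 = c ^ 6 * L.derivWeierstrassP (c * u) ^ 2 := by
      have : deriv ψ u - 2 / u ^ 3 = c ^ 2 * (L.derivWeierstrassP (c * u) * c) := by
        rw [← h10]
        ring
      rw [this]
      ring
    rw [h12, h11, ← hg u]
    linear_combination (c ^ 2 * L.weierstrassP (c * u)) * (-h2) - h3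
  have hev := Qg_unique φ ψ L.g₂ L.g₃ hφ hψ (by rw [hφ0, hψ0]) e1 e2
  -- meromorphic continuation
  have hmf : Meromorphic L.weierstrassP := L.meromorphic_weierstrassP
  have hmg : Meromorphic (fun u => c ^ 2 * L.weierstrassP (c * u)) := by
    intro u
    have h4 : AnalyticAt ℂ (fun w : ℂ => c * w) u := by fun_prop
    exact (MeromorphicAt.const (c ^ 2) u).mul ((hmf (c * u)).comp_analyticAt h4)
  have hmh : Meromorphic (fun u => L.weierstrassP u - c ^ 2 * L.weierstrassP (c * u)) :=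
    fun u => (hmf u).sub (hmg u)
  have htop : meromorphicOrderAt (fun u => L.weierstrassP u - c ^ 2 * L.weierstrassP (c * u)) 0 =
      ⊤ := by
    rw [meromorphicOrderAt_eq_top_iff]
    filter_upwards [nhdsWithin_le_nhds hev] with u hu
    rw [hf u, hg u]
    linear_combination hu
  have hall : meromorphicOrderAt (fun u => L.weierstrassP u - c ^ 2 * L.weierstrassP (c * u))
      (c⁻¹ * l) = ⊤ := by
    by_contra h4
    exact hmh.exists_meromorphicOrderAt_ne_top_iff_forall.1 ⟨_, h4⟩ 0 htop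
  rw [meromorphicOrderAt_eq_top_iff] at hall
  have hcongr : L.weierstrassP =ᶠ[𝓝[≠] (c⁻¹ * l)] fun u => c ^ 2 * L.weierstrassP (c * u) := by
    filter_upwards [hall] with u hu
    linear_combination hu
  have ho := meromorphicOrderAt_congr hcongr
  have ho1 : 0 ≤ meromorphicOrderAt L.weierstrassP (c⁻¹ * l) :=
    (L.analyticOnNhd_weierstrassP _ hnot).meromorphicOrderAt_nonneg
  have ho2 : meromorphicOrderAt (fun u => c ^ 2 * L.weierstrassP (c * u)) (c⁻¹ * l) = -2 := by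
    have h4 : AnalyticAt ℂ (fun w : ℂ => c * w) (c⁻¹ * l) := by fun_prop
    have h5 : deriv (fun w : ℂ => c * w) (c⁻¹ * l) ≠ 0 := by
      have : HasDerivAt (fun w : ℂ => c * w) c (c⁻¹ * l) := by
        simpa using (hasDerivAt_id (c⁻¹ * l)).const_mul c
      rw [this.deriv]
      exact hc
    have h6 := meromorphicOrderAt_comp_of_deriv_ne_zero (f := L.weierstrassP) h4 h5
    have h7 : c * (c⁻¹ * l) = l := by field_simp
    rw [h7, L.order_weierstrassP l hl] at h6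
    have h8 := meromorphicOrderAt_mul_of_ne_zero (f := fun u => L.weierstrassP (c * u))
      (g := fun _ => c ^ 2) (x := c⁻¹ * l) analyticAt_const (pow_ne_zero 2 hc)
    rw [← h6]
    exact h8
  rw [ho, ho2] at ho1
  exact absurd ho1 (by decide)

theorem E4_E6_ne (c : CData) (τ : ℍ) (hτ : (τ : ℂ) = c.z) : E₄ τ ≠ 0 ∧ E₆ τ ≠ 0 := by
  have hpi : (Real.pi : ℂ) ≠ 0 := by exact_mod_cast Real.pi_ne_zero
  have h1mem : (1 : ℂ) ∈ (H32.T3.LL τ).lattice := (H32.T3.LL τ).ω₂_mem_lattice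
  have hlat : ∀ x : ℂ, x ∈ (H32.T3.LL τ).lattice → ∃ m n : ℤ, x = m * c.z + n := by
    intro x hx
    rw [PeriodPair.mem_lattice] at hx
    obtain ⟨m, n, h⟩ := hx
    refine ⟨m, n, ?_⟩
    rw [← h, ← hτ]
    change (m : ℂ) * (τ : ℂ) + (n : ℂ) * 1 = _
    ring
  constructor
  · intro h0
    obtain ⟨s, hs⟩ := IsAlgClosed.exists_pow_nat_eq (-3 : ℂ) (n := 2) (by norm_num)
    obtain ⟨a, ha⟩ : ∃ a : ℂ, a = (-1 + s) / 2 := ⟨_, rfl⟩
    have ha1 : a ^ 2 + a + 1 = 0 := by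
      rw [ha]
      linear_combination hs / 4
    have ha0 : a ≠ 0 := by
      rintro rfl
      norm_num at ha1
    have ha3 : a ^ 3 = 1 := by linear_combination (a - 1) * ha1
    have hg2 : (H32.T3.LL τ).g₂ = 0 := by rw [H32.T3.g2_eq, h0, mul_zero]
    have hst := lattice_stable (H32.T3.LL τ) a ha0 (by rw [hg2, mul_zero])
      (by
        have : a ^ 6 = 1 := by
          calc a ^ 6 = (a ^ 3) ^ 2 := by ring
            _ = 1 := by rw [ha3, one_pow]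
        rw [this, one_mul]) 1 h1mem
    rw [mul_one] at hst
    obtain ⟨m, n, hmn⟩ := hlat _ hst
    have hinv : a⁻¹ = -1 - a := by
      field_simp
      linear_combination ha1
    rw [hinv] at hmn
    have hx : (-1 - a) ^ 2 + (-1 - a) + 1 = 0 := by linear_combination ha1
    rw [hmn] at hx
    have h4 := c.hirz (n ^ 2 + n + 1) (2 * m * n + m) (m ^ 2) (by
      push_cast
      linear_combination hx)
    have h5 := h4.1
    nlinarith [sq_nonneg (2 * n + 1)]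
  · intro h0
    have hg3 : (H32.T3.LL τ).g₃ = 0 := by rw [H32.T3.g3_eq, h0, mul_zero]
    have hst := lattice_stable (H32.T3.LL τ) Complex.I Complex.I_ne_zero
      (by rw [Complex.I_pow_four, one_mul]) (by rw [hg3, mul_zero]) 1 h1mem
    rw [mul_one, Complex.inv_I] at hst
    obtain ⟨m, n, hmn⟩ := hlat _ hst
    have hx : (-Complex.I) ^ 2 + 1 = 0 := by
      rw [neg_sq, Complex.I_sq]
      norm_num
    rw [hmn] at hx
    have h4 := c.hirz (n ^ 2 + 1) (2 * m * n) (m ^ 2) (by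
      push_cast
      linear_combination hx)
    have h5 := h4.1
    nlinarith [sq_nonneg n]

end CZ

end S_H32_CZ_Qg

section S_H32_AZ_Al

set_option autoImplicit false

open EisensteinSeries ModularForm UpperHalfPlane

namespace AZ

open CZ

theorem E_ne (z : ℂ)
    (hcm : ¬ ∃ a b c : ℤ, (a ≠ 0 ∨ b ≠ 0 ∨ c ≠ 0) ∧ (a : ℂ) * z ^ 2 + b * z + c = 0)
    (τ : ℍ) (hτ : (τ : ℂ) = z) : E₄ τ ≠ 0 ∧ E₆ τ ≠ 0 := by
  have hpi : (Real.pi : ℂ) ≠ 0 := by exact_mod_cast Real.pi_ne_zero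
  have h1mem : (1 : ℂ) ∈ (H32.T3.LL τ).lattice := (H32.T3.LL τ).ω₂_mem_lattice
  have hlat : ∀ x : ℂ, x ∈ (H32.T3.LL τ).lattice → ∃ m n : ℤ, x = m * z + n := by
    intro x hx
    rw [PeriodPair.mem_lattice] at hx
    obtain ⟨m, n, h⟩ := hx
    refine ⟨m, n, ?_⟩
    rw [← h, ← hτ]
    change (m : ℂ) * (τ : ℂ) + (n : ℂ) * 1 = _
    ring
  constructor
  · intro h0
    obtain ⟨s, hs⟩ := IsAlgClosed.exists_pow_nat_eq (-3 : ℂ) (n := 2) (by norm_num)
    obtain ⟨a, ha⟩ : ∃ a : ℂ, a = (-1 + s) / 2 := ⟨_, rfl⟩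
    have ha1 : a ^ 2 + a + 1 = 0 := by
      rw [ha]
      linear_combination hs / 4
    have ha0 : a ≠ 0 := by
      rintro rfl
      norm_num at ha1
    have ha3 : a ^ 3 = 1 := by linear_combination (a - 1) * ha1
    have hg2 : (H32.T3.LL τ).g₂ = 0 := by rw [H32.T3.g2_eq, h0, mul_zero]
    have hst := lattice_stable (H32.T3.LL τ) a ha0 (by rw [hg2, mul_zero])
      (by
        have : a ^ 6 = 1 := by
          calc a ^ 6 = (a ^ 3) ^ 2 := by ring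
            _ = 1 := by rw [ha3, one_pow]
        rw [this, one_mul]) 1 h1mem
    rw [mul_one] at hst
    obtain ⟨m, n, hmn⟩ := hlat _ hst
    have hinv : a⁻¹ = -1 - a := by
      field_simp
      linear_combination ha1
    rw [hinv] at hmn
    have hx : (-1 - a) ^ 2 + (-1 - a) + 1 = 0 := by linear_combination ha1
    rw [hmn] at hx
    refine hcm ⟨m ^ 2, 2 * m * n + m, n ^ 2 + n + 1, Or.inr (Or.inr ?_), ?_⟩
    · intro h5
      nlinarith [sq_nonneg (2 * n + 1)]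
    · push_cast
      linear_combination hx
  · intro h0
    have hg3 : (H32.T3.LL τ).g₃ = 0 := by rw [H32.T3.g3_eq, h0, mul_zero]
    have hst := lattice_stable (H32.T3.LL τ) Complex.I Complex.I_ne_zero
      (by rw [Complex.I_pow_four, one_mul]) (by rw [hg3, mul_zero]) 1 h1mem
    rw [mul_one, Complex.inv_I] at hst
    obtain ⟨m, n, hmn⟩ := hlat _ hst
    have hx : (-Complex.I) ^ 2 + 1 = 0 := by
      rw [neg_sq, Complex.I_sq]
      norm_num
    rw [hmn] at hx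
    refine hcm ⟨m ^ 2, 2 * m * n, n ^ 2 + 1, Or.inr (Or.inr ?_), ?_⟩
    · intro h5
      nlinarith [sq_nonneg n]
    · push_cast
      linear_combination hx

theorem cstV_alg {S ι : Type} [Fintype S] [DecidableEq S] [Fintype ι] [DecidableEq ι] (K : KD S ι)
    (τ : ℍ) (hτ : (τ : ℂ) = K.z) (he4 : E₄ τ ≠ 0) (he6 : E₆ τ ≠ 0)
    (E4 E6 Jf : ℂ → ℂ)
    (h4 : ∀ τ : ℂ, E4 τ = 1 + 240 * ∑' m : ℕ, ((ArithmeticFunction.sigma 3 (m + 1) : ℕ) : ℂ) *
          Complex.exp (2 * (Real.pi : ℂ) * Complex.I * ((m : ℂ) + 1) * τ))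
    (h6 : ∀ τ : ℂ, E6 τ = 1 - 504 * ∑' m : ℕ, ((ArithmeticFunction.sigma 5 (m + 1) : ℕ) : ℂ) *
          Complex.exp (2 * (Real.pi : ℂ) * Complex.I * ((m : ℂ) + 1) * τ))
    (hJ : ∀ τ : ℂ, Jf τ = 1728 * E4 τ ^ 3 / (E4 τ ^ 3 - E6 τ ^ 2)) (lam ep : ℂ)
    (hlam : 2 * Real.pi * Complex.I / lam ^ 2 = 9 * Complex.I * (E₄ τ / (Real.pi * E₆ τ)))
    (hep : 4 * ep ^ 3 - 2 * (27 / 2 * (E₄ τ ^ 3 / E₆ τ ^ 2)) * ep -
        2 * (27 / 2 * (E₄ τ ^ 3 / E₆ τ ^ 2)) = 0) (v : Vs S ι) :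
    IsAlgebraic (IntermediateField.adjoin ℚ
      ({Jf K.z, deriv Jf K.z, deriv (deriv Jf) K.z} : Set ℂ))
      (cstV K lam (27 / 2 * (E₄ τ ^ 3 / E₆ τ ^ 2)) (3 / 2 * (E2 τ * E₄ τ / E₆ τ)) ep v) := by
  obtain ⟨v0, v1, v2⟩ := H32.J_values h4 h6 hJ K.hz
  have hof : ofComplex K.z = τ := by rw [← hτ]; exact ofComplex_apply τ
  have ha : H32.e4 K.z = E₄ τ := by rw [H32.e4, hof]
  have hb : H32.e6 K.z = E₆ τ := by rw [H32.e6, hof]
  have hg : H32.e2 K.z = E2 τ := by rw [H32.e2, hof]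
  have hΔ : E₄ τ ^ 3 - E₆ τ ^ 2 ≠ 0 := by
    have := H32.disc_ne (w := K.z)
    rwa [ha, hb] at this
  rw [ha, hb] at v0
  rw [H32.J1, ha, hb] at v1
  rw [H32.J2, ha, hb, hg] at v2
  generalize hFLD : IntermediateField.adjoin ℚ
      ({Jf K.z, deriv Jf K.z, deriv (deriv Jf) K.z} : Set ℂ) = FLD
  have m0 : IsAlgebraic FLD (Jf K.z) := by
    have : Jf K.z ∈ FLD := by
      rw [← hFLD]; exact IntermediateField.subset_adjoin _ _ (by simp)
    exact isAlgebraic_algebraMap (⟨_, this⟩ : FLD)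
  have m1 : IsAlgebraic FLD (deriv Jf K.z) := by
    have : deriv Jf K.z ∈ FLD := by
      rw [← hFLD]; exact IntermediateField.subset_adjoin _ _ (by simp)
    exact isAlgebraic_algebraMap (⟨_, this⟩ : FLD)
  have m2 : IsAlgebraic FLD (deriv (deriv Jf) K.z) := by
    have : deriv (deriv Jf) K.z ∈ FLD := by
      rw [← hFLD]; exact IntermediateField.subset_adjoin _ _ (by simp)
    exact isAlgebraic_algebraMap (⟨_, this⟩ : FLD)
  obtain ⟨M, hM⟩ : ∃ M : IntermediateField FLD ℂ, ∀ x, x ∈ M ↔ IsAlgebraic FLD x :=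
    ⟨algebraicClosure FLD ℂ, fun x => mem_algebraicClosure_iff⟩
  rw [← hM] at m0 m1 m2
  have nat_mem : ∀ n : ℕ, (n : ℂ) ∈ M := fun n => natCast_mem M n
  have mI : Complex.I ∈ M := by
    rw [hM]
    refine IsAlgebraic.of_pow (n := 2) (by norm_num) ?_
    rw [Complex.I_sq, ← hM]
    exact neg_mem (one_mem M)
  have hπ : (Real.pi : ℂ) ≠ 0 := by exact_mod_cast Real.pi_ne_zero
  have hI := Complex.I_ne_zero
  have i1728 : (1728 : ℂ) ∈ M := by exact_mod_cast nat_mem 1728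
  have i2 : (2 : ℂ) ∈ M := by exact_mod_cast nat_mem 2
  have i3 : (3 : ℂ) ∈ M := by exact_mod_cast nat_mem 3
  have i6 : (6 : ℂ) ∈ M := by exact_mod_cast nat_mem 6
  have i9 : (9 : ℂ) ∈ M := by exact_mod_cast nat_mem 9
  have i27 : (27 : ℂ) ∈ M := by exact_mod_cast nat_mem 27
  generalize E₄ τ = a at *
  generalize E₆ τ = b at *
  generalize E2 τ = g at *
  have mt : a ^ 3 / b ^ 2 ∈ M := by
    have e : a ^ 3 / b ^ 2 = Jf K.z / (Jf K.z - 1728) := by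
      have e1 : Jf K.z - 1728 = 1728 * b ^ 2 / (a ^ 3 - b ^ 2) := by
        rw [v0]; field_simp; ring
      rw [e1, v0]
      field_simp
    rw [e]
    exact div_mem m0 (sub_mem m0 i1728)
  have mu : a / (Real.pi * b) ∈ M := by
    have e : a / (Real.pi * b) = -2 * Complex.I * (Jf K.z / deriv Jf K.z) := by
      rw [v0, v1]
      field_simp
    rw [e]
    exact mul_mem (mul_mem (neg_mem i2) mI) (div_mem m0 m1)
  have mk : g * a / b ∈ M := by
    have e : g * a / b = 6 * ((deriv (deriv Jf) K.z / deriv Jf K.z) * (a / (Real.pi * b)) /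
        (2 * Complex.I) + 2 / 3 + (a ^ 3 / b ^ 2) / 2) := by
      rw [v1, v2]
      field_simp
      ring
    rw [e]
    exact mul_mem i6 (add_mem (add_mem (div_mem (mul_mem (div_mem m2 m1) mu) (mul_mem i2 mI))
      (div_mem i2 i3)) (div_mem mt i2))
  have mh : 27 / 2 * (a ^ 3 / b ^ 2) ∈ M := mul_mem (div_mem i27 i2) mt
  have mep : ep ∈ M := by
    rw [hM]
    exact Qf_ep ((hM _).1 mh) hep
  have inj : Function.Injective (algebraMap ℚ FLD) := (algebraMap ℚ FLD).injective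
  have mz : K.z ∈ M := (hM _).2 (K.alg_z.extendScalars inj)
  have mze : ∀ s, K.ze s ∈ M := fun s => (hM _).2 ((K.alg_ze s).extendScalars inj)
  have mnu : ∀ j s, K.nu j s ∈ M := fun j s => (hM _).2 ((K.alg_nu j s).extendScalars inj)
  have mnus : ∀ j s, K.nus j s ∈ M := fun j s => (hM _).2 ((K.alg_nus j s).extendScalars inj)
  rw [← hM]
  rcases v with i | p | p
  · fin_cases i
    · exact mep
    · exact zero_mem M
    · exact zero_mem M
    · exact mh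
    · exact mul_mem (div_mem i3 i2) mk
    · show 2 * Real.pi * Complex.I / lam ^ 2 ∈ M
      rw [hlam]
      exact mul_mem (mul_mem i9 mI) mu
  · exact mnus p.1 p.2
  · exact mul_mem (sub_mem mz (mze p.2)) (mnu p.1 p.2)

end AZ

end S_H32_AZ_Al

section S_H32_CZ_Qe

set_option autoImplicit false

open EisensteinSeries ModularForm UpperHalfPlane

namespace CZ

open H32.T3 Filter Topology

theorem Qe_im0 (τ : ℍ) : |(0 : ℂ).im| < τ.im / 2 := by
  have := τ.im_pos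
  simpa using this

theorem Qe_ee0 : ee 0 = 1 := by simp [ee]

theorem Qe_th1 (τ : ℍ) : th (pp τ) 1 ≠ 0 := by
  have h := th_ne_zero (norm_pp_lt τ) (ee_mem_Reg (Qe_im0 τ))
  rwa [Qe_ee0] at h

theorem Qe_ee_one (s : ℂ) : ee (s + 1) = ee s := by
  unfold ee
  have e : 2 * (Real.pi : ℂ) * Complex.I * (s + 1) = 2 * Real.pi * Complex.I * s + 2 * Real.pi * Complex.I := by
    ring
  rw [e, Complex.exp_add, Complex.exp_two_pi_mul_I, mul_one]

theorem Qe_ee_tau (τ : ℍ) (s : ℂ) : ee (s + τ) = pp τ ^ 2 * ee s := by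
  unfold ee pp
  rw [← Complex.exp_nat_mul, ← Complex.exp_add]
  congr 1
  push_cast
  ring

theorem Qe_inv (τ : ℍ) (s : ℂ) :
    (pp τ * ee s)⁻¹ = Complex.exp (-(Real.pi * Complex.I * τ) - 2 * Real.pi * Complex.I * s) := by
  unfold ee pp
  rw [← Complex.exp_add, ← Complex.exp_neg]
  congr 1
  ring

theorem Qe_hasDerivAt {f : ℂ → ℂ} (hf : DifferentiableOn ℂ f {0}ᶜ) (s : ℂ) :
    HasDerivAt (fun s => f (ee s)) (Dw f (ee s)) s := by
  have h1 : DifferentiableAt ℂ f (ee s) :=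
    hf.differentiableAt (isOpen_U.mem_nhds (mem_U.2 (ee_ne s)))
  have h2 := h1.hasDerivAt.comp s (hasDerivAt_ee s)
  refine h2.congr_deriv ?_
  unfold Dw
  ring

theorem Qe_nc (τ : ℍ) {lam : ℂ} (hlam0 : lam ≠ 0) :
    ¬ ∃ k : ℂ, ∀ᶠ s in 𝓝 (0 : ℂ), P2 lam (G2 τ) (pp τ) (ee s) / th (pp τ) 1 ^ 2 =
      k * (th (pp τ) (ee s) / th (pp τ) 1) ^ 2 := by
  rintro ⟨k, hk⟩
  have hθ := Qe_th1 τ
  have him : ∀ᶠ s in 𝓝 (0 : ℂ), |s.im| < τ.im / 2 := by
    have hc : Continuous fun s : ℂ => |s.im| := Complex.continuous_im.abs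
    exact (isOpen_lt hc continuous_const).mem_nhds (Qe_im0 τ)
  have h1 : ∀ᶠ s in 𝓝 (0 : ℂ), (LL τ).weierstrassP (s + τ / 2) = lam ^ 2 * k := by
    filter_upwards [hk, him] with s h1 h2
    have h3 := th_ne_zero (norm_pp_lt τ) (ee_mem_Reg h2)
    rw [P2_wp h2] at h1
    generalize (LL τ).weierstrassP (s + τ / 2) = W at h1 ⊢
    field_simp at h1
    exact h1
  have htend : Tendsto (fun u : ℂ => u - (τ : ℂ) / 2) (𝓝 ((τ : ℂ) / 2)) (𝓝 0) := by
    have : Tendsto (fun u : ℂ => u - (τ : ℂ) / 2) (𝓝 ((τ : ℂ) / 2)) (𝓝 ((τ : ℂ) / 2 - (τ : ℂ) / 2)) :=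
      (continuous_id.sub continuous_const).tendsto _
    rwa [sub_self] at this
  have h2 : (LL τ).weierstrassP =ᶠ[𝓝 ((τ : ℂ) / 2)] fun _ => lam ^ 2 * k := by
    filter_upwards [htend.eventually h1] with u hu
    rwa [sub_add_cancel] at hu
  have h3 : (LL τ).derivWeierstrassP =ᶠ[𝓝 ((τ : ℂ) / 2)] 0 := by
    have h4 := h2.deriv
    rw [PeriodPair.deriv_weierstrassP] at h4
    refine h4.trans ?_
    filter_upwards with u
    simp
  have han : AnalyticOnNhd ℂ (LL τ).derivWeierstrassP (Strip τ) := fun z hz ↦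
    (LL τ).analyticOnNhd_derivWeierstrassP z (Strip_lattice hz)
  have hmem : (τ : ℂ) / 2 ∈ Strip τ := by
    have h := half_mem (Qe_im0 τ)
    rwa [zero_add] at h
  have h5 := han.eqOn_zero_of_preconnected_of_eventuallyEq_zero (isPreconnected_Strip τ) hmem h3
  exact wp_not_const τ fun z hz => h5 hz

theorem exists_base (τ : ℍ) (h4 : E₄ τ ≠ 0) (h6 : E₆ τ ≠ 0) :
    ∃ (b : BaseFn (τ : ℂ)) (lam ep : ℂ) (ε : ℝ) (X X1 Y : ℂ → ℂ),
      BaseSys b lam (27 / 2 * (E₄ τ ^ 3 / E₆ τ ^ 2)) (3 / 2 * (E2 τ * E₄ τ / E₆ τ)) ep ε X X1 Y ∧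
      2 * Real.pi * Complex.I / lam ^ 2 = 9 * Complex.I * (E₄ τ / (Real.pi * E₆ τ)) ∧
      4 * ep ^ 3 - 2 * (27 / 2 * (E₄ τ ^ 3 / E₆ τ ^ 2)) * ep -
        2 * (27 / 2 * (E₄ τ ^ 3 / E₆ τ ^ 2)) = 0 := by
  have hpi : (Real.pi : ℂ) ≠ 0 := by exact_mod_cast Real.pi_ne_zero
  have hg2 := g2_eq τ
  have hg3 := g3_eq τ
  have hg20 : (LL τ).g₂ ≠ 0 := by
    rw [hg2]
    exact mul_ne_zero (div_ne_zero (mul_ne_zero (by norm_num) (pow_ne_zero _ hpi)) (by norm_num)) h4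
  have hg30 : (LL τ).g₃ ≠ 0 := by
    rw [hg3]
    exact mul_ne_zero (div_ne_zero (mul_ne_zero (by norm_num) (pow_ne_zero _ hpi)) (by norm_num)) h6
  obtain ⟨lam, hlam⟩ := IsAlgClosed.exists_pow_nat_eq ((LL τ).g₃ / (LL τ).g₂) (n := 2) (by norm_num)
  have hlam0 : lam ≠ 0 := by
    rintro rfl
    rw [zero_pow (by norm_num)] at hlam
    exact div_ne_zero hg30 hg20 hlam.symm
  obtain ⟨X, X1, Y, hsys, hX10, hY0, hcub⟩ := system h4 h6 hlam
  have hp := norm_pp_lt τ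
  have hp0 := pp_ne τ
  have hθ := Qe_th1 τ
  have hdA : ∀ s, HasDerivAt (fun s => th (pp τ) (ee s) / th (pp τ) 1) (th1 (pp τ) (ee s) / th (pp τ) 1) s :=
    fun s => (Qe_hasDerivAt (diff_th hp) s).div_const _
  let b : BaseFn (τ : ℂ) :=
    { A := fun s => th (pp τ) (ee s) / th (pp τ) 1
      B := fun s => P2 lam (G2 τ) (pp τ) (ee s) / th (pp τ) 1 ^ 2
      mu := lam⁻¹
      hmu := inv_ne_zero hlam0
      dA := fun s => (hdA s).differentiableAt
      dB := fun s => ((Qe_hasDerivAt (diff_P2 hp lam (G2 τ)) s).div_const _).differentiableAt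
      A0 := by
        show th (pp τ) (ee 0) / th (pp τ) 1 = 1
        rw [Qe_ee0]
        exact div_self hθ
      A1 := fun s => by
        show th (pp τ) (ee (s + 1)) / th (pp τ) 1 = th (pp τ) (ee s) / th (pp τ) 1
        rw [Qe_ee_one]
      Az := fun s => by
        show th (pp τ) (ee (s + τ)) / th (pp τ) 1 = _
        rw [Qe_ee_tau, th_q hp hp0 (ee_ne s), Qe_inv]
        ring
      B1 := fun s => by
        show P2 lam (G2 τ) (pp τ) (ee (s + 1)) / th (pp τ) 1 ^ 2 = _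
        rw [Qe_ee_one]
      Bz := fun s => by
        show P2 lam (G2 τ) (pp τ) (ee (s + τ)) / th (pp τ) 1 ^ 2 = _
        rw [Qe_ee_tau, P2_q hp hp0 lam (G2 τ) (ee_ne s), Qe_inv, neg_sq, ← Complex.exp_nat_mul]
        push_cast
        ring
      nc := Qe_nc τ hlam0 }
  have him : ∀ s : ℂ, ‖s‖ < τ.im / 2 → |s.im| < τ.im / 2 := fun s hs =>
    (Complex.abs_im_le_norm s).trans_lt hs
  refine ⟨b, lam, X 0, τ.im / 2, X, X1, Y, ?_, ?_, hcub⟩
  · refine ⟨half_pos τ.im_pos, hlam0, rfl, ?_, ?_, fun s hs => (hsys s (him s hs)).2.2.1,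
      fun s hs => (hsys s (him s hs)).2.2.2.1, fun s hs => (hsys s (him s hs)).2.2.2.2, rfl, hX10, hY0⟩
    · intro s hs
      show P2 lam (G2 τ) (pp τ) (ee s) / th (pp τ) 1 ^ 2 = (th (pp τ) (ee s) / th (pp τ) 1) ^ 2 * X s
      rw [(hsys s (him s hs)).1]
      ring
    · intro s hs
      show lam⁻¹ * deriv (fun s => th (pp τ) (ee s) / th (pp τ) 1) s = (th (pp τ) (ee s) / th (pp τ) 1) * Y s
      rw [(hdA s).deriv]
      have h1 := (hsys s (him s hs)).2.1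
      unfold P1 at h1
      have h2 : lam⁻¹ * (th1 (pp τ) (ee s) / th (pp τ) 1) = (lam⁻¹ * th1 (pp τ) (ee s)) / th (pp τ) 1 := by ring
      rw [h2, h1]
      ring
  · rw [hlam, hg2, hg3]
    field_simp
    ring

end CZ

end S_H32_CZ_Qe
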