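import Mathlib
import Pool.Agent.H32.AKM.P05
import Pool.Agent.H32.AKM.P08

/-! Modular Schanuel with derivatives for points algebraic over a field with good approximations, part 13: this file joins several modules to save build time. -/

section S_H32_CZ_Ck

set_option autoImplicit false

namespace CZ

open MvPolynomial
open H32.T3 (nrm)

theorem Ck_det {Λ : Type} [Fintype Λ] [DecidableEq Λ] (A : Matrix Λ Λ ℂ) (T : ℝ)
    (hT : ∀ i j, ‖A i j‖ ≤ T) :
    ‖A.det‖ ≤ (Fintype.card Λ : ℝ) ^ Fintype.card Λ * T ^ Fintype.card Λ := by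
  rw [Matrix.det_apply]
  refine (norm_sum_le _ _).trans ?_
  have h1 : ∀ σ ∈ (Finset.univ : Finset (Equiv.Perm Λ)),
      ‖Equiv.Perm.sign σ • ∏ i, A (σ i) i‖ ≤ T ^ Fintype.card Λ := by
    intro σ _
    have h2 : ‖Equiv.Perm.sign σ • ∏ i, A (σ i) i‖ = ‖∏ i, A (σ i) i‖ := by
      rcases Int.units_eq_one_or (Equiv.Perm.sign σ) with h | h
      · rw [h, one_smul]
      · rw [h, Units.neg_smul, one_smul, norm_neg]
    rw [h2, norm_prod]
    refine (Finset.prod_le_prod (fun i _ => norm_nonneg _) fun i _ => hT (σ i) i).trans ?_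
    rw [Finset.prod_const, Finset.card_univ]
  refine (Finset.sum_le_sum h1).trans ?_
  rw [Finset.sum_const, Finset.card_univ, Fintype.card_perm, nsmul_eq_mul]
  by_cases h0 : Fintype.card Λ = 0
  · rw [h0]
    simp
  have hne : Nonempty Λ := Fintype.card_pos_iff.1 (Nat.pos_of_ne_zero h0)
  obtain ⟨l⟩ := hne
  have hT0 : 0 ≤ T := (norm_nonneg _).trans (hT l l)
  refine mul_le_mul_of_nonneg_right ?_ (pow_nonneg hT0 _)
  exact_mod_cast Nat.factorial_le_pow (Fintype.card Λ)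

theorem Ck_core {k : ℕ} (P : Fin k → ℂ) (B X G δ : ℝ) (M N : ℕ) (hB1 : 1 ≤ B)
    (hPB : ∀ i, ‖P i‖ + 1 ≤ B) (hX : 4 * (M : ℝ) + 2 * N + N * Real.log B + 1 ≤ X)
    (Λ : Type) [Fintype Λ] [DecidableEq Λ] (R : Type)
    (W : R → Λ → MvPolynomial (Fin k) ℤ) (hL : 0 < Fintype.card Λ)
    (hLM : Real.log (Fintype.card Λ) ≤ M)
    (hW : ∀ s l, (W s l).totalDegree ≤ N ∧ nrm (W s l) ≤ Real.exp N)
    (V : Submodule ℂ (Λ → ℂ)) (hV : Fintype.card Λ ≤ 2 * Module.finrank ℂ V)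
    (hVc : ∀ c ∈ V, (∀ l, ‖c l‖ ≤ 1) → ∀ s, ‖∑ l, c l * aeval P (W s l)‖ ≤ Real.exp (-G))
    (Q : Fin k → ℂ) (hδ : 0 ≤ δ) (hQ : ∀ i, ‖Q i - P i‖ ≤ Real.exp (-δ)) (J : Λ → R)
    (hdet : (Matrix.of fun i l ↦ aeval Q (W (J i) l)).det ≠ 0) :
    (Fintype.card Λ : ℝ) / 2 * min G δ - 2 * Fintype.card Λ * X ≤
      -Real.log ‖(Matrix.of fun i l ↦ aeval Q (W (J i) l)).det‖ := by
  obtain ⟨L, hLdef⟩ : ∃ L, L = Fintype.card Λ := ⟨_, rfl⟩
  rw [← hLdef] at hL hLM hV ⊢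
  set A : Matrix Λ Λ ℂ := Matrix.of fun i l ↦ aeval Q (W (J i) l) with hA
  have hL0 : (0 : ℝ) < L := by exact_mod_cast hL
  have hL1 : (1 : ℝ) ≤ L := by exact_mod_cast hL
  have hlogL : 0 ≤ Real.log L := Real.log_nonneg hL1
  have hM0 : (0 : ℝ) ≤ M := Nat.cast_nonneg M
  have hN0 : (0 : ℝ) ≤ N := Nat.cast_nonneg N
  have hB0 : 0 < B := by linarith
  have hlB : 0 ≤ Real.log B := Real.log_nonneg hB1
  have hNB : 0 ≤ N * Real.log B := mul_nonneg hN0 hlB
  have hBN : (1 : ℝ) ≤ B ^ N := one_le_pow₀ hB1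
  have hexpN : (1 : ℝ) ≤ Real.exp N := Real.one_le_exp hN0
  have hPB' : ∀ i, ‖P i‖ ≤ B := fun i => by linarith [hPB i]
  have hQB : ∀ i, ‖Q i‖ ≤ B := by
    intro i
    have h1 : ‖Q i‖ ≤ ‖Q i - P i‖ + ‖P i‖ := by
      have := norm_add_le (Q i - P i) (P i)
      rwa [sub_add_cancel] at this
    have h2 : Real.exp (-δ) ≤ 1 := Real.exp_le_one_iff.2 (by linarith)
    linarith [hQ i, hPB i]
  set T : ℝ := Real.exp N * B ^ N with hT
  have hT1 : 1 ≤ T := by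
    rw [hT]
    nlinarith
  have hT0 : 0 < T := by linarith
  have hlogT : Real.log T = N + N * Real.log B := by
    rw [hT, Real.log_mul (Real.exp_pos _).ne' (by positivity), Real.log_exp, Real.log_pow]
  have hAT : ∀ i j, ‖A i j‖ ≤ T := by
    intro i j
    have h1 := aeval_le (W (J i) j) N (hW _ _).1 Q B hB1 hQB
    refine h1.trans ?_
    exact mul_le_mul_of_nonneg_right (hW _ _).2 (by positivity)
  have hdet0 : 0 < ‖A.det‖ := norm_pos_iff.2 hdet
  -- the bound on `V`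
  set ε : ℝ := Real.exp (-G) + L * (Real.exp N * (N * B ^ N * Real.exp (-δ))) with hε
  have hε0 : 0 < ε := by
    have h1 : 0 ≤ L * (Real.exp N * (N * B ^ N * Real.exp (-δ))) := by positivity
    have h2 := Real.exp_pos (-G)
    linarith
  have hVA : ∀ c ∈ V, (∀ l, ‖c l‖ ≤ 1) → ∀ i, ‖∑ l, c l * A i l‖ ≤ ε := by
    intro c hc hc1 i
    have h1 : ∑ l, c l * A i l = ∑ l, c l * aeval P (W (J i) l) +
        ∑ l, c l * (aeval Q (W (J i) l) - aeval P (W (J i) l)) := by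
      rw [← Finset.sum_add_distrib]
      refine Finset.sum_congr rfl fun l _ => ?_
      rw [hA, Matrix.of_apply]
      ring
    rw [h1]
    refine (norm_add_le _ _).trans (add_le_add (hVc c hc hc1 (J i)) ?_)
    refine (norm_sum_le _ _).trans ?_
    have h2 : ∀ l ∈ (Finset.univ : Finset Λ),
        ‖c l * (aeval Q (W (J i) l) - aeval P (W (J i) l))‖ ≤
          Real.exp N * (N * B ^ N * Real.exp (-δ)) := by
      intro l _
      rw [norm_mul]
      have h3 := aeval_sub_le (W (J i) l) N (hW _ _).1 P Q B (Real.exp (-δ)) hB1 hPB' hQB hQ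
        (Real.exp_pos _).le
      have h4 : nrm (W (J i) l) * (N * B ^ N * Real.exp (-δ)) ≤
          Real.exp N * (N * B ^ N * Real.exp (-δ)) :=
        mul_le_mul_of_nonneg_right (hW _ _).2 (by positivity)
      calc ‖c l‖ * ‖aeval Q (W (J i) l) - aeval P (W (J i) l)‖
          ≤ 1 * (Real.exp N * (N * B ^ N * Real.exp (-δ))) :=
            mul_le_mul (hc1 l) (h3.trans h4) (norm_nonneg _) zero_le_one
        _ = _ := one_mul _
    refine (Finset.sum_le_sum h2).trans (le_of_eq ?_)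
    rw [Finset.sum_const, Finset.card_univ, ← hLdef, nsmul_eq_mul]
  -- `ε ≤ exp (X - min G δ)`
  have hLe : (L : ℝ) ≤ Real.exp M := by
    rw [← Real.log_le_iff_le_exp hL0]
    exact hLM
  have hNe : (N : ℝ) ≤ Real.exp N := by
    have := Real.add_one_le_exp (N : ℝ)
    linarith
  have hBe : B ^ N = Real.exp (N * Real.log B) := by
    rw [← Real.log_pow, Real.exp_log (by positivity)]
  have hεX : ε ≤ Real.exp (X - min G δ) := by
    set y : ℝ := M + 2 * N + N * Real.log B with hy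
    have hy0 : 0 ≤ y := by positivity
    have h1 : Real.exp (-G) ≤ Real.exp (-min G δ) :=
      Real.exp_le_exp.2 (neg_le_neg (min_le_left _ _))
    have h2 : Real.exp (-δ) ≤ Real.exp (-min G δ) :=
      Real.exp_le_exp.2 (neg_le_neg (min_le_right _ _))
    have h3 : L * (Real.exp N * (N * B ^ N * Real.exp (-δ))) ≤
        Real.exp y * Real.exp (-min G δ) := by
      have e1 : Real.exp y = Real.exp M * (Real.exp N * (Real.exp N * B ^ N)) := by
        rw [hBe, ← Real.exp_add, ← Real.exp_add, ← Real.exp_add]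
        congr 1
        rw [hy]
        ring
      rw [e1]
      calc L * (Real.exp N * (N * B ^ N * Real.exp (-δ)))
          ≤ Real.exp M * (Real.exp N * (Real.exp N * B ^ N * Real.exp (-min G δ))) := by
            gcongr
        _ = _ := by ring
    have h4 : 1 + Real.exp y ≤ Real.exp X := by
      have h5 : (1 : ℝ) ≤ Real.exp y := Real.one_le_exp hy0
      have h6 : Real.exp (y + 1) ≤ Real.exp X := Real.exp_le_exp.2 (by rw [hy]; linarith)
      have h7 : 2 * Real.exp y ≤ Real.exp (y + 1) := by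
        have h9 := Real.add_one_le_exp (1 : ℝ)
        have h10 : Real.exp (y + 1) = Real.exp y * Real.exp 1 := Real.exp_add y 1
        rw [h10]
        nlinarith
      linarith
    have h8 : 0 < Real.exp (-min G δ) := Real.exp_pos _
    calc ε ≤ Real.exp (-min G δ) + Real.exp y * Real.exp (-min G δ) := add_le_add h1 h3
      _ = (1 + Real.exp y) * Real.exp (-min G δ) := by ring
      _ ≤ Real.exp X * Real.exp (-min G δ) := mul_le_mul_of_nonneg_right h4 h8.le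
      _ = Real.exp (X - min G δ) := by rw [← Real.exp_add]; ring_nf
  have hlogε : Real.log ε ≤ X - min G δ := by
    rw [Real.log_le_iff_le_exp hε0]
    exact hεX
  have hLLT : 2 * Real.log L + Real.log T ≤ X := by
    rw [hlogT]
    linarith
  have hX0 : 0 ≤ X := by linarith
  rcases le_or_gt ε 1 with hε1 | hε1
  · have h1 := det_le_of_small A V ε T hε0.le hε1 hT1 hAT hVA (by rw [← hLdef]; exact hV)
    rw [← hLdef] at h1
    have h2 := Real.log_le_log (by positivity) h1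
    rw [Real.log_mul (by positivity) (by positivity), Real.log_pow, Real.log_pow, Real.log_pow,
      Real.log_mul (by positivity) (by positivity), Real.log_pow, Real.log_pow] at h2
    push_cast at h2
    have h3 : (L : ℝ) * Real.log ε ≤ L * (X - min G δ) := mul_le_mul_of_nonneg_left hlogε hL0.le
    have h4 : (L : ℝ) * (2 * Real.log L + Real.log T) ≤ L * X :=
      mul_le_mul_of_nonneg_left hLLT hL0.le
    have h5 : 0 ≤ L * X := mul_nonneg hL0.le hX0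
    have e1 : (L : ℝ) / 2 * min G δ = L * min G δ / 2 := by ring
    rw [e1]
    have e2 : (L : ℝ) * (X - min G δ) = L * X - L * min G δ := by ring
    have e3 : (L : ℝ) * (2 * Real.log L + Real.log T) = 2 * L * Real.log L + L * Real.log T := by ring
    rw [e2] at h3
    rw [e3] at h4
    have e4 : 2 * (L : ℝ) * X = 2 * (L * X) := by ring
    rw [e4]
    linarith
  · have h1 := Ck_det A T hAT
    rw [← hLdef] at h1
    have h2 := Real.log_le_log hdet0 h1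
    rw [Real.log_mul (by positivity) (by positivity), Real.log_pow, Real.log_pow] at h2
    have h3 : 0 ≤ X - min G δ := by
      refine le_trans ?_ hlogε
      exact Real.log_nonneg hε1.le
    have h4 : (L : ℝ) * (2 * Real.log L + Real.log T) ≤ L * X :=
      mul_le_mul_of_nonneg_left hLLT hL0.le
    have h5 : 0 ≤ (L : ℝ) * Real.log L := mul_nonneg hL0.le hlogL
    have h6 : 0 ≤ (L : ℝ) * (X - min G δ) := mul_nonneg hL0.le h3
    have h7 : 0 ≤ L * X := mul_nonneg hL0.le hX0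
    have e1 : (L : ℝ) / 2 * min G δ = L * min G δ / 2 := by ring
    rw [e1]
    have e2 : (L : ℝ) * (X - min G δ) = L * X - L * min G δ := by ring
    have e3 : (L : ℝ) * (2 * Real.log L + Real.log T) = 2 * (L * Real.log L) + L * Real.log T := by ring
    rw [e2] at h6
    rw [e3] at h4
    have e4 : 2 * (L : ℝ) * X = 2 * (L * X) := by ring
    rw [e4]
    linarith

theorem log_det_ge {k : ℕ} (P : Fin k → ℂ) : ∃ M1 : ℕ, ∀ M : ℕ, M1 ≤ M →
    ∀ (Λ : Type) (_ : Fintype Λ) (_ : DecidableEq Λ) (R : Type)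
      (W : R → Λ → MvPolynomial (Fin k) ℤ), 0 < Fintype.card Λ → Real.log (Fintype.card Λ) ≤ M →
      (∀ s l, ((W s l).totalDegree : ℝ) ≤ (M : ℝ) ^ 1410 ∧
        nrm (W s l) ≤ Real.exp ((M : ℝ) ^ 1410)) →
      (∃ V : Submodule ℂ (Λ → ℂ), Fintype.card Λ ≤ 2 * Module.finrank ℂ V ∧
        ∀ c ∈ V, (∀ l, ‖c l‖ ≤ 1) → ∀ s,
          ‖∑ l, c l * aeval P (W s l)‖ ≤ Real.exp (-(M : ℝ) ^ 4398)) →
    ∀ (Q : Fin k → ℂ) (δ : ℝ), 0 ≤ δ → (∀ i, ‖Q i - P i‖ ≤ Real.exp (-δ)) →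
      ∀ J : Λ → R, (Matrix.of fun i l ↦ aeval Q (W (J i) l)).det ≠ 0 →
        (Fintype.card Λ : ℝ) / 2 * min ((M : ℝ) ^ 4398) δ
            - 2 * Fintype.card Λ * (M : ℝ) ^ 1411 ≤
          -Real.log ‖(Matrix.of fun i l ↦ aeval Q (W (J i) l)).det‖ := by
  set B : ℝ := 2 + ∑ i, ‖P i‖ with hB
  have hs0 : 0 ≤ ∑ i, ‖P i‖ := Finset.sum_nonneg fun i _ => norm_nonneg _
  have hB1 : 1 ≤ B := by rw [hB]; linarith
  have hPB : ∀ i, ‖P i‖ + 1 ≤ B := by
    intro i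
    have := Finset.single_le_sum (f := fun i => ‖P i‖) (fun j _ => norm_nonneg _) (Finset.mem_univ i)
    rw [hB]
    linarith
  have hlB : 0 ≤ Real.log B := Real.log_nonneg hB1
  refine ⟨⌈7 + Real.log B⌉₊, ?_⟩
  intro M hM Λ _ _ R W hL hLM hW hV Q δ hδ hQ J hdet
  obtain ⟨V, hV1, hV2⟩ := hV
  have hM' : 7 + Real.log B ≤ M := (Nat.le_ceil _).trans (by exact_mod_cast hM)
  have hM1 : (1 : ℝ) ≤ M := by linarith
  refine Ck_core P B ((M : ℝ) ^ 1411) ((M : ℝ) ^ 4398) δ M (M ^ 1410) hB1 hPB ?_ Λ R W hL hLM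
    (fun s l => ?_) V hV1 hV2 Q hδ hQ J hdet
  · have h1 : (M : ℝ) ≤ (M : ℝ) ^ 1410 := le_self_pow₀ hM1 (by norm_num)
    have h2 : ((M ^ 1410 : ℕ) : ℝ) = (M : ℝ) ^ 1410 := by push_cast; rfl
    have h3 : (M : ℝ) ^ 1411 = (M : ℝ) ^ 1410 * M := pow_succ _ _
    rw [h2, h3]
    generalize (M : ℝ) ^ 1410 = Y at h1 ⊢
    have h4 : Y * (7 + Real.log B) ≤ Y * M := mul_le_mul_of_nonneg_left hM' (by linarith)
    linarith
  · have h2 : ((M ^ 1410 : ℕ) : ℝ) = (M : ℝ) ^ 1410 := by push_cast; rfl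
    obtain ⟨h3, h4⟩ := hW s l
    rw [← h2] at h3 h4
    exact ⟨by exact_mod_cast h3, h4⟩

end CZ

end S_H32_CZ_Ck

section S_H32_CZ_Hb

set_option autoImplicit false

namespace CZ

open Polynomial

variable {E : Type*} [Field E] [NumberField E]

theorem liouville {k : ℕ} (x : Fin k → E) (F : MvPolynomial (Fin k) ℤ) (N : ℕ)
    (hN : F.totalDegree ≤ N) (hF : MvPolynomial.aeval x F ≠ 0) (S : Finset (E →+* ℂ)) :
    -∑ φ ∈ S, Real.log ‖φ (MvPolynomial.aeval x F)‖ ≤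
      Module.finrank ℚ E * Real.log (H32.T3.nrm F) + N * ∑ i, hE (x i) := by
  classical
  have hdeg : ∀ m ∈ F.support, ∀ i, m i ≤ (fun _ : Fin k => N) i := fun m hm i =>
    (MvPolynomial.monomial_le_degreeOf i hm).trans
      ((MvPolynomial.degreeOf_le_totalDegree F i).trans hN)
  have hF0 : F ≠ 0 := by
    rintro rfl
    exact hF (map_zero _)
  set y : E := MvPolynomial.aeval x F with hy
  have hnrm : 1 ≤ H32.T3.nrm F := H32.T3.one_le_nrm hF0
  have hden : ∀ i, 0 < den (x i) := fun i => (den_spec (x i)).1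
  set A : ℕ := (∏ i, den (x i)) ^ N with hA
  have hA0 : 0 < A := pow_pos (Finset.prod_pos fun i _ => hden i) _
  set ν : ℚ := Algebra.norm ℚ y with hν
  have hν0 : ν ≠ 0 := Algebra.norm_ne_zero_iff.2 hF
  -- the p-adic part
  have hpad : ∀ (p : ℕ) [Fact p.Prime], ‖(((A : ℚ) * ν : ℚ) : PadicAlgCl p)‖ ≤ 1 := by
    intro p _
    have h1 : ∀ σ : E →+* PadicAlgCl p, ‖σ y‖ ≤ ∏ i, (max 1 ‖σ (x i)‖) ^ N := by
      intro σ
      have hna : IsNonarchimedean
          ((NormedField.toAbsoluteValue (PadicAlgCl p)).comp σ.injective) := by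
        intro a b
        have h2 := PadicAlgCl.isNonarchimedean p (σ a) (σ b)
        rw [← map_add] at h2
        exact h2
      have h3 := H32.T3.abv_aeval_le_nonarch hna x F (d := fun _ => N) hdeg
      refine le_trans h3 (le_of_eq ?_)
      refine Finset.prod_congr rfl fun i _ => ?_
      rw [max_comm]
      rfl
    have h4 : ‖(ν : PadicAlgCl p)‖ = ∏ σ : E →+* PadicAlgCl p, ‖σ y‖ := by
      rw [← norm_prod, prod_emb_padic]
    have h5 : ‖(ν : PadicAlgCl p)‖ ≤ ‖((A : ℕ) : PadicAlgCl p)‖⁻¹ := by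
      rw [h4]
      calc ∏ σ : E →+* PadicAlgCl p, ‖σ y‖
          ≤ ∏ σ : E →+* PadicAlgCl p, ∏ i, (max 1 ‖σ (x i)‖) ^ N :=
            Finset.prod_le_prod (fun σ _ => norm_nonneg _) fun σ _ => h1 σ
        _ = ∏ i, (∏ σ : E →+* PadicAlgCl p, max 1 ‖σ (x i)‖) ^ N := by
            rw [Finset.prod_comm]
            exact Finset.prod_congr rfl fun i _ => Finset.prod_pow _ _ _
        _ ≤ ∏ i, (‖((den (x i) : ℕ) : PadicAlgCl p)‖⁻¹) ^ N := by
            refine Finset.prod_le_prod (fun i _ => ?_) fun i _ => ?_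
            · exact pow_nonneg (Finset.prod_nonneg fun σ _ =>
                zero_le_one.trans (le_max_left _ _)) _
            · exact pow_le_pow_left₀ (Finset.prod_nonneg fun σ _ =>
                zero_le_one.trans (le_max_left _ _)) ((den_spec (x i)).2 p) _
        _ = ‖((A : ℕ) : PadicAlgCl p)‖⁻¹ := by
            rw [hA, Finset.prod_pow, Finset.prod_inv_distrib, inv_pow]
            push_cast
            rw [norm_pow, norm_prod]
    push_cast
    rw [norm_mul]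
    calc ‖((A : ℕ) : PadicAlgCl p)‖ * ‖(ν : PadicAlgCl p)‖
        ≤ ‖((A : ℕ) : PadicAlgCl p)‖ * ‖((A : ℕ) : PadicAlgCl p)‖⁻¹ :=
          mul_le_mul_of_nonneg_left h5 (norm_nonneg _)
      _ ≤ 1 := mul_inv_le_one
  obtain ⟨m, hm⟩ := int_of_padic ((A : ℚ) * ν) (fun p _ => hpad p)
  have hm0 : m ≠ 0 := by
    rintro rfl
    have h6 : (A : ℚ) * ν = 0 := by simpa using hm
    rcases mul_eq_zero.1 h6 with h7 | h7
    · exact hA0.ne' (by exact_mod_cast h7)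
    · exact hν0 h7
  have hAν : (1 : ℝ) ≤ (A : ℝ) * |(ν : ℝ)| := by
    have h8 : ((A : ℝ) * (ν : ℝ)) = (m : ℝ) := by
      have := congrArg (fun q : ℚ => (q : ℝ)) hm
      push_cast at this
      exact this
    have h9 : (1 : ℝ) ≤ |(m : ℝ)| := by
      have := Int.one_le_abs hm0
      exact_mod_cast this
    rw [← h8, abs_mul, abs_of_nonneg (Nat.cast_nonneg A)] at h9
    exact h9
  have hlogν : -(Real.log A) ≤ Real.log |(ν : ℝ)| := by
    have h10 : (0 : ℝ) < A := by exact_mod_cast hA0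
    have h11 : (0 : ℝ) < |(ν : ℝ)| := abs_pos.2 (by exact_mod_cast hν0)
    have h12 := Real.log_nonneg hAν
    rw [Real.log_mul h10.ne' h11.ne'] at h12
    linarith
  have hlogA : Real.log A = N * ∑ i, Real.log (den (x i)) := by
    rw [hA]
    push_cast
    rw [Real.log_pow, Real.log_prod]
    intro i _
    exact_mod_cast (hden i).ne'
  -- the archimedean part
  have hne : ∀ φ : E →+* ℂ, 0 < ‖φ y‖ := fun φ =>
    norm_pos_iff.2 ((map_ne_zero φ).2 hF)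
  have hall : ∑ φ : E →+* ℂ, Real.log ‖φ y‖ = Real.log |(ν : ℝ)| := by
    rw [← Real.log_prod (fun φ _ => (hne φ).ne'), ← norm_prod, prod_emb_complex]
    congr 1
    rw [← hν]
    simp
  set B : (E →+* ℂ) → ℝ := fun φ =>
    Real.log (H32.T3.nrm F) + N * ∑ i, Real.log (max 1 ‖φ (x i)‖) with hB
  have hB0 : ∀ φ, 0 ≤ B φ := by
    intro φ
    refine add_nonneg (Real.log_nonneg hnrm) (mul_nonneg (Nat.cast_nonneg _) ?_)
    exact Finset.sum_nonneg fun i _ => Real.log_nonneg (le_max_left _ _)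
  have hBle : ∀ φ : E →+* ℂ, Real.log ‖φ y‖ ≤ B φ := by
    intro φ
    have h13 := H32.T3.abv_aeval_le
      ((NormedField.toAbsoluteValue ℂ).comp φ.injective) x F (d := fun _ => N) hdeg
    have h14 : ‖φ y‖ ≤ H32.T3.nrm F * ∏ i, (max 1 ‖φ (x i)‖) ^ N := by
      refine le_trans h13 (le_of_eq ?_)
      congr 1
      refine Finset.prod_congr rfl fun i _ => ?_
      rw [max_comm]
      rfl
    have h15 : (0 : ℝ) < ∏ i, (max 1 ‖φ (x i)‖) ^ N :=
      Finset.prod_pos fun i _ => pow_pos (lt_of_lt_of_le one_pos (le_max_left _ _)) _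
    calc Real.log ‖φ y‖ ≤ Real.log (H32.T3.nrm F * ∏ i, (max 1 ‖φ (x i)‖) ^ N) :=
          Real.log_le_log (hne φ) h14
      _ = B φ := by
          rw [Real.log_mul (by linarith) h15.ne', Real.log_prod
            (fun i _ => (pow_pos (lt_of_lt_of_le one_pos (le_max_left _ _)) _).ne'), hB]
          simp only [Real.log_pow, Finset.mul_sum]
  have hsplit : ∑ φ : E →+* ℂ, Real.log ‖φ y‖ =
      ∑ φ ∈ S, Real.log ‖φ y‖ + ∑ φ ∈ Sᶜ, Real.log ‖φ y‖ :=
    (Finset.sum_add_sum_compl S _).symm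
  have h16 : ∑ φ ∈ Sᶜ, Real.log ‖φ y‖ ≤ ∑ φ : E →+* ℂ, B φ :=
    (Finset.sum_le_sum fun φ _ => hBle φ).trans
      (Finset.sum_le_sum_of_subset_of_nonneg (Finset.subset_univ _) fun φ _ _ => hB0 φ)
  have h17 : ∑ φ : E →+* ℂ, B φ = Module.finrank ℚ E * Real.log (H32.T3.nrm F) +
      N * ∑ i, ∑ φ : E →+* ℂ, Real.log (max 1 ‖φ (x i)‖) := by
    rw [hB, Finset.sum_add_distrib, Finset.sum_const, Finset.card_univ,
      NumberField.Embeddings.card E ℂ, nsmul_eq_mul, ← Finset.mul_sum, Finset.sum_comm]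
  have h18 : (N : ℝ) * ∑ i, hE (x i) = N * ∑ i, Real.log (den (x i)) +
      N * ∑ i, ∑ φ : E →+* ℂ, Real.log (max 1 ‖φ (x i)‖) := by
    rw [← mul_add, ← Finset.sum_add_distrib]
    rfl
  rw [h18]
  rw [hlogA] at hlogν
  linarith

end CZ

end S_H32_CZ_Hb

section S_H32_CZ_Ce

set_option autoImplicit false

namespace CZ

open MvPolynomial
open H32.T3 (nrm)

/-- Embeddings and values of integer polynomials. -/
theorem ce_map_aeval {k : ℕ} {E : Type} [Field E] (φ : E →+* ℂ) (x : Fin k → E)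
    (F : MvPolynomial (Fin k) ℤ) : φ (aeval x F) = aeval (fun i ↦ φ (x i)) F := by
  have h : φ.comp (aeval x : MvPolynomial (Fin k) ℤ →ₐ[ℤ] E).toRingHom =
      (aeval (fun i ↦ φ (x i)) : MvPolynomial (Fin k) ℤ →ₐ[ℤ] ℂ).toRingHom := by
    refine MvPolynomial.ringHom_ext (fun n ↦ ?_) (fun i ↦ ?_)
    · simp
    · simp
  exact congrArg (fun f : MvPolynomial (Fin k) ℤ →+* ℂ ↦ f F) h

/-- The final computation. -/
theorem ce_arith (L t s T G N M kk X n c : ℝ) (hL : 0 < L) (hn : 0 ≤ n) (hnt : n ≤ t)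
    (hc : c ≤ t) (hM : M ≤ T) (hN : N ≤ T) (hkk : 0 ≤ kk) (hT : 0 ≤ T) (hN0 : 0 ≤ N)
    (hlog : 0 ≤ G) (hG : G ≤ L * M + L * N) (hs : s ≤ kk * t)
    (h1 : L / 2 * X - c * (2 * L * T) ≤ n * G + L * N * s) :
    X ≤ (2 * kk + 10) * t * T := by
  have ht : 0 ≤ t := hn.trans hnt
  have h2 : n * G ≤ t * (L * M + L * N) := mul_le_mul hnt hG hlog ht
  have h3 : L * N * s ≤ L * N * (kk * t) := mul_le_mul_of_nonneg_left hs (by positivity)
  have h4 : c * (2 * L * T) ≤ t * (2 * L * T) := mul_le_mul_of_nonneg_right hc (by positivity)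
  have h5 : L / 2 * X ≤ L / 2 * (4 * t * T + 2 * t * M + 2 * t * N + 2 * kk * t * N) := by
    nlinarith
  have h6 : X ≤ 4 * t * T + 2 * t * M + 2 * t * N + 2 * kk * t * N :=
    le_of_mul_le_mul_left h5 (by positivity)
  have h7 : t * M ≤ t * T := mul_le_mul_of_nonneg_left hM ht
  have h8 : t * N ≤ t * T := mul_le_mul_of_nonneg_left hN ht
  have h9 : kk * (t * N) ≤ kk * (t * T) := mul_le_mul_of_nonneg_left h8 hkk
  have h10 : 0 ≤ t * T := mul_nonneg ht hT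
  nlinarith

theorem core_ineq {k : ℕ} (P : Fin k → ℂ) : ∃ M1 : ℕ, ∀ M : ℕ, M1 ≤ M →
    ∀ (Λ : Type) (_ : Fintype Λ) (R : Type) (W : R → Λ → MvPolynomial (Fin k) ℤ),
      0 < Fintype.card Λ → Real.log (Fintype.card Λ) ≤ M →
      (∀ s l, ((W s l).totalDegree : ℝ) ≤ (M : ℝ) ^ 1410 ∧
        nrm (W s l) ≤ Real.exp ((M : ℝ) ^ 1410)) →
      (∀ c : Λ → ℂ, (∀ l, ‖c l‖ ≤ 1) → (∃ l, ‖c l‖ = 1) →
        ∃ s, Real.exp (-(M : ℝ) ^ 4430) ≤ ‖∑ l, c l * aeval P (W s l)‖) →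
      (∃ V : Submodule ℂ (Λ → ℂ), Fintype.card Λ ≤ 2 * Module.finrank ℂ V ∧
        ∀ c ∈ V, (∀ l, ‖c l‖ ≤ 1) → ∀ s,
          ‖∑ l, c l * aeval P (W s l)‖ ≤ Real.exp (-(M : ℝ) ^ 4398)) →
    ∀ (E : Type) (_ : Field E) (_ : NumberField E) (x : Fin k → E) (S : Finset (E →+* ℂ))
      (d : (E →+* ℂ) → ℝ) (t : ℝ), (Module.finrank ℚ E : ℝ) ≤ t → (∀ i, hE (x i) ≤ t) →
      (∀ φ ∈ S, 0 ≤ d φ ∧ ∀ i, ‖φ (x i) - P i‖ ≤ Real.exp (-d φ)) →
      (∃ φ ∈ S, 3 * (M : ℝ) ^ 4430 ≤ d φ) →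
      ∑ φ ∈ S, min ((M : ℝ) ^ 4398) (d φ) ≤ (2 * k + 10) * t * (M : ℝ) ^ 1411 := by
  classical
  obtain ⟨Ma, hMa⟩ := exists_J P
  obtain ⟨Mb, hMb⟩ := log_det_ge P
  refine ⟨max (max Ma Mb) 2, ?_⟩
  intro M hM Λ _ R W hL0 hLM hW hZE hV E _ _ x S d t hEt hxt hS hbig
  have hMa' : Ma ≤ M := le_trans (le_trans (le_max_left _ _) (le_max_left _ _)) hM
  have hMb' : Mb ≤ M := le_trans (le_trans (le_max_right _ _) (le_max_left _ _)) hM
  have hM2 : 2 ≤ M := le_trans (le_max_right _ _) hM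
  have hM1 : (1 : ℝ) ≤ M := by
    have : (2 : ℝ) ≤ M := by exact_mod_cast hM2
    linarith
  obtain ⟨φ0, hφ0, hd0⟩ := hbig
  obtain ⟨J, hJ⟩ := hMa M hMa' Λ inferInstance inferInstance R W hLM hW hZE (fun i ↦ φ0 (x i))
    (fun i ↦ ((hS φ0 hφ0).2 i).trans (Real.exp_le_exp.2 (neg_le_neg hd0)))
  set D : MvPolynomial (Fin k) ℤ := (Matrix.of fun i l ↦ W (J i) l).det with hD
  have hφD : ∀ φ : E →+* ℂ, φ (aeval x D) =
      (Matrix.of fun i l ↦ aeval (fun i ↦ φ (x i)) (W (J i) l)).det := by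
    intro φ
    have h1 : aeval x D = (Matrix.of fun i l ↦ aeval x (W (J i) l)).det := by
      rw [hD, AlgHom.map_det]
      rfl
    rw [h1, RingHom.map_det]
    congr 1
    ext i l
    simp only [RingHom.mapMatrix_apply, Matrix.map_apply, Matrix.of_apply]
    exact ce_map_aeval φ x _
  have hDx : aeval x D ≠ 0 := by
    intro h0
    have h1 := hφD φ0
    rw [h0, map_zero] at h1
    exact hJ h1.symm
  have hD0 : D ≠ 0 := by
    intro h0
    exact hDx (by rw [h0, map_zero])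
  have hlow : ∀ φ ∈ S, (Fintype.card Λ : ℝ) / 2 * min ((M : ℝ) ^ 4398) (d φ)
            - 2 * Fintype.card Λ * (M : ℝ) ^ 1411 ≤ -Real.log ‖φ (aeval x D)‖ := by
    intro φ hφ
    have h1 : (Matrix.of fun i l ↦ aeval (fun i ↦ φ (x i)) (W (J i) l)).det ≠ 0 := by
      rw [← hφD φ]
      exact (map_ne_zero φ).2 hDx
    have h2 := hMb M hMb' Λ inferInstance inferInstance R W hL0 hLM hW hV (fun i ↦ φ (x i)) (d φ)
      (hS φ hφ).1 (hS φ hφ).2 J h1
    rw [← hφD φ] at h2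
    exact h2
  have htd : ∀ s l, (W s l).totalDegree ≤ M ^ 1410 := by
    intro s l
    have := (hW s l).1
    exact_mod_cast this
  have hDtd : D.totalDegree ≤ Fintype.card Λ * M ^ 1410 :=
    totalDegree_det_le _ _ (fun i j ↦ htd _ _)
  have hli := liouville x D _ hDtd hDx S
  have hnrm : nrm D ≤ (Fintype.card Λ : ℝ) ^ Fintype.card Λ *
      Real.exp ((M : ℝ) ^ 1410) ^ Fintype.card Λ :=
    nrm_det_le _ _ (Real.exp_pos _).le (fun i j ↦ (hW _ _).2)
  have hnrm1 : 1 ≤ nrm D := H32.T3.one_le_nrm hD0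
  have hlog0 : 0 ≤ Real.log (nrm D) := Real.log_nonneg hnrm1
  have hLpos : (0 : ℝ) < Fintype.card Λ := by exact_mod_cast hL0
  have hlogD : Real.log (nrm D) ≤ Fintype.card Λ * (M : ℝ) + Fintype.card Λ * (M : ℝ) ^ 1410 := by
    have h1 := Real.log_le_log (by linarith) hnrm
    rw [Real.log_mul (by positivity) (by positivity), Real.log_pow, Real.log_pow,
      Real.log_exp] at h1
    have h2 : (Fintype.card Λ : ℝ) * Real.log (Fintype.card Λ) ≤ Fintype.card Λ * (M : ℝ) :=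
      mul_le_mul_of_nonneg_left hLM hLpos.le
    linarith
  have hcard : ((S.card : ℕ) : ℝ) ≤ t := by
    have h1 : S.card ≤ Module.finrank ℚ E := by
      rw [← NumberField.Embeddings.card E ℂ]
      exact Finset.card_le_univ S
    exact le_trans (by exact_mod_cast h1) hEt
  have hsum : ∑ i, hE (x i) ≤ (k : ℝ) * t := by
    calc ∑ i, hE (x i) ≤ ∑ _i : Fin k, t := Finset.sum_le_sum fun i _ ↦ hxt i
      _ = (k : ℝ) * t := by simp
  have hsl : (Fintype.card Λ : ℝ) / 2 * ∑ φ ∈ S, min ((M : ℝ) ^ 4398) (d φ)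
      - (S.card : ℝ) * (2 * Fintype.card Λ * (M : ℝ) ^ 1411) ≤
      -∑ φ ∈ S, Real.log ‖φ (aeval x D)‖ := by
    rw [← Finset.sum_neg_distrib]
    refine le_trans (le_of_eq ?_) (Finset.sum_le_sum hlow)
    rw [Finset.sum_sub_distrib, ← Finset.mul_sum, Finset.sum_const, nsmul_eq_mul]
  have hMp : (M : ℝ) ≤ (M : ℝ) ^ 1411 := by
    calc (M : ℝ) = (M : ℝ) ^ 1 := (pow_one _).symm
      _ ≤ (M : ℝ) ^ 1411 := pow_le_pow_right₀ hM1 (by norm_num)
  have hNp : (M : ℝ) ^ 1410 ≤ (M : ℝ) ^ 1411 := pow_le_pow_right₀ hM1 (by norm_num)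
  have hfin := hsl.trans hli
  push_cast at hfin
  have hT : 0 ≤ (M : ℝ) ^ 1411 := by positivity
  have hN0 : 0 ≤ (M : ℝ) ^ 1410 := by positivity
  exact ce_arith (Fintype.card Λ : ℝ) t (∑ i, hE (x i)) ((M : ℝ) ^ 1411) (Real.log (nrm D))
    ((M : ℝ) ^ 1410) M k _ (Module.finrank ℚ E) (S.card : ℝ) hLpos (by positivity) hEt hcard
    hMp hNp (by positivity) hT hN0 hlog0 hlogD hsum hfin

end CZ

end S_H32_CZ_Ce

section S_H32_CZ_Cf

set_option autoImplicit false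

namespace CZ

open MvPolynomial
open H32.T3 (nrm)

private lemma cf_pow_succ (M n : ℕ) (hM : n ≤ M) (hM' : 0 < M) :
    ((M : ℝ) + 1) ^ n ≤ 3 * (M : ℝ) ^ n := by
  have hM0 : (0 : ℝ) < M := by exact_mod_cast hM'
  have h1 : (M : ℝ) + 1 ≤ M * Real.exp (1 / M) := by
    have h := Real.add_one_le_exp (1 / (M : ℝ))
    calc (M : ℝ) + 1 = M * (1 / M + 1) := by field_simp; ring
      _ ≤ M * Real.exp (1 / M) := mul_le_mul_of_nonneg_left h hM0.le
  have h2 : ((M : ℝ) + 1) ^ n ≤ (M * Real.exp (1 / M)) ^ n :=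
    pow_le_pow_left₀ (by positivity) h1 _
  rw [mul_pow, ← Real.exp_nat_mul] at h2
  have h3 : Real.exp ((n : ℝ) * (1 / (M : ℝ))) ≤ 3 := by
    calc Real.exp ((n : ℝ) * (1 / (M : ℝ))) ≤ Real.exp 1 := by
          apply Real.exp_le_exp.mpr
          rw [mul_one_div, div_le_one hM0]
          exact_mod_cast hM
      _ ≤ 3 := by
          have := Real.exp_one_lt_d9
          linarith
  refine h2.trans ?_
  rw [mul_comm (3 : ℝ)]
  exact mul_le_mul_of_nonneg_left h3 (by positivity)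

private lemma cf_key (U C t : ℝ) (a b c : ℕ) (habc : a + b = c) (hU : 1 ≤ U) (hC : 0 ≤ C)
    (ht : t ^ c ≤ U ^ b) (h : U ≤ C * t) : U ^ a ≤ C ^ c := by
  have h1 : U ^ c ≤ (C * t) ^ c := pow_le_pow_left₀ (by linarith) h _
  rw [mul_pow] at h1
  have h2 : U ^ a * U ^ b ≤ C ^ c * U ^ b := by
    rw [← pow_add, habc]
    exact h1.trans (mul_le_mul_of_nonneg_left ht (by positivity))
  exact le_of_mul_le_mul_right h2 (by positivity)

private lemma cf_exists_level (dm : ℝ) (M2 n : ℕ) (hn : n ≠ 0)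
    (h : 3 * ((M2 : ℝ) + 1) ^ n ≤ dm) :
    ∃ M : ℕ, M2 + 1 ≤ M ∧ 3 * (M : ℝ) ^ n ≤ dm ∧ dm < 3 * ((M : ℝ) + 1) ^ n := by
  classical
  have hex : ∃ m : ℕ, dm < 3 * ((m : ℝ) + 1) ^ n := by
    refine ⟨⌈dm⌉₊, ?_⟩
    have h1 : dm ≤ (⌈dm⌉₊ : ℝ) := Nat.le_ceil dm
    have h2 : (1 : ℝ) ≤ (⌈dm⌉₊ : ℝ) + 1 := by
      have : (0 : ℝ) ≤ (⌈dm⌉₊ : ℝ) := Nat.cast_nonneg _
      linarith
    have h3 : (⌈dm⌉₊ : ℝ) + 1 ≤ ((⌈dm⌉₊ : ℝ) + 1) ^ n := le_self_pow₀ h2 hn
    linarith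
  have hfind := Nat.find_spec hex
  have hmin : ∀ m : ℕ, m < Nat.find hex → ¬ dm < 3 * ((m : ℝ) + 1) ^ n :=
    fun m hm ↦ Nat.find_min hex hm
  obtain ⟨m0, hm0⟩ : ∃ m0, m0 = Nat.find hex := ⟨_, rfl⟩
  rw [← hm0] at hfind
  simp only [← hm0] at hmin
  have hle0 : M2 + 1 ≤ m0 := by
    by_contra hlt
    have hle : m0 ≤ M2 := by omega
    have h2 : ((m0 : ℝ) + 1) ^ n ≤ ((M2 : ℝ) + 1) ^ n := by
      apply pow_le_pow_left₀ (by positivity)
      have : (m0 : ℝ) ≤ M2 := by exact_mod_cast hle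
      linarith
    linarith
  refine ⟨m0, hle0, ?_, hfind⟩
  have h1 := hmin (m0 - 1) (by omega)
  have h2 : (((m0 - 1 : ℕ) : ℝ) + 1) = (m0 : ℝ) := by
    rw [Nat.cast_sub (by omega)]
    push_cast
    ring
  rw [h2] at h1
  exact not_lt.mp h1

private lemma cf_rpow (t U κ : ℝ) (p q : ℕ) (hκ : κ * q = p) (ht : 0 ≤ t) (h : t ^ κ ≤ U) :
    t ^ p ≤ U ^ q := by
  have h1 : (t ^ κ) ^ q = t ^ p := by
    rw [← Real.rpow_natCast, ← Real.rpow_mul ht, hκ, Real.rpow_natCast]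
  rw [← h1]
  exact pow_le_pow_left₀ (Real.rpow_nonneg ht _) h _

private lemma cf_min (M d : ℝ) (n1 n2 n4 : ℕ) (h : n4 + n2 = n1) (hM : 1 ≤ M) (hd0 : 0 ≤ d)
    (hd : d ≤ 9 * M ^ n1) : d ≤ 9 * M ^ n4 * min (M ^ n2) d := by
  rcases le_total (M ^ n2) d with h' | h'
  · rw [min_eq_left h', mul_assoc, ← pow_add, h]
    exact hd
  · rw [min_eq_right h']
    have h1 : (1 : ℝ) ≤ 9 * M ^ n4 := by
      have : (1 : ℝ) ≤ M ^ n4 := one_le_pow₀ hM
      linarith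
    exact le_mul_of_one_le_left hd0 h1

private lemma cf_gen {k : ℕ} (P : Fin k → ℂ) (n1 n2 n3 n4 m e a b c : ℕ) (κ : ℝ)
    (h12 : n4 + n2 = n1) (h34 : n4 + n3 = m) (habc : a + b = c) (hκ : κ * b = c)
    (hexp : e + m * c = n1 * a) (he : e ≠ 0) (ha : a ≠ 0) (hn1 : n1 ≠ 0) (M0 : ℕ)
    (core : ∀ M : ℕ, M0 ≤ M → ∀ (E : Type) (_ : Field E) (_ : NumberField E) (x : Fin k → E)
      (S : Finset (E →+* ℂ)) (d : (E →+* ℂ) → ℝ) (t : ℝ), (Module.finrank ℚ E : ℝ) ≤ t →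
      (∀ i, hE (x i) ≤ t) →
      (∀ φ ∈ S, 0 ≤ d φ ∧ ∀ i, ‖φ (x i) - P i‖ ≤ Real.exp (-d φ)) →
      (∃ φ ∈ S, 3 * (M : ℝ) ^ n1 ≤ d φ) →
      ∑ φ ∈ S, min ((M : ℝ) ^ n2) (d φ) ≤ (2 * k + 10) * t * (M : ℝ) ^ n3) :
    ¬ Appr P κ := by
  intro hA
  obtain ⟨C, hC⟩ : ∃ C : ℕ, C = 9 * (2 * k + 10) := ⟨_, rfl⟩
  obtain ⟨C', hC'⟩ : ∃ C' : ℕ, C' = C ^ c := ⟨_, rfl⟩
  obtain ⟨M2, hM2⟩ : ∃ M2 : ℕ, M2 = M0 + n1 + C' := ⟨_, rfl⟩
  obtain ⟨C0, hC0⟩ : ∃ C0 : ℝ, C0 = 3 * ((M2 : ℝ) + 1) ^ n1 := ⟨_, rfl⟩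
  have hC0pos : 0 < C0 := by rw [hC0]; positivity
  obtain ⟨t, V, ht1, hUV, htV, E, iF, iN, x, S, d, hf, hx, hd, hV⟩ := hA (C0 ^ c + 1)
  obtain ⟨U, hU⟩ : ∃ U : ℝ, U = ∑ φ ∈ S, d φ := ⟨_, rfl⟩
  have hVU : V ≤ U := by rw [hU]; exact hV
  have hCU : C0 ^ c + 1 ≤ U := hUV.trans hVU
  have hCc : (0 : ℝ) ≤ C0 ^ c := by positivity
  have hU1 : 1 ≤ U := by linarith
  have htc : t ^ c ≤ U ^ b := cf_rpow t U κ c b hκ (by linarith) (htV.trans hVU)
  have hne : S.Nonempty := by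
    rw [Finset.nonempty_iff_ne_empty]
    intro h0
    rw [h0, Finset.sum_empty] at hU
    linarith
  obtain ⟨φ0, hφ0, hmax⟩ := Finset.exists_max_image S d hne
  have hcard : (S.card : ℝ) ≤ t := by
    have h1 : S.card ≤ Module.finrank ℚ E := by
      rw [← NumberField.Embeddings.card E ℂ]
      exact Finset.card_le_univ S
    exact le_trans (by exact_mod_cast h1) hf
  have hUdm : U ≤ t * d φ0 := by
    have h1 : U ≤ S.card • d φ0 := by
      rw [hU]
      exact Finset.sum_le_card_nsmul S d (d φ0) hmax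
    rw [nsmul_eq_mul] at h1
    exact h1.trans (mul_le_mul_of_nonneg_right hcard (hd φ0 hφ0).1)
  have hdm : C0 ≤ d φ0 := by
    by_contra hlt
    push Not at hlt
    have h1 : U ≤ C0 * t := by
      have : t * d φ0 ≤ t * C0 := mul_le_mul_of_nonneg_left hlt.le (by linarith)
      linarith [mul_comm t C0]
    have h2 := cf_key U C0 t a b c habc hU1 hC0pos.le htc h1
    have h3 : U ≤ U ^ a := le_self_pow₀ hU1 ha
    linarith
  rw [hC0] at hdm
  obtain ⟨M, hMM, hMd, hdM⟩ := cf_exists_level (d φ0) M2 n1 hn1 hdm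
  have hMn1 : n1 ≤ M := by omega
  have hMC : C' < M := by omega
  have hM0 : 0 < M := by omega
  have hdM9 : d φ0 ≤ 9 * (M : ℝ) ^ n1 := by
    have h1 := cf_pow_succ M n1 hMn1 hM0
    linarith
  have hM1' : (1 : ℝ) ≤ M := by exact_mod_cast hM0
  have hcore := core M (by omega) E iF iN x S d t hf hx hd ⟨φ0, hφ0, hMd⟩
  have hmin : ∀ φ ∈ S, d φ ≤ 9 * (M : ℝ) ^ n4 * min ((M : ℝ) ^ n2) (d φ) := by
    intro φ hφ
    exact cf_min M (d φ) n1 n2 n4 h12 hM1' (hd φ hφ).1 ((hmax φ hφ).trans hdM9)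
  have hUle : U ≤ 9 * (M : ℝ) ^ n4 * ((2 * k + 10) * t * (M : ℝ) ^ n3) := by
    calc U = ∑ φ ∈ S, d φ := hU
      _ ≤ ∑ φ ∈ S, 9 * (M : ℝ) ^ n4 * min ((M : ℝ) ^ n2) (d φ) := Finset.sum_le_sum hmin
      _ = 9 * (M : ℝ) ^ n4 * ∑ φ ∈ S, min ((M : ℝ) ^ n2) (d φ) := by rw [Finset.mul_sum]
      _ ≤ 9 * (M : ℝ) ^ n4 * ((2 * k + 10) * t * (M : ℝ) ^ n3) :=
        mul_le_mul_of_nonneg_left hcore (by positivity)
  have hUle' : U ≤ ((C : ℝ) * (M : ℝ) ^ m) * t := by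
    have h1 : (M : ℝ) ^ m = (M : ℝ) ^ n4 * (M : ℝ) ^ n3 := by rw [← pow_add, h34]
    rw [h1, hC]
    push_cast
    calc U ≤ 9 * (M : ℝ) ^ n4 * ((2 * k + 10) * t * (M : ℝ) ^ n3) := hUle
      _ = _ := by ring
  have h49 := cf_key U ((C : ℝ) * (M : ℝ) ^ m) t a b c habc hU1 (by positivity) htc hUle'
  rw [mul_pow, ← pow_mul] at h49
  have hdU : d φ0 ≤ U := by
    rw [hU]
    exact Finset.single_le_sum (fun φ hφ ↦ (hd φ hφ).1) hφ0
  have hMU : (M : ℝ) ^ n1 ≤ U := by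
    have h0 : (0 : ℝ) ≤ (M : ℝ) ^ n1 := by positivity
    linarith
  have h217 : (M : ℝ) ^ (n1 * a) ≤ U ^ a := by
    rw [pow_mul]
    exact pow_le_pow_left₀ (by positivity) hMU _
  have hfin : (M : ℝ) ^ e * (M : ℝ) ^ (m * c) ≤ (C : ℝ) ^ c * (M : ℝ) ^ (m * c) := by
    rw [← pow_add, hexp]
    exact h217.trans h49
  have hfin' : (M : ℝ) ^ e ≤ (C : ℝ) ^ c :=
    le_of_mul_le_mul_right hfin (by positivity)
  have h1 : (M : ℝ) ≤ (M : ℝ) ^ e := le_self_pow₀ hM1' he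
  have h2 : ((C' : ℕ) : ℝ) = (C : ℝ) ^ c := by rw [hC']; push_cast; rfl
  rw [← h2] at hfin'
  have h3 : (M : ℝ) ≤ (C' : ℝ) := h1.trans hfin'
  have h4 : M ≤ C' := by exact_mod_cast h3
  omega

theorem not_appr {k : ℕ} (P : Fin k → ℂ)
    (hyp : ∃ M0 : ℕ, ∀ M : ℕ, M0 ≤ M → ∃ (Λ : Type) (_ : Fintype Λ) (R : Type)
      (W : R → Λ → MvPolynomial (Fin k) ℤ),
      0 < Fintype.card Λ ∧ Real.log (Fintype.card Λ) ≤ M ∧
      (∀ s l, ((W s l).totalDegree : ℝ) ≤ (M : ℝ) ^ 1410 ∧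
        nrm (W s l) ≤ Real.exp ((M : ℝ) ^ 1410)) ∧
      (∀ c : Λ → ℂ, (∀ l, ‖c l‖ ≤ 1) → (∃ l, ‖c l‖ = 1) →
        ∃ s, Real.exp (-(M : ℝ) ^ 4430) ≤ ‖∑ l, c l * aeval P (W s l)‖) ∧
      (∃ V : Submodule ℂ (Λ → ℂ), Fintype.card Λ ≤ 2 * Module.finrank ℂ V ∧
        ∀ c ∈ V, (∀ l, ‖c l‖ ≤ 1) → ∀ s,
          ‖∑ l, c l * aeval P (W s l)‖ ≤ Real.exp (-(M : ℝ) ^ 4398))) :
    ¬ Appr P (149 / 100) := by
  obtain ⟨M0, hM0⟩ := hyp
  obtain ⟨M1, hM1⟩ := core_ineq P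
  refine cf_gen P 4430 4398 1411 32 1443 2063 49 100 149 (149 / 100) (by norm_num) (by norm_num)
    (by norm_num) (by norm_num) (by norm_num) (by norm_num) (by norm_num) (by norm_num)
    (max M0 M1) ?_
  intro M hM E iF iN x S d t hf hx hd hex
  obtain ⟨Λ, iΛ, R, W, hc0, hcM, hW, hlow, hup⟩ := hM0 M (le_trans (le_max_left _ _) hM)
  exact hM1 M (le_trans (le_max_right _ _) hM) Λ iΛ R W hc0 hcM hW hlow hup E iF iN x S d t hf hx hd
    hex

end CZ

end S_H32_CZ_Cf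

section S_H32_CZ_Xa

set_option autoImplicit false

namespace CZ

open Polynomial

theorem Xa_prod {r : ℝ} (hr : 0 ≤ r) (g : ℂ → ℝ) (s : Multiset ℂ) (h : ∀ z ∈ s, r < g z) :
    r ^ s.card ≤ (s.map g).prod ∧ 0 < (s.map g).prod ∧ (s ≠ 0 → r ^ s.card < (s.map g).prod) := by
  induction s using Multiset.induction with
  | empty => simp
  | cons a s ih =>
    obtain ⟨h1, h2, -⟩ := ih (fun z hz => h z (Multiset.mem_cons_of_mem hz))
    have ha : r < g a := h a (Multiset.mem_cons_self a s)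
    have h3 : r ^ (a ::ₘ s).card < ((a ::ₘ s).map g).prod := by
      rw [Multiset.card_cons, Multiset.map_cons, Multiset.prod_cons, pow_succ]
      calc r ^ s.card * r ≤ (s.map g).prod * r := mul_le_mul_of_nonneg_right h1 hr
        _ < (s.map g).prod * g a := mul_lt_mul_of_pos_left ha h2
        _ = g a * (s.map g).prod := mul_comm _ _
    have h4 : 0 < ((a ::ₘ s).map g).prod := lt_of_le_of_lt (pow_nonneg hr _) h3
    exact ⟨h3.le, h4, fun _ => h3⟩

theorem near_root (f : ℂ[X]) (n : ℕ) (hn : 0 < n) (hf : f.natDegree = n) (y : ℂ) (c0 ε : ℝ)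
    (hc : 0 < c0) (hl : c0 ≤ ‖f.leadingCoeff‖) (h : ‖f.eval y‖ ≤ ε) :
    ∃ z ∈ f.roots, ‖z - y‖ ^ n ≤ ε / c0 := by
  by_contra hcon
  push Not at hcon
  have hε : 0 ≤ ε := (norm_nonneg _).trans h
  have hδ : 0 ≤ ε / c0 := div_nonneg hε hc.le
  have hsp : f.Splits := IsAlgClosed.splits f
  have hcard : f.roots.card = n := by rw [← hsp.natDegree_eq_card_roots, hf]
  have hne : f.roots ≠ 0 := by
    intro h0
    rw [h0, Multiset.card_zero] at hcard
    omega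
  have hn' : n ≠ 0 := by omega
  set r : ℝ := (ε / c0) ^ ((n : ℝ)⁻¹) with hr
  have hr0 : 0 ≤ r := Real.rpow_nonneg hδ _
  have hrn : r ^ n = ε / c0 := Real.rpow_inv_natCast_pow hδ hn'
  have hlt : ∀ z ∈ f.roots, r < ‖y - z‖ := by
    intro z hz
    have h1 := hcon z hz
    rw [← hrn, norm_sub_rev] at h1
    exact lt_of_pow_lt_pow_left₀ n (norm_nonneg _) h1
  obtain ⟨-, -, h2⟩ := Xa_prod hr0 (fun z => ‖y - z‖) f.roots hlt
  have h3 := h2 hne
  rw [hcard, hrn] at h3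
  have h4 : ‖f.eval y‖ = ‖f.leadingCoeff‖ * (f.roots.map (fun z => ‖y - z‖)).prod := by
    rw [hsp.eval_eq_prod_roots, norm_mul]
    congr 1
    have := map_multiset_prod (normHom : ℂ →*₀ ℝ) (f.roots.map (fun z => y - z))
    rw [Multiset.map_map] at this
    exact this
  have h5 : ε < ‖f.eval y‖ := by
    rw [h4]
    calc ε = c0 * (ε / c0) := by field_simp
      _ < c0 * (f.roots.map (fun z => ‖y - z‖)).prod := mul_lt_mul_of_pos_left h3 hc
      _ ≤ _ := mul_le_mul_of_nonneg_right hl (hδ.trans h3.le)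
  linarith

theorem Xa_nf (E E' : Type) [Field E] [NumberField E] [Field E'] [Algebra E E'] [FiniteDimensional E E'] :
    ∃ _ : NumberField E', Module.finrank ℚ E' = Module.finrank E E' * Module.finrank ℚ E := by
  have : CharZero E' := charZero_of_injective_algebraMap (algebraMap E E').injective
  have : FiniteDimensional ℚ E' := FiniteDimensional.trans ℚ E E'
  refine ⟨⟨⟩, ?_⟩
  rw [mul_comm]
  exact (Module.finrank_mul_finrank ℚ E E').symm

theorem adjoin_root_nf (E : Type) [Field E] [NumberField E] (ψ : E[X]) (hψ : Irreducible ψ) :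
    ∃ (E' : Type) (_ : Field E') (_ : NumberField E') (_ : Algebra E E') (ρ : E'),
      aeval ρ ψ = 0 ∧ Module.finrank E E' = ψ.natDegree ∧
      Module.finrank ℚ E' = ψ.natDegree * Module.finrank ℚ E ∧
      ∀ (φ : E →+* ℂ) (z : ℂ), (ψ.map φ).eval z = 0 →
        ∃ φ' : E' →+* ℂ, φ'.comp (algebraMap E E') = φ ∧ φ' ρ = z := by
  have : Fact (Irreducible ψ) := ⟨hψ⟩
  have h0 : ψ ≠ 0 := hψ.ne_zero
  have : FiniteDimensional E (AdjoinRoot ψ) := (AdjoinRoot.powerBasis h0).finite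
  have hfr : Module.finrank E (AdjoinRoot ψ) = ψ.natDegree := by
    rw [(AdjoinRoot.powerBasis h0).finrank, AdjoinRoot.powerBasis_dim]
  obtain ⟨hN, hfin⟩ := Xa_nf E (AdjoinRoot ψ)
  refine ⟨AdjoinRoot ψ, inferInstance, hN, inferInstance, AdjoinRoot.root ψ, ?_, hfr, ?_, ?_⟩
  · rw [AdjoinRoot.aeval_eq, AdjoinRoot.mk_self]
  · rw [hfin, hfr]
  · intro φ z hz
    have hz' : ψ.eval₂ φ z = 0 := by rwa [eval_map] at hz
    refine ⟨AdjoinRoot.lift φ z hz', ?_, AdjoinRoot.lift_root hz'⟩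
    rw [AdjoinRoot.algebraMap_eq]
    exact AdjoinRoot.lift_comp_of hz'

end CZ

end S_H32_CZ_Xa

section S_H32_CZ_Xc

set_option autoImplicit false

namespace CZ

open MvPolynomial in
theorem Xc_frac {k : ℕ} (P : Fin k → ℂ) {x : ℂ} (hx : x ∈ IntermediateField.adjoin ℚ (Set.range P)) :
    ∃ a b : MvPolynomial (Fin k) ℤ, aeval P b ≠ 0 ∧ x * aeval P b = aeval P a := by
  induction hx using IntermediateField.adjoin_induction with
  | mem x hx =>
    obtain ⟨i, rfl⟩ := hx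
    exact ⟨X i, 1, by rw [map_one]; exact one_ne_zero, by rw [map_one, mul_one, aeval_X]⟩
  | algebraMap q =>
    refine ⟨C q.num, C (q.den : ℤ), ?_, ?_⟩
    · rw [aeval_C]
      simp
    · rw [aeval_C, aeval_C]
      simp only [eq_ratCast, algebraMap_int_eq, eq_intCast, Int.cast_natCast]
      exact_mod_cast Rat.mul_den_eq_num q
  | add x y _ _ hx hy =>
    obtain ⟨a1, b1, h1, e1⟩ := hx
    obtain ⟨a2, b2, h2, e2⟩ := hy
    refine ⟨a1 * b2 + a2 * b1, b1 * b2, ?_, ?_⟩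
    · rw [map_mul]
      exact mul_ne_zero h1 h2
    · rw [map_add, map_mul, map_mul, map_mul, ← e1, ← e2]
      ring
  | inv x _ hx =>
    obtain ⟨a, b, h1, e1⟩ := hx
    rcases eq_or_ne x 0 with h | h
    · refine ⟨0, 1, by rw [map_one]; exact one_ne_zero, ?_⟩
      rw [h, inv_zero, zero_mul, map_zero]
    · refine ⟨b, a, ?_, ?_⟩
      · rw [← e1]
        exact mul_ne_zero h h1
      · rw [← e1, inv_mul_cancel_left₀ h]
  | mul x y _ _ hx hy =>
    obtain ⟨a1, b1, h1, e1⟩ := hx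
    obtain ⟨a2, b2, h2, e2⟩ := hy
    refine ⟨a1 * a2, b1 * b2, ?_, ?_⟩
    · rw [map_mul]
      exact mul_ne_zero h1 h2
    · rw [map_mul, map_mul, ← e1, ← e2]
      ring

theorem alg_rel {k : ℕ} (P : Fin k → ℂ) (y : ℂ)
    (h : IsAlgebraic (IntermediateField.adjoin ℚ (Set.range P)) y) :
    ∃ (n : ℕ) (G : ℕ → MvPolynomial (Fin k) ℤ), 0 < n ∧ MvPolynomial.aeval P (G n) ≠ 0 ∧
      ∑ j ∈ Finset.range (n + 1), MvPolynomial.aeval P (G j) * y ^ j = 0 := by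
  obtain ⟨p, hp, hy⟩ := h
  have h1 : ∀ j, ∃ a b : MvPolynomial (Fin k) ℤ, MvPolynomial.aeval P b ≠ 0 ∧
      (p.coeff j : ℂ) * MvPolynomial.aeval P b = MvPolynomial.aeval P a := fun j => Xc_frac P (p.coeff j).2
  choose a b hb hab using h1
  have hlead : (p.coeff p.natDegree : ℂ) ≠ 0 := by
    intro h0
    apply hp
    rw [← Polynomial.leadingCoeff_eq_zero]
    exact Subtype.ext h0
  obtain ⟨B, hB⟩ : ∃ B : ℂ, B = ∏ i ∈ Finset.range (p.natDegree + 1), MvPolynomial.aeval P (b i) := ⟨_, rfl⟩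
  have hB0 : B ≠ 0 := by
    rw [hB]
    exact Finset.prod_ne_zero_iff.2 fun i _ => hb i
  have hG : ∀ j ∈ Finset.range (p.natDegree + 1), MvPolynomial.aeval P
      (a j * ∏ i ∈ (Finset.range (p.natDegree + 1)).erase j, b i) = (p.coeff j : ℂ) * B := by
    intro j hj
    rw [map_mul, map_prod, ← hab j, hB, ← Finset.mul_prod_erase _ _ hj, mul_assoc]
  have hsum : ∑ j ∈ Finset.range (p.natDegree + 1), (p.coeff j : ℂ) * y ^ j = 0 := by
    rw [Polynomial.aeval_eq_sum_range] at hy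
    exact hy
  refine ⟨p.natDegree, fun j => a j * ∏ i ∈ (Finset.range (p.natDegree + 1)).erase j, b i, ?_, ?_, ?_⟩
  · rcases Nat.eq_zero_or_pos p.natDegree with h0 | h0
    · exfalso
      rw [h0, zero_add, Finset.sum_range_one, pow_zero, mul_one] at hsum
      rw [h0] at hlead
      exact hlead hsum
    · exact h0
  · rw [hG _ (Finset.self_mem_range_succ _)]
    exact mul_ne_zero hlead hB0
  · have e : ∑ j ∈ Finset.range (p.natDegree + 1), MvPolynomial.aeval P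
        (a j * ∏ i ∈ (Finset.range (p.natDegree + 1)).erase j, b i) * y ^ j =
        B * ∑ j ∈ Finset.range (p.natDegree + 1), (p.coeff j : ℂ) * y ^ j := by
      rw [Finset.mul_sum]
      refine Finset.sum_congr rfl fun j hj => ?_
      rw [hG j hj]
      ring
    rw [e, hsum, mul_zero]

theorem Xc_up {S : Subalgebra ℚ ℂ} {L : IntermediateField ℚ ℂ} (hSL : ∀ x ∈ S, x ∈ L) {y : ℂ}
    (h : IsAlgebraic S y) : IsAlgebraic L y := by
  obtain ⟨p, hp, hy⟩ := h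
  let i : S →+* L := ((algebraMap S ℂ).codRestrict L fun x => hSL x x.2)
  have hi : Function.Injective i := by
    intro x x' hx
    exact Subtype.ext (congrArg (fun z : L => (z : ℂ)) hx)
  have hc : (algebraMap L ℂ).comp i = algebraMap S ℂ := RingHom.ext fun x => rfl
  refine ⟨p.map i, (Polynomial.map_ne_zero_iff hi).2 hp, ?_⟩
  rw [Polynomial.aeval_def, Polynomial.eval₂_map, hc]
  exact hy

theorem exists_basis {k : ℕ} (P : Fin k → ℂ)
    (h : ¬ ∃ f : Fin 3 → Fin k, AlgebraicIndependent ℚ (fun i ↦ P (f i))) :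
    ∃ θ1 θ2 : ℂ, AlgebraicIndependent ℚ ![θ1, θ2] ∧
      ∀ i, IsAlgebraic (IntermediateField.adjoin ℚ (Set.range ![θ1, θ2])) (P i) := by
  obtain ⟨B, hB⟩ := (AlgebraicIndependent.matroid ℚ ℂ).exists_isBasis (Set.range P)
  rw [AlgebraicIndependent.matroid_isBasis_iff] at hB
  obtain ⟨hBi, hBP, hBa⟩ := hB
  have hB2 : B.encard ≤ 2 := by
    by_contra hcon
    have h3 : 3 ≤ B.encard := by
      have h0 : (2 : ℕ∞) + 1 ≤ B.encard := Order.add_one_le_of_lt (not_le.1 hcon)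
      exact h0
    obtain ⟨t, htB, ht⟩ := Set.exists_subset_encard_eq h3
    obtain ⟨x, y, z, hxy, hxz, hyz, rfl⟩ := Set.encard_eq_three.1 ht
    have hx : x ∈ B := htB (by simp)
    have hy : y ∈ B := htB (by simp)
    have hz : z ∈ B := htB (by simp)
    obtain ⟨i1, h1⟩ := hBP hx
    obtain ⟨i2, h2⟩ := hBP hy
    obtain ⟨i3, h3⟩ := hBP hz
    refine h ⟨![i1, i2, i3], ?_⟩
    have hg : Function.Injective (![⟨x, hx⟩, ⟨y, hy⟩, ⟨z, hz⟩] : Fin 3 → B) := by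
      intro i j hij
      fin_cases i <;> fin_cases j <;> simp_all
    have h4 := AlgebraicIndependent.comp hBi _ hg
    convert h4 using 1
    funext i
    fin_cases i
    · exact h1
    · exact h2
    · exact h3
  obtain ⟨S, hBS, hS⟩ := exists_isTranscendenceBasis_superset hBi
  have hSinf : S.encard = ⊤ := by
    have h1 := IsAlgClosed.cardinal_eq_cardinal_transcendence_basis_of_aleph0_lt' _ hS
      (by simp) (by rw [Cardinal.mk_complex]; exact Cardinal.aleph0_lt_continuum)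
    have h2 : Infinite S := by
      rw [← Cardinal.aleph0_le_mk_iff, ← h1, Cardinal.mk_complex]
      exact Cardinal.aleph0_le_continuum
    exact (Set.infinite_coe_iff.1 h2).encard_eq
  obtain ⟨U, hBU, hUS, hU⟩ := Set.exists_superset_subset_encard_eq hBS hB2 (by rw [hSinf]; exact le_top)
  obtain ⟨θ1, θ2, hne, rfl⟩ := Set.encard_eq_two.1 hU
  have h1 : θ1 ∈ S := hUS (by simp)
  have h2 : θ2 ∈ S := hUS (by simp)
  refine ⟨θ1, θ2, ?_, ?_⟩
  · have hg : Function.Injective (![⟨θ1, h1⟩, ⟨θ2, h2⟩] : Fin 2 → S) := by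
      intro i j hij
      fin_cases i <;> fin_cases j <;> simp_all
    have h4 := AlgebraicIndependent.comp hS.1 _ hg
    convert h4 using 1
    funext i
    fin_cases i <;> rfl
  · intro i
    refine Xc_up ?_ (hBa (P i) ⟨i, rfl⟩)
    intro x hx
    have h3 : Algebra.adjoin ℚ B ≤ (IntermediateField.adjoin ℚ (Set.range ![θ1, θ2])).toSubalgebra := by
      refine Algebra.adjoin_le fun w hw => ?_
      refine IntermediateField.subset_adjoin ℚ _ ?_
      rcases hBU hw with h5 | h5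
      · exact ⟨0, h5.symm⟩
      · exact ⟨1, h5.symm⟩
    exact h3 hx

end CZ

end S_H32_CZ_Xc

section S_H32_CZ_Xd

set_option autoImplicit false

namespace CZ

open Polynomial

/-- the polynomial with given coefficients -/
noncomputable def xdP {F : Type*} [Field F] (a : ℕ → F) (n : ℕ) : F[X] :=
  ∑ j ∈ Finset.range (n + 1), C (a j) * X ^ j

theorem xdP_coeff {F : Type*} [Field F] (a : ℕ → F) (n m : ℕ) :
    (xdP a n).coeff m = if m < n + 1 then a m else 0 := by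
  unfold xdP
  rw [finset_sum_coeff]
  simp only [coeff_C_mul, coeff_X_pow, mul_ite, mul_one, mul_zero, Finset.sum_ite_eq,
    Finset.mem_range]

theorem xdP_deg {F : Type*} [Field F] (a : ℕ → F) (n : ℕ) (h : a n ≠ 0) :
    (xdP a n).natDegree = n := by
  refine natDegree_eq_of_le_of_coeff_ne_zero ?_ ?_
  · refine natDegree_sum_le_of_forall_le _ _ fun j hj => ?_
    refine (natDegree_C_mul_X_pow_le _ _).trans ?_
    have := Finset.mem_range.1 hj
    omega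
  · rw [xdP_coeff, if_pos (Nat.lt_succ_self n)]
    exact h

theorem xdP_lead {F : Type*} [Field F] (a : ℕ → F) (n : ℕ) (h : a n ≠ 0) :
    (xdP a n).leadingCoeff = a n := by
  rw [leadingCoeff, xdP_deg a n h, xdP_coeff, if_pos (Nat.lt_succ_self n)]

theorem xdP_eval {F : Type*} [Field F] (a : ℕ → F) (n : ℕ) (z : F) :
    (xdP a n).eval z = ∑ j ∈ Finset.range (n + 1), a j * z ^ j := by
  unfold xdP
  rw [eval_finset_sum]
  simp

theorem xdP_map {F K : Type*} [Field F] [Field K] (φ : F →+* K) (a : ℕ → F) (n : ℕ) :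
    (xdP a n).map φ = xdP (fun j => φ (a j)) n := by
  unfold xdP
  rw [Polynomial.map_sum]
  simp

/-- the irreducible factors -/
theorem xd_factors {E : Type} [Field E] (f : E[X]) (hf : f ≠ 0) :
    ∃ Ψ : Finset E[X], Ψ.card ≤ f.natDegree ∧ (∀ ψ ∈ Ψ, Irreducible ψ ∧ ψ ∣ f) ∧
      ∀ (φ : E →+* ℂ) (z : ℂ), (f.map φ).eval z = 0 → ∃ ψ ∈ Ψ, (ψ.map φ).eval z = 0 := by
  classical
  have hirr : ∀ ψ ∈ UniqueFactorizationMonoid.factors f, Irreducible ψ :=
    fun ψ hψ => UniqueFactorizationMonoid.irreducible_of_factor ψ hψ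
  have hass := UniqueFactorizationMonoid.factors_prod hf
  refine ⟨(UniqueFactorizationMonoid.factors f).toFinset, ?_, ?_, ?_⟩
  · refine (Multiset.toFinset_card_le _).trans ?_
    have h1 : f.natDegree = (UniqueFactorizationMonoid.factors f).prod.natDegree :=
      natDegree_eq_of_degree_eq (degree_eq_degree_of_associated hass.symm)
    have h0 : (0 : E[X]) ∉ UniqueFactorizationMonoid.factors f := fun h => (hirr 0 h).ne_zero rfl
    rw [h1, natDegree_multiset_prod _ h0]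
    have h2 : (Multiset.map natDegree (UniqueFactorizationMonoid.factors f)).card • 1 ≤
        (Multiset.map natDegree (UniqueFactorizationMonoid.factors f)).sum := by
      refine Multiset.card_nsmul_le_sum fun x hx => ?_
      obtain ⟨ψ, hψ, rfl⟩ := Multiset.mem_map.1 hx
      exact (hirr ψ hψ).natDegree_pos
    rwa [Multiset.card_map, smul_eq_mul, mul_one] at h2
  · intro ψ hψ
    rw [Multiset.mem_toFinset] at hψ
    exact ⟨hirr ψ hψ, UniqueFactorizationMonoid.dvd_of_mem_factors hψ⟩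
  · intro φ z hz
    obtain ⟨u, hu⟩ := hass
    have h1 : eval₂RingHom φ z f = 0 := by
      rw [coe_eval₂RingHom, ← eval_map]
      exact hz
    rw [← hu, map_mul] at h1
    have h2 : eval₂RingHom φ z (u : E[X]) ≠ 0 := (u.isUnit.map (eval₂RingHom φ z)).ne_zero
    have h3 := (mul_eq_zero.1 h1).resolve_right h2
    rw [map_multiset_prod, Multiset.prod_eq_zero_iff, Multiset.mem_map] at h3
    obtain ⟨ψ, hψ, h4⟩ := h3
    refine ⟨ψ, Multiset.mem_toFinset.2 hψ, ?_⟩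
    rw [eval_map, ← coe_eval₂RingHom]
    exact h4

/-- powers are eventually dominated -/
theorem xd_pow (K e : ℝ) (hK : 0 ≤ K) (he : e < 1) :
    ∃ U : ℝ, ∀ V : ℝ, U ≤ V → K * V ^ e ≤ V := by
  refine ⟨max 1 (K ^ (1 / (1 - e))), fun V hV => ?_⟩
  have h1 : 1 ≤ V := (le_max_left _ _).trans hV
  have h2 : K ^ (1 / (1 - e)) ≤ V := (le_max_right _ _).trans hV
  have h0 : 0 < 1 - e := by linarith
  have hV0 : 0 < V := by linarith
  have h3 : K ≤ V ^ (1 - e) := by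
    calc K = (K ^ (1 / (1 - e))) ^ (1 - e) := by
          rw [← Real.rpow_mul hK, one_div, inv_mul_cancel₀ h0.ne', Real.rpow_one]
      _ ≤ V ^ (1 - e) := Real.rpow_le_rpow (Real.rpow_nonneg hK _) h2 h0.le
  calc K * V ^ e ≤ V ^ (1 - e) * V ^ e :=
        mul_le_mul_of_nonneg_right h3 (Real.rpow_nonneg hV0.le _)
    _ = V := by
        rw [← Real.rpow_add hV0]
        simp

/-- the local statement -/
theorem xd_local {k : ℕ} (P : Fin k → ℂ) (y : ℂ) (n : ℕ) (G : ℕ → MvPolynomial (Fin k) ℤ)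
    (hn : 0 < n) (hGn : MvPolynomial.aeval P (G n) ≠ 0)
    (hrel : ∑ j ∈ Finset.range (n + 1), MvPolynomial.aeval P (G j) * y ^ j = 0) :
    ∃ d1 : ℝ, 0 ≤ d1 ∧ ∀ (δ : ℝ), d1 ≤ δ → ∀ P' : Fin k → ℂ,
      (∀ i, ‖P' i - P i‖ ≤ Real.exp (-δ)) → MvPolynomial.aeval P' (G n) ≠ 0 ∧
      ∃ z : ℂ, ∑ j ∈ Finset.range (n + 1), MvPolynomial.aeval P' (G j) * z ^ j = 0 ∧
        ‖z - y‖ ≤ Real.exp (-(δ / (2 * n))) := by
  obtain ⟨N, hN⟩ : ∃ N : ℕ, ∀ j ≤ n, (G j).totalDegree ≤ N :=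
    ⟨(Finset.range (n + 1)).sup fun j => (G j).totalDegree, fun j hj =>
      Finset.le_sup (f := fun j => (G j).totalDegree) (Finset.mem_range.2 (Nat.lt_succ_of_le hj))⟩
  obtain ⟨Bn, hBn0, hBn⟩ : ∃ Bn : ℝ, 0 ≤ Bn ∧ ∀ j ≤ n, H32.T3.nrm (G j) ≤ Bn :=
    ⟨∑ j ∈ Finset.range (n + 1), H32.T3.nrm (G j),
      Finset.sum_nonneg fun j _ => H32.T3.nrm_nonneg _, fun j hj =>
      Finset.single_le_sum (f := fun j => H32.T3.nrm (G j)) (fun j _ => H32.T3.nrm_nonneg _)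
        (Finset.mem_range.2 (Nat.lt_succ_of_le hj))⟩
  obtain ⟨B, hB1, hBP, hBy⟩ : ∃ B : ℝ, 1 ≤ B ∧ (∀ i, ‖P i‖ + 1 ≤ B) ∧ ‖y‖ ≤ B := by
    refine ⟨1 + ∑ i, ‖P i‖ + ‖y‖, ?_, fun i => ?_, ?_⟩
    · have h1 : 0 ≤ ∑ i, ‖P i‖ := Finset.sum_nonneg fun i _ => norm_nonneg _
      have h2 := norm_nonneg y
      linarith
    · have h1 : ‖P i‖ ≤ ∑ i, ‖P i‖ :=
        Finset.single_le_sum (f := fun i => ‖P i‖) (fun i _ => norm_nonneg _) (Finset.mem_univ i)
      have h2 := norm_nonneg y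
      linarith
    · have h1 : 0 ≤ ∑ i, ‖P i‖ := Finset.sum_nonneg fun i _ => norm_nonneg _
      linarith
  obtain ⟨g0, hg0⟩ : ∃ g0 : ℝ, g0 = ‖MvPolynomial.aeval P (G n)‖ / 2 := ⟨_, rfl⟩
  have hg0p : 0 < g0 := by
    rw [hg0]
    have := norm_pos_iff.2 hGn
    positivity
  obtain ⟨D, hD⟩ : ∃ D : ℝ, D = Bn * (N * B ^ N) := ⟨_, rfl⟩
  have hD0 : 0 ≤ D := by rw [hD]; positivity
  obtain ⟨L, hL⟩ : ∃ L : ℝ, L = (n + 1) * (D * B ^ n) + D + 1 := ⟨_, rfl⟩
  have hL1 : 1 ≤ L := by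
    rw [hL]
    have : 0 ≤ (n + 1) * (D * B ^ n) := by positivity
    linarith
  have hLD : D ≤ L := by
    rw [hL]
    have : 0 ≤ (n + 1) * (D * B ^ n) := by positivity
    linarith
  obtain ⟨d1, hd1, hd1'⟩ : ∃ d1 : ℝ, 0 ≤ d1 ∧ L * Real.exp (-(d1 / 2)) ≤ g0 := by
    refine ⟨2 * max 0 (Real.log (L / g0)), by positivity, ?_⟩
    have h1 : Real.log (L / g0) ≤ max 0 (Real.log (L / g0)) := le_max_right _ _
    have h2 : 2 * max 0 (Real.log (L / g0)) / 2 = max 0 (Real.log (L / g0)) := by ring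
    rw [h2]
    have h3 : Real.exp (-max 0 (Real.log (L / g0))) ≤ Real.exp (-Real.log (L / g0)) :=
      Real.exp_le_exp.2 (by linarith)
    rw [Real.exp_neg (Real.log (L / g0)), Real.exp_log (by positivity)] at h3
    calc L * Real.exp (-max 0 (Real.log (L / g0))) ≤ L * (L / g0)⁻¹ :=
          mul_le_mul_of_nonneg_left h3 (by linarith)
      _ = g0 := by
          have : L ≠ 0 := by linarith
          field_simp
  refine ⟨d1, hd1, fun δ hδ P' hP' => ?_⟩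
  have hexp1 : Real.exp (-δ) ≤ 1 := Real.exp_le_one_iff.2 (by linarith)
  have hPB : ∀ i, ‖P i‖ ≤ B := fun i => by linarith [hBP i]
  have hP'B : ∀ i, ‖P' i‖ ≤ B := fun i => by
    have h1 : ‖P' i‖ ≤ ‖P' i - P i‖ + ‖P i‖ := by
      have := norm_add_le (P' i - P i) (P i)
      rwa [sub_add_cancel] at this
    linarith [hBP i, hP' i]
  have hdiff : ∀ j ≤ n, ‖MvPolynomial.aeval P' (G j) - MvPolynomial.aeval P (G j)‖ ≤
      D * Real.exp (-δ) := by
    intro j hj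
    refine (aeval_sub_le (G j) N (hN j hj) P P' B (Real.exp (-δ)) hB1 hPB hP'B hP'
      (Real.exp_pos _).le).trans ?_
    rw [hD]
    have h1 : 0 ≤ N * B ^ N * Real.exp (-δ) := by positivity
    calc H32.T3.nrm (G j) * (N * B ^ N * Real.exp (-δ)) ≤ Bn * (N * B ^ N * Real.exp (-δ)) :=
          mul_le_mul_of_nonneg_right (hBn j hj) h1
      _ = _ := by ring
  have hsum : ‖∑ j ∈ Finset.range (n + 1), MvPolynomial.aeval P' (G j) * y ^ j‖ ≤
      L * Real.exp (-δ) := by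
    have h1 : ∑ j ∈ Finset.range (n + 1), MvPolynomial.aeval P' (G j) * y ^ j =
        ∑ j ∈ Finset.range (n + 1),
          (MvPolynomial.aeval P' (G j) - MvPolynomial.aeval P (G j)) * y ^ j := by
      simp only [sub_mul]
      rw [Finset.sum_sub_distrib, hrel, sub_zero]
    rw [h1]
    refine (norm_sum_le _ _).trans ?_
    have h2 : ∀ j ∈ Finset.range (n + 1),
        ‖(MvPolynomial.aeval P' (G j) - MvPolynomial.aeval P (G j)) * y ^ j‖ ≤
          D * B ^ n * Real.exp (-δ) := by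
      intro j hj
      have hj' : j ≤ n := Nat.lt_succ_iff.1 (Finset.mem_range.1 hj)
      rw [norm_mul, norm_pow]
      have h3 : ‖y‖ ^ j ≤ B ^ n := (pow_le_pow_left₀ (norm_nonneg _) hBy j).trans
        (pow_le_pow_right₀ hB1 hj')
      calc _ ≤ (D * Real.exp (-δ)) * B ^ n :=
            mul_le_mul (hdiff j hj') h3 (by positivity) (by positivity)
        _ = _ := by ring
    refine (Finset.sum_le_card_nsmul _ _ _ h2).trans ?_
    rw [Finset.card_range, nsmul_eq_mul, hL]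
    push_cast
    have h4 : 0 ≤ (D + 1) * Real.exp (-δ) := by positivity
    nlinarith
  have hee : Real.exp (-δ) = Real.exp (-(δ / 2)) * Real.exp (-(δ / 2)) := by
    rw [← Real.exp_add]
    congr 1
    ring
  have h5 : L * Real.exp (-(δ / 2)) ≤ g0 := by
    refine le_trans (mul_le_mul_of_nonneg_left (Real.exp_le_exp.2 ?_) (by linarith)) hd1'
    linarith
  have h6 : L * Real.exp (-δ) ≤ g0 * Real.exp (-(δ / 2)) := by
    rw [hee, ← mul_assoc]
    exact mul_le_mul_of_nonneg_right h5 (Real.exp_pos _).le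
  have h7 : L * Real.exp (-δ) ≤ g0 := by
    refine h6.trans ?_
    have : Real.exp (-(δ / 2)) ≤ 1 := Real.exp_le_one_iff.2 (by linarith)
    nlinarith
  have hGn' : g0 ≤ ‖MvPolynomial.aeval P' (G n)‖ := by
    have h8 := hdiff n le_rfl
    have h9 : ‖MvPolynomial.aeval P (G n)‖ ≤ ‖MvPolynomial.aeval P' (G n)‖ +
        ‖MvPolynomial.aeval P' (G n) - MvPolynomial.aeval P (G n)‖ := by
      have := norm_sub_le (MvPolynomial.aeval P' (G n))
        (MvPolynomial.aeval P' (G n) - MvPolynomial.aeval P (G n))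
      rwa [sub_sub_cancel] at this
    have h10 : D * Real.exp (-δ) ≤ L * Real.exp (-δ) :=
      mul_le_mul_of_nonneg_right hLD (Real.exp_pos _).le
    have h11 : ‖MvPolynomial.aeval P (G n)‖ = 2 * g0 := by rw [hg0]; ring
    linarith
  have hne : MvPolynomial.aeval P' (G n) ≠ 0 := norm_pos_iff.1 (lt_of_lt_of_le hg0p hGn')
  refine ⟨hne, ?_⟩
  obtain ⟨z, hz, hzy⟩ := near_root (xdP (fun j => MvPolynomial.aeval P' (G j)) n) n hn
    (xdP_deg _ n hne) y g0 (L * Real.exp (-δ)) hg0p (by rw [xdP_lead _ n hne]; exact hGn')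
    (by rw [xdP_eval]; exact hsum)
  refine ⟨z, ?_, ?_⟩
  · have h8 := (mem_roots'.1 hz).2
    rw [IsRoot.def, xdP_eval] at h8
    exact h8
  · have h8 : ‖z - y‖ ^ n ≤ (Real.exp (-(δ / (2 * n)))) ^ n := by
      refine hzy.trans ?_
      rw [div_le_iff₀ hg0p, ← Real.exp_nat_mul]
      have : (n : ℝ) * -(δ / (2 * n)) = -(δ / 2) := by
        have : (n : ℝ) ≠ 0 := by exact_mod_cast hn.ne'
        field_simp
      rw [this]
      linarith
    exact le_of_pow_le_pow_left₀ hn.ne' (Real.exp_pos _).le h8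

/-- pigeonhole -/
theorem xd_pigeon {α β : Type*} [DecidableEq β] (S : Finset α) (Ψ : Finset β) (g : α → β)
    (hg : ∀ a ∈ S, g a ∈ Ψ) (d : α → ℝ) (n : ℕ) (hΨ : Ψ.card ≤ n)
    (hpos : 0 < ∑ a ∈ S, d a) :
    ∃ ψ ∈ Ψ, (∑ a ∈ S, d a) / n ≤ ∑ a ∈ S.filter (fun a => g a = ψ), d a := by
  have hne : Ψ.Nonempty := by
    rw [Finset.nonempty_iff_ne_empty]
    rintro rfl
    have : S = ∅ := Finset.eq_empty_of_forall_notMem fun a ha => by simpa using hg a ha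
    rw [this] at hpos
    simp at hpos
  have hn : 0 < n := lt_of_lt_of_le hne.card_pos hΨ
  by_contra hcon
  push Not at hcon
  have h1 := Finset.sum_fiberwise_of_maps_to hg d
  have h2 : ∑ ψ ∈ Ψ, ∑ a ∈ S.filter (fun a => g a = ψ), d a < ∑ ψ ∈ Ψ, (∑ a ∈ S, d a) / n :=
    Finset.sum_lt_sum_of_nonempty hne hcon
  rw [h1, Finset.sum_const, nsmul_eq_mul] at h2
  have h3 : (Ψ.card : ℝ) ≤ n := by exact_mod_cast hΨ
  have hn' : (0 : ℝ) < n := by exact_mod_cast hn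
  have h4 : (Ψ.card : ℝ) * ((∑ a ∈ S, d a) / n) ≤ n * ((∑ a ∈ S, d a) / n) :=
    mul_le_mul_of_nonneg_right h3 (by positivity)
  have h5 : (n : ℝ) * ((∑ a ∈ S, d a) / n) = ∑ a ∈ S, d a := by field_simp
  linarith

theorem xd_aeval {k : ℕ} {E F : Type*} [Field E] [Field F] (φ : E →+* F) (x : Fin k → E)
    (g : MvPolynomial (Fin k) ℤ) :
    φ (MvPolynomial.aeval x g) = MvPolynomial.aeval (fun i => φ (x i)) g := by
  have h := MvPolynomial.map_aeval x φ g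
  rw [h, MvPolynomial.aeval_def, ← MvPolynomial.coe_eval₂Hom]
  congr 2
  exact RingHom.ext_int _ _

/-- the algebraic step -/
theorem xd_alg {k : ℕ} (P : Fin k → ℂ) (y : ℂ) (n : ℕ) (G : ℕ → MvPolynomial (Fin k) ℤ)
    (hn : 0 < n) (N : ℕ) (hN : ∀ j ≤ n, (G j).totalDegree ≤ N) (Bn : ℝ) (hB1 : 1 ≤ Bn)
    (hBn : ∀ j ≤ n, H32.T3.nrm (G j) ≤ Bn) (d1 : ℝ) (hd1 : 0 ≤ d1)
    (hloc : ∀ (δ : ℝ), d1 ≤ δ → ∀ P' : Fin k → ℂ,
      (∀ i, ‖P' i - P i‖ ≤ Real.exp (-δ)) → MvPolynomial.aeval P' (G n) ≠ 0 ∧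
      ∃ z : ℂ, ∑ j ∈ Finset.range (n + 1), MvPolynomial.aeval P' (G j) * z ^ j = 0 ∧
        ‖z - y‖ ≤ Real.exp (-(δ / (2 * n))))
    (t V : ℝ) (ht : 1 ≤ t) (hV : 0 < V) (htV : t * d1 ≤ V / 2) (hA : ApprAt P t V) :
    ApprAt (Fin.snoc P y : Fin (k + 1) → ℂ)
      (n * (1 + Real.log (n * Bn) + N * k) * t) (V / (4 * n ^ 2)) := by
  classical
  obtain ⟨E, iE, iN, x, S, d, hfr, hht, hS, hVS⟩ := hA
  have hn' : (0 : ℝ) < n := by exact_mod_cast hn
  have hn1 : (1 : ℝ) ≤ n := by exact_mod_cast hn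
  obtain ⟨S1, hS1⟩ : ∃ S1 : Finset (E →+* ℂ), S1 = S.filter (fun φ => d1 ≤ d φ) := ⟨_, rfl⟩
  have hcard : (S.card : ℝ) ≤ t := by
    refine le_trans ?_ hfr
    have h1 := Finset.card_le_univ S
    rw [NumberField.Embeddings.card] at h1
    exact_mod_cast h1
  have hsum1 : V / 2 ≤ ∑ φ ∈ S1, d φ := by
    have h1 : ∑ φ ∈ S, d φ = ∑ φ ∈ S1, d φ + ∑ φ ∈ S.filter (fun φ => ¬ d1 ≤ d φ), d φ := by
      rw [hS1, Finset.sum_filter_add_sum_filter_not]
    have h2 : ∑ φ ∈ S.filter (fun φ => ¬ d1 ≤ d φ), d φ ≤ S.card * d1 := by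
      have h3 : ∑ φ ∈ S.filter (fun φ => ¬ d1 ≤ d φ), d φ ≤
          (S.filter (fun φ => ¬ d1 ≤ d φ)).card • d1 := by
        refine Finset.sum_le_card_nsmul _ _ _ fun φ hφ => ?_
        exact (not_le.1 (Finset.mem_filter.1 hφ).2).le
      refine h3.trans ?_
      rw [nsmul_eq_mul]
      have h4 : ((S.filter (fun φ => ¬ d1 ≤ d φ)).card : ℝ) ≤ S.card := by
        exact_mod_cast Finset.card_filter_le _ _
      exact mul_le_mul_of_nonneg_right h4 hd1
    have h5 : S.card * d1 ≤ t * d1 := mul_le_mul_of_nonneg_right hcard hd1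
    linarith
  have hpos1 : 0 < ∑ φ ∈ S1, d φ := by linarith
  have hS1mem : ∀ φ ∈ S1, φ ∈ S ∧ d1 ≤ d φ := fun φ hφ => by
    rw [hS1] at hφ
    exact Finset.mem_filter.1 hφ
  have hL : ∀ φ ∈ S1, MvPolynomial.aeval (fun i => φ (x i)) (G n) ≠ 0 ∧
      ∃ z : ℂ, ∑ j ∈ Finset.range (n + 1), MvPolynomial.aeval (fun i => φ (x i)) (G j) * z ^ j = 0 ∧
        ‖z - y‖ ≤ Real.exp (-(d φ / (2 * n))) := fun φ hφ =>
    hloc (d φ) (hS1mem φ hφ).2 _ (hS φ (hS1mem φ hφ).1).2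
  have hGx : MvPolynomial.aeval x (G n) ≠ 0 := by
    obtain ⟨φ, hφ⟩ : S1.Nonempty := by
      rw [Finset.nonempty_iff_ne_empty]
      rintro h
      rw [h] at hpos1
      simp at hpos1
    intro h0
    apply (hL φ hφ).1
    rw [← xd_aeval, h0, map_zero]
  obtain ⟨f, hf⟩ : ∃ f : E[X], f = xdP (fun j => MvPolynomial.aeval x (G j)) n := ⟨_, rfl⟩
  have hfdeg : f.natDegree = n := by
    rw [hf]
    exact xdP_deg _ n hGx
  have hf0 : f ≠ 0 := by
    intro h0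
    rw [h0] at hfdeg
    simp at hfdeg
    omega
  obtain ⟨Ψ, hΨc, hΨ, hΨr⟩ := xd_factors f hf0
  rw [hfdeg] at hΨc
  have hex : ∀ φ : E →+* ℂ, ∃ zψ : ℂ × E[X], φ ∈ S1 → zψ.2 ∈ Ψ ∧
      (zψ.2.map φ).eval zψ.1 = 0 ∧ ‖zψ.1 - y‖ ≤ Real.exp (-(d φ / (2 * n))) := by
    intro φ
    by_cases hφ : φ ∈ S1
    · obtain ⟨_, z, hz, hzy⟩ := hL φ hφ
      have h1 : (f.map φ).eval z = 0 := by
        rw [hf, xdP_map, xdP_eval]
        simp only [xd_aeval]
        exact hz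
      obtain ⟨ψ, hψ, h2⟩ := hΨr φ z h1
      exact ⟨(z, ψ), fun _ => ⟨hψ, h2, hzy⟩⟩
    · exact ⟨(0, 0), fun h => absurd h hφ⟩
  choose zψ hzψ using hex
  obtain ⟨ψ, hψΨ, hpig⟩ := xd_pigeon S1 Ψ (fun φ => (zψ φ).2) (fun φ hφ => (hzψ φ hφ).1) d n hΨc
    hpos1
  obtain ⟨hψirr, hψdvd⟩ := hΨ ψ hψΨ
  obtain ⟨E', iE', iN', iA, ρ, hρ, hfr1, hfr2, hlift⟩ := adjoin_root_nf E ψ hψirr
  have hψdeg : ψ.natDegree ≤ n := by
    rw [← hfdeg]
    exact natDegree_le_of_dvd hψdvd hf0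
  obtain ⟨S2, hS2⟩ : ∃ S2 : Finset (E →+* ℂ), S2 = S1.filter (fun φ => (zψ φ).2 = ψ) := ⟨_, rfl⟩
  have hS2mem : ∀ φ ∈ S2, φ ∈ S1 ∧ (zψ φ).2 = ψ := fun φ hφ => by
    rw [hS2] at hφ
    exact Finset.mem_filter.1 hφ
  rw [← hS2] at hpig
  have hex2 : ∀ φ : E →+* ℂ, ∃ φ' : E' →+* ℂ, φ ∈ S2 →
      φ'.comp (algebraMap E E') = φ ∧ φ' ρ = (zψ φ).1 := by
    intro φ
    by_cases hφ : φ ∈ S2
    · obtain ⟨h1, h2⟩ := hS2mem φ hφ
      have h3 := (hzψ φ h1).2.1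
      rw [h2] at h3
      obtain ⟨φ', h4⟩ := hlift φ _ h3
      exact ⟨φ', fun _ => h4⟩
    · obtain ⟨φ'⟩ : Nonempty (E' →+* ℂ) := inferInstance
      exact ⟨φ', fun h => absurd h hφ⟩
  choose F hF using hex2
  have hinj : Set.InjOn F (S2 : Set (E →+* ℂ)) := by
    intro φ hφ φ₂ hφ₂ h
    rw [← (hF φ hφ).1, ← (hF φ₂ hφ₂).1, h]
  have hfrE' : (Module.finrank ℚ E' : ℝ) ≤ n * t := by
    rw [hfr2]
    push_cast
    have h1 : (ψ.natDegree : ℝ) ≤ n := by exact_mod_cast hψdeg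
    exact mul_le_mul h1 hfr (Nat.cast_nonneg _) hn'.le
  have hlog : 0 ≤ Real.log (n * Bn) := Real.log_nonneg (by nlinarith)
  have hNk : (0 : ℝ) ≤ N * k := by positivity
  have hC : n * t ≤ n * (1 + Real.log (n * Bn) + N * k) * t := by
    have h1 : 0 ≤ n * t * (Real.log (n * Bn) + N * k) := by positivity
    linarith
  have hhalg : ∀ i, hE (algebraMap E E' (x i)) ≤ n * t := by
    intro i
    refine (hE_algebraMap (x i)).trans ?_
    rw [hfr1]
    have h1 : (ψ.natDegree : ℝ) ≤ n := by exact_mod_cast hψdeg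
    calc (ψ.natDegree : ℝ) * hE (x i) ≤ ψ.natDegree * t :=
          mul_le_mul_of_nonneg_left (hht i) (Nat.cast_nonneg _)
      _ ≤ n * t := mul_le_mul_of_nonneg_right h1 (by linarith)
  refine ⟨E', iE', iN', Fin.snoc (fun i => algebraMap E E' (x i)) ρ, S2.image F,
    fun φ' => d (φ'.comp (algebraMap E E')) / (2 * n), hfrE'.trans hC, ?_, ?_, ?_⟩
  · intro i
    refine Fin.lastCases ?_ (fun i => ?_) i
    · rw [Fin.snoc_last]
      have hroot : ∑ j ∈ Finset.range (n + 1),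
          MvPolynomial.aeval (fun i => algebraMap E E' (x i)) (G j) * ρ ^ j = 0 := by
        obtain ⟨q, hq⟩ := hψdvd
        have h1 : aeval ρ f = 0 := by
          rw [hq, map_mul, hρ, zero_mul]
        rw [aeval_def, ← eval_map, hf, xdP_map, xdP_eval] at h1
        simp only [xd_aeval] at h1
        exact h1
      have hlead : MvPolynomial.aeval (fun i => algebraMap E E' (x i)) (G n) ≠ 0 := by
        rw [← xd_aeval]
        exact (map_ne_zero_iff _ (algebraMap E E').injective).2 hGx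
      have h2 := hE_root_le (fun i => algebraMap E E' (x i)) n G N Bn hB1 hN hBn ρ hroot hlead
      have h3 : ∑ i, hE (algebraMap E E' (x i)) ≤ k * (n * t) := by
        refine (Finset.sum_le_card_nsmul _ _ _ fun i _ => hhalg i).trans (le_of_eq ?_)
        rw [Finset.card_univ, Fintype.card_fin, nsmul_eq_mul]
      have h4 : (Module.finrank ℚ E' : ℝ) * Real.log (n * Bn) ≤ n * t * Real.log (n * Bn) :=
        mul_le_mul_of_nonneg_right hfrE' hlog
      have h5 : (N : ℝ) * ∑ i, hE (algebraMap E E' (x i)) ≤ N * (k * (n * t)) :=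
        mul_le_mul_of_nonneg_left h3 (Nat.cast_nonneg _)
      have h6 : 0 ≤ n * t := by positivity
      linarith
    · rw [Fin.snoc_castSucc]
      exact (hhalg i).trans hC
  · intro φ' hφ'
    obtain ⟨φ, hφ, rfl⟩ := Finset.mem_image.1 hφ'
    obtain ⟨h1, h2⟩ := hF φ hφ
    obtain ⟨h3, _⟩ := hS2mem φ hφ
    obtain ⟨h4, h5⟩ := hS1mem φ h3
    obtain ⟨h6, h7⟩ := hS φ h4
    beta_reduce
    rw [h1]
    refine ⟨by positivity, fun i => ?_⟩
    refine Fin.lastCases ?_ (fun i => ?_) i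
    · rw [Fin.snoc_last, Fin.snoc_last, h2]
      exact (hzψ φ h3).2.2
    · rw [Fin.snoc_castSucc, Fin.snoc_castSucc]
      have h8 : F φ (algebraMap E E' (x i)) = φ (x i) := by
        conv_rhs => rw [← h1]
        rfl
      rw [h8]
      refine (h7 i).trans (Real.exp_le_exp.2 ?_)
      have h9 : d φ / (2 * n) ≤ d φ := div_le_self h6 (by linarith)
      linarith
  · rw [Finset.sum_image hinj]
    have h1 : ∑ φ ∈ S2, d ((F φ).comp (algebraMap E E')) / (2 * n) = (∑ φ ∈ S2, d φ) / (2 * n) := by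
      rw [Finset.sum_div]
      refine Finset.sum_congr rfl fun φ hφ => ?_
      rw [(hF φ hφ).1]
    rw [h1]
    have h2 : V / 2 / n ≤ ∑ φ ∈ S2, d φ := by
      refine le_trans ?_ hpig
      exact div_le_div_of_nonneg_right hsum1 hn'.le
    have h3 : V / (4 * n ^ 2) = V / 2 / n / (2 * n) := by
      field_simp
      ring
    rw [h3]
    exact div_le_div_of_nonneg_right h2 (by positivity)

theorem appr_ext {k : ℕ} (P : Fin k → ℂ) (y : ℂ)
    (h : IsAlgebraic (IntermediateField.adjoin ℚ (Set.range P)) y) (κ κ' : ℝ) (hκ : 1 < κ)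
    (hκ' : κ' < κ) (hA : Appr P κ) : Appr (Fin.snoc P y : Fin (k + 1) → ℂ) κ' := by
  obtain ⟨n, G, hn, hGn, hrel⟩ := alg_rel P y h
  obtain ⟨d1, hd1, hloc⟩ := xd_local P y n G hn hGn hrel
  obtain ⟨N, hN⟩ : ∃ N : ℕ, ∀ j ≤ n, (G j).totalDegree ≤ N :=
    ⟨(Finset.range (n + 1)).sup fun j => (G j).totalDegree, fun j hj =>
      Finset.le_sup (f := fun j => (G j).totalDegree) (Finset.mem_range.2 (Nat.lt_succ_of_le hj))⟩
  obtain ⟨Bn, hBn1, hBn⟩ : ∃ Bn : ℝ, 1 ≤ Bn ∧ ∀ j ≤ n, H32.T3.nrm (G j) ≤ Bn := by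
    have h0 : 0 ≤ ∑ j ∈ Finset.range (n + 1), H32.T3.nrm (G j) :=
      Finset.sum_nonneg fun j _ => H32.T3.nrm_nonneg _
    refine ⟨1 + ∑ j ∈ Finset.range (n + 1), H32.T3.nrm (G j), by linarith, fun j hj => ?_⟩
    have h1 := Finset.single_le_sum (f := fun j => H32.T3.nrm (G j))
      (fun j _ => H32.T3.nrm_nonneg _) (Finset.mem_range.2 (Nat.lt_succ_of_le hj))
    have h2 : H32.T3.nrm (G j) ≤ ∑ j ∈ Finset.range (n + 1), H32.T3.nrm (G j) := h1
    linarith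
  have hn1 : (1 : ℝ) ≤ n := by exact_mod_cast hn
  obtain ⟨C, hC⟩ : ∃ C : ℝ, C = n * (1 + Real.log (n * Bn) + N * k) := ⟨_, rfl⟩
  have hC1 : 1 ≤ C := by
    have h1 : 0 ≤ Real.log (n * Bn) := Real.log_nonneg (by nlinarith)
    have h2 : (0 : ℝ) ≤ N * k := by positivity
    rw [hC]
    nlinarith
  have hκ0 : 0 < κ := by linarith
  obtain ⟨κ0, hκ00, hκ0', hκ0κ⟩ : ∃ κ0 : ℝ, 0 ≤ κ0 ∧ κ' ≤ κ0 ∧ κ0 < κ :=
    ⟨max κ' 0, le_max_right _ _, le_max_left _ _, max_lt hκ' hκ0⟩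
  obtain ⟨U1, hU1⟩ := xd_pow (2 * d1) (1 / κ) (by positivity) (by rwa [div_lt_one hκ0])
  obtain ⟨U2, hU2⟩ := xd_pow (4 * n ^ 2 * C ^ κ0) (κ0 / κ) (by positivity)
    (by rwa [div_lt_one hκ0])
  intro U0'
  obtain ⟨t, V, ht, hUV, htκ, hAp⟩ := hA (max (max 1 (4 * n ^ 2 * U0')) (max U1 U2))
  have hV1 : 1 ≤ V := (le_max_left _ _).trans ((le_max_left _ _).trans hUV)
  have hVU : 4 * n ^ 2 * U0' ≤ V := (le_max_right _ _).trans ((le_max_left _ _).trans hUV)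
  have hVU1 : U1 ≤ V := (le_max_left _ _).trans ((le_max_right _ _).trans hUV)
  have hVU2 : U2 ≤ V := (le_max_right _ _).trans ((le_max_right _ _).trans hUV)
  have ht0 : 0 ≤ t := by linarith
  have htV : t ≤ V ^ (1 / κ) := by
    have h1 : (t ^ κ) ^ (1 / κ) ≤ V ^ (1 / κ) :=
      Real.rpow_le_rpow (Real.rpow_nonneg ht0 _) htκ (by positivity)
    rwa [← Real.rpow_mul ht0, mul_one_div_cancel hκ0.ne', Real.rpow_one] at h1
  have htd : t * d1 ≤ V / 2 := by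
    have h1 := hU1 V hVU1
    have h2 : t * d1 ≤ V ^ (1 / κ) * d1 := mul_le_mul_of_nonneg_right htV hd1
    linarith
  have hres := xd_alg P y n G hn N hN Bn hBn1 hBn d1 hd1 hloc t V ht (by linarith) htd hAp
  rw [← hC] at hres
  refine ⟨C * t, V / (4 * n ^ 2), ?_, ?_, ?_, hres⟩
  · nlinarith
  · rw [le_div_iff₀ (by positivity)]
    linarith
  · have h0 : 1 ≤ C * t := by nlinarith
    calc (C * t) ^ κ' ≤ (C * t) ^ κ0 := Real.rpow_le_rpow_of_exponent_le h0 hκ0'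
      _ = C ^ κ0 * t ^ κ0 := Real.mul_rpow (by linarith) ht0
      _ ≤ C ^ κ0 * V ^ (κ0 / κ) := by
          refine mul_le_mul_of_nonneg_left ?_ (by positivity)
          have h1 : (t ^ κ) ^ (κ0 / κ) ≤ V ^ (κ0 / κ) :=
            Real.rpow_le_rpow (Real.rpow_nonneg ht0 _) htκ (by positivity)
          rwa [← Real.rpow_mul ht0, mul_div_cancel₀ _ hκ0.ne'] at h1
      _ ≤ V / (4 * n ^ 2) := by
          rw [le_div_iff₀ (by positivity)]
          have := hU2 V hVU2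
          linarith

end CZ

end S_H32_CZ_Xd
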