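import Mathlib
import Pool.Agent.H32.AKM.P08

/-! Modular Schanuel with derivatives for points algebraic over a field with good approximations, part 14: this file joins several modules to save build time. -/

section S_H32_CZ_Pa

set_option autoImplicit false

namespace CZ

open Polynomial

theorem Pa_t (t : ℝ) (K : ℕ) (hK : 0 < K) (h0 : 0 ≤ t) (h1 : t ≤ K) :
    ((min ⌊t⌋₊ (K - 1) : ℕ) : ℝ) ≤ t ∧ t ≤ ((min ⌊t⌋₊ (K - 1) : ℕ) : ℝ) + 1 := by
  constructor
  · exact le_trans (Nat.cast_le.2 (min_le_left _ _)) (Nat.floor_le h0)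
  · rcases le_total ⌊t⌋₊ (K - 1) with h | h
    · rw [min_eq_left h]
      exact (Nat.lt_floor_add_one t).le
    · rw [min_eq_right h, Nat.cast_sub (by omega)]
      push_cast
      linarith

theorem Pa_box (K : ℕ) (hK : 0 < K) (R : ℝ) (hR : 0 < R) (x y : ℝ) (hx : |x| ≤ R) (hy : |y| ≤ R)
    (h : min ⌊(x + R) * K / (2 * R)⌋₊ (K - 1) = min ⌊(y + R) * K / (2 * R)⌋₊ (K - 1)) :
    |x - y| ≤ 2 * R / K := by
  have hK' : (0 : ℝ) < K := Nat.cast_pos.2 hK
  have key : ∀ x : ℝ, |x| ≤ R → 0 ≤ (x + R) * K / (2 * R) ∧ (x + R) * K / (2 * R) ≤ K := by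
    intro x hx
    rw [abs_le] at hx
    constructor
    · exact div_nonneg (mul_nonneg (by linarith [hx.1]) hK'.le) (by linarith)
    · rw [div_le_iff₀ (by linarith)]
      nlinarith [hx.2]
  obtain ⟨a1, a2⟩ := Pa_t _ K hK (key x hx).1 (key x hx).2
  obtain ⟨b1, b2⟩ := Pa_t _ K hK (key y hy).1 (key y hy).2
  rw [h] at a1 a2
  have h1 : |(x + R) * K / (2 * R) - (y + R) * K / (2 * R)| ≤ 1 := by
    rw [abs_le]
    constructor <;> linarith
  have h2 : x - y = ((x + R) * K / (2 * R) - (y + R) * K / (2 * R)) * (2 * R / K) := by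
    field_simp
    ring
  have h3 : 0 < 2 * R / K := div_pos (by linarith) hK'
  rw [h2, abs_mul, abs_of_pos h3]
  nlinarith

/-- The polynomial with given coefficients. -/
noncomputable def Pa_poly {a m : ℕ} (d : Fin a → Fin m → ℤ) : ℤ[X][X] :=
  ∑ j : Fin a, ∑ i : Fin m, monomial (j : ℕ) (monomial (i : ℕ) (d j i))

theorem Pa_coeff {a m : ℕ} (d : Fin a → Fin m → ℤ) (j i : ℕ) :
    ((Pa_poly d).coeff j).coeff i =
      if h : j < a ∧ i < m then d ⟨j, h.1⟩ ⟨i, h.2⟩ else 0 := by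
  have h1 : ((Pa_poly d).coeff j).coeff i =
      ∑ j' : Fin a, ∑ i' : Fin m, if (j' : ℕ) = j ∧ (i' : ℕ) = i then d j' i' else 0 := by
    rw [Pa_poly]
    simp only [finset_sum_coeff]
    refine Finset.sum_congr rfl fun j' _ ↦ Finset.sum_congr rfl fun i' _ ↦ ?_
    rw [coeff_monomial]
    by_cases hj : (j' : ℕ) = j
    · rw [if_pos hj, coeff_monomial]
      by_cases hi : (i' : ℕ) = i
      · rw [if_pos hi, if_pos ⟨hj, hi⟩]
      · rw [if_neg hi, if_neg fun h ↦ hi h.2]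
    · rw [if_neg hj, if_neg fun h ↦ hj h.1, coeff_zero]
  rw [h1]
  by_cases h : j < a ∧ i < m
  · rw [dif_pos h, Finset.sum_eq_single (⟨j, h.1⟩ : Fin a), Finset.sum_eq_single (⟨i, h.2⟩ : Fin m)]
    · rw [if_pos ⟨rfl, rfl⟩]
    · intro b _ hb
      rw [if_neg]
      rintro ⟨_, h3⟩
      exact hb (Fin.ext h3)
    · intro hb
      exact absurd (Finset.mem_univ _) hb
    · intro b _ hb
      refine Finset.sum_eq_zero fun i' _ ↦ ?_
      rw [if_neg]
      rintro ⟨h3, _⟩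
      exact hb (Fin.ext h3)
    · intro hb
      exact absurd (Finset.mem_univ _) hb
  · rw [dif_neg h]
    refine Finset.sum_eq_zero fun j' _ ↦ Finset.sum_eq_zero fun i' _ ↦ ?_
    rw [if_neg]
    rintro ⟨h3, h4⟩
    exact h ⟨h3 ▸ j'.2, h4 ▸ i'.2⟩

theorem Pa_ev {a m : ℕ} (d : Fin a → Fin m → ℤ) (x y : ℂ) :
    evH x y (Pa_poly d) = ∑ j : Fin a, ∑ i : Fin m, (d j i : ℂ) * x ^ (i : ℕ) * y ^ (j : ℕ) := by
  rw [Pa_poly]
  simp only [map_sum]
  refine Finset.sum_congr rfl fun j _ ↦ Finset.sum_congr rfl fun i _ ↦ ?_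
  rw [evH, coe_eval₂RingHom, eval₂_monomial, coe_eval₂RingHom, eval₂_monomial]
  rfl

theorem pigeon (θ1 θ2 : ℂ) (B : ℝ) (hB : 1 ≤ B) (h1 : ‖θ1‖ ≤ B) (h2 : ‖θ2‖ ≤ B)
    (m a H : ℕ) (hm : 0 < m) (ha : 0 < a) (hH : 0 < H) :
    ∃ P : ℤ[X][X], P ≠ 0 ∧ P.natDegree < a ∧ (∀ j, (P.coeff j).natDegree < m) ∧
      (∀ j i, |((P.coeff j).coeff i : ℝ)| ≤ H) ∧
      ‖evH θ1 θ2 P‖ ≤ 8 * (m * a * H) * B ^ (m + a) * (H : ℝ) ^ (-((m * a : ℕ) : ℝ) / 2) := by
  have hB0 : 0 ≤ B := le_trans zero_le_one hB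
  have hH' : (0 : ℝ) < H := Nat.cast_pos.2 hH
  have hm' : (0 : ℝ) < m := Nat.cast_pos.2 hm
  have ha' : (0 : ℝ) < a := Nat.cast_pos.2 ha
  obtain ⟨R, hR⟩ : ∃ R : ℝ, R = m * a * H * B ^ (m + a) := ⟨_, rfl⟩
  have hR0 : 0 < R := by
    rw [hR]
    exact mul_pos (mul_pos (mul_pos hm' ha') hH') (pow_pos (lt_of_lt_of_le zero_lt_one hB) _)
  -- the number of squares
  obtain ⟨s, hs⟩ : ∃ s : ℝ, s = ((H + 1 : ℕ) : ℝ) ^ (((m * a : ℕ) : ℝ) / 2) := ⟨_, rfl⟩
  have hs1 : 1 < s := by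
    rw [hs]
    refine Real.one_lt_rpow ?_ (div_pos (Nat.cast_pos.2 (Nat.mul_pos hm ha)) two_pos)
    push_cast
    linarith
  have hs2 : s ^ 2 = (((H + 1) ^ (m * a) : ℕ) : ℝ) := by
    rw [hs, ← Real.rpow_natCast, ← Real.rpow_mul (Nat.cast_nonneg _)]
    push_cast
    rw [div_mul_cancel₀ _ (two_ne_zero), ← Nat.cast_mul, Real.rpow_natCast]
  obtain ⟨K, hK⟩ : ∃ K : ℕ, K = ⌈s⌉₊ - 1 := ⟨_, rfl⟩
  have hc2 : 2 ≤ ⌈s⌉₊ := by
    have : 1 < ⌈s⌉₊ := Nat.lt_ceil.2 (by exact_mod_cast hs1)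
    omega
  have hK1 : 0 < K := by omega
  have hKc : (K : ℝ) = ⌈s⌉₊ - 1 := by
    rw [hK, Nat.cast_sub (by omega)]
    push_cast
    rfl
  have hKs : (K : ℝ) < s := by
    rw [hKc]
    linarith [Nat.ceil_lt_add_one (le_trans zero_le_one hs1.le)]
  have hKs2 : s / 2 ≤ K := by
    have h3 : s - 1 ≤ K := by
      rw [hKc]
      linarith [Nat.le_ceil s]
    have h4 : (1 : ℝ) ≤ K := by exact_mod_cast hK1
    rcases le_total 2 s with h | h <;> linarith
  have hK2 : K * K < (H + 1) ^ (m * a) := by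
    have h3 : ((K * K : ℕ) : ℝ) < (((H + 1) ^ (m * a) : ℕ) : ℝ) := by
      rw [← hs2]
      push_cast
      have : (0 : ℝ) ≤ K := Nat.cast_nonneg _
      nlinarith
    exact_mod_cast h3
  -- the values
  obtain ⟨g, hg⟩ : ∃ g : (Fin a → Fin m → Fin (H + 1)) → ℂ, g = fun c ↦
      ∑ j : Fin a, ∑ i : Fin m, ((c j i : ℕ) : ℂ) * θ1 ^ (i : ℕ) * θ2 ^ (j : ℕ) := ⟨_, rfl⟩
  have hgn : ∀ c, ‖g c‖ ≤ R := by
    intro c
    have h3 : ∀ j : Fin a, ∀ i : Fin m,
        ‖((c j i : ℕ) : ℂ) * θ1 ^ (i : ℕ) * θ2 ^ (j : ℕ)‖ ≤ H * B ^ (m + a) := by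
      intro j i
      rw [norm_mul, norm_mul, norm_pow, norm_pow, Complex.norm_natCast, mul_assoc, pow_add]
      refine mul_le_mul (Nat.cast_le.2 (Nat.lt_succ_iff.1 (c j i).2)) ?_ (by positivity) hH'.le
      refine mul_le_mul ?_ ?_ (by positivity) (by positivity)
      · exact le_trans (pow_le_pow_left₀ (norm_nonneg _) h1 _) (pow_le_pow_right₀ hB i.2.le)
      · exact le_trans (pow_le_pow_left₀ (norm_nonneg _) h2 _) (pow_le_pow_right₀ hB j.2.le)
    rw [hg]
    refine le_trans (norm_sum_le _ _) ?_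
    refine le_trans (Finset.sum_le_sum fun j _ ↦ le_trans (norm_sum_le _ _)
      (Finset.sum_le_sum fun i _ ↦ h3 j i)) ?_
    rw [Finset.sum_const, Finset.sum_const, Finset.card_univ, Finset.card_univ, Fintype.card_fin,
      Fintype.card_fin, nsmul_eq_mul, nsmul_eq_mul, hR]
    refine le_of_eq ?_
    ring
  have hbox : ∀ x : ℝ, min ⌊(x + R) * K / (2 * R)⌋₊ (K - 1) < K := by
    intro x
    have := min_le_right ⌊(x + R) * K / (2 * R)⌋₊ (K - 1)
    omega
  obtain ⟨c, c', hcc, hf⟩ := Fintype.exists_ne_map_eq_of_card_lt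
    (fun c : Fin a → Fin m → Fin (H + 1) ↦
      ((⟨_, hbox (g c).re⟩, ⟨_, hbox (g c).im⟩) : Fin K × Fin K)) (by
      rw [Fintype.card_prod, Fintype.card_fin, Fintype.card_fun, Fintype.card_fun,
        Fintype.card_fin, Fintype.card_fin, Fintype.card_fin, ← pow_mul]
      exact hK2)
  have hf1 : min ⌊((g c).re + R) * K / (2 * R)⌋₊ (K - 1) =
      min ⌊((g c').re + R) * K / (2 * R)⌋₊ (K - 1) := Fin.ext_iff.1 (Prod.ext_iff.1 hf).1
  have hf2 : min ⌊((g c).im + R) * K / (2 * R)⌋₊ (K - 1) =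
      min ⌊((g c').im + R) * K / (2 * R)⌋₊ (K - 1) := Fin.ext_iff.1 (Prod.ext_iff.1 hf).2
  have hre := Pa_box K hK1 R hR0 _ _ (le_trans (Complex.abs_re_le_norm _) (hgn c))
    (le_trans (Complex.abs_re_le_norm _) (hgn c')) hf1
  have him := Pa_box K hK1 R hR0 _ _ (le_trans (Complex.abs_im_le_norm _) (hgn c))
    (le_trans (Complex.abs_im_le_norm _) (hgn c')) hf2
  obtain ⟨d, hd⟩ : ∃ d : Fin a → Fin m → ℤ, d = fun j i ↦ ((c j i : ℕ) : ℤ) - ((c' j i : ℕ) : ℤ) :=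
    ⟨_, rfl⟩
  have hcz : ∀ j i, 0 < a → ((Pa_poly d).coeff j).coeff i ≠ 0 → j < a ∧ i < m := by
    intro j i _ h
    by_contra hcon
    exact h (by rw [Pa_coeff, dif_neg hcon])
  refine ⟨Pa_poly d, ?_, ?_, ?_, ?_, ?_⟩
  · intro h0
    apply hcc
    funext j i
    have h3 := Pa_coeff d j i
    rw [h0, dif_pos ⟨j.2, i.2⟩, coeff_zero, coeff_zero] at h3
    have h4 : d j i = 0 := h3.symm
    rw [hd] at h4
    exact Fin.ext (by exact_mod_cast sub_eq_zero.1 h4)
  · refine lt_of_le_of_lt (natDegree_le_iff_coeff_eq_zero.2 fun N hN ↦ ?_)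
      (Nat.sub_lt ha one_pos)
    ext i
    rw [coeff_zero]
    by_contra hcon
    have := hcz N i ha hcon
    omega
  · intro j
    refine lt_of_le_of_lt (natDegree_le_iff_coeff_eq_zero.2 fun N hN ↦ ?_)
      (Nat.sub_lt hm one_pos)
    by_contra hcon
    have := hcz j N ha hcon
    omega
  · intro j i
    rw [Pa_coeff]
    split_ifs with h
    · rw [hd]
      have h3 := Nat.lt_succ_iff.1 (c ⟨j, h.1⟩ ⟨i, h.2⟩).2
      have h4 := Nat.lt_succ_iff.1 (c' ⟨j, h.1⟩ ⟨i, h.2⟩).2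
      have h5 : ((c ⟨j, h.1⟩ ⟨i, h.2⟩ : ℕ) : ℝ) ≤ H := Nat.cast_le.2 h3
      have h6 : ((c' ⟨j, h.1⟩ ⟨i, h.2⟩ : ℕ) : ℝ) ≤ H := Nat.cast_le.2 h4
      have h7 : (0 : ℝ) ≤ ((c ⟨j, h.1⟩ ⟨i, h.2⟩ : ℕ) : ℝ) := Nat.cast_nonneg _
      have h8 : (0 : ℝ) ≤ ((c' ⟨j, h.1⟩ ⟨i, h.2⟩ : ℕ) : ℝ) := Nat.cast_nonneg _
      push_cast
      rw [abs_le]
      constructor <;> linarith
    · rw [Int.cast_zero, abs_zero]
      exact hH'.le
  · have h3 : evH θ1 θ2 (Pa_poly d) = g c - g c' := by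
      rw [Pa_ev, hg, hd]
      simp only
      rw [← Finset.sum_sub_distrib]
      refine Finset.sum_congr rfl fun j _ ↦ ?_
      rw [← Finset.sum_sub_distrib]
      refine Finset.sum_congr rfl fun i _ ↦ ?_
      push_cast
      ring
    rw [h3]
    have h4 : ‖g c - g c'‖ ≤ 4 * R / K := by
      refine le_trans (Complex.norm_le_abs_re_add_abs_im _) ?_
      rw [Complex.sub_re, Complex.sub_im]
      refine le_trans (add_le_add hre him) (le_of_eq ?_)
      ring
    have hs0 : 0 < s := by linarith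
    have h5 : 4 * R / K ≤ 8 * R * s⁻¹ := by
      rw [div_le_iff₀ (Nat.cast_pos.2 hK1)]
      have h6 : 4 * R = 8 * R * s⁻¹ * (s / 2) := by
        field_simp
        norm_num
      calc 4 * R = 8 * R * s⁻¹ * (s / 2) := h6
        _ ≤ 8 * R * s⁻¹ * K := mul_le_mul_of_nonneg_left hKs2 (by positivity)
    have h6 : s⁻¹ ≤ (H : ℝ) ^ (-((m * a : ℕ) : ℝ) / 2) := by
      rw [neg_div, Real.rpow_neg hH'.le, hs]
      refine inv_anti₀ (Real.rpow_pos_of_pos hH' _) (Real.rpow_le_rpow hH'.le ?_ (by positivity))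
      push_cast
      linarith
    calc ‖g c - g c'‖ ≤ 8 * R * s⁻¹ := le_trans h4 h5
      _ ≤ 8 * R * (H : ℝ) ^ (-((m * a : ℕ) : ℝ) / 2) :=
          mul_le_mul_of_nonneg_left h6 (by positivity)
      _ = _ := by
          rw [hR]
          ring

end CZ

end S_H32_CZ_Pa

section S_H32_CZ_Pd

set_option autoImplicit false

namespace CZ

open Polynomial

/-- the size of the pigeonhole polynomial -/
private theorem Pd_size {x a m ℓ C3 h L μ U C2 : ℝ} (hx : 8 ≤ x) (ha : 1 ≤ a) (hm1 : x * a ≤ m) (hm2 : m ≤ x * a + 1)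
    (hℓ : 0 ≤ ℓ) (hC3 : 4 + 3 * ℓ ≤ C3) (hh : h = C3 * x * μ) (hL : h ≤ L) (hμ : a ≤ μ)
    (hC : 4 ≤ C2 * C3) (hU : 0 ≤ U) (hx2 : x ^ 2 * a ^ 2 * μ = C2 * U) :
    3 + (m - 1) + (a - 1) + (m + a) * ℓ + (1 - m * a / 2) * L ≤ -U := by
  have hxa : 8 * a ≤ x * a := mul_le_mul_of_nonneg_right hx (by linarith)
  have hxa8 : 8 ≤ x * a := by linarith
  have hm8 : 8 ≤ m := by linarith
  have hM : 8 ≤ m * a := by nlinarith
  have hC3p : 0 < C3 := by linarith
  have hh0 : 0 ≤ h := by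
    rw [hh]
    have : 0 ≤ μ := by linarith
    positivity
  have h1 : (1 - m * a / 2) * L ≤ -((m * a / 4 + 1) * h) := by
    have h2 : (m * a / 4 + 1) * h ≤ (m * a / 2 - 1) * L := by
      have h3 : (m * a / 4 + 1) * h ≤ (m * a / 2 - 1) * h := mul_le_mul_of_nonneg_right (by linarith) hh0
      have h4 : (m * a / 2 - 1) * h ≤ (m * a / 2 - 1) * L := mul_le_mul_of_nonneg_left hL (by linarith)
      exact h3.trans h4
    linarith
  have h5 : 3 + (m - 1) + (a - 1) + (m + a) * ℓ ≤ (4 + 3 * ℓ) * (x * a) := by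
    have h6 : m + a ≤ 3 * (x * a) := by linarith
    have h7 : (m + a) * ℓ ≤ 3 * (x * a) * ℓ := mul_le_mul_of_nonneg_right h6 hℓ
    nlinarith
  have h8 : (4 + 3 * ℓ) * (x * a) ≤ h := by
    rw [hh]
    calc (4 + 3 * ℓ) * (x * a) ≤ C3 * (x * a) := mul_le_mul_of_nonneg_right hC3 (by linarith)
      _ ≤ C3 * (x * μ) := mul_le_mul_of_nonneg_left (mul_le_mul_of_nonneg_left hμ (by linarith)) hC3p.le
      _ = C3 * x * μ := by ring
  have h9 : U ≤ m * a / 4 * h := by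
    have h10 : x * a * a / 4 * h ≤ m * a / 4 * h := by
      have : x * a * a ≤ m * a := mul_le_mul_of_nonneg_right hm1 (by linarith)
      exact mul_le_mul_of_nonneg_right (by linarith) hh0
    have h11 : x * a * a / 4 * h = C3 / 4 * (C2 * U) := by
      rw [hh, ← hx2]
      ring
    have h12 : U ≤ C3 / 4 * (C2 * U) := by nlinarith
    linarith
  nlinarith

theorem second (θ1 θ2 : ℂ) (c0 : ℝ) (hc : 0 < c0) :
    ∃ C : ℝ, 1 ≤ C ∧ ∀ (A : ℤ[X][X]) (U : ℝ), 0 < A.natDegree → c0 * mu2 A ^ 3 ≤ U →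
      ∃ Q : ℤ[X][X], Q ≠ 0 ∧ Q.natDegree < A.natDegree ∧
        (dX Q : ℝ) ≤ C * √(U / mu2 A) ∧
        Real.log (nr2 Q) ≤ C * √(U * mu2 A) / A.natDegree ∧
        ‖evH θ1 θ2 Q‖ ≤ Real.exp (-U) := by
  set B : ℝ := max 1 (max ‖θ1‖ ‖θ2‖) with hB
  have hB1 : 1 ≤ B := le_max_left _ _
  have hθ1 : ‖θ1‖ ≤ B := (le_max_left _ _).trans (le_max_right _ _)
  have hθ2 : ‖θ2‖ ≤ B := (le_max_right _ _).trans (le_max_right _ _)
  have hB0 : 0 < B := by linarith
  set ℓ : ℝ := Real.log B with hℓ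
  have hℓ0 : 0 ≤ ℓ := Real.log_nonneg hB1
  set C2 : ℝ := 64 / c0 with hC2
  have hC2p : 0 < C2 := by positivity
  set C3 : ℝ := 4 + 3 * ℓ + 4 / C2 with hC3
  have hC3a : 4 + 3 * ℓ ≤ C3 := by
    have : 0 < 4 / C2 := by positivity
    linarith
  have hC3p : 0 < C3 := by linarith
  have hC23 : 4 ≤ C2 * C3 := by
    have h1 : C2 * (4 / C2) = 4 := by field_simp
    have h2 : C2 * C3 = C2 * (4 + 3 * ℓ) + C2 * (4 / C2) := by rw [hC3]; ring
    rw [h2, h1]
    have : 0 ≤ C2 * (4 + 3 * ℓ) := by positivity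
    linarith
  refine ⟨1 + 2 * √C2 + 2 * C3 * √C2, ?_, ?_⟩
  · have : 0 ≤ √C2 := Real.sqrt_nonneg _
    have : 0 ≤ 2 * C3 * √C2 := by positivity
    linarith
  intro A U ha hU
  have hA0 : A ≠ 0 := by
    rintro rfl
    simp at ha
  set a := A.natDegree with had
  have haR : (1 : ℝ) ≤ a := by exact_mod_cast ha
  set μ := mu2 A with hμd
  have hμ : (a : ℝ) ≤ μ := by
    rw [hμd, mu2, ← had]
    have h1 : 0 ≤ Real.log (nr2 A) := Real.log_nonneg (one_le_nr2 hA0)
    have h2 : (0 : ℝ) ≤ dX A := Nat.cast_nonneg _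
    linarith
  have hμ1 : 1 ≤ μ := haR.trans hμ
  have hμ0 : 0 < μ := by linarith
  have hU0 : 0 < U := lt_of_lt_of_le (by positivity) hU
  set x : ℝ := √(C2 * U / (a ^ 2 * μ)) with hx
  have hq : 0 < C2 * U / (a ^ 2 * μ) := by positivity
  have hx0 : 0 < x := Real.sqrt_pos.2 hq
  have hxx : x ^ 2 = C2 * U / (a ^ 2 * μ) := Real.sq_sqrt hq.le
  have hx2 : x ^ 2 * a ^ 2 * μ = C2 * U := by
    rw [hxx]
    field_simp
  have hx8 : 8 ≤ x := by
    have h1 : (64 : ℝ) ≤ x ^ 2 := by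
      rw [hxx, le_div_iff₀ (by positivity)]
      have h2 : (a : ℝ) ^ 2 ≤ μ ^ 2 := pow_le_pow_left₀ (by linarith) hμ 2
      have h3 : 64 * ((a : ℝ) ^ 2 * μ) ≤ 64 * (μ ^ 2 * μ) :=
        mul_le_mul_of_nonneg_left (mul_le_mul_of_nonneg_right h2 hμ0.le) (by norm_num)
      have h4 : 64 * (μ ^ 2 * μ) = C2 * (c0 * μ ^ 3) := by
        rw [hC2]
        field_simp
      have h5 : C2 * (c0 * μ ^ 3) ≤ C2 * U := mul_le_mul_of_nonneg_left hU hC2p.le
      linarith
    nlinarith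
  set m : ℕ := ⌈x * a⌉₊ with hm
  have hxa0 : 0 ≤ x * a := by positivity
  have hm1 : x * a ≤ m := Nat.le_ceil _
  have hm2 : (m : ℝ) ≤ x * a + 1 := (Nat.ceil_lt_add_one hxa0).le
  have hxa8 : 8 ≤ x * a := by nlinarith
  have hm8 : (8 : ℝ) ≤ m := by linarith
  have hm0 : 0 < m := by
    have : (0 : ℝ) < m := by linarith
    exact_mod_cast this
  set h : ℝ := C3 * x * μ with hh
  have hh0 : 0 ≤ h := by positivity
  set H : ℕ := ⌈Real.exp h⌉₊ with hH
  have hH1 : Real.exp h ≤ H := Nat.le_ceil _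
  have hH2 : (H : ℝ) ≤ Real.exp h + 1 := (Nat.ceil_lt_add_one (Real.exp_pos _).le).le
  have he1 : 1 ≤ Real.exp h := Real.one_le_exp hh0
  have hHpos : (0 : ℝ) < H := by linarith
  have hH0 : 0 < H := by exact_mod_cast hHpos
  obtain ⟨Q, hQ0, hQa, hQm, hQH, hQv⟩ := pigeon θ1 θ2 B hB1 hθ1 hθ2 m a H hm0 ha hH0
  have hmR : (0 : ℝ) < m := by linarith
  have haR0 : (0 : ℝ) < a := by linarith
  have hLh : h ≤ Real.log H := by
    rw [Real.le_log_iff_exp_le hHpos]
    exact hH1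
  have hLh2 : Real.log H ≤ h + 1 := by
    rw [Real.log_le_iff_le_exp hHpos, Real.exp_add]
    have h2 : (2 : ℝ) ≤ Real.exp 1 := by
      have := Real.exp_one_gt_d9
      linarith
    nlinarith
  have hlm : Real.log m ≤ m - 1 := Real.log_le_sub_one_of_pos hmR
  have hla : Real.log a ≤ a - 1 := Real.log_le_sub_one_of_pos haR0
  have hxa : 8 * (a : ℝ) ≤ x * a := mul_le_mul_of_nonneg_right hx8 (by linarith)
  have hs : √C2 * √C2 = C2 := Real.mul_self_sqrt hC2p.le
  have hsp : 0 < √C2 := Real.sqrt_pos.2 hC2p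
  refine ⟨Q, hQ0, hQa, ?_, ?_, ?_⟩
  · have h1 : dX Q ≤ m := dX_le_iff.2 fun j => (hQm j).le
    have h2 : (dX Q : ℝ) ≤ m := by exact_mod_cast h1
    have h3 : x * a = √C2 * √(U / μ) := by
      rw [← Real.sqrt_mul hC2p.le, ← Real.sqrt_sq hxa0]
      congr 1
      rw [mul_pow, hxx]
      field_simp
    have h4 : 0 ≤ √(U / μ) := Real.sqrt_nonneg _
    calc (dX Q : ℝ) ≤ 2 * (x * a) := by linarith
      _ = 2 * √C2 * √(U / μ) := by rw [h3]; ring
      _ ≤ (1 + 2 * √C2 + 2 * C3 * √C2) * √(U / μ) := by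
        refine mul_le_mul_of_nonneg_right ?_ h4
        have : 0 ≤ 2 * C3 * √C2 := by positivity
        linarith
  · have h1 : nr2 Q ≤ m * a * H := nr2_le_of_coeff hQa hQm hQH
    have h2 : 0 < nr2 Q := by linarith [one_le_nr2 hQ0]
    have h3 : Real.log (nr2 Q) ≤ Real.log m + Real.log a + Real.log H := by
      rw [← Real.log_mul hmR.ne' haR0.ne', ← Real.log_mul (by positivity) hHpos.ne']
      exact Real.log_le_log h2 h1
    have h4 : Real.log (nr2 Q) ≤ 3 * (x * a) + h := by linarith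
    have h5 : 3 * (x * a) ≤ h := by
      rw [hh]
      have h6 : 3 * (x * a) ≤ C3 * (x * a) := mul_le_mul_of_nonneg_right (by linarith) hxa0
      have h7 : C3 * (x * a) ≤ C3 * (x * μ) :=
        mul_le_mul_of_nonneg_left (mul_le_mul_of_nonneg_left hμ hx0.le) hC3p.le
      calc 3 * (x * a) ≤ C3 * (x * μ) := h6.trans h7
        _ = C3 * x * μ := by ring
    have h8 : x * μ = √C2 * √(U * μ) / a := by
      rw [eq_div_iff haR0.ne', ← Real.sqrt_mul hC2p.le]
      have h9 : 0 ≤ x * μ * a := by positivity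
      rw [← Real.sqrt_sq h9]
      congr 1
      calc (x * μ * a) ^ 2 = (x ^ 2 * a ^ 2 * μ) * μ := by ring
        _ = C2 * (U * μ) := by rw [hx2]; ring
    calc Real.log (nr2 Q) ≤ 2 * h := by linarith
      _ = 2 * C3 * (x * μ) := by rw [hh]; ring
      _ = 2 * C3 * √C2 * √(U * μ) / a := by rw [h8]; ring
      _ ≤ (1 + 2 * √C2 + 2 * C3 * √C2) * √(U * μ) / a := by
        refine div_le_div_of_nonneg_right (mul_le_mul_of_nonneg_right ?_ (Real.sqrt_nonneg _)) haR0.le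
        linarith
  · refine hQv.trans ?_
    have e1 : (8 : ℝ) * (m * a * H) * B ^ (m + a) * (H : ℝ) ^ (-((m * a : ℕ) : ℝ) / 2) =
        Real.exp (Real.log 8 + (Real.log m + Real.log a + Real.log H) + ((m : ℝ) + a) * ℓ +
          (-((m : ℝ) * a) / 2) * Real.log H) := by
      rw [Real.exp_add, Real.exp_add, Real.exp_add, Real.exp_add, Real.exp_add, Real.exp_log (by norm_num),
        Real.exp_log hmR, Real.exp_log haR0, Real.exp_log hHpos, Real.rpow_def_of_pos hHpos]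
      have e2 : Real.exp (((m : ℝ) + a) * ℓ) = B ^ (m + a) := by
        have e3 : ((m : ℝ) + a) * ℓ = ((m + a : ℕ) : ℝ) * Real.log B := by
          rw [hℓ]
          push_cast
          ring
        rw [e3, Real.exp_nat_mul, Real.exp_log hB0]
      rw [e2]
      congr 2
      push_cast
      ring
    rw [e1]
    apply Real.exp_le_exp.2
    have h8 : Real.log 8 ≤ 3 := by
      have h9 : Real.log 8 = 3 * Real.log 2 := by
        rw [show (8 : ℝ) = 2 ^ 3 by norm_num, Real.log_pow]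
        norm_num
      rw [h9]
      have := Real.log_two_lt_d9
      linarith
    have key := Pd_size (L := Real.log H) hx8 haR hm1 hm2 hℓ0 hC3a hh hLh hμ hC23 hU0.le hx2
    have e4 : Real.log 8 + (Real.log m + Real.log a + Real.log H) + ((m : ℝ) + a) * ℓ +
          (-((m : ℝ) * a) / 2) * Real.log H =
        Real.log 8 + Real.log m + Real.log a + ((m : ℝ) + a) * ℓ + (1 - (m : ℝ) * a / 2) * Real.log H := by
      ring
    rw [e4]
    linarith

end CZ

end S_H32_CZ_Pd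

section S_H32_CZ_Pg

set_option autoImplicit false

namespace CZ

open Polynomial

open Finset in
theorem Pg_sum {M : Type*} [AddCommMonoid M] (N j m : ℕ) (h : j + m < N) (a : ℕ → ℕ → M) :
    ∑ i : Fin N, (if (i : ℕ) ∈ Set.Icc j (j + m) then a i (i - j) else 0) =
      ∑ k ∈ range (m + 1), a (j + k) k := by
  classical
  rw [Fin.sum_univ_eq_sum_range (fun i ↦ if i ∈ Set.Icc j (j + m) then a i (i - j) else 0) N,
    ← Finset.sum_filter]
  have h1 : (range N).filter (· ∈ Set.Icc j (j + m)) = (range (m + 1)).map (addLeftEmbedding j) := by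
    ext i
    simp only [mem_filter, mem_range, Set.mem_Icc, mem_map, addLeftEmbedding_apply]
    constructor
    · rintro ⟨_, h2, h3⟩
      exact ⟨i - j, by omega, by omega⟩
    · rintro ⟨k, h2, rfl⟩
      omega
  rw [h1, sum_map]
  refine sum_congr rfl fun k _ ↦ ?_
  rw [addLeftEmbedding_apply, Nat.add_sub_cancel_left]

theorem Pg_eval (P : ℂ[X]) (v : ℂ) (N j m : ℕ) (hP : P.natDegree ≤ m) (h : j + m < N) :
    ∑ i : Fin N, v ^ (i : ℕ) * (if (i : ℕ) ∈ Set.Icc j (j + m) then P.coeff (i - j) else 0) =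
      v ^ j * P.eval v := by
  have h1 := Pg_sum (M := ℂ) N j m h (fun i k ↦ v ^ i * P.coeff k)
  calc _ = ∑ i : Fin N, (if (i : ℕ) ∈ Set.Icc j (j + m) then v ^ (i : ℕ) * P.coeff (i - j) else 0) := by
        refine Finset.sum_congr rfl fun i _ ↦ ?_
        rw [mul_ite, mul_zero]
    _ = _ := by
        rw [h1, Polynomial.eval_eq_sum_range' (Nat.lt_succ_of_le hP), Finset.mul_sum]
        refine Finset.sum_congr rfl fun k _ ↦ ?_
        rw [pow_add]
        ring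

theorem Pg_colsum (P : ℤ[X][X]) (u : ℂ) (B : ℝ) (hB : 1 ≤ B) (hu : ‖u‖ ≤ B) (N j m : ℕ)
    (h : j + m < N) :
    ∑ i : Fin N, ‖(if (i : ℕ) ∈ Set.Icc j (j + m) then
      (P.map (eval₂RingHom (Int.castRingHom ℂ) u)).coeff (i - j) else 0)‖ ≤ nr2 P * B ^ dX P := by
  have h1 := Pg_sum (M := ℝ) N j m h
    (fun _ k ↦ ‖(P.map (eval₂RingHom (Int.castRingHom ℂ) u)).coeff k‖)
  calc _ = ∑ i : Fin N, (if (i : ℕ) ∈ Set.Icc j (j + m) then
        ‖(P.map (eval₂RingHom (Int.castRingHom ℂ) u)).coeff (i - j)‖ else 0) := by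
        refine Finset.sum_congr rfl fun i _ ↦ ?_
        split_ifs
        · rfl
        · exact norm_zero
    _ = ∑ k ∈ Finset.range (m + 1), ‖(P.map (eval₂RingHom (Int.castRingHom ℂ) u)).coeff k‖ := h1
    _ ≤ ∑ k ∈ Finset.range (m + 1), nr (P.coeff k) * B ^ dX P := by
        refine Finset.sum_le_sum fun k _ ↦ ?_
        rw [coeff_map]
        refine le_trans (norm_aeval_le (P.coeff k) u B hB hu) ?_
        exact mul_le_mul_of_nonneg_left (pow_le_pow_right₀ hB (coeff_le_dX P k)) (nr_nonneg _)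
    _ = (∑ k ∈ Finset.range (m + 1), nr (P.coeff k)) * B ^ dX P := by rw [Finset.sum_mul]
    _ ≤ _ := mul_le_mul_of_nonneg_right (sum_nr_coeff_le_nr2 P _)
        (pow_nonneg (le_trans zero_le_one hB) _)

theorem Pg_det {N : ℕ} (M : Matrix (Fin N) (Fin N) ℂ) : ‖M.det‖ ≤ ∏ j, ∑ i, ‖M i j‖ := by
  classical
  rw [Matrix.det_apply, Finset.prod_univ_sum]
  refine le_trans (norm_sum_le _ _) ?_
  calc _ = ∑ σ : Equiv.Perm (Fin N), ∏ j, ‖M (σ j) j‖ := by
        refine Finset.sum_congr rfl fun σ _ ↦ ?_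
        rw [← norm_prod]
        rcases Int.units_eq_one_or (Equiv.Perm.sign σ) with h | h
        · rw [h, one_smul]
        · rw [h, Units.neg_smul, one_smul, norm_neg]
    _ = ∑ x ∈ Finset.image (fun (σ : Equiv.Perm (Fin N)) (i : Fin N) ↦ σ i) Finset.univ,
          ∏ j, ‖M (x j) j‖ := by
        rw [Finset.sum_image fun σ _ τ _ h ↦ Equiv.ext fun i ↦ congrFun h i]
    _ ≤ _ := by
        refine Finset.sum_le_sum_of_subset_of_nonneg (fun x _ ↦ ?_) fun x _ _ ↦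
          Finset.prod_nonneg fun j _ ↦ norm_nonneg _
        rw [Fintype.mem_piFinset]
        exact fun _ ↦ Finset.mem_univ _

theorem resultant_small (f g : ℤ[X][X]) (m n : ℕ) (hf : f.natDegree ≤ m) (hg : g.natDegree ≤ n)
    (hmn : 0 < m + n) (hf1 : f ≠ 0) (hg1 : g ≠ 0) (u v : ℂ) (B : ℝ) (hB : 1 ≤ B)
    (hu : ‖u‖ ≤ B) (hv : ‖v‖ ≤ B) :
    ‖aeval u (resultant f g m n)‖ ≤ (m + n) * B ^ (m + n) * (nr2 f * B ^ dX f) ^ n *
      (nr2 g * B ^ dX g) ^ m * (‖evH u v f‖ + ‖evH u v g‖) := by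
  classical
  have hB0 : 0 ≤ B := le_trans zero_le_one hB
  obtain ⟨φ, hφ⟩ : ∃ φ : ℤ[X] →+* ℂ, φ = eval₂RingHom (Int.castRingHom ℂ) u := ⟨_, rfl⟩
  obtain ⟨S, hS⟩ : ∃ S : Matrix (Fin (m + n)) (Fin (m + n)) ℂ,
      S = sylvester (f.map φ) (g.map φ) m n := ⟨_, rfl⟩
  have hdet : aeval u (resultant f g m n) = S.det := by
    rw [hS]
    have h1 := resultant_map_map f g m n φ
    rw [resultant] at h1
    rw [h1, hφ]
    rfl
  obtain ⟨z, hz⟩ : ∃ z : Fin (m + n), z = ⟨0, hmn⟩ := ⟨_, rfl⟩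
  obtain ⟨w, hw⟩ : ∃ w : Fin (m + n) → ℂ, w = fun i : Fin (m + n) ↦ v ^ (i : ℕ) := ⟨_, rfl⟩
  have hwz : w z = 1 := by
    rw [hw, hz]
    exact pow_zero v
  obtain ⟨c, hc⟩ : ∃ c : Fin (m + n) → ℂ, c = S.cramer (Pi.single z 1) := ⟨_, rfl⟩
  have hmain : S.det = ∑ j, (Matrix.vecMul w S) j * c j := by
    have h1 := Matrix.mulVec_cramer S (Pi.single z 1)
    have h2 := Matrix.dotProduct_mulVec w S c
    rw [hc, h1, dotProduct_smul, dotProduct_single, hwz, mul_one, smul_eq_mul, mul_one] at h2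
    rw [h2, hc]
    rfl
  -- columns
  obtain ⟨b, hb⟩ : ∃ b : Fin (m + n) → ℝ, b = fun k ↦ Fin.addCases
      (fun _ : Fin m ↦ nr2 g * B ^ dX g) (fun _ : Fin n ↦ nr2 f * B ^ dX f) k := ⟨_, rfl⟩
  have hb1 : ∀ k, 1 ≤ b k := by
    intro k
    rw [hb]
    induction k using Fin.addCases with
    | left k =>
      simp only [Fin.addCases_left]
      exact one_le_mul_of_one_le_of_one_le (one_le_nr2 hg1) (one_le_pow₀ hB)
    | right k =>
      simp only [Fin.addCases_right]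
      exact one_le_mul_of_one_le_of_one_le (one_le_nr2 hf1) (one_le_pow₀ hB)
  have hbp : ∏ k, b k = (nr2 f * B ^ dX f) ^ n * (nr2 g * B ^ dX g) ^ m := by
    rw [Fin.prod_univ_add, hb]
    simp only [Fin.addCases_left, Fin.addCases_right, Finset.prod_const, Finset.card_univ,
      Fintype.card_fin]
    ring
  have hcol : ∀ k, ∑ i, ‖S i k‖ ≤ b k := by
    intro k
    rw [hb, hS]
    induction k using Fin.addCases with
    | left k =>
      simp only [sylvester, Matrix.of_apply, Fin.addCases_left]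
      rw [hφ]
      exact Pg_colsum g u B hB hu (m + n) k n (by have := k.2; omega)
    | right k =>
      simp only [sylvester, Matrix.of_apply, Fin.addCases_right]
      rw [hφ]
      exact Pg_colsum f u B hB hu (m + n) k m (by have := k.2; omega)
  have hcb : ∀ j, ‖c j‖ ≤ (nr2 f * B ^ dX f) ^ n * (nr2 g * B ^ dX g) ^ m := by
    intro j
    rw [hc, Matrix.cramer_apply, ← hbp]
    refine le_trans (Pg_det _) (Finset.prod_le_prod (fun k _ ↦ Finset.sum_nonneg fun i _ ↦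
      norm_nonneg _) fun k _ ↦ ?_)
    by_cases hk : k = j
    · subst hk
      refine le_trans (le_of_eq ?_) (hb1 k)
      have h1 : ∀ i, ‖(S.updateCol k (Pi.single z 1)) i k‖ = if i = z then 1 else 0 := by
        intro i
        rw [Matrix.updateCol_self, Pi.single_apply]
        split_ifs
        · exact norm_one
        · exact norm_zero
      rw [Finset.sum_congr rfl fun i _ ↦ h1 i, Finset.sum_ite_eq' Finset.univ z, if_pos
        (Finset.mem_univ z)]
    · refine le_trans (le_of_eq ?_) (hcol k)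
      refine Finset.sum_congr rfl fun i _ ↦ ?_
      rw [Matrix.updateCol_ne hk]
  have hfe : evH u v f = (f.map φ).eval v := by rw [evH_eval, hφ]
  have hge : evH u v g = (g.map φ).eval v := by rw [evH_eval, hφ]
  have hwS : ∀ j, ‖(Matrix.vecMul w S) j‖ ≤ B ^ (m + n) * (‖evH u v f‖ + ‖evH u v g‖) := by
    intro j
    have h0 : (Matrix.vecMul w S) j = ∑ i, w i * S i j := rfl
    rw [h0, hw, hS]
    have hvj : ∀ k : ℕ, k ≤ m + n → ‖v ^ k‖ ≤ B ^ (m + n) := by
      intro k hk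
      rw [norm_pow]
      exact le_trans (pow_le_pow_left₀ (norm_nonneg v) hv k) (pow_le_pow_right₀ hB hk)
    induction j using Fin.addCases with
    | left j =>
      simp only [sylvester, Matrix.of_apply, Fin.addCases_left]
      rw [Pg_eval (g.map φ) v (m + n) j n (le_trans natDegree_map_le hg)
        (by have := j.2; omega), norm_mul, ← hge]
      refine mul_le_mul (hvj _ (by have := j.2; omega)) ?_ (norm_nonneg _) (pow_nonneg hB0 _)
      exact le_add_of_nonneg_left (norm_nonneg _)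
    | right j =>
      simp only [sylvester, Matrix.of_apply, Fin.addCases_right]
      rw [Pg_eval (f.map φ) v (m + n) j m (le_trans natDegree_map_le hf)
        (by have := j.2; omega), norm_mul, ← hfe]
      refine mul_le_mul (hvj _ (by have := j.2; omega)) ?_ (norm_nonneg _) (pow_nonneg hB0 _)
      exact le_add_of_nonneg_right (norm_nonneg _)
  rw [hdet, hmain]
  refine le_trans (norm_sum_le _ _) ?_
  refine le_trans (Finset.sum_le_sum fun j _ ↦ (by
    rw [norm_mul]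
    exact mul_le_mul (hwS j) (hcb j) (norm_nonneg _) (mul_nonneg (pow_nonneg hB0 _)
      (add_nonneg (norm_nonneg _) (norm_nonneg _))) : ‖(Matrix.vecMul w S) j * c j‖ ≤
      B ^ (m + n) * (‖evH u v f‖ + ‖evH u v g‖) *
        ((nr2 f * B ^ dX f) ^ n * (nr2 g * B ^ dX g) ^ m))) ?_
  rw [Finset.sum_const, Finset.card_univ, Fintype.card_fin, nsmul_eq_mul]
  refine le_of_eq ?_
  push_cast
  ring

end CZ

end S_H32_CZ_Pg

section S_H32_CZ_Pj

set_option autoImplicit false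

namespace CZ

open Polynomial

/-- Mahler measure and norm. -/
theorem mah_le_nr (R : ℤ[X]) : mah R ≤ nr R := by
  unfold mah
  refine (mahlerMeasure_le_sum_norm_coeff _).trans (le_of_eq ?_)
  unfold nr
  rw [sum_over_range _ (fun _ => norm_zero), sum_over_range _ (fun _ => by simp),
    natDegree_map_eq_of_injective (RingHom.injective_int (Int.castRingHom ℂ))]
  refine Finset.sum_congr rfl (fun i _ => ?_)
  rw [coeff_map, eq_intCast, Complex.norm_intCast]

theorem one_le_mah {R : ℤ[X]} (hR : R ≠ 0) : 1 ≤ mah R := one_le_mahlerMeasure_of_ne_zero hR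

lemma pj_mah_mul (R S : ℤ[X]) : mah (R * S) = mah R * mah S := by
  unfold mah
  rw [Polynomial.map_mul, mahlerMeasure_mul]

lemma pj_mu_mul {R S : ℤ[X]} (hR : R ≠ 0) (hS : S ≠ 0) :
    ((R * S).natDegree : ℝ) + Real.log (mah (R * S)) =
      (R.natDegree + Real.log (mah R)) + (S.natDegree + Real.log (mah S)) := by
  have h1 := one_le_mah hR
  have h2 := one_le_mah hS
  rw [natDegree_mul hR hS, pj_mah_mul, Real.log_mul (by linarith) (by linarith)]
  push_cast
  ring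

lemma pj_sum (u : ℂ) (s : Multiset ℤ[X]) (hs : ∀ r ∈ s, r ≠ 0 ∧ aeval u r ≠ 0) :
    s.prod ≠ 0 ∧ aeval u s.prod ≠ 0 ∧
    (s.prod.natDegree : ℝ) + Real.log (mah s.prod) =
      (s.map (fun r : ℤ[X] => (r.natDegree : ℝ) + Real.log (mah r))).sum ∧
    -Real.log ‖aeval u s.prod‖ = (s.map (fun r : ℤ[X] => -Real.log ‖aeval u r‖)).sum := by
  induction s using Multiset.induction_on with
  | empty =>
    have : mah (1 : ℤ[X]) = 1 := by
      unfold mah
      rw [Polynomial.map_one, mahlerMeasure_one]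
    simp [this]
  | cons a s ih =>
    obtain ⟨h0, h1, h2, h3⟩ := ih (fun r hr => hs r (Multiset.mem_cons_of_mem hr))
    obtain ⟨a0, a1⟩ := hs a (Multiset.mem_cons_self a s)
    rw [Multiset.prod_cons, Multiset.map_cons, Multiset.sum_cons, Multiset.map_cons,
      Multiset.sum_cons]
    refine ⟨mul_ne_zero a0 h0, ?_, ?_, ?_⟩
    · rw [map_mul]
      exact mul_ne_zero a1 h1
    · rw [pj_mu_mul a0 h0, h2]
    · rw [map_mul, norm_mul, Real.log_mul (norm_ne_zero_iff.2 a1) (norm_ne_zero_iff.2 h1), ← h3]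
      ring

theorem good_factor (R : ℤ[X]) (hR : R ≠ 0) (u : ℂ) (V : ℝ) (hV : 0 < V) (hu : aeval u R ≠ 0)
    (h : ‖aeval u R‖ ≤ Real.exp (-V)) :
    ∃ r : ℤ[X], Irreducible r ∧ 0 < r.natDegree ∧ r ∣ R ∧
      r.natDegree + Real.log (mah r) ≤ R.natDegree + Real.log (mah R) ∧
      V * (r.natDegree + Real.log (mah r)) ≤
        (R.natDegree + Real.log (mah R)) * (-Real.log ‖aeval u r‖) := by
  set s := UniqueFactorizationMonoid.factors R with hs
  have hdvd : ∀ r ∈ s, r ∣ R := fun r hr => UniqueFactorizationMonoid.dvd_of_mem_factors hr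
  have hne : ∀ r ∈ s, r ≠ 0 ∧ aeval u r ≠ 0 := by
    intro r hr
    obtain ⟨t, ht⟩ := hdvd r hr
    refine ⟨?_, ?_⟩
    · rintro rfl
      exact hR (by rw [ht, zero_mul])
    · intro h0
      exact hu (by rw [ht, map_mul, h0, zero_mul])
  obtain ⟨p0, p1, p2, p3⟩ := pj_sum u s hne
  obtain ⟨c, hc⟩ := UniqueFactorizationMonoid.factors_prod hR
  rw [← hs] at hc
  -- the unit
  have hcu : (c : ℤ[X]).natDegree = 0 ∧ mah (c : ℤ[X]) = 1 ∧ ‖aeval u (c : ℤ[X])‖ = 1 := by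
    obtain ⟨r, hr, hrc⟩ := Polynomial.isUnit_iff.1 c.isUnit
    rw [← hrc]
    refine ⟨natDegree_C r, ?_, ?_⟩
    · unfold mah
      rw [map_C, mahlerMeasure_const, eq_intCast, Complex.norm_intCast]
      rcases Int.isUnit_iff.1 hr with rfl | rfl <;> simp
    · rw [aeval_C, eq_intCast, Complex.norm_intCast]
      rcases Int.isUnit_iff.1 hr with rfl | rfl <;> simp
  have hμ : (R.natDegree : ℝ) + Real.log (mah R) =
      (s.map (fun r : ℤ[X] => (r.natDegree : ℝ) + Real.log (mah r))).sum := by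
    rw [← hc, pj_mu_mul p0 c.ne_zero, p2, hcu.1, hcu.2.1]
    simp
  have hν : -Real.log ‖aeval u R‖ = (s.map (fun r : ℤ[X] => -Real.log ‖aeval u r‖)).sum := by
    rw [← hc, map_mul, norm_mul, hcu.2.2, mul_one, p3]
  have hνV : V ≤ -Real.log ‖aeval u R‖ := by
    have h1 := Real.log_le_log (norm_pos_iff.2 hu) h
    rw [Real.log_exp] at h1
    linarith
  have hμ0 : ∀ r ∈ s, 0 ≤ (r.natDegree : ℝ) + Real.log (mah r) := by
    intro r hr
    have := Real.log_nonneg (one_le_mah (hne r hr).1)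
    positivity
  have hμR : 0 ≤ (R.natDegree : ℝ) + Real.log (mah R) := by
    have := Real.log_nonneg (one_le_mah hR)
    positivity
  by_contra hcon
  push Not at hcon
  -- constant factors
  have hconst : ∀ r ∈ s, r.natDegree = 0 → -Real.log ‖aeval u r‖ ≤ 0 := by
    intro r hr h0
    rw [eq_C_of_natDegree_eq_zero h0, aeval_C, eq_intCast, Complex.norm_intCast]
    have hr0 : r.coeff 0 ≠ 0 := by
      intro h1
      apply (hne r hr).1
      rw [eq_C_of_natDegree_eq_zero h0, h1, C_0]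
    have : (1 : ℝ) ≤ |((r.coeff 0 : ℤ) : ℝ)| := by
      have := Int.one_le_abs hr0
      exact_mod_cast this
    have := Real.log_nonneg this
    linarith
  have hle : ∀ r ∈ s, (R.natDegree + Real.log (mah R)) * (-Real.log ‖aeval u r‖) ≤
      V * ((r.natDegree : ℝ) + Real.log (mah r)) := by
    intro r hr
    rcases Nat.eq_zero_or_pos r.natDegree with h0 | h0
    · have h1 := mul_nonneg hμR (neg_nonneg.2 (hconst r hr h0))
      have h2 := mul_nonneg hV.le (hμ0 r hr)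
      linarith
    · refine (hcon r (UniqueFactorizationMonoid.irreducible_of_factor r hr) h0 (hdvd r hr) ?_).le
      rw [hμ]
      refine Multiset.single_le_sum ?_ _ (Multiset.mem_map_of_mem _ hr)
      intro x hx
      obtain ⟨r', hr', rfl⟩ := Multiset.mem_map.1 hx
      exact hμ0 r' hr'
  have hex : ∃ r ∈ s, 0 < r.natDegree := by
    by_contra hno
    push Not at hno
    have h1 : (s.map (fun r : ℤ[X] => -Real.log ‖aeval u r‖)).sum ≤ 0 := by
      have h2 := Multiset.sum_map_le_sum_map (s := s) (fun r : ℤ[X] => -Real.log ‖aeval u r‖)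
        (fun _ => (0 : ℝ)) (fun r' hr' => hconst r' hr' (Nat.le_zero.1 (hno r' hr')))
      refine h2.trans (le_of_eq ?_)
      simp
    linarith
  have hlt : (s.map (fun r : ℤ[X] => (R.natDegree + Real.log (mah R)) *
      (-Real.log ‖aeval u r‖))).sum <
      (s.map (fun r : ℤ[X] => V * ((r.natDegree : ℝ) + Real.log (mah r)))).sum := by
    obtain ⟨r, hr, h0⟩ := hex
    refine Multiset.sum_lt_sum hle ⟨r, hr, ?_⟩
    refine hcon r (UniqueFactorizationMonoid.irreducible_of_factor r hr) h0 (hdvd r hr) ?_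
    rw [hμ]
    refine Multiset.single_le_sum ?_ _ (Multiset.mem_map_of_mem _ hr)
    intro x hx
    obtain ⟨r', hr', rfl⟩ := Multiset.mem_map.1 hx
    exact hμ0 r' hr'
  rw [Multiset.sum_map_mul_left, Multiset.sum_map_mul_left, ← hμ, ← hν] at hlt
  have := mul_le_mul_of_nonneg_left hνV hμR
  linarith

end CZ

end S_H32_CZ_Pj
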