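import Mathlib
import Pool.Agent.H32.AKM.P08
import Pool.Agent.H32.AKM.P14

/-! Modular Schanuel with derivatives for points algebraic over a field with good approximations, part 15: this file joins several modules to save build time. -/

section S_H32_CZ_Ph

set_option autoImplicit false

namespace CZ

open Polynomial

/-- The resultant in direction `k`. -/
noncomputable def RR (k : ℤ) (A Q : ℤ[X][X]) : ℤ[X] := resultant (shr k A) (shr k Q)

/-- The common zeros. -/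
def Zs (A Q : ℤ[X][X]) : Set (ℂ × ℂ) := {q | evH q.1 q.2 A = 0 ∧ evH q.1 q.2 Q = 0}

section

variable {A Q : ℤ[X][X]} (hA : Irreducible A) (hA0 : 0 < A.natDegree) (hQ : Q ≠ 0)
  (hlt : Q.natDegree < A.natDegree)

include hA hA0 hQ hlt

theorem RR_ne_zero (k : ℤ) (hk : 0 < (shr k A).natDegree) : RR k A Q ≠ 0 := by
  have hirr : Irreducible (shr k A) := by
    have h := (MulEquiv.irreducible_iff (shrE k)).2 hA
    exact h
  have hg0 : shr k Q ≠ 0 := by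
    intro h
    apply hQ
    have h1 := congrArg (shrE k).symm (show shrE k Q = 0 from h)
    rwa [RingEquiv.symm_apply_apply, map_zero] at h1
  have hprim : (shr k A).IsPrimitive := hirr.isPrimitive hk.ne'
  have hirrK := (IsPrimitive.irreducible_iff_irreducible_map_fraction_map
    (K := FractionRing ℤ[X]) hprim).1 hirr
  have hinj : Function.Injective (algebraMap ℤ[X] (FractionRing ℤ[X])) :=
    IsFractionRing.injective ℤ[X] (FractionRing ℤ[X])
  have hcop : IsCoprime ((shr k A).map (algebraMap ℤ[X] (FractionRing ℤ[X])))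
      ((shr k Q).map (algebraMap ℤ[X] (FractionRing ℤ[X]))) := by
    rw [hirrK.coprime_iff_not_dvd]
    intro hdvd
    have h3 : shr k A ∣ shr k Q :=
      (hprim.dvd_iff_fraction_map_dvd_fraction_map (FractionRing ℤ[X])).2 hdvd
    have h4 : A ∣ Q := (map_dvd_iff (shrE k)).1 h3
    have h5 := natDegree_le_of_dvd h4 hQ
    omega
  have hres := resultant_ne_zero _ _ hcop
  rw [natDegree_map_eq_of_injective hinj, natDegree_map_eq_of_injective hinj,
    resultant_map_map] at hres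
  intro h
  apply hres
  rw [RR] at h
  rw [h, map_zero]

theorem RR_root (k c : ℤ) (hc : c ≠ 0) (hl : (shr k A).leadingCoeff = C c) (u : ℂ) :
    aeval u (RR k A Q) = 0 ↔ ∃ v : ℂ, (u - k * v, v) ∈ Zs A Q := by
  set ψ : ℤ[X] →+* ℂ := eval₂RingHom (Int.castRingHom ℂ) u with hψ
  have hae : aeval u (RR k A Q) = ψ (RR k A Q) := rfl
  have hlc : ψ (shr k A).leadingCoeff ≠ 0 := by
    rw [hl, hψ, coe_eval₂RingHom, eval₂_C]
    simpa using hc
  have hdeg : ((shr k A).map ψ).natDegree = (shr k A).natDegree :=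
    natDegree_map_of_leadingCoeff_ne_zero ψ hlc
  have hF0 : (shr k A).map ψ ≠ 0 := by
    intro h
    apply hlc
    rw [← coeff_natDegree, ← coeff_map, h, coeff_zero]
  have hlF : ((shr k A).map ψ).leadingCoeff ≠ 0 := leadingCoeff_ne_zero.2 hF0
  have hres : ψ (RR k A Q) = ((shr k A).map ψ).leadingCoeff ^ (shr k Q).natDegree *
      (((shr k A).map ψ).roots.map ((shr k Q).map ψ).eval).prod := by
    rw [RR, ← resultant_map_map, ← hdeg]
    exact resultant_eq_prod_eval _ _ _ natDegree_map_le (IsAlgClosed.splits _)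
  have hev : ∀ (v : ℂ) (P : ℤ[X][X]), ((shr k P).map ψ).eval v = evH (u - k * v) v P := by
    intro v P
    rw [hψ, ← evH_eval, ← evH_shr k (u - k * v) v P, sub_add_cancel]
  rw [hae, hres, mul_eq_zero, or_iff_right (pow_ne_zero _ hlF), Multiset.prod_eq_zero_iff,
    Multiset.mem_map]
  constructor
  · rintro ⟨v, hv, hv2⟩
    refine ⟨v, ?_, ?_⟩
    · rw [← hev v A]
      exact (mem_roots hF0).1 hv
    · rw [← hev v Q]
      exact hv2
  · rintro ⟨v, hv, hv2⟩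
    refine ⟨v, (mem_roots hF0).2 ?_, ?_⟩
    · show ((shr k A).map ψ).eval v = 0
      rw [hev v A]
      exact hv
    · rw [hev v Q]
      exact hv2

omit hA hA0 hQ hlt in
theorem Ph_dT (k : ℤ) : (RR k A Q).natDegree ≤ 2 * dT A * dT Q := by
  have h := natDegree_resultant_le (shr k A) (shr k Q) (shr k A).natDegree (shr k Q).natDegree
  have h1 := natDegree_shr_le k A
  have h2 := natDegree_shr_le k Q
  have h3 := (dX_shr_le k A).trans (dX_le_dT A)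
  have h4 := (dX_shr_le k Q).trans (dX_le_dT Q)
  have h5 := Nat.mul_le_mul h2 h3
  have h6 := Nat.mul_le_mul h1 h4
  have h7 : 2 * dT A * dT Q = dT Q * dT A + dT A * dT Q := by ring
  rw [RR, h7]
  omega

theorem Ph_key : ∃ k k' : ℤ, k ≠ k' ∧ RR k A Q ≠ 0 ∧ RR k' A Q ≠ 0 ∧
    ∀ q ∈ Zs A Q, aeval (q.1 + k * q.2) (RR k A Q) = 0 ∧ aeval (q.1 + k' * q.2) (RR k' A Q) = 0 := by
  obtain ⟨Bad, -, hB⟩ := shr_lead A hA.ne_zero
  obtain ⟨k, hk⟩ := Infinite.exists_notMem_finset Bad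
  obtain ⟨k', hk'⟩ := Infinite.exists_notMem_finset (insert k Bad)
  rw [Finset.mem_insert, not_or] at hk'
  obtain ⟨h1, c, hc, hl⟩ := hB k hk
  obtain ⟨h1', c', hc', hl'⟩ := hB k' hk'.2
  have hdA : 0 < dT A := lt_of_lt_of_le hA0 (natDegree_le_dT A)
  refine ⟨k, k', Ne.symm hk'.1, RR_ne_zero hA hA0 hQ hlt k (by rw [h1]; exact hdA),
    RR_ne_zero hA hA0 hQ hlt k' (by rw [h1']; exact hdA), ?_⟩
  intro q hq
  constructor
  · rw [RR_root hA hA0 hQ hlt k c hc hl]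
    exact ⟨q.2, by rw [add_sub_cancel_right]; exact hq⟩
  · rw [RR_root hA hA0 hQ hlt k' c' hc' hl']
    exact ⟨q.2, by rw [add_sub_cancel_right]; exact hq⟩

theorem Zs_finite : (Zs A Q).Finite ∧ (Zs A Q).ncard ≤ (2 * dT A * dT Q) ^ 2 := by
  classical
  obtain ⟨k, k', hne, hR, hR', hz⟩ := Ph_key hA hA0 hQ hlt
  have hne' : (k : ℂ) - k' ≠ 0 := by
    rw [sub_ne_zero]
    exact_mod_cast hne
  set S : ℤ → Finset ℂ := fun k => ((RR k A Q).aroots ℂ).toFinset with hS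
  have hScard : ∀ k : ℤ, (S k).card ≤ 2 * dT A * dT Q := by
    intro k
    refine (Multiset.toFinset_card_le _).trans ?_
    refine (card_roots' _).trans (natDegree_map_le.trans (Ph_dT k))
  have hinjZ : Function.Injective (algebraMap ℤ ℂ) := by
    intro a b h
    have h' : (a : ℂ) = (b : ℂ) := h
    exact_mod_cast h'
  have hSmem : ∀ k : ℤ, RR k A Q ≠ 0 → ∀ u : ℂ, aeval u (RR k A Q) = 0 → u ∈ S k := by
    intro k hk u hu
    rw [hS, Multiset.mem_toFinset, mem_aroots']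
    refine ⟨?_, hu⟩
    rw [Ne, Polynomial.map_eq_zero_iff hinjZ]
    exact hk
  set θ : ℂ × ℂ → ℂ × ℂ := fun q => (q.1 + k * q.2, q.1 + k' * q.2) with hθ
  have hmaps : ∀ q ∈ Zs A Q, θ q ∈ (↑(S k ×ˢ S k') : Set (ℂ × ℂ)) := by
    intro q hq
    rw [Finset.mem_coe, Finset.mem_product]
    exact ⟨hSmem k hR _ (hz q hq).1, hSmem k' hR' _ (hz q hq).2⟩
  have hinj : Set.InjOn θ (Zs A Q) := by
    intro q _ r _ h
    rw [hθ, Prod.mk.injEq] at h
    obtain ⟨h1, h2⟩ := h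
    have h3 : ((k : ℂ) - k') * (q.2 - r.2) = 0 := by linear_combination h1 - h2
    have h4 : q.2 = r.2 := by
      rcases mul_eq_zero.1 h3 with h | h
      · exact absurd h hne'
      · exact sub_eq_zero.1 h
    have h5 : q.1 = r.1 := by
      rw [h4] at h1
      exact add_right_cancel h1
    exact Prod.ext h5 h4
  have hfin : (Zs A Q).Finite := by
    refine Set.Finite.of_finite_image (Set.Finite.subset (Finset.finite_toSet (S k ×ˢ S k')) ?_) hinj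
    rintro _ ⟨q, hq, rfl⟩
    exact hmaps q hq
  refine ⟨hfin, ?_⟩
  have h := Set.ncard_le_ncard_of_injOn θ hmaps hinj (Finset.finite_toSet (S k ×ˢ S k'))
  rw [Set.ncard_coe_finset, Finset.card_product] at h
  refine h.trans ?_
  rw [pow_two]
  exact Nat.mul_le_mul (hScard k) (hScard k')

theorem Zs_alg {q : ℂ × ℂ} (hq : q ∈ Zs A Q) : IsAlgebraic ℚ q.1 ∧ IsAlgebraic ℚ q.2 := by
  obtain ⟨k, k', hne, hR, hR', hz⟩ := Ph_key hA hA0 hQ hlt
  have hne' : (k : ℂ) - k' ≠ 0 := by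
    rw [sub_ne_zero]
    exact_mod_cast hne
  have h1 : IsAlgebraic ℚ (q.1 + k * q.2) :=
    (IsFractionRing.isAlgebraic_iff ℤ ℚ ℂ).1 ⟨_, hR, (hz q hq).1⟩
  have h2 : IsAlgebraic ℚ (q.1 + k' * q.2) :=
    (IsFractionRing.isAlgebraic_iff ℤ ℚ ℂ).1 ⟨_, hR', (hz q hq).2⟩
  have hk : ∀ m : ℤ, IsAlgebraic ℚ (m : ℂ) := fun m => by
    have := isAlgebraic_algebraMap (R := ℚ) (A := ℂ) (m : ℚ)
    simpa using this
  have h3 : IsAlgebraic ℚ q.2 := by
    have e : q.2 = ((q.1 + k * q.2) - (q.1 + k' * q.2)) * ((k : ℂ) - k')⁻¹ := by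
      field_simp
      ring
    rw [e]
    exact (h1.sub h2).mul ((hk k).sub (hk k')).inv
  refine ⟨?_, h3⟩
  have e : q.1 = (q.1 + k * q.2) - k * q.2 := by ring
  rw [e]
  exact h1.sub ((hk k).mul h3)

end

end CZ

end S_H32_CZ_Ph

section S_H32_CZ_Pi

set_option autoImplicit false

namespace CZ

open Polynomial

/-- The field generated by the coordinates. -/
noncomputable abbrev Fq (q : ℂ × ℂ) : IntermediateField ℚ ℂ := IntermediateField.adjoin ℚ {q.1, q.2}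

/-- First coordinate. -/
noncomputable def g1 (q : ℂ × ℂ) : Fq q := ⟨q.1, IntermediateField.subset_adjoin _ _ (by simp)⟩

/-- Second coordinate. -/
noncomputable def g2 (q : ℂ × ℂ) : Fq q := ⟨q.2, IntermediateField.subset_adjoin _ _ (by simp)⟩

/-- The direction `k` does not lose much height at `q`. -/
def HGood (k K : ℕ) (q : ℂ × ℂ) : Prop :=
  ∀ _ : NumberField (Fq q),
    hE (g1 q) ≤ 2 * hE (g1 q + k * g2 q) + 2 * Module.finrank ℚ (Fq q) * Real.log (2 * K) ∧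
    hE (g2 q) ≤ 2 * hE (g1 q + k * g2 q) + 2 * Module.finrank ℚ (Fq q) * Real.log (2 * K)

theorem Pi_two (q q' : ℂ × ℂ) (hne : q ≠ q') (k k' : ℕ) (h : q.1 + k * q.2 = q'.1 + k * q'.2)
    (h' : q.1 + k' * q.2 = q'.1 + k' * q'.2) : k = k' := by
  by_contra hk
  have h1 : ((k : ℂ) - k') * (q.2 - q'.2) = 0 := by linear_combination h - h'
  have h2 : (k : ℂ) - k' ≠ 0 := by
    rw [sub_ne_zero]
    exact fun h => hk (by exact_mod_cast h)
  have h3 : q.2 = q'.2 := by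
    rcases mul_eq_zero.1 h1 with h4 | h4
    · exact absurd h4 h2
    · exact sub_eq_zero.1 h4
  have h4 : q.1 = q'.1 := by
    rw [h3] at h
    exact add_right_cancel h
  exact hne (Prod.ext h4 h3)

theorem Pi_dist (θ1 θ2 : ℂ) (q : ℂ × ℂ) (K k k' : ℕ) (hK : 1 ≤ K) (hkK : k ≤ K)
    (h : ¬ max ‖θ1 - q.1‖ ‖θ2 - q.2‖ ≤ (2 * K + 1) * ‖(θ1 + k * θ2) - (q.1 + k * q.2)‖)
    (h' : ¬ max ‖θ1 - q.1‖ ‖θ2 - q.2‖ ≤ (2 * K + 1) * ‖(θ1 + k' * θ2) - (q.1 + k' * q.2)‖) : k = k' := by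
  by_contra hk
  obtain ⟨v1, hv1⟩ : ∃ v1, v1 = θ1 - q.1 := ⟨_, rfl⟩
  obtain ⟨v2, hv2⟩ : ∃ v2, v2 = θ2 - q.2 := ⟨_, rfl⟩
  have e1 : ∀ j : ℕ, (θ1 + j * θ2) - (q.1 + j * q.2) = v1 + j * v2 := by
    intro j
    rw [hv1, hv2]
    ring
  rw [e1, ← hv1, ← hv2, not_le] at h h'
  obtain ⟨M, hM⟩ : ∃ M, M = max ‖v1‖ ‖v2‖ := ⟨_, rfl⟩
  rw [← hM] at h h'
  have hK0 : (1 : ℝ) ≤ K := by exact_mod_cast hK
  have hkK' : (k : ℝ) ≤ K := by exact_mod_cast hkK
  have hM0 : 0 < M := lt_of_le_of_lt (by positivity) h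
  have h2 : ‖v2‖ ≤ ‖v1 + k * v2‖ + ‖v1 + k' * v2‖ := by
    have h3 : ‖((k : ℂ) - k') * v2‖ ≤ ‖v1 + k * v2‖ + ‖v1 + k' * v2‖ := by
      have : ((k : ℂ) - k') * v2 = (v1 + k * v2) - (v1 + k' * v2) := by ring
      rw [this]
      exact norm_sub_le _ _
    have h4 : 1 ≤ ‖(k : ℂ) - k'‖ := by
      have h5 : (k : ℂ) - k' = (((k : ℤ) - k' : ℤ) : ℂ) := by push_cast; ring
      rw [h5, Complex.norm_intCast, ← Int.cast_abs]
      have h6 : (1 : ℤ) ≤ |(k : ℤ) - k'| := Int.one_le_abs (by omega)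
      exact_mod_cast h6
    rw [norm_mul] at h3
    exact (le_mul_of_one_le_left (norm_nonneg _) h4).trans h3
  have h3 : (2 * K + 1) * ‖v2‖ < 2 * M := by nlinarith
  have h4 : ‖v1‖ ≤ ‖v1 + k * v2‖ + k * ‖v2‖ := by
    have h5 : v1 = (v1 + k * v2) - k * v2 := by ring
    calc ‖v1‖ = ‖(v1 + k * v2) - k * v2‖ := by rw [← h5]
      _ ≤ ‖v1 + k * v2‖ + ‖(k : ℂ) * v2‖ := norm_sub_le _ _
      _ = _ := by rw [norm_mul, Complex.norm_natCast]
  have h5 : ‖v1‖ < M := by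
    have h6 : (k : ℝ) * ‖v2‖ ≤ K * ‖v2‖ := mul_le_mul_of_nonneg_right hkK' (norm_nonneg _)
    nlinarith [norm_nonneg v2]
  have h6 : ‖v2‖ < M := by nlinarith [norm_nonneg v2]
  have h7 := max_lt h5 h6
  rw [← hM] at h7
  exact lt_irrefl _ h7

theorem Pi_height (q : ℂ × ℂ) (K k k' : ℕ) (hk : 1 ≤ k) (hkK : k ≤ K) (hk' : 1 ≤ k') (hkK' : k' ≤ K)
    (h : ¬ HGood k K q) (h' : ¬ HGood k' K q) : k = k' := by
  by_contra hne
  unfold HGood at h h'
  push Not at h h'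
  obtain ⟨inst, h1⟩ := h
  obtain ⟨inst', h1'⟩ := h'
  have ht := hE_two (g1 q) (g2 q) K k k' hk hk' hkK hkK' hne
  obtain ⟨y, hy⟩ : ∃ y, y = hE (g1 q + k * g2 q) := ⟨_, rfl⟩
  obtain ⟨y', hy'⟩ : ∃ y', y' = hE (g1 q + k' * g2 q) := ⟨_, rfl⟩
  obtain ⟨u1, hu1⟩ : ∃ u1, u1 = hE (g1 q) := ⟨_, rfl⟩
  obtain ⟨u2, hu2⟩ : ∃ u2, u2 = hE (g2 q) := ⟨_, rfl⟩
  obtain ⟨c, hc⟩ : ∃ c, c = 2 * (Module.finrank ℚ (Fq q) : ℝ) * Real.log (2 * K) := ⟨_, rfl⟩
  rw [← hy, ← hy', ← hu1, ← hu2, ← hc] at ht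
  rw [← hy, ← hu1, ← hu2, ← hc] at h1
  rw [← hy', ← hu1, ← hu2, ← hc] at h1'
  obtain ⟨t1, t2⟩ := ht
  rcases le_or_gt u1 (2 * y + c) with a | a
  · have a2 := h1 a
    rcases le_or_gt u1 (2 * y' + c) with b | b
    · have b2 := h1' b
      linarith
    · rcases le_total u1 u2 with e | e <;> linarith
  · rcases le_or_gt u1 (2 * y' + c) with b | b
    · have b2 := h1' b
      rcases le_total u1 u2 with e | e <;> linarith
    · linarith

theorem Pi_num (D m K N : ℕ) (hD : 0 < D) (hN : N ≤ (2 * D * m) ^ 2) (hK : (2 * D * m + 2) ^ 4 ≤ K)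
    (hK2 : D < K) : D + N * N + N + N < K := by
  rcases Nat.eq_zero_or_pos m with hm | hm
  · subst hm
    have : N = 0 := by simpa using hN
    subst this
    omega
  · obtain ⟨x, hx⟩ : ∃ x, x = 2 * D * m := ⟨_, rfl⟩
    rw [← hx] at hN hK
    have h1 : D ≤ x := by
      rw [hx]
      nlinarith
    have h2 : N * N ≤ x ^ 4 := by
      calc N * N ≤ x ^ 2 * x ^ 2 := Nat.mul_le_mul hN hN
        _ = x ^ 4 := by ring
    have h3 : (x + 2) ^ 4 = x ^ 4 + 8 * x ^ 3 + 24 * x ^ 2 + 32 * x + 16 := by ring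
    rw [h3] at hK
    omega

theorem good_k {A Q : ℤ[X][X]} (hA : Irreducible A) (hA0 : 0 < A.natDegree) (hQ : Q ≠ 0)
    (hlt : Q.natDegree < A.natDegree) (θ1 θ2 : ℂ) (K : ℕ) (hK : (2 * dT A * dT Q + 2) ^ 4 ≤ K)
    (hK2 : dT A < K) :
    ∃ k : ℕ, 1 ≤ k ∧ k ≤ K ∧ (shr k A).natDegree = dT A ∧
      (∃ c : ℤ, c ≠ 0 ∧ (shr k A).leadingCoeff = C c) ∧
      (∀ q ∈ Zs A Q, ∀ q' ∈ Zs A Q, q.1 + k * q.2 = q'.1 + k * q'.2 → q = q') ∧
      (∀ q ∈ Zs A Q, max ‖θ1 - q.1‖ ‖θ2 - q.2‖ ≤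
        (2 * K + 1) * ‖(θ1 + k * θ2) - (q.1 + k * q.2)‖) ∧
      ∀ q ∈ Zs A Q, HGood k K q := by
  classical
  obtain ⟨hfin, hcard⟩ := Zs_finite hA hA0 hQ hlt
  obtain ⟨Bad, hBad, hlead⟩ := shr_lead A hA.ne_zero
  obtain ⟨Z, hZ⟩ : ∃ Z : Finset (ℂ × ℂ), Z = hfin.toFinset := ⟨_, rfl⟩
  have hZm : ∀ q, q ∈ Z ↔ q ∈ Zs A Q := fun q => by rw [hZ, Set.Finite.mem_toFinset]
  have hZc : Z.card ≤ (2 * dT A * dT Q) ^ 2 := by
    rw [hZ, ← Set.ncard_eq_toFinset_card _ hfin]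
    exact hcard
  have hK1 : 1 ≤ K := by omega
  have hD : 0 < dT A := hA0.trans_le (natDegree_le_dT A)
  obtain ⟨S, hS⟩ : ∃ S : Finset ℕ, S = Finset.Icc 1 K := ⟨_, rfl⟩
  have hSc : S.card = K := by rw [hS, Nat.card_Icc]; omega
  have hSm : ∀ k, k ∈ S ↔ 1 ≤ k ∧ k ≤ K := fun k => by rw [hS, Finset.mem_Icc]
  obtain ⟨B1, hB1⟩ : ∃ B1, B1 = S.filter fun k : ℕ => (k : ℤ) ∈ Bad := ⟨_, rfl⟩
  obtain ⟨B2, hB2⟩ : ∃ B2, B2 = (Z ×ˢ Z).biUnion fun x => S.filter fun k : ℕ =>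
    x.1 ≠ x.2 ∧ x.1.1 + k * x.1.2 = x.2.1 + k * x.2.2 := ⟨_, rfl⟩
  obtain ⟨B3, hB3⟩ : ∃ B3, B3 = Z.biUnion fun q => S.filter fun k : ℕ =>
    ¬ max ‖θ1 - q.1‖ ‖θ2 - q.2‖ ≤ (2 * K + 1) * ‖(θ1 + k * θ2) - (q.1 + k * q.2)‖ := ⟨_, rfl⟩
  obtain ⟨B4, hB4⟩ : ∃ B4, B4 = Z.biUnion fun q => S.filter fun k : ℕ => ¬ HGood k K q := ⟨_, rfl⟩
  have c1 : B1.card ≤ dT A := by
    refine le_trans ?_ hBad
    refine Finset.card_le_card_of_injOn (fun k : ℕ => (k : ℤ)) ?_ (fun a _ b _ h => by simpa using h)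
    intro k hk
    rw [hB1] at hk
    exact (Finset.mem_filter.1 hk).2
  have c2 : B2.card ≤ Z.card * Z.card := by
    rw [hB2, ← Finset.card_product, ← mul_one (Z ×ˢ Z).card]
    refine Finset.card_biUnion_le_card_mul _ _ _ fun x _ => ?_
    rw [Finset.card_le_one]
    intro k hk k' hk'
    rw [Finset.mem_filter] at hk hk'
    exact Pi_two x.1 x.2 hk.2.1 k k' hk.2.2 hk'.2.2
  have c3 : B3.card ≤ Z.card := by
    rw [hB3, ← mul_one Z.card]
    refine Finset.card_biUnion_le_card_mul _ _ _ fun x _ => ?_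
    rw [Finset.card_le_one]
    intro k hk k' hk'
    rw [Finset.mem_filter] at hk hk'
    exact Pi_dist θ1 θ2 x K k k' hK1 ((hSm k).1 hk.1).2 hk.2 hk'.2
  have c4 : B4.card ≤ Z.card := by
    rw [hB4, ← mul_one Z.card]
    refine Finset.card_biUnion_le_card_mul _ _ _ fun x _ => ?_
    rw [Finset.card_le_one]
    intro k hk k' hk'
    rw [Finset.mem_filter] at hk hk'
    have a := (hSm k).1 hk.1
    have b := (hSm k').1 hk'.1
    exact Pi_height x K k k' a.1 a.2 b.1 b.2 hk.2 hk'.2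
  have hnum := Pi_num (dT A) (dT Q) K Z.card hD hZc hK hK2
  have hU : (B1 ∪ B2 ∪ B3 ∪ B4).card < S.card := by
    have u1 := Finset.card_union_le (B1 ∪ B2 ∪ B3) B4
    have u2 := Finset.card_union_le (B1 ∪ B2) B3
    have u3 := Finset.card_union_le B1 B2
    rw [hSc]
    omega
  obtain ⟨k, hkS, hkU⟩ := Finset.exists_mem_notMem_of_card_lt_card hU
  have hk := (hSm k).1 hkS
  simp only [Finset.mem_union, not_or] at hkU
  obtain ⟨⟨⟨n1, n2⟩, n3⟩, n4⟩ := hkU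
  have hkB : (k : ℤ) ∉ Bad := fun h => n1 (by rw [hB1]; exact Finset.mem_filter.2 ⟨hkS, h⟩)
  obtain ⟨l1, l2⟩ := hlead k hkB
  refine ⟨k, hk.1, hk.2, l1, l2, ?_, ?_, ?_⟩
  · intro q hq q' hq' h
    by_contra hne
    refine n2 ?_
    rw [hB2]
    refine Finset.mem_biUnion.2 ⟨(q, q'), Finset.mem_product.2 ⟨(hZm q).2 hq, (hZm q').2 hq'⟩, ?_⟩
    exact Finset.mem_filter.2 ⟨hkS, hne, h⟩
  · intro q hq
    by_contra hne
    refine n3 ?_
    rw [hB3]
    exact Finset.mem_biUnion.2 ⟨q, (hZm q).2 hq, Finset.mem_filter.2 ⟨hkS, hne⟩⟩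
  · intro q hq
    by_contra hne
    refine n4 ?_
    rw [hB4]
    exact Finset.mem_biUnion.2 ⟨q, (hZm q).2 hq, Finset.mem_filter.2 ⟨hkS, hne⟩⟩

end CZ

end S_H32_CZ_Pi

section S_H32_CZ_Po

set_option autoImplicit false

namespace CZ

open Polynomial

theorem map_mem_Zs {A Q : ℤ[X][X]} {q : ℂ × ℂ} (hq : q ∈ Zs A Q) (φ : Fq q →+* ℂ) :
    (φ (g1 q), φ (g2 q)) ∈ Zs A Q := by
  have key : ∀ P : ℤ[X][X], evH q.1 q.2 P = 0 → evH (φ (g1 q)) (φ (g2 q)) P = 0 := by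
    intro P hP
    have h1 : evH (g1 q) (g2 q) P = 0 := by
      have h2 := map_evH (algebraMap (Fq q) ℂ) (g1 q) (g2 q) P
      have h3 : algebraMap (Fq q) ℂ (g1 q) = q.1 := rfl
      have h4 : algebraMap (Fq q) ℂ (g2 q) = q.2 := rfl
      rw [h3, h4, hP] at h2
      exact (map_eq_zero_iff _ (algebraMap (Fq q) ℂ).injective).1 h2
    have h5 := map_evH φ (g1 q) (g2 q) P
    rw [h1, map_zero] at h5
    exact h5.symm
  exact ⟨key A hq.1, key Q hq.2⟩

theorem Po_ext {q : ℂ × ℂ} (φ φ' : Fq q →+* ℂ) (h1 : φ (g1 q) = φ' (g1 q))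
    (h2 : φ (g2 q) = φ' (g2 q)) : φ = φ' := by
  have h : φ.toRatAlgHom = φ'.toRatAlgHom := by
    refine IntermediateField.algHom_ext_of_eq_adjoin (S := Fq q) ℚ rfl ?_
    intro x hx
    rcases hx with rfl | rfl
    · exact h1
    · exact h2
  have h3 := congrArg (fun f : Fq q →ₐ[ℚ] ℂ => (f : Fq q →+* ℂ)) h
  simpa using h3

theorem Fq_roots {A Q : ℤ[X][X]} (k : ℕ)
    (hinj : ∀ q ∈ Zs A Q, ∀ q' ∈ Zs A Q, q.1 + k * q.2 = q'.1 + k * q'.2 → q = q')
    {q : ℂ × ℂ} (hq : q ∈ Zs A Q) [NumberField (Fq q)] (r : ℤ[X]) (hr : Irreducible r)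
    (hy : aeval (g1 q + k * g2 q) r = 0) :
    r.natDegree = Module.finrank ℚ (Fq q) ∧
      (r.map (Int.castRingHom ℂ)).roots =
        (Finset.univ : Finset (Fq q →+* ℂ)).val.map fun φ ↦ φ (g1 q + k * g2 q) := by
  set y : Fq q := g1 q + k * g2 q with hydef
  have hφy : ∀ φ : Fq q →+* ℂ, φ y = φ (g1 q) + k * φ (g2 q) := by
    intro φ
    rw [hydef, map_add, map_mul, map_natCast]
  have hinj' : Function.Injective fun φ : Fq q →+* ℂ ↦ φ y := by
    intro φ φ' h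
    have h1 : φ y = φ' y := h
    rw [hφy, hφy] at h1
    have h2 := hinj _ (map_mem_Zs hq φ) _ (map_mem_Zs hq φ') h1
    exact Po_ext φ φ' (congrArg Prod.fst h2) (congrArg Prod.snd h2)
  -- degree of `r`
  have hr0 : r ≠ 0 := hr.ne_zero
  have hdeg : r.natDegree ≠ 0 := by
    intro h0
    rw [natDegree_eq_zero] at h0
    obtain ⟨c, rfl⟩ := h0
    rw [aeval_C, eq_intCast] at hy
    have hc : c = 0 := by exact_mod_cast hy
    rw [hc, map_zero] at hr0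
    exact hr0 rfl
  have hprim := hr.isPrimitive hdeg
  have hrQ : Irreducible (r.map (Int.castRingHom ℚ)) :=
    (IsPrimitive.Int.irreducible_iff_irreducible_map_cast hprim).1 hr
  have hyQ : aeval y (r.map (Int.castRingHom ℚ)) = 0 := by
    rw [← hy]
    exact aeval_map_algebraMap ℚ y r
  have hmin := minpoly.eq_of_irreducible hrQ hyQ
  have hndQ : (r.map (Int.castRingHom ℚ)).natDegree = r.natDegree :=
    natDegree_map_eq_of_injective (RingHom.injective_int _) r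
  have hnd : r.natDegree = (minpoly ℚ y).natDegree := by
    rw [← hmin, natDegree_mul_C (inv_ne_zero (leadingCoeff_ne_zero.2 hrQ.ne_zero)), hndQ]
  have hle : r.natDegree ≤ Module.finrank ℚ (Fq q) := by
    rw [hnd]
    exact minpoly.natDegree_le y
  -- the roots
  have hrC : r.map (Int.castRingHom ℂ) ≠ 0 := (Polynomial.map_ne_zero_iff (RingHom.injective_int _)).2 hr0
  have hnodup : ((Finset.univ : Finset (Fq q →+* ℂ)).val.map fun φ ↦ φ y).Nodup :=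
    Multiset.Nodup.map hinj' (Finset.univ.nodup)
  have hsub : ((Finset.univ : Finset (Fq q →+* ℂ)).val.map fun φ ↦ φ y) ≤ (r.map (Int.castRingHom ℂ)).roots := by
    rw [Multiset.le_iff_subset hnodup]
    intro z hz
    obtain ⟨φ, -, rfl⟩ := Multiset.mem_map.1 hz
    rw [mem_roots hrC, IsRoot.def, eval_map]
    have h1 : φ (aeval y r) = 0 := by rw [hy, map_zero]
    rw [aeval_def, hom_eval₂] at h1
    have h2 : φ.comp (algebraMap ℤ (Fq q)) = Int.castRingHom ℂ := RingHom.ext_int _ _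
    rw [h2] at h1
    exact h1
  have hcard : ((Finset.univ : Finset (Fq q →+* ℂ)).val.map fun φ ↦ φ y).card = Module.finrank ℚ (Fq q) := by
    rw [Multiset.card_map, Finset.card_val, Finset.card_univ, NumberField.Embeddings.card]
  have hrc : (r.map (Int.castRingHom ℂ)).roots.card ≤ r.natDegree :=
    (card_roots' _).trans (natDegree_map_le)
  have hcl := Multiset.card_le_card hsub
  rw [hcard] at hcl
  refine ⟨le_antisymm hle (hcl.trans hrc), ?_⟩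
  symm
  refine Multiset.eq_of_le_of_card_le hsub ?_
  rw [hcard]
  exact hrc.trans hle

end CZ

end S_H32_CZ_Po

section S_H32_CZ_Pk

set_option autoImplicit false

namespace CZ

open Polynomial

theorem Pk_evH_C {B : Type*} [CommRing B] (x y : B) (R : ℤ[X]) : evH x y (C R) = aeval x R := by
  unfold evH
  rw [coe_eval₂RingHom, eval₂_C, coe_eval₂RingHom]
  rfl

theorem Pk_transc {θ1 θ2 : ℂ} (hθ : AlgebraicIndependent ℚ ![θ1, θ2]) (k : ℕ) {R : ℤ[X]} (hR : R ≠ 0) :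
    aeval (θ1 + k * θ2) R ≠ 0 := by
  intro h0
  have h1 : shr (-(k : ℤ)) (C R) ≠ 0 := by
    intro h
    have h2 := shr_shr (-(k : ℤ)) (C R)
    rw [h, map_zero] at h2
    exact hR (C_eq_zero.1 h2.symm)
  have h3 := evH_ne_zero hθ h1
  apply h3
  have h4 := evH_shr (-(k : ℤ)) (θ1 + k * θ2) θ2 (C R)
  have h5 : (θ1 + k * θ2) + ((-(k : ℤ) : ℤ) : ℂ) * θ2 = θ1 := by push_cast; ring
  rw [h5, Pk_evH_C] at h4
  rw [h4]
  exact h0

theorem Pk_numberField {q : ℂ × ℂ} (h : IsAlgebraic ℚ q.1 ∧ IsAlgebraic ℚ q.2) : NumberField (Fq q) := by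
  have : FiniteDimensional ℚ (Fq q) := by
    apply IntermediateField.finiteDimensional_adjoin
    intro x hx
    rcases hx with hx | hx
    · rw [hx]
      exact h.1.isIntegral
    · rw [Set.mem_singleton_iff.1 hx]
      exact h.2.isIntegral
  exact { to_charZero := inferInstance, to_finiteDimensional := this }

theorem plane_local (θ1 θ2 : ℂ) (hθ : AlgebraicIndependent ℚ ![θ1, θ2]) {A Q : ℤ[X][X]}
    (hA : Irreducible A) (hA0 : 0 < A.natDegree) (hQ : Q ≠ 0) (hlt : Q.natDegree < A.natDegree)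
    (K k : ℕ) (hk1 : 1 ≤ k) (hkK : k ≤ K) (hdeg : (shr k A).natDegree = dT A)
    (hlead : ∃ c : ℤ, c ≠ 0 ∧ (shr k A).leadingCoeff = C c)
    (hinj : ∀ q ∈ Zs A Q, ∀ q' ∈ Zs A Q, q.1 + k * q.2 = q'.1 + k * q'.2 → q = q')
    (hclose : ∀ q ∈ Zs A Q, max ‖θ1 - q.1‖ ‖θ2 - q.2‖ ≤
        (2 * K + 1) * ‖(θ1 + k * θ2) - (q.1 + k * q.2)‖)
    (hgood : ∀ q ∈ Zs A Q, HGood k K q) (V : ℝ) (hV : 0 < V)
    (h : ‖aeval (θ1 + k * θ2) (RR k A Q)‖ ≤ Real.exp (-V)) :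
    ∃ ν W : ℝ, 1 ≤ ν ∧ ν ≤ (RR k A Q).natDegree + Real.log (mah (RR k A Q)) ∧
      ApprAt ![θ1, θ2] (4 * ν * (1 + Real.log (2 * K + 1))) W ∧
      V * ν ≤ ((RR k A Q).natDegree + Real.log (mah (RR k A Q))) *
        (W + ν * (1 + Real.log (2 * K + 1))) := by
  classical
  have hk0 : 0 < (shr k A).natDegree := by
    rw [hdeg]
    exact hA0.trans_le (natDegree_le_dT A)
  have hR : RR k A Q ≠ 0 := RR_ne_zero hA hA0 hQ hlt k hk0
  obtain ⟨c, hc, hl⟩ := hlead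
  obtain ⟨r, hr, hn, hdvd, hsize, hVr⟩ := good_factor (RR k A Q) hR (θ1 + k * θ2) V hV (Pk_transc hθ k hR) h
  have hr0 : r ≠ 0 := hr.ne_zero
  have hmah : 1 ≤ mah r := one_le_mah hr0
  set ν : ℝ := r.natDegree + Real.log (mah r) with hν
  have hlog0 : 0 ≤ Real.log (mah r) := Real.log_nonneg hmah
  have hn1 : (1 : ℝ) ≤ r.natDegree := by exact_mod_cast hn
  have hν1 : 1 ≤ ν := by linarith
  -- the point
  obtain ⟨y0, hy0⟩ : ∃ y0 : ℂ, aeval y0 r = 0 := by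
    apply IsAlgClosed.exists_aeval_eq_zero
    intro hd
    rw [← natDegree_eq_zero_iff_degree_le_zero.2 hd.le] at hn
    exact absurd hn (lt_irrefl _)
  have hRy0 : aeval y0 (RR k A Q) = 0 := by
    obtain ⟨g, hg⟩ := hdvd
    rw [hg, map_mul, hy0, zero_mul]
  obtain ⟨v, hv⟩ := (RR_root hA hA0 hQ hlt k c hc hl y0).1 hRy0
  set q : ℂ × ℂ := (y0 - ((k : ℤ) : ℂ) * v, v) with hq
  have hqy : q.1 + k * q.2 = y0 := by
    rw [hq]
    push_cast
    ring
  have hNF : NumberField (Fq q) := Pk_numberField (Zs_alg hA hA0 hQ hlt hv)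
  set y : Fq q := g1 q + k * g2 q with hy
  have hyr : aeval y r = 0 := by
    have h1 : (algebraMap (Fq q) ℂ) (aeval y r) = 0 := by
      rw [← aeval_algebraMap_apply]
      have h2 : algebraMap (Fq q) ℂ y = y0 := by
        rw [← hqy, hy, map_add, map_mul, map_natCast]
        rfl
      rw [h2]
      exact hy0
    exact (map_eq_zero _).1 h1
  obtain ⟨hfin, hroots⟩ := Fq_roots k hinj hv r hr hyr
  have hhE : hE y ≤ Real.log (mah r) := hE_root r hr y hyr hfin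
  obtain ⟨hg1, hg2⟩ := hgood q hv hNF
  have hK1 : (1 : ℝ) ≤ K := by exact_mod_cast hk1.trans hkK
  set l : ℝ := Real.log (2 * K + 1) with hl'
  have hlogK : Real.log (2 * K) ≤ l := Real.log_le_log (by positivity) (by linarith)
  have hlogK0 : 0 ≤ Real.log (2 * K) := Real.log_nonneg (by linarith)
  have hl0 : 0 ≤ l := hlogK0.trans hlogK
  have hfinR : (Module.finrank ℚ (Fq q) : ℝ) ≤ ν := by
    rw [← hfin]
    linarith
  have hfin0 : (0 : ℝ) ≤ Module.finrank ℚ (Fq q) := Nat.cast_nonneg _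
  have hbound : 2 * hE y + 2 * Module.finrank ℚ (Fq q) * Real.log (2 * K) ≤ 4 * ν * (1 + l) := by
    have h1 : hE y ≤ ν := by linarith
    have h2 : (Module.finrank ℚ (Fq q) : ℝ) * Real.log (2 * K) ≤ ν * l := by gcongr
    have h3 : 0 ≤ ν * l := by positivity
    linarith
  -- closeness
  set dist : (Fq q →+* ℂ) → ℝ := fun φ => max ‖θ1 - φ (g1 q)‖ ‖θ2 - φ (g2 q)‖ with hdist
  have hZ : ∀ φ : Fq q →+* ℂ, (φ (g1 q), φ (g2 q)) ∈ Zs A Q := fun φ => map_mem_Zs hv φ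
  have hdpos : ∀ φ, 0 < dist φ := by
    intro φ
    have h0 : 0 ≤ dist φ := le_max_of_le_left (norm_nonneg _)
    refine lt_of_le_of_ne h0 fun h1 => ?_
    have h2 : ‖θ1 - φ (g1 q)‖ ≤ 0 := by rw [h1]; exact le_max_left _ _
    have h3 : ‖θ2 - φ (g2 q)‖ ≤ 0 := by rw [h1]; exact le_max_right _ _
    have h4 : θ1 = φ (g1 q) := sub_eq_zero.1 (norm_le_zero_iff.1 h2)
    have h5 : θ2 = φ (g2 q) := sub_eq_zero.1 (norm_le_zero_iff.1 h3)
    have h6 : evH (φ (g1 q)) (φ (g2 q)) A = 0 := (hZ φ).1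
    rw [← h4, ← h5] at h6
    exact evH_ne_zero hθ hA.ne_zero h6
  have hcl : ∀ φ : Fq q →+* ℂ, dist φ ≤ (2 * K + 1) * ‖(θ1 + k * θ2) - φ y‖ := by
    intro φ
    have h1 := hclose _ (hZ φ)
    have h2 : φ y = φ (g1 q) + k * φ (g2 q) := by rw [hy, map_add, map_mul, map_natCast]
    rw [h2]
    exact h1
  set S : Finset (Fq q →+* ℂ) := Finset.univ.filter fun φ => dist φ ≤ 1 with hS
  refine ⟨ν, ∑ φ ∈ S, (-Real.log (dist φ)), hν1, hsize, ?_, ?_⟩
  · refine ⟨Fq q, inferInstance, hNF, ![g1 q, g2 q], S, fun φ => -Real.log (dist φ), ?_, ?_, ?_, le_refl _⟩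
    · have h3 : 0 ≤ ν * l := by positivity
      linarith
    · intro i
      fin_cases i
      · exact hg1.trans hbound
      · exact hg2.trans hbound
    · intro φ hφ
      have hφ1 : dist φ ≤ 1 := (Finset.mem_filter.1 hφ).2
      have hφ0 := hdpos φ
      refine ⟨?_, ?_⟩
      · have := Real.log_nonpos hφ0.le hφ1
        show 0 ≤ -Real.log (dist φ)
        linarith
      · intro i
        have h1 : Real.exp (-(-Real.log (dist φ))) = dist φ := by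
          rw [neg_neg, Real.exp_log hφ0]
        show _ ≤ Real.exp (-(-Real.log (dist φ)))
        rw [h1]
        fin_cases i
        · show ‖φ (g1 q) - θ1‖ ≤ dist φ
          rw [norm_sub_rev]
          exact le_max_left _ _
        · show ‖φ (g2 q) - θ2‖ ≤ dist φ
          rw [norm_sub_rev]
          exact le_max_right _ _
  · have hs0 : 0 ≤ (RR k A Q).natDegree + Real.log (mah (RR k A Q)) := by linarith
    have hprod : aeval (θ1 + k * θ2) r = (r.leadingCoeff : ℂ) * ∏ φ : Fq q →+* ℂ, ((θ1 + k * θ2) - φ y) := by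
      have h1 := (IsAlgClosed.splits (r.map (Int.castRingHom ℂ))).eval_eq_prod_roots (θ1 + k * θ2)
      rw [hroots] at h1
      have h2 : (r.map (Int.castRingHom ℂ)).leadingCoeff = (r.leadingCoeff : ℂ) := by
        rw [leadingCoeff_map_of_injective (RingHom.injective_int _)]
        rfl
      rw [h2, Multiset.map_map, eval_map] at h1
      rw [aeval_def]
      exact h1
    have hlc : (1 : ℝ) ≤ ‖(r.leadingCoeff : ℂ)‖ := by
      have h1 : r.leadingCoeff ≠ 0 := leadingCoeff_ne_zero.2 hr0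
      have h2 : (1 : ℤ) ≤ |r.leadingCoeff| := Int.one_le_abs h1
      rw [Complex.norm_intCast]
      exact_mod_cast h2
    have hupos : ∀ φ : Fq q →+* ℂ, 0 < ‖(θ1 + k * θ2) - φ y‖ := by
      intro φ
      have h1 := (hdpos φ).trans_le (hcl φ)
      by_contra h2
      have h3 : ‖(θ1 + k * θ2) - φ y‖ ≤ 0 := not_lt.1 h2
      have h4 : (2 * (K : ℝ) + 1) * ‖(θ1 + k * θ2) - φ y‖ ≤ 0 :=
        mul_nonpos_of_nonneg_of_nonpos (by positivity) h3
      linarith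
    have hlogr : -Real.log ‖aeval (θ1 + k * θ2) r‖ ≤ r.natDegree * l + ∑ φ ∈ S, (-Real.log (dist φ)) := by
      rw [hprod, norm_mul, norm_prod, Real.log_mul (by positivity) (Finset.prod_ne_zero_iff.2 fun φ _ => (hupos φ).ne'),
        Real.log_prod fun φ _ => (hupos φ).ne']
      have h1 : 0 ≤ Real.log ‖(r.leadingCoeff : ℂ)‖ := Real.log_nonneg hlc
      have h2 : ∀ φ : Fq q →+* ℂ, -Real.log ‖(θ1 + k * θ2) - φ y‖ ≤ l + (-Real.log (dist φ)) := by
        intro φ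
        have h3 := Real.log_le_log (hdpos φ) (hcl φ)
        rw [Real.log_mul (by positivity) (hupos φ).ne'] at h3
        linarith
      have h4 : ∑ φ : Fq q →+* ℂ, -Real.log ‖(θ1 + k * θ2) - φ y‖ ≤
          ∑ φ : Fq q →+* ℂ, (l + (-Real.log (dist φ))) := Finset.sum_le_sum fun φ _ => h2 φ
      have h5 : ∑ φ : Fq q →+* ℂ, (l + (-Real.log (dist φ))) =
          r.natDegree * l + ∑ φ : Fq q →+* ℂ, (-Real.log (dist φ)) := by
        rw [Finset.sum_add_distrib, Finset.sum_const, nsmul_eq_mul, Finset.card_univ,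
          NumberField.Embeddings.card, ← hfin]
      have h6 : ∑ φ : Fq q →+* ℂ, (-Real.log (dist φ)) ≤ ∑ φ ∈ S, (-Real.log (dist φ)) := by
        rw [← Finset.sum_filter_add_sum_filter_not Finset.univ (fun φ => dist φ ≤ 1)]
        have h7 : ∑ φ ∈ Finset.univ.filter (fun φ => ¬ dist φ ≤ 1), (-Real.log (dist φ)) ≤ 0 := by
          apply Finset.sum_nonpos
          intro φ hφ
          have h8 := (Finset.mem_filter.1 hφ).2
          have h9 := Real.log_nonneg (not_le.1 h8).le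
          linarith
        linarith
      rw [Finset.sum_neg_distrib] at h4
      linarith
    have h10 : (r.natDegree : ℝ) * l ≤ ν * (1 + l) := by
      have h11 : (r.natDegree : ℝ) ≤ ν := by linarith
      have h12 : (r.natDegree : ℝ) * l ≤ ν * l := by gcongr
      linarith
    refine hVr.trans ?_
    apply mul_le_mul_of_nonneg_left _ hs0
    linarith

end CZ

end S_H32_CZ_Pk

section S_H32_CZ_Pl

set_option autoImplicit false

namespace CZ

open Polynomial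

theorem Pl_large (D : ℝ) : ∃ Y0 : ℝ, 1 ≤ Y0 ∧ ∀ Y : ℝ, Y0 ≤ Y → D * Real.log Y ^ 2 ≤ Y := by
  have h := (Real.isLittleO_pow_log_id_atTop (n := 2)).def (c := 1 / (|D| + 1)) (by positivity)
  rw [Filter.eventually_atTop] at h
  obtain ⟨a, ha⟩ := h
  refine ⟨max 1 a, le_max_left _ _, fun Y hY => ?_⟩
  have h1 := ha Y ((le_max_right _ _).trans hY)
  have hY1 : 1 ≤ Y := (le_max_left _ _).trans hY
  simp only [id, Real.norm_eq_abs] at h1
  rw [abs_of_nonneg (by positivity : (0 : ℝ) ≤ Real.log Y ^ 2),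
    abs_of_nonneg (by linarith : (0 : ℝ) ≤ Y)] at h1
  have h2 : D * Real.log Y ^ 2 ≤ (|D| + 1) * Real.log Y ^ 2 := by
    apply mul_le_mul_of_nonneg_right _ (by positivity)
    linarith [le_abs_self D]
  have h3 : (|D| + 1) * Real.log Y ^ 2 ≤ (|D| + 1) * (1 / (|D| + 1) * Y) :=
    mul_le_mul_of_nonneg_left h1 (by positivity)
  have h4 : (|D| + 1) * (1 / (|D| + 1) * Y) = Y := by
    field_simp
  linarith

theorem Pl_num1 {a μ Y L C1 m n df dg lf lg b : ℝ} (ha : 1 ≤ a) (haμ : a ≤ μ) (hY : 1 ≤ Y)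
    (hL : 1 ≤ L) (hC : 1 ≤ C1) (hm0 : 0 ≤ m) (hm : m ≤ 2 * a) (hn0 : 0 ≤ n)
    (hn : n ≤ (48 + C1) * Y) (hdf : df ≤ a) (hdg : dg ≤ C1 * Y)
    (hlf : lf ≤ 10 * μ * L) (hlg : lg ≤ 9 * C1 * Y * L + C1 * (Y * μ) / a) (hb0 : 0 ≤ b)
    (hb : b ≤ 10 * L) :
    (m + n) + (m + n) * b + n * (lf + df * b) + m * (lg + dg * b) + 1 ≤
      (1511 + 71 * C1) * (Y * μ * L) := by
  have hμ1 : 1 ≤ μ := ha.trans haμ
  have ha0 : 0 < a := by linarith
  have hμY : μ ≤ Y * μ := le_mul_of_one_le_left (by linarith) hY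
  have hYY : Y ≤ Y * μ := le_mul_of_one_le_right (by linarith) hμ1
  have hYμ : 1 ≤ Y * μ := hY.trans hYY
  have hP : Y * μ ≤ Y * μ * L := le_mul_of_one_le_right (by linarith) hL
  have hn1 : n ≤ (48 + C1) * (Y * μ) := hn.trans (mul_le_mul_of_nonneg_left hYY (by linarith))
  have hmn : m + n ≤ (50 + C1) * (Y * μ) := by
    have h1 : m ≤ 2 * (Y * μ) := by linarith
    linarith
  have t2 : (m + n) * b ≤ (50 + C1) * (Y * μ) * (10 * L) :=
    mul_le_mul hmn hb hb0 (by positivity)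
  have t3a : df * b ≤ μ * (10 * L) := by
    have h1 : df * b ≤ μ * b := mul_le_mul_of_nonneg_right (hdf.trans haμ) hb0
    have h2 : μ * b ≤ μ * (10 * L) := mul_le_mul_of_nonneg_left hb (by linarith)
    linarith
  have t3 : n * (lf + df * b) ≤ ((48 + C1) * Y) * (20 * μ * L) := by
    have h1 : lf + df * b ≤ 20 * μ * L := by linarith
    have h2 : n * (lf + df * b) ≤ n * (20 * μ * L) := mul_le_mul_of_nonneg_left h1 hn0
    have h3 : n * (20 * μ * L) ≤ ((48 + C1) * Y) * (20 * μ * L) :=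
      mul_le_mul_of_nonneg_right hn (by positivity)
    linarith
  have t4 : m * (lg + dg * b) ≤ 2 * a * (19 * C1 * Y * L + C1 * (Y * μ) / a) := by
    have h0 : dg * b ≤ C1 * Y * (10 * L) := by
      have h1 : dg * b ≤ C1 * Y * b := mul_le_mul_of_nonneg_right hdg hb0
      have h2 : C1 * Y * b ≤ C1 * Y * (10 * L) := mul_le_mul_of_nonneg_left hb (by positivity)
      linarith
    have h1 : lg + dg * b ≤ 19 * C1 * Y * L + C1 * (Y * μ) / a := by linarith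
    have h2 : m * (lg + dg * b) ≤ m * (19 * C1 * Y * L + C1 * (Y * μ) / a) :=
      mul_le_mul_of_nonneg_left h1 hm0
    have h3 : m * (19 * C1 * Y * L + C1 * (Y * μ) / a) ≤
        2 * a * (19 * C1 * Y * L + C1 * (Y * μ) / a) :=
      mul_le_mul_of_nonneg_right hm (by positivity)
    linarith
  have t5 : 2 * a * (19 * C1 * Y * L + C1 * (Y * μ) / a) =
      38 * C1 * (Y * a * L) + 2 * C1 * (Y * μ) := by
    field_simp
    ring
  have t6 : Y * a * L ≤ Y * μ * L :=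
    mul_le_mul_of_nonneg_right (mul_le_mul_of_nonneg_left haμ (by linarith)) (by linarith)
  have t7 : 38 * C1 * (Y * a * L) ≤ 38 * C1 * (Y * μ * L) :=
    mul_le_mul_of_nonneg_left t6 (by linarith)
  have t8 : 2 * C1 * (Y * μ) ≤ 2 * C1 * (Y * μ * L) := mul_le_mul_of_nonneg_left hP (by linarith)
  have t9 : (50 + C1) * (Y * μ) ≤ (50 + C1) * (Y * μ * L) :=
    mul_le_mul_of_nonneg_left hP (by linarith)
  have t10 : (50 + C1) * (Y * μ) * (10 * L) = (500 + 10 * C1) * (Y * μ * L) := by ring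
  have t11 : ((48 + C1) * Y) * (20 * μ * L) = (960 + 20 * C1) * (Y * μ * L) := by ring
  rw [t5] at t4
  rw [t10] at t2
  rw [t11] at t3
  have e : (1511 + 71 * C1) * (Y * μ * L) = (50 + C1) * (Y * μ * L) +
      (500 + 10 * C1) * (Y * μ * L) + (960 + 20 * C1) * (Y * μ * L) +
      (38 * C1 * (Y * μ * L) + 2 * C1 * (Y * μ * L)) + Y * μ * L := by ring
  rw [e]
  linarith

theorem Pl_num2 {a μ Y L C1 m n df dg lf lg : ℝ} (ha : 1 ≤ a) (haμ : a ≤ μ) (hY : 1 ≤ Y)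
    (hL : 1 ≤ L) (hC : 1 ≤ C1) (hm0 : 0 ≤ m) (hm : m ≤ 2 * a) (hn0 : 0 ≤ n)
    (hn : n ≤ (48 + C1) * Y) (hdf : df ≤ a) (hdg : dg ≤ C1 * Y)
    (hlf : lf ≤ 10 * μ * L) (hlg : lg ≤ 9 * C1 * Y * L + C1 * (Y * μ) / a) :
    (n * df + m * dg) + (n * lf + m * lg) ≤ (528 + 33 * C1) * (Y * μ * L) := by
  have hμ1 : 1 ≤ μ := ha.trans haμ
  have ha0 : 0 < a := by linarith
  have hYa : 0 ≤ Y * a := by positivity
  have hP : Y * μ ≤ Y * μ * L := le_mul_of_one_le_right (by positivity) hL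
  have hYaμ : Y * a ≤ Y * μ := mul_le_mul_of_nonneg_left haμ (by linarith)
  have s1 : n * df ≤ (48 + C1) * (Y * a) := by
    have h1 : n * df ≤ n * a := mul_le_mul_of_nonneg_left hdf hn0
    have h2 : n * a ≤ (48 + C1) * Y * a := mul_le_mul_of_nonneg_right hn ha0.le
    linarith
  have s2 : m * dg ≤ 2 * C1 * (Y * a) := by
    have h1 : m * dg ≤ m * (C1 * Y) := mul_le_mul_of_nonneg_left hdg hm0
    have h2 : m * (C1 * Y) ≤ 2 * a * (C1 * Y) := mul_le_mul_of_nonneg_right hm (by positivity)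
    linarith
  have s3 : n * lf ≤ (480 + 10 * C1) * (Y * μ * L) := by
    have h1 : n * lf ≤ n * (10 * μ * L) := mul_le_mul_of_nonneg_left hlf hn0
    have h2 : n * (10 * μ * L) ≤ (48 + C1) * Y * (10 * μ * L) :=
      mul_le_mul_of_nonneg_right hn (by positivity)
    linarith
  have s4 : m * lg ≤ 18 * C1 * (Y * a * L) + 2 * C1 * (Y * μ) := by
    have h1 : m * lg ≤ m * (9 * C1 * Y * L + C1 * (Y * μ) / a) := mul_le_mul_of_nonneg_left hlg hm0
    have h2 : m * (9 * C1 * Y * L + C1 * (Y * μ) / a) ≤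
        2 * a * (9 * C1 * Y * L + C1 * (Y * μ) / a) :=
      mul_le_mul_of_nonneg_right hm (by positivity)
    have h3 : 2 * a * (9 * C1 * Y * L + C1 * (Y * μ) / a) =
        18 * C1 * (Y * a * L) + 2 * C1 * (Y * μ) := by
      field_simp
      ring
    linarith
  have s5 : (48 + C1) * (Y * a) ≤ (48 + C1) * (Y * μ * L) :=
    mul_le_mul_of_nonneg_left (hYaμ.trans hP) (by linarith)
  have s6 : 2 * C1 * (Y * a) ≤ 2 * C1 * (Y * μ * L) :=
    mul_le_mul_of_nonneg_left (hYaμ.trans hP) (by linarith)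
  have s7 : 18 * C1 * (Y * a * L) ≤ 18 * C1 * (Y * μ * L) :=
    mul_le_mul_of_nonneg_left (mul_le_mul_of_nonneg_right hYaμ (by linarith)) (by linarith)
  have s8 : 2 * C1 * (Y * μ) ≤ 2 * C1 * (Y * μ * L) := mul_le_mul_of_nonneg_left hP (by linarith)
  have e : (528 + 33 * C1) * (Y * μ * L) = (48 + C1) * (Y * μ * L) + 2 * C1 * (Y * μ * L) +
      (480 + 10 * C1) * (Y * μ * L) + (18 * C1 * (Y * μ * L) + 2 * C1 * (Y * μ * L)) := by ring
  rw [e]
  linarith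

theorem Pl_num3 {μ Y L D3 s ν W l : ℝ} (hμ1 : 1 ≤ μ) (hμY : μ ≤ 48 * Y) (hY : 1 ≤ Y) (hL : 1 ≤ L)
    (hD : 0 < D3) (hν : 1 ≤ ν) (hνs : ν ≤ s) (hs : s ≤ D3 * (Y * μ * L)) (hl : 1 ≤ l)
    (hl10 : l ≤ 10 * L) (hbig : 40 * D3 * L ^ 2 ≤ Y)
    (h : Y ^ 2 * μ / 2 * ν ≤ s * (W + ν * l)) :
    4 * ν * l ≤ 1920 * D3 * Y ^ 2 * L ^ 2 ∧ Y * (4 * ν * l) ≤ 1920 * D3 * L ^ 2 * W := by
  have hs0 : 0 < s := by linarith
  have hpos : 0 < Y ^ 2 * μ / 2 * ν := by positivity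
  have hW : 0 < W + ν * l := by
    have h1 : 0 < s * (W + ν * l) := lt_of_lt_of_le hpos h
    exact pos_of_mul_pos_right (by simpa [mul_comm] using h1) hs0.le
  have h1 : s * (W + ν * l) ≤ D3 * (Y * μ * L) * (W + ν * l) :=
    mul_le_mul_of_nonneg_right hs hW.le
  have h2 : (Y * μ) * (Y * ν / 2) ≤ (Y * μ) * (D3 * L * (W + ν * l)) := by
    have e1 : (Y * μ) * (Y * ν / 2) = Y ^ 2 * μ / 2 * ν := by ring
    have e2 : (Y * μ) * (D3 * L * (W + ν * l)) = D3 * (Y * μ * L) * (W + ν * l) := by ring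
    rw [e1, e2]
    exact h.trans h1
  have h3 : Y * ν / 2 ≤ D3 * L * (W + ν * l) := le_of_mul_le_mul_left h2 (by positivity)
  have h4 : ν * l ≤ ν * (10 * L) := mul_le_mul_of_nonneg_left hl10 (by linarith)
  have h5 : D3 * L * (W + ν * l) ≤ D3 * L * (W + ν * (10 * L)) :=
    mul_le_mul_of_nonneg_left (by linarith) (by positivity)
  have h6 : 40 * D3 * L ^ 2 * ν ≤ Y * ν := mul_le_mul_of_nonneg_right hbig (by linarith)
  have h7 : Y * ν ≤ 4 * D3 * L * W := by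
    have e1 : D3 * L * (W + ν * (10 * L)) = D3 * L * W + 40 * D3 * L ^ 2 * ν / 4 := by ring
    rw [e1] at h5
    linarith
  have h8 : 0 < 4 * D3 * L * W := lt_of_lt_of_le (by positivity) h7
  have hW0 : 0 ≤ W := by
    by_contra hneg
    push Not at hneg
    have : 4 * D3 * L * W < 0 := mul_neg_of_pos_of_neg (by positivity) hneg
    linarith
  constructor
  · have g1 : 4 * ν * l ≤ 4 * (D3 * (Y * μ * L)) * (10 * L) := by
      have g2 : 4 * ν * l ≤ 4 * (D3 * (Y * μ * L)) * l :=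
        mul_le_mul_of_nonneg_right (by linarith) (by linarith)
      have g3 : 4 * (D3 * (Y * μ * L)) * l ≤ 4 * (D3 * (Y * μ * L)) * (10 * L) :=
        mul_le_mul_of_nonneg_left hl10 (by positivity)
      linarith
    have g4 : 4 * (D3 * (Y * μ * L)) * (10 * L) = 40 * D3 * Y * L ^ 2 * μ := by ring
    have g5 : 40 * D3 * Y * L ^ 2 * μ ≤ 40 * D3 * Y * L ^ 2 * (48 * Y) :=
      mul_le_mul_of_nonneg_left hμY (by positivity)
    have g6 : 40 * D3 * Y * L ^ 2 * (48 * Y) = 1920 * D3 * Y ^ 2 * L ^ 2 := by ring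
    linarith
  · have g1 : Y * (4 * ν * l) = (Y * ν) * (4 * l) := by ring
    have g2 : (Y * ν) * (4 * l) ≤ (4 * D3 * L * W) * (4 * l) :=
      mul_le_mul_of_nonneg_right h7 (by linarith)
    have g3 : (4 * D3 * L * W) * (4 * l) ≤ (4 * D3 * L * W) * (4 * (10 * L)) :=
      mul_le_mul_of_nonneg_left (by linarith) h8.le
    have g4 : (4 * D3 * L * W) * (4 * (10 * L)) = 160 * (D3 * L ^ 2 * W) := by ring
    have g5 : 0 ≤ D3 * L ^ 2 * W := by positivity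
    have g6 : 1920 * D3 * L ^ 2 * W = 1920 * (D3 * L ^ 2 * W) := by ring
    rw [g6]
    linarith

theorem Pl_exp (m n df dg : ℕ) (B F G E b lf lg U : ℝ) (hB : B = Real.exp b)
    (hF : F = Real.exp lf) (hG : G = Real.exp lg) (hE : E ≤ Real.exp (1 - U)) :
    ((m : ℝ) + n) * B ^ (m + n) * (F * B ^ df) ^ n * (G * B ^ dg) ^ m * E ≤
      Real.exp (((m : ℝ) + n) + (m + n) * b + n * (lf + df * b) + m * (lg + dg * b) + 1 - U) := by
  have hB0 : 0 < B := by rw [hB]; exact Real.exp_pos _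
  have hF0 : 0 < F := by rw [hF]; exact Real.exp_pos _
  have hG0 : 0 < G := by rw [hG]; exact Real.exp_pos _
  have q1 : B ^ (m + n) = Real.exp (((m : ℝ) + n) * b) := by
    rw [hB, ← Real.exp_nat_mul]
    push_cast
    rfl
  have q2 : (F * B ^ df) ^ n = Real.exp (n * (lf + df * b)) := by
    rw [hF, hB, ← Real.exp_nat_mul, ← Real.exp_add, ← Real.exp_nat_mul]
  have q3 : (G * B ^ dg) ^ m = Real.exp (m * (lg + dg * b)) := by
    rw [hG, hB, ← Real.exp_nat_mul, ← Real.exp_add, ← Real.exp_nat_mul]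
  have e1 : Real.exp (((m : ℝ) + n) + (m + n) * b + n * (lf + df * b) + m * (lg + dg * b) + 1 - U) =
      Real.exp ((m : ℝ) + n) * B ^ (m + n) * (F * B ^ df) ^ n * (G * B ^ dg) ^ m *
        Real.exp (1 - U) := by
    rw [q1, q2, q3, ← Real.exp_add, ← Real.exp_add, ← Real.exp_add, ← Real.exp_add]
    congr 1
    ring
  rw [e1]
  have h1 : ((m : ℝ) + n) ≤ Real.exp ((m : ℝ) + n) := by
    have := Real.add_one_le_exp ((m : ℝ) + n)
    linarith
  have h2 : ((m : ℝ) + n) * B ^ (m + n) * (F * B ^ df) ^ n * (G * B ^ dg) ^ m ≤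
      Real.exp ((m : ℝ) + n) * B ^ (m + n) * (F * B ^ df) ^ n * (G * B ^ dg) ^ m := by
    gcongr
  exact (mul_le_mul_of_nonneg_left hE (by positivity)).trans
    (mul_le_mul_of_nonneg_right h2 (Real.exp_pos _).le)

theorem Pl_shr {P : ℤ[X][X]} (hP : P ≠ 0) (k : ℕ) {M : ℝ} (hM : Real.log (1 + (k : ℝ)) ≤ M) :
    shr (k : ℤ) P ≠ 0 ∧ Real.log (nr2 (shr (k : ℤ) P)) ≤ dX P * M + Real.log (nr2 P) := by
  have h0 : shr (k : ℤ) P ≠ 0 := by
    intro h
    apply hP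
    rw [← shr_shr (k : ℤ) P, h, map_zero]
  refine ⟨h0, ?_⟩
  have h1 := nr2_shr_le (k : ℤ) P
  have h2 : |(((k : ℤ)) : ℝ)| = (k : ℝ) := by
    rw [Int.cast_natCast]
    exact abs_of_nonneg (Nat.cast_nonneg k)
  rw [h2] at h1
  have h3 := one_le_nr2 h0
  have h4 := one_le_nr2 hP
  have hk : (0 : ℝ) < 1 + (k : ℝ) := by positivity
  have h5 := Real.log_le_log (by linarith) h1
  rw [Real.log_mul (by positivity) (by linarith), Real.log_pow] at h5
  have h6 : (dX P : ℝ) * Real.log (1 + (k : ℝ)) ≤ dX P * M :=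
    mul_le_mul_of_nonneg_left hM (Nat.cast_nonneg _)
  linarith

theorem plane_of_A (θ1 θ2 : ℂ) (hθ : AlgebraicIndependent ℚ ![θ1, θ2]) :
    ∃ (C : ℝ) (T1 : ℕ), 1 ≤ C ∧ ∀ T : ℕ, T1 ≤ T → ∀ A : ℤ[X][X], Irreducible A →
      0 < A.natDegree → dX A ≤ A.natDegree → mu2 A ≤ 8 * T →
      ‖evH θ1 θ2 A‖ ≤ Real.exp (-((T : ℝ) ^ 2 / 32 * mu2 A)) →
      ∃ Y t W : ℝ, (T : ℝ) ≤ 6 * Y ∧ 1 ≤ t ∧ ApprAt ![θ1, θ2] t W ∧
        t ≤ C * Y ^ 2 * Real.log Y ^ 2 ∧ Y * t ≤ C * Real.log Y ^ 2 * W := by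
  obtain ⟨C1, hC1, hsec⟩ := second θ1 θ2 (1 / 2048) (by norm_num)
  obtain ⟨B0, hB0⟩ : ∃ B0 : ℝ, B0 = 1 + ‖θ1‖ + ‖θ2‖ := ⟨_, rfl⟩
  obtain ⟨D1, hD1⟩ : ∃ D1 : ℝ, D1 = 192 * (48 + C1) + 2 := ⟨_, rfl⟩
  obtain ⟨D2, hD2⟩ : ∃ D2 : ℝ, D2 = 2 * D1 ^ 4 + 195 := ⟨_, rfl⟩
  obtain ⟨D3, hD3⟩ : ∃ D3 : ℝ, D3 = 528 + 33 * C1 := ⟨_, rfl⟩
  obtain ⟨D4, hD4⟩ : ∃ D4 : ℝ, D4 = 1511 + 71 * C1 := ⟨_, rfl⟩
  have hD1p : 0 < D1 := by rw [hD1]; linarith
  have hD2p : 0 < D2 := by rw [hD2]; positivity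
  have hD3p : 0 < D3 := by rw [hD3]; linarith
  have hD4p : 0 < D4 := by rw [hD4]; linarith
  have hB0p : 1 ≤ B0 := by
    rw [hB0]
    linarith [norm_nonneg θ1, norm_nonneg θ2]
  obtain ⟨Y0, hY01, hY0⟩ := Pl_large (40 * D3 + 2 * D4)
  obtain ⟨T1, hT1⟩ := exists_nat_ge (6 * (Y0 + D2 + B0 + Real.exp 1))
  refine ⟨1920 * D3, T1, by linarith, ?_⟩
  intro T hT A hA hA0 hAd hAT hAθ
  have hAne : A ≠ 0 := hA.ne_zero
  have hTR : 6 * (Y0 + D2 + B0 + Real.exp 1) ≤ (T : ℝ) := hT1.trans (by exact_mod_cast hT)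
  have hT0 : (0 : ℝ) ≤ T := Nat.cast_nonneg T
  obtain ⟨μ, hμ⟩ : ∃ μ : ℝ, μ = mu2 A := ⟨_, rfl⟩
  obtain ⟨a, haa⟩ : ∃ a : ℝ, a = (A.natDegree : ℝ) := ⟨_, rfl⟩
  have ha1 : 1 ≤ a := by
    rw [haa]
    exact_mod_cast hA0
  have hlognA : 0 ≤ Real.log (nr2 A) := Real.log_nonneg (one_le_nr2 hAne)
  have hmu : μ = a + dX A + Real.log (nr2 A) := by
    rw [hμ, haa]
    rfl
  have hdXA0 : (0 : ℝ) ≤ dX A := Nat.cast_nonneg _
  have haμ : a ≤ μ := by linarith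
  have hlogμ : Real.log (nr2 A) ≤ μ := by linarith
  have hdXA : (dX A : ℝ) ≤ a := by
    rw [haa]
    exact_mod_cast hAd
  have hμ1 : 1 ≤ μ := ha1.trans haμ
  rw [← hμ] at hAT hAθ
  have hθne := evH_ne_zero hθ hAne
  have hnpos : 0 < ‖evH θ1 θ2 A‖ := norm_pos_iff.mpr hθne
  obtain ⟨U, hUdef⟩ : ∃ U : ℝ, U = -Real.log ‖evH θ1 θ2 A‖ := ⟨_, rfl⟩
  have hUexp : ‖evH θ1 θ2 A‖ = Real.exp (-U) := by
    rw [hUdef, neg_neg, Real.exp_log hnpos]
  have hUT : (T : ℝ) ^ 2 / 32 * μ ≤ U := by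
    have h1 := Real.log_le_log hnpos hAθ
    rw [Real.log_exp] at h1
    linarith
  have hU3 : 1 / 2048 * μ ^ 3 ≤ U := by
    have h1 : μ ^ 2 ≤ (8 * (T : ℝ)) ^ 2 := pow_le_pow_left₀ (by linarith) hAT 2
    have h2 : 1 / 2048 * μ ^ 3 = μ ^ 2 / 2048 * μ := by ring
    have h3 : μ ^ 2 / 2048 * μ ≤ (8 * (T : ℝ)) ^ 2 / 2048 * μ :=
      mul_le_mul_of_nonneg_right (by linarith) (by linarith)
    have h4 : (8 * (T : ℝ)) ^ 2 / 2048 * μ = (T : ℝ) ^ 2 / 32 * μ := by ring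
    linarith
  have hUpos : 0 < U := lt_of_lt_of_le (by positivity) hU3
  rw [hμ] at hU3
  obtain ⟨Q, hQ, hlt, hdXQ, hlogQ, hQθ⟩ := hsec A U hA0 hU3
  rw [← hμ] at hdXQ hlogQ
  obtain ⟨Y, hYdef⟩ : ∃ Y : ℝ, Y = √(U / μ) := ⟨_, rfl⟩
  rw [← hYdef] at hdXQ
  have hY2 : Y ^ 2 = U / μ := by
    rw [hYdef]
    exact Real.sq_sqrt (by positivity)
  have hYnn : 0 ≤ Y := by
    rw [hYdef]
    exact Real.sqrt_nonneg _
  have hUY : U = Y ^ 2 * μ := by
    rw [hY2]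
    field_simp
  have hUμ : √(U * μ) = Y * μ := by
    have h1 : U * μ = (Y * μ) ^ 2 := by
      rw [hUY]
      ring
    rw [h1]
    exact Real.sqrt_sq (by positivity)
  rw [hUμ, ← haa] at hlogQ
  have hTY : (T : ℝ) ≤ 6 * Y := by
    have h1 : (T : ℝ) / 6 ≤ √(U / μ) := by
      apply Real.le_sqrt_of_sq_le
      rw [le_div_iff₀ (by linarith)]
      have h2 : ((T : ℝ) / 6) ^ 2 * μ ≤ (T : ℝ) ^ 2 / 32 * μ := by
        apply mul_le_mul_of_nonneg_right _ (by linarith)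
        have h3 : ((T : ℝ) / 6) ^ 2 = (T : ℝ) ^ 2 / 36 := by ring
        rw [h3]
        linarith [sq_nonneg (T : ℝ)]
      linarith
    rw [← hYdef] at h1
    linarith
  have hYbig : Y0 + D2 + B0 + Real.exp 1 ≤ Y := by linarith
  have he1 : 0 < Real.exp 1 := Real.exp_pos 1
  have hYY0 : Y0 ≤ Y := by linarith
  have hYD2 : D2 ≤ Y := by linarith
  have hYB0 : B0 ≤ Y := by linarith
  have hYe : Real.exp 1 ≤ Y := by linarith
  have hY1 : 1 ≤ Y := hB0p.trans hYB0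
  have hYpos : 0 < Y := by linarith
  obtain ⟨L, hLdef⟩ : ∃ L : ℝ, L = Real.log Y := ⟨_, rfl⟩
  have hL1 : 1 ≤ L := by
    rw [hLdef, Real.le_log_iff_exp_le hYpos]
    exact hYe
  have hμY : μ ≤ 48 * Y := by linarith
  have hbig := hY0 Y hYY0
  rw [← hLdef] at hbig
  have hbig1 : 40 * D3 * L ^ 2 ≤ Y := by
    have h1 : 0 ≤ D4 * L ^ 2 := by positivity
    linarith
  have hbig2 : 2 * D4 * L ≤ Y := by
    have h1 : 0 ≤ D3 * L ^ 2 := by positivity
    have h2 : D4 * L ≤ D4 * L ^ 2 := by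
      apply mul_le_mul_of_nonneg_left _ hD4p.le
      exact le_self_pow₀ hL1 (by norm_num)
    linarith
  -- degrees
  have hdTA : (dT A : ℝ) ≤ 2 * a := by
    have h1 : (dT A : ℝ) ≤ A.natDegree + dX A := by exact_mod_cast dT_le A
    rw [← haa] at h1
    linarith
  have hdTQ : (dT Q : ℝ) ≤ (48 + C1) * Y := by
    have h1 : (dT Q : ℝ) ≤ Q.natDegree + dX Q := by exact_mod_cast dT_le Q
    have h2 : (Q.natDegree : ℝ) ≤ a := by
      rw [haa]
      exact_mod_cast hlt.le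
    linarith
  obtain ⟨K, hKdef⟩ : ∃ K : ℕ, K = (2 * dT A * dT Q + 2) ^ 4 + dT A + 1 := ⟨_, rfl⟩
  have hK1 : (2 * dT A * dT Q + 2) ^ 4 ≤ K := by omega
  have hK2 : dT A < K := by omega
  have hKY : 2 * (K : ℝ) + 1 ≤ Y ^ 9 := by
    have h1 : 2 * (dT A : ℝ) * dT Q + 2 ≤ D1 * Y ^ 2 := by
      have h2 : 2 * (dT A : ℝ) * dT Q ≤ 2 * (96 * Y) * ((48 + C1) * Y) := by
        apply mul_le_mul _ hdTQ (Nat.cast_nonneg _) (by positivity)
        linarith
      have h3 : 1 ≤ Y ^ 2 := one_le_pow₀ hY1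
      have e : (192 * (48 + C1) + 2) * Y ^ 2 = 2 * (96 * Y) * ((48 + C1) * Y) + 2 * Y ^ 2 := by ring
      rw [hD1, e]
      linarith
    have h4 : (2 * (dT A : ℝ) * dT Q + 2) ^ 4 ≤ (D1 * Y ^ 2) ^ 4 :=
      pow_le_pow_left₀ (by positivity) h1 4
    have h5 : (K : ℝ) = (2 * (dT A : ℝ) * dT Q + 2) ^ 4 + dT A + 1 := by
      rw [hKdef]
      push_cast
      ring
    have h6 : 1 ≤ Y ^ 8 := one_le_pow₀ hY1
    have h7 : Y ≤ Y ^ 8 := le_self_pow₀ hY1 (by norm_num)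
    have h8 : (D1 * Y ^ 2) ^ 4 = D1 ^ 4 * Y ^ 8 := by ring
    have h9 : 2 * (K : ℝ) + 1 ≤ D2 * Y ^ 8 := by
      rw [h8] at h4
      have e : (2 * D1 ^ 4 + 195) * Y ^ 8 = 2 * (D1 ^ 4 * Y ^ 8) + 192 * Y ^ 8 + 3 * Y ^ 8 := by ring
      rw [h5, hD2, e]
      linarith
    have h10 : D2 * Y ^ 8 ≤ Y * Y ^ 8 := mul_le_mul_of_nonneg_right hYD2 (by positivity)
    have h11 : Y * Y ^ 8 = Y ^ 9 := by ring
    linarith
  have hK0 : (0 : ℝ) ≤ K := Nat.cast_nonneg K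
  have hlogK : Real.log (2 * K + 1) ≤ 9 * L := by
    have h1 := Real.log_le_log (by positivity) hKY
    rw [Real.log_pow, ← hLdef] at h1
    exact_mod_cast h1
  have hlogK0 : 0 ≤ Real.log (2 * K + 1) := Real.log_nonneg (by linarith)
  obtain ⟨k, hk1, hkK, hdeg, ⟨c, hc, hlead⟩, hinj, hclose, hgood⟩ :=
    good_k hA hA0 hQ hlt θ1 θ2 K hK1 hK2
  have hkKR : (k : ℝ) ≤ K := by exact_mod_cast hkK
  have hk0 : (0 : ℝ) ≤ k := Nat.cast_nonneg k
  have hlogk : Real.log (1 + (k : ℝ)) ≤ 9 * L :=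
    (Real.log_le_log (by positivity) (by linarith)).trans hlogK
  obtain ⟨hfne, hlf⟩ := Pl_shr hAne k hlogk
  obtain ⟨hgne, hlg⟩ := Pl_shr hQ k hlogk
  obtain ⟨f, hf⟩ : ∃ f : ℤ[X][X], f = shr (k : ℤ) A := ⟨_, rfl⟩
  obtain ⟨g, hg⟩ : ∃ g : ℤ[X][X], g = shr (k : ℤ) Q := ⟨_, rfl⟩
  have hR : RR k A Q = resultant f g f.natDegree g.natDegree := by
    rw [hf, hg]
    rfl
  have hm : (f.natDegree : ℝ) ≤ 2 * a := by
    rw [hf, hdeg]
    exact hdTA
  have hn : (g.natDegree : ℝ) ≤ (48 + C1) * Y := by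
    refine le_trans ?_ hdTQ
    rw [hg]
    exact_mod_cast natDegree_shr_le (k : ℤ) Q
  have hdf : (dX f : ℝ) ≤ a := by
    refine le_trans ?_ hdXA
    rw [hf]
    exact_mod_cast dX_shr_le (k : ℤ) A
  have hdg : (dX g : ℝ) ≤ C1 * Y := by
    refine le_trans ?_ hdXQ
    rw [hg]
    exact_mod_cast dX_shr_le (k : ℤ) Q
  rw [← hf] at hlf hfne
  rw [← hg] at hlg hgne
  have hlf2 : Real.log (nr2 f) ≤ 10 * μ * L := by
    have h1 : (dX A : ℝ) * (9 * L) ≤ μ * (9 * L) :=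
      mul_le_mul_of_nonneg_right (hdXA.trans haμ) (by linarith)
    have h2 : μ ≤ μ * L := le_mul_of_one_le_right (by linarith) hL1
    linarith
  have hlg2 : Real.log (nr2 g) ≤ 9 * C1 * Y * L + C1 * (Y * μ) / a := by
    have h1 : (dX Q : ℝ) * (9 * L) ≤ C1 * Y * (9 * L) :=
      mul_le_mul_of_nonneg_right hdXQ (by linarith)
    linarith
  have hfpos : 0 < nr2 f := lt_of_lt_of_le one_pos (one_le_nr2 hfne)
  have hgpos : 0 < nr2 g := lt_of_lt_of_le one_pos (one_le_nr2 hgne)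
  have hm0 : 0 < f.natDegree := by
    rw [hf, hdeg]
    exact lt_of_lt_of_le hA0 (natDegree_le_dT A)
  have hRne : RR k A Q ≠ 0 := RR_ne_zero hA hA0 hQ hlt k (by rw [← hf]; exact hm0)
  -- size of the resultant
  have hs : ((RR k A Q).natDegree : ℝ) + Real.log (mah (RR k A Q)) ≤ D3 * (Y * μ * L) := by
    have h1 : ((RR k A Q).natDegree : ℝ) ≤ g.natDegree * dX f + f.natDegree * dX g := by
      rw [hR]
      exact_mod_cast natDegree_resultant_le f g f.natDegree g.natDegree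
    have h2 : Real.log (mah (RR k A Q)) ≤
        g.natDegree * Real.log (nr2 f) + f.natDegree * Real.log (nr2 g) := by
      have h3 : 0 < mah (RR k A Q) := lt_of_lt_of_le one_pos (one_le_mah hRne)
      have h4 : mah (RR k A Q) ≤ nr2 f ^ g.natDegree * nr2 g ^ f.natDegree := by
        refine (mah_le_nr _).trans ?_
        rw [hR]
        exact nr_resultant_le f g f.natDegree g.natDegree
      have h5 := Real.log_le_log h3 h4
      rw [Real.log_mul (by positivity) (by positivity), Real.log_pow, Real.log_pow] at h5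
      exact h5
    have h6 := Pl_num2 ha1 haμ hY1 hL1 hC1 (Nat.cast_nonneg f.natDegree) hm
      (Nat.cast_nonneg g.natDegree) hn hdf hdg hlf2 hlg2
    rw [← hD3] at h6
    linarith
  -- the value
  obtain ⟨b, hb⟩ : ∃ b : ℝ, b = Real.log (((K : ℝ) + 1) * B0) := ⟨_, rfl⟩
  have hBpos : 0 < ((K : ℝ) + 1) * B0 := by positivity
  have hB1 : 1 ≤ ((K : ℝ) + 1) * B0 := one_le_mul_of_one_le_of_one_le (by linarith) hB0p
  have hb0 : 0 ≤ b := by
    rw [hb]
    exact Real.log_nonneg hB1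
  have hb10 : b ≤ 10 * L := by
    have h1 : ((K : ℝ) + 1) * B0 ≤ Y ^ 9 * Y := by
      apply mul_le_mul _ hYB0 (by linarith) (by positivity)
      linarith
    have h2 : Y ^ 9 * Y = Y ^ 10 := by ring
    rw [h2] at h1
    have h3 := Real.log_le_log hBpos h1
    rw [Real.log_pow, ← hLdef, ← hb] at h3
    exact_mod_cast h3
  have hu : ‖θ1 + k * θ2‖ ≤ ((K : ℝ) + 1) * B0 := by
    have h1 : ‖θ1 + (k : ℂ) * θ2‖ ≤ ‖θ1‖ + k * ‖θ2‖ := by
      refine (norm_add_le _ _).trans ?_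
      rw [norm_mul, Complex.norm_natCast]
    have h2 : (k : ℝ) * ‖θ2‖ ≤ K * ‖θ2‖ := mul_le_mul_of_nonneg_right hkKR (norm_nonneg _)
    have h3 : ((K : ℝ) + 1) * B0 = B0 + K * (1 + ‖θ1‖) + K * ‖θ2‖ := by
      rw [hB0]
      ring
    have h4 : 0 ≤ (K : ℝ) * (1 + ‖θ1‖) := by positivity
    have h5 : ‖θ1‖ ≤ B0 := by
      rw [hB0]
      linarith [norm_nonneg θ2]
    linarith
  have hv : ‖θ2‖ ≤ ((K : ℝ) + 1) * B0 := by
    have h5 : ‖θ2‖ ≤ B0 := by
      rw [hB0]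
      linarith [norm_nonneg θ1]
    exact h5.trans (le_mul_of_one_le_left (by linarith) (by linarith))
  have hev1 : evH (θ1 + k * θ2) θ2 f = evH θ1 θ2 A := by
    have h1 := evH_shr (k : ℤ) θ1 θ2 A
    rw [Int.cast_natCast] at h1
    rw [hf]
    exact h1
  have hev2 : evH (θ1 + k * θ2) θ2 g = evH θ1 θ2 Q := by
    have h1 := evH_shr (k : ℤ) θ1 θ2 Q
    rw [Int.cast_natCast] at h1
    rw [hg]
    exact h1
  have hval : ‖aeval (θ1 + k * θ2) (RR k A Q)‖ ≤ Real.exp (-(U / 2)) := by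
    have h1 := resultant_small f g f.natDegree g.natDegree le_rfl le_rfl (by omega) hfne hgne
      (θ1 + k * θ2) θ2 (((K : ℝ) + 1) * B0) hB1 hu hv
    rw [hR]
    refine h1.trans ?_
    have h2 : ‖evH (θ1 + k * θ2) θ2 f‖ + ‖evH (θ1 + k * θ2) θ2 g‖ ≤ Real.exp (1 - U) := by
      rw [hev1, hev2, hUexp]
      have h3 : (2 : ℝ) ≤ Real.exp 1 := by
        have := Real.add_one_le_exp (1 : ℝ)
        linarith
      have h4 : Real.exp (1 - U) = Real.exp 1 * Real.exp (-U) := by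
        rw [← Real.exp_add]
        congr 1
      rw [h4]
      have h5 := mul_le_mul_of_nonneg_right h3 (Real.exp_pos (-U)).le
      linarith
    have h3 := Pl_exp f.natDegree g.natDegree (dX f) (dX g) (((K : ℝ) + 1) * B0) (nr2 f) (nr2 g)
      (‖evH (θ1 + k * θ2) θ2 f‖ + ‖evH (θ1 + k * θ2) θ2 g‖) b (Real.log (nr2 f))
      (Real.log (nr2 g)) U (by rw [hb, Real.exp_log hBpos]) (Real.exp_log hfpos).symm
      (Real.exp_log hgpos).symm h2
    refine h3.trans (Real.exp_le_exp.mpr ?_)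
    have h6 := Pl_num1 ha1 haμ hY1 hL1 hC1 (Nat.cast_nonneg f.natDegree) hm
      (Nat.cast_nonneg g.natDegree) hn hdf hdg hlf2 hlg2 hb0 hb10
    rw [← hD4] at h6
    have h7 : D4 * (Y * μ * L) ≤ U / 2 := by
      have h8 : (2 * D4 * L) * (Y * μ) ≤ Y * (Y * μ) :=
        mul_le_mul_of_nonneg_right hbig2 (by positivity)
      have h9 : D4 * (Y * μ * L) = (2 * D4 * L) * (Y * μ) / 2 := by ring
      have h10 : U / 2 = Y * (Y * μ) / 2 := by
        rw [hUY]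
        ring
      rw [h9, h10]
      linarith
    linarith
  obtain ⟨ν, W, hν1, hνs, happ, hVν⟩ := plane_local θ1 θ2 hθ hA hA0 hQ hlt K k hk1 hkK hdeg
    ⟨c, hc, hlead⟩ hinj hclose hgood (U / 2) (by positivity) hval
  have hl1 : 1 ≤ 1 + Real.log (2 * K + 1) := by linarith
  have hl10 : 1 + Real.log (2 * K + 1) ≤ 10 * L := by linarith
  have hVν' : Y ^ 2 * μ / 2 * ν ≤ (((RR k A Q).natDegree : ℝ) + Real.log (mah (RR k A Q))) *
      (W + ν * (1 + Real.log (2 * K + 1))) := by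
    rw [← hUY]
    exact hVν
  have hfin := Pl_num3 hμ1 hμY hY1 hL1 hD3p hν1 hνs hs hl1 hl10 hbig1 hVν'
  refine ⟨Y, 4 * ν * (1 + Real.log (2 * K + 1)), W, hTY, ?_, happ, ?_, ?_⟩
  · have h1 := one_le_mul_of_one_le_of_one_le hν1 hl1
    have e : 4 * ν * (1 + Real.log (2 * K + 1)) = 4 * (ν * (1 + Real.log (2 * K + 1))) := by ring
    rw [e]
    linarith
  · rw [← hLdef]
    exact hfin.1
  · rw [← hLdef]
    exact hfin.2

end CZ

end S_H32_CZ_Pl
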