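import Mathlib
import Pool.Agent.H32.AKM.P08
import Pool.Agent.H32.AKM.P13
import Pool.Agent.H32.AKM.P14
import Pool.Agent.H32.AKM.P15

/-! Modular Schanuel with derivatives for points algebraic over a field with good approximations, part 16: this file joins several modules to save build time. -/

section S_H32_AZ_L

set_option autoImplicit false

namespace AZ

open Polynomial CZ

theorem line_poly (θ : ℂ) : ∃ T0 : ℕ, ∀ T : ℕ, T0 ≤ T → ∃ f : ℤ[X], f ≠ 0 ∧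
    (f.natDegree : ℝ) + Real.log (mah f) ≤ 4 * T ∧
    ‖aeval θ f‖ ≤ Real.exp (-((T : ℝ) ^ 2 / 3)) := by
  obtain ⟨B, hBd⟩ : ∃ B : ℝ, B = max 1 ‖θ‖ := ⟨_, rfl⟩
  have hB1 : 1 ≤ B := by rw [hBd]; exact le_max_left _ _
  have hBt : ‖θ‖ ≤ B := by rw [hBd]; exact le_max_right _ _
  have hB0 : ‖(0 : ℂ)‖ ≤ B := by rw [norm_zero]; linarith
  have hb : 0 ≤ Real.log B := Real.log_nonneg hB1
  refine ⟨⌈60 + 12 * Real.log B⌉₊ + 1, fun T hT => ?_⟩
  have hT1 : 1 ≤ T := by omega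
  have hTr : 60 + 12 * Real.log B ≤ T := by
    refine (Nat.le_ceil _).trans ?_
    exact_mod_cast (Nat.le_succ _).trans hT
  have hT1r : (1 : ℝ) ≤ T := by exact_mod_cast hT1
  have hT0r : (0 : ℝ) < T := by linarith
  obtain ⟨P, hP0, hPd, hPX, hPc, hPv⟩ := pigeon θ 0 B hB1 hBt hB0 T 1 (3 ^ T) hT1 Nat.one_pos
    (by positivity)
  have hPC : P = C (P.coeff 0) := eq_C_of_natDegree_eq_zero (by omega)
  have hf0 : P.coeff 0 ≠ 0 := by
    intro h
    apply hP0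
    rw [hPC, h, C_0]
  have hlog3 : Real.log 3 ≤ 2 := by
    have := Real.log_le_sub_one_of_pos (show (0 : ℝ) < 3 by norm_num)
    linarith
  have hlog31 : 1 ≤ Real.log 3 := by
    rw [Real.le_log_iff_exp_le (by norm_num)]
    exact Real.exp_one_lt_d9.le.trans (by norm_num)
  have hlogT : Real.log T ≤ T := (Real.log_le_sub_one_of_pos hT0r).trans (by linarith)
  refine ⟨P.coeff 0, hf0, ?_, ?_⟩
  · have h1 : nr (P.coeff 0) ≤ T * ((3 ^ T : ℕ) : ℝ) := by
      rw [Nb_nr (hPX 0)]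
      refine (Finset.sum_le_card_nsmul _ _ _ fun i _ => hPc 0 i).trans ?_
      rw [Finset.card_range, nsmul_eq_mul]
    have h2 : 1 ≤ mah (P.coeff 0) := one_le_mah hf0
    have h3 : Real.log (mah (P.coeff 0)) ≤ Real.log T + T * Real.log 3 := by
      have h4 := Real.log_le_log (by linarith) ((mah_le_nr _).trans h1)
      rwa [Real.log_mul (by positivity) (by positivity), Nat.cast_pow, Real.log_pow,
        Nat.cast_ofNat] at h4
    have h4 : ((P.coeff 0).natDegree : ℝ) ≤ T := by exact_mod_cast (hPX 0).le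
    nlinarith
  · have hv : evH θ 0 P = aeval θ (P.coeff 0) := by
      conv_lhs => rw [hPC]
      exact Pk_evH_C _ _ _
    rw [hv] at hPv
    refine hPv.trans ?_
    have e0 : (T * 1 : ℕ) = T := mul_one T
    have e1 : ((3 ^ T : ℕ) : ℝ) ^ (-((T * 1 : ℕ) : ℝ) / 2) = Real.exp (-((T : ℝ) ^ 2 * Real.log 3 / 2)) := by
      rw [e0, Real.rpow_def_of_pos (by positivity), Nat.cast_pow, Real.log_pow, Nat.cast_ofNat]
      congr 1
      ring
    have e2 : B ^ (T + 1) = Real.exp ((T + 1) * Real.log B) := by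
      rw [← Real.rpow_natCast, Real.rpow_def_of_pos (by linarith)]
      congr 1
      push_cast
      ring
    have e3 : (8 : ℝ) * (T * (1 : ℕ) * (3 ^ T : ℕ)) ≤ Real.exp (8 + T + 2 * T) := by
      have h8 : (8 : ℝ) ≤ Real.exp 8 := by
        have := Real.add_one_le_exp (8 : ℝ)
        linarith
      have hTe : (T : ℝ) ≤ Real.exp T := by
        have := Real.add_one_le_exp (T : ℝ)
        linarith
      have h3e : ((3 ^ T : ℕ) : ℝ) ≤ Real.exp (2 * T) := by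
        have h5 : (3 : ℝ) ≤ Real.exp 2 := by
          have := Real.add_one_le_exp (2 : ℝ)
          linarith
        calc ((3 ^ T : ℕ) : ℝ) = 3 ^ T := by push_cast; rfl
          _ ≤ Real.exp 2 ^ T := pow_le_pow_left₀ (by norm_num) h5 T
          _ = Real.exp (2 * T) := by rw [← Real.exp_nat_mul]; congr 1; ring
      rw [Real.exp_add, Real.exp_add, Nat.cast_one, mul_one, mul_assoc (Real.exp 8)]
      gcongr
    rw [e1, e2]
    calc _ ≤ Real.exp (8 + T + 2 * T) * Real.exp ((T + 1) * Real.log B) *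
          Real.exp (-((T : ℝ) ^ 2 * Real.log 3 / 2)) := by gcongr
      _ = Real.exp (8 + T + 2 * T + (T + 1) * Real.log B + -((T : ℝ) ^ 2 * Real.log 3 / 2)) := by
        rw [Real.exp_add (8 + T + 2 * T + (T + 1) * Real.log B), Real.exp_add (8 + T + 2 * T)]
      _ ≤ _ := by
        apply Real.exp_le_exp.2
        have h1 : (T : ℝ) ^ 2 ≤ (T : ℝ) ^ 2 * Real.log 3 := le_mul_of_one_le_right (by positivity) hlog31
        have h2 : (60 + 12 * Real.log B) * T ≤ (T : ℝ) ^ 2 := by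
          rw [pow_two]
          exact mul_le_mul_of_nonneg_right hTr hT0r.le
        have h3 : Real.log B ≤ T * Real.log B := le_mul_of_one_le_left hb hT1r
        nlinarith

theorem line_local (θ : ℂ) (hθ : Transcendental ℚ θ) (r : ℤ[X]) (hr : Irreducible r)
    (hn : 0 < r.natDegree) :
    ∃ W : ℝ, ApprAt ![θ] (r.natDegree + Real.log (mah r)) W ∧ -Real.log ‖aeval θ r‖ ≤ W := by
  classical
  have hr0 : r ≠ 0 := hr.ne_zero
  have hprim := hr.isPrimitive hn.ne'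
  have hrQ : Irreducible (r.map (Int.castRingHom ℚ)) :=
    (IsPrimitive.Int.irreducible_iff_irreducible_map_cast hprim).1 hr
  obtain ⟨E, iF, iN, iA, ρ, hρ, -, hfin, -⟩ := adjoin_root_nf ℚ _ hrQ
  have hndQ : (r.map (Int.castRingHom ℚ)).natDegree = r.natDegree :=
    natDegree_map_eq_of_injective (RingHom.injective_int _) r
  rw [hndQ, Module.finrank_self, mul_one] at hfin
  have hy : aeval ρ r = 0 := by
    rw [aeval_def, eval₂_map] at hρ
    rw [aeval_def, ← hρ]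
    congr 1
    exact RingHom.ext_int _ _
  have hroots := Hc_roots (Ω := ℂ) r hr ρ hy hfin.symm
  have hhE : hE ρ ≤ Real.log (mah r) := hE_root r hr ρ hy hfin.symm
  have hmah : 1 ≤ mah r := one_le_mah hr0
  have hlog0 : 0 ≤ Real.log (mah r) := Real.log_nonneg hmah
  have hpos : ∀ φ : E →+* ℂ, 0 < ‖θ - φ ρ‖ := by
    intro φ
    rw [norm_pos_iff, sub_ne_zero]
    intro h
    apply hθ
    rw [h]
    have h1 : IsAlgebraic ℤ (φ ρ) := by
      refine ⟨r, hr0, ?_⟩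
      have h2 : φ (aeval ρ r) = 0 := by rw [hy, map_zero]
      rw [aeval_def, hom_eval₂] at h2
      rw [aeval_def, ← h2]
      congr 1
      exact RingHom.ext_int _ _
    exact (IsFractionRing.isAlgebraic_iff ℤ ℚ ℂ).1 h1
  set S : Finset (E →+* ℂ) := Finset.univ.filter fun φ => ‖θ - φ ρ‖ ≤ 1 with hS
  refine ⟨∑ φ ∈ S, (-Real.log ‖θ - φ ρ‖), ?_, ?_⟩
  · refine ⟨E, iF, iN, ![ρ], S, fun φ => -Real.log ‖θ - φ ρ‖, ?_, ?_, ?_, le_refl _⟩
    · rw [hfin]
      linarith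
    · intro i
      fin_cases i
      show hE ρ ≤ _
      have : (0 : ℝ) ≤ r.natDegree := Nat.cast_nonneg _
      linarith
    · intro φ hφ
      have hφ1 : ‖θ - φ ρ‖ ≤ 1 := (Finset.mem_filter.1 hφ).2
      have hφ0 := hpos φ
      refine ⟨?_, ?_⟩
      · have := Real.log_nonpos hφ0.le hφ1
        show 0 ≤ -Real.log ‖θ - φ ρ‖
        linarith
      · intro i
        fin_cases i
        show ‖φ ρ - θ‖ ≤ Real.exp (-(-Real.log ‖θ - φ ρ‖))
        rw [neg_neg, Real.exp_log hφ0, norm_sub_rev]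
  · have hprod : aeval θ r = (r.leadingCoeff : ℂ) * ∏ φ : E →+* ℂ, (θ - φ ρ) := by
      have h1 := (IsAlgClosed.splits (r.map (Int.castRingHom ℂ))).eval_eq_prod_roots θ
      rw [hroots] at h1
      have h2 : (r.map (Int.castRingHom ℂ)).leadingCoeff = (r.leadingCoeff : ℂ) := by
        rw [leadingCoeff_map_of_injective (RingHom.injective_int _)]
        rfl
      rw [h2, Multiset.map_map, eval_map] at h1
      rw [aeval_def]
      exact h1
    have hlc : (1 : ℝ) ≤ ‖(r.leadingCoeff : ℂ)‖ := by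
      have h1 : r.leadingCoeff ≠ 0 := leadingCoeff_ne_zero.2 hr0
      have h2 : (1 : ℤ) ≤ |r.leadingCoeff| := Int.one_le_abs h1
      rw [Complex.norm_intCast]
      exact_mod_cast h2
    rw [hprod, norm_mul, norm_prod, Real.log_mul (by positivity) (Finset.prod_ne_zero_iff.2 fun φ _ => (hpos φ).ne'),
      Real.log_prod fun φ _ => (hpos φ).ne']
    have h1 : 0 ≤ Real.log ‖(r.leadingCoeff : ℂ)‖ := Real.log_nonneg hlc
    have h6 : ∑ φ : E →+* ℂ, (-Real.log ‖θ - φ ρ‖) ≤ ∑ φ ∈ S, (-Real.log ‖θ - φ ρ‖) := by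
      rw [← Finset.sum_filter_add_sum_filter_not Finset.univ (fun φ => ‖θ - φ ρ‖ ≤ 1)]
      have h7 : ∑ φ ∈ Finset.univ.filter (fun φ : E →+* ℂ => ¬ ‖θ - φ ρ‖ ≤ 1), (-Real.log ‖θ - φ ρ‖) ≤ 0 := by
        apply Finset.sum_nonpos
        intro φ hφ
        have h8 := (Finset.mem_filter.1 hφ).2
        have h9 := Real.log_nonneg (not_le.1 h8).le
        linarith
      linarith
    rw [Finset.sum_neg_distrib] at h6
    linarith

theorem line (θ : ℂ) (hθ : Transcendental ℚ θ) (κ : ℝ) (hκ : κ < 2) : Appr ![θ] κ := by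
  have hae : ∀ f : ℤ[X], f ≠ 0 → aeval θ f ≠ 0 := by
    intro f hf h
    exact hθ ((IsFractionRing.isAlgebraic_iff ℤ ℚ ℂ).1 ⟨f, hf, h⟩)
  obtain ⟨T0, hT0⟩ := line_poly θ
  obtain ⟨κ', hκ'⟩ : ∃ κ' : ℝ, κ' = max κ 1 := ⟨_, rfl⟩
  have hκκ : κ ≤ κ' := by rw [hκ']; exact le_max_left _ _
  have h1κ : 1 ≤ κ' := by rw [hκ']; exact le_max_right _ _
  have hκ2 : κ' < 2 := by rw [hκ']; exact max_lt hκ (by norm_num)
  intro U0
  obtain ⟨U1, hU1⟩ := xd_pow (12 * (4 : ℝ) ^ (κ' - 1)) (κ' - 1) (by positivity) (by linarith)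
  obtain ⟨T, hTT⟩ : ∃ T : ℕ, T = max (max T0 ⌈U1⌉₊) (max ⌈12 * U0⌉₊ 1) := ⟨_, rfl⟩
  have hTT0 : T0 ≤ T := by rw [hTT]; exact (le_max_left _ _).trans (le_max_left _ _)
  have hTU1 : U1 ≤ T := by
    refine (Nat.le_ceil _).trans ?_
    rw [hTT]
    exact_mod_cast (le_max_right _ _).trans (le_max_left _ _)
  have hTU0 : 12 * U0 ≤ T := by
    refine (Nat.le_ceil _).trans ?_
    rw [hTT]
    exact_mod_cast (le_max_left _ _).trans (le_max_right _ _)
  have hT1 : 1 ≤ T := by rw [hTT]; exact (le_max_right _ _).trans (le_max_right _ _)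
  have hT1r : (1 : ℝ) ≤ T := by exact_mod_cast hT1
  have hT0r : (0 : ℝ) < T := by linarith
  obtain ⟨f, hf0, hfs, hfv⟩ := hT0 T hTT0
  obtain ⟨r, hr, hn, -, hsz, hV⟩ := good_factor f hf0 θ ((T : ℝ) ^ 2 / 3) (by positivity) (hae f hf0) hfv
  obtain ⟨W, hA, hW⟩ := line_local θ hθ r hr hn
  obtain ⟨s, hs⟩ : ∃ s : ℝ, s = r.natDegree + Real.log (mah r) := ⟨_, rfl⟩
  rw [← hs] at hA hsz hV
  have hmah : 1 ≤ mah r := one_le_mah hr.ne_zero
  have hlog0 : 0 ≤ Real.log (mah r) := Real.log_nonneg hmah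
  have hn1 : (1 : ℝ) ≤ r.natDegree := by exact_mod_cast hn
  have hs1 : 1 ≤ s := by linarith
  have hs4 : s ≤ 4 * T := hsz.trans hfs
  have hW0 : T * s ≤ 12 * W := by
    have h0 : 0 < (T : ℝ) ^ 2 / 3 * s := by positivity
    have h2 : 0 < -Real.log ‖aeval θ r‖ := by
      by_contra hcon
      have h3 : -Real.log ‖aeval θ r‖ ≤ 0 := not_lt.1 hcon
      have h4 : 0 ≤ (f.natDegree : ℝ) + Real.log (mah f) := by linarith
      have h5 := mul_nonpos_of_nonneg_of_nonpos h4 h3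
      linarith
    have h3 : (T : ℝ) ^ 2 / 3 * s ≤ 4 * T * (-Real.log ‖aeval θ r‖) :=
      hV.trans (mul_le_mul_of_nonneg_right hfs h2.le)
    have h4 : (T : ℝ) ^ 2 / 3 * s ≤ 4 * T * W :=
      h3.trans (mul_le_mul_of_nonneg_left hW (by positivity))
    have h5 : (T : ℝ) * (T * s) ≤ T * (12 * W) := by nlinarith
    exact le_of_mul_le_mul_left h5 hT0r
  refine ⟨s, W, hs1, ?_, ?_, hA⟩
  · have h1 : (T : ℝ) ≤ T * s := le_mul_of_one_le_right hT0r.le hs1
    linarith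
  · have h1 : s ^ κ ≤ s ^ κ' := Real.rpow_le_rpow_of_exponent_le hs1 hκκ
    refine h1.trans ?_
    have h2 : s ^ κ' = s * s ^ (κ' - 1) := by
      rw [← Real.rpow_one_add' (by linarith) (by linarith)]
      congr 1
      ring
    have h3 : s ^ (κ' - 1) ≤ (4 : ℝ) ^ (κ' - 1) * (T : ℝ) ^ (κ' - 1) := by
      rw [← Real.mul_rpow (by norm_num) hT0r.le]
      exact Real.rpow_le_rpow (by linarith) hs4 (by linarith)
    have h4 := hU1 T hTU1
    have h5 : 12 * (s * s ^ (κ' - 1)) ≤ s * T := by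
      calc 12 * (s * s ^ (κ' - 1)) ≤ 12 * (s * ((4 : ℝ) ^ (κ' - 1) * (T : ℝ) ^ (κ' - 1))) := by gcongr
        _ = s * (12 * (4 : ℝ) ^ (κ' - 1) * (T : ℝ) ^ (κ' - 1)) := by ring
        _ ≤ s * T := mul_le_mul_of_nonneg_left h4 (by linarith)
    rw [h2]
    linarith

end AZ

end S_H32_AZ_L

section S_H32_CZ_Pb

set_option autoImplicit false

namespace CZ

open Polynomial

/-- A polynomial is at some point of the unit circle at least its Mahler measure. -/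
theorem pb_exists_circle (B : ℂ[X]) (hB : B ≠ 0) :
    ∃ ξ : ℂ, ‖ξ‖ = 1 ∧ B.mahlerMeasure ≤ ‖B.eval ξ‖ := by
  obtain ⟨ξ, hξ, hmax⟩ := (isCompact_sphere (0 : ℂ) 1).exists_isMaxOn
    ⟨1, by simp⟩ (f := fun z ↦ ‖B.eval z‖) (by fun_prop)
  refine ⟨ξ, by simpa using hξ, ?_⟩
  by_contra hcon
  push Not at hcon
  set M := B.mahlerMeasure with hM
  have hMpos : 0 < M := mahlerMeasure_pos_of_ne_zero hB
  set t : ℝ := (‖B.eval ξ‖ + M) / 2 with ht
  have htpos : 0 < t := by have := norm_nonneg (B.eval ξ); rw [ht]; linarith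
  have h1 : ‖B.eval ξ‖ < t := by rw [ht]; linarith
  have h2 : t < M := by rw [ht]; linarith
  have htc : ((t⁻¹ : ℝ) : ℂ) ≠ 0 := by
    exact_mod_cast inv_ne_zero htpos.ne'
  have hle : (C ((t⁻¹ : ℝ) : ℂ) * B).logMahlerMeasure ≤ 0 := by
    rw [logMahlerMeasure_def]
    refine Real.circleAverage_mono_on_of_le_circle ?_ ?_
    · have := (C ((t⁻¹ : ℝ) : ℂ) * B).intervalIntegrable_mahlerMeasure
      exact this
    · intro z hz
      have hz1 : z ∈ Metric.sphere (0 : ℂ) 1 := by simpa using hz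
      have h3 : ‖B.eval z‖ ≤ ‖B.eval ξ‖ := hmax hz1
      have h4 : ‖(C ((t⁻¹ : ℝ) : ℂ) * B).eval z‖ ≤ 1 := by
        rw [eval_mul, eval_C, norm_mul, Complex.norm_real, Real.norm_eq_abs,
          abs_of_pos (inv_pos.2 htpos), inv_mul_le_iff₀ htpos]
        linarith
      exact Real.log_nonpos (norm_nonneg _) h4
  have h5 : (C ((t⁻¹ : ℝ) : ℂ) * B).mahlerMeasure ≤ 1 := by
    rw [mahlerMeasure_def_of_ne_zero (mul_ne_zero (by simpa using htc) hB)]
    exact Real.exp_le_one_iff.2 hle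
  rw [mahlerMeasure_mul, mahlerMeasure_const, Complex.norm_real, Real.norm_eq_abs,
    abs_of_pos (inv_pos.2 htpos), inv_mul_le_iff₀ htpos] at h5
  linarith

theorem pb_coeff_le (Q : ℂ[X]) (i n : ℕ) (hn : Q.natDegree ≤ n) :
    ‖Q.coeff i‖ ≤ 2 ^ n * Q.mahlerMeasure := by
  refine (norm_coeff_le_choose_mul_mahlerMeasure i Q).trans ?_
  refine mul_le_mul_of_nonneg_right ?_ (mahlerMeasure_nonneg Q)
  calc ((Q.natDegree.choose i : ℕ) : ℝ) ≤ ((2 ^ Q.natDegree : ℕ) : ℝ) := by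
        exact_mod_cast Nat.choose_le_two_pow _ _
    _ ≤ 2 ^ n := by
        push_cast
        exact pow_le_pow_right₀ (by norm_num) hn

theorem pb_log_prod {α : Type*} (s : Multiset α) (f : α → ℝ) (hf : ∀ a ∈ s, f a ≠ 0) :
    Real.log (s.map f).prod = (s.map fun a ↦ Real.log (f a)).sum := by
  induction s using Multiset.induction_on with
  | empty => simp
  | cons a s ih =>
    have h1 : f a ≠ 0 := hf a (Multiset.mem_cons_self _ _)
    have h2 : ∀ b ∈ s, f b ≠ 0 := fun b hb ↦ hf b (Multiset.mem_cons_of_mem hb)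
    have h3 : (s.map f).prod ≠ 0 := by
      refine Multiset.prod_ne_zero (fun h0 ↦ ?_)
      obtain ⟨b, hb, h4⟩ := Multiset.mem_map.1 h0
      exact h2 b hb h4
    rw [Multiset.map_cons, Multiset.prod_cons, Real.log_mul h1 h3, ih h2, Multiset.map_cons,
      Multiset.sum_cons]

/-- The coefficient of largest absolute value. -/
theorem pb_exists_max (A : ℤ[X][X]) (hA : A ≠ 0) :
    ∃ k i : ℕ, (A.coeff k).coeff i ≠ 0 ∧
      ∀ j l, |((A.coeff j).coeff l : ℝ)| ≤ |((A.coeff k).coeff i : ℝ)| := by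
  obtain ⟨p, hp, hmax⟩ := (Finset.range (A.natDegree + 1) ×ˢ Finset.range (dX A + 1)).exists_max_image
    (fun p ↦ |((A.coeff p.1).coeff p.2 : ℝ)|) ⟨(0, 0), by simp⟩
  have hall : ∀ j l, |((A.coeff j).coeff l : ℝ)| ≤ |((A.coeff p.1).coeff p.2 : ℝ)| := by
    intro j l
    by_cases hj : j < A.natDegree + 1
    · by_cases hl : l < dX A + 1
      · exact hmax (j, l) (by simp; omega)
      · have : (A.coeff j).coeff l = 0 := by
          refine coeff_eq_zero_of_natDegree_lt ?_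
          have := coeff_le_dX A j
          omega
        rw [this]; simp
    · have : A.coeff j = 0 := coeff_eq_zero_of_natDegree_lt (by omega)
      rw [this]; simp
  refine ⟨p.1, p.2, ?_, hall⟩
  intro h0
  apply hA
  ext j l
  have := hall j l
  rw [h0] at this
  simp at this
  simp [this]

theorem pb_ring (ξ : ℂ) (f : ℤ[X]) :
    eval₂RingHom (Int.castRingHom ℂ) ξ f = (f.map (Int.castRingHom ℂ)).eval ξ := by
  simp [eval_map]

theorem gelfond2 (s : Multiset ℤ[X][X]) (hs : ∀ A ∈ s, A ≠ 0) (m a : ℕ)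
    (ha : s.prod.natDegree ≤ a) (hm : dX s.prod ≤ m) :
    (s.map fun A ↦ Real.log (nr2 A)).sum ≤ Real.log (nr2 s.prod) + 2 * (m + a) * Real.log 2 := by
  classical
  have hmx : ∀ A : ℤ[X][X], ∃ p : ℕ × ℕ, A ≠ 0 → ((A.coeff p.1).coeff p.2 ≠ 0 ∧
      ∀ j l, |((A.coeff j).coeff l : ℝ)| ≤ |((A.coeff p.1).coeff p.2 : ℝ)|) := by
    intro A
    by_cases hA : A = 0
    · exact ⟨(0, 0), fun h ↦ absurd hA h⟩
    · obtain ⟨k, i, h1, h2⟩ := pb_exists_max A hA
      exact ⟨(k, i), fun _ ↦ ⟨h1, h2⟩⟩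
  choose p hp using hmx
  have hP0 : s.prod ≠ 0 := by
    refine Multiset.prod_ne_zero (fun h0 ↦ ?_)
    exact hs 0 h0 rfl
  set Q : ℤ[X][X] → ℂ[X] := fun A ↦ (A.coeff (p A).1).map (Int.castRingHom ℂ) with hQ
  have hQc : ∀ A i, (Q A).coeff i = (((A.coeff (p A).1).coeff i : ℤ) : ℂ) := by
    intro A i; simp [hQ]
  have hQ0 : ∀ A ∈ s, Q A ≠ 0 := by
    intro A hA h0
    have h1 := hQc A (p A).2
    rw [h0, coeff_zero] at h1
    exact (hp A (hs A hA)).1 (by exact_mod_cast h1.symm)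
  have hB0 : (s.map Q).prod ≠ 0 := by
    refine Multiset.prod_ne_zero (fun h0 ↦ ?_)
    obtain ⟨A, hA, h1⟩ := Multiset.mem_map.1 h0
    exact hQ0 A hA h1
  obtain ⟨ξ, hξ, hMB⟩ := pb_exists_circle _ hB0
  have hBev : (s.map Q).prod.eval ξ = (s.map fun A ↦ (Q A).eval ξ).prod := by
    rw [eval_multiset_prod, Multiset.map_map]; rfl
  have hBne : (s.map Q).prod.eval ξ ≠ 0 := by
    intro h0
    rw [h0, norm_zero] at hMB
    exact absurd hMB (not_le.2 (mahlerMeasure_pos_of_ne_zero hB0))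
  have hQev : ∀ A ∈ s, (Q A).eval ξ ≠ 0 := by
    intro A hA h0
    apply hBne
    rw [hBev]
    exact Multiset.prod_eq_zero (Multiset.mem_map.2 ⟨A, hA, h0⟩)
  set R : ℤ[X][X] → ℂ[X] := fun A ↦ A.map (eval₂RingHom (Int.castRingHom ℂ) ξ) with hR
  have hRc : ∀ A, (R A).coeff (p A).1 = (Q A).eval ξ := by
    intro A
    simp only [hR, hQ, coeff_map]
    exact pb_ring ξ _
  have hR0 : ∀ A ∈ s, R A ≠ 0 := by
    intro A hA h0
    have := hRc A
    rw [h0, coeff_zero] at this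
    exact hQev A hA this.symm
  -- step (i)
  have hi : ∀ A ∈ s, Real.log (nr2 A) ≤
      ((dX A + A.natDegree + dX A : ℕ) : ℝ) * Real.log 2 + Real.log (Q A).mahlerMeasure := by
    intro A hA
    obtain ⟨h1, h2⟩ := hp A (hs A hA)
    have hMQ := mahlerMeasure_pos_of_ne_zero (hQ0 A hA)
    have h3 : nr2 A ≤ ((dX A + 1 : ℕ) : ℝ) * ((A.natDegree + 1 : ℕ) : ℝ) *
        |((A.coeff (p A).1).coeff (p A).2 : ℝ)| := by
      refine nr2_le_of_coeff (Nat.lt_succ_self _) (fun j ↦ ?_) h2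
      have := coeff_le_dX A j
      omega
    have h4 : |((A.coeff (p A).1).coeff (p A).2 : ℝ)| ≤ 2 ^ (dX A) * (Q A).mahlerMeasure := by
      have h5 := pb_coeff_le (Q A) (p A).2 (dX A) ((natDegree_map_le).trans (coeff_le_dX A _))
      rw [hQc] at h5
      rwa [Complex.norm_intCast] at h5
    have h6 : ((dX A + 1 : ℕ) : ℝ) ≤ 2 ^ (dX A) := by
      exact_mod_cast Nat.lt_two_pow_self
    have h7 : ((A.natDegree + 1 : ℕ) : ℝ) ≤ 2 ^ A.natDegree := by
      exact_mod_cast Nat.lt_two_pow_self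
    have h8 : nr2 A ≤ 2 ^ (dX A + A.natDegree + dX A) * (Q A).mahlerMeasure := by
      calc nr2 A ≤ _ := h3
        _ ≤ (2 ^ (dX A) * 2 ^ A.natDegree) * (2 ^ (dX A) * (Q A).mahlerMeasure) := by
            gcongr
        _ = _ := by rw [pow_add, pow_add]; ring
    have h9 : 0 < nr2 A := lt_of_lt_of_le one_pos (one_le_nr2 (hs A hA))
    calc Real.log (nr2 A) ≤ Real.log (2 ^ (dX A + A.natDegree + dX A) * (Q A).mahlerMeasure) :=
          Real.log_le_log h9 h8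
      _ = _ := by rw [Real.log_mul (by positivity) hMQ.ne', Real.log_pow]
  -- step (ii)
  have hii : (s.map fun A ↦ Real.log (Q A).mahlerMeasure).sum ≤
      (s.map fun A ↦ Real.log ‖(Q A).eval ξ‖).sum := by
    have h1 : (s.map fun A ↦ Real.log (Q A).mahlerMeasure).sum =
        Real.log (s.map Q).prod.mahlerMeasure := by
      rw [prod_mahlerMeasure_eq_mahlerMeasure_prod, Multiset.map_map, pb_log_prod]
      · rfl
      · intro A hA
        exact (mahlerMeasure_pos_of_ne_zero (hQ0 A hA)).ne'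
    have h2 : (s.map fun A ↦ Real.log ‖(Q A).eval ξ‖).sum =
        Real.log ‖(s.map Q).prod.eval ξ‖ := by
      rw [hBev]
      have h3 : ‖(s.map fun A ↦ (Q A).eval ξ).prod‖ = (s.map fun A ↦ ‖(Q A).eval ξ‖).prod := by
        have := map_multiset_prod (normHom : ℂ →*₀ ℝ) (s.map fun A ↦ (Q A).eval ξ)
        rw [Multiset.map_map] at this
        exact this
      rw [h3, pb_log_prod]
      intro A hA
      exact norm_ne_zero_iff.2 (hQev A hA)
    rw [h1, h2]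
    exact Real.log_le_log (mahlerMeasure_pos_of_ne_zero hB0) hMB
  -- step (iii)
  have hiii : ∀ A ∈ s, Real.log ‖(Q A).eval ξ‖ ≤
      (A.natDegree : ℝ) * Real.log 2 + Real.log (R A).mahlerMeasure := by
    intro A hA
    have hMR := mahlerMeasure_pos_of_ne_zero (hR0 A hA)
    have h1 := pb_coeff_le (R A) (p A).1 A.natDegree natDegree_map_le
    rw [hRc] at h1
    calc Real.log ‖(Q A).eval ξ‖ ≤ Real.log (2 ^ A.natDegree * (R A).mahlerMeasure) :=
          Real.log_le_log (norm_pos_iff.2 (hQev A hA)) h1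
      _ = _ := by rw [Real.log_mul (by positivity) hMR.ne', Real.log_pow]
  -- step (iv)
  have hRP : R s.prod = (s.map R).prod := by
    have := map_multiset_prod (mapRingHom (eval₂RingHom (Int.castRingHom ℂ) ξ)) s
    exact this
  have hRP0 : R s.prod ≠ 0 := by
    rw [hRP]
    refine Multiset.prod_ne_zero (fun h0 ↦ ?_)
    obtain ⟨A, hA, h1⟩ := Multiset.mem_map.1 h0
    exact hR0 A hA h1
  have hiv : (s.map fun A ↦ Real.log (R A).mahlerMeasure).sum ≤ Real.log (nr2 s.prod) := by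
    have h1 : (s.map fun A ↦ Real.log (R A).mahlerMeasure).sum =
        Real.log (R s.prod).mahlerMeasure := by
      rw [hRP, prod_mahlerMeasure_eq_mahlerMeasure_prod, Multiset.map_map, pb_log_prod]
      · rfl
      · intro A hA
        exact (mahlerMeasure_pos_of_ne_zero (hR0 A hA)).ne'
    rw [h1]
    refine Real.log_le_log (mahlerMeasure_pos_of_ne_zero hRP0) ?_
    refine (mahlerMeasure_le_sum_norm_coeff _).trans ?_
    rw [Polynomial.sum_def]
    refine le_trans (Finset.sum_le_sum (g := fun j ↦ nr (s.prod.coeff j)) ?_)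
      (sum_nr_coeff_le_nr2 s.prod _)
    intro j _
    have h2 : (R s.prod).coeff j = aeval ξ (s.prod.coeff j) := by
      simp only [hR, coeff_map]
      rw [pb_ring, eval_map, aeval_def]
      rfl
    rw [h2]
    have := norm_aeval_le (s.prod.coeff j) ξ 1 le_rfl hξ.le
    simpa using this
  -- step (v)
  have hv1 : ((s.map fun A ↦ ((dX A : ℕ) : ℝ)).sum) ≤ m := by
    have h1 := dX_multiset_prod s hs
    have h2 : (s.map fun A ↦ ((dX A : ℕ) : ℝ)).sum = (((s.map dX).sum : ℕ) : ℝ) := by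
      rw [Nat.cast_multiset_sum, Multiset.map_map]; rfl
    rw [h2, ← h1]
    exact_mod_cast hm
  have hv2 : ((s.map fun A ↦ ((A.natDegree : ℕ) : ℝ)).sum) ≤ a := by
    have h1 := natDegree_multiset_prod s (fun h0 ↦ hs 0 h0 rfl)
    have h2 : (s.map fun A ↦ ((A.natDegree : ℕ) : ℝ)).sum =
        (((s.map natDegree).sum : ℕ) : ℝ) := by
      rw [Nat.cast_multiset_sum, Multiset.map_map]; rfl
    rw [h2, ← h1]
    exact_mod_cast ha
  have hlog2 : 0 ≤ Real.log 2 := Real.log_nonneg (by norm_num)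
  have e1 : (s.map fun A ↦ Real.log (nr2 A)).sum ≤
      (s.map fun A ↦ (((dX A : ℕ) : ℝ) * (2 * Real.log 2) + (((A.natDegree : ℕ) : ℝ) * Real.log 2 +
        Real.log (Q A).mahlerMeasure))).sum := by
    refine Multiset.sum_map_le_sum_map _ _ (fun A hA ↦ ?_)
    have := hi A hA
    push_cast at this
    linarith
  have e2 : (s.map fun A ↦ Real.log ‖(Q A).eval ξ‖).sum ≤
      (s.map fun A ↦ ((A.natDegree : ℝ) * Real.log 2 + Real.log (R A).mahlerMeasure)).sum :=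
    Multiset.sum_map_le_sum_map _ _ hiii
  simp only [Multiset.sum_map_add, Multiset.sum_map_mul_right] at e1 e2
  nlinarith [mul_le_mul_of_nonneg_right hv1 hlog2, mul_le_mul_of_nonneg_right hv2 hlog2]

end CZ

end S_H32_CZ_Pb

section S_H32_CZ_Pc

set_option autoImplicit false

namespace CZ

open Polynomial

theorem Pc_prod_ne {s : Multiset ℤ[X][X]} (hs : ∀ A ∈ s, A ≠ 0) : s.prod ≠ 0 :=
  Multiset.prod_ne_zero fun h => hs 0 h rfl

theorem Pc_mu (s : Multiset ℤ[X][X]) (hs : ∀ A ∈ s, A ≠ 0) :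
    (s.map mu2).sum = s.prod.natDegree + dX s.prod + (s.map fun A ↦ Real.log (nr2 A)).sum := by
  induction s using Multiset.induction with
  | empty =>
    have h : dX (1 : ℤ[X][X]) = 0 := by
      refine Nat.le_zero.1 (dX_le_iff.2 fun j => ?_)
      rw [coeff_one]
      split_ifs <;> simp
    simp [h]
  | cons A s ih =>
    have hA : A ≠ 0 := hs A (Multiset.mem_cons_self A s)
    have hs' : ∀ B ∈ s, B ≠ 0 := fun B hB => hs B (Multiset.mem_cons_of_mem hB)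
    rw [Multiset.map_cons, Multiset.sum_cons, ih hs', Multiset.map_cons, Multiset.sum_cons,
      Multiset.prod_cons, natDegree_mul hA (Pc_prod_ne hs'), dX_mul hA (Pc_prod_ne hs')]
    unfold mu2
    push_cast
    ring

theorem Pc_val (θ1 θ2 : ℂ) (c : ℝ) (s : Multiset ℤ[X][X]) (hne : ∀ A ∈ s, evH θ1 θ2 A ≠ 0)
    (h : ∀ A ∈ s, -Real.log ‖evH θ1 θ2 A‖ ≤ c * mu2 A) :
    evH θ1 θ2 s.prod ≠ 0 ∧ -Real.log ‖evH θ1 θ2 s.prod‖ ≤ c * (s.map mu2).sum := by
  induction s using Multiset.induction with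
  | empty => simp
  | cons A s ih =>
    obtain ⟨i1, i2⟩ := ih (fun B hB => hne B (Multiset.mem_cons_of_mem hB))
      (fun B hB => h B (Multiset.mem_cons_of_mem hB))
    have hA := hne A (Multiset.mem_cons_self A s)
    have hA' := h A (Multiset.mem_cons_self A s)
    rw [Multiset.prod_cons, map_mul]
    refine ⟨mul_ne_zero hA i1, ?_⟩
    rw [norm_mul, Real.log_mul (norm_ne_zero_iff.2 hA) (norm_ne_zero_iff.2 i1), Multiset.map_cons,
      Multiset.sum_cons]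
    linarith

/-- units are `± 1` -/
theorem Pc_unit {u : ℤ[X][X]} (hu : IsUnit u) : u = 1 ∨ u = -1 := by
  obtain ⟨r, hr, rfl⟩ := Polynomial.isUnit_iff.1 hu
  obtain ⟨n, hn, rfl⟩ := Polynomial.isUnit_iff.1 hr
  rcases Int.isUnit_iff.1 hn with rfl | rfl
  · left
    simp
  · right
    simp

theorem Pc_const {A : ℤ[X][X]} (hA : A ≠ 0) (h : A.natDegree + dX A = 0) (θ1 θ2 : ℂ) :
    1 ≤ ‖evH θ1 θ2 A‖ := by
  have h1 : A.natDegree = 0 := by omega
  have h2 : dX A ≤ 0 := by omega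
  have h3 : A = C (A.coeff 0) := eq_C_of_natDegree_eq_zero h1
  have h4 : (A.coeff 0).natDegree = 0 := Nat.le_zero.1 (dX_le_iff.1 h2 0)
  have h5 : A.coeff 0 = C ((A.coeff 0).coeff 0) := eq_C_of_natDegree_eq_zero h4
  obtain ⟨n, hn⟩ : ∃ n : ℤ, n = (A.coeff 0).coeff 0 := ⟨_, rfl⟩
  rw [← hn] at h5
  rw [h5] at h3
  have hn0 : n ≠ 0 := by
    rintro rfl
    apply hA
    rw [h3]
    simp
  have h6 : evH θ1 θ2 A = (n : ℂ) := by
    rw [h3]
    simp [evH]
  rw [h6, Complex.norm_intCast]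
  have : (1 : ℤ) ≤ |n| := Int.one_le_abs hn0
  exact_mod_cast this

theorem Pc_poly (θ1 θ2 : ℂ) : ∃ T0 : ℕ, ∀ T : ℕ, T0 ≤ T → ∃ P : ℤ[X][X], P ≠ 0 ∧
    P.natDegree ≤ T ∧ dX P ≤ T ∧ Real.log (nr2 P) ≤ 3 * T ∧
    ‖evH θ1 θ2 P‖ ≤ Real.exp (-((T : ℝ) ^ 3 / 3)) ∧ 1 ≤ T := by
  obtain ⟨B, hBd⟩ : ∃ B : ℝ, B = max 1 (max ‖θ1‖ ‖θ2‖) := ⟨_, rfl⟩
  have hB1 : 1 ≤ B := by rw [hBd]; exact le_max_left _ _
  have hBt1 : ‖θ1‖ ≤ B := by rw [hBd]; exact (le_max_left _ _).trans (le_max_right _ _)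
  have hBt2 : ‖θ2‖ ≤ B := by rw [hBd]; exact (le_max_right _ _).trans (le_max_right _ _)
  have hb : 0 ≤ Real.log B := Real.log_nonneg hB1
  refine ⟨⌈36 + 12 * Real.log B⌉₊ + 5, fun T hT => ?_⟩
  have hT1 : 1 ≤ T := by omega
  have hTb : 36 + 12 * Real.log B ≤ (T : ℝ) :=
    (Nat.le_ceil _).trans (by exact_mod_cast (by omega : ⌈36 + 12 * Real.log B⌉₊ ≤ T))
  obtain ⟨P, hP0, hPd, hPm, hPc, hPv⟩ := pigeon θ1 θ2 B hB1 hBt1 hBt2 T T (3 ^ T) (by omega)
    (by omega) (by positivity)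
  obtain ⟨t, ht⟩ : ∃ t : ℝ, t = T := ⟨_, rfl⟩
  have ht36 : 36 ≤ t := by rw [ht]; linarith
  have ht0 : 0 < t := by linarith
  have hlog3a : 1 ≤ Real.log 3 := by
    rw [Real.le_log_iff_exp_le (by norm_num)]
    have := Real.exp_one_lt_d9
    linarith
  have hlog3b : Real.log 3 ≤ 2 := by
    have := Real.log_le_sub_one_of_pos (show (0 : ℝ) < 3 by norm_num)
    linarith
  have hlogt : Real.log t ≤ t / 2 := by
    have h1 : Real.log t = Real.log (t / 2) + Real.log 2 := by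
      rw [← Real.log_mul (by positivity) (by norm_num)]
      congr 1
      ring
    have h2 := Real.log_le_sub_one_of_pos (show 0 < t / 2 by positivity)
    have h3 := Real.log_two_lt_d9
    linarith
  have hnr : nr2 P ≤ t * t * (3 : ℝ) ^ T := by
    rw [ht]
    have := nr2_le_of_coeff (m := T) (a := T) (H := ((3 ^ T : ℕ) : ℝ)) hPd hPm hPc
    push_cast at this
    exact this
  have hlog : Real.log (t * t * (3 : ℝ) ^ T) = 2 * Real.log t + t * Real.log 3 := by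
    rw [Real.log_mul (by positivity) (by positivity), Real.log_mul (by positivity) (by positivity),
      Real.log_pow, ← ht]
    ring
  refine ⟨P, hP0, hPd.le, dX_le_iff.2 fun j => (hPm j).le, ?_, ?_, hT1⟩
  · have h1 : Real.log (nr2 P) ≤ Real.log (t * t * (3 : ℝ) ^ T) :=
      Real.log_le_log (lt_of_lt_of_le one_pos (one_le_nr2 hP0)) hnr
    rw [hlog] at h1
    rw [← ht]
    nlinarith
  · refine hPv.trans ?_
    push_cast
    rw [← ht]
    have e1 : ((3 : ℝ) ^ T) ^ (-(t * t) / 2) = Real.exp (-(t * t * t / 2 * Real.log 3)) := by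
      rw [← Real.rpow_natCast 3 T, ← ht, ← Real.rpow_mul (by norm_num),
        Real.rpow_def_of_pos (by norm_num)]
      congr 1
      ring
    have e2 : B ^ (T + T) = Real.exp (2 * t * Real.log B) := by
      rw [← Real.rpow_natCast B (T + T), Real.rpow_def_of_pos (by linarith)]
      congr 1
      push_cast
      rw [← ht]
      ring
    have e3 : 8 * (t * t * (3 : ℝ) ^ T) = Real.exp (Real.log 8 + (2 * Real.log t + t * Real.log 3)) := by
      rw [Real.exp_add, ← hlog, Real.exp_log (by norm_num), Real.exp_log (by positivity)]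
    have hlog8 : Real.log 8 ≤ 3 := by
      have h8 : (8 : ℝ) = 2 ^ 3 := by norm_num
      rw [h8, Real.log_pow]
      have h3 := Real.log_two_lt_d9
      push_cast
      linarith
    rw [e1, e2, e3, ← Real.exp_add, ← Real.exp_add]
    refine Real.exp_le_exp.2 ?_
    rw [← ht] at hTb
    have h5 : t * t * t / 2 ≤ t * t * t / 2 * Real.log 3 :=
      le_mul_of_one_le_right (by positivity) hlog3a
    have h6 : t * (36 + 12 * Real.log B) ≤ t * t := mul_le_mul_of_nonneg_left hTb ht0.le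
    have h7 : t * t ≤ t * t * t := by nlinarith [mul_pos ht0 ht0]
    have h8 : t * Real.log 3 ≤ t * 2 := mul_le_mul_of_nonneg_left hlog3b ht0.le
    have h9 : t ^ 3 = t * t * t := by ring
    rw [h9]
    nlinarith

theorem exists_irred (θ1 θ2 : ℂ) (hθ : AlgebraicIndependent ℚ ![θ1, θ2]) :
    ∃ T0 : ℕ, ∀ T : ℕ, T0 ≤ T → ∃ A : ℤ[X][X], Irreducible A ∧ 0 < A.natDegree + dX A ∧
      mu2 A ≤ 8 * T ∧ ‖evH θ1 θ2 A‖ ≤ Real.exp (-((T : ℝ) ^ 2 / 32 * mu2 A)) := by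
  obtain ⟨T0, hT0⟩ := Pc_poly θ1 θ2
  refine ⟨T0, fun T hT => ?_⟩
  obtain ⟨P, hP0, hPd, hPX, hPn, hPv, hT1⟩ := hT0 T hT
  obtain ⟨s, hs, u, hu⟩ := WfDvdMonoid.exists_factors P hP0
  have hs0 : ∀ A ∈ s, A ≠ 0 := fun A hA => (hs A hA).ne_zero
  -- transfer to `s.prod`
  have hQ : s.prod.natDegree ≤ T ∧ dX s.prod ≤ T ∧ Real.log (nr2 s.prod) ≤ 3 * T ∧
      ‖evH θ1 θ2 s.prod‖ ≤ Real.exp (-((T : ℝ) ^ 3 / 3)) := by
    rcases Pc_unit u.isUnit with h | h
    · rw [h, mul_one] at hu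
      rw [hu]
      exact ⟨hPd, hPX, hPn, hPv⟩
    · rw [h] at hu
      have hu' : s.prod = -P := by
        rw [← hu]
        ring
      rw [hu']
      refine ⟨by rwa [natDegree_neg], ?_, by rwa [nr2_neg], ?_⟩
      · rw [dX_le_iff] at hPX ⊢
        intro j
        rw [coeff_neg, natDegree_neg]
        exact hPX j
      · rw [map_neg, norm_neg]
        exact hPv
  obtain ⟨hQd, hQX, hQn, hQv⟩ := hQ
  have hT0' : (1 : ℝ) ≤ T := by exact_mod_cast hT1
  have hsum : (s.map mu2).sum ≤ 8 * T := by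
    rw [Pc_mu s hs0]
    have h1 := gelfond2 s hs0 T T hQd hQX
    have h2 : ((s.prod.natDegree : ℕ) : ℝ) ≤ T := by exact_mod_cast hQd
    have h3 : ((dX s.prod : ℕ) : ℝ) ≤ T := by exact_mod_cast hQX
    have h4 := Real.log_two_lt_d9
    nlinarith
  by_contra hcon
  push Not at hcon
  have hne : ∀ A ∈ s, evH θ1 θ2 A ≠ 0 := fun A hA => evH_ne_zero hθ (hs0 A hA)
  have hval : ∀ A ∈ s, -Real.log ‖evH θ1 θ2 A‖ ≤ (T : ℝ) ^ 2 / 32 * mu2 A := by
    intro A hA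
    rcases Nat.eq_zero_or_pos (A.natDegree + dX A) with h | h
    · have h1 := Real.log_nonneg (Pc_const (hs0 A hA) h θ1 θ2)
      have h2 : 0 ≤ (T : ℝ) ^ 2 / 32 * mu2 A := mul_nonneg (by positivity) (mu2_nonneg A)
      linarith
    · have h1 : mu2 A ≤ 8 * T := by
        refine le_trans ?_ hsum
        refine Multiset.single_le_sum ?_ _ (Multiset.mem_map_of_mem mu2 hA)
        intro x hx
        obtain ⟨A', _, rfl⟩ := Multiset.mem_map.1 hx
        exact mu2_nonneg A'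
      have h2 := hcon A (hs A hA) h h1
      have h3 := Real.log_lt_log (Real.exp_pos _) h2
      rw [Real.log_exp] at h3
      linarith
  obtain ⟨hn0, hv⟩ := Pc_val θ1 θ2 ((T : ℝ) ^ 2 / 32) s hne hval
  have h5 : Real.log ‖evH θ1 θ2 s.prod‖ ≤ -((T : ℝ) ^ 3 / 3) := by
    have := Real.log_le_log (norm_pos_iff.2 hn0) hQv
    rwa [Real.log_exp] at this
  have h6 : (T : ℝ) ^ 2 / 32 * (s.map mu2).sum ≤ (T : ℝ) ^ 2 / 32 * (8 * T) :=
    mul_le_mul_of_nonneg_left hsum (by positivity)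
  have h7 : 0 < (T : ℝ) ^ 3 := by positivity
  nlinarith

end CZ

end S_H32_CZ_Pc

section S_H32_CZ_Pm

set_option autoImplicit false

namespace CZ

open Polynomial

theorem approxAt_swap {θ1 θ2 : ℂ} {t V : ℝ} (h : ApprAt ![θ1, θ2] t V) :
    ApprAt ![θ2, θ1] t V := by
  obtain ⟨E, iF, iN, x, S, d, h1, h2, h3, h4⟩ := h
  refine ⟨E, iF, iN, ![x 1, x 0], S, d, h1, ?_, ?_, h4⟩
  · intro i
    fin_cases i
    · exact h2 1
    · exact h2 0
  · intro φ hφ
    obtain ⟨h5, h6⟩ := h3 φ hφ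
    refine ⟨h5, ?_⟩
    intro i
    fin_cases i
    · exact h6 1
    · exact h6 0

theorem Pm_ind {θ1 θ2 : ℂ} (hθ : AlgebraicIndependent ℚ ![θ1, θ2]) :
    AlgebraicIndependent ℚ ![θ2, θ1] := by
  have h := hθ.comp (Equiv.swap (0 : Fin 2) 1) (Equiv.injective _)
  have e : (![θ1, θ2] : Fin 2 → ℂ) ∘ (Equiv.swap (0 : Fin 2) 1) = ![θ2, θ1] := by
    funext i
    fin_cases i
    · simp
    · simp
  rwa [e] at h

theorem Pm_mu2_swap (A : ℤ[X][X]) : mu2 (Bivariate.swap A) = mu2 A := by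
  unfold mu2
  rw [natDegree_swap, dX_swap, nr2_swap]
  ring

theorem Pm_ev (C U0 δ : ℝ) (hδ : δ < 1 / 2) :
    ∃ Y0 : ℝ, ∀ Y : ℝ, Y0 ≤ Y → 1 ≤ Y ∧ 1 ≤ Real.log Y ∧ C ^ 2 * Real.log Y ^ 4 ≤ Y ^ (1 - 2 * δ) ∧
      U0 * (C * Real.log Y ^ 2) ≤ Y := by
  have h1 : ∀ᶠ Y : ℝ in Filter.atTop, 1 ≤ Y := Filter.eventually_ge_atTop 1
  have h2 : ∀ᶠ Y : ℝ in Filter.atTop, 1 ≤ Real.log Y :=
    Real.tendsto_log_atTop.eventually_ge_atTop 1
  have h3 : ∀ᶠ Y : ℝ in Filter.atTop, C ^ 2 * Real.log Y ^ 4 ≤ Y ^ (1 - 2 * δ) := by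
    have ho := (isLittleO_log_rpow_rpow_atTop (4 : ℝ) (show 0 < 1 - 2 * δ by linarith)).const_mul_left (C ^ 2)
    have := ho.bound (show (0 : ℝ) < 1 by norm_num)
    filter_upwards [this, h1, h2] with Y hY h1 h2
    have e1 : Real.log Y ^ (4 : ℝ) = Real.log Y ^ 4 := by
      rw [← Real.rpow_natCast]
      norm_num
    rw [e1, one_mul, Real.norm_eq_abs, Real.norm_eq_abs,
      abs_of_nonneg (Real.rpow_nonneg (by linarith) _)] at hY
    exact (le_abs_self _).trans hY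
  have h4 : ∀ᶠ Y : ℝ in Filter.atTop, U0 * (C * Real.log Y ^ 2) ≤ Y := by
    have ho := (isLittleO_log_rpow_rpow_atTop (2 : ℝ) (show (0 : ℝ) < 1 by norm_num)).const_mul_left (U0 * C)
    have := ho.bound (show (0 : ℝ) < 1 by norm_num)
    filter_upwards [this, h1, h2] with Y hY h1 h2
    have e1 : Real.log Y ^ (2 : ℝ) = Real.log Y ^ 2 := by
      rw [← Real.rpow_natCast]
      norm_num
    rw [e1, one_mul, Real.norm_eq_abs, Real.norm_eq_abs, Real.rpow_one,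
      abs_of_nonneg (show (0 : ℝ) ≤ Y by linarith)] at hY
    calc U0 * (C * Real.log Y ^ 2) = U0 * C * Real.log Y ^ 2 := by ring
      _ ≤ _ := le_abs_self _
      _ ≤ Y := hY
  exact Filter.eventually_atTop.1 (h1.and (h2.and (h3.and h4)))

theorem Pm_fin {C U0 κ κ' Y t W : ℝ} (hC : 1 ≤ C) (hκ : κ ≤ κ') (h1κ : 1 ≤ κ') (hκ' : κ' < 3 / 2)
    (hY1 : 1 ≤ Y) (hL : 1 ≤ Real.log Y) (hY2 : C ^ 2 * Real.log Y ^ 4 ≤ Y ^ (1 - 2 * (κ' - 1)))
    (hY3 : U0 * (C * Real.log Y ^ 2) ≤ Y) (ht : 1 ≤ t)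
    (ht2 : t ≤ C * Y ^ 2 * Real.log Y ^ 2) (hYt : Y * t ≤ C * Real.log Y ^ 2 * W) :
    U0 ≤ W ∧ t ^ κ ≤ W := by
  set L := Real.log Y with hLdef
  have hD : 0 < C * L ^ 2 := by positivity
  have hD1 : 1 ≤ C * L ^ 2 := by
    have : 1 ≤ L ^ 2 := one_le_pow₀ hL
    nlinarith
  have hY0 : 0 < Y := by linarith
  have ht0 : 0 < t := by linarith
  constructor
  · have h1 : U0 * (C * L ^ 2) ≤ W * (C * L ^ 2) := by
      calc U0 * (C * L ^ 2) ≤ Y := hY3
        _ ≤ Y * t := by nlinarith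
        _ ≤ C * L ^ 2 * W := hYt
        _ = W * (C * L ^ 2) := by ring
    exact le_of_mul_le_mul_right h1 hD
  · have h1 : t ^ κ ≤ t ^ κ' := Real.rpow_le_rpow_of_exponent_le ht hκ
    refine h1.trans ?_
    have hδ0 : 0 ≤ κ' - 1 := by linarith
    have h2 : t ^ κ' = t * t ^ (κ' - 1) := by
      rw [← Real.rpow_one_add' ht0.le (by linarith)]
      congr 1
      ring
    have h3 : t ^ (κ' - 1) ≤ (C * L ^ 2) * Y ^ (2 * (κ' - 1)) := by
      calc t ^ (κ' - 1) ≤ (C * Y ^ 2 * L ^ 2) ^ (κ' - 1) := Real.rpow_le_rpow ht0.le ht2 hδ0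
        _ = ((C * L ^ 2) * Y ^ 2) ^ (κ' - 1) := by ring_nf
        _ = (C * L ^ 2) ^ (κ' - 1) * (Y ^ 2) ^ (κ' - 1) := Real.mul_rpow hD.le (by positivity)
        _ ≤ (C * L ^ 2) * (Y ^ 2) ^ (κ' - 1) := by
          refine mul_le_mul_of_nonneg_right ?_ (by positivity)
          calc (C * L ^ 2) ^ (κ' - 1) ≤ (C * L ^ 2) ^ (1 : ℝ) :=
                Real.rpow_le_rpow_of_exponent_le hD1 (by linarith)
            _ = _ := Real.rpow_one _
        _ = (C * L ^ 2) * Y ^ (2 * (κ' - 1)) := by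
          rw [← Real.rpow_natCast Y 2, ← Real.rpow_mul hY0.le]
          norm_num
    have h4 : t ^ κ' * (C * L ^ 2) ≤ W * (C * L ^ 2) := by
      calc t ^ κ' * (C * L ^ 2) = t * t ^ (κ' - 1) * (C * L ^ 2) := by rw [h2]
        _ ≤ t * ((C * L ^ 2) * Y ^ (2 * (κ' - 1))) * (C * L ^ 2) := by gcongr
        _ = t * ((C ^ 2 * L ^ 4) * Y ^ (2 * (κ' - 1))) := by ring
        _ ≤ t * (Y ^ (1 - 2 * (κ' - 1)) * Y ^ (2 * (κ' - 1))) := by gcongr
        _ = t * Y := by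
          rw [← Real.rpow_add hY0]
          congr 1
          rw [show 1 - 2 * (κ' - 1) + 2 * (κ' - 1) = 1 by ring, Real.rpow_one]
        _ = Y * t := by ring
        _ ≤ C * L ^ 2 * W := hYt
        _ = W * (C * L ^ 2) := by ring
    exact le_of_mul_le_mul_right h4 hD

theorem plane (θ1 θ2 : ℂ) (hθ : AlgebraicIndependent ℚ ![θ1, θ2]) (κ : ℝ) (hκ : κ < 3 / 2) :
    Appr ![θ1, θ2] κ := by
  intro U0
  obtain ⟨C1, T1, hC1, hT1⟩ := plane_of_A θ1 θ2 hθ
  obtain ⟨C2, T2, hC2, hT2⟩ := plane_of_A θ2 θ1 (Pm_ind hθ)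
  obtain ⟨T0, hT0⟩ := exists_irred θ1 θ2 hθ
  obtain ⟨C, hCdef⟩ : ∃ C : ℝ, C = max C1 C2 := ⟨_, rfl⟩
  have hC : 1 ≤ C := by rw [hCdef]; exact hC1.trans (le_max_left _ _)
  have hCC1 : C1 ≤ C := by rw [hCdef]; exact le_max_left _ _
  have hCC2 : C2 ≤ C := by rw [hCdef]; exact le_max_right _ _
  obtain ⟨κ', hκ'def⟩ : ∃ κ' : ℝ, κ' = max κ 1 := ⟨_, rfl⟩
  have hκκ' : κ ≤ κ' := by rw [hκ'def]; exact le_max_left _ _
  have h1κ' : 1 ≤ κ' := by rw [hκ'def]; exact le_max_right _ _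
  have hκ' : κ' < 3 / 2 := by rw [hκ'def]; exact max_lt hκ (by norm_num)
  obtain ⟨Y0, hY0⟩ := Pm_ev C U0 (κ' - 1) (by linarith)
  obtain ⟨T3, hT3⟩ := exists_nat_ge (6 * Y0)
  obtain ⟨T, hTdef⟩ : ∃ T : ℕ, T = max (max T0 T1) (max T2 T3) := ⟨_, rfl⟩
  have hTT0 : T0 ≤ T := by rw [hTdef]; exact (le_max_left _ _).trans (le_max_left _ _)
  have hTT1 : T1 ≤ T := by rw [hTdef]; exact (le_max_right _ _).trans (le_max_left _ _)
  have hTT2 : T2 ≤ T := by rw [hTdef]; exact (le_max_left _ _).trans (le_max_right _ _)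
  have hTT3 : T3 ≤ T := by rw [hTdef]; exact (le_max_right _ _).trans (le_max_right _ _)
  obtain ⟨A, hA, hApos, hAmu, hAev⟩ := hT0 T hTT0
  -- the common output
  have key : ∃ Y t W : ℝ, (T : ℝ) ≤ 6 * Y ∧ 1 ≤ t ∧ ApprAt ![θ1, θ2] t W ∧
        (∃ C' : ℝ, 1 ≤ C' ∧ C' ≤ C ∧ t ≤ C' * Y ^ 2 * Real.log Y ^ 2 ∧ Y * t ≤ C' * Real.log Y ^ 2 * W) := by
    by_cases hd : dX A ≤ A.natDegree
    · obtain ⟨Y, t, W, h1, h2, h3, h4, h5⟩ := hT1 T hTT1 A hA (by omega) hd hAmu hAev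
      exact ⟨Y, t, W, h1, h2, h3, C1, hC1, hCC1, h4, h5⟩
    · have hd' : A.natDegree < dX A := not_le.1 hd
      have hirr : Irreducible (Bivariate.swap A) := (MulEquiv.irreducible_iff _).2 hA
      obtain ⟨Y, t, W, h1, h2, h3, h4, h5⟩ := hT2 T hTT2 (Bivariate.swap A) hirr
        (by rw [natDegree_swap]; omega) (by rw [natDegree_swap, dX_swap]; exact hd'.le)
        (by rw [Pm_mu2_swap]; exact hAmu) (by rw [evH_swap, Pm_mu2_swap]; exact hAev)
      exact ⟨Y, t, W, h1, h2, approxAt_swap h3, C2, hC2, hCC2, h4, h5⟩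
  obtain ⟨Y, t, W, h1, h2, h3, C', hC'1, hC'C, h4, h5⟩ := key
  have hYY0 : Y0 ≤ Y := by
    have : ((T3 : ℕ) : ℝ) ≤ (T : ℝ) := by exact_mod_cast hTT3
    linarith
  obtain ⟨g1, g2, g3, g4⟩ := hY0 Y hYY0
  have hL2 : 0 ≤ Real.log Y ^ 2 := by positivity
  have hW : 0 ≤ W := by
    have h6 : 0 < C' * Real.log Y ^ 2 := by positivity
    have h7 : 0 ≤ C' * Real.log Y ^ 2 * W := le_trans (by positivity) h5
    exact nonneg_of_mul_nonneg_right h7 h6
  have h4' : t ≤ C * Y ^ 2 * Real.log Y ^ 2 := h4.trans (by gcongr)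
  have h5' : Y * t ≤ C * Real.log Y ^ 2 * W := h5.trans (by gcongr)
  obtain ⟨r1, r2⟩ := Pm_fin hC hκκ' h1κ' hκ' g1 g2 g3 g4 h2 h4' h5'
  exact ⟨t, W, h2, r1, r2, h3⟩

end CZ

end S_H32_CZ_Pm

section S_H32_CZ_Xe

set_option autoImplicit false

namespace CZ

theorem appr_reindex {k m : ℕ} (P : Fin k → ℂ) (f : Fin m → Fin k) (κ : ℝ) (hA : Appr P κ) :
    Appr (fun i ↦ P (f i)) κ := by
  intro U0
  obtain ⟨t, V, ht, hU, hV, E, _, _, x, S, d, h1, h2, h3, h4⟩ := hA U0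
  exact ⟨t, V, ht, hU, hV, E, inferInstance, inferInstance, fun i ↦ x (f i), S, d, h1,
    fun i ↦ h2 (f i), fun φ hφ ↦ ⟨(h3 φ hφ).1, fun i ↦ (h3 φ hφ).2 (f i)⟩, h4⟩

theorem appr_mono_exp {k : ℕ} (P : Fin k → ℂ) {κ κ' : ℝ} (h : κ' ≤ κ) (hA : Appr P κ) :
    Appr P κ' := by
  intro U0
  obtain ⟨t, V, ht, hU, hV, hA'⟩ := hA U0
  exact ⟨t, V, ht, hU, (Real.rpow_le_rpow_of_exponent_le ht h).trans hV, hA'⟩

theorem isAlgebraic_of_adjoin_le {A B : Set ℂ} (h : A ⊆ B) (y : ℂ)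
    (hy : IsAlgebraic (IntermediateField.adjoin ℚ A) y) :
    IsAlgebraic (IntermediateField.adjoin ℚ B) y := by
  have hle : IntermediateField.adjoin ℚ A ≤ IntermediateField.adjoin ℚ B :=
    IntermediateField.adjoin.mono ℚ A B h
  let _ : Algebra (IntermediateField.adjoin ℚ A) (IntermediateField.adjoin ℚ B) :=
    (IntermediateField.inclusion hle).toRingHom.toAlgebra
  have _ : IsScalarTower (IntermediateField.adjoin ℚ A) (IntermediateField.adjoin ℚ B) ℂ :=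
    IsScalarTower.of_algebraMap_eq (fun _ ↦ rfl)
  exact hy.tower_top _

theorem appr_of_alg_aux {k : ℕ} (θ1 θ2 : ℂ) (hθ : AlgebraicIndependent ℚ ![θ1, θ2])
    (P : Fin k → ℂ)
    (hP : ∀ i, IsAlgebraic (IntermediateField.adjoin ℚ (Set.range ![θ1, θ2])) (P i)) (j : ℕ) :
    ∃ (m : ℕ) (Q : Fin m → ℂ), Set.range ![θ1, θ2] ⊆ Set.range Q ∧
      (∀ i : Fin k, (i : ℕ) < j → P i ∈ Set.range Q) ∧ ∀ κ : ℝ, κ < 3 / 2 → Appr Q κ := by
  induction j with
  | zero => exact ⟨2, ![θ1, θ2], subset_rfl, fun i hi ↦ absurd hi (Nat.not_lt_zero _),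
      fun κ hκ ↦ plane θ1 θ2 hθ κ hκ⟩
  | succ j ih =>
    obtain ⟨m, Q, hQ, hQP, hA⟩ := ih
    by_cases hj : j < k
    · refine ⟨m + 1, (Fin.snoc Q (P ⟨j, hj⟩) : Fin (m + 1) → ℂ), ?_, ?_, ?_⟩
      · intro z hz
        obtain ⟨i, rfl⟩ := hQ hz
        exact ⟨i.castSucc, by simp⟩
      · intro i hi
        rcases Nat.lt_succ_iff_lt_or_eq.mp hi with h | h
        · obtain ⟨l, hl⟩ := hQP i h
          exact ⟨l.castSucc, by simpa using hl⟩
        · refine ⟨Fin.last m, ?_⟩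
          have : i = ⟨j, hj⟩ := Fin.ext h
          simp [this]
      · intro κ hκ
        have hmax : max κ 1 < (3 / 2 : ℝ) := max_lt hκ (by norm_num)
        obtain ⟨κ2, h1, h2⟩ := exists_between hmax
        exact appr_ext Q _ (isAlgebraic_of_adjoin_le hQ _ (hP ⟨j, hj⟩)) κ2 κ
          ((le_max_right _ _).trans_lt h1) ((le_max_left _ _).trans_lt h1) (hA κ2 h2)
    · refine ⟨m, Q, hQ, fun i hi ↦ hQP i ?_, hA⟩
      have := i.2
      omega

theorem appr_of_alg {k : ℕ} (θ1 θ2 : ℂ) (hθ : AlgebraicIndependent ℚ ![θ1, θ2]) (P : Fin k → ℂ)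
    (hP : ∀ i, IsAlgebraic (IntermediateField.adjoin ℚ (Set.range ![θ1, θ2])) (P i))
    (κ : ℝ) (hκ : κ < 3 / 2) : Appr P κ := by
  obtain ⟨m, Q, -, hQP, hA⟩ := appr_of_alg_aux θ1 θ2 hθ P hP k
  choose f hf using fun i : Fin k ↦ hQP i i.2
  have h := appr_reindex Q f κ (hA κ hκ)
  have hPQ : (fun i ↦ Q (f i)) = P := funext hf
  rwa [hPQ] at h

end CZ

end S_H32_CZ_Xe

section S_H32_CZ_Ch

set_option autoImplicit false

namespace CZ

open MvPolynomial
open H32.T3 (nrm)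

theorem criterion {k : ℕ} (P : Fin k → ℂ)
    (hyp : ∃ M0 : ℕ, ∀ M : ℕ, M0 ≤ M → ∃ (Λ : Type) (_ : Fintype Λ) (R : Type)
      (W : R → Λ → MvPolynomial (Fin k) ℤ),
      0 < Fintype.card Λ ∧ Real.log (Fintype.card Λ) ≤ M ∧
      (∀ s l, ((W s l).totalDegree : ℝ) ≤ (M : ℝ) ^ 1410 ∧
        nrm (W s l) ≤ Real.exp ((M : ℝ) ^ 1410)) ∧
      (∀ c : Λ → ℂ, (∀ l, ‖c l‖ ≤ 1) → (∃ l, ‖c l‖ = 1) →
        ∃ s, Real.exp (-(M : ℝ) ^ 4430) ≤ ‖∑ l, c l * aeval P (W s l)‖) ∧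
      (∃ V : Submodule ℂ (Λ → ℂ), Fintype.card Λ ≤ 2 * Module.finrank ℂ V ∧
        ∀ c ∈ V, (∀ l, ‖c l‖ ≤ 1) → ∀ s,
          ‖∑ l, c l * aeval P (W s l)‖ ≤ Real.exp (-(M : ℝ) ^ 4398))) :
    ∃ f : Fin 3 → Fin k, AlgebraicIndependent ℚ (fun i ↦ P (f i)) := by
  by_contra hcon
  obtain ⟨θ1, θ2, hθ, halg⟩ := exists_basis P hcon
  exact not_appr P hyp (appr_of_alg θ1 θ2 hθ P halg (149 / 100) (by norm_num))

end CZ

end S_H32_CZ_Ch
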