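import Mathlib
import Pool.Agent.H32.AKM.P03
import Pool.Agent.H32.AKM.P05
import Pool.Agent.H32.AKM.P12
import Pool.Agent.H32.AKM.P16

/-! Modular Schanuel with derivatives for points algebraic over a field with good approximations, part 17: this file joins several modules to save build time. -/

section S_H22_U2_Al7

set_option autoImplicit false

open EisensteinSeries ModularForm UpperHalfPlane

namespace U2

open CZ

theorem cs7_alg (z : ℂ) (hz : 0 < z.im) (τ : ℍ) (hτ : (τ : ℂ) = z) (he4 : E₄ τ ≠ 0)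
    (he6 : E₆ τ ≠ 0) (E4 E6 Jf : ℂ → ℂ)
    (h4 : ∀ τ : ℂ, E4 τ = 1 + 240 * ∑' m : ℕ, ((ArithmeticFunction.sigma 3 (m + 1) : ℕ) : ℂ) *
          Complex.exp (2 * (Real.pi : ℂ) * Complex.I * ((m : ℂ) + 1) * τ))
    (h6 : ∀ τ : ℂ, E6 τ = 1 - 504 * ∑' m : ℕ, ((ArithmeticFunction.sigma 5 (m + 1) : ℕ) : ℂ) *
          Complex.exp (2 * (Real.pi : ℂ) * Complex.I * ((m : ℂ) + 1) * τ))
    (hJ : ∀ τ : ℂ, Jf τ = 1728 * E4 τ ^ 3 / (E4 τ ^ 3 - E6 τ ^ 2)) (lam ep : ℂ)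
    (hlam : 2 * Real.pi * Complex.I / lam ^ 2 = 9 * Complex.I * (E₄ τ / (Real.pi * E₆ τ)))
    (hep : 4 * ep ^ 3 - 2 * (27 / 2 * (E₄ τ ^ 3 / E₆ τ ^ 2)) * ep -
        2 * (27 / 2 * (E₄ τ ^ 3 / E₆ τ ^ 2)) = 0) (i : Fin 7) :
    IsAlgebraic (IntermediateField.adjoin ℚ
      (Set.range (![z, Jf z, deriv Jf z, deriv (deriv Jf) z] : Fin 4 → ℂ)))
      (cs7 z lam (27 / 2 * (E₄ τ ^ 3 / E₆ τ ^ 2)) (3 / 2 * (E2 τ * E₄ τ / E₆ τ)) ep i) := by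
  obtain ⟨v0, v1, v2⟩ := H32.J_values h4 h6 hJ hz
  have hof : ofComplex z = τ := by rw [← hτ]; exact ofComplex_apply τ
  have ha : H32.e4 z = E₄ τ := by rw [H32.e4, hof]
  have hb : H32.e6 z = E₆ τ := by rw [H32.e6, hof]
  have hg : H32.e2 z = E2 τ := by rw [H32.e2, hof]
  have hΔ : E₄ τ ^ 3 - E₆ τ ^ 2 ≠ 0 := by
    have h := H32.disc_ne (w := z)
    rwa [ha, hb] at h
  rw [ha, hb] at v0
  rw [H32.J1, ha, hb] at v1
  rw [H32.J2, ha, hb, hg] at v2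
  generalize hFLD : IntermediateField.adjoin ℚ
      (Set.range (![z, Jf z, deriv Jf z, deriv (deriv Jf) z] : Fin 4 → ℂ)) = FLD
  have hmem : ∀ k : Fin 4, IsAlgebraic FLD ((![z, Jf z, deriv Jf z, deriv (deriv Jf) z] : Fin 4 → ℂ) k) := by
    intro k
    have h : (![z, Jf z, deriv Jf z, deriv (deriv Jf) z] : Fin 4 → ℂ) k ∈ FLD := by
      rw [← hFLD]; exact IntermediateField.subset_adjoin _ _ ⟨k, rfl⟩
    exact isAlgebraic_algebraMap (⟨_, h⟩ : FLD)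
  have mz : IsAlgebraic FLD z := hmem 0
  have m0 : IsAlgebraic FLD (Jf z) := hmem 1
  have m1 : IsAlgebraic FLD (deriv Jf z) := hmem 2
  have m2 : IsAlgebraic FLD (deriv (deriv Jf) z) := hmem 3
  obtain ⟨M, hM⟩ : ∃ M : IntermediateField FLD ℂ, ∀ x, x ∈ M ↔ IsAlgebraic FLD x :=
    ⟨algebraicClosure FLD ℂ, fun x => mem_algebraicClosure_iff⟩
  rw [← hM] at m0 m1 m2 mz
  have nat_mem : ∀ n : ℕ, (n : ℂ) ∈ M := fun n => natCast_mem M n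
  have mI : Complex.I ∈ M := by
    rw [hM]
    refine IsAlgebraic.of_pow (n := 2) (by norm_num) ?_
    rw [Complex.I_sq, ← hM]
    exact neg_mem (one_mem M)
  have hπ : (Real.pi : ℂ) ≠ 0 := by exact_mod_cast Real.pi_ne_zero
  have hI := Complex.I_ne_zero
  have i1728 : (1728 : ℂ) ∈ M := by exact_mod_cast nat_mem 1728
  have i2 : (2 : ℂ) ∈ M := by exact_mod_cast nat_mem 2
  have i3 : (3 : ℂ) ∈ M := by exact_mod_cast nat_mem 3
  have i6 : (6 : ℂ) ∈ M := by exact_mod_cast nat_mem 6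
  have i9 : (9 : ℂ) ∈ M := by exact_mod_cast nat_mem 9
  have i27 : (27 : ℂ) ∈ M := by exact_mod_cast nat_mem 27
  generalize E₄ τ = a at *
  generalize E₆ τ = b at *
  generalize E2 τ = g at *
  have mt : a ^ 3 / b ^ 2 ∈ M := by
    have e : a ^ 3 / b ^ 2 = Jf z / (Jf z - 1728) := by
      have e1 : Jf z - 1728 = 1728 * b ^ 2 / (a ^ 3 - b ^ 2) := by
        rw [v0]; field_simp; ring
      rw [e1, v0]
      field_simp
    rw [e]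
    exact div_mem m0 (sub_mem m0 i1728)
  have mu : a / (Real.pi * b) ∈ M := by
    have e : a / (Real.pi * b) = -2 * Complex.I * (Jf z / deriv Jf z) := by
      rw [v0, v1]
      field_simp
    rw [e]
    exact mul_mem (mul_mem (neg_mem i2) mI) (div_mem m0 m1)
  have mk : g * a / b ∈ M := by
    have e : g * a / b = 6 * ((deriv (deriv Jf) z / deriv Jf z) * (a / (Real.pi * b)) /
        (2 * Complex.I) + 2 / 3 + (a ^ 3 / b ^ 2) / 2) := by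
      rw [v1, v2]
      field_simp
      ring
    rw [e]
    exact mul_mem i6 (add_mem (add_mem (div_mem (mul_mem (div_mem m2 m1) mu) (mul_mem i2 mI))
      (div_mem i2 i3)) (div_mem mt i2))
  have mh : 27 / 2 * (a ^ 3 / b ^ 2) ∈ M := mul_mem (div_mem i27 i2) mt
  have mep : ep ∈ M := by
    rw [hM]
    exact Qf_ep ((hM _).1 mh) hep
  rw [← hM]
  fin_cases i
  · exact mep
  · exact zero_mem M
  · exact zero_mem M
  · exact mh
  · exact mul_mem (div_mem i3 i2) mk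
  · show 2 * Real.pi * Complex.I / lam ^ 2 ∈ M
    rw [hlam]
    exact mul_mem (mul_mem i9 mI) mu
  · exact mz

end U2

end S_H22_U2_Al7

section S_H22_U2_Ari

set_option autoImplicit false

open EisensteinSeries ModularForm UpperHalfPlane

namespace U2

open MvPolynomial CZ
open H32.T3 (nrm)

theorem arith_u2 (z : ℂ) (hz : 0 < z.im)
    (hcm : ¬ ∃ a b c : ℤ, (a ≠ 0 ∨ b ≠ 0 ∨ c ≠ 0) ∧ (a : ℂ) * z ^ 2 + b * z + c = 0)
    (E4 E6 Jf : ℂ → ℂ)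
    (h4 : ∀ τ : ℂ, E4 τ = 1 + 240 * ∑' m : ℕ, ((ArithmeticFunction.sigma 3 (m + 1) : ℕ) : ℂ) *
          Complex.exp (2 * (Real.pi : ℂ) * Complex.I * ((m : ℂ) + 1) * τ))
    (h6 : ∀ τ : ℂ, E6 τ = 1 - 504 * ∑' m : ℕ, ((ArithmeticFunction.sigma 5 (m + 1) : ℕ) : ℂ) *
          Complex.exp (2 * (Real.pi : ℂ) * Complex.I * ((m : ℂ) + 1) * τ))
    (hJ : ∀ τ : ℂ, Jf τ = 1728 * E4 τ ^ 3 / (E4 τ ^ 3 - E6 τ ^ 2)) :
    ∃ (b : BaseFn z) (lam : ℂ) (P : Fin 7 → ℂ) (C : ℕ), lam ≠ 0 ∧ 1 ≤ C ∧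
      (∀ i, IsAlgebraic (IntermediateField.adjoin ℚ
        (Set.range (![z, Jf z, deriv Jf z, deriv (deriv Jf) z] : Fin 4 → ℂ))) (P i)) ∧
      ∀ D i1 i2 k a e : ℕ, 1 ≤ D → i1 ≤ D → i2 ≤ D →
        ((WP D i1 i2 k a e).totalDegree : ℝ) ≤ C * ((D : ℝ) + k + a + e + 1) ∧
        nrm (WP D i1 i2 k a e) ≤ Real.exp (C * ((D : ℝ) + k + a + e + 1) *
          Real.log ((D : ℝ) + k + a + e + 2)) ∧
        (a.factorial : ℂ) * e.factorial * (2 * Real.pi * Complex.I * (2 * D) / lam) ^ k *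
          jc b D i1 i2 k a e = lam ^ (a + e) * aeval P (WP D i1 i2 k a e) := by
  obtain ⟨τ, hτ⟩ : ∃ τ : ℍ, (τ : ℂ) = z := ⟨⟨z, hz⟩, rfl⟩
  obtain ⟨n4, n6⟩ := AZ.E_ne z hcm τ hτ
  obtain ⟨b0, lam, ep, ε, Xf, X1f, Yf, hs, hl, hp⟩ := exists_base τ n4 n6
  have key : ∀ (z : ℂ) (_ : (τ : ℂ) = z), ∃ b : BaseFn z, BaseSys b lam
      (27 / 2 * (E₄ τ ^ 3 / E₆ τ ^ 2)) (3 / 2 * (E2 τ * E₄ τ / E₆ τ)) ep ε Xf X1f Yf := by
    rintro z rfl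
    exact ⟨b0, hs⟩
  obtain ⟨b, hb⟩ := key z hτ
  have halg := cs7_alg z hz τ hτ n4 n6 E4 E6 Jf h4 h6 hJ lam ep hl hp
  obtain ⟨C, hC1, hC⟩ := WP_bd
  refine ⟨b, lam, _, C, hb.hlam, hC1, halg, fun D i1 i2 k a e hD h1 h2 => ?_⟩
  obtain ⟨g1, g2⟩ := hC D i1 i2 k a e h1 h2
  exact ⟨g1, g2, WP_val b lam _ _ ep ε Xf X1f Yf hb D i1 i2 k a e hD h1 h2⟩

end U2

end S_H22_U2_Ari

section S_H32_AZ_C

set_option autoImplicit false

namespace AZ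

open MvPolynomial CZ
open H32.T3 (nrm)

theorem exists_J {k : ℕ} (P : Fin k → ℂ) (ea eb : ℕ) (hea : 0 < ea) (hab : ea < eb) : ∃ M1 : ℕ, ∀ M : ℕ, M1 ≤ M →
    ∀ (Λ : Type) (_ : Fintype Λ) (_ : DecidableEq Λ) (R : Type)
      (W : R → Λ → MvPolynomial (Fin k) ℤ), Real.log (Fintype.card Λ) ≤ M →
      (∀ s l, ((W s l).totalDegree : ℝ) ≤ (M : ℝ) ^ ea ∧
        nrm (W s l) ≤ Real.exp ((M : ℝ) ^ ea)) →
      (∀ c : Λ → ℂ, (∀ l, ‖c l‖ ≤ 1) → (∃ l, ‖c l‖ = 1) →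
        ∃ s, Real.exp (-(M : ℝ) ^ eb) ≤ ‖∑ l, c l * aeval P (W s l)‖) →
    ∀ Q : Fin k → ℂ, (∀ i, ‖Q i - P i‖ ≤ Real.exp (-(3 * (M : ℝ) ^ eb))) →
      ∃ J : Λ → R, (Matrix.of fun i l ↦ aeval Q (W (J i) l)).det ≠ 0 := by
  obtain ⟨B, hB⟩ : ∃ B : ℝ, B = 2 + ∑ i, ‖P i‖ := ⟨_, rfl⟩
  have hPs : ∀ i, ‖P i‖ ≤ ∑ i, ‖P i‖ := fun i =>
    Finset.single_le_sum (f := fun i => ‖P i‖) (fun j _ => norm_nonneg _) (Finset.mem_univ i)
  have hB2 : 2 ≤ B := by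
    rw [hB]
    have : 0 ≤ ∑ i, ‖P i‖ := Finset.sum_nonneg fun i _ => norm_nonneg _
    linarith
  have hB1 : 1 ≤ B := by linarith
  have hlB : 0 ≤ Real.log B := Real.log_nonneg hB1
  have hPB : ∀ i, ‖P i‖ ≤ B := fun i => by
    have := hPs i
    linarith
  refine ⟨⌈3 + Real.log B⌉₊, ?_⟩
  intro M hM Λ _ _ R W hcard hW hZ Q hQ
  have hM' : 3 + Real.log B ≤ (M : ℝ) := (Nat.le_ceil _).trans (by exact_mod_cast hM)
  have hM3 : 3 ≤ (M : ℝ) := by linarith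
  have hM1 : 1 ≤ (M : ℝ) := by linarith
  have hMN : (M : ℝ) ≤ (M : ℝ) ^ ea := le_self_pow₀ hM1 hea.ne'
  have hNZ : (M : ℝ) ^ ea * M ≤ (M : ℝ) ^ eb := by
    rw [← pow_succ]
    exact pow_le_pow_right₀ hM1 (by omega)
  have hdeg : ∀ s l, (W s l).totalDegree ≤ M ^ ea := by
    intro s l
    have h := (hW s l).1
    have h2 : ((W s l).totalDegree : ℝ) ≤ ((M ^ ea : ℕ) : ℝ) := by
      rw [Nat.cast_pow]
      exact h
    exact Nat.cast_le.1 h2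
  have hNc : ((M ^ ea : ℕ) : ℝ) = (M : ℝ) ^ ea := Nat.cast_pow _ _
  generalize hNn : M ^ ea = Nn at hdeg hNc
  generalize (M : ℝ) ^ ea = N at hMN hNZ hNc hW
  generalize (M : ℝ) ^ eb = Z at hNZ hZ hQ
  have hN1 : 1 ≤ N := by linarith
  have hN0 : 0 < N := by linarith
  have hZ0 : 0 < Z := by nlinarith
  have hδ1 : Real.exp (-(3 * Z)) ≤ 1 := Real.exp_le_one_iff.2 (by linarith)
  have hQB : ∀ i, ‖Q i‖ ≤ B := by
    intro i
    have h1 : ‖Q i‖ ≤ ‖Q i - P i‖ + ‖P i‖ := by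
      have := norm_add_le (Q i - P i) (P i)
      rwa [sub_add_cancel] at this
    have h2 := hQ i
    have h3 := hPs i
    linarith
  apply exists_det_ne_zero (fun s l => aeval Q (W s l))
  intro c hc
  by_contra hcon
  push Not at hcon
  have hne : ∃ l, c l ≠ 0 := Function.ne_iff.1 hc
  obtain ⟨l1, hl1⟩ := hne
  haveI : Nonempty Λ := ⟨l1⟩
  obtain ⟨l0, hl0⟩ := Finite.exists_max (fun l => ‖c l‖)
  have hm0 : 0 < ‖c l0‖ := lt_of_lt_of_le (norm_pos_iff.2 hl1) (hl0 l1)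
  have hcn : ∀ l, ‖c l * ((‖c l0‖ : ℝ) : ℂ)⁻¹‖ = ‖c l‖ / ‖c l0‖ := by
    intro l
    rw [norm_mul, norm_inv, Complex.norm_real, norm_norm, div_eq_mul_inv]
  obtain ⟨s, hs⟩ := hZ (fun l => c l * ((‖c l0‖ : ℝ) : ℂ)⁻¹)
    (fun l => by
      rw [hcn, div_le_one hm0]
      exact hl0 l)
    ⟨l0, by rw [hcn, div_self hm0.ne']⟩
  have h0 : ∑ l, (c l * ((‖c l0‖ : ℝ) : ℂ)⁻¹) * aeval Q (W s l) = 0 := by
    have e : ∀ l ∈ (Finset.univ : Finset Λ), (c l * ((‖c l0‖ : ℝ) : ℂ)⁻¹) * aeval Q (W s l) =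
        (c l * aeval Q (W s l)) * ((‖c l0‖ : ℝ) : ℂ)⁻¹ := fun l _ => by ring
    rw [Finset.sum_congr rfl e, ← Finset.sum_mul, hcon s, zero_mul]
  have hdiff : ‖∑ l, (c l * ((‖c l0‖ : ℝ) : ℂ)⁻¹) * aeval P (W s l)‖ ≤
      (Fintype.card Λ : ℝ) * (Real.exp N * (N * B ^ Nn * Real.exp (-(3 * Z)))) := by
    have e : ∑ l, (c l * ((‖c l0‖ : ℝ) : ℂ)⁻¹) * aeval P (W s l) =
        ∑ l, -((c l * ((‖c l0‖ : ℝ) : ℂ)⁻¹) * (aeval Q (W s l) - aeval P (W s l))) := by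
      have e2 : ∀ l ∈ (Finset.univ : Finset Λ),
          -((c l * ((‖c l0‖ : ℝ) : ℂ)⁻¹) * (aeval Q (W s l) - aeval P (W s l))) =
          (c l * ((‖c l0‖ : ℝ) : ℂ)⁻¹) * aeval P (W s l) -
            (c l * ((‖c l0‖ : ℝ) : ℂ)⁻¹) * aeval Q (W s l) := fun l _ => by ring
      rw [Finset.sum_congr rfl e2, Finset.sum_sub_distrib, h0, sub_zero]
    rw [e]
    have h1 := norm_sum_le (Finset.univ : Finset Λ)
      (fun l => -((c l * ((‖c l0‖ : ℝ) : ℂ)⁻¹) * (aeval Q (W s l) - aeval P (W s l))))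
    refine h1.trans ?_
    have h2 : ∀ l ∈ (Finset.univ : Finset Λ),
        ‖-((c l * ((‖c l0‖ : ℝ) : ℂ)⁻¹) * (aeval Q (W s l) - aeval P (W s l)))‖ ≤
        Real.exp N * (N * B ^ Nn * Real.exp (-(3 * Z))) := by
      intro l _
      rw [norm_neg, norm_mul, hcn]
      have g1 : ‖c l‖ / ‖c l0‖ ≤ 1 := by
        rw [div_le_one hm0]
        exact hl0 l
      have g2 := aeval_sub_le (W s l) Nn (hdeg s l) P Q B (Real.exp (-(3 * Z))) hB1 hPB hQB hQ (Real.exp_pos _).le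
      rw [hNc] at g2
      have g3 : nrm (W s l) * (N * B ^ Nn * Real.exp (-(3 * Z))) ≤
          Real.exp N * (N * B ^ Nn * Real.exp (-(3 * Z))) :=
        mul_le_mul_of_nonneg_right (hW s l).2 (by positivity)
      calc ‖c l‖ / ‖c l0‖ * ‖aeval Q (W s l) - aeval P (W s l)‖
          ≤ 1 * ‖aeval Q (W s l) - aeval P (W s l)‖ :=
            mul_le_mul_of_nonneg_right g1 (norm_nonneg _)
        _ = ‖aeval Q (W s l) - aeval P (W s l)‖ := one_mul _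
        _ ≤ _ := g2.trans g3
    refine (Finset.sum_le_sum h2).trans (le_of_eq ?_)
    rw [Finset.sum_const, Finset.card_univ, nsmul_eq_mul]
  have hL0 : 0 < (Fintype.card Λ : ℝ) := by exact_mod_cast Fintype.card_pos
  have hL : (Fintype.card Λ : ℝ) ≤ Real.exp M := (Real.log_le_iff_le_exp hL0).1 hcard
  have hNe : N ≤ Real.exp N := by
    have := Real.add_one_le_exp N
    linarith
  have hBe : B ^ Nn = Real.exp (N * Real.log B) := by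
    rw [← hNc, mul_comm, Real.exp_mul, Real.exp_log (by linarith), Real.rpow_natCast]
  have hbig : (Fintype.card Λ : ℝ) * (Real.exp N * (N * B ^ Nn * Real.exp (-(3 * Z)))) ≤
      Real.exp (M + N + N + N * Real.log B + -(3 * Z)) := by
    rw [hBe, Real.exp_add, Real.exp_add, Real.exp_add, Real.exp_add]
    have h1 : Real.exp N * (N * Real.exp (N * Real.log B) * Real.exp (-(3 * Z))) ≤
        Real.exp N * (Real.exp N * Real.exp (N * Real.log B) * Real.exp (-(3 * Z))) := by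
      gcongr
    calc (Fintype.card Λ : ℝ) *
          (Real.exp N * (N * Real.exp (N * Real.log B) * Real.exp (-(3 * Z))))
        ≤ Real.exp M *
          (Real.exp N * (Real.exp N * Real.exp (N * Real.log B) * Real.exp (-(3 * Z)))) := by
          exact mul_le_mul hL h1 (by positivity) (by positivity)
      _ = _ := by ring
  have hfin : Real.exp (M + N + N + N * Real.log B + -(3 * Z)) < Real.exp (-Z) := by
    apply Real.exp_lt_exp.2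
    have h1 : N * (3 + Real.log B) ≤ N * M := mul_le_mul_of_nonneg_left hM' hN0.le
    nlinarith
  linarith

theorem log_det_ge {k : ℕ} (P : Fin k → ℂ) (ea eg : ℕ) (hea : 0 < ea) : ∃ M1 : ℕ, ∀ M : ℕ, M1 ≤ M →
    ∀ (Λ : Type) (_ : Fintype Λ) (_ : DecidableEq Λ) (R : Type)
      (W : R → Λ → MvPolynomial (Fin k) ℤ), 0 < Fintype.card Λ → Real.log (Fintype.card Λ) ≤ M →
      (∀ s l, ((W s l).totalDegree : ℝ) ≤ (M : ℝ) ^ ea ∧
        nrm (W s l) ≤ Real.exp ((M : ℝ) ^ ea)) →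
      (∃ V : Submodule ℂ (Λ → ℂ), Fintype.card Λ ≤ 2 * Module.finrank ℂ V ∧
        ∀ c ∈ V, (∀ l, ‖c l‖ ≤ 1) → ∀ s,
          ‖∑ l, c l * aeval P (W s l)‖ ≤ Real.exp (-(M : ℝ) ^ eg)) →
    ∀ (Q : Fin k → ℂ) (δ : ℝ), 0 ≤ δ → (∀ i, ‖Q i - P i‖ ≤ Real.exp (-δ)) →
      ∀ J : Λ → R, (Matrix.of fun i l ↦ aeval Q (W (J i) l)).det ≠ 0 →
        (Fintype.card Λ : ℝ) / 2 * min ((M : ℝ) ^ eg) δ
            - 2 * Fintype.card Λ * (M : ℝ) ^ (ea + 1) ≤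
          -Real.log ‖(Matrix.of fun i l ↦ aeval Q (W (J i) l)).det‖ := by
  set B : ℝ := 2 + ∑ i, ‖P i‖ with hB
  have hs0 : 0 ≤ ∑ i, ‖P i‖ := Finset.sum_nonneg fun i _ => norm_nonneg _
  have hB1 : 1 ≤ B := by rw [hB]; linarith
  have hPB : ∀ i, ‖P i‖ + 1 ≤ B := by
    intro i
    have := Finset.single_le_sum (f := fun i => ‖P i‖) (fun j _ => norm_nonneg _) (Finset.mem_univ i)
    rw [hB]
    linarith
  have hlB : 0 ≤ Real.log B := Real.log_nonneg hB1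
  refine ⟨⌈7 + Real.log B⌉₊, ?_⟩
  intro M hM Λ _ _ R W hL hLM hW hV Q δ hδ hQ J hdet
  obtain ⟨V, hV1, hV2⟩ := hV
  have hM' : 7 + Real.log B ≤ M := (Nat.le_ceil _).trans (by exact_mod_cast hM)
  have hM1 : (1 : ℝ) ≤ M := by linarith
  refine Ck_core P B ((M : ℝ) ^ (ea + 1)) ((M : ℝ) ^ eg) δ M (M ^ ea) hB1 hPB ?_ Λ R W hL hLM
    (fun s l => ?_) V hV1 hV2 Q hδ hQ J hdet
  · have h1 : (M : ℝ) ≤ (M : ℝ) ^ ea := le_self_pow₀ hM1 hea.ne'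
    have h2 : ((M ^ ea : ℕ) : ℝ) = (M : ℝ) ^ ea := by push_cast; rfl
    have h3 : (M : ℝ) ^ (ea + 1) = (M : ℝ) ^ ea * M := pow_succ _ _
    rw [h2, h3]
    generalize (M : ℝ) ^ ea = Y at h1 ⊢
    have h4 : Y * (7 + Real.log B) ≤ Y * M := mul_le_mul_of_nonneg_left hM' (by linarith)
    linarith
  · have h2 : ((M ^ ea : ℕ) : ℝ) = (M : ℝ) ^ ea := by push_cast; rfl
    obtain ⟨h3, h4⟩ := hW s l
    rw [← h2] at h3 h4
    exact ⟨by exact_mod_cast h3, h4⟩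

theorem core_ineq {k : ℕ} (P : Fin k → ℂ) (ea eg eb : ℕ) (hea : 0 < ea) (hab : ea < eb) : ∃ M1 : ℕ, ∀ M : ℕ, M1 ≤ M →
    ∀ (Λ : Type) (_ : Fintype Λ) (R : Type) (W : R → Λ → MvPolynomial (Fin k) ℤ),
      0 < Fintype.card Λ → Real.log (Fintype.card Λ) ≤ M →
      (∀ s l, ((W s l).totalDegree : ℝ) ≤ (M : ℝ) ^ ea ∧
        nrm (W s l) ≤ Real.exp ((M : ℝ) ^ ea)) →
      (∀ c : Λ → ℂ, (∀ l, ‖c l‖ ≤ 1) → (∃ l, ‖c l‖ = 1) →
        ∃ s, Real.exp (-(M : ℝ) ^ eb) ≤ ‖∑ l, c l * aeval P (W s l)‖) →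
      (∃ V : Submodule ℂ (Λ → ℂ), Fintype.card Λ ≤ 2 * Module.finrank ℂ V ∧
        ∀ c ∈ V, (∀ l, ‖c l‖ ≤ 1) → ∀ s,
          ‖∑ l, c l * aeval P (W s l)‖ ≤ Real.exp (-(M : ℝ) ^ eg)) →
    ∀ (E : Type) (_ : Field E) (_ : NumberField E) (x : Fin k → E) (S : Finset (E →+* ℂ))
      (d : (E →+* ℂ) → ℝ) (t : ℝ), (Module.finrank ℚ E : ℝ) ≤ t → (∀ i, hE (x i) ≤ t) →
      (∀ φ ∈ S, 0 ≤ d φ ∧ ∀ i, ‖φ (x i) - P i‖ ≤ Real.exp (-d φ)) →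
      (∃ φ ∈ S, 3 * (M : ℝ) ^ eb ≤ d φ) →
      ∑ φ ∈ S, min ((M : ℝ) ^ eg) (d φ) ≤ (2 * k + 10) * t * (M : ℝ) ^ (ea + 1) := by
  classical
  obtain ⟨Ma, hMa⟩ := exists_J P ea eb hea hab
  obtain ⟨Mb, hMb⟩ := log_det_ge P ea eg hea
  refine ⟨max (max Ma Mb) 2, ?_⟩
  intro M hM Λ _ R W hL0 hLM hW hZE hV E _ _ x S d t hEt hxt hS hbig
  have hMa' : Ma ≤ M := le_trans (le_trans (le_max_left _ _) (le_max_left _ _)) hM
  have hMb' : Mb ≤ M := le_trans (le_trans (le_max_right _ _) (le_max_left _ _)) hM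
  have hM2 : 2 ≤ M := le_trans (le_max_right _ _) hM
  have hM1 : (1 : ℝ) ≤ M := by
    have : (2 : ℝ) ≤ M := by exact_mod_cast hM2
    linarith
  obtain ⟨φ0, hφ0, hd0⟩ := hbig
  obtain ⟨J, hJ⟩ := hMa M hMa' Λ inferInstance inferInstance R W hLM hW hZE (fun i ↦ φ0 (x i))
    (fun i ↦ ((hS φ0 hφ0).2 i).trans (Real.exp_le_exp.2 (neg_le_neg hd0)))
  set D : MvPolynomial (Fin k) ℤ := (Matrix.of fun i l ↦ W (J i) l).det with hD
  have hφD : ∀ φ : E →+* ℂ, φ (aeval x D) =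
      (Matrix.of fun i l ↦ aeval (fun i ↦ φ (x i)) (W (J i) l)).det := by
    intro φ
    have h1 : aeval x D = (Matrix.of fun i l ↦ aeval x (W (J i) l)).det := by
      rw [hD, AlgHom.map_det]
      rfl
    rw [h1, RingHom.map_det]
    congr 1
    ext i l
    simp only [RingHom.mapMatrix_apply, Matrix.map_apply, Matrix.of_apply]
    exact ce_map_aeval φ x _
  have hDx : aeval x D ≠ 0 := by
    intro h0
    have h1 := hφD φ0
    rw [h0, map_zero] at h1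
    exact hJ h1.symm
  have hD0 : D ≠ 0 := by
    intro h0
    exact hDx (by rw [h0, map_zero])
  have hlow : ∀ φ ∈ S, (Fintype.card Λ : ℝ) / 2 * min ((M : ℝ) ^ eg) (d φ)
            - 2 * Fintype.card Λ * (M : ℝ) ^ (ea + 1) ≤ -Real.log ‖φ (aeval x D)‖ := by
    intro φ hφ
    have h1 : (Matrix.of fun i l ↦ aeval (fun i ↦ φ (x i)) (W (J i) l)).det ≠ 0 := by
      rw [← hφD φ]
      exact (map_ne_zero φ).2 hDx
    have h2 := hMb M hMb' Λ inferInstance inferInstance R W hL0 hLM hW hV (fun i ↦ φ (x i)) (d φ)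
      (hS φ hφ).1 (hS φ hφ).2 J h1
    rw [← hφD φ] at h2
    exact h2
  have htd : ∀ s l, (W s l).totalDegree ≤ M ^ ea := by
    intro s l
    have := (hW s l).1
    exact_mod_cast this
  have hDtd : D.totalDegree ≤ Fintype.card Λ * M ^ ea :=
    totalDegree_det_le _ _ (fun i j ↦ htd _ _)
  have hli := liouville x D _ hDtd hDx S
  have hnrm : nrm D ≤ (Fintype.card Λ : ℝ) ^ Fintype.card Λ *
      Real.exp ((M : ℝ) ^ ea) ^ Fintype.card Λ :=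
    nrm_det_le _ _ (Real.exp_pos _).le (fun i j ↦ (hW _ _).2)
  have hnrm1 : 1 ≤ nrm D := H32.T3.one_le_nrm hD0
  have hlog0 : 0 ≤ Real.log (nrm D) := Real.log_nonneg hnrm1
  have hLpos : (0 : ℝ) < Fintype.card Λ := by exact_mod_cast hL0
  have hlogD : Real.log (nrm D) ≤ Fintype.card Λ * (M : ℝ) + Fintype.card Λ * (M : ℝ) ^ ea := by
    have h1 := Real.log_le_log (by linarith) hnrm
    rw [Real.log_mul (by positivity) (by positivity), Real.log_pow, Real.log_pow,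
      Real.log_exp] at h1
    have h2 : (Fintype.card Λ : ℝ) * Real.log (Fintype.card Λ) ≤ Fintype.card Λ * (M : ℝ) :=
      mul_le_mul_of_nonneg_left hLM hLpos.le
    linarith
  have hcard : ((S.card : ℕ) : ℝ) ≤ t := by
    have h1 : S.card ≤ Module.finrank ℚ E := by
      rw [← NumberField.Embeddings.card E ℂ]
      exact Finset.card_le_univ S
    exact le_trans (by exact_mod_cast h1) hEt
  have hsum : ∑ i, hE (x i) ≤ (k : ℝ) * t := by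
    calc ∑ i, hE (x i) ≤ ∑ _i : Fin k, t := Finset.sum_le_sum fun i _ ↦ hxt i
      _ = (k : ℝ) * t := by simp
  have hsl : (Fintype.card Λ : ℝ) / 2 * ∑ φ ∈ S, min ((M : ℝ) ^ eg) (d φ)
      - (S.card : ℝ) * (2 * Fintype.card Λ * (M : ℝ) ^ (ea + 1)) ≤
      -∑ φ ∈ S, Real.log ‖φ (aeval x D)‖ := by
    rw [← Finset.sum_neg_distrib]
    refine le_trans (le_of_eq ?_) (Finset.sum_le_sum hlow)
    rw [Finset.sum_sub_distrib, ← Finset.mul_sum, Finset.sum_const, nsmul_eq_mul]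
  have hMp : (M : ℝ) ≤ (M : ℝ) ^ (ea + 1) := by
    calc (M : ℝ) = (M : ℝ) ^ 1 := (pow_one _).symm
      _ ≤ (M : ℝ) ^ (ea + 1) := pow_le_pow_right₀ hM1 (by omega)
  have hNp : (M : ℝ) ^ ea ≤ (M : ℝ) ^ (ea + 1) := pow_le_pow_right₀ hM1 (by omega)
  have hfin := hsl.trans hli
  push_cast at hfin
  have hT : 0 ≤ (M : ℝ) ^ (ea + 1) := by positivity
  have hN0 : 0 ≤ (M : ℝ) ^ ea := by positivity
  exact ce_arith (Fintype.card Λ : ℝ) t (∑ i, hE (x i)) ((M : ℝ) ^ (ea + 1)) (Real.log (nrm D))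
    ((M : ℝ) ^ ea) M k _ (Module.finrank ℚ E) (S.card : ℝ) hLpos (by positivity) hEt hcard
    hMp hNp (by positivity) hT hN0 hlog0 hlogD hsum hfin

theorem cf_pow_succ (M n : ℕ) (hM : n ≤ M) (hM' : 0 < M) :
    ((M : ℝ) + 1) ^ n ≤ 3 * (M : ℝ) ^ n := by
  have hM0 : (0 : ℝ) < M := by exact_mod_cast hM'
  have h1 : (M : ℝ) + 1 ≤ M * Real.exp (1 / M) := by
    have h := Real.add_one_le_exp (1 / (M : ℝ))
    calc (M : ℝ) + 1 = M * (1 / M + 1) := by field_simp; ring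
      _ ≤ M * Real.exp (1 / M) := mul_le_mul_of_nonneg_left h hM0.le
  have h2 : ((M : ℝ) + 1) ^ n ≤ (M * Real.exp (1 / M)) ^ n :=
    pow_le_pow_left₀ (by positivity) h1 _
  rw [mul_pow, ← Real.exp_nat_mul] at h2
  have h3 : Real.exp ((n : ℝ) * (1 / (M : ℝ))) ≤ 3 := by
    calc Real.exp ((n : ℝ) * (1 / (M : ℝ))) ≤ Real.exp 1 := by
          apply Real.exp_le_exp.mpr
          rw [mul_one_div, div_le_one hM0]
          exact_mod_cast hM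
      _ ≤ 3 := by
          have := Real.exp_one_lt_d9
          linarith
  refine h2.trans ?_
  rw [mul_comm (3 : ℝ)]
  exact mul_le_mul_of_nonneg_left h3 (by positivity)

theorem cf_key (U C t : ℝ) (a b c : ℕ) (habc : a + b = c) (hU : 1 ≤ U) (hC : 0 ≤ C)
    (ht : t ^ c ≤ U ^ b) (h : U ≤ C * t) : U ^ a ≤ C ^ c := by
  have h1 : U ^ c ≤ (C * t) ^ c := pow_le_pow_left₀ (by linarith) h _
  rw [mul_pow] at h1
  have h2 : U ^ a * U ^ b ≤ C ^ c * U ^ b := by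
    rw [← pow_add, habc]
    exact h1.trans (mul_le_mul_of_nonneg_left ht (by positivity))
  exact le_of_mul_le_mul_right h2 (by positivity)

theorem cf_exists_level (dm : ℝ) (M2 n : ℕ) (hn : n ≠ 0)
    (h : 3 * ((M2 : ℝ) + 1) ^ n ≤ dm) :
    ∃ M : ℕ, M2 + 1 ≤ M ∧ 3 * (M : ℝ) ^ n ≤ dm ∧ dm < 3 * ((M : ℝ) + 1) ^ n := by
  classical
  have hex : ∃ m : ℕ, dm < 3 * ((m : ℝ) + 1) ^ n := by
    refine ⟨⌈dm⌉₊, ?_⟩
    have h1 : dm ≤ (⌈dm⌉₊ : ℝ) := Nat.le_ceil dm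
    have h2 : (1 : ℝ) ≤ (⌈dm⌉₊ : ℝ) + 1 := by
      have : (0 : ℝ) ≤ (⌈dm⌉₊ : ℝ) := Nat.cast_nonneg _
      linarith
    have h3 : (⌈dm⌉₊ : ℝ) + 1 ≤ ((⌈dm⌉₊ : ℝ) + 1) ^ n := le_self_pow₀ h2 hn
    linarith
  have hfind := Nat.find_spec hex
  have hmin : ∀ m : ℕ, m < Nat.find hex → ¬ dm < 3 * ((m : ℝ) + 1) ^ n :=
    fun m hm ↦ Nat.find_min hex hm
  obtain ⟨m0, hm0⟩ : ∃ m0, m0 = Nat.find hex := ⟨_, rfl⟩
  rw [← hm0] at hfind
  simp only [← hm0] at hmin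
  have hle0 : M2 + 1 ≤ m0 := by
    by_contra hlt
    have hle : m0 ≤ M2 := by omega
    have h2 : ((m0 : ℝ) + 1) ^ n ≤ ((M2 : ℝ) + 1) ^ n := by
      apply pow_le_pow_left₀ (by positivity)
      have : (m0 : ℝ) ≤ M2 := by exact_mod_cast hle
      linarith
    linarith
  refine ⟨m0, hle0, ?_, hfind⟩
  have h1 := hmin (m0 - 1) (by omega)
  have h2 : (((m0 - 1 : ℕ) : ℝ) + 1) = (m0 : ℝ) := by
    rw [Nat.cast_sub (by omega)]
    push_cast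
    ring
  rw [h2] at h1
  exact not_lt.mp h1

theorem cf_rpow (t U κ : ℝ) (p q : ℕ) (hκ : κ * q = p) (ht : 0 ≤ t) (h : t ^ κ ≤ U) :
    t ^ p ≤ U ^ q := by
  have h1 : (t ^ κ) ^ q = t ^ p := by
    rw [← Real.rpow_natCast, ← Real.rpow_mul ht, hκ, Real.rpow_natCast]
  rw [← h1]
  exact pow_le_pow_left₀ (Real.rpow_nonneg ht _) h _

theorem cf_min (M d : ℝ) (n1 n2 n4 : ℕ) (h : n4 + n2 = n1) (hM : 1 ≤ M) (hd0 : 0 ≤ d)
    (hd : d ≤ 9 * M ^ n1) : d ≤ 9 * M ^ n4 * min (M ^ n2) d := by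
  rcases le_total (M ^ n2) d with h' | h'
  · rw [min_eq_left h', mul_assoc, ← pow_add, h]
    exact hd
  · rw [min_eq_right h']
    have h1 : (1 : ℝ) ≤ 9 * M ^ n4 := by
      have : (1 : ℝ) ≤ M ^ n4 := one_le_pow₀ hM
      linarith
    exact le_mul_of_one_le_left hd0 h1

theorem cf_gen {k : ℕ} (P : Fin k → ℂ) (n1 n2 n3 n4 m e a b c : ℕ) (κ : ℝ)
    (h12 : n4 + n2 = n1) (h34 : n4 + n3 = m) (habc : a + b = c) (hκ : κ * b = c)
    (hexp : e + m * c = n1 * a) (he : e ≠ 0) (ha : a ≠ 0) (hn1 : n1 ≠ 0) (M0 : ℕ)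
    (core : ∀ M : ℕ, M0 ≤ M → ∀ (E : Type) (_ : Field E) (_ : NumberField E) (x : Fin k → E)
      (S : Finset (E →+* ℂ)) (d : (E →+* ℂ) → ℝ) (t : ℝ), (Module.finrank ℚ E : ℝ) ≤ t →
      (∀ i, hE (x i) ≤ t) →
      (∀ φ ∈ S, 0 ≤ d φ ∧ ∀ i, ‖φ (x i) - P i‖ ≤ Real.exp (-d φ)) →
      (∃ φ ∈ S, 3 * (M : ℝ) ^ n1 ≤ d φ) →
      ∑ φ ∈ S, min ((M : ℝ) ^ n2) (d φ) ≤ (2 * k + 10) * t * (M : ℝ) ^ n3) :
    ¬ Appr P κ := by
  intro hA
  obtain ⟨C, hC⟩ : ∃ C : ℕ, C = 9 * (2 * k + 10) := ⟨_, rfl⟩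
  obtain ⟨C', hC'⟩ : ∃ C' : ℕ, C' = C ^ c := ⟨_, rfl⟩
  obtain ⟨M2, hM2⟩ : ∃ M2 : ℕ, M2 = M0 + n1 + C' := ⟨_, rfl⟩
  obtain ⟨C0, hC0⟩ : ∃ C0 : ℝ, C0 = 3 * ((M2 : ℝ) + 1) ^ n1 := ⟨_, rfl⟩
  have hC0pos : 0 < C0 := by rw [hC0]; positivity
  obtain ⟨t, V, ht1, hUV, htV, E, iF, iN, x, S, d, hf, hx, hd, hV⟩ := hA (C0 ^ c + 1)
  obtain ⟨U, hU⟩ : ∃ U : ℝ, U = ∑ φ ∈ S, d φ := ⟨_, rfl⟩
  have hVU : V ≤ U := by rw [hU]; exact hV
  have hCU : C0 ^ c + 1 ≤ U := hUV.trans hVU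
  have hCc : (0 : ℝ) ≤ C0 ^ c := by positivity
  have hU1 : 1 ≤ U := by linarith
  have htc : t ^ c ≤ U ^ b := cf_rpow t U κ c b hκ (by linarith) (htV.trans hVU)
  have hne : S.Nonempty := by
    rw [Finset.nonempty_iff_ne_empty]
    intro h0
    rw [h0, Finset.sum_empty] at hU
    linarith
  obtain ⟨φ0, hφ0, hmax⟩ := Finset.exists_max_image S d hne
  have hcard : (S.card : ℝ) ≤ t := by
    have h1 : S.card ≤ Module.finrank ℚ E := by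
      rw [← NumberField.Embeddings.card E ℂ]
      exact Finset.card_le_univ S
    exact le_trans (by exact_mod_cast h1) hf
  have hUdm : U ≤ t * d φ0 := by
    have h1 : U ≤ S.card • d φ0 := by
      rw [hU]
      exact Finset.sum_le_card_nsmul S d (d φ0) hmax
    rw [nsmul_eq_mul] at h1
    exact h1.trans (mul_le_mul_of_nonneg_right hcard (hd φ0 hφ0).1)
  have hdm : C0 ≤ d φ0 := by
    by_contra hlt
    push Not at hlt
    have h1 : U ≤ C0 * t := by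
      have : t * d φ0 ≤ t * C0 := mul_le_mul_of_nonneg_left hlt.le (by linarith)
      linarith [mul_comm t C0]
    have h2 := cf_key U C0 t a b c habc hU1 hC0pos.le htc h1
    have h3 : U ≤ U ^ a := le_self_pow₀ hU1 ha
    linarith
  rw [hC0] at hdm
  obtain ⟨M, hMM, hMd, hdM⟩ := cf_exists_level (d φ0) M2 n1 hn1 hdm
  have hMn1 : n1 ≤ M := by omega
  have hMC : C' < M := by omega
  have hM0 : 0 < M := by omega
  have hdM9 : d φ0 ≤ 9 * (M : ℝ) ^ n1 := by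
    have h1 := cf_pow_succ M n1 hMn1 hM0
    linarith
  have hM1' : (1 : ℝ) ≤ M := by exact_mod_cast hM0
  have hcore := core M (by omega) E iF iN x S d t hf hx hd ⟨φ0, hφ0, hMd⟩
  have hmin : ∀ φ ∈ S, d φ ≤ 9 * (M : ℝ) ^ n4 * min ((M : ℝ) ^ n2) (d φ) := by
    intro φ hφ
    exact cf_min M (d φ) n1 n2 n4 h12 hM1' (hd φ hφ).1 ((hmax φ hφ).trans hdM9)
  have hUle : U ≤ 9 * (M : ℝ) ^ n4 * ((2 * k + 10) * t * (M : ℝ) ^ n3) := by
    calc U = ∑ φ ∈ S, d φ := hU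
      _ ≤ ∑ φ ∈ S, 9 * (M : ℝ) ^ n4 * min ((M : ℝ) ^ n2) (d φ) := Finset.sum_le_sum hmin
      _ = 9 * (M : ℝ) ^ n4 * ∑ φ ∈ S, min ((M : ℝ) ^ n2) (d φ) := by rw [Finset.mul_sum]
      _ ≤ 9 * (M : ℝ) ^ n4 * ((2 * k + 10) * t * (M : ℝ) ^ n3) :=
        mul_le_mul_of_nonneg_left hcore (by positivity)
  have hUle' : U ≤ ((C : ℝ) * (M : ℝ) ^ m) * t := by
    have h1 : (M : ℝ) ^ m = (M : ℝ) ^ n4 * (M : ℝ) ^ n3 := by rw [← pow_add, h34]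
    rw [h1, hC]
    push_cast
    calc U ≤ 9 * (M : ℝ) ^ n4 * ((2 * k + 10) * t * (M : ℝ) ^ n3) := hUle
      _ = _ := by ring
  have h49 := cf_key U ((C : ℝ) * (M : ℝ) ^ m) t a b c habc hU1 (by positivity) htc hUle'
  rw [mul_pow, ← pow_mul] at h49
  have hdU : d φ0 ≤ U := by
    rw [hU]
    exact Finset.single_le_sum (fun φ hφ ↦ (hd φ hφ).1) hφ0
  have hMU : (M : ℝ) ^ n1 ≤ U := by
    have h0 : (0 : ℝ) ≤ (M : ℝ) ^ n1 := by positivity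
    linarith
  have h217 : (M : ℝ) ^ (n1 * a) ≤ U ^ a := by
    rw [pow_mul]
    exact pow_le_pow_left₀ (by positivity) hMU _
  have hfin : (M : ℝ) ^ e * (M : ℝ) ^ (m * c) ≤ (C : ℝ) ^ c * (M : ℝ) ^ (m * c) := by
    rw [← pow_add, hexp]
    exact h217.trans h49
  have hfin' : (M : ℝ) ^ e ≤ (C : ℝ) ^ c :=
    le_of_mul_le_mul_right hfin (by positivity)
  have h1 : (M : ℝ) ≤ (M : ℝ) ^ e := le_self_pow₀ hM1' he
  have h2 : ((C' : ℕ) : ℝ) = (C : ℝ) ^ c := by rw [hC']; push_cast; rfl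
  rw [← h2] at hfin'
  have h3 : (M : ℝ) ≤ (C' : ℝ) := h1.trans hfin'
  have h4 : M ≤ C' := by exact_mod_cast h3
  omega

end AZ

end S_H32_AZ_C

section S_H22_U2_Co

set_option autoImplicit false

namespace U2

open MvPolynomial CZ
open H32.T3 (nrm)

private lemma gen_J {k : ℕ} (P : Fin k → ℂ) (B : ℝ) (hB : B = 2 + ∑ i, ‖P i‖) (Nn : ℕ) (Z : ℝ)
    (hNn : 1 ≤ Nn) (hZ0 : 0 < Z) (hNZ : (Nn : ℝ) * (3 + Real.log B) < 2 * Z)
    (Λ : Type) [Fintype Λ] [DecidableEq Λ] (R : Type)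
    (W : R → Λ → MvPolynomial (Fin k) ℤ) (hcard : Real.log (Fintype.card Λ) ≤ Nn)
    (hW : ∀ s l, (W s l).totalDegree ≤ Nn ∧ nrm (W s l) ≤ Real.exp Nn)
    (hZ : ∀ c : Λ → ℂ, (∀ l, ‖c l‖ ≤ 1) → (∃ l, ‖c l‖ = 1) →
        ∃ s, Real.exp (-Z) ≤ ‖∑ l, c l * aeval P (W s l)‖)
    (Q : Fin k → ℂ) (hQ : ∀ i, ‖Q i - P i‖ ≤ Real.exp (-(3 * Z))) :
      ∃ J : Λ → R, (Matrix.of fun i l ↦ aeval Q (W (J i) l)).det ≠ 0 := by
  have hPs : ∀ i, ‖P i‖ ≤ ∑ i, ‖P i‖ := fun i =>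
    Finset.single_le_sum (f := fun i => ‖P i‖) (fun j _ => norm_nonneg _) (Finset.mem_univ i)
  have hB2 : 2 ≤ B := by
    rw [hB]
    have : 0 ≤ ∑ i, ‖P i‖ := Finset.sum_nonneg fun i _ => norm_nonneg _
    linarith
  have hB1 : 1 ≤ B := by linarith
  have hlB : 0 ≤ Real.log B := Real.log_nonneg hB1
  have hPB : ∀ i, ‖P i‖ ≤ B := fun i => by
    have := hPs i
    linarith
  obtain ⟨N, hNc⟩ : ∃ N : ℝ, (Nn : ℝ) = N := ⟨_, rfl⟩
  rw [hNc] at hNZ hcard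
  simp only [hNc] at hW
  have hN1 : 1 ≤ N := by rw [← hNc]; exact_mod_cast hNn
  have hN0 : 0 < N := by linarith
  have hδ1 : Real.exp (-(3 * Z)) ≤ 1 := Real.exp_le_one_iff.2 (by linarith)
  have hQB : ∀ i, ‖Q i‖ ≤ B := by
    intro i
    have h1 : ‖Q i‖ ≤ ‖Q i - P i‖ + ‖P i‖ := by
      have := norm_add_le (Q i - P i) (P i)
      rwa [sub_add_cancel] at this
    have h2 := hQ i
    have h3 := hPs i
    linarith
  apply exists_det_ne_zero (fun s l => aeval Q (W s l))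
  intro c hc
  by_contra hcon
  push Not at hcon
  have hne : ∃ l, c l ≠ 0 := Function.ne_iff.1 hc
  obtain ⟨l1, hl1⟩ := hne
  haveI : Nonempty Λ := ⟨l1⟩
  obtain ⟨l0, hl0⟩ := Finite.exists_max (fun l => ‖c l‖)
  have hm0 : 0 < ‖c l0‖ := lt_of_lt_of_le (norm_pos_iff.2 hl1) (hl0 l1)
  have hcn : ∀ l, ‖c l * ((‖c l0‖ : ℝ) : ℂ)⁻¹‖ = ‖c l‖ / ‖c l0‖ := by
    intro l
    rw [norm_mul, norm_inv, Complex.norm_real, norm_norm, div_eq_mul_inv]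
  obtain ⟨s, hs⟩ := hZ (fun l => c l * ((‖c l0‖ : ℝ) : ℂ)⁻¹)
    (fun l => by
      rw [hcn, div_le_one hm0]
      exact hl0 l)
    ⟨l0, by rw [hcn, div_self hm0.ne']⟩
  have h0 : ∑ l, (c l * ((‖c l0‖ : ℝ) : ℂ)⁻¹) * aeval Q (W s l) = 0 := by
    have e : ∀ l ∈ (Finset.univ : Finset Λ), (c l * ((‖c l0‖ : ℝ) : ℂ)⁻¹) * aeval Q (W s l) =
        (c l * aeval Q (W s l)) * ((‖c l0‖ : ℝ) : ℂ)⁻¹ := fun l _ => by ring
    rw [Finset.sum_congr rfl e, ← Finset.sum_mul, hcon s, zero_mul]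
  have hdiff : ‖∑ l, (c l * ((‖c l0‖ : ℝ) : ℂ)⁻¹) * aeval P (W s l)‖ ≤
      (Fintype.card Λ : ℝ) * (Real.exp N * (N * B ^ Nn * Real.exp (-(3 * Z)))) := by
    have e : ∑ l, (c l * ((‖c l0‖ : ℝ) : ℂ)⁻¹) * aeval P (W s l) =
        ∑ l, -((c l * ((‖c l0‖ : ℝ) : ℂ)⁻¹) * (aeval Q (W s l) - aeval P (W s l))) := by
      have e2 : ∀ l ∈ (Finset.univ : Finset Λ),
          -((c l * ((‖c l0‖ : ℝ) : ℂ)⁻¹) * (aeval Q (W s l) - aeval P (W s l))) =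
          (c l * ((‖c l0‖ : ℝ) : ℂ)⁻¹) * aeval P (W s l) -
            (c l * ((‖c l0‖ : ℝ) : ℂ)⁻¹) * aeval Q (W s l) := fun l _ => by ring
      rw [Finset.sum_congr rfl e2, Finset.sum_sub_distrib, h0, sub_zero]
    rw [e]
    have h1 := norm_sum_le (Finset.univ : Finset Λ)
      (fun l => -((c l * ((‖c l0‖ : ℝ) : ℂ)⁻¹) * (aeval Q (W s l) - aeval P (W s l))))
    refine h1.trans ?_
    have h2 : ∀ l ∈ (Finset.univ : Finset Λ),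
        ‖-((c l * ((‖c l0‖ : ℝ) : ℂ)⁻¹) * (aeval Q (W s l) - aeval P (W s l)))‖ ≤
        Real.exp N * (N * B ^ Nn * Real.exp (-(3 * Z))) := by
      intro l _
      rw [norm_neg, norm_mul, hcn]
      have g1 : ‖c l‖ / ‖c l0‖ ≤ 1 := by
        rw [div_le_one hm0]
        exact hl0 l
      have g2 := aeval_sub_le (W s l) Nn (hW s l).1 P Q B (Real.exp (-(3 * Z))) hB1 hPB hQB hQ
        (Real.exp_pos _).le
      rw [hNc] at g2
      have g3 : nrm (W s l) * (N * B ^ Nn * Real.exp (-(3 * Z))) ≤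
          Real.exp N * (N * B ^ Nn * Real.exp (-(3 * Z))) :=
        mul_le_mul_of_nonneg_right (hW s l).2 (by positivity)
      calc ‖c l‖ / ‖c l0‖ * ‖aeval Q (W s l) - aeval P (W s l)‖
          ≤ 1 * ‖aeval Q (W s l) - aeval P (W s l)‖ :=
            mul_le_mul_of_nonneg_right g1 (norm_nonneg _)
        _ = ‖aeval Q (W s l) - aeval P (W s l)‖ := one_mul _
        _ ≤ _ := g2.trans g3
    refine (Finset.sum_le_sum h2).trans (le_of_eq ?_)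
    rw [Finset.sum_const, Finset.card_univ, nsmul_eq_mul]
  have hL0 : 0 < (Fintype.card Λ : ℝ) := by exact_mod_cast Fintype.card_pos
  have hL : (Fintype.card Λ : ℝ) ≤ Real.exp N := (Real.log_le_iff_le_exp hL0).1 hcard
  have hNe : N ≤ Real.exp N := by
    have := Real.add_one_le_exp N
    linarith
  have hBe : B ^ Nn = Real.exp (N * Real.log B) := by
    rw [← hNc, mul_comm, Real.exp_mul, Real.exp_log (by linarith), Real.rpow_natCast]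
  have hbig : (Fintype.card Λ : ℝ) * (Real.exp N * (N * B ^ Nn * Real.exp (-(3 * Z)))) ≤
      Real.exp (N + N + N + N * Real.log B + -(3 * Z)) := by
    rw [hBe, Real.exp_add, Real.exp_add, Real.exp_add, Real.exp_add]
    have h1 : Real.exp N * (N * Real.exp (N * Real.log B) * Real.exp (-(3 * Z))) ≤
        Real.exp N * (Real.exp N * Real.exp (N * Real.log B) * Real.exp (-(3 * Z))) := by
      gcongr
    calc (Fintype.card Λ : ℝ) *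
          (Real.exp N * (N * Real.exp (N * Real.log B) * Real.exp (-(3 * Z))))
        ≤ Real.exp N *
          (Real.exp N * (Real.exp N * Real.exp (N * Real.log B) * Real.exp (-(3 * Z)))) := by
          exact mul_le_mul hL h1 (by positivity) (by positivity)
      _ = _ := by ring
  have hfin : Real.exp (N + N + N + N * Real.log B + -(3 * Z)) < Real.exp (-Z) := by
    apply Real.exp_lt_exp.2
    linarith
  linarith

private lemma gen_core {k : ℕ} (P : Fin k → ℂ) (B : ℝ) (hB : B = 2 + ∑ i, ‖P i‖) (Nn : ℕ)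
    (Z U T : ℝ) (hNn : 1 ≤ Nn) (hZ0 : 0 < Z) (hNZ : (Nn : ℝ) * (3 + Real.log B) < 2 * Z)
    (hTN : 4 * (Nn : ℝ) + 2 * Nn + Nn * Real.log B + 1 ≤ T)
    (Λ : Type) [Fintype Λ] (R : Type)
    (W : R → Λ → MvPolynomial (Fin k) ℤ) (hL0 : 0 < Fintype.card Λ)
    (hcard : Real.log (Fintype.card Λ) ≤ Nn)
    (hW : ∀ s l, (W s l).totalDegree ≤ Nn ∧ nrm (W s l) ≤ Real.exp Nn)
    (hZ : ∀ c : Λ → ℂ, (∀ l, ‖c l‖ ≤ 1) → (∃ l, ‖c l‖ = 1) →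
        ∃ s, Real.exp (-Z) ≤ ‖∑ l, c l * aeval P (W s l)‖)
    (hV : ∃ V : Submodule ℂ (Λ → ℂ), Fintype.card Λ ≤ 2 * Module.finrank ℂ V ∧
        ∀ c ∈ V, (∀ l, ‖c l‖ ≤ 1) → ∀ s,
          ‖∑ l, c l * aeval P (W s l)‖ ≤ Real.exp (-U))
    (E : Type) [Field E] [NumberField E] (x : Fin k → E) (S : Finset (E →+* ℂ))
    (d : (E →+* ℂ) → ℝ) (t : ℝ) (hEt : (Module.finrank ℚ E : ℝ) ≤ t) (hxt : ∀ i, hE (x i) ≤ t)
    (hS : ∀ φ ∈ S, 0 ≤ d φ ∧ ∀ i, ‖φ (x i) - P i‖ ≤ Real.exp (-d φ))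
    (hbig : ∃ φ ∈ S, 3 * Z ≤ d φ) :
      ∑ φ ∈ S, min U (d φ) ≤ (2 * k + 10) * t * T := by
  classical
  obtain ⟨φ0, hφ0, hd0⟩ := hbig
  obtain ⟨J, hJ⟩ := gen_J P B hB Nn Z hNn hZ0 hNZ Λ R W hcard hW hZ (fun i ↦ φ0 (x i))
    (fun i ↦ ((hS φ0 hφ0).2 i).trans (Real.exp_le_exp.2 (neg_le_neg hd0)))
  set D : MvPolynomial (Fin k) ℤ := (Matrix.of fun i l ↦ W (J i) l).det with hD
  have hφD : ∀ φ : E →+* ℂ, φ (aeval x D) =
      (Matrix.of fun i l ↦ aeval (fun i ↦ φ (x i)) (W (J i) l)).det := by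
    intro φ
    have h1 : aeval x D = (Matrix.of fun i l ↦ aeval x (W (J i) l)).det := by
      rw [hD, AlgHom.map_det]
      rfl
    rw [h1, RingHom.map_det]
    congr 1
    ext i l
    simp only [RingHom.mapMatrix_apply, Matrix.map_apply, Matrix.of_apply]
    exact ce_map_aeval φ x _
  have hDx : aeval x D ≠ 0 := by
    intro h0
    have h1 := hφD φ0
    rw [h0, map_zero] at h1
    exact hJ h1.symm
  have hD0 : D ≠ 0 := by
    intro h0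
    exact hDx (by rw [h0, map_zero])
  have hs0 : 0 ≤ ∑ i, ‖P i‖ := Finset.sum_nonneg fun i _ => norm_nonneg _
  have hB1 : 1 ≤ B := by rw [hB]; linarith
  have hPB : ∀ i, ‖P i‖ + 1 ≤ B := by
    intro i
    have := Finset.single_le_sum (f := fun i => ‖P i‖) (fun j _ => norm_nonneg _)
      (Finset.mem_univ i)
    rw [hB]
    linarith
  have hlB : 0 ≤ Real.log B := Real.log_nonneg hB1
  obtain ⟨V, hV1, hV2⟩ := hV
  have hlow : ∀ φ ∈ S, (Fintype.card Λ : ℝ) / 2 * min U (d φ)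
            - 2 * Fintype.card Λ * T ≤ -Real.log ‖φ (aeval x D)‖ := by
    intro φ hφ
    have h1 : (Matrix.of fun i l ↦ aeval (fun i ↦ φ (x i)) (W (J i) l)).det ≠ 0 := by
      rw [← hφD φ]
      exact (map_ne_zero φ).2 hDx
    have h2 := Ck_core P B T U (d φ) Nn Nn hB1 hPB hTN Λ R W hL0 hcard hW V hV1 hV2
      (fun i ↦ φ (x i)) (hS φ hφ).1 (hS φ hφ).2 J h1
    rw [← hφD φ] at h2
    exact h2
  have hDtd : D.totalDegree ≤ Fintype.card Λ * Nn :=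
    totalDegree_det_le _ _ (fun i j ↦ (hW _ _).1)
  have hli := liouville x D _ hDtd hDx S
  have hnrm : nrm D ≤ (Fintype.card Λ : ℝ) ^ Fintype.card Λ *
      Real.exp (Nn : ℝ) ^ Fintype.card Λ :=
    nrm_det_le _ _ (Real.exp_pos _).le (fun i j ↦ (hW _ _).2)
  have hnrm1 : 1 ≤ nrm D := H32.T3.one_le_nrm hD0
  have hlog0 : 0 ≤ Real.log (nrm D) := Real.log_nonneg hnrm1
  have hLpos : (0 : ℝ) < Fintype.card Λ := by exact_mod_cast hL0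
  have hlogD : Real.log (nrm D) ≤ Fintype.card Λ * (Nn : ℝ) + Fintype.card Λ * (Nn : ℝ) := by
    have h1 := Real.log_le_log (by linarith) hnrm
    rw [Real.log_mul (by positivity) (by positivity), Real.log_pow, Real.log_pow,
      Real.log_exp] at h1
    have h2 : (Fintype.card Λ : ℝ) * Real.log (Fintype.card Λ) ≤ Fintype.card Λ * (Nn : ℝ) :=
      mul_le_mul_of_nonneg_left hcard hLpos.le
    linarith
  have hcardS : ((S.card : ℕ) : ℝ) ≤ t := by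
    have h1 : S.card ≤ Module.finrank ℚ E := by
      rw [← NumberField.Embeddings.card E ℂ]
      exact Finset.card_le_univ S
    exact le_trans (by exact_mod_cast h1) hEt
  have hsum : ∑ i, hE (x i) ≤ (k : ℝ) * t := by
    calc ∑ i, hE (x i) ≤ ∑ _i : Fin k, t := Finset.sum_le_sum fun i _ ↦ hxt i
      _ = (k : ℝ) * t := by simp
  have hsl : (Fintype.card Λ : ℝ) / 2 * ∑ φ ∈ S, min U (d φ)
      - (S.card : ℝ) * (2 * Fintype.card Λ * T) ≤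
      -∑ φ ∈ S, Real.log ‖φ (aeval x D)‖ := by
    rw [← Finset.sum_neg_distrib]
    refine le_trans (le_of_eq ?_) (Finset.sum_le_sum hlow)
    rw [Finset.sum_sub_distrib, ← Finset.mul_sum, Finset.sum_const, nsmul_eq_mul]
  have hN0 : (0 : ℝ) ≤ Nn := Nat.cast_nonneg _
  have hNB : 0 ≤ (Nn : ℝ) * Real.log B := mul_nonneg hN0 hlB
  have hNT : (Nn : ℝ) ≤ T := by linarith
  have hT : 0 ≤ T := by linarith
  have hfin := hsl.trans hli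
  push_cast at hfin
  exact ce_arith (Fintype.card Λ : ℝ) t (∑ i, hE (x i)) T (Real.log (nrm D))
    (Nn : ℝ) Nn k _ (Module.finrank ℚ E) (S.card : ℝ) hLpos (by positivity) hEt hcardS
    hNT hNT (by positivity) hT hN0 hlog0 hlogD hsum hfin

theorem core_gen {k : ℕ} (P : Fin k → ℂ) : ∃ C : ℕ, 1 ≤ C ∧ ∀ τ X U : ℝ, (C : ℝ) ≤ τ →
    C * τ ≤ X → 0 ≤ U →
    ∀ (Λ : Type) (_ : Fintype Λ) (R : Type) (W : R → Λ → MvPolynomial (Fin k) ℤ),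
      0 < Fintype.card Λ → Real.log (Fintype.card Λ) ≤ τ →
      (∀ s l, ((W s l).totalDegree : ℝ) ≤ τ ∧ nrm (W s l) ≤ Real.exp τ) →
      (∀ c : Λ → ℂ, (∀ l, ‖c l‖ ≤ 1) → (∃ l, ‖c l‖ = 1) →
        ∃ s, Real.exp (-X) ≤ ‖∑ l, c l * aeval P (W s l)‖) →
      (∃ V : Submodule ℂ (Λ → ℂ), Fintype.card Λ ≤ 2 * Module.finrank ℂ V ∧
        ∀ c ∈ V, (∀ l, ‖c l‖ ≤ 1) → ∀ s,
          ‖∑ l, c l * aeval P (W s l)‖ ≤ Real.exp (-U)) →
    ∀ (E : Type) (_ : Field E) (_ : NumberField E) (x : Fin k → E) (S : Finset (E →+* ℂ))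
      (d : (E →+* ℂ) → ℝ) (t : ℝ), (Module.finrank ℚ E : ℝ) ≤ t → (∀ i, hE (x i) ≤ t) →
      (∀ φ ∈ S, 0 ≤ d φ ∧ ∀ i, ‖φ (x i) - P i‖ ≤ Real.exp (-d φ)) →
      (∃ φ ∈ S, 3 * X ≤ d φ) →
      ∑ φ ∈ S, min U (d φ) ≤ C * t * τ := by
  obtain ⟨B, hB⟩ : ∃ B : ℝ, B = 2 + ∑ i, ‖P i‖ := ⟨_, rfl⟩
  have hs0 : 0 ≤ ∑ i, ‖P i‖ := Finset.sum_nonneg fun i _ => norm_nonneg _
  have hB1 : 1 ≤ B := by rw [hB]; linarith
  have hlB : 0 ≤ Real.log B := Real.log_nonneg hB1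
  obtain ⟨C, hC⟩ : ∃ C : ℕ, (2 * (k : ℝ) + 10) * (2 * (7 + Real.log B)) ≤ C :=
    exists_nat_ge _
  have hk0 : (0 : ℝ) ≤ k := Nat.cast_nonneg _
  have hC1 : 20 * (7 + Real.log B) ≤ C := by nlinarith [mul_nonneg hk0 hlB]
  have hC2 : (1 : ℝ) ≤ C := by linarith
  refine ⟨C, by exact_mod_cast hC2, ?_⟩
  intro τ X U hτ hX hU Λ _ R W hL0 hcard hW hZ hV E _ _ x S d t hEt hxt hS hbig
  have hτ1 : 1 ≤ τ := hC2.trans hτ
  have hNle : τ ≤ (⌈τ⌉₊ : ℝ) := Nat.le_ceil τ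
  have hNlt : (⌈τ⌉₊ : ℝ) < τ + 1 := Nat.ceil_lt_add_one (by linarith)
  have hN2 : (⌈τ⌉₊ : ℝ) ≤ 2 * τ := by linarith
  have hNn : 1 ≤ ⌈τ⌉₊ := by
    have : (1 : ℝ) ≤ (⌈τ⌉₊ : ℝ) := hτ1.trans hNle
    exact_mod_cast this
  have hX0 : 0 < X := by nlinarith
  have hNZ : ((⌈τ⌉₊ : ℕ) : ℝ) * (3 + Real.log B) < 2 * X := by
    have h1 : ((⌈τ⌉₊ : ℕ) : ℝ) * (3 + Real.log B) ≤ 2 * τ * (3 + Real.log B) :=
      mul_le_mul_of_nonneg_right hN2 (by linarith)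
    have h2 : 2 * τ * (3 + Real.log B) < 2 * (C * τ) := by nlinarith
    linarith
  have hTN : 4 * ((⌈τ⌉₊ : ℕ) : ℝ) + 2 * (⌈τ⌉₊ : ℕ) + (⌈τ⌉₊ : ℕ) * Real.log B + 1 ≤
      2 * (7 + Real.log B) * τ := by
    have h1 : ((⌈τ⌉₊ : ℕ) : ℝ) * Real.log B ≤ 2 * τ * Real.log B :=
      mul_le_mul_of_nonneg_right hN2 hlB
    linarith
  have hW' : ∀ s l, (W s l).totalDegree ≤ ⌈τ⌉₊ ∧ nrm (W s l) ≤ Real.exp ((⌈τ⌉₊ : ℕ) : ℝ) := by
    intro s l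
    obtain ⟨h1, h2⟩ := hW s l
    exact ⟨by exact_mod_cast h1.trans hNle, h2.trans (Real.exp_le_exp.2 hNle)⟩
  have key := gen_core P B hB ⌈τ⌉₊ X U (2 * (7 + Real.log B) * τ) hNn hX0 hNZ hTN Λ R W hL0
    (hcard.trans hNle) hW' hZ hV E x S d t hEt hxt hS hbig
  refine key.trans ?_
  have ht0 : 0 ≤ t := le_trans (Nat.cast_nonneg _) hEt
  calc (2 * (k : ℝ) + 10) * t * (2 * (7 + Real.log B) * τ)
      = ((2 * (k : ℝ) + 10) * (2 * (7 + Real.log B))) * (t * τ) := by ring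
    _ ≤ C * (t * τ) := mul_le_mul_of_nonneg_right hC (by positivity)
    _ = C * t * τ := by ring

end U2

end S_H22_U2_Co

section S_H22_U2_Co2

set_option autoImplicit false

namespace U2

open MvPolynomial CZ
open H32.T3 (nrm)

theorem sum_le {k : ℕ} (P : Fin k → ℂ) (C : ℕ) (hC : 1 ≤ C) : ∃ C1 C2 : ℕ, 1 ≤ C1 ∧ C1 ≤ C2 ∧
    ∀ N Q : ℕ, 1 ≤ N → C2 ≤ Q → Dat P C N Q →
    ∀ (E : Type) (_ : Field E) (_ : NumberField E) (x : Fin k → E) (S : Finset (E →+* ℂ))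
      (d : (E →+* ℂ) → ℝ) (t : ℝ), (Module.finrank ℚ E : ℝ) ≤ t → (∀ i, hE (x i) ≤ t) →
      (∀ φ ∈ S, 0 ≤ d φ ∧ ∀ i, ‖φ (x i) - P i‖ ≤ Real.exp (-d φ)) →
      (∃ φ ∈ S, C1 * N * (Q : ℝ) ^ 2 ≤ d φ) → (∀ φ ∈ S, d φ ≤ 64 * (C1 * N * (Q : ℝ) ^ 2)) →
      ∑ φ ∈ S, d φ ≤ C2 * t * (Q * Real.log (Q + 2)) := by
  obtain ⟨Cc, hCc, hcore⟩ := core_gen P
  have hc12 : 6 * Cc * C ≤ 64 * (6 * Cc * C) * C ^ 2 * Cc := by
    have h1 : 1 ≤ C ^ 2 * Cc := Nat.one_le_iff_ne_zero.2 (by positivity)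
    calc 6 * Cc * C = (6 * Cc * C) * 1 := (mul_one _).symm
      _ ≤ (6 * Cc * C) * (64 * (C ^ 2 * Cc)) := Nat.mul_le_mul_left _ (by omega)
      _ = _ := by ring
  have hcc2 : Cc ≤ 6 * Cc * C := by
    calc Cc = Cc * 1 := (mul_one _).symm
      _ ≤ Cc * (6 * C) := Nat.mul_le_mul_left _ (by omega)
      _ = _ := by ring
  refine ⟨6 * Cc * C, 64 * (6 * Cc * C) * C ^ 2 * Cc, by omega, hc12, ?_⟩
  intro N Q hN hQ hD E iF iN x S d t hfin hh hS hbig hsm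
  obtain ⟨Λ, iΛ, R, W, hcard, hlog, hW, hlow, hup⟩ := hD
  have hQc : Cc ≤ Q := hcc2.trans (hc12.trans hQ)
  have hCr : (1 : ℝ) ≤ C := by exact_mod_cast hC
  have hCcr : (1 : ℝ) ≤ Cc := by exact_mod_cast hCc
  have hNr : (1 : ℝ) ≤ N := by exact_mod_cast hN
  have hQcr : (Cc : ℝ) ≤ Q := by exact_mod_cast hQc
  have hQ1 : (1 : ℝ) ≤ Q := hCcr.trans hQcr
  have hQ0 : (0 : ℝ) < Q := by linarith
  have hC0 : (0 : ℝ) < C := by linarith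
  obtain ⟨L, hL⟩ : ∃ L : ℝ, L = Real.log (Q + 2) := ⟨_, rfl⟩
  have hL1 : 1 ≤ L := by
    rw [hL, Real.le_log_iff_exp_le (by linarith)]
    exact (Real.exp_one_lt_d9.le.trans (by norm_num : (2.7182818286 : ℝ) ≤ 3)).trans (by linarith)
  have hL2 : L ≤ 2 * Q := by
    rw [hL]
    have := Real.log_le_sub_one_of_pos (show (0 : ℝ) < Q + 2 by linarith)
    linarith
  rw [← hL] at hlog hW ⊢
  obtain ⟨X, hX⟩ : ∃ X : ℝ, X = 2 * Cc * C * N * (Q : ℝ) ^ 2 := ⟨_, rfl⟩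
  obtain ⟨U, hU⟩ : ∃ U : ℝ, U = N * (Q : ℝ) ^ 2 / C := ⟨_, rfl⟩
  have hU0 : 0 ≤ U := by rw [hU]; positivity
  have hCU : C * U = N * (Q : ℝ) ^ 2 := by
    rw [hU]
    field_simp
  have ht1 : (Cc : ℝ) ≤ C * Q * L := by
    have h1 : (Q : ℝ) ≤ C * Q := le_mul_of_one_le_left hQ0.le hCr
    have h2 : C * (Q : ℝ) ≤ C * Q * L := le_mul_of_one_le_right (by positivity) hL1
    linarith
  have ht2 : Cc * (C * Q * L) ≤ X := by
    have h1 : (Q : ℝ) * L ≤ Q * (2 * (N * Q)) := by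
      refine mul_le_mul_of_nonneg_left ?_ hQ0.le
      have h3 : (Q : ℝ) ≤ N * Q := le_mul_of_one_le_left hQ0.le hNr
      linarith
    have h2 : Cc * (C * Q * L) = (Cc * C : ℝ) * (Q * L) := by ring
    rw [h2, hX]
    have h3 : (Cc * C : ℝ) * (Q * L) ≤ (Cc * C : ℝ) * (Q * (2 * (N * Q))) :=
      mul_le_mul_of_nonneg_left h1 (by positivity)
    refine h3.trans (le_of_eq ?_)
    ring
  have hXl : C * N * (Q : ℝ) ^ 2 ≤ X := by
    have h1 : (1 : ℝ) ≤ 2 * Cc := by linarith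
    have h2 : C * N * (Q : ℝ) ^ 2 ≤ 2 * Cc * (C * N * (Q : ℝ) ^ 2) :=
      le_mul_of_one_le_left (by positivity) h1
    rw [hX]
    refine h2.trans (le_of_eq ?_)
    ring
  have h3X : (6 * Cc * C : ℕ) * N * (Q : ℝ) ^ 2 = 3 * X := by
    rw [hX]
    push_cast
    ring
  rw [h3X] at hbig hsm
  have key := hcore (C * Q * L) X U ht1 ht2 hU0 Λ iΛ R W hcard hlog hW (fun c hc1 hc2 => by
      obtain ⟨s, hs⟩ := hlow c hc1 hc2
      exact ⟨s, (Real.exp_le_exp.2 (neg_le_neg hXl)).trans hs⟩) (by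
      rw [hU]
      exact hup) E iF iN x S d t hfin hh hS hbig
  have hB : (1 : ℝ) ≤ 64 * (6 * Cc * C) * C := by
    have h1 : (1 : ℝ) ≤ Cc * C := one_le_mul_of_one_le_of_one_le hCcr hCr
    have h2 : (1 : ℝ) ≤ Cc * C * C := one_le_mul_of_one_le_of_one_le h1 hCr
    nlinarith
  have hterm : ∀ φ ∈ S, d φ ≤ 64 * (6 * Cc * C) * C * min U (d φ) := by
    intro φ hφ
    have h1 := (hS φ hφ).1
    have h2 := hsm φ hφ
    rcases le_total U (d φ) with h3 | h3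
    · rw [min_eq_left h3]
      have h4 : 64 * (6 * Cc * C) * C * U = 64 * (6 * Cc * C) * (C * U) := by ring
      rw [h4, hCU]
      refine h2.trans (le_of_eq ?_)
      rw [hX]
      ring
    · rw [min_eq_right h3]
      exact le_mul_of_one_le_left h1 hB
  refine (Finset.sum_le_sum hterm).trans ?_
  rw [← Finset.mul_sum]
  refine (mul_le_mul_of_nonneg_left key (by positivity)).trans (le_of_eq ?_)
  push_cast
  ring

end U2

end S_H22_U2_Co2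

section S_H22_U2_Hyp

set_option autoImplicit false

namespace U2

open Complex Finset

variable {z : ℂ} (b : CZ.BaseFn z)

theorem Hyp_log {E Q : ℕ} (hE : 1 ≤ E) (hQ : 1024 * E ^ 2 ≤ Q) :
    (E : ℝ) * Real.log ((Q : ℝ) + 2) ^ 2 ≤ Q := by
  have hE' : (1 : ℝ) ≤ E := by exact_mod_cast hE
  have hQ' : 1024 * (E : ℝ) ^ 2 ≤ Q := by exact_mod_cast hQ
  have hQ1 : (1 : ℝ) ≤ Q := by nlinarith
  have hx : (0 : ℝ) ≤ (Q : ℝ) + 2 := by linarith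
  obtain ⟨s, hs⟩ : ∃ s, s = Real.sqrt ((Q : ℝ) + 2) := ⟨_, rfl⟩
  obtain ⟨t, ht⟩ : ∃ t, t = Real.sqrt s := ⟨_, rfl⟩
  have hs0 : 0 ≤ s := by
    rw [hs]
    exact Real.sqrt_nonneg _
  have ht0 : 0 ≤ t := by
    rw [ht]
    exact Real.sqrt_nonneg _
  have hs2 : s ^ 2 = (Q : ℝ) + 2 := by
    rw [hs]
    exact Real.sq_sqrt hx
  have ht2 : t ^ 2 = s := by
    rw [ht]
    exact Real.sq_sqrt hs0
  have hs1 : 1 ≤ s := by nlinarith
  have ht1 : 1 ≤ t := by nlinarith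
  have hlog : Real.log ((Q : ℝ) + 2) = 4 * Real.log t := by
    rw [← hs2, ← ht2, ← pow_mul, Real.log_pow]
    norm_num
  have h1 : Real.log t ≤ t := by
    have := Real.log_le_sub_one_of_pos (by linarith : 0 < t)
    linarith
  have h0 : 0 ≤ Real.log t := Real.log_nonneg ht1
  have h2 : Real.log ((Q : ℝ) + 2) ^ 2 ≤ 16 * s := by
    rw [hlog, ← ht2]
    nlinarith
  obtain ⟨w, hw⟩ : ∃ w, w = Real.sqrt (Q : ℝ) := ⟨_, rfl⟩
  have hw0 : 0 ≤ w := by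
    rw [hw]
    exact Real.sqrt_nonneg _
  have hw2 : w ^ 2 = (Q : ℝ) := by
    rw [hw]
    exact Real.sq_sqrt (by linarith)
  have h3 : s ≤ 2 * w := by
    have h4 : s ^ 2 ≤ (2 * w) ^ 2 := by nlinarith
    exact (pow_le_pow_iff_left₀ hs0 (by linarith) two_ne_zero).1 h4
  have h5 : 32 * (E : ℝ) ≤ w := by
    have h6 : (32 * (E : ℝ)) ^ 2 ≤ w ^ 2 := by nlinarith
    exact (pow_le_pow_iff_left₀ (by linarith) hw0 two_ne_zero).1 h6
  calc (E : ℝ) * Real.log ((Q : ℝ) + 2) ^ 2 ≤ E * (16 * s) :=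
        mul_le_mul_of_nonneg_left h2 (by linarith)
    _ ≤ E * (16 * (2 * w)) := mul_le_mul_of_nonneg_left (by linarith) (by linarith)
    _ = (32 * E) * w := by ring
    _ ≤ w * w := mul_le_mul_of_nonneg_right h5 hw0
    _ = Q := by rw [← hw2]; ring

theorem Hyp_lg {Q : ℕ} {y : ℝ} (k : ℕ) (hy : 0 < y) (h : y ≤ ((Q : ℝ) + 2) ^ k) :
    Real.log y ≤ k * Real.log ((Q : ℝ) + 2) := by
  rw [← Real.log_pow]
  exact Real.log_le_log hy h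

theorem Hyp_one_le_log {y : ℝ} (h : 3 ≤ y) : 1 ≤ Real.log y := by
  rw [Real.le_log_iff_exp_le (by linarith)]
  have := Real.exp_one_lt_d9
  linarith

theorem Hyp_c {c E q l : ℝ} (hc : c ≤ E) (h : E * l ^ 2 ≤ q) (hq : 0 ≤ q) :
    c * (q * l ^ 2) ≤ q ^ 2 := by
  have h1 : c * l ^ 2 ≤ q := (mul_le_mul_of_nonneg_right hc (sq_nonneg l)).trans h
  calc c * (q * l ^ 2) = (c * l ^ 2) * q := by ring
    _ ≤ q * q := mul_le_mul_of_nonneg_right h1 hq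
    _ = q ^ 2 := by ring

theorem Hyp_A {Cf D q l A : ℝ} (hCf : 0 ≤ Cf) (hD : D ≤ q) (hl : 0 ≤ l)
    (hA : A = Cf * (D + q) * l) : A ≤ 2 * Cf * q * l := by
  rw [hA]
  have h1 : Cf * (D + q) ≤ 2 * Cf * q := by nlinarith
  exact mul_le_mul_of_nonneg_right h1 hl

theorem Hyp_torus {z : ℂ} (hz : 0 < z.im) {Cy : ℕ} (hCy : 2 * Real.pi / z.im ≤ Cy) (T : ℕ)
    (F : ℂ → ℂ → ℂ) (e : ℝ) (x1 x2 : ℂ) (h1 : ‖x1‖ = 1) (h2 : ‖x2‖ = 1)
    (h : Nw z T F x1 x2 ≤ Real.exp e) : ‖F x1 x2‖ ≤ Real.exp (e + Cy * T) := by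
  have hT : (0 : ℝ) ≤ T := Nat.cast_nonneg T
  have hP : 0 ≤ Real.pi * T / z.im := div_nonneg (mul_nonneg Real.pi_pos.le hT) hz.le
  have i1 : x1.im ^ 2 ≤ 1 := by
    have h3 := Complex.abs_im_le_norm x1
    rw [h1] at h3
    have h4 := abs_le.1 h3
    nlinarith
  have i2 : x2.im ^ 2 ≤ 1 := by
    have h3 := Complex.abs_im_le_norm x2
    rw [h2] at h3
    have h4 := abs_le.1 h3
    nlinarith
  have h5 : Real.pi * T / z.im * (x1.im ^ 2 + x2.im ^ 2) ≤ Cy * T := by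
    calc Real.pi * T / z.im * (x1.im ^ 2 + x2.im ^ 2) ≤ Real.pi * T / z.im * 2 :=
          mul_le_mul_of_nonneg_left (by linarith) hP
      _ = 2 * Real.pi / z.im * T := by ring
      _ ≤ Cy * T := mul_le_mul_of_nonneg_right hCy hT
  unfold Nw at h
  have h6 : ‖F x1 x2‖ = ‖F x1 x2‖ * Real.exp (-(Real.pi * T / z.im * (x1.im ^ 2 + x2.im ^ 2))) *
      Real.exp (Real.pi * T / z.im * (x1.im ^ 2 + x2.im ^ 2)) := by
    rw [mul_assoc, ← Real.exp_add, neg_add_cancel, Real.exp_zero, mul_one]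
  rw [h6, Real.exp_add]
  exact mul_le_mul h (Real.exp_le_exp.2 h5) (Real.exp_pos _).le (Real.exp_pos _).le

theorem Hyp_q {C n k lg q : ℝ} (hC : 1 ≤ C) (hn : 1 ≤ n) (hk : 0 ≤ k) (hlg : 1 ≤ lg)
    (h : C * n * (k + n) ^ 2 * lg ≤ q) :
    C * (n * n) ≤ q ∧ C ≤ q ∧ C * n ≤ q ∧ n ≤ q ∧ 1 ≤ q := by
  have h0 : n ≤ n * n := by nlinarith
  have h1 : n ≤ (k + n) ^ 2 := by nlinarith
  have h2 : C * n * n ≤ C * n * (k + n) ^ 2 := mul_le_mul_of_nonneg_left h1 (by positivity)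
  have h3 : C * n * (k + n) ^ 2 * 1 ≤ C * n * (k + n) ^ 2 * lg :=
    mul_le_mul_of_nonneg_left hlg (by positivity)
  have h4 : C * (n * n) ≤ q := by linarith
  have h5 : C * n ≤ C * (n * n) := mul_le_mul_of_nonneg_left h0 (by linarith)
  have h6 : C * 1 ≤ C * n := mul_le_mul_of_nonneg_left hn (by linarith)
  have h7 : 1 * n ≤ C * n := mul_le_mul_of_nonneg_right hC (by linarith)
  exact ⟨h4, by linarith, by linarith, by linarith, by linarith⟩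

theorem Hyp_sq2 {q n : ℝ} (hn : n ≤ q) (hq : 1 ≤ q) : q * n + 2 ≤ (q + 2) ^ 2 := by
  have h1 : q * n ≤ q * q := mul_le_mul_of_nonneg_left hn (by linarith)
  nlinarith

theorem Hyp_sq3 {c q n : ℝ} (hc : c ≤ q) (hn : n ≤ q) (hq : 1 ≤ q) (hn0 : 0 ≤ n) :
    c * q * n + 2 ≤ (q + 2) ^ 3 := by
  have h1 : c * q ≤ q * q := mul_le_mul_of_nonneg_right hc (by linarith)
  have h2 : c * q * n ≤ q * q * q := mul_le_mul h1 hn hn0 (by positivity)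
  nlinarith [sq_nonneg q]

theorem Hyp_sq4 {q c : ℝ} (hc : c ≤ q) (hq : 1 ≤ q) : q + c + 2 ≤ (q + 2) ^ 2 := by
  nlinarith

theorem Hyp_cAl {c A lg Cf q l k : ℝ} (hc : 0 ≤ c) (hA0 : 0 ≤ A) (hA2 : A ≤ 2 * Cf * q * l)
    (hlg : lg ≤ k * l) (hl : 0 ≤ l) (hk : 0 ≤ k) : c * A * lg ≤ 2 * k * c * Cf * (q * l ^ 2) := by
  calc c * A * lg ≤ c * A * (k * l) := mul_le_mul_of_nonneg_left hlg (mul_nonneg hc hA0)
    _ ≤ c * (2 * Cf * q * l) * (k * l) :=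
        mul_le_mul_of_nonneg_right (mul_le_mul_of_nonneg_left hA2 hc) (mul_nonneg hk hl)
    _ = 2 * k * c * Cf * (q * l ^ 2) := by ring

theorem Hyp_r1 {P c A lg q l W E Cf : ℝ} (hP : 1 ≤ P) (hc : 0 ≤ c) (hA0 : 0 ≤ A)
    (hA2 : A ≤ 2 * Cf * q * l) (hlg : lg ≤ 2 * l) (hl : 0 ≤ l) (hE : 128 * P * c * Cf ≤ E)
    (hlog : E * l ^ 2 ≤ q) (hq : 0 ≤ q) (hW : q ^ 2 ≤ W) :
    -(W / (16 * P)) + c * A * lg ≤ -(W / (32 * P)) := by
  have e3 := Hyp_cAl hc hA0 hA2 hlg hl (by norm_num)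
  have e4 := Hyp_c hE hlog hq
  have e5 : 2 * 2 * c * Cf * (q * l ^ 2) ≤ W / (32 * P) := by
    rw [le_div_iff₀ (by linarith)]
    calc 2 * 2 * c * Cf * (q * l ^ 2) * (32 * P) = 128 * P * c * Cf * (q * l ^ 2) := by ring
      _ ≤ W := e4.trans hW
  have e6 : W / (16 * P) = W / (32 * P) + W / (32 * P) := by
    field_simp
    ring
  rw [e6]
  linarith

theorem Hyp_r2 {P Cp Cf Cb Cs Cy E C q n l A W lg : ℝ} (hP : 1 ≤ P) (hCp : 0 ≤ Cp)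
    (hCf : 0 ≤ Cf) (hCb : 0 ≤ Cb) (hA0 : 0 ≤ A) (hA2 : A ≤ 2 * Cf * q * l)
    (hlg : lg ≤ 2 * Cb + 1) (hl : 1 ≤ l)
    (hE : 512 * P * Cp * Cf * (2 * Cb + 1) ≤ E) (hlog : E * l ^ 2 ≤ q) (hq : 1 ≤ q)
    (hW : q ^ 2 ≤ W) (hCn : C * n ≤ q) (hn : 0 ≤ n) (h128 : 128 * P ≤ C)
    (hC : 256 * P * (64 * Cp * Cs * Cb ^ 2 + 16 * Cs * Cy) ≤ C) :
    -(W / (32 * P) / 2) + Cp * A * lg + Cp * (16 * Cs * n) * (2 * Cb) ^ 2 + Cy * (16 * Cs * n) ≤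
      -(W / C) := by
  have hll : l ≤ l ^ 2 := by nlinarith
  have hqq : q ≤ q ^ 2 := by nlinarith
  have e2 : Cp * A * lg ≤ 2 * Cp * Cf * (2 * Cb + 1) * (q * l ^ 2) := by
    calc Cp * A * lg ≤ Cp * A * (2 * Cb + 1) :=
          mul_le_mul_of_nonneg_left hlg (mul_nonneg hCp hA0)
      _ ≤ Cp * (2 * Cf * q * l) * (2 * Cb + 1) :=
          mul_le_mul_of_nonneg_right (mul_le_mul_of_nonneg_left hA2 hCp) (by linarith)
      _ = 2 * Cp * Cf * (2 * Cb + 1) * q * l := by ring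
      _ ≤ 2 * Cp * Cf * (2 * Cb + 1) * q * l ^ 2 :=
          mul_le_mul_of_nonneg_left hll (by positivity)
      _ = 2 * Cp * Cf * (2 * Cb + 1) * (q * l ^ 2) := by ring
  have e3 := Hyp_c hE hlog (by linarith)
  have e4 : 2 * Cp * Cf * (2 * Cb + 1) * (q * l ^ 2) ≤ W / (256 * P) := by
    rw [le_div_iff₀ (by linarith)]
    calc 2 * Cp * Cf * (2 * Cb + 1) * (q * l ^ 2) * (256 * P) =
        512 * P * Cp * Cf * (2 * Cb + 1) * (q * l ^ 2) := by ring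
      _ ≤ W := e3.trans hW
  have e5 : Cp * (16 * Cs * n) * (2 * Cb) ^ 2 + Cy * (16 * Cs * n) ≤ W / (256 * P) := by
    rw [le_div_iff₀ (by linarith)]
    calc (Cp * (16 * Cs * n) * (2 * Cb) ^ 2 + Cy * (16 * Cs * n)) * (256 * P) =
        256 * P * (64 * Cp * Cs * Cb ^ 2 + 16 * Cs * Cy) * n := by ring
      _ ≤ C * n := mul_le_mul_of_nonneg_right hC hn
      _ ≤ W := by linarith
  have e6 : W / (32 * P) / 2 = W / (256 * P) + W / (256 * P) + W / (128 * P) := by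
    field_simp
    ring
  have e7 : W / C ≤ W / (128 * P) :=
    div_le_div_of_nonneg_left (by linarith) (by linarith) h128
  rw [e6]
  linarith

theorem Hyp_r3 {P c A lg q l W E Cf C6 G : ℝ} (hP : 1 ≤ P) (hc : 0 ≤ c) (hA0 : 0 ≤ A)
    (hA2 : A ≤ 2 * Cf * q * l) (hlg : lg ≤ 3 * l) (hl : 0 ≤ l) (hE : 6 * c * Cf ≤ E)
    (hlog : E * l ^ 2 ≤ q) (hq : 1 ≤ q) (hW : q ^ 2 ≤ W) (hG : 1 ≤ G) (hC6 : 64 * P * G ≤ C6) :
    -(C6 ^ 2 * W / (16 * P)) + c * A * lg ≤ -(C6 ^ 2 * W / (32 * P)) - 1 := by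
  have e3 := Hyp_cAl hc hA0 hA2 hlg hl (by norm_num)
  have e4 := Hyp_c hE hlog (by linarith)
  have hW1 : 1 ≤ W := by nlinarith
  have f4 : W + 1 ≤ C6 ^ 2 * W / (32 * P) := by
    rw [le_div_iff₀ (by linarith)]
    have h4 : 64 * P ≤ C6 := by nlinarith
    have h3 : 64 * P ≤ C6 ^ 2 := by nlinarith
    calc (W + 1) * (32 * P) ≤ (2 * W) * (32 * P) :=
          mul_le_mul_of_nonneg_right (by linarith) (by linarith)
      _ = 64 * P * W := by ring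
      _ ≤ C6 ^ 2 * W := mul_le_mul_of_nonneg_right h3 (by linarith)
  have f6 : C6 ^ 2 * W / (16 * P) = C6 ^ 2 * W / (32 * P) + C6 ^ 2 * W / (32 * P) := by
    field_simp
    ring
  have e5 : c * A * lg ≤ W := by
    refine e3.trans (le_trans (le_of_eq ?_) (e4.trans hW))
    ring
  rw [f6]
  linarith

theorem Hyp_r4 {P c q W C C6 : ℝ} (hP : 1 ≤ P) (hc : 0 ≤ c) (hC60 : 0 ≤ C6) (hqW : q ≤ W)
    (hW : 1 ≤ W) (hC : c * C6 + C6 ^ 2 + 1 ≤ C) :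
    c * (C6 * q) + -(C * W) ≤ -(C6 ^ 2 * W / (32 * P)) - 1 := by
  have f5 : C6 ^ 2 * W / (32 * P) ≤ C6 ^ 2 * W := div_le_self (by positivity) (by linarith)
  have h4 : (c * C6 + C6 ^ 2 + 1) * W ≤ C * W := mul_le_mul_of_nonneg_right hC (by linarith)
  have h5 : c * C6 * q ≤ c * C6 * W := mul_le_mul_of_nonneg_left hqW (by positivity)
  linarith

theorem Hyp_r5 {P Cp Cf Cs Cz E q n l A W lg C6 d : ℝ} (hP : 1 ≤ P) (hCp : 0 ≤ Cp)
    (hCs : 0 ≤ Cs) (hCz : 0 ≤ Cz) (hCzq : Cz ≤ q) (hA0 : 0 ≤ A) (hA2 : A ≤ 2 * Cf * q * l)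
    (hlg : lg ≤ 2 * l) (hl : 1 ≤ l) (hE : 4 * Cp * Cf ≤ E) (hEz : Cz ≤ E)
    (hlog : E * l ^ 2 ≤ q) (hq : 1 ≤ q) (hn : 1 ≤ n) (hW : W = n * q ^ 2)
    (hC60 : 1 ≤ C6) (hC6 : 64 * P * (64 * Cp * Cs + 8 * Cz * Cs + 3) ≤ C6) (hd : d = 8 * Cs * n) :
    -(C6 ^ 2 * W / (32 * P) / 2) + Cp * A * lg + Cp * (16 * Cs * n) * (q + Cz) ^ 2 <
      -(Cz * q * (d + l)) := by
  have hll : l ≤ l ^ 2 := by nlinarith
  have hqq : q ≤ q ^ 2 := by nlinarith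
  have hqW : q ^ 2 ≤ W := by
    rw [hW]
    nlinarith [sq_nonneg q]
  have hW1 : 1 ≤ W := by linarith
  have e1 : (64 * Cp * Cs + 8 * Cz * Cs + 3) * W ≤ C6 ^ 2 * W / (32 * P) / 2 := by
    rw [div_div, le_div_iff₀ (by linarith)]
    have h3 : 64 * P * (64 * Cp * Cs + 8 * Cz * Cs + 3) ≤ C6 ^ 2 := by nlinarith
    calc (64 * Cp * Cs + 8 * Cz * Cs + 3) * W * (32 * P * 2) =
        64 * P * (64 * Cp * Cs + 8 * Cz * Cs + 3) * W := by ring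
      _ ≤ C6 ^ 2 * W := mul_le_mul_of_nonneg_right h3 (by linarith)
  have e3 : Cp * A * lg ≤ W := by
    refine (Hyp_cAl hCp hA0 hA2 hlg (by linarith) (by norm_num)).trans
      (le_trans (le_of_eq ?_) ((Hyp_c hE hlog (by linarith)).trans hqW))
    ring
  have e4 : Cp * (16 * Cs * n) * (q + Cz) ^ 2 ≤ 64 * Cp * Cs * W := by
    have h3 : (q + Cz) ^ 2 ≤ (2 * q) ^ 2 := pow_le_pow_left₀ (by linarith) (by linarith) 2
    calc Cp * (16 * Cs * n) * (q + Cz) ^ 2 ≤ Cp * (16 * Cs * n) * (2 * q) ^ 2 :=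
          mul_le_mul_of_nonneg_left h3 (by positivity)
      _ = 64 * Cp * Cs * W := by
        rw [hW]
        ring
  have e5 : Cz * q * (d + l) ≤ (8 * Cz * Cs + 1) * W := by
    rw [hd]
    have h3 : Cz * (q * l ^ 2) ≤ q ^ 2 := Hyp_c hEz hlog (by linarith)
    have h5 : Cz * q * l ≤ Cz * q * l ^ 2 := mul_le_mul_of_nonneg_left hll (by positivity)
    have h6 : n * q ≤ W := by
      rw [hW]
      exact mul_le_mul_of_nonneg_left hqq (by linarith)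
    have h7 : 8 * Cz * Cs * (n * q) ≤ 8 * Cz * Cs * W := mul_le_mul_of_nonneg_left h6 (by positivity)
    linarith
  linarith

theorem hyp_ana (hz : 0 < z.im) : ∃ C0 C : ℕ, 1 ≤ C0 ∧ 1 ≤ C ∧ ∀ N K Q : ℕ, 1 ≤ N → COV z N K →
    C * N * ((K : ℝ) + N) ^ 2 * Real.log (((K : ℝ) + N) * N + 2) ≤ Q →
    (∃ V : Submodule ℂ (Ix (C0 * N) Q → ℂ),
      Fintype.card (Ix (C0 * N) Q) ≤ 2 * Module.finrank ℂ V ∧
      ∀ c ∈ V, (∀ l, ‖c l‖ ≤ 1) → ∀ a e : ℕ,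
        ‖JJ b (C0 * N) Q c a e‖ ≤ Real.exp (-(N * (Q : ℝ) ^ 2 / C))) ∧
    ∀ c : Ix (C0 * N) Q → ℂ, (∀ l, ‖c l‖ ≤ 1) → (∃ l, ‖c l‖ = 1) →
      ∃ a e : ℕ, a + e ≤ C * Q ∧ Real.exp (-(C * N * (Q : ℝ) ^ 2)) ≤ ‖JJ b (C0 * N) Q c a e‖ := by
  obtain ⟨Cs, Cs2, hCs, hCs2, hschw⟩ := schwarz hz
  obtain ⟨Cp, hCp, hspr⟩ := spread hz
  obtain ⟨Cf, hCf, hfd⟩ := fdat b hz
  obtain ⟨Cz, hCz, hze⟩ := ze b hz
  obtain ⟨Cb, hCb, hbet⟩ := bet_le z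
  obtain ⟨Cy, hCy⟩ := exists_nat_ge (2 * Real.pi / z.im)
  obtain ⟨E, hE0, hE1, hE2, hE3, hE4, hE5⟩ : ∃ E : ℕ, 1 ≤ E ∧ 128 * (Cs * Cs2) * Cs2 * Cf ≤ E ∧
      512 * (Cs * Cs2) * Cp * Cf * (2 * Cb + 1) ≤ E ∧ 6 * Cs2 * Cf ≤ E ∧ 4 * Cp * Cf ≤ E ∧
      Cz ≤ E :=
    ⟨1 + 128 * (Cs * Cs2) * Cs2 * Cf + 512 * (Cs * Cs2) * Cp * Cf * (2 * Cb + 1) + 6 * Cs2 * Cf +
      4 * Cp * Cf + Cz, by omega, by omega, by omega, by omega, by omega, by omega⟩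
  obtain ⟨C6, hC60, hC6⟩ : ∃ C6 : ℕ, 1 ≤ C6 ∧
      64 * (Cs * Cs2) * (64 * Cp * Cs + 8 * Cz * Cs + 3) ≤ C6 :=
    ⟨1 + 64 * (Cs * Cs2) * (64 * Cp * Cs + 8 * Cz * Cs + 3), by omega, by omega⟩
  obtain ⟨C, hC0, hC1, hC2, hC3, hC4, hC5, hC7, hC8, hC9, hC10⟩ : ∃ C : ℕ, 1 ≤ C ∧
      16 * (Cs * Cs2) ≤ C ∧ 16 * (Cs * Cs) ≤ C ∧ 8 * Cs ≤ C ∧ 1024 * E ^ 2 ≤ C ∧
      128 * (Cs * Cs2) ≤ C ∧ 256 * (Cs * Cs2) * (64 * Cp * Cs * Cb ^ 2 + 16 * Cs * Cy) ≤ C ∧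
      C6 + 1 ≤ C ∧ Cs2 * C6 + C6 ^ 2 + 1 ≤ C ∧ Cz ≤ C :=
    ⟨1 + 16 * (Cs * Cs2) + 16 * (Cs * Cs) + 8 * Cs + 1024 * E ^ 2 + 128 * (Cs * Cs2) +
      256 * (Cs * Cs2) * (64 * Cp * Cs * Cb ^ 2 + 16 * Cs * Cy) + (C6 + 1) +
      (Cs2 * C6 + C6 ^ 2 + 1) + Cz, by omega, by omega, by omega, by omega, by omega, by omega,
      by omega, by omega, by omega, by omega⟩
  refine ⟨8 * Cs, C, by omega, hC0, ?_⟩
  intro N K Q hN hcov hQ
  -- real versions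
  have rN : (1 : ℝ) ≤ N := by exact_mod_cast hN
  have rK : (0 : ℝ) ≤ K := Nat.cast_nonneg K
  have rCs : (1 : ℝ) ≤ Cs := by exact_mod_cast hCs
  have rCs2 : (1 : ℝ) ≤ Cs2 := by exact_mod_cast hCs.trans hCs2
  have rCs0 : (0 : ℝ) ≤ Cs := Nat.cast_nonneg Cs
  have rCs20 : (0 : ℝ) ≤ Cs2 := Nat.cast_nonneg Cs2
  have rCp0 : (0 : ℝ) ≤ Cp := Nat.cast_nonneg Cp
  have rCf0 : (0 : ℝ) ≤ Cf := Nat.cast_nonneg Cf
  have rCz0 : (0 : ℝ) ≤ Cz := Nat.cast_nonneg Cz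
  have rCb : (1 : ℝ) ≤ Cb := by exact_mod_cast hCb
  have rCb0 : (0 : ℝ) ≤ Cb := Nat.cast_nonneg Cb
  have rC6 : (1 : ℝ) ≤ C6 := by exact_mod_cast hC60
  have rC : (1 : ℝ) ≤ C := by exact_mod_cast hC0
  obtain ⟨P, hP⟩ : ∃ P : ℝ, P = Cs * Cs2 := ⟨_, rfl⟩
  have rP : 1 ≤ P := by
    rw [hP]
    exact one_le_mul_of_one_le_of_one_le rCs rCs2
  have rE1 : 128 * P * Cs2 * Cf ≤ (E : ℝ) := by
    rw [hP]
    exact_mod_cast hE1
  have rE2 : 512 * P * Cp * Cf * (2 * Cb + 1) ≤ (E : ℝ) := by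
    rw [hP]
    exact_mod_cast hE2
  have rE3 : 6 * (Cs2 : ℝ) * Cf ≤ (E : ℝ) := by exact_mod_cast hE3
  have rE4 : 4 * (Cp : ℝ) * Cf ≤ (E : ℝ) := by exact_mod_cast hE4
  have rE5 : (Cz : ℝ) ≤ (E : ℝ) := by exact_mod_cast hE5
  have rC6' : 64 * P * (64 * Cp * Cs + 8 * Cz * Cs + 3) ≤ (C6 : ℝ) := by
    rw [hP]
    exact_mod_cast hC6
  have rC1 : 16 * P ≤ (C : ℝ) := by
    rw [hP]
    exact_mod_cast hC1
  have rC2 : 16 * ((Cs : ℝ) * Cs) ≤ C := by exact_mod_cast hC2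
  have rC3 : 8 * (Cs : ℝ) ≤ C := by exact_mod_cast hC3
  have rC5 : 128 * P ≤ (C : ℝ) := by
    rw [hP]
    exact_mod_cast hC5
  have rC7 : 256 * P * (64 * Cp * Cs * Cb ^ 2 + 16 * Cs * Cy) ≤ (C : ℝ) := by
    rw [hP]
    exact_mod_cast hC7
  have rC8 : (C6 : ℝ) + 1 ≤ C := by exact_mod_cast hC8
  have rC9 : (Cs2 : ℝ) * C6 + C6 ^ 2 + 1 ≤ C := by exact_mod_cast hC9
  have rC10 : (Cz : ℝ) ≤ C := by exact_mod_cast hC10
  clear hE1 hE2 hE3 hE4 hE5 hC6 hC1 hC2 hC3 hC5 hC7 hC9 hC10 hCp hCf hCz hCb hC0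
  have hlg1 : 1 ≤ Real.log (((K : ℝ) + N) * N + 2) := by
    refine Hyp_one_le_log ?_
    have h1 : (1 : ℝ) * 1 ≤ ((K : ℝ) + N) * N :=
      mul_le_mul (by linarith only [rN, rK]) rN zero_le_one (by positivity)
    linarith only [h1]
  -- consequences of the hypothesis
  obtain ⟨hQ1, hQC, hQCN, rNQ, rQ⟩ := Hyp_q rC rN rK hlg1 hQ
  have rQ0 : (0 : ℝ) ≤ Q := Nat.cast_nonneg Q
  have rN0 : (0 : ℝ) ≤ N := Nat.cast_nonneg N
  have hQnat : 1 ≤ Q := by exact_mod_cast rQ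
  have hCQ : C ≤ Q := by exact_mod_cast hQC
  have hlog := Hyp_log hE0 (hC4.trans hCQ)
  clear hC4
  obtain ⟨l, hl⟩ : ∃ l, l = Real.log ((Q : ℝ) + 2) := ⟨_, rfl⟩
  rw [← hl] at hlog
  have l1 : 1 ≤ l := by
    rw [hl]
    exact Hyp_one_le_log (by linarith only [rQ])
  have l0 : 0 ≤ l := zero_le_one.trans l1
  obtain ⟨W, hW⟩ : ∃ W : ℝ, W = N * (Q : ℝ) ^ 2 := ⟨_, rfl⟩
  have hQW : (Q : ℝ) ^ 2 ≤ W := by
    rw [hW]
    exact le_mul_of_one_le_left (sq_nonneg _) rN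
  have hQQ : (Q : ℝ) ≤ (Q : ℝ) ^ 2 := le_self_pow₀ rQ two_ne_zero
  have hW1 : 1 ≤ W := rQ.trans (hQQ.trans hQW)
  have hW0 : 0 ≤ W := zero_le_one.trans hW1
  have hT : ((2 * (8 * Cs * N) : ℕ) : ℝ) = 16 * Cs * N := by
    push_cast
    ring
  have hD : ((8 * Cs * N : ℕ) : ℝ) = 8 * Cs * N := by push_cast; ring
  have hD1 : 1 ≤ 8 * Cs * N := Nat.mul_pos (Nat.mul_pos (by norm_num) hCs) hN
  have hDQ : ((8 * Cs * N : ℕ) : ℝ) ≤ Q := by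
    rw [hD]
    exact (mul_le_mul_of_nonneg_right rC3 rN0).trans hQCN
  have hS1 : Cs * (2 * (8 * Cs * N)) * N ≤ Q := by
    have h1 : ((Cs * (2 * (8 * Cs * N)) * N : ℕ) : ℝ) ≤ Q := by
      push_cast
      have h2 : 16 * ((Cs : ℝ) * Cs) * (N * N) ≤ C * (N * N) :=
        mul_le_mul_of_nonneg_right rC2 (by positivity)
      linarith only [h2, hQ1]
    exact_mod_cast h1
  obtain ⟨A, hA⟩ : ∃ A : ℝ, A = Cf * (((8 * Cs * N : ℕ) : ℝ) + Q) * l := ⟨_, rfl⟩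
  have hA0 : 0 ≤ A := by
    rw [hA]
    positivity
  have hA2 : A ≤ 2 * Cf * Q * l := Hyp_A rCf0 hDQ l0 hA
  have hschw' : ∀ S2 : ℕ, Q ≤ S2 → Cs2 * ((2 * (8 * Cs * N) : ℕ) : ℝ) * ((K + N : ℕ) : ℝ) ^ 2 *
      Real.log (((K + N : ℕ) : ℝ) * N + 2) ≤ S2 := by
    intro S2 hS2
    have h1 : (Q : ℝ) ≤ S2 := by exact_mod_cast hS2
    refine le_trans ?_ h1
    refine le_trans ?_ hQ
    rw [hT]
    push_cast
    have h2 : (Cs2 : ℝ) * (16 * Cs * N) ≤ C * N := by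
      have h3 : 16 * P * N ≤ C * N := mul_le_mul_of_nonneg_right rC1 rN0
      rw [hP] at h3
      linarith only [h3]
    have h4 : 0 ≤ ((K : ℝ) + N) ^ 2 := sq_nonneg _
    exact mul_le_mul_of_nonneg_right (mul_le_mul_of_nonneg_right h2 h4) (zero_le_one.trans hlg1)
  constructor
  · obtain ⟨V, hV1, hV2⟩ := dim_V b (8 * Cs * N) Q (Cs * (2 * (8 * Cs * N)) * N) Q (by
      have h1 : Cs * (2 * (8 * Cs * N)) * N + Q ≤ 2 * Q := by omega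
      calc 2 * (Cs * (2 * (8 * Cs * N)) * N * (Cs * (2 * (8 * Cs * N)) * N + Q))
          ≤ 2 * (Cs * (2 * (8 * Cs * N)) * N * (2 * Q)) :=
            Nat.mul_le_mul_left _ (Nat.mul_le_mul_left _ h1)
        _ = (8 * Cs * N) ^ 2 * Q := by ring
        _ ≤ (8 * Cs * N + 1) ^ 2 * Q :=
            Nat.mul_le_mul_right _ (Nat.pow_le_pow_left (Nat.le_succ _) 2))
    refine ⟨V, hV1, fun c hc hc1 => ?_⟩
    have hF := hfd (8 * Cs * N) Q hD1 hQnat c hc1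
    rw [← hl, ← hA] at hF
    have s1 : ∀ x1 x2, bet z x1 x2 = 0 →
        Nw z (2 * (8 * Cs * N)) (FF b (8 * Cs * N) Q c) x1 x2 ≤ Real.exp (-(W / (32 * P))) := by
      intro x1 x2 hx
      have h1 := hschw (2 * (8 * Cs * N)) N K (K + N) Q _ _ A (by omega) hN hQnat hA0 hF hcov
        (by omega) (by omega) (hschw' Q le_rfl) 0 le_rfl
        (fun a e h1 h2 => by rw [hV2 c hc a e h1 h2, norm_zero]) x1 x2 hx
      rw [mul_zero, add_zero] at h1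
      refine h1.trans (Real.exp_le_exp.2 ?_)
      rw [hT]
      have e1 : ((Q : ℝ) * N) ^ 2 / (Cs2 * (16 * Cs * N)) = W / (16 * P) := by
        rw [hW, hP]
        field_simp
      have e2 : Real.log ((Q : ℝ) * N + 2) ≤ 2 * l := by
        rw [hl]
        exact_mod_cast Hyp_lg (Q := Q) 2 (by positivity) (Hyp_sq2 rNQ rQ)
      rw [e1]
      exact Hyp_r1 rP rCs20 hA0 hA2 e2 l0 rE1 hlog rQ0 hQW
    intro a e
    have s2 := hspr (2 * (8 * Cs * N)) _ _ A (by omega) hA0 hF (W / (32 * P)) (2 * Cb)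
      (by positivity) (by linarith only [rCb]) s1
    have s3 : ∀ x1 x2 : ℂ, ‖x1‖ = 1 → ‖x2‖ = 1 → ‖FF b (8 * Cs * N) Q c x1 x2‖ ≤
        Real.exp (-(N * (Q : ℝ) ^ 2 / C)) := by
      intro x1 x2 h1 h2
      have h3 : |bet z x1 x2| ≤ 2 * Cb := by
        have := hbet x1 x2
        rw [h1, h2] at this
        linarith only [this]
      refine (Hyp_torus hz hCy _ _ _ x1 x2 h1 h2 (s2 x1 x2 h3)).trans (Real.exp_le_exp.2 ?_)
      rw [hT, ← hW]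
      have e1 : Real.log (2 * (Cb : ℝ) + 2) ≤ 2 * Cb + 1 := by
        have := Real.log_le_sub_one_of_pos (by linarith only [rCb] : (0 : ℝ) < 2 * Cb + 2)
        linarith only [this]
      exact Hyp_r2 rP rCp0 rCf0 rCb0 hA0 hA2 e1 l1 rE2 hlog rQ hQW hQCN rN0 rC5 rC7
    have s4 := cauchy2 _ _ hF.ser 1 _ one_pos s3 a e
    rw [one_pow, div_one] at s4
    exact s4
  · intro c hc1 hc2
    by_contra hcon
    push Not at hcon
    have hF := hfd (8 * Cs * N) Q hD1 hQnat c hc1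
    rw [← hl, ← hA] at hF
    have hC6Q : (C6 : ℝ) ≤ Q := by linarith only [rC8, hQC]
    have s1 : ∀ x1 x2, bet z x1 x2 = 0 →
        Nw z (2 * (8 * Cs * N)) (FF b (8 * Cs * N) Q c) x1 x2 ≤
          Real.exp (-((C6 : ℝ) ^ 2 * W / (32 * P))) := by
      intro x1 x2 hx
      have h0 : Q ≤ C6 * Q := Nat.le_mul_of_pos_left Q hC60
      have h1 := hschw (2 * (8 * Cs * N)) N K (K + N) (C6 * Q) _ _ A (by omega) hN
        (hQnat.trans h0) hA0 hF hcov (by omega) (by omega) (hschw' (C6 * Q) h0)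
        (Real.exp (-(C * N * (Q : ℝ) ^ 2))) (Real.exp_pos _).le
        (fun a e h1 h2 => (hcon a e (by
          have h3 : (C6 + 1) * Q ≤ C * Q := Nat.mul_le_mul_right Q hC8
          have h4 : (C6 + 1) * Q = C6 * Q + Q := by ring
          omega)).le) x1 x2 hx
      have f1 : (((C6 * Q : ℕ) : ℝ) * N) ^ 2 / (Cs2 * ((2 * (8 * Cs * N) : ℕ) : ℝ)) =
          (C6 : ℝ) ^ 2 * W / (16 * P) := by
        rw [hT, hW, hP]
        push_cast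
        field_simp
      have f2 : Real.log (((C6 * Q : ℕ) : ℝ) * N + 2) ≤ 3 * l := by
        rw [hl]
        have h3 : (0 : ℝ) < ((C6 * Q : ℕ) : ℝ) * N + 2 := by positivity
        have h4 : ((C6 * Q : ℕ) : ℝ) * N + 2 ≤ ((Q : ℝ) + 2) ^ 3 := by
          push_cast
          exact Hyp_sq3 hC6Q rNQ rQ rN0
        exact_mod_cast Hyp_lg (Q := Q) 3 h3 h4
      have g1 : Real.exp (-((((C6 * Q : ℕ) : ℝ) * N) ^ 2 /
          (Cs2 * ((2 * (8 * Cs * N) : ℕ) : ℝ))) + Cs2 * A *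
            Real.log (((C6 * Q : ℕ) : ℝ) * N + 2)) ≤
          Real.exp (-((C6 : ℝ) ^ 2 * W / (32 * P)) - 1) := by
        refine Real.exp_le_exp.2 ?_
        rw [f1]
        refine Hyp_r3 (G := 64 * Cp * Cs + 8 * Cz * Cs + 3) rP rCs20 hA0 hA2 f2 l0 rE3 hlog rQ
          hQW ?_ rC6'
        have h5 : 0 ≤ 64 * (Cp : ℝ) * Cs + 8 * Cz * Cs := by positivity
        linarith only [h5]
      have g2 : Real.exp (Cs2 * ((C6 * Q : ℕ) : ℝ)) * Real.exp (-(C * N * (Q : ℝ) ^ 2)) ≤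
          Real.exp (-((C6 : ℝ) ^ 2 * W / (32 * P)) - 1) := by
        rw [← Real.exp_add]
        refine Real.exp_le_exp.2 ?_
        push_cast
        have h3 : (C : ℝ) * N * (Q : ℝ) ^ 2 = C * W := by
          rw [hW]
          ring
        rw [h3]
        exact Hyp_r4 rP rCs20 (zero_le_one.trans rC6) (hQQ.trans hQW) hW1 rC9
      have g3 : Real.exp (-((C6 : ℝ) ^ 2 * W / (32 * P)) - 1) ≤
          Real.exp (-((C6 : ℝ) ^ 2 * W / (32 * P))) / 2 := by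
        rw [Real.exp_sub]
        refine div_le_div_of_nonneg_left (Real.exp_pos _).le (by norm_num) ?_
        have := Real.add_one_le_exp (1 : ℝ)
        linarith only [this]
      linarith only [h1, g1, g2, g3]
    obtain ⟨x1, x2, hx, hx'⟩ := hze (8 * Cs * N) Q hD1 hQnat c hc1 hc2
    have s2 := hspr (2 * (8 * Cs * N)) _ _ A (by omega) hA0 hF ((C6 : ℝ) ^ 2 * W / (32 * P))
      (Q + Cz) (by positivity) (by linarith only [rQ, rCz0]) s1 x1 x2 hx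
    have rCzQ : (Cz : ℝ) ≤ Q := rC10.trans hQC
    have e2 : Real.log ((Q : ℝ) + Cz + 2) ≤ 2 * l := by
      rw [hl]
      exact_mod_cast Hyp_lg (Q := Q) 2 (by positivity) (Hyp_sq4 rCzQ rQ)
    rw [← hl] at hx'
    have h9 := hx'.trans s2
    rw [Real.exp_le_exp, hT] at h9
    have h10 := Hyp_r5 rP rCp0 rCs0 rCz0 rCzQ hA0 hA2 e2 l1 rE4 rE5 hlog rQ rN hW rC6 rC6' hD
    linarith only [h9, h10]

end U2

end S_H22_U2_Hyp

section S_H22_U2_Dta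

set_option autoImplicit false

namespace U2

open MvPolynomial CZ
open H32.T3 (nrm)

/-- Consequences of the size hypothesis. -/
theorem dta_num {C N K Q c : ℕ} (hN : 1 ≤ N) (hc : c ≤ C)
    (h : C * N * ((K : ℝ) + N) ^ 2 * Real.log (((K : ℝ) + N) * N + 2) ≤ Q) :
    c * N * ((K : ℝ) + N) ^ 2 * Real.log (((K : ℝ) + N) * N + 2) ≤ Q ∧ c * N ≤ Q ∧ c ≤ Q := by
  have hN' : (1 : ℝ) ≤ N := by exact_mod_cast hN
  have hK' : (0 : ℝ) ≤ K := Nat.cast_nonneg K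
  have hc' : (c : ℝ) ≤ C := by exact_mod_cast hc
  have hc0 : (0 : ℝ) ≤ c := Nat.cast_nonneg c
  have h1 : (1 : ℝ) ≤ (K : ℝ) + N := by linarith
  have h2 : (1 : ℝ) ≤ ((K : ℝ) + N) ^ 2 := one_le_pow₀ h1
  have h3 : (1 : ℝ) ≤ ((K : ℝ) + N) * N := one_le_mul_of_one_le_of_one_le h1 hN'
  have h4 : (1 : ℝ) ≤ Real.log (((K : ℝ) + N) * N + 2) := by
    rw [← Real.log_exp 1]
    apply Real.log_le_log (Real.exp_pos 1)
    have := Real.exp_one_lt_d9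
    linarith
  have h5 : (c : ℝ) * N * ((K : ℝ) + N) ^ 2 * Real.log (((K : ℝ) + N) * N + 2) ≤ Q := by
    refine le_trans ?_ h
    have ha : (0 : ℝ) ≤ Real.log (((K : ℝ) + N) * N + 2) := by linarith
    have hb : (0 : ℝ) ≤ ((K : ℝ) + N) ^ 2 := by positivity
    have hd : (0 : ℝ) ≤ N := by linarith
    exact mul_le_mul_of_nonneg_right (mul_le_mul_of_nonneg_right
      (mul_le_mul_of_nonneg_right hc' hd) hb) ha
  have h6 : (c : ℝ) * N ≤ c * N * ((K : ℝ) + N) ^ 2 * Real.log (((K : ℝ) + N) * N + 2) := by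
    have ha : (0 : ℝ) ≤ (c : ℝ) * N := by positivity
    have hb : (1 : ℝ) ≤ ((K : ℝ) + N) ^ 2 * Real.log (((K : ℝ) + N) * N + 2) :=
      one_le_mul_of_one_le_of_one_le h2 h4
    calc (c : ℝ) * N = c * N * 1 := (mul_one _).symm
      _ ≤ c * N * (((K : ℝ) + N) ^ 2 * Real.log (((K : ℝ) + N) * N + 2)) :=
        mul_le_mul_of_nonneg_left hb ha
      _ = _ := by ring
  have h7 : (c : ℝ) * N ≤ Q := h6.trans h5
  have h8 : (c : ℝ) ≤ c * N := le_mul_of_one_le_right hc0 hN'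
  refine ⟨h5, ?_, ?_⟩
  · exact_mod_cast h7
  · exact_mod_cast h8.trans h7

theorem dat_u2 (z : ℂ) (hz : 0 < z.im)
    (hcm : ¬ ∃ a b c : ℤ, (a ≠ 0 ∨ b ≠ 0 ∨ c ≠ 0) ∧ (a : ℂ) * z ^ 2 + b * z + c = 0)
    (E4 E6 Jf : ℂ → ℂ)
    (h4 : ∀ τ : ℂ, E4 τ = 1 + 240 * ∑' m : ℕ, ((ArithmeticFunction.sigma 3 (m + 1) : ℕ) : ℂ) *
          Complex.exp (2 * (Real.pi : ℂ) * Complex.I * ((m : ℂ) + 1) * τ))
    (h6 : ∀ τ : ℂ, E6 τ = 1 - 504 * ∑' m : ℕ, ((ArithmeticFunction.sigma 5 (m + 1) : ℕ) : ℂ) *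
          Complex.exp (2 * (Real.pi : ℂ) * Complex.I * ((m : ℂ) + 1) * τ))
    (hJ : ∀ τ : ℂ, Jf τ = 1728 * E4 τ ^ 3 / (E4 τ ^ 3 - E6 τ ^ 2)) :
    ∃ (P : Fin 7 → ℂ) (C : ℕ), 1 ≤ C ∧
      (∀ i, IsAlgebraic (IntermediateField.adjoin ℚ
        (Set.range (![z, Jf z, deriv Jf z, deriv (deriv Jf) z] : Fin 4 → ℂ))) (P i)) ∧
      ∀ N K Q : ℕ, 1 ≤ N → COV z N K →
        C * N * ((K : ℝ) + N) ^ 2 * Real.log (((K : ℝ) + N) * N + 2) ≤ Q → Dat P C N Q := by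
  obtain ⟨b, lam, P, Ca, hlam, hCa, hP, har⟩ := arith_u2 z hz hcm E4 E6 Jf h4 h6 hJ
  obtain ⟨C0, Ch, hC0, hCh, hyp⟩ := hyp_ana b hz
  obtain ⟨C1, hC1, hlow⟩ := dat_low lam hlam Ch
  obtain ⟨C2, hC2, hup⟩ := dat_up lam hlam Ch hCh
  obtain ⟨C, hC⟩ : ∃ C : ℕ, C = 2 * Ca * (2 + Ch) + 3 + (3 + Ch) + C1 + C2 + C0 + Ch := ⟨_, rfl⟩
  refine ⟨P, C, by omega, hP, ?_⟩
  intro N K Q hN hcov hQ
  obtain ⟨-, hDQ, -⟩ := dta_num (c := C0) hN (by omega) hQ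
  obtain ⟨hQh, -, -⟩ := dta_num (c := Ch) hN (by omega) hQ
  obtain ⟨-, -, hC2Q⟩ := dta_num (c := C2) hN (by omega) hQ
  obtain ⟨-, -, hC3Q⟩ := dta_num (c := 3 + Ch) hN (by omega) hQ
  have hyp' := hyp N K Q hN hcov hQh
  obtain ⟨D, hD⟩ : ∃ D : ℕ, D = C0 * N := ⟨_, rfl⟩
  rw [← hD] at hDQ hyp'
  obtain ⟨⟨V, hVd, hV⟩, hlo⟩ := hyp'
  have hD1 : 1 ≤ D := by
    rw [hD]
    exact Nat.mul_pos hC0 hN
  have hQ1 : 1 ≤ Q := by omega
  have hQr : (1 : ℝ) ≤ Q := by exact_mod_cast hQ1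
  have hNr : (1 : ℝ) ≤ N := by exact_mod_cast hN
  have hlog1 : (1 : ℝ) ≤ Real.log ((Q : ℝ) + 2) := by
    rw [← Real.log_exp 1]
    apply Real.log_le_log (Real.exp_pos 1)
    have := Real.exp_one_lt_d9
    linarith
  have hrel : ∀ (l : Ix D Q) (a e : ℕ), (a.factorial : ℂ) * e.factorial *
      (2 * Real.pi * Complex.I * (2 * D) / lam) ^ (l.2.2 : ℕ) * jc b D l.1 l.2.1 l.2.2 a e =
        lam ^ (a + e) * aeval P (WP D l.1 l.2.1 l.2.2 a e) := by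
    intro l a e
    exact (har D l.1 l.2.1 l.2.2 a e hD1 (Nat.lt_succ_iff.mp l.1.2)
      (Nat.lt_succ_iff.mp l.2.1.2)).2.2
  have hlow' := hlow D N Q hD1 hDQ hN
    (fun l a e => jc b D l.1 l.2.1 l.2.2 a e)
    (fun l a e => aeval P (WP D l.1 l.2.1 l.2.2 a e)) hrel hlo
  obtain ⟨V', hV'd, hV'⟩ := hup D N Q hD1 hDQ hN hC2Q
    (fun l a e => jc b D l.1 l.2.1 l.2.2 a e)
    (fun l a e => aeval P (WP D l.1 l.2.1 l.2.2 a e)) hrel V hV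
  refine ⟨Ix D Q, inferInstance, {p : ℕ × ℕ // p.1 + p.2 ≤ Ch * Q},
    fun s l => WP D l.1 l.2.1 l.2.2 s.1.1 s.1.2, ?_, ?_, ?_, ?_, V', ?_, ?_⟩
  · haveI : Nonempty (Fin Q) := ⟨⟨0, hQ1⟩⟩
    exact Fintype.card_pos
  · have hcard : Fintype.card (Ix D Q) = (D + 1) * ((D + 1) * Q) := by
      rw [Fintype.card_prod, Fintype.card_prod, Fintype.card_fin, Fintype.card_fin]
    rw [hcard]
    have h1 : (((D + 1) * ((D + 1) * Q) : ℕ) : ℝ) ≤ ((Q : ℝ) + 2) ^ 3 := by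
      push_cast
      have hDr : (D : ℝ) ≤ Q := by exact_mod_cast hDQ
      have hD0 : (0 : ℝ) ≤ D := Nat.cast_nonneg D
      have h2 : ((D : ℝ) + 1) ≤ Q + 2 := by linarith
      have h3 : (Q : ℝ) ≤ Q + 2 := by linarith
      calc ((D : ℝ) + 1) * (((D : ℝ) + 1) * Q) ≤ ((Q : ℝ) + 2) * (((Q : ℝ) + 2) * (Q + 2)) := by
            gcongr
        _ = _ := by ring
    have h0 : (0 : ℝ) < (((D + 1) * ((D + 1) * Q) : ℕ) : ℝ) := by
      have : 0 < (D + 1) * ((D + 1) * Q) := by positivity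
      exact_mod_cast this
    have h4 : Real.log (((D + 1) * ((D + 1) * Q) : ℕ) : ℝ) ≤ 3 * Real.log ((Q : ℝ) + 2) := by
      refine (Real.log_le_log h0 h1).trans (le_of_eq ?_)
      rw [Real.log_pow]
      norm_num
    refine h4.trans ?_
    have h5 : (3 : ℝ) ≤ C * Q := by
      have : 3 ≤ C * Q := le_trans (by omega) (Nat.le_mul_of_pos_right C hQ1)
      exact_mod_cast this
    exact mul_le_mul_of_nonneg_right h5 (by linarith)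
  · intro s l
    obtain ⟨⟨a, e⟩, hae⟩ := s
    have hl1 : (l.1 : ℕ) ≤ D := Nat.lt_succ_iff.mp l.1.2
    have hl2 : (l.2.1 : ℕ) ≤ D := Nat.lt_succ_iff.mp l.2.1.2
    have hk : (l.2.2 : ℕ) + 1 ≤ Q := l.2.2.2
    have hae' : a + e ≤ Ch * Q := hae
    obtain ⟨hdeg, hnrm, -⟩ := har D l.1 l.2.1 l.2.2 a e hD1 hl1 hl2
    have hsz : (D : ℝ) + (l.2.2 : ℕ) + a + e + 1 ≤ (2 + Ch) * Q := by
      have h1 : D + (l.2.2 : ℕ) + a + e + 1 ≤ (2 + Ch) * Q := by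
        have h2 : (2 + Ch) * Q = Q + Q + Ch * Q := by ring
        omega
      exact_mod_cast h1
    have hsz0 : (0 : ℝ) ≤ (D : ℝ) + (l.2.2 : ℕ) + a + e + 1 := by positivity
    have hCa0 : (0 : ℝ) ≤ Ca := Nat.cast_nonneg Ca
    have hlg : Real.log ((D : ℝ) + (l.2.2 : ℕ) + a + e + 2) ≤ 2 * Real.log ((Q : ℝ) + 2) := by
      have h1 : (D : ℝ) + (l.2.2 : ℕ) + a + e + 2 ≤ ((Q : ℝ) + 2) ^ 2 := by
        have h2 : ((3 + Ch : ℕ) : ℝ) ≤ Q := by exact_mod_cast hC3Q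
        push_cast at h2
        have h3 : ((3 : ℝ) + Ch) * Q ≤ Q * Q := mul_le_mul_of_nonneg_right h2 (by linarith)
        nlinarith
      have h0 : (0 : ℝ) < (D : ℝ) + (l.2.2 : ℕ) + a + e + 2 := by positivity
      refine (Real.log_le_log h0 h1).trans (le_of_eq ?_)
      rw [Real.log_pow]
      norm_num
    have hlg0 : (0 : ℝ) ≤ Real.log ((D : ℝ) + (l.2.2 : ℕ) + a + e + 2) := by
      apply Real.log_nonneg
      have : (0 : ℝ) ≤ (D : ℝ) + (l.2.2 : ℕ) + a + e := by positivity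
      linarith
    have hCC : (2 : ℝ) * Ca * (2 + Ch) ≤ C := by
      have : 2 * Ca * (2 + Ch) ≤ C := by omega
      exact_mod_cast this
    have hmain : (Ca : ℝ) * ((D : ℝ) + (l.2.2 : ℕ) + a + e + 1) ≤ Ca * ((2 + Ch) * Q) :=
      mul_le_mul_of_nonneg_left hsz hCa0
    have hmain2 : (2 : ℝ) * (Ca * ((2 + Ch) * Q)) ≤ C * Q := by
      have := mul_le_mul_of_nonneg_right hCC (by linarith : (0 : ℝ) ≤ Q)
      linarith
    have hpos : (0 : ℝ) ≤ Ca * ((2 + Ch) * Q) := by positivity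
    constructor
    · refine hdeg.trans (hmain.trans ?_)
      have h1 : (Ca : ℝ) * ((2 + Ch) * Q) ≤ C * Q := by linarith
      refine h1.trans ?_
      have h2 : (0 : ℝ) ≤ C * Q := by positivity
      calc (C : ℝ) * Q = C * Q * 1 := (mul_one _).symm
        _ ≤ C * Q * Real.log ((Q : ℝ) + 2) := mul_le_mul_of_nonneg_left hlog1 h2
    · refine hnrm.trans ?_
      apply Real.exp_le_exp.mpr
      calc (Ca : ℝ) * ((D : ℝ) + (l.2.2 : ℕ) + a + e + 1) *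
            Real.log ((D : ℝ) + (l.2.2 : ℕ) + a + e + 2)
          ≤ Ca * ((2 + Ch) * Q) * (2 * Real.log ((Q : ℝ) + 2)) :=
            mul_le_mul hmain hlg hlg0 hpos
        _ = 2 * (Ca * ((2 + Ch) * Q)) * Real.log ((Q : ℝ) + 2) := by ring
        _ ≤ C * Q * Real.log ((Q : ℝ) + 2) :=
            mul_le_mul_of_nonneg_right hmain2 (by linarith)
  · intro c hc1 hc2
    obtain ⟨a, e, hae, hle⟩ := hlow' c hc1 hc2
    refine ⟨⟨(a, e), hae⟩, le_trans ?_ hle⟩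
    apply Real.exp_le_exp.mpr
    apply neg_le_neg
    have h1 : (C1 : ℝ) ≤ C := by
      have : C1 ≤ C := by omega
      exact_mod_cast this
    have h2 : (0 : ℝ) ≤ N := Nat.cast_nonneg N
    have h3 : (0 : ℝ) ≤ (Q : ℝ) ^ 2 := by positivity
    exact mul_le_mul_of_nonneg_right (mul_le_mul_of_nonneg_right h1 h2) h3
  · rw [hV'd]
    exact hVd
  · intro c hc hc1 s
    refine (hV' c hc hc1 s.1.1 s.1.2 s.2).trans ?_
    apply Real.exp_le_exp.mpr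
    apply neg_le_neg
    have h1 : (C2 : ℝ) ≤ C := by
      have : C2 ≤ C := by omega
      exact_mod_cast this
    have h2 : (0 : ℝ) ≤ (N : ℝ) * (Q : ℝ) ^ 2 := by positivity
    have h3 : (0 : ℝ) < C2 := by
      have : 0 < C2 := by omega
      exact_mod_cast this
    exact div_le_div_of_nonneg_left h2 h3 h1

end U2

end S_H22_U2_Dta
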