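import Mathlib
import Pool.Agent.H32.AKM.P01
import Pool.Agent.H32.AKM.P03
import Pool.Agent.H32.AKM.P04
import Pool.Agent.H32.AKM.P05

/-! Modular Schanuel with derivatives for points algebraic over a field with good approximations, part 18: this file joins several modules to save build time. -/

section S_H32_MJ_D0

set_option autoImplicit false

namespace MJ

open Complex U2
open MvPolynomial (X C aeval)

/-- The index set. -/
abbrev Ix (D : ℕ) : Type := Fin (D + 1) × Fin (D + 1)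

/-- The images of the variables. -/
noncomputable def dv : Fin 6 → MvPolynomial (Fin 6) ℤ :=
  ![X 1, C 6 * X 0 ^ 2 - X 4, X 5 * X 3, X 5 * (C 6 * X 2 ^ 2 - X 4), 0, 0]

/-- The derivation. -/
noncomputable def DD : Derivation ℤ (MvPolynomial (Fin 6) ℤ) (MvPolynomial (Fin 6) ℤ) :=
  MvPolynomial.mkDerivation ℤ dv

/-- The polynomials of the jets. -/
noncomputable def W (D t : ℕ) (l : Ix D) : MvPolynomial (Fin 6) ℤ :=
  DD^[t] (X 0 ^ (l.1 : ℕ) * X 2 ^ (l.2 : ℕ))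

/-- The values at the origin. -/
noncomputable def Pt (ep h y : ℂ) : Fin 6 → ℂ := ![ep, 0, ep, 0, h, y]

/-- The jets. -/
noncomputable def jt (P : Fin 6 → ℂ) (D : ℕ) (c : Ix D → ℂ) (t : ℕ) : ℂ :=
  ∑ l, c l * aeval P (W D t l)

/-- The linear combinations of the functions `X(s)^i X(y s)^k`. -/
noncomputable def FX (Xf : ℂ → ℂ) (y : ℂ) (D : ℕ) (c : Ix D → ℂ) (s : ℂ) : ℂ :=
  ∑ l, c l * (Xf s ^ (l.1 : ℕ) * Xf (y * s) ^ (l.2 : ℕ))

section Fun

variable {y : ℂ} (b : CZ.BaseFn y)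

/-- The entire functions of period `1`. -/
noncomputable def GG (D : ℕ) (c : Ix D → ℂ) (s : ℂ) : ℂ :=
  exp (2 * Real.pi * I * D * y * s ^ 2) * ∑ l, c l * (HH b D l.1 s * HH b D l.2 (y * s))

/-- One variable. -/
noncomputable def HV (D : ℕ) (R : Fin (D + 1) → ℂ) (v : ℂ) : ℂ := ∑ k, R k * HH b D k v

end Fun

end MJ

end S_H32_MJ_D0

section S_H32_MJ_J1

set_option autoImplicit false

namespace MJ

open MvPolynomial Finset
open H32.T3

private lemma J1_aux (i : Fin 6) (hi : nrm (X i : MvPolynomial (Fin 6) ℤ) = 1) (j : Fin 6) :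
    nrm (C 6 * X i ^ 2 - X j : MvPolynomial (Fin 6) ℤ) ≤ 7 := by
  rw [sub_eq_add_neg]
  refine (H32.T3.nrm_add_le _ _).trans ?_
  rw [H32.T3.nrm_neg, H32.T3.nrm_X]
  have h1 := H32.T3.nrm_mul_le (C 6 : MvPolynomial (Fin 6) ℤ) (X i ^ 2)
  have h2 := H32.T3.nrm_pow_le (X i : MvPolynomial (Fin 6) ℤ) 2
  rw [hi, one_pow] at h2
  rw [H32.T3.nrm_C] at h1
  have h3 := H32.T3.nrm_nonneg (X i ^ 2 : MvPolynomial (Fin 6) ℤ)
  have h4 : |((6 : ℤ) : ℝ)| = 6 := by norm_num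
  rw [h4] at h1
  linarith

private lemma J1_aux2 (i j : Fin 6) :
    (C 6 * X i ^ 2 - X j : MvPolynomial (Fin 6) ℤ).totalDegree ≤ 2 := by
  refine (totalDegree_sub _ _).trans (max_le ?_ ?_)
  · refine (totalDegree_mul _ _).trans ?_
    rw [totalDegree_C, zero_add]
    refine (totalDegree_pow _ _).trans ?_
    rw [totalDegree_X]
  · rw [totalDegree_X]; norm_num

private lemma J1_nrm_dv (i : Fin 6) : nrm (dv i) ≤ 7 := by
  fin_cases i
  · change nrm (X 1) ≤ 7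
    rw [nrm_X]; norm_num
  · exact J1_aux 0 (nrm_X _) 4
  · change nrm (X 5 * X 3) ≤ 7
    refine (nrm_mul_le _ _).trans ?_
    rw [nrm_X, nrm_X]; norm_num
  · change nrm (X 5 * (C 6 * X 2 ^ 2 - X 4)) ≤ 7
    refine (nrm_mul_le _ _).trans ?_
    rw [nrm_X, one_mul]
    exact J1_aux 2 (nrm_X _) 4
  · change nrm 0 ≤ 7
    rw [nrm_zero]; norm_num
  · change nrm 0 ≤ 7
    rw [nrm_zero]; norm_num

private lemma J1_deg_dv (i : Fin 6) : (dv i).totalDegree ≤ 3 := by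
  fin_cases i
  · change (X 1 : MvPolynomial (Fin 6) ℤ).totalDegree ≤ 3
    rw [totalDegree_X]; norm_num
  · exact (J1_aux2 0 4).trans (by norm_num)
  · change (X 5 * X 3 : MvPolynomial (Fin 6) ℤ).totalDegree ≤ 3
    refine (totalDegree_mul _ _).trans ?_
    rw [totalDegree_X, totalDegree_X]; norm_num
  · change (X 5 * (C 6 * X 2 ^ 2 - X 4) : MvPolynomial (Fin 6) ℤ).totalDegree ≤ 3
    refine (totalDegree_mul _ _).trans ?_
    rw [totalDegree_X]
    have := J1_aux2 2 4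
    omega
  · change (0 : MvPolynomial (Fin 6) ℤ).totalDegree ≤ 3
    simp
  · change (0 : MvPolynomial (Fin 6) ℤ).totalDegree ≤ 3
    simp

private lemma J1_DD_monomial (s : Fin 6 →₀ ℕ) (r : ℤ) :
    DD (monomial s r) = r • ∑ i, monomial (s - Finsupp.single i 1) ((s i : ℕ) : ℤ) * dv i := by
  rw [DD, mkDerivation_monomial, Finsupp.sum_fintype _ _ (by simp)]
  simp [smul_eq_mul]

private lemma J1_nrm_DD_monomial (s : Fin 6 →₀ ℕ) (r : ℤ) :
    nrm (DD (monomial s r)) ≤ |(r : ℝ)| * (7 * s.degree) := by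
  rw [J1_DD_monomial, smul_eq_C_mul]
  refine (nrm_mul_le _ _).trans ?_
  rw [nrm_C]
  gcongr
  refine (nrm_sum_le _ _).trans ?_
  calc ∑ i, nrm (monomial (s - Finsupp.single i 1) ((s i : ℕ) : ℤ) * dv i)
      ≤ ∑ i, (s i : ℝ) * 7 := by
        refine sum_le_sum fun i _ ↦ (nrm_monomial_mul _ _ _).trans ?_
        have := J1_nrm_dv i
        have h0 : (0 : ℝ) ≤ s i := by positivity
        simp only [Int.cast_natCast, abs_of_nonneg h0]
        gcongr
    _ = 7 * s.degree := by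
        rw [← sum_mul, Finsupp.degree_eq_sum]
        push_cast
        ring

private lemma J1_nrm_DD_le (P : MvPolynomial (Fin 6) ℤ) : nrm (DD P) ≤ 7 * P.totalDegree * nrm P := by
  conv_lhs => rw [P.as_sum, map_sum]
  refine (nrm_sum_le _ _).trans ?_
  rw [nrm, mul_sum]
  refine sum_le_sum fun m hm ↦ (J1_nrm_DD_monomial _ _).trans ?_
  have h1 : m.degree ≤ P.totalDegree := by
    have := le_totalDegree hm
    rw [Finsupp.sum_fintype _ _ (by simp)] at this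
    rwa [Finsupp.degree_eq_sum]
  have h2 : (m.degree : ℝ) ≤ P.totalDegree := by exact_mod_cast h1
  have h3 := abs_nonneg ((coeff m P : ℤ) : ℝ)
  nlinarith

private lemma J1_deg_DD_monomial (s : Fin 6 →₀ ℕ) (r : ℤ) :
    (DD (monomial s r)).totalDegree ≤ s.degree + 2 := by
  rw [J1_DD_monomial]
  refine (totalDegree_smul_le _ _).trans ?_
  refine totalDegree_finsetSum_le fun i _ ↦ ?_
  rcases Nat.eq_zero_or_pos (s i) with h | h
  · simp [h]
  refine (totalDegree_mul _ _).trans ?_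
  have h1 := J1_deg_dv i
  have h2 : (monomial (s - Finsupp.single i 1) ((s i : ℕ) : ℤ)).totalDegree + 1 ≤ s.degree := by
    rw [totalDegree_monomial _ (by exact_mod_cast h.ne')]
    have h3 : (s - Finsupp.single i 1) + Finsupp.single i 1 = s :=
      tsub_add_cancel_of_le (by
        rw [Finsupp.single_le_iff]; exact h)
    have h4 := congrArg Finsupp.degree h3
    rw [map_add, Finsupp.degree_single] at h4
    rw [Finsupp.degree_eq_sum, ← Finsupp.sum_fintype (f := s - Finsupp.single i 1) (fun _ e ↦ e) (by simp)] at h4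
    exact h4.le
  omega

private lemma J1_deg_DD_le (P : MvPolynomial (Fin 6) ℤ) : (DD P).totalDegree ≤ P.totalDegree + 2 := by
  conv_lhs => rw [P.as_sum, map_sum]
  refine totalDegree_finsetSum_le fun m hm ↦ (J1_deg_DD_monomial _ _).trans ?_
  have h1 : m.degree ≤ P.totalDegree := by
    have := le_totalDegree hm
    rw [Finsupp.sum_fintype _ _ (by simp)] at this
    rwa [Finsupp.degree_eq_sum]
  omega

private lemma J1_deg_iter (P : MvPolynomial (Fin 6) ℤ) (t : ℕ) :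
    (DD^[t] P).totalDegree ≤ P.totalDegree + 2 * t := by
  induction t with
  | zero => simp
  | succ t ih =>
    rw [Function.iterate_succ_apply']
    have := J1_deg_DD_le (DD^[t] P)
    omega

private lemma J1_nrm_iter (P : MvPolynomial (Fin 6) ℤ) (t : ℕ) :
    nrm (DD^[t] P) ≤ (7 * (P.totalDegree + 2 * t)) ^ t * nrm P := by
  have key : ∀ s, s ≤ t → nrm (DD^[s] P) ≤ (7 * (P.totalDegree + 2 * t : ℝ)) ^ s * nrm P := by
    intro s
    induction s with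
    | zero => intro _; simp
    | succ s ih =>
      intro hs
      rw [Function.iterate_succ_apply']
      refine (J1_nrm_DD_le _).trans ?_
      have h1 : ((DD^[s] P).totalDegree : ℝ) ≤ P.totalDegree + 2 * t := by
        have := J1_deg_iter P s
        exact_mod_cast (show (DD^[s] P).totalDegree ≤ P.totalDegree + 2 * t by omega)
      have h2 := ih (by omega)
      have h3 := nrm_nonneg (DD^[s] P)
      calc 7 * ((DD^[s] P).totalDegree : ℝ) * nrm (DD^[s] P)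
          ≤ 7 * (P.totalDegree + 2 * t : ℝ) * ((7 * (P.totalDegree + 2 * t : ℝ)) ^ s * nrm P) := by gcongr
        _ = _ := by rw [pow_succ]; ring
  exact key t le_rfl

private lemma J1_deg_X_pow (a b : ℕ) : (X 0 ^ a * X 2 ^ b : MvPolynomial (Fin 6) ℤ).totalDegree ≤ a + b := by
  refine (totalDegree_mul _ _).trans ?_
  have h1 := totalDegree_pow (X 0 : MvPolynomial (Fin 6) ℤ) a
  have h2 := totalDegree_pow (X 2 : MvPolynomial (Fin 6) ℤ) b
  rw [totalDegree_X, mul_one] at h1 h2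
  omega

theorem W_deg (D t : ℕ) (l : Ix D) : (W D t l).totalDegree ≤ 2 * D + 2 * t := by
  refine (J1_deg_iter _ _).trans ?_
  have h1 := J1_deg_X_pow (l.1 : ℕ) (l.2 : ℕ)
  have h2 := l.1.isLt
  have h3 := l.2.isLt
  omega

theorem W_nrm (D t : ℕ) (l : Ix D) : nrm (W D t l) ≤ (7 * (2 * D + 2 * t : ℝ)) ^ t := by
  refine (J1_nrm_iter _ _).trans ?_
  have h1 : nrm (X 0 ^ (l.1 : ℕ) * X 2 ^ (l.2 : ℕ) : MvPolynomial (Fin 6) ℤ) ≤ 1 := by
    refine (nrm_mul_le _ _).trans ?_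
    have h1 := nrm_pow_le (X 0 : MvPolynomial (Fin 6) ℤ) (l.1 : ℕ)
    have h2 := nrm_pow_le (X 2 : MvPolynomial (Fin 6) ℤ) (l.2 : ℕ)
    rw [nrm_X, one_pow] at h1 h2
    have h3 := nrm_nonneg (X 0 ^ (l.1 : ℕ) : MvPolynomial (Fin 6) ℤ)
    have h4 := nrm_nonneg (X 2 ^ (l.2 : ℕ) : MvPolynomial (Fin 6) ℤ)
    nlinarith
  have h2 : ((X 0 ^ (l.1 : ℕ) * X 2 ^ (l.2 : ℕ) : MvPolynomial (Fin 6) ℤ).totalDegree : ℝ) ≤ 2 * D := by
    have h1 := J1_deg_X_pow (l.1 : ℕ) (l.2 : ℕ)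
    have h2 := l.1.isLt
    have h3 := l.2.isLt
    exact_mod_cast (show _ ≤ 2 * D by omega)
  have h3 := nrm_nonneg (X 0 ^ (l.1 : ℕ) * X 2 ^ (l.2 : ℕ) : MvPolynomial (Fin 6) ℤ)
  calc _ ≤ (7 * ((2 * D : ℝ) + 2 * t)) ^ t * 1 := by gcongr
    _ = _ := by rw [mul_one]

end MJ

end S_H32_MJ_J1

section S_H32_MJ_J2

set_option autoImplicit false

namespace MJ

open Complex Metric
open MvPolynomial (X C aeval)

theorem hasDerivAt_aeval {v : ℂ → Fin 6 → ℂ} {lam s : ℂ}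
    (h : ∀ i, HasDerivAt (fun s => v s i) (lam * aeval (v s) (dv i)) s) (Q : MvPolynomial (Fin 6) ℤ) :
    HasDerivAt (fun s => aeval (v s) Q) (lam * aeval (v s) (DD Q)) s := by
  induction Q using MvPolynomial.induction_on with
  | C a =>
    have h1 : DD (C a) = 0 := MvPolynomial.derivation_C _ a
    rw [h1, map_zero, mul_zero]
    simp only [MvPolynomial.aeval_C]
    exact hasDerivAt_const s _
  | add p q hp hq =>
    simp only [map_add]
    rw [mul_add]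
    exact hp.add hq
  | mul_X p i hp =>
    simp only [map_mul, MvPolynomial.aeval_X]
    have h1 : DD (p * X i) = p * dv i + X i * DD p := by
      rw [Derivation.leibniz]
      have h2 : DD (X i) = dv i := MvPolynomial.mkDerivation_X _ _ _
      rw [h2, smul_eq_mul, smul_eq_mul]
    rw [h1, map_add, map_mul, map_mul, MvPolynomial.aeval_X]
    have h3 := hp.mul (h i)
    have e : lam * (aeval (v s) p * aeval (v s) (dv i) + v s i * aeval (v s) (DD p)) =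
        lam * aeval (v s) (DD p) * v s i + aeval (v s) p * (lam * aeval (v s) (dv i)) := by ring
    rw [e]
    exact h3

/-- the values of the variables -/
private noncomputable def J2_v (Xf X1f : ℂ → ℂ) (h y : ℂ) (s : ℂ) : Fin 6 → ℂ :=
  ![Xf s, X1f s, Xf (y * s), X1f (y * s), h, y]

private theorem J2_d {y : ℂ} {b : CZ.BaseFn y} {lam h kap ep : ℂ} {ε : ℝ} {Xf X1f Yf : ℂ → ℂ}
    (hS : CZ.BaseSys b lam h kap ep ε Xf X1f Yf) {s : ℂ} (h1 : ‖s‖ < ε) (h2 : ‖y * s‖ < ε)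
    (i : Fin 6) : HasDerivAt (fun s => J2_v Xf X1f h y s i)
      (lam * aeval (J2_v Xf X1f h y s) (dv i)) s := by
  have hl : HasDerivAt (fun s : ℂ => y * s) y s := by
    simpa using (hasDerivAt_id s).const_mul y
  fin_cases i
  · change HasDerivAt (fun s => Xf s) (lam * aeval (J2_v Xf X1f h y s) (X 1)) s
    rw [MvPolynomial.aeval_X]
    exact hS.dX s h1
  · change HasDerivAt (fun s => X1f s)
      (lam * aeval (J2_v Xf X1f h y s) (C 6 * X 0 ^ 2 - X 4 : MvPolynomial (Fin 6) ℤ)) s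
    simp only [map_sub, map_mul, map_pow, MvPolynomial.aeval_X, MvPolynomial.aeval_C]
    simpa [J2_v] using hS.dX1 s h1
  · change HasDerivAt (fun s => Xf (y * s))
      (lam * aeval (J2_v Xf X1f h y s) (X 5 * X 3 : MvPolynomial (Fin 6) ℤ)) s
    simp only [map_mul, MvPolynomial.aeval_X]
    have h3 := (hS.dX (y * s) h2).comp s hl
    have e : lam * (J2_v Xf X1f h y s 5 * J2_v Xf X1f h y s 3) = lam * X1f (y * s) * y := by
      simp only [J2_v]
      simp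
      ring
    rw [e]
    exact h3
  · change HasDerivAt (fun s => X1f (y * s))
      (lam * aeval (J2_v Xf X1f h y s)
        (X 5 * (C 6 * X 2 ^ 2 - X 4) : MvPolynomial (Fin 6) ℤ)) s
    simp only [map_sub, map_mul, map_pow, MvPolynomial.aeval_X, MvPolynomial.aeval_C]
    have h3 := (hS.dX1 (y * s) h2).comp s hl
    have e : lam * (J2_v Xf X1f h y s 5 * ((algebraMap ℤ ℂ) 6 * J2_v Xf X1f h y s 2 ^ 2 -
        J2_v Xf X1f h y s 4)) = lam * (6 * Xf (y * s) ^ 2 - h) * y := by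
      simp only [J2_v]
      simp
      ring
    rw [e]
    exact h3
  · change HasDerivAt (fun _ => h) (lam * aeval (J2_v Xf X1f h y s) (0 : MvPolynomial (Fin 6) ℤ)) s
    rw [map_zero, mul_zero]
    exact hasDerivAt_const s _
  · change HasDerivAt (fun _ => y) (lam * aeval (J2_v Xf X1f h y s) (0 : MvPolynomial (Fin 6) ℤ)) s
    rw [map_zero, mul_zero]
    exact hasDerivAt_const s _

private theorem J2_FX (Xf X1f : ℂ → ℂ) (h y : ℂ) (D : ℕ) (c : Ix D → ℂ) (s : ℂ) :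
    FX Xf y D c s = ∑ l, c l * aeval (J2_v Xf X1f h y s) (W D 0 l) := by
  unfold FX W
  refine Finset.sum_congr rfl fun l _ => ?_
  simp only [Function.iterate_zero, id_eq, map_mul, map_pow, MvPolynomial.aeval_X]
  rfl

private theorem J2_sum {y : ℂ} {b : CZ.BaseFn y} {lam h kap ep : ℂ} {ε : ℝ} {Xf X1f Yf : ℂ → ℂ}
    (hS : CZ.BaseSys b lam h kap ep ε Xf X1f Yf) (D : ℕ) (c : Ix D → ℂ) {s : ℂ} (h1 : ‖s‖ < ε)
    (h2 : ‖y * s‖ < ε) (t : ℕ) :
    HasDerivAt (fun s => ∑ l, c l * aeval (J2_v Xf X1f h y s) (W D t l))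
      (lam * ∑ l, c l * aeval (J2_v Xf X1f h y s) (W D (t + 1) l)) s := by
  have h3 : HasDerivAt (fun s => ∑ l, c l * aeval (J2_v Xf X1f h y s) (W D t l))
      (∑ l, c l * (lam * aeval (J2_v Xf X1f h y s) (DD (W D t l)))) s :=
    HasDerivAt.fun_sum fun l _ => (hasDerivAt_aeval (J2_d hS h1 h2) (W D t l)).const_mul (c l)
  have e : lam * ∑ l, c l * aeval (J2_v Xf X1f h y s) (W D (t + 1) l) =
      ∑ l, c l * (lam * aeval (J2_v Xf X1f h y s) (DD (W D t l))) := by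
    rw [Finset.mul_sum]
    refine Finset.sum_congr rfl fun l _ => ?_
    have e2 : W D (t + 1) l = DD (W D t l) := by
      unfold W
      rw [Function.iterate_succ_apply']
    rw [e2]
    ring
  rw [e]
  exact h3

theorem jets {y : ℂ} (hy : y ≠ 0) {b : CZ.BaseFn y} {lam h kap ep : ℂ} {ε : ℝ} {Xf X1f Yf : ℂ → ℂ}
    (hS : CZ.BaseSys b lam h kap ep ε Xf X1f Yf) (D : ℕ) (c : Ix D → ℂ) :
    DifferentiableOn ℂ (FX Xf y D c) (ball 0 (min ε (ε / ‖y‖))) ∧
    ∀ t : ℕ, iteratedDeriv t (FX Xf y D c) 0 = lam ^ t * jt (Pt ep h y) D c t := by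
  have hy0 : 0 < ‖y‖ := norm_pos_iff.2 hy
  have hb : ∀ s ∈ ball (0:ℂ) (min ε (ε / ‖y‖)), ‖s‖ < ε ∧ ‖y * s‖ < ε := by
    intro s hs
    rw [mem_ball_zero_iff, lt_min_iff] at hs
    refine ⟨hs.1, ?_⟩
    rw [norm_mul]
    have := (lt_div_iff₀ hy0).1 hs.2
    linarith
  have key : ∀ t : ℕ, ∀ s ∈ ball (0:ℂ) (min ε (ε / ‖y‖)),
      iteratedDeriv t (FX Xf y D c) s =
        lam ^ t * ∑ l, c l * aeval (J2_v Xf X1f h y s) (W D t l) := by
    intro t
    induction t with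
    | zero =>
      intro s _
      rw [iteratedDeriv_zero, pow_zero, one_mul]
      exact J2_FX Xf X1f h y D c s
    | succ t ih =>
      intro s hs
      rw [iteratedDeriv_succ]
      have h1 : iteratedDeriv t (FX Xf y D c) =ᶠ[nhds s]
          fun s => lam ^ t * ∑ l, c l * aeval (J2_v Xf X1f h y s) (W D t l) := by
        filter_upwards [isOpen_ball.mem_nhds hs] with s' hs'
        exact ih s' hs'
      rw [h1.deriv_eq]
      have h2 := (J2_sum hS D c (hb s hs).1 (hb s hs).2 t).const_mul (lam ^ t)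
      rw [h2.deriv]
      ring
  refine ⟨?_, fun t => ?_⟩
  · intro s hs
    have h2 := J2_sum hS D c (hb s hs).1 (hb s hs).2 0
    have e : (fun s => ∑ l, c l * aeval (J2_v Xf X1f h y s) (W D 0 l)) = FX Xf y D c := by
      funext s'
      exact (J2_FX Xf X1f h y D c s').symm
    rw [e] at h2
    exact h2.differentiableAt.differentiableWithinAt
  · have hε : 0 < min ε (ε / ‖y‖) := lt_min hS.hε (div_pos hS.hε hy0)
    rw [key t 0 (mem_ball_self hε)]
    unfold jt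
    have e : J2_v Xf X1f h y 0 = Pt ep h y := by
      unfold J2_v Pt
      rw [mul_zero, hS.X0, hS.X10]
    rw [e]

end MJ

end S_H32_MJ_J2

section S_H32_MJ_J3

set_option autoImplicit false

namespace MJ

open Complex Metric U2
open MvPolynomial (X C aeval)

theorem J3_HH {y : ℂ} {b : CZ.BaseFn y} {lam h kap ep : ℂ} {ε : ℝ} {Xf X1f Yf : ℂ → ℂ}
    (hS : CZ.BaseSys b lam h kap ep ε Xf X1f Yf) {D i : ℕ} (hi : i ≤ D) {s : ℂ} (hs : ‖s‖ < ε) :
    HH b D i s = b.A s ^ (2 * D) * Xf s ^ i := by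
  rw [HH, hS.hB s hs, mul_pow, ← pow_mul, ← mul_assoc, ← pow_add]
  congr 2
  omega

theorem J3_GG {y : ℂ} {b : CZ.BaseFn y} {lam h kap ep : ℂ} {ε : ℝ} {Xf X1f Yf : ℂ → ℂ}
    (hS : CZ.BaseSys b lam h kap ep ε Xf X1f Yf) (D : ℕ) (c : Ix D → ℂ) {s : ℂ} (hs : ‖s‖ < ε)
    (hys : ‖y * s‖ < ε) : GG b D c s =
      (exp (2 * Real.pi * I * y * s ^ 2) * (b.A s * b.A (y * s)) ^ 2) ^ D * FX Xf y D c s := by
  have h1 : exp (2 * Real.pi * I * D * y * s ^ 2) = exp (2 * Real.pi * I * y * s ^ 2) ^ D := by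
    rw [← Complex.exp_nat_mul]
    congr 1
    ring
  rw [GG, FX, h1, Finset.mul_sum, Finset.mul_sum]
  refine Finset.sum_congr rfl fun l _ => ?_
  rw [J3_HH hS (Nat.lt_succ_iff.1 l.1.2) hs, J3_HH hS (Nat.lt_succ_iff.1 l.2.2) hys, mul_pow, mul_pow,
    mul_pow, ← pow_mul, ← pow_mul]
  ring

theorem J3_taylor {F : ℂ → ℂ} {r0 : ℝ} (hr : 0 < r0) (hF : DifferentiableOn ℂ F (ball 0 r0))
    (S : ℕ) : ∃ g : ℂ → ℂ, ContinuousAt g 0 ∧ ∀ s, F s =
      ∑ t ∈ Finset.range S, iteratedDeriv t F 0 / t.factorial * s ^ t + s ^ S * g s := by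
  classical
  set P : ℂ → ℂ := fun s => ∑ t ∈ Finset.range S, iteratedDeriv t F 0 / t.factorial * s ^ t with hP
  have hA : AnalyticAt ℂ F 0 := hF.analyticAt (ball_mem_nhds 0 hr)
  have hO := hA.hasFPowerSeriesAt.isBigO_sub_partialSum_pow (S + 1)
  obtain ⟨K, hK⟩ := hO.bound
  have hps : ∀ s : ℂ, (FormalMultilinearSeries.ofScalars ℂ
      fun n => iteratedDeriv n F 0 / (n.factorial : ℂ)).partialSum (S + 1) s =
      P s + iteratedDeriv S F 0 / S.factorial * s ^ S := by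
    intro s
    rw [FormalMultilinearSeries.partialSum, Finset.sum_range_succ,
      FormalMultilinearSeries.ofScalars_apply_eq, smul_eq_mul, hP]
    congr 1
    exact Finset.sum_congr rfl fun t _ => by
      rw [FormalMultilinearSeries.ofScalars_apply_eq, smul_eq_mul]
  refine ⟨fun s => if s = 0 then iteratedDeriv S F 0 / S.factorial else (F s - P s) / s ^ S,
    ?_, ?_⟩
  · rw [ContinuousAt, if_pos rfl, tendsto_iff_norm_sub_tendsto_zero]
    have h3 : Filter.Tendsto (fun s : ℂ => K * ‖s‖) (nhds 0) (nhds 0) := by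
      have h4 : Continuous fun s : ℂ => K * ‖s‖ := by fun_prop
      have h5 := h4.tendsto 0
      rwa [norm_zero, mul_zero] at h5
    refine squeeze_zero' (Filter.Eventually.of_forall fun s => norm_nonneg _) ?_ h3
    filter_upwards [hK] with s hs
    by_cases h0 : s = 0
    · subst h0
      simp
    · rw [if_neg h0]
      rw [zero_add, hps] at hs
      have h6 : (F s - P s) / s ^ S - iteratedDeriv S F 0 / S.factorial =
          (F s - (P s + iteratedDeriv S F 0 / S.factorial * s ^ S)) / s ^ S := by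
        have := pow_ne_zero S h0
        field_simp
        ring
      rw [h6, norm_div, div_le_iff₀ (by rw [norm_pow]; exact pow_pos (norm_pos_iff.2 h0) _)]
      refine hs.trans (le_of_eq ?_)
      rw [norm_pow, norm_norm, norm_pow, pow_succ]
      ring
  · intro s
    by_cases h0 : s = 0
    · subst h0
      simp only [if_true]
      rcases Nat.eq_zero_or_pos S with rfl | hS
      · simp
      · rw [zero_pow hS.ne', zero_mul, add_zero,
          Finset.sum_eq_single_of_mem 0 (Finset.mem_range.2 hS)]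
        · simp
        · intro t _ ht
          rw [zero_pow ht, mul_zero]
    · have h7 := pow_ne_zero S h0
      change F s = P s + s ^ S * (if s = 0 then iteratedDeriv S F 0 / S.factorial
        else (F s - P s) / s ^ S)
      rw [if_neg h0, mul_div_cancel₀ _ h7]
      ring

theorem loc {y : ℂ} (hy : y ≠ 0) {b : CZ.BaseFn y} {lam h kap ep : ℂ} {ε : ℝ} {Xf X1f Yf : ℂ → ℂ}
    (hS : CZ.BaseSys b lam h kap ep ε Xf X1f Yf) :
    ∃ (r : ℝ) (C : ℕ), 0 < r ∧ r ≤ 1 / 4 ∧ 1 ≤ C ∧ ∀ (D : ℕ) (c : Ix D → ℂ),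
      (∀ (S : ℕ) (η : ℝ), 0 ≤ η → (∀ t < S, ‖jt (Pt ep h y) D c t‖ ≤ η) →
        ∃ a g : ℂ → ℂ, DifferentiableOn ℂ a (ball 0 r) ∧ ContinuousOn a (closedBall 0 r) ∧
          ContinuousAt g 0 ∧ (∀ s ∈ closedBall (0 : ℂ) r, GG b D c s = a s + s ^ S * g s) ∧
          ∀ s ∈ closedBall (0 : ℂ) r, ‖a s‖ ≤ (C : ℝ) ^ (D + 1) * η) ∧
      ∀ η : ℝ, (∀ s ∈ closedBall (0 : ℂ) r, ‖GG b D c s‖ ≤ η) →
        ∀ t : ℕ, ‖jt (Pt ep h y) D c t‖ ≤ t.factorial * (C : ℝ) ^ (D + t + 1) * η := by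
  classical
  obtain ⟨δ, hδ, hA⟩ := CZ.near0 b
  have hε := hS.hε
  have hny : 0 < ‖y‖ := norm_pos_iff.2 hy
  have hlam : 0 < ‖lam‖ := norm_pos_iff.2 hS.hlam
  set r : ℝ := min (min (1 / 4) (ε / 4)) (min (ε / ‖y‖ / 4) (min δ (δ / ‖y‖))) with hr
  have r0 : 0 < r := by
    rw [hr]
    positivity
  have r1 : r ≤ 1 / 4 := (min_le_left _ _).trans (min_le_left _ _)
  have r2 : r ≤ ε / 4 := (min_le_left _ _).trans (min_le_right _ _)
  have r3 : r ≤ ε / ‖y‖ / 4 := (min_le_right _ _).trans (min_le_left _ _)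
  have r4 : r ≤ δ := (min_le_right _ _).trans ((min_le_right _ _).trans (min_le_left _ _))
  have r5 : r ≤ δ / ‖y‖ := (min_le_right _ _).trans ((min_le_right _ _).trans (min_le_right _ _))
  have hεy : 0 < ε / ‖y‖ := div_pos hε hny
  have hsub : closedBall (0 : ℂ) r ⊆ ball 0 (min ε (ε / ‖y‖)) := by
    apply closedBall_subset_ball
    rw [lt_min_iff]
    constructor <;> linarith
  have hball : 0 < min ε (ε / ‖y‖) := lt_min hε hεy
  have hs1 : ∀ s ∈ closedBall (0 : ℂ) r, ‖s‖ ≤ r := fun s hs => mem_closedBall_zero_iff.1 hs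
  have hs2 : ∀ s ∈ closedBall (0 : ℂ) r, ‖s‖ < ε := fun s hs => by
    have := hs1 s hs
    linarith
  have hs3 : ∀ s ∈ closedBall (0 : ℂ) r, ‖y * s‖ < ε := fun s hs => by
    have h1 := hs1 s hs
    have h2 : ‖s‖ < ε / ‖y‖ := by linarith
    rw [lt_div_iff₀ hny] at h2
    rw [norm_mul, mul_comm]
    exact h2
  have hs4 : ∀ s ∈ closedBall (0 : ℂ) r, ‖y * s‖ ≤ δ := fun s hs => by
    have h1 := hs1 s hs
    have h2 : ‖s‖ ≤ δ / ‖y‖ := by linarith
    rw [le_div_iff₀ hny] at h2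
    rw [norm_mul, mul_comm]
    exact h2
  set e : ℂ → ℂ := fun s => exp (2 * Real.pi * I * y * s ^ 2) * (b.A s * b.A (y * s)) ^ 2 with he
  have hed : Differentiable ℂ e := by
    have h1 := b.dA
    have h2 : Differentiable ℂ fun s => b.A (y * s) := h1.comp (by fun_prop)
    rw [he]
    fun_prop
  have he0 : ∀ s ∈ closedBall (0 : ℂ) r, e s ≠ 0 := by
    intro s hs
    have h1 := hA s ((hs1 s hs).trans r4)
    have h2 := hA (y * s) (hs4 s hs)
    have h3 : b.A s ≠ 0 := by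
      rw [← norm_pos_iff]
      linarith
    have h4 : b.A (y * s) ≠ 0 := by
      rw [← norm_pos_iff]
      linarith
    exact mul_ne_zero (Complex.exp_ne_zero _) (pow_ne_zero 2 (mul_ne_zero h3 h4))
  have hcpt : IsCompact (closedBall (0 : ℂ) r) := isCompact_closedBall 0 r
  obtain ⟨M1, hM1⟩ := hcpt.exists_bound_of_continuousOn (f := e) hed.continuous.continuousOn
  obtain ⟨M2, hM2⟩ := hcpt.exists_bound_of_continuousOn (f := fun s => (e s)⁻¹)
    (hed.continuous.continuousOn.inv₀ he0)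
  obtain ⟨C, hC⟩ := exists_nat_ge (max (max 1 M1) (max M2 (max (Real.exp ‖lam‖) (1 / (r * ‖lam‖)))))
  have c1 : (1 : ℝ) ≤ C := ((le_max_left _ _).trans (le_max_left _ _)).trans hC
  have c2 : M1 ≤ C := ((le_max_right _ _).trans (le_max_left _ _)).trans hC
  have c3 : M2 ≤ C := ((le_max_left _ _).trans (le_max_right _ _)).trans hC
  have c4 : Real.exp ‖lam‖ ≤ C := (((le_max_left _ _).trans (le_max_right _ _)).trans
    (le_max_right _ _)).trans hC
  have c5 : 1 / (r * ‖lam‖) ≤ C := (((le_max_right _ _).trans (le_max_right _ _)).trans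
    (le_max_right _ _)).trans hC
  have hGG : ∀ (D : ℕ) (c : Ix D → ℂ), ∀ s ∈ closedBall (0 : ℂ) r,
      GG b D c s = e s ^ D * FX Xf y D c s :=
    fun D c s hs => J3_GG hS D c (hs2 s hs) (hs3 s hs)
  refine ⟨r, C, r0, r1, by exact_mod_cast c1, fun D c => ?_⟩
  obtain ⟨hF, hj⟩ := jets hy hS D c
  constructor
  · intro S η hη hjt
    obtain ⟨g, hg, hFg⟩ := J3_taylor hball hF S
    have hpd : Differentiable ℂ fun s : ℂ =>
        ∑ t ∈ Finset.range S, iteratedDeriv t (FX Xf y D c) 0 / t.factorial * s ^ t := by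
      fun_prop
    have had : Differentiable ℂ fun s : ℂ => e s ^ D *
        ∑ t ∈ Finset.range S, iteratedDeriv t (FX Xf y D c) 0 / t.factorial * s ^ t :=
      (hed.pow D).mul hpd
    refine ⟨fun s => e s ^ D *
        ∑ t ∈ Finset.range S, iteratedDeriv t (FX Xf y D c) 0 / t.factorial * s ^ t,
      fun s => e s ^ D * g s, had.differentiableOn, had.continuous.continuousOn,
      (hed.continuous.continuousAt.pow D).mul hg, ?_, ?_⟩
    · intro s hs
      rw [hGG D c s hs, hFg s]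
      ring
    · intro s hs
      have h1 : ‖e s‖ ≤ C := (hM1 s hs).trans c2
      have h2 : ‖∑ t ∈ Finset.range S, iteratedDeriv t (FX Xf y D c) 0 / t.factorial * s ^ t‖ ≤
          Real.exp ‖lam‖ * η := by
        calc ‖∑ t ∈ Finset.range S, iteratedDeriv t (FX Xf y D c) 0 / t.factorial * s ^ t‖
            ≤ ∑ t ∈ Finset.range S, ‖lam‖ ^ t / t.factorial * η := by
              refine norm_sum_le_of_le _ fun t ht => ?_
              rw [hj, norm_mul, norm_div, norm_mul, norm_pow, norm_pow, Complex.norm_natCast]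
              have h3 := hjt t (Finset.mem_range.1 ht)
              have h4 : ‖s‖ ^ t ≤ 1 := pow_le_one₀ (norm_nonneg _) (by
                have := hs1 s hs
                linarith)
              calc ‖lam‖ ^ t * ‖jt (Pt ep h y) D c t‖ / (t.factorial : ℝ) * ‖s‖ ^ t
                  ≤ ‖lam‖ ^ t * η / (t.factorial : ℝ) * 1 := by gcongr
                _ = ‖lam‖ ^ t / (t.factorial : ℝ) * η := by ring
          _ = (∑ t ∈ Finset.range S, ‖lam‖ ^ t / t.factorial) * η := by rw [Finset.sum_mul]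
          _ ≤ Real.exp ‖lam‖ * η := by
              gcongr
              exact Real.sum_le_exp_of_nonneg (norm_nonneg _) S
      rw [norm_mul, norm_pow]
      calc ‖e s‖ ^ D * ‖∑ t ∈ Finset.range S,
              iteratedDeriv t (FX Xf y D c) 0 / t.factorial * s ^ t‖
          ≤ (C : ℝ) ^ D * (C * η) := by
            gcongr
            exact h2.trans (by gcongr)
        _ = (C : ℝ) ^ (D + 1) * η := by rw [pow_succ]; ring
  · intro η hη t
    have hη0 : 0 ≤ η := (norm_nonneg _).trans (hη 0 (mem_closedBall_self r0.le))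
    have hFb : ∀ s ∈ closedBall (0 : ℂ) r, ‖FX Xf y D c s‖ ≤ (C : ℝ) ^ D * η := by
      intro s hs
      have h1 := hη s hs
      rw [hGG D c s hs] at h1
      have h2 : FX Xf y D c s = (e s)⁻¹ ^ D * (e s ^ D * FX Xf y D c s) := by
        rw [← mul_assoc, ← mul_pow, inv_mul_cancel₀ (he0 s hs), one_pow, one_mul]
      rw [h2, norm_mul, norm_pow]
      have h3 : ‖(e s)⁻¹‖ ≤ C := (hM2 s hs).trans c3
      gcongr
    have hdc : DiffContOnCl ℂ (FX Xf y D c) (ball 0 r) := by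
      apply DifferentiableOn.diffContOnCl
      rw [closure_ball _ r0.ne']
      exact hF.mono hsub
    have h1 := Complex.norm_iteratedDeriv_le_of_forall_mem_sphere_norm_le t r0 hdc
      (fun z hz => hFb z (sphere_subset_closedBall hz))
    rw [hj, norm_mul, norm_pow] at h1
    have hlt : 0 < ‖lam‖ ^ t := pow_pos hlam t
    have h2 : ‖jt (Pt ep h y) D c t‖ ≤ t.factorial * ((C : ℝ) ^ D * η) / r ^ t / ‖lam‖ ^ t := by
      rw [le_div_iff₀ hlt, mul_comm]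
      exact h1
    refine h2.trans ?_
    calc t.factorial * ((C : ℝ) ^ D * η) / r ^ t / ‖lam‖ ^ t
        = t.factorial * ((C : ℝ) ^ D * η) * (1 / (r * ‖lam‖)) ^ t := by
          rw [div_div, ← mul_pow, one_div, inv_pow, div_eq_mul_inv]
      _ ≤ t.factorial * ((C : ℝ) ^ D * η) * (C : ℝ) ^ t := by gcongr
      _ = t.factorial * (C : ℝ) ^ (D + t) * η := by rw [pow_add]; ring
      _ ≤ t.factorial * (C : ℝ) ^ (D + t + 1) * η := by
          have h9 : (C : ℝ) ^ (D + t) ≤ (C : ℝ) ^ (D + t + 1) := pow_le_pow_right₀ c1 (by omega)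
          gcongr

end MJ

end S_H32_MJ_J3

section S_H32_MJ_J4

set_option autoImplicit false

namespace MJ

open Complex U2

variable {y : ℂ} (b : CZ.BaseFn y)

theorem GG_diff (D : ℕ) (c : Ix D → ℂ) : Differentiable ℂ (GG b D c) := by
  unfold GG
  refine Differentiable.mul ?_ ?_
  · exact ((differentiable_const _).mul (differentiable_id.pow 2)).cexp
  · refine Differentiable.fun_sum fun l _ => ?_
    refine (differentiable_const _).mul ((HH_diff b D l.1).mul ?_)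
    exact (HH_diff b D l.2).comp ((differentiable_const y).mul differentiable_id)

theorem GG_int (D : ℕ) (c : Ix D → ℂ) (m : ℤ) (s : ℂ) : GG b D c (s + m) = GG b D c s := by
  unfold GG
  rw [Finset.mul_sum, Finset.mul_sum]
  refine Finset.sum_congr rfl fun l _ => ?_
  rw [HH_int b D l.1 m s, show y * (s + m) = y * s + m * y by ring,
    HH_z b D l.2 (Nat.lt_succ_iff.1 l.2.2) m (y * s)]
  have h : exp (2 * Real.pi * I * D * y * (s + m) ^ 2) *
      exp (-(Real.pi * I * ((2 * D : ℕ) : ℂ) * y * (m : ℂ) ^ 2) -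
        2 * Real.pi * I * ((2 * D : ℕ) : ℂ) * (m * (y * s))) =
      exp (2 * Real.pi * I * D * y * s ^ 2) := by
    rw [← exp_add]
    congr 1
    push_cast
    ring
  rw [← h]
  ring

private theorem J4_HH {C0 : ℝ} (hC0 : 1 ≤ C0)
    (h : ∀ s : ℂ, ‖b.A s‖ ≤ Real.exp (C0 * (1 + s.im ^ 2)) ∧
      ‖deriv b.A s‖ ≤ Real.exp (C0 * (1 + s.im ^ 2)) ∧ ‖b.B s‖ ≤ Real.exp (C0 * (1 + s.im ^ 2)))
    (D i : ℕ) (hi : i ≤ D) (w : ℂ) :
    ‖HH b D i w‖ ≤ Real.exp (2 * D * (C0 * (1 + w.im ^ 2))) := by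
  obtain ⟨hA, -, hB⟩ := h w
  have hE : 1 ≤ Real.exp (C0 * (1 + w.im ^ 2)) := Real.one_le_exp (by positivity)
  unfold HH
  rw [norm_mul, norm_pow, norm_pow]
  calc ‖b.A w‖ ^ (2 * (D - i)) * ‖b.B w‖ ^ i
      ≤ Real.exp (C0 * (1 + w.im ^ 2)) ^ (2 * (D - i)) * Real.exp (C0 * (1 + w.im ^ 2)) ^ i := by
        gcongr
    _ = Real.exp (C0 * (1 + w.im ^ 2)) ^ (2 * (D - i) + i) := (pow_add _ _ _).symm
    _ ≤ Real.exp (C0 * (1 + w.im ^ 2)) ^ (2 * D) := pow_le_pow_right₀ hE (by omega)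
    _ = Real.exp (2 * D * (C0 * (1 + w.im ^ 2))) := by
        rw [← Real.exp_nat_mul]
        push_cast
        rfl

private theorem J4_exp (D : ℕ) : (D : ℝ) + 1 ≤ Real.exp D := Real.add_one_le_exp _

theorem GG_growth (hy : 0 < y.im) : ∃ C : ℕ, 1 ≤ C ∧ ∀ (D : ℕ) (c : Ix D → ℂ), 1 ≤ D →
    (∀ l, ‖c l‖ ≤ 1) → ∀ s : ℂ, ‖GG b D c s‖ ≤ Real.exp (C * D * (1 + s.im ^ 2)) := by
  obtain ⟨C0, hC0, hg⟩ := CZ.growth' b hy
  set K : ℝ := 2 * Real.pi * ‖y‖ + 2 * C0 + 2 * C0 * (1 + ‖y‖ ^ 2) + 2 with hK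
  have hpi := Real.pi_pos
  have hK2 : 2 ≤ K := by
    have : 0 ≤ 2 * Real.pi * ‖y‖ + 2 * C0 + 2 * C0 * (1 + ‖y‖ ^ 2) := by positivity
    linarith
  refine ⟨⌈K⌉₊, Nat.one_le_iff_ne_zero.2 (Nat.ceil_pos.2 (by linarith)).ne', ?_⟩
  intro D c hD hc s0
  have hD' : (1 : ℝ) ≤ D := by exact_mod_cast hD
  -- reduction
  obtain ⟨s, hs1, hs2, hs3⟩ : ∃ s : ℂ, GG b D c s0 = GG b D c s ∧ s.im = s0.im ∧
      ‖s‖ ^ 2 ≤ 1 + s0.im ^ 2 := by
    refine ⟨s0 + ((-⌊s0.re⌋ : ℤ) : ℂ), (GG_int b D c _ s0).symm, ?_, ?_⟩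
    · rw [add_im, intCast_im, add_zero]
    · rw [Complex.sq_norm, Complex.normSq_apply, add_im, intCast_im, add_zero, add_re, intCast_re]
      push_cast
      have h1 := Int.floor_le s0.re
      have h2 := Int.lt_floor_add_one s0.re
      nlinarith
  rw [hs1]
  set T : ℝ := 1 + s0.im ^ 2 with hT
  have hT1 : 1 ≤ T := by
    have := sq_nonneg s0.im
    linarith
  have e1 : ‖exp (2 * Real.pi * I * D * y * s ^ 2)‖ ≤ Real.exp (2 * Real.pi * ‖y‖ * (D * T)) := by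
    refine (Complex.norm_exp_le_exp_norm _).trans (Real.exp_le_exp.2 ?_)
    have h1 : ‖2 * (Real.pi : ℂ) * I * D * y * s ^ 2‖ = 2 * Real.pi * D * ‖y‖ * ‖s‖ ^ 2 := by
      rw [norm_mul, norm_mul, norm_mul, norm_mul, norm_mul, norm_pow, Complex.norm_I,
        Complex.norm_natCast, Complex.norm_real, Complex.norm_ofNat, Real.norm_of_nonneg hpi.le]
      ring
    rw [h1]
    calc 2 * Real.pi * D * ‖y‖ * ‖s‖ ^ 2 ≤ 2 * Real.pi * D * ‖y‖ * T := by gcongr
      _ = 2 * Real.pi * ‖y‖ * (D * T) := by ring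
  have e2 : ∀ l : Ix D, ‖c l * (HH b D l.1 s * HH b D l.2 (y * s))‖ ≤
      Real.exp ((2 * C0 + 2 * C0 * (1 + ‖y‖ ^ 2)) * (D * T)) := by
    intro l
    rw [norm_mul, norm_mul]
    have h1 := J4_HH b hC0 hg D l.1 (Nat.lt_succ_iff.1 l.1.2) s
    have h2 := J4_HH b hC0 hg D l.2 (Nat.lt_succ_iff.1 l.2.2) (y * s)
    have h3 : (y * s).im ^ 2 ≤ ‖y‖ ^ 2 * T := by
      calc (y * s).im ^ 2 = |(y * s).im| ^ 2 := (sq_abs _).symm
        _ ≤ ‖y * s‖ ^ 2 := pow_le_pow_left₀ (abs_nonneg _) (Complex.abs_im_le_norm _) 2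
        _ = ‖y‖ ^ 2 * ‖s‖ ^ 2 := by rw [norm_mul, mul_pow]
        _ ≤ ‖y‖ ^ 2 * T := by gcongr
    have h4 : ‖HH b D l.1 s‖ ≤ Real.exp (2 * C0 * (D * T)) := by
      refine h1.trans (Real.exp_le_exp.2 (le_of_eq ?_))
      rw [hs2]
      ring
    have h5 : ‖HH b D l.2 (y * s)‖ ≤ Real.exp (2 * C0 * (1 + ‖y‖ ^ 2) * (D * T)) := by
      refine h2.trans (Real.exp_le_exp.2 ?_)
      have h6 : 1 + (y * s).im ^ 2 ≤ (1 + ‖y‖ ^ 2) * T := by
        linarith
      calc 2 * (D : ℝ) * (C0 * (1 + (y * s).im ^ 2)) ≤ 2 * (D : ℝ) * (C0 * ((1 + ‖y‖ ^ 2) * T)) := by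
            gcongr
        _ = 2 * C0 * (1 + ‖y‖ ^ 2) * (D * T) := by ring
    calc ‖c l‖ * (‖HH b D l.1 s‖ * ‖HH b D l.2 (y * s)‖)
        ≤ 1 * (Real.exp (2 * C0 * (D * T)) * Real.exp (2 * C0 * (1 + ‖y‖ ^ 2) * (D * T))) := by
          gcongr
          exact hc l
      _ = Real.exp ((2 * C0 + 2 * C0 * (1 + ‖y‖ ^ 2)) * (D * T)) := by
          rw [one_mul, ← Real.exp_add]
          congr 1
          ring
  have e3 : ‖∑ l, c l * (HH b D l.1 s * HH b D l.2 (y * s))‖ ≤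
      Real.exp (2 * (D * T)) * Real.exp ((2 * C0 + 2 * C0 * (1 + ‖y‖ ^ 2)) * (D * T)) := by
    refine (norm_sum_le _ _).trans ((Finset.sum_le_sum fun l _ => e2 l).trans ?_)
    rw [Finset.sum_const, nsmul_eq_mul]
    refine mul_le_mul_of_nonneg_right ?_ (Real.exp_pos _).le
    rw [Finset.card_univ, Fintype.card_prod, Fintype.card_fin]
    push_cast
    have h1 := J4_exp D
    calc ((D : ℝ) + 1) * (D + 1) ≤ Real.exp D * Real.exp D := by gcongr
      _ = Real.exp (2 * (D : ℝ)) := by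
          rw [← Real.exp_add]
          congr 1
          ring
      _ ≤ Real.exp (2 * (D * T)) := by
          refine Real.exp_le_exp.2 ?_
          have : (D : ℝ) * 1 ≤ D * T := by gcongr
          linarith
  unfold GG
  rw [norm_mul]
  calc ‖exp (2 * Real.pi * I * D * y * s ^ 2)‖ * ‖∑ l, c l * (HH b D l.1 s * HH b D l.2 (y * s))‖
      ≤ Real.exp (2 * Real.pi * ‖y‖ * (D * T)) *
        (Real.exp (2 * (D * T)) * Real.exp ((2 * C0 + 2 * C0 * (1 + ‖y‖ ^ 2)) * (D * T))) := by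
        gcongr
    _ = Real.exp (K * (D * T)) := by
        rw [← Real.exp_add, ← Real.exp_add, hK]
        congr 1
        ring
    _ ≤ Real.exp ((⌈K⌉₊ : ℝ) * D * T) := by
        refine Real.exp_le_exp.2 ?_
        rw [mul_assoc]
        exact mul_le_mul_of_nonneg_right (Nat.le_ceil K) (by positivity)

theorem HV_growth (hy : 0 < y.im) : ∃ C : ℕ, 1 ≤ C ∧ ∀ (D : ℕ) (R : Fin (D + 1) → ℂ) (ρ : ℝ),
    1 ≤ D → (∀ k, ‖R k‖ ≤ ρ) → ∀ v : ℂ, ‖HV b D R v‖ ≤ ρ * Real.exp (C * D * (1 + ‖v‖ ^ 2)) := by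
  obtain ⟨C0, hC0, hg⟩ := CZ.growth' b hy
  refine ⟨⌈1 + 2 * C0⌉₊, Nat.one_le_iff_ne_zero.2 (Nat.ceil_pos.2 (by linarith)).ne', ?_⟩
  intro D R ρ hD hR v
  have hD' : (1 : ℝ) ≤ D := by exact_mod_cast hD
  have hρ : 0 ≤ ρ := (norm_nonneg _).trans (hR 0)
  have hT1 : 1 ≤ 1 + ‖v‖ ^ 2 := by
    have := sq_nonneg ‖v‖
    linarith
  have hv : v.im ^ 2 ≤ ‖v‖ ^ 2 := by
    calc v.im ^ 2 = |v.im| ^ 2 := (sq_abs _).symm
      _ ≤ ‖v‖ ^ 2 := pow_le_pow_left₀ (abs_nonneg _) (Complex.abs_im_le_norm _) 2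
  have e1 : ∀ k : Fin (D + 1), ‖R k * HH b D k v‖ ≤
      ρ * Real.exp (2 * C0 * (D * (1 + ‖v‖ ^ 2))) := by
    intro k
    rw [norm_mul]
    have h1 := J4_HH b hC0 hg D k (Nat.lt_succ_iff.1 k.2) v
    refine mul_le_mul (hR k) (h1.trans (Real.exp_le_exp.2 ?_)) (norm_nonneg _) hρ
    calc 2 * (D : ℝ) * (C0 * (1 + v.im ^ 2)) ≤ 2 * (D : ℝ) * (C0 * (1 + ‖v‖ ^ 2)) := by gcongr
      _ = 2 * C0 * (D * (1 + ‖v‖ ^ 2)) := by ring
  unfold HV
  refine (norm_sum_le _ _).trans ((Finset.sum_le_sum fun k _ => e1 k).trans ?_)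
  rw [Finset.sum_const, nsmul_eq_mul, Finset.card_univ, Fintype.card_fin]
  push_cast
  have h1 := J4_exp D
  calc ((D : ℝ) + 1) * (ρ * Real.exp (2 * C0 * (D * (1 + ‖v‖ ^ 2))))
      ≤ Real.exp D * (ρ * Real.exp (2 * C0 * (D * (1 + ‖v‖ ^ 2)))) := by gcongr
    _ = ρ * Real.exp (D + 2 * C0 * (D * (1 + ‖v‖ ^ 2))) := by
        rw [Real.exp_add]
        ring
    _ ≤ ρ * Real.exp ((⌈1 + 2 * C0⌉₊ : ℝ) * D * (1 + ‖v‖ ^ 2)) := by
        refine mul_le_mul_of_nonneg_left (Real.exp_le_exp.2 ?_) hρ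
        have h2 : (D : ℝ) * 1 ≤ D * (1 + ‖v‖ ^ 2) := by gcongr
        calc (D : ℝ) + 2 * C0 * (D * (1 + ‖v‖ ^ 2))
            ≤ (1 + 2 * C0) * (D * (1 + ‖v‖ ^ 2)) := by linarith
          _ ≤ (⌈1 + 2 * C0⌉₊ : ℝ) * (D * (1 + ‖v‖ ^ 2)) :=
              mul_le_mul_of_nonneg_right (Nat.le_ceil _) (by positivity)
          _ = (⌈1 + 2 * C0⌉₊ : ℝ) * D * (1 + ‖v‖ ^ 2) := by ring

end MJ

end S_H32_MJ_J4

section S_H32_MJ_J10

set_option autoImplicit false

namespace MJ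

open Complex Metric U2

theorem J10_ball {y : ℂ} (b : CZ.BaseFn y) {r : ℝ} (hr0 : 0 < r) (hr : r ≤ 1 / 4) (D : ℕ)
    (c : Ix D → ℂ) {T0 n C' : ℕ} (hn : 1 ≤ n) (g0 : ℂ → ℂ) (hg0 : ContinuousAt g0 0)
    (hloc : ∀ s ∈ closedBall (0 : ℂ) r, GG b D c s = s ^ T0 * g0 s)
    (hgr : ∀ s : ℂ, ‖GG b D c s‖ ≤ Real.exp (C' * D * (1 + s.im ^ 2))) :
    ∀ s ∈ closedBall (0 : ℂ) r, ‖GG b D c s‖ ≤
      Real.exp (-((n : ℝ) * T0) + C' * D * (1 + (1 + 4 * (n : ℝ)) ^ 2)) := by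
  intro s hs
  have hs' : ‖s‖ ≤ r := by simpa using hs
  have hn' : (1 : ℝ) ≤ n := by exact_mod_cast hn
  set k : Fin n → ℤ := fun i => (i : ℤ) - (n / 2 : ℕ) with hk
  set u : Fin n → ℂ := fun i => (k i : ℂ) - s with hu
  have hkb : ∀ i, |(k i : ℝ)| ≤ n / 2 := by
    intro i
    have h1 : 2 * k i ≤ n := by
      have := i.2
      simp only [hk]
      omega
    have h2 : -(n : ℤ) ≤ 2 * k i := by
      have := i.2
      simp only [hk]
      omega
    have h3 : 2 * (k i : ℝ) ≤ n := by exact_mod_cast h1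
    have h4 : -(n : ℝ) ≤ 2 * (k i : ℝ) := by exact_mod_cast h2
    rw [abs_le]
    constructor <;> linarith
  have key := Hm_gen n u r n hr0 (by linarith) (by
      intro i
      have h1 : ‖u i‖ ≤ ‖(k i : ℂ)‖ + ‖s‖ := norm_sub_le _ _
      rw [Complex.norm_intCast] at h1
      have h2 := hkb i
      linarith)
    (by
      intro i j hij
      have h1 : u i - u j = ((k i - k j : ℤ) : ℂ) := by
        simp only [hu]
        push_cast
        ring
      rw [h1, Complex.norm_intCast]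
      have h2 : k i - k j ≠ 0 := by
        intro h3
        apply hij
        apply Fin.ext
        simp only [hk] at h3
        omega
      have h3 : (1 : ℝ) ≤ |((k i - k j : ℤ) : ℝ)| := by
        exact_mod_cast Int.one_le_abs h2
      linarith) (n * T0)
    (fun v => GG b D c (s + v)) (fun _ => T0) 0
    (Real.exp (C' * D * (1 + (1 + 4 * (n : ℝ)) ^ 2)))
    ((GG_diff b D c).comp ((differentiable_const s).add differentiable_id))
    (by simp) le_rfl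
    (by
      intro i
      refine ⟨fun _ => 0, fun v => g0 (v - u i), differentiableOn_const _, continuousOn_const, ?_, ?_,
        ?_⟩
      · have h1 : ContinuousAt (fun v : ℂ => v - u i) (u i) :=
          (continuous_id.sub continuous_const).continuousAt
        exact ContinuousAt.comp (f := fun v : ℂ => v - u i) (g := g0)
          (by simpa using hg0) h1
      · intro v hv
        have hv' : v - u i ∈ closedBall (0 : ℂ) r := by
          rw [mem_closedBall, dist_eq_norm] at hv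
          simpa using hv
        have h1 : s + v = (v - u i) + ((k i : ℤ) : ℂ) := by
          simp only [hu]
          ring
        have h2 : GG b D c (s + v) = GG b D c (v - u i) := by
          rw [h1, GG_int]
        change GG b D c (s + v) = _
        rw [h2, hloc _ hv', zero_add]
      · intro v _
        simp)
    (by
      intro v hv
      refine (hgr (s + v)).trans (Real.exp_le_exp.2 ?_)
      have h1 : |(s + v).im| ≤ 1 + 4 * n := by
        refine (Complex.abs_im_le_norm _).trans ((norm_add_le _ _).trans ?_)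
        linarith
      have h2 : (s + v).im ^ 2 ≤ (1 + 4 * (n : ℝ)) ^ 2 := by
        rw [← sq_abs (s + v).im]
        exact pow_le_pow_left₀ (abs_nonneg _) h1 2
      have h3 : (0 : ℝ) ≤ C' * D := by positivity
      exact mul_le_mul_of_nonneg_left (by linarith) h3)
  simp only [add_zero, mul_zero] at key
  refine key.trans ?_
  rw [Real.exp_add]
  apply mul_le_mul_of_nonneg_right _ (Real.exp_pos _).le
  have h3 : (1 / 3 : ℝ) ≤ Real.exp (-1) := by
    rw [Real.exp_neg, one_div]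
    apply inv_anti₀ (Real.exp_pos 1)
    have := Real.exp_one_lt_d9
    linarith
  calc (1 / 3 : ℝ) ^ (n * T0) ≤ Real.exp (-1) ^ (n * T0) :=
        pow_le_pow_left₀ (by norm_num) h3 _
    _ = Real.exp (-((n : ℝ) * T0)) := by
        rw [← Real.exp_nat_mul]
        congr 1
        push_cast
        ring

theorem J10_log (A B κ : ℝ) (hκ : 0 < κ) : ∃ D0 : ℕ, ∀ D : ℕ, D0 ≤ D →
    A + B * Real.log D ≤ D / κ := by
  have h1 := (Real.isLittleO_log_id_atTop.bound (c := 1 / (2 * κ * (|B| + 1))) (by positivity))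
  have h2 : ∀ᶠ x : ℝ in Filter.atTop, A + B * Real.log x ≤ x / κ := by
    filter_upwards [h1, Filter.eventually_ge_atTop (2 * κ * |A|), Filter.eventually_ge_atTop 1]
      with x hx hA hx1
    have hx0 : 0 ≤ Real.log x := Real.log_nonneg hx1
    have h3 : Real.log x ≤ 1 / (2 * κ * (|B| + 1)) * x := by
      have h4 : ‖Real.log x‖ = Real.log x := by rw [Real.norm_eq_abs, abs_of_nonneg hx0]
      have h5 : ‖id x‖ = x := by rw [id, Real.norm_eq_abs, abs_of_nonneg (by linarith)]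
      rw [h4, h5] at hx
      exact hx
    have h4 : A ≤ x / (2 * κ) := by
      rw [le_div_iff₀ (by positivity)]
      have := le_abs_self A
      nlinarith
    have h5 : B * Real.log x ≤ x / (2 * κ) := by
      calc B * Real.log x ≤ (|B| + 1) * Real.log x := by
            apply mul_le_mul_of_nonneg_right _ hx0
            have := le_abs_self B
            linarith
        _ ≤ (|B| + 1) * (1 / (2 * κ * (|B| + 1)) * x) :=
            mul_le_mul_of_nonneg_left h3 (by positivity)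
        _ = x / (2 * κ) := by
            have : |B| + 1 ≠ 0 := by positivity
            field_simp
    have h6 : x / κ = x / (2 * κ) + x / (2 * κ) := by
      field_simp
      ring
    linarith
  have h3 := tendsto_natCast_atTop_atTop (R := ℝ) |>.eventually h2
  exact Filter.eventually_atTop.1 h3

theorem J10_num (C1 C q : ℕ) (hC : 1 ≤ C) (hq : 1 ≤ q) : ∃ D0 : ℕ, 1 ≤ D0 ∧ ∀ D : ℕ, D0 ≤ D →
    ∀ t < C1 * D ^ 2, (t.factorial : ℝ) * (C : ℝ) ^ (D + t + 1) *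
      Real.exp (-((D : ℝ) ^ 3 / (16 * q))) ≤ Real.exp (-((D : ℝ) ^ 3 / (32 * q))) := by
  have hq' : (1 : ℝ) ≤ q := by exact_mod_cast hq
  obtain ⟨D1, hD1⟩ := J10_log (C1 * Real.log C1 + (2 + C1) * Real.log C) (2 * C1) (32 * q)
    (by positivity)
  refine ⟨D1 + 1, by omega, fun D hD t ht => ?_⟩
  have hDl := hD1 D (by omega)
  have hD0 : 1 ≤ D := by omega
  have hD' : (1 : ℝ) ≤ D := by exact_mod_cast hD0
  have hC1 : 1 ≤ C1 := by
    rcases Nat.eq_zero_or_pos C1 with h | h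
    · rw [h, zero_mul] at ht
      exact absurd ht (Nat.not_lt_zero _)
    · exact h
  have hC1' : (1 : ℝ) ≤ C1 := by exact_mod_cast hC1
  have hC' : (1 : ℝ) ≤ C := by exact_mod_cast hC
  have hfac : (t.factorial : ℝ) ≤ ((C1 : ℝ) * D ^ 2) ^ (C1 * D ^ 2) := by
    have h1 : t.factorial ≤ (C1 * D ^ 2) ^ (C1 * D ^ 2) := by
      calc t.factorial ≤ t ^ t := Nat.factorial_le_pow t
        _ ≤ (C1 * D ^ 2) ^ t := Nat.pow_le_pow_left ht.le _
        _ ≤ (C1 * D ^ 2) ^ (C1 * D ^ 2) := Nat.pow_le_pow_right (by positivity) ht.le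
    exact_mod_cast h1
  have hfac2 : ((C1 : ℝ) * D ^ 2) ^ (C1 * D ^ 2) =
      Real.exp ((C1 * D ^ 2) * (Real.log C1 + 2 * Real.log D)) := by
    have h1 : (0 : ℝ) < C1 * D ^ 2 := by positivity
    have h2 : Real.log C1 + 2 * Real.log D = Real.log (C1 * D ^ 2) := by
      rw [Real.log_mul (by positivity) (by positivity), Real.log_pow]
      push_cast
      ring
    rw [h2, show ((C1 : ℝ) * D ^ 2) = (((C1 * D ^ 2 : ℕ)) : ℝ) by push_cast; ring,
      Real.exp_nat_mul, Real.exp_log (by exact_mod_cast h1)]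
  have hCp : (C : ℝ) ^ (D + t + 1) ≤ Real.exp ((2 + C1) * D ^ 2 * Real.log C) := by
    have h1 : (C : ℝ) ^ (D + t + 1) = Real.exp (((D + t + 1 : ℕ) : ℝ) * Real.log C) := by
      rw [Real.exp_nat_mul, Real.exp_log (by linarith)]
    rw [h1]
    apply Real.exp_le_exp.2
    apply mul_le_mul_of_nonneg_right _ (Real.log_nonneg hC')
    have h2 : (t : ℝ) ≤ C1 * D ^ 2 := by exact_mod_cast ht.le
    push_cast
    nlinarith
  calc (t.factorial : ℝ) * (C : ℝ) ^ (D + t + 1) * Real.exp (-((D : ℝ) ^ 3 / (16 * q)))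
      ≤ Real.exp ((C1 * D ^ 2) * (Real.log C1 + 2 * Real.log D)) *
        Real.exp ((2 + C1) * D ^ 2 * Real.log C) * Real.exp (-((D : ℝ) ^ 3 / (16 * q))) := by
        apply mul_le_mul_of_nonneg_right _ (Real.exp_pos _).le
        exact mul_le_mul (hfac.trans hfac2.le) hCp (by positivity) (Real.exp_pos _).le
    _ = Real.exp ((C1 * D ^ 2) * (Real.log C1 + 2 * Real.log D) +
        (2 + C1) * D ^ 2 * Real.log C + -((D : ℝ) ^ 3 / (16 * q))) := by
        rw [Real.exp_add, Real.exp_add]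
    _ ≤ Real.exp (-((D : ℝ) ^ 3 / (32 * q))) := by
        apply Real.exp_le_exp.2
        have h3 := mul_le_mul_of_nonneg_left hDl (show (0 : ℝ) ≤ (D : ℝ) ^ 2 by positivity)
        have h4 : (D : ℝ) ^ 3 / (16 * q) = (D : ℝ) ^ 2 * (D / (32 * q)) + (D : ℝ) ^ 3 / (32 * q) := by
          field_simp
          ring
        rw [h4]
        nlinarith

theorem J10_exp {D n C' q T0 : ℕ} (hC' : 1 ≤ C') (hq : q = 10000 * C') (hD : 2 * q ≤ D)
    (hn : n = D / q) (hT0 : T0 = (D + 1) ^ 2 / 2) :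
    -((n : ℝ) * T0) + C' * D * (1 + (1 + 4 * (n : ℝ)) ^ 2) ≤ -((D : ℝ) ^ 3 / (16 * q)) := by
  have hq0 : 0 < q := by omega
  have hn2 : 2 ≤ n := by
    rw [hn, Nat.le_div_iff_mul_le hq0]
    exact hD
  have hnq : n * q ≤ D := by
    rw [hn]
    exact Nat.div_mul_le_self D q
  have hnq2 : D ≤ 2 * q * n := by
    have h1 : D < q * (n + 1) := by
      rw [hn]
      exact Nat.lt_mul_div_succ D hq0
    nlinarith
  have hT : D ^ 2 ≤ 2 * T0 := by
    have h1 : (D + 1) ^ 2 = D ^ 2 + 2 * D + 1 := by ring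
    rw [hT0, h1]
    omega
  have hn' : (2 : ℝ) ≤ n := by exact_mod_cast hn2
  have hq' : (0 : ℝ) < q := by exact_mod_cast hq0
  have hnq' : (n : ℝ) * q ≤ D := by exact_mod_cast hnq
  have hnq2' : (D : ℝ) ≤ 2 * q * n := by exact_mod_cast hnq2
  have hT' : (D : ℝ) ^ 2 ≤ 2 * T0 := by exact_mod_cast hT
  have hqC : (q : ℝ) = 10000 * C' := by exact_mod_cast hq
  have hD0 : (0 : ℝ) ≤ D := Nat.cast_nonneg _
  have hC0 : (1 : ℝ) ≤ C' := by exact_mod_cast hC'
  have h1 : 1 + (1 + 4 * (n : ℝ)) ^ 2 ≤ 26 * (n : ℝ) ^ 2 := by nlinarith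
  have h2 : (C' : ℝ) * D * (1 + (1 + 4 * (n : ℝ)) ^ 2) ≤ C' * D * (26 * (n : ℝ) ^ 2) :=
    mul_le_mul_of_nonneg_left h1 (by positivity)
  have h3 : (C' : ℝ) * D * (26 * (n : ℝ) ^ 2) ≤ n * (D : ℝ) ^ 2 / 8 := by
    have h4 : (n : ℝ) * (10000 * C') ≤ D := by rw [← hqC]; exact hnq'
    have h5 : (0 : ℝ) ≤ n * D := by positivity
    have h6 := mul_le_mul_of_nonneg_left h4 h5
    nlinarith
  have h4 : (n : ℝ) * (D : ℝ) ^ 2 / 2 ≤ n * T0 := by nlinarith
  have h5 : (D : ℝ) ^ 3 / (16 * q) ≤ n * (D : ℝ) ^ 2 / 8 := by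
    rw [div_le_iff₀ (by positivity)]
    have h6 := mul_le_mul_of_nonneg_left hnq2' (show (0 : ℝ) ≤ (D : ℝ) ^ 2 by positivity)
    nlinarith
  have h6 : (0 : ℝ) ≤ n * (D : ℝ) ^ 2 := by positivity
  linarith

/-- the functionals -/
noncomputable def J10_map (P : Fin 6 → ℂ) (D T0 : ℕ) : (Ix D → ℂ) →ₗ[ℂ] (Fin T0 → ℂ) where
  toFun c := fun t => jt P D c t
  map_add' c d := by
    ext t
    simp only [jt, Pi.add_apply, add_mul, Finset.sum_add_distrib]
  map_smul' a c := by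
    ext t
    simp only [jt, Pi.smul_apply, smul_eq_mul, RingHom.id_apply, Finset.mul_sum, mul_assoc]

theorem J10_rank (P : Fin 6 → ℂ) (D T0 : ℕ) (hT0 : 2 * T0 ≤ (D + 1) ^ 2) :
    (D + 1) ^ 2 ≤ 2 * Module.finrank ℂ (LinearMap.ker (J10_map P D T0)) := by
  have h1 := LinearMap.finrank_range_add_finrank_ker (J10_map P D T0)
  have h2 : Module.finrank ℂ (Ix D → ℂ) = (D + 1) ^ 2 := by
    rw [Module.finrank_fintype_fun_eq_card, Fintype.card_prod, Fintype.card_fin, sq]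
  have h3 : Module.finrank ℂ (LinearMap.range (J10_map P D T0)) ≤ T0 := by
    refine (Submodule.finrank_le _).trans ?_
    rw [Module.finrank_fintype_fun_eq_card, Fintype.card_fin]
  omega

theorem half {y : ℂ} (hy : 0 < y.im) {b : CZ.BaseFn y} {lam h kap ep : ℂ} {ε : ℝ}
    {Xf X1f Yf : ℂ → ℂ} (hS : CZ.BaseSys b lam h kap ep ε Xf X1f Yf) :
    ∃ κ : ℕ, 1 ≤ κ ∧ ∀ C1 : ℕ, ∃ D0 : ℕ, ∀ D : ℕ, D0 ≤ D →
      ∃ V : Submodule ℂ (Ix D → ℂ), (D + 1) ^ 2 ≤ 2 * Module.finrank ℂ V ∧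
        ∀ c ∈ V, (∀ l, ‖c l‖ ≤ 1) → ∀ t < C1 * D ^ 2,
          ‖jt (Pt ep h y) D c t‖ ≤ Real.exp (-((D : ℝ) ^ 3 / κ)) := by
  have hy0 : y ≠ 0 := by
    rintro rfl
    simp at hy
  obtain ⟨r, C, hr0, hr, hC, hloc⟩ := loc hy0 hS
  obtain ⟨C', hC', hgr⟩ := GG_growth b hy
  set q : ℕ := 10000 * C' with hq
  refine ⟨32 * q, by omega, fun C1 => ?_⟩
  obtain ⟨D1, hD11, hD1⟩ := J10_num C1 C q hC (by omega)
  refine ⟨D1 + 2 * q, fun D hD => ?_⟩
  set T0 : ℕ := (D + 1) ^ 2 / 2 with hT0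
  refine ⟨LinearMap.ker (J10_map (Pt ep h y) D T0), J10_rank _ D T0 (by omega), ?_⟩
  intro c hc hc1 t ht
  have hc' : ∀ t < T0, jt (Pt ep h y) D c t = 0 := by
    intro t ht
    have h1 := LinearMap.mem_ker.1 hc
    exact congrFun h1 ⟨t, ht⟩
  obtain ⟨h1, h2⟩ := hloc D c
  obtain ⟨a, g, _, _, hg, hag, ha⟩ := h1 T0 0 le_rfl (fun t ht => by rw [hc' t ht, norm_zero])
  have hloc' : ∀ s ∈ closedBall (0 : ℂ) r, GG b D c s = s ^ T0 * g s := by
    intro s hs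
    have h3 := ha s hs
    rw [mul_zero] at h3
    have h4 : a s = 0 := norm_le_zero_iff.1 h3
    rw [hag s hs, h4, zero_add]
  have hball := J10_ball b hr0 hr D c (T0 := T0) (n := D / q) (C' := C')
    (by rw [Nat.le_div_iff_mul_le (by omega)]; omega) g hg hloc'
    (hgr D c (by omega) hc1)
  have hexp := J10_exp (D := D) (n := D / q) (q := q) hC' hq (by omega) rfl hT0
  have h3 := h2 (Real.exp (-((D : ℝ) ^ 3 / (16 * q))))
    (fun s hs => (hball s hs).trans (Real.exp_le_exp.2 hexp)) t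
  refine h3.trans ((hD1 D (by omega) t ht).trans (le_of_eq ?_))
  push_cast
  ring_nf

end MJ

end S_H32_MJ_J10

section S_H32_MJ_J5

set_option autoImplicit false

namespace MJ

open Complex Metric U2

theorem J5_ball {y : ℂ} (b : CZ.BaseFn y) {r : ℝ} (hr0 : 0 < r) (hr : r ≤ 1 / 4) (D : ℕ)
    (c : Ix D → ℂ) {S K C' C3 : ℕ} (hD : 1 ≤ D) (hC3 : C3 = 4 * K + 8) {ε : ℝ} (hε : 0 ≤ ε)
    (a g0 : ℂ → ℂ) (ha1 : DifferentiableOn ℂ a (ball 0 r)) (ha2 : ContinuousOn a (closedBall 0 r))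
    (hg0 : ContinuousAt g0 0)
    (hloc : ∀ s ∈ closedBall (0 : ℂ) r, GG b D c s = a s + s ^ S * g0 s)
    (hae : ∀ s ∈ closedBall (0 : ℂ) r, ‖a s‖ ≤ ε)
    (hgr : ∀ s : ℂ, ‖GG b D c s‖ ≤ Real.exp (C' * D * (1 + s.im ^ 2))) :
    ∀ s : ℂ, |s.im| ≤ K * D → ‖GG b D c s‖ ≤
      (1 / 3) ^ (C3 * D * S) *
        Real.exp (C' * D * (1 + (K * (D : ℝ) + 4 * (C3 * D : ℕ)) ^ 2)) +
      2 * ((C3 * D * S : ℕ) : ℝ) * (2 * ((C3 * D : ℕ) : ℝ) / r) ^ (C3 * D * S) * ε := by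
  intro s hs
  have hD' : (1 : ℝ) ≤ D := by exact_mod_cast hD
  set n : ℕ := C3 * D with hn
  have hnD : (n : ℝ) = (4 * K + 8) * D := by
    rw [hn, hC3]
    push_cast
    ring
  have hK0 : (0 : ℝ) ≤ K * D := by positivity
  have hn1 : (1 : ℝ) ≤ n := by
    rw [hnD]
    nlinarith
  set k : Fin n → ℤ := fun i => ⌊s.re⌋ - (n / 2 : ℕ) + (i : ℤ) with hk
  set u : Fin n → ℂ := fun i => (k i : ℂ) - s with hu
  have hkb : ∀ i, |(k i : ℝ) - s.re| ≤ n / 2 + 1 := by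
    intro i
    have h1 : 2 * (k i - ⌊s.re⌋) ≤ n := by
      have := i.2
      simp only [hk]
      omega
    have h2 : -(n : ℤ) ≤ 2 * (k i - ⌊s.re⌋) := by
      have := i.2
      simp only [hk]
      omega
    have h3 : 2 * ((k i : ℝ) - ⌊s.re⌋) ≤ n := by exact_mod_cast h1
    have h4 : -(n : ℝ) ≤ 2 * ((k i : ℝ) - ⌊s.re⌋) := by exact_mod_cast h2
    have h5 := Int.floor_le s.re
    have h6 := Int.lt_floor_add_one s.re
    rw [abs_le]
    constructor <;> linarith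
  have key := Hm_gen n u r n hr0 (by linarith) (by
      intro i
      have h1 : ‖u i‖ ≤ |(u i).re| + |(u i).im| := Complex.norm_le_abs_re_add_abs_im _
      have h2 : (u i).re = (k i : ℝ) - s.re := by simp [hu]
      have h3 : (u i).im = - s.im := by simp [hu]
      rw [h2, h3, abs_neg] at h1
      have h4 := hkb i
      have h5 : (n : ℝ) / 2 + 1 + K * D ≤ n := by
        rw [hnD]
        nlinarith
      linarith)
    (by
      intro i j hij
      have h1 : u i - u j = ((k i - k j : ℤ) : ℂ) := by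
        simp only [hu]
        push_cast
        ring
      rw [h1, Complex.norm_intCast]
      have h2 : k i - k j ≠ 0 := by
        intro h3
        apply hij
        apply Fin.ext
        simp only [hk] at h3
        omega
      have h3 : (1 : ℝ) ≤ |((k i - k j : ℤ) : ℝ)| := by
        exact_mod_cast Int.one_le_abs h2
      linarith) (n * S)
    (fun v => GG b D c (s + v)) (fun _ => S) ε
    (Real.exp (C' * D * (1 + (K * (D : ℝ) + 4 * n) ^ 2)))
    ((GG_diff b D c).comp ((differentiable_const s).add differentiable_id))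
    (by simp) hε
    (by
      intro i
      have hsub : ∀ v ∈ closedBall (u i) r, v - u i ∈ closedBall (0 : ℂ) r := by
        intro v hv
        rw [mem_closedBall, dist_eq_norm] at hv
        simpa using hv
      have hsub2 : ∀ v ∈ ball (u i) r, v - u i ∈ ball (0 : ℂ) r := by
        intro v hv
        rw [mem_ball, dist_eq_norm] at hv
        simpa using hv
      refine ⟨fun v => a (v - u i), fun v => g0 (v - u i), ?_, ?_, ?_, ?_, ?_⟩
      · exact ha1.comp (differentiableOn_id.sub_const _) hsub2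
      · exact ha2.comp (continuousOn_id.sub continuousOn_const) hsub
      · have h1 : ContinuousAt (fun v : ℂ => v - u i) (u i) :=
          (continuous_id.sub continuous_const).continuousAt
        exact ContinuousAt.comp (f := fun v : ℂ => v - u i) (g := g0)
          (by simpa using hg0) h1
      · intro v hv
        have h1 : s + v = (v - u i) + ((k i : ℤ) : ℂ) := by
          simp only [hu]
          ring
        have h2 : GG b D c (s + v) = GG b D c (v - u i) := by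
          rw [h1, GG_int]
        change GG b D c (s + v) = _
        rw [h2, hloc _ (hsub v hv)]
      · intro v hv
        exact hae _ (hsub v hv))
    (by
      intro v hv
      refine (hgr (s + v)).trans (Real.exp_le_exp.2 ?_)
      have h1 : |(s + v).im| ≤ K * D + 4 * n := by
        rw [Complex.add_im]
        refine (abs_add_le _ _).trans ?_
        have h2 := (Complex.abs_im_le_norm v).trans hv
        linarith
      have h2 : (s + v).im ^ 2 ≤ (K * (D : ℝ) + 4 * (n : ℝ)) ^ 2 := by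
        rw [← sq_abs (s + v).im]
        exact pow_le_pow_left₀ (abs_nonneg _) h1 2
      have h3 : (0 : ℝ) ≤ C' * D := by positivity
      exact mul_le_mul_of_nonneg_left (by linarith) h3)
  simp only [add_zero] at key
  exact key

theorem J5_log (A B κ : ℝ) (hκ : 0 < κ) : ∃ D0 : ℕ, ∀ D : ℕ, D0 ≤ D →
    A + B * Real.log D ≤ D / κ := by
  have h1 := (Real.isLittleO_log_id_atTop.bound (c := 1 / (2 * κ * (|B| + 1))) (by positivity))
  have h2 : ∀ᶠ x : ℝ in Filter.atTop, A + B * Real.log x ≤ x / κ := by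
    filter_upwards [h1, Filter.eventually_ge_atTop (2 * κ * |A|), Filter.eventually_ge_atTop 1]
      with x hx hA hx1
    have hx0 : 0 ≤ Real.log x := Real.log_nonneg hx1
    have h3 : Real.log x ≤ 1 / (2 * κ * (|B| + 1)) * x := by
      have h4 : ‖Real.log x‖ = Real.log x := by rw [Real.norm_eq_abs, abs_of_nonneg hx0]
      have h5 : ‖id x‖ = x := by rw [id, Real.norm_eq_abs, abs_of_nonneg (by linarith)]
      rw [h4, h5] at hx
      exact hx
    have h4 : A ≤ x / (2 * κ) := by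
      rw [le_div_iff₀ (by positivity)]
      have := le_abs_self A
      nlinarith
    have h5 : B * Real.log x ≤ x / (2 * κ) := by
      calc B * Real.log x ≤ (|B| + 1) * Real.log x := by
            apply mul_le_mul_of_nonneg_right _ hx0
            have := le_abs_self B
            linarith
        _ ≤ (|B| + 1) * (1 / (2 * κ * (|B| + 1)) * x) :=
            mul_le_mul_of_nonneg_left h3 (by positivity)
        _ = x / (2 * κ) := by
            have : |B| + 1 ≠ 0 := by positivity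
            field_simp
    have h6 : x / κ = x / (2 * κ) + x / (2 * κ) := by
      field_simp
      ring
    linarith
  have h3 := tendsto_natCast_atTop_atTop (R := ℝ) |>.eventually h2
  exact Filter.eventually_atTop.1 h3

theorem J5_first {D C3 C1 A C' K : ℕ} (hD : 1 ≤ D) (hC3 : 1 ≤ C3)
    (hC1 : C1 = A + 2 + C' * (1 + (K + 4 * C3) ^ 2)) :
    (1 / 3 : ℝ) ^ (C3 * D * (C1 * D ^ 2)) *
        Real.exp (C' * D * (1 + (K * (D : ℝ) + 4 * (C3 * D : ℕ)) ^ 2)) ≤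
      Real.exp (-(A * (D : ℝ) ^ 3)) / 2 := by
  have hD' : (1 : ℝ) ≤ D := by exact_mod_cast hD
  have hC3' : (1 : ℝ) ≤ C3 := by exact_mod_cast hC3
  have h3 : (1 / 3 : ℝ) ≤ Real.exp (-1) := by
    rw [Real.exp_neg, one_div]
    apply inv_anti₀ (Real.exp_pos 1)
    have := Real.exp_one_lt_d9
    linarith
  have h4 : (1 / 3 : ℝ) ^ (C3 * D * (C1 * D ^ 2)) ≤ Real.exp (-((C1 : ℝ) * D ^ 3)) := by
    calc (1 / 3 : ℝ) ^ (C3 * D * (C1 * D ^ 2)) ≤ Real.exp (-1) ^ (C3 * D * (C1 * D ^ 2)) :=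
          pow_le_pow_left₀ (by norm_num) h3 _
      _ = Real.exp (-((C3 : ℝ) * (C1 * D ^ 3))) := by
          rw [← Real.exp_nat_mul]
          congr 1
          push_cast
          ring
      _ ≤ Real.exp (-((C1 : ℝ) * D ^ 3)) := by
          apply Real.exp_le_exp.2
          have : (0 : ℝ) ≤ C1 * D ^ 3 := by positivity
          nlinarith
  have h5 : (C' : ℝ) * D * (1 + (K * (D : ℝ) + 4 * (C3 * D : ℕ)) ^ 2) ≤
      C' * (1 + (K + 4 * C3) ^ 2) * D ^ 3 := by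
    have h6 : 1 + (K * (D : ℝ) + 4 * (C3 * D : ℕ)) ^ 2 ≤ (1 + (K + 4 * (C3 : ℝ)) ^ 2) * D ^ 2 := by
      have h7 : (K * (D : ℝ) + 4 * (C3 * D : ℕ)) = (K + 4 * C3) * D := by
        push_cast
        ring
      rw [h7]
      have h8 : (1 : ℝ) ≤ (D : ℝ) ^ 2 := one_le_pow₀ hD'
      rw [mul_pow, add_mul]
      linarith
    calc (C' : ℝ) * D * (1 + (K * (D : ℝ) + 4 * (C3 * D : ℕ)) ^ 2)
        ≤ C' * D * ((1 + (K + 4 * (C3 : ℝ)) ^ 2) * D ^ 2) :=
          mul_le_mul_of_nonneg_left h6 (by positivity)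
      _ = C' * (1 + (K + 4 * C3) ^ 2) * D ^ 3 := by ring
  have h9 : Real.exp (-((C1 : ℝ) * D ^ 3)) *
      Real.exp (C' * (1 + (K + 4 * C3) ^ 2) * D ^ 3) = Real.exp (-((A + 2) * (D : ℝ) ^ 3)) := by
    rw [← Real.exp_add, hC1]
    congr 1
    push_cast
    ring
  have h10 : Real.exp (-((A + 2) * (D : ℝ) ^ 3)) ≤ Real.exp (-(A * (D : ℝ) ^ 3)) / 2 := by
    have h11 : -((A + 2) * (D : ℝ) ^ 3) ≤ -(A * (D : ℝ) ^ 3) + -1 := by
      have h8 : (1 : ℝ) ≤ (D : ℝ) ^ 3 := one_le_pow₀ hD'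
      nlinarith
    calc Real.exp (-((A + 2) * (D : ℝ) ^ 3)) ≤ Real.exp (-(A * (D : ℝ) ^ 3) + -1) :=
          Real.exp_le_exp.2 h11
      _ = Real.exp (-(A * (D : ℝ) ^ 3)) * (Real.exp 1)⁻¹ := by
          rw [Real.exp_add, Real.exp_neg 1]
      _ ≤ Real.exp (-(A * (D : ℝ) ^ 3)) * 2⁻¹ := by
          apply mul_le_mul_of_nonneg_left _ (Real.exp_pos _).le
          apply inv_anti₀ (by norm_num)
          have := Real.add_one_le_exp (1 : ℝ)
          linarith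
      _ = Real.exp (-(A * (D : ℝ) ^ 3)) / 2 := by rw [div_eq_mul_inv]
  calc _ ≤ Real.exp (-((C1 : ℝ) * D ^ 3)) *
        Real.exp (C' * (1 + (K + 4 * C3) ^ 2) * D ^ 3) :=
        mul_le_mul h4 (Real.exp_le_exp.2 h5) (Real.exp_pos _).le (Real.exp_pos _).le
    _ = _ := h9
    _ ≤ _ := h10

theorem J5_second (C3 C1 A C : ℕ) (r : ℝ) (hr0 : 0 < r) (hr : r ≤ 1 / 4) (hC3 : 1 ≤ C3)
    (hC1 : 1 ≤ C1) (hC : 1 ≤ C) : ∃ D0 : ℕ, ∀ D : ℕ, D0 ≤ D → 1 ≤ D →
    2 * ((C3 * D * (C1 * D ^ 2) : ℕ) : ℝ) *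
      (2 * ((C3 * D : ℕ) : ℝ) / r) ^ (C3 * D * (C1 * D ^ 2)) *
        ((C : ℝ) ^ (D + 1) * Real.exp (-(D : ℝ) ^ 4)) ≤ Real.exp (-(A * (D : ℝ) ^ 3)) / 2 := by
  obtain ⟨D0, hD0⟩ := J5_log (C3 * C1 * (1 + Real.log (2 * C3 / r)) + 2 * Real.log C + A + 1)
    (C3 * C1) 1 one_pos
  refine ⟨D0, fun D hD hD1 => ?_⟩
  have hl := hD0 D hD
  rw [div_one] at hl
  have hD' : (1 : ℝ) ≤ D := by exact_mod_cast hD1
  have hC3' : (1 : ℝ) ≤ C3 := by exact_mod_cast hC3
  have hC1' : (1 : ℝ) ≤ C1 := by exact_mod_cast hC1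
  have hC' : (1 : ℝ) ≤ C := by exact_mod_cast hC
  obtain ⟨m, hm⟩ : ∃ m : ℕ, m = C3 * D * (C1 * D ^ 2) := ⟨_, rfl⟩
  have hmr : (m : ℝ) = C3 * C1 * D ^ 3 := by
    rw [hm]
    push_cast
    ring
  have hm0 : (0 : ℝ) ≤ m := Nat.cast_nonneg _
  rw [← hm]
  have e1 : 2 * (m : ℝ) ≤ Real.exp m := by
    have h1 := Real.quadratic_le_exp_of_nonneg hm0
    nlinarith [sq_nonneg ((m : ℝ) - 1)]
  have hpos : 0 < 2 * (C3 : ℝ) / r := by positivity
  have e2 : (2 * ((C3 * D : ℕ) : ℝ) / r) ^ m =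
      Real.exp (m * (Real.log (2 * C3 / r) + Real.log D)) := by
    have h1 : 2 * ((C3 * D : ℕ) : ℝ) / r = 2 * C3 / r * D := by
      push_cast
      ring
    rw [h1, ← Real.log_mul hpos.ne' (by positivity), Real.exp_nat_mul,
      Real.exp_log (by positivity)]
  have e3 : (C : ℝ) ^ (D + 1) = Real.exp ((D + 1) * Real.log C) := by
    have h1 : ((D : ℝ) + 1) = ((D + 1 : ℕ) : ℝ) := by push_cast; ring
    rw [h1, Real.exp_nat_mul, Real.exp_log (by linarith)]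
  have hlC : 0 ≤ Real.log C := Real.log_nonneg hC'
  have hD3 : (1 : ℝ) ≤ (D : ℝ) ^ 3 := one_le_pow₀ hD'
  have e4 : (m : ℝ) + m * (Real.log (2 * C3 / r) + Real.log D) + (D + 1) * Real.log C +
      -(D : ℝ) ^ 4 ≤ -(A * (D : ℝ) ^ 3) + -1 := by
    have h1 := mul_le_mul_of_nonneg_left hl (show (0 : ℝ) ≤ (D : ℝ) ^ 3 by positivity)
    have h2 : ((D : ℝ) + 1) * Real.log C ≤ 2 * (D : ℝ) ^ 3 * Real.log C := by
      apply mul_le_mul_of_nonneg_right _ hlC
      have h3 : (D : ℝ) ≤ (D : ℝ) ^ 3 := by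
        calc (D : ℝ) = D ^ 1 := (pow_one _).symm
          _ ≤ (D : ℝ) ^ 3 := pow_le_pow_right₀ hD' (by norm_num)
      linarith
    rw [hmr]
    have h4 : (D : ℝ) ^ 3 * D = (D : ℝ) ^ 4 := by ring
    rw [h4] at h1
    have h5 : (D : ℝ) ^ 3 * (C3 * C1 * (1 + Real.log (2 * C3 / r)) + 2 * Real.log C + A + 1 +
        C3 * C1 * Real.log D) = C3 * C1 * D ^ 3 + C3 * C1 * D ^ 3 *
        (Real.log (2 * C3 / r) + Real.log D) + 2 * (D : ℝ) ^ 3 * Real.log C + A * (D : ℝ) ^ 3 +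
        (D : ℝ) ^ 3 := by ring
    rw [h5] at h1
    linarith
  calc 2 * (m : ℝ) * (2 * ((C3 * D : ℕ) : ℝ) / r) ^ m *
        ((C : ℝ) ^ (D + 1) * Real.exp (-(D : ℝ) ^ 4))
      ≤ Real.exp m * Real.exp (m * (Real.log (2 * C3 / r) + Real.log D)) *
        (Real.exp ((D + 1) * Real.log C) * Real.exp (-(D : ℝ) ^ 4)) := by
        rw [e2, e3]
        gcongr
    _ = Real.exp ((m : ℝ) + m * (Real.log (2 * C3 / r) + Real.log D) + (D + 1) * Real.log C +
      -(D : ℝ) ^ 4) := by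
        rw [Real.exp_add, Real.exp_add, Real.exp_add]
        ring
    _ ≤ Real.exp (-(A * (D : ℝ) ^ 3) + -1) := Real.exp_le_exp.2 e4
    _ = Real.exp (-(A * (D : ℝ) ^ 3)) * (Real.exp 1)⁻¹ := by
        rw [Real.exp_add, Real.exp_neg 1]
    _ ≤ Real.exp (-(A * (D : ℝ) ^ 3)) * 2⁻¹ := by
        apply mul_le_mul_of_nonneg_left _ (Real.exp_pos _).le
        apply inv_anti₀ (by norm_num)
        have := Real.add_one_le_exp (1 : ℝ)
        linarith
    _ = Real.exp (-(A * (D : ℝ) ^ 3)) / 2 := by rw [div_eq_mul_inv]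

theorem GG_small {y : ℂ} (hy : 0 < y.im) {b : CZ.BaseFn y} {lam h kap ep : ℂ} {ε : ℝ}
    {Xf X1f Yf : ℂ → ℂ} (hS : CZ.BaseSys b lam h kap ep ε Xf X1f Yf) (K A : ℕ) :
    ∃ C1 D0 : ℕ, 1 ≤ C1 ∧ ∀ (D : ℕ) (c : Ix D → ℂ), D0 ≤ D → (∀ l, ‖c l‖ ≤ 1) →
      (∀ t < C1 * D ^ 2, ‖jt (Pt ep h y) D c t‖ ≤ Real.exp (-(D : ℝ) ^ 4)) →
      ∀ s : ℂ, |s.im| ≤ K * D → ‖GG b D c s‖ ≤ Real.exp (-(A * (D : ℝ) ^ 3)) := by
  have hy0 : y ≠ 0 := by
    rintro rfl
    simp at hy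
  obtain ⟨r, C, hr0, hr, hC, hloc⟩ := loc hy0 hS
  obtain ⟨C', hC', hgr⟩ := GG_growth b hy
  obtain ⟨C3, hC3⟩ : ∃ C3 : ℕ, C3 = 4 * K + 8 := ⟨_, rfl⟩
  obtain ⟨C1, hC1⟩ : ∃ C1 : ℕ, C1 = A + 2 + C' * (1 + (K + 4 * C3) ^ 2) := ⟨_, rfl⟩
  have hC31 : 1 ≤ C3 := by omega
  have hC11 : 1 ≤ C1 := by omega
  obtain ⟨D0, hD0⟩ := J5_second C3 C1 A C r hr0 hr hC31 hC11 hC
  refine ⟨C1, D0 + 1, hC11, ?_⟩
  intro D c hD hc hj s hs
  have hD1 : 1 ≤ D := by omega
  obtain ⟨h1, _⟩ := hloc D c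
  obtain ⟨a, g, ha1, ha2, hg, hag, hae⟩ := h1 (C1 * D ^ 2) _ (Real.exp_pos _).le hj
  have h2 := J5_ball b hr0 hr D c (S := C1 * D ^ 2) (K := K) (C' := C') hD1 hC3
    (ε := (C : ℝ) ^ (D + 1) * Real.exp (-(D : ℝ) ^ 4)) (by positivity) a g ha1 ha2 hg hag hae
    (hgr D c hD1 hc) s hs
  have h3 := J5_first (D := D) (K := K) hD1 hC31 hC1
  have h4 := hD0 D (by omega) hD1
  linarith

end MJ

end S_H32_MJ_J5

section S_H32_MJ_J6

set_option autoImplicit false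

namespace MJ

open Complex Metric U2

variable {y : ℂ} (b : CZ.BaseFn y)

theorem HV_nondeg (hy : 0 < y.im) : ∃ C : ℕ, 1 ≤ C ∧ ∀ (D : ℕ) (R : Fin (D + 1) → ℂ),
    ∃ x : ℂ, ‖x‖ ≤ 1 ∧ ∀ k, ‖R k‖ ≤ (C : ℝ) ^ (D + 1) * ‖HV b D R x‖ := by
  obtain ⟨C0, hC0, hnd⟩ := nondeg b
  obtain ⟨K, hK1, hK⟩ : ∃ K : ℕ, 1 ≤ K ∧ ∀ x : ℂ, ‖x‖ ≤ 1 → ‖b.A x‖ ≤ K := by
    obtain ⟨K0, hK0⟩ := (isCompact_closedBall (0 : ℂ) 1).exists_bound_of_continuousOn
      (f := b.A) b.dA.continuous.continuousOn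
    refine ⟨⌈K0⌉₊ + 1, by omega, fun x hx => ?_⟩
    have h1 := hK0 x (by rw [mem_closedBall_zero_iff]; exact hx)
    have h2 := Nat.le_ceil K0
    push_cast
    linarith
  refine ⟨C0 * K ^ 2, ?_, ?_⟩
  · exact Nat.one_le_iff_ne_zero.2 (by positivity)
  intro D R
  obtain ⟨x1, x2, hx1, hx2, hb⟩ := hnd D (fun i k => if i = 0 then R k else 0)
  refine ⟨x2, hx2, fun k => ?_⟩
  have h1 := hb 0 k
  have h2 : ∑ j1 : Fin (D + 1), ∑ j2 : Fin (D + 1),
      (if j1 = 0 then R j2 else 0) * HH b D j1 x1 * HH b D j2 x2 =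
      HH b D 0 x1 * HV b D R x2 := by
    rw [Finset.sum_eq_single 0]
    · simp only [if_true, HV, Finset.mul_sum, Fin.val_zero]
      exact Finset.sum_congr rfl fun j _ => by ring
    · intro j _ hj
      simp [hj]
    · intro h
      exact absurd (Finset.mem_univ _) h
  rw [h2] at h1
  simp only [if_true] at h1
  have h3 : ‖HH b D 0 x1‖ ≤ ((K : ℝ) ^ 2) ^ (D + 1) := by
    unfold HH
    rw [pow_zero, mul_one, Nat.sub_zero, norm_pow, pow_mul]
    have h4 := hK x1 hx1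
    have hK1' : (1 : ℝ) ≤ K := by exact_mod_cast hK1
    calc (‖b.A x1‖ ^ 2) ^ D ≤ ((K : ℝ) ^ 2) ^ D := by gcongr
      _ ≤ ((K : ℝ) ^ 2) ^ (D + 1) :=
        pow_le_pow_right₀ (one_le_pow₀ hK1') (Nat.le_succ D)
  refine h1.trans ?_
  rw [norm_mul]
  push_cast
  rw [mul_pow, mul_assoc]
  gcongr

private theorem J6_loc (g : ℂ → ℂ) (hg : Differentiable ℂ g) (u : ℂ) (δ ε : ℝ)
    (h : ‖g u‖ ≤ ε) : ∃ a b : ℂ → ℂ, Differentiable ℂ a ∧ Differentiable ℂ b ∧
      (∀ v, g v = a v + (v - u) ^ 1 * b v) ∧ ∀ v, ‖v - u‖ ≤ δ → ‖a v‖ ≤ ε := by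
  refine ⟨fun _ => g u, dslope g u, differentiable_const _, ?_, ?_, fun _ _ => h⟩
  · rw [← differentiableOn_univ, Complex.differentiableOn_dslope Filter.univ_mem]
    exact hg.differentiableOn
  · intro v
    have := sub_smul_dslope g u v
    rw [smul_eq_mul] at this
    rw [pow_one, this]
    ring

theorem HV_low (hy : 0 < y.im) : ∃ C : ℕ, 1 ≤ C ∧ ∀ (D : ℕ) (R : Fin (D + 1) → ℂ) (n : ℕ)
    (v : Fin n → ℂ) (δ η : ℝ), 1 ≤ D → C * D ≤ n → 0 < δ → δ ≤ 1 → 0 ≤ η →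
    (∀ i, ‖v i‖ ≤ 1 + 2 * ‖y‖) → (∀ i k, i ≠ k → 2 * δ ≤ ‖v i - v k‖) →
    (∀ i, ‖HV b D R (v i)‖ ≤ η) → ∀ k, ‖R k‖ ≤ ((C : ℝ) / δ) ^ (2 * n) * η := by
  obtain ⟨C0, hC0, hnd⟩ := HV_nondeg b hy
  obtain ⟨C1, hC1, hgr⟩ := HV_growth b hy
  set R0 : ℝ := 3 + 2 * ‖y‖ with hR0
  have hy0 := norm_nonneg y
  have hR03 : 3 ≤ R0 := by rw [hR0]; linarith
  set L : ℝ := 1 + (1 + 4 * R0) ^ 2 with hL
  have hL1 : 1 ≤ L := by
    rw [hL]
    nlinarith [sq_nonneg (1 + 4 * R0)]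
  have hC0' : (1 : ℝ) ≤ C0 := by exact_mod_cast hC0
  have hC1' : (1 : ℝ) ≤ C1 := by exact_mod_cast hC1
  set Cr : ℝ := 2 * C0 + C1 * L + 1 + 8 * C0 ^ 2 * R0 with hCr
  have hCL : 0 ≤ C1 * L := by positivity
  have h8 : 0 ≤ 8 * (C0 : ℝ) ^ 2 * R0 := by positivity
  have hCr1 : 1 ≤ Cr := by
    rw [hCr]
    linarith
  refine ⟨⌈Cr⌉₊, Nat.one_le_ceil_iff.2 (by linarith), ?_⟩
  intro D R n v δ η hD hn hδ hδ1 hη hv hsep hval
  have hCc : Cr ≤ (⌈Cr⌉₊ : ℝ) := Nat.le_ceil _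
  set C : ℝ := (⌈Cr⌉₊ : ℝ) with hCdef
  have hC1r : 1 ≤ C := hCr1.trans hCc
  have hDr : (1 : ℝ) ≤ D := by exact_mod_cast hD
  have hnr : C * D ≤ n := by
    rw [hCdef]
    exact_mod_cast hn
  have hDn : (D : ℝ) ≤ n := by nlinarith
  have hDnN : D ≤ n := by exact_mod_cast hDn
  have hn1 : 1 ≤ n := le_trans hD hDnN
  -- the largest coefficient
  obtain ⟨k0, -, hk0⟩ := Finset.exists_max_image (Finset.univ : Finset (Fin (D + 1)))
    (fun k => ‖R k‖) ⟨0, Finset.mem_univ _⟩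
  set ρ : ℝ := ‖R k0‖ with hρ
  have hρ0 : 0 ≤ ρ := norm_nonneg _
  have hρk : ∀ k, ‖R k‖ ≤ ρ := fun k => hk0 k (Finset.mem_univ _)
  obtain ⟨x, hx, hxk⟩ := hnd D R
  set g : ℂ → ℂ := fun w => HV b D R (x + w) with hg
  have hgd : Differentiable ℂ g := by
    rw [hg]
    unfold HV
    refine Differentiable.fun_sum fun k _ => ?_
    exact ((HH_diff b D k).comp ((differentiable_const x).add differentiable_id)).const_mul _
  set M : ℝ := ρ * Real.exp (C1 * D * L) with hM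
  have hgM : ∀ w, ‖w‖ ≤ 4 * R0 → ‖g w‖ ≤ M := by
    intro w hw
    refine (hgr D R ρ hD hρk (x + w)).trans ?_
    rw [hM, hL]
    have h1 : ‖x + w‖ ≤ 1 + 4 * R0 := (norm_add_le _ _).trans (by linarith)
    have h2 : ‖x + w‖ ^ 2 ≤ (1 + 4 * R0) ^ 2 := by gcongr
    gcongr
  have hher := hermite g hgd n 1 (fun i => v i - x) δ R0 η M hδ (by linarith)
    (fun i => (norm_sub_le _ _).trans (by have := hv i; rw [hR0]; linarith))
    (fun i j hij => by
      have e : v i - x - (v j - x) = v i - v j := by ring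
      rw [e]
      exact hsep i j hij) hη
    (fun i => J6_loc g hgd (v i - x) δ η (by
      have e : g (v i - x) = HV b D R (v i) := by
        change HV b D R (x + (v i - x)) = HV b D R (v i)
        rw [add_sub_cancel]
      rw [e]
      exact hval i)) hgM
  rw [mul_one] at hher
  -- the bound of the largest coefficient
  have hg0 : g 0 = HV b D R x := by rw [hg]; simp
  have hE : ρ ≤ (C0 : ℝ) ^ (D + 1) * ‖g 0‖ := by
    rw [hg0]
    exact hxk k0
  have hEpos : 0 < (C0 : ℝ) ^ (D + 1) := by positivity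
  have hEexp : (C0 : ℝ) ^ (D + 1) ≤ Real.exp (2 * C0 * D) := by
    have h1 : (C0 : ℝ) ≤ Real.exp C0 := by
      have := Real.add_one_le_exp (C0 : ℝ)
      linarith
    calc (C0 : ℝ) ^ (D + 1) ≤ Real.exp C0 ^ (D + 1) := by gcongr
      _ = Real.exp (((D + 1 : ℕ) : ℝ) * C0) := (Real.exp_nat_mul _ _).symm
      _ ≤ Real.exp (2 * C0 * D) := by
        apply Real.exp_le_exp.2
        push_cast
        nlinarith
  have h13 : ((1 : ℝ) / 3) ^ n ≤ Real.exp (-(n : ℝ)) := by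
    have h1 : (1 : ℝ) / 3 ≤ Real.exp (-1) := by
      rw [Real.exp_neg, one_div]
      exact inv_anti₀ (Real.exp_pos 1) Real.exp_one_lt_three.le
    calc ((1 : ℝ) / 3) ^ n ≤ Real.exp (-1) ^ n := by gcongr
      _ = Real.exp ((n : ℝ) * -1) := (Real.exp_nat_mul _ _).symm
      _ = Real.exp (-(n : ℝ)) := by ring_nf
  have hhalf : (C0 : ℝ) ^ (D + 1) * ((1 / 3) ^ n * M) ≤ ρ / 2 := by
    have h1 : Real.exp (-1) ≤ 1 / 2 := by
      rw [Real.exp_neg, one_div]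
      refine inv_anti₀ (by norm_num) ?_
      have := Real.add_one_le_exp (1 : ℝ)
      linarith
    calc (C0 : ℝ) ^ (D + 1) * ((1 / 3) ^ n * M)
        ≤ Real.exp (2 * C0 * D) * (Real.exp (-(n : ℝ)) * M) := by
          have : 0 ≤ M := by rw [hM]; positivity
          gcongr
      _ = ρ * Real.exp (2 * C0 * D + -(n : ℝ) + C1 * D * L) := by
          rw [hM, Real.exp_add, Real.exp_add]
          ring
      _ ≤ ρ * Real.exp (-1) := by
          have : 2 * C0 * D + -(n : ℝ) + C1 * D * L ≤ -1 := by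
            have h2 : Cr * D ≤ n := (mul_le_mul_of_nonneg_right hCc (by positivity)).trans hnr
            rw [hCr] at h2
            nlinarith
          gcongr
      _ ≤ ρ / 2 := by nlinarith
  have hmain : ρ ≤ 4 * n * (C0 : ℝ) ^ (D + 1) * (2 * R0 / δ) ^ n * η := by
    have h1 : (C0 : ℝ) ^ (D + 1) * ‖g 0‖ ≤ (C0 : ℝ) ^ (D + 1) *
        ((1 / 3) ^ n * M + 2 * ((n : ℕ) : ℝ) * (2 * R0 / δ) ^ n * η) :=
      mul_le_mul_of_nonneg_left (by exact_mod_cast hher) hEpos.le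
    rw [mul_add] at h1
    nlinarith
  have hE2 : (C0 : ℝ) ^ (D + 1) ≤ (C0 : ℝ) ^ (2 * n) :=
    pow_le_pow_right₀ hC0' (by omega)
  have h4n : 4 * (n : ℝ) ≤ 4 ^ n := by
    have h1 : ∀ m : ℕ, 4 * (m + 1) ≤ 4 ^ (m + 1) := by
      intro m
      induction m with
      | zero => norm_num
      | succ m ih =>
        rw [pow_succ]
        omega
    obtain ⟨m, rfl⟩ : ∃ m, n = m + 1 := ⟨n - 1, by omega⟩
    exact_mod_cast h1 m
  have hfin : 4 * n * (C0 : ℝ) ^ (D + 1) * (2 * R0 / δ) ^ n ≤ (C / δ) ^ (2 * n) := by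
    have hq0 : 0 ≤ (2 * R0 / δ) ^ n := by positivity
    calc 4 * n * (C0 : ℝ) ^ (D + 1) * (2 * R0 / δ) ^ n
        ≤ 4 ^ n * (C0 : ℝ) ^ (2 * n) * (2 * R0 / δ) ^ n := by gcongr
      _ = (4 * (C0 : ℝ) ^ 2 * (2 * R0 / δ)) ^ n := by
          rw [mul_pow, mul_pow, ← pow_mul]
      _ ≤ ((C / δ) ^ 2) ^ n := by
          have h1 : 4 * (C0 : ℝ) ^ 2 * (2 * R0 / δ) ≤ (C / δ) ^ 2 := by
            have h2 : 4 * (C0 : ℝ) ^ 2 * (2 * R0 / δ) = (8 * (C0 : ℝ) ^ 2 * R0 * δ) / δ ^ 2 := by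
              field_simp
              ring
            rw [h2, div_pow]
            have h3 : 8 * (C0 : ℝ) ^ 2 * R0 * δ ≤ C ^ 2 := by
              have h4 : 8 * (C0 : ℝ) ^ 2 * R0 ≤ C := by
                have : 8 * (C0 : ℝ) ^ 2 * R0 ≤ Cr := by
                  rw [hCr]
                  linarith
                linarith
              have h5 : 8 * (C0 : ℝ) ^ 2 * R0 * δ ≤ 8 * (C0 : ℝ) ^ 2 * R0 := by
                nlinarith
              nlinarith
            gcongr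
          exact pow_le_pow_left₀ (by positivity) h1 n
      _ = (C / δ) ^ (2 * n) := (pow_mul _ _ _).symm
  intro k
  calc ‖R k‖ ≤ ρ := hρk k
    _ ≤ 4 * n * (C0 : ℝ) ^ (D + 1) * (2 * R0 / δ) ^ n * η := hmain
    _ ≤ (C / δ) ^ (2 * n) * η := mul_le_mul_of_nonneg_right hfin hη

end MJ

end S_H32_MJ_J6

section S_H32_MJ_J7

set_option autoImplicit false

namespace MJ

open Complex U2

variable {y : ℂ} (b : CZ.BaseFn y)

theorem HH_zm (D i : ℕ) (hi : i ≤ D) (k m : ℤ) (s : ℂ) :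
    HH b D i (s + (2 * k * y - m)) = CZ.fac y k s ^ (2 * D) * HH b D i s := by
  obtain ⟨j, rfl⟩ := Nat.exists_eq_add_of_le hi
  unfold HH
  rw [CZ.A_zm, CZ.B_zm, Nat.add_sub_cancel_left]
  ring

theorem J7_HV (D : ℕ) (R : Fin (D + 1) → ℂ) (k m : ℤ) (v : ℂ) :
    HV b D R (v + (2 * k * y - m)) = CZ.fac y k v ^ (2 * D) * HV b D R v := by
  unfold HV
  rw [Finset.mul_sum]
  refine Finset.sum_congr rfl fun j _ => ?_
  rw [HH_zm b D j (Nat.lt_succ_iff.mp j.2)]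
  ring

theorem J7_GG (D : ℕ) (c : Ix D → ℂ) (s0 : ℂ) (k : ℕ) :
    GG b D c (s0 + 2 * k * y) = exp (2 * Real.pi * I * D * y * (s0 + 2 * k * y) ^ 2) *
      (CZ.fac y (k : ℤ) s0 ^ (2 * D) *
        HV b D (fun j => ∑ i : Fin (D + 1), c (i, j) * HH b D i s0) (y * (s0 + 2 * k * y))) := by
  have h1 : ∀ i : Fin (D + 1), HH b D i (s0 + 2 * k * y) =
      CZ.fac y (k : ℤ) s0 ^ (2 * D) * HH b D i s0 := by
    intro i
    have h2 := HH_zm b D i (Nat.lt_succ_iff.mp i.2) (k : ℤ) 0 s0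
    rw [← h2, Int.cast_natCast, Int.cast_zero, sub_zero]
  unfold GG HV
  congr 1
  rw [Fintype.sum_prod_type, Finset.sum_comm, Finset.mul_sum]
  refine Finset.sum_congr rfl fun j _ => ?_
  rw [Finset.sum_mul, Finset.mul_sum]
  refine Finset.sum_congr rfl fun i _ => ?_
  simp only [h1]
  ring

theorem J7_fac (hy : 0 < y.im) (a : ℤ) (v : ℂ) :
    Real.exp (-(Real.pi / y.im * v.im ^ 2)) ≤ ‖CZ.fac y a v‖ := by
  rw [CZ.norm_fac hy]
  apply Real.exp_le_exp.mpr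
  have h1 : 0 ≤ Real.pi / y.im * (v + 2 * a * y).im ^ 2 := by positivity
  linarith

theorem J7_sk (s0 : ℂ) (k : ℕ) (hs : ‖s0‖ ≤ 1) :
    ‖s0 + 2 * k * y‖ ≤ (1 + 2 * ‖y‖) * (1 + k) := by
  have h1 : ‖s0 + 2 * k * y‖ ≤ 1 + 2 * k * ‖y‖ := by
    refine (norm_add_le _ _).trans (add_le_add hs (le_of_eq ?_))
    rw [norm_mul, norm_mul, Complex.norm_natCast, Complex.norm_ofNat]
  have h2 : (0 : ℝ) ≤ k := Nat.cast_nonneg k
  have h3 : 0 ≤ ‖y‖ := norm_nonneg y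
  nlinarith

theorem J7_exp (D : ℕ) (s0 : ℂ) (k : ℕ) (hs : ‖s0‖ ≤ 1) :
    Real.exp (-(2 * Real.pi * ‖y‖ * (1 + 2 * ‖y‖) ^ 2 * D * (1 + (k : ℝ)) ^ 2)) ≤
      ‖exp (2 * Real.pi * I * D * y * (s0 + 2 * k * y) ^ 2)‖ := by
  rw [Complex.norm_exp]
  apply Real.exp_le_exp.mpr
  have h1 : -‖(2 * Real.pi * I * D * y * (s0 + 2 * k * y) ^ 2 : ℂ)‖ ≤
      (2 * Real.pi * I * D * y * (s0 + 2 * k * y) ^ 2 : ℂ).re :=
    (abs_le.mp (Complex.abs_re_le_norm _)).1
  refine le_trans (neg_le_neg ?_) h1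
  have h2 : ‖(2 * Real.pi * I * D * y * (s0 + 2 * k * y) ^ 2 : ℂ)‖ =
      2 * Real.pi * D * ‖y‖ * ‖s0 + 2 * k * y‖ ^ 2 := by
    rw [norm_mul, norm_mul, norm_mul, norm_mul, norm_mul, norm_pow, Complex.norm_natCast,
      Complex.norm_I, Complex.norm_real, Complex.norm_ofNat, Real.norm_eq_abs,
      abs_of_pos Real.pi_pos]
    ring
  rw [h2]
  have h3 := J7_sk (y := y) s0 k hs
  have h4 : ‖s0 + 2 * k * y‖ ^ 2 ≤ ((1 + 2 * ‖y‖) * (1 + k)) ^ 2 :=
    pow_le_pow_left₀ (norm_nonneg _) h3 2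
  have h5 : 0 ≤ 2 * Real.pi * D * ‖y‖ := by positivity
  calc 2 * Real.pi * D * ‖y‖ * ‖s0 + 2 * k * y‖ ^ 2
      ≤ 2 * Real.pi * D * ‖y‖ * ((1 + 2 * ‖y‖) * (1 + k)) ^ 2 := mul_le_mul_of_nonneg_left h4 h5
    _ = 2 * Real.pi * ‖y‖ * (1 + 2 * ‖y‖) ^ 2 * D * (1 + (k : ℝ)) ^ 2 := by ring

/-- the sizes of the integers -/
theorem J7_sz (hy : 0 < y.im) {s0 : ℂ} {k : ℕ} (hs : ‖s0‖ ≤ 1) {a m : ℤ} {x x' : ℝ}
    (hx0 : 0 ≤ x) (hx1 : x ≤ 1) (hx'0 : 0 ≤ x') (hx'2 : x' ≤ 2)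
    (h : y * (s0 + 2 * k * y) = ((x : ℂ) + x' * y) + (2 * a * y - m)) :
    ‖(x : ℂ) + x' * y‖ ≤ 1 + 2 * ‖y‖ ∧
    |(a : ℝ)| ≤ (‖y‖ * (1 + 2 * ‖y‖) / (2 * y.im) + 1) * (1 + k) ∧
    |(m : ℝ)| ≤ ((1 + 2 * ‖y‖) + 2 * (‖y‖ * (1 + 2 * ‖y‖) / (2 * y.im) + 1) * ‖y‖ +
      ‖y‖ * (1 + 2 * ‖y‖)) * (1 + k) := by
  have hk : (0 : ℝ) ≤ k := Nat.cast_nonneg k
  have hn : 0 ≤ ‖y‖ := norm_nonneg y
  have hv : ‖(x : ℂ) + x' * y‖ ≤ 1 + 2 * ‖y‖ := by
    refine (norm_add_le _ _).trans ?_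
    rw [norm_mul, Complex.norm_real, Complex.norm_real, Real.norm_eq_abs, Real.norm_eq_abs,
      abs_of_nonneg hx0, abs_of_nonneg hx'0]
    have := mul_le_mul_of_nonneg_right hx'2 hn
    linarith
  have hs2 : ‖y * (s0 + 2 * k * y)‖ ≤ ‖y‖ * ((1 + 2 * ‖y‖) * (1 + k)) := by
    rw [norm_mul]
    exact mul_le_mul_of_nonneg_left (J7_sk s0 k hs) hn
  have him : (y * (s0 + 2 * k * y)).im = x' * y.im + 2 * a * y.im := by
    rw [h, Complex.add_im, Complex.add_im, Complex.sub_im, Complex.ofReal_im,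
      Complex.im_ofReal_mul, Complex.intCast_im,
      show (2 * (a : ℂ) * y) = ((2 * a : ℝ) : ℂ) * y by push_cast; ring, Complex.im_ofReal_mul]
    ring
  have ha : |(a : ℝ)| * (2 * y.im) ≤ ‖y‖ * ((1 + 2 * ‖y‖) * (1 + k)) + 2 * y.im := by
    have h1 : (a : ℝ) * (2 * y.im) = (y * (s0 + 2 * k * y)).im - x' * y.im := by
      rw [him]
      ring
    have h2 : |(a : ℝ)| * (2 * y.im) = |(a : ℝ) * (2 * y.im)| := by
      rw [abs_mul, abs_of_pos (by linarith : (0 : ℝ) < 2 * y.im)]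
    rw [h2, h1]
    refine (abs_sub _ _).trans (add_le_add ((Complex.abs_im_le_norm _).trans hs2) ?_)
    rw [abs_of_nonneg (mul_nonneg hx'0 hy.le)]
    exact mul_le_mul_of_nonneg_right hx'2 hy.le
  have ha' : |(a : ℝ)| ≤ (‖y‖ * (1 + 2 * ‖y‖) / (2 * y.im) + 1) * (1 + k) := by
    have h2 : (0 : ℝ) < 2 * y.im := by linarith
    have h3 : |(a : ℝ)| ≤ (‖y‖ * ((1 + 2 * ‖y‖) * (1 + k)) + 2 * y.im) / (2 * y.im) := by
      rw [le_div_iff₀ h2]
      exact ha
    refine h3.trans ?_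
    rw [add_div, div_self h2.ne']
    have h4 : ‖y‖ * ((1 + 2 * ‖y‖) * (1 + k)) / (2 * y.im) =
        ‖y‖ * (1 + 2 * ‖y‖) / (2 * y.im) * (1 + k) := by ring
    rw [h4]
    nlinarith
  refine ⟨hv, ha', ?_⟩
  have hm : (m : ℂ) = ((x : ℂ) + x' * y) + 2 * a * y - y * (s0 + 2 * k * y) := by
    rw [h]
    ring
  have hm1 : |(m : ℝ)| = ‖(m : ℂ)‖ := (Complex.norm_intCast m).symm
  rw [hm1, hm]
  have h5 : ‖(2 * a * y : ℂ)‖ = 2 * |(a : ℝ)| * ‖y‖ := by
    rw [norm_mul, norm_mul, Complex.norm_intCast, Complex.norm_ofNat]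
  refine (norm_sub_le _ _).trans ?_
  have h6 := norm_add_le ((x : ℂ) + x' * y) (2 * a * y)
  have h7 : 2 * |(a : ℝ)| * ‖y‖ ≤
      2 * ((‖y‖ * (1 + 2 * ‖y‖) / (2 * y.im) + 1) * (1 + k)) * ‖y‖ := by
    gcongr
  have h8 : (1 + 2 * ‖y‖) ≤ (1 + 2 * ‖y‖) * (1 + k) := by nlinarith
  rw [h5] at h6
  linarith

theorem reduce (hy : 0 < y.im) : ∃ C : ℕ, 1 ≤ C ∧ ∀ (D : ℕ) (c : Ix D → ℂ) (s0 : ℂ) (k : ℕ),
    1 ≤ D → ‖s0‖ ≤ 1 → ∃ (v : ℂ) (a m : ℤ), y * (s0 + 2 * k * y) = v + (2 * a * y - m) ∧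
      ‖v‖ ≤ 1 + 2 * ‖y‖ ∧ |a| ≤ C * (k + 1) ∧ |m| ≤ C * (k + 1) ∧
      ‖HV b D (fun j => ∑ i : Fin (D + 1), c (i, j) * HH b D i s0) v‖ ≤
        Real.exp (C * D * (1 + (k : ℝ)) ^ 2) * ‖GG b D c (s0 + 2 * k * y)‖ := by
  obtain ⟨ca, hca⟩ : ∃ ca : ℝ, ca = ‖y‖ * (1 + 2 * ‖y‖) / (2 * y.im) + 1 := ⟨_, rfl⟩
  obtain ⟨cm, hcm⟩ : ∃ cm : ℝ, cm = (1 + 2 * ‖y‖) + 2 * ca * ‖y‖ + ‖y‖ * (1 + 2 * ‖y‖) := ⟨_, rfl⟩
  obtain ⟨ce, hce⟩ : ∃ ce : ℝ, ce = 2 * Real.pi * ‖y‖ * (1 + 2 * ‖y‖) ^ 2 := ⟨_, rfl⟩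
  obtain ⟨cf, hcf⟩ : ∃ cf : ℝ, cf = Real.pi / y.im * (2 * y.im) ^ 2 := ⟨_, rfl⟩
  obtain ⟨cg, hcg⟩ : ∃ cg : ℝ, cg = Real.pi / y.im := ⟨_, rfl⟩
  have hpi := Real.pi_pos
  have hn : 0 ≤ ‖y‖ := norm_nonneg y
  have hca0 : 0 ≤ ca := by
    rw [hca]
    positivity
  have hcm0 : 0 ≤ cm := by
    rw [hcm]
    positivity
  have hce0 : 0 ≤ ce := by
    rw [hce]
    positivity
  have hcf0 : 0 ≤ cf := by
    rw [hcf]
    positivity
  have hcg0 : 0 ≤ cg := by
    rw [hcg]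
    positivity
  obtain ⟨C, hC⟩ := exists_nat_ge (ca + cm + (ce + 2 * cf + 2 * cg) + 1)
  refine ⟨C, ?_, ?_⟩
  · have h1 : (1 : ℝ) ≤ C := by linarith
    exact_mod_cast h1
  · intro D c s0 k hD hs
    obtain ⟨a, m, x, x', hx0, hx1, hx'0, hx'2, hrep⟩ := CZ.ba2_rep hy (y * (s0 + 2 * k * y))
    obtain ⟨hv, ha, hm⟩ := J7_sz hy hs hx0 hx1 hx'0 hx'2 hrep
    rw [← hca] at ha hm
    rw [← hcm] at hm
    have hk : (0 : ℝ) ≤ k := Nat.cast_nonneg k
    refine ⟨(x : ℂ) + x' * y, a, m, hrep, hv, ?_, ?_, ?_⟩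
    · have h1 : |(a : ℝ)| ≤ C * (k + 1) := by
        refine ha.trans ?_
        have : ca * (1 + k) ≤ C * (1 + k) := mul_le_mul_of_nonneg_right (by linarith) (by linarith)
        linarith
      exact_mod_cast h1
    · have h1 : |(m : ℝ)| ≤ C * (k + 1) := by
        refine hm.trans ?_
        have : cm * (1 + k) ≤ C * (1 + k) := mul_le_mul_of_nonneg_right (by linarith) (by linarith)
        linarith
      exact_mod_cast h1
    · rw [J7_GG b D c s0 k, hrep, J7_HV, norm_mul, norm_mul, norm_mul, norm_pow, norm_pow]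
      have hDr : (1 : ℝ) ≤ D := by exact_mod_cast hD
      have f1 : Real.exp (-cf) ≤ ‖CZ.fac y a ((x : ℂ) + x' * y)‖ := by
        refine le_trans (Real.exp_le_exp.mpr ?_) (J7_fac hy a _)
        rw [hcf]
        apply neg_le_neg
        have h1 : ((x : ℂ) + x' * y).im = x' * y.im := by
          rw [Complex.add_im, Complex.ofReal_im, Complex.im_ofReal_mul, zero_add]
        rw [h1]
        apply mul_le_mul_of_nonneg_left _ (by positivity)
        apply pow_le_pow_left₀ (mul_nonneg hx'0 hy.le)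
        exact mul_le_mul_of_nonneg_right hx'2 hy.le
      have f2 : Real.exp (-cg) ≤ ‖CZ.fac y (k : ℤ) s0‖ := by
        refine le_trans (Real.exp_le_exp.mpr ?_) (J7_fac hy (k : ℤ) _)
        rw [hcg]
        apply neg_le_neg
        have h1 : s0.im ^ 2 ≤ 1 := by
          rw [← sq_abs]
          have h2 : |s0.im| ≤ 1 := (Complex.abs_im_le_norm s0).trans hs
          exact pow_le_one₀ (abs_nonneg _) h2
        have h3 : 0 ≤ Real.pi / y.im := by positivity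
        calc Real.pi / y.im * s0.im ^ 2 ≤ Real.pi / y.im * 1 := mul_le_mul_of_nonneg_left h1 h3
          _ = _ := mul_one _
      have f3 := J7_exp (y := y) D s0 k hs
      rw [← hce] at f3
      have g1 : Real.exp (-cf) ^ (2 * D) ≤ ‖CZ.fac y a ((x : ℂ) + x' * y)‖ ^ (2 * D) :=
        pow_le_pow_left₀ (Real.exp_pos _).le f1 _
      have g2 : Real.exp (-cg) ^ (2 * D) ≤ ‖CZ.fac y (k : ℤ) s0‖ ^ (2 * D) :=
        pow_le_pow_left₀ (Real.exp_pos _).le f2 _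
      rw [← Real.exp_nat_mul] at g1 g2
      generalize ‖CZ.fac y a ((x : ℂ) + x' * y)‖ ^ (2 * D) = F1 at g1 ⊢
      generalize ‖CZ.fac y (k : ℤ) s0‖ ^ (2 * D) = F2 at g2 ⊢
      generalize ‖exp (2 * Real.pi * I * D * y * (s0 + 2 * k * y) ^ 2)‖ = F3 at f3 ⊢
      generalize HV b D (fun j => ∑ i : Fin (D + 1), c (i, j) * HH b D i s0)
        ((x : ℂ) + x' * y) = Z
      have hF1 : 0 ≤ F1 := (Real.exp_pos _).le.trans g1
      have hF2 : 0 ≤ F2 := (Real.exp_pos _).le.trans g2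
      have hF3 : 0 ≤ F3 := (Real.exp_pos _).le.trans f3
      have key : 1 ≤ Real.exp (C * D * (1 + (k : ℝ)) ^ 2) * (F3 * (F2 * F1)) := by
        have h1 : Real.exp (-(ce * D * (1 + (k : ℝ)) ^ 2)) *
            (Real.exp (((2 * D : ℕ) : ℝ) * -cg) * Real.exp (((2 * D : ℕ) : ℝ) * -cf)) ≤
            F3 * (F2 * F1) := by
          apply mul_le_mul f3 _ (by positivity) hF3
          exact mul_le_mul g2 g1 (Real.exp_pos _).le hF2
        have h2 := mul_le_mul_of_nonneg_left h1 (Real.exp_pos (C * D * (1 + (k : ℝ)) ^ 2)).le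
        refine le_trans ?_ h2
        rw [← Real.exp_add, ← Real.exp_add, ← Real.exp_add]
        apply Real.one_le_exp
        push_cast
        have h3 : (1 : ℝ) ≤ (1 + (k : ℝ)) ^ 2 := one_le_pow₀ (by linarith)
        have h4 : 2 * cf + 2 * cg ≤ (2 * cf + 2 * cg) * (1 + (k : ℝ)) ^ 2 :=
          le_mul_of_one_le_right (by positivity) h3
        have h5 : (ce + (2 * cf + 2 * cg)) * (1 + (k : ℝ)) ^ 2 ≤ C * (1 + (k : ℝ)) ^ 2 :=
          mul_le_mul_of_nonneg_right (by linarith) (by positivity)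
        have h6 : ce * (1 + (k : ℝ)) ^ 2 + (2 * cf + 2 * cg) ≤ C * (1 + (k : ℝ)) ^ 2 := by
          linarith [add_mul ce (2 * cf + 2 * cg) ((1 + (k : ℝ)) ^ 2)]
        have h7 := mul_le_mul_of_nonneg_left h6 (by linarith : (0 : ℝ) ≤ D)
        linarith
      calc ‖Z‖ = 1 * ‖Z‖ := (one_mul _).symm
        _ ≤ (Real.exp (C * D * (1 + (k : ℝ)) ^ 2) * (F3 * (F2 * F1))) * ‖Z‖ :=
          mul_le_mul_of_nonneg_right key (norm_nonneg Z)
        _ = _ := by ring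

end MJ

end S_H32_MJ_J7
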