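import Mathlib
import Pool.Agent.H32.AKM.P06
import Pool.Agent.H32.AKM.P08
import Pool.Agent.H32.AKM.P12
import Pool.Agent.H32.AKM.P14
import Pool.Agent.H32.AKM.P18

/-! Modular Schanuel with derivatives for points algebraic over a field with good approximations, part 19: this file joins several modules to save build time. -/

section S_H32_AK_D0

set_option autoImplicit false

namespace AK

open CZ

/-- No quadratic relation. -/
def NCM (y : ℂ) : Prop :=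
  ¬ ∃ a b c : ℤ, (a ≠ 0 ∨ b ≠ 0 ∨ c ≠ 0) ∧ (a : ℂ) * y ^ 2 + b * y + c = 0

/-- A root of an integer polynomial of degree at most `d` and norm at most `X`. -/
def AlgB (d : ℕ) (X : ℝ) (w : ℂ) : Prop :=
  ∃ F : Polynomial ℤ, F ≠ 0 ∧ F.natDegree ≤ d ∧ nr F ≤ X ∧ Polynomial.aeval w F = 0

/-- A lower bound for quadratic polynomials of height at most `D`. -/
def WL (y : ℂ) (C D : ℕ) : Prop :=
  ∀ a b c : ℤ, |a| ≤ (D : ℤ) → |b| ≤ (D : ℤ) → |c| ≤ (D : ℤ) → (a ≠ 0 ∨ b ≠ 0 ∨ c ≠ 0) →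
    1 ≤ (D : ℝ) ^ C * ‖(a : ℂ) * y ^ 2 + b * y + c‖

/-- The window. -/
def Win (y : ℂ) (C q : ℕ) (L : ℝ) : Prop :=
  ∀ D : ℕ, q ≤ D → (D : ℝ) ≤ L → WL y C D

end AK

end S_H32_AK_D0

section S_H32_AK_B1

set_option autoImplicit false

namespace AK

open CZ Polynomial

theorem min_factor {d : ℕ} {X : ℝ} {w : ℂ} (h : AlgB d X w) :
    ∃ r : ℤ[X], Irreducible r ∧ 0 < r.natDegree ∧ r.natDegree ≤ d ∧ mah r ≤ X ∧ aeval w r = 0 := by
  obtain ⟨F, hF0, hFd, hFn, hFw⟩ := h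
  set s := UniqueFactorizationMonoid.factors F with hs
  have hP : (RingHom.ker (aeval w : ℤ[X] →ₐ[ℤ] ℂ)).IsPrime := RingHom.ker_isPrime _
  have hassoc := UniqueFactorizationMonoid.factors_prod hF0
  have hmem : s.prod ∈ RingHom.ker (aeval w : ℤ[X] →ₐ[ℤ] ℂ) := by
    obtain ⟨c, hc⟩ := hassoc.symm
    rw [hs, ← hc]
    exact Ideal.mul_mem_right _ _ (RingHom.mem_ker.2 hFw)
  obtain ⟨r, hr, hrw⟩ := (hP.multiset_prod_mem_iff_exists_mem s).1 hmem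
  have hirr : Irreducible r := UniqueFactorizationMonoid.irreducible_of_factor r hr
  have hrw' : aeval w r = 0 := RingHom.mem_ker.1 hrw
  have hdvd : r ∣ F := UniqueFactorizationMonoid.dvd_of_mem_factors hr
  refine ⟨r, hirr, ?_, (natDegree_le_of_dvd hdvd hF0).trans hFd, ?_, hrw'⟩
  · rw [Nat.pos_iff_ne_zero]
    intro h0
    rw [eq_C_of_natDegree_eq_zero h0, aeval_C, eq_intCast, Int.cast_eq_zero] at hrw'
    apply hirr.ne_zero
    rw [eq_C_of_natDegree_eq_zero h0, hrw', C_0]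
  · obtain ⟨g, hg⟩ := hdvd
    have hg0 : g ≠ 0 := by
      rintro rfl
      exact hF0 (by rw [hg, mul_zero])
    have h1 := one_le_mah hirr.ne_zero
    have h2 := one_le_mah hg0
    have h3 : mah F = mah r * mah g := by rw [hg, pj_mah_mul]
    have h4 := mah_le_nr F
    nlinarith

end AK

end S_H32_AK_B1

section S_H32_AK_B2

set_option autoImplicit false

namespace AK

open CZ Polynomial

private theorem B2_prod (f : ℂ → ℂ) (K : ℝ) (hK : 0 ≤ K)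
    (hf : ∀ z, ‖f z‖ ≤ K * (max 1 ‖z‖) ^ 2) (s : Multiset ℂ) :
    ‖(s.map f).prod‖ ≤ K ^ (Multiset.card s) * ((s.map (fun a => max 1 ‖a‖)).prod) ^ 2 := by
  induction s using Multiset.induction_on with
  | empty => simp
  | cons z s ih =>
    rw [Multiset.map_cons, Multiset.prod_cons, Multiset.map_cons, Multiset.prod_cons,
      Multiset.card_cons, norm_mul, pow_succ]
    calc ‖f z‖ * ‖(s.map f).prod‖ ≤ (K * (max 1 ‖z‖) ^ 2) *
        (K ^ (Multiset.card s) * ((s.map (fun a => max 1 ‖a‖)).prod) ^ 2) :=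
          mul_le_mul (hf z) ih (norm_nonneg _) (by positivity)
      _ = K ^ (Multiset.card s) * K * (max 1 ‖z‖ * (s.map (fun a => max 1 ‖a‖)).prod) ^ 2 := by
          ring

private theorem B2_one (s : Multiset ℂ) : 1 ≤ (s.map (fun a : ℂ => max 1 ‖a‖)).prod := by
  induction s using Multiset.induction_on with
  | empty => simp
  | cons z s ih =>
    rw [Multiset.map_cons, Multiset.prod_cons]
    exact one_le_mul_of_one_le_of_one_le (le_max_left _ _) ih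

private theorem B2_root (r P : ℤ[X]) (hr : Irreducible r) (hd : 0 < r.natDegree) (w z : ℂ)
    (hw : aeval w r = 0) (hz : aeval z r = 0) (hPz : aeval z P = 0) : aeval w P = 0 := by
  have hirr : Irreducible (r.map (Int.castRingHom ℚ)) :=
    (Polynomial.IsPrimitive.Int.irreducible_iff_irreducible_map_cast
      (hr.isPrimitive hd.ne')).1 hr
  have hQ : ∀ (x : ℂ) (p : ℤ[X]), aeval x (p.map (Int.castRingHom ℚ)) = aeval x p := by
    intro x p
    rw [Polynomial.aeval_def, Polynomial.eval₂_map, Polynomial.aeval_def]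
    congr 1
  have h1 := minpoly.eq_of_irreducible hirr (x := w) (by rw [hQ]; exact hw)
  have h2 := minpoly.eq_of_irreducible hirr (x := z) (by rw [hQ]; exact hz)
  have h3 : minpoly ℚ z ∣ P.map (Int.castRingHom ℚ) := minpoly.dvd ℚ z (by rw [hQ]; exact hPz)
  rw [← h2, h1] at h3
  obtain ⟨g, hg⟩ := h3
  rw [← hQ, hg, map_mul, minpoly.aeval, zero_mul]

private theorem B2_key (r P : ℤ[X]) (hr : Irreducible r) (hd : 0 < r.natDegree) (w : ℂ)
    (hw : aeval w r = 0) (hPd : P.natDegree ≤ 2) (hPw : aeval w P ≠ 0) (K : ℝ) (hK : 0 ≤ K)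
    (hf : ∀ z : ℂ, ‖aeval z P‖ ≤ K * (max 1 ‖z‖) ^ 2) :
    1 ≤ K ^ (r.natDegree - 1) * (mah r) ^ 2 * ‖aeval w P‖ := by
  obtain ⟨rc, hrc⟩ : ∃ rc, rc = r.map (Int.castRingHom ℂ) := ⟨_, rfl⟩
  obtain ⟨Pc, hPc⟩ : ∃ Pc, Pc = P.map (Int.castRingHom ℂ) := ⟨_, rfl⟩
  have hinj : Function.Injective (Int.castRingHom ℂ) := Int.cast_injective
  have hrd : rc.natDegree = r.natDegree := by
    rw [hrc]
    exact Polynomial.natDegree_map_eq_of_injective hinj r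
  have hPcd : Pc.natDegree ≤ 2 := by
    rw [hPc]
    exact Polynomial.natDegree_map_le.trans hPd
  have hr0 : r ≠ 0 := hr.ne_zero
  have hrc0 : rc ≠ 0 := by
    rw [hrc]
    exact (Polynomial.map_ne_zero_iff hinj).2 hr0
  have hev : ∀ (z : ℂ) (p : ℤ[X]), (p.map (Int.castRingHom ℂ)).eval z = aeval z p := by
    intro z p
    rw [Polynomial.eval_map, Polynomial.aeval_def]
    rfl
  have hs : rc.Splits := IsAlgClosed.splits rc
  have hres := Polynomial.resultant_eq_prod_eval rc Pc 2 hPcd hs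
  rw [hrd] at hres
  have hres2 : Polynomial.resultant rc Pc r.natDegree 2 =
      ((Polynomial.resultant r P r.natDegree 2 : ℤ) : ℂ) := by
    rw [hrc, hPc, Polynomial.resultant_map_map]
    rfl
  rw [hres2] at hres
  have hl0 : rc.leadingCoeff ≠ 0 := Polynomial.leadingCoeff_ne_zero.2 hrc0
  have hne : ((Polynomial.resultant r P r.natDegree 2 : ℤ) : ℂ) ≠ 0 := by
    rw [hres]
    refine mul_ne_zero (pow_ne_zero _ hl0) ?_
    rw [Ne, Multiset.prod_eq_zero_iff]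
    intro h
    rw [Multiset.mem_map] at h
    obtain ⟨z, hz, hz2⟩ := h
    have h1 : aeval z r = 0 := by
      rw [← hev, ← hrc]
      exact (Polynomial.mem_roots hrc0).1 hz
    apply hPw
    apply B2_root r P hr hd w z hw h1
    rw [← hev, ← hPc]
    exact hz2
  have hR1 : 1 ≤ ‖((Polynomial.resultant r P r.natDegree 2 : ℤ) : ℂ)‖ := by
    rw [Complex.norm_intCast]
    have h1 : Polynomial.resultant r P r.natDegree 2 ≠ 0 := by
      intro h
      apply hne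
      rw [h, Int.cast_zero]
    have h2 := Int.one_le_abs h1
    exact_mod_cast h2
  have hmem : w ∈ rc.roots := by
    rw [Polynomial.mem_roots hrc0]
    change rc.eval w = 0
    rw [hrc, hev]
    exact hw
  have hcons := Multiset.cons_erase hmem
  have hcard : Multiset.card (rc.roots.erase w) = r.natDegree - 1 := by
    rw [Multiset.card_erase_of_mem hmem, ← hs.natDegree_eq_card_roots, hrd]
    rfl
  have hmah : mah r = ‖rc.leadingCoeff‖ *
      (max 1 ‖w‖ * ((rc.roots.erase w).map (fun a => max 1 ‖a‖)).prod) := by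
    unfold mah
    rw [← hrc, Polynomial.mahlerMeasure_eq_leadingCoeff_mul_prod_roots]
    congr 1
    conv_lhs => rw [← hcons]
    rw [Multiset.map_cons, Multiset.prod_cons]
  rw [hres, ← hcons, Multiset.map_cons, Multiset.prod_cons, norm_mul, norm_mul, norm_pow] at hR1
  have hPe : Pc.eval = fun z => aeval z P := by
    funext z
    rw [hPc, hev]
  have hp := B2_prod (fun z => aeval z P) K hK hf (rc.roots.erase w)
  rw [← hPe, hcard] at hp
  have hPew : Pc.eval w = aeval w P := by rw [hPc, hev]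
  rw [hPew] at hR1
  obtain ⟨M, hM⟩ : ∃ M : ℝ, M = ((rc.roots.erase w).map (fun a => max 1 ‖a‖)).prod := ⟨_, rfl⟩
  obtain ⟨Q, hQ⟩ : ∃ Q : ℝ, Q = ‖((rc.roots.erase w).map Pc.eval).prod‖ := ⟨_, rfl⟩
  rw [← hM] at hp hmah
  rw [← hQ] at hp hR1
  have hM1 : 1 ≤ M := by
    rw [hM]
    exact B2_one _
  have hmw : 1 ≤ max 1 ‖w‖ := le_max_left _ _
  have h5 : ‖rc.leadingCoeff‖ ^ 2 * (‖aeval w P‖ * Q) ≤
      ‖rc.leadingCoeff‖ ^ 2 * (‖aeval w P‖ * (K ^ (r.natDegree - 1) * M ^ 2)) :=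
    mul_le_mul_of_nonneg_left (mul_le_mul_of_nonneg_left hp (norm_nonneg _)) (by positivity)
  have h6 : M ^ 2 ≤ (max 1 ‖w‖ * M) ^ 2 := by
    apply pow_le_pow_left₀ (by linarith)
    exact le_mul_of_one_le_left (by linarith) hmw
  have h7 : ‖rc.leadingCoeff‖ ^ 2 * (‖aeval w P‖ * (K ^ (r.natDegree - 1) * M ^ 2)) ≤
      ‖rc.leadingCoeff‖ ^ 2 * (‖aeval w P‖ * (K ^ (r.natDegree - 1) * (max 1 ‖w‖ * M) ^ 2)) := by
    apply mul_le_mul_of_nonneg_left _ (by positivity)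
    apply mul_le_mul_of_nonneg_left _ (norm_nonneg _)
    exact mul_le_mul_of_nonneg_left h6 (pow_nonneg hK _)
  calc (1 : ℝ) ≤ ‖rc.leadingCoeff‖ ^ 2 * (‖aeval w P‖ * Q) := hR1
    _ ≤ _ := h5
    _ ≤ _ := h7
    _ = K ^ (r.natDegree - 1) * (mah r) ^ 2 * ‖aeval w P‖ := by
        rw [hmah]
        ring

private theorem B2_mah {r : ℤ[X]} (hr : r ≠ 0) : 1 ≤ mah r := by
  have hinj : Function.Injective (Int.castRingHom ℂ) := Int.cast_injective
  unfold mah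
  refine le_trans ?_ (Polynomial.leadingCoeff_le_mahlerMeasure _)
  rw [Polynomial.leadingCoeff_map_of_injective hinj]
  change 1 ≤ ‖((r.leadingCoeff : ℤ) : ℂ)‖
  rw [Complex.norm_intCast]
  have h2 := Int.one_le_abs (Polynomial.leadingCoeff_ne_zero.2 hr)
  exact_mod_cast h2

theorem liou_unif (d : ℕ) : ∃ C : ℕ, 1 ≤ C ∧ ∀ (w : ℂ) (X : ℝ) (H : ℕ) (a b c : ℤ), 1 ≤ H →
    AlgB d X w → |a| ≤ (H : ℤ) → |b| ≤ (H : ℤ) → |c| ≤ (H : ℤ) → (a : ℂ) * w ^ 2 + b * w + c ≠ 0 →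
    1 ≤ ((C : ℝ) * X * H) ^ C * ‖(a : ℂ) * w ^ 2 + b * w + c‖ := by
  refine ⟨d + 3, by omega, ?_⟩
  intro w Y H a b c hH hA ha hb hc hne
  obtain ⟨r, hr, hd0, hdd, hmX, hrw⟩ := min_factor hA
  have hH1 : (1 : ℝ) ≤ H := by exact_mod_cast hH
  have hY1 : 1 ≤ Y := (B2_mah hr.ne_zero).trans hmX
  have hPe : ∀ z : ℂ, aeval z (C a * X ^ 2 + C b * X + C c : ℤ[X]) =
      (a : ℂ) * z ^ 2 + b * z + c := by
    intro z
    simp
  have hPd : (C a * X ^ 2 + C b * X + C c : ℤ[X]).natDegree ≤ 2 := natDegree_quadratic_le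
  have hcoef : ∀ e : ℤ, |e| ≤ (H : ℤ) → ‖(e : ℂ)‖ ≤ (H : ℝ) := by
    intro e he
    rw [Complex.norm_intCast]
    exact_mod_cast he
  have hf : ∀ z : ℂ, ‖aeval z (C a * X ^ 2 + C b * X + C c : ℤ[X])‖ ≤
      (3 * H) * (max 1 ‖z‖) ^ 2 := by
    intro z
    rw [hPe]
    have hm1 : 1 ≤ max 1 ‖z‖ := le_max_left _ _
    have hmz : ‖z‖ ≤ max 1 ‖z‖ := le_max_right _ _
    obtain ⟨m, hm⟩ : ∃ m : ℝ, m = max 1 ‖z‖ := ⟨_, rfl⟩
    rw [← hm] at hm1 hmz ⊢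
    have e1 : ‖(a : ℂ) * z ^ 2‖ ≤ H * m ^ 2 := by
      rw [norm_mul, norm_pow]
      exact mul_le_mul (hcoef a ha) (pow_le_pow_left₀ (norm_nonneg _) hmz 2) (by positivity)
        (by positivity)
    have e2 : ‖(b : ℂ) * z‖ ≤ H * m ^ 2 := by
      rw [norm_mul]
      have h1 : m ≤ m ^ 2 := by nlinarith
      exact mul_le_mul (hcoef b hb) (hmz.trans h1) (norm_nonneg _) (by positivity)
    have e3 : ‖(c : ℂ)‖ ≤ H * m ^ 2 := by
      have h1 : 1 ≤ m ^ 2 := by nlinarith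
      exact (hcoef c hc).trans (le_mul_of_one_le_right (by positivity) h1)
    have e4 := norm_add_le ((a : ℂ) * z ^ 2 + b * z) c
    have e5 := norm_add_le ((a : ℂ) * z ^ 2) (b * z)
    linarith
  have hkey := B2_key r _ hr hd0 w hrw hPd (by rw [hPe]; exact hne) (3 * H) (by positivity) hf
  rw [hPe] at hkey
  refine hkey.trans (mul_le_mul_of_nonneg_right ?_ (norm_nonneg _))
  have hC3 : (3 : ℝ) ≤ ((d + 3 : ℕ) : ℝ) := by
    push_cast
    have : (0 : ℝ) ≤ d := Nat.cast_nonneg _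
    linarith
  have hb1 : 3 * (H : ℝ) ≤ ((d + 3 : ℕ) : ℝ) * Y * H := by
    have h1 : (3 : ℝ) ≤ ((d + 3 : ℕ) : ℝ) * Y := by
      calc (3 : ℝ) = 3 * 1 := by ring
        _ ≤ ((d + 3 : ℕ) : ℝ) * Y := mul_le_mul hC3 hY1 (by norm_num) (by positivity)
    exact mul_le_mul_of_nonneg_right h1 (by linarith)
  have hb2 : Y ≤ ((d + 3 : ℕ) : ℝ) * Y * H := by
    have h1 : Y ≤ ((d + 3 : ℕ) : ℝ) * Y := le_mul_of_one_le_left (by linarith) (by linarith)
    exact h1.trans (le_mul_of_one_le_right (by positivity) hH1)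
  obtain ⟨B, hB⟩ : ∃ B : ℝ, B = ((d + 3 : ℕ) : ℝ) * Y * H := ⟨_, rfl⟩
  rw [← hB] at hb1 hb2 ⊢
  have hB1 : 1 ≤ B := hY1.trans hb2
  have hm0 : 0 ≤ mah r := le_trans zero_le_one (B2_mah hr.ne_zero)
  calc (3 * (H : ℝ)) ^ (r.natDegree - 1) * mah r ^ 2 ≤ B ^ (r.natDegree - 1) * B ^ 2 :=
        mul_le_mul (pow_le_pow_left₀ (by positivity) hb1 _)
          (pow_le_pow_left₀ hm0 (hmX.trans hb2) 2) (by positivity) (by positivity)
    _ = B ^ (r.natDegree - 1 + 2) := by rw [← pow_add]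
    _ ≤ B ^ (d + 3) := pow_le_pow_right₀ hB1 (by omega)

end AK

end S_H32_AK_B2

section S_H32_AK_B3

set_option autoImplicit false

namespace AK

open CZ Polynomial

theorem win_of_near (y : ℂ) (d A : ℕ) : ∃ C : ℕ, 1 ≤ C ∧ ∀ κ : ℕ, ∃ Q0 : ℕ, ∀ (q : ℕ) (w : ℂ),
    Q0 ≤ q → NCM w → AlgB d ((q : ℝ) ^ A) w → ‖w - y‖ ≤ Real.exp (-(q : ℝ) ^ (κ + 1)) →
    Win y C q ((q : ℝ) ^ κ) := by
  obtain ⟨C0, hC0, hl⟩ := liou_unif d
  obtain ⟨C, hC⟩ : ∃ C, C = (A + 2) * C0 + 1 := ⟨_, rfl⟩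
  refine ⟨C, by omega, ?_⟩
  intro κ
  obtain ⟨x0, hx0⟩ := Filter.eventually_atTop.mp
    (Filter.tendsto_atTop.mp (Real.tendsto_exp_div_pow_atTop (κ * C)) (4 * ‖y‖ + 4))
  refine ⟨max (max 2 C0) ⌈x0⌉₊, ?_⟩
  intro q w hq hw hA hwy D hqD hDL a b c ha hb hc habc
  have hq2 : 2 ≤ q := (le_max_left 2 C0).trans ((le_max_left _ _).trans hq)
  have hqC : C0 ≤ q := (le_max_right 2 C0).trans ((le_max_left _ _).trans hq)
  have hqx : x0 ≤ (q : ℝ) := (Nat.le_ceil x0).trans (by exact_mod_cast (le_max_right _ _).trans hq)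
  have hD2 : 2 ≤ D := hq2.trans hqD
  have hDC : C0 ≤ D := hqC.trans hqD
  have hq1R : (1 : ℝ) ≤ q := by exact_mod_cast (by omega : 1 ≤ q)
  have hD2R : (2 : ℝ) ≤ D := by exact_mod_cast hD2
  have hD1R : (1 : ℝ) ≤ D := by linarith
  have hDCR : (C0 : ℝ) ≤ D := by exact_mod_cast hDC
  have hqDR : (q : ℝ) ≤ D := by exact_mod_cast hqD
  -- the value at `w`
  have hPw : (a : ℂ) * w ^ 2 + b * w + c ≠ 0 := fun h => hw ⟨a, b, c, habc, h⟩
  have h1 := hl w ((q : ℝ) ^ A) D a b c (by omega) hA ha hb hc hPw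
  obtain ⟨M, hM⟩ : ∃ M : ℝ, M = (D : ℝ) ^ ((A + 2) * C0) := ⟨_, rfl⟩
  have hM0 : 0 ≤ M := by rw [hM]; positivity
  have h2 : ((C0 : ℝ) * (q : ℝ) ^ A * D) ^ C0 ≤ M := by
    rw [hM, pow_mul]
    apply pow_le_pow_left₀ (by positivity)
    calc (C0 : ℝ) * (q : ℝ) ^ A * D ≤ D * (D : ℝ) ^ A * D := by gcongr
      _ = (D : ℝ) ^ (A + 2) := by ring
  have h3 : 1 ≤ M * ‖(a : ℂ) * w ^ 2 + b * w + c‖ :=
    h1.trans (mul_le_mul_of_nonneg_right h2 (norm_nonneg _))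
  -- the difference
  have hexp1 : Real.exp (-(q : ℝ) ^ (κ + 1)) ≤ 1 := by
    rw [Real.exp_le_one_iff]
    have : 0 ≤ (q : ℝ) ^ (κ + 1) := by positivity
    linarith
  have hwn : ‖w‖ ≤ ‖y‖ + 1 := by
    have h4 : w = y + (w - y) := by ring
    calc ‖w‖ = ‖y + (w - y)‖ := by rw [← h4]
      _ ≤ ‖y‖ + ‖w - y‖ := norm_add_le _ _
      _ ≤ ‖y‖ + 1 := by linarith
  have haR : ‖(a : ℂ)‖ ≤ D := by
    rw [Complex.norm_intCast]
    exact_mod_cast ha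
  have hbR : ‖(b : ℂ)‖ ≤ D := by
    rw [Complex.norm_intCast]
    exact_mod_cast hb
  have h5 : ‖((a : ℂ) * w ^ 2 + b * w + c) - ((a : ℂ) * y ^ 2 + b * y + c)‖ ≤
      ((D : ℝ) * (2 * ‖y‖ + 2)) * Real.exp (-(q : ℝ) ^ (κ + 1)) := by
    have h6 : ((a : ℂ) * w ^ 2 + b * w + c) - ((a : ℂ) * y ^ 2 + b * y + c) =
        ((a : ℂ) * (w + y) + b) * (w - y) := by ring
    rw [h6, norm_mul]
    apply mul_le_mul _ hwy (norm_nonneg _) (by positivity)
    calc ‖(a : ℂ) * (w + y) + b‖ ≤ ‖(a : ℂ) * (w + y)‖ + ‖(b : ℂ)‖ := norm_add_le _ _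
      _ ≤ D * (2 * ‖y‖ + 1) + D := by
        rw [norm_mul]
        have h7 : ‖w + y‖ ≤ 2 * ‖y‖ + 1 := (norm_add_le _ _).trans (by linarith)
        have h8 : ‖(a : ℂ)‖ * ‖w + y‖ ≤ D * (2 * ‖y‖ + 1) :=
          mul_le_mul haR h7 (norm_nonneg _) (by positivity)
        linarith
      _ = D * (2 * ‖y‖ + 2) := by ring
  -- the exponential is large
  have h9 : (M * ((D : ℝ) * (2 * ‖y‖ + 2))) * Real.exp (-(q : ℝ) ^ (κ + 1)) ≤ 1 / 2 := by
    have h10 : M * (D : ℝ) ≤ (q : ℝ) ^ (κ * C) := by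
      calc M * (D : ℝ) = (D : ℝ) ^ C := by rw [hM, hC, pow_succ]
        _ ≤ ((q : ℝ) ^ κ) ^ C := by gcongr
        _ = (q : ℝ) ^ (κ * C) := by rw [pow_mul]
    have h11 := hx0 q hqx
    have h12 : (0 : ℝ) < (q : ℝ) ^ (κ * C) := by positivity
    rw [le_div_iff₀ h12] at h11
    have h13 : Real.exp (q : ℝ) ≤ Real.exp ((q : ℝ) ^ (κ + 1)) := by
      rw [Real.exp_le_exp]
      calc (q : ℝ) = (q : ℝ) ^ 1 := (pow_one _).symm
        _ ≤ (q : ℝ) ^ (κ + 1) := pow_le_pow_right₀ hq1R (by omega)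
    rw [Real.exp_neg, ← div_eq_mul_inv, div_le_iff₀ (Real.exp_pos _)]
    have h14 : M * ((D : ℝ) * (2 * ‖y‖ + 2)) ≤ (q : ℝ) ^ (κ * C) * (2 * ‖y‖ + 2) := by
      rw [← mul_assoc]
      exact mul_le_mul_of_nonneg_right h10 (by positivity)
    nlinarith
  have h15 : M * ‖((a : ℂ) * w ^ 2 + b * w + c) - ((a : ℂ) * y ^ 2 + b * y + c)‖ ≤ 1 / 2 := by
    calc M * ‖((a : ℂ) * w ^ 2 + b * w + c) - ((a : ℂ) * y ^ 2 + b * y + c)‖
        ≤ M * (((D : ℝ) * (2 * ‖y‖ + 2)) * Real.exp (-(q : ℝ) ^ (κ + 1))) :=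
          mul_le_mul_of_nonneg_left h5 hM0
      _ = (M * ((D : ℝ) * (2 * ‖y‖ + 2))) * Real.exp (-(q : ℝ) ^ (κ + 1)) := by ring
      _ ≤ 1 / 2 := h9
  have h16 : ‖(a : ℂ) * w ^ 2 + b * w + c‖ ≤ ‖(a : ℂ) * y ^ 2 + b * y + c‖ +
      ‖((a : ℂ) * w ^ 2 + b * w + c) - ((a : ℂ) * y ^ 2 + b * y + c)‖ := by
    have h17 := norm_sub_norm_le ((a : ℂ) * w ^ 2 + b * w + c) ((a : ℂ) * y ^ 2 + b * y + c)
    linarith
  have h18 : M * ‖(a : ℂ) * w ^ 2 + b * w + c‖ ≤ M * ‖(a : ℂ) * y ^ 2 + b * y + c‖ +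
      M * ‖((a : ℂ) * w ^ 2 + b * w + c) - ((a : ℂ) * y ^ 2 + b * y + c)‖ := by
    rw [← mul_add]
    exact mul_le_mul_of_nonneg_left h16 hM0
  have h19 : 1 ≤ 2 * M * ‖(a : ℂ) * y ^ 2 + b * y + c‖ := by linarith
  have h20 : 2 * M ≤ (D : ℝ) ^ C := by
    rw [hC, pow_succ, ← hM, mul_comm]
    exact mul_le_mul_of_nonneg_left hD2R hM0
  exact h19.trans (mul_le_mul_of_nonneg_right h20 (norm_nonneg _))

end AK

end S_H32_AK_B3

section S_H32_AK_B4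

set_option autoImplicit false

namespace AK

open CZ Polynomial

theorem B4_coeff {r : ℤ[X]} (h2 : r.natDegree = 2) (i : ℕ) (hi : i ≤ 2) :
    |((r.coeff i : ℤ) : ℝ)| ≤ 2 * mah r := by
  have h := norm_coeff_le_choose_mul_mahlerMeasure i (r.map (Int.castRingHom ℂ))
  rw [coeff_map, natDegree_map_eq_of_injective (Int.castRingHom ℂ).injective_int, h2] at h
  have h3 : ‖(Int.castRingHom ℂ) (r.coeff i)‖ = |((r.coeff i : ℤ) : ℝ)| := by
    rw [eq_intCast, Complex.norm_intCast]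
  rw [h3] at h
  refine h.trans ?_
  have h4 : (((2 : ℕ).choose i : ℕ) : ℝ) ≤ 2 := by
    interval_cases i <;> norm_num [Nat.choose]
  exact mul_le_mul_of_nonneg_right h4 (mahlerMeasure_nonneg _)

theorem quad_of_cm {d : ℕ} {X : ℝ} {w : ℂ} (h : AlgB d X w) (him : w.im ≠ 0) (hcm : ¬ NCM w) :
    ∃ a b c : ℤ, 0 < a ∧ (|(a : ℝ)| ≤ 2 * X ∧ |(b : ℝ)| ≤ 2 * X ∧ |(c : ℝ)| ≤ 2 * X) ∧
      (a : ℂ) * w ^ 2 + b * w + c = 0 := by
  obtain ⟨r, hirr, hpos, -, hmah, hr⟩ := min_factor h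
  obtain ⟨a0, b0, c0, hne, hP⟩ := not_not.1 hcm
  set P : ℤ[X] := C a0 * Polynomial.X ^ 2 + C b0 * Polynomial.X + C c0 with hPdef
  have hPe : aeval w P = 0 := by
    rw [hPdef]
    rw [map_add, map_add, map_mul, map_mul, aeval_C, aeval_C, aeval_C, map_pow, aeval_X]
    exact hP
  have hP0 : P ≠ 0 := by
    intro h0
    have e2 : P.coeff 2 = a0 := by
      rw [hPdef, coeff_add, coeff_add, coeff_C_mul, coeff_C_mul, coeff_X_pow, coeff_X, coeff_C]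
      norm_num
    have e1 : P.coeff 1 = b0 := by
      rw [hPdef, coeff_add, coeff_add, coeff_C_mul, coeff_C_mul, coeff_X_pow, coeff_X, coeff_C]
      norm_num
    have e0 : P.coeff 0 = c0 := by
      rw [hPdef, coeff_add, coeff_add, coeff_C_mul, coeff_C_mul, coeff_X_pow, coeff_X, coeff_C]
      norm_num
    rw [h0, coeff_zero] at e2 e1 e0
    rcases hne with hne | hne | hne
    · exact hne e2.symm
    · exact hne e1.symm
    · exact hne e0.symm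
  have hPd : P.natDegree ≤ 2 := by
    rw [hPdef]
    exact natDegree_quadratic_le
  have hinj : Function.Injective (Int.castRingHom ℚ) := (Int.castRingHom ℚ).injective_int
  have hprim : r.IsPrimitive := hirr.isPrimitive hpos.ne'
  have hirrQ : Irreducible (r.map (Int.castRingHom ℚ)) :=
    (IsPrimitive.Int.irreducible_iff_irreducible_map_cast hprim).1 hirr
  have haQ : ∀ f : ℤ[X], aeval w (f.map (Int.castRingHom ℚ)) = aeval w f := fun f => by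
    have := aeval_map_algebraMap ℚ w f
    exact this
  have hrQ : aeval w (r.map (Int.castRingHom ℚ)) = 0 := by rw [haQ, hr]
  have hPQ : aeval w (P.map (Int.castRingHom ℚ)) = 0 := by rw [haQ, hPe]
  have hint : IsIntegral ℚ w := by
    apply IsAlgebraic.isIntegral
    exact ⟨_, hirrQ.ne_zero, hrQ⟩
  have hdvd : r.map (Int.castRingHom ℚ) ∣ P.map (Int.castRingHom ℚ) :=
    ((minpoly.irreducible hint).dvd_symm hirrQ (minpoly.dvd ℚ w hrQ)).trans (minpoly.dvd ℚ w hPQ)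
  have hP0Q : P.map (Int.castRingHom ℚ) ≠ 0 := (Polynomial.map_ne_zero_iff hinj).2 hP0
  have hle : r.natDegree ≤ 2 := by
    have h1 := natDegree_le_of_dvd hdvd hP0Q
    rw [natDegree_map_eq_of_injective hinj, natDegree_map_eq_of_injective hinj] at h1
    exact h1.trans hPd
  have hne1 : r.natDegree ≠ 1 := by
    intro h1
    have h2 := hr
    rw [aeval_eq_sum_range, h1, Finset.sum_range_succ, Finset.sum_range_one] at h2
    have h3 := congrArg Complex.im h2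
    simp only [zsmul_eq_mul, pow_zero, mul_one, pow_one, Complex.add_im, Complex.intCast_im,
      Complex.mul_im, Complex.intCast_re, zero_mul, add_zero, zero_add, Complex.zero_im] at h3
    rcases mul_eq_zero.1 h3 with h4 | h4
    · have h5 : r.coeff 1 = 0 := by exact_mod_cast h4
      have h6 : r.leadingCoeff = 0 := by rw [leadingCoeff, h1, h5]
      rw [leadingCoeff_eq_zero] at h6
      exact hirr.ne_zero h6
    · exact him h4
  have h2 : r.natDegree = 2 := by omega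
  have hB : ∀ i, i ≤ 2 → |((r.coeff i : ℤ) : ℝ)| ≤ 2 * X := fun i hi =>
    (B4_coeff h2 i hi).trans (by linarith)
  have ha : r.coeff 2 ≠ 0 := by
    intro h5
    have h6 : r.leadingCoeff = 0 := by rw [leadingCoeff, h2, h5]
    rw [leadingCoeff_eq_zero] at h6
    exact hirr.ne_zero h6
  have hsum : ((r.coeff 2 : ℤ) : ℂ) * w ^ 2 + ((r.coeff 1 : ℤ) : ℂ) * w + ((r.coeff 0 : ℤ) : ℂ) = 0 := by
    have h3 := hr
    rw [aeval_eq_sum_range, h2, Finset.sum_range_succ, Finset.sum_range_succ,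
      Finset.sum_range_one] at h3
    simp only [zsmul_eq_mul, pow_zero, mul_one, pow_one] at h3
    rw [← h3]
    ring
  rcases lt_or_gt_of_ne ha with hneg | hpos'
  · refine ⟨-r.coeff 2, -r.coeff 1, -r.coeff 0, by omega, ⟨?_, ?_, ?_⟩, ?_⟩
    · rw [Int.cast_neg, abs_neg]; exact hB 2 le_rfl
    · rw [Int.cast_neg, abs_neg]; exact hB 1 (by norm_num)
    · rw [Int.cast_neg, abs_neg]; exact hB 0 (by norm_num)
    · push_cast
      linear_combination -hsum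
  · exact ⟨r.coeff 2, r.coeff 1, r.coeff 0, hpos', ⟨hB 2 le_rfl, hB 1 (by norm_num),
      hB 0 (by norm_num)⟩, hsum⟩

end AK

end S_H32_AK_B4

section S_H32_AK_C1

set_option autoImplicit false

open Complex

namespace AK

open MJ U2

theorem C1_sep {y s0 : ℂ} {C7 C8 n : ℕ} (hC7 : 1 ≤ C7)
    (hC8 : 1 ≤ C8) (hli : WL y C8 (4 * C7 * n))
    {k l : ℕ} (hk : k < n) (hl : l < n) (hkl : k ≠ l) {vk vl : ℂ} {ak mk al ml : ℤ}
    (hvk : y * (s0 + 2 * k * y) = vk + (2 * ak * y - mk))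
    (hvl : y * (s0 + 2 * l * y) = vl + (2 * al * y - ml))
    (hak : |ak| ≤ C7 * (k + 1)) (hmk : |mk| ≤ C7 * (k + 1))
    (hal : |al| ≤ C7 * (l + 1)) (hml : |ml| ≤ C7 * (l + 1)) :
    1 ≤ ((C8 : ℝ) * ((4 * C7 * n : ℕ) : ℝ)) ^ C8 * ‖vk - vl‖ := by
  have hkn : (C7 : ℤ) * (k + 1) ≤ C7 * n := by
    apply mul_le_mul_of_nonneg_left _ (by positivity)
    omega
  have hln : (C7 : ℤ) * (l + 1) ≤ C7 * n := by
    apply mul_le_mul_of_nonneg_left _ (by positivity)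
    omega
  have h2n : 2 * (n : ℤ) ≤ 4 * C7 * n := by
    have h : (1 : ℤ) ≤ C7 := by exact_mod_cast hC7
    nlinarith
  have hk' := abs_le.1 (hak.trans hkn)
  have hl' := abs_le.1 (hal.trans hln)
  have hk'' := abs_le.1 (hmk.trans hkn)
  have hl'' := abs_le.1 (hml.trans hln)
  have h0 : (0 : ℤ) ≤ C7 * n := by positivity
  have h4 : ((4 * C7 * n : ℕ) : ℤ) = 4 * ((C7 : ℤ) * n) := by push_cast; ring
  have h2n' : 2 * (n : ℤ) ≤ 4 * ((C7 : ℤ) * n) := by linarith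
  have h := hli (2 * ((k : ℤ) - l)) (-2 * (ak - al)) (mk - ml)
    (by rw [h4, abs_le]; constructor <;> omega) (by rw [h4, abs_le]; constructor <;> omega)
    (by rw [h4, abs_le]; constructor <;> omega) (Or.inl (by omega))
  have e : ((2 * ((k : ℤ) - l) : ℤ) : ℂ) * y ^ 2 + ((-2 * (ak - al) : ℤ) : ℂ) * y +
      ((mk - ml : ℤ) : ℂ) = vk - vl := by
    push_cast
    linear_combination hvk - hvl
  rw [e] at h
  refine h.trans (mul_le_mul_of_nonneg_right ?_ (norm_nonneg _))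
  refine pow_le_pow_left₀ (Nat.cast_nonneg _) ?_ _
  exact le_mul_of_one_le_left (Nat.cast_nonneg _) (by exact_mod_cast hC8)

theorem C1_num {C0 C' C6 C8 M D : ℕ}
    (hD : 2 * C0 + 2 * C' + 2 * (C8 + 1) * C6 * M + 1 ≤ D) :
    (C0 : ℝ) * (D + 1) + 2 * C' * D + ((C8 + 1) * (2 * (C6 * D)) : ℕ) * (M * D) - (D : ℝ) ^ 3 < 0 := by
  have hD' : 2 * (C0 : ℝ) + 2 * C' + 2 * (C8 + 1) * C6 * M + 1 ≤ D := by exact_mod_cast hD
  have hD1 : (1 : ℝ) ≤ D := by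
    have : 1 ≤ D := by omega
    exact_mod_cast this
  have h0 : (0 : ℝ) ≤ C0 := Nat.cast_nonneg _
  have h1 : (0 : ℝ) ≤ C' := Nat.cast_nonneg _
  have hDD : (D : ℝ) ≤ (D : ℝ) ^ 2 := by nlinarith
  have h2 : (C0 : ℝ) * (D + 1) ≤ 2 * C0 * (D : ℝ) ^ 2 := by
    have : (D : ℝ) + 1 ≤ 2 * (D : ℝ) ^ 2 := by linarith
    have := mul_le_mul_of_nonneg_left this h0
    linarith
  have h3 : 2 * (C' : ℝ) * D ≤ 2 * C' * (D : ℝ) ^ 2 :=
    mul_le_mul_of_nonneg_left hDD (by linarith)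
  have h5 : (2 * (C0 : ℝ) + 2 * C' + 2 * (C8 + 1) * C6 * M + 1) * (D : ℝ) ^ 2 ≤ (D : ℝ) ^ 3 := by
    have := mul_le_mul_of_nonneg_right hD' (sq_nonneg (D : ℝ))
    calc _ ≤ (D : ℝ) * (D : ℝ) ^ 2 := this
      _ = (D : ℝ) ^ 3 := by ring
  have h6 : (((C8 + 1) * (2 * (C6 * D)) : ℕ) : ℝ) * (M * D) =
      2 * (C8 + 1) * C6 * M * (D : ℝ) ^ 2 := by
    push_cast
    ring
  rw [h6]
  have h7 : (0 : ℝ) < (D : ℝ) ^ 2 := by positivity
  nlinarith

theorem zest_w {y : ℂ} (hy : 0 < y.im)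
    {b : CZ.BaseFn y} {lam h kap ep : ℂ} {ε : ℝ}
    {Xf X1f Yf : ℂ → ℂ} (hS : CZ.BaseSys b lam h kap ep ε Xf X1f Yf) (C8 : ℕ) (hC8 : 1 ≤ C8) :
    ∃ C1 mm D0 : ℕ, 1 ≤ C1 ∧ 1 ≤ mm ∧ ∀ (D : ℕ) (c : Ix D → ℂ), D0 ≤ D → WL y C8 (mm * D) →
      (∀ l, ‖c l‖ ≤ 1) →
      (∃ l, ‖c l‖ = 1) → ∃ t < C1 * D ^ 2, Real.exp (-(D : ℝ) ^ 4) ≤ ‖jt (Pt ep h y) D c t‖ := by
  obtain ⟨C0, hC0, hnd⟩ := U2.nondeg b
  obtain ⟨C', hC', hgr⟩ := HV_growth b hy
  obtain ⟨C6, hC6, hlow⟩ := HV_low b hy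
  obtain ⟨C7, hC7, hred⟩ := reduce b hy
  obtain ⟨C1, D5, hC1, hsm⟩ := GG_small hy hS ⌈1 + 2 * y.im * C6⌉₊ (C7 * (1 + C6) ^ 2 + 1)
  refine ⟨C1, 4 * C7 * C6, D5 + (2 * C0 + 2 * C' + 2 * (C8 + 1) * C6 * (4 * C8 * C7 * C6) + 1), hC1,
    Nat.mul_pos (Nat.mul_pos (by norm_num) hC7) hC6, fun D c hD hWL hc hl => ?_⟩
  have hli : WL y C8 (4 * C7 * (C6 * D)) := by
    rw [← mul_assoc]
    exact hWL
  obtain ⟨l0, hl0⟩ := hl
  by_contra hcon
  push Not at hcon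
  have hD5 : D5 ≤ D := by omega
  have hDE : 2 * C0 + 2 * C' + 2 * (C8 + 1) * C6 * (4 * C8 * C7 * C6) + 1 ≤ D := by omega
  have hD1 : 1 ≤ D := by omega
  have hD1r : (1 : ℝ) ≤ D := by exact_mod_cast hD1
  have hG := hsm D c hD5 hc (fun t ht => (hcon t ht).le)
  obtain ⟨x1, x2, hx1, hx2, hn⟩ := hnd D (fun i j => c (i, j))
  have h1 : ‖c l0‖ ≤ _ := hn l0.1 l0.2
  rw [hl0] at h1
  set R : Fin (D + 1) → ℂ := fun j => ∑ i : Fin (D + 1), c (i, j) * HH b D i x1 with hR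
  have hsum : ∑ j1 : Fin (D + 1), ∑ j2 : Fin (D + 1), c (j1, j2) * HH b D j1 x1 * HH b D j2 x2 =
      HV b D R x2 := by
    unfold HV
    rw [Finset.sum_comm]
    refine Finset.sum_congr rfl fun k _ => ?_
    rw [hR, Finset.sum_mul]
  rw [hsum] at h1
  choose v a m hv1 hv2 hv3 hv4 hv5 using fun k : ℕ => hred D c x1 k hD1 hx1
  have hn0 : 1 ≤ C6 * D := Nat.mul_pos hC6 hD1
  -- the strip
  have him : ∀ k : ℕ, k < C6 * D →
      |(x1 + 2 * k * y).im| ≤ ((⌈1 + 2 * y.im * C6⌉₊ : ℕ) : ℝ) * D := by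
    intro k hk
    have e : (x1 + 2 * k * y).im = x1.im + 2 * k * y.im := by
      simp [Complex.add_im, Complex.mul_im]
    have h2 : |x1.im| ≤ 1 := (Complex.abs_im_le_norm x1).trans hx1
    have h3 : (k : ℝ) ≤ C6 * D := by exact_mod_cast hk.le
    have h4 : 2 * (k : ℝ) * y.im ≤ 2 * (C6 * D) * y.im := by
      apply mul_le_mul_of_nonneg_right _ hy.le
      linarith
    have h5 := Nat.le_ceil (1 + 2 * y.im * C6)
    rw [e]
    calc |x1.im + 2 * k * y.im| ≤ |x1.im| + |2 * k * y.im| := abs_add_le _ _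
      _ ≤ 1 + 2 * (C6 * D) * y.im := by
          rw [abs_of_nonneg (by positivity : 0 ≤ 2 * (k : ℝ) * y.im)]
          linarith
      _ ≤ (1 + 2 * y.im * C6) * D := by nlinarith
      _ ≤ _ := mul_le_mul_of_nonneg_right h5 (by linarith)
  -- small values
  have hsmall : ∀ k : ℕ, k < C6 * D → ‖HV b D R (v k)‖ ≤ Real.exp (-(D : ℝ) ^ 3) := by
    intro k hk
    refine (hv5 k).trans ?_
    calc Real.exp (C7 * D * (1 + (k : ℝ)) ^ 2) * ‖GG b D c (x1 + 2 * k * y)‖ ≤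
          Real.exp (C7 * D * (1 + (k : ℝ)) ^ 2) *
            Real.exp (-(((C7 * (1 + C6) ^ 2 + 1 : ℕ) : ℝ) * (D : ℝ) ^ 3)) :=
          mul_le_mul_of_nonneg_left (hG _ (him k hk)) (Real.exp_pos _).le
      _ ≤ Real.exp (-(D : ℝ) ^ 3) := by
          rw [← Real.exp_add]
          apply Real.exp_le_exp.2
          have h3 : 1 + (k : ℝ) ≤ (1 + C6) * D := by
            have : 1 + k ≤ (1 + C6) * D := by
              have : (1 + C6) * D = D + C6 * D := by ring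
              omega
            exact_mod_cast this
          have h4 : (1 + (k : ℝ)) ^ 2 ≤ ((1 + C6) * D) ^ 2 := pow_le_pow_left₀ (by positivity) h3 2
          have h5 : (C7 : ℝ) * D * (1 + (k : ℝ)) ^ 2 ≤ C7 * D * ((1 + C6) * D) ^ 2 :=
            mul_le_mul_of_nonneg_left h4 (by positivity)
          push_cast
          have h6 : (C7 : ℝ) * D * ((1 + C6) * D) ^ 2 = C7 * (1 + C6) ^ 2 * (D : ℝ) ^ 3 := by ring
          linarith
  -- separation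
  set Q : ℝ := ((C8 : ℝ) * ((4 * C7 * (C6 * D) : ℕ) : ℝ)) ^ C8 with hQ
  have hbase : (1 : ℝ) ≤ (C8 : ℝ) * ((4 * C7 * (C6 * D) : ℕ) : ℝ) := by
    have : 1 ≤ C8 * (4 * C7 * (C6 * D)) := by
      apply Nat.mul_pos hC8
      apply Nat.mul_pos _ hn0
      omega
    exact_mod_cast this
  have hQ1 : 1 ≤ Q := one_le_pow₀ hbase
  have hQ0 : 0 < Q := by linarith
  have hlow' := hlow D R (C6 * D) (fun i => v i) (Q⁻¹ / 2) (Real.exp (-(D : ℝ) ^ 3)) hD1 le_rfl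
    (by positivity) (by have := inv_le_one_of_one_le₀ hQ1; linarith) (Real.exp_pos _).le
    (fun i => hv2 i) (fun i k hik => by
      have hsep := C1_sep (n := C6 * D) hC7 hC8 hli i.2 k.2 (fun h => hik (Fin.ext h))
        (hv1 i) (hv1 k) (hv3 i) (hv4 i) (hv3 k) (hv4 k)
      rw [← hQ] at hsep
      have : 2 * (Q⁻¹ / 2) = 1 / Q := by ring
      rw [this, div_le_iff₀ hQ0, mul_comm]
      exact hsep) (fun i => hsmall i i.2)
  have hbig := hgr D R (((C6 : ℝ) / (Q⁻¹ / 2)) ^ (2 * (C6 * D)) * Real.exp (-(D : ℝ) ^ 3)) hD1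
    hlow' x2
  -- estimate
  have hQM : (C6 : ℝ) / (Q⁻¹ / 2) ≤ Real.exp (((4 * C8 * C7 * C6 : ℕ) : ℝ) * D) ^ (C8 + 1) := by
    have e1 : (C6 : ℝ) / (Q⁻¹ / 2) = 2 * C6 * Q := by field_simp
    have e2 : (C8 : ℝ) * ((4 * C7 * (C6 * D) : ℕ) : ℝ) = ((4 * C8 * C7 * C6 : ℕ) : ℝ) * D := by
      push_cast
      ring
    have e3 : 2 * (C6 : ℝ) ≤ ((4 * C8 * C7 * C6 : ℕ) : ℝ) * D := by
      have : 2 * C6 ≤ 4 * C8 * C7 * C6 * D := by
        have h7 : 1 ≤ C8 * C7 * D := Nat.mul_pos (Nat.mul_pos hC8 hC7) hD1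
        calc 2 * C6 = 2 * (C6 * 1) := by ring
          _ ≤ 4 * (C6 * (C8 * C7 * D)) := by
              have := Nat.mul_le_mul_left C6 h7
              omega
          _ = 4 * C8 * C7 * C6 * D := by ring
      exact_mod_cast this
    rw [e1, hQ, e2]
    have e4 : ((4 * C8 * C7 * C6 : ℕ) : ℝ) * D ≤
        Real.exp (((4 * C8 * C7 * C6 : ℕ) : ℝ) * D) := by
      have := Real.add_one_le_exp (((4 * C8 * C7 * C6 : ℕ) : ℝ) * D)
      linarith
    calc 2 * (C6 : ℝ) * (((4 * C8 * C7 * C6 : ℕ) : ℝ) * D) ^ C8 ≤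
          (((4 * C8 * C7 * C6 : ℕ) : ℝ) * D) * (((4 * C8 * C7 * C6 : ℕ) : ℝ) * D) ^ C8 :=
          mul_le_mul_of_nonneg_right e3 (by positivity)
      _ = (((4 * C8 * C7 * C6 : ℕ) : ℝ) * D) ^ (C8 + 1) := by ring
      _ ≤ _ := pow_le_pow_left₀ (by positivity) e4 _
  have hC0e : (C0 : ℝ) ^ (D + 1) ≤ Real.exp ((C0 : ℝ) * (D + 1)) := by
    have e4 : (C0 : ℝ) ≤ Real.exp C0 := by
      have := Real.add_one_le_exp (C0 : ℝ)
      linarith
    calc (C0 : ℝ) ^ (D + 1) ≤ Real.exp C0 ^ (D + 1) := pow_le_pow_left₀ (by positivity) e4 _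
      _ = Real.exp ((C0 : ℝ) * (D + 1)) := by
          rw [← Real.exp_nat_mul]
          congr 1
          push_cast
          ring
  have hx2' : Real.exp (C' * D * (1 + ‖x2‖ ^ 2)) ≤ Real.exp (2 * C' * D) := by
    apply Real.exp_le_exp.2
    have h8 : ‖x2‖ ^ 2 ≤ 1 := pow_le_one₀ (norm_nonneg _) hx2
    have h9 : (C' : ℝ) * D * (1 + ‖x2‖ ^ 2) ≤ C' * D * 2 :=
      mul_le_mul_of_nonneg_left (by linarith) (by positivity)
    linarith
  have hQe : ((C6 : ℝ) / (Q⁻¹ / 2)) ^ (2 * (C6 * D)) ≤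
      Real.exp ((((C8 + 1) * (2 * (C6 * D)) : ℕ) : ℝ) * (((4 * C8 * C7 * C6 : ℕ) : ℝ) * D)) := by
    rw [Real.exp_nat_mul, pow_mul (Real.exp _)]
    exact pow_le_pow_left₀ (by positivity) hQM _
  have hfin : (1 : ℝ) ≤ Real.exp ((C0 : ℝ) * (D + 1) + 2 * C' * D +
      (((C8 + 1) * (2 * (C6 * D)) : ℕ) : ℝ) * (((4 * C8 * C7 * C6 : ℕ) : ℝ) * D) -
      (D : ℝ) ^ 3) := by
    calc (1 : ℝ) ≤ (C0 : ℝ) ^ (D + 1) * ‖HV b D R x2‖ := h1
      _ ≤ Real.exp ((C0 : ℝ) * (D + 1)) *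
          (Real.exp ((((C8 + 1) * (2 * (C6 * D)) : ℕ) : ℝ) *
            (((4 * C8 * C7 * C6 : ℕ) : ℝ) * D)) * Real.exp (-(D : ℝ) ^ 3) *
            Real.exp (2 * C' * D)) := by
          refine mul_le_mul hC0e (hbig.trans ?_) (norm_nonneg _) (Real.exp_pos _).le
          exact mul_le_mul (mul_le_mul_of_nonneg_right hQe (Real.exp_pos _).le) hx2'
            (Real.exp_pos _).le (by positivity)
      _ = _ := by
          rw [← Real.exp_add, ← Real.exp_add, ← Real.exp_add]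
          congr 1
          ring
  have hneg := C1_num hDE
  have hlt : Real.exp ((C0 : ℝ) * (D + 1) + 2 * C' * D +
      (((C8 + 1) * (2 * (C6 * D)) : ℕ) : ℝ) * (((4 * C8 * C7 * C6 : ℕ) : ℝ) * D) -
      (D : ℝ) ^ 3) < 1 :=
    (Real.exp_lt_exp.2 hneg).trans_eq Real.exp_zero
  linarith

end AK

end S_H32_AK_C1

section S_H32_AK_C2

set_option autoImplicit false

namespace AK

open CZ

theorem appr_scale {k : ℕ} {P : Fin k → ℂ} {t V : ℝ} (hV : 0 < V) (h : ApprAt P t V) :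
    ∃ (E : Type) (_ : Field E) (_ : NumberField E) (x : Fin k → E)
      (S : Finset (E →+* ℂ)) (d : (E →+* ℂ) → ℝ),
      (Module.finrank ℚ E : ℝ) ≤ t ∧ (∀ i, hE (x i) ≤ t) ∧
      (∀ φ ∈ S, 0 ≤ d φ ∧ ∀ i, ‖φ (x i) - P i‖ ≤ Real.exp (-d φ)) ∧ ∑ φ ∈ S, d φ = V ∧
      ∃ φ0 ∈ S, V ≤ t * d φ0 ∧ (∀ φ ∈ S, d φ ≤ d φ0) ∧ d φ0 ≤ V := by
  classical
  obtain ⟨E, hF, hN, x, S, d, hfin, hx, hS, hW⟩ := h
  set W : ℝ := ∑ φ ∈ S, d φ with hWdef
  have hWpos : 0 < W := lt_of_lt_of_le hV hW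
  have hr0 : 0 ≤ V / W := (div_pos hV hWpos).le
  have hr1 : V / W ≤ 1 := (div_le_one hWpos).2 hW
  have hsum : ∑ φ ∈ S, d φ * (V / W) = V := by
    rw [← Finset.sum_mul, ← hWdef]
    field_simp
  have hne : S.Nonempty := by
    rcases S.eq_empty_or_nonempty with h0 | h0
    · rw [h0] at hsum
      simp at hsum
      exact absurd hsum.symm hV.ne'
    · exact h0
  have hd0 : ∀ φ ∈ S, 0 ≤ d φ * (V / W) := fun φ hφ => mul_nonneg (hS φ hφ).1 hr0
  obtain ⟨φ0, hφ0, hmax⟩ := Finset.exists_max_image S (fun φ => d φ * (V / W)) hne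
  have hcard : (S.card : ℝ) ≤ t := by
    refine le_trans ?_ hfin
    have h1 : S.card ≤ Fintype.card (E →+* ℂ) := Finset.card_le_univ S
    rw [NumberField.Embeddings.card E ℂ] at h1
    exact_mod_cast h1
  refine ⟨E, hF, hN, x, S, fun φ => d φ * (V / W), hfin, hx, ?_, hsum, φ0, hφ0, ?_, hmax, ?_⟩
  · intro φ hφ
    refine ⟨hd0 φ hφ, fun i => le_trans ((hS φ hφ).2 i) ?_⟩
    apply Real.exp_le_exp.2
    have := mul_le_of_le_one_right (hS φ hφ).1 hr1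
    linarith
  · have h1 : ∑ φ ∈ S, d φ * (V / W) ≤ S.card • (d φ0 * (V / W)) :=
      Finset.sum_le_card_nsmul S _ _ hmax
    rw [hsum, nsmul_eq_mul] at h1
    exact le_trans h1 (mul_le_mul_of_nonneg_right hcard (hd0 φ0 hφ0))
  · calc d φ0 * (V / W) ≤ ∑ φ ∈ S, d φ * (V / W) :=
          Finset.single_le_sum (f := fun φ => d φ * (V / W)) hd0 hφ0
      _ = V := hsum

end AK

end S_H32_AK_C2

section S_H32_AK_C5

set_option autoImplicit false

open EisensteinSeries ModularForm UpperHalfPlane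

namespace AK

open H32 H32.T3

theorem base_nc (τ : ℍ) (hcm : NCM (τ : ℂ)) :
    ∃ (b : CZ.BaseFn (τ : ℂ)) (lam h kap ep : ℂ) (ε : ℝ) (Xf X1f Yf : ℂ → ℂ),
      CZ.BaseSys b lam h kap ep ε Xf X1f Yf ∧
      IsAlgebraic (IntermediateField.adjoin ℚ (Set.range ![jf τ])) ep ∧
      IsAlgebraic (IntermediateField.adjoin ℚ (Set.range ![jf τ])) h := by
  obtain ⟨h4, h6⟩ := AZ.E_ne (τ : ℂ) hcm τ rfl
  obtain ⟨b, lam, ep, ε, Xf, X1f, Yf, hsys, -, hep⟩ := CZ.exists_base τ h4 h6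
  refine ⟨b, lam, _, _, ep, ε, Xf, X1f, Yf, hsys, ?_⟩
  generalize hFLD : IntermediateField.adjoin ℚ (Set.range ![jf τ]) = FLD
  have m0 : IsAlgebraic FLD (jf τ) := by
    have h : jf τ ∈ FLD := by
      rw [← hFLD]; exact IntermediateField.subset_adjoin _ _ ⟨0, rfl⟩
    exact isAlgebraic_algebraMap (⟨_, h⟩ : FLD)
  obtain ⟨M, hM⟩ : ∃ M : IntermediateField FLD ℂ, ∀ x, x ∈ M ↔ IsAlgebraic FLD x :=
    ⟨algebraicClosure FLD ℂ, fun x => mem_algebraicClosure_iff⟩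
  rw [← hM] at m0
  have nat_mem : ∀ n : ℕ, (n : ℂ) ∈ M := fun n => natCast_mem M n
  have i1728 : (1728 : ℂ) ∈ M := by exact_mod_cast nat_mem 1728
  have i2 : (2 : ℂ) ∈ M := by exact_mod_cast nat_mem 2
  have i27 : (27 : ℂ) ∈ M := by exact_mod_cast nat_mem 27
  have mt : E₄ τ ^ 3 / E₆ τ ^ 2 ∈ M := by
    have e : E₄ τ ^ 3 / E₆ τ ^ 2 = jf τ / (jf τ - 1728) := by
      have hd := discriminant_ne_zero τ
      rw [← jf_mul, ← jf_sub]
      exact mul_div_mul_right _ _ hd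
    rw [e]
    exact div_mem m0 (sub_mem m0 i1728)
  have mh : 27 / 2 * (E₄ τ ^ 3 / E₆ τ ^ 2) ∈ M := mul_mem (div_mem i27 i2) mt
  exact ⟨CZ.Qf_ep ((hM _).1 mh) hep, (hM _).1 mh⟩

end AK

end S_H32_AK_C5
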