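import Mathlib
import Pool.Agent.H32.AKM.P16

/-! Modular Schanuel with derivatives for points algebraic over a field with good approximations, part 20: this file joins several modules to save build time. -/

section S_H32_AO_D0

set_option autoImplicit false

namespace AO

open CZ
open H32.T3 (nrm)

/-- Approximations with capped closeness. -/
def ApprC {k : ℕ} (P : Fin k → ℂ) (t V L0 : ℝ) : Prop :=
  ∃ (E : Type) (_ : Field E) (_ : NumberField E) (x : Fin k → E)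
    (S : Finset (E →+* ℂ)) (d : (E →+* ℂ) → ℝ),
    (Module.finrank ℚ E : ℝ) ≤ t ∧ (∀ i, hE (x i) ≤ t) ∧
    (∀ φ ∈ S, 0 ≤ d φ ∧ d φ ≤ L0 ∧ ∀ i, ‖φ (x i) - P i‖ ≤ Real.exp (-d φ)) ∧ V ≤ ∑ φ ∈ S, d φ

/-- A relation of size `X` for `y` over `P`. -/
def Rel {k : ℕ} (X L0 : ℝ) (P : Fin k → ℂ) (y : ℂ) : Prop :=
  ∃ (n : ℕ) (G : ℕ → MvPolynomial (Fin k) ℤ), 0 < n ∧ (n : ℝ) ≤ X ∧
    (∀ j ≤ n, ((G j).totalDegree : ℝ) ≤ X) ∧ (∀ j ≤ n, nrm (G j) ≤ Real.exp X) ∧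
    Real.exp (-X) ≤ ‖MvPolynomial.aeval P (G n)‖ ∧
    ‖∑ j ∈ Finset.range (n + 1), MvPolynomial.aeval P (G j) * y ^ j‖ ≤ Real.exp (-L0)

/-- Roots of polynomials over `ℤ[J]` with constant leading coefficient. -/
def RootRel (X : ℝ) (J w : ℂ) : Prop :=
  ∃ (M : ℕ) (r : ℕ → Polynomial ℤ) (c : ℤ), 0 < M ∧ (M : ℝ) ≤ X ∧ c ≠ 0 ∧
    r M = Polynomial.C c ∧ (∀ i, ((r i).natDegree : ℝ) ≤ X) ∧ (∀ i, nr (r i) ≤ Real.exp X) ∧
    ∑ i ∈ Finset.range (M + 1), Polynomial.aeval J (r i) * w ^ i = 0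

/-- A transcendence measure. -/
def Meas (J : ℂ) : Prop :=
  ∃ κ Λ0 : ℕ, ∀ (f : Polynomial ℤ) (Λ : ℕ), f ≠ 0 → Λ0 ≤ Λ → f.natDegree ≤ Λ →
    nr f ≤ Real.exp Λ → Real.exp (-(Λ : ℝ) ^ κ) ≤ ‖Polynomial.aeval J f‖

/-- Approximations at every scale. -/
def ScAppr {k : ℕ} (P : Fin k → ℂ) (κ : ℝ) : Prop :=
  ∀ c : ℕ, ∃ B N0 : ℕ, ∀ N : ℕ, N0 ≤ N → ∃ t V : ℝ, 1 ≤ t ∧ t ≤ (N : ℝ) ^ B ∧
    ((N : ℝ) ^ c * t) ^ κ * (N : ℝ) ^ c ≤ V ∧ ApprAt P t V

end AO

end S_H32_AO_D0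

section S_H32_AO_A1

set_option autoImplicit false

namespace AO

open CZ
open H32.T3 (nrm)

theorem ApprC.of_at {k : ℕ} {P : Fin k → ℂ} {t V L0 : ℝ} (hL : 0 ≤ L0) (h : ApprAt P t V) :
    ApprC P t (min V L0) L0 := by
  obtain ⟨E, iF, iN, x, S, d, h1, h2, h3, h4⟩ := h
  refine ⟨E, iF, iN, x, S, fun φ ↦ min (d φ) L0, h1, h2, fun φ hφ ↦ ⟨le_min (h3 φ hφ).1 hL,
    min_le_right _ _, fun i ↦ ((h3 φ hφ).2 i).trans (Real.exp_le_exp.2 (neg_le_neg (min_le_left _ _)))⟩, ?_⟩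
  by_cases hc : ∃ φ ∈ S, L0 ≤ d φ
  · obtain ⟨φ, hφ, hle⟩ := hc
    calc min V L0 ≤ L0 := min_le_right _ _
      _ = min (d φ) L0 := (min_eq_right hle).symm
      _ ≤ ∑ φ ∈ S, min (d φ) L0 := Finset.single_le_sum (f := fun φ ↦ min (d φ) L0)
          (fun ψ hψ ↦ le_min (h3 ψ hψ).1 hL) hφ
  · push Not at hc
    calc min V L0 ≤ V := min_le_left _ _
      _ ≤ ∑ φ ∈ S, d φ := h4
      _ = ∑ φ ∈ S, min (d φ) L0 := Finset.sum_congr rfl fun φ hφ ↦ (min_eq_left (hc φ hφ).le).symm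

theorem ApprC.at {k : ℕ} {P : Fin k → ℂ} {t V L0 : ℝ} (h : ApprC P t V L0) : ApprAt P t V := by
  obtain ⟨E, iF, iN, x, S, d, h1, h2, h3, h4⟩ := h
  exact ⟨E, iF, iN, x, S, d, h1, h2, fun φ hφ ↦ ⟨(h3 φ hφ).1, (h3 φ hφ).2.2⟩, h4⟩

theorem ApprC.mono {k : ℕ} {P : Fin k → ℂ} {t t' V V' L0 L0' : ℝ} (h : ApprC P t V L0)
    (ht : t ≤ t') (hV : V' ≤ V) (hL : L0 ≤ L0') : ApprC P t' V' L0' := by
  obtain ⟨E, iF, iN, x, S, d, h1, h2, h3, h4⟩ := h
  exact ⟨E, iF, iN, x, S, d, h1.trans ht, fun i ↦ (h2 i).trans ht,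
    fun φ hφ ↦ ⟨(h3 φ hφ).1, (h3 φ hφ).2.1.trans hL, (h3 φ hφ).2.2⟩, hV.trans h4⟩

theorem ApprC.reindex {k l : ℕ} {P : Fin k → ℂ} {t V L0 : ℝ} (f : Fin l → Fin k)
    (h : ApprC P t V L0) : ApprC (fun i ↦ P (f i)) t V L0 := by
  obtain ⟨E, iF, iN, x, S, d, h1, h2, h3, h4⟩ := h
  exact ⟨E, iF, iN, fun i ↦ x (f i), S, d, h1, fun i ↦ h2 (f i),
    fun φ hφ ↦ ⟨(h3 φ hφ).1, (h3 φ hφ).2.1, fun i ↦ (h3 φ hφ).2.2 (f i)⟩, h4⟩

theorem Rel.mono {k : ℕ} {X X' L0 L0' : ℝ} {P : Fin k → ℂ} {y : ℂ} (h : Rel X L0 P y)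
    (hX : X ≤ X') (hL : L0' ≤ L0) : Rel X' L0' P y := by
  obtain ⟨n, G, h1, h2, h3, h4, h5, h6⟩ := h
  exact ⟨n, G, h1, h2.trans hX, fun j hj ↦ (h3 j hj).trans hX,
    fun j hj ↦ (h4 j hj).trans (Real.exp_le_exp.2 hX),
    (Real.exp_le_exp.2 (neg_le_neg hX)).trans h5, h6.trans (Real.exp_le_exp.2 (neg_le_neg hL))⟩

theorem RootRel.mono {X X' : ℝ} {J w : ℂ} (h : RootRel X J w) (hX : X ≤ X') :
    RootRel X' J w := by
  obtain ⟨M, r, c, h1, h2, h3, h4, h5, h6, h7⟩ := h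
  exact ⟨M, r, c, h1, h2.trans hX, h3, h4, fun i ↦ (h5 i).trans hX,
    fun i ↦ (h6 i).trans (Real.exp_le_exp.2 hX), h7⟩

end AO

end S_H32_AO_A1

section S_H32_AO_A2

set_option autoImplicit false

namespace AO

open CZ Polynomial
open H32.T3 (nrm)

theorem ext_alg_cap {k : ℕ} (P : Fin k → ℂ) (y : ℂ) (n : ℕ) (G : ℕ → MvPolynomial (Fin k) ℤ)
    (hn : 0 < n) (N : ℕ) (hN : ∀ j ≤ n, (G j).totalDegree ≤ N) (Bn : ℝ) (hB1 : 1 ≤ Bn)
    (hBn : ∀ j ≤ n, nrm (G j) ≤ Bn) (d1 L0 : ℝ) (hd1 : 0 ≤ d1)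
    (hloc : ∀ (δ : ℝ), d1 ≤ δ → δ ≤ L0 → ∀ P' : Fin k → ℂ,
      (∀ i, ‖P' i - P i‖ ≤ Real.exp (-δ)) → MvPolynomial.aeval P' (G n) ≠ 0 ∧
      ∃ z : ℂ, ∑ j ∈ Finset.range (n + 1), MvPolynomial.aeval P' (G j) * z ^ j = 0 ∧
        ‖z - y‖ ≤ Real.exp (-(δ / (2 * n))))
    (t V : ℝ) (ht : 1 ≤ t) (hV : 0 < V) (htV : t * d1 ≤ V / 2) (hA : ApprC P t V L0) :
    ApprC (Fin.snoc P y : Fin (k + 1) → ℂ)
      (n * (1 + Real.log (n * Bn) + N * k) * t) (V / (4 * n ^ 2)) L0 := by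
  classical
  obtain ⟨E, iE, iN, x, S, d, hfr, hht, hS, hVS⟩ := hA
  have hn' : (0 : ℝ) < n := by exact_mod_cast hn
  have hn1 : (1 : ℝ) ≤ n := by exact_mod_cast hn
  obtain ⟨S1, hS1⟩ : ∃ S1 : Finset (E →+* ℂ), S1 = S.filter (fun φ => d1 ≤ d φ) := ⟨_, rfl⟩
  have hcard : (S.card : ℝ) ≤ t := by
    refine le_trans ?_ hfr
    have h1 := Finset.card_le_univ S
    rw [NumberField.Embeddings.card] at h1
    exact_mod_cast h1
  have hsum1 : V / 2 ≤ ∑ φ ∈ S1, d φ := by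
    have h1 : ∑ φ ∈ S, d φ = ∑ φ ∈ S1, d φ + ∑ φ ∈ S.filter (fun φ => ¬ d1 ≤ d φ), d φ := by
      rw [hS1, Finset.sum_filter_add_sum_filter_not]
    have h2 : ∑ φ ∈ S.filter (fun φ => ¬ d1 ≤ d φ), d φ ≤ S.card * d1 := by
      have h3 : ∑ φ ∈ S.filter (fun φ => ¬ d1 ≤ d φ), d φ ≤
          (S.filter (fun φ => ¬ d1 ≤ d φ)).card • d1 := by
        refine Finset.sum_le_card_nsmul _ _ _ fun φ hφ => ?_
        exact (not_le.1 (Finset.mem_filter.1 hφ).2).le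
      refine h3.trans ?_
      rw [nsmul_eq_mul]
      have h4 : ((S.filter (fun φ => ¬ d1 ≤ d φ)).card : ℝ) ≤ S.card := by
        exact_mod_cast Finset.card_filter_le _ _
      exact mul_le_mul_of_nonneg_right h4 hd1
    have h5 : S.card * d1 ≤ t * d1 := mul_le_mul_of_nonneg_right hcard hd1
    linarith
  have hpos1 : 0 < ∑ φ ∈ S1, d φ := by linarith
  have hS1mem : ∀ φ ∈ S1, φ ∈ S ∧ d1 ≤ d φ := fun φ hφ => by
    rw [hS1] at hφ
    exact Finset.mem_filter.1 hφ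
  have hL : ∀ φ ∈ S1, MvPolynomial.aeval (fun i => φ (x i)) (G n) ≠ 0 ∧
      ∃ z : ℂ, ∑ j ∈ Finset.range (n + 1), MvPolynomial.aeval (fun i => φ (x i)) (G j) * z ^ j = 0 ∧
        ‖z - y‖ ≤ Real.exp (-(d φ / (2 * n))) := fun φ hφ =>
    hloc (d φ) (hS1mem φ hφ).2 (hS φ (hS1mem φ hφ).1).2.1 _ (hS φ (hS1mem φ hφ).1).2.2
  have hGx : MvPolynomial.aeval x (G n) ≠ 0 := by
    obtain ⟨φ, hφ⟩ : S1.Nonempty := by
      rw [Finset.nonempty_iff_ne_empty]
      rintro h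
      rw [h] at hpos1
      simp at hpos1
    intro h0
    apply (hL φ hφ).1
    rw [← xd_aeval, h0, map_zero]
  obtain ⟨f, hf⟩ : ∃ f : E[X], f = xdP (fun j => MvPolynomial.aeval x (G j)) n := ⟨_, rfl⟩
  have hfdeg : f.natDegree = n := by
    rw [hf]
    exact xdP_deg _ n hGx
  have hf0 : f ≠ 0 := by
    intro h0
    rw [h0] at hfdeg
    simp at hfdeg
    omega
  obtain ⟨Ψ, hΨc, hΨ, hΨr⟩ := xd_factors f hf0
  rw [hfdeg] at hΨc
  have hex : ∀ φ : E →+* ℂ, ∃ zψ : ℂ × E[X], φ ∈ S1 → zψ.2 ∈ Ψ ∧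
      (zψ.2.map φ).eval zψ.1 = 0 ∧ ‖zψ.1 - y‖ ≤ Real.exp (-(d φ / (2 * n))) := by
    intro φ
    by_cases hφ : φ ∈ S1
    · obtain ⟨_, z, hz, hzy⟩ := hL φ hφ
      have h1 : (f.map φ).eval z = 0 := by
        rw [hf, xdP_map, xdP_eval]
        simp only [xd_aeval]
        exact hz
      obtain ⟨ψ, hψ, h2⟩ := hΨr φ z h1
      exact ⟨(z, ψ), fun _ => ⟨hψ, h2, hzy⟩⟩
    · exact ⟨(0, 0), fun h => absurd h hφ⟩
  choose zψ hzψ using hex
  obtain ⟨ψ, hψΨ, hpig⟩ := xd_pigeon S1 Ψ (fun φ => (zψ φ).2) (fun φ hφ => (hzψ φ hφ).1) d n hΨc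
    hpos1
  obtain ⟨hψirr, hψdvd⟩ := hΨ ψ hψΨ
  obtain ⟨E', iE', iN', iA, ρ, hρ, hfr1, hfr2, hlift⟩ := adjoin_root_nf E ψ hψirr
  have hψdeg : ψ.natDegree ≤ n := by
    rw [← hfdeg]
    exact natDegree_le_of_dvd hψdvd hf0
  obtain ⟨S2, hS2⟩ : ∃ S2 : Finset (E →+* ℂ), S2 = S1.filter (fun φ => (zψ φ).2 = ψ) := ⟨_, rfl⟩
  have hS2mem : ∀ φ ∈ S2, φ ∈ S1 ∧ (zψ φ).2 = ψ := fun φ hφ => by
    rw [hS2] at hφ
    exact Finset.mem_filter.1 hφ
  rw [← hS2] at hpig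
  have hex2 : ∀ φ : E →+* ℂ, ∃ φ' : E' →+* ℂ, φ ∈ S2 →
      φ'.comp (algebraMap E E') = φ ∧ φ' ρ = (zψ φ).1 := by
    intro φ
    by_cases hφ : φ ∈ S2
    · obtain ⟨h1, h2⟩ := hS2mem φ hφ
      have h3 := (hzψ φ h1).2.1
      rw [h2] at h3
      obtain ⟨φ', h4⟩ := hlift φ _ h3
      exact ⟨φ', fun _ => h4⟩
    · obtain ⟨φ'⟩ : Nonempty (E' →+* ℂ) := inferInstance
      exact ⟨φ', fun h => absurd h hφ⟩
  choose F hF using hex2
  have hinj : Set.InjOn F (S2 : Set (E →+* ℂ)) := by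
    intro φ hφ φ₂ hφ₂ h
    rw [← (hF φ hφ).1, ← (hF φ₂ hφ₂).1, h]
  have hfrE' : (Module.finrank ℚ E' : ℝ) ≤ n * t := by
    rw [hfr2]
    push_cast
    have h1 : (ψ.natDegree : ℝ) ≤ n := by exact_mod_cast hψdeg
    exact mul_le_mul h1 hfr (Nat.cast_nonneg _) hn'.le
  have hlog : 0 ≤ Real.log (n * Bn) := Real.log_nonneg (by nlinarith)
  have hNk : (0 : ℝ) ≤ N * k := by positivity
  have hC : n * t ≤ n * (1 + Real.log (n * Bn) + N * k) * t := by
    have h1 : 0 ≤ n * t * (Real.log (n * Bn) + N * k) := by positivity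
    linarith
  have hhalg : ∀ i, hE (algebraMap E E' (x i)) ≤ n * t := by
    intro i
    refine (hE_algebraMap (x i)).trans ?_
    rw [hfr1]
    have h1 : (ψ.natDegree : ℝ) ≤ n := by exact_mod_cast hψdeg
    calc (ψ.natDegree : ℝ) * hE (x i) ≤ ψ.natDegree * t :=
          mul_le_mul_of_nonneg_left (hht i) (Nat.cast_nonneg _)
      _ ≤ n * t := mul_le_mul_of_nonneg_right h1 (by linarith)
  refine ⟨E', iE', iN', Fin.snoc (fun i => algebraMap E E' (x i)) ρ, S2.image F,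
    fun φ' => d (φ'.comp (algebraMap E E')) / (2 * n), hfrE'.trans hC, ?_, ?_, ?_⟩
  · intro i
    refine Fin.lastCases ?_ (fun i => ?_) i
    · rw [Fin.snoc_last]
      have hroot : ∑ j ∈ Finset.range (n + 1),
          MvPolynomial.aeval (fun i => algebraMap E E' (x i)) (G j) * ρ ^ j = 0 := by
        obtain ⟨q, hq⟩ := hψdvd
        have h1 : aeval ρ f = 0 := by
          rw [hq, map_mul, hρ, zero_mul]
        rw [aeval_def, ← eval_map, hf, xdP_map, xdP_eval] at h1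
        simp only [xd_aeval] at h1
        exact h1
      have hlead : MvPolynomial.aeval (fun i => algebraMap E E' (x i)) (G n) ≠ 0 := by
        rw [← xd_aeval]
        exact (map_ne_zero_iff _ (algebraMap E E').injective).2 hGx
      have h2 := hE_root_le (fun i => algebraMap E E' (x i)) n G N Bn hB1 hN hBn ρ hroot hlead
      have h3 : ∑ i, hE (algebraMap E E' (x i)) ≤ k * (n * t) := by
        refine (Finset.sum_le_card_nsmul _ _ _ fun i _ => hhalg i).trans (le_of_eq ?_)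
        rw [Finset.card_univ, Fintype.card_fin, nsmul_eq_mul]
      have h4 : (Module.finrank ℚ E' : ℝ) * Real.log (n * Bn) ≤ n * t * Real.log (n * Bn) :=
        mul_le_mul_of_nonneg_right hfrE' hlog
      have h5 : (N : ℝ) * ∑ i, hE (algebraMap E E' (x i)) ≤ N * (k * (n * t)) :=
        mul_le_mul_of_nonneg_left h3 (Nat.cast_nonneg _)
      have h6 : 0 ≤ n * t := by positivity
      linarith
    · rw [Fin.snoc_castSucc]
      exact (hhalg i).trans hC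
  · intro φ' hφ'
    obtain ⟨φ, hφ, rfl⟩ := Finset.mem_image.1 hφ'
    obtain ⟨h1, h2⟩ := hF φ hφ
    obtain ⟨h3, _⟩ := hS2mem φ hφ
    obtain ⟨h4, h5⟩ := hS1mem φ h3
    obtain ⟨h6, h6', h7⟩ := hS φ h4
    beta_reduce
    rw [h1]
    have h9 : d φ / (2 * n) ≤ d φ := div_le_self h6 (by linarith)
    refine ⟨by positivity, h9.trans h6', fun i => ?_⟩
    refine Fin.lastCases ?_ (fun i => ?_) i
    · rw [Fin.snoc_last, Fin.snoc_last, h2]
      exact (hzψ φ h3).2.2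
    · rw [Fin.snoc_castSucc, Fin.snoc_castSucc]
      have h8 : F φ (algebraMap E E' (x i)) = φ (x i) := by
        conv_rhs => rw [← h1]
        rfl
      rw [h8]
      refine (h7 i).trans (Real.exp_le_exp.2 ?_)
      have h9 : d φ / (2 * n) ≤ d φ := div_le_self h6 (by linarith)
      linarith
  · rw [Finset.sum_image hinj]
    have h1 : ∑ φ ∈ S2, d ((F φ).comp (algebraMap E E')) / (2 * n) = (∑ φ ∈ S2, d φ) / (2 * n) := by
      rw [Finset.sum_div]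
      refine Finset.sum_congr rfl fun φ hφ => ?_
      rw [(hF φ hφ).1]
    rw [h1]
    have h2 : V / 2 / n ≤ ∑ φ ∈ S2, d φ := by
      refine le_trans ?_ hpig
      exact div_le_div_of_nonneg_right hsum1 hn'.le
    have h3 : V / (4 * n ^ 2) = V / 2 / n / (2 * n) := by
      field_simp
      ring
    rw [h3]
    exact div_le_div_of_nonneg_right h2 (by positivity)

end AO

end S_H32_AO_A2

section S_H32_AO_A3

set_option autoImplicit false

namespace AO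

open CZ Polynomial
open H32.T3 (nrm)

theorem local_cap {k : ℕ} (P : Fin k → ℂ) (y : ℂ) (n : ℕ) (G : ℕ → MvPolynomial (Fin k) ℤ)
    (hn : 0 < n) (N : ℕ) (hN : ∀ j ≤ n, (G j).totalDegree ≤ N) (Bn B g0 L0 : ℝ) (hBn0 : 0 ≤ Bn)
    (hBn : ∀ j ≤ n, nrm (G j) ≤ Bn) (hB1 : 1 ≤ B) (hBP : ∀ i, ‖P i‖ + 1 ≤ B) (hBy : ‖y‖ ≤ B)
    (hg0 : 0 < g0) (hg : 2 * g0 ≤ ‖MvPolynomial.aeval P (G n)‖)
    (hrel : ‖∑ j ∈ Finset.range (n + 1), MvPolynomial.aeval P (G j) * y ^ j‖ ≤ Real.exp (-L0))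
    (δ : ℝ) (hδ : 2 * max 0 (Real.log (((n + 1) * (Bn * (N * B ^ N) * B ^ n) +
      Bn * (N * B ^ N) + 2) / g0)) ≤ δ) (hδL : δ ≤ L0) (P' : Fin k → ℂ)
    (hP' : ∀ i, ‖P' i - P i‖ ≤ Real.exp (-δ)) :
    MvPolynomial.aeval P' (G n) ≠ 0 ∧
      ∃ z : ℂ, ∑ j ∈ Finset.range (n + 1), MvPolynomial.aeval P' (G j) * z ^ j = 0 ∧
        ‖z - y‖ ≤ Real.exp (-(δ / (2 * n))) := by
  have hn1 : (1 : ℝ) ≤ n := by exact_mod_cast hn
  obtain ⟨D, hD⟩ : ∃ D : ℝ, D = Bn * (N * B ^ N) := ⟨_, rfl⟩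
  have hD0 : 0 ≤ D := by rw [hD]; positivity
  obtain ⟨L, hL⟩ : ∃ L : ℝ, L = (n + 1) * (D * B ^ n) + D + 2 := ⟨_, rfl⟩
  have hL1 : 1 ≤ L := by
    rw [hL]
    have : 0 ≤ (n + 1) * (D * B ^ n) := by positivity
    linarith
  have hLD : D ≤ L := by
    rw [hL]
    have : 0 ≤ (n + 1) * (D * B ^ n) := by positivity
    linarith
  rw [← hD, ← hL] at hδ
  obtain ⟨d1, hd1e⟩ : ∃ d1 : ℝ, d1 = 2 * max 0 (Real.log (L / g0)) := ⟨_, rfl⟩
  rw [← hd1e] at hδ
  have hd1 : 0 ≤ d1 := by rw [hd1e]; positivity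
  have hd1' : L * Real.exp (-(d1 / 2)) ≤ g0 := by
    rw [hd1e]
    have h1 : Real.log (L / g0) ≤ max 0 (Real.log (L / g0)) := le_max_right _ _
    have h2 : 2 * max 0 (Real.log (L / g0)) / 2 = max 0 (Real.log (L / g0)) := by ring
    rw [h2]
    have h3 : Real.exp (-max 0 (Real.log (L / g0))) ≤ Real.exp (-Real.log (L / g0)) :=
      Real.exp_le_exp.2 (by linarith)
    rw [Real.exp_neg (Real.log (L / g0)), Real.exp_log (by positivity)] at h3
    calc L * Real.exp (-max 0 (Real.log (L / g0))) ≤ L * (L / g0)⁻¹ :=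
          mul_le_mul_of_nonneg_left h3 (by linarith)
      _ = g0 := by
          have : L ≠ 0 := by linarith
          field_simp
  have hexp1 : Real.exp (-δ) ≤ 1 := Real.exp_le_one_iff.2 (by linarith)
  have hPB : ∀ i, ‖P i‖ ≤ B := fun i => by linarith [hBP i]
  have hP'B : ∀ i, ‖P' i‖ ≤ B := fun i => by
    have h1 : ‖P' i‖ ≤ ‖P' i - P i‖ + ‖P i‖ := by
      have := norm_add_le (P' i - P i) (P i)
      rwa [sub_add_cancel] at this
    linarith [hBP i, hP' i]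
  have hdiff : ∀ j ≤ n, ‖MvPolynomial.aeval P' (G j) - MvPolynomial.aeval P (G j)‖ ≤
      D * Real.exp (-δ) := by
    intro j hj
    refine (aeval_sub_le (G j) N (hN j hj) P P' B (Real.exp (-δ)) hB1 hPB hP'B hP'
      (Real.exp_pos _).le).trans ?_
    rw [hD]
    have h1 : 0 ≤ N * B ^ N * Real.exp (-δ) := by positivity
    calc H32.T3.nrm (G j) * (N * B ^ N * Real.exp (-δ)) ≤ Bn * (N * B ^ N * Real.exp (-δ)) :=
          mul_le_mul_of_nonneg_right (hBn j hj) h1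
      _ = _ := by ring
  have hsum : ‖∑ j ∈ Finset.range (n + 1), MvPolynomial.aeval P' (G j) * y ^ j‖ ≤
      L * Real.exp (-δ) := by
    have h1 : ∑ j ∈ Finset.range (n + 1), MvPolynomial.aeval P' (G j) * y ^ j =
        ∑ j ∈ Finset.range (n + 1),
          (MvPolynomial.aeval P' (G j) - MvPolynomial.aeval P (G j)) * y ^ j +
        ∑ j ∈ Finset.range (n + 1), MvPolynomial.aeval P (G j) * y ^ j := by
      simp only [sub_mul]
      rw [Finset.sum_sub_distrib]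
      ring
    have h1' : Real.exp (-L0) ≤ Real.exp (-δ) := Real.exp_le_exp.2 (by linarith)
    have h2 : ∀ j ∈ Finset.range (n + 1),
        ‖(MvPolynomial.aeval P' (G j) - MvPolynomial.aeval P (G j)) * y ^ j‖ ≤
          D * B ^ n * Real.exp (-δ) := by
      intro j hj
      have hj' : j ≤ n := Nat.lt_succ_iff.1 (Finset.mem_range.1 hj)
      rw [norm_mul, norm_pow]
      have h3 : ‖y‖ ^ j ≤ B ^ n := (pow_le_pow_left₀ (norm_nonneg _) hBy j).trans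
        (pow_le_pow_right₀ hB1 hj')
      calc _ ≤ (D * Real.exp (-δ)) * B ^ n :=
            mul_le_mul (hdiff j hj') h3 (by positivity) (by positivity)
        _ = _ := by ring
    have h3 : ‖∑ j ∈ Finset.range (n + 1),
          (MvPolynomial.aeval P' (G j) - MvPolynomial.aeval P (G j)) * y ^ j‖ ≤
        (n + 1) * (D * B ^ n * Real.exp (-δ)) := by
      refine (norm_sum_le _ _).trans ((Finset.sum_le_card_nsmul _ _ _ h2).trans ?_)
      rw [Finset.card_range, nsmul_eq_mul]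
      push_cast
      exact le_rfl
    have h4 : 0 ≤ (D + 1) * Real.exp (-δ) := by positivity
    rw [h1]
    refine (norm_add_le _ _).trans ?_
    refine (add_le_add h3 (hrel.trans h1')).trans ?_
    rw [hL]
    nlinarith
  have hee : Real.exp (-δ) = Real.exp (-(δ / 2)) * Real.exp (-(δ / 2)) := by
    rw [← Real.exp_add]
    congr 1
    ring
  have h5 : L * Real.exp (-(δ / 2)) ≤ g0 := by
    refine le_trans (mul_le_mul_of_nonneg_left (Real.exp_le_exp.2 ?_) (by linarith)) hd1'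
    linarith
  have h6 : L * Real.exp (-δ) ≤ g0 * Real.exp (-(δ / 2)) := by
    rw [hee, ← mul_assoc]
    exact mul_le_mul_of_nonneg_right h5 (Real.exp_pos _).le
  have h7 : L * Real.exp (-δ) ≤ g0 := by
    refine h6.trans ?_
    have : Real.exp (-(δ / 2)) ≤ 1 := Real.exp_le_one_iff.2 (by linarith)
    nlinarith
  have hGn' : g0 ≤ ‖MvPolynomial.aeval P' (G n)‖ := by
    have h8 := hdiff n le_rfl
    have h9 : ‖MvPolynomial.aeval P (G n)‖ ≤ ‖MvPolynomial.aeval P' (G n)‖ +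
        ‖MvPolynomial.aeval P' (G n) - MvPolynomial.aeval P (G n)‖ := by
      have := norm_sub_le (MvPolynomial.aeval P' (G n))
        (MvPolynomial.aeval P' (G n) - MvPolynomial.aeval P (G n))
      rwa [sub_sub_cancel] at this
    have h10 : D * Real.exp (-δ) ≤ L * Real.exp (-δ) :=
      mul_le_mul_of_nonneg_right hLD (Real.exp_pos _).le
    linarith
  have hne : MvPolynomial.aeval P' (G n) ≠ 0 := norm_pos_iff.1 (lt_of_lt_of_le hg0 hGn')
  refine ⟨hne, ?_⟩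
  obtain ⟨z, hz, hzy⟩ := near_root (xdP (fun j => MvPolynomial.aeval P' (G j)) n) n hn
    (xdP_deg _ n hne) y g0 (L * Real.exp (-δ)) hg0 (by rw [xdP_lead _ n hne]; exact hGn')
    (by rw [xdP_eval]; exact hsum)
  refine ⟨z, ?_, ?_⟩
  · have h8 := (mem_roots'.1 hz).2
    rw [IsRoot.def, xdP_eval] at h8
    exact h8
  · have h8 : ‖z - y‖ ^ n ≤ (Real.exp (-(δ / (2 * n)))) ^ n := by
      refine hzy.trans ?_
      rw [div_le_iff₀ hg0, ← Real.exp_nat_mul]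
      have : (n : ℝ) * -(δ / (2 * n)) = -(δ / 2) := by
        have : (n : ℝ) ≠ 0 := by exact_mod_cast hn.ne'
        field_simp
      rw [this]
      linarith
    exact le_of_pow_le_pow_left₀ hn.ne' (Real.exp_pos _).le h8

end AO

end S_H32_AO_A3

section S_H32_AO_A4

set_option autoImplicit false

namespace AO

open CZ Polynomial
open H32.T3 (nrm)

theorem ext_one (k : ℕ) (B : ℝ) : ∃ X0 : ℝ, 1 ≤ X0 ∧ ∀ X : ℝ, X0 ≤ X →
    ∀ (P : Fin k → ℂ) (y : ℂ) (L0 t V : ℝ), (∀ i, ‖P i‖ + 1 ≤ B) → ‖y‖ ≤ B →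
      Rel X L0 P y → 1 ≤ t → X ^ 4 * t ≤ V → ApprC P t V L0 →
      ApprC (Fin.snoc P y : Fin (k + 1) → ℂ) (X ^ 4 * t) (V / X ^ 3) L0 := by
  obtain ⟨B', hB'⟩ : ∃ B' : ℝ, B' = max 1 B := ⟨_, rfl⟩
  have hB1 : 1 ≤ B' := by rw [hB']; exact le_max_left _ _
  have hBB : B ≤ B' := by rw [hB']; exact le_max_right _ _
  obtain ⟨b, hb⟩ : ∃ b : ℝ, b = Real.log B' := ⟨_, rfl⟩
  have hb0 : 0 ≤ b := by rw [hb]; exact Real.log_nonneg hB1
  have hBexp : Real.exp b = B' := by rw [hb]; exact Real.exp_log (by linarith)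
  have hk0 : (0 : ℝ) ≤ k := Nat.cast_nonneg k
  refine ⟨24 + 8 * b + k, by linarith, ?_⟩
  intro X hX P y L0 t V hP hy hrel ht hV hA
  obtain ⟨n, G, hn, hnX, hdeg, hnrm, hlead, hsum⟩ := hrel
  have hX24 : 24 ≤ X := by linarith
  have hX0 : 0 < X := by linarith
  have hX1 : 1 ≤ X := by linarith
  have hn1 : (1 : ℝ) ≤ n := by exact_mod_cast hn
  obtain ⟨N, hN⟩ : ∃ N : ℕ, N = ⌊X⌋₊ := ⟨_, rfl⟩
  have hNX : (N : ℝ) ≤ X := by rw [hN]; exact Nat.floor_le hX0.le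
  have hN0 : (0 : ℝ) ≤ N := Nat.cast_nonneg N
  have hXexp : X + 1 ≤ Real.exp X := Real.add_one_le_exp X
  have hpowN : B' ^ N ≤ Real.exp (X * b) := by
    rw [← hBexp, ← Real.exp_nat_mul]
    exact Real.exp_le_exp.2 (mul_le_mul_of_nonneg_right hNX hb0)
  have hpown : B' ^ n ≤ Real.exp (X * b) := by
    rw [← hBexp, ← Real.exp_nat_mul]
    exact Real.exp_le_exp.2 (mul_le_mul_of_nonneg_right hnX hb0)
  have hpowN0 : 0 ≤ B' ^ N := by positivity
  have hpown0 : 0 ≤ B' ^ n := by positivity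
  have hexpX : 0 < Real.exp X := Real.exp_pos X
  -- the constant
  have hD : Real.exp X * (N * B' ^ N) ≤ Real.exp (2 * X + X * b) := by
    have h1 : (N : ℝ) * B' ^ N ≤ Real.exp X * Real.exp (X * b) :=
      mul_le_mul (by linarith) hpowN hpowN0 hexpX.le
    calc Real.exp X * (N * B' ^ N) ≤ Real.exp X * (Real.exp X * Real.exp (X * b)) :=
          mul_le_mul_of_nonneg_left h1 hexpX.le
      _ = Real.exp (2 * X + X * b) := by
          rw [← Real.exp_add, ← Real.exp_add]; congr 1; ring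
  have hD0 : 0 ≤ Real.exp X * (N * B' ^ N) := by positivity
  have hfirst : (n + 1 : ℝ) * (Real.exp X * (N * B' ^ N) * B' ^ n) ≤ Real.exp (3 * X + 2 * (X * b)) := by
    have h1 : Real.exp X * (N * B' ^ N) * B' ^ n ≤ Real.exp (2 * X + X * b) * Real.exp (X * b) :=
      mul_le_mul hD hpown hpown0 (Real.exp_pos _).le
    calc (n + 1 : ℝ) * (Real.exp X * (N * B' ^ N) * B' ^ n) ≤
          Real.exp X * (Real.exp (2 * X + X * b) * Real.exp (X * b)) :=
          mul_le_mul (by linarith) h1 (by positivity) hexpX.le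
      _ = Real.exp (3 * X + 2 * (X * b)) := by
          rw [← Real.exp_add, ← Real.exp_add]; congr 1; ring
  have hXb : 0 ≤ X * b := by positivity
  have hsecond : Real.exp X * (N * B' ^ N) ≤ Real.exp (3 * X + 2 * (X * b)) :=
    hD.trans (Real.exp_le_exp.2 (by linarith))
  have hthird : (2 : ℝ) ≤ Real.exp (3 * X + 2 * (X * b)) := by
    have := Real.add_one_le_exp (3 * X + 2 * (X * b))
    linarith
  have hsix : (6 : ℝ) ≤ Real.exp X := by linarith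
  obtain ⟨Lc, hLc⟩ : ∃ Lc : ℝ, Lc = ((n : ℝ) + 1) * (Real.exp X * (N * B' ^ N) * B' ^ n) +
      Real.exp X * (N * B' ^ N) + 2 := ⟨_, rfl⟩
  have hLc1 : Lc ≤ 3 * Real.exp (3 * X + 2 * (X * b)) := by rw [hLc]; linarith
  have hLc0 : 0 < Lc := by
    rw [hLc]
    have : 0 ≤ ((n : ℝ) + 1) * (Real.exp X * (N * B' ^ N) * B' ^ n) := by positivity
    linarith
  have hlogL : Real.log (Lc / (Real.exp (-X) / 2)) ≤ (5 + 2 * b) * X := by
    rw [Real.log_le_iff_le_exp (by positivity), div_le_iff₀ (by positivity)]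
    have h1 : Real.exp ((5 + 2 * b) * X) * (Real.exp (-X) / 2) =
        Real.exp X * Real.exp (3 * X + 2 * (X * b)) / 2 := by
      rw [← mul_div_assoc, ← Real.exp_add, ← Real.exp_add]; congr 2; ring
    rw [h1]
    have h2 : 6 * Real.exp (3 * X + 2 * (X * b)) ≤ Real.exp X * Real.exp (3 * X + 2 * (X * b)) :=
      mul_le_mul_of_nonneg_right hsix (Real.exp_pos _).le
    linarith
  obtain ⟨d1, hd1⟩ : ∃ d1 : ℝ, d1 = 2 * max 0 (Real.log (Lc / (Real.exp (-X) / 2))) := ⟨_, rfl⟩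
  have hd10 : 0 ≤ d1 := by rw [hd1]; positivity
  have hd1X : d1 ≤ 2 * ((5 + 2 * b) * X) := by
    rw [hd1]
    have h1 : max 0 (Real.log (Lc / (Real.exp (-X) / 2))) ≤ (5 + 2 * b) * X :=
      max_le (by positivity) hlogL
    linarith
  have hloc : ∀ (δ : ℝ), d1 ≤ δ → δ ≤ L0 → ∀ P' : Fin k → ℂ,
      (∀ i, ‖P' i - P i‖ ≤ Real.exp (-δ)) → MvPolynomial.aeval P' (G n) ≠ 0 ∧
      ∃ z : ℂ, ∑ j ∈ Finset.range (n + 1), MvPolynomial.aeval P' (G j) * z ^ j = 0 ∧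
        ‖z - y‖ ≤ Real.exp (-(δ / (2 * n))) := by
    intro δ hδ hδL P' hP'
    refine local_cap P y n G hn N ?_ (Real.exp X) B' (Real.exp (-X) / 2) L0 hexpX.le hnrm hB1
      (fun i => (hP i).trans hBB) (hy.trans hBB) (by positivity) (by linarith) hsum δ ?_ hδL P' hP'
    · intro j hj
      rw [hN]
      exact Nat.le_floor (hdeg j hj)
    · rw [← hLc, ← hd1]; exact hδ
  have hX3 : X ≤ X ^ 3 := by
    calc X = X ^ 1 := (pow_one X).symm
      _ ≤ X ^ 3 := pow_le_pow_right₀ hX1 (by norm_num)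
  have hVpos : 0 < V := lt_of_lt_of_le (by positivity) hV
  have htV : t * d1 ≤ V / 2 := by
    have h1 : d1 ≤ X ^ 4 / 2 := by
      have h2 : 4 * (5 + 2 * b) ≤ X ^ 3 := by linarith
      have h3 : X * (4 * (5 + 2 * b)) ≤ X * X ^ 3 := mul_le_mul_of_nonneg_left h2 hX0.le
      have h4 : X * X ^ 3 = X ^ 4 := by ring
      rw [h4] at h3
      linarith
    have h5 : t * d1 ≤ t * (X ^ 4 / 2) := mul_le_mul_of_nonneg_left h1 (by linarith)
    linarith
  have hres := ext_alg_cap P y n G hn N (fun j hj => by rw [hN]; exact Nat.le_floor (hdeg j hj))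
    (Real.exp X) (Real.one_le_exp hX0.le) hnrm d1 L0 hd10 hloc t V ht hVpos htV hA
  obtain ⟨E, iF, iN, x, S, d, h1, h2, h3, h4⟩ := hres
  have hlogn : Real.log (n * Real.exp X) ≤ 2 * X := by
    rw [Real.log_mul (by linarith) hexpX.ne', Real.log_exp]
    have : Real.log n ≤ n := by
      have := Real.log_le_sub_one_of_pos (show (0 : ℝ) < n by linarith)
      linarith
    linarith
  have htt : n * (1 + Real.log (n * Real.exp X) + N * k) * t ≤ X ^ 4 * t := by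
    apply mul_le_mul_of_nonneg_right _ (by linarith)
    have hNk : (N : ℝ) * k ≤ X * k := mul_le_mul_of_nonneg_right hNX hk0
    have ha : 1 + Real.log (n * Real.exp X) + N * k ≤ X ^ 3 := by
      have h5 : 1 + Real.log (n * Real.exp X) + N * k ≤ X * (3 + k) := by nlinarith
      have h6 : X * (3 + k) ≤ X * X ^ 2 := by
        apply mul_le_mul_of_nonneg_left _ hX0.le
        have : X ≤ X ^ 2 := by nlinarith
        linarith
      calc _ ≤ X * (3 + k) := h5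
        _ ≤ X * X ^ 2 := h6
        _ = X ^ 3 := by ring
    have ha0 : 0 ≤ 1 + Real.log (n * Real.exp X) + N * k := by
      have h7 : 0 ≤ Real.log (n * Real.exp X) := by
        apply Real.log_nonneg
        nlinarith [Real.one_le_exp hX0.le]
      have : 0 ≤ (N : ℝ) * k := by positivity
      linarith
    calc (n : ℝ) * (1 + Real.log (n * Real.exp X) + N * k) ≤ X * X ^ 3 :=
          mul_le_mul hnX ha ha0 hX0.le
      _ = X ^ 4 := by ring
  have hVV : V / X ^ 3 ≤ V / (4 * n ^ 2) := by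
    apply div_le_div_of_nonneg_left hVpos.le (by positivity)
    have h8 : (n : ℝ) ^ 2 ≤ X ^ 2 := pow_le_pow_left₀ (by linarith) hnX 2
    have h9 : 4 * X ^ 2 ≤ X * X ^ 2 := mul_le_mul_of_nonneg_right (by linarith) (by positivity)
    have h10 : X * X ^ 2 = X ^ 3 := by ring
    linarith
  exact ⟨E, iF, iN, x, S, d, h1.trans htt, fun i => (h2 i).trans htt, h3, hVV.trans h4⟩

end AO

end S_H32_AO_A4

section S_H32_AO_A5

set_option autoImplicit false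

namespace AO

open CZ
open H32.T3 (nrm)

private theorem A5_nrm_rename {k l : ℕ} (f : Fin k → Fin l) (hf : Function.Injective f)
    (G : MvPolynomial (Fin k) ℤ) : nrm (MvPolynomial.rename f G) = nrm G := by
  classical
  unfold nrm
  rw [MvPolynomial.support_rename_of_injective hf, Finset.sum_image
    (fun a _ b _ hab ↦ Finsupp.mapDomain_injective hf hab)]
  refine Finset.sum_congr rfl fun m _ ↦ ?_
  rw [MvPolynomial.coeff_rename_mapDomain f hf]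

private theorem A5_rel_lift {k r : ℕ} {X L0 : ℝ} {P : Fin k → ℂ} {y : ℂ} (u : Fin r → ℂ)
    (h : Rel X L0 P y) : Rel X L0 (Fin.append P u : Fin (k + r) → ℂ) y := by
  obtain ⟨n, G, h1, h2, h3, h4, h5, h6⟩ := h
  have hcomp : (Fin.append P u : Fin (k + r) → ℂ) ∘ Fin.castAdd r = P := by
    funext i
    exact Fin.append_left P u i
  have hae : ∀ p : MvPolynomial (Fin k) ℤ,
      MvPolynomial.aeval (Fin.append P u : Fin (k + r) → ℂ) (MvPolynomial.rename (Fin.castAdd r) p) =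
        MvPolynomial.aeval P p := by
    intro p
    rw [MvPolynomial.aeval_rename, hcomp]
  refine ⟨n, fun j ↦ MvPolynomial.rename (Fin.castAdd r) (G j), h1, h2, fun j hj ↦ ?_, fun j hj ↦ ?_, ?_, ?_⟩
  · exact le_trans (by exact_mod_cast MvPolynomial.totalDegree_rename_le (Fin.castAdd r) (G j)) (h3 j hj)
  · rw [A5_nrm_rename _ (Fin.castAdd_injective k r)]
    exact h4 j hj
  · rw [hae]; exact h5
  · simp only [hae]
    exact h6

private theorem A5_append {k r : ℕ} (P : Fin k → ℂ) (y : Fin (r + 1) → ℂ) :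
    (Fin.append P y : Fin (k + (r + 1)) → ℂ) =
      (Fin.snoc (Fin.append P (fun j : Fin r ↦ y j.castSucc)) (y (Fin.last r)) : Fin (k + r + 1) → ℂ) := by
  have key : ∀ i : Fin (k + r + 1), (Fin.append P y : Fin (k + (r + 1)) → ℂ) i =
      (Fin.snoc (Fin.append P (fun j : Fin r ↦ y j.castSucc)) (y (Fin.last r)) : Fin (k + r + 1) → ℂ) i := by
    intro i
    induction i using Fin.lastCases with
    | last =>
      have e : (Fin.last (k + r) : Fin (k + r + 1)) = (Fin.natAdd k (Fin.last r) : Fin (k + (r + 1))) := by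
        ext; simp
      rw [Fin.snoc_last]
      exact (congrArg (Fin.append P y) e).trans (Fin.append_right P y (Fin.last r))
    | cast j =>
      rw [Fin.snoc_castSucc]
      induction j using Fin.addCases with
      | left a =>
        have e : ((Fin.castAdd r a).castSucc : Fin (k + r + 1)) = (Fin.castAdd (r + 1) a : Fin (k + (r + 1))) := by
          ext; simp
        rw [Fin.append_left]
        exact (congrArg (Fin.append P y) e).trans (Fin.append_left P y a)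
      | right b =>
        have e : ((Fin.natAdd k b).castSucc : Fin (k + r + 1)) = (Fin.natAdd k b.castSucc : Fin (k + (r + 1))) := by
          ext; simp
        rw [Fin.append_right]
        exact (congrArg (Fin.append P y) e).trans (Fin.append_right P y b.castSucc)
  funext i
  exact key i

theorem ext_many (k r : ℕ) (B : ℝ) : ∃ X0 : ℝ, 1 ≤ X0 ∧ ∀ X : ℝ, X0 ≤ X →
    ∀ (P : Fin k → ℂ) (y : Fin r → ℂ) (L0 t V : ℝ), (∀ i, ‖P i‖ + 1 ≤ B) →
      (∀ j, ‖y j‖ + 1 ≤ B) → (∀ j, Rel X L0 P (y j)) → 1 ≤ t → X ^ (7 * r) * t ≤ V →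
      ApprC P t V L0 →
      ApprC (Fin.append P y : Fin (k + r) → ℂ) (X ^ (4 * r) * t) (V / X ^ (3 * r)) L0 := by
  induction r with
  | zero =>
    refine ⟨1, le_refl _, fun X _ P y L0 t V _ _ _ _ _ h ↦ ?_⟩
    have e : (Fin.append P y : Fin (k + 0) → ℂ) = fun i : Fin (k + 0) ↦ P (Fin.cast (Nat.add_zero k) i) := by
      rw [Fin.append_right_nil P y rfl]
      rfl
    rw [e]
    simp only [Nat.mul_zero, pow_zero, one_mul, div_one]
    exact h.reindex (Fin.cast (Nat.add_zero k))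
  | succ r ih =>
    obtain ⟨X0, hX0, ih⟩ := ih
    obtain ⟨X1, hX1, h1⟩ := ext_one (k + r) B
    refine ⟨max X0 X1, le_max_of_le_left hX0, fun X hX P y L0 t V hP hy hrel ht hV happ ↦ ?_⟩
    have hX0' : X0 ≤ X := (le_max_left _ _).trans hX
    have hX1' : X1 ≤ X := (le_max_right _ _).trans hX
    have hXone : 1 ≤ X := hX0.trans hX0'
    have hXpos : 0 < X := lt_of_lt_of_le one_pos hXone
    have hpw : ∀ {a b : ℕ}, a ≤ b → X ^ a ≤ X ^ b := fun hab ↦ pow_le_pow_right₀ hXone hab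
    have ht0 : 0 ≤ t := zero_le_one.trans ht
    have hV1 : X ^ (7 * r) * t ≤ V :=
      (mul_le_mul_of_nonneg_right (hpw (by omega)) ht0).trans hV
    have hA := ih X hX0' P (fun j : Fin r ↦ y j.castSucc) L0 t V hP (fun j ↦ hy _) (fun j ↦ hrel _) ht hV1 happ
    have hP' : ∀ i : Fin (k + r), ‖(Fin.append P (fun j : Fin r ↦ y j.castSucc) : Fin (k + r) → ℂ) i‖ + 1 ≤ B := by
      intro i
      refine Fin.addCases (fun a ↦ ?_) (fun b ↦ ?_) i
      · rw [Fin.append_left]; exact hP a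
      · rw [Fin.append_right]; exact hy _
    have hyl : ‖y (Fin.last r)‖ ≤ B := by linarith [hy (Fin.last r)]
    have ht1 : 1 ≤ X ^ (4 * r) * t := one_le_mul_of_one_le_of_one_le (one_le_pow₀ hXone) ht
    have hV2 : X ^ 4 * (X ^ (4 * r) * t) ≤ V / X ^ (3 * r) := by
      rw [le_div_iff₀ (pow_pos hXpos _)]
      calc X ^ 4 * (X ^ (4 * r) * t) * X ^ (3 * r) = X ^ (7 * r + 4) * t := by
            rw [show 7 * r + 4 = 4 + 4 * r + 3 * r by ring, pow_add, pow_add]; ring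
        _ ≤ X ^ (7 * (r + 1)) * t := mul_le_mul_of_nonneg_right (hpw (by omega)) ht0
        _ ≤ V := hV
    have hfin := h1 X hX1' _ (y (Fin.last r)) L0 (X ^ (4 * r) * t) (V / X ^ (3 * r)) hP' hyl
      (A5_rel_lift _ (hrel (Fin.last r))) ht1 hV2 hA
    rw [A5_append]
    have e1 : X ^ (4 * (r + 1)) * t = X ^ 4 * (X ^ (4 * r) * t) := by
      rw [show 4 * (r + 1) = 4 + 4 * r by ring, pow_add]; ring
    have e2 : V / X ^ (3 * (r + 1)) = V / X ^ (3 * r) / X ^ 3 := by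
      rw [show 3 * (r + 1) = 3 * r + 3 by ring, pow_add, div_div]
    rw [e1, e2]
    exact hfin

end AO

end S_H32_AO_A5

section S_H32_AO_A6

set_option autoImplicit false

namespace AO

open CZ
open H32.T3 (nrm)

/-- the polynomial in one of the variables -/
noncomputable def A6_mv {k : ℕ} (j0 : Fin k) (P : Polynomial ℤ) : MvPolynomial (Fin k) ℤ :=
  ∑ i ∈ Finset.range (P.natDegree + 1), MvPolynomial.C (P.coeff i) * MvPolynomial.X j0 ^ i

theorem A6_mv_deg {k : ℕ} (j0 : Fin k) (P : Polynomial ℤ) : (A6_mv j0 P).totalDegree ≤ P.natDegree := by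
  refine MvPolynomial.totalDegree_finsetSum_le fun i hi ↦ ?_
  refine (MvPolynomial.totalDegree_mul _ _).trans ?_
  rw [MvPolynomial.totalDegree_C, zero_add]
  refine (MvPolynomial.totalDegree_pow _ _).trans ?_
  rw [MvPolynomial.totalDegree_X, mul_one]
  exact Nat.lt_succ_iff.mp (Finset.mem_range.mp hi)

theorem A6_mv_nrm {k : ℕ} (j0 : Fin k) (P : Polynomial ℤ) : nrm (A6_mv j0 P) ≤ nr P := by
  refine (H32.T3.nrm_sum_le _ _).trans ?_
  have h0 : nr P = ∑ i ∈ Finset.range (P.natDegree + 1), |((P.coeff i : ℤ) : ℝ)| := by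
    unfold nr
    exact Polynomial.sum_over_range P (fun _ => by simp)
  rw [h0]
  refine Finset.sum_le_sum fun i _ ↦ (H32.T3.nrm_mul_le _ _).trans ?_
  rw [H32.T3.nrm_C]
  have h1 := H32.T3.nrm_pow_le (MvPolynomial.X j0 : MvPolynomial (Fin k) ℤ) i
  rw [H32.T3.nrm_X, one_pow] at h1
  exact (mul_le_mul_of_nonneg_left h1 (abs_nonneg _)).trans (mul_one _).le

theorem A6_mv_aeval {k : ℕ} (j0 : Fin k) (P : Polynomial ℤ) (x : Fin k → ℂ) :
    MvPolynomial.aeval x (A6_mv j0 P) = Polynomial.aeval (x j0) P := by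
  rw [Polynomial.aeval_eq_sum_range]
  unfold A6_mv
  rw [map_sum]
  refine Finset.sum_congr rfl fun i _ => ?_
  rw [map_mul, map_pow, MvPolynomial.aeval_C, MvPolynomial.aeval_X, zsmul_eq_mul, algebraMap_int_eq,
    eq_intCast]

theorem rel_of_root {k : ℕ} {X L0 : ℝ} {P : Fin k → ℂ} {j0 : Fin k} {w : ℂ} (hX : 0 ≤ X)
    (h : RootRel X (P j0) w) : Rel X L0 P w := by
  obtain ⟨M, r, c, hM, hMX, hc, hrM, hd, hn, hs⟩ := h
  refine ⟨M, fun i => A6_mv j0 (r i), hM, hMX, fun j _ => ?_, fun j _ => ?_, ?_, ?_⟩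
  · have h1 : ((A6_mv j0 (r j)).totalDegree : ℝ) ≤ ((r j).natDegree : ℝ) := by
      exact_mod_cast A6_mv_deg j0 (r j)
    exact h1.trans (hd j)
  · exact (A6_mv_nrm j0 (r j)).trans (hn j)
  · rw [A6_mv_aeval, hrM, Polynomial.aeval_C, algebraMap_int_eq, eq_intCast, Complex.norm_intCast]
    have h1 : Real.exp (-X) ≤ 1 := by
      rw [Real.exp_le_one_iff]
      linarith
    have h2 : (1 : ℝ) ≤ |(c : ℝ)| := by
      exact_mod_cast Int.one_le_abs hc
    exact h1.trans h2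
  · have h1 : ∑ j ∈ Finset.range (M + 1), MvPolynomial.aeval P (A6_mv j0 (r j)) * w ^ j = 0 := by
      rw [← hs]
      exact Finset.sum_congr rfl fun j _ => by rw [A6_mv_aeval]
    rw [h1, norm_zero]
    exact (Real.exp_pos _).le

theorem A6_nr_C (c : ℤ) : nr (Polynomial.C c) = |(c : ℝ)| := by
  unfold nr
  rw [Polynomial.sum_C_index]
  simp

theorem rootRel_rat {X : ℝ} (J : ℂ) (p : ℤ) (q : ℕ) (hq : 0 < q) (hX : 1 ≤ X)
    (hqX : (q : ℝ) ≤ Real.exp X) (hpX : |(p : ℝ)| ≤ Real.exp X) :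
    RootRel X J ((p : ℂ) / q) := by
  have hq0 : (q : ℂ) ≠ 0 := by
    exact_mod_cast hq.ne'
  refine ⟨1, fun i => if i = 0 then Polynomial.C (-p) else Polynomial.C (q : ℤ), (q : ℤ), one_pos,
    by rw [Nat.cast_one]; exact hX, by exact_mod_cast hq.ne', if_neg one_ne_zero, fun i => ?_, fun i => ?_, ?_⟩
  · dsimp only
    split_ifs
    · rw [Polynomial.natDegree_C, Nat.cast_zero]
      linarith
    · rw [Polynomial.natDegree_C, Nat.cast_zero]
      linarith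
  · dsimp only
    split_ifs
    · rw [A6_nr_C, Int.cast_neg, abs_neg]
      exact hpX
    · rw [A6_nr_C, Int.cast_natCast, abs_of_nonneg (Nat.cast_nonneg q)]
      exact hqX
  · rw [Finset.sum_range_succ, Finset.sum_range_one]
    dsimp only
    rw [if_pos rfl, if_neg one_ne_zero, Polynomial.aeval_C,
      Polynomial.aeval_C, pow_zero, pow_one, mul_one, algebraMap_int_eq, eq_intCast, eq_intCast,
      Int.cast_neg, Int.cast_natCast, mul_div_cancel₀ _ hq0, neg_add_cancel]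

theorem rel_near {k r : ℕ} (P0 : Fin k → ℂ) (winf : Fin r → ℂ) (y : ℂ)
    (h : IsAlgebraic (IntermediateField.adjoin ℚ
      (Set.range (Fin.append P0 winf : Fin (k + r) → ℂ))) y) :
    ∃ X0 : ℝ, 1 ≤ X0 ∧ ∀ (X L0 : ℝ) (w : Fin r → ℂ), X0 ≤ X → X ≤ L0 →
      (∀ j, ‖w j - winf j‖ ≤ Real.exp (-(2 * L0))) →
      Rel X L0 (Fin.append P0 w : Fin (k + r) → ℂ) y := by
  classical
  obtain ⟨n, G, hn, hGn, hs⟩ := CZ.alg_rel _ y h
  obtain ⟨Q, hQ⟩ : ∃ Q : Fin (k + r) → ℂ, Q = Fin.append P0 winf := ⟨_, rfl⟩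
  rw [← hQ] at hGn hs
  obtain ⟨N, hN⟩ : ∃ N : ℕ, ∀ j ≤ n, (G j).totalDegree ≤ N :=
    ⟨∑ j ∈ Finset.range (n + 1), (G j).totalDegree, fun j hj =>
      Finset.single_le_sum (f := fun j => (G j).totalDegree) (fun _ _ => Nat.zero_le _)
        (Finset.mem_range.2 (Nat.lt_succ_of_le hj))⟩
  obtain ⟨Bn, hBn0, hBn⟩ : ∃ Bn : ℝ, 0 ≤ Bn ∧ ∀ j ≤ n, nrm (G j) ≤ Bn :=
    ⟨∑ j ∈ Finset.range (n + 1), nrm (G j), Finset.sum_nonneg fun _ _ => H32.T3.nrm_nonneg _,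
      fun j hj => Finset.single_le_sum (f := fun j => nrm (G j)) (fun _ _ => H32.T3.nrm_nonneg _)
        (Finset.mem_range.2 (Nat.lt_succ_of_le hj))⟩
  obtain ⟨B, hB1, hBQ, hBy⟩ : ∃ B : ℝ, 1 ≤ B ∧ (∀ i, ‖Q i‖ + 1 ≤ B) ∧ ‖y‖ ≤ B := by
    have h0 : 0 ≤ ∑ i, ‖Q i‖ := Finset.sum_nonneg fun _ _ => norm_nonneg _
    have h2 := norm_nonneg y
    refine ⟨1 + ‖y‖ + ∑ i, ‖Q i‖, by linarith, fun i => ?_, by linarith⟩
    have h3 : ‖Q i‖ ≤ ∑ i, ‖Q i‖ :=
      Finset.single_le_sum (f := fun i => ‖Q i‖) (fun _ _ => norm_nonneg _) (Finset.mem_univ i)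
    linarith
  obtain ⟨g, hg⟩ : ∃ g : ℝ, g = ‖MvPolynomial.aeval Q (G n)‖ := ⟨_, rfl⟩
  have hg0 : 0 < g := by
    rw [hg]
    exact norm_pos_iff.2 hGn
  have hB0 : 0 < B := by linarith
  obtain ⟨D, hD⟩ : ∃ D : ℝ, D = Bn * (N * B ^ N) := ⟨_, rfl⟩
  have hD0 : 0 ≤ D := by
    rw [hD]
    positivity
  obtain ⟨E, hE⟩ : ∃ E : ℝ, E = (n + 1) * D * B ^ n := ⟨_, rfl⟩
  have hE0 : 0 ≤ E := by
    rw [hE]
    positivity
  have hg2 : 0 < 2 / g := by positivity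
  have hDg : 0 ≤ 2 * D / g := by positivity
  have hn0 : (0 : ℝ) ≤ n := Nat.cast_nonneg _
  have hN0 : (0 : ℝ) ≤ N := Nat.cast_nonneg _
  refine ⟨1 + n + N + Bn + E + 2 / g + 2 * D / g, by linarith, ?_⟩
  intro X L0 w hX hL hw
  have hX1 : 1 ≤ X := by linarith
  have hXE : X ≤ Real.exp X := by linarith [Real.add_one_le_exp X]
  have hLE : L0 ≤ Real.exp L0 := by linarith [Real.add_one_le_exp L0]
  obtain ⟨δ, hδ⟩ : ∃ δ : ℝ, δ = Real.exp (-(2 * L0)) := ⟨_, rfl⟩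
  have hδ0 : 0 ≤ δ := by
    rw [hδ]
    exact (Real.exp_pos _).le
  have hδ1 : δ ≤ 1 := by
    rw [hδ, Real.exp_le_one_iff]
    linarith
  have hδX : δ ≤ Real.exp (-X) := by
    rw [hδ]
    apply Real.exp_le_exp.2
    linarith
  obtain ⟨Q', hQ'⟩ : ∃ Q' : Fin (k + r) → ℂ, Q' = Fin.append P0 w := ⟨_, rfl⟩
  rw [← hδ] at hw
  have hQd : ∀ i, ‖Q' i - Q i‖ ≤ δ := by
    rw [hQ, hQ']
    refine Fin.addCases (fun i => ?_) (fun i => ?_)
    · rw [Fin.append_left, Fin.append_left, sub_self, norm_zero]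
      exact hδ0
    · rw [Fin.append_right, Fin.append_right]
      exact hw i
  have hQn : ∀ i, ‖Q i‖ ≤ B := fun i => by linarith [hBQ i]
  have hQn' : ∀ i, ‖Q' i‖ ≤ B := fun i => by
    have e : Q' i = (Q' i - Q i) + Q i := by ring
    have h1 := norm_add_le (Q' i - Q i) (Q i)
    rw [← e] at h1
    linarith [hBQ i, hQd i]
  have hdiff : ∀ j ≤ n, ‖MvPolynomial.aeval Q' (G j) - MvPolynomial.aeval Q (G j)‖ ≤ D * δ := by
    intro j hj
    refine (CZ.aeval_sub_le (G j) N (hN j hj) Q Q' B δ hB1 hQn hQn' hQd hδ0).trans ?_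
    have h1 : nrm (G j) * (N * B ^ N * δ) ≤ Bn * (N * B ^ N * δ) :=
      mul_le_mul_of_nonneg_right (hBn j hj) (by positivity)
    refine h1.trans (le_of_eq ?_)
    rw [hD]
    ring
  rw [← hQ']
  have hexpX : Real.exp (-X) ≤ 1 / X := by
    rw [Real.exp_neg, ← one_div]
    exact one_div_le_one_div_of_le (by linarith) hXE
  refine ⟨n, G, hn, by linarith, fun j hj => ?_, fun j hj => ?_, ?_, ?_⟩
  · have h1 : ((G j).totalDegree : ℝ) ≤ N := by exact_mod_cast hN j hj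
    linarith
  · have h1 := hBn j hj
    linarith
  · have h1 := hdiff n le_rfl
    have h2 : g ≤ ‖MvPolynomial.aeval Q' (G n)‖ + D * δ := by
      have h3 := norm_sub_le (MvPolynomial.aeval Q' (G n))
        (MvPolynomial.aeval Q' (G n) - MvPolynomial.aeval Q (G n))
      rw [sub_sub_cancel, ← hg] at h3
      linarith
    have hX0 : 0 < X := by linarith
    have h4 : D * δ ≤ g / 2 := by
      have h5 : D * δ ≤ D * (1 / X) := mul_le_mul_of_nonneg_left (hδX.trans hexpX) hD0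
      have h6 : D * (1 / X) ≤ g / 2 := by
        have h7 : 2 * D / g ≤ X := by linarith
        rw [div_le_iff₀ hg0] at h7
        rw [mul_one_div, div_le_iff₀ hX0]
        linarith
      linarith
    have h8 : Real.exp (-X) ≤ g / 2 := by
      refine hexpX.trans ?_
      have h7 : 2 / g ≤ X := by linarith
      rw [div_le_iff₀ hg0] at h7
      rw [div_le_iff₀ hX0]
      linarith
    linarith
  · have h1 : ∑ j ∈ Finset.range (n + 1), MvPolynomial.aeval Q' (G j) * y ^ j =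
        ∑ j ∈ Finset.range (n + 1),
          (MvPolynomial.aeval Q' (G j) - MvPolynomial.aeval Q (G j)) * y ^ j := by
      rw [← sub_zero (∑ j ∈ Finset.range (n + 1), MvPolynomial.aeval Q' (G j) * y ^ j), ← hs,
        ← Finset.sum_sub_distrib]
      exact Finset.sum_congr rfl fun j _ => by ring
    rw [h1]
    have h2 : ∀ j ∈ Finset.range (n + 1),
        ‖(MvPolynomial.aeval Q' (G j) - MvPolynomial.aeval Q (G j)) * y ^ j‖ ≤ D * δ * B ^ n := by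
      intro j hj
      have hjn : j ≤ n := Nat.lt_succ_iff.1 (Finset.mem_range.1 hj)
      rw [norm_mul, norm_pow]
      refine mul_le_mul (hdiff j hjn) ?_ (by positivity) (by positivity)
      exact (pow_le_pow_left₀ (norm_nonneg _) hBy j).trans (pow_le_pow_right₀ hB1 hjn)
    refine (norm_sum_le_of_le _ h2).trans ?_
    rw [Finset.sum_const, Finset.card_range, nsmul_eq_mul]
    have h3 : ((n + 1 : ℕ) : ℝ) * (D * δ * B ^ n) = E * δ := by
      rw [hE]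
      push_cast
      ring
    rw [h3]
    have h4 : E ≤ Real.exp L0 := by linarith
    have h5 : δ = Real.exp (-L0) * Real.exp (-L0) := by
      rw [hδ, ← Real.exp_add]
      congr 1
      ring
    have h6 : Real.exp L0 * Real.exp (-L0) = 1 := by
      rw [← Real.exp_add, add_neg_cancel, Real.exp_zero]
    calc E * δ ≤ Real.exp L0 * δ := mul_le_mul_of_nonneg_right h4 hδ0
      _ = (Real.exp L0 * Real.exp (-L0)) * Real.exp (-L0) := by rw [h5]; ring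
      _ = Real.exp (-L0) := by rw [h6, one_mul]

end AO

end S_H32_AO_A6

section S_H32_AO_A10

set_option autoImplicit false

namespace AO

open CZ
open H32.T3 (nrm)

theorem chain {k k0 r : ℕ} (P : Fin k → ℂ) (P0 : Fin k0 → ℂ) (j0 : Fin k0) (winf : Fin r → ℂ)
    (κ0 : ℝ) (h1 : 1 ≤ κ0) (h2 : κ0 ≤ 2) (A : ℕ) (hP : ¬ Appr P κ0) (h0 : ScAppr P0 κ0)
    (hnear : ∀ κ Q : ℕ, ∃ (q : ℕ) (w : Fin r → ℂ), Q ≤ q ∧
      (∀ j, RootRel ((q : ℝ) ^ A) (P0 j0) (w j)) ∧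
      ∀ j, ‖w j - winf j‖ ≤ Real.exp (-(q : ℝ) ^ κ))
    (halg : ∀ i, IsAlgebraic (IntermediateField.adjoin ℚ
      (Set.range (Fin.append P0 winf : Fin (k0 + r) → ℂ))) (P i)) : False := by
  obtain ⟨U0, hU0⟩ : ∃ U0 : ℝ, ∀ t V : ℝ, 1 ≤ t → U0 ≤ V → t ^ κ0 ≤ V → ¬ ApprAt P t V := by
    by_contra hcon
    push Not at hcon
    exact hP fun U0 ↦ by
      obtain ⟨t, V, a1, a2, a3, a4⟩ := hcon U0
      exact ⟨t, V, a1, a2, a3, a4⟩
  obtain ⟨B, hBP0, hBP, hBw⟩ : ∃ B : ℝ, (∀ i, ‖P0 i‖ + 1 ≤ B) ∧ (∀ i, ‖P i‖ + 1 ≤ B) ∧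
      (∀ j, ‖winf j‖ + 2 ≤ B) := by
    have s0 : 0 ≤ ∑ i, ‖P0 i‖ := Finset.sum_nonneg fun i _ ↦ norm_nonneg _
    have s1 : 0 ≤ ∑ i, ‖P i‖ := Finset.sum_nonneg fun i _ ↦ norm_nonneg _
    have s2 : 0 ≤ ∑ j, ‖winf j‖ := Finset.sum_nonneg fun i _ ↦ norm_nonneg _
    refine ⟨∑ i, ‖P0 i‖ + ∑ i, ‖P i‖ + ∑ j, ‖winf j‖ + 2, fun i ↦ ?_, fun i ↦ ?_, fun j ↦ ?_⟩
    · have := Finset.single_le_sum (f := fun i ↦ ‖P0 i‖) (fun i _ ↦ norm_nonneg _)
        (Finset.mem_univ i)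
      linarith
    · have := Finset.single_le_sum (f := fun i ↦ ‖P i‖) (fun i _ ↦ norm_nonneg _)
        (Finset.mem_univ i)
      linarith
    · have := Finset.single_le_sum (f := fun i ↦ ‖winf i‖) (fun i _ ↦ norm_nonneg _)
        (Finset.mem_univ j)
      linarith
  obtain ⟨X1, hX11, hX1⟩ := ext_many k0 r B
  obtain ⟨X2, hX21, hX2⟩ := ext_many (k0 + r) k B
  choose X3 hX31 hX3 using fun i ↦ rel_near P0 winf (P i) (halg i)
  have hX3s : ∀ i, X3 i ≤ ∑ i, X3 i := fun i ↦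
    Finset.single_le_sum (f := X3) (fun i _ ↦ by linarith [hX31 i]) (Finset.mem_univ i)
  obtain ⟨c, hc⟩ : ∃ c : ℕ, c = (A + 1) * (7 * r + 7 * k + 1) := ⟨_, rfl⟩
  obtain ⟨Bs, N0, hsc⟩ := h0 c
  obtain ⟨e, he⟩ : ∃ e : ℕ, e = 2 * (c + Bs) + c + 1 := ⟨_, rfl⟩
  obtain ⟨q, w, hQq, hroot, hclose⟩ :=
    hnear (e + 2) (N0 + ⌈X1⌉₊ + ⌈X2⌉₊ + ⌈∑ i, X3 i⌉₊ + ⌈U0⌉₊ + 2)
  have hqN0 : N0 ≤ q := by omega
  have hqX1 : X1 ≤ (q : ℝ) := (Nat.le_ceil _).trans (by exact_mod_cast (by omega : ⌈X1⌉₊ ≤ q))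
  have hqX2 : X2 ≤ (q : ℝ) := (Nat.le_ceil _).trans (by exact_mod_cast (by omega : ⌈X2⌉₊ ≤ q))
  have hqX3 : ∑ i, X3 i ≤ (q : ℝ) :=
    (Nat.le_ceil _).trans (by exact_mod_cast (by omega : ⌈∑ i, X3 i⌉₊ ≤ q))
  have hqU0 : U0 ≤ (q : ℝ) := (Nat.le_ceil _).trans (by exact_mod_cast (by omega : ⌈U0⌉₊ ≤ q))
  have hq2 : (2 : ℝ) ≤ q := by exact_mod_cast (by omega : 2 ≤ q)
  have hq1 : (1 : ℝ) ≤ q := by linarith
  have hq0 : (0 : ℝ) < q := by linarith
  clear hQq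
  obtain ⟨t, V, ht1, htq, hV, hAt⟩ := hsc q hqN0
  obtain ⟨X, hXdef⟩ : ∃ X : ℝ, X = (q : ℝ) ^ (A + 1) := ⟨_, rfl⟩
  obtain ⟨L0, hL0⟩ : ∃ L0 : ℝ, L0 = (q : ℝ) ^ e := ⟨_, rfl⟩
  obtain ⟨V', hV'⟩ : ∃ V' : ℝ, V' = min V L0 := ⟨_, rfl⟩
  have hmono : ∀ {a b : ℕ}, a ≤ b → (q : ℝ) ^ a ≤ (q : ℝ) ^ b := fun h ↦
    pow_le_pow_right₀ hq1 h
  have hone : ∀ a : ℕ, (1 : ℝ) ≤ (q : ℝ) ^ a := fun a ↦ one_le_pow₀ hq1
  have hXpow : ∀ a : ℕ, X ^ a = (q : ℝ) ^ ((A + 1) * a) := fun a ↦ by rw [hXdef, ← pow_mul]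
  have hqX : (q : ℝ) ≤ X := by
    rw [hXdef]
    calc (q : ℝ) = (q : ℝ) ^ 1 := (pow_one _).symm
      _ ≤ _ := hmono (by omega)
  have hX0 : 0 < X := by linarith
  have hL00 : 0 ≤ L0 := by rw [hL0]; positivity
  have hqt1 : 1 ≤ (q : ℝ) ^ c * t := one_le_mul_of_one_le_of_one_le (hone c) ht1
  have hqt0 : 0 < (q : ℝ) ^ c * t := by linarith
  obtain ⟨W, hW⟩ : ∃ W : ℝ, W = ((q : ℝ) ^ c * t) ^ κ0 := ⟨_, rfl⟩
  have hWge : (q : ℝ) ^ c * t ≤ W := by
    rw [hW]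
    calc (q : ℝ) ^ c * t = ((q : ℝ) ^ c * t) ^ (1 : ℝ) := (Real.rpow_one _).symm
      _ ≤ _ := Real.rpow_le_rpow_of_exponent_le hqt1 h1
  have hW1 : 1 ≤ W := hqt1.trans hWge
  have hWV : W * (q : ℝ) ^ c ≤ V' := by
    rw [hV']
    refine le_min (by rw [hW]; exact hV) ?_
    have a1 : W ≤ ((q : ℝ) ^ c * t) ^ 2 := by
      rw [hW]
      calc ((q : ℝ) ^ c * t) ^ κ0 ≤ ((q : ℝ) ^ c * t) ^ (2 : ℝ) :=
            Real.rpow_le_rpow_of_exponent_le hqt1 h2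
        _ = _ := Real.rpow_two _
    have a2 : (q : ℝ) ^ c * t ≤ (q : ℝ) ^ (c + Bs) := by
      rw [pow_add]
      exact mul_le_mul_of_nonneg_left htq (by positivity)
    have a3 : ((q : ℝ) ^ c * t) ^ 2 ≤ (q : ℝ) ^ (2 * (c + Bs)) := by
      rw [mul_comm 2, pow_mul]
      exact pow_le_pow_left₀ hqt0.le a2 2
    calc W * (q : ℝ) ^ c ≤ (q : ℝ) ^ (2 * (c + Bs)) * (q : ℝ) ^ c :=
          mul_le_mul_of_nonneg_right (a1.trans a3) (by positivity)
      _ = (q : ℝ) ^ (2 * (c + Bs) + c) := (pow_add _ _ _).symm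
      _ ≤ L0 := by rw [hL0]; exact hmono (by omega)
  have hWV' : W ≤ V' := le_trans (le_mul_of_one_le_right (by linarith) (hone c)) hWV
  have hqtV : (q : ℝ) ^ c * t ≤ V' := hWge.trans hWV'
  have hV'0 : 0 < V' := by linarith
  have hC0 : ApprC P0 t V' L0 := by rw [hV']; exact ApprC.of_at hL00 hAt
  -- closeness
  have h2L : 2 * L0 ≤ (q : ℝ) ^ (e + 2) := by
    rw [hL0, pow_add, mul_comm 2]
    refine mul_le_mul_of_nonneg_left ?_ (by positivity)
    nlinarith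
  have hcl : ∀ j, ‖w j - winf j‖ ≤ Real.exp (-(2 * L0)) := fun j ↦
    (hclose j).trans (Real.exp_le_exp.2 (neg_le_neg h2L))
  have hcl1 : ∀ j, ‖w j - winf j‖ ≤ 1 := fun j ↦ (hcl j).trans (by
    rw [Real.exp_le_one_iff]
    linarith)
  have hBwj : ∀ j, ‖w j‖ + 1 ≤ B := fun j ↦ by
    have a1 : ‖w j‖ ≤ ‖w j - winf j‖ + ‖winf j‖ := by
      calc ‖w j‖ = ‖(w j - winf j) + winf j‖ := by rw [sub_add_cancel]
        _ ≤ _ := norm_add_le _ _
    linarith [hcl1 j, hBw j]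
  have hrelw : ∀ j, Rel X L0 P0 (w j) := fun j ↦
    rel_of_root hX0.le ((hroot j).mono (by rw [hXdef]; exact hmono (by omega)))
  have hXt : ∀ a : ℕ, a ≤ 7 * r + 7 * k → X ^ a * t ≤ V' := fun a ha ↦ by
    refine le_trans (mul_le_mul_of_nonneg_right ?_ (by linarith)) hqtV
    rw [hXpow]
    refine hmono ?_
    rw [hc]
    exact Nat.mul_le_mul_left _ (by omega)
  have hC1 := hX1 X (hqX1.trans hqX) P0 w L0 t V' hBP0 hBwj hrelw ht1 (hXt _ (by omega)) hC0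
  have hXL : X ≤ L0 := by
    rw [hXdef, hL0]
    refine hmono ?_
    have : A + 1 ≤ c := by
      rw [hc]
      exact Nat.le_mul_of_pos_right _ (by omega)
    omega
  have hrelP : ∀ i, Rel X L0 (Fin.append P0 w : Fin (k0 + r) → ℂ) (P i) := fun i ↦
    hX3 i X L0 w (((hX3s i).trans hqX3).trans hqX) hXL hcl
  have hX1le : 1 ≤ X := hq1.trans hqX
  have ht2 : 1 ≤ X ^ (4 * r) * t :=
    one_le_mul_of_one_le_of_one_le (one_le_pow₀ hX1le) ht1
  have hBapp : ∀ i, ‖(Fin.append P0 w : Fin (k0 + r) → ℂ) i‖ + 1 ≤ B := fun i ↦ by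
    refine Fin.addCases (fun a ↦ ?_) (fun a ↦ ?_) i
    · rw [Fin.append_left]; exact hBP0 a
    · rw [Fin.append_right]; exact hBwj a
  have hC2 := hX2 X (hqX2.trans hqX) (Fin.append P0 w) P L0 (X ^ (4 * r) * t) (V' / X ^ (3 * r))
    hBapp hBP hrelP ht2 (by
      rw [le_div_iff₀ (by positivity)]
      calc X ^ (7 * k) * (X ^ (4 * r) * t) * X ^ (3 * r)
          = X ^ (7 * k + 4 * r + 3 * r) * t := by rw [pow_add, pow_add]; ring
        _ ≤ V' := hXt _ (by omega)) hC1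
  have hC3 := (hC2.reindex (Fin.natAdd (k0 + r))).at
  have hfun : (fun i ↦ (Fin.append (Fin.append P0 w) P : Fin (k0 + r + k) → ℂ)
      (Fin.natAdd (k0 + r) i)) = P := by
    funext i
    rw [Fin.append_right]
  rw [hfun] at hC3
  have hD : 0 < X ^ (3 * r) * X ^ (3 * k) := by positivity
  have hVV : W ≤ V' / X ^ (3 * r) / X ^ (3 * k) := by
    rw [div_div, le_div_iff₀ hD]
    refine le_trans (mul_le_mul_of_nonneg_left ?_ (by linarith)) hWV
    rw [← pow_add, hXpow]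
    refine hmono ?_
    rw [hc]
    exact Nat.mul_le_mul_left _ (by omega)
  refine hU0 (X ^ (4 * k) * (X ^ (4 * r) * t)) (V' / X ^ (3 * r) / X ^ (3 * k))
    (one_le_mul_of_one_le_of_one_le (one_le_pow₀ hX1le) ht2) ?_ ?_ hC3
  · rw [div_div, le_div_iff₀ hD]
    refine le_trans ?_ (le_trans (le_mul_of_one_le_left (by positivity) hW1) hWV)
    calc U0 * (X ^ (3 * r) * X ^ (3 * k)) ≤ X * (X ^ (3 * r) * X ^ (3 * k)) :=
          mul_le_mul_of_nonneg_right (hqU0.trans hqX) hD.le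
      _ = X ^ (1 + 3 * r + 3 * k) := by rw [pow_add, pow_add, pow_one]; ring
      _ ≤ (q : ℝ) ^ c := by
          rw [hXpow]
          refine hmono ?_
          rw [hc]
          exact Nat.mul_le_mul_left _ (by omega)
  · refine le_trans ?_ hVV
    rw [hW]
    refine Real.rpow_le_rpow (by positivity) ?_ (by linarith)
    calc X ^ (4 * k) * (X ^ (4 * r) * t) = X ^ (4 * k + 4 * r) * t := by rw [pow_add]; ring
      _ ≤ (q : ℝ) ^ c * t := by
          refine mul_le_mul_of_nonneg_right ?_ (by linarith)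
          rw [hXpow]
          refine hmono ?_
          rw [hc]
          exact Nat.mul_le_mul_left _ (by omega)

end AO

end S_H32_AO_A10
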