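import Mathlib
import Pool.Agent.H32.AKM.P04
import Pool.Agent.H32.AKM.P06
import Pool.Agent.H32.AKM.P07

/-! Modular Schanuel with derivatives for points algebraic over a field with good approximations, part 21: this file joins several modules to save build time. -/

section S_H32_Bounds

open UpperHalfPlane hiding I
open Complex EisensteinSeries ModularForm MatrixGroups Manifold Asymptotics
open scoped Real

namespace H32

lemma continuous_E2s : Continuous E2s := by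
  unfold E2s
  have h1 : Continuous EisensteinSeries.E2 := E2_mdifferentiable.continuous
  have h2 : ∀ τ : ℍ, (π : ℂ) * (τ.im : ℂ) ≠ 0 := fun τ ↦
    mul_ne_zero (by exact_mod_cast Real.pi_ne_zero) (by exact_mod_cast τ.im_ne_zero)
  have h3 : Continuous fun τ : ℍ ↦ (π : ℂ) * (τ.im : ℂ) :=
    continuous_const.mul (Complex.continuous_ofReal.comp UpperHalfPlane.continuous_im)
  exact h1.sub (continuous_const.div h3 h2)

lemma E2s_bound : ∃ C : ℝ, ∀ τ : ℍ, ‖E2s τ‖ ≤ C * max 1 (1 / τ.im ^ 2) := by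
  have hinv : ∀ (γ : SL(2, ℤ)) (τ : ℍ), ‖E2s (γ • τ)‖ * (γ • τ).im = ‖E2s τ‖ * τ.im := by
    intro γ τ
    have hd : denom (γ : GL (Fin 2) ℝ) τ ≠ 0 := denom_ne_zero _ τ
    have hd' : ‖denom (γ : GL (Fin 2) ℝ) τ‖ ≠ 0 := norm_ne_zero_iff.mpr hd
    rw [E2s_smul, ModularGroup.im_smul_eq_div_normSq, Complex.normSq_eq_norm_sq, norm_mul, norm_pow]
    field_simp
  have hcont : Continuous fun τ : ℍ ↦ ‖E2s τ‖ * τ.im :=
    continuous_E2s.norm.mul UpperHalfPlane.continuous_im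
  have hbdd := IntQ_E2.bdd
  rw [UpperHalfPlane.isBoundedAtImInfty_iff] at hbdd
  obtain ⟨M, A, hM⟩ := hbdd
  have hO : (fun τ : ℍ ↦ ‖E2s τ‖ * τ.im) =O[atImInfty] fun τ : ℍ ↦ (τ.im) ^ (1 : ℝ) := by
    refine IsBigO.of_bound (M + 3 / π) ?_
    rw [Filter.Eventually, atImInfty_mem]
    refine ⟨max A 1, fun τ hτ ↦ ?_⟩
    have h1 : A ≤ τ.im := le_trans (le_max_left _ _) hτ
    have h2 : 1 ≤ τ.im := le_trans (le_max_right _ _) hτ
    have h3 := hM τ h1
    change ‖‖E2s τ‖ * τ.im‖ ≤ (M + 3 / π) * ‖τ.im ^ (1 : ℝ)‖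
    rw [Real.rpow_one, norm_mul, norm_norm]
    gcongr
    unfold E2s
    refine (norm_sub_le _ _).trans ?_
    gcongr
    rw [norm_div, norm_mul]
    simp only [Complex.norm_real, norm_ofNat, Real.norm_eq_abs, abs_of_pos Real.pi_pos,
      abs_of_pos τ.im_pos]
    apply div_le_div_of_nonneg_left (by norm_num) Real.pi_pos
    nlinarith [Real.pi_pos]
  obtain ⟨C, hC⟩ := ModularGroup.exists_bound_of_invariant_of_isBigO hcont zero_le_one hO hinv
  refine ⟨C, fun τ ↦ ?_⟩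
  have h := hC τ
  rw [Real.rpow_one] at h
  have h' : ‖E2s τ‖ * τ.im ≤ C * max τ.im (1 / τ.im) := (le_abs_self _).trans h
  have hy := τ.im_pos
  have e : C * max τ.im (1 / τ.im) = C * max 1 (1 / τ.im ^ 2) * τ.im := by
    rw [mul_assoc, max_mul_of_nonneg _ _ hy.le]
    congr 2
    · ring
    · field_simp
  rw [e] at h'
  exact le_of_mul_le_mul_right h' hy

lemma aux_bound {a d N x C : ℝ} {k : ℕ} (hk : k ≤ 6) (ha : 1 ≤ a) (hd : 1 ≤ d) (haN : a ≤ N)
    (hdN : d ≤ N) (hx : x ≤ C * max 1 (1 / (a / d) ^ k)) : a ^ k * x ≤ |C| * N ^ 6 := by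
  have hN : 1 ≤ N := ha.trans haN
  have ha0 : 0 < a := by linarith
  have hd0 : 0 < d := by linarith
  have h1 : a ^ k * max 1 (1 / (a / d) ^ k) ≤ N ^ 6 := by
    rw [mul_max_of_nonneg _ _ (by positivity)]
    refine max_le ?_ ?_
    · calc a ^ k * 1 = a ^ k := mul_one _
        _ ≤ N ^ k := by gcongr
        _ ≤ N ^ 6 := pow_le_pow_right₀ hN hk
    · calc a ^ k * (1 / (a / d) ^ k) = d ^ k := by rw [div_pow]; field_simp
        _ ≤ N ^ k := by gcongr
        _ ≤ N ^ 6 := pow_le_pow_right₀ hN hk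
  calc a ^ k * x ≤ a ^ k * (|C| * max 1 (1 / (a / d) ^ k)) := by
        gcongr
        refine hx.trans ?_
        gcongr
        exact le_abs_self _
    _ = |C| * (a ^ k * max 1 (1 / (a / d) ^ k)) := by ring
    _ ≤ _ := by gcongr

/-- The scaled values of the Eisenstein series at `(a i + b) / d`. -/
noncomputable def AA (s : ℕ × ℕ × ℕ) : Fin 3 → ℂ :=
  ![(s.1 : ℂ) ^ 2 * E2s (tact s UpperHalfPlane.I), (s.1 : ℂ) ^ 4 * E₄ (tact s UpperHalfPlane.I),
    (s.1 : ℂ) ^ 6 * E₆ (tact s UpperHalfPlane.I)]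

lemma bound_A : ∃ C : ℝ, 1 ≤ C ∧ ∀ N : ℕ, 0 < N → ∀ s ∈ SN N, ∀ l, ‖AA s l‖ ≤ C * N ^ 6 := by
  obtain ⟨C2, h2⟩ := E2s_bound
  obtain ⟨C4, h4⟩ := ModularFormClass.exists_bound (by norm_num : (0 : ℤ) ≤ 4) E₄
  obtain ⟨C6, h6⟩ := ModularFormClass.exists_bound (by norm_num : (0 : ℤ) ≤ 6) E₆
  have hc2 := abs_nonneg C2
  have hc4 := abs_nonneg C4
  have hc6 := abs_nonneg C6
  refine ⟨1 + |C2| + |C4| + |C6|, by linarith, fun N hN s hs l ↦ ?_⟩
  obtain ⟨ha, hd⟩ := SN_pos hN hs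
  have h1 := ((mem_SN hN).mp hs).1
  have him : (tact s UpperHalfPlane.I).im = s.1 / s.2.2 := by
    rw [im_tact ha hd]; simp
  have ha1 : (1 : ℝ) ≤ s.1 := by exact_mod_cast ha
  have hd1 : (1 : ℝ) ≤ s.2.2 := by exact_mod_cast hd
  have haN : (s.1 : ℝ) ≤ N := by exact_mod_cast Nat.le_of_dvd hN ⟨_, h1.symm⟩
  have hdN : (s.2.2 : ℝ) ≤ N := by
    exact_mod_cast Nat.le_of_dvd hN ⟨s.1, by rw [mul_comm]; exact h1.symm⟩
  have hN6 : (0 : ℝ) ≤ (N : ℝ) ^ 6 := by positivity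
  fin_cases l
  · have e := h2 (tact s UpperHalfPlane.I)
    rw [him] at e
    have := aux_bound (by norm_num) ha1 hd1 haN hdN e
    change ‖(s.1 : ℂ) ^ 2 * E2s (tact s UpperHalfPlane.I)‖ ≤ _
    rw [norm_mul, norm_pow, Complex.norm_natCast]
    refine this.trans ?_
    gcongr
    linarith
  · have e := h4 (tact s UpperHalfPlane.I)
    rw [him] at e
    have e' : ‖E₄ (tact s UpperHalfPlane.I)‖ ≤ C4 * max 1 (1 / ((s.1 : ℝ) / s.2.2) ^ 4) := by
      exact_mod_cast e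
    have := aux_bound (by norm_num) ha1 hd1 haN hdN e'
    change ‖(s.1 : ℂ) ^ 4 * E₄ (tact s UpperHalfPlane.I)‖ ≤ _
    rw [norm_mul, norm_pow, Complex.norm_natCast]
    refine this.trans ?_
    gcongr
    linarith
  · have e := h6 (tact s UpperHalfPlane.I)
    rw [him] at e
    have e' : ‖E₆ (tact s UpperHalfPlane.I)‖ ≤ C6 * max 1 (1 / ((s.1 : ℝ) / s.2.2) ^ 6) := by
      exact_mod_cast e
    have := aux_bound (by norm_num) ha1 hd1 haN hdN e'
    change ‖(s.1 : ℂ) ^ 6 * E₆ (tact s UpperHalfPlane.I)‖ ≤ _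
    rw [norm_mul, norm_pow, Complex.norm_natCast]
    refine this.trans ?_
    gcongr
    linarith

lemma card_SN {N : ℕ} (hN : 0 < N) : ((SN N).card : ℝ) ≤ N * (1 + Real.log N) := by
  have h1 : (SN N).card = ∑ d ∈ N.divisors, d := by
    have h2 := sum_SN hN (fun _ _ _ ↦ 1)
    simp only [Finset.sum_const, nsmul_eq_mul, mul_one, Finset.card_range] at h2
    have h3 : (SN N).card = ∑ p ∈ N.divisorsAntidiagonal, p.2 := by exact_mod_cast h2
    rw [h3]
    exact Nat.sum_divisorsAntidiagonal' (f := fun _ j ↦ j)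
  have h4 : ∑ d ∈ N.divisors, (d : ℝ) = ∑ d ∈ N.divisors, ((N / d : ℕ) : ℝ) :=
    (Nat.sum_div_divisors N (fun d ↦ (d : ℝ))).symm
  have h5 : ∑ d ∈ N.divisors, ((N / d : ℕ) : ℝ) ≤ N * ∑ d ∈ Finset.Icc 1 N, ((d : ℝ))⁻¹ := by
    rw [Finset.mul_sum]
    calc ∑ d ∈ N.divisors, ((N / d : ℕ) : ℝ) ≤ ∑ d ∈ N.divisors, (N : ℝ) * (d : ℝ)⁻¹ := by
          refine Finset.sum_le_sum fun d hd ↦ ?_
          rw [← div_eq_mul_inv]
          exact Nat.cast_div_le
      _ ≤ ∑ d ∈ Finset.Icc 1 N, (N : ℝ) * (d : ℝ)⁻¹ := by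
          refine Finset.sum_le_sum_of_subset_of_nonneg ?_ fun _ _ _ ↦ by positivity
          intro d hd
          rw [Nat.mem_divisors] at hd
          rw [Finset.mem_Icc]
          exact ⟨Nat.pos_of_dvd_of_pos hd.1 hN, Nat.le_of_dvd hN hd.1⟩
  rw [h1]
  push_cast
  rw [h4]
  refine h5.trans ?_
  gcongr
  have := harmonic_le_one_add_log N
  rw [harmonic_eq_sum_Icc] at this
  push_cast at this
  exact this

end H32

end S_H32_Bounds

section S_H32_Liouville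

namespace H32

open MvPolynomial Finset

lemma int_esymm {σ : Type*} [Fintype σ] [DecidableEq σ] (Y : σ → ℂ)
    (h : ∀ p : ℕ, 0 < p → ∃ z : ℤ, ∑ i, Y i ^ p = z) (k : ℕ) :
    ∃ z : ℤ, (k.factorial : ℂ) * aeval Y (esymm σ ℤ k) = z := by
  induction k using Nat.strong_induction_on with
  | _ k ih =>
  rcases Nat.eq_zero_or_pos k with rfl | hk
  · exact ⟨1, by simp⟩
  · have h1 := congrArg (aeval Y) (mul_esymm_eq_sum σ ℤ k)
    simp only [map_mul, map_natCast, map_pow, map_neg, map_one, map_sum] at h1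
    have h2 : ∀ a ∈ (HasAntidiagonal.antidiagonal k).filter (fun a ↦ a.1 < k), ∃ z : ℤ,
        ((k - 1).factorial : ℂ) * ((-1) ^ a.1 * aeval Y (esymm σ ℤ a.1) * aeval Y (psum σ ℤ a.2)) = z := by
      intro a ha
      rw [mem_filter, HasAntidiagonal.mem_antidiagonal] at ha
      obtain ⟨z1, hz1⟩ := ih a.1 ha.2
      obtain ⟨z2, hz2⟩ := h a.2 (by omega)
      have hp : aeval Y (psum σ ℤ a.2) = ∑ i, Y i ^ a.2 := by
        simp [psum]
      obtain ⟨m, hm⟩ := Nat.factorial_dvd_factorial (show a.1 ≤ k - 1 by omega)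
      refine ⟨m * (-1) ^ a.1 * z1 * z2, ?_⟩
      rw [hp, hz2, hm]
      push_cast
      rw [← hz1]
      ring
    choose! g hg using h2
    refine ⟨(-1) ^ (k + 1) * ∑ a ∈ (HasAntidiagonal.antidiagonal k).filter (fun a ↦ a.1 < k), g a, ?_⟩
    have hf : (k.factorial : ℂ) = (k - 1).factorial * k := by
      have := Nat.mul_factorial_pred hk.ne'
      rw [← this]; push_cast; ring
    rw [hf, mul_assoc, h1]
    push_cast
    rw [← Finset.sum_congr rfl hg, ← Finset.mul_sum]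
    ring

/-- If all power sums of a finite family of complex numbers of modulus at most `B` are integers,
then the nonzero members are not too small. -/
theorem liouville {ι : Type*} (s : Finset ι) (Y : ι → ℂ) (B : ℝ) (hB : 1 ≤ B)
    (hY : ∀ i ∈ s, ‖Y i‖ ≤ B) (h : ∀ p : ℕ, 0 < p → ∃ z : ℤ, ∑ i ∈ s, Y i ^ p = z)
    {i : ι} (hi : i ∈ s) (hi0 : Y i ≠ 0) :
    1 ≤ ‖Y i‖ * ((s.card.factorial : ℝ) * B ^ s.card) := by
  classical
  set t := s.filter (fun j ↦ Y j ≠ 0) with ht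
  have hit : i ∈ t := mem_filter.mpr ⟨hi, hi0⟩
  have hts : t.card ≤ s.card := card_le_card (filter_subset _ _)
  have h1 : ∀ p : ℕ, 0 < p → ∃ z : ℤ, ∑ j : t, Y j ^ p = z := by
    intro p hp
    obtain ⟨z, hz⟩ := h p hp
    refine ⟨z, ?_⟩
    rw [← hz, Finset.sum_coe_sort t (fun j ↦ Y j ^ p)]
    refine sum_subset (filter_subset _ _) fun j hj hj' ↦ ?_
    have : Y j = 0 := by
      by_contra h0
      exact hj' (mem_filter.mpr ⟨hj, h0⟩)
    rw [this, zero_pow hp.ne']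
  obtain ⟨z, hz⟩ := int_esymm (fun j : t ↦ Y j) h1 t.card
  have h2 : aeval (fun j : t ↦ Y j) (esymm t ℤ t.card) = ∏ j ∈ t, Y j := by
    have : esymm t ℤ t.card = ∏ j : t, X j := by
      rw [esymm]
      have hc : t.card = (univ : Finset t).card := by simp
      rw [hc, powersetCard_self]
      simp
    rw [this, map_prod]
    simp only [aeval_X]
    exact Finset.prod_coe_sort t Y
  rw [h2] at hz
  have hne : (t.card.factorial : ℂ) * ∏ j ∈ t, Y j ≠ 0 := by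
    refine mul_ne_zero (by exact_mod_cast Nat.factorial_ne_zero _) (prod_ne_zero_iff.mpr fun j hj ↦ ?_)
    exact (mem_filter.mp hj).2
  have hz0 : z ≠ 0 := by
    rintro rfl
    rw [hz] at hne
    exact hne (by simp)
  have h3 : 1 ≤ ‖(t.card.factorial : ℂ) * ∏ j ∈ t, Y j‖ := by
    rw [hz, Complex.norm_intCast]
    exact_mod_cast Int.one_le_abs hz0
  rw [norm_mul, Complex.norm_natCast, ← mul_prod_erase t Y hit, norm_mul, norm_prod] at h3
  have h4 : ∏ j ∈ t.erase i, ‖Y j‖ ≤ B ^ s.card := by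
    calc ∏ j ∈ t.erase i, ‖Y j‖ ≤ ∏ j ∈ t.erase i, B :=
          prod_le_prod (fun _ _ ↦ norm_nonneg _)
            fun j hj ↦ hY j (mem_of_mem_filter _ (mem_of_mem_erase hj))
      _ = B ^ (t.erase i).card := prod_const _
      _ ≤ B ^ s.card := pow_le_pow_right₀ hB ((card_le_card (erase_subset _ _)).trans hts)
  have h5 : (t.card.factorial : ℝ) ≤ s.card.factorial := by
    exact_mod_cast Nat.factorial_le hts
  calc (1 : ℝ) ≤ t.card.factorial * (‖Y i‖ * ∏ j ∈ t.erase i, ‖Y j‖) := h3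
    _ ≤ s.card.factorial * (‖Y i‖ * B ^ s.card) := by gcongr
    _ = _ := by ring

end H32

end S_H32_Liouville

section S_H32_App

open UpperHalfPlane hiding I
open Complex EisensteinSeries ModularForm MatrixGroups Manifold Asymptotics
open scoped Real
open MvPolynomial

namespace H32

variable {n : ℕ}

/-- The weights `2, 4, 6`. -/
def wt3 (x : Fin n × Fin 3) : ℕ := ![2, 4, 6] x.2

/-- The weights `0, 2, 4, 6`. -/
def wt4 (x : Fin n × Fin 4) : ℕ := ![0, 2, 4, 6] x.2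

lemma weight_wt3 (m : (Fin n × Fin 3) →₀ ℕ) : Finsupp.weight (wt3 : Fin n × Fin 3 → ℕ) m =
    ∑ j, (2 * m (j, 0) + 4 * m (j, 1) + 6 * m (j, 2)) := by
  rw [Finsupp.weight_apply, Finsupp.sum_fintype _ _ (by simp), Fintype.sum_prod_type]
  refine Finset.sum_congr rfl fun j _ ↦ ?_
  simp [Fin.sum_univ_three, wt3]
  ring

lemma weight_wt4 (m : (Fin n × Fin 4) →₀ ℕ) : Finsupp.weight (wt4 : Fin n × Fin 4 → ℕ) m =
    ∑ j, (2 * m (j, 1) + 4 * m (j, 2) + 6 * m (j, 3)) := by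
  rw [Finsupp.weight_apply, Finsupp.sum_fintype _ _ (by simp), Fintype.sum_prod_type]
  refine Finset.sum_congr rfl fun j _ ↦ ?_
  simp [Fin.sum_univ_four, wt4]
  ring

/-- evaluation at the tuple of scaled values -/
noncomputable def evA (M : Fin n → ℕ × ℕ × ℕ) (Ψ : MvPolynomial (Fin n × Fin 3) ℤ) : ℂ :=
  aeval (fun x : Fin n × Fin 3 ↦ AA (M x.1) x.2) Ψ

lemma sum_evA {ω : ℂ} (hω : ω ^ 4 = E₄ UpperHalfPlane.I) (Ψ : MvPolynomial (Fin n × Fin 3) ℤ)
    {V : ℕ} (hΨ : IsWeightedHomogeneous wt3 Ψ V) {N : Fin n → ℕ} (hN : ∀ j, 0 < N j) :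
    ∃ z : ℤ, 1728 ^ V * ∑ M ∈ Fintype.piFinset (fun j ↦ SN (N j)), evA M Ψ = z * ω ^ V := by
  have h1 : ∀ m ∈ Ψ.support, ∃ z : ℤ, 1728 ^ V * ∑ M ∈ Fintype.piFinset (fun j ↦ SN (N j)),
      ∏ x : Fin n × Fin 3, AA (M x.1) x.2 ^ m x = z * ω ^ V := by
    intro m hm
    have hw : ∑ j, (2 * m (j, 0) + 4 * m (j, 1) + 6 * m (j, 2)) = V := by
      rw [← weight_wt3]; exact hΨ (mem_support_iff.mp hm)
    have hz : ∀ j, ∃ z : ℤ, 1728 ^ (2 * m (j, 0) + 4 * m (j, 1) + 6 * m (j, 2)) *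
        ∑ s ∈ SN (N j), ∏ l, AA s l ^ m (j, l) =
        z * ω ^ (2 * m (j, 0) + 4 * m (j, 1) + 6 * m (j, 2)) := by
      intro j
      obtain ⟨z, hz⟩ := hecke_sum hω (hN j) (m (j, 0)) (m (j, 1)) (m (j, 2))
      refine ⟨z, ?_⟩
      rw [← hz]
      congr 1
      refine Finset.sum_congr rfl fun s _ ↦ ?_
      rw [Fin.prod_univ_three]
      rfl
    choose z hz using hz
    refine ⟨∏ j, z j, ?_⟩
    have h2 : ∀ M : Fin n → ℕ × ℕ × ℕ, ∏ x : Fin n × Fin 3, AA (M x.1) x.2 ^ m x =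
        ∏ j, ∏ l, AA (M j) l ^ m (j, l) := fun M ↦ Fintype.prod_prod_type _
    simp_rw [h2]
    rw [← Finset.prod_univ_sum (fun j ↦ SN (N j)) (fun j s ↦ ∏ l, AA s l ^ m (j, l)), ← hw,
      ← Finset.prod_pow_eq_pow_sum, ← Finset.prod_pow_eq_pow_sum, ← Finset.prod_mul_distrib,
      Finset.prod_congr rfl fun j _ ↦ hz j, Finset.prod_mul_distrib]
    push_cast
    rfl
  choose! z hz using h1
  refine ⟨∑ m ∈ Ψ.support, Ψ.coeff m * z m, ?_⟩
  have h3 : ∀ M, evA M Ψ = ∑ m ∈ Ψ.support, ((Ψ.coeff m : ℤ) : ℂ) * ∏ x : Fin n × Fin 3, AA (M x.1) x.2 ^ m x := by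
    intro M
    rw [evA, aeval_def, eval₂_eq']
    rfl
  simp_rw [h3]
  rw [Finset.sum_comm, Finset.mul_sum]
  push_cast
  rw [Finset.sum_mul]
  refine Finset.sum_congr rfl fun m hm ↦ ?_
  rw [← Finset.mul_sum, mul_left_comm, hz m hm]
  ring

theorem app1 {ω : ℂ} (hω : ω ^ 4 = E₄ UpperHalfPlane.I) (Ψ : MvPolynomial (Fin n × Fin 3) ℤ)
    {V : ℕ} (hΨ : IsWeightedHomogeneous wt3 Ψ V) {N : Fin n → ℕ} (hN : ∀ j, 0 < N j)
    {B : ℝ} (hB1 : 1 ≤ B)
    (hB : ∀ M ∈ Fintype.piFinset (fun j ↦ SN (N j)), ‖(1728 / ω) ^ V * evA M Ψ‖ ≤ B)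
    {M : Fin n → ℕ × ℕ × ℕ} (hM : M ∈ Fintype.piFinset (fun j ↦ SN (N j)))
    (hne : evA M Ψ ≠ 0) :
    1 ≤ ‖(1728 / ω) ^ V * evA M Ψ‖ *
      (((Fintype.piFinset (fun j ↦ SN (N j))).card.factorial : ℝ) *
        B ^ (Fintype.piFinset (fun j ↦ SN (N j))).card) := by
  have hω0 : ω ≠ 0 := by
    rintro rfl
    rw [zero_pow (by norm_num)] at hω
    exact E4_I_ne hω.symm
  refine liouville _ (fun M ↦ (1728 / ω) ^ V * evA M Ψ) B hB1 hB ?_ hM ?_
  · intro p hp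
    obtain ⟨z, hz⟩ := sum_evA hω (Ψ ^ p) (hΨ.pow p) hN
    refine ⟨z, ?_⟩
    have h1 : ∀ M : Fin n → ℕ × ℕ × ℕ, ((1728 / ω) ^ V * evA M Ψ) ^ p =
        (1728 / ω) ^ (p * V) * evA M (Ψ ^ p) := by
      intro M
      rw [mul_pow, ← pow_mul, mul_comm V p]
      simp [evA]
    simp_rw [h1]
    rw [← Finset.mul_sum, div_pow, div_mul_eq_mul_div, div_eq_iff (pow_ne_zero _ hω0)]
    simpa using hz
  · refine mul_ne_zero (pow_ne_zero _ (div_ne_zero (by norm_num) hω0)) hne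

end H32

end S_H32_App

section S_H32_Algebra

open MvPolynomial

namespace H32

variable {n : ℕ}

lemma countable_mv : Countable (MvPolynomial (Fin n × Fin 4) ℤ) := by
  rw [← Cardinal.mk_le_aleph0_iff]
  refine (MvPolynomial.cardinalMk_le_max).trans ?_
  exact max_le (max_le Cardinal.mk_le_aleph0 Cardinal.mk_le_aleph0) le_rfl

lemma exists_transcendental (ξ : Fin n × Fin 4 → ℂ) :
    ∃ μ : ℂ, Transcendental (aeval ξ : MvPolynomial (Fin n × Fin 4) ℤ →ₐ[ℤ] ℂ).range μ := by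
  have hcount : Countable (aeval ξ : MvPolynomial (Fin n × Fin 4) ℤ →ₐ[ℤ] ℂ).range := by
    have := countable_mv (n := n)
    exact Function.Surjective.countable
      (AlgHom.rangeRestrict_surjective (aeval ξ : MvPolynomial (Fin n × Fin 4) ℤ →ₐ[ℤ] ℂ))
  by_contra hcon
  push Not at hcon
  have h1 := Algebraic.countable (aeval ξ : MvPolynomial (Fin n × Fin 4) ℤ →ₐ[ℤ] ℂ).range ℂ
  have h2 : {x : ℂ | IsAlgebraic (aeval ξ : MvPolynomial (Fin n × Fin 4) ℤ →ₐ[ℤ] ℂ).range x} =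
      Set.univ := by
    ext x
    have := hcon x
    rw [Transcendental, not_not] at this
    exact iff_of_true this trivial
  rw [h2] at h1
  exact not_countable_complex h1

lemma scaled_indep (ξ : Fin n × Fin 4 → ℂ)
    (hξ : ∀ (Φ : MvPolynomial (Fin n × Fin 4) ℤ) (W : ℕ), IsWeightedHomogeneous wt4 Φ W →
      Φ ≠ 0 → aeval ξ Φ ≠ 0) :
    ∃ μ : ℂ, μ ≠ 0 ∧ AlgebraicIndependent ℤ (fun x ↦ μ ^ (wt4 x) * ξ x) := by
  classical
  obtain ⟨μ, hμ⟩ := exists_transcendental ξ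
  refine ⟨μ, ?_, ?_⟩
  · rintro rfl
    exact hμ isAlgebraic_zero
  rw [algebraicIndependent_iff]
  intro P hP
  by_contra hne
  obtain ⟨m₀, hm₀⟩ := MvPolynomial.support_nonempty.mpr hne
  set rr := AlgHom.rangeRestrict (aeval ξ : MvPolynomial (Fin n × Fin 4) ℤ →ₐ[ℤ] ℂ) with hrr
  have hrrv : ∀ p, ((rr p : (aeval ξ : MvPolynomial (Fin n × Fin 4) ℤ →ₐ[ℤ] ℂ).range) : ℂ) =
    aeval ξ p := fun p ↦ rfl
  set Q : Polynomial (aeval ξ : MvPolynomial (Fin n × Fin 4) ℤ →ₐ[ℤ] ℂ).range :=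
    ∑ m ∈ P.support, Polynomial.monomial (Finsupp.weight wt4 m)
      (rr (monomial m (P.coeff m))) with hQ
  have hQ0 : Polynomial.aeval μ Q = 0 := by
    rw [hQ, map_sum, ← hP]
    conv_rhs => rw [P.as_sum, map_sum]
    refine Finset.sum_congr rfl fun m _ ↦ ?_
    rw [Polynomial.aeval_monomial]
    change aeval ξ (monomial m (P.coeff m)) * _ = _
    rw [aeval_monomial, aeval_monomial, Finsupp.prod_fintype _ _ (by simp),
      Finsupp.prod_fintype _ _ (by simp)]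
    have : ∏ i, (μ ^ wt4 i * ξ i) ^ m i = μ ^ (Finsupp.weight wt4 m) * ∏ i, ξ i ^ m i := by
      rw [Finsupp.weight_apply, Finsupp.sum_fintype _ _ (by simp), ← Finset.prod_pow_eq_pow_sum,
        ← Finset.prod_mul_distrib]
      refine Finset.prod_congr rfl fun i _ ↦ ?_
      rw [mul_pow, ← pow_mul, smul_eq_mul, mul_comm (m i)]
    rw [this]
    ring
  have hQz : Q = 0 := by
    by_contra h
    exact hμ ⟨Q, h, hQ0⟩
  have hcoeff : rr (weightedHomogeneousComponent wt4 (Finsupp.weight wt4 m₀) P) = 0 := by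
    have h1 := congrArg (fun q ↦ (Polynomial.coeff q (Finsupp.weight wt4 m₀))) hQz
    simp only [hQ, Polynomial.finsetSum_coeff, Polynomial.coeff_monomial,
      Polynomial.coeff_zero] at h1
    rw [weightedHomogeneousComponent_apply, map_sum, Finset.sum_filter]
    exact h1
  have hcomp : aeval ξ (weightedHomogeneousComponent wt4 (Finsupp.weight wt4 m₀) P) = 0 := by
    rw [← hrrv, hcoeff]
    rfl
  refine hξ _ _ (weightedHomogeneousComponent_isWeightedHomogeneous (Finsupp.weight wt4 m₀) P)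
    ?_ hcomp
  intro h0
  have h1 := congrArg (coeff m₀) h0
  rw [coeff_weightedHomogeneousComponent, if_pos rfl, coeff_zero] at h1
  exact (MvPolynomial.mem_support_iff.mp hm₀) h1

lemma matroid_step (S η : Fin n × Fin 4 → ℂ) (hη : AlgebraicIndependent ℚ η) (μ : ℂ)
    (halg : ∀ x, IsAlgebraic (Algebra.adjoin ℚ (insert μ (Set.range S))) (η x)) :
    ∃ f : Fin (4 * n - 1) → Fin n × Fin 4, AlgebraicIndependent ℚ (fun k ↦ S (f k)) := by
  classical
  set M := AlgebraicIndependent.matroid ℚ ℂ with hM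
  have hX : M.Indep (Set.range η) := by
    rw [hM, AlgebraicIndependent.matroid_indep_iff]
    exact hη.to_subtype_range
  have hXcard : (Set.range η).encard = (4 * n : ℕ) := by
    rw [← Set.image_univ, hη.injective.encard_image, Set.encard_univ]
    simp [mul_comm]
  have hsub : Set.range η ⊆ M.closure (insert μ (Set.range S)) := by
    rw [hM, AlgebraicIndependent.matroid_closure_eq]
    rintro _ ⟨x, rfl⟩
    exact halg x
  obtain ⟨B, hB⟩ := M.exists_isBasis (Set.range S)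
  have h1 : (Set.range η).encard ≤ M.eRk (insert μ (Set.range S)) := by
    rw [← M.eRk_closure_eq]
    exact hX.encard_le_eRk_of_subset hsub
  have h2 : M.eRk (insert μ (Set.range S)) ≤ B.encard + 1 := by
    rw [← hB.eRk_eq_encard]
    exact M.eRk_insert_le_add_one _ _
  have h3 : ((4 * n : ℕ) : ℕ∞) ≤ B.encard + 1 := by
    rw [← hXcard]; exact h1.trans h2
  have hBsub : B ⊆ Set.range S := hB.subset
  have hBfin : B.Finite := (Set.finite_range S).subset hBsub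
  have h4 : 4 * n - 1 ≤ B.ncard := by
    rw [hBfin.encard_eq_coe_toFinset_card] at h3
    have h5 : 4 * n ≤ hBfin.toFinset.card + 1 := by exact_mod_cast h3
    rw [Set.ncard_eq_toFinset_card B hBfin]
    omega
  have hfin : Fintype B := hBfin.fintype
  have h6 : Fintype.card (Fin (4 * n - 1)) ≤ Fintype.card B := by
    rw [Fintype.card_fin, ← Nat.card_eq_fintype_card]
    exact h4
  obtain ⟨g⟩ := Function.Embedding.nonempty_of_card_le h6
  choose f hf using fun k ↦ hBsub (g k).2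
  refine ⟨f, ?_⟩
  have hBind : AlgebraicIndependent ℚ (fun b : B ↦ (b : ℂ)) := by
    have := hB.indep
    rw [hM, AlgebraicIndependent.matroid_indep_iff] at this
    exact this
  have h7 := hBind.comp g g.injective
  convert h7 using 1
  ext k
  exact hf k

end H32

end S_H32_Algebra

section S_H32_Algebra2

open MvPolynomial

namespace H32

section

variable {σ : Type} [Fintype σ]

lemma countable_mv' : Countable (MvPolynomial σ ℤ) := by
  rw [← Cardinal.mk_le_aleph0_iff]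
  refine (MvPolynomial.cardinalMk_le_max).trans ?_
  exact max_le (max_le Cardinal.mk_le_aleph0 Cardinal.mk_le_aleph0) le_rfl

lemma exists_transcendental' (ξ : σ → ℂ) :
    ∃ μ : ℂ, Transcendental (aeval ξ : MvPolynomial σ ℤ →ₐ[ℤ] ℂ).range μ := by
  have hcount : Countable (aeval ξ : MvPolynomial σ ℤ →ₐ[ℤ] ℂ).range := by
    have := countable_mv' (σ := σ)
    exact Function.Surjective.countable
      (AlgHom.rangeRestrict_surjective (aeval ξ : MvPolynomial σ ℤ →ₐ[ℤ] ℂ))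
  by_contra hcon
  push Not at hcon
  have h1 := Algebraic.countable (aeval ξ : MvPolynomial σ ℤ →ₐ[ℤ] ℂ).range ℂ
  have h2 : {x : ℂ | IsAlgebraic (aeval ξ : MvPolynomial σ ℤ →ₐ[ℤ] ℂ).range x} =
      Set.univ := by
    ext x
    have := hcon x
    rw [Transcendental, not_not] at this
    exact iff_of_true this trivial
  rw [h2] at h1
  exact not_countable_complex h1

lemma scaled_indep' (w : σ → ℕ) (ξ : σ → ℂ)
    (hξ : ∀ (Φ : MvPolynomial σ ℤ) (W : ℕ), IsWeightedHomogeneous w Φ W →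
      Φ ≠ 0 → aeval ξ Φ ≠ 0) :
    ∃ μ : ℂ, μ ≠ 0 ∧ AlgebraicIndependent ℤ (fun x ↦ μ ^ (w x) * ξ x) := by
  classical
  obtain ⟨μ, hμ⟩ := exists_transcendental' ξ
  refine ⟨μ, ?_, ?_⟩
  · rintro rfl
    exact hμ isAlgebraic_zero
  rw [algebraicIndependent_iff]
  intro P hP
  by_contra hne
  obtain ⟨m₀, hm₀⟩ := MvPolynomial.support_nonempty.mpr hne
  set rr := AlgHom.rangeRestrict (aeval ξ : MvPolynomial σ ℤ →ₐ[ℤ] ℂ) with hrr
  have hrrv : ∀ p, ((rr p : (aeval ξ : MvPolynomial σ ℤ →ₐ[ℤ] ℂ).range) : ℂ) =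
    aeval ξ p := fun p ↦ rfl
  set Q : Polynomial (aeval ξ : MvPolynomial σ ℤ →ₐ[ℤ] ℂ).range :=
    ∑ m ∈ P.support, Polynomial.monomial (Finsupp.weight w m)
      (rr (monomial m (P.coeff m))) with hQ
  have hQ0 : Polynomial.aeval μ Q = 0 := by
    rw [hQ, map_sum, ← hP]
    conv_rhs => rw [P.as_sum, map_sum]
    refine Finset.sum_congr rfl fun m _ ↦ ?_
    rw [Polynomial.aeval_monomial]
    change aeval ξ (monomial m (P.coeff m)) * _ = _
    rw [aeval_monomial, aeval_monomial, Finsupp.prod_fintype _ _ (by simp),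
      Finsupp.prod_fintype _ _ (by simp)]
    have : ∏ i, (μ ^ w i * ξ i) ^ m i = μ ^ (Finsupp.weight w m) * ∏ i, ξ i ^ m i := by
      rw [Finsupp.weight_apply, Finsupp.sum_fintype _ _ (by simp), ← Finset.prod_pow_eq_pow_sum,
        ← Finset.prod_mul_distrib]
      refine Finset.prod_congr rfl fun i _ ↦ ?_
      rw [mul_pow, ← pow_mul, smul_eq_mul, mul_comm (m i)]
    rw [this]
    ring
  have hQz : Q = 0 := by
    by_contra h
    exact hμ ⟨Q, h, hQ0⟩
  have hcoeff : rr (weightedHomogeneousComponent w (Finsupp.weight w m₀) P) = 0 := by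
    have h1 := congrArg (fun q ↦ (Polynomial.coeff q (Finsupp.weight w m₀))) hQz
    simp only [hQ, Polynomial.finsetSum_coeff, Polynomial.coeff_monomial,
      Polynomial.coeff_zero] at h1
    rw [weightedHomogeneousComponent_apply, map_sum, Finset.sum_filter]
    exact h1
  have hcomp : aeval ξ (weightedHomogeneousComponent w (Finsupp.weight w m₀) P) = 0 := by
    rw [← hrrv, hcoeff]
    rfl
  refine hξ _ _ (weightedHomogeneousComponent_isWeightedHomogeneous (Finsupp.weight w m₀) P)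
    ?_ hcomp
  intro h0
  have h1 := congrArg (coeff m₀) h0
  rw [coeff_weightedHomogeneousComponent, if_pos rfl, coeff_zero] at h1
  exact (MvPolynomial.mem_support_iff.mp hm₀) h1

end

lemma extract_indep {ι : Type*} [Finite ι] (S : ι → ℂ) {B : Set ℂ}
    (hB : AlgebraicIndependent ℚ (fun b : B ↦ (b : ℂ))) (hBS : B ⊆ Set.range S) {N : ℕ}
    (hN : (N : ℕ∞) ≤ B.encard) :
    ∃ f : Fin N → ι, AlgebraicIndependent ℚ (fun k ↦ S (f k)) := by
  classical
  have hBfin : B.Finite := (Set.finite_range S).subset hBS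
  have hfin : Fintype B := hBfin.fintype
  have h6 : Fintype.card (Fin N) ≤ Fintype.card B := by
    rw [Fintype.card_fin, ← Nat.card_eq_fintype_card]
    change N ≤ B.ncard
    rw [hBfin.encard_eq_coe_toFinset_card] at hN
    rw [Set.ncard_eq_toFinset_card B hBfin]
    exact_mod_cast hN
  obtain ⟨g⟩ := Function.Embedding.nonempty_of_card_le h6
  choose f hf using fun k ↦ hBS (g k).2
  refine ⟨f, ?_⟩
  have h7 := hB.comp g g.injective
  convert h7 using 1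
  ext k
  exact hf k

lemma matroid_submod {m n : ℕ} {τ : Type*} [Fintype τ] (S : Fin n × Fin 4 → ℂ) (t : Fin m → ℂ)
    (η : τ → ℂ) (hη : AlgebraicIndependent ℚ η) (hcard : Fintype.card τ = m + 3 * n) (μ : ℂ)
    (halg : ∀ x, IsAlgebraic (Algebra.adjoin ℚ (insert μ (Set.range S ∪ Set.range t))) (η x))
    (hz : ∀ j, IsAlgebraic (Algebra.adjoin ℚ (Set.range t)) (S (j, 0)))
    {ρ : ℕ} (g : Fin ρ → Fin n) (hg : AlgebraicIndependent ℚ (fun k ↦ S (g k, 0))) :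
    ∃ f : Fin (3 * n + ρ - 1) → Fin n × Fin 4, AlgebraicIndependent ℚ (fun k ↦ S (f k)) := by
  classical
  set M := AlgebraicIndependent.matroid ℚ ℂ with hM
  set Z : Set ℂ := Set.range (fun j : Fin n ↦ S (j, 0)) with hZ
  -- the big independent set
  have hX : M.Indep (Set.range η) := by
    rw [hM, AlgebraicIndependent.matroid_indep_iff]
    exact hη.to_subtype_range
  have hXcard : (Set.range η).encard = (m + 3 * n : ℕ) := by
    rw [← Set.image_univ, hη.injective.encard_image, Set.encard_univ, ENat.card_eq_coe_fintype_card,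
      hcard]
  have hsub : Set.range η ⊆ M.closure (insert μ (Set.range S ∪ Set.range t)) := by
    rw [hM, AlgebraicIndependent.matroid_closure_eq]
    rintro _ ⟨x, rfl⟩
    exact halg x
  have h1 : ((m + 3 * n : ℕ) : ℕ∞) ≤ M.eRk (Set.range S ∪ Set.range t) + 1 := by
    rw [← hXcard]
    calc (Set.range η).encard ≤ M.eRk (insert μ (Set.range S ∪ Set.range t)) := by
          rw [← M.eRk_closure_eq]
          exact hX.encard_le_eRk_of_subset hsub
      _ ≤ _ := M.eRk_insert_le_add_one _ _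
  -- the rank of the coordinates
  have hY : M.Indep (Set.range (fun k ↦ S (g k, 0))) := by
    rw [hM, AlgebraicIndependent.matroid_indep_iff]
    exact hg.to_subtype_range
  have hYcard : (Set.range (fun k ↦ S (g k, 0))).encard = (ρ : ℕ) := by
    rw [← Set.image_univ, hg.injective.encard_image, Set.encard_univ]
    simp
  have h2 : (ρ : ℕ∞) ≤ M.eRk (Set.range S ∩ (Z ∪ Set.range t)) := by
    rw [← hYcard]
    refine hY.encard_le_eRk_of_subset ?_
    rintro _ ⟨k, rfl⟩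
    exact ⟨⟨(g k, 0), rfl⟩, Or.inl ⟨g k, rfl⟩⟩
  have h3 : M.eRk (Z ∪ Set.range t) ≤ (m : ℕ∞) := by
    calc M.eRk (Z ∪ Set.range t) ≤ M.eRk (M.closure (Set.range t)) := by
          refine M.eRk_mono (Set.union_subset ?_ ?_)
          · rw [hM, AlgebraicIndependent.matroid_closure_eq]
            rintro _ ⟨j, rfl⟩
            exact hz j
          · refine M.subset_closure _ ?_
            rw [hM]
            exact Set.subset_univ _
      _ = M.eRk (Set.range t) := M.eRk_closure_eq _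
      _ ≤ (Set.range t).encard := M.eRk_le_encard _
      _ ≤ (Set.univ : Set (Fin m)).encard := by
          rw [← Set.image_univ]
          exact Set.encard_image_le _ _
      _ = m := by simp
  have h4 := M.eRk_submod (Set.range S) (Z ∪ Set.range t)
  have h5 : M.eRk (Set.range S ∪ Set.range t) ≤ M.eRk (Set.range S ∪ (Z ∪ Set.range t)) :=
    M.eRk_mono (Set.union_subset_union_right _ Set.subset_union_right)
  have h6 : (ρ : ℕ∞) + M.eRk (Set.range S ∪ Set.range t) ≤ M.eRk (Set.range S) + m :=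
    (add_le_add h2 h5).trans (h4.trans (add_le_add le_rfl h3))
  have h7 : ((ρ + (m + 3 * n) : ℕ) : ℕ∞) ≤ M.eRk (Set.range S) + m + 1 := by
    calc ((ρ + (m + 3 * n) : ℕ) : ℕ∞) = ρ + ((m + 3 * n : ℕ) : ℕ∞) := by push_cast; rfl
      _ ≤ ρ + (M.eRk (Set.range S ∪ Set.range t) + 1) := by gcongr
      _ = (ρ + M.eRk (Set.range S ∪ Set.range t)) + 1 := by rw [add_assoc]
      _ ≤ _ := by gcongr
  obtain ⟨B, hB⟩ := M.exists_isBasis (Set.range S)
  have hBsub : B ⊆ Set.range S := hB.subset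
  have hBfin : B.Finite := (Set.finite_range S).subset hBsub
  rw [← hB.encard_eq_eRk] at h7
  refine extract_indep S (B := B) ?_ hBsub ?_
  · have := hB.indep
    rw [hM, AlgebraicIndependent.matroid_indep_iff] at this
    exact this
  · rw [hBfin.encard_eq_coe_toFinset_card] at h7 ⊢
    have h8 : ρ + (m + 3 * n) ≤ hBfin.toFinset.card + m + 1 := by exact_mod_cast h7
    have h9 : 3 * n + ρ - 1 ≤ hBfin.toFinset.card := by omega
    exact_mod_cast h9

end H32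

end S_H32_Algebra2

section S_H32_T3_A2

open UpperHalfPlane hiding I
open Complex EisensteinSeries ModularForm MatrixGroups
open scoped Real

namespace H32.T3

open Polynomial Finset

/-- Sup bounds on a horizontal line. -/
lemma line_bounds {Y : ℝ} (hY : 1 ≤ Y) : ∃ C : ℝ, 1 ≤ C ∧ (∀ N : ℕ, 0 < N → ∀ s ∈ SN N,
    ∀ τ : ℍ, τ.im = Y → ‖HA E2s 2 N (toM s) τ‖ ≤ C * N ^ 6 ∧
      ‖HA (fun τ ↦ E₄ τ) 4 N (toM s) τ‖ ≤ C * N ^ 6 ∧
      ‖HA (fun τ ↦ E₆ τ) 6 N (toM s) τ‖ ≤ C * N ^ 6) ∧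
    ∀ τ : ℍ, τ.im = Y → ‖E2s τ‖ ≤ C ∧ ‖E₄ τ‖ ≤ C ∧ ‖E₆ τ‖ ≤ C := by
  obtain ⟨C2, h2⟩ := E2s_bound
  obtain ⟨C4, h4⟩ := ModularFormClass.exists_bound (by norm_num : (0 : ℤ) ≤ 4) E₄
  obtain ⟨C6, h6⟩ := ModularFormClass.exists_bound (by norm_num : (0 : ℤ) ≤ 6) E₆
  have hc2 := abs_nonneg C2
  have hc4 := abs_nonneg C4
  have hc6 := abs_nonneg C6
  have hY0 : 0 < Y := by linarith
  have hmain : ∀ N : ℕ, 0 < N → ∀ s ∈ SN N,
    ∀ τ : ℍ, τ.im = Y → ‖HA E2s 2 N (toM s) τ‖ ≤ |C2| * N ^ 6 ∧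
      ‖HA (fun τ ↦ E₄ τ) 4 N (toM s) τ‖ ≤ |C4| * N ^ 6 ∧
      ‖HA (fun τ ↦ E₆ τ) 6 N (toM s) τ‖ ≤ |C6| * N ^ 6 := by
    intro N hN s hs τ hτ
    obtain ⟨ha, hd⟩ := SN_pos hN hs
    have h1 := ((mem_SN hN).mp hs).1
    have him : (tact s τ).im = s.1 * Y / s.2.2 := by
      rw [im_tact ha hd, hτ]
    have ha1 : (1 : ℝ) ≤ s.1 := by exact_mod_cast ha
    have hd1 : (1 : ℝ) ≤ s.2.2 := by exact_mod_cast hd
    have haN : (s.1 : ℝ) ≤ N := by exact_mod_cast Nat.le_of_dvd hN ⟨_, h1.symm⟩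
    have hdN : (s.2.2 : ℝ) ≤ N := by
      exact_mod_cast Nat.le_of_dvd hN ⟨s.1, by rw [mul_comm]; exact h1.symm⟩
    have hN1 : (1 : ℝ) ≤ N := by exact_mod_cast hN
    have key : ∀ (k : ℕ) (x C : ℝ), k ≤ 6 → x ≤ C * max 1 (1 / (s.1 * Y / s.2.2 : ℝ) ^ k) →
        (s.1 : ℝ) ^ k * x ≤ |C| * N ^ 6 := by
      intro k x C hk hx
      have h3 : x ≤ |C| * max 1 (1 / ((s.1 : ℝ) / s.2.2) ^ k) := by
        refine hx.trans ?_
        have h5 : (0 : ℝ) < (s.1 : ℝ) / s.2.2 := by positivity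
        have h6 : ((s.1 : ℝ) / s.2.2) ≤ s.1 * Y / s.2.2 := by
          rw [mul_div_right_comm]
          exact le_mul_of_one_le_right h5.le hY
        have h4 : max 1 (1 / (s.1 * Y / s.2.2 : ℝ) ^ k) ≤ max 1 (1 / ((s.1 : ℝ) / s.2.2) ^ k) := by
          gcongr
        calc C * max 1 (1 / (s.1 * Y / s.2.2 : ℝ) ^ k)
            ≤ |C| * max 1 (1 / (s.1 * Y / s.2.2 : ℝ) ^ k) := by
              gcongr
              exact le_abs_self _
          _ ≤ _ := by gcongr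
      have := aux_bound hk ha1 hd1 haN hdN h3
      rwa [abs_abs] at this
    rw [HA_toM _ _ hN hs, HA_toM _ _ hN hs, HA_toM _ _ hN hs]
    simp only [norm_mul, norm_pow, Complex.norm_natCast]
    refine ⟨?_, ?_, ?_⟩
    · have e := h2 (tact s τ)
      rw [him] at e
      exact key 2 _ _ (by norm_num) e
    · have e := h4 (tact s τ)
      rw [him] at e
      exact key 4 _ _ (by norm_num) (by exact_mod_cast e)
    · have e := h6 (tact s τ)
      rw [him] at e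
      exact key 6 _ _ (by norm_num) (by exact_mod_cast e)
  refine ⟨1 + |C2| + |C4| + |C6|, by linarith, fun N hN s hs τ hτ ↦ ?_, fun τ hτ ↦ ?_⟩
  · obtain ⟨k1, k2, k3⟩ := hmain N hN s hs τ hτ
    have hN6 : (0 : ℝ) ≤ (N : ℝ) ^ 6 := by positivity
    refine ⟨k1.trans ?_, k2.trans ?_, k3.trans ?_⟩
    · gcongr; linarith
    · gcongr; linarith
    · gcongr; linarith
  · have hmem : (1, 0, 1) ∈ SN 1 := by rw [mem_SN one_pos]; simp
    have e := hmain 1 one_pos _ hmem τ hτ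
    have ht : tact (1, 0, 1) τ = τ := by
      ext
      rw [coe_tact (by norm_num) (by norm_num)]
      simp
    rw [HA_toM _ _ one_pos hmem, HA_toM _ _ one_pos hmem, HA_toM _ _ one_pos hmem, ht] at e
    simp only [Nat.cast_one, one_pow, one_mul, mul_one] at e
    obtain ⟨k1, k2, k3⟩ := e
    refine ⟨by linarith, by linarith, by linarith⟩

lemma IntQ_to_JP {t : ℝ} (ht : 0 < t) {δ a : ℝ} (hδ : 0 < δ)
    (hΔ : ∀ τ : ℍ, τ.im = t → δ ≤ ‖discriminant τ‖) (ha1 : 1 ≤ a)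
    (ha : ∀ τ : ℍ, τ.im = t → ‖E₄ τ‖ ≤ a) {C : ℝ} (hC : 2 ≤ C) (hC' : 2 * a ^ 3 / δ ≤ C)
    (hC'' : a ^ 3 ≤ C) {M : ℕ} {F : ℍ → ℂ} {B : ℝ} (h1 : IntQ F) (h2 : WInv F (12 * M))
    (h3 : ∀ τ : ℍ, τ.im = t → ‖F τ‖ ≤ B) :
    JP M (B * C ^ (2 * M ^ 2)) (fun τ ↦ F τ / discriminant τ ^ M) := by
  obtain ⟨f, hf⟩ := exists_modForm h1 h2
  have hf' : IntQ (fun τ ↦ f τ) := by
    have : (fun τ ↦ f τ) = F := funext hf
    rw [this]; exact h1
  obtain ⟨P, hP1, hP2, hP3⟩ := exists_polyJ ht hδ hΔ ha1 ha hC hC' hC'' M f B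
    (intPS_of_intQ f hf') (fun τ hτ ↦ by rw [hf]; exact h3 τ hτ)
  refine ⟨P, hP1, hP2, fun τ ↦ ?_⟩
  have hd : discriminant τ ^ M ≠ 0 := pow_ne_zero _ (discriminant_ne_zero τ)
  simp only
  rw [div_eq_iff hd, ← hP3 τ, hf]

/-- The first family. -/
noncomputable def xD (N : ℕ) (A : Matrix (Fin 2) (Fin 2) ℤ) (τ : ℍ) : ℂ :=
  HA (fun τ ↦ E₄ τ) 4 N A τ ^ 3 * E₆ τ ^ 2 - HA (fun τ ↦ E₆ τ) 6 N A τ ^ 2 * E₄ τ ^ 3

/-- The second family. -/
noncomputable def xT (N : ℕ) (A : Matrix (Fin 2) (Fin 2) ℤ) (τ : ℍ) : ℂ :=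
  (HA E2s 2 N A τ - N * E2s τ) * (E₄ τ * E₆ τ)

lemma WInv_xD {N : ℕ} (hN : 0 < N) (k : ℕ) :
    WInv (fun τ ↦ ∑ s ∈ SN N, xD N (toM s) τ ^ k) (12 * (2 * k)) := by
  have hN' : (0 : ℤ) < N := by exact_mod_cast hN
  refine sum_WInv hN _ (fun A τ ↦ xD N A τ ^ k) (fun A hA γ τ ↦ ?_) (fun A hA γ τ ↦ ?_)
  · have hA' : 0 < A.det := hA ▸ hN'
    simp only [xD, HA_left WInv_E4 hA', HA_left WInv_E6 hA']
  · have hA' : 0 < A.det := hA ▸ hN'
    have h4 := WInv_E4 γ τ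
    have h6 := WInv_E6 γ τ
    simp only at h4 h6
    simp only [xD, HA_right hA']
    rw [h4, h6]
    have e : (denom (γ : GL (Fin 2) ℝ) τ ^ 4 * HA (fun τ ↦ E₄ τ) 4 N (A * γ.1) τ) ^ 3 *
        (denom (γ : GL (Fin 2) ℝ) τ ^ 6 * E₆ τ) ^ 2 -
        (denom (γ : GL (Fin 2) ℝ) τ ^ 6 * HA (fun τ ↦ E₆ τ) 6 N (A * γ.1) τ) ^ 2 *
        (denom (γ : GL (Fin 2) ℝ) τ ^ 4 * E₄ τ) ^ 3 = denom (γ : GL (Fin 2) ℝ) τ ^ 24 *
        (HA (fun τ ↦ E₄ τ) 4 N (A * γ.1) τ ^ 3 * E₆ τ ^ 2 -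
          HA (fun τ ↦ E₆ τ) 6 N (A * γ.1) τ ^ 2 * E₄ τ ^ 3) := by ring
    rw [e, mul_pow, ← pow_mul]
    congr 2
    ring

lemma WInv_xT {N : ℕ} (hN : 0 < N) (k : ℕ) :
    WInv (fun τ ↦ ∑ s ∈ SN N, xT N (toM s) τ ^ k) (12 * k) := by
  have hN' : (0 : ℤ) < N := by exact_mod_cast hN
  refine sum_WInv hN _ (fun A τ ↦ xT N A τ ^ k) (fun A hA γ τ ↦ ?_) (fun A hA γ τ ↦ ?_)
  · have hA' : 0 < A.det := hA ▸ hN'
    simp only [xT, HA_left WInv_E2s hA']
  · have hA' : 0 < A.det := hA ▸ hN'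
    have h4 := WInv_E4 γ τ
    have h6 := WInv_E6 γ τ
    have h2 := WInv_E2s γ τ
    simp only at h4 h6
    simp only [xT, HA_right hA']
    rw [h4, h6, h2]
    have e : (denom (γ : GL (Fin 2) ℝ) τ ^ 2 * HA E2s 2 N (A * γ.1) τ -
        N * (denom (γ : GL (Fin 2) ℝ) τ ^ 2 * E2s τ)) *
        (denom (γ : GL (Fin 2) ℝ) τ ^ 4 * E₄ τ * (denom (γ : GL (Fin 2) ℝ) τ ^ 6 * E₆ τ)) =
        denom (γ : GL (Fin 2) ℝ) τ ^ 12 *
        ((HA E2s 2 N (A * γ.1) τ - N * E2s τ) * (E₄ τ * E₆ τ)) := by ring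
    rw [e, mul_pow, ← pow_mul]

lemma IntQ_xD {N : ℕ} (hN : 0 < N) (k : ℕ) :
    IntQ (fun τ ↦ ∑ s ∈ SN N, xD N (toM s) τ ^ k) := by
  have e1 : (fun τ ↦ ∑ s ∈ SN N, xD N (toM s) τ ^ k) = fun τ ↦
      ∑ m ∈ range (k + 1), ((((-1) ^ (k - m) * (k.choose m : ℤ) : ℤ)) : ℂ) *
        (((fun τ ↦ E₆ τ) τ ^ (2 * m) * (fun τ ↦ E₄ τ) τ ^ (3 * (k - m))) *
        ∑ s ∈ SN N, GG 0 (3 * m) (2 * (k - m)) N (toM s) τ) := by
    ext τ
    simp_rw [mul_sum]
    rw [sum_comm]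
    refine sum_congr rfl fun s _ ↦ ?_
    rw [xD, sub_eq_add_neg, add_pow]
    refine sum_congr rfl fun m _ ↦ ?_
    unfold GG
    rw [pow_zero, one_mul, neg_pow (HA (fun τ ↦ E₆ τ) 6 N (toM s) τ ^ 2 * E₄ τ ^ 3), mul_pow,
      mul_pow, ← pow_mul, ← pow_mul, ← pow_mul, ← pow_mul]
    push_cast
    ring
  rw [e1]
  refine IntQ.sum fun m _ ↦ IntQ.mul (IntQ.const _) (IntQ.mul ?_ (IntQ_sum _ _ _ hN))
  exact (IntQ_E6.pow _).mul (IntQ_E4.pow _)

lemma IntQ_xT {N : ℕ} (hN : 0 < N) (k : ℕ) :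
    IntQ (fun τ ↦ ∑ s ∈ SN N, xT N (toM s) τ ^ k) := by
  have e1 : (fun τ ↦ ∑ s ∈ SN N, xT N (toM s) τ ^ k) = fun τ ↦
      ((fun τ ↦ E₄ τ) τ * (fun τ ↦ E₆ τ) τ) ^ k * ∑ s ∈ SN N, GG k 0 0 N (toM s) τ := by
    ext τ
    rw [mul_sum]
    refine sum_congr rfl fun s _ ↦ ?_
    unfold xT GG
    rw [mul_pow]
    ring
  rw [e1]
  exact IntQ.mul ((IntQ_E4.mul IntQ_E6).pow _) (IntQ_sum _ _ _ hN)

lemma rel_of {N : ℕ} (hN : 0 < N) (x : Matrix (Fin 2) (Fin 2) ℤ → ℍ → ℂ) (c : ℕ) (hc : c ≤ 2)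
    (h1 : ∀ k, IntQ (fun τ ↦ ∑ s ∈ SN N, x (toM s) τ ^ k))
    (h2 : ∀ k, WInv (fun τ ↦ ∑ s ∈ SN N, x (toM s) τ ^ k) (12 * (c * k)))
    {t : ℝ} (ht : 0 < t) {δ a : ℝ} (hδ : 0 < δ)
    (hΔ : ∀ τ : ℍ, τ.im = t → δ ≤ ‖discriminant τ‖) (ha1 : 1 ≤ a)
    (ha : ∀ τ : ℍ, τ.im = t → ‖E₄ τ‖ ≤ a) {C0 : ℝ} (hC : 2 ≤ C0) (hC' : 2 * a ^ 3 / δ ≤ C0)
    (hC'' : a ^ 3 ≤ C0) {L : ℝ} (hL : 1 ≤ L)
    (h3 : ∀ s ∈ SN N, ∀ τ : ℍ, τ.im = t → ‖x (toM s) τ‖ ≤ L) :
    ∃ r : ℕ → ℤ[X], r (SN N).card = C (((SN N).card).factorial : ℤ) ∧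
      (∀ i, (r i).natDegree ≤ 2 * (SN N).card) ∧
      (∀ i, nr (r i) ≤ Real.exp (16 * (SN N).card ^ 3 * ((SN N).card * L * C0))) ∧
      ∀ (τ : ℍ) (u : ℂ), ∑ i ∈ range ((SN N).card + 1), aeval (jf τ) (r i) * u ^ i =
        (((SN N).card).factorial : ℂ) * ∏ s ∈ SN N, (u - x (toM s) τ / discriminant τ ^ c) := by
  set M := (SN N).card with hM
  have hM1 : 1 ≤ M := by
    rw [hM, Nat.one_le_iff_ne_zero, card_ne_zero]
    exact ⟨(1, 0, N), by rw [mem_SN hN]; simp [hN]⟩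
  have hM1' : (1 : ℝ) ≤ M := by exact_mod_cast hM1
  have hC1 : 1 ≤ C0 := by linarith
  set B : ℝ := M * L ^ M * C0 ^ (8 * M ^ 2) with hB
  have hB1 : 1 ≤ B := one_le_mul_of_one_le_of_one_le
    (one_le_mul_of_one_le_of_one_le hM1' (one_le_pow₀ hL)) (one_le_pow₀ hC1)
  have hcard : Fintype.card {s // s ∈ SN N} = M := Fintype.card_coe _
  have hp : ∀ k, 1 ≤ k → k ≤ Fintype.card {s // s ∈ SN N} → JP (c * k) B
      (fun τ ↦ ∑ s : {s // s ∈ SN N}, (fun s τ ↦ x (toM s.1) τ / discriminant τ ^ c) s τ ^ k) := by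
    intro k hk1 hk
    rw [hcard] at hk
    have h4 : ∀ τ : ℍ, τ.im = t → ‖∑ s ∈ SN N, x (toM s) τ ^ k‖ ≤ M * L ^ M := by
      intro τ hτ
      refine (norm_sum_le _ _).trans ?_
      calc ∑ s ∈ SN N, ‖x (toM s) τ ^ k‖ ≤ ∑ _s ∈ SN N, L ^ M := by
            refine sum_le_sum fun s hs ↦ ?_
            rw [norm_pow]
            calc ‖x (toM s) τ‖ ^ k ≤ L ^ k := by
                  have := h3 s hs τ hτ
                  gcongr
              _ ≤ L ^ M := pow_le_pow_right₀ hL hk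
        _ = M * L ^ M := by rw [sum_const, nsmul_eq_mul]
    have h5 := IntQ_to_JP ht hδ hΔ ha1 ha hC hC' hC'' (h1 k) (h2 k) h4
    have heq : (fun τ ↦ ∑ s : {s // s ∈ SN N},
        (fun s τ ↦ x (toM s.1) τ / discriminant τ ^ c) s τ ^ k) =
        fun τ ↦ (∑ s ∈ SN N, x (toM s) τ ^ k) / discriminant τ ^ (c * k) := by
      ext τ
      rw [← sum_coe_sort (SN N) (fun s ↦ x (toM s) τ ^ k), sum_div]
      refine sum_congr rfl fun s _ ↦ ?_
      simp only
      rw [div_pow, ← pow_mul]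
    rw [heq]
    refine h5.mono le_rfl ?_
    rw [hB]
    have e1 : 2 * (c * k) ^ 2 ≤ 8 * M ^ 2 := by
      have : c * k ≤ 2 * M := Nat.mul_le_mul hc hk
      calc 2 * (c * k) ^ 2 ≤ 2 * (2 * M) ^ 2 := by gcongr
        _ = 8 * M ^ 2 := by ring
    have e2 : C0 ^ (2 * (c * k) ^ 2) ≤ C0 ^ (8 * M ^ 2) := pow_le_pow_right₀ hC1 e1
    gcongr
  obtain ⟨r, hr1, hr2, hr3, hr4⟩ := exists_rel
    (fun (s : {s // s ∈ SN N}) τ ↦ x (toM s.1) τ / discriminant τ ^ c) c hB1 hp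
  rw [hcard] at hr1 hr2 hr3 hr4
  refine ⟨r, hr1, fun i ↦ (hr2 i).trans (Nat.mul_le_mul_right _ hc), fun i ↦ (hr3 i).trans ?_,
    fun τ u ↦ ?_⟩
  · have h4 : (M.factorial : ℝ) ≤ (M : ℝ) ^ M := by exact_mod_cast Nat.factorial_le_pow M
    have h5 : (M.factorial : ℝ) * B ≤ (M * L * C0) ^ (8 * M ^ 2) := by
      calc (M.factorial : ℝ) * B ≤ (M : ℝ) ^ M * (M * L ^ M * C0 ^ (8 * M ^ 2)) := by
            rw [hB]; gcongr
        _ = (M : ℝ) ^ (M + 1) * L ^ M * C0 ^ (8 * M ^ 2) := by ring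
        _ ≤ (M : ℝ) ^ (8 * M ^ 2) * L ^ (8 * M ^ 2) * C0 ^ (8 * M ^ 2) := by
            have e1 : M + 1 ≤ 8 * M ^ 2 := by nlinarith
            have e2 : (M : ℝ) ^ (M + 1) ≤ (M : ℝ) ^ (8 * M ^ 2) := pow_le_pow_right₀ hM1' e1
            have e3 : L ^ M ≤ L ^ (8 * M ^ 2) := pow_le_pow_right₀ hL (by omega)
            gcongr
        _ = _ := by rw [mul_pow, mul_pow]
    have h6 : (1 : ℝ) ≤ M * L * C0 :=
      one_le_mul_of_one_le_of_one_le (one_le_mul_of_one_le_of_one_le hM1' hL) hC1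
    calc ((M.factorial : ℝ) * B) ^ (M + 1) ≤ ((M * L * C0) ^ (8 * M ^ 2)) ^ (M + 1) := by
          gcongr
      _ = (M * L * C0) ^ (8 * M ^ 2 * (M + 1)) := by rw [← pow_mul]
      _ ≤ (M * L * C0) ^ (16 * M ^ 3) := by
          refine pow_le_pow_right₀ h6 ?_
          have : M + 1 ≤ 2 * M := by omega
          calc 8 * M ^ 2 * (M + 1) ≤ 8 * M ^ 2 * (2 * M) := by gcongr
            _ = 16 * M ^ 3 := by ring
      _ ≤ Real.exp (M * L * C0) ^ (16 * M ^ 3) := by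
          have := Real.add_one_le_exp (M * L * C0)
          gcongr
          linarith
      _ = _ := by
          rw [← Real.exp_nat_mul]
          congr 1
          push_cast
          ring
  · rw [hr4, ← prod_coe_sort (SN N) (fun s ↦ u - x (toM s) τ / discriminant τ ^ c)]

end H32.T3

end S_H32_T3_A2

section S_H32_T3_A3

open UpperHalfPlane hiding I
open Complex EisensteinSeries ModularForm MatrixGroups
open scoped Real

namespace H32.T3

open Polynomial Finset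

lemma card_SN_le {N : ℕ} (hN : 0 < N) : (SN N).card ≤ N ^ 2 := by
  have h := card_SN hN
  have h1 : Real.log N ≤ N - 1 := Real.log_le_sub_one_of_pos (by exact_mod_cast hN)
  have h2 : ((SN N).card : ℝ) ≤ (N : ℝ) ^ 2 := by
    refine h.trans ?_
    rw [pow_two]
    gcongr
    linarith
  exact_mod_cast h2

lemma one_le_card_SN {N : ℕ} (hN : 0 < N) : 1 ≤ (SN N).card := by
  rw [Nat.one_le_iff_ne_zero, card_ne_zero]
  exact ⟨(1, 0, N), by rw [mem_SN hN]; simp [hN]⟩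

theorem rel_all : ∃ K : ℝ, 1 ≤ K ∧ ∀ N : ℕ, 0 < N → ∃ rD rT : ℕ → ℤ[X],
    rD (SN N).card = C (((SN N).card).factorial : ℤ) ∧
    rT (SN N).card = C (((SN N).card).factorial : ℤ) ∧
    (∀ i, (rD i).natDegree ≤ 2 * (SN N).card) ∧ (∀ i, (rT i).natDegree ≤ 2 * (SN N).card) ∧
    (∀ i, nr (rD i) ≤ Real.exp (K * N ^ 26)) ∧ (∀ i, nr (rT i) ≤ Real.exp (K * N ^ 26)) ∧
    (∀ (τ : ℍ) (u : ℂ), ∑ i ∈ range ((SN N).card + 1), aeval (jf τ) (rD i) * u ^ i =
        (((SN N).card).factorial : ℂ) *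
          ∏ s ∈ SN N, (u - xD N (toM s) τ / discriminant τ ^ 2)) ∧
    (∀ (τ : ℍ) (u : ℂ), ∑ i ∈ range ((SN N).card + 1), aeval (jf τ) (rT i) * u ^ i =
        (((SN N).card).factorial : ℂ) *
          ∏ s ∈ SN N, (u - xT N (toM s) τ / discriminant τ ^ 1)) := by
  obtain ⟨Y, hY1, hY⟩ := near_inf
  obtain ⟨a, ha1, hb, hb'⟩ := line_bounds hY1
  set δ : ℝ := Real.exp (-2 * π * Y) / 2 with hδ
  have hδ0 : 0 < δ := by positivity
  have hΔ : ∀ τ : ℍ, τ.im = Y → δ ≤ ‖discriminant τ‖ := by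
    intro τ hτ
    have := (hY τ hτ.ge).1
    rw [norm_qq, hτ] at this
    exact this
  set C0 : ℝ := max 2 (max (2 * a ^ 3 / δ) (a ^ 3)) with hC0
  have h2 : 2 ≤ C0 := le_max_left _ _
  have h3 : 2 * a ^ 3 / δ ≤ C0 := (le_max_left _ _).trans (le_max_right _ _)
  have h4 : a ^ 3 ≤ C0 := (le_max_right _ _).trans (le_max_right _ _)
  have ha0 : 0 < a := by linarith
  refine ⟨32 * a ^ 6 * C0, ?_, fun N hN ↦ ?_⟩
  · have : 1 ≤ a ^ 6 := one_le_pow₀ ha1
    nlinarith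
  have hN1 : (1 : ℝ) ≤ N := by exact_mod_cast hN
  set L : ℝ := 2 * a ^ 6 * N ^ 18 with hL
  have hL1 : 1 ≤ L := by
    have h5 : 1 ≤ a ^ 6 := one_le_pow₀ ha1
    have h6 : (1 : ℝ) ≤ (N : ℝ) ^ 18 := one_le_pow₀ hN1
    rw [hL]
    nlinarith
  have hY0 : 0 < Y := by linarith
  have hxD : ∀ s ∈ SN N, ∀ τ : ℍ, τ.im = Y → ‖xD N (toM s) τ‖ ≤ L := by
    intro s hs τ hτ
    obtain ⟨-, k2, k3⟩ := hb N hN s hs τ hτ
    obtain ⟨-, l2, l3⟩ := hb' τ hτ
    rw [xD]
    refine (norm_sub_le _ _).trans ?_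
    rw [norm_mul, norm_mul, norm_pow, norm_pow, norm_pow, norm_pow]
    calc _ ≤ (a * N ^ 6) ^ 3 * a ^ 2 + (a * N ^ 6) ^ 2 * a ^ 3 := by gcongr
      _ = a ^ 5 * N ^ 18 + a ^ 5 * N ^ 12 := by ring
      _ ≤ a ^ 6 * N ^ 18 + a ^ 6 * N ^ 18 := by
        have e1 : a ^ 5 ≤ a ^ 6 := pow_le_pow_right₀ ha1 (by norm_num)
        have e2 : (N : ℝ) ^ 12 ≤ (N : ℝ) ^ 18 := pow_le_pow_right₀ hN1 (by norm_num)
        gcongr
      _ = L := by rw [hL]; ring
  have hxT : ∀ s ∈ SN N, ∀ τ : ℍ, τ.im = Y → ‖xT N (toM s) τ‖ ≤ L := by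
    intro s hs τ hτ
    obtain ⟨k1, -, -⟩ := hb N hN s hs τ hτ
    obtain ⟨l1, l2, l3⟩ := hb' τ hτ
    rw [xT, norm_mul, norm_mul]
    calc _ ≤ (a * N ^ 6 + N * a) * (a * a) := by
          gcongr
          refine (norm_sub_le _ _).trans ?_
          rw [norm_mul, Complex.norm_natCast]
          gcongr
      _ = a ^ 3 * N ^ 6 + a ^ 3 * N := by ring
      _ ≤ a ^ 6 * N ^ 18 + a ^ 6 * N ^ 18 := by
        have e1 : a ^ 3 ≤ a ^ 6 := pow_le_pow_right₀ ha1 (by norm_num)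
        have e2 : (N : ℝ) ^ 6 ≤ (N : ℝ) ^ 18 := pow_le_pow_right₀ hN1 (by norm_num)
        have e3 : (N : ℝ) ≤ (N : ℝ) ^ 18 := le_self_pow₀ hN1 (by norm_num)
        gcongr
      _ = L := by rw [hL]; ring
  obtain ⟨rD, d1, d2, d3, d4⟩ := rel_of hN (xD N) 2 le_rfl (IntQ_xD hN) (WInv_xD hN) hY0 hδ0 hΔ ha1
    (fun τ hτ ↦ (hb' τ hτ).2.1) h2 h3 h4 hL1 hxD
  obtain ⟨rT, e1, e2, e3, e4⟩ := rel_of hN (xT N) 1 (by norm_num) (IntQ_xT hN)
    (fun k ↦ by rw [one_mul]; exact WInv_xT hN k) hY0 hδ0 hΔ ha1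
    (fun τ hτ ↦ (hb' τ hτ).2.1) h2 h3 h4 hL1 hxT
  have hM : ((SN N).card : ℝ) ≤ (N : ℝ) ^ 2 := by exact_mod_cast card_SN_le hN
  have hbound : 16 * ((SN N).card : ℝ) ^ 3 * ((SN N).card * L * C0) ≤ 32 * a ^ 6 * C0 * N ^ 26 := by
    have hL0 : 0 ≤ L := by linarith
    have hC00 : 0 ≤ C0 := by linarith
    calc 16 * ((SN N).card : ℝ) ^ 3 * ((SN N).card * L * C0)
        ≤ 16 * ((N : ℝ) ^ 2) ^ 3 * ((N : ℝ) ^ 2 * L * C0) := by gcongr
      _ = _ := by rw [hL]; ring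
  exact ⟨rD, rT, d1, e1, d2, e2, fun i ↦ (d3 i).trans (Real.exp_le_exp.mpr hbound),
    fun i ↦ (e3 i).trans (Real.exp_le_exp.mpr hbound), d4, e4⟩

lemma xD_eq {N : ℕ} (hN : 0 < N) {s : ℕ × ℕ × ℕ} (hs : s ∈ SN N) (τ : ℍ) :
    xD N (toM s) τ = 1728 * (s.1 : ℂ) ^ 12 * (discriminant (tact s τ) * E₆ τ ^ 2 -
      E₆ (tact s τ) ^ 2 * discriminant τ) := by
  rw [xD, HA_toM _ _ hN hs, HA_toM _ _ hN hs, discriminant_eq_E₄_cube_sub_E₆_sq,
    discriminant_eq_E₄_cube_sub_E₆_sq]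
  ring

lemma aux_ratio {q' q D' D E E' : ℝ} (hq' : 0 ≤ q') (hq : 0 ≤ q) (q1 : q' / 2 ≤ D')
    (q2 : D' ≤ 2 * q') (p1 : q / 2 ≤ D) (p2 : D ≤ 2 * q) (p3 : 1 / 2 ≤ E) (p4 : E ≤ 2)
    (q3 : 1 / 2 ≤ E') (q4 : E' ≤ 2) (h : D' * E ^ 2 = E' ^ 2 * D) :
    q' ≤ 64 * q ∧ q ≤ 64 * q' := by
  have hE : 0 ≤ E := by linarith
  have hE' : 0 ≤ E' := by linarith
  have p3' : (1 / 2 : ℝ) ^ 2 ≤ E ^ 2 := by gcongr
  have p4' : E ^ 2 ≤ 2 ^ 2 := by gcongr
  have q3' : (1 / 2 : ℝ) ^ 2 ≤ E' ^ 2 := by gcongr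
  have q4' : E' ^ 2 ≤ 2 ^ 2 := by gcongr
  have hD : 0 ≤ D := by linarith
  have hD' : 0 ≤ D' := by linarith
  have e1 : q' / 2 * (1 / 2) ^ 2 ≤ D' * E ^ 2 := by gcongr
  have e2 : E' ^ 2 * D ≤ 2 ^ 2 * (2 * q) := by gcongr
  have e3 : D' * E ^ 2 ≤ 2 * q' * 2 ^ 2 := by gcongr
  have e4 : (1 / 2) ^ 2 * (q / 2) ≤ E' ^ 2 * D := by gcongr
  constructor <;> linarith

lemma aux_fin {Y : ℝ} (hY : 1 ≤ Y) {a d : ℕ} (ha : 0 < a) (hd : 0 < d) (hne : a ≠ d)
    (k1 : (a : ℝ) * d * Y < (a : ℝ) ^ 2 * Y + 1) (k2 : (a : ℝ) ^ 2 * Y < (a : ℝ) * d * Y + 1) :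
    False := by
  have ha1 : (1 : ℝ) ≤ a := by exact_mod_cast ha
  have hd1 : (1 : ℝ) ≤ d := by exact_mod_cast hd
  rcases lt_or_gt_of_ne hne with hlt | hlt
  · have h5 : (a : ℝ) + 1 ≤ d := by exact_mod_cast hlt
    have h6 : (1 : ℝ) ≤ a * (d - a) := one_le_mul_of_one_le_of_one_le ha1 (by linarith)
    have h7 : (1 : ℝ) ≤ a * (d - a) * Y := one_le_mul_of_one_le_of_one_le h6 hY
    linarith [show (a : ℝ) * (d - a) * Y = (a : ℝ) * d * Y - (a : ℝ) ^ 2 * Y by ring]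
  · have h5 : (d : ℝ) + 1 ≤ a := by exact_mod_cast hlt
    have h6 : (1 : ℝ) ≤ a * (a - d) := one_le_mul_of_one_le_of_one_le ha1 (by linarith)
    have h7 : (1 : ℝ) ≤ a * (a - d) * Y := one_le_mul_of_one_le_of_one_le h6 hY
    linarith [show (a : ℝ) * (a - d) * Y = (a : ℝ) ^ 2 * Y - (a : ℝ) * d * Y by ring]

/-- If `N` is not a square then the first family does not vanish identically. -/
theorem exists_xD_ne {N : ℕ} (hN : 0 < N) (hsq : ∀ m : ℕ, m * m ≠ N) :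
    ∃ τ : ℍ, ∀ s ∈ SN N, xD N (toM s) τ ≠ 0 := by
  obtain ⟨Y, hY1, hY⟩ := near_inf
  have hN1 : (1 : ℝ) ≤ N := by exact_mod_cast hN
  have hNY : 0 < N * Y := by positivity
  refine ⟨⟨((N * Y : ℝ) : ℂ) * I, by simpa using hNY⟩, fun s hs h ↦ ?_⟩
  set τ : ℍ := ⟨((N * Y : ℝ) : ℂ) * I, by simpa using hNY⟩ with hτ
  have him : τ.im = N * Y := by simp [hτ, UpperHalfPlane.im]
  obtain ⟨ha, hd⟩ := SN_pos hN hs
  have had := ((mem_SN hN).mp hs).1
  have ha1 : (1 : ℝ) ≤ s.1 := by exact_mod_cast ha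
  have hd1 : (1 : ℝ) ≤ s.2.2 := by exact_mod_cast hd
  have hNad : (N : ℝ) = s.1 * s.2.2 := by exact_mod_cast had.symm
  have him2 : (tact s τ).im = s.1 ^ 2 * Y := by
    rw [im_tact ha hd, him, hNad]
    field_simp
  have hne : s.1 ≠ s.2.2 := fun h' ↦ hsq s.1 (by rw [← had, ← h'])
  rw [xD_eq hN hs] at h
  have hs12 : (1728 : ℂ) * (s.1 : ℂ) ^ 12 ≠ 0 := by
    have : (s.1 : ℂ) ≠ 0 := by exact_mod_cast ha.ne'
    exact mul_ne_zero (by norm_num) (pow_ne_zero _ this)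
  have h1 : discriminant (tact s τ) * E₆ τ ^ 2 = E₆ (tact s τ) ^ 2 * discriminant τ := by
    rcases mul_eq_zero.mp h with h' | h'
    · exact absurd h' hs12
    · linear_combination h'
  have hY0 : 0 ≤ Y := by linarith
  have hy1 : Y ≤ τ.im := by rw [him]; exact le_mul_of_one_le_left hY0 hN1
  have hy2 : Y ≤ (tact s τ).im := by
    rw [him2]; exact le_mul_of_one_le_left hY0 (one_le_pow₀ ha1)
  obtain ⟨p1, p2, p3, p4⟩ := hY τ hy1
  obtain ⟨q1, q2, q3, q4⟩ := hY _ hy2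
  have h2 := congrArg norm h1
  rw [norm_mul, norm_mul, norm_pow, norm_pow] at h2
  have hqτ : 0 ≤ ‖qq τ‖ := norm_nonneg _
  have hqs : 0 ≤ ‖qq (tact s τ)‖ := norm_nonneg _
  obtain ⟨h3, h4⟩ := aux_ratio hqs hqτ q1 q2 p1 p2 p3 p4 q3 q4 h2
  rw [norm_qq, norm_qq, him, him2] at h3 h4
  have h64 : (64 : ℝ) < Real.exp (2 * π * 1) := by
    have e1 : (6 : ℝ) ≤ 2 * π * 1 := by linarith [Real.pi_gt_three]
    have e2 : Real.exp 6 ≤ Real.exp (2 * π * 1) := Real.exp_le_exp.mpr e1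
    have e3 : Real.exp 6 = Real.exp 1 ^ 6 := by
      rw [← Real.exp_nat_mul]; norm_num
    have e4 := Real.exp_one_gt_d9
    have e5 : (2.7 : ℝ) ^ 6 ≤ Real.exp 1 ^ 6 := by gcongr; linarith
    have e6 : (64 : ℝ) < 2.7 ^ 6 := by norm_num
    linarith
  have key : ∀ x y : ℝ, Real.exp (-2 * π * x) ≤ 64 * Real.exp (-2 * π * y) → y < x + 1 := by
    intro x y hxy
    by_contra hcon
    push Not at hcon
    have e1 : Real.exp (-2 * π * x) = Real.exp (2 * π * (y - x)) * Real.exp (-2 * π * y) := by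
      rw [← Real.exp_add]; congr 1; ring
    rw [e1] at hxy
    have e2 := le_of_mul_le_mul_right hxy (Real.exp_pos _)
    have e3 : Real.exp (2 * π * 1) ≤ Real.exp (2 * π * (y - x)) := by
      apply Real.exp_le_exp.mpr
      have := Real.pi_pos
      gcongr
      linarith
    linarith
  have k1 := key _ _ h3
  have k2 := key _ _ h4
  -- `N * Y - s.1 ^ 2 * Y = s.1 * (s.2.2 - s.1) * Y`
  rw [hNad] at k1 k2
  exact aux_fin hY1 ha hd hne k1 k2

/-- Evaluation at CM points. -/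
lemma cm_eval {a b c e : ℤ} {N : ℕ} (hN : 0 < N) (hNe : (N : ℤ) = e ^ 2 - b * e + a * c) (τ : ℍ)
    (h : (a : ℂ) * τ ^ 2 + b * τ + c = 0) : ∃ s ∈ SN N,
      xD N (toM s) τ = 0 ∧ xT N (toM s) τ =
        ((e - b - a * τ) ^ 2 - N) * (E2s τ * (E₄ τ * E₆ τ)) := by
  set g : Matrix (Fin 2) (Fin 2) ℤ := !![e - b, -c; a, e] with hg
  have hdet : g.det = N := by
    rw [hg, Matrix.det_fin_two_of, hNe]; ring
  have hN' : (0 : ℤ) < N := by exact_mod_cast hN
  have hpos : 0 < g.det := hdet ▸ hN'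
  have hNc : (N : ℂ) = (e - b - a * τ) * (a * τ + e) := by
    have : ((N : ℤ) : ℂ) = ((e ^ 2 - b * e + a * c : ℤ) : ℂ) := by rw [hNe]
    push_cast at this
    rw [this]
    linear_combination (a : ℂ) * h
  have hden : denom (toG g) τ = a * τ + e := by
    rw [denom, toG_val hpos]
    simp [hg]
  have hden0 : (a : ℂ) * τ + e ≠ 0 := by rw [← hden]; exact denom_ne_zero _ _
  have hfix : toG g • τ = τ := by
    have h1 : 0 < (toG g).det.val := by
      rw [Matrix.GeneralLinearGroup.val_det_apply, det_toG hpos]; exact_mod_cast hpos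
    ext
    rw [coe_smul_of_det_pos h1, hden, num, toG_val hpos, div_eq_iff hden0]
    simp [hg]
    linear_combination (-1 : ℂ) * h
  have hHA : ∀ (F : ℍ → ℂ) (k : ℕ), HA F k N g τ = (e - b - a * τ) ^ k * F τ := by
    intro F k
    unfold HA
    rw [hfix, hden]
    congr 2
    rw [div_eq_iff hden0, hNc]
  obtain ⟨s, hs, γ, hγ⟩ := exists_rep hN g hdet
  obtain ⟨ha', hd'⟩ := SN_pos hN hs
  have hposM := det_toM_pos ha' hd'
  have hHA2 : ∀ (F : ℍ → ℂ) (k : ℕ), WInv F k → HA F k N (toM s) τ = (e - b - a * τ) ^ k * F τ := by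
    intro F k hF
    rw [← hHA F k, hγ, HA_left hF hposM]
  refine ⟨s, hs, ?_, ?_⟩
  · rw [xD, hHA2 _ _ WInv_E4, hHA2 _ _ WInv_E6]
    ring
  · rw [xT, hHA2 _ _ WInv_E2s]
    ring

end H32.T3

end S_H32_T3_A3

section S_H32_T3_A4

open UpperHalfPlane hiding I
open Complex EisensteinSeries ModularForm MatrixGroups
open scoped Real

namespace H32.T3

open Polynomial Finset

lemma disc_pos {a b c : ℤ} (ha : 0 < a) (τ : ℍ) (h : (a : ℂ) * τ ^ 2 + b * τ + c = 0) :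
    0 < 4 * a * c - b ^ 2 := by
  have hy := τ.im_pos
  have ha' : (0 : ℝ) < a := by exact_mod_cast ha
  have hre := congrArg Complex.re h
  have him := congrArg Complex.im h
  simp only [pow_two, Complex.add_re, Complex.mul_re, Complex.intCast_re, Complex.intCast_im,
    Complex.add_im, Complex.mul_im, zero_mul, sub_zero, add_zero, Complex.zero_re,
    Complex.zero_im, UpperHalfPlane.coe_re, UpperHalfPlane.coe_im] at hre him
  set x := τ.re
  set y := τ.im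
  have h1 : 2 * a * x + b = 0 := by
    have : y * (2 * a * x + b) = 0 := by linear_combination him
    rcases mul_eq_zero.mp this with h' | h'
    · exact absurd h' hy.ne'
    · exact h'
  have h2 : (4 * a * c - b ^ 2 : ℝ) = 4 * a ^ 2 * y ^ 2 := by
    linear_combination (4 * a : ℝ) * hre + (-2 * a * x - b) * h1
  have h3 : (0 : ℝ) < 4 * a * c - b ^ 2 := by rw [h2]; positivity
  exact_mod_cast h3

lemma not_square {D b e : ℤ} {N m : ℕ} (hD : 0 < D) (he : e = D + |b| + 1)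
    (hN : 4 * (N : ℤ) = (2 * e - b) ^ 2 + D) : m * m ≠ N := by
  intro hm
  have hb := le_abs_self b
  have hb0 := abs_nonneg b
  set v : ℤ := 2 * e - b with hv
  have hv1 : D < v := by rw [hv, he]; linarith
  set u : ℤ := 2 * m with hu
  have hu0 : 0 ≤ u := by positivity
  have h1 : u * u = v * v + D := by
    have : ((m * m : ℕ) : ℤ) = N := by exact_mod_cast hm
    push_cast at this
    rw [hu]
    linear_combination 4 * this + hN
  have h2 : v < u := by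
    by_contra hcon
    push Not at hcon
    have := mul_le_mul hcon hcon hu0 (by linarith)
    linarith
  have h3 : (v + 1) * (v + 1) ≤ u * u := mul_le_mul h2 h2 (by linarith) hu0
  linarith

theorem cm_arith : ∃ A : ℕ, ∀ (H : ℕ) (a b c : ℤ) (τ : ℍ), 2 ≤ H → 0 < a → |a| ≤ H → |b| ≤ H →
    |c| ≤ H → (a : ℂ) * τ ^ 2 + b * τ + c = 0 →
    (∃ P : ℤ[X], P ≠ 0 ∧ P.natDegree ≤ H ^ A ∧ nr P ≤ Real.exp ((H : ℝ) ^ A) ∧
      aeval (jf τ) P = 0) ∧
    ∃ (e : ℤ) (N M : ℕ) (r : ℕ → ℤ[X]) (m : ℤ), |e| ≤ H ^ A ∧ N ≤ H ^ A ∧ M ≤ H ^ A ∧ m ≠ 0 ∧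
      r M = C m ∧ (∀ i, (r i).natDegree ≤ H ^ A) ∧ (∀ i, nr (r i) ≤ Real.exp ((H : ℝ) ^ A)) ∧
      ((e : ℂ) - b - a * τ) ^ 2 ≠ N ∧
      ∑ i ∈ range (M + 1), aeval (jf τ) (r i) *
        ((((e : ℂ) - b - a * τ) ^ 2 - N) * (E2s τ * (E₄ τ * E₆ τ)) / discriminant τ) ^ i = 0 := by
  obtain ⟨K, hK1, hK⟩ := rel_all
  set k0 : ℕ := ⌈K⌉₊ with hk0
  have hKk : K ≤ 2 ^ k0 := by
    have h1 : K ≤ (k0 : ℝ) := Nat.le_ceil K
    have h2 : (k0 : ℝ) ≤ 2 ^ k0 := by exact_mod_cast (Nat.lt_two_pow_self (n := k0)).le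
    exact h1.trans h2
  refine ⟨k0 + 260, fun H a b c τ hH ha haH hbH hcH hτ ↦ ?_⟩
  have hD := disc_pos ha τ hτ
  set D : ℤ := 4 * a * c - b ^ 2 with hDdef
  set e : ℤ := D + |b| + 1 with he
  have hH1 : 1 ≤ H := by omega
  have hHr : (2 : ℝ) ≤ H := by exact_mod_cast hH
  have hHr1 : (1 : ℝ) ≤ H := by linarith
  have hHz : (2 : ℤ) ≤ H := by exact_mod_cast hH
  have hHz1 : (1 : ℤ) ≤ H := by linarith
  have hb0 := abs_nonneg b
  have he0 : 0 < e := by linarith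
  have hNpos : 0 < e ^ 2 - b * e + a * c := by
    have h1 : 0 < 4 * (e ^ 2 - b * e + a * c) := by
      have : 4 * (e ^ 2 - b * e + a * c) = (2 * e - b) ^ 2 + D := by rw [hDdef]; ring
      rw [this]; positivity
    linarith
  obtain ⟨N, hN⟩ := Int.eq_ofNat_of_zero_le hNpos.le
  have hN0 : 0 < N := by
    have : (0 : ℤ) < N := by rw [← hN]; exact hNpos
    exact_mod_cast this
  have hsq : ∀ m : ℕ, m * m ≠ N := fun m ↦ not_square hD he (by rw [← hN, hDdef]; ring)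
  -- bounds
  have hac : a * c ≤ (H : ℤ) ^ 2 := by
    calc a * c ≤ |a * c| := le_abs_self _
      _ = |a| * |c| := abs_mul _ _
      _ ≤ (H : ℤ) * H := mul_le_mul haH hcH (abs_nonneg _) (by positivity)
      _ = _ := by ring
  have heH : e ≤ 6 * (H : ℤ) ^ 2 := by
    have h1 : D ≤ 4 * (H : ℤ) ^ 2 := by
      have : 0 ≤ b ^ 2 := sq_nonneg b
      rw [hDdef]; linarith
    have h2 : (H : ℤ) ≤ (H : ℤ) ^ 2 := le_self_pow₀ hHz1 (by norm_num)
    have h3 : (1 : ℤ) ≤ (H : ℤ) ^ 2 := one_le_pow₀ hHz1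
    linarith
  have hNH : (N : ℤ) ≤ 43 * (H : ℤ) ^ 4 := by
    rw [← hN]
    have h1 : e ^ 2 ≤ (6 * (H : ℤ) ^ 2) ^ 2 := by gcongr
    have h2 : -(b * e) ≤ (H : ℤ) * (6 * (H : ℤ) ^ 2) := by
      calc -(b * e) ≤ |b * e| := neg_le_abs _
        _ = |b| * e := by rw [abs_mul, abs_of_pos he0]
        _ ≤ _ := mul_le_mul hbH heH he0.le (by positivity)
    have h3 : (H : ℤ) * (6 * (H : ℤ) ^ 2) ≤ 6 * (H : ℤ) ^ 4 := by
      have : (H : ℤ) ^ 3 ≤ (H : ℤ) ^ 4 := pow_le_pow_right₀ hHz1 (by norm_num)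
      linarith [show (H : ℤ) * (6 * (H : ℤ) ^ 2) = 6 * (H : ℤ) ^ 3 by ring]
    have h4 : (H : ℤ) ^ 2 ≤ (H : ℤ) ^ 4 := pow_le_pow_right₀ hHz1 (by norm_num)
    have h5 : (6 * (H : ℤ) ^ 2) ^ 2 = 36 * (H : ℤ) ^ 4 := by ring
    linarith
  have hpow : ∀ {i j : ℕ}, i ≤ j → H ^ i ≤ H ^ j := fun hij ↦ Nat.pow_le_pow_right hH1 hij
  have hN10 : N ≤ H ^ 10 := by
    have h1 : N ≤ 43 * H ^ 4 := by exact_mod_cast hNH
    have h2 : 43 ≤ H ^ 6 := by
      calc 43 ≤ 2 ^ 6 := by norm_num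
        _ ≤ H ^ 6 := Nat.pow_le_pow_left hH 6
    calc N ≤ 43 * H ^ 4 := h1
      _ ≤ H ^ 6 * H ^ 4 := Nat.mul_le_mul_right _ h2
      _ = H ^ 10 := by ring
  have he5 : e ≤ (H : ℤ) ^ 5 := by
    have h2 : (6 : ℤ) ≤ (H : ℤ) ^ 3 := by
      calc (6 : ℤ) ≤ 2 ^ 3 := by norm_num
        _ ≤ (H : ℤ) ^ 3 := by gcongr
    calc e ≤ 6 * (H : ℤ) ^ 2 := heH
      _ ≤ (H : ℤ) ^ 3 * (H : ℤ) ^ 2 := by gcongr
      _ = _ := by ring
  have hM : (SN N).card ≤ H ^ 20 := by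
    calc (SN N).card ≤ N ^ 2 := card_SN_le hN0
      _ ≤ (H ^ 10) ^ 2 := Nat.pow_le_pow_left hN10 2
      _ = H ^ 20 := by ring
  have h2M : 2 * (SN N).card ≤ H ^ (k0 + 260) := by
    calc 2 * (SN N).card ≤ H * H ^ 20 := Nat.mul_le_mul hH hM
      _ = H ^ 21 := by ring
      _ ≤ _ := hpow (by omega)
  have hexp : Real.exp (K * (N : ℝ) ^ 26) ≤ Real.exp ((H : ℝ) ^ (k0 + 260)) := by
    apply Real.exp_le_exp.mpr
    have h1 : (N : ℝ) ≤ (H : ℝ) ^ 10 := by exact_mod_cast hN10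
    calc K * (N : ℝ) ^ 26 ≤ 2 ^ k0 * ((H : ℝ) ^ 10) ^ 26 := by gcongr
      _ ≤ (H : ℝ) ^ k0 * ((H : ℝ) ^ 10) ^ 26 := by gcongr
      _ = _ := by rw [← pow_mul, ← pow_add]
  obtain ⟨rD, rT, d1, t1, d2, t2, d3, t3, d4, t4⟩ := hK N hN0
  obtain ⟨s, hs, hsD, hsT⟩ := cm_eval hN0 hN.symm τ hτ
  have hfac : (((SN N).card).factorial : ℂ) ≠ 0 := by
    exact_mod_cast Nat.factorial_ne_zero _
  have hD0 : ∀ τ : ℍ, aeval (jf τ) (rD 0) = (((SN N).card).factorial : ℂ) *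
      ∏ s ∈ SN N, (0 - xD N (toM s) τ / discriminant τ ^ 2) := by
    intro τ
    have h1 := d4 τ 0
    rw [sum_range_succ', sum_eq_zero, zero_add, pow_zero, mul_one] at h1
    · exact h1
    · intro i _
      rw [zero_pow (Nat.succ_ne_zero i), mul_zero]
  constructor
  · refine ⟨rD 0, ?_, (d2 0).trans h2M, (d3 0).trans hexp, ?_⟩
    · intro h0
      obtain ⟨τ', hτ'⟩ := exists_xD_ne hN0 hsq
      have h1 := hD0 τ'
      rw [h0, map_zero] at h1
      have h2 : ∏ s ∈ SN N, (0 - xD N (toM s) τ' / discriminant τ' ^ 2) ≠ 0 := by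
        refine prod_ne_zero_iff.mpr fun s hs ↦ ?_
        rw [zero_sub, neg_ne_zero]
        exact div_ne_zero (hτ' s hs) (pow_ne_zero _ (discriminant_ne_zero _))
      exact mul_ne_zero hfac h2 h1.symm
    · rw [hD0, prod_eq_zero hs, mul_zero]
      rw [hsD]; simp
  · refine ⟨e, N, (SN N).card, rT, ((SN N).card).factorial, ?_, ?_, ?_, ?_, t1,
      fun i ↦ (t2 i).trans h2M, fun i ↦ (t3 i).trans hexp, ?_, ?_⟩
    · rw [abs_of_pos he0]
      exact he5.trans (by exact_mod_cast hpow (by omega))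
    · exact hN10.trans (hpow (by omega))
    · exact hM.trans (hpow (by omega))
    · exact_mod_cast Nat.factorial_ne_zero _
    · intro hw
      have hNc : (N : ℂ) = (e - b - a * τ) * (a * τ + e) := by
        have : ((N : ℤ) : ℂ) = ((e ^ 2 - b * e + a * c : ℤ) : ℂ) := by rw [hN]
        push_cast at this
        rw [this]
        linear_combination (a : ℂ) * hτ
      have hNc0 : (N : ℂ) ≠ 0 := by exact_mod_cast hN0.ne'
      have hw0 : (e : ℂ) - b - a * τ ≠ 0 := fun h0 ↦ by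
        rw [h0, zero_mul] at hNc
        exact hNc0 hNc
      rw [hNc, pow_two] at hw
      have h1 := mul_left_cancel₀ hw0 hw
      have h2 := congrArg Complex.im h1
      have ha' : (0 : ℝ) < a := by exact_mod_cast ha
      have hy := τ.im_pos
      simp only [Complex.sub_im, Complex.add_im, Complex.mul_im, Complex.intCast_re,
        Complex.intCast_im, zero_mul, add_zero, UpperHalfPlane.coe_im] at h2
      have h3 : 0 < (a : ℝ) * τ.im := mul_pos ha' hy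
      linarith
    · have h1 := t4 τ ((((e : ℂ) - b - a * τ) ^ 2 - N) * (E2s τ * (E₄ τ * E₆ τ)) / discriminant τ)
      rw [h1, prod_eq_zero hs, mul_zero]
      rw [hsT, pow_one, sub_self]

end H32.T3

end S_H32_T3_A4

section S_H32_T3_C1

namespace H32.T3

open Height Height.AdmissibleAbsValues Finset NumberField

section one_step

open Polynomial

/-- Adjoining a root. -/
lemma one_step (K : IntermediateField ℚ ℂ) [FiniteDimensional ℚ K] (x : ℂ) (f : K[X])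
    (hf : f ≠ 0) (hx : aeval x f = 0) : ∃ K' : IntermediateField ℚ ℂ, K ≤ K' ∧ x ∈ K' ∧
      FiniteDimensional ℚ K' ∧ Module.finrank ℚ K' ≤ Module.finrank ℚ K * f.natDegree := by
  have hxa : IsAlgebraic K x := ⟨f, hf, hx⟩
  have hxi : IsIntegral K x := hxa.isIntegral
  set E := IntermediateField.adjoin K {x} with hE
  have : FiniteDimensional K E := IntermediateField.adjoin.finiteDimensional hxi
  have : FiniteDimensional ℚ E := FiniteDimensional.trans ℚ K E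
  refine ⟨E.restrictScalars ℚ, ?_, ?_, ?_, ?_⟩
  · intro y hy
    exact E.algebraMap_mem ⟨y, hy⟩
  · exact IntermediateField.mem_adjoin_simple_self K x
  · exact ‹FiniteDimensional ℚ E›
  · have h1 : Module.finrank ℚ E = Module.finrank ℚ K * Module.finrank K E :=
      (Module.finrank_mul_finrank ℚ K E).symm
    have h2 : Module.finrank K E = (minpoly K x).natDegree :=
      IntermediateField.adjoin.finrank hxi
    have h3 : (minpoly K x).natDegree ≤ f.natDegree :=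
      natDegree_le_of_dvd (minpoly.dvd K x hx) hf
    change Module.finrank ℚ E ≤ _
    rw [h1, h2]
    exact Nat.mul_le_mul_left _ h3

end one_step

/-- Height budget. -/
def HB {L : Type} [Field L] [NumberField L] (T : ℝ) (x : L) : Prop :=
  logHeight₁ x ≤ T * totalWeight L

section HB

variable {L : Type} [Field L] [NumberField L]

lemma HB.mono {T T' : ℝ} {x : L} (h : HB T x) (hT : T ≤ T') : HB T' x := by
  refine (show logHeight₁ x ≤ T * totalWeight L from h).trans ?_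
  gcongr

lemma HB.mul {T T' : ℝ} {x y : L} (hx : HB T x) (hy : HB T' y) : HB (T + T') (x * y) := by
  unfold HB at *
  have := logHeight₁_mul_le x y
  linarith

lemma HB.inv {T : ℝ} {x : L} (hx : HB T x) : HB T x⁻¹ := by
  unfold HB at *
  rwa [logHeight₁_inv]

lemma HB.div {T T' : ℝ} {x y : L} (hx : HB T x) (hy : HB T' y) : HB (T + T') (x / y) := by
  rw [div_eq_mul_inv]
  exact hx.mul hy.inv

lemma HB.add {T T' : ℝ} {x y : L} (hx : HB T x) (hy : HB T' y) : HB (T + T' + 1) (x + y) := by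
  unfold HB at *
  have h1 := logHeight₁_add_le x y
  have h2 : Real.log 2 ≤ 1 := by
    have := Real.log_two_lt_d9
    linarith
  have h3 : (0 : ℝ) ≤ totalWeight L := by positivity
  have h4 : (totalWeight L : ℝ) * Real.log 2 ≤ totalWeight L * 1 := by gcongr
  linarith

lemma HB.sub {T T' : ℝ} {x y : L} (hx : HB T x) (hy : HB T' y) : HB (T + T' + 1) (x - y) := by
  unfold HB at *
  have h1 := logHeight₁_sub_le x y
  have h2 : Real.log 2 ≤ 1 := by
    have := Real.log_two_lt_d9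
    linarith
  have h3 : (0 : ℝ) ≤ totalWeight L := by positivity
  have h4 : (totalWeight L : ℝ) * Real.log 2 ≤ totalWeight L * 1 := by gcongr
  linarith

lemma HB.aeval {ι : Type} [Fintype ι] {x : ι → L} {T : ℝ} (hx : ∀ i, HB T (x i))
    (P : MvPolynomial ι ℤ) {D : ℕ} (hD : P.totalDegree ≤ D) {B : ℝ} (hB : 1 ≤ B)
    (hP : nrm P ≤ B) :
    HB (Real.log B + Fintype.card ι * D * T) (MvPolynomial.aeval x P) := by
  have h := mulHeight₁_aeval_le x P (d := fun _ ↦ D) (fun m hm i ↦ by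
    refine le_trans ?_ ((MvPolynomial.le_totalDegree hm).trans hD)
    rw [Finsupp.sum]
    by_cases h : i ∈ m.support
    · exact single_le_sum (f := fun i ↦ m i) (fun _ _ ↦ Nat.zero_le _) h
    · rw [Finsupp.notMem_support_iff.mp h]; exact Nat.zero_le _) hB hP
  have h1 : ∏ i, mulHeight₁ (x i) ^ D ≤ Real.exp (Fintype.card ι * D * T * totalWeight L) := by
    calc ∏ i, mulHeight₁ (x i) ^ D ≤ ∏ _i : ι, Real.exp (T * totalWeight L) ^ D := by
          refine prod_le_prod (fun i _ ↦ by positivity) fun i _ ↦ ?_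
          have h2 := hx i
          unfold HB at h2
          rw [logHeight₁_eq_log_mulHeight₁, Real.log_le_iff_le_exp (mulHeight₁_pos _)] at h2
          gcongr
      _ = _ := by
          rw [prod_const, ← pow_mul, ← Real.exp_nat_mul, card_univ]
          congr 1
          push_cast
          ring
  unfold HB
  rw [logHeight₁_eq_log_mulHeight₁, Real.log_le_iff_le_exp (mulHeight₁_pos _)]
  refine h.trans ?_
  have hB0 : 0 < B := by linarith
  calc B ^ totalWeight L * ∏ i, mulHeight₁ (x i) ^ D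
      ≤ B ^ totalWeight L * Real.exp (Fintype.card ι * D * T * totalWeight L) := by gcongr
    _ = Real.exp (Real.log B) ^ totalWeight L *
        Real.exp (Fintype.card ι * D * T * totalWeight L) := by rw [Real.exp_log hB0]
    _ = _ := by
        rw [← Real.exp_nat_mul, ← Real.exp_add]
        congr 1
        ring

/-- Roots of polynomials whose coefficients are values of integer polynomials. -/
lemma HB.root {ι : Type} [Fintype ι] {x : ι → L} {T : ℝ} (hx : ∀ i, HB T (x i))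
    {n : ℕ} (P : ℕ → MvPolynomial ι ℤ) {D : ℕ} (hD : ∀ j, (P j).totalDegree ≤ D) {B : ℝ}
    (hB : 1 ≤ B) (hP : ∀ j, nrm (P j) ≤ B) (ξ : L)
    (hb : MvPolynomial.aeval x (P n) ≠ 0)
    (h : ∑ j ∈ range (n + 1), MvPolynomial.aeval x (P j) * ξ ^ j = 0) :
    HB (n + Real.log B + Fintype.card ι * D * T) ξ := by
  set b : Fin (n + 1) → L := fun j ↦ MvPolynomial.aeval x (P j) with hbdef
  have h0 := mulHeight₁_root_le b ξ (by simpa [hbdef] using hb)
    (by rw [← h, ← Fin.sum_univ_eq_sum_range (fun j ↦ MvPolynomial.aeval x (P j) * ξ ^ j)])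
  have h00 := mulHeight_aeval_le x (fun j : Fin (n + 1) ↦ P j) (d := fun _ ↦ D) (fun j m hm i ↦ by
    refine le_trans ?_ ((MvPolynomial.le_totalDegree hm).trans (hD j))
    rw [Finsupp.sum]
    by_cases h : i ∈ m.support
    · exact single_le_sum (f := fun i ↦ m i) (fun _ _ ↦ Nat.zero_le _) h
    · rw [Finsupp.notMem_support_iff.mp h]; exact Nat.zero_le _) hB (fun j ↦ hP j)
  have h1 : ∏ i, mulHeight₁ (x i) ^ D ≤ Real.exp (Fintype.card ι * D * T * totalWeight L) := by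
    calc ∏ i, mulHeight₁ (x i) ^ D ≤ ∏ _i : ι, Real.exp (T * totalWeight L) ^ D := by
          refine prod_le_prod (fun i _ ↦ by positivity) fun i _ ↦ ?_
          have h2 := hx i
          unfold HB at h2
          rw [logHeight₁_eq_log_mulHeight₁, Real.log_le_iff_le_exp (mulHeight₁_pos _)] at h2
          gcongr
      _ = _ := by
          rw [prod_const, ← pow_mul, ← Real.exp_nat_mul, card_univ]
          congr 1
          push_cast
          ring
  unfold HB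
  rw [logHeight₁_eq_log_mulHeight₁, Real.log_le_iff_le_exp (mulHeight₁_pos _)]
  have hB0 : 0 < B := by linarith
  have hn : (n : ℝ) ≤ Real.exp n := by
    have := Real.add_one_le_exp (n : ℝ)
    linarith
  calc mulHeight₁ ξ ≤ (n : ℝ) ^ totalWeight L * mulHeight b := h0
    _ ≤ Real.exp n ^ totalWeight L * (B ^ totalWeight L *
        Real.exp (Fintype.card ι * D * T * totalWeight L)) := by
          have := h00.trans (show _ ≤ B ^ totalWeight L *
            Real.exp (Fintype.card ι * D * T * totalWeight L) by gcongr)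
          gcongr
    _ = Real.exp n ^ totalWeight L * (Real.exp (Real.log B) ^ totalWeight L *
        Real.exp (Fintype.card ι * D * T * totalWeight L)) := by rw [Real.exp_log hB0]
    _ = _ := by
        rw [← Real.exp_nat_mul, ← Real.exp_nat_mul, ← Real.exp_add, ← Real.exp_add]
        congr 1
        ring

lemma HB.int (c : ℤ) : HB (|(c : ℝ)|) (c : L) := by
  have h := HB.aeval (ι := Fin 0) (x := fun _ ↦ (0 : L)) (T := 0) (fun i ↦ i.elim0)
    (MvPolynomial.C c) (D := 0) (by rw [MvPolynomial.totalDegree_C])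
    (B := max 1 |(c : ℝ)|) (le_max_left _ _) (by rw [nrm_C]; exact le_max_right _ _)
  rw [MvPolynomial.aeval_C, algebraMap_int_eq, eq_intCast, mul_zero, add_zero] at h
  refine h.mono ?_
  have h1 : 0 < max 1 |(c : ℝ)| := by positivity
  rcases le_or_gt 1 |(c : ℝ)| with h2 | h2
  · rw [max_eq_right h2]
    have := Real.log_le_sub_one_of_pos (show 0 < |(c : ℝ)| by linarith)
    linarith
  · rw [max_eq_left h2.le, Real.log_one]
    exact abs_nonneg _

/-- Integer polynomials in one variable as multivariate polynomials. -/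
noncomputable def mv (P : Polynomial ℤ) : MvPolynomial (Fin 1) ℤ :=
  ∑ i ∈ range (P.natDegree + 1), MvPolynomial.C (P.coeff i) * MvPolynomial.X 0 ^ i

lemma aeval_mv (P : Polynomial ℤ) {R : Type*} [CommRing R] (x : Fin 1 → R) :
    MvPolynomial.aeval x (mv P) = Polynomial.aeval (x 0) P := by
  rw [mv, map_sum, Polynomial.aeval_eq_sum_range]
  refine sum_congr rfl fun i _ ↦ ?_
  rw [map_mul, MvPolynomial.aeval_C, map_pow, MvPolynomial.aeval_X, algebraMap_int_eq,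
    eq_intCast, zsmul_eq_mul]

lemma deg_mv (P : Polynomial ℤ) : (mv P).totalDegree ≤ P.natDegree := by
  refine MvPolynomial.totalDegree_finsetSum_le fun i hi ↦ ?_
  refine (MvPolynomial.totalDegree_mul _ _).trans ?_
  rw [MvPolynomial.totalDegree_C, zero_add]
  refine (MvPolynomial.totalDegree_pow _ _).trans ?_
  rw [MvPolynomial.totalDegree_X, mul_one]
  exact Nat.lt_succ_iff.mp (mem_range.mp hi)

lemma nrm_mv (P : Polynomial ℤ) : nrm (mv P) ≤ nr P := by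
  refine (nrm_sum_le _ _).trans ?_
  rw [nr_eq (S := range (P.natDegree + 1)) (fun i hi ↦ by
    rw [mem_range]
    exact Nat.lt_succ_of_le (Polynomial.le_natDegree_of_mem_supp i hi))]
  refine sum_le_sum fun i _ ↦ (nrm_mul_le _ _).trans ?_
  rw [nrm_C]
  have h1 := nrm_pow_le (MvPolynomial.X 0 : MvPolynomial (Fin 1) ℤ) i
  rw [nrm_X, one_pow] at h1
  exact (mul_le_mul_of_nonneg_left h1 (abs_nonneg _)).trans (mul_one _).le

end HB

end H32.T3

end S_H32_T3_C1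

section S_H32_T3_C2

open UpperHalfPlane hiding I
open Complex EisensteinSeries ModularForm MatrixGroups
open scoped Real

namespace H32.T3

open Height Height.AdmissibleAbsValues Finset NumberField

lemma one_step_int (K : IntermediateField ℚ ℂ) [FiniteDimensional ℚ K] (x : ℂ)
    (f : Polynomial ℤ) (hf : f ≠ 0) (hx : Polynomial.aeval x f = 0) :
    ∃ K' : IntermediateField ℚ ℂ, K ≤ K' ∧ x ∈ K' ∧
      FiniteDimensional ℚ K' ∧ Module.finrank ℚ K' ≤ Module.finrank ℚ K * f.natDegree := by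
  have hinj : Function.Injective (Int.castRingHom K) := RingHom.injective_int _
  obtain ⟨K', h1, h2, h3, h4⟩ := one_step K x (f.map (Int.castRingHom K))
    ((Polynomial.map_ne_zero_iff hinj).mpr hf) (by
      have h := Polynomial.aeval_map_algebraMap K x f
      rw [algebraMap_int_eq] at h
      rw [h]
      exact hx)
  refine ⟨K', h1, h2, h3, h4.trans ?_⟩
  rw [Polynomial.natDegree_map_eq_of_injective hinj]

/-- Values at CM points: field of definition and heights. -/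
theorem cm_heights : ∃ A : ℕ, ∀ (H : ℕ) (a b c : ℤ) (τ : ℍ), 2 ≤ H → 0 < a → |a| ≤ H → |b| ≤ H →
    |c| ≤ H → (a : ℂ) * τ ^ 2 + b * τ + c = 0 → E₆ τ ≠ 0 →
    ∃ K : IntermediateField ℚ ℂ, FiniteDimensional ℚ K ∧ Module.finrank ℚ K ≤ H ^ A ∧
      ∀ (L : Type) [Field L] [NumberField L] (σ : L →+* ℂ), (∀ x ∈ K, ∃ y, σ y = x) →
        ∃ t tb J φ : L, σ t = τ ∧ σ tb = (starRingEnd ℂ) τ ∧ σ J = jf τ ∧
          σ φ = E2s τ * E₄ τ / E₆ τ ∧ HB ((H : ℝ) ^ A) t ∧ HB ((H : ℝ) ^ A) tb ∧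
          HB ((H : ℝ) ^ A) J ∧ HB ((H : ℝ) ^ A) φ := by
  obtain ⟨A, hA⟩ := cm_arith
  refine ⟨2 * (A + 1) + 11, fun H a b c τ hH ha haH hbH hcH hτ h6 ↦ ?_⟩
  obtain ⟨⟨P, hP0, hPd, hPn, hPj⟩, e, N, M, r, m, heA, hNA, hMA, hm, hrM, hrd, hrn, hwN, hrel⟩ :=
    hA H a b c τ hH ha haH hbH hcH hτ
  set B : ℕ := H ^ (A + 1) with hB
  have hH1 : 1 ≤ H := by omega
  have hAB : H ^ A ≤ B := Nat.pow_le_pow_right hH1 (by omega)
  have hHB : H ≤ B := by
    calc H = H ^ 1 := (pow_one H).symm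
      _ ≤ _ := Nat.pow_le_pow_right hH1 (by omega)
  set S : ℝ := (B : ℝ) with hS
  have hSB : (H : ℝ) ^ A ≤ S := by rw [hS]; exact_mod_cast hAB
  have hSH : (H : ℝ) ≤ S := by rw [hS]; exact_mod_cast hHB
  have hS1 : 1 ≤ S := by
    have : (1 : ℝ) ≤ H := by exact_mod_cast hH1
    linarith
  set u : ℂ := (((e : ℂ) - b - a * τ) ^ 2 - N) * (E2s τ * (E₄ τ * E₆ τ)) / discriminant τ with hu
  -- the quadratic polynomial
  set Q : Polynomial ℤ := Polynomial.C a * Polynomial.X ^ 2 + Polynomial.C b * Polynomial.X +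
    Polynomial.C c with hQ
  have hQd : Q.natDegree = 2 := Polynomial.natDegree_quadratic ha.ne'
  have hQ0 : Q ≠ 0 := by
    intro h0
    rw [h0, Polynomial.natDegree_zero] at hQd
    omega
  obtain ⟨K1, hK1, ht1, hf1, hd1⟩ := one_step_int ⊥ (τ : ℂ) Q hQ0 (by
    rw [hQ]
    simp only [map_add, map_mul, Polynomial.aeval_C, map_pow, Polynomial.aeval_X,
      algebraMap_int_eq, eq_intCast]
    simpa using hτ)
  obtain ⟨K2, hK2, hj2, hf2, hd2⟩ := one_step_int K1 (jf τ) P hP0 hPj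
  set f : Polynomial K2 := ∑ i ∈ range (M + 1),
    Polynomial.C (Polynomial.aeval (⟨jf τ, hj2⟩ : K2) (r i)) * Polynomial.X ^ i with hf
  have hfd : f.natDegree ≤ M := by
    refine Polynomial.natDegree_sum_le_of_forall_le _ _ fun i hi ↦ ?_
    exact (Polynomial.natDegree_C_mul_X_pow_le _ _).trans (Nat.lt_succ_iff.mp (mem_range.mp hi))
  have hcoe : ∀ p : Polynomial ℤ, ((Polynomial.aeval (⟨jf τ, hj2⟩ : K2) p : K2) : ℂ) =
      Polynomial.aeval (jf τ) p := by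
    intro p
    have := Polynomial.aeval_algebraMap_apply ℂ (⟨jf τ, hj2⟩ : K2) p
    exact this.symm
  have hf0 : f ≠ 0 := by
    intro h0
    have h1 := congrArg (fun p ↦ p.coeff M) h0
    simp only [hf, Polynomial.finsetSum_coeff, Polynomial.coeff_C_mul, Polynomial.coeff_X_pow,
      Polynomial.coeff_zero] at h1
    rw [sum_eq_single M] at h1
    · rw [if_pos rfl, mul_one, hrM, Polynomial.aeval_C] at h1
      simp at h1
      exact hm h1
    · intro i _ hi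
      rw [if_neg (Ne.symm hi), mul_zero]
    · intro hM
      exact absurd (mem_range.mpr (Nat.lt_succ_self M)) hM
  obtain ⟨K3, hK3, hu3, hf3, hd3⟩ := one_step K2 u f hf0 (by
    rw [hf, map_sum, ← hrel]
    refine sum_congr rfl fun i _ ↦ ?_
    rw [map_mul, Polynomial.aeval_C, map_pow, Polynomial.aeval_X]
    congr 1
    exact hcoe _)
  refine ⟨K3, hf3, ?_, fun L _ _ σ hσ ↦ ?_⟩
  · have h1 : Module.finrank ℚ K1 ≤ 2 := by
      refine hd1.trans ?_
      rw [hQd, IntermediateField.finrank_bot]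
    calc Module.finrank ℚ K3 ≤ Module.finrank ℚ K2 * M := hd3.trans (Nat.mul_le_mul_left _ hfd)
      _ ≤ (2 * B) * B := by
          refine Nat.mul_le_mul ?_ (hMA.trans hAB)
          exact hd2.trans (Nat.mul_le_mul h1 (hPd.trans hAB))
      _ ≤ (H * B) * B := by gcongr
      _ = H ^ (2 * (A + 1) + 1) := by rw [hB]; ring
      _ ≤ _ := Nat.pow_le_pow_right hH1 (by omega)
  -- heights
  have hinj : Function.Injective σ := σ.injective
  obtain ⟨t, ht⟩ := hσ (τ : ℂ) (hK3 (hK2 ht1))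
  obtain ⟨J, hJ⟩ := hσ (jf τ) (hK3 hj2)
  obtain ⟨v, hv⟩ := hσ u hu3
  have hxa : ∀ (i : Fin 0), HB (0 : ℝ) ((fun _ ↦ 0 : Fin 0 → L) i) := fun i ↦ i.elim0
  have ht' : HB (2 + S) t := by
    set q : ℕ → ℤ := fun j ↦ if j = 0 then c else if j = 1 then b else if j = 2 then a else 0
      with hq
    have h := HB.root (n := 2) hxa (fun j ↦ MvPolynomial.C (q j)) (D := 0)
      (fun j ↦ by rw [MvPolynomial.totalDegree_C]) (B := H) (by exact_mod_cast hH1) (fun j ↦ by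
        rw [nrm_C]
        have h0 : (0 : ℝ) ≤ H := by positivity
        have e1 : |(a : ℝ)| ≤ H := by exact_mod_cast haH
        have e2 : |(b : ℝ)| ≤ H := by exact_mod_cast hbH
        have e3 : |(c : ℝ)| ≤ H := by exact_mod_cast hcH
        simp only [hq]
        split_ifs
        · exact e3
        · exact e2
        · exact e1
        · simpa using h0) t ?_ ?_
    · refine h.mono ?_
      have h1 : Real.log H ≤ H - 1 := Real.log_le_sub_one_of_pos (by positivity)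
      simp only [mul_zero, add_zero, Nat.cast_ofNat]
      linarith
    · rw [MvPolynomial.aeval_C, algebraMap_int_eq, eq_intCast, Int.cast_ne_zero]
      simp only [hq]
      norm_num
      exact ha.ne'
    · apply hinj
      rw [map_zero, map_sum, ← hτ]
      simp only [sum_range_succ, sum_range_zero, MvPolynomial.aeval_C, hq, map_mul, map_pow, ht,
        algebraMap_int_eq, eq_intCast, map_intCast]
      norm_num
      ring
  have hJ' : HB (2 * S) J := by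
    have h := HB.root (n := P.natDegree) hxa (fun j ↦ MvPolynomial.C (P.coeff j)) (D := 0)
      (fun j ↦ by rw [MvPolynomial.totalDegree_C]) (B := Real.exp S)
      (Real.one_le_exp (by linarith)) (fun j ↦ by
        rw [nrm_C]
        exact (coeff_le_nr P j).trans (hPn.trans (Real.exp_le_exp.mpr hSB))) J ?_ ?_
    · refine h.mono ?_
      rw [Real.log_exp]
      have h1 : (P.natDegree : ℝ) ≤ S := by
        rw [hS]; exact_mod_cast hPd.trans hAB
      simp only [mul_zero, add_zero]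
      linarith
    · rw [MvPolynomial.aeval_C, algebraMap_int_eq, eq_intCast, Int.cast_ne_zero]
      exact Polynomial.leadingCoeff_ne_zero.mpr hP0
    · apply hinj
      rw [map_zero, map_sum, ← hPj, Polynomial.aeval_eq_sum_range]
      refine sum_congr rfl fun i _ ↦ ?_
      rw [MvPolynomial.aeval_C, algebraMap_int_eq, eq_intCast, map_mul, map_pow, hJ, map_intCast,
        zsmul_eq_mul]
  have hv' : HB (2 * S + 2 * S ^ 2) v := by
    have h := HB.root (ι := Fin 1) (x := fun _ ↦ J) (fun _ ↦ hJ') (n := M) (fun j ↦ mv (r j))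
      (D := B) (fun j ↦ (deg_mv _).trans ((hrd j).trans hAB)) (B := Real.exp S)
      (Real.one_le_exp (by linarith))
      (fun j ↦ (nrm_mv _).trans ((hrn j).trans (Real.exp_le_exp.mpr hSB))) v ?_ ?_
    · refine h.mono ?_
      rw [Real.log_exp]
      have h1 : (M : ℝ) ≤ S := by
        rw [hS]; exact_mod_cast hMA.trans hAB
      simp only [Fintype.card_fin, Nat.cast_one, one_mul]
      have e1 : (B : ℝ) * (2 * S) = 2 * S ^ 2 := by rw [← hS]; ring
      rw [e1]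
      linarith
    · rw [aeval_mv, hrM, Polynomial.aeval_C, algebraMap_int_eq, eq_intCast, Int.cast_ne_zero]
      exact hm
    · apply hinj
      rw [map_zero, map_sum, ← hrel]
      refine sum_congr rfl fun i _ ↦ ?_
      rw [aeval_mv, map_mul, map_pow, hv]
      congr 1
      rw [Polynomial.aeval_eq_sum_range, Polynomial.aeval_eq_sum_range, map_sum]
      refine sum_congr rfl fun k _ ↦ ?_
      rw [zsmul_eq_mul, zsmul_eq_mul, map_mul, map_pow, hJ, map_intCast]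
  -- the other quantities
  have hint : ∀ (n : ℤ), |n| ≤ B → HB S (n : L) := fun n hn ↦ (HB.int n).mono (by
    rw [hS]; exact_mod_cast hn)
  have hBz : ∀ n : ℤ, |n| ≤ H → |n| ≤ B := fun n hn ↦ hn.trans (by exact_mod_cast hHB)
  have hbL := hint b (hBz b hbH)
  have haL := hint a (hBz a haH)
  have hbL' := hint (-b) (by rw [abs_neg]; exact hBz b hbH)
  have heL := hint e (heA.trans (by exact_mod_cast hAB))
  have hNL := hint (N : ℤ) (by
    rw [Nat.abs_cast]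
    exact_mod_cast hNA.trans hAB)
  have h1728 : HB 1728 ((1728 : ℤ) : L) := (HB.int 1728).mono (by norm_num)
  have hw := ((heL.sub hbL).sub (haL.mul ht'))
  have hden := ((hw.mul hw).sub hNL).mul (hJ'.sub h1728)
  have hφ := hv'.div hden
  have htb := (hbL'.div haL).sub ht'
  have ha0 : (a : ℂ) ≠ 0 := by exact_mod_cast ha.ne'
  have hΔ := discriminant_ne_zero τ
  have hfinal : 2000 * S ^ 2 ≤ (H : ℝ) ^ (2 * (A + 1) + 11) := by
    have h1 : (2000 : ℝ) ≤ (H : ℝ) ^ 11 := by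
      have : (2 : ℝ) ≤ H := by exact_mod_cast hH
      calc (2000 : ℝ) ≤ 2 ^ 11 := by norm_num
        _ ≤ _ := by gcongr
    rw [hS, hB]
    push_cast
    calc 2000 * ((H : ℝ) ^ (A + 1)) ^ 2 ≤ (H : ℝ) ^ 11 * ((H : ℝ) ^ (A + 1)) ^ 2 := by gcongr
      _ = _ := by ring
  have hSS : S ≤ S ^ 2 := le_self_pow₀ hS1 (by norm_num)
  have hS1' : 1 ≤ S ^ 2 := one_le_pow₀ hS1
  refine ⟨t, ((-b : ℤ) : L) / (a : L) - t, J,
    v / (((((e : L) - b) - a * t) * (((e : L) - b) - a * t) - ((N : ℤ) : L)) *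
      (J - ((1728 : ℤ) : L))), ht, ?_, hJ, ?_, ht'.mono ?_, htb.mono ?_, hJ'.mono ?_, hφ.mono ?_⟩
  · -- conjugate
    rw [map_sub, map_div₀, ht, map_intCast, map_intCast]
    have hd := disc_pos ha τ hτ
    have hy := τ.im_pos
    have ha' : (0 : ℝ) < a := by exact_mod_cast ha
    have him := congrArg Complex.im hτ
    simp only [pow_two, Complex.add_re, Complex.mul_re, Complex.intCast_re, Complex.intCast_im,
      Complex.add_im, Complex.mul_im, zero_mul, sub_zero, add_zero, Complex.zero_re,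
      Complex.zero_im, UpperHalfPlane.coe_re, UpperHalfPlane.coe_im] at him
    have h1 : 2 * (a : ℝ) * τ.re + b = 0 := by
      have : τ.im * (2 * a * τ.re + b) = 0 := by linear_combination him
      rcases mul_eq_zero.mp this with h' | h'
      · exact absurd h' hy.ne'
      · exact h'
    have h2 : (a : ℂ) * ((τ : ℂ) + (starRingEnd ℂ) τ) = -b := by
      rw [Complex.add_conj]
      have : ((2 * (a : ℝ) * τ.re + b : ℝ) : ℂ) = 0 := by rw [h1]; simp
      push_cast at this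
      rw [UpperHalfPlane.coe_re]
      push_cast
      linear_combination this
    push_cast
    rw [sub_eq_iff_eq_add, div_eq_iff ha0]
    linear_combination -h2
  · -- phi
    rw [map_div₀, map_mul, map_sub, map_sub, map_mul, map_sub, map_sub, map_mul, hv, ht, hJ,
      map_intCast, map_intCast, map_intCast, map_intCast, map_intCast]
    push_cast
    have h1 : jf τ - 1728 ≠ 0 := by
      intro h0
      have := jf_sub τ
      rw [h0, zero_mul] at this
      exact pow_ne_zero 2 h6 this.symm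
    have h2 : ((e : ℂ) - b - a * τ) * ((e : ℂ) - b - a * τ) - N ≠ 0 := by
      rw [← pow_two]
      exact sub_ne_zero.mpr hwN
    have h3 := jf_sub τ
    rw [hu, div_eq_div_iff (mul_ne_zero h2 h1) h6, div_mul_eq_mul_div, div_eq_iff hΔ]
    linear_combination (-(((e : ℂ) - b - a * τ) ^ 2 - N) * E2s τ * E₄ τ) * h3
  · linarith
  · linarith
  · linarith
  · linarith

end H32.T3

end S_H32_T3_C2

section S_H32_T3_C3

open UpperHalfPlane hiding I
open Complex EisensteinSeries ModularForm MatrixGroups Manifold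
open scoped Real Topology

namespace H32.T3

open Height Height.AdmissibleAbsValues Finset NumberField Filter Asymptotics

/-- The `j`-function on `ℂ`. -/
noncomputable def jc (w : ℂ) : ℂ := 1728 * e4 w ^ 3 / (e4 w ^ 3 - e6 w ^ 2)

/-- `E₂* E₄ / E₆`. -/
noncomputable def ph (w : ℂ) : ℂ := (e2 w - 3 / (π * w.im)) * e4 w / e6 w

/-- `E₂ E₄ / E₆`. -/
noncomputable def ps (w : ℂ) : ℂ := e2 w * e4 w / e6 w

/-- The four functions. -/
noncomputable def V4 (w : ℂ) : Fin 4 → ℂ := ![w, (starRingEnd ℂ) w, jc w, ph w]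

lemma jc_coe (τ : ℍ) : jc τ = jf τ := by
  have h := discriminant_eq_E₄_cube_sub_E₆_sq τ
  have h0 := discriminant_ne_zero τ
  have h1 : E₄ τ ^ 3 - E₆ τ ^ 2 ≠ 0 := by
    intro h2
    rw [h2, zero_div] at h
    exact h0 h
  rw [jc, jf, e4, e6, ofComplex_apply, h]
  field_simp

lemma ph_coe (τ : ℍ) : ph τ = E2s τ * E₄ τ / E₆ τ := by
  rw [ph, e2, e4, e6, ofComplex_apply, E2s, UpperHalfPlane.coe_im]

/-- Good approximations of `z` by CM points. -/
structure Apx (κ : ℕ) (z : ℂ) where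
  /-- heights -/
  H : ℕ → ℕ
  /-- coefficients -/
  a : ℕ → ℤ
  /-- coefficients -/
  b : ℕ → ℤ
  /-- coefficients -/
  c : ℕ → ℤ
  /-- the points -/
  t : ℕ → ℍ
  hH : ∀ n, n + 2 ≤ H n
  ha : ∀ n, 0 < a n
  haH : ∀ n, |a n| ≤ H n
  hbH : ∀ n, |b n| ≤ H n
  hcH : ∀ n, |c n| ≤ H n
  ht : ∀ n, (a n : ℂ) * (t n : ℂ) ^ 2 + b n * (t n : ℂ) + c n = 0
  hlt : ∀ n, ‖z - t n‖ < Real.exp (-(H n : ℝ) ^ κ)
  hne : ∀ n, (t n : ℂ) ≠ z

lemma Apx.tendsto {κ : ℕ} (hκ : 1 ≤ κ) {z : ℂ} (S : Apx κ z) :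
    Tendsto (fun n ↦ (S.t n : ℂ)) atTop (𝓝 z) := by
  rw [tendsto_iff_norm_sub_tendsto_zero]
  have h1 : Tendsto (fun n : ℕ ↦ Real.exp (-(n : ℝ))) atTop (𝓝 0) :=
    Real.tendsto_exp_neg_atTop_nhds_zero.comp tendsto_natCast_atTop_atTop
  refine squeeze_zero (fun _ ↦ norm_nonneg _) (fun n ↦ ?_) h1
  rw [norm_sub_rev]
  refine (S.hlt n).le.trans (Real.exp_le_exp.mpr (neg_le_neg ?_))
  have h2 : (n : ℝ) ≤ S.H n := by exact_mod_cast (Nat.le_of_lt (by have := S.hH n; omega))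
  have h3 : (1 : ℝ) ≤ S.H n := by exact_mod_cast (by have := S.hH n; omega : 1 ≤ S.H n)
  exact h2.trans (le_self_pow₀ h3 (by omega))

lemma Apx.tendsto_ne {κ : ℕ} (hκ : 1 ≤ κ) {z : ℂ} (S : Apx κ z) :
    Tendsto (fun n ↦ (S.t n : ℂ)) atTop (𝓝[≠] z) :=
  tendsto_nhdsWithin_iff.mpr ⟨S.tendsto hκ, Eventually.of_forall S.hne⟩

/-- Liouville inequality at CM points. -/
theorem liouville4 : ∃ A : ℕ, ∀ G : MvPolynomial (Fin 4) ℤ, ∃ C : ℝ, 0 ≤ C ∧
    ∀ (H : ℕ) (a b c : ℤ) (τ : ℍ), 2 ≤ H → 0 < a → |a| ≤ H → |b| ≤ H →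
    |c| ≤ H → (a : ℂ) * τ ^ 2 + b * τ + c = 0 → E₆ τ ≠ 0 →
    MvPolynomial.aeval (V4 τ) G = 0 ∨
      Real.exp (-(C * (H : ℝ) ^ A)) ≤ ‖MvPolynomial.aeval (V4 τ) G‖ := by
  obtain ⟨A, hA⟩ := cm_heights
  refine ⟨2 * A, fun G ↦ ⟨Real.log (max 1 (nrm G)) + 4 * G.totalDegree, ?_, ?_⟩⟩
  · have := Real.log_nonneg (le_max_left 1 (nrm G))
    positivity
  intro H a b c τ hH ha haH hbH hcH hτ h6
  obtain ⟨K, hK, hKA, hL⟩ := hA H a b c τ hH ha haH hbH hcH hτ h6
  have hNF : NumberField K := { to_charZero := inferInstance, to_finiteDimensional := hK }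
  obtain ⟨t, tb, J, φ, h1, h2, h3, h4, b1, b2, b3, b4⟩ := hL K (algebraMap K ℂ)
    (fun x hx ↦ ⟨⟨x, hx⟩, rfl⟩)
  set v : Fin 4 → K := ![t, tb, J, φ] with hv
  have hvb : ∀ i, HB ((H : ℝ) ^ A) (v i) := by
    intro i
    fin_cases i
    · exact b1
    · exact b2
    · exact b3
    · exact b4
  have hval : algebraMap K ℂ (MvPolynomial.aeval v G) = MvPolynomial.aeval (V4 τ) G := by
    have h5 := MvPolynomial.comp_aeval_apply v (algebraMap K ℂ).toIntAlgHom G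
    have h6 : (fun i ↦ (algebraMap K ℂ).toIntAlgHom (v i)) = V4 τ := by
      ext i
      fin_cases i
      · exact h1
      · exact h2
      · exact h3.trans (jc_coe τ).symm
      · exact h4.trans (ph_coe τ).symm
    rw [h6] at h5
    exact h5
  by_cases h0 : MvPolynomial.aeval (V4 τ) G = 0
  · exact Or.inl h0
  right
  have hy : MvPolynomial.aeval v G ≠ 0 := by
    intro h5
    rw [h5, map_zero] at hval
    exact h0 hval.symm
  have h5 := liouville (algebraMap K ℂ) hy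
  rw [hval] at h5
  refine le_trans ?_ h5
  have h6 := HB.aeval hvb G le_rfl (le_max_left 1 (nrm G)) (le_max_right _ _)
  unfold HB at h6
  have hH1 : (1 : ℝ) ≤ (H : ℝ) ^ A := by
    apply one_le_pow₀
    have : (2 : ℝ) ≤ H := by exact_mod_cast hH
    linarith
  have hd : (totalWeight K : ℝ) ≤ (H : ℝ) ^ A := by
    rw [totalWeight_eq_finrank]
    exact_mod_cast hKA
  have hlog := Real.log_nonneg (le_max_left 1 (nrm G))
  have h7 : logHeight₁ (MvPolynomial.aeval v G) ≤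
      (Real.log (max 1 (nrm G)) + 4 * G.totalDegree) * (H : ℝ) ^ (2 * A) := by
    refine h6.trans ?_
    rw [Fintype.card_fin]
    push_cast
    have h8 : (H : ℝ) ^ (2 * A) = (H : ℝ) ^ A * (H : ℝ) ^ A := by ring
    rw [h8, ← mul_assoc]
    have h9 : Real.log (max 1 (nrm G)) + 4 * G.totalDegree * (H : ℝ) ^ A ≤
        (Real.log (max 1 (nrm G)) + 4 * G.totalDegree) * (H : ℝ) ^ A := by
      rw [add_mul]
      have := le_mul_of_one_le_right hlog hH1
      linarith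
    gcongr
  rw [Real.exp_neg]
  apply inv_anti₀ (mulHeight₁_pos _)
  rw [logHeight₁_eq_log_mulHeight₁, Real.log_le_iff_le_exp (mulHeight₁_pos _)] at h7
  exact h7

lemma num_contra {C C' : ℝ} (A κ : ℕ) (hκ : A < κ) (hC' : 0 < C') :
    ∃ H0 : ℝ, ∀ H : ℝ, H0 ≤ H → C' * Real.exp (-H ^ κ) < Real.exp (-(C * H ^ A)) := by
  refine ⟨max 1 (C + |Real.log C'| + 1), fun H hH ↦ ?_⟩
  have h1 : 1 ≤ H := (le_max_left _ _).trans hH
  have h2 : C + |Real.log C'| + 1 ≤ H := (le_max_right _ _).trans hH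
  have h3 : H ^ (A + 1) ≤ H ^ κ := pow_le_pow_right₀ h1 hκ
  have h4 : 1 ≤ H ^ A := one_le_pow₀ h1
  have h5 : Real.log C' - H ^ κ < -(C * H ^ A) := by
    have h6 : Real.log C' < (H - C) * H ^ A := by
      calc Real.log C' ≤ |Real.log C'| := le_abs_self _
        _ < (|Real.log C'| + 1) * 1 := by linarith
        _ ≤ (H - C) * H ^ A := by
          have h8 := abs_nonneg (Real.log C')
          have h9 : |Real.log C'| + 1 ≤ H - C := by linarith
          have h10 : 0 ≤ H - C := by linarith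
          gcongr
    have h7 : (H - C) * H ^ A = H ^ (A + 1) - C * H ^ A := by ring
    linarith
  calc C' * Real.exp (-H ^ κ) = Real.exp (Real.log C' - H ^ κ) := by
        rw [sub_eq_add_neg, Real.exp_add, Real.exp_log hC']
    _ < _ := Real.exp_lt_exp.mpr h5

/-- Relations at `z` transfer to the CM points. -/
theorem transfer : ∃ A : ℕ, ∀ (κ : ℕ), A < κ → ∀ (z : ℂ) (S : Apx κ z)
    (G : MvPolynomial (Fin 4) ℤ),
    (fun w ↦ MvPolynomial.aeval (V4 w) G) =O[𝓝 z] (fun w ↦ w - z) →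
    ∀ᶠ n in atTop, e6 (S.t n) = 0 ∨ MvPolynomial.aeval (V4 (S.t n)) G = 0 := by
  obtain ⟨A, hA⟩ := liouville4
  refine ⟨A, fun κ hκ z S G hG ↦ ?_⟩
  obtain ⟨C, hC0, hC⟩ := hA G
  obtain ⟨C', hC'0, hC'⟩ := hG.exists_pos
  rw [IsBigOWith] at hC'
  obtain ⟨H0, hH0⟩ := num_contra (C := C) A κ hκ hC'0
  have h1 := (S.tendsto (by omega)).eventually hC'
  have h2 : ∀ᶠ n : ℕ in atTop, H0 ≤ (n : ℝ) := tendsto_natCast_atTop_atTop.eventually_ge_atTop H0
  filter_upwards [h1, h2] with n h3 h4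
  by_cases h6 : e6 (S.t n) = 0
  · exact Or.inl h6
  right
  have h6' : E₆ (S.t n) ≠ 0 := by
    rwa [e6, ofComplex_apply] at h6
  rcases hC (S.H n) (S.a n) (S.b n) (S.c n) (S.t n) (by have := S.hH n; omega) (S.ha n) (S.haH n)
    (S.hbH n) (S.hcH n) (S.ht n) h6' with h5 | h5
  · exact h5
  exfalso
  have h7 : H0 ≤ (S.H n : ℝ) := by
    refine h4.trans ?_
    exact_mod_cast (by have := S.hH n; omega : n ≤ S.H n)
  have h8 := hH0 _ h7
  have h9 := S.hlt n
  rw [norm_sub_rev] at h9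
  have h10 : ‖MvPolynomial.aeval (V4 (S.t n)) G‖ ≤ C' * Real.exp (-(S.H n : ℝ) ^ κ) :=
    h3.trans (by gcongr)
  linarith

end H32.T3

end S_H32_T3_C3
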