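import Mathlib
import Pool.Agent.H32.AKM.P21

/-! Modular Schanuel with derivatives for points algebraic over a field with good approximations, part 22: this file joins several modules to save build time. -/

section S_H32_T3_A5

open UpperHalfPlane hiding I
open Complex EisensteinSeries ModularForm MatrixGroups
open scoped Real

namespace H32.T3

open Height Height.AdmissibleAbsValues Finset NumberField

/-- The third family. -/
noncomputable def xP (N : ℕ) (A : Matrix (Fin 2) (Fin 2) ℤ) (τ : ℍ) : ℂ :=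
  HA (fun τ ↦ E₄ τ) 4 N A τ * E₄ τ ^ 2

/-- The fourth family. -/
noncomputable def xQ (N : ℕ) (A : Matrix (Fin 2) (Fin 2) ℤ) (τ : ℍ) : ℂ :=
  HA (fun τ ↦ E₆ τ) 6 N A τ * E₆ τ

lemma WInv_xP {N : ℕ} (hN : 0 < N) (k : ℕ) :
    WInv (fun τ ↦ ∑ s ∈ SN N, xP N (toM s) τ ^ k) (12 * k) := by
  have hN' : (0 : ℤ) < N := by exact_mod_cast hN
  refine sum_WInv hN _ (fun A τ ↦ xP N A τ ^ k) (fun A hA γ τ ↦ ?_) (fun A hA γ τ ↦ ?_)
  · have hA' : 0 < A.det := hA ▸ hN'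
    simp only [xP, HA_left WInv_E4 hA']
  · have hA' : 0 < A.det := hA ▸ hN'
    have h4 := WInv_E4 γ τ
    simp only at h4
    simp only [xP, HA_right hA']
    rw [h4]
    have e : denom (γ : GL (Fin 2) ℝ) τ ^ 4 * HA (fun τ ↦ E₄ τ) 4 N (A * γ.1) τ *
        (denom (γ : GL (Fin 2) ℝ) τ ^ 4 * E₄ τ) ^ 2 =
        denom (γ : GL (Fin 2) ℝ) τ ^ 12 *
        (HA (fun τ ↦ E₄ τ) 4 N (A * γ.1) τ * E₄ τ ^ 2) := by ring
    rw [e, mul_pow, ← pow_mul]

lemma WInv_xQ {N : ℕ} (hN : 0 < N) (k : ℕ) :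
    WInv (fun τ ↦ ∑ s ∈ SN N, xQ N (toM s) τ ^ k) (12 * k) := by
  have hN' : (0 : ℤ) < N := by exact_mod_cast hN
  refine sum_WInv hN _ (fun A τ ↦ xQ N A τ ^ k) (fun A hA γ τ ↦ ?_) (fun A hA γ τ ↦ ?_)
  · have hA' : 0 < A.det := hA ▸ hN'
    simp only [xQ, HA_left WInv_E6 hA']
  · have hA' : 0 < A.det := hA ▸ hN'
    have h6 := WInv_E6 γ τ
    simp only at h6
    simp only [xQ, HA_right hA']
    rw [h6]
    have e : denom (γ : GL (Fin 2) ℝ) τ ^ 6 * HA (fun τ ↦ E₆ τ) 6 N (A * γ.1) τ *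
        (denom (γ : GL (Fin 2) ℝ) τ ^ 6 * E₆ τ) =
        denom (γ : GL (Fin 2) ℝ) τ ^ 12 *
        (HA (fun τ ↦ E₆ τ) 6 N (A * γ.1) τ * E₆ τ) := by ring
    rw [e, mul_pow, ← pow_mul]

lemma IntQ_xP {N : ℕ} (hN : 0 < N) (k : ℕ) :
    IntQ (fun τ ↦ ∑ s ∈ SN N, xP N (toM s) τ ^ k) := by
  have e1 : (fun τ ↦ ∑ s ∈ SN N, xP N (toM s) τ ^ k) = fun τ ↦
      (fun τ ↦ E₄ τ) τ ^ (2 * k) * ∑ s ∈ SN N, GG 0 k 0 N (toM s) τ := by
    ext τ
    rw [mul_sum]
    refine sum_congr rfl fun s _ ↦ ?_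
    unfold xP GG
    rw [mul_pow, ← pow_mul, pow_zero, pow_zero, one_mul, mul_one, mul_comm]
  rw [e1]
  exact IntQ.mul (IntQ_E4.pow _) (IntQ_sum _ _ _ hN)

lemma IntQ_xQ {N : ℕ} (hN : 0 < N) (k : ℕ) :
    IntQ (fun τ ↦ ∑ s ∈ SN N, xQ N (toM s) τ ^ k) := by
  have e1 : (fun τ ↦ ∑ s ∈ SN N, xQ N (toM s) τ ^ k) = fun τ ↦
      (fun τ ↦ E₆ τ) τ ^ k * ∑ s ∈ SN N, GG 0 0 k N (toM s) τ := by
    ext τ
    rw [mul_sum]
    refine sum_congr rfl fun s _ ↦ ?_
    unfold xQ GG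
    rw [mul_pow, pow_zero, pow_zero, one_mul, one_mul, mul_comm]
  rw [e1]
  exact IntQ.mul (IntQ_E6.pow _) (IntQ_sum _ _ _ hN)

open Polynomial in
theorem rel_PQ : ∃ K : ℝ, 1 ≤ K ∧ ∀ N : ℕ, 0 < N → ∃ rP rQ : ℕ → ℤ[X],
    rP (SN N).card = C (((SN N).card).factorial : ℤ) ∧
    rQ (SN N).card = C (((SN N).card).factorial : ℤ) ∧
    (∀ i, (rP i).natDegree ≤ 2 * (SN N).card) ∧ (∀ i, (rQ i).natDegree ≤ 2 * (SN N).card) ∧
    (∀ i, nr (rP i) ≤ Real.exp (K * N ^ 26)) ∧ (∀ i, nr (rQ i) ≤ Real.exp (K * N ^ 26)) ∧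
    (∀ (τ : ℍ) (u : ℂ), ∑ i ∈ range ((SN N).card + 1), aeval (jf τ) (rP i) * u ^ i =
        (((SN N).card).factorial : ℂ) *
          ∏ s ∈ SN N, (u - xP N (toM s) τ / discriminant τ ^ 1)) ∧
    (∀ (τ : ℍ) (u : ℂ), ∑ i ∈ range ((SN N).card + 1), aeval (jf τ) (rQ i) * u ^ i =
        (((SN N).card).factorial : ℂ) *
          ∏ s ∈ SN N, (u - xQ N (toM s) τ / discriminant τ ^ 1)) := by
  obtain ⟨Y, hY1, hY⟩ := near_inf
  obtain ⟨a, ha1, hb, hb'⟩ := line_bounds hY1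
  set δ : ℝ := Real.exp (-2 * π * Y) / 2 with hδ
  have hδ0 : 0 < δ := by positivity
  have hΔ : ∀ τ : ℍ, τ.im = Y → δ ≤ ‖discriminant τ‖ := by
    intro τ hτ
    have := (hY τ hτ.ge).1
    rw [norm_qq, hτ] at this
    exact this
  set C0 : ℝ := max 2 (max (2 * a ^ 3 / δ) (a ^ 3)) with hC0
  have h2 : 2 ≤ C0 := le_max_left _ _
  have h3 : 2 * a ^ 3 / δ ≤ C0 := (le_max_left _ _).trans (le_max_right _ _)
  have h4 : a ^ 3 ≤ C0 := (le_max_right _ _).trans (le_max_right _ _)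
  have ha0 : 0 < a := by linarith
  refine ⟨32 * a ^ 6 * C0, ?_, fun N hN ↦ ?_⟩
  · have : 1 ≤ a ^ 6 := one_le_pow₀ ha1
    nlinarith
  have hN1 : (1 : ℝ) ≤ N := by exact_mod_cast hN
  set L : ℝ := 2 * a ^ 6 * N ^ 18 with hL
  have hL1 : 1 ≤ L := by
    have h5 : 1 ≤ a ^ 6 := one_le_pow₀ ha1
    have h6 : (1 : ℝ) ≤ (N : ℝ) ^ 18 := one_le_pow₀ hN1
    rw [hL]
    nlinarith
  have hY0 : 0 < Y := by linarith
  have e2 : (N : ℝ) ^ 6 ≤ (N : ℝ) ^ 18 := pow_le_pow_right₀ hN1 (by norm_num)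
  have hL2 : a ^ 6 * N ^ 18 ≤ L := by
    rw [hL]
    have : 0 ≤ a ^ 6 * (N : ℝ) ^ 18 := by positivity
    linarith
  have hxP : ∀ s ∈ SN N, ∀ τ : ℍ, τ.im = Y → ‖xP N (toM s) τ‖ ≤ L := by
    intro s hs τ hτ
    obtain ⟨-, k2, -⟩ := hb N hN s hs τ hτ
    obtain ⟨-, l2, -⟩ := hb' τ hτ
    rw [xP, norm_mul, norm_pow]
    calc _ ≤ (a * N ^ 6) * a ^ 2 := by gcongr
      _ = a ^ 3 * N ^ 6 := by ring
      _ ≤ a ^ 6 * N ^ 18 := by
        have e1 : a ^ 3 ≤ a ^ 6 := pow_le_pow_right₀ ha1 (by norm_num)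
        gcongr
      _ ≤ L := hL2
  have hxQ : ∀ s ∈ SN N, ∀ τ : ℍ, τ.im = Y → ‖xQ N (toM s) τ‖ ≤ L := by
    intro s hs τ hτ
    obtain ⟨-, -, k3⟩ := hb N hN s hs τ hτ
    obtain ⟨-, -, l3⟩ := hb' τ hτ
    rw [xQ, norm_mul]
    calc _ ≤ (a * N ^ 6) * a := by gcongr
      _ = a ^ 2 * N ^ 6 := by ring
      _ ≤ a ^ 6 * N ^ 18 := by
        have e1 : a ^ 2 ≤ a ^ 6 := pow_le_pow_right₀ ha1 (by norm_num)
        gcongr
      _ ≤ L := hL2
  obtain ⟨rP, d1, d2, d3, d4⟩ := rel_of hN (xP N) 1 (by norm_num) (IntQ_xP hN)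
    (fun k ↦ by rw [one_mul]; exact WInv_xP hN k) hY0 hδ0 hΔ ha1
    (fun τ hτ ↦ (hb' τ hτ).2.1) h2 h3 h4 hL1 hxP
  obtain ⟨rQ, e1, e2, e3, e4⟩ := rel_of hN (xQ N) 1 (by norm_num) (IntQ_xQ hN)
    (fun k ↦ by rw [one_mul]; exact WInv_xQ hN k) hY0 hδ0 hΔ ha1
    (fun τ hτ ↦ (hb' τ hτ).2.1) h2 h3 h4 hL1 hxQ
  have hM : ((SN N).card : ℝ) ≤ (N : ℝ) ^ 2 := by exact_mod_cast card_SN_le hN
  have hbound : 16 * ((SN N).card : ℝ) ^ 3 * ((SN N).card * L * C0) ≤ 32 * a ^ 6 * C0 * N ^ 26 := by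
    have hL0 : 0 ≤ L := by linarith
    have hC00 : 0 ≤ C0 := by linarith
    calc 16 * ((SN N).card : ℝ) ^ 3 * ((SN N).card * L * C0)
        ≤ 16 * ((N : ℝ) ^ 2) ^ 3 * ((N : ℝ) ^ 2 * L * C0) := by gcongr
      _ = _ := by rw [hL]; ring
  exact ⟨rP, rQ, d1, e1, d2, e2, fun i ↦ (d3 i).trans (Real.exp_le_exp.mpr hbound),
    fun i ↦ (e3 i).trans (Real.exp_le_exp.mpr hbound), d4, e4⟩

/-- Evaluation at commensurable points. -/
lemma ratio_eval {p q r : ℤ} {N : ℕ} (hp : 0 < p) (hr : 0 < r) (hN : (N : ℤ) = p * r) (τ τ' : ℍ)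
    (h : (τ' : ℂ) = (p * τ + q) / r) : ∃ s ∈ SN N,
      xP N (toM s) τ = (p : ℂ) ^ 4 * E₄ τ' * E₄ τ ^ 2 ∧
      xQ N (toM s) τ = (p : ℂ) ^ 6 * E₆ τ' * E₆ τ := by
  have hN0 : 0 < N := by
    have : (0 : ℤ) < N := by rw [hN]; positivity
    exact_mod_cast this
  set g : Matrix (Fin 2) (Fin 2) ℤ := !![p, q; 0, r] with hg
  have hdet : g.det = N := by
    rw [hg, Matrix.det_fin_two_of, hN]; ring
  have hN' : (0 : ℤ) < N := by exact_mod_cast hN0
  have hpos : 0 < g.det := hdet ▸ hN'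
  have hr0 : (r : ℂ) ≠ 0 := by exact_mod_cast hr.ne'
  have hden : denom (toG g) τ = r := by
    rw [denom, toG_val hpos]
    simp [hg]
  have hfix : toG g • τ = τ' := by
    have h1 : 0 < (toG g).det.val := by
      rw [Matrix.GeneralLinearGroup.val_det_apply, det_toG hpos]; exact_mod_cast hpos
    ext
    rw [coe_smul_of_det_pos h1, hden, num, toG_val hpos, h]
    simp [hg]
  have hNc : (N : ℂ) = p * r := by
    have : ((N : ℤ) : ℂ) = ((p * r : ℤ) : ℂ) := by rw [hN]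
    push_cast at this
    exact this
  have hHA : ∀ (F : ℍ → ℂ) (k : ℕ), HA F k N g τ = (p : ℂ) ^ k * F τ' := by
    intro F k
    unfold HA
    rw [hfix, hden, hNc, mul_div_assoc, div_self hr0, mul_one]
  obtain ⟨s, hs, γ, hγ⟩ := exists_rep hN0 g hdet
  obtain ⟨ha', hd'⟩ := SN_pos hN0 hs
  have hposM := det_toM_pos ha' hd'
  have hHA2 : ∀ (F : ℍ → ℂ) (k : ℕ), WInv F k → HA F k N (toM s) τ = (p : ℂ) ^ k * F τ' := by
    intro F k hF
    rw [← hHA F k, hγ, HA_left hF hposM]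
  refine ⟨s, hs, ?_, ?_⟩
  · rw [xP, hHA2 _ _ WInv_E4]
  · rw [xQ, hHA2 _ _ WInv_E6]

end H32.T3

end S_H32_T3_A5

section S_H32_T3_A6

open UpperHalfPlane hiding I
open Complex EisensteinSeries ModularForm MatrixGroups
open scoped Real

namespace H32.T3

open Height Height.AdmissibleAbsValues Finset NumberField

/-- The logarithmic derivative of `j`, up to sign. -/
noncomputable def Wf (w : ℂ) : ℂ := 2 * π * I * e6 w / e4 w

lemma cm_uv {d w : ℕ} {u : ℤ} {v : ℕ} {s τ : ℂ} (hw : 1 ≤ w) (hs : s ^ 2 = -(d : ℂ))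
    (hτ : τ = (u + v * s) / w) :
    (((w : ℤ) ^ 2 : ℤ) : ℂ) * τ ^ 2 + ((-2 * u * w : ℤ) : ℂ) * τ +
      ((u ^ 2 + (v : ℤ) ^ 2 * d : ℤ) : ℂ) = 0 := by
  have hw0 : (w : ℂ) ≠ 0 := by
    have : w ≠ 0 := by omega
    exact_mod_cast this
  have h1 : (w : ℂ) * τ = u + v * s := by rw [hτ]; field_simp
  push_cast
  linear_combination (w * τ - u + v * s) * h1 + (v : ℂ) ^ 2 * hs

lemma cm_uv_bounds {H d w : ℕ} {u : ℤ} {v : ℕ} (hH : 2 ≤ H) (hd : d ≤ H) (hw1 : 1 ≤ w)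
    (hw : w ≤ H) (hu : |u| ≤ H) (hv : v ≤ H) :
    0 < (w : ℤ) ^ 2 ∧ |(w : ℤ) ^ 2| ≤ (H ^ 4 : ℕ) ∧ |-2 * u * (w : ℤ)| ≤ (H ^ 4 : ℕ) ∧
      |u ^ 2 + (v : ℤ) ^ 2 * d| ≤ (H ^ 4 : ℕ) := by
  have hHz : (2 : ℤ) ≤ H := by exact_mod_cast hH
  have hHz1 : (1 : ℤ) ≤ H := by linarith
  have hwz : (w : ℤ) ≤ H := by exact_mod_cast hw
  have hvz : (v : ℤ) ≤ H := by exact_mod_cast hv
  have hdz : (d : ℤ) ≤ H := by exact_mod_cast hd
  have hw0 : (0 : ℤ) < w := by exact_mod_cast hw1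
  have h24 : (H : ℤ) ^ 2 ≤ (H : ℤ) ^ 4 := pow_le_pow_right₀ hHz1 (by norm_num)
  have h2 : 2 * (H : ℤ) ^ 2 ≤ (H : ℤ) ^ 4 := by
    have : (H : ℤ) ^ 4 = (H : ℤ) ^ 2 * (H : ℤ) ^ 2 := by ring
    rw [this]
    have h3 : (2 : ℤ) ≤ (H : ℤ) ^ 2 := by
      calc (2 : ℤ) ≤ H := hHz
        _ ≤ (H : ℤ) ^ 2 := le_self_pow₀ hHz1 (by norm_num)
    gcongr
  have h3 : (H : ℤ) ^ 2 + (H : ℤ) ^ 3 ≤ (H : ℤ) ^ 4 := by
    have e1 : (H : ℤ) ^ 2 ≤ (H : ℤ) ^ 3 := pow_le_pow_right₀ hHz1 (by norm_num)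
    have e2 : 2 * (H : ℤ) ^ 3 ≤ (H : ℤ) ^ 4 := by
      have : (H : ℤ) ^ 4 = (H : ℤ) * (H : ℤ) ^ 3 := by ring
      rw [this]
      gcongr
    linarith
  refine ⟨by positivity, ?_, ?_, ?_⟩
  · rw [abs_of_nonneg (by positivity)]
    push_cast
    calc (w : ℤ) ^ 2 ≤ (H : ℤ) ^ 2 := by gcongr
      _ ≤ _ := h24
  · rw [abs_mul, abs_mul, abs_neg, abs_two, Nat.abs_cast]
    push_cast
    calc 2 * |u| * (w : ℤ) ≤ 2 * H * H := by gcongr
      _ = 2 * (H : ℤ) ^ 2 := by ring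
      _ ≤ _ := h2
  · rw [abs_of_nonneg (by positivity)]
    push_cast
    have h4 : u ^ 2 ≤ (H : ℤ) ^ 2 := sq_le_sq' (by linarith [neg_abs_le u]) (by linarith [le_abs_self u])
    calc u ^ 2 + (v : ℤ) ^ 2 * d ≤ (H : ℤ) ^ 2 + (H : ℤ) ^ 2 * H := by gcongr
      _ = (H : ℤ) ^ 2 + (H : ℤ) ^ 3 := by ring
      _ ≤ _ := h3

/-- Ratios of weight two quantities at commensurable CM points. -/
theorem ratio_heights : ∃ A : ℕ, ∀ (H d w : ℕ) (u0 u : ℤ) (v0 v : ℕ) (s : ℂ) (τ0 τ : ℍ), 2 ≤ H →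
    d ≤ H → 1 ≤ w → w ≤ H → |u0| ≤ H → |u| ≤ H → 1 ≤ v0 → v0 ≤ H → 1 ≤ v → v ≤ H →
    s ^ 2 = -(d : ℂ) → (τ0 : ℂ) = (u0 + v0 * s) / w → (τ : ℂ) = (u + v * s) / w →
    E₄ τ0 ≠ 0 → E₆ τ0 ≠ 0 → E₄ τ ≠ 0 → E₆ τ ≠ 0 →
    ∃ K : IntermediateField ℚ ℂ, FiniteDimensional ℚ K ∧ Module.finrank ℚ K ≤ H ^ A ∧
      ∀ (L : Type) [Field L] [NumberField L] (σ : L →+* ℂ), (∀ x ∈ K, ∃ y, σ y = x) →
        ∃ β : L, σ β = Wf τ / Wf τ0 ∧ HB ((H : ℝ) ^ A) β := by
  obtain ⟨A, hA⟩ := cm_heights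
  obtain ⟨KK, hKK1, hKK⟩ := rel_PQ
  set k0 : ℕ := ⌈KK⌉₊ with hk0
  have hKk : KK ≤ 2 ^ k0 := by
    have h1 : KK ≤ (k0 : ℝ) := Nat.le_ceil KK
    have h2 : (k0 : ℝ) ≤ 2 ^ k0 := by exact_mod_cast (Nat.lt_two_pow_self (n := k0)).le
    exact h1.trans h2
  refine ⟨k0 + 4 * A + 120, fun H d w u0 u v0 v s τ0 τ hH hd hw1 hw hu0 hu hv01 hv0 hv1 hv hs
    hτ0 hτ h40 h60 h4 h6 ↦ ?_⟩
  have hH1 : 1 ≤ H := by omega
  obtain ⟨c1, c2, c3, c4⟩ := cm_uv_bounds hH hd hw1 hw hu0 hv0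
  have hH4 : 2 ≤ H ^ 4 := hH.trans (Nat.le_self_pow (by norm_num) H)
  obtain ⟨K0, hK0, hK0A, hL0⟩ := hA (H ^ 4) _ _ _ τ0 hH4 c1 c2 c3 c4 (cm_uv hw1 hs hτ0) h60
  -- the matrix
  set p : ℤ := v * w with hp
  set q : ℤ := u * v0 - v * u0 with hq
  set r : ℤ := v0 * w with hr
  set N : ℕ := (v * w) * (v0 * w) with hN
  have hp0 : 0 < p := by rw [hp]; positivity
  have hr0 : 0 < r := by rw [hr]; positivity
  have hNpr : (N : ℤ) = p * r := by rw [hN, hp, hr]; push_cast; ring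
  have hN0 : 0 < N := by rw [hN]; positivity
  have hw0 : (w : ℂ) ≠ 0 := by
    have : w ≠ 0 := by omega
    exact_mod_cast this
  have hv0' : (v0 : ℂ) ≠ 0 := by
    have : v0 ≠ 0 := by omega
    exact_mod_cast this
  have hττ : (τ : ℂ) = (p * τ0 + q) / r := by
    rw [hτ, hτ0, hp, hq, hr]
    push_cast
    field_simp
    ring
  obtain ⟨ss, hss, hsP, hsQ⟩ := ratio_eval hp0 hr0 hNpr τ0 τ hττ
  obtain ⟨rP, rQ, m1, m2, dP, dQ, nP, nQ, eP, eQ⟩ := hKK N hN0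
  set M := (SN N).card with hM
  have hpow : ∀ {i j : ℕ}, i ≤ j → H ^ i ≤ H ^ j := fun hij ↦ Nat.pow_le_pow_right hH1 hij
  have hN4 : N ≤ H ^ 4 := by
    calc N ≤ (H * H) * (H * H) := by rw [hN]; gcongr
      _ = H ^ 4 := by ring
  have hM8 : M ≤ H ^ 8 := by
    calc M ≤ N ^ 2 := card_SN_le hN0
      _ ≤ (H ^ 4) ^ 2 := Nat.pow_le_pow_left hN4 2
      _ = H ^ 8 := by ring
  have h2M : 2 * M ≤ H ^ 9 := by
    calc 2 * M ≤ H * H ^ 8 := Nat.mul_le_mul hH hM8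
      _ = H ^ 9 := by ring
  set S : ℝ := (H : ℝ) ^ (k0 + 104) with hS
  have hHr : (2 : ℝ) ≤ H := by exact_mod_cast hH
  have hHr1 : (1 : ℝ) ≤ H := by linarith
  have hexp : Real.exp (KK * (N : ℝ) ^ 26) ≤ Real.exp S := by
    apply Real.exp_le_exp.mpr
    have h1 : (N : ℝ) ≤ (H : ℝ) ^ 4 := by exact_mod_cast hN4
    calc KK * (N : ℝ) ^ 26 ≤ 2 ^ k0 * ((H : ℝ) ^ 4) ^ 26 := by gcongr
      _ ≤ (H : ℝ) ^ k0 * ((H : ℝ) ^ 4) ^ 26 := by gcongr
      _ = _ := by rw [hS, ← pow_mul, ← pow_add]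
  set P : ℂ := (p : ℂ) ^ 4 * E₄ τ * E₄ τ0 ^ 2 / discriminant τ0 with hP
  set Q : ℂ := (p : ℂ) ^ 6 * E₆ τ * E₆ τ0 / discriminant τ0 with hQ
  have hrelP : ∑ i ∈ range (M + 1), Polynomial.aeval (jf τ0) (rP i) * P ^ i = 0 := by
    rw [eP, prod_eq_zero hss, mul_zero]
    rw [hsP, pow_one, sub_self]
  have hrelQ : ∑ i ∈ range (M + 1), Polynomial.aeval (jf τ0) (rQ i) * Q ^ i = 0 := by
    rw [eQ, prod_eq_zero hss, mul_zero]
    rw [hsQ, pow_one, sub_self]
  have hfac : ((M.factorial : ℤ)) ≠ 0 := by exact_mod_cast Nat.factorial_ne_zero _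
  -- one more root
  have stepr : ∀ (K : IntermediateField ℚ ℂ) (_ : FiniteDimensional ℚ K) (_ : jf τ0 ∈ K)
      (r : ℕ → Polynomial ℤ) (_ : r M = Polynomial.C (M.factorial : ℤ)) (x : ℂ)
      (_ : ∑ i ∈ range (M + 1), Polynomial.aeval (jf τ0) (r i) * x ^ i = 0),
      ∃ K' : IntermediateField ℚ ℂ, K ≤ K' ∧ x ∈ K' ∧ FiniteDimensional ℚ K' ∧
        Module.finrank ℚ K' ≤ Module.finrank ℚ K * M := by
    intro K hK hj r hr x hx
    set f : Polynomial K := ∑ i ∈ range (M + 1),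
      Polynomial.C (Polynomial.aeval (⟨jf τ0, hj⟩ : K) (r i)) * Polynomial.X ^ i with hf
    have hfd : f.natDegree ≤ M := by
      refine Polynomial.natDegree_sum_le_of_forall_le _ _ fun i hi ↦ ?_
      exact (Polynomial.natDegree_C_mul_X_pow_le _ _).trans (Nat.lt_succ_iff.mp (mem_range.mp hi))
    have hcoe : ∀ p : Polynomial ℤ, ((Polynomial.aeval (⟨jf τ0, hj⟩ : K) p : K) : ℂ) =
        Polynomial.aeval (jf τ0) p := by
      intro p
      have := Polynomial.aeval_algebraMap_apply ℂ (⟨jf τ0, hj⟩ : K) p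
      exact this.symm
    have hf0 : f ≠ 0 := by
      intro h0
      have h1 := congrArg (fun p ↦ p.coeff M) h0
      simp only [hf, Polynomial.finsetSum_coeff, Polynomial.coeff_C_mul, Polynomial.coeff_X_pow,
        Polynomial.coeff_zero] at h1
      rw [sum_eq_single M] at h1
      · rw [if_pos rfl, mul_one, hr, Polynomial.aeval_C, algebraMap_int_eq, eq_intCast] at h1
        exact hfac (by exact_mod_cast h1)
      · intro i _ hi
        rw [if_neg (Ne.symm hi), mul_zero]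
      · intro hM
        exact absurd (mem_range.mpr (Nat.lt_succ_self M)) hM
    obtain ⟨K', a1, a2, a3, a4⟩ := one_step K x f hf0 (by
      rw [hf, map_sum, ← hx]
      refine sum_congr rfl fun i _ ↦ ?_
      rw [map_mul, Polynomial.aeval_C, map_pow, Polynomial.aeval_X]
      congr 1
      exact hcoe _)
    exact ⟨K', a1, a2, a3, a4.trans (Nat.mul_le_mul_left _ hfd)⟩
  have hNF : NumberField K0 := { to_charZero := inferInstance, to_finiteDimensional := hK0 }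
  have hjK : jf τ0 ∈ K0 := by
    obtain ⟨t, tb, J, φ, h1, h2, h3, h4, -, -, -, -⟩ := hL0 K0 (algebraMap K0 ℂ)
      (fun x hx ↦ ⟨⟨x, hx⟩, rfl⟩)
    rw [← h3]
    exact J.2
  obtain ⟨K1, hK1, hPK, hf1, hd1⟩ := stepr K0 hK0 hjK rP m1 P hrelP
  obtain ⟨K2, hK2, hQK, hf2, hd2⟩ := stepr K1 hf1 (hK1 hjK) rQ m2 Q hrelQ
  refine ⟨K2, hf2, ?_, fun L _ _ σ hσ ↦ ?_⟩
  · calc Module.finrank ℚ K2 ≤ ((H ^ 4) ^ A * H ^ 8) * H ^ 8 := by
          refine hd2.trans (Nat.mul_le_mul ?_ hM8)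
          exact hd1.trans (Nat.mul_le_mul hK0A hM8)
      _ = H ^ (4 * A + 16) := by ring
      _ ≤ _ := hpow (by omega)
  obtain ⟨t, tb, J, φ, -, -, hJ, -, -, -, bJ, -⟩ := hL0 L σ (fun x hx ↦ hσ x (hK2 (hK1 hx)))
  obtain ⟨yP, hyP⟩ := hσ P (hK2 hPK)
  obtain ⟨yQ, hyQ⟩ := hσ Q hQK
  have hinj : Function.Injective σ := σ.injective
  set R : ℝ := (H : ℝ) ^ (k0 + 4 * A + 104) with hR
  have hT : (((H ^ 4 : ℕ) : ℝ)) ^ A ≤ R := by
    rw [hR]
    push_cast
    rw [← pow_mul]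
    exact pow_le_pow_right₀ hHr1 (by omega)
  have hrp : ∀ {i j : ℕ}, i ≤ j → (H : ℝ) ^ i ≤ (H : ℝ) ^ j := fun hij ↦
    pow_le_pow_right₀ hHr1 hij
  have hSR : S ≤ R := hrp (by omega)
  have hMR : (M : ℝ) ≤ R := by
    have : (M : ℝ) ≤ (H : ℝ) ^ 8 := by exact_mod_cast hM8
    exact this.trans (hrp (by omega))
  have hDT : ((2 * M : ℕ) : ℝ) * (((H ^ 4 : ℕ) : ℝ)) ^ A ≤ R := by
    have h1 : ((2 * M : ℕ) : ℝ) ≤ (H : ℝ) ^ 9 := by exact_mod_cast h2M
    calc ((2 * M : ℕ) : ℝ) * (((H ^ 4 : ℕ) : ℝ)) ^ A ≤ (H : ℝ) ^ 9 * (((H ^ 4 : ℕ) : ℝ)) ^ A := by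
          gcongr
      _ = (H : ℝ) ^ (4 * A + 9) := by push_cast; ring
      _ ≤ R := hrp (by omega)
  have rootb : ∀ (r : ℕ → Polynomial ℤ) (_ : r M = Polynomial.C (M.factorial : ℤ))
      (_ : ∀ i, (r i).natDegree ≤ 2 * M) (_ : ∀ i, nr (r i) ≤ Real.exp (KK * (N : ℝ) ^ 26))
      (x : ℂ) (_ : ∑ i ∈ range (M + 1), Polynomial.aeval (jf τ0) (r i) * x ^ i = 0)
      (y : L) (_ : σ y = x), HB (3 * R) y := by
    intro r hr hrd hrn x hx y hy
    have h := HB.root (ι := Fin 1) (x := fun _ ↦ J) (fun _ ↦ bJ) (n := M) (fun j ↦ mv (r j))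
      (D := 2 * M) (fun j ↦ (deg_mv _).trans (hrd j)) (B := Real.exp S)
      (Real.one_le_exp (by positivity))
      (fun j ↦ (nrm_mv _).trans ((hrn j).trans hexp)) y ?_ ?_
    · refine h.mono ?_
      rw [Real.log_exp]
      simp only [Fintype.card_fin, Nat.cast_one, one_mul]
      linarith
    · rw [aeval_mv, hr, Polynomial.aeval_C, algebraMap_int_eq, eq_intCast, Int.cast_ne_zero]
      exact hfac
    · apply hinj
      rw [map_zero, map_sum, ← hx]
      refine sum_congr rfl fun i _ ↦ ?_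
      rw [aeval_mv, map_mul, map_pow, hy]
      congr 1
      rw [Polynomial.aeval_eq_sum_range, Polynomial.aeval_eq_sum_range, map_sum]
      refine sum_congr rfl fun k _ ↦ ?_
      rw [zsmul_eq_mul, zsmul_eq_mul, map_mul, map_pow, hJ, map_intCast]
  have bP := rootb rP m1 dP nP P hrelP yP hyP
  have bQ := rootb rQ m2 dQ nQ Q hrelQ yQ hyQ
  have hp2 : HB R ((p ^ 2 : ℤ) : L) := (HB.int (p ^ 2)).mono (by
    have h1 : (p : ℝ) ≤ (H : ℝ) ^ 2 := by
      rw [hp]; push_cast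
      have e1 : (v : ℝ) ≤ H := by exact_mod_cast hv
      have e2 : (w : ℝ) ≤ H := by exact_mod_cast hw
      calc (v : ℝ) * w ≤ H * H := by gcongr
        _ = _ := by ring
    have hp0' : (0 : ℝ) ≤ p := by exact_mod_cast hp0.le
    push_cast
    rw [abs_of_nonneg (by positivity)]
    calc (p : ℝ) ^ 2 ≤ ((H : ℝ) ^ 2) ^ 2 := by gcongr
      _ = (H : ℝ) ^ 4 := by ring
      _ ≤ R := hrp (by omega))
  have h1728 : HB 1728 ((1728 : ℤ) : L) := (HB.int 1728).mono (by norm_num)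
  have hβ := ((bQ.div bP).div hp2).mul (bJ.div (bJ.sub h1728))
  refine ⟨_, ?_, hβ.mono ?_⟩
  · rw [map_mul, map_div₀, map_div₀, map_div₀, map_sub, hyP, hyQ, hJ, map_intCast, map_intCast]
    have hΔ := discriminant_ne_zero τ0
    have hj := jf_sub τ0
    have hj2 := jf_mul τ0
    have hJ1728 : jf τ0 - 1728 ≠ 0 := by
      intro h0
      rw [h0, zero_mul] at hj
      exact pow_ne_zero 2 h60 hj.symm
    have hh : jf τ0 / (jf τ0 - ((1728 : ℤ) : ℂ)) = E₄ τ0 ^ 3 / E₆ τ0 ^ 2 := by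
      push_cast
      rw [← hj2, ← hj]
      field_simp
    rw [hh, hP, hQ, Wf, Wf, e4, e6, e4, e6, ofComplex_apply, ofComplex_apply]
    have hpi : (π : ℂ) ≠ 0 := by exact_mod_cast Real.pi_ne_zero
    have hpc : (p : ℂ) ≠ 0 := by exact_mod_cast hp0.ne'
    have hI := Complex.I_ne_zero
    push_cast
    field_simp
  · have hR1 : 1 ≤ R := one_le_pow₀ hHr1
    have h1 : (2000 : ℝ) ≤ (H : ℝ) ^ 11 := by
      calc (2000 : ℝ) ≤ 2 ^ 11 := by norm_num
        _ ≤ _ := by gcongr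
    calc _ ≤ 2000 * R := by linarith
      _ ≤ (H : ℝ) ^ 11 * R := by gcongr
      _ = (H : ℝ) ^ (k0 + 4 * A + 115) := by rw [hR]; ring
      _ ≤ _ := hrp (by omega)

end H32.T3

end S_H32_T3_A6

section S_H32_T3_C4

open UpperHalfPlane hiding I
open Complex EisensteinSeries ModularForm MatrixGroups Manifold
open scoped Real Topology

namespace H32.T3

open Finset Filter Asymptotics

lemma e6_ev {z : ℂ} (hz : 0 < z.im) : ∀ᶠ w in 𝓝[≠] z, e6 w ≠ 0 := by
  rcases (analytic_E6 z hz).eventually_eq_zero_or_eventually_ne_zero with h | h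
  · exfalso
    apply E6_not_zero
    exact analytic_E6.eqOn_zero_of_preconnected_of_eventuallyEq_zero preconnected_H hz h
  · exact h

lemma e4_ev {z : ℂ} (hz : 0 < z.im) : ∀ᶠ w in 𝓝[≠] z, e4 w ≠ 0 := by
  rcases (analytic_E4 z hz).eventually_eq_zero_or_eventually_ne_zero with h | h
  · exfalso
    have h0 := analytic_E4.eqOn_zero_of_preconnected_of_eventuallyEq_zero preconnected_H hz h
    have h1 : ∀ τ : ℍ, E₄ τ = 0 := fun τ ↦ by
      have := h0 τ.im_pos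
      simpa [ofComplex_apply] using this
    apply E_ne_zero (k := 4) (by norm_num) ⟨2, rfl⟩
    ext τ
    exact h1 τ
  · exact h

lemma hasDeriv_jc {w : ℂ} (hw : 0 < w.im) : HasDerivAt jc (J1 w) w := hasDeriv_J hw

lemma jc_eq_1728 {w : ℂ} : jc w = 1728 ↔ e6 w = 0 := by
  have hd := disc_ne (w := w)
  rw [jc, div_eq_iff hd]
  constructor
  · intro h
    have : e6 w ^ 2 = 0 := by linear_combination (1 / 1728 : ℂ) * h
    exact pow_eq_zero_iff (two_ne_zero) |>.mp this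
  · intro h
    rw [h]; ring

lemma jc_eq_zero {w : ℂ} : jc w = 0 ↔ e4 w = 0 := by
  have hd := disc_ne (w := w)
  rw [jc, div_eq_zero_iff, or_iff_left hd]
  constructor
  · intro h
    have : e4 w ^ 3 = 0 := by linear_combination (1 / 1728 : ℂ) * h
    exact pow_eq_zero_iff (three_ne_zero) |>.mp this
  · intro h
    rw [h]; ring

theorem e46_ne : ∃ A : ℕ, ∀ (κ : ℕ), A < κ → ∀ (z : ℂ) (_ : Apx κ z), 0 < z.im →
    e4 z ≠ 0 ∧ e6 z ≠ 0 := by
  obtain ⟨A, hA⟩ := transfer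
  refine ⟨A, fun κ hκ z S hz ↦ ?_⟩
  have hb := (hasDeriv_jc hz).differentiableAt.isBigO_sub
  have hT := S.tendsto_ne (by omega)
  constructor
  · intro h0
    have h1 := hA κ hκ z S (MvPolynomial.X 2) (by
      have e : jc z = 0 := jc_eq_zero.mpr h0
      rw [e] at hb
      simpa [V4] using hb)
    have h2 := hT.eventually (e6_ev hz)
    have h3 := hT.eventually (e4_ev hz)
    obtain ⟨n, h4, h5, h6⟩ := (h1.and (h2.and h3)).exists
    rcases h4 with h4 | h4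
    · exact h5 h4
    · rw [MvPolynomial.aeval_X] at h4
      exact h6 (jc_eq_zero.mp h4)
  · intro h0
    have h1 := hA κ hκ z S (MvPolynomial.X 2 - MvPolynomial.C 1728) (by
      have e : jc z = 1728 := jc_eq_1728.mpr h0
      rw [e] at hb
      refine hb.congr_left fun w ↦ ?_
      rw [map_sub, MvPolynomial.aeval_X, MvPolynomial.aeval_C]
      simp [V4])
    have h2 := hT.eventually (e6_ev hz)
    obtain ⟨n, h4, h5⟩ := (h1.and h2).exists
    rcases h4 with h4 | h4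
    · exact h5 h4
    · rw [map_sub, MvPolynomial.aeval_X, MvPolynomial.aeval_C] at h4
      have h6 : jc (S.t n) - 1728 = 0 := by simpa [V4] using h4
      exact h5 (jc_eq_1728.mp (sub_eq_zero.mp h6))

lemma diff_V4 {z : ℂ} (hz : 0 < z.im) (h6 : e6 z ≠ 0) (i : Fin 4) :
    DifferentiableAt ℝ (fun w ↦ V4 w i) z := by
  have d4 : DifferentiableAt ℝ e4 z := (hasDeriv_e4 hz).differentiableAt.restrictScalars ℝ
  have d6 : DifferentiableAt ℝ e6 z := (hasDeriv_e6 hz).differentiableAt.restrictScalars ℝ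
  have d2 : DifferentiableAt ℝ e2 z := (analytic_E2 z hz).differentiableAt.restrictScalars ℝ
  have dj : DifferentiableAt ℝ jc z := (hasDeriv_jc hz).differentiableAt.restrictScalars ℝ
  fin_cases i
  · exact differentiableAt_id
  · exact Complex.conjCLE.differentiableAt
  · exact dj
  · have him : DifferentiableAt ℝ (fun w : ℂ ↦ ((w.im : ℝ) : ℂ)) z :=
      (Complex.ofRealCLM.differentiableAt).comp z Complex.imCLM.differentiableAt
    have hpi : (π : ℂ) ≠ 0 := by exact_mod_cast Real.pi_ne_zero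
    have hy : (π : ℂ) * ((z.im : ℝ) : ℂ) ≠ 0 := mul_ne_zero hpi (by exact_mod_cast hz.ne')
    have h0 : DifferentiableAt ℝ (fun w : ℂ ↦ ((π : ℂ) * ((w.im : ℝ) : ℂ))⁻¹) z :=
      ((differentiableAt_const _).mul him).inv hy
    have h1 : DifferentiableAt ℝ (fun w : ℂ ↦ (3 : ℂ) * (π * ((w.im : ℝ) : ℂ))⁻¹) z :=
      (differentiableAt_const _).mul h0
    have h2 := ((d2.sub h1).mul d4).mul (d6.inv h6)
    exact h2

lemma diff_aeval {z : ℂ} (hz : 0 < z.im) (h6 : e6 z ≠ 0) (G : MvPolynomial (Fin 4) ℤ) :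
    DifferentiableAt ℝ (fun w ↦ MvPolynomial.aeval (V4 w) G) z := by
  induction G using MvPolynomial.induction_on with
  | C c =>
    simp only [MvPolynomial.aeval_C]
    exact differentiableAt_const _
  | add p q hp hq =>
    simp only [map_add]
    exact hp.add hq
  | mul_X p i hp =>
    simp only [map_mul, MvPolynomial.aeval_X]
    exact hp.mul (diff_V4 hz h6 i)

lemma rel_bigO {z : ℂ} (hz : 0 < z.im) (h6 : e6 z ≠ 0) (G : MvPolynomial (Fin 4) ℤ)
    (h : MvPolynomial.aeval (V4 z) G = 0) :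
    (fun w ↦ MvPolynomial.aeval (V4 w) G) =O[𝓝 z] (fun w ↦ w - z) := by
  have h1 := (diff_aeval hz h6 G).isBigO_sub
  rw [h] at h1
  simpa using h1

/-- All relations at `z` hold at the CM points. -/
theorem transfer' : ∃ A : ℕ, ∀ (κ : ℕ), A < κ → ∀ (z : ℂ) (S : Apx κ z), 0 < z.im →
    ∀ (G : MvPolynomial (Fin 4) ℤ), MvPolynomial.aeval (V4 z) G = 0 →
    ∀ᶠ n in atTop, MvPolynomial.aeval (V4 (S.t n)) G = 0 := by
  obtain ⟨A, hA⟩ := transfer
  obtain ⟨A', hA'⟩ := e46_ne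
  refine ⟨A + A', fun κ hκ z S hz G hG ↦ ?_⟩
  have h6 := (hA' κ (by omega) z S hz).2
  have h1 := hA κ (by omega) z S G (rel_bigO hz h6 G hG)
  have h2 := (S.tendsto_ne (by omega)).eventually (e6_ev hz)
  filter_upwards [h1, h2] with n h3 h4
  exact h3.resolve_left h4

end H32.T3

end S_H32_T3_C4

section S_H32_T3_C5

open UpperHalfPlane hiding I
open Complex EisensteinSeries ModularForm MatrixGroups Manifold
open scoped Real Topology

namespace H32.T3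

open Filter

/-- An ultrapower of `ℂ`. -/
def Ult : Type := Germ ((hyperfilter ℕ : Ultrafilter ℕ) : Filter ℕ) ℂ

noncomputable instance : Field Ult :=
  inferInstanceAs (Field (Germ ((hyperfilter ℕ : Ultrafilter ℕ) : Filter ℕ) ℂ))

/-- The class of a sequence. -/
noncomputable def mkU : (ℕ → ℂ) →+* Ult :=
  Germ.coeRingHom ((hyperfilter ℕ : Ultrafilter ℕ) : Filter ℕ)

noncomputable instance : Algebra ℂ Ult := (mkU.comp (Pi.constRingHom ℕ ℂ)).toAlgebra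

lemma algebraMap_Ult (c : ℂ) : algebraMap ℂ Ult c = mkU (fun _ ↦ c) := rfl

lemma mkU_eq_zero {s : ℕ → ℂ} : mkU s = 0 ↔
    ∀ᶠ n in ((hyperfilter ℕ : Ultrafilter ℕ) : Filter ℕ), s n = 0 := by
  change ((s : ℕ → ℂ) : Germ ((hyperfilter ℕ : Ultrafilter ℕ) : Filter ℕ) ℂ) =
    ((0 : ℕ → ℂ) : Germ ((hyperfilter ℕ : Ultrafilter ℕ) : Filter ℕ) ℂ) ↔ _
  rw [Germ.coe_eq]
  rfl

lemma mkU_zero_of_ev {s : ℕ → ℂ} (h : ∀ᶠ n in atTop, s n = 0) : mkU s = 0 :=
  mkU_eq_zero.mpr (h.filter_mono (by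
    rw [← Nat.cofinite_eq_atTop]; exact hyperfilter_le_cofinite))

lemma freq_of_mkU_zero {s : ℕ → ℂ} (h : mkU s = 0) : ∃ᶠ n in atTop, s n = 0 := by
  have h1 := (mkU_eq_zero.mp h).frequently
  refine h1.filter_mono ?_
  rw [← Nat.cofinite_eq_atTop]
  exact hyperfilter_le_cofinite

lemma aeval_mkU {m : ℕ} (v : Fin m → ℕ → ℂ) (P : MvPolynomial (Fin m) ℂ) :
    MvPolynomial.aeval (fun i ↦ mkU (v i)) P = mkU (fun n ↦ MvPolynomial.aeval (fun i ↦ v i n) P) := by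
  induction P using MvPolynomial.induction_on with
  | C c =>
    simp only [MvPolynomial.aeval_C]
    rfl
  | add p q hp hq =>
    simp only [map_add, hp, hq]
    rw [← map_add]
    rfl
  | mul_X p i hp =>
    simp only [map_mul, MvPolynomial.aeval_X, hp]
    rw [← map_mul]
    rfl

lemma aeval_mkUZ {m : ℕ} (v : Fin m → ℕ → ℂ) (P : MvPolynomial (Fin m) ℤ) :
    MvPolynomial.aeval (fun i ↦ mkU (v i)) P = mkU (fun n ↦ MvPolynomial.aeval (fun i ↦ v i n) P) := by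
  induction P using MvPolynomial.induction_on with
  | C c =>
    simp only [MvPolynomial.aeval_C]
    rw [algebraMap_int_eq, algebraMap_int_eq, eq_intCast, eq_intCast, ← map_intCast mkU]
    rfl
  | add p q hp hq =>
    simp only [map_add, hp, hq]
    rw [← map_add]
    rfl
  | mul_X p i hp =>
    simp only [map_mul, MvPolynomial.aeval_X, hp]
    rw [← map_mul]
    rfl

lemma extract_indep' {R A : Type} [Field R] [Field A] [Algebra R A] {ι : Type} [Finite ι]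
    (S : ι → A) {B : Set A}
    (hB : AlgebraicIndependent R (fun b : B ↦ (b : A))) (hBS : B ⊆ Set.range S) {N : ℕ}
    (hN : (N : ℕ∞) ≤ B.encard) :
    ∃ f : Fin N → ι, AlgebraicIndependent R (fun k ↦ S (f k)) := by
  classical
  have hBfin : B.Finite := (Set.finite_range S).subset hBS
  have hfin : Fintype B := hBfin.fintype
  have h6 : Fintype.card (Fin N) ≤ Fintype.card B := by
    rw [Fintype.card_fin, ← Nat.card_eq_fintype_card]
    change N ≤ B.ncard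
    rw [hBfin.encard_eq_coe_toFinset_card] at hN
    rw [Set.ncard_eq_toFinset_card B hBfin]
    exact_mod_cast hN
  obtain ⟨g⟩ := Function.Embedding.nonempty_of_card_le h6
  choose f hf using fun k ↦ hBS (g k).2
  refine ⟨f, ?_⟩
  have h7 := hB.comp g g.injective
  convert h7 using 1
  ext k
  exact hf k

/-- If `w, e2, e4, e6` are independent then three of `w, x, J, φ` are. -/
lemma three_of_four {R A : Type} [Field R] [Field A] [Algebra R A] {w x J φ ψ e2 e4 e6 : A}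
    (hX : AlgebraicIndependent R ![w, e2, e4, e6]) {p q : R} (hp : p ≠ 0) (hq : q ≠ 0)
    (h4 : e4 ≠ 0) (h6 : e6 ≠ 0) (h12 : (1728 : R) ≠ 0) (hA : (ψ - φ) * (w - x) * algebraMap R A p * e6 =
      algebraMap R A q * e4) (hB : J * (e4 ^ 3 - e6 ^ 2) = algebraMap R A 1728 * e4 ^ 3)
    (hC : ψ * e6 = e2 * e4) :
    ∃ f : Fin 3 → Fin 4, AlgebraicIndependent R (fun k ↦ ![w, x, J, φ] (f k)) := by
  set M := AlgebraicIndependent.matroid R A with hM
  set S : Fin 4 → A := ![w, x, J, φ] with hS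
  have hind : M.Indep (Set.range ![w, e2, e4, e6]) := by
    rw [hM, AlgebraicIndependent.matroid_indep_iff]
    exact hX.to_subtype_range
  have hcard : (Set.range ![w, e2, e4, e6]).encard = 4 := by
    rw [← Set.image_univ, hX.injective.encard_image, Set.encard_univ]
    simp
  set D : Subalgebra R A := Algebra.adjoin R (insert ψ (Set.range S)) with hD
  have hgen : ∀ v ∈ insert ψ (Set.range S), IsAlgebraic D v := by
    intro v hv
    exact isAlgebraic_algebraMap (⟨v, Algebra.subset_adjoin hv⟩ : D)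
  have aw : IsAlgebraic D w := hgen _ (Set.mem_insert_of_mem _ ⟨0, rfl⟩)
  have ax : IsAlgebraic D x := hgen _ (Set.mem_insert_of_mem _ ⟨1, rfl⟩)
  have aJ : IsAlgebraic D J := hgen _ (Set.mem_insert_of_mem _ ⟨2, rfl⟩)
  have aφ : IsAlgebraic D φ := hgen _ (Set.mem_insert_of_mem _ ⟨3, rfl⟩)
  have aψ : IsAlgebraic D ψ := hgen _ (Set.mem_insert _ _)
  have aR : ∀ r : R, IsAlgebraic D (algebraMap R A r) := fun r ↦ by
    rw [IsScalarTower.algebraMap_apply R D A]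
    exact isAlgebraic_algebraMap _
  have hp' : algebraMap R A p ≠ 0 := (map_ne_zero _).mpr hp
  have hq' : algebraMap R A q ≠ 0 := (map_ne_zero _).mpr hq
  have h12' : algebraMap R A 1728 ≠ 0 := (map_ne_zero _).mpr h12
  set ρ := e4 / e6 with hρ
  have hρ0 : ρ ≠ 0 := div_ne_zero h4 h6
  have aρ : IsAlgebraic D ρ := by
    have e : ρ = (ψ - φ) * (w - x) * algebraMap R A p * (algebraMap R A q)⁻¹ := by
      rw [hρ, div_eq_iff h6, ← mul_right_inj' hq', ← hA]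
      field_simp
    rw [e]
    exact (((aψ.sub aφ).mul (aw.sub ax)).mul (aR p)).mul (aR q).inv
  have hJ0 : J - algebraMap R A 1728 ≠ 0 := by
    intro h0
    have e : J = algebraMap R A 1728 := sub_eq_zero.mp h0
    rw [e, mul_right_inj' h12'] at hB
    have : e6 ^ 2 = 0 := by linear_combination -hB
    exact pow_ne_zero 2 h6 this
  have a4 : IsAlgebraic D e4 := by
    have e : e4 = J * (J - algebraMap R A 1728)⁻¹ * ρ⁻¹ ^ 2 := by
      rw [hρ]
      field_simp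
      linear_combination hB
    rw [e]
    exact (aJ.mul (aJ.sub (aR 1728)).inv).mul (aρ.inv.pow 2)
  have a6 : IsAlgebraic D e6 := by
    have e : e6 = e4 * ρ⁻¹ := by
      rw [hρ]; field_simp
    rw [e]
    exact a4.mul aρ.inv
  have a2 : IsAlgebraic D e2 := by
    have e : e2 = ψ * ρ⁻¹ := by
      rw [hρ]
      field_simp
      linear_combination -hC
    rw [e]
    exact aψ.mul aρ.inv
  have hsub : Set.range ![w, e2, e4, e6] ⊆ M.closure (insert ψ (Set.range S)) := by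
    rw [hM, AlgebraicIndependent.matroid_closure_eq]
    rintro _ ⟨i, rfl⟩
    fin_cases i
    · exact aw
    · exact a2
    · exact a4
    · exact a6
  obtain ⟨B, hB'⟩ := M.exists_isBasis (Set.range S)
  have h1 : (4 : ℕ∞) ≤ M.eRk (insert ψ (Set.range S)) := by
    rw [← M.eRk_closure_eq, ← hcard]
    exact hind.encard_le_eRk_of_subset hsub
  have h2 : M.eRk (insert ψ (Set.range S)) ≤ B.encard + 1 := by
    rw [← hB'.eRk_eq_encard]
    exact M.eRk_insert_le_add_one _ _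
  have h3 : ((3 : ℕ) : ℕ∞) ≤ B.encard := by
    have h5 : (3 : ℕ∞) + 1 ≤ B.encard + 1 := by
      have : (3 : ℕ∞) + 1 = 4 := by norm_num
      rw [this]; exact h1.trans h2
    exact (ENat.add_le_add_iff_right (by simp)).mp h5
  refine extract_indep' S (B := B) ?_ hB'.subset h3
  have := hB'.indep
  rw [hM, AlgebraicIndependent.matroid_indep_iff] at this
  exact this

/-- Three of `z, conj z, j, φ` are algebraically independent. -/
theorem three_indep : ∃ A : ℕ, ∀ (κ : ℕ), A < κ → ∀ (z : ℂ) (_ : Apx κ z), 0 < z.im →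
    ∃ f : Fin 3 → Fin 4, AlgebraicIndependent ℤ (fun k ↦ V4 z (f k)) := by
  obtain ⟨A, hA⟩ := transfer'
  obtain ⟨A', hA'⟩ := e46_ne
  refine ⟨A + A', fun κ hκ z S hz ↦ ?_⟩
  obtain ⟨h4, h6⟩ := hA' κ (by omega) z S hz
  have hT := S.tendsto_ne (by omega)
  have ev4 : ∀ᶠ n in atTop, e4 (S.t n) ≠ 0 := hT.eventually (e4_ev hz)
  have ev6 : ∀ᶠ n in atTop, e6 (S.t n) ≠ 0 := hT.eventually (e6_ev hz)
  have hpi : (π : ℂ) ≠ 0 := by exact_mod_cast Real.pi_ne_zero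
  -- independence
  have hX : AlgebraicIndependent ℂ (![mkU (fun n ↦ (S.t n : ℂ)), mkU (fun n ↦ e2 (S.t n)),
      mkU (fun n ↦ e4 (S.t n)), mkU (fun n ↦ e6 (S.t n))] : Fin 4 → Ult) := by
    rw [algebraicIndependent_iff]
    intro P hP
    have e1 : (![mkU (fun n ↦ (S.t n : ℂ)), mkU (fun n ↦ e2 (S.t n)),
      mkU (fun n ↦ e4 (S.t n)), mkU (fun n ↦ e6 (S.t n))] : Fin 4 → Ult) =
      fun i ↦ mkU ((![fun n ↦ (S.t n : ℂ), fun n ↦ e2 (S.t n), fun n ↦ e4 (S.t n),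
        fun n ↦ e6 (S.t n)] : Fin 4 → ℕ → ℂ) i) := by
      ext i
      fin_cases i <;> rfl
    rw [e1, aeval_mkU] at hP
    have hfr := freq_of_mkU_zero hP
    have hana : AnalyticOnNhd ℂ (fun w ↦ MvPolynomial.aeval (![w, E2 (ofComplex w),
        E₄ (ofComplex w), E₆ (ofComplex w)] : Fin 4 → ℂ) P) upperHalfPlaneSet := by
      intro w hw
      refine AnalyticAt.aeval_mvPolynomial (fun i ↦ ?_) _
      fin_cases i
      · exact analyticAt_id
      · exact analytic_E2 w hw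
      · exact analytic_E4 w hw
      · exact analytic_E6 w hw
    have hfr2 : ∃ᶠ w in 𝓝[≠] z, MvPolynomial.aeval (![w, E2 (ofComplex w),
        E₄ (ofComplex w), E₆ (ofComplex w)] : Fin 4 → ℂ) P = 0 := by
      refine hT.frequently (hfr.mono fun n hn ↦ ?_)
      rw [← hn]
      congr 1
      congr 1
      ext i
      fin_cases i <;> rfl
    have h0 := hana.eqOn_zero_of_preconnected_of_frequently_eq_zero preconnected_H hz hfr2
    apply indep_H
    intro τ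
    have := h0 τ.im_pos
    simpa [ofComplex_apply] using this
  have hne4 : mkU (fun n ↦ e4 (S.t n)) ≠ 0 := by
    intro h0
    obtain ⟨n, h1, h2⟩ := ((freq_of_mkU_zero h0).and_eventually ev4).exists
    exact h2 h1
  have hne6 : mkU (fun n ↦ e6 (S.t n)) ≠ 0 := by
    intro h0
    obtain ⟨n, h1, h2⟩ := ((freq_of_mkU_zero h0).and_eventually ev6).exists
    exact h2 h1
  have hAA : (mkU (fun n ↦ ps (S.t n)) - mkU (fun n ↦ ph (S.t n))) *
      (mkU (fun n ↦ (S.t n : ℂ)) - mkU (fun n ↦ (starRingEnd ℂ) (S.t n : ℂ))) *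
      algebraMap ℂ Ult π * mkU (fun n ↦ e6 (S.t n)) =
      algebraMap ℂ Ult (6 * I) * mkU (fun n ↦ e4 (S.t n)) := by
    rw [algebraMap_Ult, algebraMap_Ult, ← map_sub, ← map_sub, ← map_mul, ← map_mul, ← map_mul,
      ← map_mul, ← sub_eq_zero, ← map_sub]
    refine mkU_zero_of_ev (ev6.mono fun n hn ↦ ?_)
    simp only [Pi.sub_apply, Pi.mul_apply]
    have hy : ((S.t n : ℂ).im : ℂ) ≠ 0 := by
      have := (S.t n).im_pos
      rw [UpperHalfPlane.coe_im]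
      exact_mod_cast this.ne'
    have hw : (S.t n : ℂ) - (starRingEnd ℂ) (S.t n : ℂ) = 2 * I * ((S.t n : ℂ).im : ℂ) := by
      rw [Complex.sub_conj]; push_cast; ring
    rw [hw, ps, ph]
    field_simp
    ring
  have hBB : mkU (fun n ↦ jc (S.t n)) * (mkU (fun n ↦ e4 (S.t n)) ^ 3 -
      mkU (fun n ↦ e6 (S.t n)) ^ 2) = algebraMap ℂ Ult 1728 * mkU (fun n ↦ e4 (S.t n)) ^ 3 := by
    rw [algebraMap_Ult, ← map_pow, ← map_pow, ← map_sub, ← map_mul, ← map_mul, ← sub_eq_zero,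
      ← map_sub]
    refine mkU_zero_of_ev (Eventually.of_forall fun n ↦ ?_)
    simp only [Pi.sub_apply, Pi.mul_apply, Pi.pow_apply]
    rw [jc, div_mul_cancel₀ _ disc_ne, sub_self]
  have hCC : mkU (fun n ↦ ps (S.t n)) * mkU (fun n ↦ e6 (S.t n)) =
      mkU (fun n ↦ e2 (S.t n)) * mkU (fun n ↦ e4 (S.t n)) := by
    rw [← map_mul, ← map_mul, ← sub_eq_zero, ← map_sub]
    refine mkU_zero_of_ev (ev6.mono fun n hn ↦ ?_)
    simp only [Pi.sub_apply, Pi.mul_apply]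
    rw [ps, div_mul_cancel₀ _ hn, sub_self]
  obtain ⟨f, hf⟩ := three_of_four (x := mkU (fun n ↦ (starRingEnd ℂ) (S.t n : ℂ)))
    hX (p := (π : ℂ)) (q := 6 * I) hpi (by simp) hne4 hne6 (by norm_num) hAA hBB hCC
  refine ⟨f, ?_⟩
  rw [algebraicIndependent_iff]
  intro P hP
  have h1 : MvPolynomial.aeval (V4 z) (MvPolynomial.rename f P) = 0 := by
    rw [MvPolynomial.aeval_rename]
    exact hP
  have h2 := hA κ (by omega) z S hz _ h1
  have e1 : (fun k ↦ (![mkU (fun n ↦ (S.t n : ℂ)), mkU (fun n ↦ (starRingEnd ℂ) (S.t n : ℂ)),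
    mkU (fun n ↦ jc (S.t n)), mkU (fun n ↦ ph (S.t n))] : Fin 4 → Ult) (f k)) =
    fun k ↦ mkU (fun n ↦ V4 (S.t n) (f k)) := by
    ext k
    generalize f k = i
    fin_cases i <;> rfl
  rw [e1] at hf
  have h3 : MvPolynomial.aeval (fun k ↦ mkU (fun n ↦ V4 (S.t n) (f k))) P = 0 := by
    rw [aeval_mkUZ]
    refine mkU_zero_of_ev (h2.mono fun n hn ↦ ?_)
    rw [MvPolynomial.aeval_rename] at hn
    exact hn
  have h4 : MvPolynomial.aeval (fun k ↦ mkU (fun n ↦ V4 (S.t n) (f k)))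
      (MvPolynomial.map (Int.castRingHom ℂ) P) = 0 := by
    rw [← h3, ← algebraMap_int_eq, MvPolynomial.aeval_map_algebraMap]
  have h5 := (algebraicIndependent_iff.mp hf) _ h4
  exact (MvPolynomial.map_injective _ (RingHom.injective_int _)) (by rw [h5, map_zero])

end H32.T3

end S_H32_T3_C5

section S_H32_T3_C6

open UpperHalfPlane hiding I
open Complex EisensteinSeries ModularForm MatrixGroups Manifold
open scoped Real Topology

namespace H32.T3

open Height Height.AdmissibleAbsValues Finset NumberField Filter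

lemma exists_near_root (f : Polynomial ℂ) (hf : f.natDegree ≠ 0) (x : ℂ) :
    ∃ ρ, f.eval ρ = 0 ∧ ‖x - ρ‖ ^ f.natDegree * ‖f.leadingCoeff‖ ≤ ‖f.eval x‖ := by
  classical
  have hsp : f.Splits := IsAlgClosed.splits f
  have hcard : f.roots.card = f.natDegree := hsp.natDegree_eq_card_roots.symm
  have hf0 : f ≠ 0 := fun h ↦ hf (by rw [h, Polynomial.natDegree_zero])
  have hne : f.roots.toFinset.Nonempty := by
    rw [Multiset.toFinset_nonempty]
    intro h0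
    rw [h0, Multiset.card_zero] at hcard
    exact hf hcard.symm
  obtain ⟨ρ, hρ, hmin⟩ := exists_min_image f.roots.toFinset (fun ρ ↦ ‖x - ρ‖) hne
  rw [Multiset.mem_toFinset] at hρ
  refine ⟨ρ, (Polynomial.mem_roots'.mp hρ).2, ?_⟩
  rw [hsp.eval_eq_prod_roots x, norm_mul, mul_comm]
  gcongr
  have h1 : ‖(f.roots.map (fun a ↦ x - a)).prod‖ = (f.roots.map (fun a ↦ ‖x - a‖)).prod := by
    have := map_multiset_prod (normHom : ℂ →*₀ ℝ) (f.roots.map (fun a ↦ x - a))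
    rw [Multiset.map_map] at this
    exact this
  have h2 : ‖x - ρ‖ ^ f.natDegree = (f.roots.map (fun _ ↦ ‖x - ρ‖)).prod := by
    rw [Multiset.map_const', Multiset.prod_replicate, hcard]
  rw [h1, h2]
  exact Multiset.prod_map_le_prod_map₀ _ _ (fun _ _ ↦ norm_nonneg _) fun a ha ↦
    hmin a (Multiset.mem_toFinset.mpr ha)

/-- The number field attached to a root. -/
theorem point_bound : ∃ A : ℕ, ∀ (G : ℕ → MvPolynomial (Fin 4) ℤ) (n : ℕ), ∃ C1 : ℕ,
    ∀ (H : ℕ) (a b c : ℤ) (τ : ℍ), 2 ≤ H → 0 < a → |a| ≤ H → |b| ≤ H →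
    |c| ≤ H → (a : ℂ) * τ ^ 2 + b * τ + c = 0 → E₆ τ ≠ 0 →
    MvPolynomial.aeval (V4 τ) (G n) ≠ 0 → ∀ e ρ : ℂ,
    4 * e ^ 3 - 2 * (27 / 2 * (E₄ τ ^ 3 / E₆ τ ^ 2)) * e -
        2 * (27 / 2 * (E₄ τ ^ 3 / E₆ τ ^ 2)) = 0 →
    ∑ i ∈ range (n + 1), MvPolynomial.aeval (V4 τ) (G i) * ρ ^ i = 0 →
    ∃ (L : Type) (_ : Field L) (_ : NumberField L) (s : L →+* ℂ) (x0 x3 x4 : L),
      s x0 = e ∧ s x3 = 27 / 2 * (E₄ τ ^ 3 / E₆ τ ^ 2) ∧ s x4 = 3 / 2 * ρ ∧
      totalWeight L ≤ C1 * H ^ (2 * A) ∧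
      mulHeight₁ x0 ≤ Real.exp ((C1 * H ^ (2 * A) : ℕ) : ℝ) ∧
      mulHeight₁ x3 ≤ Real.exp ((C1 * H ^ (2 * A) : ℕ) : ℝ) ∧
      mulHeight₁ x4 ≤ Real.exp ((C1 * H ^ (2 * A) : ℕ) : ℝ) := by
  obtain ⟨A, hA⟩ := cm_heights
  refine ⟨A, fun G n ↦ ?_⟩
  set D : ℕ := ∑ i ∈ range (n + 1), (G i).totalDegree with hD
  set B : ℝ := 1 + ∑ i ∈ range (n + 1), nrm (G i) with hB
  have hBs : 0 ≤ ∑ i ∈ range (n + 1), nrm (G i) := sum_nonneg fun i _ ↦ nrm_nonneg _
  have hB1 : 1 ≤ B := by rw [hB]; linarith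
  have hlB : 0 ≤ Real.log B := Real.log_nonneg hB1
  -- the budget
  set Q : ℝ := 2000 + n + Real.log B + 4 * D with hQ
  set C1 : ℕ := ⌈Q⌉₊ * (3 * n + 1) with hC1
  refine ⟨C1, fun H a b c τ hH ha haH hbH hcH hτ h6 hGn e ρ he hρ ↦ ?_⟩
  obtain ⟨K, hK, hKA, hL⟩ := hA H a b c τ hH ha haH hbH hcH hτ h6
  have hH2 : (2 : ℝ) ≤ H := by exact_mod_cast hH
  have hT1 : (1 : ℝ) ≤ (H : ℝ) ^ A := one_le_pow₀ (by linarith)
  set T : ℝ := (H : ℝ) ^ A with hT
  have hΔ := discriminant_ne_zero τ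
  have hJ1728 : jf τ - 1728 ≠ 0 := by
    intro h0
    have := jf_sub τ
    rw [h0, zero_mul] at this
    exact pow_ne_zero 2 h6 this.symm
  have hh : 27 / 2 * (E₄ τ ^ 3 / E₆ τ ^ 2) = 27 / 2 * (jf τ / (jf τ - 1728)) := by
    congr 1
    rw [← jf_mul, ← jf_sub]
    field_simp
  set h := 27 / 2 * (E₄ τ ^ 3 / E₆ τ ^ 2) with hhdef
  -- first step: adjoin `ρ`
  have hNF : NumberField K := { to_charZero := inferInstance, to_finiteDimensional := hK }
  obtain ⟨t, tb, J, φ, h1, h2, h3, h4, -, -, -, -⟩ := hL K (algebraMap K ℂ)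
    (fun x hx ↦ ⟨⟨x, hx⟩, rfl⟩)
  set v : Fin 4 → K := ![t, tb, J, φ] with hv
  have hval : ∀ P : MvPolynomial (Fin 4) ℤ,
      algebraMap K ℂ (MvPolynomial.aeval v P) = MvPolynomial.aeval (V4 τ) P := by
    intro P
    have h5 := MvPolynomial.comp_aeval_apply v (algebraMap K ℂ).toIntAlgHom P
    have h6 : (fun i ↦ (algebraMap K ℂ).toIntAlgHom (v i)) = V4 τ := by
      ext i
      fin_cases i
      · exact h1
      · exact h2
      · exact h3.trans (jc_coe τ).symm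
      · exact h4.trans (ph_coe τ).symm
    rw [h6] at h5
    exact h5
  set f : Polynomial K := ∑ i ∈ range (n + 1),
    Polynomial.C (MvPolynomial.aeval v (G i)) * Polynomial.X ^ i with hf
  have hfd : f.natDegree ≤ n := by
    refine Polynomial.natDegree_sum_le_of_forall_le _ _ fun i hi ↦ ?_
    exact (Polynomial.natDegree_C_mul_X_pow_le _ _).trans (Nat.lt_succ_iff.mp (mem_range.mp hi))
  have hf0 : f ≠ 0 := by
    intro h0
    have h1 := congrArg (fun p ↦ p.coeff n) h0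
    simp only [hf, Polynomial.finsetSum_coeff, Polynomial.coeff_C_mul, Polynomial.coeff_X_pow,
      Polynomial.coeff_zero] at h1
    rw [sum_eq_single n] at h1
    · rw [if_pos rfl, mul_one] at h1
      apply hGn
      rw [← hval, h1, map_zero]
    · intro i _ hi
      rw [if_neg (Ne.symm hi), mul_zero]
    · intro hM
      exact absurd (mem_range.mpr (Nat.lt_succ_self n)) hM
  obtain ⟨K1, hK1, hρ1, hf1, hd1⟩ := one_step K ρ f hf0 (by
    rw [hf, map_sum, ← hρ]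
    refine sum_congr rfl fun i _ ↦ ?_
    rw [map_mul, Polynomial.aeval_C, map_pow, Polynomial.aeval_X, hval])
  -- second step: adjoin `e`
  have hhK : h ∈ K1 := by
    rw [hh]
    have hJK : jf τ ∈ K1 := by
      apply hK1
      rw [← h3]
      exact J.2
    have h27 : (27 / 2 : ℂ) ∈ K1 := by
      have : (27 / 2 : ℂ) = algebraMap ℚ ℂ (27 / 2) := by simp
      rw [this]
      exact K1.algebraMap_mem _
    have h17 : (1728 : ℂ) ∈ K1 := by
      have : (1728 : ℂ) = algebraMap ℚ ℂ 1728 := by simp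
      rw [this]
      exact K1.algebraMap_mem _
    exact K1.mul_mem h27 (K1.div_mem hJK (K1.sub_mem hJK h17))
  set g : Polynomial K1 := Polynomial.C 4 * Polynomial.X ^ 3 -
    Polynomial.C (2 * ⟨h, hhK⟩) * Polynomial.X - Polynomial.C (2 * ⟨h, hhK⟩) with hg
  have hgd : g.natDegree ≤ 3 := by
    rw [hg]
    compute_degree
  have hg0 : g ≠ 0 := by
    intro h0
    have h1 := congrArg (fun p ↦ p.coeff 3) h0
    simp only [hg, Polynomial.coeff_sub, Polynomial.coeff_C_mul, Polynomial.coeff_X_pow,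
      Polynomial.coeff_X, Polynomial.coeff_C, Polynomial.coeff_zero] at h1
    norm_num at h1
  obtain ⟨K2, hK2, he2, hf2, hd2⟩ := one_step K1 e g hg0 (by
    rw [hg, map_sub, map_sub, map_mul, map_mul, map_pow, Polynomial.aeval_X, Polynomial.aeval_C,
      Polynomial.aeval_C, ← he]
    have e1 : algebraMap K1 ℂ (2 * ⟨h, hhK⟩) = 2 * h := rfl
    rw [e1]
    rfl)
  have hNF2 : NumberField K2 := { to_charZero := inferInstance, to_finiteDimensional := hf2 }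
  obtain ⟨t', tb', J', φ', h1', h2', h3', h4', b1, b2, b3, b4⟩ := hL K2 (algebraMap K2 ℂ)
    (fun x hx ↦ ⟨⟨x, hK2 (hK1 hx)⟩, rfl⟩)
  set v' : Fin 4 → K2 := ![t', tb', J', φ'] with hv'
  have hvb : ∀ i, HB T (v' i) := by
    intro i
    fin_cases i
    · exact b1
    · exact b2
    · exact b3
    · exact b4
  have hval' : ∀ P : MvPolynomial (Fin 4) ℤ,
      algebraMap K2 ℂ (MvPolynomial.aeval v' P) = MvPolynomial.aeval (V4 τ) P := by
    intro P
    have h5 := MvPolynomial.comp_aeval_apply v' (algebraMap K2 ℂ).toIntAlgHom P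
    have h6 : (fun i ↦ (algebraMap K2 ℂ).toIntAlgHom (v' i)) = V4 τ := by
      ext i
      fin_cases i
      · exact h1'
      · exact h2'
      · exact h3'.trans (jc_coe τ).symm
      · exact h4'.trans (ph_coe τ).symm
    rw [h6] at h5
    exact h5
  set r : K2 := ⟨ρ, hK2 hρ1⟩ with hr
  set ee : K2 := ⟨e, he2⟩ with hee
  set x3 : K2 := ((27 : ℤ) : K2) / ((2 : ℤ) : K2) * (J' / (J' - ((1728 : ℤ) : K2))) with hx3
  have hx3v : algebraMap K2 ℂ x3 = h := by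
    rw [hx3, hh, map_mul, map_div₀, map_div₀, map_sub, h3', map_intCast, map_intCast, map_intCast]
    push_cast
    rfl
  -- heights
  have hx3b : HB (2 * T + 1758) x3 :=
    (((HB.int 27).div (HB.int 2)).mul (b3.div (b3.sub (HB.int 1728)))).mono (by
      norm_num
      linarith)
  have hrb : HB (n + Real.log B + 4 * D * T) r := by
    have hroot := HB.root hvb (n := n) (fun j ↦ if j ≤ n then G j else 0) (D := D)
      (fun j ↦ by
        split_ifs with hj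
        · exact single_le_sum (f := fun i ↦ (G i).totalDegree) (fun _ _ ↦ Nat.zero_le _)
            (mem_range.mpr (Nat.lt_succ_of_le hj))
        · simp) (B := B) hB1 (fun j ↦ by
        split_ifs with hj
        · have := single_le_sum (f := fun i ↦ nrm (G i)) (fun _ _ ↦ nrm_nonneg _)
            (mem_range.mpr (Nat.lt_succ_of_le hj))
          rw [hB]
          linarith
        · rw [nrm_zero]; linarith) r ?_ ?_
    · refine hroot.mono ?_
      rw [Fintype.card_fin]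
      push_cast
      linarith
    · rw [if_pos le_rfl]
      intro h0
      apply hGn
      rw [← hval', h0, map_zero]
    · apply (algebraMap K2 ℂ).injective
      rw [map_zero, map_sum, ← hρ]
      refine sum_congr rfl fun i hi ↦ ?_
      rw [if_pos (Nat.lt_succ_iff.mp (mem_range.mp hi)), map_mul, map_pow, hval']
      rfl
  have hx4b : HB (3 + 2 + (n + Real.log B + 4 * D * T)) (((3 : ℤ) : K2) / ((2 : ℤ) : K2) * r) :=
    (((HB.int 3).div (HB.int 2)).mul hrb).mono (by norm_num)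
  have heb : HB (2 * T + 1765) ee := by
    have hroot := HB.root (ι := Fin 1) (x := fun _ ↦ x3) (fun _ ↦ hx3b) (n := 3)
      (fun j ↦ if j = 0 then MvPolynomial.C (-2) * MvPolynomial.X 0 else
        if j = 1 then MvPolynomial.C (-2) * MvPolynomial.X 0 else
        if j = 3 then MvPolynomial.C 4 else 0) (D := 1)
      (fun j ↦ by
        have e1 : (MvPolynomial.C (-2) * MvPolynomial.X 0 :
            MvPolynomial (Fin 1) ℤ).totalDegree ≤ 1 := by
          refine (MvPolynomial.totalDegree_mul _ _).trans ?_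
          rw [MvPolynomial.totalDegree_C, MvPolynomial.totalDegree_X]
        split_ifs
        · exact e1
        · exact e1
        · rw [MvPolynomial.totalDegree_C]; norm_num
        · simp) (B := 4) (by norm_num) (fun j ↦ by
        have e1 : nrm (MvPolynomial.C (-2) * MvPolynomial.X 0 : MvPolynomial (Fin 1) ℤ) ≤ 4 := by
          refine (nrm_mul_le _ _).trans ?_
          rw [nrm_C, nrm_X]
          norm_num
        split_ifs
        · exact e1
        · exact e1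
        · rw [nrm_C]; norm_num
        · rw [nrm_zero]; norm_num) ee ?_ ?_
    · refine hroot.mono ?_
      have h4 : Real.log 4 ≤ 4 - 1 := Real.log_le_sub_one_of_pos (by norm_num)
      simp only [Fintype.card_fin, Nat.cast_one, one_mul, Nat.cast_ofNat]
      linarith
    · rw [if_neg (by norm_num), if_neg (by norm_num), if_pos rfl, MvPolynomial.aeval_C]
      simp
    · clear_value x3
      have hrel : 4 * ee ^ 3 - 2 * x3 * ee - 2 * x3 = 0 := by
        apply (algebraMap K2 ℂ).injective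
        have e1 : algebraMap K2 ℂ ee = e := rfl
        simp only [map_zero, map_sub, map_mul, map_pow, hx3v, map_ofNat, e1]
        exact he
      simp only [sum_range_succ, sum_range_zero]
      norm_num [MvPolynomial.aeval_C, MvPolynomial.aeval_X]
      linear_combination hrel
  have hd : Module.finrank ℚ K2 ≤ H ^ A * (3 * n + 1) := by
    calc Module.finrank ℚ K2 ≤ Module.finrank ℚ K1 * 3 := hd2.trans (Nat.mul_le_mul_left _ hgd)
      _ ≤ (Module.finrank ℚ K * n) * 3 :=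
        Nat.mul_le_mul_right _ (hd1.trans (Nat.mul_le_mul_left _ hfd))
      _ ≤ (H ^ A * n) * 3 := by gcongr
      _ = H ^ A * (3 * n) := by ring
      _ ≤ H ^ A * (3 * n + 1) := by gcongr; omega
  have hQ0 : 0 ≤ Q := by
    rw [hQ]
    positivity
  have hQceil : Q ≤ (⌈Q⌉₊ : ℝ) := Nat.le_ceil Q
  have hC1' : (C1 : ℝ) * T ^ 2 = ⌈Q⌉₊ * T * (T * (3 * n + 1)) := by
    rw [hC1]; push_cast; ring
  have hd' : (totalWeight K2 : ℝ) ≤ T * (3 * n + 1) := by
    rw [totalWeight_eq_finrank, hT]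
    exact_mod_cast hd
  have hfin : ∀ (S : ℝ) (x : K2), 0 ≤ S → HB S x → S ≤ Q * T →
      mulHeight₁ x ≤ Real.exp ((C1 * H ^ (2 * A) : ℕ) : ℝ) := by
    intro S x hS hx hSQ
    unfold HB at hx
    rw [← Real.log_le_iff_le_exp (mulHeight₁_pos _), ← logHeight₁_eq_log_mulHeight₁]
    have e1 : ((C1 * H ^ (2 * A) : ℕ) : ℝ) = C1 * T ^ 2 := by
      rw [hT]; push_cast; ring
    rw [e1, hC1']
    calc logHeight₁ x ≤ S * totalWeight K2 := hx
      _ ≤ (⌈Q⌉₊ * T) * (T * (3 * n + 1)) := by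
        have : S ≤ ⌈Q⌉₊ * T := hSQ.trans (by gcongr)
        gcongr
  have hDT : (4 * D : ℝ) * T ≤ 4 * D * T := le_rfl
  have hQT : Q * T = 2000 * T + n * T + Real.log B * T + 4 * D * T := by rw [hQ]; ring
  have hnT : (n : ℝ) ≤ n * T := le_mul_of_one_le_right (by positivity) hT1
  have hlT : Real.log B ≤ Real.log B * T := le_mul_of_one_le_right hlB hT1
  have hDT0 : (0 : ℝ) ≤ 4 * D * T := by positivity
  have hnT0 : (0 : ℝ) ≤ n * T := by positivity
  have hlT0 : (0 : ℝ) ≤ Real.log B * T := by positivity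
  refine ⟨K2, inferInstance, hNF2, algebraMap K2 ℂ, ee, x3, ((3 : ℤ) : K2) / ((2 : ℤ) : K2) * r,
    rfl, hx3v, ?_, ?_, hfin _ _ (by positivity) heb ?_, hfin _ _ (by positivity) hx3b ?_,
    hfin _ _ (by positivity) hx4b ?_⟩
  · rw [map_mul, map_div₀, map_intCast, map_intCast]
    push_cast
    rfl
  · rw [totalWeight_eq_finrank]
    refine hd.trans ?_
    have h5 : 1 ≤ ⌈Q⌉₊ := by
      rw [Nat.one_le_ceil_iff, hQ]
      positivity
    have h6 : 1 ≤ H ^ A := Nat.one_le_pow _ _ (by omega)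
    calc H ^ A * (3 * n + 1) = 1 * (1 * (H ^ A * (3 * n + 1))) := by ring
      _ ≤ ⌈Q⌉₊ * (H ^ A * (H ^ A * (3 * n + 1))) := by gcongr
      _ = C1 * H ^ (2 * A) := by rw [hC1]; ring
  · rw [hQT]; linarith
  · rw [hQT]; linarith
  · rw [hQT]; linarith

end H32.T3

end S_H32_T3_C6
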