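import Mathlib
import Pool.Agent.H32.AKM.P07

/-! Modular Schanuel with derivatives for points algebraic over a field with good approximations, part 23: this file joins several modules to save build time. -/

section S_H32_Geom

open Complex Filter Metric
open scoped Topology

namespace H32

/-- A Moebius map. -/
structure Mo where
  /-- entry -/
  a : ℂ
  /-- entry -/
  b : ℂ
  /-- entry -/
  c : ℂ
  /-- entry -/
  d : ℂ
  det : a * d - b * c ≠ 0

namespace Mo

/-- The value of a Moebius map. -/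
noncomputable def ev (g : Mo) (s : ℂ) : ℂ := (g.a * s + g.b) / (g.c * s + g.d)

/-- The inverse of a Moebius map. -/
noncomputable def iv (g : Mo) (w : ℂ) : ℂ := (g.d * w - g.b) / (g.a - g.c * w)

/-- The preimage of the upper half plane. -/
def D (g : Mo) : Set ℂ := {s | 0 < (g.ev s).im}

variable (g : Mo)

lemma den_ne {s : ℂ} (h : s ∈ g.D) : g.c * s + g.d ≠ 0 := by
  intro h0
  have h1 : 0 < (g.ev s).im := h
  rw [ev, h0, div_zero] at h1
  simp at h1

lemma sub_ne {s : ℂ} (h : g.c * s + g.d ≠ 0) : g.a - g.c * g.ev s ≠ 0 := by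
  have h1 : g.a - g.c * g.ev s = (g.a * g.d - g.b * g.c) / (g.c * s + g.d) := by
    rw [ev]; field_simp; ring
  rw [h1]
  exact div_ne_zero g.det h

lemma iv_ev {s : ℂ} (h : g.c * s + g.d ≠ 0) : g.iv (g.ev s) = s := by
  have e : g.ev s * (g.c * s + g.d) = g.a * s + g.b := div_mul_cancel₀ _ h
  rw [iv, div_eq_iff (g.sub_ne h)]
  linear_combination e

lemma den_iv {w : ℂ} (h : g.a - g.c * w ≠ 0) : g.c * g.iv w + g.d ≠ 0 := by
  have h1 : g.c * g.iv w + g.d = (g.a * g.d - g.b * g.c) / (g.a - g.c * w) := by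
    rw [iv]; field_simp; ring
  rw [h1]
  exact div_ne_zero g.det h

lemma ev_iv {w : ℂ} (h : g.a - g.c * w ≠ 0) : g.ev (g.iv w) = w := by
  have h1 := g.den_iv h
  have e : g.iv w * (g.a - g.c * w) = g.d * w - g.b := div_mul_cancel₀ _ h
  rw [ev, div_eq_iff h1]
  linear_combination e

lemma analytic_ev {s : ℂ} (h : g.c * s + g.d ≠ 0) : AnalyticAt ℂ g.ev s := by
  unfold ev
  have h1 : AnalyticAt ℂ (fun s ↦ g.a * s + g.b) s := by fun_prop
  have h2 : AnalyticAt ℂ (fun s ↦ g.c * s + g.d) s := by fun_prop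
  exact h1.fun_div h2 h

lemma analytic_iv {w : ℂ} (h : g.a - g.c * w ≠ 0) : AnalyticAt ℂ g.iv w := by
  unfold iv
  have h1 : AnalyticAt ℂ (fun w ↦ g.d * w - g.b) w := by fun_prop
  have h2 : AnalyticAt ℂ (fun w ↦ g.a - g.c * w) w := by fun_prop
  exact h1.fun_div h2 h

lemma eventually_den {s : ℂ} (h : g.c * s + g.d ≠ 0) : ∀ᶠ x in 𝓝 s, g.c * x + g.d ≠ 0 := by
  have h1 : Continuous fun x ↦ g.c * x + g.d := by fun_prop
  exact h1.continuousAt.eventually_ne h

lemma eventually_sub {w : ℂ} (h : g.a - g.c * w ≠ 0) : ∀ᶠ x in 𝓝 w, g.a - g.c * x ≠ 0 := by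
  have h1 : Continuous fun x ↦ g.a - g.c * x := by fun_prop
  exact h1.continuousAt.eventually_ne h

lemma isOpen_D : IsOpen g.D := by
  rw [isOpen_iff_mem_nhds]
  intro s hs
  have h1 := (g.analytic_ev (g.den_ne hs)).continuousAt
  have h2 : ContinuousAt (fun s ↦ (g.ev s).im) s := Complex.continuous_im.continuousAt.comp h1
  exact h2.eventually_const_lt hs

/-- the pole set -/
lemma finite_pole : {s : ℂ | g.c * s + g.d = 0}.Finite := by
  refine (Set.finite_singleton (-g.d / g.c)).subset ?_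
  intro s hs
  simp only [Set.mem_ofPred_eq] at hs
  have hd := g.det
  have hc : g.c ≠ 0 := by
    intro h
    rw [h, zero_mul, zero_add] at hs
    rw [h, hs] at hd
    simp at hd
  rw [Set.mem_singleton_iff, eq_div_iff hc]
  linear_combination hs

lemma exists_neg : ∃ s : ℂ, g.c * s + g.d ≠ 0 ∧ (g.ev s).im < 0 := by
  have hw : ∃ w : ℂ, w.im < 0 ∧ g.a - g.c * w ≠ 0 := by
    by_cases h : g.a - g.c * (-I) ≠ 0
    · exact ⟨-I, by simp, h⟩
    · push Not at h
      refine ⟨-2 * I, by simp, fun h2 ↦ ?_⟩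
      have h3 : g.c * I = 0 := by linear_combination h2 - h
      have h4 : g.c = 0 := (mul_eq_zero.mp h3).resolve_right Complex.I_ne_zero
      have h5 : g.a = 0 := by rw [h4] at h; simpa using h
      have := g.det
      rw [h4, h5] at this
      simp at this
  obtain ⟨w, h1, h2⟩ := hw
  exact ⟨g.iv w, g.den_iv h2, by rw [g.ev_iv h2]; exact h1⟩

end Mo

lemma exists_dir {g : Mo} (h0 : 0 ∈ g.D) (B : Set ℂ) (hB : B.Finite) (hB0 : (0 : ℂ) ∉ B) :
    ∃ s : ℂ, s ∉ g.D ∧ ∀ l : ℝ, (l : ℂ) * s ∉ B := by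
  obtain ⟨sc, hsc, him⟩ := g.exists_neg
  have hsc0 : sc ≠ 0 := by
    rintro rfl
    have : 0 < (g.ev 0).im := h0
    linarith
  have hev : ∀ᶠ x : ℝ in 𝓝 0, (g.ev (sc * (1 + x * I))).im < 0 := by
    have h1 : ContinuousAt (fun x : ℝ ↦ sc * (1 + (x : ℂ) * I)) 0 := by
      apply Continuous.continuousAt
      fun_prop
    have h2 : ContinuousAt g.ev (sc * (1 + ((0 : ℝ) : ℂ) * I)) := by
      have : sc * (1 + ((0 : ℝ) : ℂ) * I) = sc := by simp
      rw [this]
      exact (g.analytic_ev hsc).continuousAt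
    have h3 : ContinuousAt (fun x : ℝ ↦ (g.ev (sc * (1 + x * I))).im) 0 :=
      Complex.continuous_im.continuousAt.comp
        (ContinuousAt.comp (g := g.ev) (f := fun x : ℝ ↦ sc * (1 + (x : ℂ) * I)) h2 h1)
    have h4 : (g.ev (sc * (1 + ((0 : ℝ) : ℂ) * I))).im < 0 := by simpa using him
    exact h3.eventually_lt_const h4
  obtain ⟨δ, hδ, hball⟩ := Metric.eventually_nhds_iff_ball.mp hev
  set bad : Set ℝ := (fun b : ℂ ↦ -(sc * (starRingEnd ℂ) b).im / (sc * (starRingEnd ℂ) b).re) '' B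
    with hbad
  have hbadfin : bad.Finite := hB.image _
  obtain ⟨x, hx, hxb⟩ := (Set.Ioo_infinite (show (0 : ℝ) < δ from hδ)).exists_notMem_finite hbadfin
  refine ⟨sc * (1 + x * I), ?_, ?_⟩
  · intro h
    have h1 : 0 < (g.ev (sc * (1 + x * I))).im := h
    have h2 := hball x (by
      rw [mem_ball_zero_iff, Real.norm_eq_abs, abs_of_pos hx.1]; exact hx.2)
    linarith
  · intro l hl
    apply hxb
    have hb0 : (l : ℂ) * (sc * (1 + x * I)) ≠ 0 := fun h ↦ hB0 (h ▸ hl)
    refine ⟨_, hl, ?_⟩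
    have hl0 : l ≠ 0 := by
      rintro rfl
      simp at hb0
    set b := (l : ℂ) * (sc * (1 + x * I)) with hb
    have hns : (0 : ℝ) < Complex.normSq sc := Complex.normSq_pos.mpr hsc0
    have e1 : sc * (starRingEnd ℂ) b = ((l * Complex.normSq sc : ℝ) : ℂ) * (1 - x * I) := by
      rw [hb]
      simp only [map_mul, map_add, map_one, Complex.conj_ofReal, Complex.conj_I]
      push_cast
      rw [← Complex.mul_conj]
      ring
    simp only [e1]
    have e2 : (((l * Complex.normSq sc : ℝ) : ℂ) * (1 - x * I)).im = -(l * Complex.normSq sc * x) := by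
      simp
    have e3 : (((l * Complex.normSq sc : ℝ) : ℂ) * (1 - x * I)).re = l * Complex.normSq sc := by
      simp
    rw [e2, e3]
    have : l * Complex.normSq sc ≠ 0 := mul_ne_zero hl0 hns.ne'
    field_simp

lemma seg_mem {X : Set ℂ} {s : ℂ} {T : ℝ} (hT : 0 ≤ T)
    (h : ∀ l : ℝ, 0 ≤ l → l ≤ T → (l : ℂ) * s ∈ X) : (T : ℂ) * s ∈ connectedComponentIn X 0 := by
  have h1 : IsPreconnected ((fun l : ℝ ↦ (l : ℂ) * s) '' Set.Icc 0 T) := by
    refine isPreconnected_Icc.image _ (Continuous.continuousOn ?_)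
    fun_prop
  have h2 : (0 : ℂ) ∈ (fun l : ℝ ↦ (l : ℂ) * s) '' Set.Icc 0 T :=
    ⟨0, ⟨le_rfl, hT⟩, by simp⟩
  refine h1.subset_connectedComponentIn h2 ?_ ⟨T, ⟨hT, le_rfl⟩, rfl⟩
  rintro _ ⟨l, hl, rfl⟩
  exact h l hl.1 hl.2

lemma exists_exit {ι : Type*} [DecidableEq ι] (g : ι → Mo) (J : Finset ι) (hJ : J.Nonempty)
    (h0 : ∀ i ∈ J, (0 : ℂ) ∈ (g i).D)
    (hfin : ∀ i ∈ J, ∀ j ∈ J, i ≠ j → {s : ℂ | (g i).c * s + (g i).d ≠ 0 ∧
      (g j).c * s + (g j).d ≠ 0 ∧ ((g i).ev s).im = 0 ∧ ((g j).ev s).im = 0}.Finite) :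
    ∃ j ∈ J, ∃ (r : ℚ) (s₀ : ℂ), (g j).c * s₀ + (g j).d ≠ 0 ∧ (g j).ev s₀ = r ∧
      s₀ ∈ connectedComponentIn (⋂ i ∈ J.erase j, (g i).D) 0 ∧
      ∀ᶠ s in 𝓝 s₀, 0 < ((g j).ev s).im → s ∈ connectedComponentIn (⋂ i ∈ J, (g i).D) 0 := by
  classical
  obtain ⟨j₁, hj₁⟩ := hJ
  set U : Set ℂ := ⋂ i ∈ J, (g i).D with hU
  have hUo : IsOpen U := isOpen_biInter_finset fun i _ ↦ (g i).isOpen_D
  set B : Set ℂ := (⋃ i ∈ J, {s : ℂ | (g i).c * s + (g i).d = 0}) ∪
    ⋃ i ∈ J, ⋃ j ∈ J, ⋃ (_ : i ≠ j), {s : ℂ | (g i).c * s + (g i).d ≠ 0 ∧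
      (g j).c * s + (g j).d ≠ 0 ∧ ((g i).ev s).im = 0 ∧ ((g j).ev s).im = 0} with hB
  have hBfin : B.Finite := by
    refine Set.Finite.union ?_ ?_
    · exact J.finite_toSet.biUnion fun i _ ↦ (g i).finite_pole
    · refine J.finite_toSet.biUnion fun i hi ↦ J.finite_toSet.biUnion fun j hj ↦ ?_
      exact Set.finite_iUnion fun h ↦ hfin i hi j hj h
  have hB0 : (0 : ℂ) ∉ B := by
    intro h
    rcases h with h | h
    · simp only [Set.mem_iUnion] at h
      obtain ⟨i, hi, h⟩ := h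
      exact (g i).den_ne (h0 i hi) h
    · simp only [Set.mem_iUnion] at h
      obtain ⟨i, hi, j, hj, hij, -, -, h, -⟩ := h
      have h1 : 0 < ((g i).ev 0).im := h0 i hi
      linarith
  obtain ⟨s₂, hs₂, hs₂B⟩ := exists_dir (h0 j₁ hj₁) B hBfin hB0
  have hcontl : Continuous fun l : ℝ ↦ (l : ℂ) * s₂ := by fun_prop
  set E : Set ℝ := Set.Icc 0 1 ∩ {l : ℝ | (l : ℂ) * s₂ ∉ U} with hE
  have hEc : IsCompact E := by
    refine isCompact_Icc.inter_right ?_
    exact (hUo.isClosed_compl).preimage hcontl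
  have hEne : E.Nonempty := by
    refine ⟨1, ⟨zero_le_one, le_rfl⟩, fun h ↦ hs₂ ?_⟩
    have h1 := Set.mem_iInter₂.mp h j₁ hj₁
    simpa using h1
  set T : ℝ := sInf E with hT
  have hTE : T ∈ E := hEc.sInf_mem hEne
  have hlt : ∀ l : ℝ, 0 ≤ l → l < T → (l : ℂ) * s₂ ∈ U := by
    intro l hl0 hlT
    by_contra hcon
    have h1 : l ∈ E := ⟨⟨hl0, hlT.le.trans hTE.1.2⟩, hcon⟩
    have h2 : T ≤ l := csInf_le hEc.bddBelow h1
    linarith
  have hT0 : 0 < T := by
    rcases lt_or_eq_of_le hTE.1.1 with h | h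
    · exact h
    · exfalso
      apply hTE.2
      rw [← h]
      simp only [Complex.ofReal_zero, zero_mul]
      exact Set.mem_iInter₂.mpr h0
  set s₁ : ℂ := (T : ℂ) * s₂ with hs₁
  have hs₁B : s₁ ∉ B := hs₂B T
  have hden : ∀ i ∈ J, (g i).c * s₁ + (g i).d ≠ 0 := by
    intro i hi h
    apply hs₁B
    left
    simp only [Set.mem_iUnion]
    exact ⟨i, hi, h⟩
  have htend : ∀ i ∈ J, Tendsto (fun l : ℝ ↦ (g i).ev ((l : ℂ) * s₂)) (𝓝[<] T)
      (𝓝 ((g i).ev s₁)) := by
    intro i hi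
    have h1 : ContinuousAt (fun l : ℝ ↦ (g i).ev ((l : ℂ) * s₂)) T :=
      ContinuousAt.comp (g := (g i).ev) (f := fun l : ℝ ↦ (l : ℂ) * s₂)
        ((g i).analytic_ev (hden i hi)).continuousAt hcontl.continuousAt
    exact h1.mono_left nhdsWithin_le_nhds
  have hevlt : ∀ᶠ l : ℝ in 𝓝[<] T, 0 < l ∧ l < T := by
    have h1 : ∀ᶠ l : ℝ in 𝓝[<] T, 0 < l := nhdsWithin_le_nhds (lt_mem_nhds hT0)
    exact h1.and self_mem_nhdsWithin
  have hnonneg : ∀ i ∈ J, 0 ≤ ((g i).ev s₁).im := by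
    intro i hi
    have h1 : Tendsto (fun l : ℝ ↦ ((g i).ev ((l : ℂ) * s₂)).im) (𝓝[<] T)
        (𝓝 ((g i).ev s₁).im) := (Complex.continuous_im.tendsto _).comp (htend i hi)
    refine ge_of_tendsto h1 ?_
    filter_upwards [hevlt] with l hl
    have h2 := Set.mem_iInter₂.mp (hlt l hl.1.le hl.2) i hi
    exact le_of_lt h2
  obtain ⟨j, hj, hjD⟩ : ∃ j ∈ J, s₁ ∉ (g j).D := by
    by_contra hcon
    push Not at hcon
    exact hTE.2 (Set.mem_iInter₂.mpr hcon)
  have hjim : ((g j).ev s₁).im = 0 := by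
    have h1 : ¬ 0 < ((g j).ev s₁).im := hjD
    have h2 := hnonneg j hj
    linarith
  have hiD : ∀ i ∈ J.erase j, s₁ ∈ (g i).D := by
    intro i hi
    rw [Finset.mem_erase] at hi
    refine lt_of_le_of_ne (hnonneg i hi.2) fun h ↦ hs₁B ?_
    right
    simp only [Set.mem_iUnion]
    exact ⟨i, hi.2, j, hj, hi.1, hden i hi.2, hden j hj, h.symm, hjim⟩
  set U' : Set ℂ := ⋂ i ∈ J.erase j, (g i).D with hU'
  have hU'o : IsOpen U' := isOpen_biInter_finset fun i _ ↦ (g i).isOpen_D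
  have hUU' : U ⊆ U' := fun s hs ↦ Set.mem_iInter₂.mpr fun i hi ↦
    Set.mem_iInter₂.mp hs i (Finset.mem_of_mem_erase hi)
  have hs₁U' : s₁ ∈ U' := Set.mem_iInter₂.mpr hiD
  have hs₁C : s₁ ∈ connectedComponentIn U' 0 := by
    refine seg_mem hT0.le fun l hl0 hlT ↦ ?_
    rcases lt_or_eq_of_le hlT with h | h
    · exact hUU' (hlt l hl0 h)
    · rw [h]; exact hs₁U'
  set x₁ : ℝ := ((g j).ev s₁).re with hx₁
  have hx₁e : (g j).ev s₁ = x₁ := by
    apply Complex.ext
    · simp [hx₁]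
    · simp [hjim]
  have hsub : (g j).a - (g j).c * (x₁ : ℂ) ≠ 0 := by
    rw [← hx₁e]; exact (g j).sub_ne (hden j hj)
  have hiv : (g j).iv x₁ = s₁ := by
    rw [← hx₁e]; exact (g j).iv_ev (hden j hj)
  have hnear : ∀ᶠ w in 𝓝 (x₁ : ℂ), (g j).a - (g j).c * w ≠ 0 ∧ (g j).iv w ∈ U' := by
    refine ((g j).eventually_sub hsub).and ?_
    have h1 := ((g j).analytic_iv hsub).continuousAt
    have h2 : U' ∈ 𝓝 ((g j).iv x₁) := by rw [hiv]; exact hU'o.mem_nhds hs₁U'
    exact h1.eventually h2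
  obtain ⟨ε, hε, hball⟩ := Metric.eventually_nhds_iff_ball.mp hnear
  have hcontiv : ContinuousOn (g j).iv (ball (x₁ : ℂ) ε) := fun w hw ↦
    ((g j).analytic_iv (hball w hw).1).continuousAt.continuousWithinAt
  -- the full neighbourhood
  have hV : ∀ w ∈ ball (x₁ : ℂ) ε, (g j).iv w ∈ connectedComponentIn U' 0 := by
    have h1 : IsPreconnected ((g j).iv '' ball (x₁ : ℂ) ε) :=
      (convex_ball (x₁ : ℂ) ε).isPreconnected.image _ hcontiv
    have h2 : s₁ ∈ (g j).iv '' ball (x₁ : ℂ) ε := ⟨x₁, mem_ball_self hε, hiv⟩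
    have h3 : (g j).iv '' ball (x₁ : ℂ) ε ⊆ U' := by
      rintro _ ⟨w, hw, rfl⟩
      exact (hball w hw).2
    have h4 := h1.subset_connectedComponentIn h2 h3
    rw [← connectedComponentIn_eq hs₁C] at h4
    exact fun w hw ↦ h4 ⟨w, hw, rfl⟩
  -- the half neighbourhood
  have hVp : ∀ w ∈ ball (x₁ : ℂ) ε ∩ {w | 0 < w.im}, (g j).iv w ∈ connectedComponentIn U 0 := by
    have h1 : IsPreconnected ((g j).iv '' (ball (x₁ : ℂ) ε ∩ {w | 0 < w.im})) :=
      ((convex_ball (x₁ : ℂ) ε).inter (convex_halfSpace_im_gt 0)).isPreconnected.image _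
        (hcontiv.mono Set.inter_subset_left)
    have h3 : (g j).iv '' (ball (x₁ : ℂ) ε ∩ {w | 0 < w.im}) ⊆ U := by
      rintro _ ⟨w, hw, rfl⟩
      refine Set.mem_iInter₂.mpr fun i hi ↦ ?_
      by_cases hij : i = j
      · subst hij
        change 0 < ((g i).ev ((g i).iv w)).im
        rw [(g i).ev_iv (hball w hw.1).1]
        exact hw.2
      · exact Set.mem_iInter₂.mp (hball w hw.1).2 i (Finset.mem_erase.mpr ⟨hij, hi⟩)
    have h5 : ∀ᶠ l : ℝ in 𝓝[<] T, (g j).ev ((l : ℂ) * s₂) ∈ ball (x₁ : ℂ) ε := by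
      have := htend j hj
      rw [hx₁e] at this
      exact this.eventually (ball_mem_nhds _ hε)
    obtain ⟨l, hl1, hl2⟩ := (h5.and hevlt).exists
    have hlU : (l : ℂ) * s₂ ∈ U := hlt l hl2.1.le hl2.2
    have hlC : (l : ℂ) * s₂ ∈ connectedComponentIn U 0 :=
      seg_mem hl2.1.le fun l' h0' h1' ↦ hlt l' h0' (lt_of_le_of_lt h1' hl2.2)
    have hlD : (l : ℂ) * s₂ ∈ (g j).D := Set.mem_iInter₂.mp hlU j hj
    have h2 : (l : ℂ) * s₂ ∈ (g j).iv '' (ball (x₁ : ℂ) ε ∩ {w | 0 < w.im}) :=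
      ⟨(g j).ev ((l : ℂ) * s₂), ⟨hl1, hlD⟩, (g j).iv_ev ((g j).den_ne hlD)⟩
    have h4 := h1.subset_connectedComponentIn h2 h3
    rw [← connectedComponentIn_eq hlC] at h4
    exact fun w hw ↦ h4 ⟨w, hw, rfl⟩
  -- the rational point
  obtain ⟨r, hr1, hr2⟩ := exists_rat_btwn (show x₁ < x₁ + ε by linarith)
  have hrball : (r : ℂ) ∈ ball (x₁ : ℂ) ε := by
    rw [mem_ball_iff_norm]
    have h1 : (r : ℂ) - (x₁ : ℂ) = (((r : ℝ) - x₁ : ℝ) : ℂ) := by push_cast; rfl
    rw [h1, Complex.norm_real, Real.norm_eq_abs, abs_of_pos (by linarith)]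
    linarith
  have hrsub := (hball _ hrball).1
  refine ⟨j, hj, r, (g j).iv r, (g j).den_iv hrsub, (g j).ev_iv hrsub, hV _ hrball, ?_⟩
  have hd0 := (g j).den_iv hrsub
  have h1 : ∀ᶠ s in 𝓝 ((g j).iv r), (g j).ev s ∈ ball (x₁ : ℂ) ε := by
    have h2 := ((g j).analytic_ev hd0).continuousAt
    refine h2.eventually ?_
    rw [(g j).ev_iv hrsub]
    exact isOpen_ball.mem_nhds hrball
  filter_upwards [h1, (g j).eventually_den hd0] with s hs1 hs2 hs3
  have h2 := hVp ((g j).ev s) ⟨hs1, hs3⟩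
  rwa [(g j).iv_ev hs2] at h2

end H32

end S_H32_Geom

section S_H32_FT1

open Complex Filter Metric
open scoped Topology

namespace H32

/-- The monomial in `e2, e4, e6` at a point. -/
noncomputable def mon (ν : Fin 3 → ℕ) (w : ℂ) : ℂ := e2 w ^ ν 0 * e4 w ^ ν 1 * e6 w ^ ν 2

lemma analytic_mon (ν : Fin 3 → ℕ) {w : ℂ} (hw : 0 < w.im) : AnalyticAt ℂ (mon ν) w := by
  have h2 : AnalyticAt ℂ e2 w := analytic_E2 w hw
  have h4 : AnalyticAt ℂ e4 w := analytic_E4 w hw
  have h6 : AnalyticAt ℂ e6 w := analytic_E6 w hw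
  exact ((h2.fun_pow _).fun_mul (h4.fun_pow _)).fun_mul (h6.fun_pow _)

lemma analytic_mon_ev (ν : Fin 3 → ℕ) {g : Mo} {s : ℂ} (hs : s ∈ g.D) :
    AnalyticAt ℂ (fun s ↦ mon ν (g.ev s)) s :=
  AnalyticAt.fun_comp (g := mon ν) (f := g.ev) (analytic_mon ν hs) (g.analytic_ev (g.den_ne hs))

theorem FT1 {ι T : Type*} [DecidableEq ι] (g : ι → Mo) (h0 : ∀ i, (0 : ℂ) ∈ (g i).D)
    (hfin : ∀ i j, i ≠ j → {s : ℂ | (g i).c * s + (g i).d ≠ 0 ∧
      (g j).c * s + (g j).d ≠ 0 ∧ ((g i).ev s).im = 0 ∧ ((g j).ev s).im = 0}.Finite)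
    (e : T → ι → Fin 3 → ℕ) (c : T → ℂ → ℂ) (hc : ∀ μ, AnalyticOnNhd ℂ (c μ) Set.univ) (k : ℕ) :
    ∀ (J : Finset ι) (_ : J.card = k) (S : Finset T)
      (_ : ∀ μ ∈ S, ∀ μ' ∈ S, (∀ j ∈ J, e μ j = e μ' j) → μ = μ')
      (_ : ∀ᶠ s in 𝓝 (0 : ℂ), ∑ μ ∈ S, c μ s * ∏ j ∈ J, mon (e μ j) ((g j).ev s) = 0),
      ∀ μ ∈ S, ∀ᶠ s in 𝓝 (0 : ℂ), c μ s = 0 := by
  classical
  induction k with
  | zero =>
    intro J hJ S hinj h μ hμ
    have hJe : J = ∅ := Finset.card_eq_zero.mp hJ
    subst hJe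
    have hS : S = {μ} := by
      ext μ'
      rw [Finset.mem_singleton]
      refine ⟨fun h' ↦ hinj μ' h' μ hμ (by simp), fun h' ↦ h' ▸ hμ⟩
    rw [hS] at h
    filter_upwards [h] with s hs
    simpa using hs
  | succ k ih =>
    intro J hJ S hinj h μ₀ hμ₀
    have hJne : J.Nonempty := by
      rw [← Finset.card_pos, hJ]; omega
    obtain ⟨j, hj, r, s₀, hd0, hev0, hs₀C, hexit⟩ :=
      exists_exit g J hJne (fun i _ ↦ h0 i) (fun i _ i' _ hii ↦ hfin i i' hii)
    set U : Set ℂ := ⋂ i ∈ J, (g i).D with hU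
    set U' : Set ℂ := ⋂ i ∈ J.erase j, (g i).D with hU'
    have hUo : IsOpen U := isOpen_biInter_finset fun i _ ↦ (g i).isOpen_D
    have hU'o : IsOpen U' := isOpen_biInter_finset fun i _ ↦ (g i).isOpen_D
    have h0U : (0 : ℂ) ∈ U := Set.mem_iInter₂.mpr fun i _ ↦ h0 i
    have h0U' : (0 : ℂ) ∈ U' := Set.mem_iInter₂.mpr fun i _ ↦ h0 i
    -- the whole sum vanishes on the component
    set F : ℂ → ℂ := fun s ↦ ∑ μ ∈ S, c μ s * ∏ j ∈ J, mon (e μ j) ((g j).ev s) with hF
    have hFana : AnalyticOnNhd ℂ F U := by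
      intro s hs
      refine Finset.analyticAt_fun_sum _ fun μ _ ↦ ?_
      refine (hc μ s trivial).fun_mul (Finset.analyticAt_fun_prod _ fun i hi ↦ ?_)
      exact analytic_mon_ev _ (Set.mem_iInter₂.mp hs i hi)
    have hF0 : Set.EqOn F 0 (connectedComponentIn U 0) :=
      (hFana.mono (connectedComponentIn_subset U 0)).eqOn_zero_of_preconnected_of_eventuallyEq_zero
        isPreconnected_connectedComponentIn (mem_connectedComponentIn h0U) h
    -- the coefficients with respect to the point j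
    set Cf : (Fin 3 → ℕ) → ℂ → ℂ := fun ν s ↦ ∑ μ ∈ S.filter (fun μ ↦ e μ j = ν),
      c μ s * ∏ i ∈ J.erase j, mon (e μ i) ((g i).ev s) with hCf
    have hCana : ∀ ν, AnalyticOnNhd ℂ (Cf ν) U' := by
      intro ν s hs
      refine Finset.analyticAt_fun_sum _ fun μ _ ↦ ?_
      refine (hc μ s trivial).fun_mul (Finset.analyticAt_fun_prod _ fun i hi ↦ ?_)
      exact analytic_mon_ev _ (Set.mem_iInter₂.mp hs i hi)
    have hFC : ∀ s, F s = ∑ ν ∈ S.image (fun μ ↦ e μ j), Cf ν s * mon ν ((g j).ev s) := by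
      intro s
      rw [hF]
      simp only
      rw [← Finset.sum_fiberwise_of_maps_to (t := S.image (fun μ ↦ e μ j)) (g := fun μ ↦ e μ j)
        (fun μ hμ ↦ Finset.mem_image_of_mem _ hμ)]
      refine Finset.sum_congr rfl fun ν _ ↦ ?_
      rw [hCf]
      simp only
      rw [Finset.sum_mul]
      refine Finset.sum_congr rfl fun μ hμ ↦ ?_
      rw [← Finset.prod_erase_mul J _ hj, (Finset.mem_filter.mp hμ).2]
      ring
    have hs₀U' : s₀ ∈ U' := connectedComponentIn_subset U' 0 hs₀C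
    have hsub : (g j).a - (g j).c * (r : ℂ) ≠ 0 := by
      rw [← hev0]; exact (g j).sub_ne hd0
    have hiv0 : (g j).iv r = s₀ := by rw [← hev0]; exact (g j).iv_ev hd0
    have hivana := (g j).analytic_iv hsub
    have hbd := boundary (S := S.image (fun μ ↦ e μ j)) (r := r)
      (c := fun ν w ↦ Cf ν ((g j).iv w)) (fun ν _ ↦ by
        refine AnalyticAt.fun_comp (g := Cf ν) (f := (g j).iv) ?_ hivana
        rw [hiv0]
        exact hCana ν s₀ hs₀U') (by
        have h1 : ∀ᶠ w in 𝓝 (r : ℂ), 0 < ((g j).ev ((g j).iv w)).im →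
            (g j).iv w ∈ connectedComponentIn U 0 := by
          have h2 : Tendsto (g j).iv (𝓝 (r : ℂ)) (𝓝 s₀) := by
            have := hivana.continuousAt.tendsto
            rwa [hiv0] at this
          exact h2.eventually hexit
        filter_upwards [h1, (g j).eventually_sub hsub] with w hw1 hw2 hw3
        have hw4 : (g j).ev ((g j).iv w) = w := (g j).ev_iv hw2
        rw [hw4] at hw1
        have h3 := hF0 (hw1 hw3)
        rw [hFC, hw4] at h3
        exact h3)
    -- the coefficients vanish near 0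
    have hC0 : ∀ ν ∈ S.image (fun μ ↦ e μ j), ∀ᶠ s in 𝓝 (0 : ℂ), Cf ν s = 0 := by
      intro ν hν
      have h1 := hbd ν hν
      have h2 : ∀ᶠ s in 𝓝 s₀, Cf ν s = 0 := by
        have h3 := ((g j).analytic_ev hd0).continuousAt
        rw [← hev0] at h1
        have h4 := h3.eventually h1
        filter_upwards [h4, (g j).eventually_den hd0] with s hs1 hs2
        rwa [(g j).iv_ev hs2] at hs1
      have h5 : Set.EqOn (Cf ν) 0 (connectedComponentIn U' 0) :=
        ((hCana ν).mono (connectedComponentIn_subset U' 0)).eqOn_zero_of_preconnected_of_eventuallyEq_zero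
          isPreconnected_connectedComponentIn hs₀C h2
      have h6 : connectedComponentIn U' 0 ∈ 𝓝 (0 : ℂ) :=
        (hU'o.connectedComponentIn).mem_nhds (mem_connectedComponentIn h0U')
      filter_upwards [h6] with s hs using h5 hs
    -- induction
    refine ih (J.erase j) (by rw [Finset.card_erase_of_mem hj, hJ]; rfl)
      (S.filter (fun μ ↦ e μ j = e μ₀ j)) ?_ (hC0 (e μ₀ j) (Finset.mem_image_of_mem _ hμ₀)) μ₀
      (Finset.mem_filter.mpr ⟨hμ₀, rfl⟩)
    intro μ hμ μ' hμ' heq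
    rw [Finset.mem_filter] at hμ hμ'
    refine hinj μ hμ.1 μ' hμ'.1 fun i hi ↦ ?_
    by_cases hij : i = j
    · rw [hij, hμ.2, hμ'.2]
    · exact heq i (Finset.mem_erase.mpr ⟨hij, hi⟩)

end H32

end S_H32_FT1

section S_H32_FT2

open Complex Filter Metric MvPolynomial
open scoped Topology Real

namespace H32

variable {m n : ℕ}

/-- The linear part of an affine form. -/
noncomputable def lin (α : Fin (m + 1) → ℂ) (v : Fin m → ℂ) : ℂ := ∑ k, α k.succ * v k

/-- The value of an affine form. -/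
noncomputable def lf (α : Fin (m + 1) → ℂ) (s : Fin m → ℂ) : ℂ := α 0 + lin α s

lemma lf_line (α : Fin (m + 1) → ℂ) (t v : Fin m → ℂ) (ζ : ℂ) :
    lf α (fun k ↦ t k + ζ * v k) = lin α v * ζ + lf α t := by
  unfold lf lin
  rw [Finset.sum_mul, add_comm (∑ _, _) (_ + _), add_assoc, ← Finset.sum_add_distrib]
  congr 1
  exact Finset.sum_congr rfl fun k _ ↦ by ring

/-- The restriction to the line through `t` in direction `v`. -/
noncomputable def lineMo (α β : Fin (m + 1) → ℂ) (t v : Fin m → ℂ)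
    (h : lin α v * lf β t - lf α t * lin β v ≠ 0) : Mo :=
  ⟨lin α v, lf α t, lin β v, lf β t, h⟩

lemma lineMo_ev (α β : Fin (m + 1) → ℂ) (t v : Fin m → ℂ)
    (h : lin α v * lf β t - lf α t * lin β v ≠ 0) (ζ : ℂ) :
    (lineMo α β t v h).ev ζ = lf α (fun k ↦ t k + ζ * v k) / lf β (fun k ↦ t k + ζ * v k) := by
  rw [lf_line, lf_line]
  rfl

/-- The directions which are good for a pair. -/
def PairGood (α β α' β' : Fin (m + 1) → ℂ) (t v : Fin m → ℂ) : Prop :=
  {ζ : ℂ | lin β v * ζ + lf β t ≠ 0 ∧ lin β' v * ζ + lf β' t ≠ 0 ∧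
    ((lin α v * ζ + lf α t) / (lin β v * ζ + lf β t)).im = 0 ∧
    ((lin α' v * ζ + lf α' t) / (lin β' v * ζ + lf β' t)).im = 0}.Finite

/-- The data of the several variable problem. -/
noncomputable def DM (A B : Fin n → Fin (m + 1) → ℂ) (Y R : Fin n → MvPolynomial (Fin m) ℂ)
    (s : Fin m → ℂ) : Fin m ⊕ Fin n × Fin 3 → ℂ :=
  Sum.elim s fun x ↦ ![e2 (lf (A x.1) s / lf (B x.1) s) - 3 * eval s (R x.1) / (π * eval s (Y x.1)),
    e4 (lf (A x.1) s / lf (B x.1) s), e6 (lf (A x.1) s / lf (B x.1) s)] x.2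

/-- Clearing denominators. -/
noncomputable def QM (Y R : Fin n → MvPolynomial (Fin m) ℂ)
    (P : MvPolynomial (Fin m ⊕ Fin n × Fin 3) ℂ) :
    MvPolynomial (Fin n × Fin 3) (MvPolynomial (Fin m) ℂ) :=
  ∑ μ ∈ P.support, C (C (P.coeff μ) * ∏ k, X k ^ μ (Sum.inl k)) *
    ∏ j, ((C (Y j) * X (j, 0) - C (C (3 / (π : ℂ)) * R j)) ^ μ (Sum.inr (j, 0)) *
      C (Y j) ^ (P.totalDegree - μ (Sum.inr (j, 0))) * X (j, 1) ^ μ (Sum.inr (j, 1)) *
      X (j, 2) ^ μ (Sum.inr (j, 2)))

lemma eval_QM (Y R : Fin n → MvPolynomial (Fin m) ℂ) (P : MvPolynomial (Fin m ⊕ Fin n × Fin 3) ℂ)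
    (s : Fin m → ℂ) (x : Fin n × Fin 3 → ℂ) (hY : ∀ j, eval s (Y j) ≠ 0) :
    eval₂ (eval s) x (QM Y R P) = (∏ j, eval s (Y j)) ^ P.totalDegree *
      aeval (Sum.elim s fun p : Fin n × Fin 3 ↦ ![x (p.1, 0) - 3 * eval s (R p.1) /
        (π * eval s (Y p.1)), x (p.1, 1), x (p.1, 2)] p.2 : Fin m ⊕ Fin n × Fin 3 → ℂ) P := by
  have hpi : (π : ℂ) ≠ 0 := by exact_mod_cast Real.pi_ne_zero
  rw [aeval_def, eval₂_eq' _ _ P, QM, eval₂_sum, Finset.mul_sum]
  refine Finset.sum_congr rfl fun μ hμ ↦ ?_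
  have hle : ∀ j, μ (Sum.inr (j, 0)) ≤ P.totalDegree := fun j ↦ by
    refine le_trans ?_ (le_totalDegree hμ)
    rw [Finsupp.sum_fintype _ _ (by simp)]
    exact Finset.single_le_sum (f := fun l ↦ μ l) (fun _ _ ↦ Nat.zero_le _) (Finset.mem_univ _)
  simp only [eval₂_mul, eval₂_C, eval₂_prod, eval₂_pow, eval₂_sub, eval₂_X, map_mul, map_prod,
    map_pow, eval_X, eval_C]
  rw [Fintype.prod_sum_type, Fintype.prod_prod_type]
  simp only [Sum.elim_inl, Sum.elim_inr, Fin.prod_univ_three, Matrix.cons_val_zero,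
    Matrix.cons_val_one, Matrix.cons_val, Algebra.algebraMap_self, RingHom.id_apply]
  rw [← Finset.prod_pow]
  have key : ∏ j, ((eval s (Y j) * x (j, 0) - 3 / (π : ℂ) * eval s (R j)) ^ μ (Sum.inr (j, 0)) *
      eval s (Y j) ^ (P.totalDegree - μ (Sum.inr (j, 0))) * x (j, 1) ^ μ (Sum.inr (j, 1)) *
      x (j, 2) ^ μ (Sum.inr (j, 2))) =
      (∏ j, eval s (Y j) ^ P.totalDegree) * ∏ j, ((x (j, 0) - 3 * eval s (R j) /
        (π * eval s (Y j))) ^ μ (Sum.inr (j, 0)) * x (j, 1) ^ μ (Sum.inr (j, 1)) *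
      x (j, 2) ^ μ (Sum.inr (j, 2))) := by
    rw [← Finset.prod_mul_distrib]
    refine Finset.prod_congr rfl fun j _ ↦ ?_
    have hj := hY j
    have e1 : eval s (Y j) * x (j, 0) - 3 / (π : ℂ) * eval s (R j) =
        eval s (Y j) * (x (j, 0) - 3 * eval s (R j) / (π * eval s (Y j))) := by
      field_simp
    have e2 : eval s (Y j) ^ P.totalDegree = eval s (Y j) ^ μ (Sum.inr (j, 0)) *
        eval s (Y j) ^ (P.totalDegree - μ (Sum.inr (j, 0))) := by
      rw [← pow_add, Nat.add_sub_cancel' (hle j)]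
    rw [e1, e2, mul_pow]
    ring
  rw [key]
  ring

theorem FT2 (A B : Fin n → Fin (m + 1) → ℂ) (Y R : Fin n → MvPolynomial (Fin m) ℂ)
    (t : Fin m → ℂ) (him : ∀ j, 0 < (lf (A j) t / lf (B j) t).im) (hY : ∀ j, eval t (Y j) ≠ 0)
    (hgood : Dense {v : Fin m → ℂ | (∀ j, lin (A j) v * lf (B j) t - lf (A j) t * lin (B j) v ≠ 0) ∧
      ∀ i j, i ≠ j → PairGood (A i) (B i) (A j) (B j) t v})
    (P : MvPolynomial (Fin m ⊕ Fin n × Fin 3) ℂ)
    (h : ∀ᶠ s in 𝓝 t, aeval (DM A B Y R s) P = 0) : P = 0 := by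
  classical
  have hYev : ∀ᶠ s in 𝓝 t, ∀ j, eval s (Y j) ≠ 0 := by
    rw [Filter.eventually_all]
    intro j
    exact (MvPolynomial.continuous_eval (Y j)).continuousAt.eventually_ne (hY j)
  -- the polynomial with cleared denominators vanishes
  have hQ : QM Y R P = 0 := by
    by_contra hne
    obtain ⟨μ₀, hμ₀⟩ := MvPolynomial.support_nonempty.mpr hne
    apply MvPolynomial.mem_support_iff.mp hμ₀
    -- vanishing in the good directions
    have hv : ∀ v : Fin m → ℂ, v ∈ {v : Fin m → ℂ |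
        (∀ j, lin (A j) v * lf (B j) t - lf (A j) t * lin (B j) v ≠ 0) ∧
        ∀ i j, i ≠ j → PairGood (A i) (B i) (A j) (B j) t v} →
        eval (fun k ↦ t k + v k) ((QM Y R P).coeff μ₀) = 0 := by
      rintro v ⟨hdet, hpair⟩
      have hline : Continuous fun ζ : ℂ ↦ (fun k ↦ t k + ζ * v k : Fin m → ℂ) := by fun_prop
      have hline0 : (fun k ↦ t k + (0 : ℂ) * v k : Fin m → ℂ) = t := by ext k; simp
      have htend : Tendsto (fun ζ : ℂ ↦ (fun k ↦ t k + ζ * v k : Fin m → ℂ)) (𝓝 0) (𝓝 t) := by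
        have := hline.tendsto 0
        rwa [hline0] at this
      have hcana : ∀ μ : Fin n × Fin 3 →₀ ℕ, AnalyticOnNhd ℂ
          (fun ζ ↦ eval (fun k ↦ t k + ζ * v k) ((QM Y R P).coeff μ)) Set.univ := by
        intro μ ζ _
        have h1 : AnalyticAt ℂ (fun ζ ↦ aeval (fun k ↦ t k + ζ * v k) ((QM Y R P).coeff μ)) ζ :=
          AnalyticAt.aeval_mvPolynomial (fun k ↦ by fun_prop) _
        exact h1
      have key := FT1 (T := Fin n × Fin 3 →₀ ℕ)
        (fun j ↦ lineMo (A j) (B j) t v (hdet j)) (fun j ↦ by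
          change 0 < ((lineMo (A j) (B j) t v (hdet j)).ev 0).im
          rw [lineMo_ev, hline0]
          exact him j)
        (fun i j hij ↦ hpair i j hij)
        (fun μ j l ↦ μ (j, l)) (fun μ ζ ↦ eval (fun k ↦ t k + ζ * v k) ((QM Y R P).coeff μ))
        hcana (Finset.univ : Finset (Fin n)).card Finset.univ rfl (QM Y R P).support
        (fun μ _ μ' _ hh ↦ by
          ext ⟨j, l⟩
          exact congrFun (hh j (Finset.mem_univ j)) l)
        (by
          filter_upwards [htend.eventually h, htend.eventually hYev] with ζ hζ hYζ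
          have h1 := eval_QM Y R P (fun k ↦ t k + ζ * v k) (fun x ↦
            ![e2 (lf (A x.1) (fun k ↦ t k + ζ * v k) / lf (B x.1) (fun k ↦ t k + ζ * v k)),
              e4 (lf (A x.1) (fun k ↦ t k + ζ * v k) / lf (B x.1) (fun k ↦ t k + ζ * v k)),
              e6 (lf (A x.1) (fun k ↦ t k + ζ * v k) / lf (B x.1) (fun k ↦ t k + ζ * v k))] x.2) hYζ
          have h2 : aeval (Sum.elim (fun k ↦ t k + ζ * v k) fun p : Fin n × Fin 3 ↦
              ![e2 (lf (A p.1) (fun k ↦ t k + ζ * v k) / lf (B p.1) (fun k ↦ t k + ζ * v k)) -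
                3 * eval (fun k ↦ t k + ζ * v k) (R p.1) /
                (π * eval (fun k ↦ t k + ζ * v k) (Y p.1)),
              e4 (lf (A p.1) (fun k ↦ t k + ζ * v k) / lf (B p.1) (fun k ↦ t k + ζ * v k)),
              e6 (lf (A p.1) (fun k ↦ t k + ζ * v k) / lf (B p.1) (fun k ↦ t k + ζ * v k))]
              p.2 : Fin m ⊕ Fin n × Fin 3 → ℂ) P = 0 := hζ
          simp only [Matrix.cons_val_zero, Matrix.cons_val_one, Matrix.cons_val] at h1
          rw [h2, mul_zero, eval₂_eq'] at h1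
          rw [← h1]
          refine Finset.sum_congr rfl fun μ _ ↦ ?_
          congr 1
          rw [Fintype.prod_prod_type]
          refine Finset.prod_congr rfl fun j _ ↦ ?_
          rw [Fin.prod_univ_three, lineMo_ev]
          rfl)
        μ₀ hμ₀
      have h3 : Set.EqOn (fun ζ ↦ eval (fun k ↦ t k + ζ * v k) ((QM Y R P).coeff μ₀)) 0 Set.univ :=
        (hcana μ₀).eqOn_zero_of_preconnected_of_eventuallyEq_zero isPreconnected_univ
          (Set.mem_univ 0) key
      have h4 := h3 (Set.mem_univ 1)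
      simp only [one_mul, Pi.zero_apply] at h4
      exact h4
    -- vanishing everywhere
    have hcont : Continuous fun v : Fin m → ℂ ↦ eval (fun k ↦ t k + v k) ((QM Y R P).coeff μ₀) := by
      have h1 : Continuous fun v : Fin m → ℂ ↦ (fun k ↦ t k + v k : Fin m → ℂ) := by fun_prop
      exact (MvPolynomial.continuous_eval _).comp h1
    have hall := Continuous.ext_on hgood hcont continuous_const hv
    apply MvPolynomial.funext
    intro x
    have h5 := congrFun hall (fun k ↦ x k - t k)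
    simp only [add_sub_cancel] at h5
    rw [map_zero]
    exact h5
  -- conclusion
  have hprod : rename Sum.inl (∏ j, Y j) * P = 0 := by
    apply MvPolynomial.funext
    intro x
    rw [map_mul, map_zero, eval_rename, map_prod]
    by_cases hz : ∏ j, eval (x ∘ Sum.inl) (Y j) = 0
    · rw [hz, zero_mul]
    · have hYx : ∀ j, eval (x ∘ Sum.inl) (Y j) ≠ 0 := fun j ↦
        Finset.prod_ne_zero_iff.mp hz j (Finset.mem_univ j)
      have h1 := eval_QM Y R P (x ∘ Sum.inl) (fun p ↦ ![x (Sum.inr (p.1, 0)) +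
        3 * eval (x ∘ Sum.inl) (R p.1) / (π * eval (x ∘ Sum.inl) (Y p.1)),
        x (Sum.inr (p.1, 1)), x (Sum.inr (p.1, 2))] p.2) hYx
      rw [hQ, eval₂_zero] at h1
      have h2 := (mul_eq_zero.mp h1.symm).resolve_left (pow_ne_zero _ hz)
      have h3 : (Sum.elim (x ∘ Sum.inl) fun p : Fin n × Fin 3 ↦
          ![![x (Sum.inr (p.1, 0)) + 3 * eval (x ∘ Sum.inl) (R p.1) /
            (π * eval (x ∘ Sum.inl) (Y p.1)), x (Sum.inr (p.1, 1)), x (Sum.inr (p.1, 2))] 0 -
            3 * eval (x ∘ Sum.inl) (R p.1) / (π * eval (x ∘ Sum.inl) (Y p.1)),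
            ![x (Sum.inr (p.1, 0)) + 3 * eval (x ∘ Sum.inl) (R p.1) /
            (π * eval (x ∘ Sum.inl) (Y p.1)), x (Sum.inr (p.1, 1)), x (Sum.inr (p.1, 2))] 1,
            ![x (Sum.inr (p.1, 0)) + 3 * eval (x ∘ Sum.inl) (R p.1) /
            (π * eval (x ∘ Sum.inl) (Y p.1)), x (Sum.inr (p.1, 1)), x (Sum.inr (p.1, 2))] 2]
            p.2 : Fin m ⊕ Fin n × Fin 3 → ℂ) = x := by
        ext y
        rcases y with k | ⟨j, l⟩
        · rfl
        · fin_cases l <;> simp
      have h4 : aeval x P = 0 := by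
        rw [← h3]
        exact h2
      have h5 : eval x P = 0 := h4
      rw [h5, mul_zero]
  rcases mul_eq_zero.mp hprod with h1 | h1
  · exfalso
    have h2 : (∏ j, Y j) = 0 := rename_injective _ Sum.inl_injective (by rw [h1, map_zero])
    have h3 := congrArg (eval t) h2
    rw [map_prod, map_zero] at h3
    obtain ⟨j, -, hj⟩ := Finset.prod_eq_zero_iff.mp h3
    exact hY j hj
  · exact h1

end H32

end S_H32_FT2

section S_H32_Pairs

open Complex Filter Metric
open scoped Topology Real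

namespace H32

/-- The real alternating form `Im (x conj y)`. -/
noncomputable def om (x y : ℂ) : ℝ := x.im * y.re - x.re * y.im

lemma om_real_mul (l μ : ℝ) (x y : ℂ) : om (l * x) (μ * y) = l * μ * om x y := by
  simp [om]; ring

lemma om_self (x : ℂ) : om x x = 0 := by simp [om]; ring

lemma om_swap (x y : ℂ) : om x y = -om y x := by simp [om]; ring

lemma om_zero_line {x y : ℂ} (h : om x y = 0) :
    ∃ (e : ℂ) (l μ : ℝ), x = l * e ∧ y = μ * e := by
  by_cases hx : x = 0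
  · exact ⟨y, 0, 1, by simp [hx], by simp⟩
  · refine ⟨x, 1, (y.re * x.re + y.im * x.im) / Complex.normSq x, by simp, ?_⟩
    have hn : Complex.normSq x ≠ 0 := (Complex.normSq_pos.mpr hx).ne'
    have h' : x.im * y.re - x.re * y.im = 0 := h
    apply Complex.ext
    · rw [Complex.mul_re, Complex.ofReal_re, Complex.ofReal_im, zero_mul, sub_zero]
      field_simp
      rw [Complex.normSq_apply]
      linear_combination x.im * h'
    · rw [Complex.mul_im, Complex.ofReal_re, Complex.ofReal_im, zero_mul, add_zero]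
      field_simp
      rw [Complex.normSq_apply]
      linear_combination (-x.re) * h'

/-- A complex matrix which maps reals to reals is a multiple of a real matrix. -/
lemma real_matrix {p q r s : ℂ} (hdet : p * s - q * r ≠ 0) (h1 : om p r = 0) (h2 : om q s = 0)
    (h3 : om p s + om q r = 0) : ∃ (e : ℂ) (a b c d : ℝ), p = a * e ∧ q = b * e ∧ r = c * e ∧
      s = d * e := by
  obtain ⟨e, l1, l2, hp, hr⟩ := om_zero_line h1
  obtain ⟨f, l3, l4, hq, hs⟩ := om_zero_line h2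
  have h4 : (l1 * l4 - l3 * l2) * om e f = 0 := by
    rw [hp, hq, hr, hs, om_real_mul, om_real_mul, om_swap f e] at h3
    linear_combination h3
  have h5 : l1 * l4 - l3 * l2 ≠ 0 := by
    intro h
    apply hdet
    rw [hp, hq, hr, hs]
    have h' : (l1 : ℂ) * l4 - l3 * l2 = 0 := by exact_mod_cast congrArg (Complex.ofReal) h
    linear_combination e * f * h'
  have h6 : om e f = 0 := (mul_eq_zero.mp h4).resolve_left h5
  obtain ⟨u, m1, m2, he, hf⟩ := om_zero_line h6
  refine ⟨u, l1 * m1, l3 * m2, l2 * m1, l4 * m2, ?_, ?_, ?_, ?_⟩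
  · rw [hp, he]; push_cast; ring
  · rw [hq, hf]; push_cast; ring
  · rw [hr, he]; push_cast; ring
  · rw [hs, hf]; push_cast; ring

/-- The four entries of `M₁ adj(M₂)`. -/
noncomputable def QQ4 (a b c d a' b' c' d' : ℂ) : Fin 4 → ℂ :=
  ![a * d' - b * c', b * a' - a * b', c * d' - d * c', d * a' - c * b']

lemma finite_pair {a b c d a' b' c' d' : ℂ} (h1 : a * d - b * c ≠ 0) (h2 : a' * d' - b' * c' ≠ 0)
    (h : ∃ k l, om (QQ4 a b c d a' b' c' d' k) (QQ4 a b c d a' b' c' d' l) ≠ 0) :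
    {ζ : ℂ | c * ζ + d ≠ 0 ∧ c' * ζ + d' ≠ 0 ∧ ((a * ζ + b) / (c * ζ + d)).im = 0 ∧
      ((a' * ζ + b') / (c' * ζ + d')).im = 0}.Finite := by
  set p : ℂ := a * d' - b * c' with hp
  set q : ℂ := b * a' - a * b' with hq
  set r : ℂ := c * d' - d * c' with hr
  set s : ℂ := d * a' - c * b' with hs
  set P : Polynomial ℝ := Polynomial.C (om p r) * Polynomial.X ^ 2 +
    Polynomial.C (om p s + om q r) * Polynomial.X + Polynomial.C (om q s) with hP
  have hPne : P ≠ 0 := by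
    intro h0
    have c0 : om q s = 0 := by
      have := congrArg (fun f ↦ Polynomial.coeff f 0) h0
      simpa [hP, Polynomial.coeff_X, Polynomial.coeff_C] using this
    have c1 : om p s + om q r = 0 := by
      have := congrArg (fun f ↦ Polynomial.coeff f 1) h0
      simpa [hP, Polynomial.coeff_X, Polynomial.coeff_C] using this
    have c2 : om p r = 0 := by
      have := congrArg (fun f ↦ Polynomial.coeff f 2) h0
      simpa [hP, Polynomial.coeff_X, Polynomial.coeff_C] using this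
    have hdet : p * s - q * r ≠ 0 := by
      have : p * s - q * r = (a * d - b * c) * (a' * d' - b' * c') := by
        rw [hp, hq, hr, hs]; ring
      rw [this]
      exact mul_ne_zero h1 h2
    obtain ⟨e, x1, x2, x3, x4, e1, e2, e3, e4⟩ := real_matrix hdet c2 c0 c1
    obtain ⟨k, l, hkl⟩ := h
    apply hkl
    have hx : ∃ x : Fin 4 → ℝ, ∀ k, QQ4 a b c d a' b' c' d' k = x k * e := by
      refine ⟨![x1, x2, x3, x4], fun k ↦ ?_⟩
      fin_cases k
      · exact e1
      · exact e2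
      · exact e3
      · exact e4
    obtain ⟨x, hx⟩ := hx
    rw [hx, hx, om_real_mul, om_self, mul_zero]
  have hroots : {x : ℝ | P.IsRoot x}.Finite := Polynomial.finite_setOfPred_isRoot hPne
  refine (hroots.image (fun x : ℝ ↦ (d' * x - b') / (a' - c' * x))).subset ?_
  rintro ζ ⟨hζ1, hζ2, hζ3, hζ4⟩
  set x : ℝ := ((a' * ζ + b') / (c' * ζ + d')).re with hx
  have hxe : (a' * ζ + b') / (c' * ζ + d') = x := by
    apply Complex.ext
    · simp [hx]
    · simpa using hζ4
  have hxe' : a' * ζ + b' = x * (c' * ζ + d') := (div_eq_iff hζ2).mp hxe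
  set y : ℝ := ((a * ζ + b) / (c * ζ + d)).re with hy
  have hye : (a * ζ + b) / (c * ζ + d) = y := by
    apply Complex.ext
    · simp [hy]
    · simpa using hζ3
  have hye' : a * ζ + b = y * (c * ζ + d) := (div_eq_iff hζ1).mp hye
  have hdd : a' - c' * x ≠ 0 := by
    intro h0
    apply h2
    have h3 : a' = c' * x := by linear_combination h0
    have h4 : b' = d' * x := by rw [h3] at hxe'; linear_combination hxe'
    rw [h3, h4]; ring
  refine ⟨x, ?_, ?_⟩
  · -- the relation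
    have e1 : (c' * ζ + d') * (p * x + q) = (a' * d' - b' * c') * (a * ζ + b) := by
      rw [hp, hq]
      linear_combination (-(a * d' - b * c')) * hxe'
    have e2 : (c' * ζ + d') * (r * x + s) = (a' * d' - b' * c') * (c * ζ + d) := by
      rw [hr, hs]
      linear_combination (-(c * d' - d * c')) * hxe'
    have e3 : p * x + q = y * (r * x + s) := by
      have : (c' * ζ + d') * (p * x + q - y * (r * x + s)) = 0 := by
        have h5 := e1
        have h6 := e2
        linear_combination h5 - y * h6 + (a' * d' - b' * c') * hye'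
      have h7 := (mul_eq_zero.mp this).resolve_left hζ2
      linear_combination h7
    have e4 : om (p * x + q) (r * x + s) = 0 := by
      rw [e3]
      have := om_real_mul y 1 (r * x + s) (r * x + s)
      rw [om_self, mul_zero] at this
      simpa using this
    have e5 : P.eval x = om (p * x + q) (r * x + s) := by
      rw [hP]
      simp only [Polynomial.eval_add, Polynomial.eval_mul, Polynomial.eval_C, Polynomial.eval_pow,
        Polynomial.eval_X, om, Complex.add_re, Complex.add_im, Complex.mul_re, Complex.mul_im,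
        Complex.ofReal_re, Complex.ofReal_im]
      ring
    change P.eval x = 0
    rw [e5, e4]
  · simp only
    rw [div_eq_iff hdd]
    linear_combination (-1) * hxe'

section dense

variable {E : Type*} [NormedAddCommGroup E] [NormedSpace ℝ E]

lemma dense_of_line {S : Set E} (v₀ : E) (h : ∀ v : E, {x : ℝ | v + x • (v₀ - v) ∉ S}.Finite) :
    Dense S := by
  intro v
  have h1 : Dense {x : ℝ | v + x • (v₀ - v) ∉ S}ᶜ := (h v).countable.dense_compl ℝ
  have h2 : Continuous fun x : ℝ ↦ v + x • (v₀ - v) := by fun_prop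
  have h3 := map_mem_closure h2 (h1 0) (t := S) (fun x hx ↦ by
    by_contra hcon
    exact hx hcon)
  simpa using h3

end dense

variable {m n : ℕ}

lemma lin_line (α : Fin (m + 1) → ℂ) (v w : Fin m → ℂ) (x : ℂ) :
    lin α (v + x • w) = lin α v + x * lin α w := by
  unfold lin
  rw [Finset.mul_sum, ← Finset.sum_add_distrib]
  refine Finset.sum_congr rfl fun k _ ↦ ?_
  simp only [Pi.add_apply, Pi.smul_apply, smul_eq_mul]
  ring

lemma continuous_lin (α : Fin (m + 1) → ℂ) : Continuous (lin α) := by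
  unfold lin
  fun_prop

lemma continuous_lf (α : Fin (m + 1) → ℂ) : Continuous (lf α) := by
  unfold lf
  exact continuous_const.add (continuous_lin α)

/-- The determinant attached to a direction. -/
noncomputable def dt (α β : Fin (m + 1) → ℂ) (t v : Fin m → ℂ) : ℂ :=
  lin α v * lf β t - lf α t * lin β v

lemma dt_line (α β : Fin (m + 1) → ℂ) (t v w : Fin m → ℂ) (x : ℂ) :
    dt α β t (v + x • w) = dt α β t v + x * dt α β t w := by
  unfold dt
  rw [lin_line, lin_line]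
  ring

lemma dt_real_line (α β : Fin (m + 1) → ℂ) (t v w : Fin m → ℂ) (x : ℝ) :
    dt α β t (v + x • w) = dt α β t v + x * dt α β t w := by
  have : (v + x • w : Fin m → ℂ) = v + (x : ℂ) • w := by
    ext k; simp
  rw [this, dt_line]

lemma continuous_dt (α β : Fin (m + 1) → ℂ) (t : Fin m → ℂ) : Continuous (dt α β t) := by
  unfold dt
  exact ((continuous_lin α).mul continuous_const).sub (continuous_const.mul (continuous_lin β))

lemma dense_dt {α β : Fin (m + 1) → ℂ} {t : Fin m → ℂ} (h : ∃ v, dt α β t v ≠ 0) :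
    Dense {v | dt α β t v ≠ 0} := by
  obtain ⟨v₀, hv₀⟩ := h
  refine dense_of_line v₀ fun v ↦ ?_
  have h1 : {x : ℝ | v + x • (v₀ - v) ∉ {v | dt α β t v ≠ 0}} ⊆
      {x : ℝ | (Polynomial.C (dt α β t v) + Polynomial.C (dt α β t (v₀ - v)) *
        Polynomial.X : Polynomial ℂ).IsRoot (x : ℂ)} := by
    intro x hx
    simp only [Set.mem_ofPred_eq, not_not] at hx
    rw [dt_real_line] at hx
    simp only [Set.mem_ofPred_eq, Polynomial.IsRoot, Polynomial.eval_add, Polynomial.eval_C,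
      Polynomial.eval_mul, Polynomial.eval_X]
    linear_combination hx
  have hne : (Polynomial.C (dt α β t v) + Polynomial.C (dt α β t (v₀ - v)) *
        Polynomial.X : Polynomial ℂ) ≠ 0 := by
    intro h0
    apply hv₀
    have h2 := congrArg (Polynomial.eval 1) h0
    simp only [Polynomial.eval_add, Polynomial.eval_C, Polynomial.eval_mul, Polynomial.eval_X,
      mul_one, Polynomial.eval_zero] at h2
    have h3 := dt_line α β t v (v₀ - v) 1
    rw [one_smul, one_mul, add_sub_cancel] at h3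
    rw [h3]; exact h2
  have h4 := (Polynomial.finite_setOfPred_isRoot hne).preimage
    (f := (fun x : ℝ ↦ (x : ℂ))) (Complex.ofReal_injective.injOn)
  exact h4.subset h1

/-- The four linear forms attached to a pair. -/
noncomputable def Qv (α β α' β' : Fin (m + 1) → ℂ) (t v : Fin m → ℂ) : Fin 4 → ℂ :=
  QQ4 (lin α v) (lf α t) (lin β v) (lf β t) (lin α' v) (lf α' t) (lin β' v) (lf β' t)

lemma Qv_line (α β α' β' : Fin (m + 1) → ℂ) (t v w : Fin m → ℂ) (x : ℂ) (k : Fin 4) :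
    Qv α β α' β' t (v + x • w) k = Qv α β α' β' t v k + x * Qv α β α' β' t w k := by
  unfold Qv QQ4
  rw [lin_line, lin_line, lin_line, lin_line]
  fin_cases k
  · simp; ring
  · simp; ring
  · simp; ring
  · simp; ring

lemma Qv_real_line (α β α' β' : Fin (m + 1) → ℂ) (t v w : Fin m → ℂ) (x : ℝ) (k : Fin 4) :
    Qv α β α' β' t (v + x • w) k = Qv α β α' β' t v k + x * Qv α β α' β' t w k := by
  have : (v + x • w : Fin m → ℂ) = v + (x : ℂ) • w := by
    ext k; simp
  rw [this, Qv_line]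

lemma continuous_Qv (α β α' β' : Fin (m + 1) → ℂ) (t : Fin m → ℂ) (k : Fin 4) :
    Continuous fun v ↦ Qv α β α' β' t v k := by
  have h1 := continuous_lin α
  have h2 := continuous_lin β
  have h3 := continuous_lin α'
  have h4 := continuous_lin β'
  unfold Qv QQ4
  fin_cases k
  · simp; fun_prop
  · simp; fun_prop
  · simp; fun_prop
  · simp; fun_prop

lemma dense_Qv {α β α' β' : Fin (m + 1) → ℂ} {t : Fin m → ℂ}
    (h : ∃ v k l, om (Qv α β α' β' t v k) (Qv α β α' β' t v l) ≠ 0) :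
    Dense {v | ∃ k l, om (Qv α β α' β' t v k) (Qv α β α' β' t v l) ≠ 0} := by
  obtain ⟨v₀, k, l, hv₀⟩ := h
  refine dense_of_line v₀ fun v ↦ ?_
  set a := Qv α β α' β' t v k
  set b := Qv α β α' β' t v l
  set a' := Qv α β α' β' t (v₀ - v) k
  set b' := Qv α β α' β' t (v₀ - v) l
  set P : Polynomial ℝ := Polynomial.C (om a b) + Polynomial.C (om a' b + om a b') * Polynomial.X +
    Polynomial.C (om a' b') * Polynomial.X ^ 2 with hP
  have hPev : ∀ x : ℝ, P.eval x = om (a + x * a') (b + x * b') := by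
    intro x
    rw [hP]
    simp only [Polynomial.eval_add, Polynomial.eval_mul, Polynomial.eval_C, Polynomial.eval_pow,
      Polynomial.eval_X, om, Complex.add_re, Complex.add_im, Complex.mul_re, Complex.mul_im,
      Complex.ofReal_re, Complex.ofReal_im]
    ring
  have hne : P ≠ 0 := by
    intro h0
    apply hv₀
    have h2 := hPev 1
    rw [h0, Polynomial.eval_zero] at h2
    have h3 := Qv_line α β α' β' t v (v₀ - v) 1 k
    have h4 := Qv_line α β α' β' t v (v₀ - v) 1 l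
    rw [one_smul, one_mul, add_sub_cancel] at h3 h4
    rw [h3, h4]
    simpa using h2.symm
  refine (Polynomial.finite_setOfPred_isRoot hne).subset ?_
  intro x hx
  simp only [Set.mem_ofPred_eq, not_exists, not_not] at hx
  have h1 := hx k l
  rw [Qv_real_line, Qv_real_line] at h1
  change P.eval x = 0
  rw [hPev]
  exact h1

theorem dense_good (A B : Fin n → Fin (m + 1) → ℂ) (t : Fin m → ℂ)
    (h1 : ∀ j, ∃ v, dt (A j) (B j) t v ≠ 0)
    (h2 : ∀ i j, i ≠ j → ∃ v k l, om (Qv (A i) (B i) (A j) (B j) t v k)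
      (Qv (A i) (B i) (A j) (B j) t v l) ≠ 0) :
    Dense {v : Fin m → ℂ | (∀ j, lin (A j) v * lf (B j) t - lf (A j) t * lin (B j) v ≠ 0) ∧
      ∀ i j, i ≠ j → PairGood (A i) (B i) (A j) (B j) t v} := by
  set S1 : Fin n → Set (Fin m → ℂ) := fun j ↦ {v | dt (A j) (B j) t v ≠ 0} with hS1
  set S2 : {x : Fin n × Fin n // x.1 ≠ x.2} → Set (Fin m → ℂ) := fun x ↦
    {v | ∃ k l, om (Qv (A x.1.1) (B x.1.1) (A x.1.2) (B x.1.2) t v k)
      (Qv (A x.1.1) (B x.1.1) (A x.1.2) (B x.1.2) t v l) ≠ 0} with hS2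
  have hd1 : Dense (⋂ j, S1 j) := dense_iInter_of_isOpen
    (fun j ↦ isOpen_ne_fun (continuous_dt _ _ _) continuous_const) fun j ↦ dense_dt (h1 j)
  have ho1 : IsOpen (⋂ j, S1 j) := isOpen_iInter_of_finite
    fun j ↦ isOpen_ne_fun (continuous_dt _ _ _) continuous_const
  have hd2 : Dense (⋂ x, S2 x) := by
    refine dense_iInter_of_isOpen (fun x ↦ ?_) fun x ↦ dense_Qv (h2 _ _ x.2)
    have : S2 x = ⋃ k, ⋃ l, {v | om (Qv (A x.1.1) (B x.1.1) (A x.1.2) (B x.1.2) t v k)
      (Qv (A x.1.1) (B x.1.1) (A x.1.2) (B x.1.2) t v l) ≠ 0} := by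
      ext v; simp [hS2]
    rw [this]
    refine isOpen_iUnion fun k ↦ isOpen_iUnion fun l ↦ isOpen_ne_fun ?_ continuous_const
    have hk := continuous_Qv (A x.1.1) (B x.1.1) (A x.1.2) (B x.1.2) t k
    have hl := continuous_Qv (A x.1.1) (B x.1.1) (A x.1.2) (B x.1.2) t l
    unfold om
    exact ((Complex.continuous_im.comp hk).mul (Complex.continuous_re.comp hl)).sub
      ((Complex.continuous_re.comp hk).mul (Complex.continuous_im.comp hl))
  have hd : Dense ((⋂ j, S1 j) ∩ ⋂ x, S2 x) := hd1.inter_of_isOpen_left hd2 ho1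
  refine hd.mono ?_
  rintro v ⟨hv1, hv2⟩
  rw [Set.mem_iInter] at hv1 hv2
  refine ⟨fun j ↦ hv1 j, fun i j hij ↦ ?_⟩
  have h3 := hv2 ⟨(i, j), hij⟩
  exact finite_pair (hv1 i) (hv1 j) h3

end H32

end S_H32_Pairs
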