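import Mathlib
import Pool.Agent.H32.AKM.P06
import Pool.Agent.H32.AKM.P07
import Pool.Agent.H32.AKM.P24

/-! Modular Schanuel with derivatives for points algebraic over a field with good approximations, part 25: this file joins several modules to save build time. -/

section S_H32_T4_A6

open UpperHalfPlane hiding I
open Complex EisensteinSeries ModularForm MatrixGroups Manifold
open scoped Real Topology
open Derivative

namespace H32.T4

lemma two_pi_I_ne : (2 * π * I : ℂ) ≠ 0 := by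
  have : (π : ℂ) ≠ 0 := by exact_mod_cast Real.pi_ne_zero
  simp [this]

lemma hasDeriv_E2' (τ : ℍ) : HasDerivAt (fun w ↦ E2 (ofComplex w))
    (2 * π * I * normalizedDerivOfComplex E2 τ) τ := by
  have hm : MDiff E2 := IntQ_E2.mdiff
  rw [UpperHalfPlane.mdifferentiable_iff] at hm
  have h2 := (hm τ τ.im_pos).differentiableAt (isOpen_upperHalfPlaneSet.mem_nhds τ.im_pos)
  have h3 : 2 * π * I * normalizedDerivOfComplex E2 τ = deriv (E2 ∘ ofComplex) τ := by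
    unfold normalizedDerivOfComplex
    rw [← mul_assoc, mul_inv_cancel₀ two_pi_I_ne, one_mul]
  rw [h3]
  exact h2.hasDerivAt

lemma D_E2_smul (γ : SL(2, ℤ)) (τ : ℍ) :
    normalizedDerivOfComplex E2 (γ • τ) = denom γ τ ^ 4 * normalizedDerivOfComplex E2 τ +
      (2 * π * I)⁻¹ * (2 * (γ 1 0 : ℂ) * denom γ τ ^ 3 * E2 τ -
        6 * I / π * (γ 1 0 : ℂ) ^ 2 * denom γ τ ^ 2) := by
  have hdet : 0 < (γ : GL (Fin 2) ℝ).val.det := by
    rw [← Matrix.GeneralLinearGroup.val_det_apply]; simp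
  have hdet1 : (γ : GL (Fin 2) ℝ).val.det = 1 := by
    rw [← Matrix.GeneralLinearGroup.val_det_apply]; simp
  have hd : denom (γ : GL (Fin 2) ℝ) τ ≠ 0 := denom_ne_zero _ τ
  have h1 : HasDerivAt (fun w ↦ (((γ : GL (Fin 2) ℝ) • ofComplex w : ℍ) : ℂ))
      ((((γ : GL (Fin 2) ℝ).val.det : ℝ) : ℂ) / denom γ τ ^ 2) ↑τ :=
    (hasStrictDerivAt_smul hdet τ).hasDerivAt
  rw [hdet1] at h1
  have h2 : HasDerivAt (fun w ↦ E2 (ofComplex w)) (2 * π * I * normalizedDerivOfComplex E2 (γ • τ))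
      (((γ : GL (Fin 2) ℝ) • ofComplex (τ : ℂ) : ℍ) : ℂ) := by
    rw [ofComplex_apply]
    exact hasDeriv_E2' (γ • τ)
  have h3 := h2.comp (τ : ℂ) h1
  have h4 : HasDerivAt (fun w : ℂ ↦ ((γ 1 0 : ℂ) * w + (γ 1 1 : ℂ)) ^ 2 * E2 (ofComplex w) -
      6 * I / π * (γ 1 0 : ℂ) * ((γ 1 0 : ℂ) * w + (γ 1 1 : ℂ)))
      (2 * ((γ 1 0 : ℂ) * τ + (γ 1 1 : ℂ)) ^ 1 * (γ 1 0 : ℂ) * E2 (ofComplex τ) +
      ((γ 1 0 : ℂ) * τ + (γ 1 1 : ℂ)) ^ 2 * (2 * π * I * normalizedDerivOfComplex E2 τ) -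
      6 * I / π * (γ 1 0 : ℂ) * (γ 1 0 : ℂ)) (τ : ℂ) := by
    have h5 : HasDerivAt (fun w : ℂ ↦ (γ 1 0 : ℂ) * w + (γ 1 1 : ℂ)) (γ 1 0 : ℂ) (τ : ℂ) := by
      simpa using ((hasDerivAt_id (τ : ℂ)).const_mul (γ 1 0 : ℂ)).add_const (γ 1 1 : ℂ)
    have h6 := ((h5.pow 2).mul (hasDeriv_E2' τ)).sub (h5.const_mul (6 * I / π * (γ 1 0 : ℂ)))
    exact h6
  have h5 : ((fun w ↦ E2 (ofComplex w)) ∘ fun w ↦ (((γ : GL (Fin 2) ℝ) • ofComplex w : ℍ) : ℂ))
      =ᶠ[𝓝 (τ : ℂ)] (fun w : ℂ ↦ ((γ 1 0 : ℂ) * w + (γ 1 1 : ℂ)) ^ 2 * E2 (ofComplex w) -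
      6 * I / π * (γ 1 0 : ℂ) * ((γ 1 0 : ℂ) * w + (γ 1 1 : ℂ))) := by
    filter_upwards [isOpen_upperHalfPlaneSet.mem_nhds τ.im_pos] with w hw
    have hw' : 0 < w.im := hw
    have h6 := E2_smul γ (ofComplex w)
    rw [ModularGroup.denom_apply] at h6
    rw [Function.comp_apply, ofComplex_apply]
    rw [ofComplex_apply_of_im_pos hw'] at h6 ⊢
    exact h6
  have h6 := h3.unique (h4.congr_of_eventuallyEq h5)
  rw [ofComplex_apply] at h6
  rw [ModularGroup.denom_apply] at h6 hd ⊢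
  have hpi := two_pi_I_ne
  push_cast at h6
  field_simp at h6 ⊢
  linear_combination h6

lemma D_E2 (τ : ℍ) : normalizedDerivOfComplex E2 τ = (E2 τ ^ 2 - E₄ τ) / 12 := by
  have h1 : IntQv (12 * 0 + (-1 * (1 * 1) + 1)) (fun τ ↦ ((12 : ℤ) : ℂ) *
      normalizedDerivOfComplex E2 τ + (((-1 : ℤ) : ℂ) * (E2 τ * E2 τ) + E₄ τ)) :=
    ((IntQv_E2.intQ.D).const_mul 12).add (((IntQv_E2.mul IntQv_E2).const_mul (-1)).add IntQv_E4)
  have h2 : WInv (fun τ ↦ ((12 : ℤ) : ℂ) *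
      normalizedDerivOfComplex E2 τ + (((-1 : ℤ) : ℂ) * (E2 τ * E2 τ) + E₄ τ)) 4 := by
    intro γ τ
    have h3 := WInv_E4 γ τ
    simp only at h3 ⊢
    rw [h3, D_E2_smul, E2_smul]
    have hpi : (π : ℂ) ≠ 0 := by exact_mod_cast Real.pi_ne_zero
    have hI : (2 * π * I : ℂ)⁻¹ = -I / (2 * π) := by
      field_simp
      linear_combination I_sq
    rw [hI]
    push_cast
    field_simp
    linear_combination (0 : ℂ) * I_sq
  have h3 := eq_zero_of_low_weight (by simpa using h1) h2 (by norm_num) τ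
  push_cast at h3
  linear_combination h3 / 12

end H32.T4

end S_H32_T4_A6

section S_H32_T4_A7

set_option linter.unusedSimpArgs false

open UpperHalfPlane hiding I
open Complex EisensteinSeries ModularForm MatrixGroups Manifold
open scoped Real Topology
open MvPolynomial Filter

namespace H32.T4

/-- The three Eisenstein series. -/
noncomputable def ee (w : ℂ) : Fin 3 → ℂ := ![e2 w, e4 w, e6 w]

lemma analytic_ee {w : ℂ} (hw : 0 < w.im) (l : Fin 3) : AnalyticAt ℂ (fun w ↦ ee w l) w := by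
  fin_cases l
  · exact analytic_E2 w hw
  · exact analytic_E4 w hw
  · exact analytic_E6 w hw

lemma disc_ee (w : ℂ) : ee w 1 ^ 3 - ee w 2 ^ 2 ≠ 0 := disc_ne

lemma hasDeriv_ee {w : ℂ} (hw : 0 < w.im) (l : Fin 3) :
    HasDerivAt (fun w ↦ ee w l) (Rm (ee w) l) w := by
  have hA : cA ℂ = π * I / 6 := rfl
  fin_cases l
  · have h1 := hasDeriv_E2' ⟨w, hw⟩
    have h2 := D_E2 ⟨w, hw⟩
    rw [h2] at h1
    have h3 : ofComplex w = ⟨w, hw⟩ := ofComplex_apply_of_im_pos hw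
    refine h1.congr_deriv ?_
    simp only [Rm, ee, hA, Matrix.cons_val_zero, Matrix.cons_val_one, Fin.zero_eta, e2, e4, h3]
    ring
  · refine (hasDeriv_e4 hw).congr_deriv ?_
    simp only [Rm, ee, hA, Matrix.cons_val_zero, Matrix.cons_val_one, Matrix.cons_val, Fin.mk_one]
    ring
  · refine (hasDeriv_e6 hw).congr_deriv ?_
    simp only [Rm, ee, hA, Matrix.cons_val_zero, Matrix.cons_val_one, Matrix.cons_val,
      Fin.reduceFinMk]
    ring

lemma indep_local {w0 : ℂ} (hw0 : 0 < w0.im) (P : MvPolynomial (Fin 4) ℂ)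
    (h : ∀ᶠ w in 𝓝 w0, aeval ![w, e2 w, e4 w, e6 w] P = 0) : P = 0 := by
  apply indep_H
  have hana : AnalyticOnNhd ℂ (fun w ↦ aeval (![w, e2 w, e4 w, e6 w] : Fin 4 → ℂ) P)
      upperHalfPlaneSet := by
    intro w hw
    refine AnalyticAt.aeval_mvPolynomial (fun i ↦ ?_) _
    fin_cases i
    · exact analyticAt_id
    · exact analytic_E2 w hw
    · exact analytic_E4 w hw
    · exact analytic_E6 w hw
  have h0 := hana.eqOn_zero_of_preconnected_of_eventuallyEq_zero preconnected_H hw0 h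
  intro τ
  have := h0 τ.im_pos
  simpa [ofComplex_apply, e2, e4, e6] using this

/-- The order argument. -/
lemma flow_zero {f : ℕ → ℂ → ℂ} {b : ℂ → ℂ} {w0 : ℂ} (hf : ∀ n, AnalyticAt ℂ (f n) w0)
    (hb : AnalyticAt ℂ b w0) (hb0 : b w0 ≠ 0)
    (hd : ∀ n, ∀ᶠ w in 𝓝 w0, f (n + 1) w = b w * deriv (f n) w) (h0 : ∀ n, f n w0 = 0) :
    ∀ᶠ w in 𝓝 w0, f 0 w = 0 := by
  have key : ∀ k : ℕ, ∀ n, analyticOrderAt (f n) w0 ≠ k := by
    intro k
    induction k with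
    | zero =>
      intro n h
      rw [Nat.cast_zero, (hf n).analyticOrderAt_eq_zero] at h
      exact h (h0 n)
    | succ k ih =>
      intro n h
      apply ih (n + 1)
      have h1 : analyticOrderAt (f (n + 1)) w0 = analyticOrderAt (b * deriv (f n)) w0 :=
        analyticOrderAt_congr (hd n)
      have h2 : analyticOrderAt b w0 = 0 := hb.analyticOrderAt_eq_zero.mpr hb0
      have h3 := (hf n).analyticOrderAt_deriv_add_one
      have h4 : (fun w ↦ f n w - f n w0) = f n := by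
        ext w
        rw [h0 n, sub_zero]
      rw [h4, h] at h3
      rw [h1, analyticOrderAt_mul hb (hf n).deriv, h2, zero_add]
      have h5 : analyticOrderAt (deriv (f n)) w0 + 1 = (k : ℕ∞) + 1 := by
        rw [h3]
        push_cast
        rfl
      exact WithTop.add_right_cancel (ENat.one_ne_top) h5
  rw [← analyticOrderAt_eq_top]
  by_contra hcon
  obtain ⟨k, hk⟩ := ENat.ne_top_iff_exists.mp hcon
  exact key k 0 hk.symm

/-- The quadratic polynomial of the vector. -/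
noncomputable def bb (c : Fin 3 → ℂ) (w : ℂ) : ℂ := c 1 + 2 * c 0 * w - c 2 * w ^ 2

/-- The flow. -/
noncomputable def Sf (w0 : ℂ) (c : Fin 3 → ℂ) (w : ℂ) : Fin 3 → ℂ :=
  ![bb c w / bb c w0 * e2 w + cK ℂ * c 2 * (w - w0) / bb c w0,
    (bb c w / bb c w0) ^ 2 * e4 w, (bb c w / bb c w0) ^ 3 * e6 w]

lemma hasDeriv_bb (c : Fin 3 → ℂ) (w : ℂ) : HasDerivAt (bb c) (2 * (c 0 - c 2 * w)) w := by
  have h := (((hasDerivAt_id w).const_mul (2 * c 0)).const_add (c 1)).sub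
    (((hasDerivAt_id w).pow 2).const_mul (c 2))
  refine h.congr_deriv ?_
  simp
  ring

lemma alg_0 {A κ B b0 i e2 e4 c2 s0 u : ℂ} (hAK : A * κ = -1) (hi : b0 * i = 1)
    (hB : B * b0 = b0 + 2 * s0 * u - c2 * u ^ 2) :
    (2 * (s0 - c2 * u) * i * e2 + B * (A * (e2 ^ 2 - e4)) + κ * c2 * i) * (B * b0) =
    b0 * (A * ((B * e2 + κ * c2 * u * i) ^ 2 - B ^ 2 * e4)) + 2 * s0 * (B * e2 + κ * c2 * u * i) +
      c2 * κ := by
  linear_combination (2 * B * e2 * (s0 - c2 * u - A * κ * c2 * u) +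
    κ * c2 * (1 - A * κ * c2 * u ^ 2 * i)) * hi +
    (-2 * B * e2 * c2 * u - κ * c2 * (c2 * u ^ 2 * i)) * hAK + κ * c2 * i * hB

lemma alg_1 {A κ B b0 i e2 e4 e6 c2 s0 u : ℂ} (hAK : A * κ = -1) (hi : b0 * i = 1) :
    (2 * B * (2 * (s0 - c2 * u) * i) * e4 + B ^ 2 * (4 * A * (e2 * e4 - e6))) * (B * b0) =
    b0 * (4 * A * ((B * e2 + κ * c2 * u * i) * (B ^ 2 * e4) - B ^ 3 * e6)) +
      4 * s0 * (B ^ 2 * e4) := by
  linear_combination (4 * B ^ 2 * e4 * (s0 - c2 * u - A * κ * c2 * u)) * hi +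
    (-4 * B ^ 2 * e4 * c2 * u) * hAK

lemma alg_2 {A κ B b0 i e2 e4 e6 c2 s0 u : ℂ} (hAK : A * κ = -1) (hi : b0 * i = 1) :
    (3 * B ^ 2 * (2 * (s0 - c2 * u) * i) * e6 + B ^ 3 * (6 * A * (e2 * e6 - e4 ^ 2))) * (B * b0) =
    b0 * (6 * A * ((B * e2 + κ * c2 * u * i) * (B ^ 3 * e6) - (B ^ 2 * e4) ^ 2)) +
      6 * s0 * (B ^ 3 * e6) := by
  linear_combination (6 * B ^ 3 * e6 * (s0 - c2 * u - A * κ * c2 * u)) * hi +
    (-6 * B ^ 3 * e6 * c2 * u) * hAK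

lemma hasDeriv_Sf {w0 w : ℂ} {c : Fin 3 → ℂ} (hw : 0 < w.im) (h0 : bb c w0 ≠ 0)
    (h1 : bb c w ≠ 0) (l : Fin 3) :
    HasDerivAt (fun w ↦ Sf w0 c w l) (fr w0 (Sf w0 c w) c l / bb c w) w := by
  have hb : HasDerivAt (fun w ↦ bb c w / bb c w0) (2 * (c 0 - c 2 * w) / bb c w0) w :=
    (hasDeriv_bb c w).div_const _
  have hAK : cA ℂ * cK ℂ = -1 := cA_mul_cK
  have hb0 : c 1 + 2 * c 0 * w0 - c 2 * w0 ^ 2 = bb c w0 := rfl
  have hi : bb c w0 * (bb c w0)⁻¹ = 1 := mul_inv_cancel₀ h0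
  have hBb : bb c w / bb c w0 * bb c w0 = bb c w := div_mul_cancel₀ _ h0
  have hB : bb c w / bb c w0 * bb c w0 =
      bb c w0 + 2 * (c 0 - c 2 * w0) * (w - w0) - c 2 * (w - w0) ^ 2 := by
    rw [hBb]
    unfold bb
    ring
  have hs : c 0 - c 2 * w = (c 0 - c 2 * w0) - c 2 * (w - w0) := by ring
  fin_cases l
  · have h2 := hasDeriv_ee hw 0
    have h3 : HasDerivAt (fun w ↦ cK ℂ * c 2 * (w - w0) / bb c w0) (cK ℂ * c 2 / bb c w0) w := by
      have := (((hasDerivAt_id w).sub_const w0).const_mul (cK ℂ * c 2)).div_const (bb c w0)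
      simpa using this
    have h4 := (hb.mul h2).add h3
    refine h4.congr_deriv ?_
    rw [eq_div_iff h1, hs]
    have := alg_0 (e2 := e2 w) (e4 := e4 w) hAK hi hB
    rw [hBb] at this
    simp only [fr, Rm, ee, Sf, Matrix.cons_val_zero, Matrix.cons_val_one, Matrix.cons_val,
      Fin.zero_eta, hb0, div_eq_mul_inv] at this ⊢
    exact this
  · have h2 := hasDeriv_ee hw 1
    have h4 := (hb.pow 2).mul h2
    refine h4.congr_deriv ?_
    rw [eq_div_iff h1, hs]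
    have := alg_1 (e2 := e2 w) (e4 := e4 w) (e6 := e6 w) (B := bb c w / bb c w0)
      (c2 := c 2) (s0 := c 0 - c 2 * w0) (u := w - w0) hAK hi
    rw [hBb] at this
    simp only [fr, Rm, ee, Sf, Matrix.cons_val_zero, Matrix.cons_val_one, Matrix.cons_val,
      Fin.mk_one, hb0, div_eq_mul_inv, Pi.pow_apply, Nat.cast_ofNat, Nat.add_one_sub_one,
      pow_one] at this ⊢
    exact this
  · have h2 := hasDeriv_ee hw 2
    have h4 := (hb.pow 3).mul h2
    refine h4.congr_deriv ?_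
    rw [eq_div_iff h1, hs]
    have := alg_2 (e2 := e2 w) (e4 := e4 w) (e6 := e6 w) (B := bb c w / bb c w0)
      (c2 := c 2) (s0 := c 0 - c 2 * w0) (u := w - w0) hAK hi
    rw [hBb] at this
    simp only [fr, Rm, ee, Sf, Matrix.cons_val_zero, Matrix.cons_val_one, Matrix.cons_val,
      Fin.reduceFinMk, hb0, div_eq_mul_inv, Pi.pow_apply, Nat.cast_ofNat,
      Nat.add_one_sub_one] at this ⊢
    exact this

/-- The derivation of polynomials. -/
noncomputable def pd (w0 : ℂ) (c : Fin 3 → ℂ) :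
    Derivation ℂ (MvPolynomial (Fin 3) ℂ) (MvPolynomial (Fin 3) ℂ) :=
  mkDerivation ℂ (fun l ↦ fr (C w0) X (fun i ↦ C (c i)) l)

lemma aeval_pd_X (w0 : ℂ) (c : Fin 3 → ℂ) (x : Fin 3 → ℂ) (l : Fin 3) :
    aeval x (pd w0 c (X l)) = fr w0 x c l := by
  rw [pd, mkDerivation_X]
  have h := map_fr (aeval x : MvPolynomial (Fin 3) ℂ →ₐ[ℂ] ℂ) (C w0) X (fun i ↦ C (c i)) l
  rw [h]
  simp

lemma hasDeriv_pd {w0 w : ℂ} {c : Fin 3 → ℂ} (hw : 0 < w.im) (h0 : bb c w0 ≠ 0)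
    (h1 : bb c w ≠ 0) (P : MvPolynomial (Fin 3) ℂ) :
    HasDerivAt (fun w ↦ aeval (Sf w0 c w) P) (aeval (Sf w0 c w) (pd w0 c P) / bb c w) w := by
  induction P using MvPolynomial.induction_on with
  | C a =>
    have e : pd w0 c (C a) = 0 := (pd w0 c).map_algebraMap a
    simp only [aeval_C, e, map_zero, zero_div]
    exact hasDerivAt_const _ _
  | add p q hp hq =>
    simp only [map_add, add_div]
    exact hp.add hq
  | mul_X p i hp =>
    simp only [map_mul, aeval_X, Derivation.leibniz, smul_eq_mul, map_add, aeval_pd_X]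
    refine (hp.mul (hasDeriv_Sf hw h0 h1 i)).congr_deriv ?_
    ring

lemma Sf_self {w0 : ℂ} {c : Fin 3 → ℂ} (h0 : bb c w0 ≠ 0) : Sf w0 c w0 = ee w0 := by
  ext l
  fin_cases l
  · simp [Sf, ee, h0]
  · simp [Sf, ee, h0]
  · simp [Sf, ee, h0]

lemma analytic_Sf {w0 : ℂ} {c : Fin 3 → ℂ} (hw : 0 < w0.im) (l : Fin 3) :
    AnalyticAt ℂ (fun w ↦ Sf w0 c w l) w0 := by
  have hb : AnalyticAt ℂ (fun w ↦ bb c w / bb c w0) w0 := by
    unfold bb
    simp only [div_eq_mul_inv]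
    fun_prop
  have h2 : AnalyticAt ℂ e2 w0 := analytic_ee hw 0
  have h4 : AnalyticAt ℂ e4 w0 := analytic_ee hw 1
  have h6 : AnalyticAt ℂ e6 w0 := analytic_ee hw 2
  fin_cases l
  · refine (hb.mul h2).add ?_
    simp only [div_eq_mul_inv]
    fun_prop
  · exact (hb.pow 2).mul h4
  · exact (hb.pow 3).mul h6

/-- If all derivatives along the flow vanish, the polynomial vanishes. -/
theorem flow_poly {w0 : ℂ} {c : Fin 3 → ℂ} (hw : 0 < w0.im) (h0 : bb c w0 ≠ 0)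
    (P : MvPolynomial (Fin 3) ℂ) (h : ∀ n, aeval (ee w0) ((pd w0 c)^[n] P) = 0) : P = 0 := by
  have hbc : AnalyticAt ℂ (bb c) w0 := by
    unfold bb
    fun_prop
  have hne : ∀ᶠ w in 𝓝 w0, bb c w ≠ 0 := hbc.continuousAt.eventually_ne h0
  have him : ∀ᶠ w in 𝓝 w0, 0 < w.im :=
    (isOpen_upperHalfPlaneSet.mem_nhds hw)
  have hz := flow_zero (f := fun n w ↦ aeval (Sf w0 c w) ((pd w0 c)^[n] P)) (b := bb c) (w0 := w0)
    (fun n ↦ AnalyticAt.aeval_mvPolynomial (fun i ↦ analytic_Sf hw i) _) hbc h0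
    (fun n ↦ by
      filter_upwards [hne, him] with w h1 h2
      rw [(hasDeriv_pd h2 h0 h1 ((pd w0 c)^[n] P)).deriv, Function.iterate_succ_apply']
      field_simp)
    (fun n ↦ by
      beta_reduce
      rw [Sf_self h0]
      exact h n)
  -- the polynomial in four variables
  set Bp : MvPolynomial (Fin 4) ℂ :=
    C (bb c w0)⁻¹ * (C (c 1) + C (2 * c 0) * X 0 - C (c 2) * X 0 ^ 2) with hBp
  set g : Fin 3 → MvPolynomial (Fin 4) ℂ := ![Bp * X 1 + C (cK ℂ * c 2 / bb c w0) * (X 0 - C w0),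
    Bp ^ 2 * X 2, Bp ^ 3 * X 3] with hg
  set T : MvPolynomial (Fin 4) ℂ := aeval g P with hT
  have hev : ∀ w y0 y1 y2 : ℂ, aeval ![w, y0, y1, y2] T =
      aeval ![bb c w / bb c w0 * y0 + cK ℂ * c 2 * (w - w0) / bb c w0,
        (bb c w / bb c w0) ^ 2 * y1, (bb c w / bb c w0) ^ 3 * y2] P := by
    intro w y0 y1 y2
    have h1 : (aeval ![w, y0, y1, y2] : MvPolynomial (Fin 4) ℂ →ₐ[ℂ] ℂ).comp (aeval g) =
        aeval ![bb c w / bb c w0 * y0 + cK ℂ * c 2 * (w - w0) / bb c w0,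
        (bb c w / bb c w0) ^ 2 * y1, (bb c w / bb c w0) ^ 3 * y2] := by
      apply MvPolynomial.algHom_ext
      intro i
      fin_cases i
      · simp [hg, hBp, bb]; ring
      · simp [hg, hBp, bb]; ring_nf; simp
      · simp [hg, hBp, bb]; ring_nf; simp
    exact congrArg (fun f ↦ f P) h1
  have hT0 : T = 0 := by
    apply indep_local hw
    filter_upwards [hz] with w hw1
    rw [hev]
    exact hw1
  have hfin : ∀ y : Fin 3 → ℂ, eval y P = 0 := by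
    intro y
    have h1 := hev w0 (y 0) (y 1) (y 2)
    rw [hT0, map_zero, div_self h0] at h1
    simp only [one_mul, sub_self, mul_zero, zero_div, add_zero, one_pow] at h1
    have e : ![y 0, y 1, y 2] = y := by
      ext i; fin_cases i <;> rfl
    rw [e] at h1
    simpa [aeval_eq_eval] using h1.symm
  apply MvPolynomial.funext
  intro y
  rw [hfin, map_zero]

end H32.T4

end S_H32_T4_A7

section S_H32_T4_A8

set_option linter.unusedSimpArgs false

open UpperHalfPlane hiding I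
open Complex EisensteinSeries ModularForm MatrixGroups Manifold
open scoped Real Topology
open MvPolynomial Filter

namespace H32.T4

/-- Germs into the upper half plane. -/
structure Gm where
  /-- constructor -/
  of ::
  /-- the function -/
  f : ℂ → ℂ
  an : AnalyticAt ℂ f 0
  pos : 0 < (f 0).im

namespace Gm

variable (φ : Gm)

/-- The germ. -/
noncomputable def z : MG := mk φ.f φ.an.meromorphicAt

lemma an_ee (l : Fin 3) : AnalyticAt ℂ (fun ζ ↦ ee (φ.f ζ) l) 0 :=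
  AnalyticAt.fun_comp (g := fun w ↦ ee w l) (f := φ.f) (analytic_ee φ.pos l) φ.an

/-- The three Eisenstein germs. -/
noncomputable def v (l : Fin 3) : MG := mk (fun ζ ↦ ee (φ.f ζ) l) (φ.an_ee l).meromorphicAt

lemma ev_pos : ∀ᶠ ζ in 𝓝 (0 : ℂ), 0 < (φ.f ζ).im := by
  have h : ContinuousAt (fun ζ ↦ (φ.f ζ).im) 0 :=
    Complex.continuous_im.continuousAt.comp φ.an.continuousAt
  exact h.eventually (lt_mem_nhds φ.pos)

lemma ev_an : ∀ᶠ ζ in 𝓝 (0 : ℂ), AnalyticAt ℂ φ.f ζ := φ.an.eventually_analyticAt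

lemma aeval_v (P : MvPolynomial (Fin 3) ℂ) :
    ∃ h, aeval φ.v P = mk (fun ζ ↦ aeval (ee (φ.f ζ)) P) h := by
  obtain ⟨h, e⟩ := aeval_mk (fun l ζ ↦ ee (φ.f ζ) l) (fun l ↦ (φ.an_ee l).meromorphicAt) P
  exact ⟨h, e⟩

lemma aeval_Rm {B : Type} [CommRing B] [Algebra ℂ B] (x : Fin 3 → B) (l : Fin 3) :
    aeval x (Rm (X : Fin 3 → MvPolynomial (Fin 3) ℂ) l) = Rm x l := by
  have h := map_Rm (aeval x : MvPolynomial (Fin 3) ℂ →ₐ[ℂ] B) X l
  rw [h]
  simp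

lemma DD_v (l : Fin 3) : DD (φ.v l) = DD φ.z * Rm φ.v l := by
  obtain ⟨h, e⟩ := φ.aeval_v (Rm X l)
  rw [aeval_Rm] at e
  rw [e, z, v, DD_mk, DD_mk, mk_mul, mk_eq_mk]
  refine Eventually.filter_mono nhdsWithin_le_nhds ?_
  filter_upwards [φ.ev_pos, φ.ev_an] with ζ h1 h2
  rw [aeval_Rm]
  have h3 := (hasDeriv_ee h1 l).comp ζ h2.differentiableAt.hasDerivAt
  have h4 : deriv (fun ζ ↦ ee (φ.f ζ) l) ζ = Rm (ee (φ.f ζ)) l * deriv φ.f ζ := h3.deriv
  rw [h4, mul_comm]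

lemma disc_v : φ.v 1 ^ 3 - φ.v 2 ^ 2 ≠ 0 := by
  intro h0
  obtain ⟨h, e⟩ := φ.aeval_v (X 1 ^ 3 - X 2 ^ 2)
  simp only [map_sub, map_pow, aeval_X, h0] at e
  have h1 := mk_eq_zero.mp e.symm
  obtain ⟨ζ, hζ⟩ := h1.exists
  exact disc_ee _ hζ

end Gm

lemma const_of_alg {x : MG} (h : IsAlgebraic ℂ x) : ∃ a : ℂ, x = algebraMap ℂ MG a := by
  set L := IntermediateField.adjoin ℂ {x} with hL
  have h1 : Algebra.IsIntegral ℂ L := by
    have := IntermediateField.isAlgebraic_adjoin_simple h.isIntegral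
    exact Algebra.IsAlgebraic.isIntegral
  obtain ⟨y, hy⟩ := (IsAlgClosed.algebraMap_bijective_of_isIntegral (k := ℂ)).2
    (⟨x, IntermediateField.mem_adjoin_simple_self ℂ x⟩ : L)
  refine ⟨y, ?_⟩
  have := congrArg (fun t : L ↦ (t : MG)) hy
  exact this.symm

/-- The quadratic polynomial does not vanish identically. -/
lemma ev_bb (φ : Gm) (hnc : ∀ a : ℂ, φ.z ≠ algebraMap ℂ MG a) {c : Fin 3 → ℂ} (hc : c ≠ 0) :
    ∀ᶠ ζ in NE, bb c (φ.f ζ) ≠ 0 := by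
  have hmer : MeromorphicAt (fun ζ ↦ bb c (φ.f ζ)) 0 := by
    have h := φ.an
    have : AnalyticAt ℂ (fun ζ ↦ bb c (φ.f ζ)) 0 := by
      unfold bb
      fun_prop
    exact this.meromorphicAt
  rcases hmer.eventually_eq_zero_or_eventually_ne_zero with h | h
  · exfalso
    set p : Polynomial ℂ := Polynomial.C (c 1) + Polynomial.C (2 * c 0) * Polynomial.X -
      Polynomial.C (c 2) * Polynomial.X ^ 2 with hp
    have hp0 : p ≠ 0 := by
      intro h0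
      apply hc
      have e0 : p.coeff 0 = c 1 := by simp [hp]
      have e1 : p.coeff 1 = 2 * c 0 := by
        simp [hp, Polynomial.coeff_C, Polynomial.coeff_X]
      have e2 : p.coeff 2 = - c 2 := by
        simp [hp, Polynomial.coeff_C, Polynomial.coeff_X]
      rw [h0, Polynomial.coeff_zero] at e0 e1 e2
      ext i
      fin_cases i
      · simpa using e1.symm
      · exact e0.symm
      · simpa using e2.symm
    have halg : IsAlgebraic ℂ φ.z := by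
      refine ⟨p, hp0, ?_⟩
      obtain ⟨h1, e⟩ := aeval_mk (fun (_ : Unit) ζ ↦ φ.f ζ) (fun _ ↦ φ.an.meromorphicAt)
        (C (c 1) + C (2 * c 0) * X () - C (c 2) * X () ^ 2)
      have e2 : Polynomial.aeval φ.z p = aeval (fun _ : Unit ↦ mk φ.f φ.an.meromorphicAt)
          (C (c 1) + C (2 * c 0) * X () - C (c 2) * X () ^ 2 : MvPolynomial Unit ℂ) := by
        simp only [hp, map_add, map_sub, map_mul, map_pow, Polynomial.aeval_C, Polynomial.aeval_X,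
          MvPolynomial.aeval_C, MvPolynomial.aeval_X]
        rfl
      rw [e2, e, mk_eq_zero]
      filter_upwards [h] with ζ hζ
      simp only [map_add, map_sub, map_mul, map_pow, MvPolynomial.aeval_C, MvPolynomial.aeval_X]
      exact hζ
    obtain ⟨a, ha⟩ := const_of_alg halg
    exact hnc a ha
  · exact h

section universal

variable {ι : Type}

/-- The universal derivation. -/
noncomputable def Pd (c : Fin 3 → ℂ) (i0 : ι) :
    Derivation ℂ (MvPolynomial (ι ⊕ Fin 3) ℂ) (MvPolynomial (ι ⊕ Fin 3) ℂ) :=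
  mkDerivation ℂ (Sum.elim (fun _ ↦ 0)
    (fun l ↦ fr (X (Sum.inl i0)) (fun l ↦ X (Sum.inr l)) (fun i ↦ C (c i)) l))

lemma aeval_Pd_inr {B : Type} [CommRing B] [Algebra ℂ B] (c : Fin 3 → ℂ) (i0 : ι)
    (x : ι ⊕ Fin 3 → B) (l : Fin 3) :
    aeval x (Pd c i0 (X (Sum.inr l))) =
      fr (x (Sum.inl i0)) (fun l ↦ x (Sum.inr l)) (fun i ↦ algebraMap ℂ B (c i)) l := by
  rw [Pd, mkDerivation_X, Sum.elim_inr]
  have h := map_fr (aeval x : MvPolynomial (ι ⊕ Fin 3) ℂ →ₐ[ℂ] B) (X (Sum.inl i0))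
    (fun l ↦ X (Sum.inr l)) (fun i ↦ C (c i)) l
  rw [h]
  simp

lemma Pd_inl (c : Fin 3 → ℂ) (i0 : ι) (i : ι) : Pd c i0 (X (Sum.inl i)) = 0 := by
  rw [Pd, mkDerivation_X, Sum.elim_inl]

lemma Pd_C (c : Fin 3 → ℂ) (i0 : ι) (a : ℂ) : Pd c i0 (C a) = 0 :=
  (Pd c i0).map_algebraMap a

/-- Compatibility with a derivation of the field. -/
lemma der_Pd {K : IntermediateField ℂ MG} {L : IntermediateField K MG} (δ : Derivation K L MG)
    (c : Fin 3 → ℂ) (i0 : ι) (k : ι → K) (w : Fin 3 → L)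
    (hδ : ∀ l, δ (w l) = fr (k i0 : MG) (fun i ↦ (w i : MG)) (fun i ↦ algebraMap ℂ MG (c i)) l)
    (P : MvPolynomial (ι ⊕ Fin 3) ℂ) :
    δ (aeval (Sum.elim (fun i ↦ algebraMap K L (k i)) w) P) =
      aeval (Sum.elim (fun i ↦ (k i : MG)) (fun i ↦ (w i : MG))) (Pd c i0 P) := by
  have hcoe : ∀ P : MvPolynomial (ι ⊕ Fin 3) ℂ,
      ((aeval (Sum.elim (fun i ↦ algebraMap K L (k i)) w) P : L) : MG) =
      aeval (Sum.elim (fun i ↦ (k i : MG)) (fun i ↦ (w i : MG))) P := by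
    intro P
    have h1 : (IsScalarTower.toAlgHom ℂ L MG).comp
        (aeval (Sum.elim (fun i ↦ algebraMap K L (k i)) w)) =
        aeval (Sum.elim (fun i ↦ (k i : MG)) (fun i ↦ (w i : MG))) := by
      apply MvPolynomial.algHom_ext
      rintro (i | i)
      · simp only [AlgHom.comp_apply, aeval_X, Sum.elim_inl]
        rfl
      · simp only [AlgHom.comp_apply, aeval_X, Sum.elim_inr]
        rfl
    exact congrArg (fun f ↦ f P) h1
  induction P using MvPolynomial.induction_on with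
  | C a =>
    rw [Pd_C, map_zero, aeval_C]
    have h1 : algebraMap ℂ L a = algebraMap K L (algebraMap ℂ K a) := rfl
    rw [h1, δ.map_algebraMap]
  | add p q hp hq => rw [map_add, map_add, map_add, map_add, hp, hq]
  | mul_X p i hp =>
    rw [map_mul, Derivation.leibniz, Derivation.leibniz, map_add, hp, smul_eq_mul, smul_eq_mul,
      map_mul, map_mul]
    rw [Algebra.smul_def, Algebra.smul_def]
    change ((aeval (Sum.elim (fun i ↦ algebraMap K L (k i)) w) p : L) : MG) * _ +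
      ((aeval (Sum.elim (fun i ↦ algebraMap K L (k i)) w) (X i) : L) : MG) * _ = _
    rw [hcoe, hcoe]
    rcases i with i | i
    · rw [Pd_inl, map_zero, aeval_X, Sum.elim_inl, δ.map_algebraMap]
    · rw [aeval_Pd_inr, aeval_X, Sum.elim_inr, hδ]
      rfl

/-- Specialisation of the coefficients. -/
noncomputable def spec (x : ι → ℂ) : MvPolynomial (ι ⊕ Fin 3) ℂ →ₐ[ℂ] MvPolynomial (Fin 3) ℂ :=
  aeval (Sum.elim (fun i ↦ C (x i)) X)

lemma spec_Pd (x : ι → ℂ) (c : Fin 3 → ℂ) (i0 : ι) (P : MvPolynomial (ι ⊕ Fin 3) ℂ) :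
    spec x (Pd c i0 P) = pd (x i0) c (spec x P) := by
  induction P using MvPolynomial.induction_on with
  | C a =>
    have e : pd (x i0) c (C a) = 0 := (pd (x i0) c).map_algebraMap a
    rw [Pd_C, map_zero, spec, aeval_C]
    exact e.symm
  | add p q hp hq => rw [map_add, map_add, map_add, map_add, hp, hq]
  | mul_X p i hp =>
    rw [Derivation.leibniz, map_add, smul_eq_mul, smul_eq_mul, map_mul, map_mul, map_mul,
      Derivation.leibniz, smul_eq_mul, smul_eq_mul, hp]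
    congr 1
    rcases i with i | i
    · rw [Pd_inl, map_zero]
      have e : pd (x i0) c (spec x (X (Sum.inl i))) = 0 := by
        rw [spec, aeval_X, Sum.elim_inl]
        exact (pd (x i0) c).map_algebraMap _
      rw [e]
    · unfold spec
      rw [aeval_Pd_inr, aeval_X, Sum.elim_inr, pd, mkDerivation_X]
      rfl

lemma aeval_spec (x : ι → ℂ) (y : Fin 3 → ℂ) (P : MvPolynomial (ι ⊕ Fin 3) ℂ) :
    aeval y (spec x P) = aeval (Sum.elim x y) P := by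
  have h1 : (aeval y : MvPolynomial (Fin 3) ℂ →ₐ[ℂ] ℂ).comp (spec x) = aeval (Sum.elim x y) := by
    apply MvPolynomial.algHom_ext
    rintro (i | i)
    · simp [spec]
    · simp [spec]
  exact congrArg (fun f ↦ f P) h1

end universal

end H32.T4

end S_H32_T4_A8

section S_H32_T4_A9

set_option linter.unusedSimpArgs false

open UpperHalfPlane hiding I
open Complex EisensteinSeries ModularForm MatrixGroups Manifold
open scoped Real Topology
open MvPolynomial Filter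

namespace H32.T4

/-- A point in the intersection of two punctured balls. -/
lemma exists_pball {r s : ℝ} (hr : 0 < r) (hs : 0 < s) :
    ∃ z, z ∈ Metric.ball (0 : ℂ) r \ {0} ∧ z ∈ Metric.ball (0 : ℂ) s \ {0} := by
  have h := inter_mem (pball_mem hr) (pball_mem hs)
  obtain ⟨z, h1, h2⟩ := (inferInstance : NE.NeBot).nonempty_of_mem h
  exact ⟨z, h1, h2⟩

/-- The identity theorem on punctured balls. -/
lemma ident_pball {g : ℂ → ℂ} {r : ℝ} (hr : 0 < r)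
    (hg : AnalyticOnNhd ℂ g (Metric.ball (0 : ℂ) r \ {0})) (h : ∀ᶠ ζ in NE, g ζ = 0) :
    ∀ ζ ∈ Metric.ball (0 : ℂ) r \ {0}, g ζ = 0 := by
  obtain ⟨s, hs, h1⟩ := ev_pball h
  obtain ⟨z0, hz1, hz2⟩ := exists_pball hr hs
  refine hg.eqOn_zero_of_preconnected_of_eventuallyEq_zero (preconn_pball r) hz1 ?_
  filter_upwards [(open_pball s).mem_nhds hz2] with z hz
  exact h1 z hz

lemma coeff_sum_mono {S : Finset (Fin 3 →₀ ℕ)} (a : {m // m ∈ S} → ℂ) (m : {m // m ∈ S}) :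
    coeff m.1 (∑ m : {m // m ∈ S}, monomial m.1 (a m)) = a m := by
  classical
  rw [coeff_sum, Finset.sum_eq_single m]
  · rw [coeff_monomial, if_pos rfl]
  · intro b _ hb
    rw [coeff_monomial, if_neg]
    intro h3
    exact hb (Subtype.ext h3)
  · intro h3
    exact absurd (Finset.mem_univ _) h3

/-- If all the iterated derivatives vanish, then so do the coefficients. -/
lemma coef_zero {ι : Type} [Finite ι] (φ : Gm) (hnc : ∀ a : ℂ, φ.z ≠ algebraMap ℂ MG a)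
    {c : Fin 3 → ℂ} (hc : c ≠ 0) (i0 : ι) (k : ι → MG) (hk0 : k i0 = φ.z)
    (U : MvPolynomial (ι ⊕ Fin 3) ℂ)
    (hrel : ∀ n, aeval (Sum.elim k φ.v) ((Pd c i0)^[n] U) = 0) :
    ∃ (g : ι → ℂ → ℂ) (hg : ∀ i, MeromorphicAt (g i) 0), (∀ i, mk (g i) (hg i) = k i) ∧
      ∀ᶠ ζ in NE, spec (fun i ↦ g i ζ) U = 0 := by
  classical
  choose g hg hgk using fun i : ι ↦ exists_rep (k i)
  refine ⟨g, hg, hgk, ?_⟩
  set f : ι ⊕ Fin 3 → ℂ → ℂ := Sum.elim g (fun l ζ ↦ ee (φ.f ζ) l) with hf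
  have hfm : ∀ i, MeromorphicAt (f i) 0 := by
    rintro (m | l)
    · exact hg m
    · exact (φ.an_ee l).meromorphicAt
  have hfk : (fun i ↦ mk (f i) (hfm i)) = Sum.elim k φ.v := by
    ext i
    rcases i with m | l
    · exact hgk m
    · rfl
  have hev : ∀ᶠ ζ in NE, ∀ i, AnalyticAt ℂ (f i) ζ := by
    rw [Filter.eventually_all]
    exact fun i ↦ (hfm i).eventually_analyticAt
  have hφg : ∀ᶠ ζ in NE, g i0 ζ = φ.f ζ := by
    have h1 := hgk i0
    rw [hk0, Gm.z, mk_eq_mk] at h1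
    exact h1
  obtain ⟨r, hr, hball⟩ := ev_pball hev
  have hzero : ∀ n, ∀ ζ ∈ Metric.ball (0 : ℂ) r \ {0},
      aeval (fun i ↦ f i ζ) ((Pd c i0)^[n] U) = 0 := by
    intro n
    refine ident_pball hr (fun ζ hζ ↦ AnalyticAt.aeval_mvPolynomial (hball ζ hζ) _) ?_
    rw [← aeval_mk_zero f hfm, hfk]
    exact hrel n
  filter_upwards [pball_mem hr, ev_bb φ hnc hc, φ.ev_pos.filter_mono nhdsWithin_le_nhds, hφg]
    with ζ h1 h2 h3 h5
  refine flow_poly (w0 := φ.f ζ) (c := c) h3 h2 _ fun n ↦ ?_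
  have h4 : (pd (φ.f ζ) c)^[n] (spec (fun i ↦ g i ζ) U) =
      spec (fun i ↦ g i ζ) ((Pd c i0)^[n] U) := by
    clear hzero hrel
    induction n with
    | zero => rfl
    | succ n ih =>
      rw [Function.iterate_succ_apply', Function.iterate_succ_apply', ih, spec_Pd, h5]
  rw [h4, aeval_spec, ← hzero n ζ h1]
  congr 2
  ext i
  rcases i with i | l
  · rfl
  · rfl

lemma spec_term {ι : Type} (x : ι → ℂ) (i : ι) (m : Fin 3 →₀ ℕ) :
    spec x (X (Sum.inl i) * ∏ l, X (Sum.inr l) ^ (m l)) = monomial m (x i) := by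
  rw [map_mul, map_prod, monomial_eq, Finsupp.prod_fintype _ _ (by simp)]
  simp only [spec, map_pow, aeval_X, Sum.elim_inr, Sum.elim_inl]

theorem single (K : IntermediateField ℂ MG) (hK : Stab K) (φ : Gm) (hz : φ.z ∈ K)
    (hnc : ∀ a : ℂ, φ.z ≠ algebraMap ℂ MG a) :
    AlgebraicIndependent K φ.v ∨ ∀ l, IsAlgebraic K (φ.v l) := by
  classical
  have hs := single_alg K hK hz φ.v φ.DD_v φ.disc_v
  set L := IntermediateField.adjoin K (Set.range φ.v) with hL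
  set w : Fin 3 → L := fun l ↦ ⟨φ.v l, IntermediateField.subset_adjoin _ _ ⟨l, rfl⟩⟩ with hw
  rcases hs with h | ⟨c, hc, δ, hδ⟩
  · exact Or.inr h
  left
  by_contra hcon
  rw [AlgebraicIndependent, injective_iff_map_eq_zero] at hcon
  push Not at hcon
  obtain ⟨Q, hQ, hQ0⟩ := hcon
  set k : Option {m // m ∈ Q.support} → K := fun i ↦ i.elim ⟨φ.z, hz⟩ (fun m ↦ Q.coeff m) with hk
  set U : MvPolynomial (Option {m // m ∈ Q.support} ⊕ Fin 3) ℂ :=
    ∑ m : {m // m ∈ Q.support}, X (Sum.inl (some m)) * ∏ l, X (Sum.inr l) ^ (m.1 l) with hU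
  -- the values
  have hrel : ∀ n, aeval (Sum.elim (fun i ↦ (k i : MG)) φ.v) ((Pd c none)^[n] U) = 0 := by
    intro n
    induction n with
    | zero =>
      have hQ2 : aeval φ.v Q = ∑ m : {m // m ∈ Q.support},
          algebraMap K MG (Q.coeff m) * ∏ l, φ.v l ^ (m.1 l) := by
        rw [aeval_def, eval₂_eq', ← Finset.sum_coe_sort Q.support]
      rw [Function.iterate_zero, id_eq, ← hQ, hU, map_sum, hQ2]
      refine Finset.sum_congr rfl fun m _ ↦ ?_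
      rw [map_mul, map_prod, aeval_X, Sum.elim_inl]
      congr 1
      refine Finset.prod_congr rfl fun l _ ↦ ?_
      rw [map_pow, aeval_X, Sum.elim_inr]
    | succ n ih =>
      rw [Function.iterate_succ_apply']
      have h1 := der_Pd δ c none k w (fun l ↦ hδ l) ((Pd c none)^[n] U)
      have h2 : aeval (Sum.elim (fun i ↦ algebraMap K L (k i)) w) ((Pd c none)^[n] U) = 0 := by
        have h3 : (IsScalarTower.toAlgHom ℂ L MG)
            (aeval (Sum.elim (fun i ↦ algebraMap K L (k i)) w) ((Pd c none)^[n] U)) =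
            aeval (Sum.elim (fun i ↦ (k i : MG)) φ.v) ((Pd c none)^[n] U) := by
          rw [← AlgHom.comp_apply]
          congr 1
          apply MvPolynomial.algHom_ext
          rintro (i | i)
          · simp only [AlgHom.comp_apply, aeval_X, Sum.elim_inl]
            rfl
          · simp only [AlgHom.comp_apply, aeval_X, Sum.elim_inr]
            rfl
        rw [ih] at h3
        exact (map_eq_zero _).mp h3
      rw [h2, map_zero] at h1
      exact h1.symm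
  obtain ⟨g, hg, hgk, hcoef⟩ := coef_zero φ hnc hc none (fun i ↦ (k i : MG)) rfl U hrel
  obtain ⟨m, hm⟩ : Q.support.Nonempty := by
    rw [Finset.nonempty_iff_ne_empty]
    intro h0
    exact hQ0 (MvPolynomial.support_eq_empty.mp h0)
  have hcm : ∀ᶠ ζ in NE, g (some ⟨m, hm⟩) ζ = 0 := by
    filter_upwards [hcoef] with ζ hζ
    have h1 : spec (fun i ↦ g i ζ) U =
        ∑ m : {m // m ∈ Q.support}, monomial m.1 (g (some m) ζ) := by
      rw [hU, map_sum]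
      exact Finset.sum_congr rfl fun m _ ↦ spec_term _ _ _
    have h2 := congrArg (coeff m) (h1.symm.trans hζ)
    rw [coeff_zero] at h2
    rw [← h2]
    exact (coeff_sum_mono (fun m ↦ g (some m) ζ) ⟨m, hm⟩).symm
  have h1 := hgk (some ⟨m, hm⟩)
  have h2 : mk (g (some ⟨m, hm⟩)) (hg (some ⟨m, hm⟩)) = 0 := mk_eq_zero.mpr hcm
  rw [h2] at h1
  rw [MvPolynomial.mem_support_iff] at hm
  apply hm
  exact Subtype.ext h1.symm

end H32.T4

end S_H32_T4_A9

section S_H32_T4_A10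

set_option linter.unusedSimpArgs false

open UpperHalfPlane hiding I
open Complex EisensteinSeries ModularForm MatrixGroups Manifold
open scoped Real Topology
open MvPolynomial Filter

namespace H32.T4

section gen

variable {K E : Type} [Field K] [Field E] [Algebra K E]

/-- The kernel of a derivation is a field. -/
lemma der_ker_adjoin {L : IntermediateField K E} (δ : Derivation K L E) {S : Set E}
    (hS : ∀ x ∈ S, ∃ h : x ∈ L, δ ⟨x, h⟩ = 0) :
    ∀ y ∈ IntermediateField.adjoin K S, ∃ h : y ∈ L, δ ⟨y, h⟩ = 0 := by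
  intro y hy
  induction hy using IntermediateField.adjoin_induction with
  | mem x hx => exact hS x hx
  | algebraMap x => exact ⟨L.algebraMap_mem x, δ.map_algebraMap x⟩
  | add x y _ _ h1 h2 =>
    obtain ⟨hx, h1⟩ := h1
    obtain ⟨hy, h2⟩ := h2
    refine ⟨add_mem hx hy, ?_⟩
    have : (⟨x + y, add_mem hx hy⟩ : L) = ⟨x, hx⟩ + ⟨y, hy⟩ := rfl
    rw [this, map_add, h1, h2, add_zero]
  | inv x _ h1 =>
    obtain ⟨hx, h1⟩ := h1
    refine ⟨inv_mem hx, ?_⟩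
    have e : (⟨x⁻¹, inv_mem hx⟩ : L) = (⟨x, hx⟩)⁻¹ := rfl
    rw [e, Derivation.leibniz_inv, h1, smul_zero]
  | mul x y _ _ h1 h2 =>
    obtain ⟨hx, h1⟩ := h1
    obtain ⟨hy, h2⟩ := h2
    refine ⟨mul_mem hx hy, ?_⟩
    have : (⟨x * y, mul_mem hx hy⟩ : L) = ⟨x, hx⟩ * ⟨y, hy⟩ := rfl
    rw [this, Derivation.leibniz, h1, h2, smul_zero, smul_zero, add_zero]

lemma der_eval {L : IntermediateField K E} (δ : Derivation K L E) (x : L) (p : Polynomial L)
    (hc : ∀ i, δ (p.coeff i) = 0) :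
    δ (p.eval x) = ((p.derivative.eval x : L) : E) * δ x := by
  rw [Polynomial.eval_eq_sum_range, Polynomial.derivative_eval, Polynomial.sum_over_range]
  · rw [map_sum]
    push_cast
    rw [Finset.sum_mul]
    refine Finset.sum_congr rfl fun i _ ↦ ?_
    rw [Derivation.leibniz, hc, smul_zero, add_zero, Derivation.leibniz_pow, Algebra.smul_def,
      nsmul_eq_mul, Algebra.smul_def]
    change (p.coeff i : E) * ((i : E) * (((x ^ (i - 1) : L) : E) * δ x)) = _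
    push_cast
    ring
  · intro i
    simp

lemma der_zero_of_alg [CharZero K] {L : IntermediateField K E} (δ : Derivation K L E) (x : L) :
    ∀ (n : ℕ) (p : Polynomial L), p.natDegree = n → p ≠ 0 → (∀ i, δ (p.coeff i) = 0) →
      p.eval x = 0 → δ x = 0 := by
  have : CharZero L := charZero_of_injective_algebraMap (algebraMap K L).injective
  intro n
  induction n with
  | zero =>
    intro p hn hp _ hx
    exfalso
    rw [Polynomial.eq_C_of_natDegree_eq_zero hn, Polynomial.eval_C] at hx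
    apply hp
    rw [Polynomial.eq_C_of_natDegree_eq_zero hn, hx, Polynomial.C_0]
  | succ n ih =>
    intro p hn hp hc hx
    have h1 := der_eval δ x p hc
    rw [hx, map_zero] at h1
    rcases mul_eq_zero.mp h1.symm with h2 | h2
    · refine ih p.derivative ?_ ?_ ?_ ?_
      · rw [Polynomial.natDegree_derivative, hn, Nat.add_sub_cancel]
      · intro h3
        have := Polynomial.derivative_eq_zero.mp h3
        omega
      · intro i
        rw [Polynomial.coeff_derivative, Derivation.leibniz, hc, smul_zero, add_zero]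
        have : δ ((i : L) + 1) = 0 := by
          rw [map_add, δ.map_natCast, δ.map_one_eq_zero, add_zero]
        rw [this, smul_zero]
      · exact_mod_cast h2
    · exact h2

/-- A derivation which vanishes on a transcendence basis is zero. -/
lemma der_zero [CharZero K] {L : IntermediateField K E} (δ : Derivation K L E) {S T : Set E}
    (hL : L = IntermediateField.adjoin K T) (hS : ∀ x ∈ S, ∃ h : x ∈ L, δ ⟨x, h⟩ = 0)
    (hT : ∀ x ∈ T, IsAlgebraic (IntermediateField.adjoin K S) x) : δ = 0 := by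
  refine der_ext hL δ fun x hx ↦ ?_
  obtain ⟨p, hp, hpx⟩ := hT _ hx
  have hker := der_ker_adjoin δ hS
  have hle : IntermediateField.adjoin K S ≤ L := fun y hy ↦ (hker y hy).1
  set f := IntermediateField.inclusion hle with hf
  refine der_zero_of_alg δ x _ (p.map f.toRingHom) rfl ?_ ?_ ?_
  · rw [Polynomial.map_ne_zero_iff f.injective]
    exact hp
  · intro i
    rw [Polynomial.coeff_map]
    exact (hker _ (p.coeff i).2).2
  · apply Subtype.ext
    have h1 : ((Polynomial.eval x (p.map f.toRingHom) : L) : E) = Polynomial.aeval (x : E) p := by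
      rw [Polynomial.eval_map, Polynomial.eval₂_eq_sum, Polynomial.aeval_def,
        Polynomial.eval₂_eq_sum, Polynomial.sum_def, Polynomial.sum_def]
      push_cast
      rfl
    rw [h1, hpx]
    rfl

/-- The induced derivation of the field. -/
def innerDer {L : IntermediateField K E} (δ : Derivation K L E) (h : ∀ x, δ x ∈ L) :
    Derivation K L L :=
  Derivation.mk' (R := K) (A := L) (M := L)
    { toFun := fun x ↦ ⟨δ x, h x⟩
      map_add' := fun x y ↦ Subtype.ext (δ.map_add x y)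
      map_smul' := fun c x ↦ Subtype.ext (δ.map_smul c x) }
    (fun x y ↦ Subtype.ext (δ.leibniz x y))

/-- The commutator. -/
noncomputable def brDer {L : IntermediateField K E} (δ ε : Derivation K L E) (hδ : ∀ x, δ x ∈ L)
    (hε : ∀ x, ε x ∈ L) : Derivation K L E :=
  (Algebra.linearMap L E).compDer ⁅innerDer δ hδ, innerDer ε hε⁆

lemma brDer_apply {L : IntermediateField K E} (δ ε : Derivation K L E) (hδ : ∀ x, δ x ∈ L)
    (hε : ∀ x, ε x ∈ L) (x : L) :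
    brDer δ ε hδ hε x = δ ⟨ε x, hε x⟩ - ε ⟨δ x, hδ x⟩ := by
  change ((⁅innerDer δ hδ, innerDer ε hε⁆ x : L) : E) = _
  rw [Derivation.commutator_apply]
  rfl

/-- Stability of the field under a derivation. -/
lemma der_stab {L : IntermediateField K E} (δ : Derivation K L E) {T : Set E}
    (hL : L = IntermediateField.adjoin K T) (h : ∀ x : L, (x : E) ∈ T → δ x ∈ L) :
    ∀ x, δ x ∈ L := by
  have hs : ∀ c : L, algebraMap L E c ∈ L := fun c ↦ c.2
  have key : ∀ y ∈ IntermediateField.adjoin K T, ∀ h : y ∈ L, δ ⟨y, h⟩ ∈ L := by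
    intro y hy
    induction hy using IntermediateField.adjoin_induction with
    | mem x hx => exact fun h' ↦ h _ hx
    | algebraMap x =>
      intro h'
      have e : (⟨algebraMap K E x, h'⟩ : L) = algebraMap K L x := rfl
      rw [e, δ.map_algebraMap]
      exact L.zero_mem
    | add x y hx hy h1 h2 =>
      intro h'
      rw [← hL] at hx hy
      have : (⟨x + y, h'⟩ : L) = ⟨x, hx⟩ + ⟨y, hy⟩ := rfl
      rw [this, map_add]
      exact add_mem (h1 hx) (h2 hy)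
    | inv x hx h1 =>
      intro h'
      rw [← hL] at hx
      have e : (⟨x⁻¹, h'⟩ : L) = (⟨x, hx⟩)⁻¹ := rfl
      rw [e, Derivation.leibniz_inv, Algebra.smul_def]
      exact mul_mem (hs _) (h1 hx)
    | mul x y hx hy h1 h2 =>
      intro h'
      rw [← hL] at hx hy
      have : (⟨x * y, h'⟩ : L) = ⟨x, hx⟩ * ⟨y, hy⟩ := rfl
      rw [this, Derivation.leibniz, Algebra.smul_def, Algebra.smul_def]
      exact add_mem (mul_mem (hs _) (h2 hy)) (mul_mem (hs _) (h1 hx))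
  intro x
  exact key x (hL ▸ x.2) x.2

end gen

/-- Constants. -/
noncomputable abbrev cs (c : Fin 3 → ℂ) : Fin 3 → MG := fun i ↦ algebraMap ℂ MG (c i)

section pair

variable (F : IntermediateField ℂ MG) (φ ψ : Gm)

/-- The field of the pair. -/
noncomputable def PL : IntermediateField F MG :=
  IntermediateField.adjoin F (Set.range φ.v ∪ Set.range ψ.v)

variable {F φ ψ}

lemma memL (l : Fin 3) : φ.v l ∈ PL F φ ψ := IntermediateField.subset_adjoin _ _ (Or.inl ⟨l, rfl⟩)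

lemma memR (l : Fin 3) : ψ.v l ∈ PL F φ ψ := IntermediateField.subset_adjoin _ _ (Or.inr ⟨l, rfl⟩)

variable (F φ ψ)

/-- The correspondence of constant frames. -/
def Rel (τ θ : Fin 3 → ℂ) : Prop :=
  ∃ δ : Derivation F (PL F φ ψ) MG, (∀ l, δ ⟨φ.v l, memL l⟩ = fr φ.z φ.v (cs τ) l) ∧
    (∀ l, δ ⟨ψ.v l, memR l⟩ = fr ψ.z ψ.v (cs θ) l)

variable {F φ ψ}

lemma cs_add (c d : Fin 3 → ℂ) : cs (c + d) = cs c + cs d := by
  ext i; simp [cs]

lemma cs_smul (a : ℂ) (c : Fin 3 → ℂ) : cs (a • c) = algebraMap ℂ MG a • cs c := by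
  ext i; simp [cs]

lemma cs_br (c d : Fin 3 → ℂ) : cs (br c d) = br (cs c) (cs d) := by
  ext i
  fin_cases i
  · simp [cs, br]
  · simp [cs, br, map_ofNat (algebraMap ℂ MG) 2]
  · simp [cs, br, map_ofNat (algebraMap ℂ MG) 2]

lemma Rel.add {τ θ σ ξ : Fin 3 → ℂ} (h1 : Rel F φ ψ τ θ) (h2 : Rel F φ ψ σ ξ) :
    Rel F φ ψ (τ + σ) (θ + ξ) := by
  obtain ⟨δ, a1, b1⟩ := h1
  obtain ⟨ε, a2, b2⟩ := h2
  refine ⟨δ + ε, fun l ↦ ?_, fun l ↦ ?_⟩
  · rw [Derivation.add_apply, a1, a2, cs_add, fr_add]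
  · rw [Derivation.add_apply, b1, b2, cs_add, fr_add]

lemma Rel.smul {τ θ : Fin 3 → ℂ} (h1 : Rel F φ ψ τ θ) (a : ℂ) :
    Rel F φ ψ (a • τ) (a • θ) := by
  obtain ⟨δ, a1, b1⟩ := h1
  refine ⟨algebraMap ℂ MG a • δ, fun l ↦ ?_, fun l ↦ ?_⟩
  · rw [Derivation.smul_apply, a1, cs_smul, fr_smul, smul_eq_mul]
  · rw [Derivation.smul_apply, b1, cs_smul, fr_smul, smul_eq_mul]

/-- The frame as an element of the field. -/
lemma fr_mem {L : IntermediateField F MG} {z : MG} (hz : z ∈ F) {v : Fin 3 → MG}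
    (hv : ∀ l, v l ∈ L) (c : Fin 3 → ℂ) (l : Fin 3) :
    fr z v (cs c) l = ((fr (algebraMap F L ⟨z, hz⟩) (fun l ↦ (⟨v l, hv l⟩ : L))
      (fun i ↦ algebraMap ℂ L (c i)) l : L) : MG) := by
  have h1 := map_fr (IsScalarTower.toAlgHom ℂ L MG) (algebraMap F L ⟨z, hz⟩)
    (fun l ↦ (⟨v l, hv l⟩ : L)) (fun i ↦ algebraMap ℂ L (c i)) l
  exact h1.symm

lemma Rel.stab (hφ : φ.z ∈ F) (hψ : ψ.z ∈ F) {τ θ : Fin 3 → ℂ}
    {δ : Derivation F (PL F φ ψ) MG} (h1 : ∀ l, δ ⟨φ.v l, memL l⟩ = fr φ.z φ.v (cs τ) l)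
    (h2 : ∀ l, δ ⟨ψ.v l, memR l⟩ = fr ψ.z ψ.v (cs θ) l) : ∀ x, δ x ∈ PL F φ ψ := by
  refine der_stab δ rfl ?_
  rintro ⟨x, hx⟩ (⟨l, rfl⟩ | ⟨l, rfl⟩)
  · rw [h1, fr_mem hφ (fun l ↦ memL (F := F) (φ := φ) (ψ := ψ) l)]
    exact Subtype.mem _
  · rw [h2, fr_mem hψ (fun l ↦ memR (F := F) (φ := φ) (ψ := ψ) l)]
    exact Subtype.mem _

/-- The commutator of two constant frames. -/
lemma der_fr_br {L : IntermediateField F MG} {z : MG} (hz : z ∈ F) {v : Fin 3 → MG}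
    (hv : ∀ l, v l ∈ L) (τ σ : Fin 3 → ℂ) (δ ε : Derivation F L MG) (hδ : ∀ x, δ x ∈ L)
    (hε : ∀ x, ε x ∈ L) (h1 : ∀ l, δ ⟨v l, hv l⟩ = fr z v (cs τ) l)
    (h2 : ∀ l, ε ⟨v l, hv l⟩ = fr z v (cs σ) l) (l : Fin 3) :
    brDer δ ε hδ hε ⟨v l, hv l⟩ = fr z v (cs (br τ σ)) l := by
  rw [brDer_apply, cs_br, ← Jf_bracket]
  have key : ∀ (δ ε : Derivation F L MG) (τ σ : Fin 3 → ℂ) (hε : ∀ x, ε x ∈ L)
      (h1 : ∀ l, δ ⟨v l, hv l⟩ = fr z v (cs τ) l) (h2 : ∀ l, ε ⟨v l, hv l⟩ = fr z v (cs σ) l),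
      δ ⟨ε ⟨v l, hv l⟩, hε _⟩ = Jf z v (cs σ) (fr z v (cs τ)) l := by
    intro δ ε τ σ hε h1 h2
    have e1 : (⟨ε ⟨v l, hv l⟩, hε _⟩ : L) = fr (algebraMap F L ⟨z, hz⟩)
        (fun l ↦ (⟨v l, hv l⟩ : L)) (fun i ↦ algebraMap ℂ L (σ i)) l := by
      apply Subtype.ext
      rw [← fr_mem hz hv, ← h2]
    rw [e1]
    have h3 := der_fr (δ.restrictScalars ℂ) (algebraMap F L ⟨z, hz⟩)
      (fun l ↦ (⟨v l, hv l⟩ : L)) (fun i ↦ algebraMap ℂ L (σ i)) (δ.map_algebraMap _)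
      (fun i ↦ (δ.restrictScalars ℂ).map_algebraMap _) l
    change δ _ = Jf z v (cs σ) (fun i ↦ δ ⟨v i, hv i⟩) l at h3
    rw [h3]
    congr 1
    ext i
    exact h1 i
  rw [key δ ε τ σ hε h1 h2, key ε δ σ τ hδ h2 h1]

lemma Rel.br (hφ : φ.z ∈ F) (hψ : ψ.z ∈ F) {τ θ σ ξ : Fin 3 → ℂ} (h1 : Rel F φ ψ τ θ)
    (h2 : Rel F φ ψ σ ξ) : Rel F φ ψ (br τ σ) (br θ ξ) := by
  obtain ⟨δ, a1, b1⟩ := h1
  obtain ⟨ε, a2, b2⟩ := h2
  have hδ := Rel.stab hφ hψ a1 b1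
  have hε := Rel.stab hφ hψ a2 b2
  refine ⟨brDer δ ε hδ hε, ?_, ?_⟩
  · exact der_fr_br hφ (fun l ↦ memL l) τ σ δ ε hδ hε a1 a2
  · exact der_fr_br hψ (fun l ↦ memR l) θ ξ δ ε hδ hε b1 b2

end pair

end H32.T4

end S_H32_T4_A10

section S_H32_T4_A11

set_option linter.unusedSimpArgs false

open UpperHalfPlane hiding I
open Complex EisensteinSeries ModularForm MatrixGroups Manifold
open scoped Real Topology
open MvPolynomial Filter

namespace H32.T4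

/-- The hypotheses on a pair. -/
structure PairHyp (F : IntermediateField ℂ MG) (φ ψ : Gm) : Prop where
  stab : Stab F
  hφ : φ.z ∈ F
  hψ : ψ.z ∈ F
  ind : AlgebraicIndependent F φ.v
  alg : ∀ l, IsAlgebraic (IntermediateField.adjoin F (Set.range φ.v)) (ψ.v l)
  alg' : ∀ l, IsAlgebraic (IntermediateField.adjoin F (Set.range ψ.v)) (φ.v l)

variable {F : IntermediateField ℂ MG} {φ ψ : Gm}

lemma alg_self {S : Set MG} {x : MG} (hx : x ∈ S) :
    IsAlgebraic (IntermediateField.adjoin F S) x :=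
  isAlgebraic_algebraMap (⟨x, IntermediateField.subset_adjoin _ _ hx⟩ :
    IntermediateField.adjoin F S)

lemma PairHyp.zero_left (h : PairHyp F φ ψ) (δ : Derivation F (PL F φ ψ) MG)
    (h1 : ∀ l, δ ⟨φ.v l, memL l⟩ = 0) : δ = 0 := by
  refine der_zero δ (S := Set.range φ.v) rfl ?_ ?_
  · rintro _ ⟨l, rfl⟩
    exact ⟨memL l, h1 l⟩
  · rintro _ (⟨l, rfl⟩ | ⟨l, rfl⟩)
    · exact alg_self ⟨l, rfl⟩
    · exact h.alg l

lemma PairHyp.zero_right (h : PairHyp F φ ψ) (δ : Derivation F (PL F φ ψ) MG)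
    (h1 : ∀ l, δ ⟨ψ.v l, memR l⟩ = 0) : δ = 0 := by
  refine der_zero δ (S := Set.range ψ.v) rfl ?_ ?_
  · rintro _ ⟨l, rfl⟩
    exact ⟨memR l, h1 l⟩
  · rintro _ (⟨l, rfl⟩ | ⟨l, rfl⟩)
    · exact h.alg' l
    · exact alg_self ⟨l, rfl⟩

lemma cs_inj {c : Fin 3 → ℂ} (h : cs c = 0) : c = 0 := by
  ext i
  have := congrFun h i
  exact (map_eq_zero (algebraMap ℂ MG)).mp this

lemma Rel.right_zero (h : PairHyp F φ ψ) {θ : Fin 3 → ℂ} (h1 : Rel F φ ψ 0 θ) : θ = 0 := by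
  obtain ⟨δ, a, b⟩ := h1
  have h0 : cs 0 = 0 := by ext i; simp [cs]
  have hδ := h.zero_left δ (fun l ↦ by rw [a, h0, fr_zero])
  apply cs_inj
  refine fr_inj ψ.disc_v (z := ψ.z) fun l ↦ ?_
  rw [← b, hδ]
  rfl

lemma Rel.left_zero (h : PairHyp F φ ψ) {τ : Fin 3 → ℂ} (h1 : Rel F φ ψ τ 0) : τ = 0 := by
  obtain ⟨δ, a, b⟩ := h1
  have h0 : cs 0 = 0 := by ext i; simp [cs]
  have hδ := h.zero_right δ (fun l ↦ by rw [b, h0, fr_zero])
  apply cs_inj
  refine fr_inj φ.disc_v (z := φ.z) fun l ↦ ?_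
  rw [← a, hδ]
  rfl

lemma Rel.unique (h : PairHyp F φ ψ) {τ θ θ' : Fin 3 → ℂ} (h1 : Rel F φ ψ τ θ)
    (h2 : Rel F φ ψ τ θ') : θ = θ' := by
  have h3 := h1.add (h2.smul (-1))
  have e : τ + (-1 : ℂ) • τ = 0 := by simp
  rw [e] at h3
  have h4 := Rel.right_zero h h3
  have h5 : θ - θ' = 0 := by
    rw [← h4]
    simp [sub_eq_add_neg]
  exact sub_eq_zero.mp h5

lemma mem_stab (hF : Stab F) (hφ : φ.z ∈ F) (hψ : ψ.z ∈ F) :
    ∀ x ∈ PL F φ ψ, DD x ∈ PL F φ ψ := by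
  refine stab_adjoin hF _ rfl ?_
  have key : ∀ (χ : Gm) (hχ : χ.z ∈ F) (hm : ∀ l, χ.v l ∈ PL F φ ψ) (l : Fin 3),
      DD (χ.v l) ∈ PL F φ ψ := by
    intro χ hχ hm l
    rw [χ.DD_v]
    have h1 := map_Rm (IsScalarTower.toAlgHom ℂ (PL F φ ψ) MG)
      (fun l ↦ (⟨χ.v l, hm l⟩ : PL F φ ψ)) l
    change ((Rm (fun l ↦ (⟨χ.v l, hm l⟩ : PL F φ ψ)) l : PL F φ ψ) : MG) = Rm χ.v l at h1
    rw [← h1]
    exact mul_mem ((PL F φ ψ).algebraMap_mem ⟨DD χ.z, hF _ hχ⟩) (Subtype.mem _)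
  rintro _ (⟨l, rfl⟩ | ⟨l, rfl⟩)
  · exact key φ hφ (fun l ↦ memL l) l
  · exact key ψ hψ (fun l ↦ memR l) l

lemma Rel.exists (h : PairHyp F φ ψ) (τ : Fin 3 → ℂ) : ∃ θ, Rel F φ ψ τ θ := by
  have hFG : (PL F φ ψ).FG := IntermediateField.fg_adjoin_of_finite
    ((Set.finite_range _).union (Set.finite_range _))
  set w : Fin 3 → PL F φ ψ := fun l ↦ ⟨φ.v l, memL l⟩ with hw
  have hind : AlgebraicIndependent F w :=
    AlgebraicIndependent.of_comp (IsScalarTower.toAlgHom F (PL F φ ψ) MG) h.ind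
  obtain ⟨δ, hδ⟩ := exists_der_ext (PL F φ ψ) hFG hind (fr φ.z φ.v (cs τ))
  obtain ⟨ξ, hξ⟩ := fr_surj ψ.z ψ.disc_v (fun l ↦ δ ⟨ψ.v l, memR l⟩)
  have hLs := mem_stab (φ := φ) (ψ := ψ) h.stab h.hφ h.hψ
  have h0 : ∀ c : Fin 3 → ℂ, (fun i ↦ DD (cs c i)) = 0 := by
    intro c
    ext i
    exact DD_algebraMap _
  have hc0 : cmt h.stab hLs δ = 0 := by
    refine h.zero_left _ fun l ↦ ?_
    have h1 := cmt_fr h.stab hLs δ h.hφ w (fun l ↦ φ.DD_v l) (cs τ) (fun l ↦ hδ l) l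
    rw [h0, fr_zero] at h1
    exact h1
  have h2 : ∀ l, fr ψ.z ψ.v (fun i ↦ DD (ξ i)) l = 0 := by
    intro l
    have h1 := cmt_fr h.stab hLs δ h.hψ (fun l ↦ ⟨ψ.v l, memR l⟩) (fun l ↦ ψ.DD_v l) ξ
      (fun l ↦ (hξ l).symm) l
    rw [hc0] at h1
    exact h1.symm
  have h3 := fr_inj ψ.disc_v h2
  choose θ hθ using fun i ↦ const_of_DD (congrFun h3 i)
  have h4 : ξ = cs θ := funext hθ
  refine ⟨θ, δ, hδ, fun l ↦ ?_⟩
  rw [← h4, hξ]

/-- Nilpotency from the bracket. -/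
lemma nil_of_br {σ N : Fin 3 → ℂ} (h : br σ N = (2 : ℂ) • N) : N 0 ^ 2 + N 1 * N 2 = 0 := by
  have h0 := congrFun h 0
  have h1 := congrFun h 1
  have h2 := congrFun h 2
  simp only [br, Matrix.cons_val_zero, Matrix.cons_val_one, Matrix.cons_val, Pi.smul_apply,
    smul_eq_mul] at h0 h1 h2
  linear_combination (-N 0 / 2) * h0 - (N 2 / 4) * h1 - (N 1 / 4) * h2

/-- The triple. -/
theorem exists_triple (h : PairHyp F φ ψ) : ∃ A B C : Fin 3 → ℂ, A ≠ 0 ∧ C ≠ 0 ∧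
    Rel F φ ψ ![0, 1, 0] A ∧ Rel F φ ψ ![0, 0, 1] C ∧ B = br A C ∧
    br B A = (2 : ℂ) • A ∧ br B C = (-2 : ℂ) • C ∧
    ∀ x : ℂ, Rel F φ ψ ![x, -x ^ 2, 1] (x • B - x ^ 2 • A + C) ∧
      br (-B + (2 * x) • A) (x • B - x ^ 2 • A + C) = (2 : ℂ) • (x • B - x ^ 2 • A + C) := by
  obtain ⟨A, hA⟩ := Rel.exists h ![0, 1, 0]
  obtain ⟨C, hC⟩ := Rel.exists h ![0, 0, 1]
  have hB := Rel.br h.hφ h.hψ hA hC
  have hA0 : A ≠ 0 := by
    rintro rfl
    have := congrFun (Rel.left_zero h hA) 1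
    simp at this
  have hC0 : C ≠ 0 := by
    rintro rfl
    have := congrFun (Rel.left_zero h hC) 2
    simp at this
  have hx : ∀ x : ℂ, Rel F φ ψ ![x, -x ^ 2, 1] (x • br A C - x ^ 2 • A + C) := by
    intro x
    have h1 := ((hB.smul x).add (hA.smul (-x ^ 2))).add hC
    have e1 : x • br (![0, 1, 0] : Fin 3 → ℂ) ![0, 0, 1] + (-x ^ 2) • ![0, 1, 0] + ![0, 0, 1] =
        ![x, -x ^ 2, 1] := by
      ext i
      fin_cases i
      · simp [br]
      · simp [br]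
      · simp [br]
    have e2 : x • br A C + (-x ^ 2) • A + C = x • br A C - x ^ 2 • A + C := by
      ext i
      simp only [Pi.add_apply, Pi.sub_apply, Pi.smul_apply, smul_eq_mul]
      ring
    rw [e1, e2] at h1
    exact h1
  refine ⟨A, br A C, C, hA0, hC0, hA, hC, rfl, ?_, ?_, fun x ↦ ⟨hx x, ?_⟩⟩
  · refine Rel.unique h (Rel.br h.hφ h.hψ hB hA) ?_
    have e : br (br (![0, 1, 0] : Fin 3 → ℂ) ![0, 0, 1]) ![0, 1, 0] = (2 : ℂ) • ![0, 1, 0] := by
      ext i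
      fin_cases i
      · simp [br]
      · simp [br]
      · simp [br]
    rw [e]
    exact hA.smul 2
  · refine Rel.unique h (Rel.br h.hφ h.hψ hB hC) ?_
    have e : br (br (![0, 1, 0] : Fin 3 → ℂ) ![0, 0, 1]) ![0, 0, 1] = (-2 : ℂ) • ![0, 0, 1] := by
      ext i
      fin_cases i
      · simp [br]
      · simp [br]
      · simp [br]
    rw [e]
    exact hC.smul (-2)
  · have h1 : Rel F φ ψ (-br (![0, 1, 0] : Fin 3 → ℂ) ![0, 0, 1] + (2 * x) • ![0, 1, 0])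
        (-br A C + (2 * x) • A) := by
      have := (hB.smul (-1)).add (hA.smul (2 * x))
      rwa [neg_one_smul, neg_one_smul] at this
    refine Rel.unique h (Rel.br h.hφ h.hψ h1 (hx x)) ?_
    have e : br (-br (![0, 1, 0] : Fin 3 → ℂ) ![0, 0, 1] + (2 * x) • ![0, 1, 0]) ![x, -x ^ 2, 1] =
        (2 : ℂ) • ![x, -x ^ 2, 1] := by
      ext i
      fin_cases i
      · simp [br]
      · simp [br]; ring
      · simp [br]
    rw [e]
    exact (hx x).smul 2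

end H32.T4

end S_H32_T4_A11

section S_H32_T4_A12

set_option linter.unusedSimpArgs false

open UpperHalfPlane hiding I
open Complex EisensteinSeries ModularForm MatrixGroups Manifold
open scoped Real Topology
open MvPolynomial Filter

namespace H32.T4

/-- The automorphy factor along the flow. -/
noncomputable def jj (w0 : ℂ) (c : Fin 3 → ℂ) (ε : ℂ) : ℂ := 1 + ε * (c 2 * w0 - c 0)

/-- The point along the flow. -/
noncomputable def ww (w0 : ℂ) (c : Fin 3 → ℂ) (ε : ℂ) : ℂ :=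
  (w0 + ε * (c 0 * w0 + c 1)) / jj w0 c ε

/-- The flow of a nilpotent frame. -/
noncomputable def flw (w0 : ℂ) (c : Fin 3 → ℂ) (ε : ℂ) : Fin 3 → ℂ :=
  ![(jj w0 c ε)⁻¹ ^ 2 * e2 (ww w0 c ε) + cK ℂ * ε * c 2 * (jj w0 c ε)⁻¹,
    (jj w0 c ε)⁻¹ ^ 4 * e4 (ww w0 c ε), (jj w0 c ε)⁻¹ ^ 6 * e6 (ww w0 c ε)]

lemma hasDeriv_jj (w0 : ℂ) (c : Fin 3 → ℂ) (ε : ℂ) :
    HasDerivAt (jj w0 c) (c 2 * w0 - c 0) ε := by
  have h := ((hasDerivAt_id ε).mul_const (c 2 * w0 - c 0)).const_add 1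
  rw [one_mul] at h
  exact h

lemma hasDeriv_jinv {w0 : ℂ} {c : Fin 3 → ℂ} {ε : ℂ} (hj : jj w0 c ε ≠ 0) :
    HasDerivAt (fun ε ↦ (jj w0 c ε)⁻¹) ((c 0 - c 2 * w0) * (jj w0 c ε)⁻¹ ^ 2) ε := by
  have h := (hasDeriv_jj w0 c ε).fun_inv hj
  refine h.congr_deriv ?_
  rw [neg_sub, div_eq_mul_inv, inv_pow]

lemma hasDeriv_ww {w0 : ℂ} {c : Fin 3 → ℂ} {ε : ℂ} (hj : jj w0 c ε ≠ 0) :
    HasDerivAt (ww w0 c) (bb c w0 * (jj w0 c ε)⁻¹ ^ 2) ε := by
  have h1 : HasDerivAt (fun ε : ℂ ↦ w0 + ε * (c 0 * w0 + c 1)) (c 0 * w0 + c 1) ε := by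
    have h := ((hasDerivAt_id ε).mul_const (c 0 * w0 + c 1)).const_add w0
    simpa using h
  have h := h1.fun_mul (hasDeriv_jinv hj)
  have hi : (jj w0 c ε)⁻¹ * jj w0 c ε = 1 := inv_mul_cancel₀ hj
  have h2 : HasDerivAt (ww w0 c) _ ε := h
  refine h2.congr_deriv ?_
  unfold bb
  unfold jj at hi ⊢
  linear_combination (-(c 0 * w0 + c 1) * (1 + ε * (c 2 * w0 - c 0))⁻¹) * hi

lemma nil_s {c : Fin 3 → ℂ} (hn : c 0 ^ 2 + c 1 * c 2 = 0) (w0 : ℂ) :
    (c 0 - c 2 * w0) ^ 2 + bb c w0 * c 2 = 0 := by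
  unfold bb
  linear_combination hn

lemma alg_f0 {A κ i ε s0 b0 r e2 e4 : ℂ} (hAK : A * κ = -1) (hi : i * (1 - ε * s0) = 1)
    (hn : s0 ^ 2 + b0 * r = 0) :
    2 * i * (s0 * i ^ 2) * e2 + i ^ 2 * (A * (e2 ^ 2 - e4) * (b0 * i ^ 2)) +
      (κ * r * i + κ * ε * r * (s0 * i ^ 2)) =
    b0 * (A * ((i ^ 2 * e2 + κ * ε * r * i) ^ 2 - i ^ 4 * e4)) +
      2 * s0 * (i ^ 2 * e2 + κ * ε * r * i) + r * κ := by
  linear_combination (-2 * b0 * ε * r * i ^ 3 * e2 - b0 * κ * ε ^ 2 * r ^ 2 * i ^ 2) * hAK +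
    (2 * i ^ 2 * e2 * s0 + κ * r * (1 + ε * s0 * i)) * hi +
    (2 * i ^ 3 * e2 * ε + κ * r * ε ^ 2 * i ^ 2) * hn

lemma alg_f1 {A κ i ε s0 b0 r e2 e4 e6 : ℂ} (hAK : A * κ = -1) (hi : i * (1 - ε * s0) = 1)
    (hn : s0 ^ 2 + b0 * r = 0) :
    4 * i ^ 3 * (s0 * i ^ 2) * e4 + i ^ 4 * (4 * A * (e2 * e4 - e6) * (b0 * i ^ 2)) =
    b0 * (4 * A * ((i ^ 2 * e2 + κ * ε * r * i) * (i ^ 4 * e4) - i ^ 6 * e6)) +
      4 * s0 * (i ^ 4 * e4) := by
  linear_combination (-4 * i ^ 4 * e4 * b0 * ε * r * i) * hAK + (4 * i ^ 4 * e4 * s0) * hi +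
    (4 * i ^ 4 * e4 * ε * i) * hn

lemma alg_f2 {A κ i ε s0 b0 r e2 e4 e6 : ℂ} (hAK : A * κ = -1) (hi : i * (1 - ε * s0) = 1)
    (hn : s0 ^ 2 + b0 * r = 0) :
    6 * i ^ 5 * (s0 * i ^ 2) * e6 + i ^ 6 * (6 * A * (e2 * e6 - e4 ^ 2) * (b0 * i ^ 2)) =
    b0 * (6 * A * ((i ^ 2 * e2 + κ * ε * r * i) * (i ^ 6 * e6) - (i ^ 4 * e4) ^ 2)) +
      6 * s0 * (i ^ 6 * e6) := by
  linear_combination (-6 * i ^ 6 * e6 * b0 * ε * r * i) * hAK + (6 * i ^ 6 * e6 * s0) * hi +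
    (6 * i ^ 6 * e6 * ε * i) * hn

lemma hasDeriv_flw {w0 ε : ℂ} {c : Fin 3 → ℂ} (hn : c 0 ^ 2 + c 1 * c 2 = 0)
    (hj : jj w0 c ε ≠ 0) (hw : 0 < (ww w0 c ε).im) (l : Fin 3) :
    HasDerivAt (fun ε ↦ flw w0 c ε l) (fr w0 (flw w0 c ε) c l) ε := by
  have hAK : cA ℂ * cK ℂ = -1 := cA_mul_cK
  have hi : (jj w0 c ε)⁻¹ * (1 - ε * (c 0 - c 2 * w0)) = 1 := by
    have : 1 - ε * (c 0 - c 2 * w0) = jj w0 c ε := by unfold jj; ring
    rw [this, inv_mul_cancel₀ hj]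
  have hns := nil_s hn w0
  have hb0 : c 1 + 2 * c 0 * w0 - c 2 * w0 ^ 2 = bb c w0 := rfl
  have hJ := hasDeriv_jinv hj
  have hW := hasDeriv_ww hj
  fin_cases l
  · have h2 := (hasDeriv_ee hw 0).comp ε hW
    have h3 : HasDerivAt (fun ε : ℂ ↦ cK ℂ * ε * c 2) (cK ℂ * c 2) ε := by
      have h := ((hasDerivAt_id ε).const_mul (cK ℂ)).mul_const (c 2)
      simpa using h
    have h4 := ((hJ.fun_pow 2).fun_mul h2).fun_add (h3.fun_mul hJ)
    refine h4.congr_deriv ?_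
    have := alg_f0 (e2 := e2 (ww w0 c ε)) (e4 := e4 (ww w0 c ε)) hAK hi hns
    simp only [fr, Rm, ee, flw, Matrix.cons_val_zero, Matrix.cons_val_one, Matrix.cons_val,
      Fin.zero_eta, hb0, Function.comp, Nat.cast_ofNat, Nat.add_one_sub_one, pow_one] at this ⊢
    linear_combination this
  · have h2 := (hasDeriv_ee hw 1).comp ε hW
    have h4 := (hJ.fun_pow 4).fun_mul h2
    refine h4.congr_deriv ?_
    have := alg_f1 (e2 := e2 (ww w0 c ε)) (e4 := e4 (ww w0 c ε)) (e6 := e6 (ww w0 c ε)) hAK hi hns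
    simp only [fr, Rm, ee, flw, Matrix.cons_val_zero, Matrix.cons_val_one, Matrix.cons_val,
      Fin.mk_one, hb0, Function.comp, Nat.cast_ofNat, Nat.add_one_sub_one, pow_one] at this ⊢
    linear_combination this
  · have h2 := (hasDeriv_ee hw 2).comp ε hW
    have h4 := (hJ.fun_pow 6).fun_mul h2
    refine h4.congr_deriv ?_
    have := alg_f2 (e2 := e2 (ww w0 c ε)) (e4 := e4 (ww w0 c ε)) (e6 := e6 (ww w0 c ε)) hAK hi hns
    simp only [fr, Rm, ee, flw, Matrix.cons_val_zero, Matrix.cons_val_one, Matrix.cons_val,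
      Fin.reduceFinMk, hb0, Function.comp, Nat.cast_ofNat, Nat.add_one_sub_one, pow_one] at this ⊢
    linear_combination this

lemma jj_zero (w0 : ℂ) (c : Fin 3 → ℂ) : jj w0 c 0 = 1 := by simp [jj]

lemma ww_zero (w0 : ℂ) (c : Fin 3 → ℂ) : ww w0 c 0 = w0 := by simp [ww, jj]

lemma flw_zero (w0 : ℂ) (c : Fin 3 → ℂ) : flw w0 c 0 = ee w0 := by
  ext l
  fin_cases l
  · simp [flw, ee, jj_zero, ww_zero]
  · simp [flw, ee, jj_zero, ww_zero]
  · simp [flw, ee, jj_zero, ww_zero]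

lemma ev_jj (w0 : ℂ) (c : Fin 3 → ℂ) : ∀ᶠ ε in 𝓝 (0 : ℂ), jj w0 c ε ≠ 0 := by
  have h : ContinuousAt (jj w0 c) 0 := (hasDeriv_jj w0 c 0).continuousAt
  exact h.eventually_ne (by rw [jj_zero]; exact one_ne_zero)

lemma ev_ww {w0 : ℂ} (hw : 0 < w0.im) (c : Fin 3 → ℂ) :
    ∀ᶠ ε in 𝓝 (0 : ℂ), 0 < (ww w0 c ε).im := by
  have h : ContinuousAt (ww w0 c) 0 := (hasDeriv_ww (by rw [jj_zero]; exact one_ne_zero)).continuousAt
  have h2 : ContinuousAt (fun ε ↦ (ww w0 c ε).im) 0 := Complex.continuous_im.continuousAt.comp h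
  refine h2.eventually (lt_mem_nhds ?_)
  beta_reduce
  rw [ww_zero]
  exact hw

lemma analytic_flw {w0 : ℂ} (hw : 0 < w0.im) {c : Fin 3 → ℂ} (hn : c 0 ^ 2 + c 1 * c 2 = 0)
    (l : Fin 3) : AnalyticAt ℂ (fun ε ↦ flw w0 c ε l) 0 := by
  rw [Complex.analyticAt_iff_eventually_differentiableAt]
  filter_upwards [ev_jj w0 c, ev_ww hw c] with ε h1 h2
  exact (hasDeriv_flw hn h1 h2 l).differentiableAt

/-- The derivation of polynomials in the pair. -/
noncomputable def pd2 (w0 y0 : ℂ) (c d : Fin 3 → ℂ) :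
    Derivation ℂ (MvPolynomial (Fin 3 ⊕ Fin 3) ℂ) (MvPolynomial (Fin 3 ⊕ Fin 3) ℂ) :=
  mkDerivation ℂ (Sum.elim
    (fun l ↦ fr (C w0) (fun l ↦ X (Sum.inl l)) (fun i ↦ C (c i)) l)
    (fun l ↦ fr (C y0) (fun l ↦ X (Sum.inr l)) (fun i ↦ C (d i)) l))

lemma aeval_pd2_inl (w0 y0 : ℂ) (c d : Fin 3 → ℂ) (x : Fin 3 ⊕ Fin 3 → ℂ) (l : Fin 3) :
    aeval x (pd2 w0 y0 c d (X (Sum.inl l))) = fr w0 (fun l ↦ x (Sum.inl l)) c l := by
  rw [pd2, mkDerivation_X, Sum.elim_inl]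
  have h := map_fr (aeval x : MvPolynomial (Fin 3 ⊕ Fin 3) ℂ →ₐ[ℂ] ℂ) (C w0)
    (fun l ↦ X (Sum.inl l)) (fun i ↦ C (c i)) l
  rw [h]
  simp

lemma aeval_pd2_inr (w0 y0 : ℂ) (c d : Fin 3 → ℂ) (x : Fin 3 ⊕ Fin 3 → ℂ) (l : Fin 3) :
    aeval x (pd2 w0 y0 c d (X (Sum.inr l))) = fr y0 (fun l ↦ x (Sum.inr l)) d l := by
  rw [pd2, mkDerivation_X, Sum.elim_inr]
  have h := map_fr (aeval x : MvPolynomial (Fin 3 ⊕ Fin 3) ℂ →ₐ[ℂ] ℂ) (C y0)
    (fun l ↦ X (Sum.inr l)) (fun i ↦ C (d i)) l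
  rw [h]
  simp

lemma hasDeriv_pd2 {w0 y0 ε : ℂ} {c d : Fin 3 → ℂ} (hc : c 0 ^ 2 + c 1 * c 2 = 0)
    (hd : d 0 ^ 2 + d 1 * d 2 = 0) (h1 : jj w0 c ε ≠ 0) (h2 : 0 < (ww w0 c ε).im)
    (h3 : jj y0 d ε ≠ 0) (h4 : 0 < (ww y0 d ε).im) (P : MvPolynomial (Fin 3 ⊕ Fin 3) ℂ) :
    HasDerivAt (fun ε ↦ aeval (Sum.elim (flw w0 c ε) (flw y0 d ε)) P)
      (aeval (Sum.elim (flw w0 c ε) (flw y0 d ε)) (pd2 w0 y0 c d P)) ε := by
  induction P using MvPolynomial.induction_on with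
  | C a =>
    have e : pd2 w0 y0 c d (C a) = 0 := (pd2 w0 y0 c d).map_algebraMap a
    simp only [aeval_C, e, map_zero]
    exact hasDerivAt_const _ _
  | add p q hp hq =>
    simp only [map_add]
    exact hp.add hq
  | mul_X p i hp =>
    rcases i with i | i
    · simp only [map_mul, aeval_X, Derivation.leibniz, smul_eq_mul, map_add, aeval_pd2_inl,
        Sum.elim_inl]
      refine (hp.mul (hasDeriv_flw hc h1 h2 i)).congr_deriv ?_
      ring
    · simp only [map_mul, aeval_X, Derivation.leibniz, smul_eq_mul, map_add, aeval_pd2_inr,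
        Sum.elim_inr]
      refine (hp.mul (hasDeriv_flw hd h3 h4 i)).congr_deriv ?_
      ring

theorem flow2 {w0 y0 : ℂ} {c d : Fin 3 → ℂ} (hw : 0 < w0.im) (hy : 0 < y0.im)
    (hc : c 0 ^ 2 + c 1 * c 2 = 0) (hd : d 0 ^ 2 + d 1 * d 2 = 0)
    (P : MvPolynomial (Fin 3 ⊕ Fin 3) ℂ)
    (h : ∀ n, aeval (Sum.elim (ee w0) (ee y0)) ((pd2 w0 y0 c d)^[n] P) = 0) :
    ∀ᶠ ε in 𝓝 (0 : ℂ), aeval (Sum.elim (flw w0 c ε) (flw y0 d ε)) P = 0 := by
  refine flow_zero (f := fun n ε ↦ aeval (Sum.elim (flw w0 c ε) (flw y0 d ε))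
    ((pd2 w0 y0 c d)^[n] P)) (b := fun _ ↦ 1) (w0 := 0) (fun n ↦ ?_) analyticAt_const
    one_ne_zero (fun n ↦ ?_) (fun n ↦ ?_)
  · refine AnalyticAt.aeval_mvPolynomial (fun i ↦ ?_) _
    rcases i with i | i
    · exact analytic_flw hw hc i
    · exact analytic_flw hy hd i
  · filter_upwards [ev_jj w0 c, ev_ww hw c, ev_jj y0 d, ev_ww hy d] with ε h1 h2 h3 h4
    rw [(hasDeriv_pd2 hc hd h1 h2 h3 h4 ((pd2 w0 y0 c d)^[n] P)).deriv,
      Function.iterate_succ_apply', one_mul]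
  · rw [flw_zero, flw_zero]
    exact h n

end H32.T4

end S_H32_T4_A12

section S_H32_T4_A13

set_option linter.unusedSimpArgs false

open UpperHalfPlane hiding I
open Complex EisensteinSeries ModularForm MatrixGroups Manifold
open scoped Real Topology
open MvPolynomial Filter

namespace H32.T4

section universal

variable {ι σ : Type}

/-- The universal derivation. -/
noncomputable def Pg (D : σ → MvPolynomial (ι ⊕ σ) ℂ) :
    Derivation ℂ (MvPolynomial (ι ⊕ σ) ℂ) (MvPolynomial (ι ⊕ σ) ℂ) :=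
  mkDerivation ℂ (Sum.elim (fun _ ↦ 0) D)

lemma Pg_inl (D : σ → MvPolynomial (ι ⊕ σ) ℂ) (i : ι) : Pg D (X (Sum.inl i)) = 0 := by
  rw [Pg, mkDerivation_X, Sum.elim_inl]

lemma Pg_inr (D : σ → MvPolynomial (ι ⊕ σ) ℂ) (i : σ) : Pg D (X (Sum.inr i)) = D i := by
  rw [Pg, mkDerivation_X, Sum.elim_inr]

lemma Pg_C (D : σ → MvPolynomial (ι ⊕ σ) ℂ) (a : ℂ) : Pg D (C a) = 0 :=
  (Pg D).map_algebraMap a

lemma coe_aeval {K : IntermediateField ℂ MG} {L : IntermediateField K MG} (k : ι → K) (w : σ → L)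
    (P : MvPolynomial (ι ⊕ σ) ℂ) :
    ((aeval (Sum.elim (fun i ↦ algebraMap K L (k i)) w) P : L) : MG) =
      aeval (Sum.elim (fun i ↦ (k i : MG)) (fun i ↦ (w i : MG))) P := by
  have h1 : (IsScalarTower.toAlgHom ℂ L MG).comp
      (aeval (Sum.elim (fun i ↦ algebraMap K L (k i)) w)) =
      aeval (Sum.elim (fun i ↦ (k i : MG)) (fun i ↦ (w i : MG))) := by
    apply MvPolynomial.algHom_ext
    rintro (i | i)
    · simp only [AlgHom.comp_apply, aeval_X, Sum.elim_inl]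
      rfl
    · simp only [AlgHom.comp_apply, aeval_X, Sum.elim_inr]
      rfl
  exact congrArg (fun f ↦ f P) h1

/-- Compatibility with a derivation of the field. -/
lemma der_Pg {K : IntermediateField ℂ MG} {L : IntermediateField K MG} (δ : Derivation K L MG)
    (D : σ → MvPolynomial (ι ⊕ σ) ℂ) (k : ι → K) (w : σ → L)
    (hδ : ∀ s, δ (w s) = aeval (Sum.elim (fun i ↦ (k i : MG)) (fun i ↦ (w i : MG))) (D s))
    (P : MvPolynomial (ι ⊕ σ) ℂ) :
    δ (aeval (Sum.elim (fun i ↦ algebraMap K L (k i)) w) P) =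
      aeval (Sum.elim (fun i ↦ (k i : MG)) (fun i ↦ (w i : MG))) (Pg D P) := by
  induction P using MvPolynomial.induction_on with
  | C a =>
    rw [Pg_C, map_zero, aeval_C]
    have h1 : algebraMap ℂ L a = algebraMap K L (algebraMap ℂ K a) := rfl
    rw [h1, δ.map_algebraMap]
  | add p q hp hq => rw [map_add, map_add, map_add, map_add, hp, hq]
  | mul_X p i hp =>
    rw [map_mul, Derivation.leibniz, Derivation.leibniz, map_add, hp, smul_eq_mul, smul_eq_mul,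
      map_mul, map_mul]
    rw [Algebra.smul_def, Algebra.smul_def]
    change ((aeval (Sum.elim (fun i ↦ algebraMap K L (k i)) w) p : L) : MG) * _ +
      ((aeval (Sum.elim (fun i ↦ algebraMap K L (k i)) w) (X i) : L) : MG) * _ = _
    rw [coe_aeval, coe_aeval]
    rcases i with i | i
    · rw [Pg_inl, map_zero, aeval_X, Sum.elim_inl, δ.map_algebraMap]
    · rw [Pg_inr, aeval_X, Sum.elim_inr, hδ]

/-- All iterates vanish. -/
lemma iter_Pg {K : IntermediateField ℂ MG} {L : IntermediateField K MG} (δ : Derivation K L MG)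
    (D : σ → MvPolynomial (ι ⊕ σ) ℂ) (k : ι → K) (w : σ → L)
    (hδ : ∀ s, δ (w s) = aeval (Sum.elim (fun i ↦ (k i : MG)) (fun i ↦ (w i : MG))) (D s))
    (P : MvPolynomial (ι ⊕ σ) ℂ)
    (h : aeval (Sum.elim (fun i ↦ (k i : MG)) (fun i ↦ (w i : MG))) P = 0) (n : ℕ) :
    aeval (Sum.elim (fun i ↦ (k i : MG)) (fun i ↦ (w i : MG))) ((Pg D)^[n] P) = 0 := by
  induction n with
  | zero => exact h
  | succ n ih =>
    rw [Function.iterate_succ_apply', ← der_Pg δ D k w hδ]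
    have h2 : aeval (Sum.elim (fun i ↦ algebraMap K L (k i)) w) ((Pg D)^[n] P) = 0 := by
      apply Subtype.ext
      rw [coe_aeval, ih]
      rfl
    rw [h2, map_zero]

/-- Specialisation of the coefficients. -/
noncomputable def specg (x : ι → ℂ) : MvPolynomial (ι ⊕ σ) ℂ →ₐ[ℂ] MvPolynomial σ ℂ :=
  aeval (Sum.elim (fun i ↦ C (x i)) X)

lemma specg_Pg (x : ι → ℂ) (D : σ → MvPolynomial (ι ⊕ σ) ℂ)
    (E : Derivation ℂ (MvPolynomial σ ℂ) (MvPolynomial σ ℂ))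
    (hE : ∀ s, specg x (D s) = E (X s)) (P : MvPolynomial (ι ⊕ σ) ℂ) :
    specg x (Pg D P) = E (specg x P) := by
  induction P using MvPolynomial.induction_on with
  | C a =>
    have e : E (C a) = 0 := E.map_algebraMap a
    rw [Pg_C, map_zero, specg, aeval_C]
    exact e.symm
  | add p q hp hq => rw [map_add, map_add, map_add, map_add, hp, hq]
  | mul_X p i hp =>
    rw [Derivation.leibniz, map_add, smul_eq_mul, smul_eq_mul, map_mul, map_mul, map_mul,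
      Derivation.leibniz, smul_eq_mul, smul_eq_mul, hp]
    congr 1
    rcases i with i | i
    · rw [Pg_inl, map_zero]
      have e : E (specg x (X (Sum.inl i))) = 0 := by
        rw [specg, aeval_X, Sum.elim_inl]
        exact E.map_algebraMap _
      rw [e]
    · rw [Pg_inr, hE]
      congr 2
      rw [specg, aeval_X, Sum.elim_inr]

lemma specg_iter (x : ι → ℂ) (D : σ → MvPolynomial (ι ⊕ σ) ℂ)
    (E : Derivation ℂ (MvPolynomial σ ℂ) (MvPolynomial σ ℂ))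
    (hE : ∀ s, specg x (D s) = E (X s)) (P : MvPolynomial (ι ⊕ σ) ℂ) (n : ℕ) :
    specg x ((Pg D)^[n] P) = E^[n] (specg x P) := by
  induction n with
  | zero => rfl
  | succ n ih => rw [Function.iterate_succ_apply', Function.iterate_succ_apply', ← ih,
      specg_Pg x D E hE]

lemma aeval_specg (x : ι → ℂ) (y : σ → ℂ) (P : MvPolynomial (ι ⊕ σ) ℂ) :
    aeval y (specg x P) = aeval (Sum.elim x y) P := by
  have h1 : (aeval y : MvPolynomial σ ℂ →ₐ[ℂ] ℂ).comp (specg x) = aeval (Sum.elim x y) := by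
    apply MvPolynomial.algHom_ext
    rintro (i | i)
    · simp [specg]
    · simp [specg]
  exact congrArg (fun f ↦ f P) h1

end universal

section pairflow

variable {ι : Type}

/-- The universal derivation of a pair. -/
noncomputable def D2 (i1 i2 : ι) (c d : Fin 3 → ℂ) :
    Fin 3 ⊕ Fin 3 → MvPolynomial (ι ⊕ (Fin 3 ⊕ Fin 3)) ℂ :=
  Sum.elim
    (fun l ↦ fr (X (Sum.inl i1)) (fun l ↦ X (Sum.inr (Sum.inl l))) (fun i ↦ C (c i)) l)
    (fun l ↦ fr (X (Sum.inl i2)) (fun l ↦ X (Sum.inr (Sum.inr l))) (fun i ↦ C (d i)) l)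

lemma aeval_D2_inl {B : Type} [CommRing B] [Algebra ℂ B] (i1 i2 : ι) (c d : Fin 3 → ℂ)
    (x : ι ⊕ (Fin 3 ⊕ Fin 3) → B) (l : Fin 3) :
    aeval x (D2 i1 i2 c d (Sum.inl l)) = fr (x (Sum.inl i1)) (fun l ↦ x (Sum.inr (Sum.inl l)))
      (fun i ↦ algebraMap ℂ B (c i)) l := by
  rw [D2, Sum.elim_inl]
  have h := map_fr (aeval x : MvPolynomial (ι ⊕ (Fin 3 ⊕ Fin 3)) ℂ →ₐ[ℂ] B) (X (Sum.inl i1))
    (fun l ↦ X (Sum.inr (Sum.inl l))) (fun i ↦ C (c i)) l
  rw [h]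
  simp

lemma aeval_D2_inr {B : Type} [CommRing B] [Algebra ℂ B] (i1 i2 : ι) (c d : Fin 3 → ℂ)
    (x : ι ⊕ (Fin 3 ⊕ Fin 3) → B) (l : Fin 3) :
    aeval x (D2 i1 i2 c d (Sum.inr l)) = fr (x (Sum.inl i2)) (fun l ↦ x (Sum.inr (Sum.inr l)))
      (fun i ↦ algebraMap ℂ B (d i)) l := by
  rw [D2, Sum.elim_inr]
  have h := map_fr (aeval x : MvPolynomial (ι ⊕ (Fin 3 ⊕ Fin 3)) ℂ →ₐ[ℂ] B) (X (Sum.inl i2))
    (fun l ↦ X (Sum.inr (Sum.inr l))) (fun i ↦ C (d i)) l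
  rw [h]
  simp

theorem pair_flow [Finite ι] {F : IntermediateField ℂ MG} {φ ψ : Gm} (k : ι → F) (i1 i2 : ι)
    (hk1 : (k i1 : MG) = φ.z) (hk2 : (k i2 : MG) = ψ.z)
    (U : MvPolynomial (ι ⊕ (Fin 3 ⊕ Fin 3)) ℂ)
    (hU : aeval (Sum.elim (fun i ↦ (k i : MG)) (Sum.elim φ.v ψ.v)) U = 0)
    (g : ι → ℂ → ℂ) (hg : ∀ i, MeromorphicAt (g i) 0) (hgk : ∀ i, mk (g i) (hg i) = k i) :
    ∀ᶠ ζ in NE, ∀ τ θ : Fin 3 → ℂ, Rel F φ ψ τ θ → τ 0 ^ 2 + τ 1 * τ 2 = 0 →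
      θ 0 ^ 2 + θ 1 * θ 2 = 0 → ∀ᶠ ε in 𝓝 (0 : ℂ),
        aeval (Sum.elim (flw (φ.f ζ) τ ε) (flw (ψ.f ζ) θ ε)) (specg (fun i ↦ g i ζ) U) = 0 := by
  classical
  set f : ι ⊕ (Fin 3 ⊕ Fin 3) → ℂ → ℂ :=
    Sum.elim g (Sum.elim (fun l ζ ↦ ee (φ.f ζ) l) (fun l ζ ↦ ee (ψ.f ζ) l)) with hf
  have hfm : ∀ i, MeromorphicAt (f i) 0 := by
    rintro (m | l | l)
    · exact hg m
    · exact (φ.an_ee l).meromorphicAt
    · exact (ψ.an_ee l).meromorphicAt
  have hfk : (fun i ↦ mk (f i) (hfm i)) = Sum.elim (fun i ↦ (k i : MG)) (Sum.elim φ.v ψ.v) := by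
    ext i
    rcases i with m | l | l
    · exact hgk m
    · rfl
    · rfl
  have hev : ∀ᶠ ζ in NE, ∀ i, AnalyticAt ℂ (f i) ζ := by
    rw [Filter.eventually_all]
    exact fun i ↦ (hfm i).eventually_analyticAt
  have hφg : ∀ᶠ ζ in NE, g i1 ζ = φ.f ζ := by
    have h1 := hgk i1
    rw [hk1, Gm.z, mk_eq_mk] at h1
    exact h1
  have hψg : ∀ᶠ ζ in NE, g i2 ζ = ψ.f ζ := by
    have h1 := hgk i2
    rw [hk2, Gm.z, mk_eq_mk] at h1
    exact h1
  obtain ⟨r, hr, hball⟩ := ev_pball hev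
  filter_upwards [pball_mem hr, φ.ev_pos.filter_mono nhdsWithin_le_nhds,
    ψ.ev_pos.filter_mono nhdsWithin_le_nhds, hφg, hψg] with ζ h1 h2 h3 h4 h5 τ θ hR hτ hθ
  obtain ⟨δ, a, b⟩ := hR
  set w : Fin 3 ⊕ Fin 3 → PL F φ ψ :=
    Sum.elim (fun l ↦ ⟨φ.v l, memL l⟩) (fun l ↦ ⟨ψ.v l, memR l⟩) with hw
  have hwc : (fun i ↦ (w i : MG)) = Sum.elim φ.v ψ.v := by
    ext i
    rcases i with l | l
    · rfl
    · rfl
  have hδ : ∀ s, δ (w s) =
      aeval (Sum.elim (fun i ↦ (k i : MG)) (fun i ↦ (w i : MG))) (D2 i1 i2 τ θ s) := by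
    rw [hwc]
    rintro (l | l)
    · rw [aeval_D2_inl]
      simp only [Sum.elim_inl, Sum.elim_inr, hk1]
      exact a l
    · rw [aeval_D2_inr]
      simp only [Sum.elim_inl, Sum.elim_inr, hk2]
      exact b l
  have hrel := iter_Pg δ (D2 i1 i2 τ θ) k w hδ U (by rw [hwc]; exact hU)
  rw [hwc] at hrel
  refine flow2 h2 h3 hτ hθ _ fun n ↦ ?_
  have hE : ∀ s, specg (fun i ↦ g i ζ) (D2 i1 i2 τ θ s) =
      pd2 (φ.f ζ) (ψ.f ζ) τ θ (X s) := by
    rintro (l | l)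
    · unfold specg
      rw [aeval_D2_inl, pd2, mkDerivation_X]
      simp only [Sum.elim_inl, Sum.elim_inr, h4]
      rfl
    · unfold specg
      rw [aeval_D2_inr, pd2, mkDerivation_X]
      simp only [Sum.elim_inl, Sum.elim_inr, h5]
      rfl
  rw [← specg_iter _ _ _ hE, aeval_specg]
  have hzero : ∀ ζ ∈ Metric.ball (0 : ℂ) r \ {0},
      aeval (fun i ↦ f i ζ) ((Pg (D2 i1 i2 τ θ))^[n] U) = 0 := by
    refine ident_pball hr (fun ζ hζ ↦ AnalyticAt.aeval_mvPolynomial (hball ζ hζ) _) ?_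
    rw [← aeval_mk_zero f hfm, hfk]
    exact hrel n
  rw [← hzero ζ h1]
  congr 2
  ext i
  rcases i with i | l | l
  · rfl
  · rfl
  · rfl

end pairflow

end H32.T4

end S_H32_T4_A13

section S_H32_T4_A14

set_option linter.unusedSimpArgs false

open UpperHalfPlane hiding I
open Complex EisensteinSeries ModularForm MatrixGroups Manifold
open scoped Real Topology

namespace H32.T4

lemma den_ne_real {c d : ℝ} (h : c ≠ 0 ∨ d ≠ 0) {τ : ℂ} (hτ : 0 < τ.im) : (c : ℂ) * τ + d ≠ 0 := by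
  intro h0
  have h1 := congrArg Complex.im h0
  have h2 := congrArg Complex.re h0
  simp at h1 h2
  rcases h1 with h1 | h1
  · rw [h1] at h2
    simp at h2
    rcases h with h | h
    · exact h h1
    · exact h h2
  · exact absurd h1 hτ.ne'

lemma im_mob {a b c d : ℝ} {τ : ℂ} (hd : (c : ℂ) * τ + d ≠ 0) :
    (((a : ℂ) * τ + b) / ((c : ℂ) * τ + d)).im = (a * d - b * c) * τ.im /
      Complex.normSq ((c : ℂ) * τ + d) := by
  have hns : Complex.normSq ((c : ℂ) * τ + d) ≠ 0 := (Complex.normSq_pos.mpr hd).ne'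
  rw [Complex.div_im]
  simp only [Complex.add_re, Complex.add_im, Complex.mul_re, Complex.mul_im, Complex.ofReal_re,
    Complex.ofReal_im]
  field_simp
  ring

lemma im_mob_pos {a b c d : ℝ} (h : 0 < a * d - b * c) {τ : ℂ} (hτ : 0 < τ.im) :
    0 < (((a : ℂ) * τ + b) / ((c : ℂ) * τ + d)).im := by
  have hcd : c ≠ 0 ∨ d ≠ 0 := by
    by_contra hcon
    push Not at hcon
    rw [hcon.1, hcon.2] at h
    simp at h
  have hd := den_ne_real hcd hτ
  rw [im_mob hd]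
  have := Complex.normSq_pos.mpr hd
  positivity

lemma e6_mod {x y z w : ℤ} (h : x * w - y * z = 1) {τ : ℂ} (hτ : 0 < τ.im) :
    e6 (((x : ℝ) * τ + (y : ℝ)) / ((z : ℝ) * τ + (w : ℝ))) = ((z : ℝ) * τ + (w : ℝ)) ^ 6 * e6 τ := by
  set γ : SL(2, ℤ) := ⟨!![x, y; z, w], by rw [Matrix.det_fin_two]; simpa using h⟩ with hγ
  have h1 := WInv_E6 γ ⟨τ, hτ⟩
  have h2 : ((γ • (⟨τ, hτ⟩ : ℍ) : ℍ) : ℂ) = ((x : ℝ) * τ + (y : ℝ)) / ((z : ℝ) * τ + (w : ℝ)) := by
    rw [coe_specialLinearGroup_apply]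
    simp [hγ]
  have h3 : denom (γ : GL (Fin 2) ℝ) (⟨τ, hτ⟩ : ℍ) = (z : ℝ) * τ + (w : ℝ) := by
    rw [ModularGroup.denom_apply]
    simp [hγ]
  have h4 : e6 ((γ • (⟨τ, hτ⟩ : ℍ) : ℍ) : ℂ) = E₆ (γ • (⟨τ, hτ⟩ : ℍ)) := by
    rw [e6, ofComplex_apply]
  have h5 : e6 τ = E₆ (⟨τ, hτ⟩ : ℍ) := by
    rw [e6, ofComplex_apply_of_im_pos hτ]
  rw [← h2, h4, h5, ← h3]
  exact h1

/-- Real matrices of determinant one which preserve `e6`. -/
def Inv6 (a b c d : ℝ) : Prop :=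
  a * d - b * c = 1 ∧ ∀ τ : ℂ, 0 < τ.im →
    e6 (((a : ℂ) * τ + b) / ((c : ℂ) * τ + d)) = ((c : ℂ) * τ + d) ^ 6 * e6 τ

lemma comp_mob {a b c d x y z w : ℝ} {τ : ℂ} (hd : (c : ℂ) * τ + d ≠ 0) :
    ((x : ℂ) * (((a : ℂ) * τ + b) / ((c : ℂ) * τ + d)) + y) /
      ((z : ℂ) * (((a : ℂ) * τ + b) / ((c : ℂ) * τ + d)) + w) =
    (((x * a + y * c : ℝ) : ℂ) * τ + ((x * b + y * d : ℝ) : ℂ)) /
      (((z * a + w * c : ℝ) : ℂ) * τ + ((z * b + w * d : ℝ) : ℂ)) := by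
  have e1 : (x : ℂ) * (((a : ℂ) * τ + b) / ((c : ℂ) * τ + d)) + y =
      (((x * a + y * c : ℝ) : ℂ) * τ + ((x * b + y * d : ℝ) : ℂ)) / ((c : ℂ) * τ + d) := by
    rw [eq_div_iff hd, add_mul, mul_assoc, div_mul_cancel₀ _ hd]
    push_cast
    ring
  have e2 : (z : ℂ) * (((a : ℂ) * τ + b) / ((c : ℂ) * τ + d)) + w =
      (((z * a + w * c : ℝ) : ℂ) * τ + ((z * b + w * d : ℝ) : ℂ)) / ((c : ℂ) * τ + d) := by
    rw [eq_div_iff hd, add_mul, mul_assoc, div_mul_cancel₀ _ hd]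
    push_cast
    ring
  rw [e1, e2, div_div_div_cancel_right₀ hd]

lemma cocycle_mob {a b c d z w : ℝ} {τ : ℂ} (hd : (c : ℂ) * τ + d ≠ 0) :
    ((z : ℂ) * (((a : ℂ) * τ + b) / ((c : ℂ) * τ + d)) + w) * ((c : ℂ) * τ + d) =
      ((z * a + w * c : ℝ) : ℂ) * τ + ((z * b + w * d : ℝ) : ℂ) := by
  rw [add_mul, mul_assoc, div_mul_cancel₀ _ hd]
  push_cast
  ring

lemma Inv6.ne {a b c d : ℝ} (h : Inv6 a b c d) : c ≠ 0 ∨ d ≠ 0 := by
  by_contra hcon
  push Not at hcon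
  have := h.1
  rw [hcon.1, hcon.2] at this
  simp at this

lemma Inv6.left {a b c d : ℝ} (h : Inv6 a b c d) {x y z w : ℤ} (hx : x * w - y * z = 1) :
    Inv6 (x * a + y * c) (x * b + y * d) (z * a + w * c) (z * b + w * d) := by
  have hxR : (x : ℝ) * w - y * z = 1 := by exact_mod_cast hx
  refine ⟨?_, fun τ hτ ↦ ?_⟩
  · have h1 := h.1
    linear_combination ((x : ℝ) * w - y * z) * h1 + hxR
  · have hd := den_ne_real h.ne hτ
    have hp : 0 < (((a : ℂ) * τ + b) / ((c : ℂ) * τ + d)).im :=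
      im_mob_pos (by rw [h.1]; norm_num) hτ
    rw [← comp_mob hd, e6_mod hx hp, h.2 τ hτ, ← cocycle_mob hd]
    ring

lemma Inv6.right {a b c d : ℝ} (h : Inv6 a b c d) {x y z w : ℤ} (hx : x * w - y * z = 1) :
    Inv6 (a * x + b * z) (a * y + b * w) (c * x + d * z) (c * y + d * w) := by
  have hxR : (x : ℝ) * w - y * z = 1 := by exact_mod_cast hx
  have hzw : (z : ℝ) ≠ 0 ∨ (w : ℝ) ≠ 0 := by
    by_contra hcon
    push Not at hcon
    rw [hcon.1, hcon.2] at hxR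
    simp at hxR
  refine ⟨?_, fun τ hτ ↦ ?_⟩
  · have h1 := h.1
    linear_combination ((x : ℝ) * w - y * z) * h1 + hxR
  · have hd := den_ne_real hzw hτ
    have hp : 0 < ((((x : ℝ) : ℂ) * τ + ((y : ℝ) : ℂ)) / (((z : ℝ) : ℂ) * τ + ((w : ℝ) : ℂ))).im :=
      im_mob_pos (by rw [hxR]; norm_num) hτ
    rw [← comp_mob hd, h.2 _ hp, e6_mod hx hτ, ← cocycle_mob hd]
    ring

/-- The lower left entries are bounded below. -/
lemma exists_lower : ∃ c0 : ℝ, 0 < c0 ∧ ∀ a b c d : ℝ, Inv6 a b c d → c ≠ 0 → c0 ≤ |c| := by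
  obtain ⟨Y, hY, h6⟩ := H32.T3.near_inf
  refine ⟨1 / (2 * Y), by positivity, fun a b c d h hc ↦ ?_⟩
  by_contra hcon
  push Not at hcon
  have hY0 : 0 < Y := by linarith
  have hcpos : 0 < |c| := abs_pos.mpr hc
  have hcY : |c| * Y < 1 / 2 := by
    rw [lt_div_iff₀ (by positivity)] at hcon
    linarith
  set τ : ℂ := -(d / c : ℝ) + Y * I with hτ
  have hτim : τ.im = Y := by simp [hτ]
  have hτpos : 0 < τ.im := by rw [hτim]; exact hY0
  have hden : (c : ℂ) * τ + d = (c * Y : ℝ) * I := by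
    rw [hτ]
    have hcC : (c : ℂ) ≠ 0 := by exact_mod_cast hc
    push_cast
    field_simp
    ring
  have hdne := den_ne_real h.ne hτpos
  have hp : 0 < (((a : ℂ) * τ + b) / ((c : ℂ) * τ + d)).im :=
    im_mob_pos (by rw [h.1]; norm_num) hτpos
  have him : (((a : ℂ) * τ + b) / ((c : ℂ) * τ + d)).im = 1 / (c ^ 2 * Y) := by
    rw [im_mob hdne, h.1, hτim, hden]
    rw [Complex.normSq_mul, Complex.normSq_ofReal, Complex.normSq_I]
    field_simp
  have hbig : Y ≤ 1 / (c ^ 2 * Y) := by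
    rw [le_div_iff₀ (by positivity)]
    have : c ^ 2 * Y ^ 2 = (|c| * Y) ^ 2 := by rw [mul_pow, sq_abs]
    nlinarith [mul_pos hcpos hY0]
  have h1 := h.2 τ hτpos
  have h2 := (h6 ⟨τ, hτpos⟩ (by rw [← hτim]; exact le_refl _)).2.2.2
  have h3 := (h6 ⟨_, hp⟩ (by
    change Y ≤ (((a : ℂ) * τ + b) / ((c : ℂ) * τ + d)).im
    rw [him]; exact hbig)).2.2.1
  have e1 : e6 τ = E₆ (⟨τ, hτpos⟩ : ℍ) := by
    rw [e6, ofComplex_apply_of_im_pos hτpos]
  have e2 : e6 (((a : ℂ) * τ + b) / ((c : ℂ) * τ + d)) = E₆ (⟨_, hp⟩ : ℍ) := by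
    rw [e6, ofComplex_apply_of_im_pos hp]
  rw [← e1] at h2
  rw [← e2, h1, norm_mul, norm_pow, hden, norm_mul, Complex.norm_real, Complex.norm_I, mul_one,
    Real.norm_eq_abs, abs_mul, abs_of_pos hY0] at h3
  have h4 : (|c| * Y) ^ 6 ≤ (1 / 2) ^ 6 := by gcongr
  have h5 : 0 ≤ (|c| * Y) ^ 6 := by positivity
  have h7 : (|c| * Y) ^ 6 * ‖e6 τ‖ ≤ (1 / 2) ^ 6 * 2 := by gcongr
  norm_num at h7
  linarith

/-- The ratios are rational. -/
lemma Inv6.rat {a b c d : ℝ} (h : Inv6 a b c d) (hc : c ≠ 0) :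
    (∃ q : ℚ, a = q * c) ∧ ∃ q : ℚ, d = q * c := by
  obtain ⟨c0, hc0, hlow⟩ := exists_lower
  have hcpos : 0 < |c| := abs_pos.mpr hc
  obtain ⟨n, hn⟩ := exists_nat_gt (|c| / c0)
  have key : ∀ ξ : ℝ, (∀ q : ℚ, ξ ≠ q) → ∃ q : ℚ, c * (q.num - ξ * q.den) ≠ 0 ∧
      |c * (q.num - ξ * q.den)| < c0 := by
    intro ξ hξ
    obtain ⟨q, hq, -⟩ := Real.exists_rat_abs_sub_le_and_den_le ξ (n := n + 1) (Nat.succ_pos n)
    have hden : (0 : ℝ) < q.den := by exact_mod_cast q.den_pos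
    have hqe : (q.num : ℝ) = q * q.den := by
      have := Rat.mul_den_eq_num q
      exact_mod_cast congrArg (Rat.cast : ℚ → ℝ) this.symm
    have e : c * (q.num - ξ * q.den) = -(c * q.den * (ξ - q)) := by
      rw [hqe]; ring
    refine ⟨q, ?_, ?_⟩
    · rw [e, neg_ne_zero]
      exact mul_ne_zero (mul_ne_zero hc hden.ne') (sub_ne_zero.mpr (hξ q))
    · rw [e, abs_neg, abs_mul, abs_mul, abs_of_pos hden]
      have h1 : |c| * q.den * |ξ - q| ≤ |c| * q.den * (1 / (((n + 1 : ℕ) + 1) * q.den)) := by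
        gcongr
      have h2 : |c| * q.den * (1 / (((n + 1 : ℕ) + 1) * q.den)) = |c| / ((n + 1 : ℕ) + 1) := by
        field_simp
      have h3 : |c| / ((n + 1 : ℕ) + 1 : ℝ) < c0 := by
        rw [div_lt_iff₀ (by positivity)]
        rw [div_lt_iff₀ hc0] at hn
        push_cast
        nlinarith
      linarith
  constructor
  · by_contra hcon
    push Not at hcon
    obtain ⟨q, hq1, hq2⟩ := key (a / c) (fun q hq ↦ hcon q (by rw [← hq]; field_simp))
    obtain ⟨γ, h0, h1⟩ := exists_gamma q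
    have hdet := γ.det_coe
    rw [Matrix.det_fin_two] at hdet
    have h2 := h.left (x := γ 1 1) (y := -γ 0 1) (z := -γ 1 0) (w := γ 0 0)
      (by linear_combination hdet)
    have e : (((-γ 1 0 : ℤ) : ℝ) * a + ((γ 0 0 : ℤ) : ℝ) * c) = c * (q.num - a / c * q.den) := by
      rw [h0, h1]
      push_cast
      field_simp
      ring
    have h3 := hlow _ _ _ _ h2 (by rw [e]; exact hq1)
    rw [e] at h3
    linarith
  · by_contra hcon
    push Not at hcon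
    obtain ⟨q, hq1, hq2⟩ := key (-d / c) (fun q hq ↦ hcon (-q) (by
      push_cast
      rw [← hq]; field_simp))
    obtain ⟨γ, h0, h1⟩ := exists_gamma q
    have hdet := γ.det_coe
    rw [Matrix.det_fin_two] at hdet
    have h2 := h.right (x := γ 0 0) (y := γ 0 1) (z := γ 1 0) (w := γ 1 1) hdet
    have e : (c * ((γ 0 0 : ℤ) : ℝ) + d * ((γ 1 0 : ℤ) : ℝ)) = c * (q.num - -d / c * q.den) := by
      rw [h0, h1]
      push_cast
      field_simp
      ring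
    have h3 := hlow _ _ _ _ h2 (by rw [e]; exact hq1)
    rw [e] at h3
    linarith

/-- Unipotent elements are rational. -/
theorem Inv6.unip {p q r : ℝ} {k : ℕ} (hk : 0 < k) (hn : p ^ 2 + q * r = 0)
    (h : Inv6 (1 + k * p) (k * q) (k * r) (1 - k * p)) :
    (∃ x : ℚ, p = x) ∧ (∃ x : ℚ, q = x) ∧ ∃ x : ℚ, r = x := by
  have hk' : (k : ℝ) ≠ 0 := by exact_mod_cast hk.ne'
  by_cases hr : r = 0
  · rw [hr, mul_zero, add_zero] at hn
    have hp : p = 0 := by simpa using hn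
    refine ⟨⟨0, by rw [hp]; simp⟩, ?_, ⟨0, by rw [hr]; simp⟩⟩
    by_cases hq : q = 0
    · exact ⟨0, by rw [hq]; simp⟩
    · rw [hp, hr] at h
      have h1 := h.left (x := 0) (y := -1) (z := 1) (w := 0) (by norm_num)
      have h2 := h1.right (x := 0) (y := 1) (z := -1) (w := 0) (by norm_num)
      have hne : ((1 : ℤ) : ℝ) * (1 + k * 0) + ((0 : ℤ) : ℝ) * (k * 0) = 1 := by simp
      have hcc : ((((1 : ℤ) : ℝ) * (1 + k * 0) + ((0 : ℤ) : ℝ) * (k * 0)) * ((0 : ℤ) : ℝ) +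
          (((1 : ℤ) : ℝ) * (k * q) + ((0 : ℤ) : ℝ) * (1 - k * 0)) * ((-1 : ℤ) : ℝ)) = -(k * q) := by
        push_cast; ring
      rw [hcc] at h2
      obtain ⟨⟨x, hx⟩, -⟩ := h2.rat (neg_ne_zero.mpr (mul_ne_zero hk' hq))
      have hx1 : (1 : ℝ) = x * -(k * q) := by
        rw [← hx]
        push_cast
        ring
      have hx0 : (x : ℝ) ≠ 0 := by
        intro h0
        rw [h0, zero_mul] at hx1
        exact one_ne_zero hx1
      refine ⟨-1 / (x * k), ?_⟩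
      push_cast
      field_simp
      linarith
  · have hc : (k : ℝ) * r ≠ 0 := mul_ne_zero hk' hr
    obtain ⟨⟨x, hx⟩, ⟨y, hy⟩⟩ := h.rat hc
    have hs : ((x : ℝ) + y) * (k * r) = 2 := by linear_combination (-1 : ℝ) * hx - hy
    have hxy : (x : ℝ) + y ≠ 0 := by
      intro h0
      rw [h0, zero_mul] at hs
      norm_num at hs
    have hr' : r = 2 / ((x + y) * k) := by
      field_simp
      linear_combination hs
    have hkr : (k : ℝ) * r = 2 / (x + y) := by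
      rw [hr']; field_simp
    have hp' : p = (x * (2 / (x + y)) - 1) / k := by
      rw [hkr] at hx
      rw [eq_div_iff hk']
      linear_combination hx
    have hq' : q = -p ^ 2 / r := by
      field_simp
      linear_combination hn
    refine ⟨⟨(x * (2 / (x + y)) - 1) / k, ?_⟩,
      ⟨-((x * (2 / (x + y)) - 1) / k) ^ 2 / (2 / ((x + y) * k)), ?_⟩, ⟨2 / ((x + y) * k), ?_⟩⟩
    · rw [hp']; push_cast; rfl
    · rw [hq', hp', hr']; push_cast; rfl
    · rw [hr']; push_cast; rfl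

end H32.T4

end S_H32_T4_A14
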