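import Mathlib
import Pool.Agent.H32.AKM.P23
import Pool.Agent.H32.AKM.P25

/-! Modular Schanuel with derivatives for points algebraic over a field with good approximations, part 26: this file joins several modules to save build time. -/

section S_H32_T4_A15

set_option linter.unusedSimpArgs false

open UpperHalfPlane hiding I
open Complex EisensteinSeries ModularForm MatrixGroups Manifold
open scoped Real Topology
open MvPolynomial Filter

namespace H32.T4

lemma ee_add_nat {w : ℂ} (hw : 0 < w.im) (n : ℕ) : ee (w + n) = ee w := by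
  have h1 := smul_gM_zero n ⟨w, hw⟩
  have h1' : ((gM 0 n • (⟨w, hw⟩ : ℍ) : ℍ) : ℂ) = w + n := h1
  have hd : denom ((gM 0 n : SL(2, ℤ)) : GL (Fin 2) ℝ) (⟨w, hw⟩ : ℍ) = 1 := by
    rw [denom_gM]; simp
  have h2 := E2_smul (gM 0 n) ⟨w, hw⟩
  have h4 := WInv_E4 (gM 0 n) ⟨w, hw⟩
  have h6 := WInv_E6 (gM 0 n) ⟨w, hw⟩
  rw [hd, gM_10] at h2
  simp only [hd] at h4 h6
  have e : ofComplex (w + n) = gM 0 n • (⟨w, hw⟩ : ℍ) := by
    rw [← h1', ofComplex_apply]
  have e' : ofComplex w = ⟨w, hw⟩ := ofComplex_apply_of_im_pos hw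
  ext l
  fin_cases l
  · simp only [ee, e2, Matrix.cons_val_zero, Fin.zero_eta, e, e', h2]
    simp
  · simp only [ee, e4, Matrix.cons_val_one, Fin.mk_one, e, e', Matrix.cons_val_zero]
    rw [h4]
    simp
  · simp only [ee, e6, Matrix.cons_val, Fin.reduceFinMk, e, e']
    rw [h6]
    simp

/-- Evaluation by monomials. -/
lemma aeval_mon {q : MvPolynomial (Fin 3) ℂ} {W : Finset (Fin 3 →₀ ℕ)} (hW : q.support ⊆ W)
    (w : ℂ) : aeval (ee w) q = ∑ ν ∈ W, coeff ν q * mon ν w := by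
  rw [aeval_def, eval₂_eq']
  refine Finset.sum_subset_zero_on_sdiff hW ?_ ?_
  · intro ν hν
    rw [Finset.mem_sdiff, MvPolynomial.mem_support_iff, not_not] at hν
    rw [hν.2, zero_mul]
  · intro ν _
    rw [Fin.prod_univ_three]
    simp [mon, ee]

/-- The set of common real points. -/
def comSet (w0 y0 : ℂ) (d : Fin 3 → ℂ) : Set ℂ :=
  {s : ℂ | (d 2 * y0 - d 0) * s + 1 ≠ 0 ∧ (0 : ℂ) * s + 1 ≠ 0 ∧
    (((d 0 * y0 + d 1) * s + y0) / ((d 2 * y0 - d 0) * s + 1)).im = 0 ∧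
      ((1 * s + w0) / (0 * s + 1)).im = 0}

lemma det_bb (y0 : ℂ) (d : Fin 3 → ℂ) :
    (d 0 * y0 + d 1) * 1 - y0 * (d 2 * y0 - d 0) = bb d y0 := by
  unfold bb; ring

lemma ww_eq (y0 : ℂ) (d : Fin 3 → ℂ) (s : ℂ) :
    ww y0 d s = ((d 0 * y0 + d 1) * s + y0) / ((d 2 * y0 - d 0) * s + 1) := by
  unfold ww jj
  congr 1
  · ring
  · ring

theorem indep_pair {w0 y0 : ℂ} (hw : 0 < w0.im) (hy : 0 < y0.im) {d : Fin 3 → ℂ}
    (hbb : bb d y0 ≠ 0) (hfin : (comSet w0 y0 d).Finite) {N : ℕ}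
    (q : Fin N → MvPolynomial (Fin 3) ℂ)
    (h : ∀ᶠ ε in 𝓝 (0 : ℂ), ∑ m, aeval (ee (w0 + ε)) (q m) * flw y0 d ε 2 ^ (m : ℕ) = 0) :
    ∀ m, q m = 0 := by
  classical
  set g0 : Mo := ⟨1, w0, 0, 1, by simp⟩ with hg0
  set g1 : Mo := ⟨d 0 * y0 + d 1, y0, d 2 * y0 - d 0, 1, by rw [det_bb]; exact hbb⟩ with hg1
  set g : Fin 2 → Mo := ![g0, g1] with hg
  set W : Finset (Fin 3 →₀ ℕ) := Finset.univ.biUnion fun m ↦ (q m).support with hW
  have hWs : ∀ m, (q m).support ⊆ W := fun m ↦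
    Finset.subset_biUnion_of_mem (fun m ↦ (q m).support) (Finset.mem_univ m)
  set S : Finset (Fin N × (Fin 3 →₀ ℕ)) := Finset.univ ×ˢ W with hS
  have hconc := FT1 g (by
      intro i
      fin_cases i
      · change 0 < (g0.ev 0).im
        simp [Mo.ev, hg0, hw]
      · change 0 < (g1.ev 0).im
        simp [Mo.ev, hg1, hy])
    (by
      intro i j hij
      fin_cases i
      · fin_cases j
        · exact absurd rfl hij
        · refine hfin.subset ?_
          rintro s ⟨h1, h2, h3, h4⟩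
          exact ⟨h2, h1, h4, h3⟩
      · fin_cases j
        · refine hfin.subset ?_
          rintro s ⟨h1, h2, h3, h4⟩
          exact ⟨h1, h2, h3, h4⟩
        · exact absurd rfl hij)
    (e := fun (μ : Fin N × (Fin 3 →₀ ℕ)) (i : Fin 2) ↦
      if i = 0 then (fun l ↦ μ.2 l) else ![0, 0, (μ.1 : ℕ)])
    (c := fun μ s ↦ coeff μ.2 (q μ.1) * jj y0 d s ^ (6 * (N - (μ.1 : ℕ))))
    (by
      intro μ s _
      unfold jj
      fun_prop) 2 Finset.univ (by simp) S
    (by
      rintro ⟨m, ν⟩ _ ⟨m', ν'⟩ _ hall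
      have h0 := hall 0 (Finset.mem_univ _)
      have h1 := hall 1 (Finset.mem_univ _)
      simp only [if_true] at h0
      have h1' : (![0, 0, (m : ℕ)] : Fin 3 → ℕ) = ![0, 0, (m' : ℕ)] := by
        simpa using h1
      have h2 := congrFun h1' 2
      simp at h2
      have h3 : ν = ν' := Finsupp.ext fun l ↦ congrFun h0 l
      rw [h3, Fin.ext h2])
    (by
      filter_upwards [h, ev_jj y0 d] with s hs hj
      have hmul : jj y0 d s ^ (6 * N) *
          ∑ m, aeval (ee (w0 + s)) (q m) * flw y0 d s 2 ^ (m : ℕ) = 0 := by rw [hs, mul_zero]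
      rw [← hmul, hS, Finset.sum_product, Finset.mul_sum]
      refine Finset.sum_congr rfl fun m _ ↦ ?_
      rw [aeval_mon (hWs m), Finset.sum_mul, Finset.mul_sum]
      refine Finset.sum_congr rfl fun ν _ ↦ ?_
      rw [Fin.prod_univ_two]
      have e0 : (g 0).ev s = w0 + s := by
        simp [hg, hg0, Mo.ev]
        ring
      have e1 : (g 1).ev s = ww y0 d s := by
        rw [ww_eq]
        rfl
      have e2 : mon (![0, 0, (m : ℕ)]) (ww y0 d s) = e6 (ww y0 d s) ^ (m : ℕ) := by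
        simp [mon]
      have e3 : flw y0 d s 2 = (jj y0 d s)⁻¹ ^ 6 * e6 (ww y0 d s) := by
        simp [flw]
      have e4 : jj y0 d s ^ (6 * N) = jj y0 d s ^ (6 * (N - (m : ℕ))) *
          (jj y0 d s ^ 6) ^ (m : ℕ) := by
        rw [← pow_mul, ← pow_add]
        congr 1
        have := m.2
        omega
      rw [e0, e1]
      simp only [if_true, one_ne_zero, if_false]
      rw [e2, e3, e4, mul_pow, inv_pow, inv_pow]
      have hj6 : (jj y0 d s ^ 6) ^ (m : ℕ) ≠ 0 := pow_ne_zero _ (pow_ne_zero _ hj)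
      field_simp)
  intro m
  ext ν
  rw [coeff_zero]
  by_cases hν : ν ∈ W
  · have h1 := hconc (m, ν) (by rw [hS, Finset.mem_product]; exact ⟨Finset.mem_univ _, hν⟩)
    obtain ⟨s, hs1, hs2⟩ := (h1.and (ev_jj y0 d)).exists
    simp only at hs1
    exact (mul_eq_zero.mp hs1).resolve_right (pow_ne_zero _ hs2)
  · by_contra hcon
    exact hν (hWs m (MvPolynomial.mem_support_iff.mpr hcon))

end H32.T4

end S_H32_T4_A15

section S_H32_T4_A16

set_option linter.unusedSimpArgs false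

open UpperHalfPlane hiding I
open Complex EisensteinSeries ModularForm MatrixGroups Manifold
open scoped Real Topology
open MvPolynomial Filter

namespace H32.T4

lemma real_of_not_fin {w0 y0 : ℂ} (hw : 0 < w0.im) (hy : 0 < y0.im) {d : Fin 3 → ℂ}
    (hbb : bb d y0 ≠ 0) (hn : d 0 ^ 2 + d 1 * d 2 = 0) (hfin : ¬ (comSet w0 y0 d).Finite) :
    ∃ (e : ℂ) (R1 R2 R3 R4 : ℝ), e ≠ 0 ∧ 0 < R1 * R4 - R2 * R3 ∧
      (∀ s, jj y0 d s = e * (R3 * (w0 + s) + R4)) ∧
      (∀ s, y0 + s * (d 0 * y0 + d 1) = e * (R1 * (w0 + s) + R2)) ∧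
      d 0 = ((-(R1 * R3) / (R1 * R4 - R2 * R3) : ℝ) : ℂ) ∧
      d 1 = ((R1 ^ 2 / (R1 * R4 - R2 * R3) : ℝ) : ℂ) ∧
      d 2 = ((-R3 ^ 2 / (R1 * R4 - R2 * R3) : ℝ) : ℂ) := by
  set a := d 0 * y0 + d 1 with ha
  set c := d 2 * y0 - d 0 with hc
  have hall : ∀ k l, om (QQ4 a y0 c 1 1 w0 0 1 k) (QQ4 a y0 c 1 1 w0 0 1 l) = 0 := by
    by_contra hcon
    push Not at hcon
    exact hfin (finite_pair (by rw [det_bb]; exact hbb) (by simp) hcon)
  have h20 := hall 0 2
  have h31 := hall 1 3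
  have h03 := hall 0 3
  have h12 := hall 1 2
  simp only [QQ4, Matrix.cons_val_zero, Matrix.cons_val_one, Matrix.cons_val] at h20 h31 h03 h12
  obtain ⟨e, R1, R2, R3, R4, e1, e2, e3, e4⟩ := real_matrix (p := a * 1 - y0 * 0)
    (q := y0 * 1 - a * w0) (r := c * 1 - 1 * 0) (s := 1 * 1 - c * w0) (by
      have : (a * 1 - y0 * 0) * (1 * 1 - c * w0) - (y0 * 1 - a * w0) * (c * 1 - 1 * 0) =
        bb d y0 := by
        rw [← det_bb]; ring
      rw [this]; exact hbb) h20 h31 (by rw [h03, h12, add_zero])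
  have e1' : a = e * R1 := by linear_combination e1
  have e2' : y0 = e * R2 + a * w0 := by linear_combination e2
  have e3' : c = e * R3 := by linear_combination e3
  have e4' : 1 = e * R4 + c * w0 := by linear_combination e4
  have he : e ≠ 0 := by
    rintro rfl
    rw [zero_mul] at e1' e3'
    rw [e3'] at e4'
    simp at e4'
  have hy0 : y0 = e * (R1 * w0 + R2) := by rw [e1'] at e2'; linear_combination e2'
  have h1 : 1 = e * (R3 * w0 + R4) := by rw [e3'] at e4'; linear_combination e4'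
  have hden : (R3 : ℂ) * w0 + R4 ≠ 0 := by
    intro h0
    rw [h0, mul_zero] at h1
    exact one_ne_zero h1
  have hymob : y0 = (R1 * w0 + R2) / (R3 * w0 + R4) := by
    rw [eq_div_iff hden]
    linear_combination (-(R1 * w0 + R2 : ℂ)) * h1 + (R3 * w0 + R4 : ℂ) * hy0
  have hdet : 0 < R1 * R4 - R2 * R3 := by
    have h2 := im_mob (a := R1) (b := R2) hden
    rw [← hymob] at h2
    rw [h2] at hy
    have h3 := Complex.normSq_pos.mpr hden
    have h4 : 0 < (R1 * R4 - R2 * R3) * w0.im := by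
      by_contra hcon
      push Not at hcon
      have := div_nonpos_of_nonpos_of_nonneg hcon h3.le
      linarith
    exact (pos_iff_pos_of_mul_pos h4).mpr hw
  set D : ℝ := R1 * R4 - R2 * R3 with hD
  have hDC : (D : ℂ) ≠ 0 := by exact_mod_cast hdet.ne'
  have hDe : (D : ℂ) = R1 * R4 - R2 * R3 := by rw [hD]; push_cast; ring
  -- the values of bb and the slope
  have hbe : bb d y0 = e ^ 2 * D := by
    rw [← det_bb]
    change a * 1 - y0 * c = _
    rw [e1', e3', hDe]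
    linear_combination e * (R1 : ℂ) * h1 - e * (R3 : ℂ) * hy0
  have hs : d 0 - d 2 * y0 = -(e * R3) := by
    have : d 0 - d 2 * y0 = -c := by rw [hc]; ring
    rw [this, e3']
  have hns := nil_s hn y0
  rw [hs, hbe] at hns
  have hd2 : d 2 = -(R3 : ℂ) ^ 2 / D := by
    rw [eq_div_iff hDC]
    have h2 : e ^ 2 * (d 2 * D + R3 ^ 2) = 0 := by linear_combination hns
    have h3 := (mul_eq_zero.mp h2).resolve_left (pow_ne_zero 2 he)
    linear_combination h3
  have hDy : (D : ℂ) * e = R1 - R3 * y0 := by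
    rw [hDe]
    linear_combination (-(R1 : ℂ)) * h1 + (R3 : ℂ) * hy0
  have hd0 : d 0 = -(R1 * R3 : ℂ) / D := by
    have h2 : d 0 = -(e * R3) + d 2 * y0 := by linear_combination hs
    rw [h2, hd2, eq_div_iff hDC]
    field_simp
    linear_combination (-(R3 : ℂ)) * hDy
  have hd1 : d 1 = (R1 ^ 2 : ℂ) / D := by
    have h2 : d 1 = e * R1 - d 0 * y0 := by linear_combination e1'
    rw [h2, hd0, eq_div_iff hDC]
    field_simp
    linear_combination (R1 : ℂ) * hDy
  refine ⟨e, R1, R2, R3, R4, he, hdet, fun s ↦ ?_, fun s ↦ ?_, ?_, ?_, ?_⟩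
  · have : jj y0 d s = 1 + s * c := by rw [hc]; rfl
    rw [this, e3']
    linear_combination h1
  · rw [e1']
    linear_combination hy0
  · rw [hd0, hDe]; push_cast; ring
  · rw [hd1, hDe]; push_cast; ring
  · rw [hd2, hDe]; push_cast; ring

/-- The transported function. -/
noncomputable def GG (e : ℂ) (R1 R2 R3 R4 : ℝ) (w : ℂ) : ℂ :=
  (e * (R3 * w + R4))⁻¹ ^ 6 * e6 ((R1 * w + R2) / (R3 * w + R4))

lemma analytic_GG {e : ℂ} {R1 R2 R3 R4 : ℝ} (he : e ≠ 0) (hD : 0 < R1 * R4 - R2 * R3) {w : ℂ}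
    (hw : 0 < w.im) : AnalyticAt ℂ (GG e R1 R2 R3 R4) w := by
  have hcd : R3 ≠ 0 ∨ R4 ≠ 0 := by
    by_contra hcon
    push Not at hcon
    rw [hcon.1, hcon.2] at hD
    simp at hD
  have hd := den_ne_real hcd hw
  have h1 : AnalyticAt ℂ (fun w : ℂ ↦ (R1 : ℂ) * w + R2) w := by fun_prop
  have h2 : AnalyticAt ℂ (fun w : ℂ ↦ (R3 : ℂ) * w + R4) w := by fun_prop
  have h3 : AnalyticAt ℂ (fun w : ℂ ↦ ((R1 : ℂ) * w + R2) / (R3 * w + R4)) w := h1.fun_div h2 hd
  have h4 : AnalyticAt ℂ (fun w : ℂ ↦ e6 (((R1 : ℂ) * w + R2) / (R3 * w + R4))) w :=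
    AnalyticAt.fun_comp (g := e6) (f := fun w : ℂ ↦ ((R1 : ℂ) * w + R2) / (R3 * w + R4))
      (analytic_ee (im_mob_pos hD hw) 2) h3
  have h5 : AnalyticAt ℂ (fun w : ℂ ↦ (e * ((R3 : ℂ) * w + R4))⁻¹) w :=
    (analyticAt_const.fun_mul h2).fun_inv (mul_ne_zero he hd)
  exact (h5.fun_pow 6).fun_mul h4

/-- Pigeonhole: a bounded number of values. -/
lemma pigeon {N : ℕ} (a : Fin N → ℂ) (ha : ∃ m, a m ≠ 0) (G : ℕ → ℂ)
    (h : ∀ n, ∑ m, a m * G n ^ (m : ℕ) = 0) : ∃ n n' : Fin (N + 1), n < n' ∧ G n = G n' := by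
  classical
  set p : Polynomial ℂ := ∑ m : Fin N, Polynomial.monomial (m : ℕ) (a m) with hp
  have hp0 : p ≠ 0 := by
    intro h0
    obtain ⟨m, hm⟩ := ha
    apply hm
    have h1 := congrArg (fun f ↦ Polynomial.coeff f (m : ℕ)) h0
    simp only [hp, Polynomial.finsetSum_coeff, Polynomial.coeff_monomial,
      Polynomial.coeff_zero] at h1
    rw [Finset.sum_eq_single m] at h1
    · simpa using h1
    · intro b _ hb
      rw [if_neg]
      intro h2
      exact hb (Fin.ext h2)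
    · intro h2
      exact absurd (Finset.mem_univ _) h2
  by_contra hcon
  push Not at hcon
  have hinj : Function.Injective fun n : Fin (N + 1) ↦ G n := by
    intro n n' hnn
    rcases lt_trichotomy n n' with h1 | h1 | h1
    · exact absurd hnn (hcon n n' h1)
    · exact h1
    · exact absurd hnn.symm (hcon n' n h1)
  have hdeg : p.natDegree < N ∨ p.natDegree = 0 := by
    by_cases hN : N = 0
    · right
      subst hN
      simp [hp]
    · left
      rw [← Nat.le_sub_one_iff_lt (Nat.pos_of_ne_zero hN)]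
      refine Polynomial.natDegree_sum_le_of_forall_le _ _ fun m _ ↦ ?_
      refine (Polynomial.natDegree_monomial_le _).trans ?_
      have := m.2
      omega
  have hroots : (Finset.univ.image fun n : Fin (N + 1) ↦ G n) ⊆ p.roots.toFinset := by
    intro x hx
    rw [Finset.mem_image] at hx
    obtain ⟨n, -, rfl⟩ := hx
    rw [Multiset.mem_toFinset, Polynomial.mem_roots hp0, Polynomial.IsRoot, hp,
      Polynomial.eval_finsetSum]
    simp only [Polynomial.eval_monomial]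
    exact h n
  have hcard := Finset.card_le_card hroots
  rw [Finset.card_image_of_injective _ hinj, Finset.card_univ, Fintype.card_fin] at hcard
  have h2 := (Multiset.toFinset_card_le p.roots).trans (Polynomial.card_roots' p)
  rcases hdeg with h3 | h3
  · omega
  · rw [h3] at h2
    obtain ⟨m, -⟩ := ha
    have := m.2
    omega

end H32.T4

end S_H32_T4_A16

section S_H32_T4_A17

set_option linter.unusedSimpArgs false

open UpperHalfPlane hiding I
open Complex EisensteinSeries ModularForm MatrixGroups Manifold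
open scoped Real Topology
open MvPolynomial Filter

namespace H32.T4

lemma im_add_nat (w : ℂ) (n : ℕ) : (w + n).im = w.im := by simp

/-- From periodicity to invariance. -/
lemma inv_of_period {e : ℂ} {R1 R2 R3 R4 : ℝ} (he : e ≠ 0) (hD : 0 < R1 * R4 - R2 * R3) {k : ℕ}
    (h : ∀ w : ℂ, 0 < w.im → GG e R1 R2 R3 R4 (w + k) = GG e R1 R2 R3 R4 w) :
    Inv6 (1 + k * (-(R1 * R3) / (R1 * R4 - R2 * R3))) (k * (R1 ^ 2 / (R1 * R4 - R2 * R3)))
      (k * (-R3 ^ 2 / (R1 * R4 - R2 * R3))) (1 - k * (-(R1 * R3) / (R1 * R4 - R2 * R3))) := by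
  set D : ℝ := R1 * R4 - R2 * R3 with hDdef
  have hD0 : D ≠ 0 := hD.ne'
  have hDC : (D : ℂ) ≠ 0 := by exact_mod_cast hD0
  have hDe : (D : ℂ) = R1 * R4 - R2 * R3 := by rw [hDdef]; push_cast; ring
  refine ⟨by field_simp; ring, fun τ hτ ↦ ?_⟩
  have hcd : R3 ≠ 0 ∨ R4 ≠ 0 := by
    by_contra hcon
    push Not at hcon
    rw [hDdef, hcon.1, hcon.2] at hD
    simp at hD
  have hcd' : -R3 ≠ 0 ∨ R1 ≠ 0 := by
    by_contra hcon
    push Not at hcon
    rw [hDdef, neg_eq_zero.mp hcon.1, hcon.2] at hD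
    simp at hD
  have hd1 : ((-R3 : ℝ) : ℂ) * τ + R1 ≠ 0 := den_ne_real hcd' hτ
  set w : ℂ := ((R4 : ℂ) * τ + ((-R2 : ℝ) : ℂ)) / (((-R3 : ℝ) : ℂ) * τ + R1) with hw
  have hwim : 0 < w.im := im_mob_pos (by rw [hDdef] at hD; linarith) hτ
  have hden : (R3 : ℂ) * w + R4 ≠ 0 := den_ne_real hcd hwim
  have hden' : (R3 : ℂ) * (w + k) + R4 ≠ 0 :=
    den_ne_real hcd (by rw [im_add_nat]; exact hwim)
  -- the relation between τ and w
  have hwe : w * (((-R3 : ℝ) : ℂ) * τ + R1) = (R4 : ℂ) * τ + ((-R2 : ℝ) : ℂ) :=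
    div_mul_cancel₀ _ hd1
  have h1 : ((R3 : ℂ) * w + R4) * (R1 - R3 * τ) = D := by
    rw [hDe]
    push_cast at hwe
    linear_combination (R3 : ℂ) * hwe
  have h2 : ((R1 : ℂ) * w + R2) = τ * ((R3 : ℂ) * w + R4) := by
    push_cast at hwe
    linear_combination hwe
  have hτe : ((R1 : ℂ) * w + R2) / ((R3 : ℂ) * w + R4) = τ := by
    rw [h2, mul_div_assoc, div_self hden, mul_one]
  have hratio : ((k * (-R3 ^ 2 / D) : ℝ) : ℂ) * τ + ((1 - k * (-(R1 * R3) / D) : ℝ) : ℂ) =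
      ((R3 : ℂ) * (w + k) + R4) / ((R3 : ℂ) * w + R4) := by
    rw [eq_div_iff hden]
    push_cast
    field_simp
    linear_combination (k : ℂ) * R3 * h1
  have hnum : ((1 + k * (-(R1 * R3) / D) : ℝ) : ℂ) * τ + ((k * (R1 ^ 2 / D) : ℝ) : ℂ) =
      ((R1 : ℂ) * (w + k) + R2) / ((R3 : ℂ) * w + R4) := by
    rw [eq_div_iff hden]
    push_cast
    field_simp
    linear_combination (k : ℂ) * R1 * h1 - (D : ℂ) * h2
  rw [hratio, hnum, div_div_div_cancel_right₀ hden]
  have h3 := h w hwim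
  unfold GG at h3
  rw [hτe] at h3
  have e6' : (e * ((R3 : ℂ) * (w + k) + R4)) ^ 6 ≠ 0 := pow_ne_zero _ (mul_ne_zero he hden')
  have e6'' : (e * ((R3 : ℂ) * w + R4)) ^ 6 ≠ 0 := pow_ne_zero _ (mul_ne_zero he hden)
  rw [inv_pow, inv_pow, inv_mul_eq_iff_eq_mul₀ e6'] at h3
  rw [h3, div_pow, mul_pow, mul_pow]
  have hp : ((R3 : ℂ) * w + R4) ^ 6 ≠ 0 := pow_ne_zero _ hden
  have he6 : e ^ 6 ≠ 0 := pow_ne_zero _ he
  field_simp

/-- The period lemma. -/
theorem period {w0 y0 : ℂ} (hw : 0 < w0.im) (hy : 0 < y0.im) {d : Fin 3 → ℂ}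
    (hn : d 0 ^ 2 + d 1 * d 2 = 0) (hbb : bb d y0 ≠ 0) {N : ℕ}
    (q : Fin N → MvPolynomial (Fin 3) ℂ) (hne : ∃ m, aeval (ee w0) (q m) ≠ 0)
    (h : ∀ᶠ ε in 𝓝 (0 : ℂ), ∑ m, aeval (ee (w0 + ε)) (q m) * flw y0 d ε 2 ^ (m : ℕ) = 0) :
    ∀ i, ∃ x : ℚ, d i = x := by
  by_cases hfin : (comSet w0 y0 d).Finite
  · exfalso
    obtain ⟨m, hm⟩ := hne
    apply hm
    rw [indep_pair hw hy hbb hfin q h m, map_zero]
  obtain ⟨e, R1, R2, R3, R4, he, hD, hj, hy1, hd0, hd1, hd2⟩ :=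
    real_of_not_fin hw hy hbb hn hfin
  set G := GG e R1 R2 R3 R4 with hG
  set H : ℂ → ℂ := fun w ↦ ∑ m, aeval (ee w) (q m) * G w ^ (m : ℕ) with hH
  have hGan : AnalyticOnNhd ℂ G upperHalfPlaneSet := fun w hw' ↦ analytic_GG he hD hw'
  have hqan : ∀ m, AnalyticOnNhd ℂ (fun w ↦ aeval (ee w) (q m)) upperHalfPlaneSet :=
    fun m w hw' ↦ AnalyticAt.aeval_mvPolynomial (fun i ↦ analytic_ee hw' i) _
  have hHan : AnalyticOnNhd ℂ H upperHalfPlaneSet := by
    intro w hw'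
    refine Finset.analyticAt_fun_sum _ fun m _ ↦ ?_
    exact (hqan m w hw').fun_mul ((hGan w hw').fun_pow _)
  have hH0 : ∀ᶠ w in 𝓝 w0, H w = 0 := by
    have ht : Filter.Tendsto (fun w : ℂ ↦ w - w0) (𝓝 w0) (𝓝 0) := by
      have : Continuous fun w : ℂ ↦ w - w0 := by fun_prop
      have h1 := this.tendsto w0
      rwa [sub_self] at h1
    filter_upwards [ht.eventually h, ht.eventually (ev_jj y0 d)] with w h1 h2
    rw [add_sub_cancel] at h1
    rw [hH]
    beta_reduce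
    rw [← h1]
    refine Finset.sum_congr rfl fun m _ ↦ ?_
    congr 2
    have e3 : flw y0 d (w - w0) 2 =
        (jj y0 d (w - w0))⁻¹ ^ 6 * e6 (ww y0 d (w - w0)) := by simp [flw]
    have e4 : ww y0 d (w - w0) = (R1 * w + R2) / (R3 * w + R4) := by
      unfold ww
      rw [hy1, hj, add_sub_cancel, mul_div_mul_left _ _ he]
    rw [e3, e4, hj, add_sub_cancel]
    rfl
  have hHall := hHan.eqOn_zero_of_preconnected_of_eventuallyEq_zero preconnected_H hw hH0
  have hrel : ∀ w : ℂ, 0 < w.im → ∀ n : ℕ,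
      ∑ m, aeval (ee w) (q m) * G (w + n) ^ (m : ℕ) = 0 := by
    intro w hw' n
    have h1 : H (w + n) = 0 := hHall (by
      change 0 < (w + n).im
      rw [im_add_nat]; exact hw')
    rw [hH] at h1
    simp only [ee_add_nat hw'] at h1
    exact h1
  obtain ⟨m0, hm0⟩ := hne
  have hev : ∀ᶠ w in 𝓝 w0, ∃ p : Fin (N + 1) × Fin (N + 1), p.1 < p.2 ∧
      G (w + (p.1 : ℕ)) = G (w + (p.2 : ℕ)) := by
    have hc : ContinuousAt (fun w ↦ aeval (ee w) (q m0)) w0 := (hqan m0 w0 hw).continuousAt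
    filter_upwards [hc.eventually_ne hm0, isOpen_upperHalfPlaneSet.mem_nhds hw] with w h1 h2
    obtain ⟨n, n', h3, h4⟩ := pigeon (fun m ↦ aeval (ee w) (q m)) ⟨m0, h1⟩
      (fun n ↦ G (w + n)) (fun n ↦ hrel w h2 n)
    exact ⟨(n, n'), h3, h4⟩
  have hfr : ∃ p : Fin (N + 1) × Fin (N + 1), p.1 < p.2 ∧
      ∃ᶠ w in 𝓝[≠] w0, G (w + (p.1 : ℕ)) = G (w + (p.2 : ℕ)) := by
    by_contra hcon
    push Not at hcon
    have h1 : ∀ᶠ w in 𝓝[≠] w0, ∀ p : Fin (N + 1) × Fin (N + 1), p.1 < p.2 →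
        G (w + (p.1 : ℕ)) ≠ G (w + (p.2 : ℕ)) := by
      rw [Filter.eventually_all]
      intro p
      by_cases hp : p.1 < p.2
      · filter_upwards [hcon p hp] with w h2 _
        exact h2
      · exact Filter.Eventually.of_forall fun w h2 ↦ absurd h2 hp
    obtain ⟨w, h2, h3⟩ := (h1.and (hev.filter_mono nhdsWithin_le_nhds)).exists
    obtain ⟨p, hp, hpe⟩ := h3
    exact h2 p hp hpe
  obtain ⟨⟨n, n'⟩, hnn, hfr⟩ := hfr
  simp only at hnn hfr
  have hshift : ∀ n : ℕ, AnalyticOnNhd ℂ (fun w ↦ G (w + n)) upperHalfPlaneSet := by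
    intro n w hw'
    have h1 : 0 < (w + n).im := by rw [im_add_nat]; exact hw'
    exact AnalyticAt.fun_comp (g := G) (f := fun w : ℂ ↦ w + n) (hGan _ h1) (by fun_prop)
  have heq := (hshift n).eqOn_of_preconnected_of_frequently_eq (hshift n') preconnected_H hw hfr
  have hk : 0 < (n' : ℕ) - n := Nat.sub_pos_of_lt hnn
  have hper : ∀ w : ℂ, 0 < w.im → G (w + ((n' : ℕ) - (n : ℕ) : ℕ)) = G w := by
    intro w hw'
    have h1 : (w - ((n : ℕ) : ℂ)) ∈ upperHalfPlaneSet := by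
      change 0 < (w - ((n : ℕ) : ℂ)).im
      simpa using hw'
    have h2 := heq h1
    simp only [sub_add_cancel] at h2
    rw [h2]
    congr 1
    rw [Nat.cast_sub hnn.le]
    ring
  have hinv := inv_of_period he hD hper
  have hnil : (-(R1 * R3) / (R1 * R4 - R2 * R3)) ^ 2 +
      (R1 ^ 2 / (R1 * R4 - R2 * R3)) * (-R3 ^ 2 / (R1 * R4 - R2 * R3)) = 0 := by
    field_simp
    ring
  obtain ⟨⟨x0, h0⟩, ⟨x1, h1⟩, ⟨x2, h2⟩⟩ := hinv.unip hk hnil
  intro i
  fin_cases i
  · refine ⟨x0, ?_⟩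
    change d 0 = _
    rw [hd0, h0]
    push_cast
    rfl
  · refine ⟨x1, ?_⟩
    change d 1 = _
    rw [hd1, h1]
    push_cast
    rfl
  · refine ⟨x2, ?_⟩
    change d 2 = _
    rw [hd2, h2]
    push_cast
    rfl

end H32.T4

end S_H32_T4_A17

section S_H32_T4_A18

set_option linter.unusedSimpArgs false

open UpperHalfPlane hiding I
open Complex EisensteinSeries ModularForm MatrixGroups Manifold
open scoped Real Topology
open MvPolynomial Filter

namespace H32.T4

/-- Rational relation of germs. -/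
def GRel (φ ψ : Gm) : Prop :=
  ∃ a b c d : ℚ, a * d - b * c ≠ 0 ∧
    ∀ᶠ ζ in NE, ψ.f ζ * ((c : ℂ) * φ.f ζ + d) = (a : ℂ) * φ.f ζ + b

lemma rank_one {a0 a1 a2 : ℚ} (hn : a0 ^ 2 + a1 * a2 = 0) :
    ∃ α u v : ℚ, a0 = -(α * u * v) ∧ a1 = α * u ^ 2 ∧ a2 = -(α * v ^ 2) := by
  by_cases h2 : a2 = 0
  · rw [h2, mul_zero, add_zero] at hn
    have h0 : a0 = 0 := by simpa using hn
    exact ⟨a1, 1, 0, by simp [h0], by simp, by simp [h2]⟩
  · refine ⟨-1 / a2, a0, a2, by field_simp, ?_, by field_simp⟩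
    field_simp
    linear_combination hn

lemma classif {A C : Fin 3 → ℂ} (hA : ∀ i, ∃ x : ℚ, A i = x) (hC : ∀ i, ∃ x : ℚ, C i = x)
    (hA0 : A ≠ 0) (hnA : A 0 ^ 2 + A 1 * A 2 = 0) (hnC : C 0 ^ 2 + C 1 * C 2 = 0)
    (hbr : br (br A C) A = (2 : ℂ) • A) :
    ∃ a b c d : ℚ, a * d - b * c ≠ 0 ∧ ∀ x y : ℂ,
      bb (x • br A C - x ^ 2 • A + C) y = 0 → y * ((c : ℂ) * x + d) = (a : ℂ) * x + b := by
  obtain ⟨a0, ha0⟩ := hA 0
  obtain ⟨a1, ha1⟩ := hA 1
  obtain ⟨a2, ha2⟩ := hA 2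
  obtain ⟨c0, hc0⟩ := hC 0
  obtain ⟨c1, hc1⟩ := hC 1
  obtain ⟨c2, hc2⟩ := hC 2
  rw [ha0, ha1, ha2] at hnA
  rw [hc0, hc1, hc2] at hnC
  obtain ⟨α, u, v, e0, e1, e2⟩ := rank_one (a0 := a0) (a1 := a1) (a2 := a2) (by exact_mod_cast hnA)
  obtain ⟨γ, p, q, f0, f1, f2⟩ := rank_one (a0 := c0) (a1 := c1) (a2 := c2) (by exact_mod_cast hnC)
  have hA0' : A 0 = -(α * u * v) := by rw [ha0, e0]; push_cast; ring
  have hA1' : A 1 = α * u ^ 2 := by rw [ha1, e1]; push_cast; ring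
  have hA2' : A 2 = -(α * v ^ 2) := by rw [ha2, e2]; push_cast; ring
  have hC0' : C 0 = -(γ * p * q) := by rw [hc0, f0]; push_cast; ring
  have hC1' : C 1 = γ * p ^ 2 := by rw [hc1, f1]; push_cast; ring
  have hC2' : C 2 = -(γ * q ^ 2) := by rw [hc2, f2]; push_cast; ring
  set D : ℚ := u * q - v * p with hD
  have hDC : (D : ℂ) = u * q - v * p := by rw [hD]; push_cast; ring
  have hα : (α : ℂ) ≠ 0 := by
    intro h0
    apply hA0
    ext i
    fin_cases i
    · change A 0 = 0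
      rw [hA0', h0]; ring
    · change A 1 = 0
      rw [hA1', h0]; ring
    · change A 2 = 0
      rw [hA2', h0]; ring
  have huv : (u : ℂ) ≠ 0 ∨ (v : ℂ) ≠ 0 := by
    by_contra hcon
    push Not at hcon
    apply hA0
    ext i
    fin_cases i
    · change A 0 = 0
      rw [hA0', hcon.1]; ring
    · change A 1 = 0
      rw [hA1', hcon.1]; ring
    · change A 2 = 0
      rw [hA2', hcon.2]; ring
  have h1 := congrFun hbr 1
  have h2 := congrFun hbr 2
  simp only [br, Matrix.cons_val_zero, Matrix.cons_val_one, Matrix.cons_val, Pi.smul_apply,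
    smul_eq_mul] at h1 h2
  rw [hA0', hA1', hA2', hC0', hC1', hC2'] at h1 h2
  have key : (α : ℂ) * γ * D ^ 2 = -1 := by
    rw [hDC]
    rcases huv with hu | hv
    · have h3 : (2 * α * u ^ 2 : ℂ) * (α * γ * (u * q - v * p) ^ 2 + 1) = 0 := by
        linear_combination -h1
      have h4 : (2 * α * u ^ 2 : ℂ) ≠ 0 :=
        mul_ne_zero (mul_ne_zero two_ne_zero hα) (pow_ne_zero 2 hu)
      have h5 := (mul_eq_zero.mp h3).resolve_left h4
      linear_combination h5
    · have h3 : (2 * α * v ^ 2 : ℂ) * (α * γ * (u * q - v * p) ^ 2 + 1) = 0 := by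
        linear_combination h2
      have h4 : (2 * α * v ^ 2 : ℂ) ≠ 0 :=
        mul_ne_zero (mul_ne_zero two_ne_zero hα) (pow_ne_zero 2 hv)
      have h5 := (mul_eq_zero.mp h3).resolve_left h4
      linear_combination h5
  have keyQ : α * γ * D ^ 2 = -1 := by exact_mod_cast key
  have hγ : (γ : ℂ) ≠ 0 := by
    intro h0
    rw [h0] at key
    norm_num at key
  refine ⟨α * D * u, p, α * D * v, q, ?_, fun x y hxy ↦ ?_⟩
  · have : α * D * u * q - p * (α * D * v) = α * D ^ 2 := by rw [hD]; ring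
    rw [this]
    intro h0
    have : α * γ * D ^ 2 = 0 := by linear_combination γ * h0
    rw [this] at keyQ
    norm_num at keyQ
  · have h3 : (γ : ℂ) * ((p - q * y) + x * α * D * (u - v * y)) ^ 2 = 0 := by
      rw [← hxy]
      simp only [bb, br, Pi.add_apply, Pi.sub_apply, Pi.smul_apply, smul_eq_mul,
        Matrix.cons_val_zero, Matrix.cons_val_one, Matrix.cons_val]
      rw [hA0', hA1', hA2', hC0', hC1', hC2']
      rw [hDC] at key ⊢
      linear_combination (x ^ 2 * α * (u - v * y) ^ 2) * key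
    have h4 := (mul_eq_zero.mp h3).resolve_left hγ
    have h5 : (p - q * y : ℂ) + x * α * D * (u - v * y) = 0 := by
      simpa using h4
    push_cast
    linear_combination -h5

/-- A single Moebius map cannot be algebraic. -/
lemma no_single {y0 : ℂ} (hy : 0 < y0.im) {d : Fin 3 → ℂ} (hbb : bb d y0 ≠ 0) {N : ℕ}
    (a : Fin N → ℂ → ℂ) (ha : ∀ m, AnalyticOnNhd ℂ (a m) Set.univ) {m0 : Fin N} (hm0 : a m0 0 ≠ 0)
    (h : ∀ᶠ ε in 𝓝 (0 : ℂ), ∑ m, a m ε * flw y0 d ε 2 ^ (m : ℕ) = 0) : False := by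
  classical
  set g1 : Mo := ⟨d 0 * y0 + d 1, y0, d 2 * y0 - d 0, 1, by rw [det_bb]; exact hbb⟩ with hg1
  set g : Fin 1 → Mo := fun _ ↦ g1 with hg
  have hconc := FT1 g (by
      intro i
      change 0 < (g1.ev 0).im
      simp [Mo.ev, hg1, hy])
    (by
      intro i j hij
      exact absurd (Subsingleton.elim i j) hij)
    (e := fun (μ : Fin N) (_ : Fin 1) ↦ ![0, 0, (μ : ℕ)])
    (c := fun μ s ↦ a μ s * jj y0 d s ^ (6 * (N - (μ : ℕ))))
    (by
      intro μ s _
      have h1 := ha μ s (Set.mem_univ _)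
      have h2 : AnalyticAt ℂ (fun s ↦ jj y0 d s ^ (6 * (N - (μ : ℕ)))) s := by
        unfold jj
        fun_prop
      exact h1.fun_mul h2) 1 Finset.univ (by simp) Finset.univ
    (by
      intro m _ m' _ hall
      have h1 := hall 0 (Finset.mem_univ _)
      have h2 := congrFun h1 2
      simp at h2
      exact Fin.ext h2)
    (by
      filter_upwards [h, ev_jj y0 d] with s hs hj
      have hmul : jj y0 d s ^ (6 * N) * ∑ m, a m s * flw y0 d s 2 ^ (m : ℕ) = 0 := by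
        rw [hs, mul_zero]
      rw [← hmul, Finset.mul_sum]
      refine Finset.sum_congr rfl fun m _ ↦ ?_
      rw [Fin.prod_univ_one]
      have e1 : (g 0).ev s = ww y0 d s := by
        rw [ww_eq]
        rfl
      have e2 : mon (![0, 0, (m : ℕ)]) (ww y0 d s) = e6 (ww y0 d s) ^ (m : ℕ) := by
        simp [mon]
      have e3 : flw y0 d s 2 = (jj y0 d s)⁻¹ ^ 6 * e6 (ww y0 d s) := by
        simp [flw]
      have e4 : jj y0 d s ^ (6 * N) = jj y0 d s ^ (6 * (N - (m : ℕ))) *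
          (jj y0 d s ^ 6) ^ (m : ℕ) := by
        rw [← pow_mul, ← pow_add]
        congr 1
        have := m.2
        omega
      rw [e1, e2, e3, e4, mul_pow, inv_pow, inv_pow]
      have hj6 : (jj y0 d s ^ 6) ^ (m : ℕ) ≠ 0 := pow_ne_zero _ (pow_ne_zero _ hj)
      field_simp)
  have h1 := (hconc m0 (Finset.mem_univ _)).self_of_nhds
  simp only [jj_zero, one_pow, mul_one] at h1
  exact hm0 h1

/-- The flow of `e`. -/
lemma flw_e (w0 ε : ℂ) : flw w0 ![0, 1, 0] ε = ee (w0 + ε) := by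
  have hj : jj w0 ![0, 1, 0] ε = 1 := by simp [jj]
  have hw : ww w0 ![0, 1, 0] ε = w0 + ε := by simp [ww, hj]
  ext l
  fin_cases l
  · simp [flw, ee, hj, hw]
  · simp [flw, ee, hj, hw]
  · simp [flw, ee, hj, hw]

/-- The flow of the frame fixing the base point. -/
lemma flw_n (w0 ε : ℂ) : flw w0 ![w0, -w0 ^ 2, 1] ε =
    ![e2 w0 + cK ℂ * ε, e4 w0, e6 w0] := by
  have hj : jj w0 ![w0, -w0 ^ 2, 1] ε = 1 := by simp [jj]
  have hw : ww w0 ![w0, -w0 ^ 2, 1] ε = w0 := by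
    have : w0 * w0 + -w0 ^ 2 = 0 := by ring
    simp [ww, hj, this]
  ext l
  fin_cases l
  · simp [flw, hj, hw]
  · simp [flw, hj, hw]
  · simp [flw, hj, hw]

lemma flw_neg (w0 : ℂ) (d : Fin 3 → ℂ) (ε : ℂ) : flw w0 d (-ε) = flw w0 (-d) ε := by
  have hj : jj w0 d (-ε) = jj w0 (-d) ε := by
    simp only [jj, Pi.neg_apply]; ring
  have hw : ww w0 d (-ε) = ww w0 (-d) ε := by
    unfold ww
    rw [hj]
    congr 1
    simp only [Pi.neg_apply]; ring
  ext l
  fin_cases l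
  · simp only [flw, hj, hw, Matrix.cons_val_zero, Fin.zero_eta, Pi.neg_apply]; ring
  · simp only [flw, hj, hw, Matrix.cons_val_one, Fin.mk_one, Matrix.cons_val_zero]
  · simp only [flw, hj, hw, Matrix.cons_val, Fin.reduceFinMk]

/-- The behaviour under inversion. -/
lemma ee_inv {τ : ℂ} (hτ : 0 < τ.im) :
    e2 (-1 / τ) = τ ^ 2 * e2 τ - cK ℂ * τ ∧ e4 (-1 / τ) = τ ^ 4 * e4 τ ∧
      e6 (-1 / τ) = τ ^ 6 * e6 τ := by
  set γ : SL(2, ℤ) := ⟨!![0, -1; 1, 0], by rw [Matrix.det_fin_two]; simp⟩ with hγ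
  have h2 : ((γ • (⟨τ, hτ⟩ : ℍ) : ℍ) : ℂ) = -1 / τ := by
    rw [coe_specialLinearGroup_apply]
    simp [hγ]
  have h3 : denom (γ : GL (Fin 2) ℝ) (⟨τ, hτ⟩ : ℍ) = τ := by
    rw [ModularGroup.denom_apply]
    simp [hγ]
  have e : ofComplex (-1 / τ) = γ • (⟨τ, hτ⟩ : ℍ) := by
    rw [← h2, ofComplex_apply]
  have e' : ofComplex τ = ⟨τ, hτ⟩ := ofComplex_apply_of_im_pos hτ
  have g2 := E2_smul γ ⟨τ, hτ⟩
  have g4 := WInv_E4 γ ⟨τ, hτ⟩
  have g6 := WInv_E6 γ ⟨τ, hτ⟩
  have hγ10 : ((γ 1 0 : ℤ) : ℂ) = 1 := by simp [hγ]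
  rw [h3, hγ10] at g2
  simp only [h3] at g4 g6
  have hK : cK ℂ = 6 * I / π := rfl
  refine ⟨?_, ?_, ?_⟩
  · rw [e2, e2, e, e', g2, hK]; ring
  · rw [e4, e4, e, e']; exact g4
  · rw [e6, e6, e, e']; exact g6

/-- The flow of `f`. -/
lemma flw_f {w0 : ℂ} (hw : 0 < w0.im) {ε : ℂ} (hε : 0 < (-1 / w0 - ε).im) :
    flw w0 ![0, 0, 1] ε = ![w0⁻¹ ^ 2 * e2 (-1 / w0 - ε) + cK ℂ * w0⁻¹,
      w0⁻¹ ^ 4 * e4 (-1 / w0 - ε), w0⁻¹ ^ 6 * e6 (-1 / w0 - ε)] := by
  have hw0 : w0 ≠ 0 := by rintro rfl; simp at hw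
  set τ : ℂ := -1 / w0 - ε with hτ
  have hτ0 : τ ≠ 0 := by intro h0; rw [h0] at hε; simp at hε
  have hj : jj w0 ![0, 0, 1] ε = -(w0 * τ) := by
    simp only [jj, Matrix.cons_val_zero, Matrix.cons_val]
    rw [hτ]; field_simp; ring
  have hww : ww w0 ![0, 0, 1] ε = -1 / τ := by
    simp only [ww, hj, Matrix.cons_val_zero, Matrix.cons_val_one]
    field_simp
    simp
  obtain ⟨h2, h4, h6⟩ := ee_inv hε
  have hετ : ε = -1 / w0 - τ := by rw [hτ]; ring
  ext l
  fin_cases l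
  · simp only [flw, hj, hww, Matrix.cons_val_zero, Fin.zero_eta, h2, Matrix.cons_val]
    rw [hετ]
    field_simp
    ring
  · simp only [flw, hj, hww, Matrix.cons_val_one, Fin.mk_one, h4, Matrix.cons_val_zero]
    field_simp
  · simp only [flw, hj, hww, Matrix.cons_val, Fin.reduceFinMk, h6]
    field_simp

end H32.T4

end S_H32_T4_A18

section S_H32_T4_A19

set_option linter.unusedSimpArgs false

open UpperHalfPlane hiding I
open Complex EisensteinSeries ModularForm MatrixGroups Manifold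
open scoped Real Topology
open MvPolynomial Filter

namespace H32.T4

/-- A polynomial relation from algebraicity. -/
lemma exists_rel {F : IntermediateField ℂ MG} {v : Fin 3 → MG} {x : MG}
    (h : IsAlgebraic (IntermediateField.adjoin F (Set.range v)) x) :
    ∃ (N : ℕ) (q : Fin N → MvPolynomial (Fin 3) F), (∃ m, aeval v (q m) ≠ 0) ∧
      ∑ m, aeval v (q m) * x ^ (m : ℕ) = 0 := by
  rw [IntermediateField.isAlgebraic_adjoin_iff] at h
  obtain ⟨p, hp, hx⟩ := h
  have hc : ∀ i, ∃ q : MvPolynomial (Fin 3) F, aeval v q = ((p.coeff i : _) : MG) := by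
    intro i
    have h1 : ((p.coeff i : _) : MG) ∈ (aeval v : MvPolynomial (Fin 3) F →ₐ[F] MG).range := by
      rw [← Algebra.adjoin_range_eq_range_aeval]
      exact (p.coeff i).2
    exact h1
  choose q hq using hc
  refine ⟨p.natDegree + 1, fun m ↦ q m, ⟨⟨p.natDegree, Nat.lt_succ_self _⟩, ?_⟩, ?_⟩
  · rw [hq]
    intro h0
    apply hp
    rw [← Polynomial.leadingCoeff_eq_zero]
    exact Subtype.ext h0
  · rw [← hx, Polynomial.aeval_eq_sum_range, Finset.sum_range]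
    refine Finset.sum_congr rfl fun m _ ↦ ?_
    rw [hq, Algebra.smul_def]
    rfl

/-- The specialised coefficient polynomial. -/
noncomputable def qz {W : Finset (Fin 3 →₀ ℕ)} (x : {ν // ν ∈ W} → ℂ) : MvPolynomial (Fin 3) ℂ :=
  ∑ ν : {ν // ν ∈ W}, monomial ν.1 (x ν)

lemma aeval_qz {B : Type} [CommRing B] [Algebra ℂ B] {W : Finset (Fin 3 →₀ ℕ)}
    (x : {ν // ν ∈ W} → ℂ) (y : Fin 3 → B) :
    aeval y (qz x) = ∑ ν : {ν // ν ∈ W}, algebraMap ℂ B (x ν) * ∏ l, y l ^ (ν.1 l) := by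
  unfold qz
  rw [map_sum]
  refine Finset.sum_congr rfl fun ν _ ↦ ?_
  rw [aeval_monomial, Finsupp.prod_fintype _ _ (by simp)]

/-- The index type of the coefficients. -/
abbrev Ix (N : ℕ) (W : Finset (Fin 3 →₀ ℕ)) : Type := Fin 2 ⊕ Fin N × {ν // ν ∈ W}

/-- The universal coefficient. -/
noncomputable def Uq {N : ℕ} {W : Finset (Fin 3 →₀ ℕ)} (m : Fin N) :
    MvPolynomial (Ix N W ⊕ (Fin 3 ⊕ Fin 3)) ℂ :=
  ∑ ν : {ν // ν ∈ W}, X (Sum.inl (Sum.inr (m, ν))) * ∏ l, X (Sum.inr (Sum.inl l)) ^ (ν.1 l)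

/-- The universal relation. -/
noncomputable def UU (N : ℕ) (W : Finset (Fin 3 →₀ ℕ)) :
    MvPolynomial (Ix N W ⊕ (Fin 3 ⊕ Fin 3)) ℂ :=
  ∑ m : Fin N, Uq m * X (Sum.inr (Sum.inr 2)) ^ (m : ℕ)

lemma aeval_Uq {B : Type} [CommRing B] [Algebra ℂ B] {N : ℕ} {W : Finset (Fin 3 →₀ ℕ)}
    (m : Fin N) (x : Ix N W ⊕ (Fin 3 ⊕ Fin 3) → B) :
    aeval x (Uq m) = ∑ ν : {ν // ν ∈ W}, x (Sum.inl (Sum.inr (m, ν))) *
      ∏ l, x (Sum.inr (Sum.inl l)) ^ (ν.1 l) := by
  unfold Uq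
  simp only [map_sum, map_mul, map_prod, map_pow, aeval_X]

lemma aeval_UU {B : Type} [CommRing B] [Algebra ℂ B] {N : ℕ} {W : Finset (Fin 3 →₀ ℕ)}
    (x : Ix N W ⊕ (Fin 3 ⊕ Fin 3) → B) :
    aeval x (UU N W) = ∑ m : Fin N, (∑ ν : {ν // ν ∈ W}, x (Sum.inl (Sum.inr (m, ν))) *
      ∏ l, x (Sum.inr (Sum.inl l)) ^ (ν.1 l)) * x (Sum.inr (Sum.inr 2)) ^ (m : ℕ) := by
  unfold UU
  simp only [map_sum, map_mul, map_pow, aeval_X, aeval_Uq]

lemma aeval_specg_UU {N : ℕ} {W : Finset (Fin 3 →₀ ℕ)} (x : Ix N W → ℂ) (A B : Fin 3 → ℂ) :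
    aeval (Sum.elim A B) (specg x (UU N W)) =
      ∑ m : Fin N, aeval A (qz fun ν ↦ x (Sum.inr (m, ν))) * B 2 ^ (m : ℕ) := by
  rw [aeval_specg, aeval_UU]
  refine Finset.sum_congr rfl fun m _ ↦ ?_
  rw [aeval_qz]
  rfl

/-- The affine substitution. -/
noncomputable def aff (w0 : ℂ) (P : MvPolynomial (Fin 3) ℂ) : MvPolynomial (Fin 3) ℂ :=
  aeval ![C (w0⁻¹ ^ 2) * X 0 + C (cK ℂ * w0⁻¹), C (w0⁻¹ ^ 4) * X 1, C (w0⁻¹ ^ 6) * X 2] P

lemma aeval_aff (w0 : ℂ) (P : MvPolynomial (Fin 3) ℂ) (x : Fin 3 → ℂ) :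
    aeval x (aff w0 P) = aeval ![w0⁻¹ ^ 2 * x 0 + cK ℂ * w0⁻¹, w0⁻¹ ^ 4 * x 1, w0⁻¹ ^ 6 * x 2] P := by
  unfold aff
  have h1 : (aeval x : MvPolynomial (Fin 3) ℂ →ₐ[ℂ] ℂ).comp
      (aeval ![C (w0⁻¹ ^ 2) * X 0 + C (cK ℂ * w0⁻¹), C (w0⁻¹ ^ 4) * X 1, C (w0⁻¹ ^ 6) * X 2]) =
      aeval ![w0⁻¹ ^ 2 * x 0 + cK ℂ * w0⁻¹, w0⁻¹ ^ 4 * x 1, w0⁻¹ ^ 6 * x 2] := by
    apply MvPolynomial.algHom_ext
    intro i
    fin_cases i
    · simp
    · simp
    · simp
  exact congrArg (fun f ↦ f P) h1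

/-- The conclusion at a generic point. -/
lemma at_point {w0 y0 : ℂ} (hw : 0 < w0.im) (hy : 0 < y0.im) {A C : Fin 3 → ℂ}
    (hnA : A 0 ^ 2 + A 1 * A 2 = 0) (hnC : C 0 ^ 2 + C 1 * C 2 = 0)
    (hA : bb A y0 ≠ 0) (hC : bb C y0 ≠ 0) {N : ℕ} (q : Fin N → MvPolynomial (Fin 3) ℂ)
    (hne : ∃ m, aeval (ee w0) (q m) ≠ 0)
    (h1 : ∀ᶠ ε in 𝓝 (0 : ℂ), ∑ m, aeval (flw w0 ![0, 1, 0] ε) (q m) *
      flw y0 A ε 2 ^ (m : ℕ) = 0)
    (h2 : ∀ᶠ ε in 𝓝 (0 : ℂ), ∑ m, aeval (flw w0 ![0, 0, 1] ε) (q m) *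
      flw y0 C ε 2 ^ (m : ℕ) = 0) :
    (∀ i, ∃ x : ℚ, A i = x) ∧ ∀ i, ∃ x : ℚ, C i = x := by
  constructor
  · refine period hw hy hnA hA q hne ?_
    filter_upwards [h1] with ε hε
    simpa only [flw_e] using hε
  · have hw0 : w0 ≠ 0 := by rintro rfl; simp at hw
    have hw1 : 0 < (-1 / w0).im := by
      rw [neg_div, one_div, Complex.neg_im, Complex.inv_im]
      have := Complex.normSq_pos.mpr hw0
      rw [neg_div, neg_neg]
      positivity
    have hnC' : (-C) 0 ^ 2 + (-C) 1 * (-C) 2 = 0 := by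
      simp only [Pi.neg_apply]
      linear_combination hnC
    have hbC' : bb (-C) y0 ≠ 0 := by
      have : bb (-C) y0 = -bb C y0 := by
        unfold bb
        simp only [Pi.neg_apply]
        ring
      rw [this]
      exact neg_ne_zero.mpr hC
    have hvec : ∀ ε : ℂ, 0 < (-1 / w0 + ε).im → flw w0 ![0, 0, 1] (-ε) =
        ![w0⁻¹ ^ 2 * ee (-1 / w0 + ε) 0 + cK ℂ * w0⁻¹, w0⁻¹ ^ 4 * ee (-1 / w0 + ε) 1,
          w0⁻¹ ^ 6 * ee (-1 / w0 + ε) 2] := by
      intro ε hε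
      have h3 := flw_f hw (ε := -ε) (by rw [sub_neg_eq_add]; exact hε)
      rw [sub_neg_eq_add] at h3
      exact h3
    obtain ⟨m0, hm0⟩ := hne
    have h3 := period hw1 hy hnC' hbC' (fun m ↦ aff w0 (q m)) ⟨m0, by
      rw [aeval_aff]
      have h4 := hvec 0 (by rw [add_zero]; exact hw1)
      rw [add_zero, neg_zero, flw_zero] at h4
      rw [← h4]
      exact hm0⟩ (by
      have ht : Filter.Tendsto (fun ε : ℂ ↦ -ε) (𝓝 0) (𝓝 0) := by
        have : Continuous fun ε : ℂ ↦ -ε := continuous_neg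
        have h4 := this.tendsto 0
        rwa [neg_zero] at h4
      have hpos : ∀ᶠ ε in 𝓝 (0 : ℂ), 0 < (-1 / w0 + ε).im := by
        have hc : ContinuousAt (fun ε : ℂ ↦ (-1 / w0 + ε).im) 0 := by
          apply Continuous.continuousAt
          fun_prop
        refine hc.eventually (lt_mem_nhds ?_)
        beta_reduce
        rw [add_zero]
        exact hw1
      filter_upwards [ht.eventually h2, hpos] with ε hε hp
      rw [← hε]
      refine Finset.sum_congr rfl fun m _ ↦ ?_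
      rw [aeval_aff, ← hvec ε hp, flw_neg y0])
    intro i
    obtain ⟨x, hx⟩ := h3 i
    refine ⟨-x, ?_⟩
    push_cast
    rw [← hx, Pi.neg_apply, neg_neg]

end H32.T4

end S_H32_T4_A19

section S_H32_T4_A20

set_option linter.unusedSimpArgs false

open UpperHalfPlane hiding I
open Complex EisensteinSeries ModularForm MatrixGroups Manifold
open scoped Real Topology
open MvPolynomial Filter

namespace H32.T4

/-- Adjoining the solution, as a field over the complex numbers. -/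
noncomputable def adE (F : IntermediateField ℂ MG) (φ : Gm) : IntermediateField ℂ MG :=
  (IntermediateField.adjoin F (Set.range φ.v)).restrictScalars ℂ

lemma le_adE (F : IntermediateField ℂ MG) (φ : Gm) {x : MG} (hx : x ∈ F) : x ∈ adE F φ :=
  (IntermediateField.adjoin F (Set.range φ.v)).algebraMap_mem ⟨x, hx⟩

lemma v_mem_adE (F : IntermediateField ℂ MG) (φ : Gm) (l : Fin 3) : φ.v l ∈ adE F φ :=
  IntermediateField.subset_adjoin F (Set.range φ.v) ⟨l, rfl⟩

lemma stab_adE {F : IntermediateField ℂ MG} (hF : Stab F) {φ : Gm} (hφ : φ.z ∈ F) :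
    Stab (adE F φ) := by
  refine stab_adjoin hF (IntermediateField.adjoin F (Set.range φ.v)) rfl ?_
  rintro _ ⟨l, rfl⟩
  rw [φ.DD_v]
  have hm : ∀ l, φ.v l ∈ IntermediateField.adjoin F (Set.range φ.v) := fun l ↦
    IntermediateField.subset_adjoin F (Set.range φ.v) ⟨l, rfl⟩
  have h1 := map_Rm (IsScalarTower.toAlgHom ℂ (IntermediateField.adjoin F (Set.range φ.v)) MG)
    (fun l ↦ (⟨φ.v l, hm l⟩ : IntermediateField.adjoin F (Set.range φ.v))) l
  change ((Rm (fun l ↦ (⟨φ.v l, hm l⟩ : IntermediateField.adjoin F (Set.range φ.v))) l :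
    IntermediateField.adjoin F (Set.range φ.v)) : MG) = Rm φ.v l at h1
  rw [← h1]
  exact mul_mem ((IntermediateField.adjoin F (Set.range φ.v)).algebraMap_mem ⟨DD φ.z, hF _ hφ⟩)
    (Subtype.mem _)

/-- The core of the theorem on pairs. -/
theorem pair_core {F : IntermediateField ℂ MG} {φ ψ : Gm} (h : PairHyp F φ ψ)
    (hc2 : ∀ a : ℂ, ψ.z ≠ algebraMap ℂ MG a) : GRel φ ψ := by
  classical
  obtain ⟨A, B, C, hA0, hC0, hRA, hRC, hB, hBA, hBC, hx⟩ := exists_triple h
  have hnA : A 0 ^ 2 + A 1 * A 2 = 0 := nil_of_br hBA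
  have hnC : C 0 ^ 2 + C 1 * C 2 = 0 := by
    refine nil_of_br (σ := -B) ?_
    have e : br (-B) C = -br B C := by
      ext i
      fin_cases i
      · simp [br]; ring
      · simp [br]; ring
      · simp [br]; ring
    rw [e, hBC]
    ext i
    simp
  subst hB
  -- the relation
  obtain ⟨N, q, ⟨m0, hm0⟩, hq⟩ := exists_rel (h.alg 2)
  set W : Finset (Fin 3 →₀ ℕ) := Finset.univ.biUnion fun m ↦ (q m).support with hW
  have hWs : ∀ m, (q m).support ⊆ W := fun m ↦
    Finset.subset_biUnion_of_mem (fun m ↦ (q m).support) (Finset.mem_univ m)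
  set k : Ix N W → F := Sum.elim ![⟨φ.z, h.hφ⟩, ⟨ψ.z, h.hψ⟩] (fun p ↦ coeff p.2.1 (q p.1)) with hk
  have hqe : ∀ m, aeval φ.v (q m) =
      ∑ ν : {ν // ν ∈ W}, ((coeff ν.1 (q m) : F) : MG) * ∏ l, φ.v l ^ (ν.1 l) := by
    intro m
    have e := Finset.sum_coe_sort W (fun ν ↦ ((coeff ν (q m) : F) : MG) * ∏ l, φ.v l ^ (ν l))
    refine Eq.trans ?_ e.symm
    rw [aeval_def, eval₂_eq']
    refine Finset.sum_subset_zero_on_sdiff (hWs m) ?_ ?_
    · intro ν hν
      rw [Finset.mem_sdiff, MvPolynomial.mem_support_iff, not_not] at hν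
      rw [hν.2]
      simp
    · intro ν _
      rfl
  have hU : aeval (Sum.elim (fun i ↦ (k i : MG)) (Sum.elim φ.v ψ.v)) (UU N W) = 0 := by
    rw [aeval_UU, ← hq]
    refine Finset.sum_congr rfl fun m _ ↦ ?_
    rw [hqe]
    rfl
  choose g hg hgk using fun i : Ix N W ↦ exists_rep ((k i : F) : MG)
  have hflow := pair_flow k (Sum.inl 0) (Sum.inl 1) rfl rfl (UU N W) hU g hg hgk
  -- generic nonvanishing
  have hgen : ∀ᶠ ζ in NE, aeval (ee (φ.f ζ)) (qz fun ν ↦ g (Sum.inr (m0, ν)) ζ) ≠ 0 := by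
    set f : Ix N W ⊕ (Fin 3 ⊕ Fin 3) → ℂ → ℂ :=
      Sum.elim g (Sum.elim (fun l ζ ↦ ee (φ.f ζ) l) (fun l ζ ↦ ee (ψ.f ζ) l)) with hf
    have hfm : ∀ i, MeromorphicAt (f i) 0 := by
      rintro (m | l | l)
      · exact hg m
      · exact (φ.an_ee l).meromorphicAt
      · exact (ψ.an_ee l).meromorphicAt
    have hfk : (fun i ↦ mk (f i) (hfm i)) =
        Sum.elim (fun i ↦ (k i : MG)) (Sum.elim φ.v ψ.v) := by
      ext i
      rcases i with m | l | l
      · exact hgk m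
      · rfl
      · rfl
    obtain ⟨hmer, he⟩ := aeval_mk f hfm (Uq m0)
    rw [hfk, aeval_Uq] at he
    have he2 : aeval φ.v (q m0) = mk _ hmer := by
      rw [hqe, ← he]
      rfl
    have hfun : (fun ζ ↦ aeval (fun i ↦ f i ζ) (Uq (W := W) m0)) =
        fun ζ ↦ aeval (ee (φ.f ζ)) (qz fun ν ↦ g (Sum.inr (m0, ν)) ζ) := by
      ext ζ
      rw [aeval_Uq, aeval_qz]
      rfl
    rcases hmer.eventually_eq_zero_or_eventually_ne_zero with h1 | h1
    · exfalso
      apply hm0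
      rw [he2, mk_eq_zero]
      exact h1
    · have h2 : ∀ᶠ ζ in NE, (fun ζ ↦ aeval (fun i ↦ f i ζ) (Uq (W := W) m0)) ζ ≠ 0 := h1
      rw [hfun] at h2
      exact h2
  have hevA := ev_bb ψ hc2 hA0
  have hevC := ev_bb ψ hc2 hC0
  have hpφ := φ.ev_pos.filter_mono (nhdsWithin_le_nhds (s := {0}ᶜ))
  have hpψ := ψ.ev_pos.filter_mono (nhdsWithin_le_nhds (s := {0}ᶜ))
  have hgood := hflow.and (hgen.and (hevA.and (hevC.and (hpφ.and hpψ))))
  -- rationality
  obtain ⟨hArat, hCrat⟩ : (∀ i, ∃ x : ℚ, A i = x) ∧ ∀ i, ∃ x : ℚ, C i = x := by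
    obtain ⟨ζ, h1, h2, h3, h4, h5, h6⟩ := hgood.exists
    refine at_point h5 h6 hnA hnC h3 h4 (fun m ↦ qz fun ν ↦ g (Sum.inr (m, ν)) ζ) ⟨m0, h2⟩ ?_ ?_
    · filter_upwards [h1 ![0, 1, 0] A hRA (by simp) hnA] with ε hε
      rwa [aeval_specg_UU] at hε
    · filter_upwards [h1 ![0, 0, 1] C hRC (by simp) hnC] with ε hε
      rwa [aeval_specg_UU] at hε
  obtain ⟨a, b, c, d, hdet, hcl⟩ := classif hArat hCrat hA0 hnA hnC hBA
  refine ⟨a, b, c, d, hdet, ?_⟩
  filter_upwards [hgood] with ζ hζ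
  obtain ⟨h1, h2, h3, h4, h5, h6⟩ := hζ
  apply hcl
  by_contra hcon
  obtain ⟨hR, hbr⟩ := hx (φ.f ζ)
  have hnn := nil_of_br hbr
  have h7 := h1 _ _ hR (by
    simp only [Matrix.cons_val_zero, Matrix.cons_val_one, Matrix.cons_val]
    ring) hnn
  refine no_single h6 hcon (fun m ε ↦ aeval (![e2 (φ.f ζ) + cK ℂ * ε, e4 (φ.f ζ), e6 (φ.f ζ)] :
    Fin 3 → ℂ) (qz fun ν ↦ g (Sum.inr (m, ν)) ζ)) ?_ (m0 := m0) ?_ ?_
  · intro m ε _
    refine AnalyticAt.aeval_mvPolynomial (fun i ↦ ?_) _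
    fin_cases i
    · change AnalyticAt ℂ (fun ε ↦ e2 (φ.f ζ) + cK ℂ * ε) ε
      fun_prop
    · exact analyticAt_const
    · exact analyticAt_const
  · have e : (![e2 (φ.f ζ) + cK ℂ * 0, e4 (φ.f ζ), e6 (φ.f ζ)] : Fin 3 → ℂ) = ee (φ.f ζ) := by
      rw [mul_zero, add_zero]
      rfl
    rw [e]
    exact h2
  · filter_upwards [h7] with ε hε
    rw [aeval_specg_UU, flw_n] at hε
    exact hε

theorem pair_thm {F : IntermediateField ℂ MG} (hF : Stab F) {φ ψ : Gm} (hφ : φ.z ∈ F)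
    (hψ : ψ.z ∈ F) (hc1 : ∀ a : ℂ, φ.z ≠ algebraMap ℂ MG a)
    (hc2 : ∀ a : ℂ, ψ.z ≠ algebraMap ℂ MG a) (h1 : AlgebraicIndependent F φ.v)
    (h2 : AlgebraicIndependent F ψ.v) (hrel : ¬ GRel φ ψ) :
    AlgebraicIndependent (IntermediateField.adjoin F (Set.range φ.v)) ψ.v := by
  by_contra hcon
  apply hrel
  refine pair_core (F := F) ⟨hF, hφ, hψ, h1, ?_, ?_⟩ hc2
  · have h3 := single (adE F φ) (stab_adE hF hφ) ψ (le_adE F φ hψ) hc2
    exact h3.resolve_left hcon
  · have h3 := single (adE F ψ) (stab_adE hF hψ) φ (le_adE F ψ hφ) hc1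
    refine h3.resolve_left fun h4 ↦ hcon ?_
    have h5 : AlgebraicIndependent (IntermediateField.adjoin F (Set.range ψ.v)) φ.v := h4
    rw [IntermediateField.algebraicIndependent_adjoin_iff] at h5 ⊢
    have h6 : AlgebraicIndependent F (Sum.elim φ.v ψ.v) := h2.sumElim h5
    have h7 : AlgebraicIndependent F (Sum.elim ψ.v φ.v) := by
      have h8 := h6.comp Sum.swap (Sum.swap_leftInverse.injective)
      have e : Sum.elim φ.v ψ.v ∘ Sum.swap = Sum.elim ψ.v φ.v := by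
        ext i
        rcases i with i | i
        · rfl
        · rfl
      rwa [e] at h8
    exact (AlgebraicIndependent.sumElim_iff.mp h7).2

end H32.T4

end S_H32_T4_A20

section S_H32_T4_A21

set_option linter.unusedSimpArgs false

open UpperHalfPlane hiding I
open Complex EisensteinSeries ModularForm MatrixGroups Manifold
open scoped Real Topology
open MvPolynomial Filter

namespace H32.T4

theorem AL_general (n : ℕ) : ∀ (F : IntermediateField ℂ MG) (_ : Stab F) (φ : Fin n → Gm)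
    (_ : ∀ i, (φ i).z ∈ F) (_ : ∀ i, ∀ a : ℂ, (φ i).z ≠ algebraMap ℂ MG a)
    (_ : ∀ i j, i ≠ j → ¬ GRel (φ i) (φ j)) (_ : ∀ i, AlgebraicIndependent F (φ i).v),
    AlgebraicIndependent F (fun p : Fin n × Fin 3 ↦ (φ p.1).v p.2) := by
  induction n with
  | zero =>
    intro F _ φ _ _ _ _
    rw [algebraicIndependent_empty_type_iff]
    exact (algebraMap F MG).injective
  | succ n ih =>
    intro F hF φ hz hnc hrel hs
    have h1 := ih (adE F (φ 0)) (stab_adE hF (hz 0)) (fun i ↦ φ i.succ)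
      (fun i ↦ le_adE F _ (hz _)) (fun i ↦ hnc _)
      (fun i j hij ↦ hrel _ _ (fun h ↦ hij (Fin.succ_injective _ h)))
      (fun i ↦ pair_thm hF (hz 0) (hz i.succ) (hnc 0) (hnc i.succ) (hs 0) (hs i.succ)
        (hrel 0 i.succ (Fin.succ_ne_zero i).symm))
    have h2 : AlgebraicIndependent (IntermediateField.adjoin F (Set.range (φ 0).v))
        (fun p : Fin n × Fin 3 ↦ (φ p.1.succ).v p.2) := h1
    rw [IntermediateField.algebraicIndependent_adjoin_iff] at h2
    have h3 := (hs 0).sumElim h2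
    set e : Fin (n + 1) × Fin 3 → (Fin n × Fin 3) ⊕ Fin 3 := fun p ↦
      Fin.cases (motive := fun _ ↦ (Fin n × Fin 3) ⊕ Fin 3) (Sum.inr p.2)
        (fun i ↦ Sum.inl (i, p.2)) p.1 with he
    have hinj : Function.Injective e := by
      rintro ⟨i, l⟩ ⟨j, l'⟩ h
      revert h
      refine Fin.cases ?_ (fun i ↦ ?_) i
      · refine Fin.cases ?_ (fun j ↦ ?_) j
        · intro h
          have : l = l' := Sum.inr.inj h
          rw [this]
        · intro h
          exact absurd h (by simp [he])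
      · refine Fin.cases ?_ (fun j ↦ ?_) j
        · intro h
          exact absurd h (by simp [he])
        · intro h
          have h0 := Sum.inl.inj h
          have h5 : i = j := (Prod.mk.inj h0).1
          have h6 : l = l' := (Prod.mk.inj h0).2
          rw [h5, h6]
    have h4 := h3.comp e hinj
    have h5 : Sum.elim (fun p : Fin n × Fin 3 ↦ (φ p.1.succ).v p.2) (φ 0).v ∘ e =
        fun p : Fin (n + 1) × Fin 3 ↦ (φ p.1).v p.2 := by
      ext ⟨i, l⟩
      refine Fin.cases ?_ (fun i ↦ ?_) i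
      · rfl
      · rfl
    rwa [h5] at h4

/-- The germ of the identity. -/
noncomputable def XX : MG := mk (fun ζ ↦ ζ) analyticAt_id.meromorphicAt

lemma DD_XX : DD XX = 1 := by
  rw [XX, DD_mk, ← mk_one, mk_eq_mk]
  exact Eventually.of_forall fun z ↦ by simp

lemma XX_transc : AlgebraicIndependent ℂ (fun _ : Unit ↦ XX) := by
  rw [AlgebraicIndependent, injective_iff_map_eq_zero]
  intro P hP
  have h1 := (aeval_mk_zero (fun (_ : Unit) ζ ↦ ζ) (fun _ ↦ analyticAt_id.meromorphicAt) P).mp hP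
  have hana : AnalyticOnNhd ℂ (fun ζ ↦ aeval (fun _ : Unit ↦ ζ) P) Set.univ := fun ζ _ ↦
    AnalyticAt.aeval_mvPolynomial (fun _ ↦ (analyticAt_id : AnalyticAt ℂ (fun z : ℂ ↦ z) ζ)) _
  have h2 := hana.eqOn_zero_of_preconnected_of_frequently_eq_zero isPreconnected_univ
    (Set.mem_univ 0) h1.frequently
  apply MvPolynomial.funext
  intro x
  rw [map_zero]
  have h3 : aeval (fun _ : Unit ↦ x ()) P = 0 := h2 (Set.mem_univ (x ()))
  have e : (fun _ : Unit ↦ x ()) = x := by ext u; rfl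
  rw [e] at h3
  simpa [aeval_eq_eval] using h3

/-- The field of rational functions of the variable. -/
noncomputable def EX : IntermediateField ℂ MG := IntermediateField.adjoin ℂ {XX}

/-- The algebraic functions. -/
noncomputable def F0 : IntermediateField ℂ MG := (algebraicClosure EX MG).restrictScalars ℂ

lemma stab_EX : Stab EX := by
  intro x hx
  induction hx using IntermediateField.adjoin_induction with
  | mem x hx =>
    rw [Set.mem_singleton_iff.mp hx, DD_XX]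
    exact EX.one_mem
  | algebraMap c =>
    rw [DD_algebraMap]
    exact EX.zero_mem
  | add x y _ _ h1 h2 =>
    rw [map_add]
    exact add_mem h1 h2
  | inv x hx h1 =>
    rw [Derivation.leibniz_inv, smul_eq_mul]
    have hx' : x ∈ EX := hx
    exact mul_mem (neg_mem (pow_mem (inv_mem hx') 2)) h1
  | mul x y hx hy h1 h2 =>
    rw [Derivation.leibniz, smul_eq_mul, smul_eq_mul]
    have hx' : x ∈ EX := hx
    have hy' : y ∈ EX := hy
    exact add_mem (mul_mem hx' h2) (mul_mem hy' h1)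

/-- The algebraic closure of a stable field is stable. -/
lemma stab_algClosure {K : IntermediateField ℂ MG} (hK : Stab K) :
    Stab ((algebraicClosure K MG).restrictScalars ℂ) := by
  intro x hx
  have hx' : x ∈ algebraicClosure K MG := hx
  rw [mem_algebraicClosure_iff] at hx'
  change DD x ∈ algebraicClosure K MG
  set AC := algebraicClosure K MG with hAC
  have hxA : x ∈ AC := hx
  set p := minpoly K x with hp
  have hpx : Polynomial.aeval x p = 0 := minpoly.aeval K x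
  have hsep : Polynomial.aeval x (Polynomial.derivative p) ≠ 0 :=
    (minpoly.irreducible hx'.isIntegral).separable.aeval_derivative_ne_zero hpx
  have h1 : DD (Polynomial.aeval x p) = ∑ i ∈ Finset.range (p.natDegree + 1),
      DD ((p.coeff i : K) : MG) * x ^ i + Polynomial.aeval x (Polynomial.derivative p) * DD x := by
    rw [Polynomial.aeval_eq_sum_range, map_sum]
    have h2 : Polynomial.aeval x (Polynomial.derivative p) =
        ∑ i ∈ Finset.range (p.natDegree + 1), ((p.coeff i : K) : MG) * (i * x ^ (i - 1)) := by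
      rw [Polynomial.derivative_apply, Polynomial.sum_over_range _ (fun i ↦ by simp), map_sum]
      refine Finset.sum_congr rfl fun i _ ↦ ?_
      rw [map_mul, map_pow, Polynomial.aeval_C, Polynomial.aeval_X, map_mul, map_natCast]
      change ((p.coeff i : K) : MG) * _ * _ = _
      ring
    rw [h2, Finset.sum_mul, ← Finset.sum_add_distrib]
    refine Finset.sum_congr rfl fun i _ ↦ ?_
    rw [Algebra.smul_def, Derivation.leibniz, Derivation.leibniz_pow, smul_eq_mul, smul_eq_mul,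
      smul_eq_mul, nsmul_eq_mul]
    change ((p.coeff i : K) : MG) * _ + _ * DD ((p.coeff i : K) : MG) = _
    ring
  rw [hpx, map_zero] at h1
  have h3 : DD x = -(∑ i ∈ Finset.range (p.natDegree + 1), DD ((p.coeff i : K) : MG) * x ^ i) *
      (Polynomial.aeval x (Polynomial.derivative p))⁻¹ := by
    field_simp
    linear_combination -h1
  rw [h3]
  refine mul_mem (neg_mem (sum_mem fun i _ ↦ mul_mem ?_ (pow_mem hxA i))) (inv_mem ?_)
  · exact AC.algebraMap_mem ⟨DD ((p.coeff i : K) : MG), hK _ (p.coeff i).2⟩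
  · rw [Polynomial.aeval_eq_sum_range]
    refine sum_mem fun i _ ↦ ?_
    rw [Algebra.smul_def]
    exact mul_mem (AC.algebraMap_mem _) (pow_mem hxA i)

end H32.T4

end S_H32_T4_A21

section S_H32_T4_A22

set_option linter.unusedSimpArgs false

open UpperHalfPlane hiding I
open Complex EisensteinSeries ModularForm MatrixGroups Manifold
open scoped Real Topology
open MvPolynomial Filter

namespace H32.T4

lemma ev_ne_const (φ : Gm) (hnc : ∀ a : ℂ, φ.z ≠ algebraMap ℂ MG a) :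
    ∀ᶠ ζ in NE, φ.f ζ ≠ φ.f 0 := by
  have h1 : AnalyticAt ℂ (fun ζ ↦ φ.f ζ - φ.f 0) 0 := φ.an.fun_sub analyticAt_const
  rcases h1.eventually_eq_zero_or_eventually_ne_zero with h | h
  · exfalso
    apply hnc (φ.f 0)
    rw [algebraMap_MG, Gm.z, mk_eq_mk]
    filter_upwards [h.filter_mono nhdsWithin_le_nhds] with ζ hζ
    linear_combination hζ
  · filter_upwards [h] with ζ hζ h0
    exact hζ (by rw [h0, sub_self])

lemma zv_indep (φ : Gm) (hnc : ∀ a : ℂ, φ.z ≠ algebraMap ℂ MG a) :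
    AlgebraicIndependent ℂ (Sum.elim φ.v (fun _ : Unit ↦ φ.z)) := by
  rw [AlgebraicIndependent, injective_iff_map_eq_zero]
  intro P hP
  set f : Fin 3 ⊕ Unit → ℂ → ℂ := Sum.elim (fun l ζ ↦ ee (φ.f ζ) l) (fun _ ζ ↦ φ.f ζ) with hf
  have hfm : ∀ i, MeromorphicAt (f i) 0 := by
    rintro (l | _)
    · exact (φ.an_ee l).meromorphicAt
    · exact φ.an.meromorphicAt
  have hfk : (fun i ↦ mk (f i) (hfm i)) = Sum.elim φ.v (fun _ : Unit ↦ φ.z) := by
    ext i
    rcases i with l | _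
    · rfl
    · rfl
  rw [← hfk, aeval_mk_zero] at hP
  set g : ℂ → ℂ := fun w ↦ aeval (Sum.elim (ee w) (fun _ : Unit ↦ w)) P with hg
  have hgan : AnalyticAt ℂ g (φ.f 0) := by
    refine AnalyticAt.aeval_mvPolynomial (fun i ↦ ?_) _
    rcases i with l | _
    · exact analytic_ee φ.pos l
    · exact analyticAt_id
  have hPg : ∀ᶠ ζ in NE, g (φ.f ζ) = 0 := by
    filter_upwards [hP] with ζ hζ
    have e0 : (fun i ↦ f i ζ) = Sum.elim (ee (φ.f ζ)) (fun _ : Unit ↦ φ.f ζ) := by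
      ext i
      rcases i with l | _
      · rfl
      · rfl
    rw [e0] at hζ
    exact hζ
  have hg0 : ∀ᶠ w in 𝓝 (φ.f 0), g w = 0 := by
    rcases hgan.eventually_eq_zero_or_eventually_ne_zero with h | h
    · exact h
    · exfalso
      have ht : Tendsto φ.f NE (𝓝[≠] (φ.f 0)) := by
        rw [tendsto_nhdsWithin_iff]
        exact ⟨φ.an.continuousAt.tendsto.mono_left nhdsWithin_le_nhds, ev_ne_const φ hnc⟩
      obtain ⟨ζ, h1, h2⟩ := ((ht.eventually h).and hPg).exists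
      exact h1 h2
  set e : Fin 3 ⊕ Unit → Fin 4 := Sum.elim Fin.succ (fun _ ↦ 0) with he
  have hinj : Function.Injective e := by
    rintro (a | a) (b | b) h
    · exact congrArg Sum.inl (Fin.succ_injective _ h)
    · exact absurd h (Fin.succ_ne_zero a)
    · exact absurd h.symm (Fin.succ_ne_zero b)
    · rfl
  have h1 : rename e P = 0 := by
    apply indep_local φ.pos
    filter_upwards [hg0] with w hw
    have e0 : (![w, e2 w, e4 w, e6 w] : Fin 4 → ℂ) ∘ e = Sum.elim (ee w) (fun _ : Unit ↦ w) := by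
      ext i
      rcases i with l | _
      · fin_cases l
        · rfl
        · rfl
        · rfl
      · rfl
    rw [aeval_rename, e0]
    exact hw
  exact rename_injective e hinj (by rw [h1, map_zero])

lemma isAlg_mono {K K' : IntermediateField ℂ MG} (h : K ≤ K') {x : MG} (hx : IsAlgebraic K x) :
    IsAlgebraic K' x := by
  obtain ⟨p, hp, hpx⟩ := hx
  set f := IntermediateField.inclusion h with hf
  refine ⟨p.map f.toRingHom, ?_, ?_⟩
  · rw [Polynomial.map_ne_zero_iff f.injective]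
    exact hp
  · rw [← hpx, Polynomial.aeval_def, Polynomial.eval₂_map, Polynomial.aeval_def]
    rfl

lemma algInd_mono {K K' : IntermediateField ℂ MG} (h : K ≤ K') {ι : Type} {v : ι → MG}
    (hv : AlgebraicIndependent K' v) : AlgebraicIndependent K v := by
  let f := IntermediateField.inclusion h
  let _ : Algebra K K' := f.toRingHom.toAlgebra
  have : IsScalarTower K K' MG := IsScalarTower.of_algebraMap_eq fun _ ↦ rfl
  exact hv.restrictScalars (R := K) f.injective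

/-- Exchange. -/
lemma exchange {x y : MG} (hy : AlgebraicIndependent ℂ (fun _ : Unit ↦ y))
    (h : IsAlgebraic (IntermediateField.adjoin ℂ {x}) y) :
    IsAlgebraic (IntermediateField.adjoin ℂ {y}) x := by
  by_contra hcon
  have h1 : AlgebraicIndependent (IntermediateField.adjoin ℂ {y}) (fun _ : Unit ↦ x) :=
    algebraicIndependent_unique_type_iff.mpr hcon
  rw [IntermediateField.algebraicIndependent_adjoin_iff] at h1
  have e1 : ({y} : Set MG) = Set.range (fun _ : Unit ↦ y) := by simp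
  rw [e1] at h1
  have h2 := hy.sumElim h1
  have h3 := h2.comp Sum.swap (Sum.swap_leftInverse.injective)
  have e2 : Sum.elim (fun _ : Unit ↦ x) (fun _ : Unit ↦ y) ∘ Sum.swap =
      Sum.elim (fun _ : Unit ↦ y) (fun _ : Unit ↦ x) := by
    ext i
    rcases i with i | i
    · rfl
    · rfl
  rw [e2] at h3
  have h4 := (AlgebraicIndependent.sumElim_iff.mp h3).2
  have e3 : Set.range (fun _ : Unit ↦ x) = ({x} : Set MG) := by simp
  rw [e3, ← IntermediateField.algebraicIndependent_adjoin_iff] at h4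
  exact (algebraicIndependent_unique_type_iff.mp h4) h

lemma z_transc (φ : Gm) (hnc : ∀ a : ℂ, φ.z ≠ algebraMap ℂ MG a) :
    AlgebraicIndependent ℂ (fun _ : Unit ↦ φ.z) :=
  (AlgebraicIndependent.sumElim_iff.mp (zv_indep φ hnc)).1

theorem single_F0 (φ : Gm) (hnc : ∀ a : ℂ, φ.z ≠ algebraMap ℂ MG a) (halg : IsAlgebraic EX φ.z) :
    AlgebraicIndependent F0 φ.v := by
  set K1 : IntermediateField ℂ MG := IntermediateField.adjoin ℂ {φ.z} with hK1
  have hX : IsAlgebraic K1 XX := exchange (z_transc φ hnc) halg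
  have h1 : AlgebraicIndependent K1 φ.v := by
    have h2 := (AlgebraicIndependent.sumElim_iff.mp (zv_indep φ hnc)).2
    have e3 : Set.range (fun _ : Unit ↦ φ.z) = ({φ.z} : Set MG) := by simp
    rw [e3, ← IntermediateField.algebraicIndependent_adjoin_iff] at h2
    exact h2
  have h2 : AlgebraicIndependent ((algebraicClosure K1 MG).restrictScalars ℂ) φ.v :=
    h1.algebraicClosure
  refine algInd_mono ?_ h2
  intro x hx
  have hx' : x ∈ algebraicClosure EX MG := hx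
  rw [mem_algebraicClosure_iff] at hx'
  change x ∈ algebraicClosure K1 MG
  rw [mem_algebraicClosure_iff]
  have hle : EX ≤ (algebraicClosure K1 MG).restrictScalars ℂ := by
    rw [EX, IntermediateField.adjoin_le_iff, Set.singleton_subset_iff]
    change XX ∈ algebraicClosure K1 MG
    rw [mem_algebraicClosure_iff]
    exact hX
  have h3 := isAlg_mono hle hx'
  have h4 : IsAlgebraic (algebraicClosure K1 MG) x := h3
  exact h4.restrictScalars K1

/-- The theorem of Ax-Lindemann type, with derivatives. -/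
theorem AL {n : ℕ} (φ : Fin n → Gm) (halg : ∀ i, IsAlgebraic EX (φ i).z)
    (hnc : ∀ i, ∀ a : ℂ, (φ i).z ≠ algebraMap ℂ MG a)
    (hrel : ∀ i j, i ≠ j → ¬ GRel (φ i) (φ j)) (P : MvPolynomial (Unit ⊕ Fin n × Fin 3) ℂ)
    (h : ∀ᶠ ζ in 𝓝 (0 : ℂ), aeval (Sum.elim (fun _ ↦ ζ)
      (fun p ↦ ee ((φ p.1).f ζ) p.2)) P = 0) : P = 0 := by
  have hF0 : Stab F0 := stab_algClosure stab_EX
  have h1 := AL_general n F0 hF0 φ (fun i ↦ by
    change (φ i).z ∈ algebraicClosure EX MG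
    rw [mem_algebraicClosure_iff]
    exact halg i) hnc hrel (fun i ↦ single_F0 (φ i) (hnc i) (halg i))
  have hle : EX ≤ F0 := fun x hx ↦ (algebraicClosure EX MG).algebraMap_mem ⟨x, hx⟩
  have h2 : AlgebraicIndependent EX (fun p : Fin n × Fin 3 ↦ (φ p.1).v p.2) := algInd_mono hle h1
  rw [EX, IntermediateField.algebraicIndependent_adjoin_iff] at h2
  have e1 : ({XX} : Set MG) = Set.range (fun _ : Unit ↦ XX) := by simp
  rw [e1] at h2
  have h3 := XX_transc.sumElim h2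
  have h4 := h3.comp Sum.swap (Sum.swap_leftInverse.injective)
  set f : Unit ⊕ Fin n × Fin 3 → ℂ → ℂ :=
    Sum.elim (fun _ ζ ↦ ζ) (fun p ζ ↦ ee ((φ p.1).f ζ) p.2) with hf
  have hfm : ∀ i, MeromorphicAt (f i) 0 := by
    rintro (_ | p)
    · exact analyticAt_id.meromorphicAt
    · exact ((φ p.1).an_ee p.2).meromorphicAt
  have hfk : Sum.elim (fun p : Fin n × Fin 3 ↦ (φ p.1).v p.2) (fun _ : Unit ↦ XX) ∘ Sum.swap =
      fun i ↦ mk (f i) (hfm i) := by
    ext i
    rcases i with _ | p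
    · rfl
    · rfl
  rw [hfk, AlgebraicIndependent, injective_iff_map_eq_zero] at h4
  apply h4
  rw [aeval_mk_zero]
  filter_upwards [h.filter_mono nhdsWithin_le_nhds] with ζ hζ
  rw [← hζ]
  congr 2
  ext i
  rcases i with _ | p
  · rfl
  · rfl

end H32.T4

end S_H32_T4_A22

section S_H32_T4_B1

open UpperHalfPlane hiding I
open Complex EisensteinSeries ModularForm MatrixGroups Manifold
open scoped Real Topology
open MvPolynomial Filter

namespace H32.T4

/-- A line. -/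
def line {m : ℕ} (x v : Fin m → ℂ) (ζ : ℂ) : Fin m → ℂ := fun s ↦ x s + ζ * v s

lemma line_zero {m : ℕ} (x v : Fin m → ℂ) : line x v 0 = x := by
  ext s
  simp [line]

lemma line_an {m : ℕ} (x v : Fin m → ℂ) (ζ : ℂ) : AnalyticAt ℂ (line x v) ζ := by
  rw [analyticAt_pi_iff]
  intro s
  unfold line
  fun_prop

lemma an_line {m : ℕ} {x v : Fin m → ℂ} {f : (Fin m → ℂ) → ℂ} (hf : AnalyticAt ℂ f x) :
    AnalyticAt ℂ (fun ζ ↦ f (line x v ζ)) 0 := by
  refine AnalyticAt.fun_comp (g := f) (f := line x v) ?_ (line_an x v 0)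
  rw [line_zero]
  exact hf

/-- A nonzero polynomial specialises to a nonzero polynomial outside a hypersurface. -/
lemma exists_coeff {σ : Type} {m : ℕ} {P : MvPolynomial (σ ⊕ Fin m) ℂ} (hP : P ≠ 0) :
    ∃ p : MvPolynomial (Fin m) ℂ, p ≠ 0 ∧ ∀ x : Fin m → ℂ, eval x p ≠ 0 →
      aeval (Sum.elim X (fun s ↦ C (x s)) : σ ⊕ Fin m → MvPolynomial σ ℂ) P ≠ 0 := by
  set Q : MvPolynomial σ (MvPolynomial (Fin m) ℂ) := sumAlgEquiv ℂ σ (Fin m) P with hQ
  have hQ0 : Q ≠ 0 := by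
    rw [hQ]
    exact (map_ne_zero_iff _ (sumAlgEquiv ℂ σ (Fin m)).injective).mpr hP
  obtain ⟨μ, hμ⟩ := MvPolynomial.ne_zero_iff.mp hQ0
  refine ⟨coeff μ Q, hμ, fun x hx h0 ↦ hx ?_⟩
  have h1 : ∀ P : MvPolynomial (σ ⊕ Fin m) ℂ,
      aeval (Sum.elim X (fun s ↦ C (x s)) : σ ⊕ Fin m → MvPolynomial σ ℂ) P =
      MvPolynomial.map (eval x) (sumAlgEquiv ℂ σ (Fin m) P) := by
    intro P
    induction P using MvPolynomial.induction_on with
    | C c =>
      rw [aeval_C]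
      have : sumAlgEquiv ℂ σ (Fin m) (C c) = C (C c) := (sumAlgEquiv ℂ σ (Fin m)).commutes c
      rw [this, MvPolynomial.map_C, eval_C]
      rfl
    | add p q hp hq => rw [map_add, map_add, map_add, hp, hq]
    | mul_X p i hp =>
      rw [map_mul, map_mul, map_mul, hp, aeval_X]
      congr 1
      rcases i with i | i
      · rw [sumAlgEquiv_X_inl, MvPolynomial.map_X, Sum.elim_inl]
      · rw [sumAlgEquiv_X_inr, MvPolynomial.map_C, eval_X, Sum.elim_inr]
  rw [h1, ← hQ] at h0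
  have h2 := congrArg (coeff μ) h0
  rwa [coeff_map, coeff_zero] at h2

/-- The independence theorem for several variables. -/
theorem nonvan {m n : ℕ} (x : Fin m → ℂ) (φ : Fin n → (Fin m → ℂ) → ℂ)
    (han : ∀ i, AnalyticAt ℂ (φ i) x) (him : ∀ i, 0 < (φ i x).im)
    (halg : ∀ i v (h : AnalyticAt ℂ (fun ζ ↦ φ i (line x v ζ)) 0),
      IsAlgebraic EX (mk (fun ζ ↦ φ i (line x v ζ)) h.meromorphicAt))
    (hnc : ∀ i, ∃ p : MvPolynomial (Fin m) ℂ, p ≠ 0 ∧ ∀ v, eval (line x v 1) p ≠ 0 →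
      ¬ ∀ᶠ ζ in NE, φ i (line x v ζ) = φ i x)
    (hrel : ∀ i j, i ≠ j → ¬ ∃ a b c d : ℚ, 0 < a * d - b * c ∧
      φ j x = ((a : ℂ) * φ i x + b) / ((c : ℂ) * φ i x + d))
    (P : MvPolynomial ((Fin n × Fin 3) ⊕ Fin m) ℂ)
    (h : ∀ᶠ s in 𝓝 x, aeval (Sum.elim (fun p ↦ ee (φ p.1 s) p.2) s) P = 0) : P = 0 := by
  classical
  by_contra hP
  obtain ⟨p, hp0, hp⟩ := exists_coeff hP
  choose q hq0 hq using hnc
  have hprod : p * ∏ i, q i ≠ 0 := mul_ne_zero hp0 (Finset.prod_ne_zero_iff.mpr fun i _ ↦ hq0 i)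
  obtain ⟨y, hy⟩ : ∃ y, eval y (p * ∏ i, q i) ≠ 0 := by
    by_contra hcon
    push Not at hcon
    exact hprod (MvPolynomial.funext fun y ↦ by rw [hcon y, map_zero])
  rw [map_mul, map_prod] at hy
  set v : Fin m → ℂ := fun s ↦ y s - x s with hv
  have hl1 : line x v 1 = y := by
    ext s
    simp [line, hv]
  have hpy : eval y p ≠ 0 := left_ne_zero_of_mul hy
  have hqy : ∀ i, eval (line x v 1) (q i) ≠ 0 := fun i ↦ by
    rw [hl1]
    exact Finset.prod_ne_zero_iff.mp (right_ne_zero_of_mul hy) i (Finset.mem_univ i)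
  set γ : Fin n → Gm := fun i ↦ Gm.of (fun ζ ↦ φ i (line x v ζ)) (an_line (han i)) (by
    rw [line_zero]; exact him i) with hγ
  set Q : MvPolynomial (Unit ⊕ Fin n × Fin 3) ℂ :=
    aeval (Sum.elim (fun p ↦ X (Sum.inr p)) (fun s ↦ C (x s) + X (Sum.inl ()) * C (v s))) P with hQ
  have hQ0 : Q = 0 := by
    refine AL γ (fun i ↦ halg i v (an_line (han i))) (fun i a ha ↦ ?_) (fun i j hij hr ↦ ?_) Q ?_
    · have h1 : ∀ᶠ ζ in NE, φ i (line x v ζ) = a := by
        have h2 : mk (fun ζ ↦ φ i (line x v ζ)) (an_line (han i)).meromorphicAt =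
          mk (fun _ ↦ a) (MeromorphicAt.const _ _) := ha
        rw [mk_eq_mk] at h2
        exact h2
      have h3 : φ i x = a := by
        have hc : ContinuousAt (fun ζ ↦ φ i (line x v ζ)) 0 := (an_line (han i)).continuousAt
        have h4 : Tendsto (fun ζ ↦ φ i (line x v ζ)) NE (𝓝 (φ i (line x v 0))) :=
          hc.tendsto.mono_left nhdsWithin_le_nhds
        rw [line_zero] at h4
        have h5 : Tendsto (fun ζ ↦ φ i (line x v ζ)) NE (𝓝 a) := by
          refine tendsto_const_nhds.congr' ?_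
          filter_upwards [h1] with ζ hζ using hζ.symm
        exact tendsto_nhds_unique h4 h5
      refine hq i v (hqy i) ?_
      rw [h3]
      exact h1
    · obtain ⟨a, b, c, d, hdet, hr⟩ := hr
      have ci : Tendsto (γ i).f NE (𝓝 (φ i x)) := by
        have h4 : Tendsto (γ i).f (𝓝 0) (𝓝 (φ i (line x v 0))) := (γ i).an.continuousAt.tendsto
        rw [line_zero] at h4
        exact h4.mono_left nhdsWithin_le_nhds
      have cj : Tendsto (γ j).f NE (𝓝 (φ j x)) := by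
        have h4 : Tendsto (γ j).f (𝓝 0) (𝓝 (φ j (line x v 0))) := (γ j).an.continuousAt.tendsto
        rw [line_zero] at h4
        exact h4.mono_left nhdsWithin_le_nhds
      have h1 : Tendsto (fun ζ ↦ (γ j).f ζ * ((c : ℂ) * (γ i).f ζ + d)) NE
          (𝓝 (φ j x * ((c : ℂ) * φ i x + d))) := cj.mul ((ci.const_mul _).add_const _)
      have h2 : Tendsto (fun ζ ↦ (a : ℂ) * (γ i).f ζ + b) NE (𝓝 ((a : ℂ) * φ i x + b)) :=
        (ci.const_mul _).add_const _
      have h3 : φ j x * ((c : ℂ) * φ i x + d) = (a : ℂ) * φ i x + b :=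
        tendsto_nhds_unique (h1.congr' hr) h2
      have hcd : ((c : ℂ) * φ i x + d) ≠ 0 := by
        intro h0
        have e1 : ((c : ℝ) : ℂ) * φ i x + ((d : ℝ) : ℂ) = 0 := by
          push_cast
          exact h0
        have e2 : ((a : ℝ) : ℂ) * φ i x + ((b : ℝ) : ℂ) = 0 := by
          push_cast
          rw [← h3, h0, mul_zero]
        have him1 := congrArg Complex.im e1
        have him2 := congrArg Complex.im e2
        simp only [Complex.add_im, Complex.re_ofReal_mul, Complex.im_ofReal_mul, Complex.ofReal_im,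
          add_zero, Complex.zero_im] at him1 him2
        have hc0 : (c : ℝ) = 0 := (mul_eq_zero.mp him1).resolve_right (him i).ne'
        have ha0 : (a : ℝ) = 0 := (mul_eq_zero.mp him2).resolve_right (him i).ne'
        have hc0' : c = 0 := by exact_mod_cast hc0
        have ha0' : a = 0 := by exact_mod_cast ha0
        exact hdet (by rw [hc0', ha0']; ring)
      have h5 : φ j x = ((a : ℂ) * φ i x + b) / ((c : ℂ) * φ i x + d) := by
        rw [eq_div_iff hcd, h3]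
      refine hrel i j hij ⟨a, b, c, d, ?_, h5⟩
      have h6 : (φ j x).im = (a * d - b * c) * (φ i x).im /
          Complex.normSq ((c : ℂ) * φ i x + d) := by
        rw [h5, Complex.div_im]
        have hn : Complex.normSq ((c : ℂ) * φ i x + d) ≠ 0 := by
          rwa [Ne, Complex.normSq_eq_zero]
        have r1 : ((a : ℂ) * φ i x + b).im = a * (φ i x).im := by
          have : (a : ℂ) * φ i x + b = ((a : ℝ) : ℂ) * φ i x + ((b : ℝ) : ℂ) := by push_cast; rfl
          rw [this]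
          simp
        have r2 : ((a : ℂ) * φ i x + b).re = a * (φ i x).re + b := by
          have : (a : ℂ) * φ i x + b = ((a : ℝ) : ℂ) * φ i x + ((b : ℝ) : ℂ) := by push_cast; rfl
          rw [this]
          simp
        have r3 : ((c : ℂ) * φ i x + d).im = c * (φ i x).im := by
          have : (c : ℂ) * φ i x + d = ((c : ℝ) : ℂ) * φ i x + ((d : ℝ) : ℂ) := by push_cast; rfl
          rw [this]
          simp
        have r4 : ((c : ℂ) * φ i x + d).re = c * (φ i x).re + d := by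
          have : (c : ℂ) * φ i x + d = ((c : ℝ) : ℂ) * φ i x + ((d : ℝ) : ℂ) := by push_cast; rfl
          rw [this]
          simp
        rw [r1, r2, r3, r4]
        field_simp
        ring
      have h7 := him j
      rw [h6] at h7
      have hn : 0 < Complex.normSq ((c : ℂ) * φ i x + d) := Complex.normSq_pos.mpr hcd
      have h8 : 0 < (a * d - b * c : ℝ) * (φ i x).im := by
        by_contra hle
        exact absurd h7 (not_lt.mpr (div_nonpos_of_nonpos_of_nonneg (not_lt.mp hle) hn.le))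
      have h9 : 0 < (a * d - b * c : ℝ) := by
        by_contra hle
        exact absurd h8 (not_lt.mpr (mul_nonpos_of_nonpos_of_nonneg (not_lt.mp hle) (him i).le))
      exact_mod_cast h9
    · have hl : Tendsto (line x v) (𝓝 0) (𝓝 x) := by
        have h4 : Tendsto (line x v) (𝓝 0) (𝓝 (line x v 0)) := (line_an x v 0).continuousAt.tendsto
        rwa [line_zero] at h4
      filter_upwards [hl.eventually h] with ζ hζ
      rw [← hζ, hQ]
      have e1 := MvPolynomial.comp_aeval_apply (R := ℂ) (Sum.elim (fun p ↦ X (Sum.inr p))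
        (fun s ↦ C (x s) + X (Sum.inl ()) * C (v s)) :
          (Fin n × Fin 3) ⊕ Fin m → MvPolynomial (Unit ⊕ Fin n × Fin 3) ℂ)
        (aeval (Sum.elim (fun _ ↦ ζ) (fun p ↦ ee ((γ p.1).f ζ) p.2)) :
          MvPolynomial (Unit ⊕ Fin n × Fin 3) ℂ →ₐ[ℂ] ℂ) P
      rw [e1]
      congr 2
      ext s
      rcases s with s | s
      · simp only [Sum.elim_inl, aeval_X, Sum.elim_inr]
        rfl
      · simp only [Sum.elim_inr, map_add, map_mul, aeval_X, Sum.elim_inl, aeval_C]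
        rfl
  refine hp y hpy ?_
  have e1 := MvPolynomial.comp_aeval_apply (R := ℂ) (Sum.elim (fun p ↦ X (Sum.inr p))
    (fun s ↦ C (x s) + X (Sum.inl ()) * C (v s)) :
      (Fin n × Fin 3) ⊕ Fin m → MvPolynomial (Unit ⊕ Fin n × Fin 3) ℂ)
    (aeval (Sum.elim (fun _ ↦ 1) X) :
      MvPolynomial (Unit ⊕ Fin n × Fin 3) ℂ →ₐ[ℂ] MvPolynomial (Fin n × Fin 3) ℂ) P
  rw [← hQ, hQ0, map_zero] at e1
  rw [e1]
  congr 2
  ext s : 1
  rcases s with s | s
  · simp only [Sum.elim_inl, aeval_X, Sum.elim_inr]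
  · simp only [Sum.elim_inr, map_add, map_mul, aeval_X, Sum.elim_inl, aeval_C, one_mul]
    rw [← hl1]
    simp only [line, one_mul, map_add]
    rfl

end H32.T4

end S_H32_T4_B1
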