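import Mathlib
import Pool.Agent.H32.AKM.P21
import Pool.Agent.H32.AKM.P22
import Pool.Agent.H32.AKM.P26

/-! Modular Schanuel with derivatives for points algebraic over a field with good approximations, part 27: this file joins several modules to save build time. -/

section S_H32_MultiVar

namespace H32

open Filter Asymptotics Metric
open scoped Topology

variable {m : ℕ}

/-- The derivative in the first variable. -/
noncomputable def DF (F : (Fin (m + 1) → ℂ) → ℂ) (s : Fin (m + 1) → ℂ) : ℂ :=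
  fderiv ℂ F s (Pi.single 0 1)

lemma DF_analytic {F : (Fin (m + 1) → ℂ) → ℂ} {U : Set (Fin (m + 1) → ℂ)}
    (hF : AnalyticOnNhd ℂ F U) : AnalyticOnNhd ℂ (DF F) U := by
  have h1 := hF.fderiv
  exact (ContinuousLinearMap.apply ℂ ℂ (Pi.single 0 1 : Fin (m + 1) → ℂ)).comp_analyticOnNhd h1

lemma DF_iter_analytic {F : (Fin (m + 1) → ℂ) → ℂ} {U : Set (Fin (m + 1) → ℂ)}
    (hF : AnalyticOnNhd ℂ F U) (k : ℕ) : AnalyticOnNhd ℂ (DF^[k] F) U := by
  induction k with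
  | zero => exact hF
  | succ k ih =>
    rw [Function.iterate_succ_apply']
    exact DF_analytic ih

lemma cons_mem_ball {t : Fin (m + 1) → ℂ} {ρ : ℝ} (hρ : 0 < ρ) {ζ : ℂ} {s' : Fin m → ℂ} :
    (Fin.cons ζ s' : Fin (m + 1) → ℂ) ∈ ball t ρ ↔ ζ ∈ ball (t 0) ρ ∧ s' ∈ ball (Fin.tail t) ρ := by
  rw [mem_ball, mem_ball, mem_ball, dist_pi_lt_iff hρ, dist_pi_lt_iff hρ, Fin.forall_fin_succ]
  rfl

lemma hasDerivAt_cons {G : (Fin (m + 1) → ℂ) → ℂ} {ζ : ℂ} {s' : Fin m → ℂ}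
    (hG : DifferentiableAt ℂ G (Fin.cons ζ s')) :
    HasDerivAt (fun z : ℂ ↦ G (Fin.cons z s')) (DF G (Fin.cons ζ s')) ζ := by
  have h1 : HasDerivAt (fun z : ℂ ↦ (Fin.cons z s' : Fin (m + 1) → ℂ)) (Pi.single 0 1) ζ := by
    rw [hasDerivAt_pi]
    intro i
    refine Fin.cases ?_ (fun j ↦ ?_) i
    · simp only [Fin.cons_zero, Pi.single_eq_same]
      exact hasDerivAt_id' ζ
    · have h0 : (Pi.single 0 1 : Fin (m + 1) → ℂ) j.succ = 0 := by simp
      simp only [Fin.cons_succ, h0]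
      exact hasDerivAt_const ζ (s' j)
  exact hG.hasFDerivAt.comp_hasDerivAt ζ h1

lemma iteratedDeriv_eq {F : (Fin (m + 1) → ℂ) → ℂ} {t : Fin (m + 1) → ℂ} {ρ : ℝ} (hρ : 0 < ρ)
    (hF : AnalyticOnNhd ℂ F (ball t ρ)) {s' : Fin m → ℂ} (hs' : s' ∈ ball (Fin.tail t) ρ) (k : ℕ) :
    ∀ ζ ∈ ball (t 0) ρ, iteratedDeriv k (fun z : ℂ ↦ F (Fin.cons z s')) ζ =
      (DF^[k] F) (Fin.cons ζ s') := by
  induction k with
  | zero => intro ζ _; simp
  | succ k ih =>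
    intro ζ hζ
    rw [iteratedDeriv_succ, Function.iterate_succ_apply']
    have h1 : iteratedDeriv k (fun z : ℂ ↦ F (Fin.cons z s')) =ᶠ[𝓝 ζ]
        fun z ↦ (DF^[k] F) (Fin.cons z s') := by
      filter_upwards [isOpen_ball.mem_nhds hζ] with z hz using ih z hz
    rw [h1.deriv_eq]
    refine (hasDerivAt_cons ?_).deriv
    exact (DF_iter_analytic hF k _ ((cons_mem_ball hρ).mpr ⟨hζ, hs'⟩)).differentiableAt

/-- The Taylor coefficients in the first variable. -/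
noncomputable def tc (F : (Fin (m + 1) → ℂ) → ℂ) (t₀ : ℂ) (k : ℕ) (s' : Fin m → ℂ) : ℂ :=
  (k.factorial : ℂ)⁻¹ * (DF^[k] F) (Fin.cons t₀ s')

lemma analytic_cons (t₀ : ℂ) (s' : Fin m → ℂ) :
    AnalyticAt ℂ (fun s' : Fin m → ℂ ↦ (Fin.cons t₀ s' : Fin (m + 1) → ℂ)) s' := by
  rw [analyticAt_pi_iff]
  intro i
  refine Fin.cases ?_ (fun j ↦ ?_) i
  · simp only [Fin.cons_zero]
    exact analyticAt_const
  · simp only [Fin.cons_succ]
    exact (ContinuousLinearMap.proj (R := ℂ) (φ := fun _ : Fin m ↦ ℂ) j).analyticAt s'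

lemma tc_analytic {F : (Fin (m + 1) → ℂ) → ℂ} {t : Fin (m + 1) → ℂ} {ρ : ℝ} (hρ : 0 < ρ)
    (hF : AnalyticOnNhd ℂ F (ball t ρ)) (k : ℕ) :
    AnalyticOnNhd ℂ (tc F (t 0) k) (ball (Fin.tail t) ρ) := by
  intro s' hs'
  have h1 : AnalyticAt ℂ (DF^[k] F) (Fin.cons (t 0) s') :=
    DF_iter_analytic hF k _ ((cons_mem_ball hρ).mpr ⟨mem_ball_self hρ, hs'⟩)
  exact analyticAt_const.mul (AnalyticAt.fun_comp (g := DF^[k] F) (f := fun s' : Fin m → ℂ ↦
    (Fin.cons (t 0) s' : Fin (m + 1) → ℂ)) h1 (analytic_cons _ _))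

lemma hasSum_tc {F : (Fin (m + 1) → ℂ) → ℂ} {t : Fin (m + 1) → ℂ} {ρ : ℝ} (hρ : 0 < ρ)
    (hF : AnalyticOnNhd ℂ F (ball t ρ)) {s' : Fin m → ℂ} (hs' : s' ∈ ball (Fin.tail t) ρ)
    {ζ : ℂ} (hζ : ζ ∈ ball (t 0) ρ) :
    HasSum (fun k ↦ tc F (t 0) k s' * (ζ - t 0) ^ k) (F (Fin.cons ζ s')) := by
  have hd : DifferentiableOn ℂ (fun z : ℂ ↦ F (Fin.cons z s')) (ball (t 0) ρ) := fun z hz ↦
    (hasDerivAt_cons (hF _ ((cons_mem_ball hρ).mpr ⟨hz, hs'⟩)).differentiableAt).differentiableAt.differentiableWithinAt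
  have h1 := Complex.hasSum_taylorSeries_on_ball hd hζ
  refine h1.congr_fun fun k ↦ ?_
  rw [iteratedDeriv_eq hρ hF hs' k (t 0) (mem_ball_self hρ), tc]
  simp only [smul_eq_mul]
  ring

lemma tc_bound {F : (Fin (m + 1) → ℂ) → ℂ} {t : Fin (m + 1) → ℂ} {ρ R B : ℝ} (hR : 0 < R)
    (hRρ : R < ρ) (hF : AnalyticOnNhd ℂ F (ball t ρ)) (hB : ∀ s ∈ closedBall t R, ‖F s‖ ≤ B)
    {s' : Fin m → ℂ} (hs' : s' ∈ closedBall (Fin.tail t) R) (k : ℕ) :
    ‖tc F (t 0) k s'‖ ≤ B / R ^ k := by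
  have hρ : 0 < ρ := hR.trans hRρ
  have hs'' : s' ∈ ball (Fin.tail t) ρ := closedBall_subset_ball hRρ hs'
  have hd : DiffContOnCl ℂ (fun z : ℂ ↦ F (Fin.cons z s')) (ball (t 0) R) := by
    have h1 : DifferentiableOn ℂ (fun z : ℂ ↦ F (Fin.cons z s')) (ball (t 0) ρ) := fun z hz ↦
      (hasDerivAt_cons (hF _ ((cons_mem_ball hρ).mpr
        ⟨hz, hs''⟩)).differentiableAt).differentiableAt.differentiableWithinAt
    exact (h1.mono (closedBall_subset_ball hRρ)).diffContOnCl_ball le_rfl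
  have h2 := Complex.norm_iteratedDeriv_le_of_forall_mem_sphere_norm_le k hR hd (C := B)
    (fun z hz ↦ hB _ (by
      rw [mem_closedBall, dist_pi_le_iff hR.le, Fin.forall_fin_succ]
      refine ⟨?_, fun j ↦ ?_⟩
      · rw [Fin.cons_zero]; exact (mem_sphere.mp hz).le
      · rw [Fin.cons_succ]
        exact (dist_le_pi_dist s' (Fin.tail t) j).trans (mem_closedBall.mp hs')))
  rw [iteratedDeriv_eq hρ hF hs'' k (t 0) (mem_ball_self hρ)] at h2
  rw [tc, norm_mul, norm_inv, Complex.norm_natCast]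
  have hk : (0 : ℝ) < k.factorial := by exact_mod_cast k.factorial_pos
  rw [inv_mul_le_iff₀ hk]
  calc _ ≤ k.factorial * B / R ^ k := h2
    _ = _ := by ring

lemma exists_leading {F : (Fin (m + 1) → ℂ) → ℂ} {t : Fin (m + 1) → ℂ} (hF : AnalyticAt ℂ F t)
    (hne : ¬ ∀ᶠ s in 𝓝 t, F s = 0) : ∃ (k₀ : ℕ) (G : (Fin m → ℂ) → ℂ),
      AnalyticAt ℂ G (Fin.tail t) ∧ (¬ ∀ᶠ s in 𝓝 (Fin.tail t), G s = 0) ∧
      ∃ C : ℝ, 0 < C ∧ ∀ᶠ s in 𝓝 t, ‖F s - G (Fin.tail s) * (s 0 - t 0) ^ k₀‖ ≤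
        C * ‖s 0 - t 0‖ ^ (k₀ + 1) := by
  obtain ⟨ρ, hρ, hball⟩ := Metric.eventually_nhds_iff_ball.mp hF.eventually_analyticAt
  have hana : AnalyticOnNhd ℂ F (ball t ρ) := fun s hs ↦ hball s hs
  have hpre : IsPreconnected (ball (Fin.tail t) ρ) := (convex_ball _ _).isPreconnected
  have hmem : Fin.tail t ∈ ball (Fin.tail t) ρ := mem_ball_self hρ
  have hex : ∃ k, ¬ ∀ᶠ s' in 𝓝 (Fin.tail t), tc F (t 0) k s' = 0 := by
    by_contra hcon
    push Not at hcon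
    apply hne
    filter_upwards [isOpen_ball.mem_nhds (mem_ball_self hρ)] with s hs
    have hs2 : (Fin.cons (s 0) (Fin.tail s) : Fin (m + 1) → ℂ) ∈ ball t ρ := by
      rwa [Fin.cons_self_tail]
    obtain ⟨h1, h2⟩ := (cons_mem_ball hρ).mp hs2
    have h3 := hasSum_tc hρ hana h2 h1
    have h4 : (fun k ↦ tc F (t 0) k (Fin.tail s) * (s 0 - t 0) ^ k) = fun _ ↦ 0 := by
      ext k
      have := (tc_analytic hρ hana k).eqOn_zero_of_preconnected_of_eventuallyEq_zero hpre hmem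
        (hcon k) h2
      rw [this]
      simp
    rw [h4, Fin.cons_self_tail] at h3
    exact h3.unique hasSum_zero
  classical
  set k₀ := Nat.find hex with hk₀
  have hk0 := Nat.find_spec hex
  have hlt : ∀ k < k₀, ∀ s' ∈ ball (Fin.tail t) ρ, tc F (t 0) k s' = 0 := fun k hk s' hs' ↦ by
    have h1 : ∀ᶠ s' in 𝓝 (Fin.tail t), tc F (t 0) k s' = 0 := by
      by_contra h
      exact Nat.find_min hex hk h
    exact (tc_analytic hρ hana k).eqOn_zero_of_preconnected_of_eventuallyEq_zero hpre hmem h1 hs'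
  obtain ⟨R, hR0, hRρ⟩ : ∃ R : ℝ, 0 < R ∧ R < ρ := ⟨ρ / 2, by positivity, by linarith⟩
  have hcomp : IsCompact (closedBall t R) := isCompact_closedBall t R
  have hcont : ContinuousOn F (closedBall t R) :=
    (hana.mono (closedBall_subset_ball hRρ)).continuousOn
  obtain ⟨B, hB⟩ := hcomp.exists_bound_of_continuousOn hcont
  have hB0 : 0 ≤ B := (norm_nonneg _).trans (hB t (mem_closedBall_self hR0.le))
  refine ⟨k₀, tc F (t 0) k₀, tc_analytic hρ hana k₀ _ hmem, hk0, 2 * B / R ^ (k₀ + 1) + 1,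
    by positivity, ?_⟩
  filter_upwards [isOpen_ball.mem_nhds (mem_ball_self (half_pos hR0) : t ∈ ball t (R / 2))]
    with s hs
  have hs' : (Fin.cons (s 0) (Fin.tail s) : Fin (m + 1) → ℂ) ∈ ball t (R / 2) := by
    rwa [Fin.cons_self_tail]
  obtain ⟨h1, h2⟩ := (cons_mem_ball (half_pos hR0)).mp hs'
  have h1' : s 0 ∈ ball (t 0) ρ := ball_subset_ball (by linarith) h1
  have h2' : Fin.tail s ∈ ball (Fin.tail t) ρ := ball_subset_ball (by linarith) h2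
  have h2c : Fin.tail s ∈ closedBall (Fin.tail t) R :=
    ball_subset_closedBall (ball_subset_ball (by linarith) h2)
  have h3 := hasSum_tc hρ hana h2' h1'
  rw [Fin.cons_self_tail] at h3
  have h4 := (hasSum_nat_add_iff' (k₀ + 1)).mpr h3
  have h5 : ∑ i ∈ Finset.range (k₀ + 1), tc F (t 0) i (Fin.tail s) * (s 0 - t 0) ^ i =
      tc F (t 0) k₀ (Fin.tail s) * (s 0 - t 0) ^ k₀ := by
    rw [Finset.sum_range_succ, Finset.sum_eq_zero, zero_add]
    intro k hk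
    rw [hlt k (Finset.mem_range.mp hk) _ h2', zero_mul]
  rw [h5] at h4
  set x : ℝ := ‖s 0 - t 0‖ / R with hx
  have hx0 : 0 ≤ x := by positivity
  have hx1 : x ≤ 1 / 2 := by
    rw [hx, div_le_iff₀ hR0]
    have := (mem_ball_iff_norm.mp h1).le
    linarith
  have hg : HasSum (fun k ↦ B * x ^ (k₀ + 1) * x ^ k) (B * x ^ (k₀ + 1) * (1 - x)⁻¹) :=
    (hasSum_geometric_of_lt_one hx0 (by linarith)).mul_left _
  have h6 := tsum_of_norm_bounded hg (f := fun k ↦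
    tc F (t 0) (k + (k₀ + 1)) (Fin.tail s) * (s 0 - t 0) ^ (k + (k₀ + 1))) (fun k ↦ by
      rw [norm_mul, norm_pow]
      have h7 := tc_bound hR0 hRρ hana hB h2c (k + (k₀ + 1))
      calc ‖tc F (t 0) (k + (k₀ + 1)) (Fin.tail s)‖ * ‖s 0 - t 0‖ ^ (k + (k₀ + 1)) ≤
          B / R ^ (k + (k₀ + 1)) * ‖s 0 - t 0‖ ^ (k + (k₀ + 1)) := by gcongr
        _ = B * x ^ (k₀ + 1) * x ^ k := by
            rw [mul_assoc, ← pow_add, add_comm (k₀ + 1) k, hx, div_pow]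
            ring)
  rw [h4.tsum_eq] at h6
  refine h6.trans ?_
  have h8 : (1 - x)⁻¹ ≤ 2 := by
    rw [inv_le_comm₀ (by linarith) (by norm_num)]
    linarith
  calc B * x ^ (k₀ + 1) * (1 - x)⁻¹ ≤ B * x ^ (k₀ + 1) * 2 := by gcongr
    _ = 2 * B / R ^ (k₀ + 1) * ‖s 0 - t 0‖ ^ (k₀ + 1) := by rw [hx, div_pow]; ring
    _ ≤ _ := by
      have : 0 ≤ ‖s 0 - t 0‖ ^ (k₀ + 1) := by positivity
      nlinarith

theorem nonvanish_multi {ι : Type*} {l : Filter ι} (m : ℕ) :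
    ∀ (F : (Fin m → ℂ) → ℂ) (t : Fin m → ℂ) (r : ι → Fin m → ℂ) (_ : AnalyticAt ℂ F t)
      (_ : ¬ ∀ᶠ s in 𝓝 t, F s = 0) (_ : Tendsto r l (𝓝 t))
      (_ : ∀ C : ℕ, ∀ᶠ i in l, ∀ j k, j < k → ‖r i j - t j‖ ≤ ‖r i k - t k‖ ^ C),
      ∃ c : ℝ, 0 < c ∧ ∃ M : ℕ, ∀ᶠ i in l, c * (∏ j, ‖r i j - t j‖) ^ M ≤ ‖F (r i)‖ := by
  induction m with
  | zero =>
    intro F t r _ hne _ _
    have h1 : F t ≠ 0 := fun h ↦ hne (Eventually.of_forall fun s ↦ by
      rw [Subsingleton.elim s t]; exact h)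
    refine ⟨‖F t‖, norm_pos_iff.mpr h1, 0, Eventually.of_forall fun i ↦ ?_⟩
    rw [Subsingleton.elim (r i) t]
    simp
  | succ n ih =>
    intro F t r hF hne hr hh
    obtain ⟨k₀, G, hG, hGne, C, hC, hexp⟩ := exists_leading hF hne
    have htail : Tendsto (fun i ↦ Fin.tail (r i)) l (𝓝 (Fin.tail t)) :=
      tendsto_pi_nhds.mpr fun j ↦ (tendsto_pi_nhds.mp hr) j.succ
    obtain ⟨c, hc, M, hM⟩ := ih G (Fin.tail t) (fun i ↦ Fin.tail (r i)) hG hGne htail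
      (fun C ↦ (hh C).mono fun i hi j k hjk ↦ hi j.succ k.succ (Fin.succ_lt_succ_iff.mpr hjk))
    set ρ : Fin (n + 1) → ι → ℝ := fun j i ↦ ‖r i j - t j‖ with hρ
    have hρ0 : ∀ j, Tendsto (ρ j) l (𝓝 0) := fun j ↦ by
      have := (((tendsto_pi_nhds.mp hr) j).sub_const (t j)).norm
      simpa using this
    have hρnn : ∀ j i, 0 ≤ ρ j i := fun j i ↦ norm_nonneg _
    have hsum : Tendsto (fun i ↦ ∑ j, ρ j i) l (𝓝 0) := by
      have := tendsto_finsetSum Finset.univ fun j (_ : j ∈ (Finset.univ : Finset (Fin (n + 1)))) ↦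
        hρ0 j
      simpa using this
    have hsmall : ∀ᶠ i in l, C * ∑ j, ρ j i ≤ c / 2 := by
      have h1 : Tendsto (fun i ↦ C * ∑ j, ρ j i) l (𝓝 (C * 0)) := hsum.const_mul C
      rw [mul_zero] at h1
      exact (h1.eventually_lt_const (by positivity)).mono fun i hi ↦ hi.le
    have hle1 : ∀ᶠ i in l, ∀ j, ρ j i ≤ 1 := by
      rw [Filter.eventually_all]
      exact fun j ↦ ((hρ0 j).eventually_lt_const one_pos).mono fun i hi ↦ hi.le
    refine ⟨c / 2, by positivity, max k₀ M, ?_⟩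
    filter_upwards [hM, hr.eventually hexp, hsmall, hle1, hh (n * M + 1)] with i h1 h2 h3 h4 h5
    set Δ : ℝ := ∏ j : Fin n, ρ j.succ i with hΔ
    have hΔ0 : 0 ≤ Δ := Finset.prod_nonneg fun j _ ↦ hρnn _ _
    have hΔ1 : Δ ≤ 1 := Finset.prod_le_one (fun j _ ↦ hρnn _ _) fun j _ ↦ h4 _
    have h1' : c * Δ ^ M ≤ ‖G (Fin.tail (r i))‖ := h1
    have h6 : ρ 0 i ≤ Δ ^ M * ∑ j, ρ j i := by
      rcases Nat.eq_zero_or_pos n with hn | hn
      · subst hn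
        have : Δ = 1 := by simp [hΔ]
        rw [this, one_pow, one_mul]
        exact Finset.single_le_sum (f := fun j ↦ ρ j i) (fun j _ ↦ hρnn j i) (Finset.mem_univ 0)
      · have : Nonempty (Fin n) := ⟨⟨0, hn⟩⟩
        obtain ⟨j₀, -, hj₀⟩ := Finset.exists_min_image (Finset.univ : Finset (Fin n))
          (fun j ↦ ρ j.succ i) Finset.univ_nonempty
        have h7 : ρ j₀.succ i ^ n ≤ Δ := by
          calc ρ j₀.succ i ^ n = ∏ _j : Fin n, ρ j₀.succ i := by simp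
            _ ≤ Δ := Finset.prod_le_prod (fun _ _ ↦ hρnn _ _) fun j hj ↦ hj₀ j hj
        have h8 : ρ 0 i ≤ ρ j₀.succ i ^ (n * M + 1) := h5 0 j₀.succ (Fin.succ_pos j₀)
        calc ρ 0 i ≤ ρ j₀.succ i ^ (n * M + 1) := h8
          _ = (ρ j₀.succ i ^ n) ^ M * ρ j₀.succ i := by rw [pow_succ, pow_mul]
          _ ≤ Δ ^ M * ∑ j, ρ j i := by
              have h9 : ρ j₀.succ i ≤ ∑ j, ρ j i :=
                Finset.single_le_sum (f := fun j ↦ ρ j i) (fun j _ ↦ hρnn j i)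
                  (Finset.mem_univ j₀.succ)
              have h10 : 0 ≤ ρ j₀.succ i := hρnn _ _
              gcongr
    have h7 : C * ρ 0 i ≤ c / 2 * Δ ^ M := by
      calc C * ρ 0 i ≤ C * (Δ ^ M * ∑ j, ρ j i) := by gcongr
        _ = (C * ∑ j, ρ j i) * Δ ^ M := by ring
        _ ≤ c / 2 * Δ ^ M := by gcongr
    have h8 : ‖F (r i) - G (Fin.tail (r i)) * (r i 0 - t 0) ^ k₀‖ ≤
        ρ 0 i ^ k₀ * (c / 2 * Δ ^ M) := by
      calc _ ≤ C * ‖r i 0 - t 0‖ ^ (k₀ + 1) := h2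
        _ = ρ 0 i ^ k₀ * (C * ρ 0 i) := by rw [pow_succ]; ring
        _ ≤ _ := by have := hρnn 0 i; gcongr
    have h9 : ρ 0 i ^ k₀ * (c * Δ ^ M) ≤ ‖G (Fin.tail (r i)) * (r i 0 - t 0) ^ k₀‖ := by
      rw [norm_mul, norm_pow, mul_comm]
      have := hρnn 0 i
      gcongr
    have h10 : ρ 0 i ^ k₀ * (c / 2 * Δ ^ M) ≤ ‖F (r i)‖ := by
      have h11 := norm_sub_norm_le (G (Fin.tail (r i)) * (r i 0 - t 0) ^ k₀)
        (G (Fin.tail (r i)) * (r i 0 - t 0) ^ k₀ - F (r i))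
      rw [sub_sub_cancel, norm_sub_rev] at h11
      have h12 : ρ 0 i ^ k₀ * (c * Δ ^ M) = ρ 0 i ^ k₀ * (c / 2 * Δ ^ M) +
          ρ 0 i ^ k₀ * (c / 2 * Δ ^ M) := by ring
      linarith
    refine le_trans ?_ h10
    have hprod : ∏ j, ‖r i j - t j‖ = ρ 0 i * Δ := by
      rw [Fin.prod_univ_succ]
    rw [hprod, mul_pow]
    have h13 : ρ 0 i ^ max k₀ M ≤ ρ 0 i ^ k₀ :=
      pow_le_pow_of_le_one (hρnn 0 i) (h4 0) (le_max_left _ _)
    have h14 : Δ ^ max k₀ M ≤ Δ ^ M := pow_le_pow_of_le_one hΔ0 hΔ1 (le_max_right _ _)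
    calc c / 2 * (ρ 0 i ^ max k₀ M * Δ ^ max k₀ M) ≤ c / 2 * (ρ 0 i ^ k₀ * Δ ^ M) := by
          have := hρnn 0 i
          gcongr
      _ = _ := by ring

end H32

end S_H32_MultiVar

section S_H32_AO_Ob

set_option linter.unusedSimpArgs false

open UpperHalfPlane hiding I
open Complex EisensteinSeries ModularForm MatrixGroups Manifold
open scoped Real Topology
open MvPolynomial Filter

namespace AO

open H32 H32.T3 H32.T4

lemma aeval_mkU' {σ : Type} (v : σ → ℕ → ℂ) (P : MvPolynomial σ ℂ) :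
    MvPolynomial.aeval (fun i ↦ mkU (v i)) P =
      mkU (fun n ↦ MvPolynomial.aeval (fun i ↦ v i n) P) := by
  induction P using MvPolynomial.induction_on with
  | C c =>
    simp only [MvPolynomial.aeval_C]
    rfl
  | add p q hp hq =>
    simp only [map_add, hp, hq]
    rw [← map_add]
    rfl
  | mul_X p i hp =>
    simp only [map_mul, MvPolynomial.aeval_X, hp]
    rw [← map_mul]
    rfl

lemma aeval_mkUZ' {σ : Type} (v : σ → ℕ → ℂ) (P : MvPolynomial σ ℤ) :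
    MvPolynomial.aeval (fun i ↦ mkU (v i)) P =
      mkU (fun n ↦ MvPolynomial.aeval (fun i ↦ v i n) P) := by
  induction P using MvPolynomial.induction_on with
  | C c =>
    simp only [MvPolynomial.aeval_C]
    rw [algebraMap_int_eq, algebraMap_int_eq, eq_intCast, eq_intCast, ← map_intCast mkU]
    rfl
  | add p q hp hq =>
    simp only [map_add, hp, hq]
    rw [← map_add]
    rfl
  | mul_X p i hp =>
    simp only [map_mul, MvPolynomial.aeval_X, hp]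
    rw [← map_mul]
    rfl

/-- integral polynomials at real points -/
lemma aeval_ofReal {m : ℕ} (t : Fin m → ℝ) (p : MvPolynomial (Fin m) ℤ) :
    aeval (fun s ↦ (t s : ℂ)) p = ((aeval t p : ℝ) : ℂ) := by
  have h := MvPolynomial.comp_aeval_apply (R := ℤ) t (Complex.ofRealHom.toIntAlgHom) p
  exact h.symm

lemma an_aeval {m : ℕ} (p : MvPolynomial (Fin m) ℤ) (s : Fin m → ℂ) :
    AnalyticAt ℂ (fun s : Fin m → ℂ ↦ aeval s p) s :=
  AnalyticAt.aeval_mvPolynomial (𝕜 := ℂ) (f := fun s : Fin m → ℂ ↦ s)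
    (fun i ↦ (ContinuousLinearMap.proj (R := ℂ) (φ := fun _ : Fin m ↦ ℂ) i).analyticAt s) p

lemma mem_EX {m : ℕ} (p : MvPolynomial (Fin m) ℤ) (x v : Fin m → ℂ)
    (h : MeromorphicAt (fun ζ ↦ aeval (line x v ζ) p) 0) :
    mk (fun ζ ↦ aeval (line x v ζ) p) h ∈ EX := by
  induction p using MvPolynomial.induction_on with
  | C c =>
    have e : mk (fun ζ ↦ aeval (line x v ζ) (C c : MvPolynomial (Fin m) ℤ)) h =
        algebraMap ℂ MG (c : ℂ) := by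
      rw [algebraMap_MG, mk_eq_mk]
      refine Eventually.of_forall fun ζ ↦ ?_
      simp
    rw [e]
    exact EX.algebraMap_mem _
  | add p q hp hq =>
    have hp' : MeromorphicAt (fun ζ ↦ aeval (line x v ζ) p) 0 := (an_line (an_aeval p x)).meromorphicAt
    have hq' : MeromorphicAt (fun ζ ↦ aeval (line x v ζ) q) 0 := (an_line (an_aeval q x)).meromorphicAt
    have e : mk (fun ζ ↦ aeval (line x v ζ) (p + q)) h = mk _ hp' + mk _ hq' := by
      rw [mk_add, mk_eq_mk]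
      refine Eventually.of_forall fun ζ ↦ ?_
      simp
    rw [e]
    exact EX.add_mem (hp hp') (hq hq')
  | mul_X p i hp =>
    have hp' : MeromorphicAt (fun ζ ↦ aeval (line x v ζ) p) 0 := (an_line (an_aeval p x)).meromorphicAt
    have e : mk (fun ζ ↦ aeval (line x v ζ) (p * X i)) h =
        mk _ hp' * (algebraMap ℂ MG (x i) + XX * algebraMap ℂ MG (v i)) := by
      rw [algebraMap_MG, algebraMap_MG, XX, mk_mul, mk_add, mk_mul, mk_eq_mk]
      refine Eventually.of_forall fun ζ ↦ ?_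
      simp [line]
    rw [e]
    refine EX.mul_mem (hp hp') (EX.add_mem (EX.algebraMap_mem _) (EX.mul_mem ?_ (EX.algebraMap_mem _)))
    exact IntermediateField.mem_adjoin_simple_self ℂ XX

lemma alg_EX {x : MG} (h : x ∈ EX) : IsAlgebraic EX x := isAlgebraic_algebraMap (⟨x, h⟩ : EX)

/-- Independence along hierarchical sequences. -/
theorem ult_ind {m n : ℕ} (x : Fin m → ℂ) (φ : Fin n → (Fin m → ℂ) → ℂ)
    (han : ∀ i, AnalyticAt ℂ (φ i) x) (him : ∀ i, 0 < (φ i x).im)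
    (hnv : ∀ P : MvPolynomial ((Fin n × Fin 3) ⊕ Fin m) ℂ,
      (∀ᶠ s in 𝓝 x, aeval (Sum.elim (fun p ↦ ee (φ p.1 s) p.2) s) P = 0) → P = 0)
    (r : ℕ → Fin m → ℂ) (hr : Tendsto r atTop (𝓝 x)) (σ : Equiv.Perm (Fin m))
    (hpos : ∀ᶠ k in atTop, ∀ s, 0 < ‖r k s - x s‖)
    (hier : ∀ C : ℕ, ∀ᶠ k in atTop, ∀ p q, p < q →
      ‖r k (σ p) - x (σ p)‖ ≤ ‖r k (σ q) - x (σ q)‖ ^ C) :
    AlgebraicIndependent ℂ (Sum.elim (fun p : Fin n × Fin 3 ↦ mkU (fun k ↦ ee (φ p.1 (r k)) p.2))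
      (fun s : Fin m ↦ mkU (fun k ↦ r k s))) := by
  rw [algebraicIndependent_iff]
  intro P hP
  by_contra hne
  set F : (Fin m → ℂ) → ℂ := fun s ↦ aeval (Sum.elim (fun p ↦ ee (φ p.1 s) p.2) s) P with hF
  have hFan : AnalyticAt ℂ F x := by
    refine AnalyticAt.aeval_mvPolynomial (𝕜 := ℂ)
      (f := fun s : Fin m → ℂ ↦ Sum.elim (fun p : Fin n × Fin 3 ↦ ee (φ p.1 s) p.2) s) ?_ P
    rintro (⟨i, l⟩ | s)
    · exact AnalyticAt.fun_comp (g := fun w ↦ ee w l) (f := φ i) (analytic_ee (him i) l) (han i)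
    · exact (ContinuousLinearMap.proj (R := ℂ) (φ := fun _ : Fin m ↦ ℂ) s).analyticAt _
  set G : (Fin m → ℂ) → ℂ := fun y ↦ F (fun s ↦ y (σ.symm s)) with hG
  have hyx : (fun s ↦ (fun s ↦ x (σ s)) (σ.symm s)) = x := by
    ext s
    simp
  have hGan : AnalyticAt ℂ G (fun s ↦ x (σ s)) := by
    refine AnalyticAt.fun_comp (g := F) (f := fun (y : Fin m → ℂ) s ↦ y (σ.symm s)) ?_ ?_
    · rw [hyx]
      exact hFan
    · rw [analyticAt_pi_iff]
      intro s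
      exact (ContinuousLinearMap.proj (R := ℂ) (φ := fun _ : Fin m ↦ ℂ) (σ.symm s)).analyticAt _
  obtain ⟨c, hc, M, hM⟩ := H32.nonvanish_multi (l := atTop) m G (fun s ↦ x (σ s))
    (fun k s ↦ r k (σ s)) hGan
    (fun h ↦ hne (hnv P (by
      have h1 : Tendsto (fun (y : Fin m → ℂ) s ↦ y (σ s)) (𝓝 x) (𝓝 (fun s ↦ x (σ s))) := by
        rw [tendsto_pi_nhds]
        intro s
        exact (continuous_apply (σ s)).tendsto x
      filter_upwards [h1.eventually h] with y hy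
      rw [hG] at hy
      simp only [Equiv.apply_symm_apply] at hy
      exact hy)))
    (by
      rw [tendsto_pi_nhds]
      intro s
      exact (tendsto_pi_nhds.mp hr) (σ s)) hier
  have e1 : (Sum.elim (fun p : Fin n × Fin 3 ↦ mkU (fun k ↦ ee (φ p.1 (r k)) p.2))
      (fun s : Fin m ↦ mkU (fun k ↦ r k s))) =
      fun y ↦ mkU ((Sum.elim (fun (p : Fin n × Fin 3) (k : ℕ) ↦ ee (φ p.1 (r k)) p.2)
        (fun (s : Fin m) (k : ℕ) ↦ r k s) : (Fin n × Fin 3) ⊕ Fin m → ℕ → ℂ) y) := by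
    ext y
    rcases y with y | y <;> rfl
  rw [e1, aeval_mkU'] at hP
  obtain ⟨k, h1, h2, h3⟩ := ((freq_of_mkU_zero hP).and_eventually (hM.and hpos)).exists
  have h5 : G (fun s ↦ r k (σ s)) = 0 := by
    rw [← h1, hG, hF]
    simp only [Equiv.apply_symm_apply]
    congr 2
    ext y
    rcases y with y | y <;> rfl
  rw [h5, norm_zero] at h2
  have h4 : 0 < c * (∏ p, ‖r k (σ p) - x (σ p)‖) ^ M :=
    mul_pos hc (pow_pos (Finset.prod_pos fun p _ ↦ h3 (σ p)) _)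
  linarith

lemma hom_int {m : ℕ} (P : MvPolynomial (Fin m) ℤ) {D : ℕ} (hD : P.totalDegree ≤ D) {q : ℕ}
    (hq : 1 ≤ q) (p : Fin m → ℤ) :
    ∃ a : ℤ, (a : ℝ) = (q : ℝ) ^ D * aeval (fun s ↦ (p s : ℝ) / q) P := by
  refine ⟨∑ μ ∈ P.support, P.coeff μ * ((q : ℤ) ^ (D - ∑ s, μ s) * ∏ s, p s ^ μ s), ?_⟩
  rw [aeval_def, eval₂_eq', Finset.mul_sum]
  push_cast
  refine Finset.sum_congr rfl fun μ hμ ↦ ?_
  have h1 : ∑ s, μ s ≤ D := by
    have h2 := (le_totalDegree hμ).trans hD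
    rwa [Finsupp.sum_fintype _ _ (fun _ ↦ rfl)] at h2
  have hq0 : (q : ℝ) ≠ 0 := by
    have : q ≠ 0 := by omega
    exact_mod_cast this
  have h3 : (q : ℝ) ^ D = (q : ℝ) ^ (D - ∑ s, μ s) * ∏ s, (q : ℝ) ^ μ s := by
    rw [Finset.prod_pow_eq_pow_sum, ← pow_add, Nat.sub_add_cancel h1]
  have h4 : ∏ s, ((p s : ℝ) / q) ^ μ s * (q : ℝ) ^ μ s = ∏ s, (p s : ℝ) ^ μ s := by
    refine Finset.prod_congr rfl fun s _ ↦ ?_
    rw [← mul_pow, div_mul_cancel₀ _ hq0]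
  rw [Finset.prod_mul_distrib] at h4
  rw [h3, ← h4]
  have h5 : algebraMap ℤ ℝ (coeff μ P) = ((coeff μ P : ℤ) : ℝ) := rfl
  rw [h5]
  ring

lemma exp_cmp {L : ℝ} (hL : 0 ≤ L) {C E κ q : ℕ} (hC : 1 ≤ C) (hq : (C : ℝ) ^ κ + L + 1 ≤ q) :
    L * Real.exp (-(q : ℝ) ^ (E * κ + 1)) < Real.exp (-((C * q ^ E : ℕ) : ℝ) ^ κ) := by
  have h1 : L < Real.exp L := by
    have := Real.add_one_le_exp L
    linarith
  have hCp : (1 : ℝ) ≤ (C : ℝ) ^ κ := one_le_pow₀ (by exact_mod_cast hC)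
  have hq1 : (1 : ℝ) ≤ q := by linarith
  have hqE : (1 : ℝ) ≤ (q : ℝ) ^ (E * κ) := one_le_pow₀ hq1
  calc L * Real.exp (-(q : ℝ) ^ (E * κ + 1)) < Real.exp L * Real.exp (-(q : ℝ) ^ (E * κ + 1)) := by
        have := Real.exp_pos (-(q : ℝ) ^ (E * κ + 1))
        gcongr
    _ = Real.exp (L + -(q : ℝ) ^ (E * κ + 1)) := (Real.exp_add _ _).symm
    _ ≤ _ := by
        apply Real.exp_le_exp.mpr
        push_cast
        rw [mul_pow, ← pow_mul, pow_succ]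
        nlinarith

section

variable {m : ℕ}

lemma aeval_cont (P : MvPolynomial (Fin m) ℤ) :
    Continuous (fun y : Fin m → ℝ ↦ (aeval y P : ℝ)) := by
  induction P using MvPolynomial.induction_on with
  | C c =>
    simp only [aeval_C]
    exact continuous_const
  | add p q hp hq =>
    simp only [map_add]
    exact hp.add hq
  | mul_X p i hp =>
    simp only [map_mul, aeval_X]
    exact hp.mul (continuous_apply i)

/-- sorting the errors -/
lemma hier_sort {t : Fin m → ℝ} {κ : ℝ}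
    (h : ∀ K : ℕ, ∃ q : ℕ, K ≤ q ∧ ∃ p : Fin m → ℤ,
      (∀ s, 0 < |t s - p s / q| ∧ |t s - p s / q| < Real.exp (-(q : ℝ) ^ κ)) ∧
      ∀ r s, r ≠ s → |t r - p r / q| < |t s - p s / q| ^ K ∨
        |t s - p s / q| < |t r - p r / q| ^ K) :
    ∃ σ : Equiv.Perm (Fin m), ∀ K : ℕ, ∃ q : ℕ, K ≤ q ∧ ∃ p : Fin m → ℤ,
      (∀ s, 0 < |t (σ s) - p s / q| ∧ |t (σ s) - p s / q| < Real.exp (-(q : ℝ) ^ κ)) ∧
      ∀ r s, r < s → |t (σ r) - p r / q| < |t (σ s) - p s / q| ^ K := by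
  classical
  by_contra hcon
  push Not at hcon
  choose Kσ hKσ using hcon
  set K : ℕ := 1 + ∑ σ, Kσ σ with hK
  obtain ⟨q, hq, p, hp1, hp2⟩ := h K
  set δ : Fin m → ℝ := fun s ↦ |t s - p s / q| with hδ
  set σ := Tuple.sort δ with hσ
  have hmono : Monotone (δ ∘ σ) := Tuple.monotone_sort δ
  have hδ0 : ∀ s, 0 < δ s := fun s ↦ (hp1 s).1
  have hδ1 : ∀ s, δ s ≤ 1 := fun s ↦ by
    refine ((hp1 s).2.le).trans (Real.exp_le_one_iff.mpr ?_)
    have : 0 ≤ (q : ℝ) ^ κ := by positivity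
    linarith
  have hKle : Kσ σ ≤ K := by
    have := Finset.single_le_sum (f := fun σ ↦ Kσ σ) (fun _ _ ↦ Nat.zero_le _) (Finset.mem_univ σ)
    have h2 : Kσ σ ≤ ∑ σ, Kσ σ := this
    omega
  obtain ⟨r, s, hrs, hbad⟩ := hKσ σ q (hKle.trans hq) (fun s ↦ p (σ s)) (fun s ↦ hp1 (σ s))
  have h1 : δ (σ r) ≤ δ (σ s) := hmono hrs.le
  have hne : σ r ≠ σ s := fun h ↦ hrs.ne (σ.injective h)
  have h3 : δ (σ s) ^ K ≤ δ (σ s) ^ Kσ σ := pow_le_pow_of_le_one (hδ0 _).le (hδ1 _) hKle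
  have hbad' : δ (σ s) ^ Kσ σ ≤ δ (σ r) := hbad
  rcases hp2 (σ r) (σ s) hne with h2 | h2
  · have h2' : δ (σ r) < δ (σ s) ^ K := h2
    linarith
  · have h2' : δ (σ s) < δ (σ r) ^ K := h2
    have h4 : δ (σ r) ^ K ≤ δ (σ r) := by
      calc δ (σ r) ^ K ≤ δ (σ r) ^ 1 := pow_le_pow_of_le_one (hδ0 _).le (hδ1 _) (by omega)
        _ = δ (σ r) := pow_one _
    linarith

end

/-- Sorted approximations. -/
def SHier {m : ℕ} (t : Fin m → ℝ) : Prop :=
  ∀ κ : ℕ, ∃ σ : Equiv.Perm (Fin m), ∀ K : ℕ, ∃ q : ℕ, K ≤ q ∧ ∃ p : Fin m → ℤ,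
    (∀ s, 0 < |t s - p s / q| ∧ |t s - p s / q| < Real.exp (-(q : ℝ) ^ κ)) ∧
    ∀ a b, a < b → |t (σ a) - p (σ a) / q| < |t (σ b) - p (σ b) / q| ^ K

/-- Elements of the field are quotients of integral polynomials. -/
lemma mem_field {m : ℕ} {t : Fin m → ℝ} {a : ℝ}
    (ha : a ∈ IntermediateField.adjoin ℚ (Set.range t)) :
    ∃ P Q : MvPolynomial (Fin m) ℤ, 0 < (aeval t Q : ℝ) ∧ a = (aeval t P : ℝ) / (aeval t Q : ℝ) := by
  induction ha using IntermediateField.adjoin_induction with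
  | mem x hx =>
    obtain ⟨s, rfl⟩ := hx
    exact ⟨X s, 1, by simp, by simp⟩
  | algebraMap x =>
    refine ⟨C x.num, C (x.den : ℤ), ?_, ?_⟩
    · rw [aeval_C]
      have : (0 : ℝ) < x.den := by exact_mod_cast x.den_pos
      simpa using this
    · rw [aeval_C, aeval_C]
      have := Rat.cast_def (K := ℝ) x
      simpa using this
  | add x y _ _ hx hy =>
    obtain ⟨P, Q, hQ, rfl⟩ := hx
    obtain ⟨P', Q', hQ', rfl⟩ := hy
    refine ⟨P * Q' + P' * Q, Q * Q', by rw [map_mul]; positivity, ?_⟩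
    rw [map_add, map_mul, map_mul, map_mul]
    field_simp
  | mul x y _ _ hx hy =>
    obtain ⟨P, Q, hQ, rfl⟩ := hx
    obtain ⟨P', Q', hQ', rfl⟩ := hy
    refine ⟨P * P', Q * Q', by rw [map_mul]; positivity, ?_⟩
    rw [map_mul, map_mul]
    field_simp
  | inv x _ hx =>
    obtain ⟨P, Q, hQ, rfl⟩ := hx
    rcases lt_trichotomy (aeval t P : ℝ) 0 with h | h | h
    · refine ⟨-Q, -P, by rw [map_neg]; linarith, ?_⟩
      rw [map_neg, map_neg, inv_div, neg_div_neg_eq]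
    · refine ⟨0, 1, by simp, ?_⟩
      rw [h]
      simp
    · exact ⟨Q, P, h, by rw [inv_div]⟩

lemma shier_of {m : ℕ} {t : Fin m → ℝ} (h : ∀ κ : ℝ, ∀ K : ℕ, ∃ q : ℕ, K ≤ q ∧ ∃ p : Fin m → ℤ,
    (∀ s, 0 < |t s - p s / q| ∧ |t s - p s / q| < Real.exp (-(q : ℝ) ^ κ)) ∧
    ∀ r s, r ≠ s → |t r - p r / q| < |t s - p s / q| ^ K ∨
      |t s - p s / q| < |t r - p r / q| ^ K) : SHier t := by
  intro κ
  obtain ⟨σ, hσ⟩ := hier_sort (h (κ : ℝ))
  refine ⟨σ, fun K ↦ ?_⟩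
  obtain ⟨q, hq, p, h1, h2⟩ := hσ K
  refine ⟨q, hq, fun s ↦ p (σ.symm s), fun s ↦ ?_, fun a b hab ↦ ?_⟩
  · have h3 := h1 (σ.symm s)
    rw [Equiv.apply_symm_apply, Real.rpow_natCast] at h3
    exact h3
  · simp only [Equiv.symm_apply_apply]
    exact h2 a b hab

/-- Evaluation at translates by integral matrices. -/
lemma rat_eval {a b c d : ℤ} {N : ℕ} (hN : 0 < N) (hdet' : (N : ℤ) = a * d - b * c) (τ τ' : ℍ)
    (h : (τ' : ℂ) = (a * τ + b) / (c * τ + d)) : ∃ s ∈ SN N,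
      xP N (toM s) τ = ((N : ℂ) / (c * τ + d)) ^ 4 * E₄ τ' * E₄ τ ^ 2 ∧
      xQ N (toM s) τ = ((N : ℂ) / (c * τ + d)) ^ 6 * E₆ τ' * E₆ τ ∧
      xT N (toM s) τ = (((N : ℂ) / (c * τ + d)) ^ 2 * E2s τ' - N * E2s τ) * (E₄ τ * E₆ τ) := by
  set g : Matrix (Fin 2) (Fin 2) ℤ := !![a, b; c, d] with hg
  have hdet : g.det = N := by
    rw [hg, Matrix.det_fin_two_of, hdet']
  have hN' : (0 : ℤ) < N := by exact_mod_cast hN
  have hpos : 0 < g.det := hdet ▸ hN'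
  have hden : denom (toG g) τ = c * τ + d := by
    rw [denom, toG_val hpos]
    simp [hg]
  have hfix : toG g • τ = τ' := by
    have h1 : 0 < (toG g).det.val := by
      rw [Matrix.GeneralLinearGroup.val_det_apply, det_toG hpos]; exact_mod_cast hpos
    ext
    rw [coe_smul_of_det_pos h1, hden, num, toG_val hpos, h]
    simp [hg]
  have hHA : ∀ (F : ℍ → ℂ) (k : ℕ), HA F k N g τ = ((N : ℂ) / (c * τ + d)) ^ k * F τ' := by
    intro F k
    unfold HA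
    rw [hfix, hden]
  obtain ⟨s, hs, γ, hγ⟩ := H32.exists_rep hN g hdet
  obtain ⟨ha', hd'⟩ := SN_pos hN hs
  have hposM := det_toM_pos ha' hd'
  have hHA2 : ∀ (F : ℍ → ℂ) (k : ℕ), WInv F k →
      HA F k N (toM s) τ = ((N : ℂ) / (c * τ + d)) ^ k * F τ' := by
    intro F k hF
    rw [← hHA F k, hγ, HA_left hF hposM]
  refine ⟨s, hs, ?_, ?_, ?_⟩
  · rw [xP, hHA2 _ _ WInv_E4]
  · rw [xQ, hHA2 _ _ WInv_E6]
  · rw [xT, hHA2 _ _ WInv_E2s]

/-- The translate. -/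
noncomputable def mob (a b c d y : ℂ) : ℂ := (a * y + b) / (c * y + d)

lemma im_mobC {a b c d : ℝ} {y : ℂ} (hy : 0 < y.im) (h : 0 < a * d - b * c) :
    (c : ℂ) * y + d ≠ 0 ∧ ((mob a b c d y).im : ℝ) = (a * d - b * c) * y.im /
      Complex.normSq (c * y + d) ∧ 0 < (mob a b c d y).im := by
  have hcd : c ≠ 0 ∨ d ≠ 0 := by
    by_contra hcon
    push Not at hcon
    rw [hcon.1, hcon.2] at h
    simp at h
  have h1 := den_ne_real hcd hy
  refine ⟨h1, ?_, im_mob_pos h hy⟩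
  have h2 := im_mob (a := a) (b := b) h1
  exact h2

lemma im_key {a b c d : ℤ} {N : ℕ} (hN : 0 < N) (hdet : (N : ℤ) = a * d - b * c) (τ τ' : ℍ)
    (h : (τ' : ℂ) = (a * τ + b) / (c * τ + d)) : (c : ℂ) * τ + d ≠ 0 ∧
      ((N : ℂ) / (c * τ + d)) ^ 2 * (3 / (π * (τ'.im : ℂ))) =
        3 * N / (π * (τ.im : ℂ)) - 6 * Complex.I * N * c / (π * (c * τ + d)) := by
  have hNr : (N : ℝ) = a * d - b * c := by exact_mod_cast congrArg (fun z : ℤ ↦ (z : ℝ)) hdet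
  have hNpos : (0 : ℝ) < (a : ℝ) * (d : ℝ) - (b : ℝ) * (c : ℝ) := by
    rw [← hNr]; exact_mod_cast hN
  have h1 : ((c : ℝ) : ℂ) * (τ : ℂ) + ((d : ℝ) : ℂ) ≠ 0 := (im_mobC τ.im_pos hNpos).1
  have h2 := im_mob (a := a) (b := b) h1
  push_cast at h1 h2
  refine ⟨h1, ?_⟩
  rw [← h, ← hNr] at h2
  have h3 : (τ'.im : ℂ) * ((c * τ + d) * (c * τ + d - 2 * Complex.I * c * (τ.im : ℂ))) =
      N * (τ.im : ℂ) := by
    have h4 : (c * (τ : ℂ) + d) * (c * (τ : ℂ) + d - 2 * Complex.I * c * (τ.im : ℂ)) =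
        ((Complex.normSq (c * (τ : ℂ) + d) : ℝ) : ℂ) := by
      rw [← Complex.mul_conj]
      congr 1
      rw [map_add, map_mul, map_intCast, map_intCast]
      have h5 : (starRingEnd ℂ) (τ : ℂ) = τ - 2 * Complex.I * (τ.im : ℂ) := by
        have h6 := Complex.sub_conj (τ : ℂ)
        rw [UpperHalfPlane.coe_im] at h6
        push_cast at h6
        linear_combination -h6
      rw [h5]
      ring
    rw [h4]
    have h7 : 0 < Complex.normSq (c * (τ : ℂ) + d) := Complex.normSq_pos.mpr h1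
    have h8 : τ'.im * Complex.normSq (c * (τ : ℂ) + d) = N * τ.im := by
      rw [← UpperHalfPlane.coe_im τ', h2, UpperHalfPlane.coe_im, div_mul_cancel₀ _ h7.ne']
    exact_mod_cast congrArg (fun z : ℝ ↦ (z : ℂ)) h8
  have hpi : (π : ℂ) ≠ 0 := by exact_mod_cast Real.pi_ne_zero
  have hy : (τ.im : ℂ) ≠ 0 := by exact_mod_cast τ.im_pos.ne'
  have hy' : (τ'.im : ℂ) ≠ 0 := by exact_mod_cast τ'.im_pos.ne'
  have hN0 : (N : ℂ) ≠ 0 := by exact_mod_cast hN.ne'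
  rw [div_pow, div_mul_div_comm, div_sub_div _ _ (mul_ne_zero hpi hy) (mul_ne_zero hpi h1),
    div_eq_div_iff (mul_ne_zero (pow_ne_zero 2 h1) (mul_ne_zero hpi hy'))
      (mul_ne_zero (mul_ne_zero hpi hy) (mul_ne_zero hpi h1))]
  linear_combination (-3 * (N : ℂ) * (π : ℂ) ^ 2 * (c * (τ : ℂ) + d)) * h3

/-- The data describing a tuple of translates. -/
structure Orb (m n b : ℕ) where
  /-- constructor -/
  of ::
  /-- the parameters -/
  t : Fin m → ℝ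
  /-- entries -/
  pA : Fin n → MvPolynomial (Fin m) ℤ
  /-- entries -/
  pB : Fin n → MvPolynomial (Fin m) ℤ
  /-- entries -/
  pC : Fin n → MvPolynomial (Fin m) ℤ
  /-- entries -/
  pD : Fin n → MvPolynomial (Fin m) ℤ
  /-- base points -/
  y : Fin b → ℍ
  /-- classes -/
  c : Fin n → Fin b
  hdet : ∀ i, 0 < aeval t (pA i * pD i - pB i * pC i)

namespace Orb

variable {m n b : ℕ} (S : Orb m n b)

/-- The complex parameters. -/
noncomputable def x : Fin m → ℂ := fun s ↦ (S.t s : ℂ)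

/-- The functions. -/
noncomputable def φ (i : Fin n) (s : Fin m → ℂ) : ℂ :=
  mob (aeval s (S.pA i)) (aeval s (S.pB i)) (aeval s (S.pC i)) (aeval s (S.pD i)) (S.y (S.c i))

/-- The denominators. -/
noncomputable def den (i : Fin n) (s : Fin m → ℂ) : ℂ :=
  aeval s (S.pC i) * (S.y (S.c i) : ℂ) + aeval s (S.pD i)

/-- The determinants. -/
noncomputable def dt (i : Fin n) : MvPolynomial (Fin m) ℤ := S.pA i * S.pD i - S.pB i * S.pC i

lemma x_aeval (p : MvPolynomial (Fin m) ℤ) : aeval S.x p = ((aeval S.t p : ℝ) : ℂ) :=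
  aeval_ofReal S.t p

lemma real_pos {u : Fin m → ℝ} {i : Fin n} (h : 0 < (aeval u (S.dt i) : ℝ)) :
    S.den i (fun s ↦ (u s : ℂ)) ≠ 0 ∧ 0 < (S.φ i (fun s ↦ (u s : ℂ))).im := by
  have h1 : 0 < (aeval u (S.pA i) : ℝ) * aeval u (S.pD i) - aeval u (S.pB i) * aeval u (S.pC i) := by
    have := h
    rwa [dt, map_sub, map_mul, map_mul] at this
  obtain ⟨h2, -, h3⟩ := im_mobC (S.y (S.c i)).im_pos h1
  rw [den, φ, aeval_ofReal, aeval_ofReal, aeval_ofReal, aeval_ofReal]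
  exact ⟨h2, h3⟩

lemma den_x (i : Fin n) : S.den i S.x ≠ 0 := (S.real_pos (S.hdet i)).1

lemma im_φ (i : Fin n) : 0 < (S.φ i S.x).im := (S.real_pos (S.hdet i)).2

lemma dt_x (i : Fin n) : aeval S.x (S.dt i) ≠ 0 := by
  rw [x_aeval]
  exact_mod_cast (S.hdet i).ne'

lemma an_den (i : Fin n) (s : Fin m → ℂ) : AnalyticAt ℂ (S.den i) s :=
  ((an_aeval _ _).fun_mul analyticAt_const).fun_add (an_aeval _ _)

lemma an_φ (i : Fin n) : AnalyticAt ℂ (S.φ i) S.x :=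
  AnalyticAt.fun_div (((an_aeval _ _).fun_mul analyticAt_const).fun_add (an_aeval _ _))
    (S.an_den i _) (S.den_x i)

lemma alg_φ (i : Fin n) (v : Fin m → ℂ) (h : AnalyticAt ℂ (fun ζ : ℂ ↦ S.φ i (line S.x v ζ)) 0) :
    IsAlgebraic EX (mk (fun ζ : ℂ ↦ S.φ i (line S.x v ζ)) h.meromorphicAt) := by
  have hp : ∀ p : MvPolynomial (Fin m) ℤ, MeromorphicAt (fun ζ ↦ aeval (line S.x v ζ) p) 0 :=
    fun p ↦ (an_line (an_aeval p S.x)).meromorphicAt
  set Y : MG := algebraMap ℂ MG (S.y (S.c i) : ℂ) with hY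
  have hYm : Y ∈ EX := EX.algebraMap_mem _
  have hq : ∀ p q : MvPolynomial (Fin m) ℤ,
      MeromorphicAt (fun ζ ↦ aeval (line S.x v ζ) p * (S.y (S.c i) : ℂ) + aeval (line S.x v ζ) q) 0 :=
    fun p q ↦ (an_line (((an_aeval p S.x).fun_mul analyticAt_const).fun_add
      (an_aeval q S.x))).meromorphicAt
  have hqe : ∀ p q : MvPolynomial (Fin m) ℤ, mk _ (hq p q) = mk _ (hp p) * Y + mk _ (hp q) := by
    intro p q
    rw [hY, algebraMap_MG, mk_mul, mk_add]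
  have hqm : ∀ p q : MvPolynomial (Fin m) ℤ, mk _ (hq p q) ∈ EX := by
    intro p q
    rw [hqe]
    exact EX.add_mem (EX.mul_mem (mem_EX _ _ _ _) hYm) (mem_EX _ _ _ _)
  have h0 : mk _ (hq (S.pC i) (S.pD i)) ≠ 0 := by
    intro h0
    rw [mk_eq_zero] at h0
    have h1 : ContinuousAt (fun ζ ↦ S.den i (line S.x v ζ)) 0 :=
      (an_line (S.an_den i S.x)).continuousAt
    have h2 : Tendsto (fun ζ ↦ S.den i (line S.x v ζ)) NE (𝓝 (S.den i (line S.x v 0))) :=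
      h1.tendsto.mono_left nhdsWithin_le_nhds
    rw [line_zero] at h2
    have h3 : Tendsto (fun ζ ↦ S.den i (line S.x v ζ)) NE (𝓝 0) := by
      refine tendsto_const_nhds.congr' ?_
      filter_upwards [h0] with ζ hζ using hζ.symm
    exact S.den_x i (tendsto_nhds_unique h2 h3)
  have e : mk (fun ζ ↦ S.φ i (line S.x v ζ)) h.meromorphicAt =
      mk _ (hq (S.pA i) (S.pB i)) * (mk _ (hq (S.pC i) (S.pD i)))⁻¹ := by
    rw [eq_mul_inv_iff_mul_eq₀ h0, mk_mul, mk_eq_mk]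
    have hne : ∀ᶠ ζ in NE, S.den i (line S.x v ζ) ≠ 0 := by
      rcases (hq (S.pC i) (S.pD i)).eventually_eq_zero_or_eventually_ne_zero with h1 | h1
      · exact absurd (mk_eq_zero.mpr h1) h0
      · exact h1
    filter_upwards [hne] with ζ hζ
    exact div_mul_cancel₀ _ hζ
  rw [e]
  exact alg_EX (EX.mul_mem (hqm _ _) (EX.inv_mem (hqm _ _)))

/-- The polynomial detecting constancy. -/
noncomputable def pP (i : Fin n) : MvPolynomial (Fin m) ℂ :=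
  (MvPolynomial.map (Int.castRingHom ℂ) (S.pC i) * C (S.y (S.c i) : ℂ) +
    MvPolynomial.map (Int.castRingHom ℂ) (S.pD i)) * C (S.φ i S.x) -
    (MvPolynomial.map (Int.castRingHom ℂ) (S.pA i) * C (S.y (S.c i) : ℂ) +
      MvPolynomial.map (Int.castRingHom ℂ) (S.pB i))

lemma eval_pP (i : Fin n) (s : Fin m → ℂ) : eval s (S.pP i) =
    S.den i s * S.φ i S.x - (aeval s (S.pA i) * (S.y (S.c i) : ℂ) + aeval s (S.pB i)) := by
  have h : ∀ p : MvPolynomial (Fin m) ℤ, eval s (MvPolynomial.map (Int.castRingHom ℂ) p) =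
      aeval s p := by
    intro p
    rw [eval_map, aeval_def]
    rfl
  rw [pP, den]
  simp only [map_add, map_sub, map_mul, map_pow, eval_C, h]

lemma pP_ne (hne : ∀ i, ¬ ∃ a b c d : ℚ, 0 < a * d - b * c ∧
    S.φ i S.x = ((a : ℂ) * (S.y (S.c i) : ℂ) + b) / ((c : ℂ) * (S.y (S.c i) : ℂ) + d))
    (i : Fin n) : S.pP i ≠ 0 := by
  intro h0
  have hdt0 : S.dt i ≠ 0 := by
    intro h1
    have := S.hdet i
    change 0 < aeval S.t (S.dt i) at this
    rw [h1, map_zero] at this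
    exact lt_irrefl _ this
  obtain ⟨u, hu⟩ : ∃ u : Fin m → ℤ, eval u (S.dt i) ≠ 0 := by
    by_contra hcon
    push Not at hcon
    exact hdt0 (MvPolynomial.funext fun y ↦ by rw [hcon y, map_zero])
  have hcast : ∀ p : MvPolynomial (Fin m) ℤ, aeval (fun s ↦ ((u s : ℤ) : ℂ)) p =
      ((eval u p : ℤ) : ℂ) := by
    intro p
    have h := MvPolynomial.comp_aeval_apply (R := ℤ) u ((Int.castRingHom ℂ).toIntAlgHom) p
    exact h.symm
  have h1 := S.eval_pP i (fun s ↦ ((u s : ℤ) : ℂ))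
  rw [h0, map_zero, den, hcast, hcast, hcast, hcast] at h1
  set A := eval u (S.pA i)
  set B := eval u (S.pB i)
  set C' := eval u (S.pC i)
  set D := eval u (S.pD i)
  have hdet : eval u (S.dt i) = A * D - B * C' := by
    rw [dt, map_sub, map_mul, map_mul]
  rw [hdet] at hu
  set y : ℂ := (S.y (S.c i) : ℂ) with hy
  have hyim : 0 < y.im := (S.y (S.c i)).im_pos
  have hCD : (C' : ℝ) ≠ 0 ∨ (D : ℝ) ≠ 0 := by
    by_contra hcon
    push Not at hcon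
    obtain ⟨k1, k2⟩ := hcon
    have k1' : C' = 0 := by exact_mod_cast k1
    have k2' : D = 0 := by exact_mod_cast k2
    rw [k1', k2'] at hu
    simp at hu
  have hden := den_ne_real hCD hyim
  have hval : S.φ i S.x = ((A : ℝ) * y + (B : ℝ)) / ((C' : ℝ) * y + (D : ℝ)) := by
    rw [eq_div_iff hden]
    push_cast
    linear_combination -h1
  have him := S.im_φ i
  rw [hval, im_mob hden] at him
  have hns := Complex.normSq_pos.mpr hden
  have hpos : 0 < (A : ℝ) * D - B * C' := by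
    by_contra hcon
    push Not at hcon
    have h2 : ((A : ℝ) * D - B * C') * y.im / Complex.normSq ((C' : ℝ) * y + (D : ℝ)) ≤ 0 :=
      div_nonpos_of_nonpos_of_nonneg (mul_nonpos_of_nonpos_of_nonneg hcon hyim.le) hns.le
    linarith
  refine hne i ⟨A, B, C', D, by exact_mod_cast hpos, ?_⟩
  rw [hval]
  push_cast
  rfl

lemma nc_φ (hne : ∀ i, ¬ ∃ a b c d : ℚ, 0 < a * d - b * c ∧
    S.φ i S.x = ((a : ℂ) * (S.y (S.c i) : ℂ) + b) / ((c : ℂ) * (S.y (S.c i) : ℂ) + d))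
    (i : Fin n) : ∃ p : MvPolynomial (Fin m) ℂ, p ≠ 0 ∧ ∀ v, eval (line S.x v 1) p ≠ 0 →
      ¬ ∀ᶠ ζ in NE, S.φ i (line S.x v ζ) = S.φ i S.x := by
  refine ⟨S.pP i, S.pP_ne hne i, fun v hv hcon ↦ hv ?_⟩
  -- the restriction to the line
  have han : AnalyticOnNhd ℂ (fun ζ ↦ eval (line S.x v ζ) (S.pP i)) Set.univ := by
    intro ζ _
    have h1 : AnalyticAt ℂ (fun s : Fin m → ℂ ↦ aeval s (S.pP i)) (line S.x v ζ) :=
      AnalyticAt.aeval_mvPolynomial (𝕜 := ℂ) (f := fun s : Fin m → ℂ ↦ s)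
        (fun i ↦ (ContinuousLinearMap.proj (R := ℂ) (φ := fun _ : Fin m ↦ ℂ) i).analyticAt _) _
    have h2 := AnalyticAt.fun_comp (g := fun s : Fin m → ℂ ↦ aeval s (S.pP i)) (f := line S.x v)
      h1 (line_an _ _ _)
    exact h2
  have hev : ∃ᶠ ζ in 𝓝[≠] (0 : ℂ), eval (line S.x v ζ) (S.pP i) = 0 := by
    refine Eventually.frequently ?_
    have hpW : ∀ᶠ ζ in NE, S.den i (line S.x v ζ) ≠ 0 := by
      have h1 : ContinuousAt (fun ζ ↦ S.den i (line S.x v ζ)) 0 :=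
        (an_line (S.an_den i S.x)).continuousAt
      have h2 : S.den i (line S.x v 0) ≠ 0 := by
        rw [line_zero]
        exact S.den_x i
      exact (h1.eventually_ne h2).filter_mono nhdsWithin_le_nhds
    filter_upwards [hcon, hpW] with ζ h1 h2
    rw [eval_pP, ← h1]
    have h3 : S.den i (line S.x v ζ) * S.φ i (line S.x v ζ) =
        aeval (line S.x v ζ) (S.pA i) * (S.y (S.c i) : ℂ) + aeval (line S.x v ζ) (S.pB i) :=
      mul_div_cancel₀ _ h2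
    rw [h3, sub_self]
  have h3 := han.eqOn_zero_of_preconnected_of_frequently_eq_zero isPreconnected_univ
    (Set.mem_univ 0) hev (Set.mem_univ 1)
  exact h3

/-- Functional independence. -/
theorem nonvan_φ (hne : ∀ i, ¬ ∃ a b c d : ℚ, 0 < a * d - b * c ∧
    S.φ i S.x = ((a : ℂ) * (S.y (S.c i) : ℂ) + b) / ((c : ℂ) * (S.y (S.c i) : ℂ) + d))
    (hrel : ∀ i j, i ≠ j → ¬ ∃ a b c d : ℚ, 0 < a * d - b * c ∧
      S.φ j S.x = ((a : ℂ) * S.φ i S.x + b) / ((c : ℂ) * S.φ i S.x + d))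
    (P : MvPolynomial ((Fin n × Fin 3) ⊕ Fin m) ℂ)
    (h : ∀ᶠ s in 𝓝 S.x, aeval (Sum.elim (fun p ↦ ee (S.φ p.1 s) p.2) s) P = 0) : P = 0 :=
  nonvan S.x S.φ S.an_φ S.im_φ S.alg_φ (S.nc_φ hne) hrel P h

end Orb

lemma indep_of_card {R A : Type} [Field R] [Field A] [Algebra R A] {ι : Type} [Fintype ι]
    (S : ι → A) {N : ℕ} (hN : Fintype.card ι = N) {f : Fin N → ι}
    (hf : AlgebraicIndependent R (fun k ↦ S (f k))) : AlgebraicIndependent R S := by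
  have hinj : Function.Injective f := fun a b hab ↦ hf.injective (by simp only [hab])
  have hbij : Function.Bijective f := by
    rw [Fintype.bijective_iff_injective_and_card]
    exact ⟨hinj, by rw [Fintype.card_fin, hN]⟩
  have h1 := hf.comp (Equiv.ofBijective f hbij).symm (Equiv.injective _)
  convert h1 using 1
  ext k
  exact congrArg S ((Equiv.ofBijective f hbij).apply_symm_apply k).symm

lemma bound_near {m : ℕ} {ι : Type} [Fintype ι] (t : Fin m → ℝ) (P : ι → MvPolynomial (Fin m) ℤ) :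
    ∃ C : ℕ, ∀ᶠ u in 𝓝 t, ∀ i, |(aeval u (P i) : ℝ)| ≤ C := by
  have h1 : ∀ i, ∃ C : ℕ, ∀ᶠ u in 𝓝 t, |(aeval u (P i) : ℝ)| ≤ C := by
    intro i
    obtain ⟨C, hC⟩ := exists_nat_gt |(aeval t (P i) : ℝ)|
    refine ⟨C, ?_⟩
    filter_upwards [(aeval_cont (P i)).abs.continuousAt.eventually (gt_mem_nhds hC)] with u hu
    exact hu.le
  choose C hC using h1
  refine ⟨∑ i, C i, ?_⟩
  rw [eventually_all]
  intro i
  filter_upwards [hC i] with u hu
  refine hu.trans ?_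
  exact_mod_cast Finset.single_le_sum (f := C) (fun _ _ ↦ Nat.zero_le _) (Finset.mem_univ i)

namespace Orb

variable {m n b : ℕ} (S : Orb m n b)

/-- Bounds near the parameters. -/
lemma near : ∃ (C : ℕ) (ε : ℝ), 2 ≤ C ∧ 0 < ε ∧ ∀ u : Fin m → ℝ,
    (∀ s, |S.t s - u s| < ε) → (∀ s, |u s| ≤ C) ∧ ∀ i, 0 < (aeval u (S.dt i) : ℝ) ∧
      |(aeval u (S.pA i) : ℝ)| ≤ C ∧ |(aeval u (S.pB i) : ℝ)| ≤ C ∧
      |(aeval u (S.pC i) : ℝ)| ≤ C ∧ |(aeval u (S.pD i) : ℝ)| ≤ C := by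
  obtain ⟨C1, h1⟩ := bound_near S.t S.pA
  obtain ⟨C2, h2⟩ := bound_near S.t S.pB
  obtain ⟨C3, h3⟩ := bound_near S.t S.pC
  obtain ⟨C4, h4⟩ := bound_near S.t S.pD
  obtain ⟨C5, h5⟩ := bound_near S.t (fun s : Fin m ↦ (X s : MvPolynomial (Fin m) ℤ))
  have h6 : ∀ᶠ u in 𝓝 S.t, ∀ i, 0 < (aeval u (S.dt i) : ℝ) := by
    rw [eventually_all]
    intro i
    exact (aeval_cont (S.dt i)).continuousAt.eventually (lt_mem_nhds (S.hdet i))
  obtain ⟨ε, hε, hb⟩ := Metric.eventually_nhds_iff_ball.mp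
    (h1.and (h2.and (h3.and (h4.and (h5.and h6)))))
  refine ⟨C1 + C2 + C3 + C4 + C5 + 2, ε, by omega, hε, fun u hu ↦ ?_⟩
  have hub : u ∈ Metric.ball S.t ε := by
    rw [Metric.mem_ball, dist_pi_lt_iff hε]
    intro s
    rw [dist_comm, Real.dist_eq]
    exact hu s
  obtain ⟨k1, k2, k3, k4, k5, k6⟩ := hb u hub
  have p1 : (0 : ℝ) ≤ C1 := Nat.cast_nonneg _
  have p2 : (0 : ℝ) ≤ C2 := Nat.cast_nonneg _
  have p3 : (0 : ℝ) ≤ C3 := Nat.cast_nonneg _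
  have p4 : (0 : ℝ) ≤ C4 := Nat.cast_nonneg _
  have p5 : (0 : ℝ) ≤ C5 := Nat.cast_nonneg _
  push_cast
  refine ⟨fun s ↦ ?_, fun i ↦ ⟨k6 i, ?_, ?_, ?_, ?_⟩⟩
  · have := k5 s
    rw [aeval_X] at this
    linarith
  · have := k1 i
    linarith
  · have := k2 i
    linarith
  · have := k3 i
    linarith
  · have := k4 i
    linarith

/-- Integral entries at rational parameters. -/
lemma entries {D q : ℕ} (hq : 1 ≤ q) (p : Fin m → ℤ) (P : MvPolynomial (Fin m) ℤ)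
    (hD : P.totalDegree ≤ D) {C : ℕ}
    (hC : |(aeval (fun s ↦ (p s : ℝ) / q) P : ℝ)| ≤ C) :
    ∃ a : ℤ, |a| ≤ ((C * q ^ D : ℕ) : ℤ) ∧
      (a : ℝ) = (q : ℝ) ^ D * aeval (fun s ↦ (p s : ℝ) / q) P ∧
      (a : ℂ) = (q : ℂ) ^ D * aeval (fun s ↦ (p s : ℂ) / q) P := by
  obtain ⟨a, ha⟩ := hom_int P hD hq p
  have hqD : (0 : ℝ) ≤ (q : ℝ) ^ D := by positivity
  refine ⟨a, ?_, ha, ?_⟩
  · have h1 : |(a : ℝ)| ≤ C * (q : ℝ) ^ D := by
      rw [ha, abs_mul, abs_of_nonneg hqD, mul_comm (C : ℝ)]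
      gcongr
    exact_mod_cast h1
  · have h2 := aeval_ofReal (fun s ↦ (p s : ℝ) / q) P
    push_cast at h2
    rw [h2]
    exact_mod_cast congrArg (fun z : ℝ ↦ (z : ℂ)) ha

end Orb

/-- The rank of a finite family. -/
lemma eRk_range_le {ι : Type} [Finite ι] (W : ι → ℂ) {δ : ℕ}
    (h : ∀ (k : ℕ) (f : Fin k → ι), AlgebraicIndependent ℚ (fun j ↦ W (f j)) → k ≤ δ) :
    (AlgebraicIndependent.matroid ℚ ℂ).eRk (Set.range W) ≤ (δ : ℕ∞) := by
  classical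
  set M := AlgebraicIndependent.matroid ℚ ℂ with hM
  obtain ⟨B, hB'⟩ := M.exists_isBasis (Set.range W) (by rw [hM]; exact Set.subset_univ _)
  have hBfin : B.Finite := (Set.finite_range W).subset hB'.subset
  rw [← hB'.encard_eq_eRk, hBfin.encard_eq_coe_toFinset_card]
  have hBi := hB'.indep
  rw [hM, AlgebraicIndependent.matroid_indep_iff] at hBi
  obtain ⟨f, hf⟩ := extract_indep' W (B := B) hBi hB'.subset (N := hBfin.toFinset.card) (by
    rw [hBfin.encard_eq_coe_toFinset_card])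
  exact_mod_cast h _ f hf

/-- Integral data for the tuple. -/
lemma exists_orb {m n b : ℕ} {t : Fin m → ℝ} (y : Fin b → ℍ) (c : Fin n → Fin b) (z : Fin n → ℂ)
    (hz : ∀ i, ∃ A ∈ IntermediateField.adjoin ℚ (Set.range t),
      ∃ B ∈ IntermediateField.adjoin ℚ (Set.range t),
      ∃ C ∈ IntermediateField.adjoin ℚ (Set.range t),
      ∃ D ∈ IntermediateField.adjoin ℚ (Set.range t), 0 < A * D - B * C ∧
        z i = ((A : ℂ) * (y (c i) : ℂ) + (B : ℂ)) / ((C : ℂ) * (y (c i) : ℂ) + (D : ℂ))) :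
    ∃ S : Orb m n b, S.t = t ∧ S.y = y ∧ S.c = c ∧ ∀ i, S.φ i S.x = z i := by
  choose A hA B hB C hC D hD hdet hz using hz
  choose PA QA hQA hPA using fun i ↦ mem_field (hA i)
  choose PB QB hQB hPB using fun i ↦ mem_field (hB i)
  choose PC QC hQC hPC using fun i ↦ mem_field (hC i)
  choose PD QD hQD hPD using fun i ↦ mem_field (hD i)
  have key : ∀ i, 0 < (aeval t (QA i) * aeval t (QB i) * aeval t (QC i) * aeval t (QD i) : ℝ) :=
    fun i ↦ mul_pos (mul_pos (mul_pos (hQA i) (hQB i)) (hQC i)) (hQD i)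
  have eA : ∀ i, (aeval t (PA i * QB i * QC i * QD i) : ℝ) =
      (aeval t (QA i) * aeval t (QB i) * aeval t (QC i) * aeval t (QD i) : ℝ) * A i := fun i ↦ by
    have h0 := (hQA i).ne'
    rw [hPA i]
    simp only [map_mul]
    field_simp
  have eB : ∀ i, (aeval t (PB i * QA i * QC i * QD i) : ℝ) =
      (aeval t (QA i) * aeval t (QB i) * aeval t (QC i) * aeval t (QD i) : ℝ) * B i := fun i ↦ by
    have h0 := (hQB i).ne'
    rw [hPB i]
    simp only [map_mul]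
    field_simp
  have eC : ∀ i, (aeval t (PC i * QA i * QB i * QD i) : ℝ) =
      (aeval t (QA i) * aeval t (QB i) * aeval t (QC i) * aeval t (QD i) : ℝ) * C i := fun i ↦ by
    have h0 := (hQC i).ne'
    rw [hPC i]
    simp only [map_mul]
    field_simp
  have eD : ∀ i, (aeval t (PD i * QA i * QB i * QC i) : ℝ) =
      (aeval t (QA i) * aeval t (QB i) * aeval t (QC i) * aeval t (QD i) : ℝ) * D i := fun i ↦ by
    have h0 := (hQD i).ne'
    rw [hPD i]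
    simp only [map_mul]
    field_simp
  refine ⟨Orb.of t (fun i ↦ PA i * QB i * QC i * QD i) (fun i ↦ PB i * QA i * QC i * QD i)
    (fun i ↦ PC i * QA i * QB i * QD i) (fun i ↦ PD i * QA i * QB i * QC i) y c (fun i ↦ ?_),
    rfl, rfl, rfl, fun i ↦ ?_⟩
  · have h1 : (aeval t (PA i * QB i * QC i * QD i * (PD i * QA i * QB i * QC i) -
        PB i * QA i * QC i * QD i * (PC i * QA i * QB i * QD i)) : ℝ) =
        (aeval t (QA i) * aeval t (QB i) * aeval t (QC i) * aeval t (QD i) : ℝ) ^ 2 *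
          (A i * D i - B i * C i) := by
      rw [map_sub, map_mul _ (PA i * QB i * QC i * QD i), map_mul _ (PB i * QA i * QC i * QD i),
        eA, eB, eC, eD]
      ring
    rw [h1]
    exact mul_pos (pow_pos (key i) 2) (hdet i)
  · have hx : ∀ p : MvPolynomial (Fin m) ℤ, aeval (fun s ↦ ((t s : ℝ) : ℂ)) p =
        ((aeval t p : ℝ) : ℂ) := aeval_ofReal t
    change mob (aeval (fun s ↦ ((t s : ℝ) : ℂ)) _) (aeval (fun s ↦ ((t s : ℝ) : ℂ)) _)
      (aeval (fun s ↦ ((t s : ℝ) : ℂ)) _) (aeval (fun s ↦ ((t s : ℝ) : ℂ)) _) _ = _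
    rw [hx, hx, hx, hx]
    simp only
    rw [eA, eB, eC, eD, hz i, mob]
    set l : ℝ := (aeval t (QA i) * aeval t (QB i) * aeval t (QC i) * aeval t (QD i) : ℝ) with hl
    have hl0 : (l : ℂ) ≠ 0 := by exact_mod_cast (key i).ne'
    push_cast
    rw [show (l : ℂ) * A i * (y (c i) : ℂ) + l * B i = l * (A i * (y (c i) : ℂ) + B i) by ring,
      show (l : ℂ) * C i * (y (c i) : ℂ) + l * D i = l * (C i * (y (c i) : ℂ) + D i) by ring,
      mul_div_mul_left _ _ hl0]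

end AO

end S_H32_AO_Ob

section S_H32_AO_C0

set_option autoImplicit false

open UpperHalfPlane hiding I
open Complex EisensteinSeries ModularForm MatrixGroups Manifold
open scoped Real Topology
open MvPolynomial Filter

namespace AO

open H32 H32.T3 H32.T4

/-- The three numbers attached to each translate. -/
noncomputable def RW {m n : ℕ} (S : Orb m n 1) (s : Fin m → ℂ) (p : Fin n × Fin 3) : ℂ :=
  (![(aeval s (S.dt p.1) / S.den p.1 s) ^ 4 * e4 (S.φ p.1 s) * e4 (S.y 0 : ℂ) ^ 2 /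
        discriminant (S.y 0),
    (aeval s (S.dt p.1) / S.den p.1 s) ^ 6 * e6 (S.φ p.1 s) * e6 (S.y 0 : ℂ) /
        discriminant (S.y 0),
    ((aeval s (S.dt p.1) / S.den p.1 s) ^ 2 * e2 (S.φ p.1 s) - aeval s (S.dt p.1) * e2 (S.y 0 : ℂ) +
        6 * Complex.I * aeval s (S.dt p.1) * aeval s (S.pC p.1) / (π * S.den p.1 s)) *
      (e4 (S.y 0 : ℂ) * e6 (S.y 0 : ℂ)) / discriminant (S.y 0)] : Fin 3 → ℂ) p.2

/-- The family with the parameters. -/
noncomputable def WF {m n : ℕ} (S : Orb m n 1) (s : Fin m → ℂ) : (Fin n × Fin 3) ⊕ Fin m → ℂ :=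
  Sum.elim (RW S s) s

/-- no `φ_i` is rationally equivalent to the base point -/
def NE0 {m n : ℕ} (S : Orb m n 1) : Prop :=
  ∀ i, ¬ ∃ a b c d : ℚ, 0 < a * d - b * c ∧
    S.φ i S.x = ((a : ℂ) * (S.y 0 : ℂ) + b) / ((c : ℂ) * (S.y 0 : ℂ) + d)

/-- the `φ_i` are pairwise inequivalent -/
def NE1 {m n : ℕ} (S : Orb m n 1) : Prop :=
  ∀ i j, i ≠ j → ¬ ∃ a b c d : ℚ, 0 < a * d - b * c ∧
    S.φ j S.x = ((a : ℂ) * S.φ i S.x + b) / ((c : ℂ) * S.φ i S.x + d)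

lemma c_eq {m n : ℕ} (S : Orb m n 1) (i : Fin n) : S.c i = 0 := Subsingleton.elim _ _

end AO

end S_H32_AO_C0

section S_H32_AO_C1

set_option autoImplicit false

open UpperHalfPlane hiding I
open Complex EisensteinSeries ModularForm MatrixGroups Manifold
open scoped Real Topology
open MvPolynomial Filter

namespace AO

open H32 H32.T3 H32.T4

private lemma C1_formulas {m n : ℕ} (S : Orb m n 1) (i : Fin n) (σ : Fin m → ℂ) {q D : ℕ}
    (hq : (q : ℂ) ≠ 0) {a b c d : ℤ} {N : ℕ} (hN : 0 < N) (hdet : (N : ℤ) = a * d - b * c)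
    (τ' : ℍ) (hτ : (τ' : ℂ) = S.φ i σ)
    (ha : (a : ℂ) = (q : ℂ) ^ D * aeval σ (S.pA i)) (hb : (b : ℂ) = (q : ℂ) ^ D * aeval σ (S.pB i))
    (hc : (c : ℂ) = (q : ℂ) ^ D * aeval σ (S.pC i))
    (hd : (d : ℂ) = (q : ℂ) ^ D * aeval σ (S.pD i)) :
    (τ' : ℂ) = (a * (S.y 0 : ℂ) + b) / (c * (S.y 0 : ℂ) + d) ∧
        RW S σ (i, 0) * (q : ℂ) ^ (4 * D) =
          ((N : ℂ) / (c * (S.y 0 : ℂ) + d)) ^ 4 * E₄ τ' * E₄ (S.y 0) ^ 2 /
            discriminant (S.y 0) ∧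
        RW S σ (i, 1) * (q : ℂ) ^ (6 * D) =
          ((N : ℂ) / (c * (S.y 0 : ℂ) + d)) ^ 6 * E₆ τ' * E₆ (S.y 0) / discriminant (S.y 0) ∧
        RW S σ (i, 2) * (q : ℂ) ^ (2 * D) =
          (((N : ℂ) / (c * (S.y 0 : ℂ) + d)) ^ 2 * E2s τ' - N * E2s (S.y 0)) *
            (E₄ (S.y 0) * E₆ (S.y 0)) / discriminant (S.y 0) := by
  have hQ : (q : ℂ) ^ D ≠ 0 := pow_ne_zero _ hq
  have hci : S.y (S.c i) = S.y 0 := by rw [c_eq]
  have h1 : (τ' : ℂ) = (a * (S.y 0 : ℂ) + b) / (c * (S.y 0 : ℂ) + d) := by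
    rw [hτ, ha, hb, hc, hd, Orb.φ, mob, hci, mul_assoc, mul_assoc, ← mul_add, ← mul_add,
      mul_div_mul_left _ _ hQ]
  obtain ⟨hcd, hkey⟩ := im_key hN hdet (S.y 0) τ' h1
  have hden : (c : ℂ) * (S.y 0 : ℂ) + d = (q : ℂ) ^ D * S.den i σ := by
    rw [hc, hd, Orb.den, hci]
    ring
  have hden0 : S.den i σ ≠ 0 := by
    intro h0
    rw [hden, h0, mul_zero] at hcd
    exact hcd rfl
  have hNc : (N : ℂ) = ((q : ℂ) ^ D) ^ 2 * aeval σ (S.dt i) := by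
    have h2 := congrArg (fun z : ℤ ↦ (z : ℂ)) hdet
    push_cast at h2
    rw [h2, ha, hb, hc, hd, Orb.dt, map_sub, map_mul, map_mul]
    ring
  have hfrac : (N : ℂ) / (c * (S.y 0 : ℂ) + d) =
      (q : ℂ) ^ D * (aeval σ (S.dt i) / S.den i σ) := by
    rw [hNc, hden]
    field_simp
  have g2 : e2 τ' = E2 τ' := by rw [e2, ofComplex_apply]
  have g4 : e4 τ' = E₄ τ' := by rw [e4, ofComplex_apply]
  have g6 : e6 τ' = E₆ τ' := by rw [e6, ofComplex_apply]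
  have k2 : e2 (S.y 0) = E2 (S.y 0) := by rw [e2, ofComplex_apply]
  have k4 : e4 (S.y 0) = E₄ (S.y 0) := by rw [e4, ofComplex_apply]
  have k6 : e6 (S.y 0) = E₆ (S.y 0) := by rw [e6, ofComplex_apply]
  refine ⟨h1, ?_, ?_, ?_⟩
  · have e : RW S σ (i, 0) = (aeval σ (S.dt i) / S.den i σ) ^ 4 * e4 (S.φ i σ) *
        e4 (S.y 0 : ℂ) ^ 2 / discriminant (S.y 0) := rfl
    rw [e, hfrac, ← hτ, g4, k4]
    ring
  · have e : RW S σ (i, 1) = (aeval σ (S.dt i) / S.den i σ) ^ 6 * e6 (S.φ i σ) *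
        e6 (S.y 0 : ℂ) / discriminant (S.y 0) := rfl
    rw [e, hfrac, ← hτ, g6, k6]
    ring
  · have e : RW S σ (i, 2) = ((aeval σ (S.dt i) / S.den i σ) ^ 2 * e2 (S.φ i σ) -
        aeval σ (S.dt i) * e2 (S.y 0 : ℂ) +
        6 * Complex.I * aeval σ (S.dt i) * aeval σ (S.pC i) / (π * S.den i σ)) *
      (e4 (S.y 0 : ℂ) * e6 (S.y 0 : ℂ)) / discriminant (S.y 0) := rfl
    have hpi : (π : ℂ) ≠ 0 := by exact_mod_cast Real.pi_ne_zero
    have e1 : (((N : ℂ) / (c * (S.y 0 : ℂ) + d)) ^ 2 * E2s τ' - N * E2s (S.y 0)) =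
        ((N : ℂ) / (c * (S.y 0 : ℂ) + d)) ^ 2 * E2 τ' - N * E2 (S.y 0) +
          6 * Complex.I * N * c / (π * (c * (S.y 0 : ℂ) + d)) := by
      rw [E2s, E2s]
      linear_combination -hkey
    have e2' : 6 * Complex.I * N * c / (π * (c * (S.y 0 : ℂ) + d)) =
        ((q : ℂ) ^ D) ^ 2 * (6 * Complex.I * aeval σ (S.dt i) * aeval σ (S.pC i) /
          (π * S.den i σ)) := by
      rw [hden, hNc, hc]
      field_simp
    rw [e1, e2', e, hfrac, ← hτ, g2, k2, k4, k6, hNc]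
    ring

theorem rw_int {m n : ℕ} (S : Orb m n 1) : ∃ (C D : ℕ) (ε : ℝ), 0 < ε ∧
    ∀ (q : ℕ) (p : Fin m → ℤ), 1 ≤ q → (∀ s, |S.t s - p s / q| < ε) →
      (∀ s, |(p s : ℝ)| ≤ C * q) ∧
      ∀ i, ∃ (a b c d : ℤ) (N : ℕ) (τ' : ℍ), 0 < N ∧ (N : ℤ) = a * d - b * c ∧
        (N : ℝ) ≤ C * (q : ℝ) ^ (2 * D) ∧
        (τ' : ℂ) = (a * (S.y 0 : ℂ) + b) / (c * (S.y 0 : ℂ) + d) ∧
        RW S (fun s ↦ (p s : ℂ) / q) (i, 0) * (q : ℂ) ^ (4 * D) =
          ((N : ℂ) / (c * (S.y 0 : ℂ) + d)) ^ 4 * E₄ τ' * E₄ (S.y 0) ^ 2 /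
            discriminant (S.y 0) ∧
        RW S (fun s ↦ (p s : ℂ) / q) (i, 1) * (q : ℂ) ^ (6 * D) =
          ((N : ℂ) / (c * (S.y 0 : ℂ) + d)) ^ 6 * E₆ τ' * E₆ (S.y 0) / discriminant (S.y 0) ∧
        RW S (fun s ↦ (p s : ℂ) / q) (i, 2) * (q : ℂ) ^ (2 * D) =
          (((N : ℂ) / (c * (S.y 0 : ℂ) + d)) ^ 2 * E2s τ' - N * E2s (S.y 0)) *
            (E₄ (S.y 0) * E₆ (S.y 0)) / discriminant (S.y 0) := by
  obtain ⟨C, ε, hC2, hε, hnear⟩ := S.near
  set D : ℕ := ∑ i, ((S.pA i).totalDegree + (S.pB i).totalDegree + (S.pC i).totalDegree +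
    (S.pD i).totalDegree) with hD
  have hDi : ∀ i, (S.pA i).totalDegree + (S.pB i).totalDegree + (S.pC i).totalDegree +
      (S.pD i).totalDegree ≤ D := fun i ↦
    Finset.single_le_sum (f := fun i ↦ (S.pA i).totalDegree + (S.pB i).totalDegree +
      (S.pC i).totalDegree + (S.pD i).totalDegree) (fun _ _ ↦ Nat.zero_le _) (Finset.mem_univ i)
  refine ⟨2 * C ^ 2, D, ε, hε, fun q p hq hp ↦ ?_⟩
  have hC1 : (1 : ℝ) ≤ C := by
    have : (2 : ℝ) ≤ C := by exact_mod_cast hC2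
    linarith
  have hq0 : (0 : ℝ) < q := by exact_mod_cast hq
  obtain ⟨hu, hi⟩ := hnear (fun s ↦ (p s : ℝ) / q) hp
  refine ⟨fun s ↦ ?_, fun i ↦ ?_⟩
  · have h1 := hu s
    rw [abs_div, abs_of_pos hq0, div_le_iff₀ hq0] at h1
    refine h1.trans (mul_le_mul_of_nonneg_right ?_ hq0.le)
    push_cast
    nlinarith
  · obtain ⟨h0, hA, hB, hCC, hDD⟩ := hi i
    have hdi := hDi i
    obtain ⟨a, ha1, ha2, ha3⟩ := Orb.entries (D := D) hq p (S.pA i) (by omega) hA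
    obtain ⟨b, hb1, hb2, hb3⟩ := Orb.entries (D := D) hq p (S.pB i) (by omega) hB
    obtain ⟨c, hc1, hc2, hc3⟩ := Orb.entries (D := D) hq p (S.pC i) (by omega) hCC
    obtain ⟨d, hd1, hd2, hd3⟩ := Orb.entries (D := D) hq p (S.pD i) (by omega) hDD
    have hpos : (0 : ℝ) < (a : ℝ) * d - b * c := by
      rw [Orb.dt, map_sub, map_mul, map_mul] at h0
      rw [ha2, hb2, hc2, hd2]
      have h1 : (0 : ℝ) < ((q : ℝ) ^ D) ^ 2 := by positivity
      have h2 := mul_pos h1 h0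
      refine lt_of_lt_of_eq h2 ?_
      ring
    have hposZ : 0 < a * d - b * c := by exact_mod_cast hpos
    obtain ⟨N, hN⟩ := Int.eq_ofNat_of_zero_le hposZ.le
    have hN0 : 0 < N := by
      rw [hN] at hposZ
      exact_mod_cast hposZ
    have hNdet : (N : ℤ) = a * d - b * c := hN.symm
    obtain ⟨-, him⟩ := S.real_pos h0
    have hσ : (fun s ↦ (((p s : ℝ) / q : ℝ) : ℂ)) = fun s ↦ (p s : ℂ) / q := by
      funext s
      push_cast
      rfl
    rw [hσ] at him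
    have hqc : (q : ℂ) ≠ 0 := by exact_mod_cast hq0.ne'
    have hF := C1_formulas S i (fun s ↦ (p s : ℂ) / q) hqc hN0 hNdet ⟨_, him⟩ rfl ha3 hb3 hc3 hd3
    refine ⟨a, b, c, d, N, ⟨_, him⟩, hN0, hNdet, ?_, hF⟩
    have h1 : ((N : ℤ) : ℝ) = a * d - b * c := by
      rw [hNdet]
      push_cast
      ring
    have h2 : ∀ x : ℤ, |x| ≤ ((C * q ^ D : ℕ) : ℤ) → |(x : ℝ)| ≤ C * (q : ℝ) ^ D := by
      intro x hx
      exact_mod_cast hx
    have ha4 := h2 a ha1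
    have hb4 := h2 b hb1
    have hc4 := h2 c hc1
    have hd4 := h2 d hd1
    have h3 : |(a : ℝ) * d| ≤ (C * (q : ℝ) ^ D) * (C * (q : ℝ) ^ D) := by
      rw [abs_mul]
      exact mul_le_mul ha4 hd4 (abs_nonneg _) (by positivity)
    have h4 : |(b : ℝ) * c| ≤ (C * (q : ℝ) ^ D) * (C * (q : ℝ) ^ D) := by
      rw [abs_mul]
      exact mul_le_mul hb4 hc4 (abs_nonneg _) (by positivity)
    have h5 := (abs_le.1 h3).2
    have h6 := (abs_le.1 h4).1
    have h7 : ((2 * C ^ 2 : ℕ) : ℝ) * (q : ℝ) ^ (2 * D) =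
        2 * ((C * (q : ℝ) ^ D) * (C * (q : ℝ) ^ D)) := by
      push_cast
      ring
    rw [h7]
    have h8 : (N : ℝ) = a * d - b * c := by exact_mod_cast h1
    rw [h8]
    linarith

end AO

end S_H32_AO_C1
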