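import Mathlib
import Pool.Agent.H32.AKM.P19
import Pool.Agent.H32.AKM.P20
import Pool.Agent.H32.AKM.P22
import Pool.Agent.H32.AKM.P27

/-! Modular Schanuel with derivatives for points algebraic over a field with good approximations, part 28: this file joins several modules to save build time. -/

section S_H32_AK_A0

set_option autoImplicit false

namespace AK

open MvPolynomial

private theorem A0_quot {m : ℕ} (x : Fin m → ℂ) (a : ℂ)
    (ha : a ∈ IntermediateField.adjoin ℚ (Set.range x)) :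
    ∃ P Q : MvPolynomial (Fin m) ℤ, aeval x Q ≠ 0 ∧ a * aeval x Q = aeval x P := by
  induction ha using IntermediateField.adjoin_induction with
  | mem y hy =>
    obtain ⟨i, rfl⟩ := hy
    exact ⟨X i, 1, by simp, by simp⟩
  | algebraMap r =>
    refine ⟨C r.num, C (r.den : ℤ), ?_, ?_⟩
    · rw [aeval_C]
      simp
    · rw [aeval_C, aeval_C]
      have h1 : (r : ℂ) * (r.den : ℂ) = (r.num : ℂ) := by
        have h2 : (r : ℚ) * (r.den : ℚ) = (r.num : ℚ) := Rat.mul_den_eq_num r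
        exact_mod_cast h2
      simpa using h1
  | add y z hy hz h1 h2 =>
    obtain ⟨P, Q, hQ, hP⟩ := h1
    obtain ⟨P', Q', hQ', hP'⟩ := h2
    refine ⟨P * Q' + P' * Q, Q * Q', by rw [map_mul]; exact mul_ne_zero hQ hQ', ?_⟩
    rw [map_mul, map_add, map_mul, map_mul, ← hP, ← hP']
    ring
  | inv y hy h1 =>
    obtain ⟨P, Q, hQ, hP⟩ := h1
    by_cases h0 : y = 0
    · exact ⟨0, 1, by simp, by simp [h0]⟩
    · refine ⟨Q, P, ?_, ?_⟩
      · rw [← hP]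
        exact mul_ne_zero h0 hQ
      · rw [← hP, ← mul_assoc, inv_mul_cancel₀ h0, one_mul]
  | mul y z hy hz h1 h2 =>
    obtain ⟨P, Q, hQ, hP⟩ := h1
    obtain ⟨P', Q', hQ', hP'⟩ := h2
    refine ⟨P * P', Q * Q', by rw [map_mul]; exact mul_ne_zero hQ hQ', ?_⟩
    rw [map_mul, map_mul, ← hP, ← hP']
    ring

theorem alg_data {m : ℕ} (x : Fin m → ℂ) (y : ℂ)
    (h : IsAlgebraic (IntermediateField.adjoin ℚ (Set.range x)) y) :
    ∃ (d : ℕ) (G : ℕ → MvPolynomial (Fin m) ℤ),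
      ∑ j ∈ Finset.range (d + 1), aeval x (G j) * y ^ j = 0 ∧ aeval x (G d) ≠ 0 ∧
      ∑ j ∈ Finset.range (d + 1), (j : ℂ) * aeval x (G j) * y ^ (j - 1) ≠ 0 := by
  classical
  obtain ⟨p, hp⟩ : ∃ p, p = minpoly (IntermediateField.adjoin ℚ (Set.range x)) y := ⟨_, rfl⟩
  have hint : IsIntegral (IntermediateField.adjoin ℚ (Set.range x)) y := h.isIntegral
  have hp0 : Polynomial.aeval y p = 0 := by rw [hp]; exact minpoly.aeval _ _
  have hmon : p.Monic := by rw [hp]; exact minpoly.monic hint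
  have hsep : p.Separable := by rw [hp]; exact (minpoly.irreducible hint).separable
  have hder : Polynomial.aeval y p.derivative ≠ 0 := hsep.aeval_derivative_ne_zero hp0
  clear hp
  obtain ⟨d, hd⟩ : ∃ d, d = p.natDegree := ⟨_, rfl⟩
  choose P Q hQ hP using fun j : ℕ => A0_quot x ((p.coeff j : IntermediateField.adjoin ℚ (Set.range x)) : ℂ)
    (p.coeff j).2
  obtain ⟨c, hc⟩ : ∃ c : ℂ, c = ∏ i ∈ Finset.range (d + 1), aeval x (Q i) := ⟨_, rfl⟩
  have hc0 : c ≠ 0 := by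
    rw [hc]
    exact Finset.prod_ne_zero_iff.2 fun i _ => hQ i
  have hG : ∀ j ∈ Finset.range (d + 1), aeval x (P j * ∏ i ∈ (Finset.range (d + 1)).erase j, Q i) =
      c * ((p.coeff j : IntermediateField.adjoin ℚ (Set.range x)) : ℂ) := by
    intro j hj
    rw [map_mul, ← hP, map_prod, hc, ← Finset.mul_prod_erase _ _ hj]
    ring
  refine ⟨d, fun j => P j * ∏ i ∈ (Finset.range (d + 1)).erase j, Q i, ?_, ?_, ?_⟩
  · have h1 : ∑ j ∈ Finset.range (d + 1), aeval x (P j * ∏ i ∈ (Finset.range (d + 1)).erase j, Q i) * y ^ j =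
        c * Polynomial.aeval y p := by
      rw [Polynomial.aeval_eq_sum_range, Finset.mul_sum, ← hd]
      refine Finset.sum_congr rfl fun j hj => ?_
      rw [hG j hj, Algebra.smul_def, mul_assoc]
      rfl
    rw [h1, hp0, mul_zero]
  · rw [hG d (Finset.self_mem_range_succ d), hd, hmon.coeff_natDegree]
    simpa using hc0
  · have h1 : ∑ j ∈ Finset.range (d + 1), (j : ℂ) * aeval x (P j * ∏ i ∈ (Finset.range (d + 1)).erase j, Q i) *
        y ^ (j - 1) = c * Polynomial.aeval y p.derivative := by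
      rw [Polynomial.aeval_def, ← Polynomial.eval_map, ← Polynomial.derivative_map, Polynomial.derivative_eval,
        Polynomial.sum_over_range' _ _ (d + 1), Finset.mul_sum]
      · refine Finset.sum_congr rfl fun j hj => ?_
        rw [hG j hj, Polynomial.coeff_map]
        have e : (algebraMap (IntermediateField.adjoin ℚ (Set.range x)) ℂ) (p.coeff j) =
          ((p.coeff j : IntermediateField.adjoin ℚ (Set.range x)) : ℂ) := rfl
        rw [e]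
        ring
      · rw [Polynomial.natDegree_map, ← hd]
        exact Nat.lt_succ_self d
      · intro n
        ring
    rw [h1]
    exact mul_ne_zero hc0 hder

end AK

end S_H32_AK_A0

section S_H32_AK_A1

set_option autoImplicit false

open scoped Topology ContDiff

namespace AK

open MvPolynomial

private lemma A1_an {m : ℕ} (p : MvPolynomial (Fin m) ℤ) (s : Fin m → ℂ) :
    AnalyticAt ℂ (fun s : Fin m → ℂ ↦ aeval s p) s :=
  AnalyticAt.aeval_mvPolynomial (𝕜 := ℂ) (f := fun s : Fin m → ℂ ↦ s)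
    (fun i ↦ (ContinuousLinearMap.proj (R := ℂ) (φ := fun _ : Fin m ↦ ℂ) i).analyticAt s) p

theorem implicit_alg {m : ℕ} (x : Fin m → ℂ) (y : ℂ) (d : ℕ) (G : ℕ → MvPolynomial (Fin m) ℤ)
    (h0 : ∑ j ∈ Finset.range (d + 1), aeval x (G j) * y ^ j = 0)
    (h1 : ∑ j ∈ Finset.range (d + 1), (j : ℂ) * aeval x (G j) * y ^ (j - 1) ≠ 0) :
    ∃ Y : (Fin m → ℂ) → ℂ, AnalyticAt ℂ Y x ∧ Y x = y ∧
      ∀ᶠ s in 𝓝 x, ∑ j ∈ Finset.range (d + 1), aeval s (G j) * Y s ^ j = 0 := by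
  classical
  obtain ⟨f, hf⟩ : ∃ f : (Fin m → ℂ) × ℂ → ℂ, f = fun p =>
    ∑ j ∈ Finset.range (d + 1), aeval p.1 (G j) * p.2 ^ j := ⟨_, rfl⟩
  have han : AnalyticAt ℂ f (x, y) := by
    rw [hf]
    apply Finset.analyticAt_fun_sum
    intro j _
    apply AnalyticAt.fun_mul
    · exact AnalyticAt.fun_comp (g := fun s : Fin m → ℂ => aeval s (G j)) (A1_an (G j) x)
        analyticAt_fst
    · exact analyticAt_snd.pow j
  have hcd : ContDiffAt ℂ ω f (x, y) := han.contDiffAt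
  have hfd : HasFDerivAt f (fderiv ℂ f (x, y)) (x, y) := han.differentiableAt.hasFDerivAt
  have hin : HasFDerivAt (fun w : ℂ => ((x, w) : (Fin m → ℂ) × ℂ))
      (ContinuousLinearMap.inr ℂ (Fin m → ℂ) ℂ) y := hasFDerivAt_prodMk_right x y
  have hcomp : HasFDerivAt (fun w => f (x, w))
      (fderiv ℂ f (x, y) ∘L ContinuousLinearMap.inr ℂ (Fin m → ℂ) ℂ) y :=
    HasFDerivAt.comp (g := f) y hfd hin
  have hder : HasDerivAt (fun w => f (x, w))
      (∑ j ∈ Finset.range (d + 1), (j : ℂ) * aeval x (G j) * y ^ (j - 1)) y := by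
    rw [hf]
    apply HasDerivAt.fun_sum
    intro j _
    have h := (hasDerivAt_pow j y).const_mul (aeval x (G j))
    have e : aeval x (G j) * ((j : ℂ) * y ^ (j - 1)) = (j : ℂ) * aeval x (G j) * y ^ (j - 1) := by
      ring
    rw [e] at h
    exact h
  have heq := hcomp.unique hder.hasFDerivAt
  have hinv : (fderiv ℂ f (x, y) ∘L ContinuousLinearMap.inr ℂ (Fin m → ℂ) ℂ).IsInvertible := by
    rw [heq]
    refine ⟨ContinuousLinearEquiv.unitsEquivAut ℂ (Units.mk0 _ h1), ?_⟩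
    ext
    simp
  have hω : (ω : WithTop ℕ∞) ≠ 0 := by simp
  refine ⟨hcd.implicitFunction hω hinv, (hcd.contDiffAt_implicitFunction hω hinv).analyticAt,
    hcd.implicitFunction_apply_self hω hinv, ?_⟩
  have hev := hcd.eventually_apply_implicitFunction hω hinv
  have hfz : f (x, y) = 0 := by
    rw [hf]
    exact h0
  have hfe : ∀ s w, f (s, w) = ∑ j ∈ Finset.range (d + 1), aeval s (G j) * w ^ j := by
    intro s w
    rw [hf]
  filter_upwards [hev] with s hs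
  rw [hfz, hfe] at hs
  exact hs

end AK

end S_H32_AK_A1

section S_H32_AK_MO

set_option autoImplicit false

open UpperHalfPlane hiding I
open Complex EisensteinSeries ModularForm MatrixGroups Manifold
open scoped Real Topology
open MvPolynomial Filter

namespace AK

open H32 H32.T3 H32.T4 AO

/-- The discriminant as a function on `ℂ`. -/
noncomputable def dlt (w : ℂ) : ℂ := (e4 w ^ 3 - e6 w ^ 2) / 1728

lemma dlt_coe (τ : ℍ) : dlt τ = discriminant τ := by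
  rw [dlt, e4, e6, ofComplex_apply, discriminant_eq_E₄_cube_sub_E₆_sq]

lemma dlt_ne {w : ℂ} (hw : 0 < w.im) : dlt w ≠ 0 := by
  have h := dlt_coe ⟨w, hw⟩
  have h2 : dlt w = discriminant ⟨w, hw⟩ := h
  rw [h2]
  exact discriminant_ne_zero _

/-- The data. -/
structure MO (M n : ℕ) where
  /-- constructor -/
  of ::
  /-- the parameters -/
  x : Fin M → ℂ
  /-- entries -/
  pA : Fin n → MvPolynomial (Fin M) ℤ
  /-- entries -/
  pB : Fin n → MvPolynomial (Fin M) ℤ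
  /-- entries -/
  pC : Fin n → MvPolynomial (Fin M) ℤ
  /-- entries -/
  pD : Fin n → MvPolynomial (Fin M) ℤ
  /-- the base point -/
  Y : (Fin M → ℂ) → ℂ
  an : AnalyticAt ℂ Y x
  im0 : 0 < (Y x).im
  dn : ∀ i, aeval x (pC i) * Y x + aeval x (pD i) ≠ 0
  dt0 : ∀ i, aeval x (pA i * pD i - pB i * pC i) ≠ 0
  imφ : ∀ i, 0 < (mob (aeval x (pA i)) (aeval x (pB i)) (aeval x (pC i)) (aeval x (pD i)) (Y x)).im

namespace MO

variable {M n : ℕ} (S : MO M n)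

/-- The translates. -/
noncomputable def φ (i : Fin n) (s : Fin M → ℂ) : ℂ :=
  mob (aeval s (S.pA i)) (aeval s (S.pB i)) (aeval s (S.pC i)) (aeval s (S.pD i)) (S.Y s)

/-- The denominators. -/
noncomputable def den (i : Fin n) (s : Fin M → ℂ) : ℂ :=
  aeval s (S.pC i) * S.Y s + aeval s (S.pD i)

/-- The determinants. -/
noncomputable def dt (i : Fin n) : MvPolynomial (Fin M) ℤ := S.pA i * S.pD i - S.pB i * S.pC i

/-- All points. -/
noncomputable def ψ : Fin (n + 1) → (Fin M → ℂ) → ℂ := Fin.cons S.Y S.φ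

/-- The three numbers attached to each translate. -/
noncomputable def RW (s : Fin M → ℂ) (p : Fin n × Fin 3) : ℂ :=
  (![(aeval s (S.dt p.1) / S.den p.1 s) ^ 4 * e4 (S.φ p.1 s) * e4 (S.Y s) ^ 2 / dlt (S.Y s),
    (aeval s (S.dt p.1) / S.den p.1 s) ^ 6 * e6 (S.φ p.1 s) * e6 (S.Y s) / dlt (S.Y s),
    ((aeval s (S.dt p.1) / S.den p.1 s) ^ 2 * e2 (S.φ p.1 s) - aeval s (S.dt p.1) * e2 (S.Y s) +
        6 * Complex.I * aeval s (S.dt p.1) * aeval s (S.pC p.1) / (π * S.den p.1 s)) *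
      (e4 (S.Y s) * e6 (S.Y s)) / dlt (S.Y s)] : Fin 3 → ℂ) p.2

/-- The family with the parameters. -/
noncomputable def WF (s : Fin M → ℂ) : (Fin n × Fin 3) ⊕ Fin M → ℂ := Sum.elim (S.RW s) s

/-- Good parameters. -/
def Good (A q : ℕ) (r : Fin M → ℂ) : Prop :=
  0 < (S.Y r).im ∧ (∀ s, AlgB A ((q : ℝ) ^ A) (r s)) ∧ AlgB A ((q : ℝ) ^ A) (S.Y r) ∧
  ∀ i, ∃ a b c d : ℤ, 0 < a * d - b * c ∧
    (|(a : ℝ)| ≤ (q : ℝ) ^ (A + 1) ∧ |(b : ℝ)| ≤ (q : ℝ) ^ (A + 1) ∧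
      |(c : ℝ)| ≤ (q : ℝ) ^ (A + 1) ∧ |(d : ℝ)| ≤ (q : ℝ) ^ (A + 1)) ∧
    (a : ℂ) = (q : ℂ) ^ A * aeval r (S.pA i) ∧ (b : ℂ) = (q : ℂ) ^ A * aeval r (S.pB i) ∧
    (c : ℂ) = (q : ℂ) ^ A * aeval r (S.pC i) ∧ (d : ℂ) = (q : ℂ) ^ A * aeval r (S.pD i)

/-- Good approximations of every order. -/
def Seq (A : ℕ) : Prop :=
  ∀ κ : ℕ, ∃ (q : ℕ → ℕ) (r : ℕ → Fin M → ℂ), (∀ k, k + 2 ≤ q k) ∧
    (∀ k, S.Good A (q k) (r k) ∧ NCM (S.Y (r k))) ∧
    (∀ k, ‖r k - S.x‖ ≤ Real.exp (-(q k : ℝ) ^ κ)) ∧ Tendsto r atTop (𝓝 S.x) ∧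
    IsAlgebraic (Algebra.adjoin ℂ (Set.range fun s : Fin M ↦ mkU (fun k ↦ r k s)))
      (mkU (fun k ↦ S.Y (r k))) ∧
    AlgebraicIndependent ℂ (Sum.elim
      (fun p : Fin (n + 1) × Fin 3 ↦ mkU (fun k ↦ ee (S.ψ p.1 (r k)) p.2))
      (fun s : Fin M ↦ mkU (fun k ↦ r k s)))

lemma den_x (i : Fin n) : S.den i S.x ≠ 0 := S.dn i

lemma dt_x (i : Fin n) : aeval S.x (S.dt i) ≠ 0 := S.dt0 i

lemma im_φ (i : Fin n) : 0 < (S.φ i S.x).im := S.imφ i

lemma im_ψ (i : Fin (n + 1)) : 0 < (S.ψ i S.x).im := by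
  refine Fin.cases ?_ (fun i ↦ ?_) i
  · exact S.im0
  · exact S.im_φ i

lemma an_den (i : Fin n) : AnalyticAt ℂ (S.den i) S.x :=
  ((an_aeval _ _).fun_mul S.an).fun_add (an_aeval _ _)

lemma an_φ (i : Fin n) : AnalyticAt ℂ (S.φ i) S.x :=
  AnalyticAt.fun_div (((an_aeval _ _).fun_mul S.an).fun_add (an_aeval _ _))
    (S.an_den i) (S.den_x i)

lemma an_ψ (i : Fin (n + 1)) : AnalyticAt ℂ (S.ψ i) S.x := by
  refine Fin.cases ?_ (fun i ↦ ?_) i
  · exact S.an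
  · exact S.an_φ i

end MO

end AK

end S_H32_AK_MO

section S_H32_AK_A5

set_option autoImplicit false

open UpperHalfPlane hiding I
open Complex EisensteinSeries ModularForm MatrixGroups Manifold
open scoped Real Topology
open MvPolynomial Filter

namespace AK

open H32 H32.T3 H32.T4 AO

/-- the linear polynomial -/
private lemma A5_lin {A q : ℕ} (hA : 2 ≤ A) {C : ℕ} (hq : C + 1 ≤ q) (p : ℤ) (hp : |(p : ℝ)| ≤ C * q) :
    AlgB A ((q : ℝ) ^ A) ((p : ℂ) / q) := by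
  have hq0 : (q : ℤ) ≠ 0 := by
    have : q ≠ 0 := by omega
    exact_mod_cast this
  have hqC : (q : ℂ) ≠ 0 := by exact_mod_cast hq0
  obtain ⟨F, hF⟩ : ∃ F : Polynomial ℤ, F = Polynomial.C (q : ℤ) * Polynomial.X + Polynomial.C (-p) := ⟨_, rfl⟩
  have hdeg : F.natDegree ≤ 1 := by
    rw [hF]
    exact Polynomial.natDegree_linear_le
  have hc0 : F.coeff 0 = -p := by
    rw [hF]
    simp
  have hc1 : F.coeff 1 = q := by
    rw [hF, Polynomial.coeff_add, Polynomial.coeff_C_mul, Polynomial.coeff_X_one, Polynomial.coeff_C]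
    simp
  refine ⟨F, ?_, hdeg.trans (by omega), ?_, ?_⟩
  · intro h0
    rw [h0, Polynomial.coeff_zero] at hc1
    exact hq0 hc1.symm
  · unfold CZ.nr
    rw [Polynomial.sum_over_range' F (fun n => by simp) 2 (by omega), Finset.sum_range_succ,
      Finset.sum_range_succ, Finset.sum_range_zero, hc0, hc1]
    push_cast
    rw [abs_neg, zero_add, abs_of_nonneg (Nat.cast_nonneg q : (0 : ℝ) ≤ q)]
    have h1 : ((C : ℝ) + 1) ≤ q := by exact_mod_cast hq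
    have hq1 : (1 : ℝ) ≤ q := by
      have : (0 : ℝ) ≤ C := Nat.cast_nonneg _
      linarith
    calc |(p : ℝ)| + q ≤ C * q + q := by linarith
      _ = (C + 1) * q := by ring
      _ ≤ q * q := by
          apply mul_le_mul_of_nonneg_right h1
          linarith
      _ = (q : ℝ) ^ 2 := by ring
      _ ≤ (q : ℝ) ^ A := pow_le_pow_right₀ hq1 hA
  · rw [hF]
    simp only [map_add, map_mul, Polynomial.aeval_C, Polynomial.aeval_X, map_neg]
    rw [algebraMap_int_eq]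
    simp only [eq_intCast, Int.cast_natCast]
    field_simp
    ring

/-- the polynomial of the base point -/
private lemma A5_pol {A q D d C : ℕ} (hA : d + D + 1 ≤ A) (hq : (d + 1) * C + 1 ≤ q) (g : ℕ → ℤ)
    (hg : ∀ j ≤ d, |g j| ≤ ((C * q ^ D : ℕ) : ℤ)) (hd : g d ≠ 0) {w : ℂ}
    (hw : ∑ j ∈ Finset.range (d + 1), (g j : ℂ) * w ^ j = 0) :
    AlgB A ((q : ℝ) ^ A) w := by
  obtain ⟨F, hF⟩ : ∃ F : Polynomial ℤ, F = ∑ j ∈ Finset.range (d + 1),
    Polynomial.C (g j) * Polynomial.X ^ j := ⟨_, rfl⟩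
  have hco : ∀ j ≤ d, F.coeff j = g j := by
    intro j hj
    rw [hF, Polynomial.finsetSum_coeff, Finset.sum_eq_single j]
    · rw [Polynomial.coeff_C_mul_X_pow, if_pos rfl]
    · intro i _ hij
      rw [Polynomial.coeff_C_mul_X_pow, if_neg (Ne.symm hij)]
    · intro h
      exact absurd (Finset.mem_range.2 (by omega)) h
  have hdeg : F.natDegree ≤ d := by
    rw [hF]
    apply Polynomial.natDegree_sum_le_of_forall_le
    intro j hj
    have := Finset.mem_range.1 hj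
    exact (Polynomial.natDegree_C_mul_X_pow_le _ _).trans (by omega)
  refine ⟨F, ?_, hdeg.trans (by omega), ?_, ?_⟩
  · intro h0
    have h1 := hco d le_rfl
    rw [h0, Polynomial.coeff_zero] at h1
    exact hd h1.symm
  · unfold CZ.nr
    rw [Polynomial.sum_over_range' F (fun n => by simp) (d + 1) (by omega)]
    have hq1 : (1 : ℝ) ≤ q := by
      have : 1 ≤ q := by omega
      exact_mod_cast this
    have h2 : ∀ j ∈ Finset.range (d + 1), |((F.coeff j : ℤ) : ℝ)| ≤ C * (q : ℝ) ^ D := by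
      intro j hj
      have hj' : j ≤ d := by
        have := Finset.mem_range.1 hj
        omega
      rw [hco j hj']
      have := hg j hj'
      exact_mod_cast this
    have h4 : (((d + 1) * C : ℕ) : ℝ) ≤ q := by
      have : (d + 1) * C ≤ q := by omega
      exact_mod_cast this
    push_cast at h4
    calc ∑ j ∈ Finset.range (d + 1), |((F.coeff j : ℤ) : ℝ)| ≤
          ∑ _j ∈ Finset.range (d + 1), C * (q : ℝ) ^ D := Finset.sum_le_sum h2
      _ = ((d + 1) * C) * (q : ℝ) ^ D := by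
          rw [Finset.sum_const, Finset.card_range, nsmul_eq_mul]
          push_cast
          ring
      _ ≤ q * (q : ℝ) ^ D := by
          apply mul_le_mul_of_nonneg_right h4
          positivity
      _ = (q : ℝ) ^ (D + 1) := by ring
      _ ≤ (q : ℝ) ^ A := pow_le_pow_right₀ hq1 (by omega)
  · rw [hF, map_sum, ← hw]
    apply Finset.sum_congr rfl
    intro j _
    rw [map_mul, map_pow, Polynomial.aeval_C, Polynomial.aeval_X, algebraMap_int_eq, eq_intCast]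

theorem good_MO {M n : ℕ} (S : MO M n) (t : Fin M → ℝ) (hx : S.x = fun s ↦ (t s : ℂ))
    (hdet : ∀ i, 0 < (aeval t (S.dt i) : ℝ)) (d : ℕ) (G : ℕ → MvPolynomial (Fin M) ℤ)
    (hd : aeval S.x (G d) ≠ 0)
    (hG : ∀ᶠ s in 𝓝 S.x, ∑ j ∈ Finset.range (d + 1), aeval s (G j) * S.Y s ^ j = 0) :
    ∃ (A Q0 : ℕ) (ε : ℝ), 0 < ε ∧ ∀ (q : ℕ) (p : Fin M → ℤ), Q0 ≤ q →
      (∀ s, |t s - p s / q| < ε) → S.Good A q (fun s ↦ (p s : ℂ) / q) := by
  obtain ⟨C1, h1⟩ := bound_near t S.pA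
  obtain ⟨C2, h2⟩ := bound_near t S.pB
  obtain ⟨C3, h3⟩ := bound_near t S.pC
  obtain ⟨C4, h4⟩ := bound_near t S.pD
  obtain ⟨C5, h5⟩ := bound_near t (fun s : Fin M ↦ (X s : MvPolynomial (Fin M) ℤ))
  obtain ⟨C6, h6⟩ := bound_near t (fun j : Fin (d + 1) ↦ G j)
  have h7 : ∀ᶠ u in 𝓝 t, ∀ i, 0 < (aeval u (S.dt i) : ℝ) := by
    rw [eventually_all]
    intro i
    exact (aeval_cont (S.dt i)).continuousAt.eventually (lt_mem_nhds (hdet i))
  have hκ : Tendsto (fun (u : Fin M → ℝ) (s : Fin M) ↦ (u s : ℂ)) (𝓝 t) (𝓝 S.x) := by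
    rw [hx, tendsto_pi_nhds]
    intro s
    exact (Complex.continuous_ofReal.comp (continuous_apply s)).tendsto t
  have h8 : ∀ᶠ u in 𝓝 t, aeval (fun s : Fin M ↦ ((u s : ℝ) : ℂ)) (G d) ≠ 0 := by
    have h81 : ContinuousAt (fun s : Fin M → ℂ ↦ aeval s (G d)) S.x := (an_aeval (G d) S.x).continuousAt
    have h82 : ∀ᶠ s in 𝓝 S.x, aeval s (G d) ≠ 0 := h81.eventually_ne hd
    exact hκ.eventually h82
  have h9 : ∀ᶠ u in 𝓝 t, ∑ j ∈ Finset.range (d + 1), aeval (fun s : Fin M ↦ ((u s : ℝ) : ℂ)) (G j) *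
      S.Y (fun s : Fin M ↦ ((u s : ℝ) : ℂ)) ^ j = 0 := hκ.eventually hG
  have h10 : ∀ᶠ u in 𝓝 t, 0 < (S.Y (fun s : Fin M ↦ ((u s : ℝ) : ℂ))).im := by
    have h101 : ContinuousAt (fun s : Fin M → ℂ ↦ (S.Y s).im) S.x :=
      Complex.continuous_im.continuousAt.comp S.an.continuousAt
    have h102 : ∀ᶠ s in 𝓝 S.x, 0 < (S.Y s).im := h101.eventually (lt_mem_nhds S.im0)
    exact hκ.eventually h102
  obtain ⟨ε, hε, hb⟩ := Metric.eventually_nhds_iff_ball.mp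
    (h1.and (h2.and (h3.and (h4.and (h5.and (h6.and (h7.and (h8.and (h9.and h10)))))))))
  obtain ⟨C, hC⟩ : ∃ C : ℕ, C = C1 + C2 + C3 + C4 + C5 + C6 + 2 := ⟨_, rfl⟩
  obtain ⟨D, hD⟩ : ∃ D : ℕ, D = ∑ i, (S.pA i).totalDegree + ∑ i, (S.pB i).totalDegree +
    ∑ i, (S.pC i).totalDegree + ∑ i, (S.pD i).totalDegree +
    ∑ j ∈ Finset.range (d + 1), (G j).totalDegree := ⟨_, rfl⟩
  have hDA : ∀ i, (S.pA i).totalDegree ≤ D := fun i => by
    have := Finset.single_le_sum (f := fun i => (S.pA i).totalDegree) (fun _ _ ↦ Nat.zero_le _)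
      (Finset.mem_univ i)
    omega
  have hDB : ∀ i, (S.pB i).totalDegree ≤ D := fun i => by
    have := Finset.single_le_sum (f := fun i => (S.pB i).totalDegree) (fun _ _ ↦ Nat.zero_le _)
      (Finset.mem_univ i)
    omega
  have hDC : ∀ i, (S.pC i).totalDegree ≤ D := fun i => by
    have := Finset.single_le_sum (f := fun i => (S.pC i).totalDegree) (fun _ _ ↦ Nat.zero_le _)
      (Finset.mem_univ i)
    omega
  have hDD : ∀ i, (S.pD i).totalDegree ≤ D := fun i => by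
    have := Finset.single_le_sum (f := fun i => (S.pD i).totalDegree) (fun _ _ ↦ Nat.zero_le _)
      (Finset.mem_univ i)
    omega
  have hDG : ∀ j ≤ d, (G j).totalDegree ≤ D := fun j hj => by
    have := Finset.single_le_sum (f := fun j => (G j).totalDegree) (fun _ _ ↦ Nat.zero_le _)
      (Finset.mem_range.2 (Nat.lt_succ_of_le hj))
    rw [Nat.succ_eq_add_one] at this
    omega
  refine ⟨D + d + 2, 2 * C + 2 + (d + 1) * C, ε, hε, fun q p hq hp ↦ ?_⟩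
  obtain ⟨u, hu⟩ : ∃ u : Fin M → ℝ, u = fun s ↦ (p s : ℝ) / q := ⟨_, rfl⟩
  have hub : u ∈ Metric.ball t ε := by
    rw [Metric.mem_ball, dist_pi_lt_iff hε]
    intro s
    rw [dist_comm, Real.dist_eq, hu]
    exact hp s
  obtain ⟨k1, k2, k3, k4, k5, k6, k7, k8, k9, k10⟩ := hb u hub
  have hr : (fun s : Fin M ↦ ((u s : ℝ) : ℂ)) = fun s ↦ (p s : ℂ) / q := by
    funext s
    rw [hu]
    push_cast
    rfl
  rw [hr] at k8 k9 k10
  have hq1 : 1 ≤ q := by omega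
  have hqR : (1 : ℝ) ≤ q := by exact_mod_cast hq1
  have hCq : C ≤ q := by omega
  have p1 : (0 : ℝ) ≤ C1 := Nat.cast_nonneg _
  have p2 : (0 : ℝ) ≤ C2 := Nat.cast_nonneg _
  have p3 : (0 : ℝ) ≤ C3 := Nat.cast_nonneg _
  have p4 : (0 : ℝ) ≤ C4 := Nat.cast_nonneg _
  have p5 : (0 : ℝ) ≤ C5 := Nat.cast_nonneg _
  have p6 : (0 : ℝ) ≤ C6 := Nat.cast_nonneg _
  have hCR : (C : ℝ) = C1 + C2 + C3 + C4 + C5 + C6 + 2 := by
    rw [hC]
    push_cast
    ring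
  have ent : ∀ P : MvPolynomial (Fin M) ℤ, P.totalDegree ≤ D → |(aeval u P : ℝ)| ≤ C →
      ∃ a : ℤ, |(a : ℝ)| ≤ (q : ℝ) ^ (D + d + 2 + 1) ∧
        (a : ℝ) = (q : ℝ) ^ (D + d + 2) * aeval u P ∧
        (a : ℂ) = (q : ℂ) ^ (D + d + 2) * aeval (fun s ↦ (p s : ℂ) / q) P := by
    intro P hP hPC
    rw [hu] at hPC
    obtain ⟨a, ha1, ha2, ha3⟩ := Orb.entries hq1 p P (D := D + d + 2) (hP.trans (by omega)) hPC
    rw [← hu] at ha2
    refine ⟨a, ?_, ha2, ha3⟩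
    have e1 : |(a : ℝ)| ≤ C * (q : ℝ) ^ (D + d + 2) := by exact_mod_cast ha1
    refine e1.trans ?_
    rw [pow_succ, mul_comm]
    apply mul_le_mul_of_nonneg_left _ (by positivity)
    exact_mod_cast hCq
  refine ⟨k10, fun s ↦ ?_, ?_, fun i ↦ ?_⟩
  · apply A5_lin (C := C) (by omega) (by omega)
    have e1 := k5 s
    rw [aeval_X, hu] at e1
    simp only at e1
    rw [abs_div, div_le_iff₀ (by positivity), abs_of_nonneg (by positivity : (0 : ℝ) ≤ q)] at e1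
    refine e1.trans ?_
    apply mul_le_mul_of_nonneg_right _ (by positivity)
    linarith
  · have hg : ∀ j, ∃ a : ℤ, j ≤ d → |a| ≤ ((C * q ^ D : ℕ) : ℤ) ∧
        (a : ℂ) = (q : ℂ) ^ D * aeval (fun s ↦ (p s : ℂ) / q) (G j) := by
      intro j
      by_cases hj : j ≤ d
      · have e1 := k6 ⟨j, Nat.lt_succ_of_le hj⟩
        simp only at e1
        rw [hu] at e1
        obtain ⟨a, ha1, ha2, ha3⟩ := Orb.entries hq1 p (G j) (D := D) (hDG j hj)
          (C := C) (e1.trans (by linarith))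
        exact ⟨a, fun _ ↦ ⟨ha1, ha3⟩⟩
      · exact ⟨0, fun h ↦ absurd h hj⟩
    choose g hg using hg
    refine A5_pol (D := D) (d := d) (C := C) (by omega) (by omega) g (fun j hj ↦ (hg j hj).1) ?_ ?_
    · intro h0
      have e1 := (hg d le_rfl).2
      rw [h0, Int.cast_zero] at e1
      have hq0 : (q : ℂ) ≠ 0 := by
        have : q ≠ 0 := by omega
        exact_mod_cast this
      rcases mul_eq_zero.1 e1.symm with e2 | e2
      · exact pow_ne_zero _ hq0 e2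
      · exact k8 e2
    · rw [← mul_zero ((q : ℂ) ^ D), ← k9, Finset.mul_sum]
      apply Finset.sum_congr rfl
      intro j hj
      have hj' : j ≤ d := by
        have := Finset.mem_range.1 hj
        omega
      rw [(hg j hj').2, mul_assoc]
  · obtain ⟨a, ha1, ha2, ha3⟩ := ent (S.pA i) (hDA i) ((k1 i).trans (by linarith))
    obtain ⟨b, hb1, hb2, hb3⟩ := ent (S.pB i) (hDB i) ((k2 i).trans (by linarith))
    obtain ⟨c, hc1, hc2, hc3⟩ := ent (S.pC i) (hDC i) ((k3 i).trans (by linarith))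
    obtain ⟨e, he1, he2, he3⟩ := ent (S.pD i) (hDD i) ((k4 i).trans (by linarith))
    refine ⟨a, b, c, e, ?_, ⟨ha1, hb1, hc1, he1⟩, ha3, hb3, hc3, he3⟩
    have e1 : (0 : ℝ) < (a : ℝ) * e - b * c := by
      rw [ha2, hb2, hc2, he2]
      have e2 := k7 i
      unfold MO.dt at e2
      rw [map_sub, map_mul, map_mul] at e2
      have e3 : (q : ℝ) ^ (D + d + 2) * aeval u (S.pA i) * ((q : ℝ) ^ (D + d + 2) * aeval u (S.pD i)) -
          (q : ℝ) ^ (D + d + 2) * aeval u (S.pB i) * ((q : ℝ) ^ (D + d + 2) * aeval u (S.pC i)) =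
          ((q : ℝ) ^ (D + d + 2)) ^ 2 * (aeval u (S.pA i) * aeval u (S.pD i) -
            aeval u (S.pB i) * aeval u (S.pC i)) := by ring
      rw [e3]
      positivity
    exact_mod_cast e1

end AK

end S_H32_AK_A5

section S_H32_AK_A8

set_option autoImplicit false

open UpperHalfPlane hiding I
open Complex EisensteinSeries ModularForm MatrixGroups Manifold
open scoped Real Topology
open MvPolynomial Filter

namespace AK

open H32 H32.T3 H32.T4 AO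

theorem exists_MO {m n : ℕ} (t : Fin m → ℝ) (y : ℂ) (hy : 0 < y.im)
    (hya : IsAlgebraic (IntermediateField.adjoin ℚ (Set.range fun s ↦ (t s : ℂ))) y)
    (z : Fin n → ℂ) (hz : ∀ i, ∃ A ∈ IntermediateField.adjoin ℚ (Set.range t),
      ∃ B ∈ IntermediateField.adjoin ℚ (Set.range t),
      ∃ C ∈ IntermediateField.adjoin ℚ (Set.range t),
      ∃ D ∈ IntermediateField.adjoin ℚ (Set.range t), 0 < A * D - B * C ∧
        z i = ((A : ℂ) * y + (B : ℂ)) / ((C : ℂ) * y + (D : ℂ))) :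
    ∃ (S : MO m n) (d : ℕ) (G : ℕ → MvPolynomial (Fin m) ℤ), (S.x = fun s ↦ (t s : ℂ)) ∧
      S.Y S.x = y ∧ (∀ i, S.φ i S.x = z i) ∧ (∀ i, 0 < (aeval t (S.dt i) : ℝ)) ∧
      aeval S.x (G d) ≠ 0 ∧
      ∀ᶠ s in 𝓝 S.x, ∑ j ∈ Finset.range (d + 1), aeval s (G j) * S.Y s ^ j = 0 := by
  obtain ⟨S0, hSt, hSy, hSc, hSφ⟩ := exists_orb (b := 1) (t := t) (fun _ ↦ (⟨y, hy⟩ : ℍ))
    (fun _ ↦ 0) z hz
  obtain ⟨d, G, hG0, hGd, hG1⟩ := alg_data (fun s ↦ (t s : ℂ)) y hya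
  obtain ⟨Y, hYan, hYx, hY⟩ := implicit_alg _ y d G hG0 hG1
  have hx : S0.x = fun s ↦ (t s : ℂ) := by
    unfold Orb.x
    rw [hSt]
  have hyc : ∀ i, (S0.y (S0.c i) : ℂ) = y := by
    intro i
    rw [hSy]
  have hden : ∀ i, aeval (fun s ↦ (t s : ℂ)) (S0.pC i) * Y (fun s ↦ (t s : ℂ)) +
      aeval (fun s ↦ (t s : ℂ)) (S0.pD i) ≠ 0 := by
    intro i
    have h := S0.den_x i
    rw [Orb.den, hx, hyc] at h
    rw [hYx]
    exact h
  have hdt : ∀ i, aeval (fun s ↦ (t s : ℂ)) (S0.pA i * S0.pD i - S0.pB i * S0.pC i) ≠ 0 := by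
    intro i
    have h := S0.dt_x i
    rw [hx] at h
    exact h
  have him : ∀ i, 0 < (mob (aeval (fun s ↦ (t s : ℂ)) (S0.pA i))
      (aeval (fun s ↦ (t s : ℂ)) (S0.pB i)) (aeval (fun s ↦ (t s : ℂ)) (S0.pC i))
      (aeval (fun s ↦ (t s : ℂ)) (S0.pD i)) (Y (fun s ↦ (t s : ℂ)))).im := by
    intro i
    have h := S0.im_φ i
    rw [Orb.φ, hx, hyc] at h
    rw [hYx]
    exact h
  refine ⟨MO.of (fun s ↦ (t s : ℂ)) S0.pA S0.pB S0.pC S0.pD Y hYan (by rw [hYx]; exact hy) hden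
    hdt him, d, G, rfl, hYx, fun i ↦ ?_, fun i ↦ ?_, hGd, hY⟩
  · have h := hSφ i
    rw [Orb.φ, hx, hyc] at h
    rw [← h]
    exact congrArg (mob (aeval (fun s ↦ (t s : ℂ)) (S0.pA i))
      (aeval (fun s ↦ (t s : ℂ)) (S0.pB i)) (aeval (fun s ↦ (t s : ℂ)) (S0.pC i))
      (aeval (fun s ↦ (t s : ℂ)) (S0.pD i))) hYx
  · have h := S0.hdet i
    rw [hSt] at h
    exact h

end AK

end S_H32_AK_A8

section S_H32_AK_D2

set_option autoImplicit false

open UpperHalfPlane hiding I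
open Complex EisensteinSeries ModularForm MatrixGroups Manifold
open scoped Real Topology

namespace AK

open H32 H32.T3 H32.T4 AO

private theorem D2_scale {X Y : ℝ} {J w : ℂ} {M e q : ℕ} {f : ℤ} (hM : 0 < M) (hf : f ≠ 0) (hq : 1 ≤ q)
    (rr : ℕ → Polynomial ℤ) (h1 : rr M = Polynomial.C f) (h2 : ∀ i, (rr i).natDegree ≤ 2 * M)
    (h3 : ∀ i, H32.T3.nr (rr i) ≤ Real.exp Y)
    (h4 : ∑ i ∈ Finset.range (M + 1), Polynomial.aeval J (rr i) * (w * (q : ℂ) ^ e) ^ i = 0)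
    (hX : 2 * (M : ℝ) + e * M * Real.log q + Y ≤ X) (hY : 0 ≤ Y) : RootRel X J w := by
  have hq0 : (0 : ℝ) < q := by exact_mod_cast hq
  have hq1 : (1 : ℝ) ≤ q := by exact_mod_cast hq
  have hlog : 0 ≤ Real.log q := Real.log_nonneg hq1
  have hM0 : (0 : ℝ) ≤ M := Nat.cast_nonneg M
  have he0 : (0 : ℝ) ≤ e := Nat.cast_nonneg e
  have hp : 0 ≤ (e : ℝ) * M * Real.log q := by positivity
  refine ⟨M, fun i ↦ if i ≤ M then Polynomial.C ((q : ℤ) ^ (e * i)) * rr i else 0,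
    (q : ℤ) ^ (e * M) * f, hM, by linarith, ?_, ?_, ?_, ?_, ?_⟩
  · refine mul_ne_zero (pow_ne_zero _ ?_) hf
    have : q ≠ 0 := by omega
    exact_mod_cast this
  · simp only [le_refl, if_true]
    rw [h1, ← Polynomial.C_mul]
  · intro i
    simp only
    split_ifs with hi
    · have h5 : (Polynomial.C ((q : ℤ) ^ (e * i)) * rr i).natDegree ≤ 2 * M :=
        (Polynomial.natDegree_C_mul_le _ _).trans (h2 i)
      have h6 : ((Polynomial.C ((q : ℤ) ^ (e * i)) * rr i).natDegree : ℝ) ≤ 2 * M := by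
        exact_mod_cast h5
      linarith
    · rw [Polynomial.natDegree_zero, Nat.cast_zero]
      linarith
  · intro i
    change H32.T3.nr (if i ≤ M then Polynomial.C ((q : ℤ) ^ (e * i)) * rr i else 0) ≤ _
    split_ifs with hi
    · have h5 : H32.T3.nr (Polynomial.C ((q : ℤ) ^ (e * i)) * rr i) ≤
          |(((q : ℤ) ^ (e * i) : ℤ) : ℝ)| * H32.T3.nr (rr i) :=
        H32.T3.nr_monomial_mul 0 ((q : ℤ) ^ (e * i)) (rr i)
      refine h5.trans ?_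
      push_cast
      rw [abs_of_nonneg (by positivity)]
      have h6 : (q : ℝ) ^ (e * i) ≤ (q : ℝ) ^ (e * M) :=
        pow_le_pow_right₀ hq1 (Nat.mul_le_mul_left e hi)
      have h7 : (q : ℝ) ^ (e * M) = Real.exp (e * M * Real.log q) := by
        rw [← Real.rpow_natCast, Real.rpow_def_of_pos hq0]
        push_cast
        ring_nf
      calc (q : ℝ) ^ (e * i) * H32.T3.nr (rr i) ≤ (q : ℝ) ^ (e * M) * Real.exp Y :=
            mul_le_mul h6 (h3 i) (H32.T3.nr_nonneg _) (by positivity)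
        _ = Real.exp (e * M * Real.log q + Y) := by rw [h7, ← Real.exp_add]
        _ ≤ Real.exp X := Real.exp_le_exp.2 (by linarith)
    · rw [H32.T3.nr_zero]
      exact (Real.exp_pos _).le
  · rw [← h4]
    refine Finset.sum_congr rfl fun i hi ↦ ?_
    have hi' : i ≤ M := by
      have := Finset.mem_range.1 hi
      omega
    simp only [hi', if_true]
    rw [map_mul, Polynomial.aeval_C, mul_pow, ← pow_mul]
    simp only [algebraMap_int_eq, eq_intCast, Int.cast_pow, Int.cast_natCast]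
    ring

private theorem D2_size {D N M e q : ℕ} {K KN : ℝ} (hK : 0 ≤ K) (hq : 1 ≤ q) (hN : 0 < N)
    (hM : M ≤ N ^ 2) (he : e ≤ 6 * D) (hKN : 8 + K ≤ KN) :
    2 * (M : ℝ) + e * M * Real.log q + K * (N : ℝ) ^ 26 ≤ KN * (N : ℝ) ^ 26 * (D + 1) * q := by
  have hq1 : (1 : ℝ) ≤ q := by exact_mod_cast hq
  have hq0 : (0 : ℝ) < q := by linarith
  have hlog0 : 0 ≤ Real.log q := Real.log_nonneg hq1
  have hlog : Real.log q ≤ q := (Real.log_le_sub_one_of_pos hq0).trans (by linarith)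
  have hN1 : (1 : ℝ) ≤ N := by exact_mod_cast hN
  have hN2 : (N : ℝ) ^ 2 ≤ (N : ℝ) ^ 26 := pow_le_pow_right₀ hN1 (by norm_num)
  have hM1 : (M : ℝ) ≤ (N : ℝ) ^ 26 := by
    have h : (M : ℝ) ≤ (N : ℝ) ^ 2 := by exact_mod_cast hM
    exact h.trans hN2
  have he' : (e : ℝ) ≤ 6 * D := by exact_mod_cast he
  have hM0 : (0 : ℝ) ≤ M := Nat.cast_nonneg M
  have hD0 : (0 : ℝ) ≤ D := Nat.cast_nonneg D
  have hP0 : (0 : ℝ) ≤ (N : ℝ) ^ 26 := by positivity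
  set P : ℝ := (N : ℝ) ^ 26 with hP
  have hDq : (1 : ℝ) ≤ (D + 1) * q := by nlinarith
  have t1 : 2 * (M : ℝ) ≤ 2 * P * ((D + 1) * q) := by nlinarith
  have t2 : (e : ℝ) * M * Real.log q ≤ 6 * P * ((D + 1) * q) := by
    calc (e : ℝ) * M * Real.log q ≤ (6 * D) * P * q := by gcongr
      _ ≤ 6 * P * ((D + 1) * q) := by
        have h : 0 ≤ 6 * P * q := by positivity
        nlinarith
  have t3 : K * P ≤ K * P * ((D + 1) * q) := by
    have h : 0 ≤ K * P := by positivity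
    nlinarith
  have t4 : (8 + K) * (P * ((D + 1) * q)) ≤ KN * (P * ((D + 1) * q)) := by
    have h : 0 ≤ P * ((D + 1) * q) := by positivity
    exact mul_le_mul_of_nonneg_right hKN h
  calc 2 * (M : ℝ) + e * M * Real.log q + K * P ≤ (8 + K) * (P * ((D + 1) * q)) := by linarith
    _ ≤ KN * (P * ((D + 1) * q)) := t4
    _ = KN * P * (D + 1) * q := by ring

theorem rootRel_pt : ∃ K : ℕ, 1 ≤ K ∧ ∀ (τ τ' : ℍ) (a b c d : ℤ) (N q D : ℕ) (w0 w1 w2 : ℂ),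
    0 < N → (N : ℤ) = a * d - b * c → (τ' : ℂ) = (a * (τ : ℂ) + b) / (c * (τ : ℂ) + d) → 1 ≤ q →
    w0 * (q : ℂ) ^ (4 * D) =
      ((N : ℂ) / (c * (τ : ℂ) + d)) ^ 4 * E₄ τ' * E₄ τ ^ 2 / discriminant τ →
    w1 * (q : ℂ) ^ (6 * D) =
      ((N : ℂ) / (c * (τ : ℂ) + d)) ^ 6 * E₆ τ' * E₆ τ / discriminant τ →
    w2 * (q : ℂ) ^ (2 * D) =
      (((N : ℂ) / (c * (τ : ℂ) + d)) ^ 2 * E2s τ' - N * E2s τ) * (E₄ τ * E₆ τ) / discriminant τ →
    RootRel ((K : ℝ) * (N : ℝ) ^ 26 * (D + 1) * q) (jf τ) w0 ∧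
    RootRel ((K : ℝ) * (N : ℝ) ^ 26 * (D + 1) * q) (jf τ) w1 ∧
    RootRel ((K : ℝ) * (N : ℝ) ^ 26 * (D + 1) * q) (jf τ) w2 := by
  obtain ⟨KP, hKP, hP⟩ := H32.T3.rel_PQ
  obtain ⟨KT, hKT, hT⟩ := H32.T3.rel_all
  obtain ⟨K, hK⟩ := exists_nat_ge (8 + KP + KT)
  refine ⟨K, ?_, ?_⟩
  · have h : (1 : ℝ) ≤ K := by linarith
    exact_mod_cast h
  intro τ τ' a b c d N q D w0 w1 w2 hN hdet hτ hq e0 e1 e2
  obtain ⟨s, hs, x0, x1, x2⟩ := rat_eval hN hdet τ τ' hτ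
  obtain ⟨rP, rQ, a1, a2, a3, a4, a5, a6, a7, a8⟩ := hP N hN
  obtain ⟨rD, rT, -, b2, -, b4, -, b6, -, b8⟩ := hT N hN
  have hM : 0 < (SN N).card := H32.T3.one_le_card_SN hN
  have hM2 : (SN N).card ≤ N ^ 2 := H32.T3.card_SN_le hN
  have hf : (((SN N).card).factorial : ℤ) ≠ 0 := by
    exact_mod_cast (Nat.factorial_pos _).ne'
  refine ⟨?_, ?_, ?_⟩
  · have hz : ∑ i' ∈ Finset.range ((SN N).card + 1), Polynomial.aeval (jf τ) (rP i') *
        (w0 * (q : ℂ) ^ (4 * D)) ^ i' = 0 := by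
      rw [a7, Finset.prod_eq_zero hs, mul_zero]
      rw [e0, x0, pow_one, sub_self]
    exact D2_scale hM hf hq rP a1 a3 a5 hz
      (D2_size (by linarith) hq hN hM2 (by omega) (by linarith)) (by positivity)
  · have hz : ∑ i' ∈ Finset.range ((SN N).card + 1), Polynomial.aeval (jf τ) (rQ i') *
        (w1 * (q : ℂ) ^ (6 * D)) ^ i' = 0 := by
      rw [a8, Finset.prod_eq_zero hs, mul_zero]
      rw [e1, x1, pow_one, sub_self]
    exact D2_scale hM hf hq rQ a2 a4 a6 hz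
      (D2_size (by linarith) hq hN hM2 (by omega) (by linarith)) (by positivity)
  · have hz : ∑ i' ∈ Finset.range ((SN N).card + 1), Polynomial.aeval (jf τ) (rT i') *
        (w2 * (q : ℂ) ^ (2 * D)) ^ i' = 0 := by
      rw [b8, Finset.prod_eq_zero hs, mul_zero]
      rw [e2, x2, pow_one, sub_self]
    exact D2_scale hM hf hq rT b2 b4 b6 hz
      (D2_size (by linarith) hq hN hM2 (by omega) (by linarith)) (by positivity)

end AK

end S_H32_AK_D2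

section S_H32_AK_F1

set_option autoImplicit false
set_option linter.unusedSimpArgs false

open UpperHalfPlane hiding I
open Complex EisensteinSeries ModularForm MatrixGroups Manifold
open scoped Real Topology
open MvPolynomial Filter

namespace AK

open H32 H32.T3 H32.T4 AO

lemma F1_psi {Jv J1v J2v A2 B C : ℂ} (hB : B ≠ 0) (hC : C ≠ 0) (hD : B ^ 3 - C ^ 2 ≠ 0)
    (hJ : Jv = 1728 * B ^ 3 / (B ^ 3 - C ^ 2))
    (hJ1 : J1v = -1728 * (2 * π * Complex.I) * (B ^ 2 * C) / (B ^ 3 - C ^ 2))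
    (hJ2 : J2v = -1728 * (2 * π * Complex.I) ^ 2 * ((1 / 6) * A2 * B ^ 2 * C - (2 / 3) * B * C ^ 2 -
      (1 / 2) * B ^ 4) / (B ^ 3 - C ^ 2)) :
    2 * π * Complex.I * C / B = -J1v * Jv⁻¹ ∧
    A2 * B / C = ((6 : ℚ) : ℂ) * (((2 / 3 : ℚ) : ℂ) + ((1 / 2 : ℚ) : ℂ) * (Jv *
      (Jv - ((1728 : ℚ) : ℂ))⁻¹) - J2v * (Jv * (J1v * Jv⁻¹) ^ 2)⁻¹) := by
  have hpi : (π : ℂ) ≠ 0 := by exact_mod_cast Real.pi_ne_zero
  have hI0 : (Complex.I : ℂ) ≠ 0 := Complex.I_ne_zero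
  constructor
  · rw [hJ, hJ1]
    field_simp
  · have e1 : Jv - ((1728 : ℚ) : ℂ) = 1728 * C ^ 2 / (B ^ 3 - C ^ 2) := by
      rw [hJ]
      push_cast
      field_simp
      ring
    rw [e1, hJ, hJ1, hJ2]
    push_cast
    field_simp
    ring

lemma F1_Q (D : Subalgebra ℚ ℂ) (q : ℚ) : IsAlgebraic D (q : ℂ) :=
  (isAlgebraic_algebraMap (R := ℚ) (A := ℂ) q).extendScalars (algebraMap ℚ D).injective

lemma F1_wp {E4 E6 J : ℂ → ℂ}
    (h4 : ∀ τ : ℂ, E4 τ = 1 + 240 * ∑' m : ℕ, ((ArithmeticFunction.sigma 3 (m + 1) : ℕ) : ℂ) *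
      Complex.exp (2 * (Real.pi : ℂ) * Complex.I * ((m : ℂ) + 1) * τ))
    (h6 : ∀ τ : ℂ, E6 τ = 1 - 504 * ∑' m : ℕ, ((ArithmeticFunction.sigma 5 (m + 1) : ℕ) : ℂ) *
      Complex.exp (2 * (Real.pi : ℂ) * Complex.I * ((m : ℂ) + 1) * τ))
    (hJ : ∀ τ : ℂ, J τ = 1728 * E4 τ ^ 3 / (E4 τ ^ 3 - E6 τ ^ 2)) (D : Subalgebra ℚ ℂ)
    (w : ℂ) (h0 : 0 < w.im) (hB : e4 w ≠ 0) (hC : e6 w ≠ 0) (aJ : IsAlgebraic D (J w))
    (aJ1 : IsAlgebraic D (deriv J w)) (aJ2 : IsAlgebraic D (deriv (deriv J) w)) :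
    IsAlgebraic D (Wf w) ∧ IsAlgebraic D (ps w) := by
  obtain ⟨v0, v1, v2⟩ := J_values h4 h6 hJ h0
  obtain ⟨f1, f2⟩ := F1_psi hB hC disc_ne v0 v1 v2
  constructor
  · have e1 : Wf w = -deriv J w * (J w)⁻¹ := f1
    rw [e1]
    exact aJ1.neg.mul aJ.inv
  · have e1 : ps w = ((6 : ℚ) : ℂ) * (((2 / 3 : ℚ) : ℂ) + ((1 / 2 : ℚ) : ℂ) * (J w *
      (J w - ((1728 : ℚ) : ℂ))⁻¹) - deriv (deriv J) w *
        (J w * (deriv J w * (J w)⁻¹) ^ 2)⁻¹) := f2
    rw [e1]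
    exact (F1_Q D _).mul (((F1_Q D _).add ((F1_Q D _).mul (aJ.mul (aJ.sub (F1_Q D _)).inv))).sub
      (aJ2.mul (aJ.mul ((aJ1.mul aJ.inv).pow 2)).inv))

lemma F1_poly {m : ℕ} (D : Subalgebra ℚ ℂ) (x : Fin m → ℂ) (hD : ∀ s, IsAlgebraic D (x s))
    (p : MvPolynomial (Fin m) ℤ) : IsAlgebraic D (MvPolynomial.aeval x p) := by
  induction p using MvPolynomial.induction_on with
  | C c =>
    rw [MvPolynomial.aeval_C]
    have : algebraMap ℤ ℂ c = algebraMap ℚ ℂ (c : ℚ) := by simp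
    rw [this]
    exact (isAlgebraic_algebraMap (R := ℚ) (A := ℂ) _).extendScalars
      (algebraMap ℚ D).injective
  | add p q hp hq =>
    rw [map_add]
    exact hp.add hq
  | mul_X p s hp =>
    rw [map_mul, MvPolynomial.aeval_X]
    exact hp.mul (hD s)

lemma F1_quot (z y : ℂ) (k1 : e4 z ≠ 0) (k2 : e6 z ≠ 0) (k3 : e4 y ≠ 0) (k4 : e6 y ≠ 0) :
    e6 z / e4 z * (e4 y / e6 y) = Wf z * (Wf y)⁻¹ := by
  have hpi : (π : ℂ) ≠ 0 := by exact_mod_cast Real.pi_ne_zero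
  have hI := Complex.I_ne_zero
  rw [Wf, Wf]
  field_simp

lemma F1_r0 {A4 A6 B4 B6 Δ d h : ℂ} (hA4 : A4 ≠ 0) (hA6 : A6 ≠ 0) (hB4 : B4 ≠ 0) (hB6 : B6 ≠ 0)
    (hΔ : Δ ≠ 0) (hd : d ≠ 0) (hh : h ≠ 0) :
    (d / h) ^ 4 * A4 * B4 ^ 2 / Δ = (A4 ^ 3 / A6 ^ 2 * ((B4 ^ 3 / Δ) ^ 2 * (B6 ^ 2 / Δ)⁻¹)) *
      ((d * h⁻¹) ^ 2 * (A6 / A4 * (B4 / B6)) * (B6 ^ 2 / Δ * (B4 ^ 3 / Δ)⁻¹)) ^ 2 := by
  field_simp

lemma F1_r1 {A4 A6 B4 B6 Δ d h : ℂ} (hA4 : A4 ≠ 0) (hA6 : A6 ≠ 0) (hB4 : B4 ≠ 0) (hB6 : B6 ≠ 0)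
    (hΔ : Δ ≠ 0) (hd : d ≠ 0) (hh : h ≠ 0) :
    (d / h) ^ 6 * A6 * B6 / Δ = ((d / h) ^ 4 * A4 * B4 ^ 2 / Δ) *
      ((d * h⁻¹) ^ 2 * (A6 / A4 * (B4 / B6)) * (B6 ^ 2 / Δ * (B4 ^ 3 / Δ)⁻¹)) := by
  field_simp

lemma F1_r2 {A2 A4 A6 B2 B4 B6 Δ d h c p i : ℂ} (hA4 : A4 ≠ 0) (hA6 : A6 ≠ 0) (hB4 : B4 ≠ 0)
    (hB6 : B6 ≠ 0) (hΔ : Δ ≠ 0) (hd : d ≠ 0) (hh : h ≠ 0) (hp : p ≠ 0) (hi : i ≠ 0)
    (hi2 : i ^ 2 = -1) :
    ((d / h) ^ 2 * A2 - d * B2 + 6 * i * d * c / (p * h)) * (B4 * B6) / Δ =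
      (B6 ^ 2 / Δ) * ((d * h⁻¹) ^ 2 * (A2 * A4 / A6 * (A6 / A4 * (B4 / B6))) -
        d * (B2 * B4 / B6) - 12 * (d * c * (h * (2 * p * i * B6 / B4))⁻¹)) := by
  have e : (h * (2 * p * i * B6 / B4))⁻¹ = -(i * B4) / (2 * p * h * B6) := by
    rw [inv_eq_iff_eq_inv, inv_div, eq_div_iff (by
      apply neg_ne_zero.2
      exact mul_ne_zero hi hB4)]
    field_simp
    linear_combination (-1 : ℂ) * hi2
  rw [e]
  field_simp
  ring

theorem alg_RW {E4 E6 J : ℂ → ℂ}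
    (h4 : ∀ τ : ℂ, E4 τ = 1 + 240 * ∑' m : ℕ, ((ArithmeticFunction.sigma 3 (m + 1) : ℕ) : ℂ) *
      Complex.exp (2 * (Real.pi : ℂ) * Complex.I * ((m : ℂ) + 1) * τ))
    (h6 : ∀ τ : ℂ, E6 τ = 1 - 504 * ∑' m : ℕ, ((ArithmeticFunction.sigma 5 (m + 1) : ℕ) : ℂ) *
      Complex.exp (2 * (Real.pi : ℂ) * Complex.I * ((m : ℂ) + 1) * τ))
    (hJ : ∀ τ : ℂ, J τ = 1728 * E4 τ ^ 3 / (E4 τ ^ 3 - E6 τ ^ 2))
    {M n : ℕ} (S : MO M n) (y4 : e4 (S.Y S.x) ≠ 0) (y6 : e6 (S.Y S.x) ≠ 0) (i : Fin n)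
    (z4 : e4 (S.φ i S.x) ≠ 0) (z6 : e6 (S.φ i S.x) ≠ 0) (D : Subalgebra ℚ ℂ)
    (ax : ∀ s, IsAlgebraic D (S.x s)) (ay : IsAlgebraic D (S.Y S.x))
    (ay0 : IsAlgebraic D (J (S.Y S.x))) (ay1 : IsAlgebraic D (deriv J (S.Y S.x)))
    (ay2 : IsAlgebraic D (deriv (deriv J) (S.Y S.x)))
    (az0 : IsAlgebraic D (J (S.φ i S.x))) (az1 : IsAlgebraic D (deriv J (S.φ i S.x)))
    (az2 : IsAlgebraic D (deriv (deriv J) (S.φ i S.x))) (l : Fin 3) :
    IsAlgebraic D (S.RW S.x (i, l)) := by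
  have g0 : 0 < (S.Y S.x).im := S.im0
  have g4 : e4 (S.Y S.x) ≠ 0 := y4
  have g6 : e6 (S.Y S.x) ≠ 0 := y6
  have hΔ : dlt (S.Y S.x) ≠ 0 := dlt_ne S.im0
  have hd : aeval S.x (S.dt i) ≠ 0 := S.dt_x i
  have hη : S.den i S.x ≠ 0 := S.den_x i
  obtain ⟨aYW, aYp⟩ := F1_wp h4 h6 hJ D _ g0 g4 g6 ay0 ay1 ay2
  obtain ⟨aZW, aZp⟩ := F1_wp h4 h6 hJ D _ (S.im_φ i) z4 z6 az0 az1 az2
  have aP := F1_poly D S.x ax
  have ad : IsAlgebraic D (aeval S.x (S.dt i)) := aP _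
  have aη : IsAlgebraic D (S.den i S.x) := by
    have e : S.den i S.x = aeval S.x (S.pC i) * (S.Y S.x) + aeval S.x (S.pD i) := rfl
    rw [e]
    exact ((aP _).mul ay).add (aP _)
  -- the values of `j`
  have hdy := disc_ne (w := S.Y S.x)
  have hj : J (S.Y S.x) = e4 (S.Y S.x) ^ 3 / dlt (S.Y S.x) := by
    rw [(J_values h4 h6 hJ g0).1, dlt]
    field_simp
  have hj' : J (S.Y S.x) - ((1728 : ℚ) : ℂ) = e6 (S.Y S.x) ^ 2 / dlt (S.Y S.x) := by
    rw [(J_values h4 h6 hJ g0).1, dlt]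
    push_cast
    field_simp
    ring
  have hz : e4 (S.φ i S.x) ^ 3 / e6 (S.φ i S.x) ^ 2 =
      J (S.φ i S.x) * (J (S.φ i S.x) - ((1728 : ℚ) : ℂ))⁻¹ := by
    have hdz := disc_ne (w := S.φ i S.x)
    have e1 : J (S.φ i S.x) - ((1728 : ℚ) : ℂ) = 1728 * e6 (S.φ i S.x) ^ 2 /
        (e4 (S.φ i S.x) ^ 3 - e6 (S.φ i S.x) ^ 2) := by
      rw [(J_values h4 h6 hJ (S.im_φ i)).1]
      push_cast
      field_simp
      ring
    rw [e1, (J_values h4 h6 hJ (S.im_φ i)).1]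
    field_simp
  have aq : IsAlgebraic D (e4 (S.φ i S.x) ^ 3 / e6 (S.φ i S.x) ^ 2) := by
    rw [hz]
    exact az0.mul (az0.sub (F1_Q D _)).inv
  have aj : IsAlgebraic D (e4 (S.Y S.x) ^ 3 / dlt (S.Y S.x)) := by
    rw [← hj]
    exact ay0
  have aj' : IsAlgebraic D (e6 (S.Y S.x) ^ 2 / dlt (S.Y S.x)) := by
    rw [← hj']
    exact ay0.sub (F1_Q D _)
  have aw : IsAlgebraic D (e6 (S.φ i S.x) / e4 (S.φ i S.x) *
      (e4 (S.Y S.x) / e6 (S.Y S.x))) := by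
    rw [F1_quot _ _ z4 z6 g4 g6]
    exact aZW.mul aYW.inv
  have aPP : IsAlgebraic D ((aeval S.x (S.dt i) * (S.den i S.x)⁻¹) ^ 2 *
      (e6 (S.φ i S.x) / e4 (S.φ i S.x) * (e4 (S.Y S.x) / e6 (S.Y S.x))) *
      (e6 (S.Y S.x) ^ 2 / dlt (S.Y S.x) *
        (e4 (S.Y S.x) ^ 3 / dlt (S.Y S.x))⁻¹)) :=
    (((ad.mul aη.inv).pow 2).mul aw).mul (aj'.mul aj.inv)
  have aR0 : IsAlgebraic D ((aeval S.x (S.dt i) / S.den i S.x) ^ 4 * e4 (S.φ i S.x) *
      e4 (S.Y S.x) ^ 2 / dlt (S.Y S.x)) := by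
    rw [F1_r0 z4 z6 g4 g6 hΔ hd hη]
    exact (aq.mul ((aj.pow 2).mul aj'.inv)).mul (aPP.pow 2)
  fin_cases l
  · exact aR0
  · change IsAlgebraic D ((aeval S.x (S.dt i) / S.den i S.x) ^ 6 * e6 (S.φ i S.x) *
      e6 (S.Y S.x) / dlt (S.Y S.x))
    rw [F1_r1 z4 z6 g4 g6 hΔ hd hη]
    exact aR0.mul aPP
  · change IsAlgebraic D (((aeval S.x (S.dt i) / S.den i S.x) ^ 2 * e2 (S.φ i S.x) -
      aeval S.x (S.dt i) * e2 (S.Y S.x) +
        6 * Complex.I * aeval S.x (S.dt i) * aeval S.x (S.pC i) / (π * S.den i S.x)) *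
      (e4 (S.Y S.x) * e6 (S.Y S.x)) / dlt (S.Y S.x))
    have hpi : (π : ℂ) ≠ 0 := by exact_mod_cast Real.pi_ne_zero
    rw [F1_r2 z4 z6 g4 g6 hΔ hd hη hpi Complex.I_ne_zero Complex.I_sq]
    have e12 : (12 : ℂ) = ((12 : ℚ) : ℂ) := by norm_num
    rw [e12]
    exact aj'.mul (((((ad.mul aη.inv).pow 2).mul (aZp.mul aw)).sub (ad.mul aYp)).sub
      ((F1_Q D _).mul ((ad.mul (aP _)).mul (aη.mul aYW).inv)))

end AK

end S_H32_AK_F1

section S_H32_AK_F2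

set_option autoImplicit false

open UpperHalfPlane hiding I
open Complex EisensteinSeries ModularForm MatrixGroups Manifold
open scoped Real Topology
open MvPolynomial Filter

namespace AK

open H32 H32.T3 H32.T4 AO

/-- Passing from the field to the ring generated by a set. -/
private theorem F2_adj {T : Set ℂ} {z : ℂ} (h : IsAlgebraic (IntermediateField.adjoin ℚ T) z) :
    IsAlgebraic (Algebra.adjoin ℚ T) z := by
  open scoped IntermediateField.algebraAdjoinAdjoin in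
  exact (IsFractionRing.isAlgebraic_iff (Algebra.adjoin ℚ T) (IntermediateField.adjoin ℚ T) ℂ).2 h

theorem final_MO {E4 E6 J : ℂ → ℂ}
    (h4 : ∀ τ : ℂ, E4 τ = 1 + 240 * ∑' m : ℕ, ((ArithmeticFunction.sigma 3 (m + 1) : ℕ) : ℂ) *
      Complex.exp (2 * (Real.pi : ℂ) * Complex.I * ((m : ℂ) + 1) * τ))
    (h6 : ∀ τ : ℂ, E6 τ = 1 - 504 * ∑' m : ℕ, ((ArithmeticFunction.sigma 5 (m + 1) : ℕ) : ℂ) *
      Complex.exp (2 * (Real.pi : ℂ) * Complex.I * ((m : ℂ) + 1) * τ))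
    (hJ : ∀ τ : ℂ, J τ = 1728 * E4 τ ^ 3 / (E4 τ ^ 3 - E6 τ ^ 2))
    {M n : ℕ} (S : MO M n) (y4 : e4 (S.Y S.x) ≠ 0) (y6 : e6 (S.Y S.x) ≠ 0)
    (hya : IsAlgebraic (IntermediateField.adjoin ℚ (Set.range S.x)) (S.Y S.x)) (θ : ℂ)
    (hθ : θ = deriv J (S.Y S.x) ∨ θ = deriv (deriv J) (S.Y S.x))
    (hind : AlgebraicIndependent ℚ
      (Sum.elim (fun _ : Unit ↦ θ) (Sum.elim (S.WF S.x) (fun _ : Unit ↦ jc (S.Y S.x)))))
    {ρ : ℕ} (g : Fin ρ → Fin (n + 1))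
    (hg : AlgebraicIndependent ℚ (fun k ↦ S.ψ (g k) S.x)) :
    ∃ f : Fin (3 * (n + 1) + ρ - 1) → Fin (n + 1) × Fin 4, AlgebraicIndependent ℚ (fun k ↦
      (![S.ψ (f k).1 S.x, J (S.ψ (f k).1 S.x), deriv J (S.ψ (f k).1 S.x),
        deriv (deriv J) (S.ψ (f k).1 S.x)] : Fin 4 → ℂ) (f k).2) := by
  classical
  set N := AlgebraicIndependent.matroid ℚ ℂ with hN
  set S4 : Fin (n + 1) × Fin 4 → ℂ := fun u ↦
    (![S.ψ u.1 S.x, J (S.ψ u.1 S.x), deriv J (S.ψ u.1 S.x), deriv (deriv J) (S.ψ u.1 S.x)] :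
      Fin 4 → ℂ) u.2 with hS4
  set T : Set ℂ := Set.range S.x with hT
  set D : Subalgebra ℚ ℂ := Algebra.adjoin ℚ (Set.range S4 ∪ T) with hD
  have hgen : ∀ v ∈ Set.range S4 ∪ T, IsAlgebraic D v := by
    intro v hv
    exact isAlgebraic_algebraMap (⟨v, Algebra.subset_adjoin hv⟩ : D)
  have hψ0 : S.ψ 0 = S.Y := rfl
  have hψs : ∀ i : Fin n, S.ψ i.succ = S.φ i := fun i ↦ rfl
  have ayJ : IsAlgebraic D (S.Y S.x) ∧ IsAlgebraic D (J (S.Y S.x)) ∧
      IsAlgebraic D (deriv J (S.Y S.x)) ∧ IsAlgebraic D (deriv (deriv J) (S.Y S.x)) :=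
    ⟨hgen _ (Or.inl ⟨(0, 0), rfl⟩), hgen _ (Or.inl ⟨(0, 1), rfl⟩),
      hgen _ (Or.inl ⟨(0, 2), rfl⟩), hgen _ (Or.inl ⟨(0, 3), rfl⟩)⟩
  have hφ : ∀ i, e4 (S.φ i S.x) ≠ 0 ∧ e6 (S.φ i S.x) ≠ 0 := by
    intro i
    constructor
    · intro h0
      have h1 : S.RW S.x (i, 0) ≠ 0 := hind.ne_zero (Sum.inr (Sum.inl (Sum.inl (i, 0))))
      apply h1
      simp [MO.RW, h0]
    · intro h0
      have h1 : S.RW S.x (i, 1) ≠ 0 := hind.ne_zero (Sum.inr (Sum.inl (Sum.inl (i, 1))))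
      apply h1
      simp [MO.RW, h0]
  have ax : ∀ s, IsAlgebraic D (S.x s) := fun s ↦ hgen _ (Or.inr ⟨s, rfl⟩)
  have aRW : ∀ p, IsAlgebraic D (S.RW S.x p) := by
    rintro ⟨i, l⟩
    exact alg_RW h4 h6 hJ S y4 y6 i (hφ i).1 (hφ i).2 D ax ayJ.1 ayJ.2.1 ayJ.2.2.1 ayJ.2.2.2
      (hgen _ (Or.inl ⟨(i.succ, 1), rfl⟩)) (hgen _ (Or.inl ⟨(i.succ, 2), rfl⟩))
      (hgen _ (Or.inl ⟨(i.succ, 3), rfl⟩)) l
  -- the rank of the numbers
  set F : Unit ⊕ (((Fin n × Fin 3) ⊕ Fin M) ⊕ Unit) → ℂ :=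
    Sum.elim (fun _ : Unit ↦ θ) (Sum.elim (S.WF S.x) (fun _ : Unit ↦ jc (S.Y S.x))) with hF
  have hindM : N.Indep (Set.range F) := by
    rw [hN, AlgebraicIndependent.matroid_indep_iff]
    exact hind.to_subtype_range
  have hcardI : Fintype.card (Unit ⊕ (((Fin n × Fin 3) ⊕ Fin M) ⊕ Unit)) = 3 * n + M + 2 := by
    simp only [Fintype.card_sum, Fintype.card_prod, Fintype.card_fin, Fintype.card_unit]
    ring
  have hcard : (Set.range F).encard = ((3 * n + M + 2 : ℕ) : ℕ∞) := by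
    rw [← Set.image_univ, hind.injective.encard_image, Set.encard_univ,
      ENat.card_eq_coe_fintype_card, hcardI]
  have hsub : Set.range F ⊆ N.closure (Set.range S4 ∪ T) := by
    rw [hN, AlgebraicIndependent.matroid_closure_eq]
    rintro _ ⟨u, rfl⟩
    change IsAlgebraic D (F u)
    rcases u with u | (u | s) | u
    · change IsAlgebraic D θ
      rcases hθ with h | h
      · rw [h]
        exact ayJ.2.2.1
      · rw [h]
        exact ayJ.2.2.2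
    · exact aRW u
    · exact ax s
    · change IsAlgebraic D (jc (S.Y S.x))
      have hjy : jc (S.Y S.x) = J (S.Y S.x) := (J_values h4 h6 hJ S.im0).1.symm
      rw [hjy]
      exact ayJ.2.1
  have h1 : ((3 * n + M + 2 : ℕ) : ℕ∞) ≤ N.eRk (Set.range S4 ∪ T) := by
    rw [← N.eRk_closure_eq, ← hcard]
    exact hindM.encard_le_eRk_of_subset hsub
  -- the rank of the points
  set Z : Set ℂ := Set.range (fun u : Fin (n + 1) ↦ S4 (u, 0)) with hZ
  have hY : N.Indep (Set.range (fun k ↦ S4 (g k, 0))) := by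
    rw [hN, AlgebraicIndependent.matroid_indep_iff]
    exact (show AlgebraicIndependent ℚ (fun k ↦ S4 (g k, 0)) from hg).to_subtype_range
  have hYcard : (Set.range (fun k ↦ S4 (g k, 0))).encard = (ρ : ℕ) := by
    rw [← Set.image_univ, (show AlgebraicIndependent ℚ (fun k ↦ S4 (g k, 0)) from
      hg).injective.encard_image, Set.encard_univ]
    simp
  have h2 : (ρ : ℕ∞) ≤ N.eRk (Set.range S4 ∩ (Z ∪ T)) := by
    rw [← hYcard]
    refine hY.encard_le_eRk_of_subset ?_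
    rintro _ ⟨k, rfl⟩
    exact ⟨⟨(g k, 0), rfl⟩, Or.inl ⟨g k, rfl⟩⟩
  have aP0 : ∀ (D' : Subalgebra ℚ ℂ) (_ : ∀ s, IsAlgebraic D' (S.x s))
      (p : MvPolynomial (Fin M) ℤ), IsAlgebraic D' (MvPolynomial.aeval S.x p) := by
    intro D' hD' p
    induction p using MvPolynomial.induction_on with
    | C c =>
      rw [MvPolynomial.aeval_C]
      have : algebraMap ℤ ℂ c = algebraMap ℚ ℂ (c : ℚ) := by simp
      rw [this]
      exact (isAlgebraic_algebraMap (R := ℚ) (A := ℂ) _).extendScalars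
        (algebraMap ℚ D').injective
    | add p q hp hq =>
      rw [map_add]
      exact hp.add hq
    | mul_X p s hp =>
      rw [map_mul, MvPolynomial.aeval_X]
      exact hp.mul (hD' s)
  have hZT : Z ⊆ N.closure T := by
    rw [hN, AlgebraicIndependent.matroid_closure_eq]
    rintro _ ⟨u, rfl⟩
    set DT : Subalgebra ℚ ℂ := Algebra.adjoin ℚ T with hDT
    have hgT : ∀ v ∈ T, IsAlgebraic DT v := by
      intro v hv
      exact isAlgebraic_algebraMap (⟨v, Algebra.subset_adjoin hv⟩ : DT)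
    have ayT : IsAlgebraic DT (S.Y S.x) := F2_adj hya
    have aPT := aP0 DT (fun s ↦ hgT _ ⟨s, rfl⟩)
    change IsAlgebraic DT (S.ψ u S.x)
    refine Fin.cases ?_ (fun i ↦ ?_) u
    · exact ayT
    · change IsAlgebraic DT (S.φ i S.x)
      rw [MO.φ, mob, div_eq_mul_inv]
      exact (((aPT _).mul ayT).add (aPT _)).mul (((aPT _).mul ayT).add (aPT _)).inv
  have hTr : N.eRk T ≤ ((M : ℕ) : ℕ∞) := by
    calc N.eRk (Set.range S.x) ≤ (Set.range S.x).encard := N.eRk_le_encard _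
      _ ≤ (Set.univ : Set (Fin M)).encard := by
        rw [← Set.image_univ]
        exact Set.encard_image_le _ _
      _ = M := by simp
  have h3 : N.eRk (Z ∪ T) ≤ ((M : ℕ) : ℕ∞) := by
    calc N.eRk (Z ∪ T) ≤ N.eRk (N.closure T) := by
          refine N.eRk_mono (Set.union_subset hZT ?_)
          refine N.subset_closure _ ?_
          rw [hN]
          exact Set.subset_univ _
      _ = N.eRk T := N.eRk_closure_eq _
      _ ≤ _ := hTr
  have h5 := N.eRk_submod (Set.range S4) (Z ∪ T)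
  have h7 : N.eRk (Set.range S4 ∪ T) ≤ N.eRk (Set.range S4 ∪ (Z ∪ T)) :=
    N.eRk_mono (Set.union_subset_union_right _ Set.subset_union_right)
  have h8 : (ρ : ℕ∞) + ((3 * n + M + 2 : ℕ) : ℕ∞) ≤
      N.eRk (Set.range S4) + ((M : ℕ) : ℕ∞) :=
    (add_le_add h2 (h1.trans h7)).trans (h5.trans (add_le_add le_rfl h3))
  obtain ⟨B', hB'⟩ := N.exists_isBasis (Set.range S4) (by rw [hN]; exact Set.subset_univ _)
  have hBsub : B' ⊆ Set.range S4 := hB'.subset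
  have hBfin : B'.Finite := (Set.finite_range S4).subset hBsub
  rw [← hB'.encard_eq_eRk] at h8
  refine extract_indep' S4 (B := B') ?_ hBsub ?_
  · have := hB'.indep
    rw [hN, AlgebraicIndependent.matroid_indep_iff] at this
    exact this
  · rw [hBfin.encard_eq_coe_toFinset_card] at h8 ⊢
    have h9 : ρ + (3 * n + M + 2) ≤ hBfin.toFinset.card + M := by
      exact_mod_cast h8
    have h10 : 3 * (n + 1) + ρ - 1 ≤ hBfin.toFinset.card := by omega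
    exact_mod_cast h10

end AK

end S_H32_AK_F2
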