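import Mathlib
import Pool.Agent.H32.AKM.P27
import Pool.Agent.H32.AKM.P28

/-! Modular Schanuel with derivatives for points algebraic over a field with good approximations, part 29: this file joins several modules to save build time. -/

section S_H32_AK_A2

set_option autoImplicit false

open UpperHalfPlane hiding I
open Complex EisensteinSeries ModularForm MatrixGroups Manifold
open scoped Real Topology
open MvPolynomial Filter

namespace AK

open H32 H32.T3 H32.T4 AO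

private lemma A2_pow {f : ℂ → ℂ} (hf : MeromorphicAt f 0) (j : ℕ) :
    mk f hf ^ j = mk (fun ζ ↦ f ζ ^ j) (hf.fun_pow j) := by
  induction j with
  | zero =>
    rw [pow_zero, ← mk_one, mk_eq_mk]
    exact Eventually.of_forall fun ζ ↦ by simp
  | succ j ih =>
    rw [pow_succ, ih, mk_mul, mk_eq_mk]
    exact Eventually.of_forall fun ζ ↦ by simp [pow_succ]

private lemma A2_sum (n : ℕ) (g : ℕ → ℂ → ℂ) (hg : ∀ j, MeromorphicAt (g j) 0)
    (h0 : ∀ᶠ ζ in NE, ∑ j ∈ Finset.range n, g j ζ = 0) :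
    ∑ j ∈ Finset.range n, mk (g j) (hg j) = 0 := by
  have hs : ∀ n : ℕ, MeromorphicAt (fun ζ ↦ ∑ j ∈ Finset.range n, g j ζ) 0 := fun n ↦
    MeromorphicAt.fun_sum fun j _ ↦ hg j
  have key : ∀ n : ℕ, ∑ j ∈ Finset.range n, mk (g j) (hg j) = mk _ (hs n) := by
    intro n
    induction n with
    | zero =>
      rw [Finset.sum_range_zero, ← mk_zero, mk_eq_mk]
      exact Eventually.of_forall fun ζ ↦ by simp
    | succ n ih =>
      rw [Finset.sum_range_succ, ih, mk_add, mk_eq_mk]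
      exact Eventually.of_forall fun ζ ↦ by
        change _ = ∑ j ∈ Finset.range (n + 1), g j ζ
        rw [Finset.sum_range_succ]
  rw [key, mk_eq_zero]
  exact h0

theorem alg_germ {M : ℕ} (x : Fin M → ℂ) (f : (Fin M → ℂ) → ℂ) (d : ℕ)
    (G : ℕ → MvPolynomial (Fin M) ℤ) (hd : aeval x (G d) ≠ 0)
    (hG : ∀ᶠ s in 𝓝 x, ∑ j ∈ Finset.range (d + 1), aeval s (G j) * f s ^ j = 0)
    (v : Fin M → ℂ) (h : AnalyticAt ℂ (fun ζ : ℂ ↦ f (line x v ζ)) 0) :
    IsAlgebraic EX (mk (fun ζ : ℂ ↦ f (line x v ζ)) h.meromorphicAt) := by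
  have hp : ∀ p : MvPolynomial (Fin M) ℤ, MeromorphicAt (fun ζ ↦ aeval (line x v ζ) p) 0 :=
    fun p ↦ (an_line (an_aeval p x)).meromorphicAt
  have hline : Tendsto (line x v) NE (𝓝 x) := by
    have h1 : ContinuousAt (line x v) 0 := (line_an x v 0).continuousAt
    have h2 := h1.tendsto.mono_left (nhdsWithin_le_nhds (s := {(0 : ℂ)}ᶜ))
    rwa [line_zero] at h2
  have hg0 : mk _ (hp (G d)) ≠ 0 := by
    intro h0
    rw [mk_eq_zero] at h0
    have h2 : Tendsto (fun ζ ↦ aeval (line x v ζ) (G d)) NE (𝓝 (aeval x (G d))) :=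
      (an_aeval (G d) x).continuousAt.tendsto.comp hline
    have h3 : Tendsto (fun ζ ↦ aeval (line x v ζ) (G d)) NE (𝓝 0) := by
      refine tendsto_const_nhds.congr' ?_
      filter_upwards [h0] with ζ hζ using hζ.symm
    exact hd (tendsto_nhds_unique h2 h3)
  refine ⟨∑ j ∈ Finset.range (d + 1), Polynomial.C (⟨mk _ (hp (G j)), mem_EX _ _ _ _⟩ : EX) *
    Polynomial.X ^ j, ?_, ?_⟩
  · intro h0
    have h1 := congrArg (fun q : Polynomial EX ↦ q.coeff d) h0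
    simp only [Polynomial.finsetSum_coeff, Polynomial.coeff_C_mul, Polynomial.coeff_X_pow,
      Polynomial.coeff_zero, mul_ite, mul_one, mul_zero] at h1
    rw [Finset.sum_ite_eq (Finset.range (d + 1)) d] at h1
    rw [if_pos (Finset.mem_range.mpr (Nat.lt_succ_self d))] at h1
    exact hg0 (congrArg Subtype.val h1)
  · rw [map_sum]
    have h1 : ∀ j : ℕ, Polynomial.aeval (mk (fun ζ : ℂ ↦ f (line x v ζ)) h.meromorphicAt)
        (Polynomial.C (⟨mk _ (hp (G j)), mem_EX _ _ _ _⟩ : EX) * Polynomial.X ^ j) =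
        mk (fun ζ ↦ aeval (line x v ζ) (G j) * f (line x v ζ) ^ j)
          ((hp (G j)).fun_mul (h.meromorphicAt.fun_pow j)) := by
      intro j
      rw [map_mul, map_pow, Polynomial.aeval_C, Polynomial.aeval_X, A2_pow]
      exact mk_mul (hp (G j)) (h.meromorphicAt.fun_pow j)
    simp only [h1]
    exact A2_sum (d + 1) _ _ (hline.eventually hG)

theorem alg_ψ {M n : ℕ} (S : MO M n) (d : ℕ) (G : ℕ → MvPolynomial (Fin M) ℤ)
    (hd : aeval S.x (G d) ≠ 0)
    (hG : ∀ᶠ s in 𝓝 S.x, ∑ j ∈ Finset.range (d + 1), aeval s (G j) * S.Y s ^ j = 0)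
    (i : Fin (n + 1)) (v : Fin M → ℂ) (h : AnalyticAt ℂ (fun ζ : ℂ ↦ S.ψ i (line S.x v ζ)) 0) :
    IsAlgebraic EX (mk (fun ζ : ℂ ↦ S.ψ i (line S.x v ζ)) h.meromorphicAt) := by
  revert h
  refine Fin.cases ?_ (fun i ↦ ?_) i
  · intro h
    exact alg_germ S.x S.Y d G hd hG v h
  · intro h
    change IsAlgebraic EX (mk (fun ζ : ℂ ↦ S.φ i (line S.x v ζ)) h.meromorphicAt)
    have hYa : AnalyticAt ℂ (fun ζ : ℂ ↦ S.Y (line S.x v ζ)) 0 := an_line S.an
    have hYalg : IsAlgebraic EX (mk (fun ζ : ℂ ↦ S.Y (line S.x v ζ)) hYa.meromorphicAt) :=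
      alg_germ S.x S.Y d G hd hG v hYa
    have hp : ∀ p : MvPolynomial (Fin M) ℤ, MeromorphicAt (fun ζ ↦ aeval (line S.x v ζ) p) 0 :=
      fun p ↦ (an_line (an_aeval p S.x)).meromorphicAt
    have hq : ∀ p q : MvPolynomial (Fin M) ℤ,
        MeromorphicAt (fun ζ ↦ aeval (line S.x v ζ) p * S.Y (line S.x v ζ) +
          aeval (line S.x v ζ) q) 0 :=
      fun p q ↦ (an_line (((an_aeval p S.x).fun_mul S.an).fun_add (an_aeval q S.x))).meromorphicAt
    have hqe : ∀ p q : MvPolynomial (Fin M) ℤ, mk _ (hq p q) =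
        mk _ (hp p) * mk (fun ζ : ℂ ↦ S.Y (line S.x v ζ)) hYa.meromorphicAt + mk _ (hp q) := by
      intro p q
      rw [mk_mul, mk_add]
    have hqm : ∀ p q : MvPolynomial (Fin M) ℤ, IsAlgebraic EX (mk _ (hq p q)) := by
      intro p q
      rw [hqe]
      exact ((alg_EX (mem_EX _ _ _ _)).mul hYalg).add (alg_EX (mem_EX _ _ _ _))
    have h0 : mk _ (hq (S.pC i) (S.pD i)) ≠ 0 := by
      intro h0
      rw [mk_eq_zero] at h0
      have h1 : ContinuousAt (fun ζ ↦ S.den i (line S.x v ζ)) 0 :=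
        (an_line (S.an_den i)).continuousAt
      have h2 : Tendsto (fun ζ ↦ S.den i (line S.x v ζ)) NE (𝓝 (S.den i (line S.x v 0))) :=
        h1.tendsto.mono_left nhdsWithin_le_nhds
      rw [line_zero] at h2
      have h3 : Tendsto (fun ζ ↦ S.den i (line S.x v ζ)) NE (𝓝 0) := by
        refine tendsto_const_nhds.congr' ?_
        filter_upwards [h0] with ζ hζ using hζ.symm
      exact S.den_x i (tendsto_nhds_unique h2 h3)
    have e : mk (fun ζ : ℂ ↦ S.φ i (line S.x v ζ)) h.meromorphicAt =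
        mk _ (hq (S.pA i) (S.pB i)) * (mk _ (hq (S.pC i) (S.pD i)))⁻¹ := by
      rw [eq_mul_inv_iff_mul_eq₀ h0, mk_mul, mk_eq_mk]
      have hne : ∀ᶠ ζ in NE, S.den i (line S.x v ζ) ≠ 0 := by
        rcases (hq (S.pC i) (S.pD i)).eventually_eq_zero_or_eventually_ne_zero with h1 | h1
        · exact absurd (mk_eq_zero.mpr h1) h0
        · exact h1
      filter_upwards [hne] with ζ hζ
      exact div_mul_cancel₀ _ hζ
    rw [e]
    exact (hqm _ _).mul (hqm _ _).inv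

end AK

end S_H32_AK_A2

section S_H32_AK_A3

set_option autoImplicit false

open UpperHalfPlane hiding I
open Complex EisensteinSeries ModularForm MatrixGroups Manifold
open scoped Real Topology
open MvPolynomial Filter

namespace AK

open H32 H32.T3 H32.T4 AO

/-- the identity theorem along a line -/
private lemma A3_ident {M : ℕ} (x v : Fin M → ℂ) (p : MvPolynomial (Fin M) ℂ)
    (h : ∀ᶠ ζ in NE, eval (line x v ζ) p = 0) : eval (line x v 1) p = 0 := by
  have han : AnalyticOnNhd ℂ (fun ζ ↦ eval (line x v ζ) p) Set.univ := by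
    intro ζ _
    have h1 : AnalyticAt ℂ (fun s : Fin M → ℂ ↦ aeval s p) (line x v ζ) :=
      AnalyticAt.aeval_mvPolynomial (𝕜 := ℂ) (f := fun s : Fin M → ℂ ↦ s)
        (fun i ↦ (ContinuousLinearMap.proj (R := ℂ) (φ := fun _ : Fin M ↦ ℂ) i).analyticAt _) _
    have h2 := AnalyticAt.fun_comp (g := fun s : Fin M → ℂ ↦ aeval s p) (f := line x v)
      h1 (line_an _ _ _)
    exact h2
  have hev : ∃ᶠ ζ in 𝓝[≠] (0 : ℂ), eval (line x v ζ) p = 0 := h.frequently
  exact han.eqOn_zero_of_preconnected_of_frequently_eq_zero isPreconnected_univ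
    (Set.mem_univ 0) hev (Set.mem_univ 1)

private lemma A3_map {M : ℕ} (s : Fin M → ℂ) (p : MvPolynomial (Fin M) ℤ) :
    eval s (MvPolynomial.map (Int.castRingHom ℂ) p) = aeval s p := by
  rw [eval_map, aeval_def]
  rfl

private lemma A3_cast {M : ℕ} (u : Fin M → ℤ) (p : MvPolynomial (Fin M) ℤ) :
    aeval (fun s ↦ ((u s : ℤ) : ℂ)) p = ((eval u p : ℤ) : ℂ) := by
  have h := MvPolynomial.comp_aeval_apply (R := ℤ) u ((Int.castRingHom ℂ).toIntAlgHom) p
  exact h.symm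

private lemma A3_tr {y : ℂ} (hy : Transcendental ℚ y) (R : Polynomial ℤ)
    (h : Polynomial.aeval y R = 0) : R = 0 := by
  have h1 : Polynomial.aeval y (R.map (algebraMap ℤ ℚ)) = 0 := by
    rw [Polynomial.aeval_map_algebraMap]
    exact h
  have h2 : R.map (algebraMap ℤ ℚ) = 0 := transcendental_iff.mp hy _ h1
  exact (Polynomial.map_eq_zero_iff (RingHom.injective_int (algebraMap ℤ ℚ))).mp h2

private lemma A3_pt {M : ℕ} (p : MvPolynomial (Fin M) ℤ) (hp : p ≠ 0) :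
    ∃ u : Fin M → ℤ, eval u p ≠ 0 := by
  by_contra hcon
  push Not at hcon
  exact hp (MvPolynomial.funext fun y ↦ by rw [hcon y, map_zero])

private lemma A3_top {y : ℂ} (hy : Transcendental ℚ y) (d : ℕ) (g : ℕ → ℤ)
    (h : ∑ j ∈ Finset.range (d + 1), (g j : ℂ) * y ^ j = 0) : g d = 0 := by
  have h1 := A3_tr hy (∑ j ∈ Finset.range (d + 1), Polynomial.C (g j) * Polynomial.X ^ j) (by
    rw [map_sum, ← h]
    refine Finset.sum_congr rfl fun j _ ↦ ?_
    rw [map_mul, map_pow, Polynomial.aeval_C, Polynomial.aeval_X]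
    rfl)
  have h2 := congrArg (fun q ↦ Polynomial.coeff q d) h1
  simp only [Polynomial.finsetSum_coeff, Polynomial.coeff_C_mul, Polynomial.coeff_X_pow,
    Polynomial.coeff_zero] at h2
  rw [Finset.sum_eq_single d (fun j _ hj ↦ by rw [if_neg (Ne.symm hj), mul_zero])
    (fun hn ↦ absurd (Finset.mem_range.mpr (Nat.lt_succ_self d)) hn), if_pos rfl, mul_one] at h2
  exact h2

private lemma A3_tend {M : ℕ} (x v : Fin M → ℂ) : Tendsto (line x v) NE (𝓝 x) := by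
  have h4 : Tendsto (line x v) (𝓝 0) (𝓝 (line x v 0)) := (line_an x v 0).continuousAt.tendsto
  rw [line_zero] at h4
  exact h4.mono_left nhdsWithin_le_nhds

theorem nc_Y {M n : ℕ} (S : MO M n) (d : ℕ) (G : ℕ → MvPolynomial (Fin M) ℤ)
    (hd : aeval S.x (G d) ≠ 0)
    (hG : ∀ᶠ s in 𝓝 S.x, ∑ j ∈ Finset.range (d + 1), aeval s (G j) * S.Y s ^ j = 0)
    (htr : Transcendental ℚ (S.Y S.x)) :
    ∃ p : MvPolynomial (Fin M) ℂ, p ≠ 0 ∧ ∀ v, eval (line S.x v 1) p ≠ 0 →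
      ¬ ∀ᶠ ζ in NE, S.Y (line S.x v ζ) = S.Y S.x := by
  set y := S.Y S.x with hy
  have hev : ∀ s, eval s (∑ j ∈ Finset.range (d + 1),
      MvPolynomial.map (Int.castRingHom ℂ) (G j) * C (y ^ j)) =
      ∑ j ∈ Finset.range (d + 1), aeval s (G j) * y ^ j := by
    intro s
    rw [map_sum]
    refine Finset.sum_congr rfl fun j _ ↦ ?_
    rw [map_mul, eval_C, A3_map]
  refine ⟨∑ j ∈ Finset.range (d + 1), MvPolynomial.map (Int.castRingHom ℂ) (G j) * C (y ^ j),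
    fun h0 ↦ ?_, fun v hv hcon ↦ hv (A3_ident _ _ _ ?_)⟩
  · have hGd : G d ≠ 0 := fun h ↦ hd (by rw [h, map_zero])
    obtain ⟨u, hu⟩ := A3_pt (G d) hGd
    have h1 := hev (fun s ↦ ((u s : ℤ) : ℂ))
    rw [h0, map_zero] at h1
    refine hu (A3_top htr d (fun j ↦ eval u (G j)) ?_)
    rw [h1]
    refine Finset.sum_congr rfl fun j _ ↦ ?_
    rw [A3_cast]
  · filter_upwards [hcon, (A3_tend S.x v).eventually hG] with ζ h1 h2
    rw [hev, ← h1]
    exact h2

theorem nc_φ {M n : ℕ} (S : MO M n) (d : ℕ) (G : ℕ → MvPolynomial (Fin M) ℤ)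
    (hd : aeval S.x (G d) ≠ 0)
    (hG : ∀ᶠ s in 𝓝 S.x, ∑ j ∈ Finset.range (d + 1), aeval s (G j) * S.Y s ^ j = 0)
    (i : Fin n) (htr : Transcendental ℚ (S.φ i S.x)) :
    ∃ p : MvPolynomial (Fin M) ℂ, p ≠ 0 ∧ ∀ v, eval (line S.x v 1) p ≠ 0 →
      ¬ ∀ᶠ ζ in NE, S.φ i (line S.x v ζ) = S.φ i S.x := by
  set w := S.φ i S.x with hw
  have hev : ∀ s, eval s (∑ j ∈ Finset.range (d + 1), MvPolynomial.map (Int.castRingHom ℂ) (G j) *
      (C w * MvPolynomial.map (Int.castRingHom ℂ) (S.pD i) -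
        MvPolynomial.map (Int.castRingHom ℂ) (S.pB i)) ^ j *
      (MvPolynomial.map (Int.castRingHom ℂ) (S.pA i) -
        C w * MvPolynomial.map (Int.castRingHom ℂ) (S.pC i)) ^ (d - j)) =
      ∑ j ∈ Finset.range (d + 1), aeval s (G j) *
        (w * aeval s (S.pD i) - aeval s (S.pB i)) ^ j *
        (aeval s (S.pA i) - w * aeval s (S.pC i)) ^ (d - j) := by
    intro s
    rw [map_sum]
    refine Finset.sum_congr rfl fun j _ ↦ ?_
    simp only [map_mul, map_pow, map_sub, eval_C, A3_map]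
  refine ⟨∑ j ∈ Finset.range (d + 1), MvPolynomial.map (Int.castRingHom ℂ) (G j) *
      (C w * MvPolynomial.map (Int.castRingHom ℂ) (S.pD i) -
        MvPolynomial.map (Int.castRingHom ℂ) (S.pB i)) ^ j *
      (MvPolynomial.map (Int.castRingHom ℂ) (S.pA i) -
        C w * MvPolynomial.map (Int.castRingHom ℂ) (S.pC i)) ^ (d - j),
    fun h0 ↦ ?_, fun v hv hcon ↦ hv (A3_ident _ _ _ ?_)⟩
  · have hGd : G d ≠ 0 := fun h ↦ hd (by rw [h, map_zero])
    have hdt : S.dt i ≠ 0 := fun h ↦ S.dt_x i (by rw [h, map_zero])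
    obtain ⟨u, hu⟩ := A3_pt (G d * S.dt i) (mul_ne_zero hGd hdt)
    rw [map_mul] at hu
    have hu1 := left_ne_zero_of_mul hu
    have hu2 := right_ne_zero_of_mul hu
    have hu3 : eval u (S.dt i) = eval u (S.pA i) * eval u (S.pD i) -
        eval u (S.pB i) * eval u (S.pC i) := by
      rw [MO.dt, map_sub, map_mul, map_mul]
    rw [hu3] at hu2
    have h1 := hev (fun s ↦ ((u s : ℤ) : ℂ))
    rw [h0, map_zero] at h1
    simp only [A3_cast] at h1
    generalize eval u (S.pA i) = a at *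
    generalize eval u (S.pB i) = b at *
    generalize eval u (S.pC i) = c at *
    generalize eval u (S.pD i) = e at *
    -- the integer polynomial
    have hR := A3_tr htr (∑ j ∈ Finset.range (d + 1), Polynomial.C (eval u (G j)) *
        (Polynomial.X * Polynomial.C e - Polynomial.C b) ^ j *
        (Polynomial.C a - Polynomial.X * Polynomial.C c) ^ (d - j)) (by
      rw [map_sum, h1]
      refine Finset.sum_congr rfl fun j _ ↦ ?_
      simp only [map_mul, map_pow, map_sub, Polynomial.aeval_C, Polynomial.aeval_X]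
      rfl)
    have hRW : ∀ W : ℂ, ∑ j ∈ Finset.range (d + 1), ((eval u (G j) : ℤ) : ℂ) *
        (W * (e : ℂ) - (b : ℂ)) ^ j * ((a : ℂ) - W * (c : ℂ)) ^ (d - j) = 0 := by
      intro W
      have h2 := congrArg (fun q ↦ Polynomial.aeval W q) hR
      simp only [map_zero] at h2
      rw [← h2, map_sum]
      refine Finset.sum_congr rfl fun j _ ↦ ?_
      simp only [map_mul, map_pow, map_sub, Polynomial.aeval_C, Polynomial.aeval_X]
      rfl
    have hden : (c : ℂ) * w + (e : ℂ) ≠ 0 := by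
      intro h2
      have h3 := A3_tr htr (Polynomial.C c * Polynomial.X + Polynomial.C e) (by
        rw [map_add, map_mul, Polynomial.aeval_C, Polynomial.aeval_C, Polynomial.aeval_X]
        exact h2)
      have h4 := congrArg (fun q ↦ Polynomial.coeff q 0) h3
      have h5 := congrArg (fun q ↦ Polynomial.coeff q 1) h3
      simp at h4
      rw [h4] at h5
      simp at h5
      rw [h4, h5] at hu2
      simp at hu2
    have hδ : ((a : ℂ) * e - b * c) / ((c : ℂ) * w + (e : ℂ)) ≠ 0 := by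
      refine div_ne_zero ?_ hden
      exact_mod_cast hu2
    have h3 := hRW (((a : ℂ) * w + b) / ((c : ℂ) * w + (e : ℂ)))
    have e1 : ((a : ℂ) * w + b) / ((c : ℂ) * w + (e : ℂ)) * e - b =
        ((a : ℂ) * e - b * c) / ((c : ℂ) * w + (e : ℂ)) * w := by
      have e3 := div_mul_cancel₀ ((a : ℂ) * w + b) hden
      have e4 := div_mul_cancel₀ ((a : ℂ) * e - b * c) hden
      refine mul_right_cancel₀ hden ?_
      linear_combination (e : ℂ) * e3 - w * e4
    have e2 : (a : ℂ) - ((a : ℂ) * w + b) / ((c : ℂ) * w + (e : ℂ)) * c =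
        ((a : ℂ) * e - b * c) / ((c : ℂ) * w + (e : ℂ)) := by
      rw [eq_div_iff hden]
      have e3 : ((a : ℂ) * w + b) / ((c : ℂ) * w + (e : ℂ)) * c * ((c : ℂ) * w + (e : ℂ)) =
          ((a : ℂ) * w + b) * c := by
        rw [mul_right_comm, div_mul_cancel₀ _ hden]
      linear_combination -e3
    rw [e1, e2] at h3
    refine hu1 (A3_top htr d (fun j ↦ eval u (G j)) ?_)
    refine (mul_eq_zero.mp (?_ : (((a : ℂ) * e - b * c) / ((c : ℂ) * w + (e : ℂ))) ^ d *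
      _ = 0)).resolve_left (pow_ne_zero _ hδ)
    rw [← h3, Finset.mul_sum]
    refine Finset.sum_congr rfl fun j hj ↦ ?_
    have hjd : j ≤ d := Nat.lt_succ_iff.mp (Finset.mem_range.mp hj)
    generalize ((a : ℂ) * e - b * c) / ((c : ℂ) * w + (e : ℂ)) = r
    have h6 : r ^ d = r ^ j * r ^ (d - j) := by rw [← pow_add, Nat.add_sub_cancel' hjd]
    rw [h6, mul_pow]
    ring
  · have hpW : ∀ᶠ ζ in NE, S.den i (line S.x v ζ) ≠ 0 := by
      have h1 : ContinuousAt (fun ζ ↦ S.den i (line S.x v ζ)) 0 :=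
        (an_line (S.an_den i)).continuousAt
      have h2 : S.den i (line S.x v 0) ≠ 0 := by
        rw [line_zero]
        exact S.den_x i
      exact (h1.eventually_ne h2).filter_mono nhdsWithin_le_nhds
    filter_upwards [hcon, hpW, (A3_tend S.x v).eventually hG] with ζ h1 h2 h3
    rw [hev]
    have h4 : S.den i (line S.x v ζ) * w = aeval (line S.x v ζ) (S.pA i) * S.Y (line S.x v ζ) +
        aeval (line S.x v ζ) (S.pB i) := by
      rw [← h1]
      exact mul_div_cancel₀ _ h2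
    rw [MO.den] at h4
    have h5 : w * aeval (line S.x v ζ) (S.pD i) - aeval (line S.x v ζ) (S.pB i) =
        (aeval (line S.x v ζ) (S.pA i) - w * aeval (line S.x v ζ) (S.pC i)) *
          S.Y (line S.x v ζ) := by
      linear_combination h4
    rw [h5]
    generalize aeval (line S.x v ζ) (S.pA i) - w * aeval (line S.x v ζ) (S.pC i) = r
    have h6 : ∑ j ∈ Finset.range (d + 1), aeval (line S.x v ζ) (G j) *
        (r * S.Y (line S.x v ζ)) ^ j * r ^ (d - j) =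
        r ^ d * ∑ j ∈ Finset.range (d + 1), aeval (line S.x v ζ) (G j) *
          S.Y (line S.x v ζ) ^ j := by
      rw [Finset.mul_sum]
      refine Finset.sum_congr rfl fun j hj ↦ ?_
      have hjd : j ≤ d := Nat.lt_succ_iff.mp (Finset.mem_range.mp hj)
      have h6 : r ^ d = r ^ j * r ^ (d - j) := by rw [← pow_add, Nat.add_sub_cancel' hjd]
      rw [h6, mul_pow]
      ring
    rw [h6, h3, mul_zero]

end AK

end S_H32_AK_A3

section S_H32_AK_A4

set_option autoImplicit false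

open UpperHalfPlane hiding I
open Complex EisensteinSeries ModularForm MatrixGroups Manifold
open scoped Real Topology
open MvPolynomial Filter

namespace AK

open H32 H32.T3 H32.T4 AO

theorem nonvan_MO {M n : ℕ} (S : MO M n) (d : ℕ) (G : ℕ → MvPolynomial (Fin M) ℤ)
    (hd : aeval S.x (G d) ≠ 0)
    (hG : ∀ᶠ s in 𝓝 S.x, ∑ j ∈ Finset.range (d + 1), aeval s (G j) * S.Y s ^ j = 0)
    (htr : ∀ i, Transcendental ℚ (S.ψ i S.x))
    (hrel : ∀ i j, i ≠ j → ¬ ∃ a b c d : ℚ, 0 < a * d - b * c ∧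
      S.ψ j S.x = ((a : ℂ) * S.ψ i S.x + b) / ((c : ℂ) * S.ψ i S.x + d))
    (P : MvPolynomial ((Fin (n + 1) × Fin 3) ⊕ Fin M) ℂ)
    (h : ∀ᶠ s in 𝓝 S.x, aeval (Sum.elim (fun p ↦ ee (S.ψ p.1 s) p.2) s) P = 0) : P = 0 := by
  refine nonvan S.x S.ψ S.an_ψ S.im_ψ (alg_ψ S d G hd hG) (fun i ↦ ?_) hrel P h
  refine Fin.cases ?_ (fun i ↦ ?_) i
  · exact nc_Y S d G hd hG (htr 0)
  · exact nc_φ S d G hd hG i (htr i.succ)

end AK

end S_H32_AK_A4

section S_H32_AK_A6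

set_option autoImplicit false

namespace AK

open AO

/-- Sorted approximations with a property. -/
def SHierP {m : ℕ} (t : Fin m → ℝ) (P : ℕ → (Fin m → ℤ) → Prop) : Prop :=
  ∀ κ : ℕ, ∃ σ : Equiv.Perm (Fin m), ∀ K : ℕ, ∃ q : ℕ, K ≤ q ∧ ∃ p : Fin m → ℤ,
    (∀ s, 0 < |t s - p s / q| ∧ |t s - p s / q| < Real.exp (-(q : ℝ) ^ κ)) ∧
    (∀ a b, a < b → |t (σ a) - p (σ a) / q| < |t (σ b) - p (σ b) / q| ^ K) ∧ P q p

theorem dich {m : ℕ} {t : Fin m → ℝ} (hS : SHier t) (P : ℕ → (Fin m → ℤ) → Prop) :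
    SHierP t P ∨ SHierP t (fun q p ↦ ¬ P q p) := by
  by_cases hP : SHierP t P
  · exact Or.inl hP
  right
  unfold SHierP at hP
  push Not at hP
  obtain ⟨κ1, h1⟩ := hP
  choose K0 hK0 using h1
  intro κ
  obtain ⟨σ, hσ⟩ := hS (max κ κ1)
  refine ⟨σ, fun K => ?_⟩
  obtain ⟨q, hq, p, ha, hb⟩ := hσ (max (max K (K0 σ)) 1)
  have hK : K ≤ max (max K (K0 σ)) 1 := (le_max_left _ _).trans (le_max_left _ _)
  have hK' : K0 σ ≤ max (max K (K0 σ)) 1 := (le_max_right _ _).trans (le_max_left _ _)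
  have hq1 : (1 : ℝ) ≤ q := by
    exact_mod_cast (le_max_right _ _).trans hq
  have hexp : ∀ e : ℕ, e ≤ max κ κ1 → Real.exp (-(q : ℝ) ^ (max κ κ1)) ≤ Real.exp (-(q : ℝ) ^ e) := by
    intro e he
    exact Real.exp_le_exp.2 (neg_le_neg (pow_le_pow_right₀ hq1 he))
  have hlt1 : ∀ s, |t s - p s / q| ≤ 1 := by
    intro s
    refine (ha s).2.le.trans (Real.exp_le_one_iff.2 ?_)
    have : (0 : ℝ) ≤ (q : ℝ) ^ (max κ κ1) := by positivity
    linarith
  have hpow : ∀ e : ℕ, e ≤ max (max K (K0 σ)) 1 → ∀ s,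
      |t s - p s / q| ^ (max (max K (K0 σ)) 1) ≤ |t s - p s / q| ^ e := by
    intro e he s
    exact pow_le_pow_of_le_one (abs_nonneg _) (hlt1 s) he
  refine ⟨q, hK.trans hq, p, fun s => ⟨(ha s).1, (ha s).2.trans_le (hexp κ (le_max_left _ _))⟩,
    fun a b hab => (hb a b hab).trans_le (hpow K hK _), ?_⟩
  exact hK0 σ q (hK'.trans hq) p (fun s => ⟨(ha s).1, (ha s).2.trans_le (hexp κ1 (le_max_right _ _))⟩)
    fun a b hab => (hb a b hab).trans_le (hpow (K0 σ) hK' _)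

end AK

end S_H32_AK_A6

section S_H32_AK_A7

set_option autoImplicit false

open UpperHalfPlane hiding I
open Complex EisensteinSeries ModularForm MatrixGroups Manifold
open scoped Real Topology
open MvPolynomial Filter

namespace AK

open H32 H32.T3 H32.T4 AO

private lemma A7_mem {M : ℕ} (r : ℕ → Fin M → ℂ) (P : MvPolynomial (Fin M) ℤ) :
    aeval (fun s ↦ mkU (fun k ↦ r k s)) P ∈
      Algebra.adjoin ℂ (Set.range fun s : Fin M ↦ mkU (fun k ↦ r k s)) := by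
  induction P using MvPolynomial.induction_on with
  | C c =>
    rw [MvPolynomial.aeval_C, algebraMap_int_eq, eq_intCast]
    exact intCast_mem _ c
  | add p q hp hq =>
    rw [map_add]
    exact add_mem hp hq
  | mul_X p i hp =>
    rw [map_mul, MvPolynomial.aeval_X]
    exact mul_mem hp (Algebra.subset_adjoin ⟨i, rfl⟩)

private lemma A7_alg {M : ℕ} (x : Fin M → ℂ) (Y : (Fin M → ℂ) → ℂ) (d : ℕ)
    (G : ℕ → MvPolynomial (Fin M) ℤ) (hd : aeval x (G d) ≠ 0)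
    (hG : ∀ᶠ s in 𝓝 x, ∑ j ∈ Finset.range (d + 1), aeval s (G j) * Y s ^ j = 0)
    (r : ℕ → Fin M → ℂ) (htend : Tendsto r atTop (𝓝 x)) :
    IsAlgebraic (Algebra.adjoin ℂ (Set.range fun s : Fin M ↦ mkU (fun k ↦ r k s)))
      (mkU (fun k ↦ Y (r k))) := by
  set B := Algebra.adjoin ℂ (Set.range fun s : Fin M ↦ mkU (fun k ↦ r k s)) with hB
  let g : ℕ → B := fun j ↦ ⟨aeval (fun s ↦ mkU (fun k ↦ r k s)) (G j), A7_mem r (G j)⟩
  have hgd : g d ≠ 0 := by
    intro h0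
    have h1 : aeval (fun s ↦ mkU (fun k ↦ r k s)) (G d) = 0 := congrArg Subtype.val h0
    rw [aeval_mkUZ'] at h1
    have h2 := freq_of_mkU_zero h1
    have h3 : Tendsto (fun k ↦ aeval (r k) (G d)) atTop (𝓝 (aeval x (G d))) :=
      (an_aeval (G d) x).continuousAt.tendsto.comp htend
    have h4 := h3.eventually_ne hd
    exact h2 (h4.mono fun k hk ↦ hk)
  refine ⟨∑ j ∈ Finset.range (d + 1), Polynomial.C (g j) * Polynomial.X ^ j, ?_, ?_⟩
  · intro h0
    have h1 := congrArg (fun F : Polynomial B ↦ F.coeff d) h0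
    simp only [Polynomial.finsetSum_coeff, Polynomial.coeff_C_mul, Polynomial.coeff_X_pow,
      Polynomial.coeff_zero, mul_ite, mul_one, mul_zero] at h1
    rw [Finset.sum_ite_eq, if_pos (Finset.mem_range.mpr (Nat.lt_succ_self d))] at h1
    exact hgd h1
  · rw [map_sum]
    have h1 : ∀ j ∈ Finset.range (d + 1),
        Polynomial.aeval (mkU (fun k ↦ Y (r k))) (Polynomial.C (g j) * Polynomial.X ^ j) =
        mkU (fun k ↦ aeval (r k) (G j) * Y (r k) ^ j) := by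
      intro j _
      rw [map_mul, Polynomial.aeval_C, map_pow, Polynomial.aeval_X]
      have h2 : algebraMap B Ult (g j) = mkU (fun k ↦ aeval (r k) (G j)) :=
        aeval_mkUZ' (fun s k ↦ r k s) (G j)
      rw [h2, ← map_pow, ← map_mul]
      rfl
    rw [Finset.sum_congr rfl h1, ← map_sum]
    refine mkU_zero_of_ev ((htend.eventually hG).mono fun k hk ↦ ?_)
    rw [Finset.sum_apply]
    exact hk

theorem seq_MO {M n : ℕ} (S : MO M n) (t : Fin M → ℝ) (hx : S.x = fun s ↦ (t s : ℂ))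
    (hdet : ∀ i, 0 < (aeval t (S.dt i) : ℝ)) (d : ℕ) (G : ℕ → MvPolynomial (Fin M) ℤ)
    (hd : aeval S.x (G d) ≠ 0)
    (hG : ∀ᶠ s in 𝓝 S.x, ∑ j ∈ Finset.range (d + 1), aeval s (G j) * S.Y s ^ j = 0)
    (htr : ∀ i, Transcendental ℚ (S.ψ i S.x))
    (hrel : ∀ i j, i ≠ j → ¬ ∃ a b c d : ℚ, 0 < a * d - b * c ∧
      S.ψ j S.x = ((a : ℂ) * S.ψ i S.x + b) / ((c : ℂ) * S.ψ i S.x + d))
    (hP : SHierP t (fun q p ↦ NCM (S.Y (fun s ↦ (p s : ℂ) / q)))) : ∃ A : ℕ, S.Seq A := by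
  obtain ⟨A, Q0, ε, hε, hA⟩ := good_MO S t hx hdet d G hd hG
  refine ⟨A, fun κ ↦ ?_⟩
  obtain ⟨σ, hσ⟩ := hP (κ + 1)
  obtain ⟨B, hB⟩ : ∃ B : ℕ, |Real.log ε| < B := exists_nat_gt _
  choose q hq p hp1 hp2 hp3 using fun k : ℕ ↦ hσ (Q0 + k + 2 + B)
  set r : ℕ → Fin M → ℂ := fun k s ↦ (p k s : ℂ) / q k with hr
  have hrn : ∀ k s, ‖r k s - S.x s‖ = |t s - p k s / q k| := fun k s ↦ by
    have e : r k s - S.x s = (((p k s : ℝ) / q k - t s : ℝ) : ℂ) := by
      rw [hr, hx]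
      push_cast
      rfl
    rw [e, Complex.norm_real, Real.norm_eq_abs, abs_sub_comm]
  have hHk : ∀ k, k + 2 ≤ q k := fun k ↦ le_trans (by omega) (hq k)
  have hH1 : ∀ k, (1 : ℝ) ≤ q k := fun k ↦ by
    have := hHk k
    exact_mod_cast (by omega : 1 ≤ q k)
  have hle1 : ∀ k s, |t s - p k s / q k| ≤ 1 := fun k s ↦ by
    refine ((hp1 k s).2.le).trans (Real.exp_le_one_iff.mpr ?_)
    have : (0 : ℝ) ≤ (q k : ℝ) ^ (κ + 1) := by positivity
    linarith
  have hlt : ∀ k s, |t s - p k s / q k| < ε := fun k s ↦ by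
    refine (hp1 k s).2.trans ?_
    rw [← Real.lt_log_iff_exp_lt hε]
    have h1 : (q k : ℝ) ≤ (q k : ℝ) ^ (κ + 1) := le_self_pow₀ (hH1 k) (by omega)
    have h2 : (B : ℝ) ≤ q k := by
      have := hq k
      exact_mod_cast (by omega : B ≤ q k)
    have h3 := neg_abs_le (Real.log ε)
    linarith
  have hbd : ∀ k, ‖r k - S.x‖ ≤ Real.exp (-(q k : ℝ) ^ (κ + 1)) := fun k ↦ by
    rw [pi_norm_le_iff_of_nonneg (Real.exp_pos _).le]
    intro s
    have h1 := hrn k s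
    rw [Pi.sub_apply, h1]
    exact (hp1 k s).2.le
  have htend : Tendsto r atTop (𝓝 S.x) := by
    rw [tendsto_iff_norm_sub_tendsto_zero]
    have h1 : Tendsto (fun n : ℕ ↦ Real.exp (-(n : ℝ))) atTop (𝓝 0) :=
      Real.tendsto_exp_neg_atTop_nhds_zero.comp tendsto_natCast_atTop_atTop
    refine squeeze_zero (fun _ ↦ norm_nonneg _) (fun k ↦ ?_) h1
    refine (hbd k).trans (Real.exp_le_exp.mpr (neg_le_neg ?_))
    have h2 : (k : ℝ) ≤ q k := by
      have := hHk k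
      exact_mod_cast (by omega : k ≤ q k)
    exact h2.trans (le_self_pow₀ (hH1 k) (by omega))
  refine ⟨q, r, hHk, fun k ↦ ⟨?_, hp3 k⟩,
    fun k ↦ (hbd k).trans (Real.exp_le_exp.mpr (neg_le_neg ?_)), htend,
    A7_alg S.x S.Y d G hd hG r htend, ?_⟩
  · exact hA (q k) (p k) (le_trans (by omega) (hq k)) (hlt k)
  · exact pow_le_pow_right₀ (hH1 k) (by omega)
  · exact ult_ind S.x S.ψ S.an_ψ S.im_ψ (nonvan_MO S d G hd hG htr hrel) r htend σ
      (Eventually.of_forall fun k s ↦ by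
        rw [hrn]
        exact (hp1 k s).1) (fun C ↦ by
        filter_upwards [eventually_ge_atTop C] with k hk a b hab
        rw [hrn, hrn]
        refine (hp2 k a b hab).le.trans ?_
        exact pow_le_pow_of_le_one (abs_nonneg _) (hle1 k _) (by omega))

end AK

end S_H32_AK_A7

section S_H32_AK_D1

set_option autoImplicit false

open UpperHalfPlane hiding I
open Complex EisensteinSeries ModularForm MatrixGroups Manifold
open scoped Real Topology
open MvPolynomial Filter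

namespace AK

open H32 H32.T3 H32.T4 AO

namespace MO

variable {M n : ℕ} (S : MO M n)

theorem an_WF (j : (Fin n × Fin 3) ⊕ Fin M) : AnalyticAt ℂ (fun s ↦ S.WF s j) S.x := by
  have hP : ∀ p : MvPolynomial (Fin M) ℤ,
      AnalyticAt ℂ (fun s : Fin M → ℂ ↦ aeval s p) S.x := fun p ↦ an_aeval p S.x
  have hden : ∀ i, AnalyticAt ℂ (S.den i) S.x := fun i ↦ S.an_den i
  have y4 : AnalyticAt ℂ (fun s ↦ e4 (S.Y s)) S.x :=
    AnalyticAt.fun_comp (g := fun w ↦ e4 w) (f := S.Y) (analytic_E4 _ S.im0) S.an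
  have y6 : AnalyticAt ℂ (fun s ↦ e6 (S.Y s)) S.x :=
    AnalyticAt.fun_comp (g := fun w ↦ e6 w) (f := S.Y) (analytic_E6 _ S.im0) S.an
  have y2 : AnalyticAt ℂ (fun s ↦ e2 (S.Y s)) S.x :=
    AnalyticAt.fun_comp (g := fun w ↦ e2 w) (f := S.Y) (analytic_E2 _ S.im0) S.an
  have yD : AnalyticAt ℂ (fun s ↦ dlt (S.Y s)) S.x :=
    AnalyticAt.fun_div ((y4.fun_pow 3).fun_sub (y6.fun_pow 2)) analyticAt_const (by norm_num)
  have hD : dlt (S.Y S.x) ≠ 0 := dlt_ne S.im0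
  rcases j with ⟨i, l⟩ | s
  · have d4 : AnalyticAt ℂ (fun s ↦ e4 (S.φ i s)) S.x :=
      AnalyticAt.fun_comp (g := fun w ↦ e4 w) (f := S.φ i) (analytic_E4 _ (S.im_φ i)) (S.an_φ i)
    have d6 : AnalyticAt ℂ (fun s ↦ e6 (S.φ i s)) S.x :=
      AnalyticAt.fun_comp (g := fun w ↦ e6 w) (f := S.φ i) (analytic_E6 _ (S.im_φ i)) (S.an_φ i)
    have d2 : AnalyticAt ℂ (fun s ↦ e2 (S.φ i s)) S.x :=
      AnalyticAt.fun_comp (g := fun w ↦ e2 w) (f := S.φ i) (analytic_E2 _ (S.im_φ i)) (S.an_φ i)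
    have hq : AnalyticAt ℂ (fun s : Fin M → ℂ ↦ aeval s (S.dt i) / S.den i s) S.x :=
      AnalyticAt.fun_div (hP _) (hden i) (S.den_x i)
    have hpi : (π : ℂ) ≠ 0 := by exact_mod_cast Real.pi_ne_zero
    fin_cases l
    · have h1 : AnalyticAt ℂ (fun s ↦ (aeval s (S.dt i) / S.den i s) ^ 4 * e4 (S.φ i s) *
          e4 (S.Y s) ^ 2 / dlt (S.Y s)) S.x :=
        ((((hq.fun_pow 4).fun_mul d4).fun_mul (y4.fun_pow 2)).fun_div yD hD)
      exact h1
    · have h1 : AnalyticAt ℂ (fun s ↦ (aeval s (S.dt i) / S.den i s) ^ 6 * e6 (S.φ i s) *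
          e6 (S.Y s) / dlt (S.Y s)) S.x :=
        ((((hq.fun_pow 6).fun_mul d6).fun_mul y6).fun_div yD hD)
      exact h1
    · have h1 : AnalyticAt ℂ (fun s ↦ ((aeval s (S.dt i) / S.den i s) ^ 2 * e2 (S.φ i s) -
          aeval s (S.dt i) * e2 (S.Y s) +
          6 * Complex.I * aeval s (S.dt i) * aeval s (S.pC i) / (π * S.den i s)) *
          (e4 (S.Y s) * e6 (S.Y s)) / dlt (S.Y s)) S.x :=
        ((((((hq.fun_pow 2).fun_mul d2).fun_sub ((hP _).fun_mul y2)).fun_add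
          (AnalyticAt.fun_div ((analyticAt_const.fun_mul (hP _)).fun_mul (hP _))
            (analyticAt_const.fun_mul (hden i)) (mul_ne_zero hpi (S.den_x i)))).fun_mul
          (y4.fun_mul y6)).fun_div yD hD)
      exact h1
  · exact (ContinuousLinearMap.proj (R := ℂ) (φ := fun _ : Fin M ↦ ℂ) s).analyticAt S.x

theorem an_J : AnalyticAt ℂ (fun s ↦ jc (S.Y s)) S.x := by
  have y4 : AnalyticAt ℂ (fun s ↦ e4 (S.Y s)) S.x :=
    AnalyticAt.fun_comp (g := fun w ↦ e4 w) (f := S.Y) (analytic_E4 _ S.im0) S.an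
  have y6 : AnalyticAt ℂ (fun s ↦ e6 (S.Y s)) S.x :=
    AnalyticAt.fun_comp (g := fun w ↦ e6 w) (f := S.Y) (analytic_E6 _ S.im0) S.an
  have hD : e4 (S.Y S.x) ^ 3 - e6 (S.Y S.x) ^ 2 ≠ 0 := by
    have h := dlt_ne S.im0
    rw [dlt] at h
    intro h0
    rw [h0, zero_div] at h
    exact h rfl
  exact AnalyticAt.fun_div (analyticAt_const.fun_mul (y4.fun_pow 3))
    ((y4.fun_pow 3).fun_sub (y6.fun_pow 2)) hD

private theorem D1_near {m : ℕ} {x : Fin m → ℂ} {f : (Fin m → ℂ) → ℂ}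
    (h : DifferentiableAt ℂ f x) : ∃ K : ℝ, 0 < K ∧ ∀ᶠ s in 𝓝 x, ‖f s - f x‖ ≤ K * ‖s - x‖ := by
  obtain ⟨K, hK0, hK⟩ := h.isBigO_sub.exists_pos
  rw [Asymptotics.IsBigOWith] at hK
  exact ⟨K, hK0, hK⟩

theorem near_MO : ∃ K : ℝ, 0 < K ∧ ∀ᶠ s in 𝓝 S.x,
    (∀ j, ‖S.WF s j - S.WF S.x j‖ ≤ K * ‖s - S.x‖) ∧
    ‖jc (S.Y s) - jc (S.Y S.x)‖ ≤ K * ‖s - S.x‖ ∧ (∀ i, ‖S.ψ i s - S.ψ i S.x‖ ≤ K * ‖s - S.x‖) ∧
    ‖S.Y s - S.Y S.x‖ ≤ K * ‖s - S.x‖ := by
  choose c hc0 hc using fun j => D1_near (S.an_WF j).differentiableAt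
  choose c' hc0' hc' using fun i => D1_near (S.an_ψ i).differentiableAt
  obtain ⟨a, ha0, ha⟩ := D1_near S.an_J.differentiableAt
  obtain ⟨b, hb0, hb⟩ := D1_near S.an.differentiableAt
  have s1 : 0 ≤ ∑ j, c j := Finset.sum_nonneg fun j _ => (hc0 j).le
  have s2 : 0 ≤ ∑ i, c' i := Finset.sum_nonneg fun i _ => (hc0' i).le
  refine ⟨∑ j, c j + ∑ i, c' i + a + b, by linarith, ?_⟩
  filter_upwards [eventually_all.2 hc, eventually_all.2 hc', ha, hb] with s h1 h2 h3 h4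
  refine ⟨fun j => (h1 j).trans ?_, h3.trans ?_, fun i => (h2 i).trans ?_, h4.trans ?_⟩
  · refine mul_le_mul_of_nonneg_right ?_ (norm_nonneg _)
    have := Finset.single_le_sum (f := c) (fun i _ => (hc0 i).le) (Finset.mem_univ j)
    linarith
  · exact mul_le_mul_of_nonneg_right (by linarith) (norm_nonneg _)
  · refine mul_le_mul_of_nonneg_right ?_ (norm_nonneg _)
    have := Finset.single_le_sum (f := c') (fun i _ => (hc0' i).le) (Finset.mem_univ i)
    linarith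
  · exact mul_le_mul_of_nonneg_right (by linarith) (norm_nonneg _)

end MO

end AK

end S_H32_AK_D1

section S_H32_AK_D3

set_option autoImplicit false

open UpperHalfPlane hiding I
open Complex EisensteinSeries ModularForm MatrixGroups Manifold
open scoped Real Topology
open MvPolynomial Filter

namespace AK

open H32 H32.T3 H32.T4 AO

private lemma D3_formulas {m n : ℕ} (S : MO m n) (i : Fin n) (σ : Fin m → ℂ) {q D : ℕ}
    (hq : (q : ℂ) ≠ 0) {a b c d : ℤ} {N : ℕ} (hN : 0 < N) (hdet : (N : ℤ) = a * d - b * c)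
    (τ τ' : ℍ) (hY : (τ : ℂ) = S.Y σ) (hτ : (τ' : ℂ) = S.φ i σ)
    (ha : (a : ℂ) = (q : ℂ) ^ D * aeval σ (S.pA i)) (hb : (b : ℂ) = (q : ℂ) ^ D * aeval σ (S.pB i))
    (hc : (c : ℂ) = (q : ℂ) ^ D * aeval σ (S.pC i))
    (hd : (d : ℂ) = (q : ℂ) ^ D * aeval σ (S.pD i)) :
    (τ' : ℂ) = (a * (τ : ℂ) + b) / (c * (τ : ℂ) + d) ∧
        S.RW σ (i, 0) * (q : ℂ) ^ (4 * D) =
          ((N : ℂ) / (c * (τ : ℂ) + d)) ^ 4 * E₄ τ' * E₄ τ ^ 2 / discriminant τ ∧
        S.RW σ (i, 1) * (q : ℂ) ^ (6 * D) =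
          ((N : ℂ) / (c * (τ : ℂ) + d)) ^ 6 * E₆ τ' * E₆ τ / discriminant τ ∧
        S.RW σ (i, 2) * (q : ℂ) ^ (2 * D) =
          (((N : ℂ) / (c * (τ : ℂ) + d)) ^ 2 * E2s τ' - N * E2s τ) *
            (E₄ τ * E₆ τ) / discriminant τ := by
  have hQ : (q : ℂ) ^ D ≠ 0 := pow_ne_zero _ hq
  have h1 : (τ' : ℂ) = (a * (τ : ℂ) + b) / (c * (τ : ℂ) + d) := by
    rw [hτ, ha, hb, hc, hd, MO.φ, mob, ← hY, mul_assoc, mul_assoc, ← mul_add, ← mul_add,
      mul_div_mul_left _ _ hQ]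
  obtain ⟨hcd, hkey⟩ := im_key hN hdet τ τ' h1
  have hden : (c : ℂ) * (τ : ℂ) + d = (q : ℂ) ^ D * S.den i σ := by
    rw [hc, hd, MO.den, ← hY]
    ring
  have hden0 : S.den i σ ≠ 0 := by
    intro h0
    rw [hden, h0, mul_zero] at hcd
    exact hcd rfl
  have hNc : (N : ℂ) = ((q : ℂ) ^ D) ^ 2 * aeval σ (S.dt i) := by
    have h2 := congrArg (fun z : ℤ ↦ (z : ℂ)) hdet
    push_cast at h2
    rw [h2, ha, hb, hc, hd, MO.dt, map_sub, map_mul, map_mul]
    ring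
  have hfrac : (N : ℂ) / (c * (τ : ℂ) + d) =
      (q : ℂ) ^ D * (aeval σ (S.dt i) / S.den i σ) := by
    rw [hNc, hden]
    field_simp
  have g2 : e2 τ' = E2 τ' := by rw [e2, ofComplex_apply]
  have g4 : e4 τ' = E₄ τ' := by rw [e4, ofComplex_apply]
  have g6 : e6 τ' = E₆ τ' := by rw [e6, ofComplex_apply]
  have k2 : e2 τ = E2 τ := by rw [e2, ofComplex_apply]
  have k4 : e4 τ = E₄ τ := by rw [e4, ofComplex_apply]
  have k6 : e6 τ = E₆ τ := by rw [e6, ofComplex_apply]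
  have kd : dlt (τ : ℂ) = discriminant τ := dlt_coe τ
  refine ⟨h1, ?_, ?_, ?_⟩
  · have e : S.RW σ (i, 0) = (aeval σ (S.dt i) / S.den i σ) ^ 4 * e4 (S.φ i σ) *
        e4 (S.Y σ) ^ 2 / dlt (S.Y σ) := rfl
    rw [e, hfrac, ← hτ, ← hY, g4, k4, kd]
    ring
  · have e : S.RW σ (i, 1) = (aeval σ (S.dt i) / S.den i σ) ^ 6 * e6 (S.φ i σ) *
        e6 (S.Y σ) / dlt (S.Y σ) := rfl
    rw [e, hfrac, ← hτ, ← hY, g6, k6, kd]
    ring
  · have e : S.RW σ (i, 2) = ((aeval σ (S.dt i) / S.den i σ) ^ 2 * e2 (S.φ i σ) -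
        aeval σ (S.dt i) * e2 (S.Y σ) +
        6 * Complex.I * aeval σ (S.dt i) * aeval σ (S.pC i) / (π * S.den i σ)) *
      (e4 (S.Y σ) * e6 (S.Y σ)) / dlt (S.Y σ) := rfl
    have hpi : (π : ℂ) ≠ 0 := by exact_mod_cast Real.pi_ne_zero
    have e1 : (((N : ℂ) / (c * (τ : ℂ) + d)) ^ 2 * E2s τ' - N * E2s τ) =
        ((N : ℂ) / (c * (τ : ℂ) + d)) ^ 2 * E2 τ' - N * E2 τ +
          6 * Complex.I * N * c / (π * (c * (τ : ℂ) + d)) := by
      rw [E2s, E2s]
      linear_combination -hkey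
    have e2' : 6 * Complex.I * N * c / (π * (c * (τ : ℂ) + d)) =
        ((q : ℂ) ^ D) ^ 2 * (6 * Complex.I * aeval σ (S.dt i) * aeval σ (S.pC i) /
          (π * S.den i σ)) := by
      rw [hden, hNc, hc]
      field_simp
    rw [e1, e2', e, hfrac, ← hτ, ← hY, g2, k2, k4, k6, kd, hNc]
    ring

private lemma D3_size {K A N q : ℕ} (hq : 1 ≤ q) (hN : (N : ℝ) ≤ 2 * (q : ℝ) ^ (2 * A + 2))
    (hQ : (K : ℝ) * 2 ^ 26 * (A + 1) ≤ q) :
    (K : ℝ) * (N : ℝ) ^ 26 * (A + 1) * q ≤ (q : ℝ) ^ (52 * A + 60) := by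
  have hq1 : (1 : ℝ) ≤ q := by exact_mod_cast hq
  have hN0 : (0 : ℝ) ≤ N := Nat.cast_nonneg N
  have hN2 : (N : ℝ) ^ 26 ≤ 2 ^ 26 * (q : ℝ) ^ (52 * A + 52) := by
    calc (N : ℝ) ^ 26 ≤ (2 * (q : ℝ) ^ (2 * A + 2)) ^ 26 := pow_le_pow_left₀ hN0 hN 26
      _ = 2 ^ 26 * (q : ℝ) ^ (52 * A + 52) := by rw [mul_pow, ← pow_mul]; ring_nf
  calc (K : ℝ) * (N : ℝ) ^ 26 * (A + 1) * q
      ≤ K * (2 ^ 26 * (q : ℝ) ^ (52 * A + 52)) * (A + 1) * q := by gcongr
    _ = (K * 2 ^ 26 * (A + 1)) * ((q : ℝ) ^ (52 * A + 52) * q) := by ring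
    _ ≤ q * ((q : ℝ) ^ (52 * A + 52) * q) := by gcongr
    _ = (q : ℝ) ^ (52 * A + 54) := by ring
    _ ≤ (q : ℝ) ^ (52 * A + 60) := pow_le_pow_right₀ hq1 (by omega)

private lemma D3_nr_coeff (F : Polynomial ℤ) (i : ℕ) : |(F.coeff i : ℝ)| ≤ CZ.nr F := by
  by_cases h : F.coeff i = 0
  · rw [h, Int.cast_zero, abs_zero]
    exact Finset.sum_nonneg fun _ _ ↦ abs_nonneg _
  · have h1 : i ∈ F.support := Polynomial.mem_support_iff.2 h
    exact Finset.single_le_sum (f := fun i ↦ |(F.coeff i : ℝ)|) (fun _ _ ↦ abs_nonneg _) h1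

private lemma D3_alg {J w : ℂ} {A : ℕ} {Z T : ℝ} (h : AlgB A Z w) (hA : (A : ℝ) ≤ T)
    (hT : 0 ≤ T) (hZ : Z ≤ Real.exp T) : RootRel T J w := by
  obtain ⟨F, hF, hdeg, hnr, h0⟩ := h
  have hpos : 0 < F.natDegree := by
    rcases Nat.eq_zero_or_pos F.natDegree with h1 | h1
    · exfalso
      rw [Polynomial.eq_C_of_natDegree_eq_zero h1, Polynomial.aeval_C] at h0
      have h2 : F.coeff 0 = 0 := by
        simpa using h0
      apply hF
      rw [Polynomial.eq_C_of_natDegree_eq_zero h1, h2, map_zero]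
    · exact h1
  refine ⟨F.natDegree, fun i ↦ Polynomial.C (F.coeff i), F.leadingCoeff, hpos, ?_, ?_, rfl, ?_, ?_,
    ?_⟩
  · have : (F.natDegree : ℝ) ≤ A := by exact_mod_cast hdeg
    exact this.trans hA
  · exact Polynomial.leadingCoeff_ne_zero.2 hF
  · intro i
    rw [Polynomial.natDegree_C, Nat.cast_zero]
    exact hT
  · intro i
    rw [A6_nr_C]
    exact (D3_nr_coeff F i).trans (hnr.trans hZ)
  · rw [Polynomial.aeval_eq_sum_range] at h0
    rw [← h0]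
    refine Finset.sum_congr rfl fun i _ ↦ ?_
    rw [Polynomial.aeval_C, zsmul_eq_mul]
    rfl

theorem rootRel_good {M n : ℕ} (S : MO M n) (A : ℕ) : ∃ A' Q0 : ℕ, ∀ (q : ℕ) (r : Fin M → ℂ),
    Q0 ≤ q → S.Good A q r → ∀ j, RootRel ((q : ℝ) ^ A') (jc (S.Y r)) (S.WF r j) := by
  obtain ⟨K, hK1, hK⟩ := rootRel_pt
  refine ⟨52 * A + 60, K * 2 ^ 26 * (A + 1) + A + 1, fun q r hqQ hr j ↦ ?_⟩
  have hq : 1 ≤ q := by omega
  have hq1 : (1 : ℝ) ≤ q := by exact_mod_cast hq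
  have hqc : (q : ℂ) ≠ 0 := by
    have : q ≠ 0 := by omega
    exact_mod_cast this
  have hQ : (K : ℝ) * 2 ^ 26 * (A + 1) ≤ q := by
    have : K * 2 ^ 26 * (A + 1) ≤ q := by omega
    exact_mod_cast this
  obtain ⟨hY, hs, -, hi⟩ := hr
  set τ : ℍ := ⟨S.Y r, hY⟩ with hτdef
  have hτ : (τ : ℂ) = S.Y r := rfl
  have hJ : jc (S.Y r) = jf τ := jc_coe τ
  rcases j with ⟨i, k⟩ | s
  · obtain ⟨a, b, c, d, hpos, ⟨ha, hb, hc, hd⟩, ea, eb, ec, ed⟩ := hi i
    obtain ⟨N, hNe⟩ := Int.eq_ofNat_of_zero_le hpos.le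
    have hN0 : 0 < N := by
      rw [hNe] at hpos
      exact_mod_cast hpos
    have hdet : (N : ℤ) = a * d - b * c := hNe.symm
    have hNr : (N : ℝ) = a * d - b * c := by exact_mod_cast congrArg (fun z : ℤ ↦ (z : ℝ)) hdet
    have hposr : (0 : ℝ) < (a : ℝ) * d - b * c := by
      rw [← hNr]
      exact_mod_cast hN0
    have hNle : (N : ℝ) ≤ 2 * (q : ℝ) ^ (2 * A + 2) := by
      have hQ0 : (0 : ℝ) ≤ (q : ℝ) ^ (A + 1) := by positivity
      have h3 : |(a : ℝ) * d| ≤ (q : ℝ) ^ (A + 1) * (q : ℝ) ^ (A + 1) := by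
        rw [abs_mul]
        exact mul_le_mul ha hd (abs_nonneg _) hQ0
      have h4 : |(b : ℝ) * c| ≤ (q : ℝ) ^ (A + 1) * (q : ℝ) ^ (A + 1) := by
        rw [abs_mul]
        exact mul_le_mul hb hc (abs_nonneg _) hQ0
      have h5 := (abs_le.1 h3).2
      have h6 := (abs_le.1 h4).1
      have h7 : 2 * (q : ℝ) ^ (2 * A + 2) = 2 * ((q : ℝ) ^ (A + 1) * (q : ℝ) ^ (A + 1)) := by
        ring
      rw [h7, hNr]
      linarith
    obtain ⟨-, -, him⟩ := im_mobC (a := a) (b := b) (c := c) (d := d) hY hposr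
    have hφ : mob ((a : ℝ) : ℂ) ((b : ℝ) : ℂ) ((c : ℝ) : ℂ) ((d : ℝ) : ℂ) (S.Y r) = S.φ i r := by
      have hQ' : (q : ℂ) ^ A ≠ 0 := pow_ne_zero _ hqc
      simp only [Complex.ofReal_intCast]
      rw [ea, eb, ec, ed, MO.φ, mob, mob, mul_assoc, mul_assoc, ← mul_add, ← mul_add,
        mul_div_mul_left _ _ hQ']
    rw [hφ] at him
    obtain ⟨f1, f2, f3, f4⟩ := D3_formulas S i r hqc hN0 hdet τ ⟨S.φ i r, him⟩ rfl rfl ea eb ec ed
    obtain ⟨r0, r1, r2⟩ := hK τ ⟨S.φ i r, him⟩ a b c d N q A _ _ _ hN0 hdet f1 hq f2 f3 f4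
    have hsz := D3_size (K := K) (A := A) (N := N) hq hNle hQ
    rw [hJ]
    fin_cases k
    · exact r0.mono hsz
    · exact r1.mono hsz
    · exact r2.mono hsz
  · change RootRel _ _ (r s)
    have hAq : (A : ℝ) ≤ q := by
      have : A ≤ q := by omega
      exact_mod_cast this
    have h1 : (q : ℝ) ≤ (q : ℝ) ^ (52 * A + 60) := by
      calc (q : ℝ) = (q : ℝ) ^ 1 := (pow_one _).symm
        _ ≤ (q : ℝ) ^ (52 * A + 60) := pow_le_pow_right₀ hq1 (by omega)
    have h2 : (q : ℝ) ^ A ≤ (q : ℝ) ^ (52 * A + 60) := pow_le_pow_right₀ hq1 (by omega)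
    have h3 : (q : ℝ) ^ (52 * A + 60) ≤ Real.exp ((q : ℝ) ^ (52 * A + 60)) := by
      have := Real.add_one_le_exp ((q : ℝ) ^ (52 * A + 60))
      linarith
    exact D3_alg (hs s) (hAq.trans h1) (by positivity) (h2.trans h3)

end AK

end S_H32_AK_D3

section S_H32_AK_D5

set_option autoImplicit false
set_option linter.unusedSimpArgs false

open UpperHalfPlane hiding I
open Complex EisensteinSeries ModularForm MatrixGroups Manifold
open scoped Real Topology
open MvPolynomial Filter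

namespace AK

open H32 H32.T3 H32.T4 AO

private theorem D5_mono {A B : Subalgebra ℂ Ult} (h : A ≤ B) {x : Ult} (hx : IsAlgebraic A x) :
    IsAlgebraic B x := by
  let _ : Algebra A B := (Subalgebra.inclusion h).toAlgebra
  have : IsScalarTower A B Ult := IsScalarTower.of_algebraMap_eq (fun _ => rfl)
  exact hx.extendScalars (Subalgebra.inclusion_injective h)

theorem rank_MO {M n : ℕ} (S : MO M n) (h4 : e4 (S.Y S.x) ≠ 0) (h6 : e6 (S.Y S.x) ≠ 0)
    (r : ℕ → Fin M → ℂ) (hr : Tendsto r atTop (𝓝 S.x))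
    (hY : IsAlgebraic (Algebra.adjoin ℂ (Set.range fun s : Fin M ↦ mkU (fun k ↦ r k s)))
      (mkU (fun k ↦ S.Y (r k))))
    (hX : AlgebraicIndependent ℂ (Sum.elim
      (fun p : Fin (n + 1) × Fin 3 ↦ mkU (fun k ↦ ee (S.ψ p.1 (r k)) p.2))
      (fun s : Fin M ↦ mkU (fun k ↦ r k s)))) :
    AlgebraicIndependent ℂ (Sum.elim (fun j ↦ mkU (fun k ↦ S.WF (r k) j))
      (fun _ : Unit ↦ mkU (fun k ↦ jc (S.Y (r k))))) := by
  classical
  set MM := AlgebraicIndependent.matroid ℂ Ult with hM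
  set J : Ult := mkU (fun k ↦ jc (S.Y (r k))) with hJ
  set a : Ult := mkU (fun k ↦ e4 (S.Y (r k))) with ha
  set b : Ult := mkU (fun k ↦ e6 (S.Y (r k))) with hb
  set c2 : Ult := mkU (fun k ↦ e2 (S.Y (r k))) with hc2
  set dY : Ult := mkU (fun k ↦ dlt (S.Y (r k))) with hdY
  set VS : ((Fin n × Fin 3) ⊕ Fin M) ⊕ Fin 3 → Ult :=
    Sum.elim (fun j ↦ mkU (fun k ↦ S.WF (r k) j)) ![J, a, c2] with hVS
  set D : Subalgebra ℂ Ult := Algebra.adjoin ℂ (Set.range VS) with hD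
  have hgen : ∀ v ∈ Set.range VS, IsAlgebraic D v := by
    intro v hv
    exact isAlgebraic_algebraMap (⟨v, Algebra.subset_adjoin hv⟩ : D)
  have aR : ∀ r : ℂ, IsAlgebraic D (algebraMap ℂ Ult r) := fun r ↦ by
    rw [IsScalarTower.algebraMap_apply ℂ D Ult]
    exact isAlgebraic_algebraMap _
  have ar : ∀ s, IsAlgebraic D (mkU (fun k ↦ r k s)) := fun s ↦ hgen _ ⟨Sum.inl (Sum.inr s), rfl⟩
  have aJ : IsAlgebraic D J := hgen _ ⟨Sum.inr 0, rfl⟩
  have aa : IsAlgebraic D a := hgen _ ⟨Sum.inr 1, rfl⟩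
  have ac2 : IsAlgebraic D c2 := hgen _ ⟨Sum.inr 2, rfl⟩
  have aP : ∀ p : MvPolynomial (Fin M) ℤ, IsAlgebraic D (mkU (fun k ↦ aeval (r k) p)) := by
    intro p
    induction p using MvPolynomial.induction_on with
    | C c =>
      have e : (fun k ↦ aeval (r k) (C c : MvPolynomial (Fin M) ℤ)) = fun _ : ℕ ↦ (c : ℂ) := by
        ext k
        simp
      rw [e]
      exact aR c
    | add p q hp hq =>
      have e : (fun k ↦ aeval (r k) (p + q)) = (fun k ↦ aeval (r k) p) + fun k ↦ aeval (r k) q := by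
        ext k
        simp
      rw [e, map_add]
      exact hp.add hq
    | mul_X p s hp =>
      have e : (fun k ↦ aeval (r k) (p * X s)) = (fun k ↦ aeval (r k) p) * fun k ↦ r k s := by
        ext k
        simp
      rw [e, map_mul]
      exact hp.mul (ar s)
  have aY : IsAlgebraic D (mkU (fun k ↦ S.Y (r k))) := by
    refine D5_mono ?_ hY
    apply Algebra.adjoin_le
    rintro _ ⟨s, rfl⟩
    exact Algebra.subset_adjoin ⟨Sum.inl (Sum.inr s), rfl⟩
  -- eventually nonzero quantities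
  have hYt : Tendsto (fun k ↦ S.Y (r k)) atTop (𝓝 (S.Y S.x)) :=
    S.an.continuousAt.tendsto.comp hr
  have hdenE : ∀ i, ∀ᶠ k in atTop, S.den i (r k) ≠ 0 := fun i ↦
    ((S.an_den i).continuousAt.tendsto.comp hr).eventually_ne (S.den_x i)
  have hdtE : ∀ i, ∀ᶠ k in atTop, aeval (r k) (S.dt i) ≠ 0 := fun i ↦
    ((an_aeval (S.dt i) S.x).continuousAt.tendsto.comp hr).eventually_ne (S.dt_x i)
  have h4E : ∀ᶠ k in atTop, e4 (S.Y (r k)) ≠ 0 :=
    (((analytic_E4 _ S.im0).continuousAt.tendsto).comp hYt).eventually_ne h4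
  have h6E : ∀ᶠ k in atTop, e6 (S.Y (r k)) ≠ 0 :=
    (((analytic_E6 _ S.im0).continuousAt.tendsto).comp hYt).eventually_ne h6
  have himE : ∀ᶠ k in atTop, 0 < (S.Y (r k)).im :=
    (Complex.continuous_im.continuousAt.tendsto.comp hYt).eventually (lt_mem_nhds S.im0)
  have hdlE : ∀ᶠ k in atTop, dlt (S.Y (r k)) ≠ 0 := himE.mono fun k hk ↦ dlt_ne hk
  have ha0 : a ≠ 0 := by
    intro h0
    obtain ⟨k, h1, h2⟩ := ((freq_of_mkU_zero h0).and_eventually h4E).exists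
    exact h2 h1
  have hb0 : b ≠ 0 := by
    intro h0
    obtain ⟨k, h1, h2⟩ := ((freq_of_mkU_zero h0).and_eventually h6E).exists
    exact h2 h1
  have hdY0 : dY ≠ 0 := by
    intro h0
    obtain ⟨k, h1, h2⟩ := ((freq_of_mkU_zero h0).and_eventually hdlE).exists
    exact h2 h1
  have hJr : J * dY = a ^ 3 := by
    rw [hJ, hdY, ha, ← map_pow, ← map_mul, ← sub_eq_zero, ← map_sub]
    refine mkU_zero_of_ev (hdlE.mono fun k k2 ↦ ?_)
    simp only [Pi.sub_apply, Pi.mul_apply, Pi.pow_apply]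
    rw [dlt] at k2 ⊢
    have k3 : e4 (S.Y (r k)) ^ 3 - e6 (S.Y (r k)) ^ 2 ≠ 0 := by
      intro h
      rw [h, zero_div] at k2
      exact k2 rfl
    rw [jc]
    field_simp
    ring
  have hJ0 : J ≠ 0 := by
    intro h
    rw [h, zero_mul] at hJr
    exact pow_ne_zero 3 ha0 hJr.symm
  have hbr : b ^ 2 = a ^ 3 - algebraMap ℂ Ult 1728 * dY := by
    rw [algebraMap_Ult, hdY, ha, hb, ← map_pow, ← map_pow, ← map_mul, ← map_sub]
    congr 1
    funext k
    simp only [Pi.sub_apply, Pi.mul_apply, Pi.pow_apply]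
    rw [dlt]
    ring
  have adY : IsAlgebraic D dY := by
    have e : dY = a ^ 3 * J⁻¹ := by
      rw [← hJr]
      field_simp
    rw [e]
    exact (aa.pow 3).mul aJ.inv
  have ab : IsAlgebraic D b := by
    apply IsAlgebraic.of_pow (n := 2) (by norm_num)
    rw [hbr]
    exact (aa.pow 3).sub ((aR _).mul adY)
  set g2 : Fin n → Ult := fun i ↦ mkU (fun k ↦ e2 (S.φ i (r k))) with hg2
  set g4 : Fin n → Ult := fun i ↦ mkU (fun k ↦ e4 (S.φ i (r k))) with hg4
  set g6 : Fin n → Ult := fun i ↦ mkU (fun k ↦ e6 (S.φ i (r k))) with hg6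
  have hpi : (π : ℂ) ≠ 0 := by exact_mod_cast Real.pi_ne_zero
  have key : ∀ i, IsAlgebraic D (g2 i) ∧ IsAlgebraic D (g4 i) ∧ IsAlgebraic D (g6 i) := by
    intro i
    set dn : Ult := mkU (fun k ↦ S.den i (r k)) with hdn
    set dd : Ult := mkU (fun k ↦ aeval (r k) (S.dt i)) with hdd
    have hdn0 : dn ≠ 0 := by
      intro h0
      obtain ⟨k, h1, h2⟩ := ((freq_of_mkU_zero h0).and_eventually (hdenE i)).exists
      exact h2 h1
    have hdd0 : dd ≠ 0 := by
      intro h0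
      obtain ⟨k, h1, h2⟩ := ((freq_of_mkU_zero h0).and_eventually (hdtE i)).exists
      exact h2 h1
    have adn : IsAlgebraic D dn := by
      have e : dn = mkU (fun k ↦ aeval (r k) (S.pC i)) * mkU (fun k ↦ S.Y (r k)) +
          mkU (fun k ↦ aeval (r k) (S.pD i)) := by
        rw [← map_mul, ← map_add]
        rfl
      rw [e]
      exact ((aP _).mul aY).add (aP _)
    have add' : IsAlgebraic D dd := aP _
    have a0 : IsAlgebraic D (VS (Sum.inl (Sum.inl (i, 0)))) := hgen _ ⟨_, rfl⟩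
    have a1 : IsAlgebraic D (VS (Sum.inl (Sum.inl (i, 1)))) := hgen _ ⟨_, rfl⟩
    have a2 : IsAlgebraic D (VS (Sum.inl (Sum.inl (i, 2)))) := hgen _ ⟨_, rfl⟩
    -- relations
    have r0 : VS (Sum.inl (Sum.inl (i, 0))) * dn ^ 4 * dY = dd ^ 4 * g4 i * a ^ 2 := by
      rw [hdn, hdd, hVS, hg4, ha, hdY]
      simp only [Sum.elim_inl]
      rw [← map_pow, ← map_pow, ← map_pow, ← map_mul, ← map_mul, ← map_mul, ← map_mul,
        ← sub_eq_zero, ← map_sub]
      refine mkU_zero_of_ev (((hdenE i).and hdlE).mono fun k k2 ↦ ?_)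
      obtain ⟨k2, k3⟩ := k2
      simp only [Pi.sub_apply, Pi.mul_apply, Pi.pow_apply]
      change (aeval (r k) (S.dt i) / S.den i (r k)) ^ 4 * e4 (S.φ i (r k)) * e4 (S.Y (r k)) ^ 2 /
        dlt (S.Y (r k)) * _ * _ - _ = 0
      field_simp
      ring
    have r1 : VS (Sum.inl (Sum.inl (i, 1))) * dn ^ 6 * dY = dd ^ 6 * g6 i * b := by
      rw [hdn, hdd, hVS, hg6, hb, hdY]
      simp only [Sum.elim_inl]
      rw [← map_pow, ← map_pow, ← map_mul, ← map_mul, ← map_mul, ← map_mul, ← sub_eq_zero,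
        ← map_sub]
      refine mkU_zero_of_ev (((hdenE i).and hdlE).mono fun k k2 ↦ ?_)
      obtain ⟨k2, k3⟩ := k2
      simp only [Pi.sub_apply, Pi.mul_apply, Pi.pow_apply]
      change (aeval (r k) (S.dt i) / S.den i (r k)) ^ 6 * e6 (S.φ i (r k)) * e6 (S.Y (r k)) /
        dlt (S.Y (r k)) * _ * _ - _ = 0
      field_simp
      ring
    have r2 : VS (Sum.inl (Sum.inl (i, 2))) * dY * dn ^ 2 =
        (dd ^ 2 * g2 i - dd * c2 * dn ^ 2 +
          algebraMap ℂ Ult (6 * Complex.I / π) * dd * mkU (fun k ↦ aeval (r k) (S.pC i)) * dn) *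
          (a * b) := by
      rw [algebraMap_Ult, hdn, hdd, hVS, hg2, ha, hb, hc2, hdY]
      simp only [Sum.elim_inl]
      rw [← map_pow, ← map_pow, ← map_mul, ← map_mul, ← map_mul, ← map_mul, ← map_mul, ← map_mul,
        ← map_mul, ← map_mul, ← map_mul, ← map_sub, ← map_add, ← map_mul, ← sub_eq_zero, ← map_sub]
      refine mkU_zero_of_ev (((hdenE i).and hdlE).mono fun k k2 ↦ ?_)
      obtain ⟨k2, k3⟩ := k2
      simp only [Pi.sub_apply, Pi.mul_apply, Pi.pow_apply, Pi.add_apply]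
      change ((aeval (r k) (S.dt i) / S.den i (r k)) ^ 2 * e2 (S.φ i (r k)) -
        aeval (r k) (S.dt i) * e2 (S.Y (r k)) +
        6 * Complex.I * aeval (r k) (S.dt i) * aeval (r k) (S.pC i) / (π * S.den i (r k))) *
        (e4 (S.Y (r k)) * e6 (S.Y (r k))) / dlt (S.Y (r k)) * _ * _ - _ = 0
      field_simp
      ring
    refine ⟨?_, ?_, ?_⟩
    · have e : g2 i = (VS (Sum.inl (Sum.inl (i, 2))) * dY * dn ^ 2 *
          (a * b)⁻¹ +
          (dd * c2 * dn ^ 2 -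
          algebraMap ℂ Ult (6 * Complex.I / π) * dd * mkU (fun k ↦ aeval (r k) (S.pC i)) * dn)) *
          (dd ^ 2)⁻¹ := by
        rw [eq_mul_inv_iff_mul_eq₀ (pow_ne_zero 2 hdd0), r2,
          mul_inv_cancel_right₀ (mul_ne_zero ha0 hb0)]
        ring
      rw [e]
      exact ((((a2.mul adY).mul (adn.pow 2)).mul (aa.mul ab).inv).add
        (((add'.mul ac2).mul (adn.pow 2)).sub
          ((((aR _).mul add').mul (aP _)).mul adn))).mul (add'.pow 2).inv
    · have e : g4 i = VS (Sum.inl (Sum.inl (i, 0))) * dn ^ 4 * dY *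
          (dd ^ 4 * a ^ 2)⁻¹ := by
        rw [eq_mul_inv_iff_mul_eq₀ (mul_ne_zero (pow_ne_zero 4 hdd0) (pow_ne_zero 2 ha0)), r0]
        ring
      rw [e]
      exact ((a0.mul (adn.pow 4)).mul adY).mul ((add'.pow 4).mul (aa.pow 2)).inv
    · have e : g6 i = VS (Sum.inl (Sum.inl (i, 1))) * dn ^ 6 * dY *
          (dd ^ 6 * b)⁻¹ := by
        rw [eq_mul_inv_iff_mul_eq₀ (mul_ne_zero (pow_ne_zero 6 hdd0) hb0), r1]
        ring
      rw [e]
      exact ((a1.mul (adn.pow 6)).mul adY).mul ((add'.pow 6).mul ab).inv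
  set et : (Fin (n + 1) × Fin 3) ⊕ Fin M → Ult :=
    Sum.elim (fun p : Fin (n + 1) × Fin 3 ↦ mkU (fun k ↦ ee (S.ψ p.1 (r k)) p.2))
      (fun s : Fin M ↦ mkU (fun k ↦ r k s)) with het
  have hind : MM.Indep (Set.range et) := by
    rw [hM, AlgebraicIndependent.matroid_indep_iff]
    exact hX.to_subtype_range
  have hcardE : Fintype.card ((Fin (n + 1) × Fin 3) ⊕ Fin M) = 3 * (n + 1) + M := by
    rw [Fintype.card_sum, Fintype.card_prod, Fintype.card_fin, Fintype.card_fin, Fintype.card_fin,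
      mul_comm (n + 1) 3]
  have hcardI : Fintype.card (((Fin n × Fin 3) ⊕ Fin M) ⊕ Fin 3) = 3 * (n + 1) + M := by
    rw [Fintype.card_sum, Fintype.card_sum, Fintype.card_prod, Fintype.card_fin, Fintype.card_fin,
      Fintype.card_fin]
    ring
  have hcard : (Set.range et).encard = ((3 * (n + 1) + M : ℕ) : ℕ∞) := by
    rw [← Set.image_univ, hX.injective.encard_image, Set.encard_univ, ENat.card_eq_coe_fintype_card,
      hcardE]
  have hsub : Set.range et ⊆ MM.closure (Set.range VS) := by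
    rw [hM, AlgebraicIndependent.matroid_closure_eq]
    rintro _ ⟨u, rfl⟩
    change IsAlgebraic D (et u)
    rcases u with ⟨i, l⟩ | s
    · refine Fin.cases ?_ (fun i ↦ ?_) i
      · fin_cases l
        · exact ac2
        · exact aa
        · exact ab
      · fin_cases l
        · exact (key i).1
        · exact (key i).2.1
        · exact (key i).2.2
    · exact ar s
  obtain ⟨B, hB'⟩ := MM.exists_isBasis (Set.range VS) (by rw [hM]; exact Set.subset_univ _)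
  have h1 : ((3 * (n + 1) + M : ℕ) : ℕ∞) ≤ B.encard := by
    rw [hB'.encard_eq_eRk, ← MM.eRk_closure_eq, ← hcard]
    exact hind.encard_le_eRk_of_subset hsub
  have hBi := hB'.indep
  rw [hM, AlgebraicIndependent.matroid_indep_iff] at hBi
  obtain ⟨f, hf⟩ := extract_indep' VS (B := B) hBi hB'.subset h1
  have hVi : AlgebraicIndependent ℂ VS := indep_of_card VS hcardI hf
  have hinj : Function.Injective (Sum.map id (fun _ : Unit ↦ (0 : Fin 3)) :
      ((Fin n × Fin 3) ⊕ Fin M) ⊕ Unit → ((Fin n × Fin 3) ⊕ Fin M) ⊕ Fin 3) :=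
    Sum.map_injective.2 ⟨Function.injective_id, fun _ _ _ ↦ rfl⟩
  have h2 := hVi.comp _ hinj
  have h3 : VS ∘ (Sum.map id (fun _ : Unit ↦ (0 : Fin 3))) =
      Sum.elim (fun j ↦ mkU (fun k ↦ S.WF (r k) j)) (fun _ : Unit ↦ J) := by
    funext u
    rcases u with u | u
    · rfl
    · rfl
  rw [h3] at h2
  exact h2

end AK

end S_H32_AK_D5
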