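import Mathlib
import Pool.Agent.H32.AKM.P04
import Pool.Agent.H32.AKM.P08
import Pool.Agent.H32.AKM.P20

/-! Modular Schanuel with derivatives for points algebraic over a field with good approximations, part 30: this file joins several modules to save build time. -/

section S_H32_AO_A8

set_option autoImplicit false

namespace AO

open CZ Polynomial
open H32.T3 (nrm)

private theorem A8_base (θ : ℂ) (hθ : Transcendental ℚ θ) : ∃ T0 : ℕ, ∀ T : ℕ, T0 ≤ T → 1 ≤ T →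
    ∃ s W : ℝ, 1 ≤ s ∧ s ≤ 4 * T ∧ T * s ≤ 12 * W ∧ ApprAt ![θ] s W := by
  have hae : ∀ f : ℤ[X], f ≠ 0 → aeval θ f ≠ 0 := by
    intro f hf h
    exact hθ ((IsFractionRing.isAlgebraic_iff ℤ ℚ ℂ).1 ⟨f, hf, h⟩)
  obtain ⟨T0, hT0⟩ := AZ.line_poly θ
  refine ⟨T0, fun T hTT0 hT1 => ?_⟩
  have hT1r : (1 : ℝ) ≤ T := by exact_mod_cast hT1
  have hT0r : (0 : ℝ) < T := by linarith
  obtain ⟨f, hf0, hfs, hfv⟩ := hT0 T hTT0
  obtain ⟨r, hr, hn, -, hsz, hV⟩ := good_factor f hf0 θ ((T : ℝ) ^ 2 / 3) (by positivity) (hae f hf0) hfv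
  obtain ⟨W, hA, hW⟩ := AZ.line_local θ hθ r hr hn
  obtain ⟨s, hs⟩ : ∃ s : ℝ, s = r.natDegree + Real.log (mah r) := ⟨_, rfl⟩
  rw [← hs] at hA hsz hV
  have hmah : 1 ≤ mah r := one_le_mah hr.ne_zero
  have hlog0 : 0 ≤ Real.log (mah r) := Real.log_nonneg hmah
  have hn1 : (1 : ℝ) ≤ r.natDegree := by exact_mod_cast hn
  have hs1 : 1 ≤ s := by linarith
  have hs4 : s ≤ 4 * T := hsz.trans hfs
  have hW0 : T * s ≤ 12 * W := by
    have h0 : 0 < (T : ℝ) ^ 2 / 3 * s := by positivity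
    have h2 : 0 < -Real.log ‖aeval θ r‖ := by
      by_contra hcon
      have h3 : -Real.log ‖aeval θ r‖ ≤ 0 := not_lt.1 hcon
      have h4 : 0 ≤ (f.natDegree : ℝ) + Real.log (mah f) := by linarith
      have h5 := mul_nonpos_of_nonneg_of_nonpos h4 h3
      linarith
    have h3 : (T : ℝ) ^ 2 / 3 * s ≤ 4 * T * (-Real.log ‖aeval θ r‖) :=
      hV.trans (mul_le_mul_of_nonneg_right hfs h2.le)
    have h4 : (T : ℝ) ^ 2 / 3 * s ≤ 4 * T * W :=
      h3.trans (mul_le_mul_of_nonneg_left hW (by positivity))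
    have h5 : (T : ℝ) * (T * s) ≤ T * (12 * W) := by nlinarith
    exact le_of_mul_le_mul_left h5 hT0r
  exact ⟨s, W, hs1, hs4, hW0, hA⟩

private theorem A8_num (κ' y s W : ℝ) (c D : ℕ) (h1κ : 1 ≤ κ') (hκ2 : κ' < 2)
    (hD : c * (κ' + 1) + 1 ≤ D * (2 - κ')) (hy : 48 ≤ y) (hs1 : 1 ≤ s) (hs4 : s ≤ 4 * y ^ D)
    (hW : y ^ D * s ≤ 12 * W) : (y ^ c * s) ^ κ' * y ^ c ≤ W := by
  have hy0 : 0 < y := by linarith
  have hy1 : 1 ≤ y := by linarith
  have hs0 : 0 < s := by linarith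
  have e1 : (y ^ c * s) ^ κ' = y ^ (c * κ') * (s * s ^ (κ' - 1)) := by
    rw [Real.mul_rpow (by positivity) hs0.le, ← Real.rpow_natCast y c, ← Real.rpow_mul hy0.le]
    congr 1
    rw [← Real.rpow_one_add' hs0.le (by linarith)]
    congr 1
    ring
  have e2 : s ^ (κ' - 1) ≤ 4 * y ^ (D * (κ' - 1)) := by
    have h1 : s ^ (κ' - 1) ≤ (4 * y ^ D) ^ (κ' - 1) :=
      Real.rpow_le_rpow hs0.le hs4 (by linarith)
    have h2 : (4 * y ^ D) ^ (κ' - 1) = (4 : ℝ) ^ (κ' - 1) * y ^ (D * (κ' - 1)) := by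
      rw [Real.mul_rpow (by norm_num) (by positivity), ← Real.rpow_natCast y D,
        ← Real.rpow_mul hy0.le]
    have h3 : (4 : ℝ) ^ (κ' - 1) ≤ 4 := by
      have := Real.rpow_le_rpow_of_exponent_le (show (1 : ℝ) ≤ 4 by norm_num)
        (show κ' - 1 ≤ 1 by linarith)
      rwa [Real.rpow_one] at this
    rw [h2] at h1
    exact h1.trans (mul_le_mul_of_nonneg_right h3 (Real.rpow_nonneg hy0.le _))
  have e3 : 48 * (y ^ (c * κ') * y ^ (D * (κ' - 1)) * y ^ c) ≤ y ^ D := by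
    have h1 : y ^ (c * κ') * y ^ (D * (κ' - 1)) * y ^ c =
        y ^ (c * κ' + D * (κ' - 1) + c) := by
      rw [← Real.rpow_natCast y c, ← Real.rpow_add hy0, ← Real.rpow_add hy0]
    have h2 : 48 * y ^ (c * κ' + D * (κ' - 1) + c) ≤
        y * y ^ (c * κ' + D * (κ' - 1) + c) :=
      mul_le_mul_of_nonneg_right hy (Real.rpow_nonneg hy0.le _)
    have h3 : y * y ^ (c * κ' + D * (κ' - 1) + c) =
        y ^ (1 + (c * κ' + D * (κ' - 1) + c)) := by
      rw [Real.rpow_add hy0 1, Real.rpow_one]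
    rw [h1]
    refine h2.trans ?_
    rw [h3, ← Real.rpow_natCast y D]
    refine Real.rpow_le_rpow_of_exponent_le hy1 ?_
    linarith
  have hp1 : 0 ≤ y ^ (c * κ') := Real.rpow_nonneg hy0.le _
  have hp2 : 0 ≤ y ^ c := by positivity
  have h4 : y ^ (c * κ') * (s * s ^ (κ' - 1)) * y ^ c ≤
      y ^ (c * κ') * (s * (4 * y ^ (D * (κ' - 1)))) * y ^ c := by
    gcongr
  have h5 : 12 * (y ^ (c * κ') * (s * (4 * y ^ (D * (κ' - 1)))) * y ^ c) =
      s * (48 * (y ^ (c * κ') * y ^ (D * (κ' - 1)) * y ^ c)) := by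
    ring
  have h6 : s * (48 * (y ^ (c * κ') * y ^ (D * (κ' - 1)) * y ^ c)) ≤ s * y ^ D :=
    mul_le_mul_of_nonneg_left e3 hs0.le
  rw [e1]
  have h7 : s * y ^ D = y ^ D * s := mul_comm _ _
  linarith

theorem line_sc (θ : ℂ) (hθ : Transcendental ℚ θ) (κ : ℝ) (hκ : κ < 2) : ScAppr ![θ] κ := by
  obtain ⟨T0, hT0⟩ := A8_base θ hθ
  obtain ⟨κ', hκ'⟩ : ∃ κ' : ℝ, κ' = max κ 1 := ⟨_, rfl⟩
  have hκκ : κ ≤ κ' := by rw [hκ']; exact le_max_left _ _
  have h1κ : 1 ≤ κ' := by rw [hκ']; exact le_max_right _ _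
  have hκ2 : κ' < 2 := by rw [hκ']; exact max_lt hκ (by norm_num)
  intro c
  obtain ⟨D, hD⟩ : ∃ D : ℕ, c * (κ' + 1) + 1 ≤ D * (2 - κ') := by
    refine ⟨⌈(c * (κ' + 1) + 1) / (2 - κ')⌉₊, ?_⟩
    have h1 := Nat.le_ceil ((c * (κ' + 1) + 1) / (2 - κ'))
    rwa [div_le_iff₀ (by linarith)] at h1
  have hD1 : D ≠ 0 := by
    rintro rfl
    rw [Nat.cast_zero, zero_mul] at hD
    have : 0 ≤ (c : ℝ) * (κ' + 1) := by positivity
    linarith
  refine ⟨D + 1, max T0 48, fun N hN => ?_⟩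
  have hNT : T0 ≤ N := (le_max_left _ _).trans hN
  have hN48 : 48 ≤ N := (le_max_right _ _).trans hN
  have hND : N ≤ N ^ D := Nat.le_self_pow hD1 N
  obtain ⟨s, W, hs1, hs4, hW, hA⟩ := hT0 (N ^ D) (hNT.trans hND) (by omega)
  rw [Nat.cast_pow] at hs4 hW
  have hy : (48 : ℝ) ≤ N := by exact_mod_cast hN48
  refine ⟨s, W, hs1, ?_, ?_, hA⟩
  · rw [pow_succ]
    have h0 : (0 : ℝ) ≤ (N : ℝ) ^ D := by positivity
    nlinarith
  · have h2 : (1 : ℝ) ≤ (N : ℝ) ^ c * s := by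
      have h3 : (1 : ℝ) ≤ (N : ℝ) ^ c := one_le_pow₀ (by linarith)
      nlinarith
    have h4 : ((N : ℝ) ^ c * s) ^ κ ≤ ((N : ℝ) ^ c * s) ^ κ' :=
      Real.rpow_le_rpow_of_exponent_le h2 hκκ
    refine (mul_le_mul_of_nonneg_right h4 (by positivity)).trans ?_
    exact A8_num κ' N s W c D h1κ hκ2 hD hy hs1 hs4 hW

end AO

end S_H32_AO_A8

section S_H32_AO_B1

set_option autoImplicit false

namespace AO

open CZ Polynomial

theorem B1_nr2_zero : nr2 0 = 0 := Polynomial.sum_zero_index _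

theorem B1_nr2_C (a : ℤ[X]) : nr2 (C a) = nr a := by
  unfold nr2
  exact Polynomial.sum_C_index Na_nr_zero

theorem B1_nr2_X : nr2 X = 1 := by
  unfold nr2
  rw [Polynomial.sum_X_index Na_nr_zero, Na_nr_one]

theorem B1_nr2_one : nr2 1 = 1 := by
  rw [← Polynomial.C_1, B1_nr2_C, Na_nr_one]

theorem B1_nr2_sub_le (P Q : ℤ[X][X]) : nr2 (P - Q) ≤ nr2 P + nr2 Q := by
  rw [sub_eq_add_neg, ← nr2_neg Q]
  exact nr2_add_le _ _

theorem B1_nr2_prod_le {ι : Type*} (s : Finset ι) (f : ι → ℤ[X][X]) :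
    nr2 (∏ i ∈ s, f i) ≤ ∏ i ∈ s, nr2 (f i) := by
  classical
  induction s using Finset.induction_on with
  | empty =>
    rw [Finset.prod_empty, Finset.prod_empty, B1_nr2_one]
  | insert i s hi ih =>
    rw [Finset.prod_insert hi, Finset.prod_insert hi]
    exact (nr2_mul_le _ _).trans (mul_le_mul_of_nonneg_left ih (nr2_nonneg _))

/-- All coefficients have degree at most `n`. -/
def B1_Deg (n : ℕ) (P : ℤ[X][X]) : Prop := ∀ k, (P.coeff k).natDegree ≤ n

theorem B1_Deg_mul {n m : ℕ} {P Q : ℤ[X][X]} (hP : B1_Deg n P) (hQ : B1_Deg m Q) :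
    B1_Deg (n + m) (P * Q) := by
  intro k
  rw [Polynomial.coeff_mul]
  refine Polynomial.natDegree_sum_le_of_forall_le _ _ fun x _ => ?_
  exact Polynomial.natDegree_mul_le.trans (add_le_add (hP _) (hQ _))

theorem B1_Deg_sum {n : ℕ} {ι : Type*} (s : Finset ι) (f : ι → ℤ[X][X])
    (h : ∀ i ∈ s, B1_Deg n (f i)) : B1_Deg n (∑ i ∈ s, f i) := by
  intro k
  rw [Polynomial.finsetSum_coeff]
  exact Polynomial.natDegree_sum_le_of_forall_le _ _ fun x hx => h x hx k

theorem B1_Deg_one : B1_Deg 0 1 := by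
  intro k
  rw [Polynomial.coeff_one]
  split_ifs <;> simp

theorem B1_Deg_prod {n : ℕ} {ι : Type*} (s : Finset ι) (f : ι → ℤ[X][X])
    (h : ∀ i ∈ s, B1_Deg n (f i)) : B1_Deg (s.card * n) (∏ i ∈ s, f i) := by
  classical
  induction s using Finset.induction_on with
  | empty =>
    rw [Finset.prod_empty, Finset.card_empty, Nat.zero_mul]
    exact B1_Deg_one
  | insert i s hi ih =>
    rw [Finset.prod_insert hi, Finset.card_insert_of_notMem hi]
    have h1 := B1_Deg_mul (h i (Finset.mem_insert_self i s))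
      (ih fun j hj => h j (Finset.mem_insert_of_mem hj))
    have e : (s.card + 1) * n = n + s.card * n := by ring
    rw [e]
    exact h1

theorem B1_Deg_neg {n : ℕ} {P : ℤ[X][X]} (hP : B1_Deg n P) : B1_Deg n (-P) := by
  intro k
  rw [Polynomial.coeff_neg, Polynomial.natDegree_neg]
  exact hP k

theorem B1_unit (u : ℤˣ) (P : ℤ[X][X]) : u • P = P ∨ u • P = -P := by
  rcases Int.units_eq_one_or u with h | h
  · left
    rw [h, one_smul]
  · right
    rw [h]
    simp [Units.smul_def]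

theorem B1_entry {I : Type} [Fintype I] [DecidableEq I] (A : Matrix I I ℤ[X]) (d : ℕ) (R : ℝ)
    (hd : ∀ a b, (A a b).natDegree ≤ d) (hn : ∀ a b, nr (A a b) ≤ R) (a b : I) :
    nr2 (A.charmatrix a b) ≤ R + 1 ∧ B1_Deg d (A.charmatrix a b) := by
  by_cases hab : a = b
  · subst hab
    rw [Matrix.charmatrix_apply_eq]
    constructor
    · refine (B1_nr2_sub_le _ _).trans ?_
      rw [B1_nr2_X, B1_nr2_C]
      have := hn a a
      linarith
    · intro k
      rw [Polynomial.coeff_sub]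
      refine (Polynomial.natDegree_sub_le _ _).trans (max_le ?_ ?_)
      · rw [Polynomial.coeff_X]
        split_ifs <;> simp
      · rw [Polynomial.coeff_C]
        split_ifs
        · exact hd a a
        · simp
  · rw [Matrix.charmatrix_apply_ne _ _ _ hab]
    constructor
    · rw [nr2_neg, B1_nr2_C]
      have := hn a b
      linarith
    · apply B1_Deg_neg
      intro k
      rw [Polynomial.coeff_C]
      split_ifs
      · exact hd a b
      · simp

theorem B1_char {I : Type} [Fintype I] [DecidableEq I] (A : Matrix I I ℤ[X]) (d : ℕ) (R : ℝ)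
    (hd : ∀ a b, (A a b).natDegree ≤ d) (hn : ∀ a b, nr (A a b) ≤ R) :
    nr2 A.charpoly ≤ (Fintype.card I).factorial * (R + 1) ^ Fintype.card I ∧
      B1_Deg (Fintype.card I * d) A.charpoly := by
  unfold Matrix.charpoly
  rw [Matrix.det_apply]
  constructor
  · refine (nr2_sum_le _ _).trans ?_
    have h1 : ∀ σ : Equiv.Perm I, nr2 (Equiv.Perm.sign σ • ∏ i, A.charmatrix (σ i) i) ≤
        (R + 1) ^ Fintype.card I := by
      intro σ
      have h2 : nr2 (∏ i, A.charmatrix (σ i) i) ≤ (R + 1) ^ Fintype.card I := by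
        refine (B1_nr2_prod_le _ _).trans ?_
        refine (Finset.prod_le_prod (fun i _ => nr2_nonneg _)
          (fun i _ => (B1_entry A d R hd hn (σ i) i).1)).trans ?_
        rw [Finset.prod_const, Finset.card_univ]
      rcases B1_unit (Equiv.Perm.sign σ) (∏ i, A.charmatrix (σ i) i) with h3 | h3
      · rw [h3]
        exact h2
      · rw [h3, nr2_neg]
        exact h2
    refine (Finset.sum_le_sum fun σ _ => h1 σ).trans ?_
    rw [Finset.sum_const, Finset.card_univ, Fintype.card_perm, nsmul_eq_mul]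
  · refine B1_Deg_sum _ _ fun σ _ => ?_
    have h2 : B1_Deg (Fintype.card I * d) (∏ i, A.charmatrix (σ i) i) := by
      rw [← Finset.card_univ]
      exact B1_Deg_prod _ _ fun i _ => (B1_entry A d R hd hn (σ i) i).2
    rcases B1_unit (Equiv.Perm.sign σ) (∏ i, A.charmatrix (σ i) i) with h3 | h3
    · rw [h3]
      exact h2
    · rw [h3]
      exact B1_Deg_neg h2

theorem eigen_lower {I : Type} [Fintype I] [DecidableEq I] (A : Matrix I I ℤ[X]) (d : ℕ) (R : ℝ)
    (hR : 1 ≤ R) (hd : ∀ a b, (A a b).natDegree ≤ d) (hn : ∀ a b, nr (A a b) ≤ R) (J lam : ℂ)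
    (v : I → ℂ) (hv : v ≠ 0) (hlam : lam ≠ 0) (hlam1 : ‖lam‖ ≤ 1)
    (he : ∀ a, ∑ b, aeval J (A a b) * v b = lam * v a) :
    ∃ f : ℤ[X], f ≠ 0 ∧ f.natDegree ≤ Fintype.card I * d ∧
      nr f ≤ (Fintype.card I).factorial * (R + 1) ^ Fintype.card I ∧
      ‖aeval J f‖ ≤ ‖lam‖ * ((Fintype.card I).factorial * (R + 1) ^ Fintype.card I *
        (max 1 ‖J‖) ^ (Fintype.card I * d)) := by
  obtain ⟨h1, h2⟩ := B1_char A d R hd hn
  obtain ⟨χ, hχ⟩ : ∃ χ : ℤ[X][X], χ = A.charpoly := ⟨_, rfl⟩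
  rw [← hχ] at h1 h2
  have hmon : χ.Monic := by
    rw [hχ]
    exact Matrix.charpoly_monic A
  have hχ0 : χ ≠ 0 := hmon.ne_zero
  -- the root
  obtain ⟨φ, hφ⟩ : ∃ φ : ℤ[X] →+* ℂ, ∀ p, φ p = aeval J p :=
    ⟨(aeval J : ℤ[X] →ₐ[ℤ] ℂ).toRingHom, fun p => rfl⟩
  have hroot : χ.eval₂ φ lam = 0 := by
    rw [← Polynomial.eval_map, hχ, ← Matrix.charpoly_map, Matrix.eval_charpoly]
    rw [← Matrix.exists_mulVec_eq_zero_iff]
    refine ⟨v, hv, ?_⟩
    funext a
    rw [Matrix.sub_mulVec]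
    simp only [Pi.sub_apply, Pi.zero_apply]
    have e1 : (Matrix.scalar I lam).mulVec v a = lam * v a := by
      rw [Matrix.scalar_apply, Matrix.mulVec_diagonal]
    have e2 : (A.map φ).mulVec v a = ∑ b, aeval J (A a b) * v b := by
      unfold Matrix.mulVec
      unfold dotProduct
      refine Finset.sum_congr rfl fun b _ => ?_
      show φ (A a b) * v b = _
      rw [hφ]
    have e3 : (φ.mapMatrix A).mulVec v a = (A.map φ).mulVec v a := rfl
    first
      | rw [e1, e3, e2, he, sub_self]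
      | rw [e1, e2, he, sub_self]
  obtain ⟨n, hn0⟩ : ∃ n, n = χ.natTrailingDegree := ⟨_, rfl⟩
  have hf0 : χ.coeff n ≠ 0 := by
    rw [hn0]
    exact Polynomial.coeff_natTrailingDegree_ne_zero.2 hχ0
  have hfl : ∀ i, i < n → χ.coeff i = 0 := by
    intro i hi
    rw [hn0] at hi
    exact Polynomial.coeff_eq_zero_of_lt_natTrailingDegree hi
  have hnd : n ∈ Finset.range (χ.natDegree + 1) := by
    rw [Finset.mem_range, Nat.lt_succ_iff, hn0]
    exact Polynomial.natTrailingDegree_le_natDegree χ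
  rw [Polynomial.eval₂_eq_sum_range, ← Finset.add_sum_erase _ _ hnd] at hroot
  have hB : (1 : ℝ) ≤ max 1 ‖J‖ := le_max_left _ _
  have hl0 : 0 < ‖lam‖ := norm_pos_iff.2 hlam
  refine ⟨χ.coeff n, hf0, h2 n, (nr_coeff_le_nr2 χ n).trans h1, ?_⟩
  have hterm : ∀ i ∈ (Finset.range (χ.natDegree + 1)).erase n,
      ‖φ (χ.coeff i) * lam ^ i‖ ≤
        nr (χ.coeff i) * ((max 1 ‖J‖) ^ (Fintype.card I * d) * ‖lam‖ ^ (n + 1)) := by
    intro i hi
    have hin : i ≠ n := (Finset.mem_erase.1 hi).1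
    rcases lt_or_ge i n with h3 | h3
    · rw [hfl i h3, map_zero, zero_mul, norm_zero, Na_nr_zero, zero_mul]
    · have h4 : n + 1 ≤ i := by omega
      rw [norm_mul, norm_pow, ← mul_assoc]
      refine mul_le_mul ?_ (pow_le_pow_of_le_one (norm_nonneg _) hlam1 h4) (by positivity)
        (mul_nonneg (nr_nonneg _) (by positivity))
      rw [hφ]
      refine (norm_aeval_le _ J _ hB (le_max_right _ _)).trans ?_
      exact mul_le_mul_of_nonneg_left (pow_le_pow_right₀ hB (h2 i)) (nr_nonneg _)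
  have h5 : ‖φ (χ.coeff n) * lam ^ n‖ ≤
      nr2 χ * ((max 1 ‖J‖) ^ (Fintype.card I * d) * ‖lam‖ ^ (n + 1)) := by
    have h6 : φ (χ.coeff n) * lam ^ n =
        -∑ i ∈ (Finset.range (χ.natDegree + 1)).erase n, φ (χ.coeff i) * lam ^ i := by
      linear_combination hroot
    rw [h6, norm_neg]
    refine (norm_sum_le _ _).trans ((Finset.sum_le_sum hterm).trans ?_)
    rw [← Finset.sum_mul]
    exact mul_le_mul_of_nonneg_right (sum_nr_coeff_le_nr2 χ _) (by positivity)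
  rw [norm_mul, norm_pow, hφ] at h5
  have h7 : ‖aeval J (χ.coeff n)‖ * ‖lam‖ ^ n ≤
      (‖lam‖ * (nr2 χ * (max 1 ‖J‖) ^ (Fintype.card I * d))) * ‖lam‖ ^ n := by
    refine h5.trans (le_of_eq ?_)
    ring
  have h8 := le_of_mul_le_mul_right h7 (by positivity)
  refine h8.trans ?_
  exact mul_le_mul_of_nonneg_left (mul_le_mul_of_nonneg_right h1 (by positivity)) hl0.le

end AO

end S_H32_AO_B1

section S_H32_AO_B2

set_option autoImplicit false

namespace AO

open CZ Polynomial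

private theorem B2_nr_C (z : ℤ) : nr (C z) = |(z : ℝ)| := by
  unfold nr
  rw [Polynomial.sum_C_index (by simp)]

/-- the companion matrix -/
private noncomputable def B2_K (M : ℕ) (r : ℕ → ℤ[X]) (c : ℤ) : Matrix (Fin M) (Fin M) ℤ[X] :=
  fun a b => if (a : ℕ) + 1 < M then (if (b : ℕ) = a + 1 then 1 else 0)
    else -(r b * C (c ^ (M - 1 - (b : ℕ))))

theorem companion_pow {M : ℕ} (hM : 0 < M) (J w : ℂ) (r : ℕ → ℤ[X]) (c : ℤ) (hc : r M = C c)
    (hrel : ∑ i ∈ Finset.range (M + 1), aeval J (r i) * w ^ i = 0) (d : ℕ) (Bn : ℝ)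
    (hB : 1 ≤ Bn) (hd : ∀ i, (r i).natDegree ≤ d) (hn : ∀ i, nr (r i) ≤ Bn) :
    ∃ K : ℕ → Matrix (Fin M) (Fin M) ℤ[X],
      (∀ e a, ∑ b : Fin M, aeval J (K e a b) * ((c : ℂ) * w) ^ (b : ℕ) =
        ((c : ℂ) * w) ^ e * ((c : ℂ) * w) ^ (a : ℕ)) ∧
      (∀ e a b, (K e a b).natDegree ≤ e * d) ∧
      (∀ e a b, nr (K e a b) ≤ (M * (Bn * (1 + |(c : ℝ)|) ^ M)) ^ e) := by
  classical
  have habs : 0 ≤ |(c : ℝ)| := abs_nonneg _
  have hT1 : (1 : ℝ) ≤ Bn * (1 + |(c : ℝ)|) ^ M := by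
    have : (1 : ℝ) ≤ (1 + |(c : ℝ)|) ^ M := one_le_pow₀ (by linarith)
    nlinarith
  -- the relation for `u = c w`
  have hu : ((c : ℂ) * w) ^ M + ∑ b : Fin M,
      aeval J (r b) * (c : ℂ) ^ (M - 1 - (b : ℕ)) * ((c : ℂ) * w) ^ (b : ℕ) = 0 := by
    have h1 : ∑ b : Fin M, aeval J (r b) * (c : ℂ) ^ (M - 1 - (b : ℕ)) * ((c : ℂ) * w) ^ (b : ℕ)
        = (c : ℂ) ^ (M - 1) * ∑ i ∈ Finset.range M, aeval J (r i) * w ^ i := by
      rw [Finset.mul_sum, ← Fin.sum_univ_eq_sum_range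
        (fun i => (c : ℂ) ^ (M - 1) * (aeval J (r i) * w ^ i))]
      refine Finset.sum_congr rfl fun b _ => ?_
      have hb : (b : ℕ) ≤ M - 1 := by have := b.2; omega
      have h2 : (c : ℂ) ^ (M - 1) = (c : ℂ) ^ (M - 1 - (b : ℕ)) * (c : ℂ) ^ (b : ℕ) := by
        rw [← pow_add, Nat.sub_add_cancel hb]
      rw [h2, mul_pow]
      ring
    have h3 : ((c : ℂ) * w) ^ M = (c : ℂ) ^ (M - 1) * (aeval J (r M) * w ^ M) := by
      have h4 : (c : ℂ) ^ M = (c : ℂ) ^ (M - 1) * c := by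
        rw [← pow_succ, Nat.sub_add_cancel hM]
      rw [hc, mul_pow, h4]
      simp
      ring
    rw [h1, h3, ← mul_add, add_comm, ← Finset.sum_range_succ, hrel, mul_zero]
  have hK : ∀ a : Fin M, ∑ b : Fin M, aeval J (B2_K M r c a b) * ((c : ℂ) * w) ^ (b : ℕ) =
      ((c : ℂ) * w) * ((c : ℂ) * w) ^ (a : ℕ) := by
    intro a
    by_cases ha : (a : ℕ) + 1 < M
    · rw [Finset.sum_eq_single (⟨(a : ℕ) + 1, ha⟩ : Fin M)]
      · have : B2_K M r c a ⟨(a : ℕ) + 1, ha⟩ = 1 := by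
          unfold B2_K
          rw [if_pos ha, if_pos rfl]
        rw [this, map_one, one_mul]
        show ((c : ℂ) * w) ^ ((a : ℕ) + 1) = _
        rw [pow_succ']
      · intro b _ hb
        have : B2_K M r c a b = 0 := by
          unfold B2_K
          rw [if_pos ha, if_neg]
          intro h
          exact hb (Fin.ext h)
        rw [this, map_zero, zero_mul]
      · intro h
        exact absurd (Finset.mem_univ _) h
    · have haM : (a : ℕ) + 1 = M := by have := a.2; omega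
      have h1 : ∀ b : Fin M, aeval J (B2_K M r c a b) * ((c : ℂ) * w) ^ (b : ℕ) =
          -(aeval J (r b) * (c : ℂ) ^ (M - 1 - (b : ℕ)) * ((c : ℂ) * w) ^ (b : ℕ)) := by
        intro b
        unfold B2_K
        rw [if_neg ha]
        simp
      rw [Finset.sum_congr rfl fun b _ => h1 b, Finset.sum_neg_distrib, ← pow_succ', haM]
      exact (eq_neg_of_add_eq_zero_left hu).symm
  have hKd : ∀ a b, (B2_K M r c a b).natDegree ≤ d := by
    intro a b
    unfold B2_K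
    split_ifs
    · simp
    · simp
    · rw [natDegree_neg]
      refine natDegree_mul_le.trans ?_
      rw [natDegree_C, add_zero]
      exact hd _
  have hKn : ∀ a b, nr (B2_K M r c a b) ≤ Bn * (1 + |(c : ℝ)|) ^ M := by
    intro a b
    unfold B2_K
    split_ifs
    · rw [Na_nr_one]
      exact hT1
    · rw [Na_nr_zero]
      exact zero_le_one.trans hT1
    · rw [nr_neg]
      refine (nr_mul_le _ _).trans ?_
      rw [B2_nr_C]
      refine mul_le_mul (hn _) ?_ (abs_nonneg _) (zero_le_one.trans hB)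
      rw [Int.cast_pow, abs_pow]
      refine (pow_le_pow_left₀ habs (by linarith : |(c : ℝ)| ≤ 1 + |(c : ℝ)|) _).trans ?_
      exact pow_le_pow_right₀ (by linarith) (by have := b.2; omega)
  refine ⟨fun e => B2_K M r c ^ e, ?_, ?_, ?_⟩
  · intro e
    induction e with
    | zero =>
      intro a
      simp only [pow_zero, one_mul]
      rw [Finset.sum_eq_single a]
      · rw [Matrix.one_apply_eq, map_one, one_mul]
      · intro b _ hb
        rw [Matrix.one_apply_ne (Ne.symm hb), map_zero, zero_mul]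
      · intro h
        exact absurd (Finset.mem_univ _) h
    | succ e ih =>
      intro a
      have h1 : ∀ b : Fin M, aeval J ((B2_K M r c ^ (e + 1)) a b) * ((c : ℂ) * w) ^ (b : ℕ) =
          ∑ k : Fin M, aeval J ((B2_K M r c ^ e) a k) *
            (aeval J (B2_K M r c k b) * ((c : ℂ) * w) ^ (b : ℕ)) := by
        intro b
        rw [pow_succ, Matrix.mul_apply, map_sum, Finset.sum_mul]
        refine Finset.sum_congr rfl fun k _ => ?_
        rw [map_mul, mul_assoc]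
      show ∑ b : Fin M, aeval J ((B2_K M r c ^ (e + 1)) a b) * ((c : ℂ) * w) ^ (b : ℕ) = _
      rw [Finset.sum_congr rfl fun b _ => h1 b, Finset.sum_comm]
      have h2 : ∀ k : Fin M, ∑ b : Fin M, aeval J ((B2_K M r c ^ e) a k) *
            (aeval J (B2_K M r c k b) * ((c : ℂ) * w) ^ (b : ℕ)) =
          ((c : ℂ) * w) * (aeval J ((B2_K M r c ^ e) a k) * ((c : ℂ) * w) ^ (k : ℕ)) := by
        intro k
        rw [← Finset.mul_sum, hK k]
        ring
      rw [Finset.sum_congr rfl fun k _ => h2 k, ← Finset.mul_sum, ih a, pow_succ']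
      ring
  · intro e
    induction e with
    | zero =>
      intro a b
      simp only [pow_zero, zero_mul]
      rw [Matrix.one_apply]
      split_ifs <;> simp
    | succ e ih =>
      intro a b
      show ((B2_K M r c ^ (e + 1)) a b).natDegree ≤ _
      rw [pow_succ, Matrix.mul_apply]
      refine natDegree_sum_le_of_forall_le _ _ fun k _ => ?_
      refine natDegree_mul_le.trans ?_
      have h1 := ih a k
      have h2 := hKd k b
      calc _ ≤ e * d + d := add_le_add h1 h2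
        _ = (e + 1) * d := by ring
  · intro e
    induction e with
    | zero =>
      intro a b
      simp only [pow_zero]
      rw [Matrix.one_apply]
      split_ifs
      · rw [Na_nr_one]
      · rw [Na_nr_zero]
        exact zero_le_one
    | succ e ih =>
      intro a b
      show nr ((B2_K M r c ^ (e + 1)) a b) ≤ _
      rw [pow_succ, Matrix.mul_apply]
      refine (nr_sum_le _ _).trans ?_
      have hMT : (0 : ℝ) ≤ (M * (Bn * (1 + |(c : ℝ)|) ^ M)) ^ e := by positivity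
      have h1 : ∀ k ∈ (Finset.univ : Finset (Fin M)), nr ((B2_K M r c ^ e) a k * B2_K M r c k b) ≤
          (M * (Bn * (1 + |(c : ℝ)|) ^ M)) ^ e * (Bn * (1 + |(c : ℝ)|) ^ M) := by
        intro k _
        refine (nr_mul_le _ _).trans ?_
        exact mul_le_mul (ih a k) (hKn k b) (nr_nonneg _) hMT
      refine (Finset.sum_le_card_nsmul _ _ _ h1).trans ?_
      rw [Finset.card_univ, Fintype.card_fin, nsmul_eq_mul, pow_succ]
      apply le_of_eq
      ring

end AO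

end S_H32_AO_B2

section S_H32_AO_B3

set_option autoImplicit false

namespace AO

open CZ Polynomial
open H32.T3 (nrm)

private theorem B3_nr_C (a : ℤ) : nr (C a) = |(a : ℝ)| := by
  unfold nr
  rw [Polynomial.sum_C_index (by simp)]

private theorem B3_nr_Xpow (l : ℕ) : nr (X ^ l : ℤ[X]) = 1 := by
  have h : (X ^ l : ℤ[X]) = monomial l 1 := by rw [Polynomial.monomial_one_right_eq_X_pow]
  unfold nr
  rw [h, Polynomial.sum_monomial_index _ _ (by simp)]
  simp

/-- Degrees of a monomial of `G`. -/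
private theorem B3_deg {r : ℕ} (G : MvPolynomial (Fin r ⊕ Unit) ℤ) {e : (Fin r ⊕ Unit) →₀ ℕ}
    (he : e ∈ G.support) : ∑ j, e (Sum.inl j) + e (Sum.inr ()) ≤ G.totalDegree := by
  have h := MvPolynomial.le_totalDegree he
  rw [Finsupp.sum_fintype _ _ (fun _ => rfl), Fintype.sum_sum_type] at h
  simpa using h

private theorem B3_degj {r : ℕ} (G : MvPolynomial (Fin r ⊕ Unit) ℤ) {e : (Fin r ⊕ Unit) →₀ ℕ}
    (he : e ∈ G.support) (j : Fin r) : e (Sum.inl j) ≤ G.totalDegree := by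
  have h := B3_deg G he
  have h2 : e (Sum.inl j) ≤ ∑ j, e (Sum.inl j) :=
    Finset.single_le_sum (f := fun j => e (Sum.inl j)) (fun _ _ => Nat.zero_le _)
      (Finset.mem_univ j)
  omega

/-- The matrix. -/
private noncomputable def B3_A {r M : ℕ} (c : Fin r → ℤ)
    (K : Fin r → ℕ → Matrix (Fin M) (Fin M) ℤ[X]) (G : MvPolynomial (Fin r ⊕ Unit) ℤ) :
    Matrix (Fin r → Fin M) (Fin r → Fin M) ℤ[X] :=
  fun a b => ∑ e ∈ G.support, C (G.coeff e) * X ^ (e (Sum.inr ())) *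
    ∏ j, (C (c j ^ (G.totalDegree - e (Sum.inl j))) * K j (e (Sum.inl j)) (a j) (b j))

private theorem B3_eig {r M : ℕ} (J : ℂ) (w : Fin r → ℂ)
    (c : Fin r → ℤ) (K : Fin r → ℕ → Matrix (Fin M) (Fin M) ℤ[X])
    (hK : ∀ j e a, ∑ b : Fin M, aeval J (K j e a b) * ((c j : ℂ) * w j) ^ (b : ℕ) =
        ((c j : ℂ) * w j) ^ e * ((c j : ℂ) * w j) ^ (a : ℕ))
    (G : MvPolynomial (Fin r ⊕ Unit) ℤ) (a : Fin r → Fin M) :
    ∑ b, aeval J (B3_A c K G a b) * ∏ j, ((c j : ℂ) * w j) ^ (b j : ℕ) =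
      ((∏ j, (c j : ℂ)) ^ G.totalDegree *
        MvPolynomial.aeval (Sum.elim w fun _ ↦ J) G) * ∏ j, ((c j : ℂ) * w j) ^ (a j : ℕ) := by
  have h1 : ∀ b : Fin r → Fin M, aeval J (B3_A c K G a b) * ∏ j, ((c j : ℂ) * w j) ^ (b j : ℕ) =
      ∑ e ∈ G.support, (((G.coeff e : ℤ) : ℂ) * J ^ (e (Sum.inr ()))) *
        ∏ j, ((c j : ℂ) ^ (G.totalDegree - e (Sum.inl j)) *
          (aeval J (K j (e (Sum.inl j)) (a j) (b j)) * ((c j : ℂ) * w j) ^ (b j : ℕ))) := by
    intro b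
    unfold B3_A
    rw [map_sum, Finset.sum_mul]
    refine Finset.sum_congr rfl fun e _ => ?_
    rw [map_mul, map_mul, map_prod, map_pow, aeval_X, aeval_C, mul_assoc,
      ← Finset.prod_mul_distrib]
    congr 1
    refine Finset.prod_congr rfl fun j _ => ?_
    rw [map_mul, aeval_C, mul_assoc]
    simp
  rw [Finset.sum_congr rfl fun b _ => h1 b, Finset.sum_comm]
  have h2 : ∀ e ∈ G.support, ∑ b : Fin r → Fin M, (((G.coeff e : ℤ) : ℂ) * J ^ (e (Sum.inr ()))) *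
        ∏ j, ((c j : ℂ) ^ (G.totalDegree - e (Sum.inl j)) *
          (aeval J (K j (e (Sum.inl j)) (a j) (b j)) * ((c j : ℂ) * w j) ^ (b j : ℕ))) =
      (∏ j, (c j : ℂ)) ^ G.totalDegree * (((G.coeff e : ℤ) : ℂ) *
        ((∏ j, w j ^ e (Sum.inl j)) * J ^ (e (Sum.inr ())))) *
          ∏ j, ((c j : ℂ) * w j) ^ (a j : ℕ) := by
    intro e he
    rw [← Finset.mul_sum]
    have h3 := (Finset.prod_univ_sum (fun _ : Fin r => (Finset.univ : Finset (Fin M)))
      (fun j b => (c j : ℂ) ^ (G.totalDegree - e (Sum.inl j)) *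
          (aeval J (K j (e (Sum.inl j)) (a j) b) * ((c j : ℂ) * w j) ^ (b : ℕ))))
    rw [Fintype.piFinset_univ] at h3
    rw [← h3]
    have h4 : ∀ j, ∑ b : Fin M, (c j : ℂ) ^ (G.totalDegree - e (Sum.inl j)) *
          (aeval J (K j (e (Sum.inl j)) (a j) b) * ((c j : ℂ) * w j) ^ (b : ℕ)) =
        (c j : ℂ) ^ G.totalDegree * w j ^ e (Sum.inl j) * ((c j : ℂ) * w j) ^ (a j : ℕ) := by
      intro j
      rw [← Finset.mul_sum, hK, mul_pow (c j : ℂ) (w j) (e (Sum.inl j))]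
      have h5 : (c j : ℂ) ^ G.totalDegree = (c j : ℂ) ^ (G.totalDegree - e (Sum.inl j)) *
          (c j : ℂ) ^ e (Sum.inl j) := by
        rw [← pow_add, Nat.sub_add_cancel (B3_degj G he j)]
      rw [h5]
      ring
    rw [Finset.prod_congr rfl fun j _ => h4 j, Finset.prod_mul_distrib, Finset.prod_mul_distrib,
      Finset.prod_pow]
    ring
  rw [Finset.sum_congr rfl h2, ← Finset.sum_mul, ← Finset.mul_sum]
  congr 2
  rw [MvPolynomial.aeval_def, MvPolynomial.eval₂_eq']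
  refine Finset.sum_congr rfl fun e _ => ?_
  rw [Fintype.prod_sum_type]
  simp

private theorem B3_natDegree {r M : ℕ} (c : Fin r → ℤ)
    (K : Fin r → ℕ → Matrix (Fin M) (Fin M) ℤ[X]) (d : ℕ)
    (hK : ∀ j e a b, (K j e a b).natDegree ≤ e * d)
    (G : MvPolynomial (Fin r ⊕ Unit) ℤ) (a b : Fin r → Fin M) :
    (B3_A c K G a b).natDegree ≤ G.totalDegree * (d + 1) := by
  unfold B3_A
  refine Polynomial.natDegree_sum_le_of_forall_le _ _ fun e he => ?_
  refine Polynomial.natDegree_mul_le.trans ?_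
  have h1 : (C (G.coeff e) * X ^ (e (Sum.inr ())) : ℤ[X]).natDegree ≤ e (Sum.inr ()) :=
    Polynomial.natDegree_C_mul_X_pow_le _ _
  have h2 : (∏ j, (C (c j ^ (G.totalDegree - e (Sum.inl j))) *
      K j (e (Sum.inl j)) (a j) (b j))).natDegree ≤ ∑ j, e (Sum.inl j) * d := by
    refine (Polynomial.natDegree_prod_le _ _).trans (Finset.sum_le_sum fun j _ => ?_)
    exact (Polynomial.natDegree_C_mul_le _ _).trans (hK _ _ _ _)
  rw [← Finset.sum_mul] at h2
  have h3 := B3_deg G he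
  have h4 : (∑ j, e (Sum.inl j)) * d ≤ G.totalDegree * d :=
    Nat.mul_le_mul_right _ (by omega)
  have h5 : e (Sum.inr ()) ≤ G.totalDegree := by omega
  rw [mul_add, mul_one]
  omega

private theorem B3_norm {r M : ℕ} (hM : 0 < M) (c : Fin r → ℤ)
    (K : Fin r → ℕ → Matrix (Fin M) (Fin M) ℤ[X]) (Bn : ℝ) (hB : 1 ≤ Bn)
    (hcB : ∀ j, |(c j : ℝ)| ≤ Bn)
    (hK : ∀ j e a b, nr (K j e a b) ≤ (M * (Bn * (1 + |(c j : ℝ)|) ^ M)) ^ e)
    (G : MvPolynomial (Fin r ⊕ Unit) ℤ) (a b : Fin r → Fin M) :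
    nr (B3_A c K G a b) ≤ nrm G *
        (M * (Bn * (1 + Bn) ^ M) * (1 + Bn) ^ r) ^ G.totalDegree := by
  have hM1 : (1 : ℝ) ≤ M := by exact_mod_cast hM
  have hT : (1 : ℝ) ≤ M * (Bn * (1 + Bn) ^ M) := by
    have h1 : (1 : ℝ) ≤ (1 + Bn) ^ M := one_le_pow₀ (by linarith)
    exact one_le_mul_of_one_le_of_one_le hM1 (one_le_mul_of_one_le_of_one_le hB h1)
  set T : ℝ := M * (Bn * (1 + Bn) ^ M) with hTdef
  unfold B3_A
  refine (nr_sum_le _ _).trans ?_
  rw [nrm, Finset.sum_mul]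
  refine Finset.sum_le_sum fun e he => ?_
  refine (nr_mul_le _ _).trans ?_
  have h1 : nr (C (G.coeff e) * X ^ (e (Sum.inr ())) : ℤ[X]) ≤ |((G.coeff e : ℤ) : ℝ)| := by
    refine (nr_mul_le _ _).trans ?_
    rw [B3_nr_C, B3_nr_Xpow, mul_one]
  have h2 : nr (∏ j, (C (c j ^ (G.totalDegree - e (Sum.inl j))) *
      K j (e (Sum.inl j)) (a j) (b j))) ≤ (T * (1 + Bn) ^ r) ^ G.totalDegree := by
    have h3 : ∀ j, nr (C (c j ^ (G.totalDegree - e (Sum.inl j))) *
        K j (e (Sum.inl j)) (a j) (b j)) ≤ (1 + Bn) ^ G.totalDegree * T ^ e (Sum.inl j) := by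
      intro j
      refine (nr_mul_le _ _).trans ?_
      refine mul_le_mul ?_ ?_ (nr_nonneg _) (by positivity)
      · rw [B3_nr_C, Int.cast_pow, abs_pow]
        calc |(c j : ℝ)| ^ (G.totalDegree - e (Sum.inl j))
            ≤ (1 + Bn) ^ (G.totalDegree - e (Sum.inl j)) :=
              pow_le_pow_left₀ (abs_nonneg _) (by linarith [hcB j]) _
          _ ≤ (1 + Bn) ^ G.totalDegree := pow_le_pow_right₀ (by linarith) (Nat.sub_le _ _)
      · refine (hK _ _ _ _).trans (pow_le_pow_left₀ ?_ ?_ _)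
        · positivity
        · rw [hTdef]
          have := hcB j
          gcongr
    clear_value T
    refine (nr_prod_le _ _).trans ?_
    refine (Finset.prod_le_prod (fun j _ => nr_nonneg _) (fun j _ => h3 j)).trans ?_
    rw [Finset.prod_mul_distrib, Finset.prod_const, Finset.card_univ, Fintype.card_fin,
      Finset.prod_pow_eq_pow_sum, mul_pow, mul_comm, ← pow_mul, ← pow_mul,
      mul_comm r G.totalDegree]
    refine mul_le_mul_of_nonneg_right ?_ (by positivity)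
    exact pow_le_pow_right₀ hT (by have := B3_deg G he; omega)
  exact mul_le_mul h1 h2 (nr_nonneg _) (abs_nonneg _)

theorem kron {r M : ℕ} (hM : 0 < M) (J : ℂ) (w : Fin r → ℂ) (R : Fin r → ℕ → ℤ[X])
    (c : Fin r → ℤ) (hc : ∀ j, R j M = C (c j))
    (hrel : ∀ j, ∑ i ∈ Finset.range (M + 1), aeval J (R j i) * w j ^ i = 0) (d : ℕ) (Bn : ℝ)
    (hB : 1 ≤ Bn) (hd : ∀ j i, (R j i).natDegree ≤ d) (hn : ∀ j i, nr (R j i) ≤ Bn)
    (hcB : ∀ j, |(c j : ℝ)| ≤ Bn) (G : MvPolynomial (Fin r ⊕ Unit) ℤ) :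
    ∃ (A : Matrix (Fin r → Fin M) (Fin r → Fin M) ℤ[X]) (v : (Fin r → Fin M) → ℂ), v ≠ 0 ∧
      (∀ a, ∑ b, aeval J (A a b) * v b = ((∏ j, (c j : ℂ)) ^ G.totalDegree *
        MvPolynomial.aeval (Sum.elim w fun _ ↦ J) G) * v a) ∧
      (∀ a b, (A a b).natDegree ≤ G.totalDegree * (d + 1)) ∧
      (∀ a b, nr (A a b) ≤ nrm G *
        (M * (Bn * (1 + Bn) ^ M) * (1 + Bn) ^ r) ^ G.totalDegree) := by
  choose K hK1 hK2 hK3 using fun j => companion_pow hM J (w j) (R j) (c j) (hc j) (hrel j) d Bn hB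
    (hd j) (hn j)
  refine ⟨B3_A c K G, fun a => ∏ j, ((c j : ℂ) * w j) ^ (a j : ℕ), ?_, ?_, ?_, ?_⟩
  · intro h
    have h1 := congrFun h (fun _ => ⟨0, hM⟩)
    simp at h1
  · exact fun a => B3_eig J w c K hK1 G a
  · exact fun a b => B3_natDegree c K d hK2 G a b
  · exact fun a b => B3_norm hM c K Bn hB hcB hK3 G a b

end AO

end S_H32_AO_B3

section S_H32_AO_B4

set_option autoImplicit false

namespace AO

open CZ Polynomial
open H32.T3 (nrm)

private theorem B4_nrC (z : ℤ) : nr (C z) = |(z : ℝ)| := by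
  unfold nr
  rw [Polynomial.sum_C_index (by simp)]

private theorem B4_Y {n r Dg : ℕ} {g : ℝ} (h7 : 7 ≤ n) (hD : Dg ≤ n) (hr : r ≤ n) (hg0 : 0 ≤ g)
    (hg : g ≤ n) :
    (n : ℝ) ^ r * (max 1 (g * ((n : ℝ) * (Real.exp n * (1 + Real.exp n) ^ n) * (1 + Real.exp n) ^ r) ^ Dg) + 1) ≤
      Real.exp ((n : ℝ) ^ (r + 4)) := by
  have h7' : (7 : ℝ) ≤ n := by exact_mod_cast h7
  have hD' : (Dg : ℝ) ≤ n := by exact_mod_cast hD
  have hr' : (r : ℝ) ≤ n := by exact_mod_cast hr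
  set x : ℝ := (n : ℝ) with hx
  have hx0 : 0 < x := by linarith
  have e1 : 1 + Real.exp x ≤ Real.exp (x + 1) := by
    rw [Real.exp_add]
    have h1 : 1 ≤ Real.exp x := Real.one_le_exp hx0.le
    have h2 : (2 : ℝ) ≤ Real.exp 1 := by
      have := Real.add_one_le_exp (1 : ℝ)
      linarith
    nlinarith
  have e0 : 0 ≤ 1 + Real.exp x := by positivity
  have e2 : x ≤ Real.exp x := by
    have := Real.add_one_le_exp x
    linarith
  have e3 : (1 + Real.exp x) ^ n ≤ Real.exp ((n : ℝ) * (x + 1)) := by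
    rw [Real.exp_nat_mul]
    exact pow_le_pow_left₀ e0 e1 n
  have e4 : (1 + Real.exp x) ^ r ≤ Real.exp ((r : ℝ) * (x + 1)) := by
    rw [Real.exp_nat_mul]
    exact pow_le_pow_left₀ e0 e1 r
  have e5 : x * (Real.exp x * (1 + Real.exp x) ^ n) * (1 + Real.exp x) ^ r ≤
      Real.exp (2 * x + x * (x + 1) + r * (x + 1)) := by
    have h1 : x * (Real.exp x * (1 + Real.exp x) ^ n) * (1 + Real.exp x) ^ r ≤
        Real.exp x * (Real.exp x * Real.exp ((n : ℝ) * (x + 1))) * Real.exp ((r : ℝ) * (x + 1)) := by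
      gcongr
    refine h1.trans (le_of_eq ?_)
    rw [← Real.exp_add, ← Real.exp_add, ← Real.exp_add]
    congr 1
    rw [← hx]
    ring
  have e6 : 0 ≤ x * (Real.exp x * (1 + Real.exp x) ^ n) * (1 + Real.exp x) ^ r := by positivity
  have e7 : (x * (Real.exp x * (1 + Real.exp x) ^ n) * (1 + Real.exp x) ^ r) ^ Dg ≤
      Real.exp ((Dg : ℝ) * (2 * x + x * (x + 1) + r * (x + 1))) := by
    rw [Real.exp_nat_mul]
    exact pow_le_pow_left₀ e6 e5 Dg
  set E : ℝ := x + (Dg : ℝ) * (2 * x + x * (x + 1) + r * (x + 1)) with hE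
  have hE0 : 0 ≤ E := by positivity
  have e8 : max 1 (g * (x * (Real.exp x * (1 + Real.exp x) ^ n) * (1 + Real.exp x) ^ r) ^ Dg) ≤ Real.exp E := by
    refine max_le (Real.one_le_exp hE0) ?_
    rw [hE, Real.exp_add]
    exact mul_le_mul (hg.trans e2) e7 (pow_nonneg e6 _) (Real.exp_pos _).le
  have e9 : max 1 (g * (x * (Real.exp x * (1 + Real.exp x) ^ n) * (1 + Real.exp x) ^ r) ^ Dg) + 1 ≤
      Real.exp (E + 1) := by
    rw [Real.exp_add]
    have h1 : 1 ≤ Real.exp E := Real.one_le_exp hE0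
    have h2 : (2 : ℝ) ≤ Real.exp 1 := by
      have := Real.add_one_le_exp (1 : ℝ)
      linarith
    nlinarith
  have e10 : x ^ r ≤ Real.exp (x ^ r) := by
    have := Real.add_one_le_exp (x ^ r)
    linarith
  have e11 : x ^ r * (max 1 (g * (x * (Real.exp x * (1 + Real.exp x) ^ n) * (1 + Real.exp x) ^ r) ^ Dg) + 1) ≤
      Real.exp (x ^ r + (E + 1)) := by
    rw [Real.exp_add]
    exact mul_le_mul e10 e9 (by positivity) (Real.exp_pos _).le
  refine e11.trans (Real.exp_le_exp.2 ?_)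
  have f1 : (1 : ℝ) ≤ x ^ r := one_le_pow₀ (by linarith)
  have f2 : (Dg : ℝ) * (2 * x + x * (x + 1) + r * (x + 1)) ≤ x * (2 * x + x * (x + 1) + x * (x + 1)) := by
    gcongr
  have f3 : x ^ r + (E + 1) ≤ x ^ r * (1 + x + x * (2 * x + x * (x + 1) + x * (x + 1)) + 1) := by
    have f4 : E + 1 ≤ 1 * (x + x * (2 * x + x * (x + 1) + x * (x + 1)) + 1) := by
      rw [hE]
      linarith
    have f5 : 1 * (x + x * (2 * x + x * (x + 1) + x * (x + 1)) + 1) ≤
        x ^ r * (x + x * (2 * x + x * (x + 1) + x * (x + 1)) + 1) :=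
      mul_le_mul_of_nonneg_right f1 (by positivity)
    linarith
  refine f3.trans ?_
  rw [pow_add]
  refine mul_le_mul_of_nonneg_left ?_ (by positivity)
  have g1 : x * x * x * 7 ≤ x * x * x * x := mul_le_mul_of_nonneg_left h7' (by positivity)
  have g2 : 7 * (x * x) ≤ x * (x * x) := mul_le_mul_of_nonneg_right h7' (by positivity)
  have g3 : 7 * x ≤ x * x := mul_le_mul_of_nonneg_right h7' hx0.le
  have e : x ^ 4 = x * x * x * x := by ring
  rw [e]
  nlinarith

theorem norm_rel {X : ℕ} {J w : ℂ} (h : RootRel (X : ℝ) J w) :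
    ∃ (r : ℕ → ℤ[X]) (c : ℤ), c ≠ 0 ∧ r X = C c ∧ (∀ i, (r i).natDegree ≤ X) ∧
      (∀ i, nr (r i) ≤ Real.exp X) ∧
      ∑ i ∈ Finset.range (X + 1), aeval J (r i) * w ^ i = 0 := by
  obtain ⟨M, r, c, hM0, hMX, hc, hr, hd, hn, hs⟩ := h
  have hMX' : M ≤ X := by exact_mod_cast hMX
  refine ⟨fun i => if i < X - M then 0 else r (i - (X - M)), c, hc, ?_, ?_, ?_, ?_⟩
  · show (if X < X - M then (0 : ℤ[X]) else r (X - (X - M))) = C c
    rw [if_neg (by omega), show X - (X - M) = M from by omega, hr]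
  · intro i
    show (if i < X - M then (0 : ℤ[X]) else r (i - (X - M))).natDegree ≤ X
    split_ifs
    · simp
    · exact_mod_cast hd (i - (X - M))
  · intro i
    show nr (if i < X - M then (0 : ℤ[X]) else r (i - (X - M))) ≤ Real.exp X
    split_ifs
    · rw [Na_nr_zero]
      exact (Real.exp_pos _).le
    · exact hn _
  · have e : X + 1 = (X - M) + (M + 1) := by omega
    rw [e, Finset.sum_range_add]
    have h1 : ∑ i ∈ Finset.range (X - M), aeval J (if i < X - M then (0 : ℤ[X]) else r (i - (X - M))) * w ^ i = 0 := by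
      refine Finset.sum_eq_zero fun i hi => ?_
      rw [if_pos (Finset.mem_range.1 hi), map_zero, zero_mul]
    have h2 : ∀ i ∈ Finset.range (M + 1),
        aeval J (if (X - M) + i < X - M then (0 : ℤ[X]) else r ((X - M) + i - (X - M))) * w ^ ((X - M) + i) =
          w ^ (X - M) * (aeval J (r i) * w ^ i) := by
      intro i _
      rw [if_neg (by omega), Nat.add_sub_cancel_left, pow_add]
      ring
    rw [h1, Finset.sum_congr rfl h2, ← Finset.mul_sum, hs, mul_zero, add_zero]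

theorem NL {r : ℕ} (J : ℂ) (hJ : Meas J) (G : MvPolynomial (Fin r ⊕ Unit) ℤ) :
    ∃ A X0 : ℕ, ∀ (X : ℕ) (w : Fin r → ℂ), X0 ≤ X → (∀ j, RootRel (X : ℝ) J (w j)) →
      MvPolynomial.aeval (Sum.elim w fun _ ↦ J) G = 0 ∨
        Real.exp (-(X : ℝ) ^ A) ≤ ‖MvPolynomial.aeval (Sum.elim w fun _ ↦ J) G‖ := by
  obtain ⟨κ, Λ0, hmeas⟩ := hJ
  set Dg := G.totalDegree with hDg
  set L : ℝ := Real.log (max 1 ‖J‖) with hL
  have hL0 : 0 ≤ L := Real.log_nonneg (le_max_left _ _)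
  have hLe : max 1 ‖J‖ = Real.exp L := (Real.exp_log (lt_of_lt_of_le one_pos (le_max_left _ _))).symm
  refine ⟨(2 * r + 4) * (κ + 1) + 2, Λ0 + 7 + Dg + r + ⌈nrm G⌉₊ + ⌈2 + L + r * Dg⌉₊, ?_⟩
  intro X w hX hw
  by_cases hval : MvPolynomial.aeval (Sum.elim w fun _ ↦ J) G = 0
  · exact Or.inl hval
  right
  have hX7 : 7 ≤ X := by omega
  have hXD : Dg ≤ X := by omega
  have hXr : r ≤ X := by omega
  have hXΛ : Λ0 ≤ X := by omega
  have hXg : nrm G ≤ X := (Nat.le_ceil _).trans (by exact_mod_cast (by omega : ⌈nrm G⌉₊ ≤ X))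
  have hXL : 2 + L + r * Dg ≤ (X : ℝ) := (Nat.le_ceil _).trans (by
    exact_mod_cast (by omega : ⌈2 + L + r * Dg⌉₊ ≤ X))
  have hx1 : (1 : ℝ) ≤ X := by exact_mod_cast (by omega : 1 ≤ X)
  have hx0 : (0 : ℝ) < X := by linarith
  choose R c hc0 hR hRd hRn hRs using fun j => norm_rel (hw j)
  have hcB : ∀ j, |(c j : ℝ)| ≤ Real.exp X := by
    intro j
    have h1 := hRn j X
    rwa [hR j, B4_nrC] at h1
  obtain ⟨A, v, hv, he, hAd, hAn⟩ := kron (by omega : 0 < X) J w R c hR hRs X (Real.exp X)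
    (Real.one_le_exp hx0.le) hRd hRn hcB G
  set val := MvPolynomial.aeval (Sum.elim w fun _ ↦ J) G with hvald
  set Pc : ℂ := (∏ j, (c j : ℂ)) ^ Dg with hPc
  have hPn1 : 1 ≤ ‖Pc‖ := by
    rw [hPc, norm_pow]
    refine one_le_pow₀ ?_
    have h1 : (∏ j, (c j : ℂ)) = ((∏ j, c j : ℤ) : ℂ) := by push_cast; rfl
    rw [h1, Complex.norm_intCast]
    have h2 : (∏ j, c j) ≠ 0 := Finset.prod_ne_zero_iff.2 fun j _ => hc0 j
    exact_mod_cast Int.one_le_abs h2
  have hPn2 : ‖Pc‖ ≤ Real.exp (r * Dg * X) := by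
    have h1 : ‖∏ j, (c j : ℂ)‖ ≤ Real.exp X ^ r := by
      rw [norm_prod]
      have h2 : ∀ j ∈ (Finset.univ : Finset (Fin r)), ‖(c j : ℂ)‖ ≤ Real.exp X := by
        intro j _
        rw [Complex.norm_intCast]
        exact hcB j
      refine (Finset.prod_le_prod (fun j _ => norm_nonneg _) h2).trans (le_of_eq ?_)
      rw [Finset.prod_const, Finset.card_univ, Fintype.card_fin]
    rw [hPc, norm_pow]
    refine (pow_le_pow_left₀ (norm_nonneg _) h1 Dg).trans (le_of_eq ?_)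
    rw [← pow_mul, ← Real.exp_nat_mul]
    congr 1
    push_cast
    rfl
  have hlamne : Pc * val ≠ 0 := by
    refine mul_ne_zero ?_ hval
    intro h
    rw [h, norm_zero] at hPn1
    linarith
  -- the lower bound of the value in terms of the eigenvalue
  have hvl : ‖Pc * val‖ * Real.exp (-(r * Dg * X)) ≤ ‖val‖ := by
    rw [norm_mul, Real.exp_neg]
    have h1 : ‖Pc‖ * (Real.exp (r * Dg * X))⁻¹ ≤ 1 := by
      rw [← div_eq_mul_inv, div_le_one (Real.exp_pos _)]
      exact hPn2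
    calc ‖Pc‖ * ‖val‖ * (Real.exp (r * Dg * X))⁻¹ = (‖Pc‖ * (Real.exp (r * Dg * X))⁻¹) * ‖val‖ := by ring
      _ ≤ 1 * ‖val‖ := mul_le_mul_of_nonneg_right h1 (norm_nonneg _)
      _ = ‖val‖ := one_mul _
  set P : ℝ := (X : ℝ) ^ ((2 * r + 4) * (κ + 1)) with hPd
  have hP1 : (1 : ℝ) ≤ P := one_le_pow₀ hx1
  have hXP : (X : ℝ) ≤ P := by
    rw [hPd]
    exact le_self_pow₀ hx1 (by positivity)
  have hA : (X : ℝ) ^ ((2 * r + 4) * (κ + 1) + 2) = P * (X * X) := by
    rw [pow_add, hPd]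
    ring
  have hrD : 0 ≤ (r : ℝ) * Dg := by positivity
  have hxx : (X : ℝ) ≤ X * X := by nlinarith
  by_cases hl : ‖Pc * val‖ ≤ 1
  · -- small eigenvalue
    set Rb : ℝ := max 1 (nrm G * ((X : ℝ) * (Real.exp X * (1 + Real.exp X) ^ X) * (1 + Real.exp X) ^ r) ^ Dg) with hRb
    have hRb1 : 1 ≤ Rb := le_max_left _ _
    obtain ⟨f, f0, fd, fn, fJ⟩ := eigen_lower A (Dg * (X + 1)) Rb hRb1 hAd
      (fun a b => (hAn a b).trans (le_max_right _ _)) J (Pc * val) v hv hlamne hl he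
    have hcard : Fintype.card (Fin r → Fin X) = X ^ r := by simp
    rw [hcard] at fd fn fJ
    set Λ : ℕ := X ^ (2 * r + 4) with hΛ
    have hYb := B4_Y (g := nrm G) hX7 hXD hXr (by
      unfold nrm
      exact Finset.sum_nonneg fun _ _ => abs_nonneg _) hXg
    have hbig : ((X ^ r).factorial : ℝ) * (Rb + 1) ^ (X ^ r) ≤ Real.exp Λ := by
      have h1 : ((X ^ r).factorial : ℝ) ≤ ((X : ℝ) ^ r) ^ (X ^ r) := by
        have := Nat.factorial_le_pow (X ^ r)
        have h2 : (((X ^ r).factorial : ℕ) : ℝ) ≤ (((X ^ r) ^ (X ^ r) : ℕ) : ℝ) := by exact_mod_cast this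
        refine h2.trans (le_of_eq ?_)
        push_cast
        rfl
      have h2 : ((X ^ r).factorial : ℝ) * (Rb + 1) ^ (X ^ r) ≤ ((X : ℝ) ^ r * (Rb + 1)) ^ (X ^ r) := by
        rw [mul_pow]
        exact mul_le_mul_of_nonneg_right h1 (by positivity)
      refine h2.trans ?_
      have h3 : ((X : ℝ) ^ r * (Rb + 1)) ^ (X ^ r) ≤ Real.exp ((X : ℝ) ^ (r + 4)) ^ (X ^ r) :=
        pow_le_pow_left₀ (by positivity) hYb _
      refine h3.trans (le_of_eq ?_)
      rw [← Real.exp_nat_mul]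
      congr 1
      rw [hΛ]
      push_cast
      rw [← pow_add]
      congr 1
      ring
    have hdeg : X ^ r * (Dg * (X + 1)) ≤ Λ := by
      have h1 : Dg * (X + 1) ≤ X ^ 4 := by
        have h2 : Dg * (X + 1) ≤ X * (X + 1) := Nat.mul_le_mul_right _ hXD
        have h3 : X + 1 ≤ X * X := by nlinarith
        calc Dg * (X + 1) ≤ X * (X + 1) := h2
          _ ≤ X * (X * X) := Nat.mul_le_mul_left _ h3
          _ ≤ X * (X * X) * X := Nat.le_mul_of_pos_right _ (by omega)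
          _ = X ^ 4 := by ring
      calc X ^ r * (Dg * (X + 1)) ≤ X ^ r * X ^ 4 := Nat.mul_le_mul_left _ h1
        _ = X ^ (r + 4) := by rw [pow_add]
        _ ≤ Λ := Nat.pow_le_pow_right (by omega) (by omega)
    have hΛ0 : Λ0 ≤ Λ := hXΛ.trans (Nat.le_self_pow (by omega) X)
    have hm := hmeas f Λ f0 hΛ0 (fd.trans hdeg) (fn.trans hbig)
    have hJp : (max 1 ‖J‖) ^ (X ^ r * (Dg * (X + 1))) ≤ Real.exp (Λ * L) := by
      refine (pow_le_pow_right₀ (le_max_left _ _) hdeg).trans (le_of_eq ?_)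
      rw [hLe, ← Real.exp_nat_mul]
    have hlow : Real.exp (-(Λ : ℝ) ^ κ) ≤ ‖Pc * val‖ * Real.exp (Λ + Λ * L) := by
      refine (hm.trans fJ).trans ?_
      rw [Real.exp_add]
      refine mul_le_mul_of_nonneg_left ?_ (norm_nonneg _)
      exact mul_le_mul hbig hJp (by positivity) (Real.exp_pos _).le
    have hlow2 : Real.exp (-(Λ : ℝ) ^ κ - (Λ + Λ * L)) ≤ ‖Pc * val‖ := by
      rw [Real.exp_sub, div_le_iff₀ (Real.exp_pos _)]
      exact hlow
    refine le_trans ?_ hvl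
    have h1 : Real.exp (-(Λ : ℝ) ^ κ - (Λ + Λ * L)) * Real.exp (-(r * Dg * X)) ≤
        ‖Pc * val‖ * Real.exp (-(r * Dg * X)) := mul_le_mul_of_nonneg_right hlow2 (Real.exp_pos _).le
    refine le_trans ?_ h1
    rw [← Real.exp_add]
    refine Real.exp_le_exp.2 ?_
    rw [hA]
    have hΛr : (Λ : ℝ) = (X : ℝ) ^ (2 * r + 4) := by
      rw [hΛ]
      push_cast
      rfl
    have k1 : (Λ : ℝ) ^ κ ≤ P := by
      rw [hΛr, ← pow_mul, hPd]
      exact pow_le_pow_right₀ hx1 (Nat.mul_le_mul_left _ (by omega))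
    have k2 : (Λ : ℝ) ≤ P := by
      rw [hΛr, hPd]
      exact pow_le_pow_right₀ hx1 (Nat.le_mul_of_pos_right _ (by omega))
    have k3 : (Λ : ℝ) * L ≤ P * L := mul_le_mul_of_nonneg_right k2 hL0
    have k4 : (r : ℝ) * Dg * X ≤ (r : ℝ) * Dg * P := mul_le_mul_of_nonneg_left hXP hrD
    have k5 : P * (2 + L + r * Dg) ≤ P * (X * X) :=
      mul_le_mul_of_nonneg_left (hXL.trans hxx) (by linarith)
    nlinarith
  · -- large eigenvalue
    push Not at hl
    refine le_trans ?_ hvl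
    have h1 : 1 * Real.exp (-(r * Dg * X)) ≤ ‖Pc * val‖ * Real.exp (-(r * Dg * X)) :=
      mul_le_mul_of_nonneg_right hl.le (Real.exp_pos _).le
    refine le_trans ?_ h1
    rw [one_mul]
    refine Real.exp_le_exp.2 ?_
    rw [hA]
    have k1 : (r : ℝ) * Dg * X ≤ X * X := mul_le_mul_of_nonneg_right (by linarith) hx0.le
    have k2 : (X : ℝ) * X ≤ P * (X * X) := by
      have : 1 * ((X : ℝ) * X) ≤ P * (X * X) := mul_le_mul_of_nonneg_right hP1 (by positivity)
      linarith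
    linarith

end AO

end S_H32_AO_B4
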