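import Mathlib
import Pool.Agent.H32.AKM.P12
import Pool.Agent.H32.AKM.P16
import Pool.Agent.H32.AKM.P17
import Pool.Agent.H32.AKM.P18
import Pool.Agent.H32.AKM.P19
import Pool.Agent.H32.AKM.P20
import Pool.Agent.H32.AKM.P30

/-! Modular Schanuel with derivatives for points algebraic over a field with good approximations, part 31: this file joins several modules to save build time. -/

section S_H32_AK_C3

set_option autoImplicit false

namespace AK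

open CZ MJ
open H32.T3 (nrm)

private theorem C3_log (K : ℕ) : ∃ D0 : ℕ, ∀ D : ℕ, D0 ≤ D →
    (K : ℝ) ^ 5 * Real.log ((D : ℝ) + 2) ^ 5 < D := by
  have h := Real.isLittleO_pow_log_id_atTop (n := 5)
  have hK : (0 : ℝ) ≤ (K : ℝ) ^ 5 := by positivity
  have hc : (0 : ℝ) < 1 / (2 * ((K : ℝ) ^ 5 + 1)) := by positivity
  obtain ⟨x0, hx0⟩ := Filter.eventually_atTop.1 (h.def hc)
  refine ⟨⌈x0⌉₊ + 3, fun D hD => ?_⟩
  have hD' : (⌈x0⌉₊ : ℝ) + 3 ≤ D := by exact_mod_cast hD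
  have hx : x0 ≤ (D : ℝ) + 2 := by
    have := Nat.le_ceil x0
    linarith
  have hc0 : (0 : ℝ) ≤ (⌈x0⌉₊ : ℝ) := Nat.cast_nonneg _
  have h1 := hx0 _ hx
  rw [id, Real.norm_of_nonneg (pow_nonneg (Real.log_nonneg (by linarith)) 5),
    Real.norm_of_nonneg (by linarith)] at h1
  have h2 : (K : ℝ) ^ 5 * Real.log ((D : ℝ) + 2) ^ 5 ≤
      (K : ℝ) ^ 5 * (1 / (2 * ((K : ℝ) ^ 5 + 1)) * ((D : ℝ) + 2)) :=
    mul_le_mul_of_nonneg_left h1 hK
  have h3 : (K : ℝ) ^ 5 * (1 / (2 * ((K : ℝ) ^ 5 + 1)) * ((D : ℝ) + 2)) ≤ ((D : ℝ) + 2) / 2 := by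
    have h4 : (K : ℝ) ^ 5 * (1 / (2 * ((K : ℝ) ^ 5 + 1))) ≤ 1 / 2 := by
      rw [mul_one_div, div_le_div_iff₀ (by positivity) (by norm_num)]
      linarith
    calc (K : ℝ) ^ 5 * (1 / (2 * ((K : ℝ) ^ 5 + 1)) * ((D : ℝ) + 2)) =
          (K : ℝ) ^ 5 * (1 / (2 * ((K : ℝ) ^ 5 + 1))) * ((D : ℝ) + 2) := by ring
      _ ≤ 1 / 2 * ((D : ℝ) + 2) := mul_le_mul_of_nonneg_right h4 (by linarith)
      _ = ((D : ℝ) + 2) / 2 := by ring
  linarith

private theorem C3_fl {dm : ℝ} (h : 0 ≤ dm) : ∃ D : ℕ, 3 * (D : ℝ) ^ 4 ≤ dm ∧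
    dm < 3 * ((D : ℝ) + 1) ^ 4 := by
  classical
  have hex : ∃ n : ℕ, dm < 3 * (n : ℝ) ^ 4 := by
    obtain ⟨n, hn⟩ := exists_nat_gt dm
    refine ⟨n, ?_⟩
    have hn1 : 1 ≤ n := by
      rcases Nat.eq_zero_or_pos n with h0 | h0
      · rw [h0, Nat.cast_zero] at hn
        linarith
      · exact h0
    have h1 : (1 : ℝ) ≤ n := by exact_mod_cast hn1
    have h2 : (n : ℝ) ≤ (n : ℝ) ^ 4 := le_self_pow₀ h1 (by norm_num)
    linarith
  have hmin := @Nat.find_min _ _ hex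
  have hsp := Nat.find_spec hex
  rcases Nat.eq_zero_or_pos (Nat.find hex) with h0 | h0
  · rw [h0] at hsp
    norm_num at hsp
    linarith
  · refine ⟨Nat.find hex - 1, ?_, ?_⟩
    · have := hmin (m := Nat.find hex - 1) (by omega)
      exact not_lt.1 this
    · have h1 : ((Nat.find hex - 1 : ℕ) : ℝ) + 1 = (Nat.find hex : ℝ) := by
        have : Nat.find hex - 1 + 1 = Nat.find hex := by omega
        exact_mod_cast congrArg (Nat.cast (R := ℝ)) this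
      rw [h1]
      exact hsp

/-- The quantity `τ`. -/
private theorem C3_tau (C1 Cc D : ℕ) (hD : 1 ≤ D) {Cs : ℕ}
    (hCs : Cs = Cc + 2 + (2 + 2 * C1) + C1 * (14 * (1 + C1) + 2)) {L : ℝ}
    (hL : L = Real.log ((D : ℝ) + 2)) :
    1 ≤ L ∧ (Cc : ℝ) ≤ Cs * (D : ℝ) ^ 2 * L ∧
      Real.log (((D + 1) ^ 2 : ℕ) : ℝ) ≤ Cs * (D : ℝ) ^ 2 * L ∧
      ∀ t : ℕ, t < C1 * D ^ 2 → ((2 * D + 2 * t : ℕ) : ℝ) ≤ Cs * (D : ℝ) ^ 2 * L ∧
        (7 * (2 * D + 2 * t : ℝ)) ^ t ≤ Real.exp (Cs * (D : ℝ) ^ 2 * L) := by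
  have hD1 : (1 : ℝ) ≤ D := by exact_mod_cast hD
  have hD0 : (0 : ℝ) < D := by linarith
  have hL1 : 1 ≤ L := by
    rw [hL, Real.le_log_iff_exp_le (by linarith)]
    have := Real.exp_one_lt_d9
    linarith
  have hD2 : (1 : ℝ) ≤ (D : ℝ) ^ 2 := one_le_pow₀ hD1
  have hDL : 1 ≤ (D : ℝ) ^ 2 * L := one_le_mul_of_one_le_of_one_le hD2 hL1
  have hCsr : (Cs : ℝ) = Cc + 2 + (2 + 2 * C1) + C1 * (14 * (1 + C1) + 2) := by
    rw [hCs]; push_cast; ring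
  have hc0 : (0 : ℝ) ≤ Cc := Nat.cast_nonneg _
  have hC0 : (0 : ℝ) ≤ C1 := Nat.cast_nonneg _
  have hCm : (0 : ℝ) ≤ (C1 : ℝ) * (14 * (1 + C1) + 2) := by positivity
  refine ⟨hL1, ?_, ?_, ?_⟩
  · have h1 : (Cc : ℝ) ≤ Cs := by rw [hCsr]; linarith
    calc (Cc : ℝ) ≤ Cs * 1 := by linarith
      _ ≤ Cs * ((D : ℝ) ^ 2 * L) := mul_le_mul_of_nonneg_left hDL (by linarith)
      _ = Cs * (D : ℝ) ^ 2 * L := by ring
  · have h1 : Real.log (((D + 1) ^ 2 : ℕ) : ℝ) ≤ 2 * L := by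
      push_cast
      rw [Real.log_pow, hL]
      have := Real.log_le_log (by linarith) (by linarith : (D : ℝ) + 1 ≤ (D : ℝ) + 2)
      push_cast
      linarith
    have h2 : (2 : ℝ) ≤ Cs := by rw [hCsr]; linarith
    have h3 : (2 : ℝ) ≤ Cs * (D : ℝ) ^ 2 := by nlinarith
    exact h1.trans (mul_le_mul_of_nonneg_right h3 (by linarith))
  · intro t ht
    have htr : (t : ℝ) ≤ C1 * (D : ℝ) ^ 2 := by exact_mod_cast ht.le
    have hDD : (D : ℝ) ≤ (D : ℝ) ^ 2 := le_self_pow₀ hD1 (by norm_num)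
    have hs : 2 * (D : ℝ) + 2 * t ≤ (2 + 2 * C1) * (D : ℝ) ^ 2 := by linarith
    constructor
    · push_cast
      refine hs.trans ?_
      have h1 : (2 + 2 * (C1 : ℝ)) * (D : ℝ) ^ 2 ≤ Cs * (D : ℝ) ^ 2 :=
        mul_le_mul_of_nonneg_right (by rw [hCsr]; linarith) (by positivity)
      have h2 : (Cs : ℝ) * (D : ℝ) ^ 2 ≤ Cs * (D : ℝ) ^ 2 * L :=
        le_mul_of_one_le_right (by positivity) hL1
      exact h1.trans h2
    · have hB : 7 * (2 * (D : ℝ) + 2 * t) ≤ 14 * (1 + C1) * (D : ℝ) ^ 2 := by linarith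
      have hB0 : (1 : ℝ) ≤ 14 * (1 + C1) * (D : ℝ) ^ 2 := by
        have : (1 : ℝ) ≤ 14 * (1 + C1) := by linarith
        exact one_le_mul_of_one_le_of_one_le this hD2
      have hBp : (0 : ℝ) < 14 * (1 + C1) * (D : ℝ) ^ 2 := by linarith
      calc (7 * (2 * (D : ℝ) + 2 * t)) ^ t ≤ (14 * (1 + C1) * (D : ℝ) ^ 2) ^ t :=
            pow_le_pow_left₀ (by positivity) hB t
        _ ≤ (14 * (1 + C1) * (D : ℝ) ^ 2) ^ (C1 * D ^ 2) := pow_le_pow_right₀ hB0 ht.le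
        _ = Real.exp (((C1 * D ^ 2 : ℕ) : ℝ) * Real.log (14 * (1 + C1) * (D : ℝ) ^ 2)) := by
            rw [Real.exp_nat_mul, Real.exp_log hBp]
        _ ≤ Real.exp (Cs * (D : ℝ) ^ 2 * L) := by
            apply Real.exp_le_exp.2
            have hlog : Real.log (14 * (1 + C1) * (D : ℝ) ^ 2) ≤ (14 * (1 + C1) + 2) * L := by
              rw [Real.log_mul (by positivity) (by positivity), Real.log_pow]
              have h1 : Real.log (14 * (1 + (C1 : ℝ))) ≤ 14 * (1 + C1) := by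
                have := Real.log_le_sub_one_of_pos (by positivity : (0 : ℝ) < 14 * (1 + (C1 : ℝ)))
                linarith
              have h2 : Real.log (D : ℝ) ≤ L := by
                rw [hL]
                exact Real.log_le_log hD0 (by linarith)
              have h3 : 14 * (1 + (C1 : ℝ)) ≤ 14 * (1 + C1) * L :=
                le_mul_of_one_le_right (by positivity) hL1
              push_cast
              linarith
            push_cast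
            calc (C1 : ℝ) * (D : ℝ) ^ 2 * Real.log (14 * (1 + C1) * (D : ℝ) ^ 2) ≤
                  C1 * (D : ℝ) ^ 2 * ((14 * (1 + C1) + 2) * L) :=
                  mul_le_mul_of_nonneg_left hlog (by positivity)
              _ = (C1 * (14 * (1 + C1) + 2)) * ((D : ℝ) ^ 2 * L) := by ring
              _ ≤ Cs * ((D : ℝ) ^ 2 * L) :=
                  mul_le_mul_of_nonneg_right (by rw [hCsr]; linarith) (by positivity)
              _ = Cs * (D : ℝ) ^ 2 * L := by ring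

/-- `C τ ≤ D^4`. -/
private theorem C3_X (Cc Cs D : ℕ) (hD : 2 * Cc * Cs + 2 ≤ D) :
    (Cc : ℝ) * (Cs * (D : ℝ) ^ 2 * Real.log ((D : ℝ) + 2)) ≤ (D : ℝ) ^ 4 := by
  have hD' : 2 * (Cc : ℝ) * Cs + 2 ≤ D := by exact_mod_cast hD
  have h0 : (0 : ℝ) ≤ (Cc : ℝ) * Cs := by positivity
  have hD2 : (2 : ℝ) ≤ D := by linarith
  have h1 : Real.log ((D : ℝ) + 2) ≤ 2 * D := by
    have := Real.log_le_sub_one_of_pos (by linarith : (0 : ℝ) < (D : ℝ) + 2)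
    linarith
  calc (Cc : ℝ) * (Cs * (D : ℝ) ^ 2 * Real.log ((D : ℝ) + 2)) =
        ((Cc : ℝ) * Cs) * (D : ℝ) ^ 2 * Real.log ((D : ℝ) + 2) := by ring
    _ ≤ ((Cc : ℝ) * Cs) * (D : ℝ) ^ 2 * (2 * D) :=
        mul_le_mul_of_nonneg_left h1 (by positivity)
    _ = (2 * Cc * Cs) * (D : ℝ) ^ 3 := by ring
    _ ≤ D * (D : ℝ) ^ 3 := mul_le_mul_of_nonneg_right (by linarith) (by positivity)
    _ = (D : ℝ) ^ 4 := by ring

/-- The final contradiction. -/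
private theorem C3_fin {K D : ℕ} {t V L : ℝ} (hD : 1 ≤ D) (hV : 0 < V) (htV : t ^ 5 ≤ V)
    (hL : 0 ≤ L) (h1 : V ≤ K * t * (D : ℝ) ^ 3 * L) (h2 : (D : ℝ) ^ 4 ≤ V)
    (hlog : (K : ℝ) ^ 5 * L ^ 5 < D) : False := by
  have hD1 : (1 : ℝ) ≤ D := by exact_mod_cast hD
  have hD0 : (0 : ℝ) < D := by linarith
  have hK : (0 : ℝ) ≤ K := Nat.cast_nonneg _
  have a1 : V ^ 5 ≤ (K * t * (D : ℝ) ^ 3 * L) ^ 5 := pow_le_pow_left₀ hV.le h1 5
  have a2 : (K * t * (D : ℝ) ^ 3 * L) ^ 5 = (K : ℝ) ^ 5 * L ^ 5 * (D : ℝ) ^ 15 * t ^ 5 := by ring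
  have a3 : (K : ℝ) ^ 5 * L ^ 5 * (D : ℝ) ^ 15 * t ^ 5 ≤
      (K : ℝ) ^ 5 * L ^ 5 * (D : ℝ) ^ 15 * V := mul_le_mul_of_nonneg_left htV (by positivity)
  have a4 : (K : ℝ) ^ 5 * L ^ 5 * (D : ℝ) ^ 15 * V < D * (D : ℝ) ^ 15 * V :=
    mul_lt_mul_of_pos_right (mul_lt_mul_of_pos_right hlog (by positivity)) hV
  have a5 : V ^ 4 < D * (D : ℝ) ^ 15 := by
    have h : V ^ 4 * V < D * (D : ℝ) ^ 15 * V := by
      calc V ^ 4 * V = V ^ 5 := by ring
        _ ≤ _ := a1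
        _ = _ := a2
        _ ≤ _ := a3
        _ < _ := a4
    exact lt_of_mul_lt_mul_right h hV.le
  have a6 : ((D : ℝ) ^ 4) ^ 4 ≤ V ^ 4 := pow_le_pow_left₀ (by positivity) h2 4
  have a7 : ((D : ℝ) ^ 4) ^ 4 = D * (D : ℝ) ^ 15 := by ring
  linarith

/-- `q ≤ D`. -/
private theorem C3_q {q D : ℕ} {dm V : ℝ} (hq : 4 ≤ q) (hqV : (q : ℝ) ^ 6 ≤ V) (hdm : 0 ≤ dm)
    (hV4 : V ^ 4 ≤ dm ^ 5) (hD2 : dm < 3 * ((D : ℝ) + 1) ^ 4) : q ≤ D := by
  by_contra hlt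
  have h1 : D + 1 ≤ q := by omega
  have h1r : (D : ℝ) + 1 ≤ q := by exact_mod_cast h1
  have hq4 : (4 : ℝ) ≤ q := by exact_mod_cast hq
  have h2 : ((D : ℝ) + 1) ^ 4 ≤ (q : ℝ) ^ 4 := pow_le_pow_left₀ (by positivity) h1r 4
  have h3 : dm < 3 * (q : ℝ) ^ 4 := by linarith
  have h4 : dm ^ 5 < (3 * (q : ℝ) ^ 4) ^ 5 := pow_lt_pow_left₀ h3 hdm (by norm_num)
  have h5 : ((q : ℝ) ^ 6) ^ 4 ≤ V ^ 4 := pow_le_pow_left₀ (by positivity) hqV 4
  have h6 : ((q : ℝ) ^ 6) ^ 4 = (q : ℝ) ^ 4 * (q : ℝ) ^ 20 := by ring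
  have h7 : (3 * (q : ℝ) ^ 4) ^ 5 = 243 * (q : ℝ) ^ 20 := by ring
  have h8 : (4 : ℝ) ^ 4 ≤ (q : ℝ) ^ 4 := pow_le_pow_left₀ (by norm_num) hq4 4
  have h9 : (0 : ℝ) < (q : ℝ) ^ 20 := by positivity
  have h10 : (4 : ℝ) ^ 4 * (q : ℝ) ^ 20 ≤ (q : ℝ) ^ 4 * (q : ℝ) ^ 20 :=
    mul_le_mul_of_nonneg_right h8 h9.le
  norm_num at h10
  linarith

theorem na5 {y : ℂ} (hy : 0 < y.im) {b : CZ.BaseFn y} {lam h kap ep : ℂ} {ε : ℝ}
    {Xf X1f Yf : ℂ → ℂ} (hS : CZ.BaseSys b lam h kap ep ε Xf X1f Yf) (C : ℕ) (hC : 1 ≤ C) :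
    ∃ Q0 : ℕ, ∀ (q : ℕ) (L0 : ℝ), Q0 ≤ q → Win y C q L0 → ∀ t V : ℝ, 1 ≤ t → (q : ℝ) ^ 6 ≤ V →
      V ≤ L0 → t ^ 5 ≤ V → ¬ ApprAt (Pt ep h y) t V := by
  obtain ⟨C1, mm, D9, hC1, hmm, hz⟩ := zest_w hy hS C hC
  obtain ⟨κ, hκ, hhalf⟩ := half hy hS
  obtain ⟨D10, hD10⟩ := hhalf C1
  obtain ⟨Cc, hCc, hcore⟩ := U2.core_gen (Pt ep h y)
  obtain ⟨Cs, hCs⟩ : ∃ Cs : ℕ, Cs = Cc + 2 + (2 + 2 * C1) + C1 * (14 * (1 + C1) + 2) := ⟨_, rfl⟩
  obtain ⟨D11, hD11⟩ := C3_log (48 * κ * Cc * Cs)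
  refine ⟨4 + mm + D9 + D10 + D11 + (2 * Cc * Cs + 2), ?_⟩
  intro q L0 hq hwin t V ht hqV hVL htV happ
  have hq1 : (1 : ℝ) ≤ q := by
    have : 1 ≤ q := by omega
    exact_mod_cast this
  have hV : 0 < V := lt_of_lt_of_le (by positivity) hqV
  obtain ⟨E, iF, iN, x, S, d, hf, hx, hd, hsum, φ0, hφ0, hVt, hmax, hdmV⟩ := appr_scale hV happ
  have hdm0 : 0 ≤ d φ0 := (hd φ0 hφ0).1
  have ht0 : 0 < t := by linarith
  have hV4 : V ^ 4 ≤ d φ0 ^ 5 := by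
    have h1 : V ^ 5 ≤ (t * d φ0) ^ 5 := pow_le_pow_left₀ hV.le hVt 5
    have h2 : (t * d φ0) ^ 5 = t ^ 5 * d φ0 ^ 5 := by ring
    have h3 : t ^ 5 * d φ0 ^ 5 ≤ V * d φ0 ^ 5 := mul_le_mul_of_nonneg_right htV (by positivity)
    have h4 : V * V ^ 4 ≤ V * d φ0 ^ 5 := by
      calc V * V ^ 4 = V ^ 5 := by ring
        _ ≤ _ := h1
        _ = _ := h2
        _ ≤ _ := h3
    exact le_of_mul_le_mul_left h4 hV
  obtain ⟨D, hDlo, hDhi⟩ := C3_fl hdm0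
  have hqD : q ≤ D := C3_q (by omega) hqV hdm0 hV4 hDhi
  have hD1 : 1 ≤ D := by omega
  have hD1r : (1 : ℝ) ≤ D := by exact_mod_cast hD1
  have hD4V : (D : ℝ) ^ 4 ≤ V := by
    have : (0 : ℝ) ≤ (D : ℝ) ^ 4 := by positivity
    linarith
  have hWL : WL y C (mm * D) := by
    refine hwin (mm * D) ?_ ?_
    · calc q ≤ D := hqD
        _ = 1 * D := (one_mul D).symm
        _ ≤ mm * D := Nat.mul_le_mul_right D hmm
    · refine le_trans ?_ hVL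
      refine le_trans ?_ hD4V
      have h1 : mm * D ≤ D * D := Nat.mul_le_mul_right D (by omega)
      have h2 : ((mm * D : ℕ) : ℝ) ≤ ((D * D : ℕ) : ℝ) := by exact_mod_cast h1
      refine h2.trans ?_
      push_cast
      have h3 : (1 : ℝ) ≤ (D : ℝ) ^ 2 := one_le_pow₀ hD1r
      nlinarith
  obtain ⟨L, hL⟩ : ∃ L : ℝ, L = Real.log ((D : ℝ) + 2) := ⟨_, rfl⟩
  obtain ⟨hL1, hτC, hτl, hτt⟩ := C3_tau C1 Cc D hD1 hCs hL
  have hκr : (0 : ℝ) < κ := by exact_mod_cast hκ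
  have hcard : Fintype.card (Ix D) = (D + 1) ^ 2 := by
    simp only [Ix, Fintype.card_prod, Fintype.card_fin]
    ring
  have hXτ : (Cc : ℝ) * (Cs * (D : ℝ) ^ 2 * L) ≤ (D : ℝ) ^ 4 := by
    rw [hL]
    exact C3_X Cc Cs D (by omega)
  have key := hcore (Cs * (D : ℝ) ^ 2 * L) ((D : ℝ) ^ 4) ((D : ℝ) ^ 3 / κ) hτC hXτ (by positivity)
    (Ix D) inferInstance (Fin (C1 * D ^ 2)) (fun t l => W D t l) Fintype.card_pos
    (by rw [hcard]; exact hτl)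
    (fun s l => ⟨le_trans (by exact_mod_cast W_deg D s l) (hτt s s.2).1,
      (W_nrm D s l).trans (hτt s s.2).2⟩)
    (fun c hc hl => by
      obtain ⟨t', ht', hlt⟩ := hz D c (by omega) hWL hc hl
      exact ⟨⟨t', ht'⟩, hlt⟩)
    (by
      obtain ⟨V', hV1, hV2⟩ := hD10 D (by omega)
      refine ⟨V', ?_, fun c hc hc1 t' => hV2 c hc hc1 t' t'.2⟩
      rw [hcard]
      exact hV1)
    E iF iN x S d t hf hx hd ⟨φ0, hφ0, hDlo⟩
  have h48 : ∀ φ ∈ S, d φ ≤ 48 * κ * D * min ((D : ℝ) ^ 3 / κ) (d φ) := by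
    intro φ hφ
    have hdφ := (hd φ hφ).1
    have hκ1 : (1 : ℝ) ≤ κ := by exact_mod_cast hκ
    rcases le_total ((D : ℝ) ^ 3 / κ) (d φ) with hle | hle
    · rw [min_eq_left hle]
      have h1 : 48 * (κ : ℝ) * D * ((D : ℝ) ^ 3 / κ) = 48 * (D : ℝ) ^ 4 := by
        field_simp
      rw [h1]
      have h2 : ((D : ℝ) + 1) ^ 4 ≤ (2 * D) ^ 4 :=
        pow_le_pow_left₀ (by positivity) (by linarith) 4
      have h3 : (2 * (D : ℝ)) ^ 4 = 16 * (D : ℝ) ^ 4 := by ring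
      have h4 := hmax φ hφ
      linarith
    · rw [min_eq_right hle]
      have h1 : (1 : ℝ) ≤ 48 * κ * D := by
        have : (1 : ℝ) ≤ 48 * κ := by linarith
        exact one_le_mul_of_one_le_of_one_le this hD1r
      exact le_mul_of_one_le_left hdφ h1
  have hVs : V ≤ ((48 * κ * Cc * Cs : ℕ) : ℝ) * t * (D : ℝ) ^ 3 * L := by
    calc V = ∑ φ ∈ S, d φ := hsum.symm
      _ ≤ ∑ φ ∈ S, 48 * κ * D * min ((D : ℝ) ^ 3 / κ) (d φ) := Finset.sum_le_sum h48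
      _ = 48 * κ * D * ∑ φ ∈ S, min ((D : ℝ) ^ 3 / κ) (d φ) := (Finset.mul_sum _ _ _).symm
      _ ≤ 48 * κ * D * (Cc * t * (Cs * (D : ℝ) ^ 2 * L)) :=
          mul_le_mul_of_nonneg_left key (by positivity)
      _ = ((48 * κ * Cc * Cs : ℕ) : ℝ) * t * (D : ℝ) ^ 3 * L := by
          push_cast
          ring
  refine C3_fin hD1 hV htV (by linarith) hVs hD4V ?_
  rw [hL]
  exact hD11 D (by omega)

end AK

end S_H32_AK_C3

section S_H32_AK_C4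

set_option autoImplicit false

namespace AK

open CZ U2

private theorem C4_cov {z : ℂ} {Cn C : ℕ} (l : ℕ) (hl : Cn ^ (C + 1) < l)
    (h : COV z l (l * (l ^ (2 * C + 3) + 1)) ∨ ∃ p0 p1 p2 : ℤ, 1 ≤ p0 ∧ |p0| ≤ (Cn * l ^ 2 : ℕ) ∧
      |p1| ≤ (Cn * l ^ 2 : ℕ) ∧ |p2| ≤ (Cn * l ^ 2 : ℕ) ∧
      ‖(p0 : ℂ) * z ^ 2 - p1 * z + p2‖ ≤ Cn * l / (l ^ (2 * C + 3) : ℕ))
    (hW : WL z C (Cn * l ^ 2)) : COV z l (l * (l ^ (2 * C + 3) + 1)) := by
  rcases h with h | ⟨p0, p1, p2, g0, g1, g2, g3, g4⟩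
  · exact h
  exfalso
  have h1 := hW p0 (-p1) p2 g1 (by rw [abs_neg]; exact g2) g3 (Or.inl (by omega))
  have e1 : (p0 : ℂ) * z ^ 2 + ((-p1 : ℤ) : ℂ) * z + p2 = (p0 : ℂ) * z ^ 2 - p1 * z + p2 := by
    push_cast
    ring
  rw [e1] at h1
  have hl0 : 0 < l := by omega
  have hlr : (0 : ℝ) < l := by exact_mod_cast hl0
  have h2 : (1 : ℝ) ≤ ((Cn * l ^ 2 : ℕ) : ℝ) ^ C * (Cn * l / (l ^ (2 * C + 3) : ℕ)) :=
    h1.trans (mul_le_mul_of_nonneg_left g4 (by positivity))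
  have h3 : ((Cn * l ^ 2 : ℕ) : ℝ) ^ C * (Cn * l / (l ^ (2 * C + 3) : ℕ)) =
      (Cn : ℝ) ^ (C + 1) / (l : ℝ) ^ 2 := by
    have e2 : ((l : ℝ)) ^ (2 * C + 3) = ((l : ℝ) ^ 2) ^ C * l * l ^ 2 := by
      rw [← pow_mul]
      ring
    push_cast
    rw [mul_pow, e2]
    field_simp
    rw [pow_succ]
  rw [h3, le_div_iff₀ (by positivity), one_mul] at h2
  have h4 : (Cn : ℝ) ^ (C + 1) < l := by exact_mod_cast hl
  have h5 : (1 : ℝ) ≤ l := by exact_mod_cast hl0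
  nlinarith

private theorem C4_size (C0 s l : ℕ) (hl : 9 * C0 * (s + 6) ≤ l) (hl1 : 1 ≤ l) :
    C0 * l * (((l * (l ^ s + 1) : ℕ) : ℝ) + l) ^ 2 *
      Real.log ((((l * (l ^ s + 1) : ℕ) : ℝ) + l) * l + 2) ≤ ((l ^ (2 * s + 5) : ℕ) : ℝ) := by
  have hlr : (1 : ℝ) ≤ (l : ℝ) := by exact_mod_cast hl1
  have d1 : ((l * (l ^ s + 1) : ℕ) : ℝ) + l = (l : ℝ) * ((l : ℝ) ^ s + 2) := by
    push_cast
    ring
  have hlc : 9 * (C0 : ℝ) * (s + 6) ≤ (l : ℝ) := by exact_mod_cast hl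
  rw [d1]
  push_cast
  generalize (l : ℝ) = L at *
  have hl0 : 0 < L := by linarith
  have hs1 : 1 ≤ L ^ s := one_le_pow₀ hlr
  have d2 : L * (L ^ s + 2) ≤ 3 * L ^ (s + 1) := by
    rw [pow_succ]
    nlinarith
  have d3 : Real.log (L * (L ^ s + 2) * L + 2) ≤ (s + 6) * L := by
    have c1 : L * (L ^ s + 2) * L + 2 ≤ 5 * L ^ (s + 2) := by
      have c2 : L * (L ^ s + 2) * L ≤ 3 * L ^ (s + 1) * L := mul_le_mul_of_nonneg_right d2 hl0.le
      have c3 : 3 * L ^ (s + 1) * L = 3 * L ^ (s + 2) := by ring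
      have c4 : 1 ≤ L ^ (s + 2) := one_le_pow₀ hlr
      linarith
    calc Real.log (L * (L ^ s + 2) * L + 2) ≤ Real.log (5 * L ^ (s + 2)) :=
          Real.log_le_log (by positivity) c1
      _ = Real.log 5 + (s + 2) * Real.log L := by
          rw [Real.log_mul (by norm_num) (by positivity), Real.log_pow]
          push_cast
          ring
      _ ≤ (s + 6) * L := by
          have c5 : Real.log 5 ≤ 4 := by
            have := Real.log_le_sub_one_of_pos (show (0 : ℝ) < 5 by norm_num)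
            linarith
          have c6 : Real.log L ≤ L := by
            have := Real.log_le_sub_one_of_pos hl0
            linarith
          have c7 : ((s : ℝ) + 2) * Real.log L ≤ (s + 2) * L :=
            mul_le_mul_of_nonneg_left c6 (by positivity)
          linarith
  have d4 : 0 ≤ Real.log (L * (L ^ s + 2) * L + 2) := by
    apply Real.log_nonneg
    have : 0 ≤ L * (L ^ s + 2) * L := by positivity
    linarith
  calc (C0 : ℝ) * L * (L * (L ^ s + 2)) ^ 2 * Real.log (L * (L ^ s + 2) * L + 2) ≤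
      (C0 : ℝ) * L * (3 * L ^ (s + 1)) ^ 2 * ((s + 6) * L) := by
        refine mul_le_mul (mul_le_mul_of_nonneg_left ?_ (by positivity)) d3 d4 (by positivity)
        exact pow_le_pow_left₀ (by positivity) d2 2
    _ = (9 * (C0 : ℝ) * (s + 6)) * L ^ (2 * s + 4) := by ring
    _ ≤ L * L ^ (2 * s + 4) := mul_le_mul_of_nonneg_right hlc (by positivity)
    _ = L ^ (2 * s + 5) := by ring

private theorem C4_log (c : ℝ) (hc : 0 ≤ c) (m : ℕ) :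
    ∃ l1 : ℕ, ∀ l : ℕ, l1 ≤ l → (c * Real.log ((l : ℝ) + 2)) ^ m < l := by
  have hε : (0 : ℝ) < 1 / (2 * (c ^ m + 1)) := by positivity
  have h1 := (Real.isLittleO_pow_log_id_atTop (n := m)).def hε
  have h2 : Filter.Tendsto (fun l : ℕ => (l : ℝ) + 2) Filter.atTop Filter.atTop :=
    Filter.tendsto_atTop_add_const_right _ _ tendsto_natCast_atTop_atTop
  obtain ⟨l1, hl1⟩ := Filter.eventually_atTop.1 ((h2.eventually h1).and (Filter.eventually_ge_atTop 3))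
  refine ⟨l1, fun l hl => ?_⟩
  obtain ⟨h3, h4⟩ := hl1 l hl
  have h5 : (3 : ℝ) ≤ l := by exact_mod_cast h4
  have hL : 0 ≤ Real.log ((l : ℝ) + 2) := Real.log_nonneg (by linarith)
  have h6 : ‖Real.log ((l : ℝ) + 2) ^ m‖ = Real.log ((l : ℝ) + 2) ^ m :=
    Real.norm_of_nonneg (by positivity)
  have h7 : ‖id ((l : ℝ) + 2)‖ = (l : ℝ) + 2 :=
    Real.norm_of_nonneg (by simp only [id]; positivity)
  rw [h6, h7, one_div, inv_mul_eq_div, le_div_iff₀ (by positivity)] at h3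
  have h8 : 0 ≤ Real.log ((l : ℝ) + 2) ^ m := by positivity
  have h9 : 0 ≤ c ^ m := by positivity
  rw [mul_pow]
  nlinarith

private theorem C4_q {C1 e q l : ℕ} {V dm : ℝ} (hV : V ^ (2 * e + 1) ≤ dm ^ (4 * e + 3)) (hdm : 0 ≤ dm)
    (hC1 : 1 ≤ C1) (hlt : dm < C1 * ((l : ℝ) + 1) ^ (2 * e + 1)) (hq : (q : ℝ) ^ (4 * e + 4) ≤ V)
    (hqC : C1 ^ 3 ≤ q) : q ≤ l := by
  by_contra hc
  have h0 : l + 1 ≤ q := by omega
  have h0r : (l : ℝ) + 1 ≤ q := by exact_mod_cast h0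
  have hl0 : (0 : ℝ) ≤ l := Nat.cast_nonneg l
  have hq0 : (0 : ℝ) < q := by linarith
  have hC1r : (1 : ℝ) ≤ C1 := by exact_mod_cast hC1
  have h1 : dm < C1 * (q : ℝ) ^ (2 * e + 1) :=
    lt_of_lt_of_le hlt (mul_le_mul_of_nonneg_left (pow_le_pow_left₀ (by positivity) h0r _) (by positivity))
  have h2 : V ^ (2 * e + 1) < ((C1 : ℝ) ^ 3 * (q : ℝ) ^ (4 * e + 3)) ^ (2 * e + 1) := by
    calc V ^ (2 * e + 1) ≤ dm ^ (4 * e + 3) := hV
      _ < (C1 * (q : ℝ) ^ (2 * e + 1)) ^ (4 * e + 3) := pow_lt_pow_left₀ h1 hdm (by omega)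
      _ = (C1 : ℝ) ^ (4 * e + 3) * (q : ℝ) ^ ((2 * e + 1) * (4 * e + 3)) := by
          rw [mul_pow, ← pow_mul]
      _ ≤ (C1 : ℝ) ^ (3 * (2 * e + 1)) * (q : ℝ) ^ ((2 * e + 1) * (4 * e + 3)) :=
          mul_le_mul_of_nonneg_right (pow_le_pow_right₀ hC1r (by omega)) (by positivity)
      _ = ((C1 : ℝ) ^ 3 * (q : ℝ) ^ (4 * e + 3)) ^ (2 * e + 1) := by
          rw [mul_pow, ← pow_mul, ← pow_mul, mul_comm (2 * e + 1) (4 * e + 3)]
  have h3 : V < (C1 : ℝ) ^ 3 * (q : ℝ) ^ (4 * e + 3) := lt_of_pow_lt_pow_left₀ _ (by positivity) h2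
  have h4 : (q : ℝ) * (q : ℝ) ^ (4 * e + 3) < (C1 : ℝ) ^ 3 * (q : ℝ) ^ (4 * e + 3) := by
    calc (q : ℝ) * (q : ℝ) ^ (4 * e + 3) = (q : ℝ) ^ (4 * e + 4) := by ring
      _ ≤ V := hq
      _ < _ := h3
  have h5 : (q : ℝ) < (C1 : ℝ) ^ 3 := lt_of_mul_lt_mul_right h4 (by positivity)
  have h6 : ((C1 ^ 3 : ℕ) : ℝ) ≤ (q : ℝ) := by exact_mod_cast hqC
  push_cast at h6
  linarith

private theorem C4_fin {e C2 l : ℕ} {t V G : ℝ} (hV0 : 0 < V)
    (h1 : t ^ (4 * e + 3) ≤ V ^ (2 * e + 2)) (hG : 0 ≤ G) (h2 : V ≤ C2 * t * ((l : ℝ) ^ e * G))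
    (h3 : (l : ℝ) ^ (2 * e + 1) ≤ V) (hl : 1 ≤ l) : (l : ℝ) ^ (e + 1) ≤ (C2 * G) ^ (4 * e + 3) := by
  have hl0 : (0 : ℝ) < l := by exact_mod_cast hl
  have h4 : V ^ (2 * e + 1) * V ^ (2 * e + 2) ≤
      ((C2 * G) ^ (4 * e + 3) * (l : ℝ) ^ (e * (4 * e + 3))) * V ^ (2 * e + 2) := by
    calc V ^ (2 * e + 1) * V ^ (2 * e + 2) = V ^ (4 * e + 3) := by
          rw [← pow_add]
          congr 1
          omega
      _ ≤ (C2 * t * ((l : ℝ) ^ e * G)) ^ (4 * e + 3) := pow_le_pow_left₀ hV0.le h2 _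
      _ = ((C2 * G) ^ (4 * e + 3) * (l : ℝ) ^ (e * (4 * e + 3))) * t ^ (4 * e + 3) := by
          rw [pow_mul, ← mul_pow, ← mul_pow]
          congr 1
          ring
      _ ≤ _ := mul_le_mul_of_nonneg_left h1 (by positivity)
  have h5 := le_of_mul_le_mul_right h4 (by positivity)
  have h6 : (l : ℝ) ^ (e + 1) * (l : ℝ) ^ (e * (4 * e + 3)) ≤
      (C2 * G) ^ (4 * e + 3) * (l : ℝ) ^ (e * (4 * e + 3)) := by
    calc (l : ℝ) ^ (e + 1) * (l : ℝ) ^ (e * (4 * e + 3)) = ((l : ℝ) ^ (2 * e + 1)) ^ (2 * e + 1) := by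
          rw [← pow_add, ← pow_mul]
          congr 1
          ring
      _ ≤ V ^ (2 * e + 1) := pow_le_pow_left₀ (by positivity) h3 _
      _ ≤ _ := h5
  exact le_of_mul_le_mul_right h6 (by positivity)

private theorem C4_one {m l : ℕ} (hl : m ≤ l) (hl1 : 1 ≤ l) :
    ((l : ℝ) + 1) ^ m ≤ 64 * (l : ℝ) ^ m := by
  have hl0 : (0 : ℝ) < l := by exact_mod_cast hl1
  have h1 : ((l : ℝ) + 1) ^ m = (1 + 1 / (l : ℝ)) ^ m * (l : ℝ) ^ m := by
    rw [← mul_pow]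
    congr 1
    field_simp
  rw [h1]
  apply mul_le_mul_of_nonneg_right _ (by positivity)
  have h2 : 1 + 1 / (l : ℝ) ≤ Real.exp (1 / (l : ℝ)) := by
    have := Real.add_one_le_exp (1 / (l : ℝ))
    linarith
  calc (1 + 1 / (l : ℝ)) ^ m ≤ Real.exp (1 / (l : ℝ)) ^ m := pow_le_pow_left₀ (by positivity) h2 _
    _ = Real.exp (m * (1 / (l : ℝ))) := (Real.exp_nat_mul _ _).symm
    _ ≤ Real.exp 1 := by
        apply Real.exp_le_exp.2
        rw [mul_one_div, div_le_one hl0]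
        exact_mod_cast hl
    _ ≤ 64 := by
        have := Real.exp_one_lt_d9
        linarith

theorem na2 (z : ℂ) (hz : 0 < z.im) {k : ℕ} (P : Fin k → ℂ) (C0 : ℕ) (hC0 : 1 ≤ C0)
    (hD : ∀ N K Q : ℕ, 1 ≤ N → COV z N K →
      C0 * N * ((K : ℝ) + N) ^ 2 * Real.log (((K : ℝ) + N) * N + 2) ≤ Q → Dat P C0 N Q)
    (C : ℕ) (hC : 1 ≤ C) : ∃ (κ0 : ℝ) (A Q0 : ℕ), 1 ≤ κ0 ∧ κ0 < 2 ∧ ∀ (q : ℕ) (L0 : ℝ), Q0 ≤ q →
      Win z C q L0 → ∀ t V : ℝ, 1 ≤ t → (q : ℝ) ^ A ≤ V → V ≤ L0 → t ^ κ0 ≤ V →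
      ¬ ApprAt P t V := by
  obtain ⟨Cn, hCn1, hCn⟩ := cov_or z hz
  obtain ⟨C1, C2, hC1, hC12, hS⟩ := sum_le P C0 hC0
  set s := 2 * C + 3 with hs
  set e := 2 * s + 5 with he
  obtain ⟨l1, hl1⟩ := C4_log ((C2 : ℝ) * (e + 1)) (by positivity) (4 * e + 3)
  have hκ : (0 : ℝ) < 2 * (e : ℝ) + 2 := by positivity
  refine ⟨(4 * (e : ℝ) + 3) / (2 * (e : ℝ) + 2), 4 * e + 4,
    1 + C1 ^ 3 + Cn + Cn ^ (C + 1) + C2 + (2 * e + 1) + 9 * C0 * (s + 6) + l1, ?_, ?_, ?_⟩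
  · rw [le_div_iff₀ hκ]
    have : (0 : ℝ) ≤ (e : ℝ) := Nat.cast_nonneg e
    linarith
  · rw [div_lt_iff₀ hκ]
    linarith
  intro q L0 hq hWin t V ht hqV hVL htV happ
  have hq1 : 1 ≤ q := by omega
  have hq1r : (1 : ℝ) ≤ q := by exact_mod_cast hq1
  have hV1 : (1 : ℝ) ≤ V := le_trans (one_le_pow₀ hq1r) hqV
  have hV0 : 0 < V := by linarith
  have ht0 : 0 < t := by linarith
  obtain ⟨E, iE, iN, x, S, d, hE1, hE2, hE3, hE4, φ0, hφ0, hE5, hE6, hE7⟩ := appr_scale hV0 happ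
  have htV' : t ^ (4 * e + 3) ≤ V ^ (2 * e + 2) := by
    have h1 : (t ^ ((4 * (e : ℝ) + 3) / (2 * (e : ℝ) + 2))) ^ (2 * e + 2) ≤ V ^ (2 * e + 2) :=
      pow_le_pow_left₀ (by positivity) htV _
    have h2 : (t ^ ((4 * (e : ℝ) + 3) / (2 * (e : ℝ) + 2))) ^ (2 * e + 2) = t ^ (4 * e + 3) := by
      rw [← Real.rpow_natCast, ← Real.rpow_mul ht0.le, ← Real.rpow_natCast t (4 * e + 3)]
      congr 1
      push_cast
      field_simp
    rw [h2] at h1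
    exact h1
  have hd0 : 0 ≤ d φ0 := (hE3 φ0 hφ0).1
  have hVd : V ^ (2 * e + 1) ≤ d φ0 ^ (4 * e + 3) := by
    have h1 : V ^ (2 * e + 1) * V ^ (2 * e + 2) ≤ d φ0 ^ (4 * e + 3) * V ^ (2 * e + 2) := by
      calc V ^ (2 * e + 1) * V ^ (2 * e + 2) = V ^ (4 * e + 3) := by
            rw [← pow_add]
            congr 1
            omega
        _ ≤ (t * d φ0) ^ (4 * e + 3) := pow_le_pow_left₀ hV0.le hE5 _
        _ = d φ0 ^ (4 * e + 3) * t ^ (4 * e + 3) := by rw [mul_pow, mul_comm]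
        _ ≤ _ := mul_le_mul_of_nonneg_left htV' (by positivity)
    exact le_of_mul_le_mul_right h1 (by positivity)
  -- the largest l
  have hex : ∃ l : ℕ, d φ0 < C1 * ((l : ℝ) + 1) ^ (2 * e + 1) := by
    obtain ⟨l, hl⟩ := exists_nat_gt (d φ0)
    refine ⟨l, ?_⟩
    have h1 : (1 : ℝ) ≤ C1 := by exact_mod_cast hC1
    have h2 : (l : ℝ) + 1 ≤ ((l : ℝ) + 1) ^ (2 * e + 1) :=
      le_self_pow₀ (by have : (0 : ℝ) ≤ l := Nat.cast_nonneg l; linarith) (by omega)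
    have h3 : ((l : ℝ) + 1) ^ (2 * e + 1) ≤ C1 * ((l : ℝ) + 1) ^ (2 * e + 1) :=
      le_mul_of_one_le_left (by positivity) h1
    linarith
  classical
  obtain ⟨l, hll, hlm⟩ : ∃ l : ℕ, d φ0 < C1 * ((l : ℝ) + 1) ^ (2 * e + 1) ∧
      (C1 : ℝ) * (l : ℝ) ^ (2 * e + 1) ≤ d φ0 := by
    refine ⟨Nat.find hex, Nat.find_spec hex, ?_⟩
    rcases Nat.eq_zero_or_pos (Nat.find hex) with h0 | h0
    · rw [h0, Nat.cast_zero, zero_pow (by omega), mul_zero]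
      exact hd0
    · have h1 := Nat.find_min hex (Nat.sub_lt h0 one_pos)
      rw [not_lt] at h1
      have h2 : ((Nat.find hex - 1 : ℕ) : ℝ) + 1 = (Nat.find hex : ℝ) := by
        rw [Nat.cast_sub h0, Nat.cast_one, sub_add_cancel]
      rw [h2] at h1
      exact h1
  have hql : q ≤ l := C4_q hVd hd0 hC1 hll hqV (by omega)
  have hl1' : 1 ≤ l := by omega
  have hlr : (1 : ℝ) ≤ l := by exact_mod_cast hl1'
  have hC1r : (1 : ℝ) ≤ C1 := by exact_mod_cast hC1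
  have hpow : (l : ℝ) ^ (2 * e + 1) ≤ d φ0 :=
    (le_mul_of_one_le_left (by positivity) hC1r).trans hlm
  have hW : WL z C (Cn * l ^ 2) := by
    apply hWin
    · calc q ≤ l := hql
        _ = 1 * (l * 1) := by ring
        _ ≤ Cn * (l * l) := Nat.mul_le_mul hCn1 (Nat.mul_le_mul_left l hl1')
        _ = Cn * l ^ 2 := by ring
    · have h1 : Cn * l ^ 2 ≤ l ^ (2 * e + 1) := by
        calc Cn * l ^ 2 ≤ l * l ^ 2 := Nat.mul_le_mul_right _ (by omega)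
          _ = l ^ 3 := by ring
          _ ≤ l ^ (2 * e + 1) := Nat.pow_le_pow_right hl1' (by omega)
      have h2 : ((Cn * l ^ 2 : ℕ) : ℝ) ≤ (l : ℝ) ^ (2 * e + 1) := by exact_mod_cast h1
      linarith
  have hcov := C4_cov (z := z) (Cn := Cn) (C := C) l (by omega)
    (hCn l (l ^ (2 * C + 3)) hl1' (Nat.one_le_pow _ _ hl1')) hW
  have hdat : Dat P C0 l (l ^ e) :=
    hD l (l * (l ^ s + 1)) (l ^ e) hl1' hcov (C4_size C0 s l (by omega) hl1')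
  have hC2Q : C2 ≤ l ^ e := by
    calc C2 ≤ l := by omega
      _ ≤ l ^ e := Nat.le_self_pow (by omega) l
  have hNQ : (C1 : ℝ) * l * ((l ^ e : ℕ) : ℝ) ^ 2 = C1 * (l : ℝ) ^ (2 * e + 1) := by
    push_cast
    ring
  have hsum := hS l (l ^ e) hl1' hC2Q hdat E iE iN x S d t hE1 hE2 hE3
    ⟨φ0, hφ0, by rw [hNQ]; exact hlm⟩ (by
      intro φ hφ
      rw [hNQ]
      have h1 := hE6 φ hφ
      have h2 := C4_one (m := 2 * e + 1) (l := l) (by omega) hl1'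
      have h3 : (C1 : ℝ) * ((l : ℝ) + 1) ^ (2 * e + 1) ≤ C1 * (64 * (l : ℝ) ^ (2 * e + 1)) :=
        mul_le_mul_of_nonneg_left h2 (by positivity)
      linarith)
  rw [hE4] at hsum
  set G : ℝ := (e + 1) * Real.log ((l : ℝ) + 2) with hG
  have hlog2 : 0 ≤ Real.log ((l : ℝ) + 2) := Real.log_nonneg (by linarith)
  have hG0 : 0 ≤ G := by positivity
  have hlogG : Real.log (((l ^ e : ℕ) : ℝ) + 2) ≤ G := by
    have h1 : ((l ^ e : ℕ) : ℝ) + 2 ≤ ((l : ℝ) + 2) ^ (e + 1) := by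
      have h2 : (l : ℝ) ^ e ≤ ((l : ℝ) + 2) ^ e := pow_le_pow_left₀ (by positivity) (by linarith) _
      have h3 : (1 : ℝ) ≤ ((l : ℝ) + 2) ^ e := one_le_pow₀ (by linarith)
      have h4 : ((l : ℝ) + 2) ^ (e + 1) = ((l : ℝ) + 2) ^ e * l + 2 * ((l : ℝ) + 2) ^ e := by ring
      have h5 : ((l : ℝ) + 2) ^ e ≤ ((l : ℝ) + 2) ^ e * l := le_mul_of_one_le_right (by positivity) hlr
      push_cast
      linarith
    calc Real.log (((l ^ e : ℕ) : ℝ) + 2) ≤ Real.log (((l : ℝ) + 2) ^ (e + 1)) :=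
          Real.log_le_log (by positivity) h1
      _ = G := by
          rw [Real.log_pow, hG]
          push_cast
          ring
  have hV2 : V ≤ C2 * t * ((l : ℝ) ^ e * G) := by
    refine hsum.trans (mul_le_mul_of_nonneg_left ?_ (by positivity))
    push_cast at hlogG ⊢
    exact mul_le_mul_of_nonneg_left hlogG (by positivity)
  have hfin := C4_fin hV0 htV' hG0 hV2 (hpow.trans hE7) hl1'
  have h1 := hl1 l (by omega)
  have h2 : (C2 : ℝ) * (e + 1) * Real.log ((l : ℝ) + 2) = C2 * G := by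
    rw [hG]
    ring
  rw [h2] at h1
  have h3 : (l : ℝ) ≤ (l : ℝ) ^ (e + 1) := le_self_pow₀ hlr (by omega)
  linarith

end AK

end S_H32_AK_C4

section S_H32_AK_C6

set_option autoImplicit false

namespace AK

open CZ AO
open H32.T3 (nrm)

theorem C6_nr (f : Polynomial ℤ) :
    nr f = ∑ i ∈ Finset.range (f.natDegree + 1), |((f.coeff i : ℤ) : ℝ)| := by
  unfold nr
  exact Polynomial.sum_over_range f (fun _ => by simp)

theorem C6_coeff (f : Polynomial ℤ) {i : ℕ} (hi : i ≤ f.natDegree) : |((f.coeff i : ℤ) : ℝ)| ≤ nr f := by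
  rw [C6_nr]
  exact Finset.single_le_sum (f := fun i => |((f.coeff i : ℤ) : ℝ)|) (fun _ _ => abs_nonneg _)
    (Finset.mem_range.2 (Nat.lt_succ_of_le hi))

theorem C6_nr_nonneg (f : Polynomial ℤ) : 0 ≤ nr f := by
  rw [C6_nr]
  exact Finset.sum_nonneg fun _ _ => abs_nonneg _

theorem C6_sub (f : Polynomial ℤ) {N : ℕ} (hN : f.natDegree ≤ N) {a b : ℂ} {B δ : ℝ} (hB : 1 ≤ B)
    (ha : ‖a‖ ≤ B) (hb : ‖b‖ ≤ B) (hab : ‖a - b‖ ≤ δ) (hδ : 0 ≤ δ) :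
    ‖Polynomial.aeval a f - Polynomial.aeval b f‖ ≤ nr f * (N * B ^ N * δ) := by
  have h1 := CZ.aeval_sub_le (A6_mv (0 : Fin 1) f) N ((A6_mv_deg _ _).trans hN) (fun _ => b)
    (fun _ => a) B δ hB (fun _ => hb) (fun _ => ha) (fun _ => hab) hδ
  rw [A6_mv_aeval, A6_mv_aeval] at h1
  refine h1.trans (mul_le_mul_of_nonneg_right (A6_mv_nrm _ _) ?_)
  have : 0 ≤ B := by linarith
  positivity

theorem C6_le (f : Polynomial ℤ) {N : ℕ} (hN : f.natDegree ≤ N) {a : ℂ} {B : ℝ} (hB : 1 ≤ B)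
    (ha : ‖a‖ ≤ B) : ‖Polynomial.aeval a f‖ ≤ nr f * B ^ N := by
  rw [Polynomial.aeval_eq_sum_range, C6_nr, Finset.sum_mul]
  refine norm_sum_le_of_le _ fun i hi => ?_
  rw [zsmul_eq_mul, norm_mul, Complex.norm_intCast, norm_pow]
  refine mul_le_mul_of_nonneg_left ?_ (abs_nonneg _)
  refine (pow_le_pow_left₀ (norm_nonneg _) ha i).trans (pow_le_pow_right₀ hB ?_)
  have := Finset.mem_range.1 hi
  omega

theorem C6_pow {a b : ℂ} {B δ : ℝ} (hB : 1 ≤ B) (ha : ‖a‖ ≤ B) (hb : ‖b‖ ≤ B) (hab : ‖a - b‖ ≤ δ)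
    (i : ℕ) : ‖a ^ i - b ^ i‖ ≤ i * B ^ i * δ := by
  have hδ : 0 ≤ δ := (norm_nonneg _).trans hab
  have hB0 : 0 ≤ B := by linarith
  induction i with
  | zero => simp
  | succ i ih =>
    have e : a ^ (i + 1) - b ^ (i + 1) = a * (a ^ i - b ^ i) + (a - b) * b ^ i := by ring
    rw [e]
    refine (norm_add_le _ _).trans ?_
    rw [norm_mul, norm_mul, norm_pow]
    have h1 : ‖a‖ * ‖a ^ i - b ^ i‖ ≤ B * (i * B ^ i * δ) := mul_le_mul ha ih (norm_nonneg _) hB0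
    have h2 : ‖a - b‖ * ‖b‖ ^ i ≤ δ * B ^ i :=
      mul_le_mul hab (pow_le_pow_left₀ (norm_nonneg _) hb i) (by positivity) hδ
    have h3 : δ * B ^ i ≤ δ * B ^ (i + 1) :=
      mul_le_mul_of_nonneg_left (pow_le_pow_right₀ hB (Nat.le_succ i)) hδ
    have h4 : B * (i * B ^ i * δ) + δ * B ^ (i + 1) = ((i + 1 : ℕ) : ℝ) * B ^ (i + 1) * δ := by
      push_cast
      ring
    linarith

theorem rel_alg {k : ℕ} (P : Fin k → ℂ) (y : ℂ) (d : ℕ) : ∃ X0 : ℝ, 1 ≤ X0 ∧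
    ∀ (X L0 : ℝ) (w : ℂ), X0 ≤ X → X ≤ L0 → AlgB d X w → ‖w - y‖ ≤ Real.exp (-(2 * L0)) →
      Rel X L0 P y := by
  obtain ⟨B, hB⟩ : ∃ B : ℝ, B = ‖y‖ + 1 := ⟨_, rfl⟩
  have hy0 := norm_nonneg y
  have hB1 : 1 ≤ B := by linarith
  have hB0 : 0 ≤ B := by linarith
  have hd0 : (0 : ℝ) ≤ d := Nat.cast_nonneg d
  have hE0 : 0 ≤ 2 * d * B ^ d := by positivity
  refine ⟨1 + d + 2 * d * B ^ d, by linarith, ?_⟩
  rintro X L0 w hX hL ⟨F, hF0, hFd, hFX, hFw⟩ hw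
  have hX1 : 1 ≤ X := by linarith
  have hXE : X ≤ Real.exp X := by linarith [Real.add_one_le_exp X]
  obtain ⟨δ, hδ⟩ : ∃ δ : ℝ, δ = Real.exp (-(2 * L0)) := ⟨_, rfl⟩
  have hδ0 : 0 ≤ δ := by
    rw [hδ]
    exact (Real.exp_pos _).le
  have hδ1 : δ ≤ 1 := by
    rw [hδ, Real.exp_le_one_iff]
    linarith
  rw [← hδ] at hw
  have hwB : ‖w‖ ≤ B := by
    have e : w = (w - y) + y := by ring
    have h1 := norm_add_le (w - y) y
    rw [← e] at h1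
    linarith
  have hn : 0 < F.natDegree := by
    rw [Nat.pos_iff_ne_zero]
    intro h0
    rw [Polynomial.eq_C_of_natDegree_eq_zero h0, Polynomial.aeval_C, algebraMap_int_eq, eq_intCast,
      Int.cast_eq_zero] at hFw
    apply hF0
    rw [Polynomial.eq_C_of_natDegree_eq_zero h0, hFw, Polynomial.C_0]
  have hlc : F.coeff F.natDegree ≠ 0 := by
    rw [Polynomial.coeff_natDegree]
    exact Polynomial.leadingCoeff_ne_zero.2 hF0
  have hnd : (F.natDegree : ℝ) ≤ d := by exact_mod_cast hFd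
  refine ⟨F.natDegree, fun i => MvPolynomial.C (F.coeff i), hn, by linarith, fun j _ => ?_,
    fun j hj => ?_, ?_, ?_⟩
  · rw [MvPolynomial.totalDegree_C, Nat.cast_zero]
    linarith
  · rw [H32.T3.nrm_C]
    have := C6_coeff F hj
    linarith
  · rw [MvPolynomial.aeval_C, algebraMap_int_eq, eq_intCast, Complex.norm_intCast]
    have h1 : Real.exp (-X) ≤ 1 := by
      rw [Real.exp_le_one_iff]
      linarith
    have h2 : (1 : ℝ) ≤ |((F.coeff F.natDegree : ℤ) : ℝ)| := by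
      exact_mod_cast Int.one_le_abs hlc
    exact h1.trans h2
  · have h1 : ∑ j ∈ Finset.range (F.natDegree + 1), MvPolynomial.aeval P
        (MvPolynomial.C (F.coeff j)) * y ^ j = Polynomial.aeval y F - Polynomial.aeval w F := by
      rw [hFw, sub_zero, Polynomial.aeval_eq_sum_range]
      refine Finset.sum_congr rfl fun j _ => ?_
      rw [MvPolynomial.aeval_C, algebraMap_int_eq, eq_intCast, zsmul_eq_mul]
    rw [h1]
    have h2 := C6_sub F hFd hB1 (by linarith : ‖y‖ ≤ B) hwB (by rw [norm_sub_rev]; exact hw) hδ0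
    refine h2.trans ?_
    have h3 : nr F * (d * B ^ d * δ) ≤ X * (d * B ^ d * δ) :=
      mul_le_mul_of_nonneg_right hFX (by positivity)
    refine h3.trans ?_
    have h4 : X * (d * B ^ d) ≤ Real.exp X := by
      have h5 := Real.quadratic_le_exp_of_nonneg (by linarith : 0 ≤ X)
      have h6 : X * (2 * d * B ^ d) ≤ X * X := mul_le_mul_of_nonneg_left (by linarith) (by linarith)
      nlinarith
    have h7 : Real.exp L0 * Real.exp (-(2 * L0)) = Real.exp (-L0) := by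
      rw [← Real.exp_add]
      congr 1
      ring
    calc X * (d * B ^ d * δ) = X * (d * B ^ d) * δ := by ring
      _ ≤ Real.exp L0 * δ := mul_le_mul_of_nonneg_right
          (h4.trans (Real.exp_le_exp.2 hL)) hδ0
      _ = Real.exp (-L0) := by rw [hδ, h7]

theorem rel_root (J w : ℂ) : ∃ X0 : ℝ, 1 ≤ X0 ∧ ∀ (X L0 : ℝ) (J' w' : ℂ), X0 ≤ X →
    X ^ 2 ≤ L0 → RootRel X J' w' → ‖J' - J‖ ≤ Real.exp (-(2 * L0)) →
    ‖w' - w‖ ≤ Real.exp (-(2 * L0)) → Rel X L0 ![J] w := by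
  obtain ⟨B, hB⟩ : ∃ B : ℝ, B = ‖J‖ + ‖w‖ + 1 := ⟨_, rfl⟩
  have hJ0 := norm_nonneg J
  have hw0 := norm_nonneg w
  have hB1 : 1 ≤ B := by linarith
  have hB0 : 0 < B := by linarith
  obtain ⟨b, hb⟩ : ∃ b : ℝ, b = Real.log B := ⟨_, rfl⟩
  have hb0 : 0 ≤ b := by
    rw [hb]
    exact Real.log_nonneg hB1
  have hBb : B = Real.exp b := by rw [hb, Real.exp_log hB0]
  refine ⟨3 + 2 * b, by linarith, ?_⟩
  rintro X L0 J' w' hX hL ⟨M, r, c, hM, hMX, hc, hrM, hd, hn, hs⟩ hJ' hw'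
  have hX1 : 1 ≤ X := by linarith
  have hX0 : 0 ≤ X := by linarith
  have hL0 : 0 ≤ L0 := (sq_nonneg X).trans hL
  obtain ⟨δ, hδ⟩ : ∃ δ : ℝ, δ = Real.exp (-(2 * L0)) := ⟨_, rfl⟩
  have hδ0 : 0 ≤ δ := by
    rw [hδ]
    exact (Real.exp_pos _).le
  have hδ1 : δ ≤ 1 := by
    rw [hδ, Real.exp_le_one_iff]
    linarith
  rw [← hδ] at hw' hJ'
  have hwB : ‖w'‖ ≤ B := by
    have e : w' = (w' - w) + w := by ring
    have h1 := norm_add_le (w' - w) w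
    rw [← e] at h1
    linarith
  have hJB : ‖J'‖ ≤ B := by
    have e : J' = (J' - J) + J := by ring
    have h1 := norm_add_le (J' - J) J
    rw [← e] at h1
    linarith
  obtain ⟨N, hN⟩ : ∃ N : ℕ, N = ⌊X⌋₊ := ⟨_, rfl⟩
  have hNX : (N : ℝ) ≤ X := by
    rw [hN]
    exact Nat.floor_le hX0
  have hdN : ∀ i, (r i).natDegree ≤ N := fun i => by
    rw [hN]
    exact Nat.le_floor (hd i)
  have hMN : M ≤ N := by
    rw [hN]
    exact Nat.le_floor hMX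
  refine ⟨M, fun i => A6_mv (0 : Fin 1) (r i), hM, hMX, fun j _ => ?_, fun j _ => ?_, ?_, ?_⟩
  · have h1 : ((A6_mv (0 : Fin 1) (r j)).totalDegree : ℝ) ≤ ((r j).natDegree : ℝ) := by
      exact_mod_cast A6_mv_deg 0 (r j)
    exact h1.trans (hd j)
  · exact (A6_mv_nrm 0 (r j)).trans (hn j)
  · rw [A6_mv_aeval, hrM, Polynomial.aeval_C, algebraMap_int_eq, eq_intCast, Complex.norm_intCast]
    have h1 : Real.exp (-X) ≤ 1 := by
      rw [Real.exp_le_one_iff]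
      linarith
    have h2 : (1 : ℝ) ≤ |(c : ℝ)| := by
      exact_mod_cast Int.one_le_abs hc
    exact h1.trans h2
  · have h1 : ∑ j ∈ Finset.range (M + 1), MvPolynomial.aeval ![J] (A6_mv (0 : Fin 1) (r j)) * w ^ j =
        ∑ j ∈ Finset.range (M + 1), ((Polynomial.aeval J (r j) - Polynomial.aeval J' (r j)) * w ^ j +
          Polynomial.aeval J' (r j) * (w ^ j - w' ^ j)) := by
      rw [← sub_zero (∑ j ∈ Finset.range (M + 1), MvPolynomial.aeval ![J] (A6_mv (0 : Fin 1) (r j)) *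
        w ^ j), ← hs, ← Finset.sum_sub_distrib]
      refine Finset.sum_congr rfl fun j _ => ?_
      rw [A6_mv_aeval]
      change Polynomial.aeval J (r j) * w ^ j - _ = _
      ring
    rw [h1]
    have hBN : 0 ≤ B ^ N := by positivity
    have h2 : ∀ j ∈ Finset.range (M + 1),
        ‖(Polynomial.aeval J (r j) - Polynomial.aeval J' (r j)) * w ^ j +
          Polynomial.aeval J' (r j) * (w ^ j - w' ^ j)‖ ≤
          Real.exp X * (2 * X) * (B ^ N * B ^ N) * δ := by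
      intro j hj
      have hjM : j ≤ M := Nat.lt_succ_iff.1 (Finset.mem_range.1 hj)
      have hjN : j ≤ N := hjM.trans hMN
      have hjX : (j : ℝ) ≤ X := by
        have : (j : ℝ) ≤ N := by exact_mod_cast hjN
        linarith
      have hBj : B ^ j ≤ B ^ N := pow_le_pow_right₀ hB1 hjN
      have hBj0 : 0 ≤ B ^ j := by positivity
      have a1 : ‖Polynomial.aeval J (r j) - Polynomial.aeval J' (r j)‖ ≤
          Real.exp X * (X * B ^ N * δ) := by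
        refine (C6_sub (r j) (hdN j) hB1 (by linarith : ‖J‖ ≤ B) hJB
          (by rw [norm_sub_rev]; exact hJ') hδ0).trans ?_
        refine mul_le_mul (hn j) ?_ (by positivity) (Real.exp_pos _).le
        exact mul_le_mul_of_nonneg_right (mul_le_mul_of_nonneg_right hNX hBN) hδ0
      have a2 : ‖w‖ ^ j ≤ B ^ N := by
        have hwB' : ‖w‖ ≤ B := by linarith
        exact (pow_le_pow_left₀ (norm_nonneg _) hwB' j).trans hBj
      have a3 : ‖Polynomial.aeval J' (r j)‖ ≤ Real.exp X * B ^ N :=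
        (C6_le (r j) (hdN j) hB1 hJB).trans (mul_le_mul_of_nonneg_right (hn j) hBN)
      have a4 : ‖w ^ j - w' ^ j‖ ≤ X * B ^ N * δ := by
        have hww : ‖w - w'‖ ≤ δ := by
          rw [norm_sub_rev]
          exact hw'
        refine (C6_pow hB1 (by linarith : ‖w‖ ≤ B) hwB hww j).trans ?_
        exact mul_le_mul_of_nonneg_right (mul_le_mul hjX hBj hBj0 hX0) hδ0
      refine (norm_add_le _ _).trans ?_
      rw [norm_mul, norm_mul, norm_pow]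
      have b1 := mul_le_mul a1 a2 (by positivity) (by positivity)
      have b2 := mul_le_mul a3 a4 (norm_nonneg _) (by positivity)
      have e : Real.exp X * (2 * X) * (B ^ N * B ^ N) * δ =
          Real.exp X * (X * B ^ N * δ) * B ^ N + Real.exp X * B ^ N * (X * B ^ N * δ) := by ring
      rw [e]
      exact add_le_add b1 b2
    refine (norm_sum_le_of_le _ h2).trans ?_
    rw [Finset.sum_const, Finset.card_range, nsmul_eq_mul]
    have h3 : ((M + 1 : ℕ) : ℝ) ≤ Real.exp X := by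
      push_cast
      linarith [Real.add_one_le_exp X]
    have h4 : 2 * X ≤ Real.exp X := by
      have := Real.quadratic_le_exp_of_nonneg hX0
      nlinarith [sq_nonneg (X - 1)]
    have h5 : B ^ N * B ^ N ≤ Real.exp (2 * b * X) := by
      rw [← pow_add, hBb, ← Real.exp_nat_mul]
      apply Real.exp_le_exp.2
      push_cast
      nlinarith
    have h6 : Real.exp X * (2 * X) * (B ^ N * B ^ N) ≤
        Real.exp X * Real.exp X * Real.exp (2 * b * X) :=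
      mul_le_mul (mul_le_mul_of_nonneg_left h4 (Real.exp_pos _).le) h5 (by positivity)
        (by positivity)
    calc ((M + 1 : ℕ) : ℝ) * (Real.exp X * (2 * X) * (B ^ N * B ^ N) * δ)
        ≤ Real.exp X * (Real.exp X * Real.exp X * Real.exp (2 * b * X) * δ) :=
          mul_le_mul h3 (mul_le_mul_of_nonneg_right h6 hδ0) (by positivity) (Real.exp_pos _).le
      _ = Real.exp ((3 + 2 * b) * X + -(2 * L0)) := by
          rw [hδ, ← Real.exp_add, ← Real.exp_add, ← Real.exp_add, ← Real.exp_add]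
          congr 1
          ring
      _ ≤ Real.exp (-L0) := by
          apply Real.exp_le_exp.2
          have : (3 + 2 * b) * X ≤ X * X := mul_le_mul_of_nonneg_right hX hX0
          nlinarith

end AK

end S_H32_AK_C6

section S_H32_AK_C7

set_option autoImplicit false

open EisensteinSeries ModularForm UpperHalfPlane

namespace AK

open CZ AO H32 H32.T3

private theorem C7_rel0 (J y : ℂ)
    (h : IsAlgebraic (IntermediateField.adjoin ℚ (Set.range ![J])) y) :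
    ∃ X0 : ℝ, 1 ≤ X0 ∧ ∀ X L0 : ℝ, X0 ≤ X → X ≤ L0 → Rel X L0 ![J] y := by
  have e : ∀ w : Fin 0 → ℂ, (Fin.append ![J] w : Fin (1 + 0) → ℂ) = ![J] := by
    intro w
    rw [Fin.append_right_nil _ _ rfl]
    rfl
  obtain ⟨X0, hX0, hrel⟩ := rel_near ![J] (fun i : Fin 0 => i.elim0) y
    (by rw [e]; exact h)
  refine ⟨X0, hX0, fun X L0 hX hL => ?_⟩
  have h1 := hrel X L0 (fun i : Fin 0 => i.elim0) hX hL (fun j => j.elim0)
  rw [e] at h1
  exact h1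

private theorem C7_mono {d : ℕ} {X X' : ℝ} {w : ℂ} (h : AlgB d X w) (hX : X ≤ X') :
    AlgB d X' w := by
  obtain ⟨F, h1, h2, h3, h4⟩ := h
  exact ⟨F, h1, h2, h3.trans hX, h4⟩

theorem no_w (τ : ℍ) (hcm : NCM (τ : ℂ)) (d A : ℕ) : ∃ c : ℕ, ∀ κ : ℕ, ∃ κ' Q0 : ℕ,
    ∀ (q : ℕ) (w : ℂ), Q0 ≤ q → NCM w → AlgB d ((q : ℝ) ^ A) w →
      ‖w - τ‖ ≤ Real.exp (-(q : ℝ) ^ κ') →
      ∀ t V : ℝ, 1 ≤ t → (q : ℝ) ^ c * t ^ 5 ≤ V → V ≤ (q : ℝ) ^ κ → ¬ ApprAt ![jf τ] t V := by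
  obtain ⟨b, lam, h, kap, ep, ε, Xf, X1f, Yf, hsys, hep, hh⟩ := base_nc τ hcm
  obtain ⟨J, hJ⟩ : ∃ J, J = jf τ := ⟨_, rfl⟩
  rw [← hJ] at hep hh
  rw [← hJ]
  obtain ⟨Cw, hCw, hwin⟩ := win_of_near (τ : ℂ) d A
  obtain ⟨Q5, hQ5⟩ := na5 (y := (τ : ℂ)) τ.im_pos hsys Cw hCw
  -- bounds
  obtain ⟨B, hBJ, hBP⟩ : ∃ B : ℝ, (∀ i, ‖(![J] : Fin 1 → ℂ) i‖ + 1 ≤ B) ∧
      ∀ i, ‖MJ.Pt ep h (τ : ℂ) i‖ + 1 ≤ B := by
    have h0 : 0 ≤ ∑ i, ‖(![J] : Fin 1 → ℂ) i‖ := Finset.sum_nonneg fun _ _ => norm_nonneg _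
    have h1 : 0 ≤ ∑ i, ‖MJ.Pt ep h (τ : ℂ) i‖ := Finset.sum_nonneg fun _ _ => norm_nonneg _
    refine ⟨1 + ∑ i, ‖(![J] : Fin 1 → ℂ) i‖ + ∑ i, ‖MJ.Pt ep h (τ : ℂ) i‖, fun i => ?_,
      fun i => ?_⟩
    · have h2 : ‖(![J] : Fin 1 → ℂ) i‖ ≤ ∑ i, ‖(![J] : Fin 1 → ℂ) i‖ :=
        Finset.single_le_sum (f := fun i => ‖(![J] : Fin 1 → ℂ) i‖) (fun _ _ => norm_nonneg _)
          (Finset.mem_univ i)
      linarith
    · have h2 : ‖MJ.Pt ep h (τ : ℂ) i‖ ≤ ∑ i, ‖MJ.Pt ep h (τ : ℂ) i‖ :=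
        Finset.single_le_sum (f := fun i => ‖MJ.Pt ep h (τ : ℂ) i‖) (fun _ _ => norm_nonneg _)
          (Finset.mem_univ i)
      linarith
  obtain ⟨X5, hX5, hext⟩ := ext_many 1 6 B
  -- relations
  obtain ⟨Xa, hXa, hra⟩ := C7_rel0 J ep hep
  obtain ⟨Xb, hXb, hrb⟩ := C7_rel0 J 0 isAlgebraic_zero
  obtain ⟨Xc, hXc, hrc⟩ := C7_rel0 J h hh
  obtain ⟨Xd, hXd, hrd⟩ := rel_alg ![J] (τ : ℂ) d
  refine ⟨138 * (A + 1) + 7, fun κ => ?_⟩
  obtain ⟨Qw, hQw⟩ := hwin (κ + 2)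
  refine ⟨κ + 3, max (max (max 2 Q5) Qw) ⌈X5 + Xa + Xb + Xc + Xd⌉₊, ?_⟩
  intro q w hq hw hAw hwy t V ht hV hVk happ
  have hq2 : 2 ≤ q := (le_max_left 2 Q5).trans ((le_max_left _ Qw).trans ((le_max_left _ _).trans hq))
  have hq5 : Q5 ≤ q := (le_max_right 2 Q5).trans ((le_max_left _ Qw).trans ((le_max_left _ _).trans hq))
  have hqw : Qw ≤ q := (le_max_right _ Qw).trans ((le_max_left _ _).trans hq)
  have hqx : X5 + Xa + Xb + Xc + Xd ≤ (q : ℝ) :=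
    (Nat.le_ceil _).trans (by exact_mod_cast (le_max_right _ _).trans hq)
  have hq2R : (2 : ℝ) ≤ q := by exact_mod_cast hq2
  have hq1R : (1 : ℝ) ≤ q := by linarith
  have hq1s : (1 : ℝ) < q := by linarith
  have hq0R : (0 : ℝ) < q := by linarith
  have hpw : ∀ {a b : ℕ}, a ≤ b → (q : ℝ) ^ a ≤ (q : ℝ) ^ b :=
    fun hab => pow_le_pow_right₀ hq1R hab
  have ht0 : 0 < t := by linarith
  have ht5 : 1 ≤ t ^ 5 := one_le_pow₀ ht
  have htt : t ≤ t ^ 5 := le_self_pow₀ ht (by norm_num)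
  -- `c ≤ κ`
  have hcκ : 138 * (A + 1) + 7 ≤ κ := by
    have h1 : (q : ℝ) ^ (138 * (A + 1) + 7) ≤ (q : ℝ) ^ κ := by
      calc (q : ℝ) ^ (138 * (A + 1) + 7) = (q : ℝ) ^ (138 * (A + 1) + 7) * 1 := (mul_one _).symm
        _ ≤ (q : ℝ) ^ (138 * (A + 1) + 7) * t ^ 5 := mul_le_mul_of_nonneg_left ht5 (by positivity)
        _ ≤ V := hV
        _ ≤ _ := hVk
    exact (pow_le_pow_iff_right₀ hq1s).1 h1
  obtain ⟨X, hX⟩ : ∃ X : ℝ, X = (q : ℝ) ^ (A + 1) := ⟨_, rfl⟩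
  obtain ⟨L0, hL0⟩ : ∃ L0 : ℝ, L0 = (q : ℝ) ^ (κ + 1) := ⟨_, rfl⟩
  have hqX : (q : ℝ) ≤ X := by
    rw [hX]
    calc (q : ℝ) = (q : ℝ) ^ 1 := (pow_one _).symm
      _ ≤ (q : ℝ) ^ (A + 1) := hpw (by omega)
  have hX1 : 1 ≤ X := hq1R.trans hqX
  have hX0 : 0 < X := by linarith
  have hXL : X ≤ L0 := by
    rw [hX, hL0]
    exact hpw (by omega)
  have hL0p : 0 ≤ L0 := by linarith
  have hVL : V ≤ L0 := hVk.trans (by rw [hL0]; exact hpw (by omega))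
  have hXp : ∀ n : ℕ, X ^ n = (q : ℝ) ^ ((A + 1) * n) := fun n => by rw [hX, pow_mul]
  -- closeness
  have hclose : ‖w - (τ : ℂ)‖ ≤ Real.exp (-(2 * L0)) := by
    refine hwy.trans (Real.exp_le_exp.2 (neg_le_neg ?_))
    rw [hL0]
    calc 2 * (q : ℝ) ^ (κ + 1) ≤ q * (q : ℝ) ^ (κ + 1) :=
          mul_le_mul_of_nonneg_right hq2R (by positivity)
      _ = (q : ℝ) ^ (κ + 2) := by ring
      _ ≤ (q : ℝ) ^ (κ + 3) := hpw (by omega)
  have hAX : AlgB d X w := C7_mono hAw (by rw [hX]; exact hpw (by omega))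
  have ra := hra X L0 (by linarith) hXL
  have rb := hrb X L0 (by linarith) hXL
  have rc := hrc X L0 (by linarith) hXL
  have rd := hrd X L0 w (by linarith) hXL hAX hclose
  have hrel : ∀ j, Rel X L0 ![J] (MJ.Pt ep h (τ : ℂ) j) := by
    intro j
    fin_cases j
    · exact ra
    · exact rb
    · exact ra
    · exact rb
    · exact rc
    · exact rd
  -- the approximations
  have hc0 := ApprC.of_at hL0p happ
  rw [min_eq_left hVL] at hc0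
  have hV42 : X ^ (7 * 6) * t ≤ V := by
    refine le_trans ?_ hV
    rw [hXp]
    exact mul_le_mul (hpw (by omega)) htt ht0.le (by positivity)
  have hc1 := hext X (by linarith) ![J] (MJ.Pt ep h (τ : ℂ)) L0 t V hBJ hBP hrel ht hV42 hc0
  have hc2 := hc1.reindex (Fin.natAdd 1)
  have e2 : (fun i : Fin 6 => (Fin.append ![J] (MJ.Pt ep h (τ : ℂ)) : Fin (1 + 6) → ℂ)
      (Fin.natAdd 1 i)) = MJ.Pt ep h (τ : ℂ) := by
    funext i
    exact Fin.append_right _ _ i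
  rw [e2] at hc2
  have hc3 := hc2.at
  -- numbers
  have hXpos : ∀ n : ℕ, 0 < X ^ n := fun n => pow_pos hX0 n
  refine hQ5 q ((q : ℝ) ^ (κ + 2)) hq5 (hQw q w hqw hw hAw hwy) (X ^ (4 * 6) * t)
    (V / X ^ (3 * 6)) ?_ ?_ ?_ ?_ hc3
  · exact one_le_mul_of_one_le_of_one_le (one_le_pow₀ hX1) ht
  · rw [le_div_iff₀ (hXpos _), hXp, ← pow_add]
    calc (q : ℝ) ^ (6 + (A + 1) * (3 * 6)) ≤ (q : ℝ) ^ (138 * (A + 1) + 7) := hpw (by omega)
      _ = (q : ℝ) ^ (138 * (A + 1) + 7) * 1 := (mul_one _).symm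
      _ ≤ (q : ℝ) ^ (138 * (A + 1) + 7) * t ^ 5 := mul_le_mul_of_nonneg_left ht5 (by positivity)
      _ ≤ V := hV
  · have hV0 : 0 ≤ V := le_trans (by positivity) hV
    calc V / X ^ (3 * 6) ≤ V := div_le_self hV0 (one_le_pow₀ hX1)
      _ ≤ (q : ℝ) ^ κ := hVk
      _ ≤ (q : ℝ) ^ (κ + 2) := hpw (by omega)
  · rw [le_div_iff₀ (hXpos _)]
    calc (X ^ (4 * 6) * t) ^ 5 * X ^ (3 * 6) = X ^ 138 * t ^ 5 := by ring
      _ ≤ (q : ℝ) ^ (138 * (A + 1) + 7) * t ^ 5 := by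
          apply mul_le_mul_of_nonneg_right _ (by positivity)
          rw [hXp]
          exact hpw (by omega)
      _ ≤ V := hV

end AK

end S_H32_AK_C7

section S_H32_AK_C7b

set_option autoImplicit false

open EisensteinSeries ModularForm UpperHalfPlane

namespace AK

open CZ AO H32 H32.T3

theorem C7b_alg (J : ℂ) (hJ : IsAlgebraic ℚ J) : ∃ t0 : ℝ, 1 ≤ t0 ∧ ∀ V : ℝ, ApprAt ![J] t0 V := by
  have hfd : FiniteDimensional ℚ (IntermediateField.adjoin ℚ {J}) :=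
    IntermediateField.adjoin.finiteDimensional hJ.isIntegral
  have : NumberField (IntermediateField.adjoin ℚ {J}) :=
    { to_charZero := inferInstance, to_finiteDimensional := hfd }
  have hmem : J ∈ IntermediateField.adjoin ℚ {J} :=
    IntermediateField.subset_adjoin ℚ _ (Set.mem_singleton _)
  set x : IntermediateField.adjoin ℚ {J} := ⟨J, hmem⟩ with hx
  set t : ℝ := max 1 (max (Module.finrank ℚ (IntermediateField.adjoin ℚ {J})) (hE x)) with ht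
  refine ⟨t, le_max_left _ _, fun V => ?_⟩
  refine ⟨IntermediateField.adjoin ℚ {J}, inferInstance,
    inferInstance, ![x], {(IntermediateField.adjoin ℚ {J}).val.toRingHom},
    fun _ => max V 0, (le_max_left _ _).trans (le_max_right _ _), ?_, ?_, ?_⟩
  · intro i
    fin_cases i
    exact (le_max_right _ _).trans (le_max_right _ _)
  · intro φ hφ
    rw [Finset.mem_singleton] at hφ
    refine ⟨le_max_right _ _, fun i => ?_⟩
    fin_cases i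
    subst hφ
    have h1 : (IntermediateField.adjoin ℚ {J}).val.toRingHom x = J := rfl
    show ‖(IntermediateField.adjoin ℚ {J}).val.toRingHom x - J‖ ≤ _
    rw [h1, sub_self, norm_zero]
    exact (Real.exp_pos _).le
  · rw [Finset.sum_singleton]
    exact le_max_left _ _

theorem C7b_mono {J : ℂ} {t V W : ℝ} (h : ApprAt ![J] t W) (hV : V ≤ W) : ApprAt ![J] t V := by
  obtain ⟨E, i1, i2, x, S, d, h1, h2, h3, h4⟩ := h
  exact ⟨E, i1, i2, x, S, d, h1, h2, h3, hV.trans h4⟩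

theorem C7b_main {J : ℂ} (hJ : Transcendental ℚ J) {c κ q : ℕ} (hq : 6 ≤ q)
    (hno : ∀ t V : ℝ, 1 ≤ t → (q : ℝ) ^ c * t ^ 5 ≤ V → V ≤ (q : ℝ) ^ (c + 6 + 5 * (κ + 1)) →
      ¬ ApprAt ![J] t V) (f : Polynomial ℤ) (Λ : ℕ) (hf : f ≠ 0) (hqΛ : q ≤ Λ)
    (hΛκ : (Λ : ℝ) ≤ (q : ℝ) ^ κ) (hdeg : f.natDegree ≤ Λ) (hnr : CZ.nr f ≤ Real.exp Λ) :
    Real.exp (-(Λ : ℝ) ^ (c + 7)) ≤ ‖Polynomial.aeval J f‖ := by
  have hae : Polynomial.aeval J f ≠ 0 := by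
    intro h
    exact hJ ((IsFractionRing.isAlgebraic_iff ℤ ℚ ℂ).1 ⟨f, hf, h⟩)
  by_contra hcon
  have hcon' := not_le.1 hcon
  have hq6 : (6 : ℝ) ≤ q := by exact_mod_cast hq
  have hq0 : (0 : ℝ) < q := by linarith
  have hq1 : (1 : ℝ) ≤ q := by linarith
  have hqΛr : (q : ℝ) ≤ Λ := by exact_mod_cast hqΛ
  have hΛ6 : (6 : ℝ) ≤ Λ := hq6.trans hqΛr
  have hΛ0 : (0 : ℝ) < Λ := by linarith
  obtain ⟨r, hr, hn, -, hsz, hV⟩ := good_factor f hf J ((Λ : ℝ) ^ (c + 7)) (by positivity) hae hcon'.le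
  obtain ⟨W, hA, hW⟩ := AZ.line_local J hJ r hr hn
  obtain ⟨s, hs⟩ : ∃ s : ℝ, s = r.natDegree + Real.log (mah r) := ⟨_, rfl⟩
  rw [← hs] at hA hsz hV
  have hmah : 1 ≤ mah r := one_le_mah hr.ne_zero
  have hlog0 : 0 ≤ Real.log (mah r) := Real.log_nonneg hmah
  have hn1 : (1 : ℝ) ≤ r.natDegree := by exact_mod_cast hn
  have hs1 : 1 ≤ s := by linarith
  have hs0 : 0 < s := by linarith
  have hfs : (f.natDegree : ℝ) + Real.log (mah f) ≤ 2 * Λ := by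
    have h1 : (f.natDegree : ℝ) ≤ Λ := by exact_mod_cast hdeg
    have h2 : Real.log (mah f) ≤ Λ := by
      have h3 : 1 ≤ mah f := one_le_mah hf
      rw [Real.log_le_iff_le_exp (by linarith)]
      exact (mah_le_nr f).trans hnr
    linarith
  have hs2 : s ≤ 2 * Λ := hsz.trans hfs
  have hW0 : (Λ : ℝ) ^ (c + 6) * s ≤ 2 * W := by
    have h2 : 0 < -Real.log ‖Polynomial.aeval J r‖ := by
      by_contra hcon
      have h3 : -Real.log ‖Polynomial.aeval J r‖ ≤ 0 := not_lt.1 hcon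
      have h4 : 0 ≤ (f.natDegree : ℝ) + Real.log (mah f) := by linarith
      have h5 := mul_nonpos_of_nonneg_of_nonpos h4 h3
      have h0 : 0 < (Λ : ℝ) ^ (c + 7) * s := by positivity
      linarith
    have h3 : (Λ : ℝ) ^ (c + 7) * s ≤ 2 * Λ * W := by
      refine (hV.trans (mul_le_mul_of_nonneg_right hfs h2.le)).trans ?_
      exact mul_le_mul_of_nonneg_left hW (by positivity)
    have h5 : (Λ : ℝ) * ((Λ : ℝ) ^ (c + 6) * s) ≤ Λ * (2 * W) := by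
      calc (Λ : ℝ) * ((Λ : ℝ) ^ (c + 6) * s) = (Λ : ℝ) ^ (c + 7) * s := by ring
        _ ≤ 2 * Λ * W := h3
        _ = Λ * (2 * W) := by ring
    exact le_of_mul_le_mul_left h5 hΛ0
  have hqc : (q : ℝ) ^ c ≤ (Λ : ℝ) ^ c := pow_le_pow_left₀ hq0.le hqΛr c
  have hVW : (q : ℝ) ^ c * s ^ 5 ≤ W := by
    have h1 : s ^ 4 ≤ (2 * Λ) ^ 4 := pow_le_pow_left₀ hs0.le hs2 4
    have h2 : (q : ℝ) ^ c * s ^ 5 ≤ (Λ : ℝ) ^ c * ((2 * Λ) ^ 4 * s) := by
      have e : s ^ 5 = s ^ 4 * s := by ring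
      rw [e]
      exact mul_le_mul hqc (mul_le_mul_of_nonneg_right h1 hs0.le) (by positivity) (by positivity)
    have h3 : (Λ : ℝ) ^ c * ((2 * Λ) ^ 4 * s) = 16 * ((Λ : ℝ) ^ (c + 4) * s) := by ring
    have h4 : (36 : ℝ) ≤ (Λ : ℝ) ^ 2 := by nlinarith
    have h5 : 36 * ((Λ : ℝ) ^ (c + 4) * s) ≤ (Λ : ℝ) ^ 2 * ((Λ : ℝ) ^ (c + 4) * s) :=
      mul_le_mul_of_nonneg_right h4 (by positivity)
    have h6 : (Λ : ℝ) ^ 2 * ((Λ : ℝ) ^ (c + 4) * s) = (Λ : ℝ) ^ (c + 6) * s := by ring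
    have h7 : 0 ≤ (Λ : ℝ) ^ (c + 4) * s := by positivity
    linarith
  refine hno s ((q : ℝ) ^ c * s ^ 5) hs1 (le_refl _) ?_ (C7b_mono hA hVW)
  have h1 : s ^ 5 ≤ (2 * (q : ℝ) ^ κ) ^ 5 := by
    refine pow_le_pow_left₀ hs0.le (hs2.trans ?_) 5
    linarith
  have h2 : (32 : ℝ) ≤ (q : ℝ) ^ 2 := by nlinarith
  calc (q : ℝ) ^ c * s ^ 5 ≤ (q : ℝ) ^ c * (2 * (q : ℝ) ^ κ) ^ 5 :=
        mul_le_mul_of_nonneg_left h1 (by positivity)
    _ = 32 * ((q : ℝ) ^ (c + 5 * κ)) := by ring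
    _ ≤ (q : ℝ) ^ 2 * ((q : ℝ) ^ (c + 5 * κ)) := mul_le_mul_of_nonneg_right h2 (by positivity)
    _ = (q : ℝ) ^ (c + 5 * κ + 2) := by ring
    _ ≤ (q : ℝ) ^ (c + 6 + 5 * (κ + 1)) := pow_le_pow_right₀ hq1 (by omega)

theorem meas_w (τ : ℍ) (hcm : NCM (τ : ℂ)) (d A : ℕ) : ∃ κ1 : ℕ, ∀ κ : ℕ, ∃ κ' Q0 : ℕ,
    ∀ (q : ℕ) (w : ℂ), Q0 ≤ q → NCM w → AlgB d ((q : ℝ) ^ A) w →
      ‖w - τ‖ ≤ Real.exp (-(q : ℝ) ^ κ') →
      ∀ (f : Polynomial ℤ) (Λ : ℕ), f ≠ 0 → q ≤ Λ → (Λ : ℝ) ≤ (q : ℝ) ^ κ → f.natDegree ≤ Λ →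
        CZ.nr f ≤ Real.exp Λ → Real.exp (-(Λ : ℝ) ^ κ1) ≤ ‖Polynomial.aeval (jf τ) f‖ := by
  obtain ⟨c, hc⟩ := no_w τ hcm d A
  refine ⟨c + 7, fun κ => ?_⟩
  obtain ⟨κ', Q0, h0⟩ := hc (c + 6 + 5 * (κ + 1))
  by_cases hJ : IsAlgebraic ℚ (jf τ)
  · obtain ⟨t0, ht0, hA⟩ := C7b_alg (jf τ) hJ
    refine ⟨κ', max Q0 (max 1 ⌈t0 ^ 5⌉₊), ?_⟩
    intro q w hq hw hB hclose f Λ hf hqΛ hΛκ hdeg hnr
    exfalso
    have hq1 : (1 : ℝ) ≤ q := by
      exact_mod_cast ((le_max_left _ _).trans (le_max_right _ _)).trans hq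
    have hqt : t0 ^ 5 ≤ q := by
      refine (Nat.le_ceil _).trans ?_
      exact_mod_cast ((le_max_right _ _).trans (le_max_right _ _)).trans hq
    refine h0 q w ((le_max_left _ _).trans hq) hw hB hclose t0 ((q : ℝ) ^ c * t0 ^ 5) ht0 (le_refl _) ?_ (hA _)
    calc (q : ℝ) ^ c * t0 ^ 5 ≤ (q : ℝ) ^ c * q := mul_le_mul_of_nonneg_left hqt (by positivity)
      _ = (q : ℝ) ^ (c + 1) := by ring
      _ ≤ (q : ℝ) ^ (c + 6 + 5 * (κ + 1)) := pow_le_pow_right₀ hq1 (by omega)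
  · refine ⟨κ', max Q0 6, ?_⟩
    intro q w hq hw hB hclose f Λ hf hqΛ hΛκ hdeg hnr
    exact C7b_main (J := jf τ) hJ ((le_max_right _ _).trans hq)
      (h0 q w ((le_max_left _ _).trans hq) hw hB hclose) f Λ hf hqΛ hΛκ hdeg hnr

end AK

end S_H32_AK_C7b

section S_H32_AK_C8

set_option autoImplicit false

namespace AK

open CZ Polynomial AO
open H32.T3 (nrm)

private theorem C8_nrC (z : ℤ) : nr (C z) = |(z : ℝ)| := by
  unfold nr
  rw [Polynomial.sum_C_index (by simp)]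

private theorem C8_Y {n r Dg : ℕ} {g : ℝ} (h7 : 7 ≤ n) (hD : Dg ≤ n) (hr : r ≤ n) (hg0 : 0 ≤ g)
    (hg : g ≤ n) :
    (n : ℝ) ^ r * (max 1 (g * ((n : ℝ) * (Real.exp n * (1 + Real.exp n) ^ n) * (1 + Real.exp n) ^ r) ^ Dg) + 1) ≤
      Real.exp ((n : ℝ) ^ (r + 4)) := by
  have h7' : (7 : ℝ) ≤ n := by exact_mod_cast h7
  have hD' : (Dg : ℝ) ≤ n := by exact_mod_cast hD
  have hr' : (r : ℝ) ≤ n := by exact_mod_cast hr
  set x : ℝ := (n : ℝ) with hx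
  have hx0 : 0 < x := by linarith
  have e1 : 1 + Real.exp x ≤ Real.exp (x + 1) := by
    rw [Real.exp_add]
    have h1 : 1 ≤ Real.exp x := Real.one_le_exp hx0.le
    have h2 : (2 : ℝ) ≤ Real.exp 1 := by
      have := Real.add_one_le_exp (1 : ℝ)
      linarith
    nlinarith
  have e0 : 0 ≤ 1 + Real.exp x := by positivity
  have e2 : x ≤ Real.exp x := by
    have := Real.add_one_le_exp x
    linarith
  have e3 : (1 + Real.exp x) ^ n ≤ Real.exp ((n : ℝ) * (x + 1)) := by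
    rw [Real.exp_nat_mul]
    exact pow_le_pow_left₀ e0 e1 n
  have e4 : (1 + Real.exp x) ^ r ≤ Real.exp ((r : ℝ) * (x + 1)) := by
    rw [Real.exp_nat_mul]
    exact pow_le_pow_left₀ e0 e1 r
  have e5 : x * (Real.exp x * (1 + Real.exp x) ^ n) * (1 + Real.exp x) ^ r ≤
      Real.exp (2 * x + x * (x + 1) + r * (x + 1)) := by
    have h1 : x * (Real.exp x * (1 + Real.exp x) ^ n) * (1 + Real.exp x) ^ r ≤
        Real.exp x * (Real.exp x * Real.exp ((n : ℝ) * (x + 1))) * Real.exp ((r : ℝ) * (x + 1)) := by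
      gcongr
    refine h1.trans (le_of_eq ?_)
    rw [← Real.exp_add, ← Real.exp_add, ← Real.exp_add]
    congr 1
    rw [← hx]
    ring
  have e6 : 0 ≤ x * (Real.exp x * (1 + Real.exp x) ^ n) * (1 + Real.exp x) ^ r := by positivity
  have e7 : (x * (Real.exp x * (1 + Real.exp x) ^ n) * (1 + Real.exp x) ^ r) ^ Dg ≤
      Real.exp ((Dg : ℝ) * (2 * x + x * (x + 1) + r * (x + 1))) := by
    rw [Real.exp_nat_mul]
    exact pow_le_pow_left₀ e6 e5 Dg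
  set E : ℝ := x + (Dg : ℝ) * (2 * x + x * (x + 1) + r * (x + 1)) with hE
  have hE0 : 0 ≤ E := by positivity
  have e8 : max 1 (g * (x * (Real.exp x * (1 + Real.exp x) ^ n) * (1 + Real.exp x) ^ r) ^ Dg) ≤ Real.exp E := by
    refine max_le (Real.one_le_exp hE0) ?_
    rw [hE, Real.exp_add]
    exact mul_le_mul (hg.trans e2) e7 (pow_nonneg e6 _) (Real.exp_pos _).le
  have e9 : max 1 (g * (x * (Real.exp x * (1 + Real.exp x) ^ n) * (1 + Real.exp x) ^ r) ^ Dg) + 1 ≤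
      Real.exp (E + 1) := by
    rw [Real.exp_add]
    have h1 : 1 ≤ Real.exp E := Real.one_le_exp hE0
    have h2 : (2 : ℝ) ≤ Real.exp 1 := by
      have := Real.add_one_le_exp (1 : ℝ)
      linarith
    nlinarith
  have e10 : x ^ r ≤ Real.exp (x ^ r) := by
    have := Real.add_one_le_exp (x ^ r)
    linarith
  have e11 : x ^ r * (max 1 (g * (x * (Real.exp x * (1 + Real.exp x) ^ n) * (1 + Real.exp x) ^ r) ^ Dg) + 1) ≤
      Real.exp (x ^ r + (E + 1)) := by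
    rw [Real.exp_add]
    exact mul_le_mul e10 e9 (by positivity) (Real.exp_pos _).le
  refine e11.trans (Real.exp_le_exp.2 ?_)
  have f1 : (1 : ℝ) ≤ x ^ r := one_le_pow₀ (by linarith)
  have f2 : (Dg : ℝ) * (2 * x + x * (x + 1) + r * (x + 1)) ≤ x * (2 * x + x * (x + 1) + x * (x + 1)) := by
    gcongr
  have f3 : x ^ r + (E + 1) ≤ x ^ r * (1 + x + x * (2 * x + x * (x + 1) + x * (x + 1)) + 1) := by
    have f4 : E + 1 ≤ 1 * (x + x * (2 * x + x * (x + 1) + x * (x + 1)) + 1) := by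
      rw [hE]
      linarith
    have f5 : 1 * (x + x * (2 * x + x * (x + 1) + x * (x + 1)) + 1) ≤
        x ^ r * (x + x * (2 * x + x * (x + 1) + x * (x + 1)) + 1) :=
      mul_le_mul_of_nonneg_right f1 (by positivity)
    linarith
  refine f3.trans ?_
  rw [pow_add]
  refine mul_le_mul_of_nonneg_left ?_ (by positivity)
  have g1 : x * x * x * 7 ≤ x * x * x * x := mul_le_mul_of_nonneg_left h7' (by positivity)
  have g2 : 7 * (x * x) ≤ x * (x * x) := mul_le_mul_of_nonneg_right h7' (by positivity)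
  have g3 : 7 * x ≤ x * x := mul_le_mul_of_nonneg_right h7' hx0.le
  have e : x ^ 4 = x * x * x * x := by ring
  rw [e]
  nlinarith

theorem NL_w {r : ℕ} (G : MvPolynomial (Fin r ⊕ Unit) ℤ) (B : ℝ) (κ : ℕ) :
    ∃ A X0 : ℕ, ∀ (X : ℕ) (J : ℂ) (w : Fin r → ℂ), X0 ≤ X → ‖J‖ ≤ B →
      (∀ j, RootRel (X : ℝ) J (w j)) →
      (∀ f : ℤ[X], f ≠ 0 → f.natDegree ≤ X ^ (2 * r + 4) → nr f ≤ Real.exp ((X ^ (2 * r + 4) : ℕ) : ℝ) →
        Real.exp (-((X ^ (2 * r + 4) : ℕ) : ℝ) ^ κ) ≤ ‖aeval J f‖) →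
      MvPolynomial.aeval (Sum.elim w fun _ ↦ J) G = 0 ∨
        Real.exp (-(X : ℝ) ^ A) ≤ ‖MvPolynomial.aeval (Sum.elim w fun _ ↦ J) G‖ := by
  set Dg := G.totalDegree with hDg
  set L : ℝ := Real.log (max 1 B) with hL
  have hL0 : 0 ≤ L := Real.log_nonneg (le_max_left _ _)
  have hLe : max 1 B = Real.exp L := (Real.exp_log (lt_of_lt_of_le one_pos (le_max_left _ _))).symm
  refine ⟨(2 * r + 4) * (κ + 1) + 2, 7 + Dg + r + ⌈nrm G⌉₊ + ⌈2 + L + r * Dg⌉₊, ?_⟩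
  intro X J w hX hJB hw hmeas
  by_cases hval : MvPolynomial.aeval (Sum.elim w fun _ ↦ J) G = 0
  · exact Or.inl hval
  right
  have hX7 : 7 ≤ X := by omega
  have hXD : Dg ≤ X := by omega
  have hXr : r ≤ X := by omega
  have hXg : nrm G ≤ X := (Nat.le_ceil _).trans (by exact_mod_cast (by omega : ⌈nrm G⌉₊ ≤ X))
  have hXL : 2 + L + r * Dg ≤ (X : ℝ) := (Nat.le_ceil _).trans (by
    exact_mod_cast (by omega : ⌈2 + L + r * Dg⌉₊ ≤ X))
  have hx1 : (1 : ℝ) ≤ X := by exact_mod_cast (by omega : 1 ≤ X)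
  have hx0 : (0 : ℝ) < X := by linarith
  choose R c hc0 hR hRd hRn hRs using fun j => norm_rel (hw j)
  have hcB : ∀ j, |(c j : ℝ)| ≤ Real.exp X := by
    intro j
    have h1 := hRn j X
    rwa [hR j, C8_nrC] at h1
  obtain ⟨A, v, hv, he, hAd, hAn⟩ := kron (by omega : 0 < X) J w R c hR hRs X (Real.exp X)
    (Real.one_le_exp hx0.le) hRd hRn hcB G
  set val := MvPolynomial.aeval (Sum.elim w fun _ ↦ J) G with hvald
  set Pc : ℂ := (∏ j, (c j : ℂ)) ^ Dg with hPc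
  have hPn1 : 1 ≤ ‖Pc‖ := by
    rw [hPc, norm_pow]
    refine one_le_pow₀ ?_
    have h1 : (∏ j, (c j : ℂ)) = ((∏ j, c j : ℤ) : ℂ) := by push_cast; rfl
    rw [h1, Complex.norm_intCast]
    have h2 : (∏ j, c j) ≠ 0 := Finset.prod_ne_zero_iff.2 fun j _ => hc0 j
    exact_mod_cast Int.one_le_abs h2
  have hPn2 : ‖Pc‖ ≤ Real.exp (r * Dg * X) := by
    have h1 : ‖∏ j, (c j : ℂ)‖ ≤ Real.exp X ^ r := by
      rw [norm_prod]
      have h2 : ∀ j ∈ (Finset.univ : Finset (Fin r)), ‖(c j : ℂ)‖ ≤ Real.exp X := by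
        intro j _
        rw [Complex.norm_intCast]
        exact hcB j
      refine (Finset.prod_le_prod (fun j _ => norm_nonneg _) h2).trans (le_of_eq ?_)
      rw [Finset.prod_const, Finset.card_univ, Fintype.card_fin]
    rw [hPc, norm_pow]
    refine (pow_le_pow_left₀ (norm_nonneg _) h1 Dg).trans (le_of_eq ?_)
    rw [← pow_mul, ← Real.exp_nat_mul]
    congr 1
    push_cast
    rfl
  have hlamne : Pc * val ≠ 0 := by
    refine mul_ne_zero ?_ hval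
    intro h
    rw [h, norm_zero] at hPn1
    linarith
  -- the lower bound of the value in terms of the eigenvalue
  have hvl : ‖Pc * val‖ * Real.exp (-(r * Dg * X)) ≤ ‖val‖ := by
    rw [norm_mul, Real.exp_neg]
    have h1 : ‖Pc‖ * (Real.exp (r * Dg * X))⁻¹ ≤ 1 := by
      rw [← div_eq_mul_inv, div_le_one (Real.exp_pos _)]
      exact hPn2
    calc ‖Pc‖ * ‖val‖ * (Real.exp (r * Dg * X))⁻¹ = (‖Pc‖ * (Real.exp (r * Dg * X))⁻¹) * ‖val‖ := by ring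
      _ ≤ 1 * ‖val‖ := mul_le_mul_of_nonneg_right h1 (norm_nonneg _)
      _ = ‖val‖ := one_mul _
  set P : ℝ := (X : ℝ) ^ ((2 * r + 4) * (κ + 1)) with hPd
  have hP1 : (1 : ℝ) ≤ P := one_le_pow₀ hx1
  have hXP : (X : ℝ) ≤ P := by
    rw [hPd]
    exact le_self_pow₀ hx1 (by positivity)
  have hA : (X : ℝ) ^ ((2 * r + 4) * (κ + 1) + 2) = P * (X * X) := by
    rw [pow_add, hPd]
    ring
  have hrD : 0 ≤ (r : ℝ) * Dg := by positivity
  have hxx : (X : ℝ) ≤ X * X := by nlinarith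
  by_cases hl : ‖Pc * val‖ ≤ 1
  · -- small eigenvalue
    set Rb : ℝ := max 1 (nrm G * ((X : ℝ) * (Real.exp X * (1 + Real.exp X) ^ X) * (1 + Real.exp X) ^ r) ^ Dg) with hRb
    have hRb1 : 1 ≤ Rb := le_max_left _ _
    obtain ⟨f, f0, fd, fn, fJ⟩ := eigen_lower A (Dg * (X + 1)) Rb hRb1 hAd
      (fun a b => (hAn a b).trans (le_max_right _ _)) J (Pc * val) v hv hlamne hl he
    have hcard : Fintype.card (Fin r → Fin X) = X ^ r := by simp
    rw [hcard] at fd fn fJ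
    set Λ : ℕ := X ^ (2 * r + 4) with hΛ
    have hYb := C8_Y (g := nrm G) hX7 hXD hXr (by
      unfold nrm
      exact Finset.sum_nonneg fun _ _ => abs_nonneg _) hXg
    have hbig : ((X ^ r).factorial : ℝ) * (Rb + 1) ^ (X ^ r) ≤ Real.exp Λ := by
      have h1 : ((X ^ r).factorial : ℝ) ≤ ((X : ℝ) ^ r) ^ (X ^ r) := by
        have := Nat.factorial_le_pow (X ^ r)
        have h2 : (((X ^ r).factorial : ℕ) : ℝ) ≤ (((X ^ r) ^ (X ^ r) : ℕ) : ℝ) := by exact_mod_cast this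
        refine h2.trans (le_of_eq ?_)
        push_cast
        rfl
      have h2 : ((X ^ r).factorial : ℝ) * (Rb + 1) ^ (X ^ r) ≤ ((X : ℝ) ^ r * (Rb + 1)) ^ (X ^ r) := by
        rw [mul_pow]
        exact mul_le_mul_of_nonneg_right h1 (by positivity)
      refine h2.trans ?_
      have h3 : ((X : ℝ) ^ r * (Rb + 1)) ^ (X ^ r) ≤ Real.exp ((X : ℝ) ^ (r + 4)) ^ (X ^ r) :=
        pow_le_pow_left₀ (by positivity) hYb _
      refine h3.trans (le_of_eq ?_)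
      rw [← Real.exp_nat_mul]
      congr 1
      rw [hΛ]
      push_cast
      rw [← pow_add]
      congr 1
      ring
    have hdeg : X ^ r * (Dg * (X + 1)) ≤ Λ := by
      have h1 : Dg * (X + 1) ≤ X ^ 4 := by
        have h2 : Dg * (X + 1) ≤ X * (X + 1) := Nat.mul_le_mul_right _ hXD
        have h3 : X + 1 ≤ X * X := by nlinarith
        calc Dg * (X + 1) ≤ X * (X + 1) := h2
          _ ≤ X * (X * X) := Nat.mul_le_mul_left _ h3
          _ ≤ X * (X * X) * X := Nat.le_mul_of_pos_right _ (by omega)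
          _ = X ^ 4 := by ring
      calc X ^ r * (Dg * (X + 1)) ≤ X ^ r * X ^ 4 := Nat.mul_le_mul_left _ h1
        _ = X ^ (r + 4) := by rw [pow_add]
        _ ≤ Λ := Nat.pow_le_pow_right (by omega) (by omega)
    have hm := hmeas f f0 (fd.trans hdeg) (fn.trans hbig)
    have hJp : (max 1 ‖J‖) ^ (X ^ r * (Dg * (X + 1))) ≤ Real.exp (Λ * L) := by
      refine (pow_le_pow_right₀ (le_max_left _ _) hdeg).trans ?_
      refine (pow_le_pow_left₀ (by positivity) (max_le_max le_rfl hJB) _).trans (le_of_eq ?_)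
      rw [hLe, ← Real.exp_nat_mul]
    have hlow : Real.exp (-(Λ : ℝ) ^ κ) ≤ ‖Pc * val‖ * Real.exp (Λ + Λ * L) := by
      refine (hm.trans fJ).trans ?_
      rw [Real.exp_add]
      refine mul_le_mul_of_nonneg_left ?_ (norm_nonneg _)
      exact mul_le_mul hbig hJp (by positivity) (Real.exp_pos _).le
    have hlow2 : Real.exp (-(Λ : ℝ) ^ κ - (Λ + Λ * L)) ≤ ‖Pc * val‖ := by
      rw [Real.exp_sub, div_le_iff₀ (Real.exp_pos _)]
      exact hlow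
    refine le_trans ?_ hvl
    have h1 : Real.exp (-(Λ : ℝ) ^ κ - (Λ + Λ * L)) * Real.exp (-(r * Dg * X)) ≤
        ‖Pc * val‖ * Real.exp (-(r * Dg * X)) := mul_le_mul_of_nonneg_right hlow2 (Real.exp_pos _).le
    refine le_trans ?_ h1
    rw [← Real.exp_add]
    refine Real.exp_le_exp.2 ?_
    rw [hA]
    have hΛr : (Λ : ℝ) = (X : ℝ) ^ (2 * r + 4) := by
      rw [hΛ]
      push_cast
      rfl
    have k1 : (Λ : ℝ) ^ κ ≤ P := by
      rw [hΛr, ← pow_mul, hPd]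
      exact pow_le_pow_right₀ hx1 (Nat.mul_le_mul_left _ (by omega))
    have k2 : (Λ : ℝ) ≤ P := by
      rw [hΛr, hPd]
      exact pow_le_pow_right₀ hx1 (Nat.le_mul_of_pos_right _ (by omega))
    have k3 : (Λ : ℝ) * L ≤ P * L := mul_le_mul_of_nonneg_right k2 hL0
    have k4 : (r : ℝ) * Dg * X ≤ (r : ℝ) * Dg * P := mul_le_mul_of_nonneg_left hXP hrD
    have k5 : P * (2 + L + r * Dg) ≤ P * (X * X) :=
      mul_le_mul_of_nonneg_left (hXL.trans hxx) (by linarith)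
    nlinarith
  · -- large eigenvalue
    push Not at hl
    refine le_trans ?_ hvl
    have h1 : 1 * Real.exp (-(r * Dg * X)) ≤ ‖Pc * val‖ * Real.exp (-(r * Dg * X)) :=
      mul_le_mul_of_nonneg_right hl.le (Real.exp_pos _).le
    refine le_trans ?_ h1
    rw [one_mul]
    refine Real.exp_le_exp.2 ?_
    rw [hA]
    have k1 : (r : ℝ) * Dg * X ≤ X * X := mul_le_mul_of_nonneg_right (by linarith) hx0.le
    have k2 : (X : ℝ) * X ≤ P * (X * X) := by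
      have : 1 * ((X : ℝ) * X) ≤ P * (X * X) := mul_le_mul_of_nonneg_right hP1 (by positivity)
      linarith
    linarith

end AK

end S_H32_AK_C8

section S_H32_AK_C9

set_option autoImplicit false

namespace AK

open CZ AO
open H32.T3 (nrm)

theorem chain_w {k r : ℕ} (P : Fin k → ℂ) (J : ℂ) (winf : Fin r → ℂ)
    (κ0 : ℝ) (h1 : 1 ≤ κ0) (h2 : κ0 ≤ 2) (A : ℕ) (hsc : ScAppr ![J] κ0)
    (hnear : ∀ κ Q : ℕ, ∃ q : ℕ, Q ≤ q ∧
      (∀ j, Rel ((q : ℝ) ^ A) ((q : ℝ) ^ κ) ![J] (winf j)) ∧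
      ∀ t V : ℝ, 1 ≤ t → (q : ℝ) ^ A ≤ V → V ≤ (q : ℝ) ^ κ → t ^ κ0 ≤ V → ¬ ApprAt P t V)
    (halg : ∀ i, IsAlgebraic (IntermediateField.adjoin ℚ
      (Set.range (Fin.append ![J] winf : Fin (1 + r) → ℂ))) (P i)) : False := by
  obtain ⟨P0, hP0⟩ : ∃ P0 : Fin 1 → ℂ, P0 = ![J] := ⟨_, rfl⟩
  rw [← hP0] at hsc hnear halg
  obtain ⟨B, hBP0, hBP, hBw⟩ : ∃ B : ℝ, (∀ i, ‖P0 i‖ + 1 ≤ B) ∧ (∀ i, ‖P i‖ + 1 ≤ B) ∧
      (∀ j, ‖winf j‖ + 1 ≤ B) := by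
    have s0 : 0 ≤ ∑ i, ‖P0 i‖ := Finset.sum_nonneg fun i _ ↦ norm_nonneg _
    have s1 : 0 ≤ ∑ i, ‖P i‖ := Finset.sum_nonneg fun i _ ↦ norm_nonneg _
    have s2 : 0 ≤ ∑ j, ‖winf j‖ := Finset.sum_nonneg fun i _ ↦ norm_nonneg _
    refine ⟨∑ i, ‖P0 i‖ + ∑ i, ‖P i‖ + ∑ j, ‖winf j‖ + 1, fun i ↦ ?_, fun i ↦ ?_, fun j ↦ ?_⟩
    · have := Finset.single_le_sum (f := fun i ↦ ‖P0 i‖) (fun i _ ↦ norm_nonneg _)
        (Finset.mem_univ i)
      linarith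
    · have := Finset.single_le_sum (f := fun i ↦ ‖P i‖) (fun i _ ↦ norm_nonneg _)
        (Finset.mem_univ i)
      linarith
    · have := Finset.single_le_sum (f := fun i ↦ ‖winf i‖) (fun i _ ↦ norm_nonneg _)
        (Finset.mem_univ j)
      linarith
  obtain ⟨X1, hX11, hX1⟩ := ext_many 1 r B
  obtain ⟨X2, hX21, hX2⟩ := ext_many (1 + r) k B
  choose X3 hX31 hX3 using fun i ↦ rel_near P0 winf (P i) (halg i)
  have hX3s : ∀ i, X3 i ≤ ∑ i, X3 i := fun i ↦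
    Finset.single_le_sum (f := X3) (fun i _ ↦ by linarith [hX31 i]) (Finset.mem_univ i)
  obtain ⟨c, hc⟩ : ∃ c : ℕ, c = (A + 1) * (7 * r + 7 * k + 1) + A := ⟨_, rfl⟩
  obtain ⟨Bs, N0, hsc⟩ := hsc c
  obtain ⟨e, he⟩ : ∃ e : ℕ, e = 2 * (c + Bs) + c + A + 2 := ⟨_, rfl⟩
  obtain ⟨q, hQq, hrelw, hno⟩ :=
    hnear e (N0 + ⌈X1⌉₊ + ⌈X2⌉₊ + ⌈∑ i, X3 i⌉₊ + 2)
  have hqN0 : N0 ≤ q := by omega
  have hqX1 : X1 ≤ (q : ℝ) := (Nat.le_ceil _).trans (by exact_mod_cast (by omega : ⌈X1⌉₊ ≤ q))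
  have hqX2 : X2 ≤ (q : ℝ) := (Nat.le_ceil _).trans (by exact_mod_cast (by omega : ⌈X2⌉₊ ≤ q))
  have hqX3 : ∑ i, X3 i ≤ (q : ℝ) :=
    (Nat.le_ceil _).trans (by exact_mod_cast (by omega : ⌈∑ i, X3 i⌉₊ ≤ q))
  have hq2 : (2 : ℝ) ≤ q := by exact_mod_cast (by omega : 2 ≤ q)
  have hq1 : (1 : ℝ) ≤ q := by linarith
  have hq0 : (0 : ℝ) < q := by linarith
  clear hQq
  obtain ⟨t, V, ht1, htq, hV, hAt⟩ := hsc q hqN0
  obtain ⟨X, hXdef⟩ : ∃ X : ℝ, X = (q : ℝ) ^ (A + 1) := ⟨_, rfl⟩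
  obtain ⟨L0, hL0⟩ : ∃ L0 : ℝ, L0 = (q : ℝ) ^ e := ⟨_, rfl⟩
  obtain ⟨V', hV'⟩ : ∃ V' : ℝ, V' = min V L0 := ⟨_, rfl⟩
  have hmono : ∀ {a b : ℕ}, a ≤ b → (q : ℝ) ^ a ≤ (q : ℝ) ^ b := fun h ↦
    pow_le_pow_right₀ hq1 h
  have hone : ∀ a : ℕ, (1 : ℝ) ≤ (q : ℝ) ^ a := fun a ↦ one_le_pow₀ hq1
  have hXpow : ∀ a : ℕ, X ^ a = (q : ℝ) ^ ((A + 1) * a) := fun a ↦ by rw [hXdef, ← pow_mul]
  have hqX : (q : ℝ) ≤ X := by
    rw [hXdef]
    calc (q : ℝ) = (q : ℝ) ^ 1 := (pow_one _).symm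
      _ ≤ _ := hmono (by omega)
  have hX0 : 0 < X := by linarith
  have hL00 : 0 ≤ L0 := by rw [hL0]; positivity
  have hqt1 : 1 ≤ (q : ℝ) ^ c * t := one_le_mul_of_one_le_of_one_le (hone c) ht1
  have hqt0 : 0 < (q : ℝ) ^ c * t := by linarith
  obtain ⟨W, hW⟩ : ∃ W : ℝ, W = ((q : ℝ) ^ c * t) ^ κ0 := ⟨_, rfl⟩
  have hWge : (q : ℝ) ^ c * t ≤ W := by
    rw [hW]
    calc (q : ℝ) ^ c * t = ((q : ℝ) ^ c * t) ^ (1 : ℝ) := (Real.rpow_one _).symm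
      _ ≤ _ := Real.rpow_le_rpow_of_exponent_le hqt1 h1
  have hW1 : 1 ≤ W := hqt1.trans hWge
  have hWV : W * (q : ℝ) ^ c ≤ V' := by
    rw [hV']
    refine le_min (by rw [hW]; exact hV) ?_
    have a1 : W ≤ ((q : ℝ) ^ c * t) ^ 2 := by
      rw [hW]
      calc ((q : ℝ) ^ c * t) ^ κ0 ≤ ((q : ℝ) ^ c * t) ^ (2 : ℝ) :=
            Real.rpow_le_rpow_of_exponent_le hqt1 h2
        _ = _ := Real.rpow_two _
    have a2 : (q : ℝ) ^ c * t ≤ (q : ℝ) ^ (c + Bs) := by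
      rw [pow_add]
      exact mul_le_mul_of_nonneg_left htq (by positivity)
    have a3 : ((q : ℝ) ^ c * t) ^ 2 ≤ (q : ℝ) ^ (2 * (c + Bs)) := by
      rw [mul_comm 2, pow_mul]
      exact pow_le_pow_left₀ hqt0.le a2 2
    calc W * (q : ℝ) ^ c ≤ (q : ℝ) ^ (2 * (c + Bs)) * (q : ℝ) ^ c :=
          mul_le_mul_of_nonneg_right (a1.trans a3) (by positivity)
      _ = (q : ℝ) ^ (2 * (c + Bs) + c) := (pow_add _ _ _).symm
      _ ≤ L0 := by rw [hL0]; exact hmono (by omega)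
  have hWV' : W ≤ V' := le_trans (le_mul_of_one_le_right (by linarith) (hone c)) hWV
  have hqtV : (q : ℝ) ^ c * t ≤ V' := hWge.trans hWV'
  have hV'0 : 0 < V' := by linarith
  have hV'L : V' ≤ L0 := by rw [hV']; exact min_le_right _ _
  have hC0 : ApprC P0 t V' L0 := by rw [hV']; exact ApprC.of_at hL00 hAt
  have hcl : ∀ j, ‖winf j - winf j‖ ≤ Real.exp (-(2 * L0)) := fun j ↦ by
    rw [sub_self, norm_zero]
    exact (Real.exp_pos _).le
  have hXL : X ≤ L0 := by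
    rw [hXdef, hL0]
    refine hmono ?_
    omega
  have hrelw' : ∀ j, Rel X L0 P0 (winf j) := fun j ↦ by
    have a1 := hrelw j
    rw [← hL0] at a1
    exact a1.mono (by rw [hXdef]; exact hmono (by omega)) le_rfl
  have hXt : ∀ a : ℕ, a ≤ 7 * r + 7 * k → X ^ a * t ≤ V' := fun a ha ↦ by
    refine le_trans (mul_le_mul_of_nonneg_right ?_ (by linarith)) hqtV
    rw [hXpow]
    refine hmono ?_
    rw [hc]
    exact (Nat.mul_le_mul_left _ (by omega)).trans (Nat.le_add_right _ _)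
  have hC1 := hX1 X (hqX1.trans hqX) P0 winf L0 t V' hBP0 hBw hrelw' ht1 (hXt _ (by omega)) hC0
  have hrelP : ∀ i, Rel X L0 (Fin.append P0 winf : Fin (1 + r) → ℂ) (P i) := fun i ↦
    hX3 i X L0 winf (((hX3s i).trans hqX3).trans hqX) hXL hcl
  have hX1le : 1 ≤ X := hq1.trans hqX
  have ht2 : 1 ≤ X ^ (4 * r) * t :=
    one_le_mul_of_one_le_of_one_le (one_le_pow₀ hX1le) ht1
  have hBapp : ∀ i, ‖(Fin.append P0 winf : Fin (1 + r) → ℂ) i‖ + 1 ≤ B := fun i ↦ by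
    refine Fin.addCases (fun a ↦ ?_) (fun a ↦ ?_) i
    · rw [Fin.append_left]; exact hBP0 a
    · rw [Fin.append_right]; exact hBw a
  have hC2 := hX2 X (hqX2.trans hqX) (Fin.append P0 winf) P L0 (X ^ (4 * r) * t)
    (V' / X ^ (3 * r)) hBapp hBP hrelP ht2 (by
      rw [le_div_iff₀ (by positivity)]
      calc X ^ (7 * k) * (X ^ (4 * r) * t) * X ^ (3 * r)
          = X ^ (7 * k + 4 * r + 3 * r) * t := by rw [pow_add, pow_add]; ring
        _ ≤ V' := hXt _ (by omega)) hC1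
  have hC3 := (hC2.reindex (Fin.natAdd (1 + r))).at
  have hfun : (fun i ↦ (Fin.append (Fin.append P0 winf) P : Fin (1 + r + k) → ℂ)
      (Fin.natAdd (1 + r) i)) = P := by
    funext i
    rw [Fin.append_right]
  rw [hfun] at hC3
  have hD : 0 < X ^ (3 * r) * X ^ (3 * k) := by positivity
  have hD1 : 1 ≤ X ^ (3 * r) * X ^ (3 * k) :=
    one_le_mul_of_one_le_of_one_le (one_le_pow₀ hX1le) (one_le_pow₀ hX1le)
  have hVV : W ≤ V' / X ^ (3 * r) / X ^ (3 * k) := by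
    rw [div_div, le_div_iff₀ hD]
    refine le_trans (mul_le_mul_of_nonneg_left ?_ (by linarith)) hWV
    rw [← pow_add, hXpow]
    refine hmono ?_
    rw [hc]
    exact (Nat.mul_le_mul_left _ (by omega)).trans (Nat.le_add_right _ _)
  refine hno (X ^ (4 * k) * (X ^ (4 * r) * t)) (V' / X ^ (3 * r) / X ^ (3 * k))
    (one_le_mul_of_one_le_of_one_le (one_le_pow₀ hX1le) ht2) ?_ ?_ ?_ hC3
  · rw [div_div, le_div_iff₀ hD]
    refine le_trans ?_ (le_trans (le_mul_of_one_le_left (by positivity) hW1) hWV)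
    calc (q : ℝ) ^ A * (X ^ (3 * r) * X ^ (3 * k))
        = (q : ℝ) ^ ((A + 1) * (3 * r + 3 * k) + A) := by
          rw [← pow_add, hXpow, ← pow_add, add_comm]
      _ ≤ (q : ℝ) ^ c := by
          refine hmono ?_
          rw [hc]
          exact Nat.add_le_add_right (Nat.mul_le_mul_left _ (by omega)) _
  · rw [div_div]
    refine le_trans (div_le_self hV'0.le hD1) ?_
    rw [← hL0]
    exact hV'L
  · refine le_trans ?_ hVV
    rw [hW]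
    refine Real.rpow_le_rpow (by positivity) ?_ (by linarith)
    calc X ^ (4 * k) * (X ^ (4 * r) * t) = X ^ (4 * k + 4 * r) * t := by rw [pow_add]; ring
      _ ≤ (q : ℝ) ^ c * t := by
          refine mul_le_mul_of_nonneg_right ?_ (by linarith)
          rw [hXpow]
          refine hmono ?_
          rw [hc]
          exact (Nat.mul_le_mul_left _ (by omega)).trans (Nat.le_add_right _ _)

end AK

end S_H32_AK_C9
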