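import Mathlib
import Pool.Agent.H32.AKM.P20
import Pool.Agent.H32.AKM.P22
import Pool.Agent.H32.AKM.P27
import Pool.Agent.H32.AKM.P30

/-! Modular Schanuel with derivatives for points algebraic over a field with good approximations, part 33: this file joins several modules to save build time. -/

section S_H32_AO_C2

set_option autoImplicit false

open UpperHalfPlane hiding I
open Complex EisensteinSeries ModularForm MatrixGroups Manifold
open scoped Real Topology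
open MvPolynomial Filter

namespace AO

open H32 H32.T3 H32.T4

private theorem C2_scale {X Y : ℝ} {J w : ℂ} {M e q : ℕ} {f : ℤ} (hM : 0 < M) (hf : f ≠ 0) (hq : 1 ≤ q)
    (rr : ℕ → Polynomial ℤ) (h1 : rr M = Polynomial.C f) (h2 : ∀ i, (rr i).natDegree ≤ 2 * M)
    (h3 : ∀ i, H32.T3.nr (rr i) ≤ Real.exp Y)
    (h4 : ∑ i ∈ Finset.range (M + 1), Polynomial.aeval J (rr i) * (w * (q : ℂ) ^ e) ^ i = 0)
    (hX : 2 * (M : ℝ) + e * M * Real.log q + Y ≤ X) (hY : 0 ≤ Y) : RootRel X J w := by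
  have hq0 : (0 : ℝ) < q := by exact_mod_cast hq
  have hq1 : (1 : ℝ) ≤ q := by exact_mod_cast hq
  have hlog : 0 ≤ Real.log q := Real.log_nonneg hq1
  have hM0 : (0 : ℝ) ≤ M := Nat.cast_nonneg M
  have he0 : (0 : ℝ) ≤ e := Nat.cast_nonneg e
  have hp : 0 ≤ (e : ℝ) * M * Real.log q := by positivity
  refine ⟨M, fun i ↦ if i ≤ M then Polynomial.C ((q : ℤ) ^ (e * i)) * rr i else 0,
    (q : ℤ) ^ (e * M) * f, hM, by linarith, ?_, ?_, ?_, ?_, ?_⟩
  · refine mul_ne_zero (pow_ne_zero _ ?_) hf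
    have : q ≠ 0 := by omega
    exact_mod_cast this
  · simp only [le_refl, if_true]
    rw [h1, ← Polynomial.C_mul]
  · intro i
    simp only
    split_ifs with hi
    · have h5 : (Polynomial.C ((q : ℤ) ^ (e * i)) * rr i).natDegree ≤ 2 * M :=
        (Polynomial.natDegree_C_mul_le _ _).trans (h2 i)
      have h6 : ((Polynomial.C ((q : ℤ) ^ (e * i)) * rr i).natDegree : ℝ) ≤ 2 * M := by
        exact_mod_cast h5
      linarith
    · rw [Polynomial.natDegree_zero, Nat.cast_zero]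
      linarith
  · intro i
    change H32.T3.nr (if i ≤ M then Polynomial.C ((q : ℤ) ^ (e * i)) * rr i else 0) ≤ _
    split_ifs with hi
    · have h5 : H32.T3.nr (Polynomial.C ((q : ℤ) ^ (e * i)) * rr i) ≤
          |(((q : ℤ) ^ (e * i) : ℤ) : ℝ)| * H32.T3.nr (rr i) :=
        H32.T3.nr_monomial_mul 0 ((q : ℤ) ^ (e * i)) (rr i)
      refine h5.trans ?_
      push_cast
      rw [abs_of_nonneg (by positivity)]
      have h6 : (q : ℝ) ^ (e * i) ≤ (q : ℝ) ^ (e * M) :=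
        pow_le_pow_right₀ hq1 (Nat.mul_le_mul_left e hi)
      have h7 : (q : ℝ) ^ (e * M) = Real.exp (e * M * Real.log q) := by
        rw [← Real.rpow_natCast, Real.rpow_def_of_pos hq0]
        push_cast
        ring_nf
      calc (q : ℝ) ^ (e * i) * H32.T3.nr (rr i) ≤ (q : ℝ) ^ (e * M) * Real.exp Y :=
            mul_le_mul h6 (h3 i) (H32.T3.nr_nonneg _) (by positivity)
        _ = Real.exp (e * M * Real.log q + Y) := by rw [h7, ← Real.exp_add]
        _ ≤ Real.exp X := Real.exp_le_exp.2 (by linarith)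
    · rw [H32.T3.nr_zero]
      exact (Real.exp_pos _).le
  · rw [← h4]
    refine Finset.sum_congr rfl fun i hi ↦ ?_
    have hi' : i ≤ M := by
      have := Finset.mem_range.1 hi
      omega
    simp only [hi', if_true]
    rw [map_mul, Polynomial.aeval_C, mul_pow, ← pow_mul]
    simp only [algebraMap_int_eq, eq_intCast, Int.cast_pow, Int.cast_natCast]
    ring

private theorem C2_size {C D N M e q : ℕ} {K : ℝ} (hK : 0 ≤ K) (hq : 1 ≤ q)
    (hN : (N : ℝ) ≤ C * (q : ℝ) ^ (2 * D)) (hM : M ≤ N ^ 2) (he : e ≤ 6 * D)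
    (hQ : 2 * (C : ℝ) ^ 2 + 6 * D * (C : ℝ) ^ 2 + K * (C : ℝ) ^ 26 ≤ q) :
    2 * (M : ℝ) + e * M * Real.log q + K * (N : ℝ) ^ 26 ≤ (q : ℝ) ^ (52 * D + 60) := by
  have hq1 : (1 : ℝ) ≤ q := by exact_mod_cast hq
  have hq0 : (0 : ℝ) < q := by linarith
  have hlog0 : 0 ≤ Real.log q := Real.log_nonneg hq1
  have hlog : Real.log q ≤ q := (Real.log_le_sub_one_of_pos hq0).trans (by linarith)
  have hN0 : (0 : ℝ) ≤ N := Nat.cast_nonneg N
  have hM1 : (M : ℝ) ≤ (N : ℝ) ^ 2 := by exact_mod_cast hM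
  have hM2 : (M : ℝ) ≤ (C : ℝ) ^ 2 * (q : ℝ) ^ (52 * D) := by
    calc (M : ℝ) ≤ (N : ℝ) ^ 2 := hM1
      _ ≤ (C * (q : ℝ) ^ (2 * D)) ^ 2 := pow_le_pow_left₀ hN0 hN 2
      _ = (C : ℝ) ^ 2 * (q : ℝ) ^ (4 * D) := by rw [mul_pow, ← pow_mul]; ring_nf
      _ ≤ (C : ℝ) ^ 2 * (q : ℝ) ^ (52 * D) := by
        have : (q : ℝ) ^ (4 * D) ≤ (q : ℝ) ^ (52 * D) := pow_le_pow_right₀ hq1 (by omega)
        gcongr
  have hN2 : (N : ℝ) ^ 26 ≤ (C : ℝ) ^ 26 * (q : ℝ) ^ (52 * D) := by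
    calc (N : ℝ) ^ 26 ≤ (C * (q : ℝ) ^ (2 * D)) ^ 26 := pow_le_pow_left₀ hN0 hN 26
      _ = (C : ℝ) ^ 26 * (q : ℝ) ^ (52 * D) := by rw [mul_pow, ← pow_mul]; ring_nf
  have he' : (e : ℝ) ≤ 6 * D := by exact_mod_cast he
  have hM0 : (0 : ℝ) ≤ M := Nat.cast_nonneg M
  have hQ0 : (0 : ℝ) ≤ (q : ℝ) ^ (52 * D) := by positivity
  have t1 : 2 * (M : ℝ) ≤ 2 * (C : ℝ) ^ 2 * (q : ℝ) ^ (52 * D) * q := by
    have h1 : 0 ≤ (C : ℝ) ^ 2 * (q : ℝ) ^ (52 * D) := by positivity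
    nlinarith
  have t2 : (e : ℝ) * M * Real.log q ≤ 6 * D * (C : ℝ) ^ 2 * (q : ℝ) ^ (52 * D) * q := by
    calc (e : ℝ) * M * Real.log q ≤ (6 * D) * ((C : ℝ) ^ 2 * (q : ℝ) ^ (52 * D)) * q := by
          gcongr
      _ = _ := by ring
  have t3 : K * (N : ℝ) ^ 26 ≤ K * (C : ℝ) ^ 26 * (q : ℝ) ^ (52 * D) * q := by
    calc K * (N : ℝ) ^ 26 ≤ K * ((C : ℝ) ^ 26 * (q : ℝ) ^ (52 * D)) := by gcongr
      _ ≤ K * ((C : ℝ) ^ 26 * (q : ℝ) ^ (52 * D)) * q := le_mul_of_one_le_right (by positivity) hq1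
      _ = _ := by ring
  calc 2 * (M : ℝ) + e * M * Real.log q + K * (N : ℝ) ^ 26 ≤
        (2 * (C : ℝ) ^ 2 + 6 * D * (C : ℝ) ^ 2 + K * (C : ℝ) ^ 26) * ((q : ℝ) ^ (52 * D) * q) := by
        linarith
    _ ≤ q * ((q : ℝ) ^ (52 * D) * q) := by gcongr
    _ = (q : ℝ) ^ (52 * D + 2) := by ring
    _ ≤ (q : ℝ) ^ (52 * D + 60) := pow_le_pow_right₀ hq1 (by omega)

theorem rootRel_WF {m n : ℕ} (S : Orb m n 1) : ∃ (A Q0 : ℕ) (ε : ℝ), 0 < ε ∧
    ∀ (q : ℕ) (p : Fin m → ℤ), Q0 ≤ q → (∀ s, |S.t s - p s / q| < ε) →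
      ∀ j, RootRel ((q : ℝ) ^ A) (jf (S.y 0)) (WF S (fun s ↦ (p s : ℂ) / q) j) := by
  obtain ⟨C, D, ε, hε, hrw⟩ := rw_int S
  obtain ⟨KP, hKP, hP⟩ := H32.T3.rel_PQ
  obtain ⟨KT, hKT, hT⟩ := H32.T3.rel_all
  obtain ⟨Q1, hQ1⟩ := exists_nat_ge (2 * (C : ℝ) ^ 2 + 6 * D * (C : ℝ) ^ 2 +
    (KP + KT) * (C : ℝ) ^ 26)
  refine ⟨52 * D + 60, Q1 + C + 1, ε, hε, fun q p hqQ hp j ↦ ?_⟩
  have hq : 1 ≤ q := by omega
  have hq1 : (1 : ℝ) ≤ q := by exact_mod_cast hq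
  have hQ : 2 * (C : ℝ) ^ 2 + 6 * D * (C : ℝ) ^ 2 + (KP + KT) * (C : ℝ) ^ 26 ≤ q := by
    refine hQ1.trans ?_
    have : Q1 ≤ q := by omega
    exact_mod_cast this
  have hC26 : (0 : ℝ) ≤ (C : ℝ) ^ 26 := by positivity
  have hQP : 2 * (C : ℝ) ^ 2 + 6 * D * (C : ℝ) ^ 2 + KP * (C : ℝ) ^ 26 ≤ q := by nlinarith
  have hQT : 2 * (C : ℝ) ^ 2 + 6 * D * (C : ℝ) ^ 2 + KT * (C : ℝ) ^ 26 ≤ q := by nlinarith
  obtain ⟨hpC, hi⟩ := hrw q p hq hp
  rcases j with ⟨i, k⟩ | s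
  · obtain ⟨a, b, c, d, N, τ', hN, hdet, hNC, hτ, e0, e1, e2⟩ := hi i
    obtain ⟨s, hs, x0, x1, x2⟩ := rat_eval hN hdet (S.y 0) τ' hτ
    obtain ⟨rP, rQ, a1, a2, a3, a4, a5, a6, a7, a8⟩ := hP N hN
    obtain ⟨rD, rT, -, b2, -, b4, -, b6, -, b8⟩ := hT N hN
    have hM : 0 < (SN N).card := H32.T3.one_le_card_SN hN
    have hM2 : (SN N).card ≤ N ^ 2 := H32.T3.card_SN_le hN
    have hf : (((SN N).card).factorial : ℤ) ≠ 0 := by
      exact_mod_cast (Nat.factorial_pos _).ne'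
    fin_cases k
    · change RootRel _ _ (RW S (fun s ↦ (p s : ℂ) / q) (i, 0))
      have hz : ∑ i' ∈ Finset.range ((SN N).card + 1), Polynomial.aeval (jf (S.y 0)) (rP i') *
          (RW S (fun s ↦ (p s : ℂ) / q) (i, 0) * (q : ℂ) ^ (4 * D)) ^ i' = 0 := by
        rw [a7, Finset.prod_eq_zero hs, mul_zero]
        rw [e0, x0, pow_one, sub_self]
      exact C2_scale hM hf hq rP a1 a3 a5 hz
        (C2_size (by linarith) hq hNC hM2 (by omega) hQP) (by positivity)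
    · change RootRel _ _ (RW S (fun s ↦ (p s : ℂ) / q) (i, 1))
      have hz : ∑ i' ∈ Finset.range ((SN N).card + 1), Polynomial.aeval (jf (S.y 0)) (rQ i') *
          (RW S (fun s ↦ (p s : ℂ) / q) (i, 1) * (q : ℂ) ^ (6 * D)) ^ i' = 0 := by
        rw [a8, Finset.prod_eq_zero hs, mul_zero]
        rw [e1, x1, pow_one, sub_self]
      exact C2_scale hM hf hq rQ a2 a4 a6 hz
        (C2_size (by linarith) hq hNC hM2 (by omega) hQP) (by positivity)
    · change RootRel _ _ (RW S (fun s ↦ (p s : ℂ) / q) (i, 2))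
      have hz : ∑ i' ∈ Finset.range ((SN N).card + 1), Polynomial.aeval (jf (S.y 0)) (rT i') *
          (RW S (fun s ↦ (p s : ℂ) / q) (i, 2) * (q : ℂ) ^ (2 * D)) ^ i' = 0 := by
        rw [b8, Finset.prod_eq_zero hs, mul_zero]
        rw [e2, x2, pow_one, sub_self]
      exact C2_scale hM hf hq rT b2 b4 b6 hz
        (C2_size (by linarith) hq hNC hM2 (by omega) hQT) (by positivity)
  · change RootRel _ _ ((p s : ℂ) / q)
    have hX1 : (1 : ℝ) ≤ (q : ℝ) ^ (52 * D + 60) := one_le_pow₀ hq1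
    have hX2 : (q : ℝ) ^ 2 ≤ (q : ℝ) ^ (52 * D + 60) := pow_le_pow_right₀ hq1 (by omega)
    have hX3 : (q : ℝ) ^ (52 * D + 60) ≤ Real.exp ((q : ℝ) ^ (52 * D + 60)) := by
      have := Real.add_one_le_exp ((q : ℝ) ^ (52 * D + 60))
      linarith
    have hCq : (C : ℝ) ≤ q := by
      have : C ≤ q := by omega
      exact_mod_cast this
    refine rootRel_rat _ (p s) q (by omega) hX1 ?_ ?_
    · nlinarith
    · have := hpC s
      nlinarith

end AO

end S_H32_AO_C2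

section S_H32_AO_C3

set_option autoImplicit false
set_option linter.unusedSimpArgs false

open UpperHalfPlane hiding I
open Complex EisensteinSeries ModularForm MatrixGroups Manifold
open scoped Real Topology
open MvPolynomial Filter

namespace AO

open H32 H32.T3 H32.T4

theorem rank_WF {m n : ℕ} (S : Orb m n 1) (h4 : E₄ (S.y 0) ≠ 0) (h6 : E₆ (S.y 0) ≠ 0)
    (r : ℕ → Fin m → ℂ) (hr : Tendsto r atTop (𝓝 S.x))
    (hX : AlgebraicIndependent ℂ (Sum.elim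
      (fun p : Fin n × Fin 3 ↦ mkU (fun k ↦ ee (S.φ p.1 (r k)) p.2))
      (fun s : Fin m ↦ mkU (fun k ↦ r k s)))) :
    AlgebraicIndependent ℂ (fun j ↦ mkU (fun k ↦ WF S (r k) j)) := by
  classical
  set M := AlgebraicIndependent.matroid ℂ Ult with hM
  set VS : (Fin n × Fin 3) ⊕ Fin m → Ult := fun j ↦ mkU (fun k ↦ WF S (r k) j) with hVS
  set D : Subalgebra ℂ Ult := Algebra.adjoin ℂ (Set.range VS) with hD
  have hgen : ∀ v ∈ Set.range VS, IsAlgebraic D v := by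
    intro v hv
    exact isAlgebraic_algebraMap (⟨v, Algebra.subset_adjoin hv⟩ : D)
  have aR : ∀ r : ℂ, IsAlgebraic D (algebraMap ℂ Ult r) := fun r ↦ by
    rw [IsScalarTower.algebraMap_apply ℂ D Ult]
    exact isAlgebraic_algebraMap _
  have ar : ∀ s, IsAlgebraic D (mkU (fun k ↦ r k s)) := fun s ↦ hgen _ ⟨Sum.inr s, rfl⟩
  have aP : ∀ p : MvPolynomial (Fin m) ℤ, IsAlgebraic D (mkU (fun k ↦ aeval (r k) p)) := by
    intro p
    induction p using MvPolynomial.induction_on with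
    | C c =>
      have e : (fun k ↦ aeval (r k) (C c : MvPolynomial (Fin m) ℤ)) = fun _ : ℕ ↦ (c : ℂ) := by
        ext k
        simp
      rw [e]
      exact aR c
    | add p q hp hq =>
      have e : (fun k ↦ aeval (r k) (p + q)) = (fun k ↦ aeval (r k) p) + fun k ↦ aeval (r k) q := by
        ext k
        simp
      rw [e, map_add]
      exact hp.add hq
    | mul_X p s hp =>
      have e : (fun k ↦ aeval (r k) (p * X s)) = (fun k ↦ aeval (r k) p) * fun k ↦ r k s := by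
        ext k
        simp
      rw [e, map_mul]
      exact hp.mul (ar s)
  -- eventually nonzero quantities
  have hdenE : ∀ i, ∀ᶠ k in atTop, S.den i (r k) ≠ 0 := fun i ↦
    ((S.an_den i S.x).continuousAt.tendsto.comp hr).eventually_ne (S.den_x i)
  have hdtE : ∀ i, ∀ᶠ k in atTop, aeval (r k) (S.dt i) ≠ 0 := fun i ↦
    ((an_aeval (S.dt i) S.x).continuousAt.tendsto.comp hr).eventually_ne (S.dt_x i)
  set g2 : Fin n → Ult := fun i ↦ mkU (fun k ↦ e2 (S.φ i (r k))) with hg2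
  set g4 : Fin n → Ult := fun i ↦ mkU (fun k ↦ e4 (S.φ i (r k))) with hg4
  set g6 : Fin n → Ult := fun i ↦ mkU (fun k ↦ e6 (S.φ i (r k))) with hg6
  have y4 : e4 (S.y 0 : ℂ) ≠ 0 := by rw [e4, ofComplex_apply]; exact h4
  have y6 : e6 (S.y 0 : ℂ) ≠ 0 := by rw [e6, ofComplex_apply]; exact h6
  have yD : discriminant (S.y 0) ≠ 0 := discriminant_ne_zero _
  have hpi : (π : ℂ) ≠ 0 := by exact_mod_cast Real.pi_ne_zero
  have key : ∀ i, IsAlgebraic D (g2 i) ∧ IsAlgebraic D (g4 i) ∧ IsAlgebraic D (g6 i) := by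
    intro i
    set dn : Ult := mkU (fun k ↦ S.den i (r k)) with hdn
    set dd : Ult := mkU (fun k ↦ aeval (r k) (S.dt i)) with hdd
    have hdn0 : dn ≠ 0 := by
      intro h0
      obtain ⟨k, h1, h2⟩ := ((freq_of_mkU_zero h0).and_eventually (hdenE i)).exists
      exact h2 h1
    have hdd0 : dd ≠ 0 := by
      intro h0
      obtain ⟨k, h1, h2⟩ := ((freq_of_mkU_zero h0).and_eventually (hdtE i)).exists
      exact h2 h1
    have adn : IsAlgebraic D dn := by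
      have e : dn = mkU (fun k ↦ aeval (r k) (S.pC i)) * algebraMap ℂ Ult (S.y (S.c i) : ℂ) +
          mkU (fun k ↦ aeval (r k) (S.pD i)) := by
        rw [algebraMap_Ult, ← map_mul, ← map_add]
        rfl
      rw [e]
      exact ((aP _).mul (aR _)).add (aP _)
    have add' : IsAlgebraic D dd := aP _
    have a0 : IsAlgebraic D (VS (Sum.inl (i, 0))) := hgen _ ⟨_, rfl⟩
    have a1 : IsAlgebraic D (VS (Sum.inl (i, 1))) := hgen _ ⟨_, rfl⟩
    have a2 : IsAlgebraic D (VS (Sum.inl (i, 2))) := hgen _ ⟨_, rfl⟩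
    have c4 : algebraMap ℂ Ult (e4 (S.y 0 : ℂ) ^ 2) ≠ 0 := (map_ne_zero _).mpr (pow_ne_zero 2 y4)
    have c6 : algebraMap ℂ Ult (e6 (S.y 0 : ℂ)) ≠ 0 := (map_ne_zero _).mpr y6
    have c2 : algebraMap ℂ Ult (e4 (S.y 0 : ℂ) * e6 (S.y 0 : ℂ)) ≠ 0 :=
      (map_ne_zero _).mpr (mul_ne_zero y4 y6)
    -- relations
    have r0 : VS (Sum.inl (i, 0)) * dn ^ 4 * algebraMap ℂ Ult (discriminant (S.y 0)) =
        dd ^ 4 * g4 i * algebraMap ℂ Ult (e4 (S.y 0 : ℂ) ^ 2) := by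
      rw [algebraMap_Ult, algebraMap_Ult, hdn, hdd, hVS, hg4]
      simp only
      rw [← map_pow, ← map_pow, ← map_mul, ← map_mul, ← map_mul, ← map_mul, ← sub_eq_zero,
        ← map_sub]
      refine mkU_zero_of_ev ((hdenE i).mono fun k k2 ↦ ?_)
      simp only [Pi.sub_apply, Pi.mul_apply, Pi.pow_apply]
      change (aeval (r k) (S.dt i) / S.den i (r k)) ^ 4 * e4 (S.φ i (r k)) * e4 (S.y 0 : ℂ) ^ 2 /
        discriminant (S.y 0) * _ * _ - _ = 0
      field_simp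
      ring
    have r1 : VS (Sum.inl (i, 1)) * dn ^ 6 * algebraMap ℂ Ult (discriminant (S.y 0)) =
        dd ^ 6 * g6 i * algebraMap ℂ Ult (e6 (S.y 0 : ℂ)) := by
      rw [algebraMap_Ult, algebraMap_Ult, hdn, hdd, hVS, hg6]
      simp only
      rw [← map_pow, ← map_pow, ← map_mul, ← map_mul, ← map_mul, ← map_mul, ← sub_eq_zero,
        ← map_sub]
      refine mkU_zero_of_ev ((hdenE i).mono fun k k2 ↦ ?_)
      simp only [Pi.sub_apply, Pi.mul_apply, Pi.pow_apply]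
      change (aeval (r k) (S.dt i) / S.den i (r k)) ^ 6 * e6 (S.φ i (r k)) * e6 (S.y 0 : ℂ) /
        discriminant (S.y 0) * _ * _ - _ = 0
      field_simp
      ring
    have r2 : VS (Sum.inl (i, 2)) * algebraMap ℂ Ult (discriminant (S.y 0)) * dn ^ 2 =
        (dd ^ 2 * g2 i - dd * algebraMap ℂ Ult (e2 (S.y 0 : ℂ)) * dn ^ 2 +
          algebraMap ℂ Ult (6 * Complex.I / π) * dd * mkU (fun k ↦ aeval (r k) (S.pC i)) * dn) *
          algebraMap ℂ Ult (e4 (S.y 0 : ℂ) * e6 (S.y 0 : ℂ)) := by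
      rw [algebraMap_Ult, algebraMap_Ult, algebraMap_Ult, algebraMap_Ult, hdn, hdd, hVS, hg2]
      simp only
      rw [← map_pow, ← map_pow, ← map_mul, ← map_mul, ← map_mul, ← map_mul, ← map_mul, ← map_mul,
        ← map_mul, ← map_mul, ← map_sub, ← map_add, ← map_mul, ← sub_eq_zero, ← map_sub]
      refine mkU_zero_of_ev ((hdenE i).mono fun k k2 ↦ ?_)
      simp only [Pi.sub_apply, Pi.mul_apply, Pi.pow_apply, Pi.add_apply]
      change ((aeval (r k) (S.dt i) / S.den i (r k)) ^ 2 * e2 (S.φ i (r k)) -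
        aeval (r k) (S.dt i) * e2 (S.y 0 : ℂ) +
        6 * Complex.I * aeval (r k) (S.dt i) * aeval (r k) (S.pC i) / (π * S.den i (r k))) *
        (e4 (S.y 0 : ℂ) * e6 (S.y 0 : ℂ)) / discriminant (S.y 0) * _ * _ - _ = 0
      field_simp
      ring
    refine ⟨?_, ?_, ?_⟩
    · have e : g2 i = (VS (Sum.inl (i, 2)) * algebraMap ℂ Ult (discriminant (S.y 0)) * dn ^ 2 *
          (algebraMap ℂ Ult (e4 (S.y 0 : ℂ) * e6 (S.y 0 : ℂ)))⁻¹ +
          (dd * algebraMap ℂ Ult (e2 (S.y 0 : ℂ)) * dn ^ 2 -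
          algebraMap ℂ Ult (6 * Complex.I / π) * dd * mkU (fun k ↦ aeval (r k) (S.pC i)) * dn)) *
          (dd ^ 2)⁻¹ := by
        rw [eq_mul_inv_iff_mul_eq₀ (pow_ne_zero 2 hdd0), r2, mul_inv_cancel_right₀ c2]
        ring
      rw [e]
      exact ((((a2.mul (aR _)).mul (adn.pow 2)).mul (aR _).inv).add
        (((add'.mul (aR _)).mul (adn.pow 2)).sub
          ((((aR _).mul add').mul (aP _)).mul adn))).mul (add'.pow 2).inv
    · have e : g4 i = VS (Sum.inl (i, 0)) * dn ^ 4 * algebraMap ℂ Ult (discriminant (S.y 0)) *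
          (dd ^ 4 * algebraMap ℂ Ult (e4 (S.y 0 : ℂ) ^ 2))⁻¹ := by
        rw [eq_mul_inv_iff_mul_eq₀ (mul_ne_zero (pow_ne_zero 4 hdd0) c4), r0]
        ring
      rw [e]
      exact ((a0.mul (adn.pow 4)).mul (aR _)).mul ((add'.pow 4).mul (aR _)).inv
    · have e : g6 i = VS (Sum.inl (i, 1)) * dn ^ 6 * algebraMap ℂ Ult (discriminant (S.y 0)) *
          (dd ^ 6 * algebraMap ℂ Ult (e6 (S.y 0 : ℂ)))⁻¹ := by
        rw [eq_mul_inv_iff_mul_eq₀ (mul_ne_zero (pow_ne_zero 6 hdd0) c6), r1]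
        ring
      rw [e]
      exact ((a1.mul (adn.pow 6)).mul (aR _)).mul ((add'.pow 6).mul (aR _)).inv
  set et : (Fin n × Fin 3) ⊕ Fin m → Ult :=
    Sum.elim (fun p : Fin n × Fin 3 ↦ mkU (fun k ↦ ee (S.φ p.1 (r k)) p.2))
      (fun s : Fin m ↦ mkU (fun k ↦ r k s)) with het
  have hind : M.Indep (Set.range et) := by
    rw [hM, AlgebraicIndependent.matroid_indep_iff]
    exact hX.to_subtype_range
  have hcardI : Fintype.card ((Fin n × Fin 3) ⊕ Fin m) = 3 * n + m := by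
    rw [Fintype.card_sum, Fintype.card_prod, Fintype.card_fin, Fintype.card_fin, Fintype.card_fin,
      mul_comm n 3]
  have hcard : (Set.range et).encard = ((3 * n + m : ℕ) : ℕ∞) := by
    rw [← Set.image_univ, hX.injective.encard_image, Set.encard_univ, ENat.card_eq_coe_fintype_card,
      hcardI]
  have hsub : Set.range et ⊆ M.closure (Set.range VS) := by
    rw [hM, AlgebraicIndependent.matroid_closure_eq]
    rintro _ ⟨u, rfl⟩
    change IsAlgebraic D (et u)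
    rcases u with ⟨i, l⟩ | s
    · fin_cases l
      · exact (key i).1
      · exact (key i).2.1
      · exact (key i).2.2
    · exact ar s
  obtain ⟨B, hB'⟩ := M.exists_isBasis (Set.range VS) (by rw [hM]; exact Set.subset_univ _)
  have h1 : ((3 * n + m : ℕ) : ℕ∞) ≤ B.encard := by
    rw [hB'.encard_eq_eRk, ← M.eRk_closure_eq, ← hcard]
    exact hind.encard_le_eRk_of_subset hsub
  have hBi := hB'.indep
  rw [hM, AlgebraicIndependent.matroid_indep_iff] at hBi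
  obtain ⟨f, hf⟩ := extract_indep' VS (B := B) hBi hB'.subset h1
  exact indep_of_card VS hcardI hf

theorem diff_WF {m n : ℕ} (S : Orb m n 1) (j : (Fin n × Fin 3) ⊕ Fin m) :
    DifferentiableAt ℂ (fun s ↦ WF S s j) S.x := by
  have hP : ∀ p : MvPolynomial (Fin m) ℤ,
      AnalyticAt ℂ (fun s : Fin m → ℂ ↦ aeval s p) S.x := fun p ↦ an_aeval p S.x
  have hden : ∀ i, AnalyticAt ℂ (S.den i) S.x := fun i ↦ S.an_den i S.x
  rcases j with ⟨i, l⟩ | s
  · have d4 : AnalyticAt ℂ (fun s ↦ e4 (S.φ i s)) S.x :=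
      AnalyticAt.fun_comp (g := fun w ↦ e4 w) (f := S.φ i) (analytic_E4 _ (S.im_φ i)) (S.an_φ i)
    have d6 : AnalyticAt ℂ (fun s ↦ e6 (S.φ i s)) S.x :=
      AnalyticAt.fun_comp (g := fun w ↦ e6 w) (f := S.φ i) (analytic_E6 _ (S.im_φ i)) (S.an_φ i)
    have d2 : AnalyticAt ℂ (fun s ↦ e2 (S.φ i s)) S.x :=
      AnalyticAt.fun_comp (g := fun w ↦ e2 w) (f := S.φ i) (analytic_E2 _ (S.im_φ i)) (S.an_φ i)
    have hq : AnalyticAt ℂ (fun s : Fin m → ℂ ↦ aeval s (S.dt i) / S.den i s) S.x :=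
      AnalyticAt.fun_div (hP _) (hden i) (S.den_x i)
    have hpi : (π : ℂ) ≠ 0 := by exact_mod_cast Real.pi_ne_zero
    fin_cases l
    · have h1 : AnalyticAt ℂ (fun s ↦ (aeval s (S.dt i) / S.den i s) ^ 4 * e4 (S.φ i s) *
          e4 (S.y 0 : ℂ) ^ 2 / discriminant (S.y 0)) S.x :=
        ((((hq.fun_pow 4).fun_mul d4).fun_mul analyticAt_const).fun_div analyticAt_const
          (discriminant_ne_zero _))
      exact h1.differentiableAt
    · have h1 : AnalyticAt ℂ (fun s ↦ (aeval s (S.dt i) / S.den i s) ^ 6 * e6 (S.φ i s) *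
          e6 (S.y 0 : ℂ) / discriminant (S.y 0)) S.x :=
        ((((hq.fun_pow 6).fun_mul d6).fun_mul analyticAt_const).fun_div analyticAt_const
          (discriminant_ne_zero _))
      exact h1.differentiableAt
    · have h1 : AnalyticAt ℂ (fun s ↦ ((aeval s (S.dt i) / S.den i s) ^ 2 * e2 (S.φ i s) -
          aeval s (S.dt i) * e2 (S.y 0 : ℂ) +
          6 * Complex.I * aeval s (S.dt i) * aeval s (S.pC i) / (π * S.den i s)) *
          (e4 (S.y 0 : ℂ) * e6 (S.y 0 : ℂ)) / discriminant (S.y 0)) S.x :=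
        ((((((hq.fun_pow 2).fun_mul d2).fun_sub ((hP _).fun_mul analyticAt_const)).fun_add
          (AnalyticAt.fun_div ((analyticAt_const.fun_mul (hP _)).fun_mul (hP _))
            (analyticAt_const.fun_mul (hden i)) (mul_ne_zero hpi (S.den_x i)))).fun_mul
          analyticAt_const).fun_div analyticAt_const (discriminant_ne_zero _))
      exact h1.differentiableAt
  · exact differentiableAt_pi.mp differentiableAt_id s

end AO

end S_H32_AO_C3

section S_H32_AO_C4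

set_option autoImplicit false

open UpperHalfPlane hiding I
open Complex EisensteinSeries ModularForm MatrixGroups Manifold
open scoped Real Topology
open MvPolynomial Filter

namespace AO

open H32 H32.T3 H32.T4

theorem appr_WF {m n : ℕ} (S : Orb m n 1) (hS : SHier S.t) (hne : NE0 S) (hrel : NE1 S) :
    ∃ A : ℕ, ∀ κ : ℕ, ∃ (q : ℕ → ℕ) (r : ℕ → Fin m → ℂ), (∀ k, k + 2 ≤ q k) ∧
      (∀ k j, RootRel ((q k : ℝ) ^ A) (jf (S.y 0)) (WF S (r k) j)) ∧
      (∀ k, ‖r k - S.x‖ ≤ Real.exp (-(q k : ℝ) ^ κ)) ∧ Tendsto r atTop (𝓝 S.x) ∧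
      AlgebraicIndependent ℂ (Sum.elim
        (fun p : Fin n × Fin 3 ↦ mkU (fun k ↦ ee (S.φ p.1 (r k)) p.2))
        (fun s : Fin m ↦ mkU (fun k ↦ r k s))) := by
  obtain ⟨A, Q0, ε, hε, hA⟩ := rootRel_WF S
  refine ⟨A, fun κ ↦ ?_⟩
  obtain ⟨σ, hσ⟩ := hS (κ + 1)
  obtain ⟨B, hB⟩ : ∃ B : ℕ, |Real.log ε| < B := exists_nat_gt _
  choose q hq p hp1 hp2 using fun k : ℕ ↦ hσ (Q0 + k + 2 + B)
  set r : ℕ → Fin m → ℂ := fun k s ↦ (p k s : ℂ) / q k with hr
  have hrn : ∀ k s, ‖r k s - S.x s‖ = |S.t s - p k s / q k| := fun k s ↦ by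
    have e : r k s - S.x s = (((p k s : ℝ) / q k - S.t s : ℝ) : ℂ) := by
      rw [hr, Orb.x]
      push_cast
      rfl
    rw [e, Complex.norm_real, Real.norm_eq_abs, abs_sub_comm]
  have hHk : ∀ k, k + 2 ≤ q k := fun k ↦ le_trans (by omega) (hq k)
  have hH1 : ∀ k, (1 : ℝ) ≤ q k := fun k ↦ by
    have := hHk k
    exact_mod_cast (by omega : 1 ≤ q k)
  have hle1 : ∀ k s, |S.t s - p k s / q k| ≤ 1 := fun k s ↦ by
    refine ((hp1 k s).2.le).trans (Real.exp_le_one_iff.mpr ?_)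
    have : (0 : ℝ) ≤ (q k : ℝ) ^ (κ + 1) := by positivity
    linarith
  have hlt : ∀ k s, |S.t s - p k s / q k| < ε := fun k s ↦ by
    refine (hp1 k s).2.trans ?_
    rw [← Real.lt_log_iff_exp_lt hε]
    have h1 : (q k : ℝ) ≤ (q k : ℝ) ^ (κ + 1) := le_self_pow₀ (hH1 k) (by omega)
    have h2 : (B : ℝ) ≤ q k := by
      have := hq k
      exact_mod_cast (by omega : B ≤ q k)
    have h3 := neg_abs_le (Real.log ε)
    linarith
  have hbd : ∀ k, ‖r k - S.x‖ ≤ Real.exp (-(q k : ℝ) ^ (κ + 1)) := fun k ↦ by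
    rw [pi_norm_le_iff_of_nonneg (Real.exp_pos _).le]
    intro s
    have h1 := hrn k s
    rw [Pi.sub_apply, h1]
    exact (hp1 k s).2.le
  have htend : Tendsto r atTop (𝓝 S.x) := by
    rw [tendsto_iff_norm_sub_tendsto_zero]
    have h1 : Tendsto (fun n : ℕ ↦ Real.exp (-(n : ℝ))) atTop (𝓝 0) :=
      Real.tendsto_exp_neg_atTop_nhds_zero.comp tendsto_natCast_atTop_atTop
    refine squeeze_zero (fun _ ↦ norm_nonneg _) (fun k ↦ ?_) h1
    refine (hbd k).trans (Real.exp_le_exp.mpr (neg_le_neg ?_))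
    have h2 : (k : ℝ) ≤ q k := by
      have := hHk k
      exact_mod_cast (by omega : k ≤ q k)
    exact h2.trans (le_self_pow₀ (hH1 k) (by omega))
  refine ⟨q, r, hHk, fun k j ↦ ?_, fun k ↦ (hbd k).trans (Real.exp_le_exp.mpr (neg_le_neg ?_)),
    htend, ?_⟩
  · exact hA (q k) (p k) (le_trans (by omega) (hq k)) (hlt k) j
  · exact pow_le_pow_right₀ (hH1 k) (by omega)
  · have hne' : ∀ i, ¬ ∃ a b c d : ℚ, 0 < a * d - b * c ∧
        S.φ i S.x = ((a : ℂ) * (S.y (S.c i) : ℂ) + b) / ((c : ℂ) * (S.y (S.c i) : ℂ) + d) := by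
      intro i
      rw [c_eq S i]
      exact hne i
    exact ult_ind S.x S.φ S.an_φ S.im_φ (S.nonvan_φ hne' hrel) r htend σ
      (Eventually.of_forall fun k s ↦ by
        rw [hrn]
        exact (hp1 k s).1) (fun C ↦ by
        filter_upwards [eventually_ge_atTop C] with k hk a b hab
        rw [hrn, hrn]
        refine (hp2 k a b hab).le.trans ?_
        exact pow_le_pow_of_le_one (abs_nonneg _) (hle1 k _) (by omega))

end AO

end S_H32_AO_C4

section S_H32_AO_C5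

set_option autoImplicit false
set_option linter.unusedSimpArgs false

open UpperHalfPlane hiding I
open Complex EisensteinSeries ModularForm MatrixGroups Manifold
open scoped Real Topology
open MvPolynomial Filter

namespace AO

open H32 H32.T3 H32.T4

private theorem C5_diff {ι : Type} {m : ℕ} {x : Fin m → ℂ} {V : (Fin m → ℂ) → ι → ℂ}
    (h : ∀ i, DifferentiableAt ℂ (fun s ↦ V s i) x) (G : MvPolynomial ι ℤ) :
    DifferentiableAt ℂ (fun s ↦ aeval (V s) G) x := by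
  induction G using MvPolynomial.induction_on with
  | C c =>
    simp only [MvPolynomial.aeval_C]
    exact differentiableAt_const _
  | add p q hp hq =>
    simp only [map_add]
    exact hp.add hq
  | mul_X p i hp =>
    simp only [map_mul, MvPolynomial.aeval_X]
    exact hp.mul (h i)

private theorem C5_near {m : ℕ} {x : Fin m → ℂ} {f : (Fin m → ℂ) → ℂ}
    (h : DifferentiableAt ℂ f x) : ∃ K : ℝ, 0 < K ∧ ∀ᶠ s in 𝓝 x, ‖f s - f x‖ ≤ K * ‖s - x‖ := by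
  obtain ⟨K, hK0, hK⟩ := h.isBigO_sub.exists_pos
  rw [Asymptotics.IsBigOWith] at hK
  exact ⟨K, hK0, hK⟩

theorem near_WF {m n : ℕ} (S : Orb m n 1) : ∃ K : ℝ, 0 < K ∧ ∀ᶠ s in 𝓝 S.x, ∀ j,
    ‖WF S s j - WF S S.x j‖ ≤ K * ‖s - S.x‖ := by
  choose c hc0 hc using fun j => C5_near (diff_WF S j)
  refine ⟨∑ j, c j + 1, ?_, ?_⟩
  · have : 0 ≤ ∑ j, c j := Finset.sum_nonneg fun j _ => (hc0 j).le
    linarith
  · filter_upwards [eventually_all.2 hc] with s hs j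
    refine (hs j).trans ?_
    refine mul_le_mul_of_nonneg_right ?_ (norm_nonneg _)
    have := Finset.single_le_sum (f := c) (fun i _ => (hc0 i).le) (Finset.mem_univ j)
    linarith

theorem transc_of_meas {J : ℂ} (h : Meas J) : Transcendental ℤ J := by
  rintro ⟨f, hf0, hf⟩
  obtain ⟨κ, Λ0, hm⟩ := h
  have h1 := hm f (Λ0 + f.natDegree + ⌈CZ.nr f⌉₊) hf0 (by omega) (by omega) (by
    have h2 : CZ.nr f ≤ ((Λ0 + f.natDegree + ⌈CZ.nr f⌉₊ : ℕ) : ℝ) := by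
      refine (Nat.le_ceil _).trans ?_
      exact_mod_cast (by omega : ⌈CZ.nr f⌉₊ ≤ Λ0 + f.natDegree + ⌈CZ.nr f⌉₊)
    have h3 := Real.add_one_le_exp ((Λ0 + f.natDegree + ⌈CZ.nr f⌉₊ : ℕ) : ℝ)
    refine le_trans ?_ (h2.trans ((by linarith :
      ((Λ0 + f.natDegree + ⌈CZ.nr f⌉₊ : ℕ) : ℝ) ≤
        Real.exp ((Λ0 + f.natDegree + ⌈CZ.nr f⌉₊ : ℕ) : ℝ))))
    exact le_of_eq rfl)
  rw [hf, norm_zero] at h1
  have := Real.exp_pos (-((Λ0 + f.natDegree + ⌈CZ.nr f⌉₊ : ℕ) : ℝ) ^ κ)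
  linarith

/-- Polynomials in independent variables and a transcendental constant. -/
private theorem C5_key {σ : Type} {J : ℂ} (hJ : Transcendental ℤ J)
    (G : MvPolynomial (σ ⊕ Unit) ℤ)
    (h : aeval (Sum.elim (fun j : σ ↦ (X j : MvPolynomial σ ℂ)) (fun _ : Unit ↦ C J)) G = 0) :
    G = 0 := by
  set φ : MvPolynomial Unit ℤ →+* ℂ :=
    ((aeval (fun _ : Unit ↦ J) : MvPolynomial Unit ℤ →ₐ[ℤ] ℂ) : MvPolynomial Unit ℤ →+* ℂ) with hφ
  have hinj : Function.Injective φ := by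
    have h1 : AlgebraicIndependent ℤ (fun _ : Unit ↦ J) := by
      rw [algebraicIndependent_unique_type_iff]
      exact hJ
    exact h1
  have key : ((aeval (Sum.elim (fun j : σ ↦ (X j : MvPolynomial σ ℂ)) (fun _ : Unit ↦ C J)) :
      MvPolynomial (σ ⊕ Unit) ℤ →ₐ[ℤ] MvPolynomial σ ℂ) : MvPolynomial (σ ⊕ Unit) ℤ →+*
        MvPolynomial σ ℂ) =
      (MvPolynomial.map φ).comp ((sumAlgEquiv ℤ σ Unit : MvPolynomial (σ ⊕ Unit) ℤ →ₐ[ℤ]
        MvPolynomial σ (MvPolynomial Unit ℤ)) : MvPolynomial (σ ⊕ Unit) ℤ →+*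
        MvPolynomial σ (MvPolynomial Unit ℤ)) := by
    apply MvPolynomial.ringHom_ext'
    · exact RingHom.ext_int _ _
    · rintro (j | u)
      · show aeval _ (X (Sum.inl j)) = MvPolynomial.map φ (sumAlgEquiv ℤ σ Unit (X (Sum.inl j)))
        rw [aeval_X, Sum.elim_inl, sumAlgEquiv_X_inl, MvPolynomial.map_X]
      · show aeval _ (X (Sum.inr u)) = MvPolynomial.map φ (sumAlgEquiv ℤ σ Unit (X (Sum.inr u)))
        rw [aeval_X, Sum.elim_inr, sumAlgEquiv_X_inr, MvPolynomial.map_C]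
        congr 1
        show J = aeval (fun _ : Unit ↦ J) (X u)
        rw [aeval_X]
  have h2 : MvPolynomial.map φ (sumAlgEquiv ℤ σ Unit G) = 0 := by
    have h3 := congrArg (fun f => f G) key
    change aeval (Sum.elim (fun j : σ ↦ (X j : MvPolynomial σ ℂ)) (fun _ : Unit ↦ C J)) G =
      MvPolynomial.map φ (sumAlgEquiv ℤ σ Unit G) at h3
    rw [← h3, h]
  have h4 : sumAlgEquiv ℤ σ Unit G = 0 := MvPolynomial.map_injective φ hinj (by rw [h2, map_zero])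
  exact (sumAlgEquiv ℤ σ Unit).injective (by rw [h4, map_zero])

theorem indep1 {m n : ℕ} (S : Orb m n 1) (h4 : E₄ (S.y 0) ≠ 0) (h6 : E₆ (S.y 0) ≠ 0)
    (hM : Meas (jf (S.y 0))) (hS : SHier S.t) (hne : NE0 S) (hrel : NE1 S) :
    AlgebraicIndependent ℚ (Sum.elim (WF S S.x) (fun _ : Unit ↦ jf (S.y 0))) := by
  classical
  have hJt : Transcendental ℤ (jf (S.y 0)) := transc_of_meas hM
  set J := jf (S.y 0) with hJdef
  have : Algebra.IsAlgebraic ℤ ℚ := IsLocalization.isAlgebraic ℚ (nonZeroDivisors ℤ)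
  suffices hZ : AlgebraicIndependent ℤ (Sum.elim (WF S S.x) (fun _ : Unit ↦ J)) from
    hZ.extendScalars ℚ
  rw [algebraicIndependent_iff]
  intro G hG
  -- the function
  set F : (Fin m → ℂ) → ℂ := fun s ↦ aeval (Sum.elim (WF S s) (fun _ : Unit ↦ J)) G with hF
  have hFd : DifferentiableAt ℂ F S.x := by
    refine C5_diff (V := fun s ↦ Sum.elim (WF S s) (fun _ : Unit ↦ J)) ?_ G
    rintro (j | u)
    · exact diff_WF S j
    · exact differentiableAt_const _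
  have hFx : F S.x = 0 := hG
  obtain ⟨K, hK0, hK⟩ := C5_near hFd
  rw [hFx] at hK
  simp only [sub_zero] at hK
  -- the renamed polynomial
  obtain ⟨N, e⟩ : ∃ N : ℕ, Nonempty (((Fin n × Fin 3) ⊕ Fin m) ≃ Fin N) :=
    ⟨_, ⟨Fintype.equivFin _⟩⟩
  obtain ⟨e⟩ := e
  obtain ⟨A1, X0, hNL⟩ := NL J hM (rename (Sum.map e id) G)
  have hren : ∀ s, aeval (Sum.elim (fun a ↦ WF S s (e.symm a)) (fun _ : Unit ↦ J))
      (rename (Sum.map e id) G) = F s := by
    intro s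
    rw [aeval_rename]
    show aeval _ G = aeval _ G
    congr 2
    funext a
    rcases a with a | u
    · show WF S s (e.symm (e a)) = WF S s a
      rw [Equiv.symm_apply_apply]
    · rfl
  obtain ⟨A, hA⟩ := appr_WF S hS hne hrel
  obtain ⟨q, r, hq, hR, hb, hr, hX⟩ := hA ((A + 1) * A1 + 1)
  have hrank := rank_WF S h4 h6 r hr hX
  -- vanishing
  have hlarge : ∀ᶠ k : ℕ in atTop, (1 : ℝ) + K + 1 ≤ (k : ℝ) :=
    tendsto_natCast_atTop_atTop.eventually_ge_atTop _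
  have hv : ∀ᶠ k in atTop, F (r k) = 0 := by
    filter_upwards [hr.eventually hK, hlarge, eventually_ge_atTop X0] with k h1 h2 h3
    by_contra hne0
    have hqk : k + 2 ≤ q k := hq k
    have hq1 : 1 ≤ q k := by omega
    have hXk : X0 ≤ 1 * q k ^ (A + 1) := by
      have h5 : q k ≤ q k ^ (A + 1) := Nat.le_self_pow (by omega) _
      omega
    have hRR : ∀ a : Fin N, RootRel ((1 * q k ^ (A + 1) : ℕ) : ℝ) J (WF S (r k) (e.symm a)) := by
      intro a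
      refine (hR k (e.symm a)).mono ?_
      push_cast
      rw [one_mul]
      exact pow_le_pow_right₀ (by exact_mod_cast hq1) (by omega)
    rcases hNL (1 * q k ^ (A + 1)) (fun a ↦ WF S (r k) (e.symm a)) hXk hRR with h5 | h5
    · rw [hren] at h5
      exact hne0 h5
    · rw [hren] at h5
      have h6' : ‖F (r k)‖ ≤ K * Real.exp (-(q k : ℝ) ^ ((A + 1) * A1 + 1)) :=
        h1.trans (mul_le_mul_of_nonneg_left (hb k) hK0.le)
      have h7 := exp_cmp (L := K) hK0.le (C := 1) (E := A + 1) (κ := A1) (q := q k) le_rfl (by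
        rw [Nat.cast_one, one_pow]
        refine h2.trans ?_
        exact_mod_cast (by omega : k ≤ q k))
      linarith
  -- the polynomial over ℂ
  refine C5_key hJt G ?_
  set H : MvPolynomial ((Fin n × Fin 3) ⊕ Fin m) ℂ :=
    aeval (Sum.elim (fun j : (Fin n × Fin 3) ⊕ Fin m ↦
      (X j : MvPolynomial ((Fin n × Fin 3) ⊕ Fin m) ℂ)) (fun _ : Unit ↦ C J)) G with hH
  have hHev : ∀ s, aeval (WF S s) H = F s := by
    intro s
    have h1 := MvPolynomial.comp_aeval_apply (R := ℤ) (Sum.elim (fun j : (Fin n × Fin 3) ⊕ Fin m ↦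
      (X j : MvPolynomial ((Fin n × Fin 3) ⊕ Fin m) ℂ)) (fun _ : Unit ↦ C J))
      (((aeval (WF S s) : MvPolynomial ((Fin n × Fin 3) ⊕ Fin m) ℂ →ₐ[ℂ] ℂ) :
        MvPolynomial ((Fin n × Fin 3) ⊕ Fin m) ℂ →+* ℂ).toIntAlgHom) G
    refine Eq.trans h1 ?_
    show aeval _ G = aeval _ G
    congr 2
    funext a
    rcases a with a | u
    · show aeval (WF S s) (X a) = WF S s a
      rw [aeval_X]
    · show aeval (WF S s) (C J) = J
      rw [aeval_C]
      rfl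
  refine (algebraicIndependent_iff.mp hrank) H ?_
  rw [aeval_mkU']
  refine mkU_zero_of_ev ?_
  filter_upwards [hv] with k hk
  rw [← hk]
  exact hHev (r k)

end AO

end S_H32_AO_C5

section S_H32_AO_C6

set_option autoImplicit false
set_option linter.unusedSimpArgs false

open UpperHalfPlane hiding I
open Complex EisensteinSeries ModularForm MatrixGroups Manifold
open scoped Real Topology
open MvPolynomial Filter

namespace AO

open H32 H32.T3 H32.T4 CZ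

private theorem C6_num (K : ℝ) (κ q : ℕ) (hq : 1 ≤ q) (hK : K ≤ q) (x : ℝ)
    (hK0 : 0 < K) (hx : x ≤ Real.exp (-(q : ℝ) ^ (κ + 1))) :
    K * x ≤ Real.exp (-(q : ℝ) ^ κ) := by
  have hq1 : (1 : ℝ) ≤ q := by exact_mod_cast hq
  have h1 : (q : ℝ) ≤ Real.exp ((q : ℝ) - 1) := by
    have := Real.add_one_le_exp ((q : ℝ) - 1)
    linarith
  have h2 : K * x ≤ Real.exp ((q : ℝ) - 1) * Real.exp (-(q : ℝ) ^ (κ + 1)) := by
    refine (mul_le_mul_of_nonneg_left hx hK0.le).trans ?_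
    exact mul_le_mul_of_nonneg_right (hK.trans h1) (Real.exp_pos _).le
  refine h2.trans ?_
  rw [← Real.exp_add]
  apply Real.exp_le_exp.2
  have h3 : (1 : ℝ) ≤ (q : ℝ) ^ κ := one_le_pow₀ hq1
  have h4 : (1 : ℝ) * ((q : ℝ) - 1) ≤ (q : ℝ) ^ κ * ((q : ℝ) - 1) :=
    mul_le_mul_of_nonneg_right h3 (by linarith)
  have h5 : (q : ℝ) ^ (κ + 1) = (q : ℝ) ^ κ * q := pow_succ _ _
  rw [h5]
  linarith

private theorem C6_range {ι : Type} {N : ℕ} (e : Fin N ≃ ι) (f : ι → ℂ) (J : ℂ) :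
    Set.range (Fin.append ![J] (fun l ↦ f (e l)) : Fin (1 + N) → ℂ) =
      Set.range (Sum.elim f (fun _ : Unit ↦ J)) := by
  ext z
  constructor
  · rintro ⟨i, rfl⟩
    induction i using Fin.addCases with
    | left a =>
      rw [Fin.append_left]
      refine ⟨Sum.inr (), ?_⟩
      have : a = 0 := Subsingleton.elim _ _
      rw [this]
      rfl
    | right b =>
      rw [Fin.append_right]
      exact ⟨Sum.inl (e b), rfl⟩
  · rintro ⟨i, rfl⟩
    rcases i with i | i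
    · refine ⟨Fin.natAdd 1 (e.symm i), ?_⟩
      rw [Fin.append_right]
      simp
    · refine ⟨Fin.castAdd N 0, ?_⟩
      rw [Fin.append_left]
      rfl

private theorem C6_up {S T : Set ℂ} (x : ℂ)
    (hT : ∀ θ ∈ T, IsAlgebraic (IntermediateField.adjoin ℚ S) θ)
    (hx : IsAlgebraic (IntermediateField.adjoin ℚ T) x) :
    IsAlgebraic (IntermediateField.adjoin ℚ S) x := by
  set L := IntermediateField.adjoin ℚ S with hL
  have hle : IntermediateField.adjoin ℚ T ≤ (algebraicClosure L ℂ).restrictScalars ℚ := by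
    rw [IntermediateField.adjoin_le_iff]
    intro θ hθ
    exact mem_algebraicClosure_iff.2 (hT θ hθ)
  have h1 : IsAlgebraic (algebraicClosure L ℂ) x := by
    have h2 := hx.ringHom_of_comp_eq
      (S := algebraicClosure L ℂ) (B := ℂ)
      ((IntermediateField.inclusion hle : _ →+* ((algebraicClosure L ℂ).restrictScalars ℚ)) :
        IntermediateField.adjoin ℚ T →+* algebraicClosure L ℂ) (RingHom.id ℂ)
      (RingHom.injective _) (by ext z; rfl)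
    exact h2
  exact h1.restrictScalars L

open scoped IntermediateField.algebraAdjoinAdjoin in
private theorem C6_frac {S : Set ℂ} {x : ℂ} (hx : IsAlgebraic (Algebra.adjoin ℚ S) x) :
    IsAlgebraic (IntermediateField.adjoin ℚ S) x :=
  (IsFractionRing.isAlgebraic_iff (Algebra.adjoin ℚ S) (IntermediateField.adjoin ℚ S) ℂ).1 hx

theorem not_all_alg {m n : ℕ} (S : Orb m n 1) (hM : Meas (jf (S.y 0))) (hS : SHier S.t)
    (hne : NE0 S) (hrel : NE1 S) {k : ℕ} (P : Fin k → ℂ) (κ0 : ℝ) (h1 : 1 ≤ κ0) (h2 : κ0 < 2)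
    (hP : ¬ Appr P κ0) :
    ¬ ∀ i, IsAlgebraic (IntermediateField.adjoin ℚ
      (Set.range (Sum.elim (WF S S.x) (fun _ : Unit ↦ jf (S.y 0))))) (P i) := by
  intro halg
  have hJ : Transcendental ℚ (jf (S.y 0)) := fun h ↦
    transc_of_meas hM ((IsFractionRing.isAlgebraic_iff ℤ ℚ ℂ).2 h)
  have h0 : ScAppr ![jf (S.y 0)] κ0 := line_sc _ hJ κ0 h2
  obtain ⟨A, hA⟩ := appr_WF S hS hne hrel
  obtain ⟨K, hK0, hK⟩ := near_WF S
  refine chain P ![jf (S.y 0)] 0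
    (fun l ↦ WF S S.x ((Fintype.equivFin ((Fin n × Fin 3) ⊕ Fin m)).symm l)) κ0 h1 h2.le A hP h0
    ?_ ?_
  · intro κ Q
    obtain ⟨q, r, hq, hroot, hr, hlim, -⟩ := hA (κ + 1)
    obtain ⟨k, hk1, hk2⟩ :=
      ((hlim.eventually hK).and (eventually_ge_atTop (Q + ⌈K⌉₊))).exists
    have hqk := hq k
    refine ⟨q k, fun l ↦ WF S (r k) ((Fintype.equivFin ((Fin n × Fin 3) ⊕ Fin m)).symm l),
      by omega, fun l ↦ hroot k _, fun l ↦ ?_⟩
    refine (hk1 _).trans ?_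
    refine C6_num K κ (q k) (by omega) ?_ _ hK0 (hr k)
    exact (Nat.le_ceil K).trans (by exact_mod_cast (by omega : ⌈K⌉₊ ≤ q k))
  · intro i
    rw [C6_range]
    exact halg i

theorem indep2 {m n : ℕ} (S : Orb m n 1) (h4 : E₄ (S.y 0) ≠ 0) (h6 : E₆ (S.y 0) ≠ 0)
    (hM : Meas (jf (S.y 0))) (hS : SHier S.t) (hne : NE0 S) (hrel : NE1 S) {k : ℕ}
    (P : Fin k → ℂ) (κ0 : ℝ) (h1 : 1 ≤ κ0) (h2 : κ0 < 2) (hP : ¬ Appr P κ0) (θ1 θ2 : ℂ)
    (halg : ∀ i, IsAlgebraic (IntermediateField.adjoin ℚ ({jf (S.y 0), θ1, θ2} : Set ℂ)) (P i)) :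
    ∃ θ : ℂ, (θ = θ1 ∨ θ = θ2) ∧ AlgebraicIndependent ℚ
      (Sum.elim (fun _ : Unit ↦ θ) (Sum.elim (WF S S.x) (fun _ : Unit ↦ jf (S.y 0)))) := by
  have hF := indep1 S h4 h6 hM hS hne hrel
  have hnot := not_all_alg S hM hS hne hrel P κ0 h1 h2 hP
  by_contra hcon
  push Not at hcon
  have key : ∀ θ : ℂ, (θ = θ1 ∨ θ = θ2) → IsAlgebraic (IntermediateField.adjoin ℚ
      (Set.range (Sum.elim (WF S S.x) (fun _ : Unit ↦ jf (S.y 0))))) θ := by
    intro θ hθ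
    by_contra ht
    refine hcon θ hθ ?_
    rw [AlgebraicIndependent.sumElim_iff]
    refine ⟨hF, ?_⟩
    rw [algebraicIndependent_unique_type_iff]
    exact fun h ↦ ht (C6_frac h)
  refine hnot fun i ↦ C6_up (P i) ?_ (halg i)
  intro θ hθ
  rcases hθ with h | h | h
  · rw [h]
    have hmem : jf (S.y 0) ∈ IntermediateField.adjoin ℚ
        (Set.range (Sum.elim (WF S S.x) (fun _ : Unit ↦ jf (S.y 0)))) :=
      IntermediateField.subset_adjoin _ _ ⟨Sum.inr (), rfl⟩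
    exact isAlgebraic_algebraMap (⟨_, hmem⟩ : IntermediateField.adjoin ℚ
      (Set.range (Sum.elim (WF S S.x) (fun _ : Unit ↦ jf (S.y 0)))))
  · exact key θ (Or.inl h)
  · exact key θ (Or.inr h)

end AO

end S_H32_AO_C6

section S_H32_AO_F1

set_option autoImplicit false
set_option linter.unusedSimpArgs false

open UpperHalfPlane hiding I
open Complex EisensteinSeries ModularForm MatrixGroups Manifold
open scoped Real Topology
open MvPolynomial Filter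

namespace AO

open H32 H32.T3 H32.T4

lemma F1_psi {Jv J1v J2v A2 B C : ℂ} (hB : B ≠ 0) (hC : C ≠ 0) (hD : B ^ 3 - C ^ 2 ≠ 0)
    (hJ : Jv = 1728 * B ^ 3 / (B ^ 3 - C ^ 2))
    (hJ1 : J1v = -1728 * (2 * π * Complex.I) * (B ^ 2 * C) / (B ^ 3 - C ^ 2))
    (hJ2 : J2v = -1728 * (2 * π * Complex.I) ^ 2 * ((1 / 6) * A2 * B ^ 2 * C - (2 / 3) * B * C ^ 2 -
      (1 / 2) * B ^ 4) / (B ^ 3 - C ^ 2)) :
    2 * π * Complex.I * C / B = -J1v * Jv⁻¹ ∧
    A2 * B / C = ((6 : ℚ) : ℂ) * (((2 / 3 : ℚ) : ℂ) + ((1 / 2 : ℚ) : ℂ) * (Jv *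
      (Jv - ((1728 : ℚ) : ℂ))⁻¹) - J2v * (Jv * (J1v * Jv⁻¹) ^ 2)⁻¹) := by
  have hpi : (π : ℂ) ≠ 0 := by exact_mod_cast Real.pi_ne_zero
  have hI0 : (Complex.I : ℂ) ≠ 0 := Complex.I_ne_zero
  constructor
  · rw [hJ, hJ1]
    field_simp
  · have e1 : Jv - ((1728 : ℚ) : ℂ) = 1728 * C ^ 2 / (B ^ 3 - C ^ 2) := by
      rw [hJ]
      push_cast
      field_simp
      ring
    rw [e1, hJ, hJ1, hJ2]
    push_cast
    field_simp
    ring

lemma F1_Q (D : Subalgebra ℚ ℂ) (q : ℚ) : IsAlgebraic D (q : ℂ) :=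
  (isAlgebraic_algebraMap (R := ℚ) (A := ℂ) q).extendScalars (algebraMap ℚ D).injective

lemma F1_wp {E4 E6 J : ℂ → ℂ}
    (h4 : ∀ τ : ℂ, E4 τ = 1 + 240 * ∑' m : ℕ, ((ArithmeticFunction.sigma 3 (m + 1) : ℕ) : ℂ) *
      Complex.exp (2 * (Real.pi : ℂ) * Complex.I * ((m : ℂ) + 1) * τ))
    (h6 : ∀ τ : ℂ, E6 τ = 1 - 504 * ∑' m : ℕ, ((ArithmeticFunction.sigma 5 (m + 1) : ℕ) : ℂ) *
      Complex.exp (2 * (Real.pi : ℂ) * Complex.I * ((m : ℂ) + 1) * τ))
    (hJ : ∀ τ : ℂ, J τ = 1728 * E4 τ ^ 3 / (E4 τ ^ 3 - E6 τ ^ 2)) (D : Subalgebra ℚ ℂ)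
    (w : ℂ) (h0 : 0 < w.im) (hB : e4 w ≠ 0) (hC : e6 w ≠ 0) (aJ : IsAlgebraic D (J w))
    (aJ1 : IsAlgebraic D (deriv J w)) (aJ2 : IsAlgebraic D (deriv (deriv J) w)) :
    IsAlgebraic D (Wf w) ∧ IsAlgebraic D (ps w) := by
  obtain ⟨v0, v1, v2⟩ := J_values h4 h6 hJ h0
  obtain ⟨f1, f2⟩ := F1_psi hB hC disc_ne v0 v1 v2
  constructor
  · have e1 : Wf w = -deriv J w * (J w)⁻¹ := f1
    rw [e1]
    exact aJ1.neg.mul aJ.inv
  · have e1 : ps w = ((6 : ℚ) : ℂ) * (((2 / 3 : ℚ) : ℂ) + ((1 / 2 : ℚ) : ℂ) * (J w *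
      (J w - ((1728 : ℚ) : ℂ))⁻¹) - deriv (deriv J) w *
        (J w * (deriv J w * (J w)⁻¹) ^ 2)⁻¹) := f2
    rw [e1]
    exact (F1_Q D _).mul (((F1_Q D _).add ((F1_Q D _).mul (aJ.mul (aJ.sub (F1_Q D _)).inv))).sub
      (aJ2.mul (aJ.mul ((aJ1.mul aJ.inv).pow 2)).inv))

lemma F1_poly {m : ℕ} (D : Subalgebra ℚ ℂ) (x : Fin m → ℂ) (hD : ∀ s, IsAlgebraic D (x s))
    (p : MvPolynomial (Fin m) ℤ) : IsAlgebraic D (MvPolynomial.aeval x p) := by
  induction p using MvPolynomial.induction_on with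
  | C c =>
    rw [MvPolynomial.aeval_C]
    have : algebraMap ℤ ℂ c = algebraMap ℚ ℂ (c : ℚ) := by simp
    rw [this]
    exact (isAlgebraic_algebraMap (R := ℚ) (A := ℂ) _).extendScalars
      (algebraMap ℚ D).injective
  | add p q hp hq =>
    rw [map_add]
    exact hp.add hq
  | mul_X p s hp =>
    rw [map_mul, MvPolynomial.aeval_X]
    exact hp.mul (hD s)

lemma F1_quot (z y : ℂ) (k1 : e4 z ≠ 0) (k2 : e6 z ≠ 0) (k3 : e4 y ≠ 0) (k4 : e6 y ≠ 0) :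
    e6 z / e4 z * (e4 y / e6 y) = Wf z * (Wf y)⁻¹ := by
  have hpi : (π : ℂ) ≠ 0 := by exact_mod_cast Real.pi_ne_zero
  have hI := Complex.I_ne_zero
  rw [Wf, Wf]
  field_simp

lemma F1_r0 {A4 A6 B4 B6 Δ d h : ℂ} (hA4 : A4 ≠ 0) (hA6 : A6 ≠ 0) (hB4 : B4 ≠ 0) (hB6 : B6 ≠ 0)
    (hΔ : Δ ≠ 0) (hd : d ≠ 0) (hh : h ≠ 0) :
    (d / h) ^ 4 * A4 * B4 ^ 2 / Δ = (A4 ^ 3 / A6 ^ 2 * ((B4 ^ 3 / Δ) ^ 2 * (B6 ^ 2 / Δ)⁻¹)) *
      ((d * h⁻¹) ^ 2 * (A6 / A4 * (B4 / B6)) * (B6 ^ 2 / Δ * (B4 ^ 3 / Δ)⁻¹)) ^ 2 := by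
  field_simp

lemma F1_r1 {A4 A6 B4 B6 Δ d h : ℂ} (hA4 : A4 ≠ 0) (hA6 : A6 ≠ 0) (hB4 : B4 ≠ 0) (hB6 : B6 ≠ 0)
    (hΔ : Δ ≠ 0) (hd : d ≠ 0) (hh : h ≠ 0) :
    (d / h) ^ 6 * A6 * B6 / Δ = ((d / h) ^ 4 * A4 * B4 ^ 2 / Δ) *
      ((d * h⁻¹) ^ 2 * (A6 / A4 * (B4 / B6)) * (B6 ^ 2 / Δ * (B4 ^ 3 / Δ)⁻¹)) := by
  field_simp

lemma F1_r2 {A2 A4 A6 B2 B4 B6 Δ d h c p i : ℂ} (hA4 : A4 ≠ 0) (hA6 : A6 ≠ 0) (hB4 : B4 ≠ 0)
    (hB6 : B6 ≠ 0) (hΔ : Δ ≠ 0) (hd : d ≠ 0) (hh : h ≠ 0) (hp : p ≠ 0) (hi : i ≠ 0)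
    (hi2 : i ^ 2 = -1) :
    ((d / h) ^ 2 * A2 - d * B2 + 6 * i * d * c / (p * h)) * (B4 * B6) / Δ =
      (B6 ^ 2 / Δ) * ((d * h⁻¹) ^ 2 * (A2 * A4 / A6 * (A6 / A4 * (B4 / B6))) -
        d * (B2 * B4 / B6) - 12 * (d * c * (h * (2 * p * i * B6 / B4))⁻¹)) := by
  have e : (h * (2 * p * i * B6 / B4))⁻¹ = -(i * B4) / (2 * p * h * B6) := by
    rw [inv_eq_iff_eq_inv, inv_div, eq_div_iff (by
      apply neg_ne_zero.2
      exact mul_ne_zero hi hB4)]
    field_simp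
    linear_combination (-1 : ℂ) * hi2
  rw [e]
  field_simp
  ring

theorem alg_WF {E4 E6 J : ℂ → ℂ}
    (h4 : ∀ τ : ℂ, E4 τ = 1 + 240 * ∑' m : ℕ, ((ArithmeticFunction.sigma 3 (m + 1) : ℕ) : ℂ) *
      Complex.exp (2 * (Real.pi : ℂ) * Complex.I * ((m : ℂ) + 1) * τ))
    (h6 : ∀ τ : ℂ, E6 τ = 1 - 504 * ∑' m : ℕ, ((ArithmeticFunction.sigma 5 (m + 1) : ℕ) : ℂ) *
      Complex.exp (2 * (Real.pi : ℂ) * Complex.I * ((m : ℂ) + 1) * τ))
    (hJ : ∀ τ : ℂ, J τ = 1728 * E4 τ ^ 3 / (E4 τ ^ 3 - E6 τ ^ 2))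
    {m n : ℕ} (S : Orb m n 1) (y4 : E₄ (S.y 0) ≠ 0) (y6 : E₆ (S.y 0) ≠ 0) (i : Fin n)
    (z4 : e4 (S.φ i S.x) ≠ 0) (z6 : e6 (S.φ i S.x) ≠ 0) (D : Subalgebra ℚ ℂ)
    (ax : ∀ s, IsAlgebraic D (S.x s)) (ay : IsAlgebraic D (S.y 0 : ℂ))
    (ay0 : IsAlgebraic D (J (S.y 0))) (ay1 : IsAlgebraic D (deriv J (S.y 0)))
    (ay2 : IsAlgebraic D (deriv (deriv J) (S.y 0)))
    (az0 : IsAlgebraic D (J (S.φ i S.x))) (az1 : IsAlgebraic D (deriv J (S.φ i S.x)))
    (az2 : IsAlgebraic D (deriv (deriv J) (S.φ i S.x))) (l : Fin 3) :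
    IsAlgebraic D (RW S S.x (i, l)) := by
  have g0 : 0 < (S.y 0 : ℂ).im := (S.y 0).im_pos
  have g4 : e4 (S.y 0 : ℂ) ≠ 0 := by
    rw [e4, ofComplex_apply]
    exact y4
  have g6 : e6 (S.y 0 : ℂ) ≠ 0 := by
    rw [e6, ofComplex_apply]
    exact y6
  have hΔ : discriminant (S.y 0) ≠ 0 := discriminant_ne_zero _
  have hd : aeval S.x (S.dt i) ≠ 0 := S.dt_x i
  have hη : S.den i S.x ≠ 0 := S.den_x i
  obtain ⟨aYW, aYp⟩ := F1_wp h4 h6 hJ D _ g0 g4 g6 ay0 ay1 ay2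
  obtain ⟨aZW, aZp⟩ := F1_wp h4 h6 hJ D _ (S.im_φ i) z4 z6 az0 az1 az2
  have aP := F1_poly D S.x ax
  have ad : IsAlgebraic D (aeval S.x (S.dt i)) := aP _
  have aη : IsAlgebraic D (S.den i S.x) := by
    have e : S.den i S.x = aeval S.x (S.pC i) * (S.y 0 : ℂ) + aeval S.x (S.pD i) := by
      unfold Orb.den
      rw [c_eq]
    rw [e]
    exact ((aP _).mul ay).add (aP _)
  -- the values of `j`
  have hj : J (S.y 0) = e4 (S.y 0 : ℂ) ^ 3 / discriminant (S.y 0) := by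
    rw [(J_values h4 h6 hJ g0).1]
    have h1 := jc_coe (S.y 0)
    rw [jc] at h1
    rw [h1, jf, e4, ofComplex_apply]
  have hj' : J (S.y 0) - ((1728 : ℚ) : ℂ) = e6 (S.y 0 : ℂ) ^ 2 / discriminant (S.y 0) := by
    have h1 := jf_sub (S.y 0)
    rw [eq_div_iff hΔ, e6, ofComplex_apply, ← h1]
    congr 1
    rw [hj, jf, e4, ofComplex_apply]
    norm_num
  have hz : e4 (S.φ i S.x) ^ 3 / e6 (S.φ i S.x) ^ 2 =
      J (S.φ i S.x) * (J (S.φ i S.x) - ((1728 : ℚ) : ℂ))⁻¹ := by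
    have hdz := disc_ne (w := S.φ i S.x)
    have e1 : J (S.φ i S.x) - ((1728 : ℚ) : ℂ) = 1728 * e6 (S.φ i S.x) ^ 2 /
        (e4 (S.φ i S.x) ^ 3 - e6 (S.φ i S.x) ^ 2) := by
      rw [(J_values h4 h6 hJ (S.im_φ i)).1]
      push_cast
      field_simp
      ring
    rw [e1, (J_values h4 h6 hJ (S.im_φ i)).1]
    field_simp
  have aq : IsAlgebraic D (e4 (S.φ i S.x) ^ 3 / e6 (S.φ i S.x) ^ 2) := by
    rw [hz]
    exact az0.mul (az0.sub (F1_Q D _)).inv
  have aj : IsAlgebraic D (e4 (S.y 0 : ℂ) ^ 3 / discriminant (S.y 0)) := by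
    rw [← hj]
    exact ay0
  have aj' : IsAlgebraic D (e6 (S.y 0 : ℂ) ^ 2 / discriminant (S.y 0)) := by
    rw [← hj']
    exact ay0.sub (F1_Q D _)
  have aw : IsAlgebraic D (e6 (S.φ i S.x) / e4 (S.φ i S.x) *
      (e4 (S.y 0 : ℂ) / e6 (S.y 0 : ℂ))) := by
    rw [F1_quot _ _ z4 z6 g4 g6]
    exact aZW.mul aYW.inv
  have aPP : IsAlgebraic D ((aeval S.x (S.dt i) * (S.den i S.x)⁻¹) ^ 2 *
      (e6 (S.φ i S.x) / e4 (S.φ i S.x) * (e4 (S.y 0 : ℂ) / e6 (S.y 0 : ℂ))) *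
      (e6 (S.y 0 : ℂ) ^ 2 / discriminant (S.y 0) *
        (e4 (S.y 0 : ℂ) ^ 3 / discriminant (S.y 0))⁻¹)) :=
    (((ad.mul aη.inv).pow 2).mul aw).mul (aj'.mul aj.inv)
  have aR0 : IsAlgebraic D ((aeval S.x (S.dt i) / S.den i S.x) ^ 4 * e4 (S.φ i S.x) *
      e4 (S.y 0 : ℂ) ^ 2 / discriminant (S.y 0)) := by
    rw [F1_r0 z4 z6 g4 g6 hΔ hd hη]
    exact (aq.mul ((aj.pow 2).mul aj'.inv)).mul (aPP.pow 2)
  fin_cases l
  · exact aR0
  · change IsAlgebraic D ((aeval S.x (S.dt i) / S.den i S.x) ^ 6 * e6 (S.φ i S.x) *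
      e6 (S.y 0 : ℂ) / discriminant (S.y 0))
    rw [F1_r1 z4 z6 g4 g6 hΔ hd hη]
    exact aR0.mul aPP
  · change IsAlgebraic D (((aeval S.x (S.dt i) / S.den i S.x) ^ 2 * e2 (S.φ i S.x) -
      aeval S.x (S.dt i) * e2 (S.y 0 : ℂ) +
        6 * Complex.I * aeval S.x (S.dt i) * aeval S.x (S.pC i) / (π * S.den i S.x)) *
      (e4 (S.y 0 : ℂ) * e6 (S.y 0 : ℂ)) / discriminant (S.y 0))
    have hpi : (π : ℂ) ≠ 0 := by exact_mod_cast Real.pi_ne_zero
    rw [F1_r2 z4 z6 g4 g6 hΔ hd hη hpi Complex.I_ne_zero Complex.I_sq]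
    have e12 : (12 : ℂ) = ((12 : ℚ) : ℂ) := by norm_num
    rw [e12]
    exact aj'.mul (((((ad.mul aη.inv).pow 2).mul (aZp.mul aw)).sub (ad.mul aYp)).sub
      ((F1_Q D _).mul ((ad.mul (aP _)).mul (aη.mul aYW).inv)))

end AO

end S_H32_AO_F1

section S_H32_AO_F2

set_option autoImplicit false
set_option linter.unusedSimpArgs false

open UpperHalfPlane hiding I
open Complex EisensteinSeries ModularForm MatrixGroups Manifold
open scoped Real Topology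
open MvPolynomial Filter

namespace AO

open H32 H32.T3 H32.T4

/-- The points. -/
noncomputable def pts {m n : ℕ} (S : Orb m n 1) (B : Finset (Fin 1)) : Fin n ⊕ B → ℂ :=
  Sum.elim (fun i ↦ S.φ i S.x) (fun _ ↦ (S.y 0 : ℂ))

theorem final_count {E4 E6 J : ℂ → ℂ}
    (h4 : ∀ τ : ℂ, E4 τ = 1 + 240 * ∑' m : ℕ, ((ArithmeticFunction.sigma 3 (m + 1) : ℕ) : ℂ) *
      Complex.exp (2 * (Real.pi : ℂ) * Complex.I * ((m : ℂ) + 1) * τ))
    (h6 : ∀ τ : ℂ, E6 τ = 1 - 504 * ∑' m : ℕ, ((ArithmeticFunction.sigma 5 (m + 1) : ℕ) : ℂ) *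
      Complex.exp (2 * (Real.pi : ℂ) * Complex.I * ((m : ℂ) + 1) * τ))
    (hJ : ∀ τ : ℂ, J τ = 1728 * E4 τ ^ 3 / (E4 τ ^ 3 - E6 τ ^ 2))
    {m n : ℕ} (S : Orb m n 1) (y4 : E₄ (S.y 0) ≠ 0) (y6 : E₆ (S.y 0) ≠ 0)
    (hya : IsAlgebraic ℚ (S.y 0 : ℂ)) (θ : ℂ)
    (hθ : θ = deriv J (S.y 0) ∨ θ = deriv (deriv J) (S.y 0))
    (hind : AlgebraicIndependent ℚ
      (Sum.elim (fun _ : Unit ↦ θ) (Sum.elim (WF S S.x) (fun _ : Unit ↦ jf (S.y 0)))))
    (B : Finset (Fin 1)) {ρ : ℕ} (g : Fin ρ → Fin n ⊕ B)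
    (hg : AlgebraicIndependent ℚ (fun k ↦ pts S B (g k))) :
    ∃ f : Fin (3 * n + 3 * B.card + ρ - 1) → (Fin n ⊕ B) × Fin 4, AlgebraicIndependent ℚ (fun k ↦
      (![pts S B (f k).1, J (pts S B (f k).1), deriv J (pts S B (f k).1),
        deriv (deriv J) (pts S B (f k).1)] : Fin 4 → ℂ) (f k).2) := by
  classical
  set M := AlgebraicIndependent.matroid ℚ ℂ with hM
  set S4 : (Fin n ⊕ B) × Fin 4 → ℂ := fun u ↦
    (![pts S B u.1, J (pts S B u.1), deriv J (pts S B u.1), deriv (deriv J) (pts S B u.1)] :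
      Fin 4 → ℂ) u.2 with hS4
  set W3 : Set ℂ := if B = ∅ then
    ({J (S.y 0), deriv J (S.y 0), deriv (deriv J) (S.y 0)} : Set ℂ) else ∅ with hW3
  set T : Set ℂ := Set.range S.x ∪ W3 with hT
  set D : Subalgebra ℚ ℂ := Algebra.adjoin ℚ (Set.range S4 ∪ T) with hD
  have hgen : ∀ v ∈ Set.range S4 ∪ T, IsAlgebraic D v := by
    intro v hv
    exact isAlgebraic_algebraMap (⟨v, Algebra.subset_adjoin hv⟩ : D)
  have aalg : ∀ v : ℂ, IsAlgebraic ℚ v → IsAlgebraic D v := fun v hv ↦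
    hv.extendScalars (algebraMap ℚ D).injective
  have ay : IsAlgebraic D (S.y 0 : ℂ) := aalg _ hya
  have hBc : B = ∅ ∨ (0 : Fin 1) ∈ B := by
    rcases B.eq_empty_or_nonempty with h | ⟨c, hc⟩
    · exact Or.inl h
    · right
      rwa [Subsingleton.elim c 0] at hc
  have hW3e : B = ∅ → W3 = {J (S.y 0), deriv J (S.y 0), deriv (deriv J) (S.y 0)} := by
    intro h
    rw [hW3, if_pos h]
  have ayJ : IsAlgebraic D (J (S.y 0)) ∧ IsAlgebraic D (deriv J (S.y 0)) ∧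
      IsAlgebraic D (deriv (deriv J) (S.y 0)) := by
    rcases hBc with h | h
    · have hsub : W3 ⊆ Set.range S4 ∪ T := fun v hv ↦ Or.inr (Or.inr hv)
      refine ⟨hgen _ (hsub ?_), hgen _ (hsub ?_), hgen _ (hsub ?_)⟩
      · rw [hW3e h]
        simp
      · rw [hW3e h]
        simp
      · rw [hW3e h]
        simp
    · exact ⟨hgen _ (Or.inl ⟨(Sum.inr ⟨0, h⟩, 1), rfl⟩), hgen _ (Or.inl ⟨(Sum.inr ⟨0, h⟩, 2), rfl⟩),
        hgen _ (Or.inl ⟨(Sum.inr ⟨0, h⟩, 3), rfl⟩)⟩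
  have hφ : ∀ i, e4 (S.φ i S.x) ≠ 0 ∧ e6 (S.φ i S.x) ≠ 0 := by
    intro i
    constructor
    · intro h0
      have h1 : RW S S.x (i, 0) ≠ 0 := hind.ne_zero (Sum.inr (Sum.inl (Sum.inl (i, 0))))
      apply h1
      simp [RW, h0]
    · intro h0
      have h1 : RW S S.x (i, 1) ≠ 0 := hind.ne_zero (Sum.inr (Sum.inl (Sum.inl (i, 1))))
      apply h1
      simp [RW, h0]
  have ax : ∀ s, IsAlgebraic D (S.x s) := fun s ↦ hgen _ (Or.inr (Or.inl ⟨s, rfl⟩))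
  have aRW : ∀ p, IsAlgebraic D (RW S S.x p) := by
    rintro ⟨i, l⟩
    exact alg_WF h4 h6 hJ S y4 y6 i (hφ i).1 (hφ i).2 D ax ay ayJ.1 ayJ.2.1 ayJ.2.2
      (hgen _ (Or.inl ⟨(Sum.inl i, 1), rfl⟩)) (hgen _ (Or.inl ⟨(Sum.inl i, 2), rfl⟩))
      (hgen _ (Or.inl ⟨(Sum.inl i, 3), rfl⟩)) l
  -- the rank of the numbers
  set F : Unit ⊕ (((Fin n × Fin 3) ⊕ Fin m) ⊕ Unit) → ℂ :=
    Sum.elim (fun _ : Unit ↦ θ) (Sum.elim (WF S S.x) (fun _ : Unit ↦ jf (S.y 0))) with hF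
  have hindM : M.Indep (Set.range F) := by
    rw [hM, AlgebraicIndependent.matroid_indep_iff]
    exact hind.to_subtype_range
  have hcardI : Fintype.card (Unit ⊕ (((Fin n × Fin 3) ⊕ Fin m) ⊕ Unit)) = 3 * n + m + 2 := by
    simp only [Fintype.card_sum, Fintype.card_prod, Fintype.card_fin, Fintype.card_unit]
    ring
  have hcard : (Set.range F).encard = ((3 * n + m + 2 : ℕ) : ℕ∞) := by
    rw [← Set.image_univ, hind.injective.encard_image, Set.encard_univ,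
      ENat.card_eq_coe_fintype_card, hcardI]
  have hsub : Set.range F ⊆ M.closure (Set.range S4 ∪ T) := by
    rw [hM, AlgebraicIndependent.matroid_closure_eq]
    rintro _ ⟨u, rfl⟩
    change IsAlgebraic D (F u)
    rcases u with u | (u | s) | u
    · change IsAlgebraic D θ
      rcases hθ with h | h
      · rw [h]
        exact ayJ.2.1
      · rw [h]
        exact ayJ.2.2
    · exact aRW u
    · exact ax s
    · change IsAlgebraic D (jf (S.y 0))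
      have h1 : jf (S.y 0) = J (S.y 0) := by
        rw [← jc_coe]
        exact (J_values h4 h6 hJ (S.y 0).im_pos).1.symm
      rw [h1]
      exact ayJ.1
  have h1 : ((3 * n + m + 2 : ℕ) : ℕ∞) ≤ M.eRk (Set.range S4 ∪ T) := by
    rw [← M.eRk_closure_eq, ← hcard]
    exact hindM.encard_le_eRk_of_subset hsub
  -- the rank of the points
  set Z : Set ℂ := Set.range (fun u : Fin n ⊕ B ↦ S4 (u, 0)) with hZ
  have hY : M.Indep (Set.range (fun k ↦ S4 (g k, 0))) := by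
    rw [hM, AlgebraicIndependent.matroid_indep_iff]
    exact (show AlgebraicIndependent ℚ (fun k ↦ S4 (g k, 0)) from hg).to_subtype_range
  have hYcard : (Set.range (fun k ↦ S4 (g k, 0))).encard = (ρ : ℕ) := by
    rw [← Set.image_univ, (show AlgebraicIndependent ℚ (fun k ↦ S4 (g k, 0)) from
      hg).injective.encard_image, Set.encard_univ]
    simp
  have h2 : (ρ : ℕ∞) ≤ M.eRk (Set.range S4 ∩ (Z ∪ T)) := by
    rw [← hYcard]
    refine hY.encard_le_eRk_of_subset ?_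
    rintro _ ⟨k, rfl⟩
    exact ⟨⟨(g k, 0), rfl⟩, Or.inl ⟨g k, rfl⟩⟩
  have aP0 : ∀ (D' : Subalgebra ℚ ℂ) (_ : ∀ s, IsAlgebraic D' (S.x s))
      (p : MvPolynomial (Fin m) ℤ), IsAlgebraic D' (MvPolynomial.aeval S.x p) := by
    intro D' hD' p
    induction p using MvPolynomial.induction_on with
    | C c =>
      rw [MvPolynomial.aeval_C]
      have : algebraMap ℤ ℂ c = algebraMap ℚ ℂ (c : ℚ) := by simp
      rw [this]
      exact (isAlgebraic_algebraMap (R := ℚ) (A := ℂ) _).extendScalars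
        (algebraMap ℚ D').injective
    | add p q hp hq =>
      rw [map_add]
      exact hp.add hq
    | mul_X p s hp =>
      rw [map_mul, MvPolynomial.aeval_X]
      exact hp.mul (hD' s)
  have hZT : Z ⊆ M.closure T := by
    rw [hM, AlgebraicIndependent.matroid_closure_eq]
    rintro _ ⟨u, rfl⟩
    set DT : Subalgebra ℚ ℂ := Algebra.adjoin ℚ T with hDT
    have hgT : ∀ v ∈ T, IsAlgebraic DT v := by
      intro v hv
      exact isAlgebraic_algebraMap (⟨v, Algebra.subset_adjoin hv⟩ : DT)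
    have ayT : ∀ c, IsAlgebraic DT (S.y c : ℂ) := by
      intro c
      rw [Subsingleton.elim c 0]
      exact hya.extendScalars (algebraMap ℚ DT).injective
    have aPT := aP0 DT (fun s ↦ hgT _ (Or.inl ⟨s, rfl⟩))
    change IsAlgebraic DT (S4 (u, 0))
    rcases u with i | c
    · change IsAlgebraic DT (S.φ i S.x)
      rw [Orb.φ, mob, div_eq_mul_inv]
      exact (((aPT _).mul (ayT _)).add (aPT _)).mul (((aPT _).mul (ayT _)).add (aPT _)).inv
    · exact ayT 0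
  have hBle : B.card ≤ 1 := by
    have := Finset.card_le_univ B
    simpa using this
  have hW3r : M.eRk W3 ≤ ((3 * (1 - B.card) : ℕ) : ℕ∞) := by
    refine (M.eRk_le_encard _).trans ?_
    rcases hBc with h | h
    · rw [hW3e h, h, Finset.card_empty]
      calc ({J (S.y 0), deriv J (S.y 0), deriv (deriv J) (S.y 0)} : Set ℂ).encard
          ≤ ({deriv J (S.y 0), deriv (deriv J) (S.y 0)} : Set ℂ).encard + 1 :=
            Set.encard_insert_le _ _
        _ ≤ (({deriv (deriv J) (S.y 0)} : Set ℂ).encard + 1) + 1 := by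
            gcongr
            exact Set.encard_insert_le _ _
        _ = _ := by
            rw [Set.encard_singleton]
            norm_num
    · have hne : B ≠ ∅ := Finset.nonempty_iff_ne_empty.1 ⟨0, h⟩
      rw [hW3, if_neg hne, Set.encard_empty]
      exact bot_le
  have hTr : M.eRk T ≤ ((m + 3 * (1 - B.card) : ℕ) : ℕ∞) := by
    calc M.eRk T ≤ M.eRk (Set.range S.x) + M.eRk W3 := M.eRk_union_le_eRk_add_eRk _ _
      _ ≤ (m : ℕ∞) + ((3 * (1 - B.card) : ℕ) : ℕ∞) := by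
        refine add_le_add ?_ hW3r
        calc M.eRk (Set.range S.x) ≤ (Set.range S.x).encard := M.eRk_le_encard _
          _ ≤ (Set.univ : Set (Fin m)).encard := by
            rw [← Set.image_univ]
            exact Set.encard_image_le _ _
          _ = m := by simp
      _ = _ := by push_cast; rfl
  have h3 : M.eRk (Z ∪ T) ≤ ((m + 3 * (1 - B.card) : ℕ) : ℕ∞) := by
    calc M.eRk (Z ∪ T) ≤ M.eRk (M.closure T) := by
          refine M.eRk_mono (Set.union_subset hZT ?_)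
          refine M.subset_closure _ ?_
          rw [hM]
          exact Set.subset_univ _
      _ = M.eRk T := M.eRk_closure_eq _
      _ ≤ _ := hTr
  have h5 := M.eRk_submod (Set.range S4) (Z ∪ T)
  have h7 : M.eRk (Set.range S4 ∪ T) ≤ M.eRk (Set.range S4 ∪ (Z ∪ T)) :=
    M.eRk_mono (Set.union_subset_union_right _ Set.subset_union_right)
  have h8 : (ρ : ℕ∞) + ((3 * n + m + 2 : ℕ) : ℕ∞) ≤
      M.eRk (Set.range S4) + ((m + 3 * (1 - B.card) : ℕ) : ℕ∞) :=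
    (add_le_add h2 (h1.trans h7)).trans (h5.trans (add_le_add le_rfl h3))
  obtain ⟨B', hB'⟩ := M.exists_isBasis (Set.range S4) (by rw [hM]; exact Set.subset_univ _)
  have hBsub : B' ⊆ Set.range S4 := hB'.subset
  have hBfin : B'.Finite := (Set.finite_range S4).subset hBsub
  rw [← hB'.encard_eq_eRk] at h8
  refine extract_indep' S4 (B := B') ?_ hBsub ?_
  · have := hB'.indep
    rw [hM, AlgebraicIndependent.matroid_indep_iff] at this
    exact this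
  · rw [hBfin.encard_eq_coe_toFinset_card] at h8 ⊢
    have h9 : ρ + (3 * n + m + 2) ≤ hBfin.toFinset.card + (m + 3 * (1 - B.card)) := by
      exact_mod_cast h8
    have h10 : 3 * n + 3 * B.card + ρ - 1 ≤ hBfin.toFinset.card := by omega
    exact_mod_cast h10

end AO

end S_H32_AO_F2

section S_H32_AO_F5

set_option autoImplicit false
set_option linter.unusedSimpArgs false

open UpperHalfPlane hiding I
open Complex EisensteinSeries ModularForm MatrixGroups Manifold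
open scoped Real Topology
open MvPolynomial Filter

namespace AO

open H32 H32.T3 H32.T4

private lemma F5_lip {m : ℕ} (t : Fin m → ℝ) (P : MvPolynomial (Fin m) ℤ) :
    ∃ K : ℝ, ∀ᶠ u in 𝓝 t, |(aeval u P : ℝ) - aeval t P| ≤ K * ‖u - t‖ := by
  have han : AnalyticAt ℝ (fun s : Fin m → ℝ ↦ (aeval s P : ℝ)) t :=
    AnalyticAt.aeval_mvPolynomial (𝕜 := ℝ) (f := fun s : Fin m → ℝ ↦ s)
      (fun i ↦ (ContinuousLinearMap.proj (R := ℝ) (φ := fun _ : Fin m ↦ ℝ) i).analyticAt t) P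
  have h1 := han.differentiableAt.hasFDerivAt.isBigO_sub
  obtain ⟨K, hK⟩ := h1.bound
  refine ⟨K, ?_⟩
  filter_upwards [hK] with u hu
  rw [Real.norm_eq_abs] at hu
  exact hu

private lemma F5_nv {m : ℕ} (x : Fin m → ℂ) {P : MvPolynomial (Fin m) ℤ} (hP : P ≠ 0) :
    ¬ ∀ᶠ s in 𝓝 x, aeval s P = (0 : ℂ) := by
  intro h
  obtain ⟨ε, hε, hb⟩ := Metric.eventually_nhds_iff_ball.mp h
  have hinf : ∀ i : Fin m, (Metric.ball (x i) ε).Infinite := fun i ↦
    infinite_of_mem_nhds (x i) (Metric.ball_mem_nhds (x i) hε)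
  have h0 : MvPolynomial.map (Int.castRingHom ℂ) P = 0 := by
    refine MvPolynomial.funext_set (fun i ↦ Metric.ball (x i) ε) hinf fun y hy ↦ ?_
    have hy1 : y ∈ Metric.ball x ε := by
      rw [Metric.mem_ball, dist_pi_lt_iff hε]
      intro i
      exact Metric.mem_ball.mp (hy i (Set.mem_univ i))
    have h2 := hb y hy1
    rw [eval_map, map_zero]
    rw [aeval_def] at h2
    exact h2
  exact hP (MvPolynomial.map_injective _ (RingHom.injective_int (Int.castRingHom ℂ))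
    (by rw [h0, map_zero]))

theorem hier_poly {m : ℕ} {t : Fin m → ℝ} (hS : SHier t) (P : MvPolynomial (Fin m) ℤ)
    (hP : P ≠ 0) : (aeval t P : ℝ) ≠ 0 := by
  intro h0
  obtain ⟨σ, hσ⟩ := hS (P.totalDegree + 1)
  choose q hq p hp1 hp2 using fun k : ℕ ↦ hσ (k + 2)
  set r : ℕ → Fin m → ℝ := fun k s ↦ (p k s : ℝ) / q k with hr
  have hq1 : ∀ k, (1 : ℝ) ≤ q k := fun k ↦ by
    have h1 := hq k
    have h2 : 1 ≤ q k := by omega
    exact_mod_cast h2
  have hqk : ∀ k : ℕ, (k : ℝ) ≤ (q k : ℝ) ^ (P.totalDegree + 1) := fun k ↦ by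
    have h1 := hq k
    have h2 : (k : ℝ) ≤ q k := by
      have : k ≤ q k := by omega
      exact_mod_cast this
    refine h2.trans ?_
    calc (q k : ℝ) = (q k : ℝ) ^ 1 := (pow_one _).symm
      _ ≤ (q k : ℝ) ^ (P.totalDegree + 1) := pow_le_pow_right₀ (hq1 k) (by omega)
  have hrt : Tendsto r atTop (𝓝 t) := by
    rw [tendsto_pi_nhds]
    intro s
    rw [tendsto_iff_dist_tendsto_zero]
    refine squeeze_zero (fun _ ↦ dist_nonneg) (g := fun k : ℕ ↦ Real.exp (-(k : ℝ))) (fun k ↦ ?_) ?_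
    · rw [dist_comm, Real.dist_eq]
      refine (hp1 k s).2.le.trans (Real.exp_le_exp.mpr ?_)
      have := hqk k
      linarith
    · exact Real.tendsto_exp_neg_atTop_nhds_zero.comp tendsto_natCast_atTop_atTop
  have hle1 : ∀ k s, |t s - p k s / q k| ≤ 1 := fun k s ↦ by
    refine (hp1 k s).2.le.trans (Real.exp_le_one_iff.mpr ?_)
    have := hqk k
    have h3 : (0 : ℝ) ≤ k := Nat.cast_nonneg k
    linarith
  -- complex side
  set x : Fin m → ℂ := fun s ↦ (t s : ℂ) with hx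
  set G : (Fin m → ℂ) → ℂ := fun y ↦ aeval (fun s ↦ y (σ.symm s)) P with hG
  have hGan : AnalyticAt ℂ G (fun s ↦ x (σ s)) := by
    refine AnalyticAt.fun_comp (g := fun s : Fin m → ℂ ↦ aeval s P)
      (f := fun (y : Fin m → ℂ) s ↦ y (σ.symm s)) (an_aeval _ _) ?_
    rw [analyticAt_pi_iff]
    intro s
    exact (ContinuousLinearMap.proj (R := ℂ) (φ := fun _ : Fin m ↦ ℂ) (σ.symm s)).analyticAt _
  have hnorm : ∀ k s, ‖((r k s : ℝ) : ℂ) - x s‖ = |t s - p k s / q k| := fun k s ↦ by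
    rw [hx, hr]
    simp only
    rw [← Complex.ofReal_sub, Complex.norm_real, Real.norm_eq_abs, abs_sub_comm]
  obtain ⟨c, hc, M, hM⟩ := H32.nonvanish_multi (l := atTop) m G (fun s ↦ x (σ s))
    (fun k s ↦ ((r k (σ s) : ℝ) : ℂ)) hGan
    (fun h ↦ F5_nv x hP (by
      have h1 : Tendsto (fun (y : Fin m → ℂ) s ↦ y (σ s)) (𝓝 x) (𝓝 (fun s ↦ x (σ s))) := by
        rw [tendsto_pi_nhds]
        intro s
        exact (continuous_apply (σ s)).tendsto x
      filter_upwards [h1.eventually h] with y hy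
      rw [hG] at hy
      simp only [Equiv.apply_symm_apply] at hy
      exact hy))
    (by
      rw [tendsto_pi_nhds]
      intro s
      exact (Complex.continuous_ofReal.tendsto _).comp ((tendsto_pi_nhds.mp hrt) (σ s)))
    (by
      intro C
      filter_upwards [eventually_ge_atTop C] with k hk a b hab
      rw [hnorm, hnorm]
      refine (hp2 k a b hab).le.trans ?_
      exact pow_le_pow_of_le_one (abs_nonneg _) (hle1 k (σ b)) (by omega))
  obtain ⟨K, hK⟩ := F5_lip t P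
  obtain ⟨k0, hk0⟩ := exists_nat_gt K
  obtain ⟨k, h1, h2, h3⟩ := (hM.and ((hrt.eventually hK).and (eventually_ge_atTop k0))).exists
  -- nonvanishing at the rational point
  have hval : ‖G (fun s ↦ ((r k (σ s) : ℝ) : ℂ))‖ = |(aeval (r k) P : ℝ)| := by
    rw [hG]
    simp only [Equiv.apply_symm_apply]
    rw [aeval_ofReal, Complex.norm_real, Real.norm_eq_abs]
  have hpos : 0 < |(aeval (r k) P : ℝ)| := by
    rw [← hval]
    refine lt_of_lt_of_le ?_ h1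
    refine mul_pos hc (pow_pos (Finset.prod_pos fun s _ ↦ ?_) _)
    rw [hnorm]
    exact (hp1 k (σ s)).1
  obtain ⟨a, ha⟩ := hom_int P le_rfl (q := q k) (by have := hq k; omega) (p k)
  have ha' : (a : ℝ) = (q k : ℝ) ^ P.totalDegree * aeval (r k) P := ha
  have hqD : (0 : ℝ) < (q k : ℝ) ^ P.totalDegree := pow_pos (by linarith [hq1 k]) _
  have ha0 : a ≠ 0 := by
    rintro rfl
    rw [Int.cast_zero] at ha'
    rcases mul_eq_zero.mp ha'.symm with h4 | h4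
    · exact hqD.ne' h4
    · rw [h4, abs_zero] at hpos
      exact lt_irrefl _ hpos
  have ha1 : (1 : ℝ) ≤ |(a : ℝ)| := by
    have := Int.one_le_abs ha0
    exact_mod_cast this
  rw [ha', abs_mul, abs_of_pos hqD] at ha1
  rw [h0, sub_zero] at h2
  have h5 : ‖r k - t‖ ≤ Real.exp (-(q k : ℝ) ^ (P.totalDegree + 1)) := by
    rw [pi_norm_le_iff_of_nonneg (Real.exp_pos _).le]
    intro s
    rw [Pi.sub_apply, Real.norm_eq_abs, abs_sub_comm]
    exact (hp1 k s).2.le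
  have hKq : K ≤ q k := by
    have h6 := hq k
    have h7 : (k0 : ℝ) ≤ q k := by
      have : k0 ≤ q k := by omega
      exact_mod_cast this
    linarith
  have h6 : |(aeval (r k) P : ℝ)| ≤ (q k : ℝ) * Real.exp (-(q k : ℝ) ^ (P.totalDegree + 1)) := by
    refine h2.trans ?_
    refine (mul_le_mul_of_nonneg_right hKq (norm_nonneg _)).trans ?_
    exact mul_le_mul_of_nonneg_left h5 (by linarith [hq1 k])
  have h7 : (q k : ℝ) ^ P.totalDegree * |(aeval (r k) P : ℝ)| ≤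
      (q k : ℝ) ^ (P.totalDegree + 1) * Real.exp (-(q k : ℝ) ^ (P.totalDegree + 1)) := by
    refine (mul_le_mul_of_nonneg_left h6 hqD.le).trans (le_of_eq ?_)
    ring
  have h8 : (q k : ℝ) ^ (P.totalDegree + 1) * Real.exp (-(q k : ℝ) ^ (P.totalDegree + 1)) < 1 := by
    have h9 := Real.add_one_le_exp ((q k : ℝ) ^ (P.totalDegree + 1))
    rw [Real.exp_neg, ← div_eq_mul_inv, div_lt_one (Real.exp_pos _)]
    linarith
  linarith

private lemma F5_indep {m : ℕ} {t : Fin m → ℝ} (hS : SHier t) :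
    AlgebraicIndependent (algebraicClosure ℚ ℂ) (fun s : Fin m ↦ (t s : ℂ)) := by
  have h1 : AlgebraicIndependent ℤ (fun s : Fin m ↦ (t s : ℂ)) := by
    rw [algebraicIndependent_iff]
    intro P hP
    by_contra hne
    rw [aeval_ofReal] at hP
    exact hier_poly hS P hne (by exact_mod_cast hP)
  have h2 : AlgebraicIndependent ℚ (fun s : Fin m ↦ (t s : ℂ)) := by
    have : Algebra.IsAlgebraic ℤ ℚ := IsLocalization.isAlgebraic ℚ (nonZeroDivisors ℤ)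
    exact h1.extendScalars ℚ
  exact h2.algebraicClosure

theorem equiv_of_alg {m n : ℕ} (S : Orb m n 1) (hS : SHier S.t)
    (hya : IsAlgebraic ℚ (S.y 0 : ℂ)) (i : Fin n) (hz : IsAlgebraic ℚ (S.φ i S.x)) :
    ∃ a b c d : ℚ, 0 < a * d - b * c ∧
      S.φ i S.x = ((a : ℂ) * (S.y 0 : ℂ) + b) / ((c : ℂ) * (S.y 0 : ℂ) + d) := by
  by_contra hcon
  have hci : S.c i = 0 := c_eq S i
  set S' : Orb m 1 1 := Orb.of S.t (fun _ ↦ S.pA i) (fun _ ↦ S.pB i) (fun _ ↦ S.pC i)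
    (fun _ ↦ S.pD i) S.y (fun _ ↦ 0) (fun _ ↦ S.hdet i) with hS'
  have hx' : S'.x = S.x := rfl
  have hφ : ∀ j, S'.φ j S'.x = S.φ i S.x := by
    intro j
    show mob (aeval S.x (S.pA i)) (aeval S.x (S.pB i)) (aeval S.x (S.pC i)) (aeval S.x (S.pD i))
      (S.y 0) = mob (aeval S.x (S.pA i)) (aeval S.x (S.pB i)) (aeval S.x (S.pC i))
        (aeval S.x (S.pD i)) (S.y (S.c i))
    rw [hci]
  have hne : S'.pP 0 ≠ 0 := by
    refine S'.pP_ne (fun j ↦ ?_) 0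
    rw [hφ j]
    exact hcon
  set K := algebraicClosure ℚ ℂ with hK
  have hyK : (S.y 0 : ℂ) ∈ K := mem_algebraicClosure_iff.mpr hya
  have hzK : S.φ i S.x ∈ K := mem_algebraicClosure_iff.mpr hz
  set R : MvPolynomial (Fin m) K :=
    (MvPolynomial.map (Int.castRingHom K) (S.pC i) * C ⟨(S.y 0 : ℂ), hyK⟩ +
      MvPolynomial.map (Int.castRingHom K) (S.pD i)) * C ⟨S.φ i S.x, hzK⟩ -
      (MvPolynomial.map (Int.castRingHom K) (S.pA i) * C ⟨(S.y 0 : ℂ), hyK⟩ +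
        MvPolynomial.map (Int.castRingHom K) (S.pB i)) with hR
  have hmap : MvPolynomial.map (algebraMap K ℂ) R = S'.pP 0 := by
    have hz' : ∀ p : MvPolynomial (Fin m) ℤ, MvPolynomial.map (algebraMap K ℂ)
        (MvPolynomial.map (Int.castRingHom K) p) = MvPolynomial.map (Int.castRingHom ℂ) p := by
      intro p
      rw [MvPolynomial.map_map]
      exact congrArg (fun f ↦ MvPolynomial.map f p) (RingHom.ext_int _ _)
    rw [hR, Orb.pP, hφ 0]
    simp only [map_sub, map_add, map_mul, MvPolynomial.map_C, hz']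
    rfl
  have hR0 : R ≠ 0 := by
    intro h
    rw [h, map_zero] at hmap
    exact hne hmap.symm
  have hev : aeval S.x R = 0 := by
    have h1 : aeval S.x R = eval S.x (MvPolynomial.map (algebraMap K ℂ) R) := by
      rw [eval_map, aeval_def]
    rw [h1, hmap, ← hx', S'.eval_pP, hφ 0]
    have h2 := S.den_x i
    have h3 : S'.den 0 S'.x = S.den i S.x := by
      show aeval S.x (S.pC i) * (S.y 0 : ℂ) + aeval S.x (S.pD i) =
        aeval S.x (S.pC i) * (S.y (S.c i) : ℂ) + aeval S.x (S.pD i)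
      rw [hci]
    rw [h3]
    have h4 : S.den i S.x * S.φ i S.x =
        aeval S.x (S.pA i) * (S.y (S.c i) : ℂ) + aeval S.x (S.pB i) :=
      mul_div_cancel₀ _ h2
    rw [h4, hci]
    exact sub_self _
  exact hR0 ((algebraicIndependent_iff.mp (F5_indep hS)) R hev)

end AO

end S_H32_AO_F5

section S_H32_AO_F3

set_option autoImplicit false
set_option linter.unusedSimpArgs false

open UpperHalfPlane hiding I
open Complex EisensteinSeries ModularForm MatrixGroups Manifold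
open scoped Real Topology
open Filter

namespace AO

open H32 H32.T3 H32.T4 CZ

/-- not a CM point -/
def NCM (y : ℂ) : Prop :=
  ¬ ∃ a b c : ℤ, (a ≠ 0 ∨ b ≠ 0 ∨ c ≠ 0) ∧ (a : ℂ) * y ^ 2 + b * y + c = 0

/-- numbers algebraic over `ℚ(J y, J' y, J'' y)` without approximations of some exponent `κ0 < 2` -/
def NAp (J : ℂ → ℂ) (y : ℂ) : Prop :=
  ∃ (k : ℕ) (P : Fin k → ℂ) (κ0 : ℝ), 1 ≤ κ0 ∧ κ0 < 2 ∧ ¬ Appr P κ0 ∧
    ∀ i, IsAlgebraic (IntermediateField.adjoin ℚ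
      ({J y, deriv J y, deriv (deriv J) y} : Set ℂ)) (P i)

theorem core {E4 E6 J : ℂ → ℂ}
    (h4 : ∀ τ : ℂ, E4 τ = 1 + 240 * ∑' m : ℕ, ((ArithmeticFunction.sigma 3 (m + 1) : ℕ) : ℂ) *
      Complex.exp (2 * (Real.pi : ℂ) * Complex.I * ((m : ℂ) + 1) * τ))
    (h6 : ∀ τ : ℂ, E6 τ = 1 - 504 * ∑' m : ℕ, ((ArithmeticFunction.sigma 5 (m + 1) : ℕ) : ℂ) *
      Complex.exp (2 * (Real.pi : ℂ) * Complex.I * ((m : ℂ) + 1) * τ))
    (hJ : ∀ τ : ℂ, J τ = 1728 * E4 τ ^ 3 / (E4 τ ^ 3 - E6 τ ^ 2))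
    (hG : ∀ τ : ℍ, IsAlgebraic ℚ (τ : ℂ) → NCM (τ : ℂ) →
      Meas (jf τ) ∧ E₄ τ ≠ 0 ∧ E₆ τ ≠ 0 ∧ NAp J τ)
    {m n : ℕ} (t : Fin m → ℝ) (ht : ∀ κ : ℝ, ∀ K : ℕ, ∃ q : ℕ, K ≤ q ∧ ∃ p : Fin m → ℤ,
      (∀ s, 0 < |t s - p s / q| ∧ |t s - p s / q| < Real.exp (-(q : ℝ) ^ κ)) ∧
      ∀ r s, r ≠ s → |t r - p r / q| < |t s - p s / q| ^ K ∨
        |t s - p s / q| < |t r - p r / q| ^ K)
    (y : ℂ) (hy : 0 < y.im) (hya : IsAlgebraic ℚ y) (hcm : NCM y) (z : Fin n → ℂ)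
    (hz : ∀ i, ∃ A ∈ IntermediateField.adjoin ℚ (Set.range t),
      ∃ B ∈ IntermediateField.adjoin ℚ (Set.range t),
      ∃ C ∈ IntermediateField.adjoin ℚ (Set.range t),
      ∃ D ∈ IntermediateField.adjoin ℚ (Set.range t), 0 < A * D - B * C ∧
        z i = ((A : ℂ) * y + (B : ℂ)) / ((C : ℂ) * y + (D : ℂ)))
    (hne : ∀ i, ¬ ∃ a b c d : ℚ, 0 < a * d - b * c ∧
      z i = ((a : ℂ) * y + (b : ℂ)) / ((c : ℂ) * y + (d : ℂ)))
    (hrel : ∀ i k, i ≠ k → ¬ ∃ a b c d : ℚ, 0 < a * d - b * c ∧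
      z k = ((a : ℂ) * z i + (b : ℂ)) / ((c : ℂ) * z i + (d : ℂ)))
    (B : Finset (Fin 1)) (ρ : ℕ) (g : Fin ρ → Fin n ⊕ B)
    (hg : AlgebraicIndependent ℚ (fun k ↦ (Sum.elim z (fun _ ↦ y) : Fin n ⊕ B → ℂ) (g k))) :
    ∃ f : Fin (3 * n + 3 * B.card + ρ - 1) → (Fin n ⊕ B) × Fin 4, AlgebraicIndependent ℚ (fun k ↦
      (![(Sum.elim z (fun _ ↦ y) : Fin n ⊕ B → ℂ) (f k).1,
        J ((Sum.elim z (fun _ ↦ y) : Fin n ⊕ B → ℂ) (f k).1),
        deriv J ((Sum.elim z (fun _ ↦ y) : Fin n ⊕ B → ℂ) (f k).1),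
        deriv (deriv J) ((Sum.elim z (fun _ ↦ y) : Fin n ⊕ B → ℂ) (f k).1)] : Fin 4 → ℂ)
        (f k).2) := by
  obtain ⟨S, hSt, hSy, -, hSφ⟩ := exists_orb (fun _ : Fin 1 ↦ (⟨y, hy⟩ : ℍ)) (fun _ ↦ 0) z hz
  have hy0 : (S.y 0 : ℂ) = y := by rw [hSy]
  have hS : SHier S.t := by rw [hSt]; exact shier_of ht
  have hne' : NE0 S := by
    intro i
    rw [hSφ, hy0]
    exact hne i
  have hrel' : NE1 S := by
    intro i k hik
    rw [hSφ, hSφ]
    exact hrel i k hik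
  obtain ⟨hM, h4', h6', k, P, κ0, hk1, hk2, hP, halg⟩ := hG (S.y 0) (by rw [hy0]; exact hya)
    (by rw [hy0]; exact hcm)
  have hJy : J (S.y 0) = jf (S.y 0) := by
    rw [(J_values h4 h6 hJ (S.y 0).im_pos).1]
    exact jc_coe (S.y 0)
  obtain ⟨θ, hθ, hind⟩ := indep2 S h4' h6' hM hS hne' hrel' P κ0 hk1 hk2 hP
    (deriv J (S.y 0)) (deriv (deriv J) (S.y 0)) (fun i ↦ by rw [← hJy]; exact halg i)
  have hpts : pts S B = Sum.elim z (fun _ ↦ y) := by
    funext u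
    rcases u with i | u
    · exact hSφ i
    · exact hy0
  have h := final_count h4 h6 hJ S h4' h6' (by rw [hy0]; exact hya) θ hθ hind B g
    (by rw [hpts]; exact hg)
  rw [hpts] at h
  exact h

end AO

end S_H32_AO_F3

section S_H32_AO_F6

set_option autoImplicit false
set_option linter.unusedSimpArgs false

open UpperHalfPlane hiding I
open Complex EisensteinSeries ModularForm MatrixGroups Manifold
open scoped Real Topology
open Filter

namespace AO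

open H32 H32.T3 H32.T4 CZ

private lemma F6_im {a b c d : ℚ} {y : ℂ} (hy : 0 < y.im) (h : 0 < a * d - b * c) :
    (c : ℂ) * y + d ≠ 0 ∧ 0 < (((a : ℂ) * y + b) / ((c : ℂ) * y + d)).im := by
  have h' : (0 : ℝ) < (a : ℝ) * (d : ℝ) - (b : ℝ) * (c : ℝ) := by exact_mod_cast h
  obtain ⟨h1, -, h3⟩ := im_mobC hy h'
  simp only [Complex.ofReal_ratCast, mob] at h1 h3
  exact ⟨h1, h3⟩

private lemma F6_cm {y : ℂ} (hcm : NCM y) {p q r : ℚ} (h : p ≠ 0 ∨ q ≠ 0 ∨ r ≠ 0)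
    (he : (p : ℂ) * y ^ 2 + q * y + r = 0) : False := by
  have hp : (p.den : ℂ) ≠ 0 := by exact_mod_cast p.den_nz
  have hq : (q.den : ℂ) ≠ 0 := by exact_mod_cast q.den_nz
  have hr : (r.den : ℂ) ≠ 0 := by exact_mod_cast r.den_nz
  have ep : (p : ℂ) = p.num / p.den := by exact_mod_cast (Rat.num_div_den p).symm
  have eq : (q : ℂ) = q.num / q.den := by exact_mod_cast (Rat.num_div_den q).symm
  have er : (r : ℂ) = r.num / r.den := by exact_mod_cast (Rat.num_div_den r).symm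
  refine hcm ⟨p.num * q.den * r.den, q.num * p.den * r.den, r.num * p.den * q.den, ?_, ?_⟩
  · have i1 : (p.den : ℤ) ≠ 0 := by exact_mod_cast p.den_nz
    have i2 : (q.den : ℤ) ≠ 0 := by exact_mod_cast q.den_nz
    have i3 : (r.den : ℤ) ≠ 0 := by exact_mod_cast r.den_nz
    rcases h with h | h | h
    · exact Or.inl (mul_ne_zero (mul_ne_zero (Rat.num_ne_zero.2 h) i2) i3)
    · exact Or.inr (Or.inl (mul_ne_zero (mul_ne_zero (Rat.num_ne_zero.2 h) i1) i3))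
    · exact Or.inr (Or.inr (mul_ne_zero (mul_ne_zero (Rat.num_ne_zero.2 h) i1) i2))
  · rw [ep, eq, er] at he
    field_simp at he
    push_cast
    linear_combination he

private lemma F6_ncm {a b c d : ℚ} {y : ℂ} (hy : 0 < y.im) (h : 0 < a * d - b * c)
    (hcm : NCM y) : NCM (((a : ℂ) * y + b) / ((c : ℂ) * y + d)) := by
  rintro ⟨p, q, r, hne, he⟩
  have hw := (F6_im hy h).1
  have h2 : ((p : ℂ) * a ^ 2 + q * (a * c) + r * c ^ 2) * y ^ 2 +
      (2 * p * (a * b) + q * (a * d + b * c) + 2 * r * (c * d)) * y +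
      (p * b ^ 2 + q * (b * d) + r * d ^ 2) = 0 := by
    have h3 : ((p : ℂ) * (((a : ℂ) * y + b) / ((c : ℂ) * y + d)) ^ 2 +
        q * (((a : ℂ) * y + b) / ((c : ℂ) * y + d)) + r) * ((c : ℂ) * y + d) ^ 2 =
        p * ((a : ℂ) * y + b) ^ 2 + q * (((a : ℂ) * y + b) * ((c : ℂ) * y + d)) +
          r * ((c : ℂ) * y + d) ^ 2 := by
      generalize (c : ℂ) * y + d = w at hw ⊢
      field_simp
    rw [he, zero_mul] at h3
    linear_combination -h3
  refine F6_cm hcm (p := (p : ℚ) * a ^ 2 + q * (a * c) + r * c ^ 2)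
    (q := 2 * p * (a * b) + q * (a * d + b * c) + 2 * r * (c * d))
    (r := p * b ^ 2 + q * (b * d) + r * d ^ 2) ?_ (by push_cast; linear_combination h2)
  by_contra hcon
  push Not at hcon
  obtain ⟨e1, e2, e3⟩ := hcon
  have hδ : (a * d - b * c) ^ 2 ≠ 0 := pow_ne_zero 2 h.ne'
  have f1 : (a * d - b * c) ^ 2 * (p : ℚ) = 0 := by
    linear_combination d ^ 2 * e1 - d * c * e2 + c ^ 2 * e3
  have f2 : (a * d - b * c) ^ 2 * (q : ℚ) = 0 := by
    linear_combination (-2 * d * b) * e1 + (a * d + b * c) * e2 - 2 * a * c * e3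
  have f3 : (a * d - b * c) ^ 2 * (r : ℚ) = 0 := by
    linear_combination b ^ 2 * e1 - a * b * e2 + a ^ 2 * e3
  rcases hne with h' | h' | h'
  · exact (mul_ne_zero hδ (by exact_mod_cast h')) f1
  · exact (mul_ne_zero hδ (by exact_mod_cast h')) f2
  · exact (mul_ne_zero hδ (by exact_mod_cast h')) f3

private lemma F6_alg {a b c d : ℚ} {y : ℂ} (hy : IsAlgebraic ℚ y) :
    IsAlgebraic ℚ (((a : ℂ) * y + b) / ((c : ℂ) * y + d)) := by
  have hq : ∀ q : ℚ, IsAlgebraic ℚ (q : ℂ) := fun q ↦ isAlgebraic_algebraMap (R := ℚ) (A := ℂ) q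
  rw [div_eq_mul_inv]
  exact (((hq a).mul hy).add (hq b)).mul (((hq c).mul hy).add (hq d)).inv

private lemma F6_comp {a b c d : ℚ} {A B C D : ℝ} {y : ℂ} (hy : 0 < y.im)
    (h : 0 < a * d - b * c) (hA : 0 < A * D - B * C) :
    ((A : ℂ) * y + (B : ℂ)) / ((C : ℂ) * y + (D : ℂ)) =
      (((A * d - B * c : ℝ) : ℂ) * (((a : ℂ) * y + b) / ((c : ℂ) * y + d)) +
        ((B * a - A * b : ℝ) : ℂ)) /
      (((C * d - D * c : ℝ) : ℂ) * (((a : ℂ) * y + b) / ((c : ℂ) * y + d)) +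
        ((D * a - C * b : ℝ) : ℂ)) := by
  have hw := (F6_im hy h).1
  have hv := (im_mobC hy hA).1
  have hδ : ((a : ℂ) * d - b * c) ≠ 0 := by exact_mod_cast h.ne'
  have e1 : ((A * d - B * c : ℝ) : ℂ) * (((a : ℂ) * y + b) / ((c : ℂ) * y + d)) +
        ((B * a - A * b : ℝ) : ℂ) =
      (((a : ℂ) * d - b * c) / ((c : ℂ) * y + d)) * ((A : ℂ) * y + B) := by
    push_cast
    field_simp
    ring
  have e2 : ((C * d - D * c : ℝ) : ℂ) * (((a : ℂ) * y + b) / ((c : ℂ) * y + d)) +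
        ((D * a - C * b : ℝ) : ℂ) =
      (((a : ℂ) * d - b * c) / ((c : ℂ) * y + d)) * ((C : ℂ) * y + D) := by
    push_cast
    field_simp
    ring
  rw [e1, e2, mul_div_mul_left _ _ (div_ne_zero hδ hw)]

private lemma F6_tr {U V : Type} (J : ℂ → ℂ) (pts : U → ℂ) (z : V → ℂ) (φ : U → V)
    (hφ : ∀ u, pts u = z (φ u)) {N M : ℕ} (hNM : M = N)
    (h : ∃ f : Fin N → U × Fin 4, AlgebraicIndependent ℚ (fun k ↦
      (![pts (f k).1, J (pts (f k).1), deriv J (pts (f k).1), deriv (deriv J) (pts (f k).1)] :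
        Fin 4 → ℂ) (f k).2)) :
    ∃ f : Fin M → V × Fin 4, AlgebraicIndependent ℚ (fun k ↦
      (![z (f k).1, J (z (f k).1), deriv J (z (f k).1), deriv (deriv J) (z (f k).1)] :
        Fin 4 → ℂ) (f k).2) := by
  subst hNM
  obtain ⟨f, hf⟩ := h
  refine ⟨fun k ↦ (φ (f k).1, (f k).2), ?_⟩
  have e : (fun k ↦ (![pts (f k).1, J (pts (f k).1), deriv J (pts (f k).1),
      deriv (deriv J) (pts (f k).1)] : Fin 4 → ℂ) (f k).2) =
      fun k ↦ (![z (φ (f k).1), J (z (φ (f k).1)), deriv J (z (φ (f k).1)),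
        deriv (deriv J) (z (φ (f k).1))] : Fin 4 → ℂ) (f k).2 := by
    funext k
    rw [hφ]
  rw [e] at hf
  exact hf

theorem main_AO {E4 E6 J : ℂ → ℂ}
    (h4 : ∀ τ : ℂ, E4 τ = 1 + 240 * ∑' m : ℕ, ((ArithmeticFunction.sigma 3 (m + 1) : ℕ) : ℂ) *
      Complex.exp (2 * (Real.pi : ℂ) * Complex.I * ((m : ℂ) + 1) * τ))
    (h6 : ∀ τ : ℂ, E6 τ = 1 - 504 * ∑' m : ℕ, ((ArithmeticFunction.sigma 5 (m + 1) : ℕ) : ℂ) *
      Complex.exp (2 * (Real.pi : ℂ) * Complex.I * ((m : ℂ) + 1) * τ))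
    (hJ : ∀ τ : ℂ, J τ = 1728 * E4 τ ^ 3 / (E4 τ ^ 3 - E6 τ ^ 2))
    (hG : ∀ τ : ℍ, IsAlgebraic ℚ (τ : ℂ) → NCM (τ : ℂ) →
      Meas (jf τ) ∧ E₄ τ ≠ 0 ∧ E₆ τ ≠ 0 ∧ NAp J τ)
    {m n : ℕ} (t : Fin m → ℝ) (ht : ∀ κ : ℝ, ∀ K : ℕ, ∃ q : ℕ, K ≤ q ∧ ∃ p : Fin m → ℤ,
      (∀ s, 0 < |t s - p s / q| ∧ |t s - p s / q| < Real.exp (-(q : ℝ) ^ κ)) ∧
      ∀ r s, r ≠ s → |t r - p r / q| < |t s - p s / q| ^ K ∨
        |t s - p s / q| < |t r - p r / q| ^ K)
    (y : ℂ) (hy : 0 < y.im) (hya : IsAlgebraic ℚ y) (hcm : NCM y) (z : Fin n → ℂ)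
    (hz : ∀ i, ∃ A ∈ IntermediateField.adjoin ℚ (Set.range t),
      ∃ B ∈ IntermediateField.adjoin ℚ (Set.range t),
      ∃ C ∈ IntermediateField.adjoin ℚ (Set.range t),
      ∃ D ∈ IntermediateField.adjoin ℚ (Set.range t), 0 < A * D - B * C ∧
        z i = ((A : ℂ) * y + (B : ℂ)) / ((C : ℂ) * y + (D : ℂ)))
    (hrel : ∀ i k, i ≠ k → ¬ ∃ a b c d : ℚ, 0 < a * d - b * c ∧
      z k = ((a : ℂ) * z i + (b : ℂ)) / ((c : ℂ) * z i + (d : ℂ))) :
    (∀ i, IsAlgebraic ℚ (z i) → ∃ a b c d : ℚ, 0 < a * d - b * c ∧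
      z i = ((a : ℂ) * y + (b : ℂ)) / ((c : ℂ) * y + (d : ℂ))) ∧
    ∀ (ρ : ℕ) (g : Fin ρ → Fin n), AlgebraicIndependent ℚ (fun k ↦ z (g k)) →
      ∃ f : Fin (3 * n + ρ - 1) → Fin n × Fin 4, AlgebraicIndependent ℚ (fun k ↦
        (![z (f k).1, J (z (f k).1), deriv J (z (f k).1), deriv (deriv J) (z (f k).1)] :
          Fin 4 → ℂ) (f k).2) := by
  constructor
  · intro i hi
    obtain ⟨S, hSt, hSy, -, hSφ⟩ := exists_orb (fun _ : Fin 1 ↦ (⟨y, hy⟩ : ℍ)) (fun _ ↦ 0) z hz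
    have hy0 : (S.y 0 : ℂ) = y := by rw [hSy]
    have hS : SHier S.t := by rw [hSt]; exact shier_of ht
    have h1 := equiv_of_alg S hS (by rw [hy0]; exact hya) i (by rw [hSφ]; exact hi)
    rw [hSφ, hy0] at h1
    exact h1
  intro ρ g hg
  by_cases hne : ∀ i, ¬ ∃ a b c d : ℚ, 0 < a * d - b * c ∧
      z i = ((a : ℂ) * y + (b : ℂ)) / ((c : ℂ) * y + (d : ℂ))
  · -- no point is equivalent to `y`
    refine F6_tr J (Sum.elim z (fun _ ↦ y) : Fin n ⊕ (∅ : Finset (Fin 1)) → ℂ) z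
      (Sum.elim id (fun u ↦ absurd u.2 (Finset.notMem_empty _))) ?_ ?_
      (core h4 h6 hJ hG t ht y hy hya hcm z hz hne hrel ∅ ρ (fun k ↦ Sum.inl (g k)) hg)
    · rintro (i | u)
      · rfl
      · exact absurd u.2 (Finset.notMem_empty _)
    · simp
  · push Not at hne
    obtain ⟨i0, a, b, c, d, hpos, hzi0⟩ := hne
    obtain ⟨n', rfl⟩ : ∃ n', n = n' + 1 := ⟨n - 1, by have := i0.pos; omega⟩
    have hy' : 0 < (z i0).im := by rw [hzi0]; exact (F6_im hy hpos).2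
    have hya' : IsAlgebraic ℚ (z i0) := by rw [hzi0]; exact F6_alg hya
    have hcm' : NCM (z i0) := by rw [hzi0]; exact F6_ncm hy hpos hcm
    have hz' : ∀ i : Fin n', ∃ A ∈ IntermediateField.adjoin ℚ (Set.range t),
        ∃ B ∈ IntermediateField.adjoin ℚ (Set.range t),
        ∃ C ∈ IntermediateField.adjoin ℚ (Set.range t),
        ∃ D ∈ IntermediateField.adjoin ℚ (Set.range t), 0 < A * D - B * C ∧
          z (i0.succAbove i) = ((A : ℂ) * z i0 + (B : ℂ)) / ((C : ℂ) * z i0 + (D : ℂ)) := by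
      intro i
      obtain ⟨A, hA, B, hB, C, hC, D, hD, hdet, he⟩ := hz (i0.succAbove i)
      have hq : ∀ q : ℚ, (q : ℝ) ∈ IntermediateField.adjoin ℚ (Set.range t) := fun q ↦
        (IntermediateField.adjoin ℚ (Set.range t)).algebraMap_mem q
      refine ⟨A * d - B * c, sub_mem (mul_mem hA (hq d)) (mul_mem hB (hq c)),
        B * a - A * b, sub_mem (mul_mem hB (hq a)) (mul_mem hA (hq b)),
        C * d - D * c, sub_mem (mul_mem hC (hq d)) (mul_mem hD (hq c)),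
        D * a - C * b, sub_mem (mul_mem hD (hq a)) (mul_mem hC (hq b)), ?_, ?_⟩
      · have h' : (0 : ℝ) < (a : ℝ) * (d : ℝ) - (b : ℝ) * (c : ℝ) := by exact_mod_cast hpos
        have e : (A * d - B * c) * (D * a - C * b) - (B * a - A * b) * (C * d - D * c) =
          (A * D - B * C) * ((a : ℝ) * d - b * c) := by ring
        rw [e]
        exact mul_pos hdet h'
      · rw [he, hzi0]
        exact F6_comp hy hpos hdet
    have hψ : ∀ j : Fin (n' + 1), ∃ u : Fin n' ⊕ (Finset.univ : Finset (Fin 1)),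
        (Sum.elim (fun i ↦ z (i0.succAbove i)) (fun _ ↦ z i0) :
          Fin n' ⊕ (Finset.univ : Finset (Fin 1)) → ℂ) u = z j := by
      intro j
      rcases Fin.eq_self_or_eq_succAbove i0 j with h | ⟨i, h⟩
      · exact ⟨Sum.inr ⟨0, Finset.mem_univ _⟩, by rw [h]; rfl⟩
      · exact ⟨Sum.inl i, by rw [h]; rfl⟩
    choose ψ hψ' using hψ
    refine F6_tr J (Sum.elim (fun i ↦ z (i0.succAbove i)) (fun _ ↦ z i0) :
        Fin n' ⊕ (Finset.univ : Finset (Fin 1)) → ℂ) z (Sum.elim i0.succAbove (fun _ ↦ i0)) ?_ ?_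
      (core h4 h6 hJ hG t ht (z i0) hy' hya' hcm' (fun i ↦ z (i0.succAbove i)) hz'
        (fun i ↦ hrel i0 (i0.succAbove i) (Fin.succAbove_ne i0 i).symm)
        (fun i k hik ↦ hrel (i0.succAbove i) (i0.succAbove k)
          (fun h ↦ hik (Fin.succAbove_right_injective h))) Finset.univ ρ (fun k ↦ ψ (g k)) ?_)
    · rintro (i | u) <;> rfl
    · rw [Finset.card_univ, Fintype.card_fin]
      omega
    · have e : (fun k ↦ (Sum.elim (fun i ↦ z (i0.succAbove i)) (fun _ ↦ z i0) :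
          Fin n' ⊕ (Finset.univ : Finset (Fin 1)) → ℂ) (ψ (g k))) = fun k ↦ z (g k) := by
        funext k
        exact hψ' (g k)
      rw [e]
      exact hg

end AO

end S_H32_AO_F6
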