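import Mathlib
import Pool.Agent.H32.AKM.P07
import Pool.Agent.H32.AKM.P11
import Pool.Agent.H32.AKM.P22
import Pool.Agent.H32.AKM.P34

/-! Modular Schanuel with derivatives for points algebraic over a field with good approximations, part 35: this file joins several modules to save build time. -/

section S_H32_T3_D1

open UpperHalfPlane hiding I
open Complex EisensteinSeries ModularForm MatrixGroups Manifold
open scoped Real Topology

namespace H32.T3

open Height Height.AdmissibleAbsValues Finset NumberField Filter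

/-- The last function: `2πi E₆ / E₄` for the indices with representative `a`, otherwise the quotient
of this function by its value at the representative. -/
noncomputable def wv {n : ℕ} (r : Fin n → Fin n) (a : Fin n) (w : Fin n → ℂ) (i : Fin n) : ℂ :=
  if r i = a then Wf (w i) else Wf (w i) / Wf (w (r i))

/-- The functions: `w`, its conjugate, `j`, `E₂* E₄ / E₆`, and `wv`. -/
noncomputable def V5 {n : ℕ} (r : Fin n → Fin n) (a : Fin n) (w : Fin n → ℂ)
    (x : Fin n × Fin 5) : ℂ :=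
  ![w x.1, (starRingEnd ℂ) (w x.1), jc (w x.1), ph (w x.1), wv r a w x.1] x.2

/-- The normalised functions. -/
noncomputable def Y5 {n : ℕ} (r : Fin n → Fin n) (w : Fin n → ℂ)
    (x : Fin n × Fin 5) : ℂ :=
  ![w x.1, (starRingEnd ℂ) (w x.1), jc (w x.1), ph (w x.1), Wf (w x.1) / Wf (w (r x.1))] x.2

/-- Tuples of CM points; those with the same representative lie in a common imaginary quadratic
field. -/
def Tup (n H : ℕ) (r : Fin n → Fin n) (t : Fin n → ℍ) : Prop :=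
  2 ≤ H ∧ ∃ (d w : Fin n → ℕ) (u : Fin n → ℤ) (v : Fin n → ℕ) (s : Fin n → ℂ),
    (∀ i, d i ≤ H ∧ 1 ≤ w i ∧ w i ≤ H ∧ |u i| ≤ H ∧ 1 ≤ v i ∧ v i ≤ H ∧
      s i ^ 2 = -(d i : ℂ) ∧ (t i : ℂ) = (u i + v i * s i) / w i) ∧
    ∀ i, d (r i) = d i ∧ s (r i) = s i

lemma finrank_fsup {ι : Type} (s : Finset ι) (F : ι → IntermediateField ℚ ℂ)
    (hF : ∀ i ∈ s, FiniteDimensional ℚ (F i)) : FiniteDimensional ℚ (s.sup F : IntermediateField ℚ ℂ) ∧
      Module.finrank ℚ (s.sup F : IntermediateField ℚ ℂ) ≤ ∏ i ∈ s, Module.finrank ℚ (F i) := by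
  classical
  induction s using Finset.induction_on with
  | empty =>
    rw [sup_empty, prod_empty]
    exact ⟨inferInstance, by rw [IntermediateField.finrank_bot]⟩
  | insert i t hi ih =>
    obtain ⟨h1, h2⟩ := ih fun j hj ↦ hF j (mem_insert_of_mem hj)
    have h3 := hF i (mem_insert_self _ _)
    rw [sup_insert, prod_insert hi]
    refine ⟨IntermediateField.finiteDimensional_sup _ _, ?_⟩
    exact (IntermediateField.finrank_sup_le _ _).trans (Nat.mul_le_mul_left _ h2)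

theorem field_n (n : ℕ) : ∃ A : ℕ, ∀ (r : Fin n → Fin n)
    (H : ℕ) (t : Fin n → ℍ), Tup n H r t →
    (∀ i, E₄ (t i) ≠ 0 ∧ E₆ (t i) ≠ 0) →
    ∃ K : IntermediateField ℚ ℂ, FiniteDimensional ℚ K ∧ Module.finrank ℚ K ≤ H ^ A ∧
      ∀ (L : Type) [Field L] [NumberField L] (σ : L →+* ℂ), (∀ x ∈ K, ∃ y, σ y = x) →
        ∃ y : Fin n × Fin 5 → L, (∀ x, σ (y x) = Y5 r (fun i ↦ (t i : ℂ)) x) ∧
          ∀ x, HB ((H : ℝ) ^ A) (y x) := by
  obtain ⟨A, hA⟩ := cm_heights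
  obtain ⟨A', hA'⟩ := ratio_heights
  refine ⟨(4 * A + 2 * A') * (n + 1), fun r H t hT hne ↦ ?_⟩
  obtain ⟨hH, d, w, u, v, s, huv, hcom⟩ := hT
  have hH1 : 1 ≤ H := by omega
  have hH4 : 2 ≤ H ^ 4 := hH.trans (Nat.le_self_pow (by norm_num) H)
  have hH2 : 2 ≤ H ^ 2 := hH.trans (Nat.le_self_pow (by norm_num) H)
  have h1 : ∀ i, ∃ K : IntermediateField ℚ ℂ, FiniteDimensional ℚ K ∧
      Module.finrank ℚ K ≤ (H ^ 4) ^ A ∧
      ∀ (L : Type) [Field L] [NumberField L] (σ : L →+* ℂ), (∀ x ∈ K, ∃ y, σ y = x) →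
        ∃ t' tb J φ : L, σ t' = t i ∧ σ tb = (starRingEnd ℂ) (t i) ∧ σ J = jf (t i) ∧
          σ φ = E2s (t i) * E₄ (t i) / E₆ (t i) ∧ HB (((H ^ 4 : ℕ) : ℝ) ^ A) t' ∧
          HB (((H ^ 4 : ℕ) : ℝ) ^ A) tb ∧
          HB (((H ^ 4 : ℕ) : ℝ) ^ A) J ∧ HB (((H ^ 4 : ℕ) : ℝ) ^ A) φ := by
    intro i
    obtain ⟨hd, hw1, hw, hu, hv1, hv, hs, ht⟩ := huv i
    obtain ⟨c1, c2, c3, c4⟩ := cm_uv_bounds hH hd hw1 hw hu hv
    exact hA (H ^ 4) _ _ _ (t i) hH4 c1 c2 c3 c4 (cm_uv hw1 hs ht) (hne i).2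
  have hHr1 : (1 : ℝ) ≤ H := by exact_mod_cast hH1
  have h2 : ∀ i, ∃ K : IntermediateField ℚ ℂ, FiniteDimensional ℚ K ∧
      Module.finrank ℚ K ≤ (H ^ 2) ^ A' ∧
      ∀ (L : Type) [Field L] [NumberField L] (σ : L →+* ℂ), (∀ x ∈ K, ∃ y, σ y = x) →
        ∃ β : L, σ β = Wf (t i) / Wf (t (r i)) ∧
          HB (((H ^ 2 : ℕ) : ℝ) ^ A') β := by
    intro i
    obtain ⟨hd, hw1, hw, hu, hv1, hv, hs, ht⟩ := huv i
    obtain ⟨hd0, hw01, hw0, hu0, hv01, hv0, hs0, ht0⟩ := huv (r i)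
    obtain ⟨hda, hsa⟩ := hcom i
    have hwi : (w i : ℂ) ≠ 0 := by
      have : w i ≠ 0 := by omega
      exact_mod_cast this
    have hwa : (w (r i) : ℂ) ≠ 0 := by
      have : w (r i) ≠ 0 := by omega
      exact_mod_cast this
    have hdH : d i ≤ H ^ 2 := hd.trans (Nat.le_self_pow (by norm_num) H)
    have hww : w i * w (r i) ≤ H ^ 2 := by rw [pow_two]; exact Nat.mul_le_mul hw hw0
    have hww1 : 1 ≤ w i * w (r i) := Nat.one_le_iff_ne_zero.mpr (by positivity)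
    have hua : |u (r i) * (w i : ℤ)| ≤ ((H ^ 2 : ℕ) : ℤ) := by
      rw [abs_mul, Nat.abs_cast]
      have : (w i : ℤ) ≤ H := by exact_mod_cast hw
      push_cast
      rw [pow_two]
      exact mul_le_mul hu0 this (Int.natCast_nonneg _) (Int.natCast_nonneg _)
    have hui : |u i * (w (r i) : ℤ)| ≤ ((H ^ 2 : ℕ) : ℤ) := by
      rw [abs_mul, Nat.abs_cast]
      have : (w (r i) : ℤ) ≤ H := by exact_mod_cast hw0
      push_cast
      rw [pow_two]
      exact mul_le_mul hu this (Int.natCast_nonneg _) (Int.natCast_nonneg _)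
    have hva1 : 1 ≤ v (r i) * w i := Nat.one_le_iff_ne_zero.mpr (by positivity)
    have hva : v (r i) * w i ≤ H ^ 2 := by rw [pow_two]; exact Nat.mul_le_mul hv0 hw
    have hvi1 : 1 ≤ v i * w (r i) := Nat.one_le_iff_ne_zero.mpr (by positivity)
    have hvi : v i * w (r i) ≤ H ^ 2 := by rw [pow_two]; exact Nat.mul_le_mul hv hw0
    have e1 : (t (r i) : ℂ) = (((u (r i) * (w i : ℤ) : ℤ) : ℂ) +
        ((v (r i) * w i : ℕ) : ℂ) * s i) / ((w i * w (r i) : ℕ) : ℂ) := by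
      rw [ht0, hsa]
      push_cast
      field_simp
    have e2 : (t i : ℂ) = (((u i * (w (r i) : ℤ) : ℤ) : ℂ) +
        ((v i * w (r i) : ℕ) : ℂ) * s i) / ((w i * w (r i) : ℕ) : ℂ) := by
      rw [ht]
      push_cast
      field_simp
    exact hA' (H ^ 2) (d i) (w i * w (r i)) (u (r i) * (w i : ℤ)) (u i * (w (r i) : ℤ))
      (v (r i) * w i) (v i * w (r i)) (s i) (t (r i)) (t i) hH2 hdH hww1 hww hua hui hva1 hva
      hvi1 hvi hs e1 e2 (hne (r i)).1 (hne (r i)).2 (hne i).1 (hne i).2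
  choose K1 f1 q1 l1 using h1
  choose K2 f2 q2 l2 using h2
  have hfd : ∀ i ∈ (univ : Finset (Fin n)),
      FiniteDimensional ℚ (K1 i ⊔ K2 i : IntermediateField ℚ ℂ) := fun i _ ↦ by
    have := f1 i
    have := f2 i
    exact IntermediateField.finiteDimensional_sup _ _
  obtain ⟨g1, g2⟩ := finrank_fsup univ (fun i ↦ K1 i ⊔ K2 i) hfd
  set K : IntermediateField ℚ ℂ := univ.sup (fun i ↦ K1 i ⊔ K2 i) with hK
  have hle1 : ∀ i, K1 i ≤ K := fun i ↦ le_sup_left.trans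
    (Finset.le_sup (f := fun i ↦ K1 i ⊔ K2 i) (mem_univ i))
  have hle2 : ∀ i, K2 i ≤ K := fun i ↦ le_sup_right.trans
    (Finset.le_sup (f := fun i ↦ K1 i ⊔ K2 i) (mem_univ i))
  refine ⟨K, g1, ?_, fun L _ _ σ hσ ↦ ?_⟩
  · refine g2.trans ?_
    calc ∏ i, Module.finrank ℚ (K1 i ⊔ K2 i : IntermediateField ℚ ℂ)
        ≤ ∏ _i : Fin n, ((H ^ 4) ^ A * (H ^ 2) ^ A') := by
          refine prod_le_prod (fun _ _ ↦ Nat.zero_le _) fun i _ ↦ ?_
          exact (IntermediateField.finrank_sup_le _ _).trans (Nat.mul_le_mul (q1 i) (q2 i))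
      _ = H ^ ((4 * A + 2 * A') * n) := by
          rw [prod_const, card_univ, Fintype.card_fin, ← pow_mul, ← pow_mul, ← pow_add, ← pow_mul]
      _ ≤ _ := Nat.pow_le_pow_right hH1 (Nat.mul_le_mul_left _ (by omega))
  · have e1 := fun i ↦ l1 i L σ (fun x hx ↦ hσ x (hle1 i hx))
    have e2 := fun i ↦ l2 i L σ (fun x hx ↦ hσ x (hle2 i hx))
    choose yt ytb yJ yφ s1 s2 s3 s4 b1 b2 b3 b4 using e1
    choose yβ s5 b5 using e2
    have hT1 : ((H ^ 4 : ℕ) : ℝ) ^ A ≤ (H : ℝ) ^ ((4 * A + 2 * A') * (n + 1)) := by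
      push_cast
      rw [← pow_mul]
      exact pow_le_pow_right₀ hHr1 (by nlinarith)
    have hT2 : ((H ^ 2 : ℕ) : ℝ) ^ A' ≤ (H : ℝ) ^ ((4 * A + 2 * A') * (n + 1)) := by
      push_cast
      rw [← pow_mul]
      exact pow_le_pow_right₀ hHr1 (by nlinarith)
    refine ⟨fun x ↦ ![yt x.1, ytb x.1, yJ x.1, yφ x.1, yβ x.1] x.2, ?_, ?_⟩
    · rintro ⟨i, l⟩
      fin_cases l
      · exact s1 i
      · exact s2 i
      · exact (s3 i).trans (jc_coe (t i)).symm
      · exact (s4 i).trans (ph_coe (t i)).symm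
      · exact s5 i
    · rintro ⟨i, l⟩
      fin_cases l
      · exact (b1 i).mono hT1
      · exact (b2 i).mono hT1
      · exact (b3 i).mono hT1
      · exact (b4 i).mono hT1
      · exact (b5 i).mono hT2

/-- Liouville inequality for tuples. -/
theorem liouville_n (n : ℕ) : ∃ A : ℕ, ∀ (r : Fin n → Fin n)
    (G : MvPolynomial (Fin n × Fin 5) ℤ),
    ∃ C : ℝ, 0 ≤ C ∧ ∀ (H : ℕ) (t : Fin n → ℍ), Tup n H r t →
    (∀ i, E₄ (t i) ≠ 0 ∧ E₆ (t i) ≠ 0) →
    MvPolynomial.aeval (Y5 r (fun i ↦ (t i : ℂ))) G = 0 ∨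
      Real.exp (-(C * (H : ℝ) ^ A)) ≤ ‖MvPolynomial.aeval (Y5 r (fun i ↦ (t i : ℂ))) G‖ := by
  obtain ⟨A, hA⟩ := field_n n
  refine ⟨2 * A, fun r G ↦ ⟨Real.log (max 1 (nrm G)) + (5 * n : ℕ) * G.totalDegree, ?_, ?_⟩⟩
  · have := Real.log_nonneg (le_max_left 1 (nrm G))
    positivity
  intro H t hT hne
  obtain ⟨K, hK, hKA, hL⟩ := hA r H t hT hne
  have hNF : NumberField K := { to_charZero := inferInstance, to_finiteDimensional := hK }
  obtain ⟨v, hv, hvb⟩ := hL K (algebraMap K ℂ) (fun x hx ↦ ⟨⟨x, hx⟩, rfl⟩)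
  have hval : algebraMap K ℂ (MvPolynomial.aeval v G) =
      MvPolynomial.aeval (Y5 r (fun i ↦ (t i : ℂ))) G := by
    have h5 := MvPolynomial.comp_aeval_apply v (algebraMap K ℂ).toIntAlgHom G
    have h6 : (fun i ↦ (algebraMap K ℂ).toIntAlgHom (v i)) = Y5 r (fun i ↦ (t i : ℂ)) := by
      ext x
      exact hv x
    rw [h6] at h5
    exact h5
  by_cases h0 : MvPolynomial.aeval (Y5 r (fun i ↦ (t i : ℂ))) G = 0
  · exact Or.inl h0
  right
  have hy : MvPolynomial.aeval v G ≠ 0 := by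
    intro h5
    rw [h5, map_zero] at hval
    exact h0 hval.symm
  have h5 := liouville (algebraMap K ℂ) hy
  rw [hval] at h5
  refine le_trans ?_ h5
  have h6 := HB.aeval hvb G le_rfl (le_max_left 1 (nrm G)) (le_max_right _ _)
  unfold HB at h6
  have hH1 : (1 : ℝ) ≤ (H : ℝ) ^ A := by
    apply one_le_pow₀
    have : (2 : ℝ) ≤ H := by exact_mod_cast hT.1
    linarith
  have hd : (totalWeight K : ℝ) ≤ (H : ℝ) ^ A := by
    rw [totalWeight_eq_finrank]
    exact_mod_cast hKA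
  have hlog := Real.log_nonneg (le_max_left 1 (nrm G))
  have hcard : Fintype.card (Fin n × Fin 5) = 5 * n := by
    rw [Fintype.card_prod, Fintype.card_fin, Fintype.card_fin, mul_comm]
  have h7 : logHeight₁ (MvPolynomial.aeval v G) ≤
      (Real.log (max 1 (nrm G)) + (5 * n : ℕ) * G.totalDegree) * (H : ℝ) ^ (2 * A) := by
    refine h6.trans ?_
    rw [hcard]
    have h8 : (H : ℝ) ^ (2 * A) = (H : ℝ) ^ A * (H : ℝ) ^ A := by ring
    rw [h8, ← mul_assoc]
    have h9 : Real.log (max 1 (nrm G)) + (5 * n : ℕ) * G.totalDegree * (H : ℝ) ^ A ≤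
        (Real.log (max 1 (nrm G)) + (5 * n : ℕ) * G.totalDegree) * (H : ℝ) ^ A := by
      rw [add_mul]
      have := le_mul_of_one_le_right hlog hH1
      linarith
    gcongr
  rw [Real.exp_neg]
  apply inv_anti₀ (mulHeight₁_pos _)
  rw [logHeight₁_eq_log_mulHeight₁, Real.log_le_iff_le_exp (mulHeight₁_pos _)] at h7
  exact h7

end H32.T3

end S_H32_T3_D1

section S_H32_T3_D2

open UpperHalfPlane hiding I
open Complex EisensteinSeries ModularForm MatrixGroups Manifold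
open scoped Real Topology

namespace H32.T3

open Height Height.AdmissibleAbsValues Finset NumberField Filter

lemma ps_eq (τ : ℍ) (h4 : E₄ τ ≠ 0) (h6 : E₆ τ ≠ 0) :
    ps τ = ph τ - 12 / (((τ : ℂ) - (starRingEnd ℂ) τ) * Wf τ) := by
  have hpi : (π : ℂ) ≠ 0 := by exact_mod_cast Real.pi_ne_zero
  have him : ((τ.im : ℝ) : ℂ) ≠ 0 := by exact_mod_cast τ.im_pos.ne'
  have hsub : (τ : ℂ) - (starRingEnd ℂ) τ = 2 * ((τ.im : ℝ) : ℂ) * Complex.I := by
    rw [Complex.sub_conj, UpperHalfPlane.coe_im]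
    push_cast
    ring
  rw [hsub, ps, ph, Wf, e2, e4, e6, ofComplex_apply, UpperHalfPlane.coe_im]
  field_simp
  ring_nf
  rw [Complex.I_sq]
  ring

/-- The number field attached to a root. -/
theorem point_bound_n (n : ℕ) : ∃ A : ℕ, ∀ (r : Fin n → Fin n) (a : Fin n)
    (G : ℕ → MvPolynomial (Fin n × Fin 5) ℤ) (m : ℕ), ∃ C1 : ℕ,
    ∀ (H : ℕ) (t : Fin n → ℍ), Tup n H r t →
    (∀ i, E₄ (t i) ≠ 0 ∧ E₆ (t i) ≠ 0) →
    MvPolynomial.aeval (Y5 r (fun i ↦ (t i : ℂ))) (G m) ≠ 0 → ∀ e ρ : ℂ,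
    4 * e ^ 3 - 2 * (27 / 2 * (E₄ (t a) ^ 3 / E₆ (t a) ^ 2)) * e -
        2 * (27 / 2 * (E₄ (t a) ^ 3 / E₆ (t a) ^ 2)) = 0 →
    ∑ i ∈ range (m + 1), MvPolynomial.aeval (Y5 r (fun i ↦ (t i : ℂ))) (G i) * ρ ^ i = 0 →
    ∃ (L : Type) (_ : Field L) (_ : NumberField L) (s : L →+* ℂ) (x0 x3 x4 : L),
      s x0 = e ∧ s x3 = 27 / 2 * (E₄ (t a) ^ 3 / E₆ (t a) ^ 2) ∧
      s x4 = 3 / 2 * (ph (t a) - 12 / (((t a : ℂ) - (starRingEnd ℂ) (t a)) * ρ)) ∧
      totalWeight L ≤ C1 * H ^ (2 * A) ∧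
      mulHeight₁ x0 ≤ Real.exp ((C1 * H ^ (2 * A) : ℕ) : ℝ) ∧
      mulHeight₁ x3 ≤ Real.exp ((C1 * H ^ (2 * A) : ℕ) : ℝ) ∧
      mulHeight₁ x4 ≤ Real.exp ((C1 * H ^ (2 * A) : ℕ) : ℝ) := by
  obtain ⟨A, hA⟩ := field_n n
  refine ⟨A, fun r a G m ↦ ?_⟩
  set D : ℕ := ∑ i ∈ range (m + 1), (G i).totalDegree with hD
  set B : ℝ := 1 + ∑ i ∈ range (m + 1), nrm (G i) with hB
  have hBs : 0 ≤ ∑ i ∈ range (m + 1), nrm (G i) := sum_nonneg fun i _ ↦ nrm_nonneg _
  have hB1 : 1 ≤ B := by rw [hB]; linarith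
  have hlB : 0 ≤ Real.log B := Real.log_nonneg hB1
  -- the budget
  set N5 : ℕ := 5 * n with hN5
  set Q : ℝ := 2000 + m + Real.log B + N5 * D with hQ
  set C1 : ℕ := ⌈Q⌉₊ * (3 * m + 1) with hC1
  refine ⟨C1, fun H t hTup hne hGm e ρ he hρ ↦ ?_⟩
  obtain ⟨K, hK, hKA, hL⟩ := hA r H t hTup hne
  have hH : 2 ≤ H := hTup.1
  have hH2 : (2 : ℝ) ≤ H := by exact_mod_cast hH
  have hT1 : (1 : ℝ) ≤ (H : ℝ) ^ A := one_le_pow₀ (by linarith)
  set T : ℝ := (H : ℝ) ^ A with hT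
  set τ := t a with hτ
  have h6 : E₆ τ ≠ 0 := (hne a).2
  have hΔ := discriminant_ne_zero τ
  have hJ1728 : jf τ - 1728 ≠ 0 := by
    intro h0
    have := jf_sub τ
    rw [h0, zero_mul] at this
    exact pow_ne_zero 2 h6 this.symm
  have hh : 27 / 2 * (E₄ τ ^ 3 / E₆ τ ^ 2) = 27 / 2 * (jf τ / (jf τ - 1728)) := by
    congr 1
    rw [← jf_mul, ← jf_sub]
    field_simp
  set h := 27 / 2 * (E₄ τ ^ 3 / E₆ τ ^ 2) with hhdef
  have hcard : Fintype.card (Fin n × Fin 5) = N5 := by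
    rw [Fintype.card_prod, Fintype.card_fin, Fintype.card_fin, mul_comm]
  -- first step: adjoin `ρ`
  have hNF : NumberField K := { to_charZero := inferInstance, to_finiteDimensional := hK }
  obtain ⟨v, hv, -⟩ := hL K (algebraMap K ℂ) (fun x hx ↦ ⟨⟨x, hx⟩, rfl⟩)
  have hval : ∀ P : MvPolynomial (Fin n × Fin 5) ℤ,
      algebraMap K ℂ (MvPolynomial.aeval v P) =
        MvPolynomial.aeval (Y5 r (fun i ↦ (t i : ℂ))) P := by
    intro P
    have h5 := MvPolynomial.comp_aeval_apply v (algebraMap K ℂ).toIntAlgHom P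
    have h6 : (fun i ↦ (algebraMap K ℂ).toIntAlgHom (v i)) = Y5 r (fun i ↦ (t i : ℂ)) := by
      ext x
      exact hv x
    rw [h6] at h5
    exact h5
  set f : Polynomial K := ∑ i ∈ range (m + 1),
    Polynomial.C (MvPolynomial.aeval v (G i)) * Polynomial.X ^ i with hf
  have hfd : f.natDegree ≤ m := by
    refine Polynomial.natDegree_sum_le_of_forall_le _ _ fun i hi ↦ ?_
    exact (Polynomial.natDegree_C_mul_X_pow_le _ _).trans (Nat.lt_succ_iff.mp (mem_range.mp hi))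
  have hf0 : f ≠ 0 := by
    intro h0
    have h1 := congrArg (fun p ↦ p.coeff m) h0
    simp only [hf, Polynomial.finsetSum_coeff, Polynomial.coeff_C_mul, Polynomial.coeff_X_pow,
      Polynomial.coeff_zero] at h1
    rw [sum_eq_single m] at h1
    · rw [if_pos rfl, mul_one] at h1
      apply hGm
      rw [← hval, h1, map_zero]
    · intro i _ hi
      rw [if_neg (Ne.symm hi), mul_zero]
    · intro hM
      exact absurd (mem_range.mpr (Nat.lt_succ_self m)) hM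
  obtain ⟨K1, hK1, hρ1, hf1, hd1⟩ := one_step K ρ f hf0 (by
    rw [hf, map_sum, ← hρ]
    refine sum_congr rfl fun i _ ↦ ?_
    rw [map_mul, Polynomial.aeval_C, map_pow, Polynomial.aeval_X, hval])
  -- second step: adjoin `e`
  have hhK : h ∈ K1 := by
    rw [hh]
    have hJK : jf τ ∈ K1 := by
      apply hK1
      have : jf τ = algebraMap K ℂ (v (a, 2)) := by
        rw [hv]
        exact (jc_coe τ).symm
      rw [this]
      exact (v (a, 2)).2
    have h27 : (27 / 2 : ℂ) ∈ K1 := by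
      have : (27 / 2 : ℂ) = algebraMap ℚ ℂ (27 / 2) := by simp
      rw [this]
      exact K1.algebraMap_mem _
    have h17 : (1728 : ℂ) ∈ K1 := by
      have : (1728 : ℂ) = algebraMap ℚ ℂ 1728 := by simp
      rw [this]
      exact K1.algebraMap_mem _
    exact K1.mul_mem h27 (K1.div_mem hJK (K1.sub_mem hJK h17))
  set g : Polynomial K1 := Polynomial.C 4 * Polynomial.X ^ 3 -
    Polynomial.C (2 * ⟨h, hhK⟩) * Polynomial.X - Polynomial.C (2 * ⟨h, hhK⟩) with hg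
  have hgd : g.natDegree ≤ 3 := by
    rw [hg]
    compute_degree
  have hg0 : g ≠ 0 := by
    intro h0
    have h1 := congrArg (fun p ↦ p.coeff 3) h0
    simp only [hg, Polynomial.coeff_sub, Polynomial.coeff_C_mul, Polynomial.coeff_X_pow,
      Polynomial.coeff_X, Polynomial.coeff_C, Polynomial.coeff_zero] at h1
    norm_num at h1
  obtain ⟨K2, hK2, he2, hf2, hd2⟩ := one_step K1 e g hg0 (by
    rw [hg, map_sub, map_sub, map_mul, map_mul, map_pow, Polynomial.aeval_X, Polynomial.aeval_C,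
      Polynomial.aeval_C, ← he]
    have e1 : algebraMap K1 ℂ (2 * ⟨h, hhK⟩) = 2 * h := rfl
    rw [e1]
    rfl)
  have hNF2 : NumberField K2 := { to_charZero := inferInstance, to_finiteDimensional := hf2 }
  obtain ⟨v', hv', hvb⟩ := hL K2 (algebraMap K2 ℂ) (fun x hx ↦ ⟨⟨x, hK2 (hK1 hx)⟩, rfl⟩)
  have hval' : ∀ P : MvPolynomial (Fin n × Fin 5) ℤ,
      algebraMap K2 ℂ (MvPolynomial.aeval v' P) =
        MvPolynomial.aeval (Y5 r (fun i ↦ (t i : ℂ))) P := by
    intro P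
    have h5 := MvPolynomial.comp_aeval_apply v' (algebraMap K2 ℂ).toIntAlgHom P
    have h6 : (fun i ↦ (algebraMap K2 ℂ).toIntAlgHom (v' i)) = Y5 r (fun i ↦ (t i : ℂ)) := by
      ext x
      exact hv' x
    rw [h6] at h5
    exact h5
  set rt : K2 := ⟨ρ, hK2 hρ1⟩ with hrt
  set ee : K2 := ⟨e, he2⟩ with hee
  have hJ' : algebraMap K2 ℂ (v' (a, 2)) = jf τ := (hv' (a, 2)).trans (jc_coe τ)
  have ht' : algebraMap K2 ℂ (v' (a, 0)) = (τ : ℂ) := hv' (a, 0)
  have htb' : algebraMap K2 ℂ (v' (a, 1)) = (starRingEnd ℂ) (τ : ℂ) := hv' (a, 1)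
  have hph' : algebraMap K2 ℂ (v' (a, 3)) = ph τ := hv' (a, 3)
  set x3 : K2 := ((27 : ℤ) : K2) / ((2 : ℤ) : K2) *
    (v' (a, 2) / (v' (a, 2) - ((1728 : ℤ) : K2))) with hx3
  have hx3v : algebraMap K2 ℂ x3 = h := by
    rw [hx3, hh, map_mul, map_div₀, map_div₀, map_sub, hJ', map_intCast, map_intCast, map_intCast]
    push_cast
    rfl
  -- heights
  have hx3b : HB (2 * T + 1758) x3 :=
    (((HB.int 27).div (HB.int 2)).mul ((hvb (a, 2)).div ((hvb (a, 2)).sub (HB.int 1728)))).mono (by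
      norm_num
      linarith)
  have hrb : HB (m + Real.log B + N5 * D * T) rt := by
    have hroot := HB.root hvb (n := m) (fun j ↦ if j ≤ m then G j else 0) (D := D)
      (fun j ↦ by
        split_ifs with hj
        · exact single_le_sum (f := fun i ↦ (G i).totalDegree) (fun _ _ ↦ Nat.zero_le _)
            (mem_range.mpr (Nat.lt_succ_of_le hj))
        · simp) (B := B) hB1 (fun j ↦ by
        split_ifs with hj
        · have := single_le_sum (f := fun i ↦ nrm (G i)) (fun _ _ ↦ nrm_nonneg _)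
            (mem_range.mpr (Nat.lt_succ_of_le hj))
          rw [hB]
          linarith
        · rw [nrm_zero]; linarith) rt ?_ ?_
    · refine hroot.mono ?_
      rw [hcard]
    · rw [if_pos le_rfl]
      intro h0
      apply hGm
      rw [← hval', h0, map_zero]
    · apply (algebraMap K2 ℂ).injective
      rw [map_zero, map_sum, ← hρ]
      refine sum_congr rfl fun i hi ↦ ?_
      rw [if_pos (Nat.lt_succ_iff.mp (mem_range.mp hi)), map_mul, map_pow, hval']
      rfl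
  set x4 : K2 := ((3 : ℤ) : K2) / ((2 : ℤ) : K2) *
    (v' (a, 3) - ((12 : ℤ) : K2) / ((v' (a, 0) - v' (a, 1)) * rt)) with hx4
  have hx4b : HB (3 * T + 19 + (m + Real.log B + N5 * D * T)) x4 :=
    (((HB.int 3).div (HB.int 2)).mul ((hvb (a, 3)).sub ((HB.int 12).div
      (((hvb (a, 0)).sub (hvb (a, 1))).mul hrb)))).mono (by
        norm_num
        linarith)
  have hx4v : algebraMap K2 ℂ x4 =
      3 / 2 * (ph τ - 12 / (((τ : ℂ) - (starRingEnd ℂ) τ) * ρ)) := by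
    have e1 : algebraMap K2 ℂ rt = ρ := rfl
    rw [hx4, map_mul, map_div₀, map_sub, map_div₀, map_mul, map_sub, hph', ht', htb', e1,
      map_intCast, map_intCast, map_intCast]
    push_cast
    rfl
  have heb : HB (2 * T + 1765) ee := by
    have hroot := HB.root (ι := Fin 1) (x := fun _ ↦ x3) (fun _ ↦ hx3b) (n := 3)
      (fun j ↦ if j = 0 then MvPolynomial.C (-2) * MvPolynomial.X 0 else
        if j = 1 then MvPolynomial.C (-2) * MvPolynomial.X 0 else
        if j = 3 then MvPolynomial.C 4 else 0) (D := 1)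
      (fun j ↦ by
        have e1 : (MvPolynomial.C (-2) * MvPolynomial.X 0 :
            MvPolynomial (Fin 1) ℤ).totalDegree ≤ 1 := by
          refine (MvPolynomial.totalDegree_mul _ _).trans ?_
          rw [MvPolynomial.totalDegree_C, MvPolynomial.totalDegree_X]
        split_ifs
        · exact e1
        · exact e1
        · rw [MvPolynomial.totalDegree_C]; norm_num
        · simp) (B := 4) (by norm_num) (fun j ↦ by
        have e1 : nrm (MvPolynomial.C (-2) * MvPolynomial.X 0 : MvPolynomial (Fin 1) ℤ) ≤ 4 := by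
          refine (nrm_mul_le _ _).trans ?_
          rw [nrm_C, nrm_X]
          norm_num
        split_ifs
        · exact e1
        · exact e1
        · rw [nrm_C]; norm_num
        · rw [nrm_zero]; norm_num) ee ?_ ?_
    · refine hroot.mono ?_
      have h4 : Real.log 4 ≤ 4 - 1 := Real.log_le_sub_one_of_pos (by norm_num)
      simp only [Fintype.card_fin, Nat.cast_one, one_mul, Nat.cast_ofNat]
      linarith
    · rw [if_neg (by norm_num), if_neg (by norm_num), if_pos rfl, MvPolynomial.aeval_C]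
      simp
    · clear_value x3
      have hrel : 4 * ee ^ 3 - 2 * x3 * ee - 2 * x3 = 0 := by
        apply (algebraMap K2 ℂ).injective
        have e1 : algebraMap K2 ℂ ee = e := rfl
        simp only [map_zero, map_sub, map_mul, map_pow, hx3v, map_ofNat, e1]
        exact he
      simp only [sum_range_succ, sum_range_zero]
      norm_num [MvPolynomial.aeval_C, MvPolynomial.aeval_X]
      linear_combination hrel
  have hd : Module.finrank ℚ K2 ≤ H ^ A * (3 * m + 1) := by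
    calc Module.finrank ℚ K2 ≤ Module.finrank ℚ K1 * 3 := hd2.trans (Nat.mul_le_mul_left _ hgd)
      _ ≤ (Module.finrank ℚ K * m) * 3 :=
        Nat.mul_le_mul_right _ (hd1.trans (Nat.mul_le_mul_left _ hfd))
      _ ≤ (H ^ A * m) * 3 := by gcongr
      _ = H ^ A * (3 * m) := by ring
      _ ≤ H ^ A * (3 * m + 1) := by gcongr; omega
  have hQ0 : 0 ≤ Q := by
    rw [hQ]
    positivity
  have hQceil : Q ≤ (⌈Q⌉₊ : ℝ) := Nat.le_ceil Q
  have hC1' : (C1 : ℝ) * T ^ 2 = ⌈Q⌉₊ * T * (T * (3 * m + 1)) := by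
    rw [hC1]; push_cast; ring
  have hd' : (totalWeight K2 : ℝ) ≤ T * (3 * m + 1) := by
    rw [totalWeight_eq_finrank, hT]
    exact_mod_cast hd
  have hfin : ∀ (S : ℝ) (x : K2), 0 ≤ S → HB S x → S ≤ Q * T →
      mulHeight₁ x ≤ Real.exp ((C1 * H ^ (2 * A) : ℕ) : ℝ) := by
    intro S x hS hx hSQ
    unfold HB at hx
    rw [← Real.log_le_iff_le_exp (mulHeight₁_pos _), ← logHeight₁_eq_log_mulHeight₁]
    have e1 : ((C1 * H ^ (2 * A) : ℕ) : ℝ) = C1 * T ^ 2 := by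
      rw [hT]; push_cast; ring
    rw [e1, hC1']
    calc logHeight₁ x ≤ S * totalWeight K2 := hx
      _ ≤ (⌈Q⌉₊ * T) * (T * (3 * m + 1)) := by
        have : S ≤ ⌈Q⌉₊ * T := hSQ.trans (by gcongr)
        gcongr
  have hQT : Q * T = 2000 * T + m * T + Real.log B * T + N5 * D * T := by rw [hQ]; ring
  have hnT : (m : ℝ) ≤ m * T := le_mul_of_one_le_right (by positivity) hT1
  have hlT : Real.log B ≤ Real.log B * T := le_mul_of_one_le_right hlB hT1
  have hDT0 : (0 : ℝ) ≤ N5 * D * T := by positivity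
  have hnT0 : (0 : ℝ) ≤ m * T := by positivity
  have hlT0 : (0 : ℝ) ≤ Real.log B * T := by positivity
  refine ⟨K2, inferInstance, hNF2, algebraMap K2 ℂ, ee, x3, x4,
    rfl, hx3v, hx4v, ?_, hfin _ _ (by positivity) heb ?_, hfin _ _ (by positivity) hx3b ?_,
    hfin _ _ (by positivity) hx4b ?_⟩
  · rw [totalWeight_eq_finrank]
    refine hd.trans ?_
    have h5 : 1 ≤ ⌈Q⌉₊ := by
      rw [Nat.one_le_ceil_iff, hQ]
      positivity
    have h6 : 1 ≤ H ^ A := Nat.one_le_pow _ _ (by omega)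
    calc H ^ A * (3 * m + 1) = 1 * (1 * (H ^ A * (3 * m + 1))) := by ring
      _ ≤ ⌈Q⌉₊ * (H ^ A * (H ^ A * (3 * m + 1))) := by gcongr
      _ = C1 * H ^ (2 * A) := by rw [hC1]; ring
  · rw [hQT]; linarith
  · rw [hQT]; linarith
  · rw [hQT]; linarith

end H32.T3

end S_H32_T3_D2

section S_H32_T3_D3

open UpperHalfPlane hiding I
open Complex EisensteinSeries ModularForm MatrixGroups Manifold
open scoped Real Topology

namespace H32.T3

open Height Height.AdmissibleAbsValues Finset NumberField Filter Asymptotics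

/-- Simultaneous approximations. -/
structure ApxN (κ n : ℕ) (r : Fin n → Fin n) (z : Fin n → ℂ) where
  /-- heights -/
  H : ℕ → ℕ
  /-- the points -/
  t : ℕ → Fin n → ℍ
  hH : ∀ k, k + 2 ≤ H k
  hT : ∀ k, Tup n (H k) r (t k)
  hlt : ∀ k i, ‖z i - t k i‖ < Real.exp (-(H k : ℝ) ^ κ)
  hne : ∀ k i, (t k i : ℂ) ≠ z i

lemma ApxN.apx {κ n : ℕ} {r : Fin n → Fin n} {z : Fin n → ℂ} (S : ApxN κ n r z) {κ' : ℕ} (h : 4 * κ' ≤ κ)
    (i : Fin n) : Nonempty (Apx κ' (z i)) := by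
  have h1 : ∀ k, ∃ a b c : ℤ, 0 < a ∧ |a| ≤ (S.H k ^ 4 : ℕ) ∧ |b| ≤ (S.H k ^ 4 : ℕ) ∧
      |c| ≤ (S.H k ^ 4 : ℕ) ∧ (a : ℂ) * (S.t k i : ℂ) ^ 2 + b * (S.t k i : ℂ) + c = 0 := by
    intro k
    obtain ⟨hH, d, w, u, v, s, huv, -⟩ := S.hT k
    obtain ⟨hd, hw1, hw, hu, hv1, hv, hs, ht⟩ := huv i
    obtain ⟨c1, c2, c3, c4⟩ := cm_uv_bounds hH hd hw1 hw hu hv
    exact ⟨_, _, _, c1, c2, c3, c4, cm_uv hw1 hs ht⟩
  choose a b c h2 h3 h4 h5 h6 using h1
  refine ⟨⟨fun k ↦ S.H k ^ 4, a, b, c, fun k ↦ S.t k i, ?_, h2, h3, h4, h5, h6, ?_,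
    fun k ↦ S.hne k i⟩⟩
  · intro k
    exact (S.hH k).trans (Nat.le_self_pow (by norm_num) _)
  · intro k
    refine (S.hlt k i).trans_le ?_
    apply Real.exp_le_exp.mpr
    apply neg_le_neg
    push_cast
    rw [← pow_mul]
    have : (1 : ℝ) ≤ S.H k := by exact_mod_cast (by have := S.hH k; omega : 1 ≤ S.H k)
    exact pow_le_pow_right₀ this h

theorem e46_ne_n : ∃ A : ℕ, ∀ (κ : ℕ), A < κ → ∀ (n : ℕ) (r : Fin n → Fin n) (z : Fin n → ℂ)
    (_ : ApxN κ n r z), (∀ i, 0 < (z i).im) → ∀ i, e4 (z i) ≠ 0 ∧ e6 (z i) ≠ 0 := by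
  obtain ⟨A, hA⟩ := e46_ne
  refine ⟨4 * (A + 1), fun κ hκ n r z S hz i ↦ ?_⟩
  obtain ⟨T⟩ := S.apx (κ' := A + 1) (by omega) i
  exact hA (A + 1) (by omega) (z i) T (hz i)

lemma ApxN.tendsto {κ n : ℕ} (hκ : 1 ≤ κ) {r : Fin n → Fin n} {z : Fin n → ℂ}
    (S : ApxN κ n r z) :
    Tendsto (fun k i ↦ (S.t k i : ℂ)) atTop (𝓝 z) := by
  rw [tendsto_iff_norm_sub_tendsto_zero]
  have h1 : Tendsto (fun n : ℕ ↦ Real.exp (-(n : ℝ))) atTop (𝓝 0) :=
    Real.tendsto_exp_neg_atTop_nhds_zero.comp tendsto_natCast_atTop_atTop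
  refine squeeze_zero (fun _ ↦ norm_nonneg _) (fun k ↦ ?_) h1
  rw [pi_norm_le_iff_of_nonneg (Real.exp_pos _).le]
  intro i
  rw [Pi.sub_apply, norm_sub_rev]
  refine (S.hlt k i).le.trans (Real.exp_le_exp.mpr (neg_le_neg ?_))
  have h2 : (k : ℝ) ≤ S.H k := by exact_mod_cast (Nat.le_of_lt (by have := S.hH k; omega))
  have h3 : (1 : ℝ) ≤ S.H k := by exact_mod_cast (by have := S.hH k; omega : 1 ≤ S.H k)
  exact h2.trans (le_self_pow₀ h3 (by omega))

lemma ApxN.tendsto_ne {κ n : ℕ} (hκ : 1 ≤ κ) {r : Fin n → Fin n} {z : Fin n → ℂ}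
    (S : ApxN κ n r z) (i : Fin n) : Tendsto (fun k ↦ (S.t k i : ℂ)) atTop (𝓝[≠] (z i)) :=
  tendsto_nhdsWithin_iff.mpr ⟨(tendsto_pi_nhds.mp (S.tendsto hκ)) i,
    Eventually.of_forall fun k ↦ S.hne k i⟩

lemma diff_Wf {z : ℂ} (hz : 0 < z.im) (h4 : e4 z ≠ 0) : DifferentiableAt ℝ Wf z := by
  have d4 : DifferentiableAt ℝ e4 z := (hasDeriv_e4 hz).differentiableAt.restrictScalars ℝ
  have d6 : DifferentiableAt ℝ e6 z := (hasDeriv_e6 hz).differentiableAt.restrictScalars ℝ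
  exact ((differentiableAt_const _).mul d6).mul (d4.inv h4)

lemma Wf_ne {w : ℂ} (h4 : e4 w ≠ 0) (h6 : e6 w ≠ 0) : Wf w ≠ 0 := by
  have hpi : (π : ℂ) ≠ 0 := by exact_mod_cast Real.pi_ne_zero
  rw [Wf]
  exact div_ne_zero (mul_ne_zero (mul_ne_zero (mul_ne_zero two_ne_zero hpi) Complex.I_ne_zero) h6) h4

lemma diff_ph {z : ℂ} (hz : 0 < z.im) (h6 : e6 z ≠ 0) : DifferentiableAt ℝ ph z :=
  diff_V4 hz h6 3

lemma diff_V5 {n : ℕ} (r : Fin n → Fin n) (a : Fin n) {z : Fin n → ℂ} (hz : ∀ i, 0 < (z i).im)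
    (h : ∀ i, e4 (z i) ≠ 0 ∧ e6 (z i) ≠ 0) (x : Fin n × Fin 5) :
    DifferentiableAt ℝ (fun w : Fin n → ℂ ↦ V5 r a w x) z := by
  obtain ⟨i, l⟩ := x
  have hp : DifferentiableAt ℝ (fun w : Fin n → ℂ ↦ w i) z := differentiableAt_apply i z
  have hp' : DifferentiableAt ℝ (fun w : Fin n → ℂ ↦ w (r i)) z := differentiableAt_apply (r i) z
  have r1 : DifferentiableAt ℝ (starRingEnd ℂ : ℂ → ℂ) (z i) := Complex.conjCLE.differentiableAt
  have r2 : DifferentiableAt ℝ jc (z i) :=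
    (hasDeriv_jc (hz i)).differentiableAt.restrictScalars ℝ
  have r3 := diff_ph (hz i) (h i).2
  have r4 := diff_Wf (hz i) (h i).1
  have r4' := diff_Wf (hz (r i)) (h (r i)).1
  have q1 := DifferentiableAt.comp z r1 hp
  have q2 := DifferentiableAt.comp z r2 hp
  have q3 := DifferentiableAt.comp z r3 hp
  have q4 : DifferentiableAt ℝ (fun w : Fin n → ℂ ↦ Wf (w i)) z :=
    DifferentiableAt.comp (g := Wf) z r4 hp
  have q4' : DifferentiableAt ℝ (fun w : Fin n → ℂ ↦ Wf (w (r i))) z :=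
    DifferentiableAt.comp (g := Wf) z r4' hp'
  have q5 : DifferentiableAt ℝ (fun w : Fin n → ℂ ↦ wv r a w i) z := by
    by_cases hi : r i = a
    · simp only [wv, if_pos hi]
      exact q4
    · simp only [wv, if_neg hi, div_eq_mul_inv]
      exact q4.mul (q4'.inv (Wf_ne (h (r i)).1 (h (r i)).2))
  fin_cases l
  · exact hp
  · exact q1
  · exact q2
  · exact q3
  · exact q5

lemma diff_aeval5 {n : ℕ} (r : Fin n → Fin n) (a : Fin n) {z : Fin n → ℂ} (hz : ∀ i, 0 < (z i).im)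
    (h : ∀ i, e4 (z i) ≠ 0 ∧ e6 (z i) ≠ 0) (G : MvPolynomial (Fin n × Fin 5) ℤ) :
    DifferentiableAt ℝ (fun w : Fin n → ℂ ↦ MvPolynomial.aeval (V5 r a w) G) z := by
  induction G using MvPolynomial.induction_on with
  | C c =>
    simp only [MvPolynomial.aeval_C]
    exact differentiableAt_const _
  | add p q hp hq =>
    simp only [map_add]
    exact hp.add hq
  | mul_X p i hp =>
    simp only [map_mul, MvPolynomial.aeval_X]
    exact hp.mul (diff_V5 r a hz h i)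

/-- Homogenisation in the last variables. -/
noncomputable def Th (n : ℕ) (r : Fin n → Fin n) (a : Fin n) : MvPolynomial (Fin n × Fin 5) ℤ →ₐ[ℤ]
    Polynomial (MvPolynomial (Fin n × Fin 5) ℤ) :=
  MvPolynomial.aeval fun x ↦ if x.2 = 4 ∧ r x.1 = a then
    Polynomial.C (MvPolynomial.X x) * Polynomial.X else Polynomial.C (MvPolynomial.X x)

lemma Th_eval {n : ℕ} (r : Fin n → Fin n) (a : Fin n) (G : MvPolynomial (Fin n × Fin 5) ℤ)
    (y : Fin n × Fin 5 → ℂ) (b : ℂ) :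
    ((Th n r a G).map (MvPolynomial.aeval y : MvPolynomial (Fin n × Fin 5) ℤ →ₐ[ℤ] ℂ).toRingHom).eval
      b = MvPolynomial.aeval (fun x ↦ if x.2 = 4 ∧ r x.1 = a then y x * b else y x) G := by
  induction G using MvPolynomial.induction_on with
  | C c =>
    simp [Th]
  | add p q hp hq =>
    simp only [map_add, Polynomial.map_add, Polynomial.eval_add, hp, hq]
  | mul_X p i hp =>
    simp only [map_mul, Polynomial.map_mul, Polynomial.eval_mul, hp, MvPolynomial.aeval_X]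
    congr 1
    rw [Th, MvPolynomial.aeval_X]
    by_cases h : i.2 = 4 ∧ r i.1 = a
    · rw [if_pos h, if_pos h]
      simp
    · rw [if_neg h, if_neg h]
      simp

lemma V5_eq {n : ℕ} {r : Fin n → Fin n} {a : Fin n} {w : Fin n → ℂ} (h : Wf (w a) ≠ 0) :
    V5 r a w = fun x ↦ if x.2 = 4 ∧ r x.1 = a then Y5 r w x * Wf (w a) else Y5 r w x := by
  ext ⟨i, l⟩
  by_cases hl : l = 4
  · subst hl
    by_cases hi : r i = a
    · rw [if_pos ⟨rfl, hi⟩]
      change wv r a w i = Wf (w i) / Wf (w (r i)) * Wf (w a)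
      rw [wv, if_pos hi, hi]
      field_simp
    · rw [if_neg (fun h ↦ hi h.2)]
      change wv r a w i = Wf (w i) / Wf (w (r i))
      rw [wv, if_neg hi]
  · rw [if_neg (fun h ↦ hl h.1)]
    fin_cases l
    · have e1 : V5 r a w (i, 0) = w i := rfl
      have e2 : Y5 r w (i, 0) = w i := rfl
      exact e1.trans e2.symm
    · have e1 : V5 r a w (i, 1) = (starRingEnd ℂ) (w i) := rfl
      have e2 : Y5 r w (i, 1) = (starRingEnd ℂ) (w i) := rfl
      exact e1.trans e2.symm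
    · have e1 : V5 r a w (i, 2) = jc (w i) := rfl
      have e2 : Y5 r w (i, 2) = jc (w i) := rfl
      exact e1.trans e2.symm
    · have e1 : V5 r a w (i, 3) = ph (w i) := rfl
      have e2 : Y5 r w (i, 3) = ph (w i) := rfl
      exact e1.trans e2.symm
    · exact absurd rfl hl

lemma near_bound {W ρ y φ : ℂ} {c0 y0 E : ℝ} (hc0 : 0 < c0) (hW : c0 ≤ ‖W‖) (hy0 : 0 < y0)
    (hy : y0 ≤ ‖y‖) (hE0 : 0 ≤ E) (hE1 : E ≤ 1)
    (h : E ≤ ‖3 / 2 * (φ - 12 / (y * W)) - 3 / 2 * (φ - 12 / (y * ρ))‖) :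
    min (c0 / 2) (y0 * c0 ^ 2 / 36) * E ≤ ‖W - ρ‖ := by
  rcases le_or_gt (c0 / 2) ‖W - ρ‖ with h1 | h1
  · refine le_trans ?_ h1
    calc min (c0 / 2) (y0 * c0 ^ 2 / 36) * E ≤ c0 / 2 * 1 := by
          have := min_le_left (c0 / 2) (y0 * c0 ^ 2 / 36)
          gcongr
      _ = _ := mul_one _
  have hρ : c0 / 2 ≤ ‖ρ‖ := by
    have := norm_sub_norm_le W ρ
    linarith
  have hW0 : W ≠ 0 := by
    intro h0
    rw [h0, norm_zero] at hW
    linarith
  have hρ0 : ρ ≠ 0 := by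
    intro h0
    rw [h0, norm_zero] at hρ
    linarith
  have hy00 : y ≠ 0 := by
    intro h0
    rw [h0, norm_zero] at hy
    linarith
  have e1 : 3 / 2 * (φ - 12 / (y * W)) - 3 / 2 * (φ - 12 / (y * ρ)) =
      18 * (W - ρ) / (y * ρ * W) := by
    field_simp
    ring
  have e2 : ‖(18 : ℂ)‖ = 18 := by norm_num
  rw [e1, norm_div, norm_mul, norm_mul, norm_mul, e2] at h
  have h2 : E ≤ 18 * ‖W - ρ‖ / (y0 * (c0 / 2) * c0) := by
    refine h.trans ?_
    gcongr
  rw [le_div_iff₀ (by positivity)] at h2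
  calc min (c0 / 2) (y0 * c0 ^ 2 / 36) * E ≤ y0 * c0 ^ 2 / 36 * E := by
        have := min_le_right (c0 / 2) (y0 * c0 ^ 2 / 36)
        gcongr
    _ = E * (y0 * (c0 / 2) * c0) / 18 := by ring
    _ ≤ _ := by linarith

end H32.T3

end S_H32_T3_D3

section S_H32_T3_D4

open UpperHalfPlane hiding I
open Complex EisensteinSeries ModularForm MatrixGroups Manifold
open scoped Real Topology

namespace H32.T3

open Height Height.AdmissibleAbsValues Finset NumberField Filter Asymptotics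

lemma root_ineq {m : ℕ} {δ c3 a C E1 E2 E3 : ℝ} (hc3 : 0 < c3) (hE2 : 0 ≤ E2)
    (hE3 : 0 < E3)
    (h1 : δ ^ m * a ≤ C * E1) (h2 : c3 * E2 ≤ δ) (h3 : E3 ≤ a) :
    c3 ^ m * (E2 ^ m * E3) ≤ C * E1 := by
  have hδ : 0 ≤ δ := le_trans (by positivity) h2
  have hδm : 0 ≤ δ ^ m := pow_nonneg hδ m
  calc c3 ^ m * (E2 ^ m * E3) = (c3 * E2) ^ m * E3 := by rw [mul_pow]; ring
    _ ≤ δ ^ m * a := by gcongr
    _ ≤ _ := h1

/-- The key step: no specialised relation of exact degree `m`. -/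
theorem no_rel (n : ℕ) : ∃ A : ℕ, ∀ (κ : ℕ), A < κ → ∀ (r : Fin n → Fin n) (a : Fin n)
    (z : Fin n → ℂ) (S : ApxN κ n r z),
    (∀ i, 0 < (z i).im) → ∀ (G : ℕ → MvPolynomial (Fin n × Fin 5) ℤ) (m : ℕ) (C' : ℝ),
    0 < C' →
    ∀ᶠ k in atTop, MvPolynomial.aeval (Y5 r (fun i ↦ (S.t k i : ℂ))) (G m) = 0 ∨
      C' * Real.exp (-(S.H k : ℝ) ^ κ) < ‖∑ i ∈ range (m + 1),
        MvPolynomial.aeval (Y5 r (fun i ↦ (S.t k i : ℂ))) (G i) * Wf (S.t k a) ^ i‖ := by
  obtain ⟨A, hA⟩ := point_bound_n n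
  obtain ⟨A', hA'⟩ := e46_ne_n
  obtain ⟨A'', hA''⟩ := liouville_n n
  refine ⟨44 * A + A' + A'', fun κ hκ r a z S hz G m C' hC'0 ↦ ?_⟩
  have h46 := hA' κ (by omega) n r z S hz
  obtain ⟨h4, h6⟩ := h46 a
  obtain ⟨CL, hCL0, hCL⟩ := hA'' r (G m)
  obtain ⟨C1, hC1⟩ := hA r a G m
  have h4' : E₄ (⟨z a, hz a⟩ : ℍ) ≠ 0 := by
    have : ofComplex (z a) = ⟨z a, hz a⟩ := ofComplex_apply_of_im_pos (hz a)
    rw [e4, this] at h4
    exact h4
  have h6' : E₆ (⟨z a, hz a⟩ : ℍ) ≠ 0 := by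
    have : ofComplex (z a) = ⟨z a, hz a⟩ := ofComplex_apply_of_im_pos (hz a)
    rw [e6, this] at h6
    exact h6
  obtain ⟨Λ0, hΛ⟩ := measure_tau ⟨z a, hz a⟩ h4' h6'
  have hTn := fun i ↦ S.tendsto_ne (by omega) i
  have hT0 : Tendsto (fun k ↦ (S.t k a : ℂ)) atTop (𝓝 (z a)) :=
    (tendsto_nhdsWithin_iff.mp (hTn a)).1
  have hTH : Tendsto (fun k ↦ S.t k a) atTop (𝓝 (⟨z a, hz a⟩ : ℍ)) := by
    rw [UpperHalfPlane.isEmbedding_coe.tendsto_nhds_iff]
    exact hT0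
  -- lower bounds
  set c0 : ℝ := ‖Wf (z a)‖ / 2 with hc0
  have hW0 : 0 < ‖Wf (z a)‖ := norm_pos_iff.mpr (Wf_ne h4 h6)
  have hc00 : 0 < c0 := by positivity
  have hWc : ∀ᶠ k in atTop, c0 < ‖Wf (S.t k a)‖ := by
    have h1 := (diff_Wf (hz a) h4).continuousAt.norm
    have h2 : ∀ᶠ w in 𝓝 (z a), c0 < ‖Wf w‖ := h1.eventually_const_lt (by linarith)
    exact hT0.eventually h2
  set y0 : ℝ := ‖z a - (starRingEnd ℂ) (z a)‖ / 2 with hy0
  have hyz : 0 < ‖z a - (starRingEnd ℂ) (z a)‖ := by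
    rw [norm_pos_iff, sub_ne_zero]
    intro h0
    have := Complex.conj_eq_iff_im.mp h0.symm
    have := hz a
    linarith
  have hy00 : 0 < y0 := by positivity
  have hyc : ∀ᶠ k in atTop, y0 < ‖(S.t k a : ℂ) - (starRingEnd ℂ) (S.t k a : ℂ)‖ := by
    have h1 : ContinuousAt (fun w : ℂ ↦ ‖w - (starRingEnd ℂ) w‖) (z a) :=
      (continuous_id.sub Complex.continuous_conj).norm.continuousAt
    have h2 : ∀ᶠ w in 𝓝 (z a), y0 < ‖w - (starRingEnd ℂ) w‖ :=
      h1.eventually_const_lt (by linarith)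
    exact hT0.eventually h2
  set c3 : ℝ := min (c0 / 2) (y0 * c0 ^ 2 / 36) with hc3
  have hc30 : 0 < c3 := by
    rw [hc3]
    positivity
  -- numerical contradictions
  obtain ⟨H0, hH0⟩ := num_contra (C := m * ((C1 + Λ0 : ℕ) : ℝ) ^ 22 + CL)
    (C' := C' / c3 ^ m) (44 * A + A'') κ (by omega) (by positivity)
  obtain ⟨H1, hH1⟩ := num_contra (C := CL) (C' := C') A'' κ (by omega) hC'0
  have hlarge : ∀ᶠ k : ℕ in atTop, max H0 H1 ≤ (k : ℝ) :=
    tendsto_natCast_atTop_atTop.eventually_ge_atTop _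
  have hne : ∀ᶠ k in atTop, ∀ i, E₄ (S.t k i) ≠ 0 ∧ E₆ (S.t k i) ≠ 0 := by
    rw [eventually_all]
    intro i
    filter_upwards [(hTn i).eventually (e4_ev (hz i)), (hTn i).eventually (e6_ev (hz i))] with
      k p1 p2
    rw [e4, ofComplex_apply] at p1
    rw [e6, ofComplex_apply] at p2
    exact ⟨p1, p2⟩
  filter_upwards [hTH.eventually hΛ, hWc, hyc, hlarge, hne] with k q3 q6 q7 q5 q8
  obtain ⟨e, he, hmeas⟩ := q3
  by_cases hGk : MvPolynomial.aeval (Y5 r (fun i ↦ (S.t k i : ℂ))) (G m) = 0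
  · exact Or.inl hGk
  right
  by_contra hcon
  rw [not_lt] at hcon
  have hkH : (k : ℝ) ≤ S.H k := by
    have := S.hH k
    exact_mod_cast (by omega : k ≤ S.H k)
  have hlow := (hCL (S.H k) (S.t k) (S.hT k) q8).resolve_left hGk
  have hn0 : m ≠ 0 := by
    intro h0
    subst h0
    rw [zero_add, sum_range_one, pow_zero, mul_one] at hcon
    have := hH1 (S.H k) (((le_max_right _ _).trans q5).trans hkH)
    linarith
  set τ := S.t k a with hτ
  obtain ⟨q84, q86⟩ := q8 a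
  -- the root
  set f : Polynomial ℂ := ∑ i ∈ range (m + 1),
    Polynomial.C (MvPolynomial.aeval (Y5 r (fun i ↦ (S.t k i : ℂ))) (G i)) * Polynomial.X ^ i with hf
  have hfc : f.coeff m = MvPolynomial.aeval (Y5 r (fun i ↦ (S.t k i : ℂ))) (G m) := by
    simp only [hf, Polynomial.finsetSum_coeff, Polynomial.coeff_C_mul, Polynomial.coeff_X_pow]
    rw [sum_eq_single m]
    · rw [if_pos rfl, mul_one]
    · intro i _ hi
      rw [if_neg (Ne.symm hi), mul_zero]
    · intro hM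
      exact absurd (mem_range.mpr (Nat.lt_succ_self m)) hM
  have hfd : f.natDegree ≤ m := by
    refine Polynomial.natDegree_sum_le_of_forall_le _ _ fun i hi ↦ ?_
    exact (Polynomial.natDegree_C_mul_X_pow_le _ _).trans (Nat.lt_succ_iff.mp (mem_range.mp hi))
  have hfd' : f.natDegree = m :=
    le_antisymm hfd (Polynomial.le_natDegree_of_ne_zero (by rw [hfc]; exact hGk))
  have hfev : ∀ y, f.eval y = ∑ i ∈ range (m + 1),
      MvPolynomial.aeval (Y5 r (fun i ↦ (S.t k i : ℂ))) (G i) * y ^ i := by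
    intro y
    rw [hf, Polynomial.eval_finsetSum]
    refine sum_congr rfl fun i _ ↦ ?_
    rw [Polynomial.eval_mul, Polynomial.eval_C, Polynomial.eval_pow, Polynomial.eval_X]
  obtain ⟨ρ, hρ, hρ2⟩ := exists_near_root f (by rw [hfd']; exact hn0) (Wf τ)
  rw [hfd', Polynomial.leadingCoeff, hfd', hfc, hfev] at hρ2
  rw [hfev] at hρ
  obtain ⟨L, iF, iN, s, x0, x3, x4, s0, s3, s4, b0, b1, b2, b3⟩ :=
    hC1 (S.H k) (S.t k) (S.hT k) q8 hGk e ρ he hρ
  set Λ : ℕ := (C1 + Λ0) * S.H k ^ (2 * A) with hΛdef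
  have hH1' : 1 ≤ S.H k := by have := S.hH k; omega
  have hHp : 1 ≤ S.H k ^ (2 * A) := Nat.one_le_pow _ _ hH1'
  have hle : C1 * S.H k ^ (2 * A) ≤ Λ := by
    rw [hΛdef]; gcongr; omega
  have hle' : Real.exp ((C1 * S.H k ^ (2 * A) : ℕ) : ℝ) ≤ Real.exp (Λ : ℝ) := by
    apply Real.exp_le_exp.mpr
    exact_mod_cast hle
  have hΛ0 : Λ0 ≤ Λ := by
    rw [hΛdef]
    calc Λ0 ≤ (C1 + Λ0) * 1 := by omega
      _ ≤ _ := Nat.mul_le_mul_left _ hHp
  have hm := hmeas L s x0 x3 x4 Λ hΛ0 (b0.trans hle) (b1.trans hle') (b2.trans hle')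
    (b3.trans hle') s0 s3
  have hpsτ : E2 τ * E₄ τ / E₆ τ = ps τ := by
    rw [ps, e2, e4, e6, ofComplex_apply]
  rw [s4, hpsτ, ps_eq τ q84 q86] at hm
  have hEle : Real.exp (-(Λ : ℝ) ^ 22) ≤ 1 := by
    rw [Real.exp_le_one_iff]
    have : (0 : ℝ) ≤ (Λ : ℝ) ^ 22 := by positivity
    linarith
  have hm2 : c3 * Real.exp (-(Λ : ℝ) ^ 22) ≤ ‖Wf τ - ρ‖ :=
    near_bound hc00 q6.le hy00 q7.le (Real.exp_pos _).le hEle hm
  have hm3 := root_ineq hc30 (Real.exp_pos _).le (Real.exp_pos _) (hρ2.trans hcon) hm2 hlow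
  have hm4 := hH0 (S.H k) (((le_max_left _ _).trans q5).trans hkH)
  have hHr : (1 : ℝ) ≤ S.H k := by exact_mod_cast hH1'
  have e1 : Real.exp (-((m * ((C1 + Λ0 : ℕ) : ℝ) ^ 22 + CL) * (S.H k : ℝ) ^ (44 * A + A''))) ≤
      Real.exp (-(Λ : ℝ) ^ 22) ^ m * Real.exp (-(CL * (S.H k : ℝ) ^ A'')) := by
    rw [← Real.exp_nat_mul, ← Real.exp_add]
    apply Real.exp_le_exp.mpr
    have e2 : (Λ : ℝ) ^ 22 = ((C1 + Λ0 : ℕ) : ℝ) ^ 22 * (S.H k : ℝ) ^ (44 * A) := by
      rw [hΛdef]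
      push_cast
      ring
    rw [e2]
    have e3 : (S.H k : ℝ) ^ (44 * A) ≤ (S.H k : ℝ) ^ (44 * A + A'') :=
      pow_le_pow_right₀ hHr (by omega)
    have e4 : (S.H k : ℝ) ^ A'' ≤ (S.H k : ℝ) ^ (44 * A + A'') :=
      pow_le_pow_right₀ hHr (by omega)
    have e5 : (m : ℝ) * (((C1 + Λ0 : ℕ) : ℝ) ^ 22 * (S.H k : ℝ) ^ (44 * A)) ≤
        m * (((C1 + Λ0 : ℕ) : ℝ) ^ 22 * (S.H k : ℝ) ^ (44 * A + A'')) := by gcongr
    have e6 : CL * (S.H k : ℝ) ^ A'' ≤ CL * (S.H k : ℝ) ^ (44 * A + A'') := by gcongr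
    linarith
  have hm5 := hm4.trans_le e1
  rw [div_mul_eq_mul_div, div_lt_iff₀ (by positivity)] at hm5
  linarith

/-- All relations at `z` hold at the tuples of CM points. -/
theorem transfer_n (n : ℕ) : ∃ A : ℕ, ∀ (κ : ℕ), A < κ → ∀ (r : Fin n → Fin n) (a : Fin n)
    (z : Fin n → ℂ) (S : ApxN κ n r z), (∀ i, 0 < (z i).im) →
    ∀ (G : MvPolynomial (Fin n × Fin 5) ℤ),
    MvPolynomial.aeval (V5 r a z) G = 0 →
    ∀ᶠ k in atTop, MvPolynomial.aeval (V5 r a (fun i ↦ (S.t k i : ℂ))) G = 0 := by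
  obtain ⟨A, hA⟩ := no_rel n
  obtain ⟨A', hA'⟩ := e46_ne_n
  refine ⟨A + A', fun κ hκ r a z S hz G hG ↦ ?_⟩
  have h46 := hA' κ (by omega) n r z S hz
  have hTn := fun i ↦ S.tendsto_ne (by omega) i
  -- the Lipschitz bound
  have hFO : (fun w : Fin n → ℂ ↦ MvPolynomial.aeval (V5 r a w) G) =O[𝓝 z] (fun w ↦ w - z) := by
    have h1 := (diff_aeval5 r a hz h46 G).isBigO_sub
    rw [hG] at h1
    simpa using h1
  obtain ⟨C', hC'0, hC'⟩ := hFO.exists_pos
  rw [IsBigOWith] at hC'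
  have hLip := (S.tendsto (by omega)).eventually hC'
  have hall : ∀ᶠ k in atTop, ∀ m ∈ range ((Th n r a G).natDegree + 1),
      MvPolynomial.aeval (Y5 r (fun i ↦ (S.t k i : ℂ))) ((Th n r a G).coeff m) = 0 ∨
      C' * Real.exp (-(S.H k : ℝ) ^ κ) < ‖∑ i ∈ range (m + 1),
        MvPolynomial.aeval (Y5 r (fun i ↦ (S.t k i : ℂ))) ((Th n r a G).coeff i) *
          Wf (S.t k a) ^ i‖ := by
    rw [Filter.eventually_all_finset]
    intro m _
    exact hA κ (by omega) r a z S hz (fun i ↦ (Th n r a G).coeff i) m C' hC'0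
  filter_upwards [hLip, hall, (hTn a).eventually (e4_ev (hz a)),
    (hTn a).eventually (e6_ev (hz a))] with k q1 q2 q3 q4
  have hW := Wf_ne q3 q4
  have hval : ∀ b : ℂ, ((Th n r a G).map (MvPolynomial.aeval (Y5 r (fun i ↦ (S.t k i : ℂ))) :
      MvPolynomial (Fin n × Fin 5) ℤ →ₐ[ℤ] ℂ).toRingHom).eval b =
      MvPolynomial.aeval (fun x ↦ if x.2 = 4 ∧ r x.1 = a then Y5 r (fun i ↦ (S.t k i : ℂ)) x * b else
        Y5 r (fun i ↦ (S.t k i : ℂ)) x) G := fun b ↦ Th_eval r a G _ b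
  set P : Polynomial ℂ := (Th n r a G).map (MvPolynomial.aeval (Y5 r (fun i ↦ (S.t k i : ℂ))) :
      MvPolynomial (Fin n × Fin 5) ℤ →ₐ[ℤ] ℂ).toRingHom with hP
  have hV : MvPolynomial.aeval (V5 r a (fun i ↦ (S.t k i : ℂ))) G = P.eval (Wf (S.t k a)) := by
    rw [hval, V5_eq (r := r) (a := a) (w := fun i ↦ (S.t k i : ℂ)) hW]
  have hcoeff : ∀ i, P.coeff i =
      MvPolynomial.aeval (Y5 r (fun i ↦ (S.t k i : ℂ))) ((Th n r a G).coeff i) := by
    intro i
    rw [hP, Polynomial.coeff_map]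
    rfl
  by_contra h0
  have hP0 : P ≠ 0 := by
    intro h1
    rw [hV, h1, Polynomial.eval_zero] at h0
    exact h0 rfl
  have hdeg : P.natDegree ≤ (Th n r a G).natDegree := Polynomial.natDegree_map_le
  rcases q2 P.natDegree (mem_range.mpr (by omega)) with h1 | h1
  · rw [← hcoeff] at h1
    exact hP0 (Polynomial.leadingCoeff_eq_zero.mp h1)
  · have h2 : ∑ i ∈ range (P.natDegree + 1),
        MvPolynomial.aeval (Y5 r (fun i ↦ (S.t k i : ℂ))) ((Th n r a G).coeff i) *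
          Wf (S.t k a) ^ i = P.eval (Wf (S.t k a)) := by
      rw [Polynomial.eval_eq_sum_range]
      refine sum_congr rfl fun i _ ↦ ?_
      rw [hcoeff]
    rw [h2, ← hV] at h1
    have h3 : ‖(fun i ↦ (S.t k i : ℂ)) - z‖ ≤ Real.exp (-(S.H k : ℝ) ^ κ) := by
      rw [pi_norm_le_iff_of_nonneg (Real.exp_pos _).le]
      intro i
      rw [Pi.sub_apply, norm_sub_rev]
      exact (S.hlt k i).le
    have h4 : C' * ‖(fun i ↦ (S.t k i : ℂ)) - z‖ ≤ C' * Real.exp (-(S.H k : ℝ) ^ κ) := by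
      gcongr
    exact absurd (h1.trans_le (q1.trans h4)) (lt_irrefl _)

end H32.T3

end S_H32_T3_D4

section S_H32_T3_D5

open UpperHalfPlane hiding I
open Complex EisensteinSeries ModularForm MatrixGroups Manifold
open scoped Real Topology

namespace H32.T3

open Finset Filter Asymptotics

/-- The errors. -/
noncomputable def gp {n : ℕ} (z τ : Fin n → ℂ) (x : Fin n × Bool) : ℝ :=
  if x.2 then |(τ x.1 - z x.1).re| else ‖τ x.1 - z x.1‖

/-- The shift. -/
noncomputable def al {n : ℕ} (x : Fin n × Bool) : ℂ := if x.2 then Complex.I else 0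

/-- The coordinate. -/
noncomputable def rr {n : ℕ} (τ : Fin n → ℂ) (x : Fin n × Bool) : ℂ :=
  if x.2 then ((τ x.1).re : ℂ) else τ x.1

lemma norm_rr {n : ℕ} (z τ : Fin n → ℂ) (x : Fin n × Bool) : ‖rr τ x - rr z x‖ = gp z τ x := by
  obtain ⟨i, b⟩ := x
  cases b
  · rfl
  · change ‖((τ i).re : ℂ) - ((z i).re : ℂ)‖ = |(τ i - z i).re|
    rw [← Complex.ofReal_sub, Complex.norm_real, Real.norm_eq_abs, Complex.sub_re]

lemma aeval_mkU' {σ : Type} (v : σ → ℕ → ℂ) (P : MvPolynomial σ ℂ) :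
    MvPolynomial.aeval (fun i ↦ mkU (v i)) P =
      mkU (fun n ↦ MvPolynomial.aeval (fun i ↦ v i n) P) := by
  induction P using MvPolynomial.induction_on with
  | C c =>
    simp only [MvPolynomial.aeval_C]
    rfl
  | add p q hp hq =>
    simp only [map_add, hp, hq]
    rw [← map_add]
    rfl
  | mul_X p i hp =>
    simp only [map_mul, MvPolynomial.aeval_X, hp]
    rw [← map_mul]
    rfl

lemma aeval_mkUZ' {σ : Type} (v : σ → ℕ → ℂ) (P : MvPolynomial σ ℤ) :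
    MvPolynomial.aeval (fun i ↦ mkU (v i)) P =
      mkU (fun n ↦ MvPolynomial.aeval (fun i ↦ v i n) P) := by
  induction P using MvPolynomial.induction_on with
  | C c =>
    simp only [MvPolynomial.aeval_C]
    rw [algebraMap_int_eq, algebraMap_int_eq, eq_intCast, eq_intCast, ← map_intCast mkU]
    rfl
  | add p q hp hq =>
    simp only [map_add, hp, hq]
    rw [← map_add]
    rfl
  | mul_X p i hp =>
    simp only [map_mul, MvPolynomial.aeval_X, hp]
    rw [← map_mul]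
    rfl

theorem ult_indep {n N : ℕ} {z : Fin n → ℂ} (hz : ∀ i, 0 < (z i).im) (t : ℕ → Fin n → ℂ)
    (ht : Tendsto t atTop (𝓝 z)) (e : Fin N → Fin n × Bool)
    (hpos : ∀ᶠ k in atTop, ∀ p, 0 < gp z (t k) (e p))
    (hier : ∀ C : ℕ, ∀ᶠ k in atTop, ∀ p q, p < q → gp z (t k) (e p) ≤ gp z (t k) (e q) ^ C) :
    AlgebraicIndependent ℂ (fun x : Fin N × Fin 4 ↦
      mkU (fun k ↦ H32.DD (al (e x.1)) 1 1 0 (rr (t k) (e x.1)) x.2)) := by
  rw [algebraicIndependent_iff]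
  intro P hP
  by_contra hne
  have him : ∀ p, 0 < (al (e p) + 1 * rr z (e p)).im := by
    intro p
    obtain ⟨i, b⟩ := e p
    cases b
    · change 0 < (0 + 1 * z i).im
      rw [zero_add, one_mul]
      exact hz i
    · change 0 < (Complex.I + 1 * ((z i).re : ℂ)).im
      simp
  have hy : ∀ p, (1 : ℂ) + 0 * rr z (e p) ≠ 0 := by
    intro p
    simp
  have hcomp : ∀ i, Tendsto (fun k ↦ t k i) atTop (𝓝 (z i)) := tendsto_pi_nhds.mp ht
  obtain ⟨c, hc, M, hM⟩ := H32.nonvanish (l := (atTop : Filter ℕ)) N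
    (fun p w ↦ H32.DD (al (e p)) 1 1 0 w) (fun p ↦ rr z (e p)) (fun p k ↦ rr (t k) (e p))
    (fun p l ↦ analytic_DD (him p) (hy p) l)
    (fun p P hP ↦ indep_germ one_ne_zero (him p) (hy p) P hP)
    (fun p ↦ by
      obtain ⟨i, b⟩ := e p
      cases b
      · exact hcomp i
      · change Tendsto (fun k ↦ ((t k i).re : ℂ)) atTop (𝓝 ((z i).re : ℂ))
        exact ((Complex.continuous_ofReal.comp Complex.continuous_re).tendsto (z i)).comp (hcomp i))
    (fun C ↦ (hier C).mono fun k hk p q hpq ↦ by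
      rw [norm_rr, norm_rr]
      exact hk p q hpq) P hne
  rw [aeval_mkU'] at hP
  obtain ⟨k, h1, h2, h3⟩ := ((freq_of_mkU_zero hP).and_eventually (hM.and hpos)).exists
  rw [h1, norm_zero] at h2
  have h4 : 0 < c * (∏ p, ‖rr (t k) (e p) - rr z (e p)‖) ^ M := by
    refine mul_pos hc (pow_pos (prod_pos fun p _ ↦ ?_) _)
    rw [norm_rr]
    exact h3 p
  linarith

end H32.T3

end S_H32_T3_D5

section S_H32_T3_D6

open UpperHalfPlane hiding I
open Complex EisensteinSeries ModularForm MatrixGroups Manifold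
open scoped Real Topology

namespace H32.T3

open Finset Filter Asymptotics

lemma clear {σ τ ι : Type} (good : ι → Prop) (V : ι → σ → ℂ) (U : ι → τ → ℂ)
    (D : MvPolynomial σ ℤ)
    (h : ∀ x, ∃ Q : MvPolynomial σ ℤ, ∀ w, good w →
      MvPolynomial.aeval (V w) Q = MvPolynomial.aeval (V w) D * U w x) (P : MvPolynomial τ ℤ) :
    ∃ (N : ℕ) (Q : MvPolynomial σ ℤ), ∀ w, good w →
      MvPolynomial.aeval (V w) Q = MvPolynomial.aeval (V w) D ^ N * MvPolynomial.aeval (U w) P := by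
  induction P using MvPolynomial.induction_on with
  | C c =>
    refine ⟨0, MvPolynomial.C c, fun w _ ↦ ?_⟩
    rw [MvPolynomial.aeval_C, MvPolynomial.aeval_C, pow_zero, one_mul]
  | add p q hp hq =>
    obtain ⟨N1, Q1, h1⟩ := hp
    obtain ⟨N2, Q2, h2⟩ := hq
    refine ⟨N1 + N2, Q1 * D ^ N2 + Q2 * D ^ N1, fun w hw ↦ ?_⟩
    rw [map_add, map_mul, map_mul, map_pow, map_pow, h1 w hw, h2 w hw, map_add]
    ring
  | mul_X p x hp =>
    obtain ⟨N, Q, h1⟩ := hp
    obtain ⟨Q', h2⟩ := h x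
    refine ⟨N + 1, Q * Q', fun w hw ↦ ?_⟩
    rw [map_mul, h1 w hw, h2 w hw, map_mul, MvPolynomial.aeval_X]
    ring

/-- The functions of the final statement. -/
noncomputable def UU {n : ℕ} (r : Fin n → Fin n) (a : Fin n) (w : Fin n → ℂ)
    (x : Fin n × Fin 5) : ℂ :=
  if r x.1 = a then ![w x.1, jc (w x.1), Wf (w x.1), ps (w x.1), w x.1] x.2
  else ![w x.1, jc (w x.1), ph (w x.1), (starRingEnd ℂ) (w x.1), Wf (w x.1) / Wf (w (r x.1))] x.2

/-- The denominator. -/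
noncomputable def Dn (n : ℕ) : MvPolynomial (Fin n × Fin 5) ℤ :=
  ∏ i, (MvPolynomial.X (i, 0) - MvPolynomial.X (i, 1)) * MvPolynomial.X (i, 4)

/-- Good tuples. -/
def Gd {n : ℕ} (w : Fin n → ℂ) : Prop := ∀ i, 0 < (w i).im ∧ e4 (w i) ≠ 0 ∧ e6 (w i) ≠ 0

lemma ps_eq' {w : ℂ} (hw : 0 < w.im) (h4 : e4 w ≠ 0) (h6 : e6 w ≠ 0) :
    ps w * ((w - (starRingEnd ℂ) w) * Wf w) = ph w * ((w - (starRingEnd ℂ) w) * Wf w) - 12 := by
  have h := ps_eq (⟨w, hw⟩ : ℍ) (by
    have : ofComplex w = ⟨w, hw⟩ := ofComplex_apply_of_im_pos hw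
    rw [e4, this] at h4
    exact h4) (by
    have : ofComplex w = ⟨w, hw⟩ := ofComplex_apply_of_im_pos hw
    rw [e6, this] at h6
    exact h6)
  have hs : w - (starRingEnd ℂ) w ≠ 0 := by
    rw [sub_ne_zero]
    intro h0
    have := Complex.conj_eq_iff_im.mp h0.symm
    linarith
  have hW := Wf_ne h4 h6
  have h' : ps w = ph w - 12 / ((w - (starRingEnd ℂ) w) * Wf w) := h
  rw [h']
  field_simp

lemma wv_ne {n : ℕ} {r : Fin n → Fin n} {a : Fin n} {w : Fin n → ℂ} (hw : Gd w) (i : Fin n) :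
    wv r a w i ≠ 0 := by
  rw [wv]
  split_ifs
  · exact Wf_ne (hw i).2.1 (hw i).2.2
  · exact div_ne_zero (Wf_ne (hw i).2.1 (hw i).2.2) (Wf_ne (hw (r i)).2.1 (hw (r i)).2.2)

lemma aeval_Dn {n : ℕ} (r : Fin n → Fin n) (a : Fin n) (w : Fin n → ℂ) :
    MvPolynomial.aeval (V5 r a w) (Dn n) =
      ∏ i, (w i - (starRingEnd ℂ) (w i)) * wv r a w i := by
  rw [Dn, map_prod]
  refine prod_congr rfl fun i _ ↦ ?_
  rw [map_mul, map_sub, MvPolynomial.aeval_X, MvPolynomial.aeval_X, MvPolynomial.aeval_X]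
  rfl

lemma aeval_Dn_ne {n : ℕ} (r : Fin n → Fin n) (a : Fin n) {w : Fin n → ℂ} (hw : Gd w) :
    MvPolynomial.aeval (V5 r a w) (Dn n) ≠ 0 := by
  rw [aeval_Dn]
  refine prod_ne_zero_iff.mpr fun i _ ↦ ?_
  obtain ⟨h0, h4, h6⟩ := hw i
  refine mul_ne_zero ?_ (wv_ne hw i)
  rw [sub_ne_zero]
  intro h1
  have := Complex.conj_eq_iff_im.mp h1.symm
  linarith

lemma exists_num {n : ℕ} (r : Fin n → Fin n) (a : Fin n) (x : Fin n × Fin 5) :
    ∃ Q : MvPolynomial (Fin n × Fin 5) ℤ, ∀ w, Gd w →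
      MvPolynomial.aeval (V5 r a w) Q =
        MvPolynomial.aeval (V5 r a w) (Dn n) * UU r a w x := by
  have hX : ∀ y : Fin n × Fin 5, (∀ w, UU r a w x = V5 r a w y) →
      ∃ Q : MvPolynomial (Fin n × Fin 5) ℤ, ∀ w, Gd w →
        MvPolynomial.aeval (V5 r a w) Q =
          MvPolynomial.aeval (V5 r a w) (Dn n) * UU r a w x := by
    intro y hy
    refine ⟨Dn n * MvPolynomial.X y, fun w _ ↦ ?_⟩
    rw [map_mul, MvPolynomial.aeval_X, hy]
  obtain ⟨i, l⟩ := x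
  by_cases hi : r i = a
  · have e0 : ∀ w, UU r a w (i, l) = ![w i, jc (w i), Wf (w i), ps (w i), w i] l := by
      intro w
      rw [UU, if_pos hi]
    by_cases h0 : l = 0
    · subst h0
      exact hX (i, 0) fun w ↦ (e0 w).trans (show w i = V5 r a w (i, 0) from rfl)
    by_cases h1 : l = 1
    · subst h1
      exact hX (i, 2) fun w ↦ (e0 w).trans (show jc (w i) = V5 r a w (i, 2) from rfl)
    by_cases h2 : l = 2
    · subst h2
      refine hX (i, 4) fun w ↦ (e0 w).trans ?_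
      have e1 : V5 r a w (i, 4) = wv r a w i := rfl
      rw [e1, wv, if_pos hi]
      rfl
    by_cases h4 : l = 4
    · subst h4
      exact hX (i, 0) fun w ↦ (e0 w).trans (show w i = V5 r a w (i, 0) from rfl)
    · have h3 : l = 3 := by
        fin_cases l
        · exact absurd rfl h0
        · exact absurd rfl h1
        · exact absurd rfl h2
        · rfl
        · exact absurd rfl h4
      subst h3
      refine ⟨(∏ j ∈ univ.erase i, (MvPolynomial.X (j, 0) - MvPolynomial.X (j, 1)) *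
        MvPolynomial.X (j, 4)) * (MvPolynomial.X (i, 3) * ((MvPolynomial.X (i, 0) -
        MvPolynomial.X (i, 1)) * MvPolynomial.X (i, 4)) - MvPolynomial.C 12), fun w hw ↦ ?_⟩
      obtain ⟨hw0, h4, h6⟩ := hw i
      have e1 : UU r a w (i, 3) = ps (w i) := e0 w
      have e2 : V5 r a w (i, 0) = w i := rfl
      have e3 : V5 r a w (i, 1) = (starRingEnd ℂ) (w i) := rfl
      have e4' : V5 r a w (i, 3) = ph (w i) := rfl
      have e5 : V5 r a w (i, 4) = Wf (w i) := by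
        have : V5 r a w (i, 4) = wv r a w i := rfl
        rw [this, wv, if_pos hi]
      have hp := ps_eq' hw0 h4 h6
      rw [e1, Dn, ← mul_prod_erase univ _ (mem_univ i), map_mul, map_mul, map_sub, map_mul, map_mul,
        map_sub, MvPolynomial.aeval_X, MvPolynomial.aeval_X, MvPolynomial.aeval_X,
        MvPolynomial.aeval_X, MvPolynomial.aeval_C, e2, e3, e4', e5, algebraMap_int_eq,
        eq_intCast]
      have h12 : ((12 : ℤ) : ℂ) = 12 := by norm_num
      rw [h12]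
      generalize (MvPolynomial.aeval (V5 r a w)) (∏ j ∈ univ.erase i,
        ((MvPolynomial.X (j, 0) : MvPolynomial (Fin n × Fin 5) ℤ) - MvPolynomial.X (j, 1)) *
          MvPolynomial.X (j, 4)) = R
      linear_combination -R * hp
  · have e0 : ∀ w, UU r a w (i, l) =
        ![w i, jc (w i), ph (w i), (starRingEnd ℂ) (w i), Wf (w i) / Wf (w (r i))] l := by
      intro w
      rw [UU, if_neg hi]
    by_cases h0 : l = 0
    · subst h0
      exact hX (i, 0) fun w ↦ (e0 w).trans (show w i = V5 r a w (i, 0) from rfl)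
    by_cases h1 : l = 1
    · subst h1
      exact hX (i, 2) fun w ↦ (e0 w).trans (show jc (w i) = V5 r a w (i, 2) from rfl)
    by_cases h2 : l = 2
    · subst h2
      exact hX (i, 3) fun w ↦ (e0 w).trans (show ph (w i) = V5 r a w (i, 3) from rfl)
    by_cases h3 : l = 3
    · subst h3
      exact hX (i, 1) fun w ↦ (e0 w).trans (show (starRingEnd ℂ) (w i) = V5 r a w (i, 1) from rfl)
    · have h4 : l = 4 := by
        fin_cases l
        · exact absurd rfl h0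
        · exact absurd rfl h1
        · exact absurd rfl h2
        · exact absurd rfl h3
        · rfl
      subst h4
      refine hX (i, 4) fun w ↦ (e0 w).trans ?_
      have e1 : V5 r a w (i, 4) = wv r a w i := rfl
      rw [e1, wv, if_neg hi]
      rfl

/-- Relations between the functions `UU` transfer. -/
theorem transfer_U (n : ℕ) : ∃ A : ℕ, ∀ (κ : ℕ), A < κ → ∀ (r : Fin n → Fin n) (a : Fin n)
    (z : Fin n → ℂ) (S : ApxN κ n r z), (∀ i, 0 < (z i).im) →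
    Gd z ∧ (∀ᶠ k in atTop, Gd (fun i ↦ (S.t k i : ℂ))) ∧
    ∀ (P : MvPolynomial (Fin n × Fin 5) ℤ), MvPolynomial.aeval (UU r a z) P = 0 →
    ∀ᶠ k in atTop, MvPolynomial.aeval (UU r a (fun i ↦ (S.t k i : ℂ))) P = 0 := by
  obtain ⟨A, hA⟩ := transfer_n n
  obtain ⟨A', hA'⟩ := e46_ne_n
  refine ⟨A + A', fun κ hκ r a z S hz ↦ ?_⟩
  have h46 := hA' κ (by omega) n r z S hz
  have hTn := fun i ↦ S.tendsto_ne (by omega) i
  have hGz : Gd z := fun i ↦ ⟨hz i, h46 i⟩
  have hG : ∀ᶠ k in atTop, Gd (fun i ↦ (S.t k i : ℂ)) := by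
    have h1 : ∀ᶠ k in atTop, ∀ i, e4 (S.t k i) ≠ 0 ∧ e6 (S.t k i) ≠ 0 := by
      rw [eventually_all]
      intro i
      exact ((hTn i).eventually (e4_ev (hz i))).and ((hTn i).eventually (e6_ev (hz i)))
    filter_upwards [h1] with k hk
    intro i
    exact ⟨(S.t k i).im_pos, hk i⟩
  refine ⟨hGz, hG, fun P hP ↦ ?_⟩
  obtain ⟨N, Q, hQ⟩ := clear Gd (V5 r a) (UU r a) (Dn n) (exists_num r a) P
  have h1 := hQ z hGz
  rw [hP, mul_zero] at h1
  have h2 := hA κ (by omega) r a z S hz Q h1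
  filter_upwards [h2, hG] with k h3 h4
  have h5 := hQ _ h4
  rw [h3] at h5
  exact (mul_eq_zero.mp h5.symm).resolve_left (pow_ne_zero _ (aeval_Dn_ne r a h4))

end H32.T3

end S_H32_T3_D6

section S_H32_T3_D7

open UpperHalfPlane hiding I
open Complex EisensteinSeries ModularForm MatrixGroups Manifold
open scoped Real Topology

namespace H32.T3

open Finset Filter Asymptotics

lemma alg_gen {R A : Type} [Field R] [Field A] [Algebra R A] (D : Subalgebra R A)
    {J W ψ e2 e4 e6 : A} {c : R} (hc : c ≠ 0) (h12 : (1728 : R) ≠ 0) (h4 : e4 ≠ 0) (h6 : e6 ≠ 0)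
    (hW : W * e4 = algebraMap R A c * e6)
    (hJ : J * (e4 ^ 3 - e6 ^ 2) = algebraMap R A 1728 * e4 ^ 3) (hψ : ψ * e6 = e2 * e4)
    (aJ : IsAlgebraic D J) (aW : IsAlgebraic D W) (aψ : IsAlgebraic D ψ) :
    IsAlgebraic D e2 ∧ IsAlgebraic D e4 ∧ IsAlgebraic D e6 := by
  have aR : ∀ r : R, IsAlgebraic D (algebraMap R A r) := fun r ↦ by
    rw [IsScalarTower.algebraMap_apply R D A]
    exact isAlgebraic_algebraMap _
  have hc' : algebraMap R A c ≠ 0 := (map_ne_zero _).mpr hc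
  have h12' : algebraMap R A 1728 ≠ 0 := (map_ne_zero _).mpr h12
  have hJ0 : J - algebraMap R A 1728 ≠ 0 := by
    intro h0
    have e : J = algebraMap R A 1728 := sub_eq_zero.mp h0
    rw [e, mul_right_inj' h12'] at hJ
    have : e6 ^ 2 = 0 := by linear_combination -hJ
    exact pow_ne_zero 2 h6 this
  set ρ := W * (algebraMap R A c)⁻¹ with hρ
  have hρe : ρ = e6 / e4 := by
    rw [hρ, eq_div_iff h4]
    field_simp
    exact hW
  have hρ0 : ρ ≠ 0 := by
    rw [hρe]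
    exact div_ne_zero h6 h4
  have aρ : IsAlgebraic D ρ := aW.mul (aR c).inv
  have a4 : IsAlgebraic D e4 := by
    have e : e4 = J * (J - algebraMap R A 1728)⁻¹ * ρ ^ 2 := by
      rw [hρe]
      field_simp
      linear_combination hJ
    rw [e]
    exact (aJ.mul (aJ.sub (aR 1728)).inv).mul (aρ.pow 2)
  have a6 : IsAlgebraic D e6 := by
    have e : e6 = e4 * ρ := by
      rw [hρe]; field_simp
    rw [e]
    exact a4.mul aρ
  have a2 : IsAlgebraic D e2 := by
    have e : e2 = ψ * ρ := by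
      rw [hρe]
      field_simp
      linear_combination -hψ
    rw [e]
    exact aψ.mul aρ
  exact ⟨a2, a4, a6⟩

theorem rank_U {n N : ℕ} (t : ℕ → Fin n → ℂ) (hG : ∀ᶠ k in atTop, Gd (t k))
    (r : Fin n → Fin n) (a : Fin n) (hr : ∀ i, r (r i) = r i)
    (F : Finset (Fin n)) (hF : ∀ i ∈ F, r i ≠ a) (e : Fin N → Fin n × Bool)
    (he : ∀ i, ∃ p, e p = (i, false)) (heF : ∀ i ∈ F, ∃ p, e p = (i, true))
    (hX : AlgebraicIndependent ℂ (fun x : Fin N × Fin 4 ↦
      mkU (fun k ↦ H32.DD (al (e x.1)) 1 1 0 (rr (t k) (e x.1)) x.2))) :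
    ∃ f : Fin (4 * n + F.card - ((univ.image r).erase a).card) → Fin n × Fin 5,
      AlgebraicIndependent ℂ (fun j ↦ mkU (fun k ↦ UU r a (t k) (f j))) := by
  classical
  set M := AlgebraicIndependent.matroid ℂ Ult with hM
  choose p hp using he
  choose q hq using heF
  set ι : (Fin n × Fin 4) ⊕ F → Fin N × Fin 4 :=
    Sum.elim (fun y ↦ (p y.1, y.2)) (fun i ↦ (q i i.2, 0)) with hι
  have hιinj : Function.Injective ι := by
    rintro (⟨i, l⟩ | i) (⟨j, m⟩ | j) h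
    · have h1 : (p i, l) = (p j, m) := h
      obtain ⟨h2, h3⟩ := Prod.mk.inj h1
      have h4 := hp i
      rw [h2, hp j] at h4
      have h5 : j = i := congrArg Prod.fst h4
      rw [h5, h3]
    · have h1 : (p i, l) = (q j j.2, 0) := h
      have h2 := congrArg (fun x ↦ (e x.1).2) h1
      simp only [hp, hq] at h2
      exact absurd h2 (by decide)
    · have h1 : (q i i.2, (0 : Fin 4)) = (p j, m) := h
      have h2 := congrArg (fun x ↦ (e x.1).2) h1
      simp only [hp, hq] at h2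
      exact absurd h2 (by decide)
    · have h1 : (q i i.2, (0 : Fin 4)) = (q j j.2, 0) := h
      have h2 := congrArg (fun x ↦ (e x.1).1) h1
      simp only [hq] at h2
      rw [Subtype.ext h2]
  have het := hX.comp ι hιinj
  set et : (Fin n × Fin 4) ⊕ F → Ult := (fun x : Fin N × Fin 4 ↦
      mkU (fun k ↦ H32.DD (al (e x.1)) 1 1 0 (rr (t k) (e x.1)) x.2)) ∘ ι with hetdef
  -- the sequences
  set w : Fin n → Ult := fun i ↦ mkU (fun k ↦ t k i) with hw
  set x : Fin n → Ult := fun i ↦ mkU (fun k ↦ (starRingEnd ℂ) (t k i)) with hx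
  set J : Fin n → Ult := fun i ↦ mkU (fun k ↦ jc (t k i)) with hJ
  set φ : Fin n → Ult := fun i ↦ mkU (fun k ↦ ph (t k i)) with hφ
  set ψ : Fin n → Ult := fun i ↦ mkU (fun k ↦ ps (t k i)) with hψ
  set W : Fin n → Ult := fun i ↦ mkU (fun k ↦ Wf (t k i)) with hW
  set g2 : Fin n → Ult := fun i ↦ mkU (fun k ↦ e2 (t k i)) with hg2
  set g4 : Fin n → Ult := fun i ↦ mkU (fun k ↦ e4 (t k i)) with hg4
  set g6 : Fin n → Ult := fun i ↦ mkU (fun k ↦ e6 (t k i)) with hg6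
  have r1 : ∀ i, (φ i - ψ i) * ((w i - x i) * W i) = algebraMap ℂ Ult 12 := by
    intro i
    rw [algebraMap_Ult, hφ, hψ, hw, hx, hW]
    simp only
    rw [← map_sub, ← map_sub, ← map_mul, ← map_mul, ← sub_eq_zero, ← map_sub]
    refine mkU_zero_of_ev (hG.mono fun k hk ↦ ?_)
    obtain ⟨h0, h4, h6⟩ := hk i
    have h := ps_eq' h0 h4 h6
    simp only [Pi.sub_apply, Pi.mul_apply]
    linear_combination -h
  have r2 : ∀ i, W i * g4 i = algebraMap ℂ Ult (2 * π * I) * g6 i := by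
    intro i
    rw [algebraMap_Ult, hW, hg4, hg6]
    simp only
    rw [← map_mul, ← map_mul, ← sub_eq_zero, ← map_sub]
    refine mkU_zero_of_ev (hG.mono fun k hk ↦ ?_)
    obtain ⟨h0, h4, h6⟩ := hk i
    simp only [Pi.sub_apply, Pi.mul_apply]
    rw [Wf, div_mul_cancel₀ _ h4, sub_self]
  have r3 : ∀ i, J i * (g4 i ^ 3 - g6 i ^ 2) = algebraMap ℂ Ult 1728 * g4 i ^ 3 := by
    intro i
    rw [algebraMap_Ult, hJ, hg4, hg6]
    simp only
    rw [← map_pow, ← map_pow, ← map_sub, ← map_mul, ← map_mul, ← sub_eq_zero, ← map_sub]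
    refine mkU_zero_of_ev (Eventually.of_forall fun k ↦ ?_)
    simp only [Pi.sub_apply, Pi.mul_apply, Pi.pow_apply]
    rw [jc, div_mul_cancel₀ _ disc_ne, sub_self]
  have r4 : ∀ i, ψ i * g6 i = g2 i * g4 i := by
    intro i
    rw [hψ, hg2, hg4, hg6]
    simp only
    rw [← map_mul, ← map_mul, ← sub_eq_zero, ← map_sub]
    refine mkU_zero_of_ev (hG.mono fun k hk ↦ ?_)
    obtain ⟨h0, h4, h6⟩ := hk i
    simp only [Pi.sub_apply, Pi.mul_apply]
    rw [ps, div_mul_cancel₀ _ h6, sub_self]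
  have n4 : ∀ i, g4 i ≠ 0 := by
    intro i h0
    obtain ⟨k, h1, h2⟩ := ((freq_of_mkU_zero h0).and_eventually hG).exists
    exact (h2 i).2.1 h1
  have n6 : ∀ i, g6 i ≠ 0 := by
    intro i h0
    obtain ⟨k, h1, h2⟩ := ((freq_of_mkU_zero h0).and_eventually hG).exists
    exact (h2 i).2.2 h1
  -- the sets
  set R : Finset (Fin n) := (univ.image r).erase a with hR
  set S : Fin n × Fin 5 → Ult := fun y ↦ mkU (fun k ↦ UU r a (t k) y) with hS
  set T : Set Ult := ψ '' (R : Set (Fin n)) with hT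
  have hpiI : (2 * π * I : ℂ) ≠ 0 := by
    have hpi : (π : ℂ) ≠ 0 := by exact_mod_cast Real.pi_ne_zero
    exact mul_ne_zero (mul_ne_zero two_ne_zero hpi) Complex.I_ne_zero
  set D : Subalgebra ℂ Ult := Algebra.adjoin ℂ (Set.range S ∪ T) with hD
  have hgen : ∀ v ∈ Set.range S ∪ T, IsAlgebraic D v := by
    intro v hv
    exact isAlgebraic_algebraMap (⟨v, Algebra.subset_adjoin hv⟩ : D)
  have aR : ∀ r : ℂ, IsAlgebraic D (algebraMap ℂ Ult r) := fun r ↦ by
    rw [IsScalarTower.algebraMap_apply ℂ D Ult]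
    exact isAlgebraic_algebraMap _
  have aw : ∀ i, IsAlgebraic D (w i) := by
    intro i
    refine hgen _ (Or.inl ⟨(i, 0), ?_⟩)
    rw [hS, hw]
    refine congrArg mkU (funext fun k ↦ ?_)
    by_cases hi : r i = a
    · rw [UU, if_pos hi]; rfl
    · rw [UU, if_neg hi]; rfl
  have aJ : ∀ i, IsAlgebraic D (J i) := by
    intro i
    refine hgen _ (Or.inl ⟨(i, 1), ?_⟩)
    rw [hS, hJ]
    refine congrArg mkU (funext fun k ↦ ?_)
    by_cases hi : r i = a
    · rw [UU, if_pos hi]; rfl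
    · rw [UU, if_neg hi]; rfl
  have ax : ∀ i, r i ≠ a → IsAlgebraic D (x i) := by
    intro i hi
    refine hgen _ (Or.inl ⟨(i, 3), ?_⟩)
    rw [hS, hx]
    refine congrArg mkU (funext fun k ↦ ?_)
    rw [UU, if_neg hi]
    rfl
  have aφ : ∀ i, r i ≠ a → IsAlgebraic D (φ i) := by
    intro i hi
    refine hgen _ (Or.inl ⟨(i, 2), ?_⟩)
    rw [hS, hφ]
    refine congrArg mkU (funext fun k ↦ ?_)
    rw [UU, if_neg hi]
    rfl
  have h12 : algebraMap ℂ Ult 12 ≠ 0 := (map_ne_zero _).mpr (by norm_num)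
  -- the representatives
  have aWr : ∀ i, r i = i → i ≠ a → IsAlgebraic D (W i) := by
    intro i hri hia
    have hi : r i ≠ a := by rw [hri]; exact hia
    have aψi : IsAlgebraic D (ψ i) := by
      refine hgen _ (Or.inr ⟨i, ?_, rfl⟩)
      rw [hR, Finset.mem_coe, Finset.mem_erase, Finset.mem_image]
      exact ⟨hia, i, mem_univ _, hri⟩
    have h1 := r1 i
    have hprod : (φ i - ψ i) * (w i - x i) ≠ 0 := by
      intro h0
      apply h12
      rw [← h1, ← mul_assoc, h0, zero_mul]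
    have e1 : W i = algebraMap ℂ Ult 12 * ((φ i - ψ i) * (w i - x i))⁻¹ := by
      rw [eq_mul_inv_iff_mul_eq₀ hprod, ← h1]
      ring
    rw [e1]
    exact (aR 12).mul (((aφ i hi).sub aψi).mul ((aw i).sub (ax i hi))).inv
  have aW : ∀ i, IsAlgebraic D (W i) := by
    intro i
    by_cases hi : r i = a
    · refine hgen _ (Or.inl ⟨(i, 2), ?_⟩)
      rw [hS, hW]
      refine congrArg mkU (funext fun k ↦ ?_)
      rw [UU, if_pos hi]
      rfl
    · set Q : Ult := mkU (fun k ↦ Wf (t k i) / Wf (t k (r i))) with hQ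
      have aq : IsAlgebraic D Q := by
        refine hgen _ (Or.inl ⟨(i, 4), ?_⟩)
        rw [hS, hQ]
        refine congrArg mkU (funext fun k ↦ ?_)
        rw [UU, if_neg hi]
        rfl
      have e1 : W i = Q * W (r i) := by
        rw [hW, hQ]
        simp only
        rw [← map_mul, ← sub_eq_zero, ← map_sub]
        refine mkU_zero_of_ev (hG.mono fun k hk ↦ ?_)
        simp only [Pi.sub_apply, Pi.mul_apply]
        have := Wf_ne (hk (r i)).2.1 (hk (r i)).2.2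
        field_simp
        ring
      rw [e1]
      exact aq.mul (aWr (r i) (hr i) hi)
  have aψ : ∀ i, IsAlgebraic D (ψ i) := by
    intro i
    by_cases hi : r i = a
    · refine hgen _ (Or.inl ⟨(i, 3), ?_⟩)
      rw [hS, hψ]
      refine congrArg mkU (funext fun k ↦ ?_)
      rw [UU, if_pos hi]
      rfl
    · have h1 := r1 i
      have hprod : (w i - x i) * W i ≠ 0 := by
        intro h0
        apply h12
        rw [← h1, h0, mul_zero]
      have e1 : ψ i = φ i - algebraMap ℂ Ult 12 * ((w i - x i) * W i)⁻¹ := by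
        rw [← h1, mul_inv_cancel_right₀ hprod]
        ring
      rw [e1]
      exact (aφ i hi).sub ((aR 12).mul (((aw i).sub (ax i hi)).mul (aW i)).inv)
  have key : ∀ i, IsAlgebraic D (g2 i) ∧ IsAlgebraic D (g4 i) ∧ IsAlgebraic D (g6 i) := fun i ↦
    alg_gen D (c := 2 * π * I) hpiI (by norm_num) (n4 i) (n6 i) (r2 i) (r3 i) (r4 i)
      (aJ i) (aW i) (aψ i)
  have hind : M.Indep (Set.range et) := by
    rw [hM, AlgebraicIndependent.matroid_indep_iff]
    exact het.to_subtype_range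
  have hcard : (Set.range et).encard = ((4 * n + F.card : ℕ) : ℕ∞) := by
    rw [← Set.image_univ, het.injective.encard_image, Set.encard_univ, ENat.card_eq_coe_fintype_card]
    rw [Fintype.card_sum, Fintype.card_prod, Fintype.card_fin, Fintype.card_fin, Fintype.card_coe,
      mul_comm n 4]
  have hsub : Set.range et ⊆ M.closure (Set.range S ∪ T) := by
    rw [hM, AlgebraicIndependent.matroid_closure_eq]
    rintro _ ⟨y, rfl⟩
    change IsAlgebraic D (et y)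
    rcases y with ⟨i, l⟩ | i
    · have e0 : et (Sum.inl (i, l)) = mkU (fun k ↦ H32.DD 0 1 1 0 (t k i) l) := by
        change mkU (fun k ↦ H32.DD (al (e (p i))) 1 1 0 (rr (t k) (e (p i))) l) = _
        rw [hp i]
        rfl
      rw [e0]
      fin_cases l
      · exact aw i
      · have e1 : mkU (fun k ↦ H32.DD 0 1 1 0 (t k i) 1) =
            g2 i - algebraMap ℂ Ult (3 / π) := by
          rw [algebraMap_Ult, hg2]
          simp only
          rw [← map_sub]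
          refine congrArg mkU (funext fun k ↦ ?_)
          change E2 (ofComplex (0 + 1 * t k i)) - 3 / (π * (1 + 0 * t k i)) = _
          rw [zero_add, one_mul, zero_mul, add_zero, mul_one]
          rfl
        change IsAlgebraic D (mkU (fun k ↦ H32.DD 0 1 1 0 (t k i) 1))
        rw [e1]
        exact (key i).1.sub (aR _)
      · have e1 : mkU (fun k ↦ H32.DD 0 1 1 0 (t k i) 2) = g4 i := by
          rw [hg4]
          refine congrArg mkU (funext fun k ↦ ?_)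
          change E₄ (ofComplex (0 + 1 * t k i)) = _
          rw [zero_add, one_mul]
          rfl
        change IsAlgebraic D (mkU (fun k ↦ H32.DD 0 1 1 0 (t k i) 2))
        rw [e1]
        exact (key i).2.1
      · have e1 : mkU (fun k ↦ H32.DD 0 1 1 0 (t k i) 3) = g6 i := by
          rw [hg6]
          refine congrArg mkU (funext fun k ↦ ?_)
          change E₆ (ofComplex (0 + 1 * t k i)) = _
          rw [zero_add, one_mul]
          rfl
        change IsAlgebraic D (mkU (fun k ↦ H32.DD 0 1 1 0 (t k i) 3))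
        rw [e1]
        exact (key i).2.2
    · have hiE : r (i : Fin n) ≠ a := hF i i.2
      have e0 : et (Sum.inr i) = (w i + x i) * algebraMap ℂ Ult (1 / 2) := by
        change mkU (fun k ↦ H32.DD (al (e (q i i.2))) 1 1 0 (rr (t k) (e (q i i.2))) 0) = _
        rw [hq i i.2, algebraMap_Ult, hw, hx]
        simp only
        rw [← map_add, ← map_mul]
        refine congrArg mkU (funext fun k ↦ ?_)
        change ((t k i).re : ℂ) = (t k i + (starRingEnd ℂ) (t k i)) * (1 / 2)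
        rw [Complex.add_conj]
        push_cast
        ring
      rw [e0]
      exact ((aw i).add (ax i hiE)).mul (aR _)
  obtain ⟨B, hB'⟩ := M.exists_isBasis (Set.range S)
  have h1 : ((4 * n + F.card : ℕ) : ℕ∞) ≤ M.eRk (Set.range S ∪ T) := by
    rw [← M.eRk_closure_eq, ← hcard]
    exact hind.encard_le_eRk_of_subset hsub
  have hTc : M.eRk T ≤ ((R.card : ℕ) : ℕ∞) := by
    refine (M.eRk_le_encard T).trans ?_
    refine (Set.encard_image_le _ _).trans ?_
    rw [Set.encard_coe_eq_coe_finsetCard]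
  have h2 : ((4 * n + F.card : ℕ) : ℕ∞) ≤ B.encard + ((R.card : ℕ) : ℕ∞) := by
    refine h1.trans ((M.eRk_union_le_eRk_add_eRk _ _).trans ?_)
    rw [← hB'.eRk_eq_encard]
    gcongr
  have hRn : R.card ≤ 4 * n + F.card := by
    have := Finset.card_le_univ R
    rw [Fintype.card_fin] at this
    omega
  have h3 : ((4 * n + F.card - R.card : ℕ) : ℕ∞) ≤ B.encard := by
    have h5 : ((4 * n + F.card - R.card : ℕ) : ℕ∞) + ((R.card : ℕ) : ℕ∞) ≤
        B.encard + ((R.card : ℕ) : ℕ∞) := by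
      refine le_trans (le_of_eq ?_) h2
      rw [← Nat.cast_add, Nat.sub_add_cancel hRn]
    exact (ENat.add_le_add_iff_right (ENat.natCast_ne_top _)).mp h5
  refine extract_indep' S (B := B) ?_ hB'.subset h3
  have := hB'.indep
  rw [hM, AlgebraicIndependent.matroid_indep_iff] at this
  exact this

end H32.T3

end S_H32_T3_D7

section S_H32_T3_D8

open UpperHalfPlane hiding I
open Complex EisensteinSeries ModularForm MatrixGroups Manifold
open scoped Real Topology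

namespace H32.T3

open Finset Filter Asymptotics

theorem U_indep (n : ℕ) : ∃ A : ℕ, ∀ (κ : ℕ), A < κ → ∀ (r : Fin n → Fin n) (a : Fin n),
    (∀ i, r (r i) = r i) → ∀ F : Finset (Fin n), (∀ i ∈ F, r i ≠ a) →
    ∀ (z : Fin n → ℂ) (S : ApxN κ n r z), (∀ i, 0 < (z i).im) →
    ∀ (N : ℕ) (e : Fin N → Fin n × Bool), (∀ i, ∃ p, e p = (i, false)) →
    (∀ i ∈ F, ∃ p, e p = (i, true)) →
    (∀ᶠ k in atTop, ∀ p, 0 < gp z (fun i ↦ (S.t k i : ℂ)) (e p)) →
    (∀ C : ℕ, ∀ᶠ k in atTop, ∀ p q, p < q → gp z (fun i ↦ (S.t k i : ℂ)) (e p) ≤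
      gp z (fun i ↦ (S.t k i : ℂ)) (e q) ^ C) →
    Gd z ∧ ∃ f : Fin (4 * n + F.card - ((univ.image r).erase a).card) → Fin n × Fin 5,
      AlgebraicIndependent ℤ (fun j ↦ UU r a z (f j)) := by
  obtain ⟨A, hA⟩ := transfer_U n
  refine ⟨A + 1, fun κ hκ r a hr F hF z S hz N e he heF hpos hier ↦ ?_⟩
  obtain ⟨hGz, hG, htr⟩ := hA κ (by omega) r a z S hz
  have hX := ult_indep hz (fun k i ↦ (S.t k i : ℂ)) (S.tendsto (by omega)) e hpos hier
  obtain ⟨f, hf⟩ := rank_U (fun k i ↦ (S.t k i : ℂ)) hG r a hr F hF e he heF hX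
  refine ⟨hGz, f, ?_⟩
  rw [algebraicIndependent_iff]
  intro P hP
  have h1 : MvPolynomial.aeval (UU r a z) (MvPolynomial.rename f P) = 0 := by
    rw [MvPolynomial.aeval_rename]
    exact hP
  have h2 := htr _ h1
  have h3 : MvPolynomial.aeval
      (fun j ↦ mkU (fun k ↦ UU r a (fun i ↦ (S.t k i : ℂ)) (f j))) P = 0 := by
    rw [aeval_mkUZ']
    refine mkU_zero_of_ev (h2.mono fun k hk ↦ ?_)
    rw [MvPolynomial.aeval_rename] at hk
    exact hk
  have h4 : MvPolynomial.aeval (fun j ↦ mkU (fun k ↦ UU r a (fun i ↦ (S.t k i : ℂ)) (f j)))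
      (MvPolynomial.map (Int.castRingHom ℂ) P) = 0 := by
    rw [← h3, ← algebraMap_int_eq, MvPolynomial.aeval_map_algebraMap]
  have h5 := (algebraicIndependent_iff.mp hf) _ h4
  exact (MvPolynomial.map_injective _ (RingHom.injective_int _)) (by rw [h5, map_zero])

lemma psi_formula {Jv J1v J2v A2 B C : ℂ} (hB : B ≠ 0) (hC : C ≠ 0) (hD : B ^ 3 - C ^ 2 ≠ 0)
    (hJ : Jv = 1728 * B ^ 3 / (B ^ 3 - C ^ 2))
    (hJ1 : J1v = -1728 * (2 * π * I) * (B ^ 2 * C) / (B ^ 3 - C ^ 2))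
    (hJ2 : J2v = -1728 * (2 * π * I) ^ 2 * ((1 / 6) * A2 * B ^ 2 * C - (2 / 3) * B * C ^ 2 -
      (1 / 2) * B ^ 4) / (B ^ 3 - C ^ 2)) :
    2 * π * I * C / B = -J1v * Jv⁻¹ ∧
    A2 * B / C = ((6 : ℚ) : ℂ) * (((2 / 3 : ℚ) : ℂ) + ((1 / 2 : ℚ) : ℂ) * (Jv *
      (Jv - ((1728 : ℚ) : ℂ))⁻¹) - J2v * (Jv * (J1v * Jv⁻¹) ^ 2)⁻¹) := by
  have hpi : (π : ℂ) ≠ 0 := by exact_mod_cast Real.pi_ne_zero
  have hI0 : (I : ℂ) ≠ 0 := Complex.I_ne_zero
  constructor
  · rw [hJ, hJ1]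
    field_simp
  · have e1 : Jv - ((1728 : ℚ) : ℂ) = 1728 * C ^ 2 / (B ^ 3 - C ^ 2) := by
      rw [hJ]
      push_cast
      field_simp
      ring
    rw [e1, hJ, hJ1, hJ2]
    push_cast
    field_simp
    ring

theorem final_closure {E4 E6 J : ℂ → ℂ}
    (h4 : ∀ τ : ℂ, E4 τ = 1 + 240 * ∑' m : ℕ, ((ArithmeticFunction.sigma 3 (m + 1) : ℕ) : ℂ) *
      Complex.exp (2 * (Real.pi : ℂ) * Complex.I * ((m : ℂ) + 1) * τ))
    (h6 : ∀ τ : ℂ, E6 τ = 1 - 504 * ∑' m : ℕ, ((ArithmeticFunction.sigma 5 (m + 1) : ℕ) : ℂ) *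
      Complex.exp (2 * (Real.pi : ℂ) * Complex.I * ((m : ℂ) + 1) * τ))
    (hJ : ∀ τ : ℂ, J τ = 1728 * E4 τ ^ 3 / (E4 τ ^ 3 - E6 τ ^ 2))
    {n : ℕ} (r : Fin n → Fin n) (a : Fin n) (F : Finset (Fin n)) (z : Fin n → ℂ) (hG : Gd z)
    (hconj : ∀ i, r i ≠ a → i ∉ F →
      IsAlgebraic (Algebra.adjoin ℚ (Set.range z)) ((starRingEnd ℂ) (z i)))
    {m : ℕ} (f : Fin m → Fin n × Fin 5)
    (hf : AlgebraicIndependent ℚ (fun j ↦ UU r a z (f j))) :
    ∃ f : Fin (m - F.card) → Fin n × Fin 4, AlgebraicIndependent ℚ (fun k ↦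
      ![z (f k).1, J (z (f k).1), deriv J (z (f k).1), deriv (deriv J) (z (f k).1)] (f k).2) := by
  classical
  set M := AlgebraicIndependent.matroid ℚ ℂ with hM
  set S : Fin n × Fin 4 → ℂ := fun x ↦
    ![z x.1, J (z x.1), deriv J (z x.1), deriv (deriv J) (z x.1)] x.2 with hS
  set T : Set ℂ := (fun i ↦ (starRingEnd ℂ) (z i)) '' (F : Set (Fin n)) with hT
  set D : Subalgebra ℚ ℂ := Algebra.adjoin ℚ (Set.range S ∪ T) with hD
  have hgen : ∀ v ∈ Set.range S ∪ T, IsAlgebraic D v := by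
    intro v hv
    exact isAlgebraic_algebraMap (⟨v, Algebra.subset_adjoin hv⟩ : D)
  have aQ : ∀ q : ℚ, IsAlgebraic D (q : ℂ) := fun q ↦ by
    have : (q : ℂ) = algebraMap D ℂ (algebraMap ℚ D q) := by
      rw [← IsScalarTower.algebraMap_apply]; rfl
    rw [this]
    exact isAlgebraic_algebraMap _
  have aw : ∀ i, IsAlgebraic D (z i) := fun i ↦ hgen _ (Or.inl ⟨(i, 0), rfl⟩)
  have aJ : ∀ i, IsAlgebraic D (J (z i)) := fun i ↦ hgen _ (Or.inl ⟨(i, 1), rfl⟩)
  have aJ1 : ∀ i, IsAlgebraic D (deriv J (z i)) := fun i ↦ hgen _ (Or.inl ⟨(i, 2), rfl⟩)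
  have aJ2 : ∀ i, IsAlgebraic D (deriv (deriv J) (z i)) := fun i ↦ hgen _ (Or.inl ⟨(i, 3), rfl⟩)
  have ax : ∀ i, r i ≠ a → IsAlgebraic D ((starRingEnd ℂ) (z i)) := by
    intro i hi
    by_cases hF : i ∈ F
    · exact hgen _ (Or.inr ⟨i, hF, rfl⟩)
    · have h1 := hconj i hi hF
      have hle : Algebra.adjoin ℚ (Set.range z) ≤ D := by
        refine Algebra.adjoin_mono ?_
        rintro _ ⟨j, rfl⟩
        exact Or.inl ⟨(j, 0), rfl⟩
      obtain ⟨p, hp0, hp⟩ := h1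
      refine ⟨p.map (Subalgebra.inclusion hle).toRingHom, ?_, ?_⟩
      · rwa [Ne, Polynomial.map_eq_zero_iff (Subalgebra.inclusion_injective hle)]
      · rw [← hp, Polynomial.aeval_def, Polynomial.eval₂_map, Polynomial.aeval_def]
        rfl
  have hJv : ∀ i, J (z i) = jc (z i) := fun i ↦ (J_values h4 h6 hJ (hG i).1).1
  have aWψ : ∀ i, IsAlgebraic D (Wf (z i)) ∧ IsAlgebraic D (ps (z i)) := by
    intro i
    obtain ⟨h0, hB, hC⟩ := hG i
    obtain ⟨v0, v1, v2⟩ := J_values h4 h6 hJ h0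
    obtain ⟨f1, f2⟩ := psi_formula hB hC disc_ne v0 v1 v2
    constructor
    · have e1 : Wf (z i) = -deriv J (z i) * (J (z i))⁻¹ := f1
      rw [e1]
      exact (aJ1 i).neg.mul (aJ i).inv
    · have e1 : ps (z i) = ((6 : ℚ) : ℂ) * (((2 / 3 : ℚ) : ℂ) + ((1 / 2 : ℚ) : ℂ) * (J (z i) *
        (J (z i) - ((1728 : ℚ) : ℂ))⁻¹) - deriv (deriv J) (z i) *
          (J (z i) * (deriv J (z i) * (J (z i))⁻¹) ^ 2)⁻¹) := f2
      rw [e1]
      exact (aQ _).mul (((aQ _).add ((aQ _).mul ((aJ i).mul ((aJ i).sub (aQ _)).inv))).sub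
        ((aJ2 i).mul ((aJ i).mul (((aJ1 i).mul (aJ i).inv).pow 2)).inv))
  have aU : ∀ x, IsAlgebraic D (UU r a z x) := by
    rintro ⟨i, l⟩
    by_cases hi : r i = a
    · rw [UU, if_pos hi]
      fin_cases l
      · exact aw i
      · change IsAlgebraic D (jc (z i))
        rw [← hJv]
        exact aJ i
      · exact (aWψ i).1
      · exact (aWψ i).2
      · exact aw i
    · rw [UU, if_neg hi]
      fin_cases l
      · exact aw i
      · change IsAlgebraic D (jc (z i))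
        rw [← hJv]
        exact aJ i
      · change IsAlgebraic D (ph (z i))
        obtain ⟨h0, hB, hC⟩ := hG i
        have hp := ps_eq' h0 hB hC
        have hs : z i - (starRingEnd ℂ) (z i) ≠ 0 := by
          rw [sub_ne_zero]
          intro h0'
          have := Complex.conj_eq_iff_im.mp h0'.symm
          linarith
        have hW := Wf_ne hB hC
        have e1 : ph (z i) = ps (z i) + ((12 : ℚ) : ℂ) *
            ((z i - (starRingEnd ℂ) (z i)) * Wf (z i))⁻¹ := by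
          push_cast
          field_simp
          linear_combination -hp
        rw [e1]
        exact (aWψ i).2.add ((aQ _).mul (((aw i).sub (ax i hi)).mul (aWψ i).1).inv)
      · exact ax i hi
      · change IsAlgebraic D (Wf (z i) / Wf (z (r i)))
        rw [div_eq_mul_inv]
        exact (aWψ i).1.mul (aWψ (r i)).1.inv
  have hind : M.Indep (Set.range (fun j ↦ UU r a z (f j))) := by
    rw [hM, AlgebraicIndependent.matroid_indep_iff]
    exact hf.to_subtype_range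
  have hcard : (Set.range (fun j ↦ UU r a z (f j))).encard =
      ((m : ℕ) : ℕ∞) := by
    rw [← Set.image_univ, hf.injective.encard_image, Set.encard_univ,
      ENat.card_eq_coe_fintype_card, Fintype.card_fin]
  have hsub : Set.range (fun j ↦ UU r a z (f j)) ⊆ M.closure (Set.range S ∪ T) := by
    rw [hM, AlgebraicIndependent.matroid_closure_eq]
    rintro _ ⟨j, rfl⟩
    exact aU _
  obtain ⟨B, hB'⟩ := M.exists_isBasis (Set.range S)
  have h1 : ((m : ℕ) : ℕ∞) ≤ M.eRk (Set.range S ∪ T) := by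
    rw [← M.eRk_closure_eq, ← hcard]
    exact hind.encard_le_eRk_of_subset hsub
  have hTc : M.eRk T ≤ ((F.card : ℕ) : ℕ∞) := by
    refine (M.eRk_le_encard T).trans ?_
    refine (Set.encard_image_le _ _).trans ?_
    rw [Set.encard_coe_eq_coe_finsetCard]
  have h2 : ((m : ℕ) : ℕ∞) ≤ B.encard + ((F.card : ℕ) : ℕ∞) := by
    refine h1.trans ((M.eRk_union_le_eRk_add_eRk _ _).trans ?_)
    rw [← hB'.eRk_eq_encard]
    gcongr
  have h3 : ((m - F.card : ℕ) : ℕ∞) ≤ B.encard := by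
    rcases le_or_gt F.card m with hmF | hmF
    · have h5 : ((m - F.card : ℕ) : ℕ∞) + ((F.card : ℕ) : ℕ∞) ≤
          B.encard + ((F.card : ℕ) : ℕ∞) := by
        refine le_trans (le_of_eq ?_) h2
        rw [← Nat.cast_add, Nat.sub_add_cancel hmF]
      exact (ENat.add_le_add_iff_right (ENat.natCast_ne_top _)).mp h5
    · rw [Nat.sub_eq_zero_of_le hmF.le, Nat.cast_zero]
      exact bot_le
  refine extract_indep' S (B := B) ?_ hB'.subset h3
  have := hB'.indep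
  rw [hM, AlgebraicIndependent.matroid_indep_iff] at this
  exact this

end H32.T3

end S_H32_T3_D8

section S_H32_T3_D9

open UpperHalfPlane hiding I
open Complex EisensteinSeries ModularForm MatrixGroups Manifold
open scoped Real Topology

namespace H32.T3

open Finset Filter Asymptotics

lemma tau_im {d w v : ℕ} {u : ℤ} {τ : ℂ} (hd : 1 ≤ d) (hw : 1 ≤ w) (hv : 1 ≤ v)
    (hτ : τ = (u + v * (Real.sqrt d * Complex.I)) / w) : 0 < τ.im := by
  have hw0 : (0 : ℝ) < w := by exact_mod_cast hw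
  have hv0 : (0 : ℝ) < v := by exact_mod_cast hv
  have hd0 : (0 : ℝ) < d := by exact_mod_cast hd
  have e1 : τ = ((u / w : ℝ) : ℂ) + ((v * Real.sqrt d / w : ℝ) : ℂ) * Complex.I := by
    rw [hτ]
    have : (w : ℂ) ≠ 0 := by exact_mod_cast hw0.ne'
    push_cast
    field_simp
  have e2 : τ.im = v * Real.sqrt d / w := by
    rw [e1]
    simp
  rw [e2]
  have := Real.sqrt_pos.mpr hd0
  positivity

lemma gp_le {n : ℕ} (z τ : Fin n → ℂ) (x : Fin n × Bool) : gp z τ x ≤ ‖τ x.1 - z x.1‖ := by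
  obtain ⟨i, b⟩ := x
  cases b
  · exact le_rfl
  · exact Complex.abs_re_le_norm _

/-- Representatives of the classes. -/
lemma exists_rep {n b : ℕ} (c : Fin n → Fin b) (a : Fin n) : ∃ r : Fin n → Fin n,
    (∀ i, c (r i) = c i) ∧ (∀ i, r (r i) = r i) ∧ (∀ i, r i = a ↔ c i = c a) ∧
    ((univ.image r).erase a).card + 1 ≤ b := by
  classical
  set rep : Fin b → Fin n := fun y ↦ if y = c a then a else
    if h : ∃ j, c j = y then h.choose else a with hrep
  have hc : ∀ i, c (rep (c i)) = c i := by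
    intro i
    rw [hrep]
    simp only
    split_ifs with h1 h2
    · exact h1.symm
    · exact h2.choose_spec
    · exact absurd ⟨i, rfl⟩ h2
  have ha : rep (c a) = a := by
    rw [hrep]
    simp
  refine ⟨fun i ↦ rep (c i), hc, fun i ↦ ?_, fun i ↦ ⟨fun h ↦ ?_, fun h ↦ ?_⟩, ?_⟩
  · change rep (c (rep (c i))) = rep (c i)
    rw [hc]
  · have h' : rep (c i) = a := h
    rw [← hc i, h']
  · change rep (c i) = a
    rw [h, ha]
  · have h1 : (univ.image (fun i ↦ rep (c i))).erase a ⊆ (univ.erase (c a)).image rep := by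
      intro j hj
      rw [mem_erase, mem_image] at hj
      obtain ⟨hja, i, -, hi⟩ := hj
      rw [mem_image]
      refine ⟨c i, ?_, hi⟩
      rw [mem_erase]
      refine ⟨fun h ↦ hja ?_, mem_univ _⟩
      rw [← hi, h, ha]
    have h2 := (card_le_card h1).trans card_image_le
    rw [card_erase_of_mem (mem_univ _), card_univ, Fintype.card_fin] at h2
    have h3 : 0 < b := (c a).pos
    omega

theorem main_approx (n : ℕ) : ∃ κ : ℕ, ∀ (E4 E6 J : ℂ → ℂ)
    (_ : ∀ τ : ℂ, E4 τ = 1 + 240 * ∑' m : ℕ, ((ArithmeticFunction.sigma 3 (m + 1) : ℕ) : ℂ) *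
      Complex.exp (2 * (Real.pi : ℂ) * Complex.I * ((m : ℂ) + 1) * τ))
    (_ : ∀ τ : ℂ, E6 τ = 1 - 504 * ∑' m : ℕ, ((ArithmeticFunction.sigma 5 (m + 1) : ℕ) : ℂ) *
      Complex.exp (2 * (Real.pi : ℂ) * Complex.I * ((m : ℂ) + 1) * τ))
    (_ : ∀ τ : ℂ, J τ = 1728 * E4 τ ^ 3 / (E4 τ ^ 3 - E6 τ ^ 2))
    (b : ℕ) (c : Fin n → Fin b) (a : Fin n) (G : Finset (Fin n)) (N : ℕ)
    (e : Fin N → Fin n × Bool) (z : Fin n → ℂ),
    (∀ i, 0 < (z i).im) → (∀ i, ∃ p, e p = (i, false)) →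
    (∀ B : ℕ, ∃ H : ℕ, B ≤ H ∧ ∃ (d w v : Fin n → ℕ) (u : Fin n → ℤ) (τ : Fin n → ℂ),
      (∀ i, 1 ≤ d i ∧ d i ≤ H ∧ 1 ≤ w i ∧ w i ≤ H ∧ 1 ≤ v i ∧ v i ≤ H ∧ |u i| ≤ H ∧
        τ i = (u i + v i * (Real.sqrt (d i) * Complex.I)) / w i ∧
        ‖τ i - z i‖ < Real.exp (-(H : ℝ) ^ κ)) ∧
      (∀ i j, c i = c j → d i = d j) ∧ (∀ p, 0 < gp z τ (e p)) ∧
      ∀ p q, p < q → gp z τ (e p) < gp z τ (e q) ^ B) →
    (∀ i, c i ≠ c a → i ∉ G → (∃ p, e p = (i, true)) ∨
      IsAlgebraic (Algebra.adjoin ℚ (Set.range z)) ((starRingEnd ℂ) (z i))) →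
    ∃ f : Fin (4 * n + 1 - b - G.card) → Fin n × Fin 4, AlgebraicIndependent ℚ (fun k ↦
      ![z (f k).1, J (z (f k).1), deriv J (z (f k).1), deriv (deriv J) (z (f k).1)] (f k).2) := by
  classical
  obtain ⟨A, hA⟩ := U_indep n
  refine ⟨A + 1, fun E4 E6 J h4 h6 hJ b c a G N e z hz he happ hconj ↦ ?_⟩
  obtain ⟨r, hr1, hr2, hr3, hr4⟩ := exists_rep c a
  set κ := A + 1 with hκ
  choose H hH d w v u τ h1 h2 h3 h5 using fun k : ℕ ↦ happ (k + 2)
  have him : ∀ k i, 0 < (τ k i).im := fun k i ↦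
    tau_im (h1 k i).1 (h1 k i).2.2.1 (h1 k i).2.2.2.2.1 (h1 k i).2.2.2.2.2.2.2.1
  have hpos : ∀ k p, 0 < gp z (τ k) (e p) := h3
  have hH2 : ∀ k, 2 ≤ H k := fun k ↦ le_trans (by omega) (hH k)
  set S : ApxN κ n r z :=
    { H := H
      t := fun k i ↦ ⟨τ k i, him k i⟩
      hH := hH
      hT := fun k ↦ by
        refine ⟨hH2 k, d k, w k, u k, v k, fun i ↦ Real.sqrt (d k i) * Complex.I, ?_, ?_⟩
        · intro i
          obtain ⟨g1, g2, g3, g4, g5, g6, g7, g8, g9⟩ := h1 k i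
          refine ⟨g2, g3, g4, g7, g5, g6, ?_, g8⟩
          rw [mul_pow, Complex.I_sq, ← Complex.ofReal_pow, Real.sq_sqrt (Nat.cast_nonneg _)]
          push_cast
          ring
        · intro i
          have := h2 k (r i) i (hr1 i)
          exact ⟨this, by simp only [this]⟩
      hlt := fun k i ↦ by
        rw [norm_sub_rev]
        exact (h1 k i).2.2.2.2.2.2.2.2
      hne := fun k i ↦ by
        obtain ⟨p, hp⟩ := he i
        have := hpos k p
        rw [hp] at this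
        intro h0
        have h0' : τ k i = z i := h0
        have e1 : gp z (τ k) (i, false) = ‖τ k i - z i‖ := rfl
        rw [e1, h0', sub_self, norm_zero] at this
        exact lt_irrefl _ this } with hS
  set F : Finset (Fin n) := Finset.univ.filter (fun i ↦ r i ≠ a ∧ ∃ p, e p = (i, true)) with hF
  have hFa : ∀ i ∈ F, r i ≠ a := by
    intro i hiF
    rw [hF, Finset.mem_filter] at hiF
    exact hiF.2.1
  have heF : ∀ i ∈ F, ∃ p, e p = (i, true) := by
    intro i hiF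
    rw [hF, Finset.mem_filter] at hiF
    exact hiF.2.2
  have hpos' : ∀ᶠ k in atTop, ∀ p, 0 < gp z (fun i ↦ (S.t k i : ℂ)) (e p) :=
    Eventually.of_forall fun k p ↦ hpos k p
  have hle1 : ∀ k p, gp z (τ k) (e p) ≤ 1 := by
    intro k p
    refine (gp_le _ _ _).trans ((h1 k (e p).1).2.2.2.2.2.2.2.2.le.trans ?_)
    rw [Real.exp_le_one_iff]
    have : (0 : ℝ) ≤ (H k : ℝ) ^ κ := by positivity
    linarith
  have hier : ∀ C : ℕ, ∀ᶠ k in atTop, ∀ p q, p < q → gp z (fun i ↦ (S.t k i : ℂ)) (e p) ≤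
      gp z (fun i ↦ (S.t k i : ℂ)) (e q) ^ C := by
    intro C
    filter_upwards [eventually_ge_atTop C] with k hk p q hpq
    refine (h5 k p q hpq).le.trans ?_
    exact pow_le_pow_of_le_one (hpos k q).le (hle1 k q) (by omega)
  obtain ⟨hG, f, hf⟩ := hA κ (by omega) r a hr2 F hFa z S hz N e he heF hpos' hier
  have halgZQ : Algebra.IsAlgebraic ℤ ℚ := IsLocalization.isAlgebraic ℚ (nonZeroDivisors ℤ)
  have hfQ : AlgebraicIndependent ℚ (fun j ↦ UU r a z (f j)) := hf.extendScalars ℚ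
  obtain ⟨g, hg⟩ := final_closure h4 h6 hJ r a (F ∪ G) z hG (fun i hi hiF ↦ by
    rw [Finset.mem_union, not_or] at hiF
    have hci : c i ≠ c a := fun h ↦ hi ((hr3 i).mpr h)
    refine (hconj i hci hiF.2).resolve_left fun h ↦ hiF.1 ?_
    rw [hF, Finset.mem_filter]
    exact ⟨Finset.mem_univ _, hi, h⟩) f hfQ
  have hle : 4 * n + 1 - b - G.card ≤
      4 * n + F.card - ((univ.image r).erase a).card - (F ∪ G).card := by
    have h6 := Finset.card_union_le F G
    omega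
  exact ⟨g ∘ Fin.castLE hle, hg.comp _ (Fin.castLE_injective hle)⟩

end H32.T3

end S_H32_T3_D9
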