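import Mathlib
import Pool.Agent.H32.AKM.P26
import Pool.Agent.H32.AKM.P27
import Pool.Agent.H32.AKM.P35

/-! Modular Schanuel with derivatives for points algebraic over a field with good approximations, part 36: this file joins several modules to save build time. -/

section S_H32_T4_B2

open UpperHalfPlane hiding I
open Complex EisensteinSeries ModularForm MatrixGroups Manifold
open scoped Real Topology
open MvPolynomial Filter

namespace H32.T4

/-- The principal square root. -/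
noncomputable def sq (x : ℂ) : ℂ := x ^ (((2 : ℕ) : ℂ)⁻¹)

lemma sq_sq (x : ℂ) : sq x ^ 2 = x := Complex.cpow_nat_inv_pow x two_ne_zero

lemma an_sq {x : ℂ} (hx : x ∈ Complex.slitPlane) : AnalyticAt ℂ sq x :=
  AnalyticAt.cpow analyticAt_id analyticAt_const hx

lemma sq_ofReal {x : ℝ} (hx : 0 ≤ x) : sq (x : ℂ) = (Real.sqrt x : ℝ) := by
  rw [sq, Real.sqrt_eq_rpow, Complex.ofReal_cpow hx]
  congr 1
  push_cast
  norm_num

/-- The data describing a tuple of quadratic points. -/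
structure Dat (m n b : ℕ) where
  /-- constructor -/
  of ::
  /-- the parameters -/
  t : Fin m → ℝ
  /-- rational parts -/
  pA : Fin n → MvPolynomial (Fin m) ℤ
  /-- coefficients of the roots -/
  pB : Fin n → MvPolynomial (Fin m) ℤ
  /-- denominators -/
  pW : Fin n → MvPolynomial (Fin m) ℤ
  /-- radicands -/
  pD : Fin (b + 1) → MvPolynomial (Fin m) ℤ
  /-- classes -/
  c : Fin n → Fin (b + 1)
  hpB : ∀ i, 0 < aeval t (pB i)
  hpW : ∀ i, 0 < aeval t (pW i)
  hpD : ∀ i, 0 < aeval t (pD i)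

/-- integral polynomials at real points -/
lemma aeval_ofReal {m : ℕ} (t : Fin m → ℝ) (p : MvPolynomial (Fin m) ℤ) :
    aeval (fun s ↦ (t s : ℂ)) p = ((aeval t p : ℝ) : ℂ) := by
  have h := MvPolynomial.comp_aeval_apply (R := ℤ) t (Complex.ofRealHom.toIntAlgHom) p
  exact h.symm

lemma an_aeval {m : ℕ} (p : MvPolynomial (Fin m) ℤ) (s : Fin m → ℂ) :
    AnalyticAt ℂ (fun s : Fin m → ℂ ↦ aeval s p) s :=
  AnalyticAt.aeval_mvPolynomial (𝕜 := ℂ) (f := fun s : Fin m → ℂ ↦ s)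
    (fun i ↦ (ContinuousLinearMap.proj (R := ℂ) (φ := fun _ : Fin m ↦ ℂ) i).analyticAt s) p

namespace Dat

variable {m n b : ℕ} (S : Dat m n b)

/-- The complex parameters. -/
noncomputable def x : Fin m → ℂ := fun s ↦ (S.t s : ℂ)

/-- The functions. -/
noncomputable def φ (i : Fin n) (s : Fin m → ℂ) : ℂ :=
  (aeval s (S.pA i) + aeval s (S.pB i) * (sq (aeval s (S.pD (S.c i))) * Complex.I)) / aeval s (S.pW i)

lemma x_aeval (p : MvPolynomial (Fin m) ℤ) : aeval S.x p = ((aeval S.t p : ℝ) : ℂ) :=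
  aeval_ofReal S.t p

lemma an_φ (i : Fin n) : AnalyticAt ℂ (S.φ i) S.x := by
  have h1 : AnalyticAt ℂ (fun s : Fin m → ℂ ↦ sq (aeval s (S.pD (S.c i)))) S.x := by
    refine AnalyticAt.fun_comp (g := sq) (f := fun s : Fin m → ℂ ↦ aeval s (S.pD (S.c i))) ?_
      (an_aeval _ _)
    apply an_sq
    rw [x_aeval]
    exact Complex.ofReal_mem_slitPlane.mpr (S.hpD _)
  refine AnalyticAt.fun_div ((an_aeval _ _).fun_add ((an_aeval _ _).fun_mul
    (h1.fun_mul analyticAt_const))) (an_aeval _ _) ?_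
  rw [x_aeval]
  exact_mod_cast (S.hpW i).ne'

/-- Values at real points. -/
lemma φ_real (i : Fin n) {y : Fin m → ℝ} (hy : 0 ≤ aeval y (S.pD (S.c i))) :
    S.φ i (fun s ↦ (y s : ℂ)) = ((aeval y (S.pA i) : ℝ) + (aeval y (S.pB i) : ℝ) *
      ((Real.sqrt (aeval y (S.pD (S.c i))) : ℝ) * Complex.I)) / (aeval y (S.pW i) : ℝ) := by
  rw [φ, aeval_ofReal, aeval_ofReal, aeval_ofReal, aeval_ofReal, sq_ofReal hy]

lemma im_φ (i : Fin n) : 0 < (S.φ i S.x).im := by
  have h := S.φ_real i (S.hpD (S.c i)).le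
  have e : S.φ i S.x = (((aeval S.t (S.pA i) : ℝ) / (aeval S.t (S.pW i) : ℝ) : ℝ) : ℂ) +
      (((aeval S.t (S.pB i) : ℝ) * (Real.sqrt (aeval S.t (S.pD (S.c i))) : ℝ) /
        (aeval S.t (S.pW i) : ℝ) : ℝ) : ℂ) * Complex.I := by
    have h1 : ((aeval S.t (S.pW i) : ℝ) : ℂ) ≠ 0 := by exact_mod_cast (S.hpW i).ne'
    refine h.trans ?_
    push_cast
    field_simp
  rw [e]
  have h2 := S.hpB i
  have h3 := S.hpW i
  have h4 := Real.sqrt_pos.mpr (S.hpD (S.c i))
  simp only [Complex.add_im, Complex.ofReal_im, Complex.mul_im, Complex.ofReal_re, Complex.I_im,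
    mul_one, Complex.I_re, mul_zero, add_zero, zero_add]
  positivity

end Dat

lemma mem_EX {m : ℕ} (p : MvPolynomial (Fin m) ℤ) (x v : Fin m → ℂ)
    (h : MeromorphicAt (fun ζ ↦ aeval (line x v ζ) p) 0) :
    mk (fun ζ ↦ aeval (line x v ζ) p) h ∈ EX := by
  induction p using MvPolynomial.induction_on with
  | C c =>
    have e : mk (fun ζ ↦ aeval (line x v ζ) (C c : MvPolynomial (Fin m) ℤ)) h =
        algebraMap ℂ MG (c : ℂ) := by
      rw [algebraMap_MG, mk_eq_mk]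
      refine Eventually.of_forall fun ζ ↦ ?_
      simp
    rw [e]
    exact EX.algebraMap_mem _
  | add p q hp hq =>
    have hp' : MeromorphicAt (fun ζ ↦ aeval (line x v ζ) p) 0 := (an_line (an_aeval p x)).meromorphicAt
    have hq' : MeromorphicAt (fun ζ ↦ aeval (line x v ζ) q) 0 := (an_line (an_aeval q x)).meromorphicAt
    have e : mk (fun ζ ↦ aeval (line x v ζ) (p + q)) h = mk _ hp' + mk _ hq' := by
      rw [mk_add, mk_eq_mk]
      refine Eventually.of_forall fun ζ ↦ ?_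
      simp
    rw [e]
    exact EX.add_mem (hp hp') (hq hq')
  | mul_X p i hp =>
    have hp' : MeromorphicAt (fun ζ ↦ aeval (line x v ζ) p) 0 := (an_line (an_aeval p x)).meromorphicAt
    have e : mk (fun ζ ↦ aeval (line x v ζ) (p * X i)) h =
        mk _ hp' * (algebraMap ℂ MG (x i) + XX * algebraMap ℂ MG (v i)) := by
      rw [algebraMap_MG, algebraMap_MG, XX, mk_mul, mk_add, mk_mul, mk_eq_mk]
      refine Eventually.of_forall fun ζ ↦ ?_
      simp [line]
    rw [e]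
    refine EX.mul_mem (hp hp') (EX.add_mem (EX.algebraMap_mem _) (EX.mul_mem ?_ (EX.algebraMap_mem _)))
    exact IntermediateField.mem_adjoin_simple_self ℂ XX

lemma alg_EX {x : MG} (h : x ∈ EX) : IsAlgebraic EX x := isAlgebraic_algebraMap (⟨x, h⟩ : EX)

namespace Dat

variable {m n b : ℕ} (S : Dat m n b)

lemma alg_φ (i : Fin n) (v : Fin m → ℂ) (h : AnalyticAt ℂ (fun ζ : ℂ ↦ S.φ i (line S.x v ζ)) 0) :
    IsAlgebraic EX (mk (fun ζ : ℂ ↦ S.φ i (line S.x v ζ)) h.meromorphicAt) := by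
  have hp : ∀ p : MvPolynomial (Fin m) ℤ, MeromorphicAt (fun ζ ↦ aeval (line S.x v ζ) p) 0 :=
    fun p ↦ (an_line (an_aeval p S.x)).meromorphicAt
  have hσ : AnalyticAt ℂ (fun ζ ↦ sq (aeval (line S.x v ζ) (S.pD (S.c i)))) 0 := by
    refine an_line (f := fun s ↦ sq (aeval s (S.pD (S.c i)))) ?_
    refine AnalyticAt.fun_comp (g := sq) (f := fun s : Fin m → ℂ ↦ aeval s (S.pD (S.c i))) ?_
      (an_aeval _ _)
    apply an_sq
    rw [x_aeval]
    exact Complex.ofReal_mem_slitPlane.mpr (S.hpD _)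
  have aσ : IsAlgebraic EX (mk _ hσ.meromorphicAt) := by
    refine IsAlgebraic.of_pow (n := 2) two_pos ?_
    have e : mk _ hσ.meromorphicAt ^ 2 = mk _ (hp (S.pD (S.c i))) := by
      rw [pow_two, mk_mul, mk_eq_mk]
      refine Eventually.of_forall fun ζ ↦ ?_
      change _ * _ = _
      rw [← pow_two, sq_sq]
    rw [e]
    exact alg_EX (mem_EX _ _ _ _)
  have aI : IsAlgebraic EX (algebraMap ℂ MG Complex.I) := alg_EX (EX.algebraMap_mem _)
  have e : mk (fun ζ ↦ S.φ i (line S.x v ζ)) h.meromorphicAt = (mk _ (hp (S.pA i)) +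
      mk _ (hp (S.pB i)) * (mk _ hσ.meromorphicAt * algebraMap ℂ MG Complex.I)) *
      (mk _ (hp (S.pW i)))⁻¹ := by
    have hpW0 : mk _ (hp (S.pW i)) ≠ 0 := by
      intro h0
      rw [mk_eq_zero] at h0
      have h1 : ContinuousAt (fun ζ ↦ aeval (line S.x v ζ) (S.pW i)) 0 :=
        (an_line (an_aeval (S.pW i) S.x)).continuousAt
      have h2 : Tendsto (fun ζ ↦ aeval (line S.x v ζ) (S.pW i)) NE
          (𝓝 (aeval (line S.x v 0) (S.pW i))) := h1.tendsto.mono_left nhdsWithin_le_nhds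
      rw [line_zero, x_aeval] at h2
      have h3 : Tendsto (fun ζ ↦ aeval (line S.x v ζ) (S.pW i)) NE (𝓝 0) := by
        refine tendsto_const_nhds.congr' ?_
        filter_upwards [h0] with ζ hζ using hζ.symm
      have h4 := tendsto_nhds_unique h2 h3
      have := S.hpW i
      have h5 : (aeval S.t (S.pW i) : ℝ) = 0 := by exact_mod_cast h4
      linarith
    rw [eq_mul_inv_iff_mul_eq₀ hpW0, algebraMap_MG, mk_mul, mk_mul, mk_mul, mk_add, mk_eq_mk]
    have hne : ∀ᶠ ζ in NE, aeval (line S.x v ζ) (S.pW i) ≠ 0 := by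
      rcases (hp (S.pW i)).eventually_eq_zero_or_eventually_ne_zero with h1 | h1
      · exact absurd (mk_eq_zero.mpr h1) hpW0
      · exact h1
    filter_upwards [hne] with ζ hζ
    rw [φ, div_mul_cancel₀ _ hζ]
  rw [e]
  exact ((alg_EX (mem_EX _ _ _ _)).add ((alg_EX (mem_EX _ _ _ _)).mul (aσ.mul aI))).mul
    (alg_EX (mem_EX _ _ _ _)).inv

/-- The polynomial detecting constancy. -/
noncomputable def pP (i : Fin n) : MvPolynomial (Fin m) ℂ :=
  (MvPolynomial.map (Int.castRingHom ℂ) (S.pW i) * C (S.φ i S.x) -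
    MvPolynomial.map (Int.castRingHom ℂ) (S.pA i)) ^ 2 +
    MvPolynomial.map (Int.castRingHom ℂ) (S.pB i) ^ 2 *
      MvPolynomial.map (Int.castRingHom ℂ) (S.pD (S.c i))

lemma eval_pP (i : Fin n) (s : Fin m → ℂ) : eval s (S.pP i) =
    (aeval s (S.pW i) * S.φ i S.x - aeval s (S.pA i)) ^ 2 +
      aeval s (S.pB i) ^ 2 * aeval s (S.pD (S.c i)) := by
  have h : ∀ p : MvPolynomial (Fin m) ℤ, eval s (MvPolynomial.map (Int.castRingHom ℂ) p) =
      aeval s p := by
    intro p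
    rw [eval_map, aeval_def]
    rfl
  rw [pP]
  simp only [map_add, map_sub, map_mul, map_pow, eval_C, h]

lemma pP_ne (hCM : ∀ i, ¬ ∃ a b c : ℤ, a ≠ 0 ∧ (a : ℂ) * S.φ i S.x ^ 2 + (b : ℂ) * S.φ i S.x +
    (c : ℂ) = 0) (i : Fin n) : S.pP i ≠ 0 := by
  intro h0
  have hpW0 : S.pW i ≠ 0 := by
    intro h1
    have := S.hpW i
    rw [h1, map_zero] at this
    exact lt_irrefl _ this
  obtain ⟨y, hy⟩ : ∃ y : Fin m → ℤ, eval y (S.pW i) ≠ 0 := by
    by_contra hcon
    push Not at hcon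
    exact hpW0 (MvPolynomial.funext fun y ↦ by rw [hcon y, map_zero])
  have hcast : ∀ p : MvPolynomial (Fin m) ℤ, aeval (fun s ↦ ((y s : ℤ) : ℂ)) p =
      ((eval y p : ℤ) : ℂ) := by
    intro p
    have h := MvPolynomial.comp_aeval_apply (R := ℤ) y ((Int.castRingHom ℂ).toIntAlgHom) p
    exact h.symm
  have h1 := S.eval_pP i (fun s ↦ ((y s : ℤ) : ℂ))
  rw [h0, map_zero, hcast, hcast, hcast, hcast] at h1
  refine hCM i ⟨eval y (S.pW i) ^ 2, -2 * eval y (S.pW i) * eval y (S.pA i),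
    eval y (S.pA i) ^ 2 + eval y (S.pB i) ^ 2 * eval y (S.pD (S.c i)), pow_ne_zero 2 hy, ?_⟩
  push_cast
  linear_combination -h1

lemma nc_φ (hCM : ∀ i, ¬ ∃ a b c : ℤ, a ≠ 0 ∧ (a : ℂ) * S.φ i S.x ^ 2 + (b : ℂ) * S.φ i S.x +
    (c : ℂ) = 0) (i : Fin n) : ∃ p : MvPolynomial (Fin m) ℂ, p ≠ 0 ∧ ∀ v, eval (line S.x v 1) p ≠ 0 →
      ¬ ∀ᶠ ζ in NE, S.φ i (line S.x v ζ) = S.φ i S.x := by
  refine ⟨S.pP i, S.pP_ne hCM i, fun v hv hcon ↦ hv ?_⟩
  -- the restriction to the line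
  have han : AnalyticOnNhd ℂ (fun ζ ↦ eval (line S.x v ζ) (S.pP i)) Set.univ := by
    intro ζ _
    have h1 : AnalyticAt ℂ (fun s : Fin m → ℂ ↦ aeval s (S.pP i)) (line S.x v ζ) :=
      AnalyticAt.aeval_mvPolynomial (𝕜 := ℂ) (f := fun s : Fin m → ℂ ↦ s)
        (fun i ↦ (ContinuousLinearMap.proj (R := ℂ) (φ := fun _ : Fin m ↦ ℂ) i).analyticAt _) _
    have h2 := AnalyticAt.fun_comp (g := fun s : Fin m → ℂ ↦ aeval s (S.pP i)) (f := line S.x v)
      h1 (line_an _ _ _)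
    exact h2
  have hev : ∃ᶠ ζ in 𝓝[≠] (0 : ℂ), eval (line S.x v ζ) (S.pP i) = 0 := by
    refine Eventually.frequently ?_
    have hpW : ∀ᶠ ζ in NE, aeval (line S.x v ζ) (S.pW i) ≠ 0 := by
      have h1 : ContinuousAt (fun ζ ↦ aeval (line S.x v ζ) (S.pW i)) 0 :=
        (an_line (an_aeval (S.pW i) S.x)).continuousAt
      have h2 : aeval (line S.x v 0) (S.pW i) ≠ 0 := by
        rw [line_zero, x_aeval]
        exact_mod_cast (S.hpW i).ne'
      exact (h1.eventually_ne h2).filter_mono nhdsWithin_le_nhds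
    filter_upwards [hcon, hpW] with ζ h1 h2
    rw [eval_pP, ← h1, φ]
    rw [mul_div_cancel₀ _ h2, add_sub_cancel_left, mul_pow, mul_pow, sq_sq, Complex.I_sq]
    ring
  have h3 := han.eqOn_zero_of_preconnected_of_frequently_eq_zero isPreconnected_univ
    (Set.mem_univ 0) hev (Set.mem_univ 1)
  exact h3

/-- Functional independence. -/
theorem nonvan_φ (hCM : ∀ i, ¬ ∃ a b c : ℤ, a ≠ 0 ∧ (a : ℂ) * S.φ i S.x ^ 2 + (b : ℂ) * S.φ i S.x +
    (c : ℂ) = 0) (hrel : ∀ i j, i ≠ j → ¬ ∃ a b c d : ℚ, 0 < a * d - b * c ∧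
      S.φ j S.x = ((a : ℂ) * S.φ i S.x + b) / ((c : ℂ) * S.φ i S.x + d))
    (P : MvPolynomial ((Fin n × Fin 3) ⊕ Fin m) ℂ)
    (h : ∀ᶠ s in 𝓝 S.x, aeval (Sum.elim (fun p ↦ ee (S.φ p.1 s) p.2) s) P = 0) : P = 0 :=
  nonvan S.x S.φ S.an_φ S.im_φ S.alg_φ (S.nc_φ hCM) hrel P h

end Dat

open H32.T3 in
/-- Independence along hierarchical sequences. -/
theorem ult_ind {m n : ℕ} (x : Fin m → ℂ) (φ : Fin n → (Fin m → ℂ) → ℂ)
    (han : ∀ i, AnalyticAt ℂ (φ i) x) (him : ∀ i, 0 < (φ i x).im)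
    (hnv : ∀ P : MvPolynomial ((Fin n × Fin 3) ⊕ Fin m) ℂ,
      (∀ᶠ s in 𝓝 x, aeval (Sum.elim (fun p ↦ ee (φ p.1 s) p.2) s) P = 0) → P = 0)
    (r : ℕ → Fin m → ℂ) (hr : Tendsto r atTop (𝓝 x)) (σ : Equiv.Perm (Fin m))
    (hpos : ∀ᶠ k in atTop, ∀ s, 0 < ‖r k s - x s‖)
    (hier : ∀ C : ℕ, ∀ᶠ k in atTop, ∀ p q, p < q →
      ‖r k (σ p) - x (σ p)‖ ≤ ‖r k (σ q) - x (σ q)‖ ^ C) :
    AlgebraicIndependent ℂ (Sum.elim (fun p : Fin n × Fin 3 ↦ mkU (fun k ↦ ee (φ p.1 (r k)) p.2))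
      (fun s : Fin m ↦ mkU (fun k ↦ r k s))) := by
  rw [algebraicIndependent_iff]
  intro P hP
  by_contra hne
  set F : (Fin m → ℂ) → ℂ := fun s ↦ aeval (Sum.elim (fun p ↦ ee (φ p.1 s) p.2) s) P with hF
  have hFan : AnalyticAt ℂ F x := by
    refine AnalyticAt.aeval_mvPolynomial (𝕜 := ℂ)
      (f := fun s : Fin m → ℂ ↦ Sum.elim (fun p : Fin n × Fin 3 ↦ ee (φ p.1 s) p.2) s) ?_ P
    rintro (⟨i, l⟩ | s)
    · exact AnalyticAt.fun_comp (g := fun w ↦ ee w l) (f := φ i) (analytic_ee (him i) l) (han i)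
    · exact (ContinuousLinearMap.proj (R := ℂ) (φ := fun _ : Fin m ↦ ℂ) s).analyticAt _
  set G : (Fin m → ℂ) → ℂ := fun y ↦ F (fun s ↦ y (σ.symm s)) with hG
  have hyx : (fun s ↦ (fun s ↦ x (σ s)) (σ.symm s)) = x := by
    ext s
    simp
  have hGan : AnalyticAt ℂ G (fun s ↦ x (σ s)) := by
    refine AnalyticAt.fun_comp (g := F) (f := fun (y : Fin m → ℂ) s ↦ y (σ.symm s)) ?_ ?_
    · rw [hyx]
      exact hFan
    · rw [analyticAt_pi_iff]
      intro s
      exact (ContinuousLinearMap.proj (R := ℂ) (φ := fun _ : Fin m ↦ ℂ) (σ.symm s)).analyticAt _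
  obtain ⟨c, hc, M, hM⟩ := H32.nonvanish_multi (l := atTop) m G (fun s ↦ x (σ s))
    (fun k s ↦ r k (σ s)) hGan
    (fun h ↦ hne (hnv P (by
      have h1 : Tendsto (fun (y : Fin m → ℂ) s ↦ y (σ s)) (𝓝 x) (𝓝 (fun s ↦ x (σ s))) := by
        rw [tendsto_pi_nhds]
        intro s
        exact (continuous_apply (σ s)).tendsto x
      filter_upwards [h1.eventually h] with y hy
      rw [hG] at hy
      simp only [Equiv.apply_symm_apply] at hy
      exact hy)))
    (by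
      rw [tendsto_pi_nhds]
      intro s
      exact (tendsto_pi_nhds.mp hr) (σ s)) hier
  have e1 : (Sum.elim (fun p : Fin n × Fin 3 ↦ mkU (fun k ↦ ee (φ p.1 (r k)) p.2))
      (fun s : Fin m ↦ mkU (fun k ↦ r k s))) =
      fun y ↦ mkU ((Sum.elim (fun (p : Fin n × Fin 3) (k : ℕ) ↦ ee (φ p.1 (r k)) p.2)
        (fun (s : Fin m) (k : ℕ) ↦ r k s) : (Fin n × Fin 3) ⊕ Fin m → ℕ → ℂ) y) := by
    ext y
    rcases y with y | y <;> rfl
  rw [e1, aeval_mkU'] at hP
  obtain ⟨k, h1, h2, h3⟩ := ((freq_of_mkU_zero hP).and_eventually (hM.and hpos)).exists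
  have h5 : G (fun s ↦ r k (σ s)) = 0 := by
    rw [← h1, hG, hF]
    simp only [Equiv.apply_symm_apply]
    congr 2
    ext y
    rcases y with y | y <;> rfl
  rw [h5, norm_zero] at h2
  have h4 : 0 < c * (∏ p, ‖r k (σ p) - x (σ p)‖) ^ M :=
    mul_pos hc (pow_pos (Finset.prod_pos fun p _ ↦ h3 (σ p)) _)
  linarith

end H32.T4

end S_H32_T4_B2

section S_H32_T4_B3

open UpperHalfPlane hiding I
open Complex EisensteinSeries ModularForm MatrixGroups Manifold
open scoped Real Topology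
open MvPolynomial Filter

namespace H32.T4

open H32.T3

lemma hom_int {m : ℕ} (P : MvPolynomial (Fin m) ℤ) {D : ℕ} (hD : P.totalDegree ≤ D) {q : ℕ}
    (hq : 1 ≤ q) (p : Fin m → ℤ) :
    ∃ a : ℤ, (a : ℝ) = (q : ℝ) ^ D * aeval (fun s ↦ (p s : ℝ) / q) P := by
  refine ⟨∑ μ ∈ P.support, P.coeff μ * ((q : ℤ) ^ (D - ∑ s, μ s) * ∏ s, p s ^ μ s), ?_⟩
  rw [aeval_def, eval₂_eq', Finset.mul_sum]
  push_cast
  refine Finset.sum_congr rfl fun μ hμ ↦ ?_
  have h1 : ∑ s, μ s ≤ D := by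
    have h2 := (le_totalDegree hμ).trans hD
    rwa [Finsupp.sum_fintype _ _ (fun _ ↦ rfl)] at h2
  have hq0 : (q : ℝ) ≠ 0 := by
    have : q ≠ 0 := by omega
    exact_mod_cast this
  have h3 : (q : ℝ) ^ D = (q : ℝ) ^ (D - ∑ s, μ s) * ∏ s, (q : ℝ) ^ μ s := by
    rw [Finset.prod_pow_eq_pow_sum, ← pow_add, Nat.sub_add_cancel h1]
  have h4 : ∏ s, ((p s : ℝ) / q) ^ μ s * (q : ℝ) ^ μ s = ∏ s, (p s : ℝ) ^ μ s := by
    refine Finset.prod_congr rfl fun s _ ↦ ?_
    rw [← mul_pow, div_mul_cancel₀ _ hq0]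
  rw [Finset.prod_mul_distrib] at h4
  rw [h3, ← h4]
  have h5 : algebraMap ℤ ℝ (coeff μ P) = ((coeff μ P : ℤ) : ℝ) := rfl
  rw [h5]
  ring

lemma exp_cmp {L : ℝ} (hL : 0 ≤ L) {C E κ q : ℕ} (hC : 1 ≤ C) (hq : (C : ℝ) ^ κ + L + 1 ≤ q) :
    L * Real.exp (-(q : ℝ) ^ (E * κ + 1)) < Real.exp (-((C * q ^ E : ℕ) : ℝ) ^ κ) := by
  have h1 : L < Real.exp L := by
    have := Real.add_one_le_exp L
    linarith
  have hCp : (1 : ℝ) ≤ (C : ℝ) ^ κ := one_le_pow₀ (by exact_mod_cast hC)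
  have hq1 : (1 : ℝ) ≤ q := by linarith
  have hqE : (1 : ℝ) ≤ (q : ℝ) ^ (E * κ) := one_le_pow₀ hq1
  calc L * Real.exp (-(q : ℝ) ^ (E * κ + 1)) < Real.exp L * Real.exp (-(q : ℝ) ^ (E * κ + 1)) := by
        have := Real.exp_pos (-(q : ℝ) ^ (E * κ + 1))
        gcongr
    _ = Real.exp (L + -(q : ℝ) ^ (E * κ + 1)) := (Real.exp_add _ _).symm
    _ ≤ _ := by
        apply Real.exp_le_exp.mpr
        push_cast
        rw [mul_pow, ← pow_mul, pow_succ]
        nlinarith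

/-- The extended tuple. -/
noncomputable def ext {m n : ℕ} (w : Fin n → ℂ) (y : Fin m → ℂ) : Fin (n + m) → ℂ :=
  Fin.append w (fun s ↦ y s + Complex.I)

/-- The extended class map. -/
def exr {n : ℕ} (m : ℕ) (r : Fin n → Fin n) : Fin (n + m) → Fin (n + m) :=
  Fin.append (fun i ↦ Fin.castAdd m (r i)) (fun s ↦ Fin.natAdd n s)

namespace Dat

variable {m n b : ℕ} (S : Dat m n b)

lemma aeval_cont (P : MvPolynomial (Fin m) ℤ) :
    Continuous (fun y : Fin m → ℝ ↦ (aeval y P : ℝ)) := by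
  induction P using MvPolynomial.induction_on with
  | C c =>
    simp only [aeval_C]
    exact continuous_const
  | add p q hp hq =>
    simp only [map_add]
    exact hp.add hq
  | mul_X p i hp =>
    simp only [map_mul, aeval_X]
    exact hp.mul (continuous_apply i)

/-- Bounds near the parameters. -/
lemma near : ∃ (C : ℕ) (L ε : ℝ), 2 ≤ C ∧ 0 ≤ L ∧ 0 < ε ∧ ∀ y : Fin m → ℝ,
    (∀ s, |S.t s - y s| < ε) →
    (∀ i, 0 < aeval y (S.pB i) ∧ 0 < aeval y (S.pW i) ∧ |aeval y (S.pA i)| ≤ (C : ℝ) ∧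
      aeval y (S.pB i) ≤ (C : ℝ) ∧ aeval y (S.pW i) ≤ (C : ℝ)) ∧
    (∀ c, 0 < aeval y (S.pD c) ∧ aeval y (S.pD c) ≤ (C : ℝ)) ∧ (∀ s, |y s| ≤ (C : ℝ)) ∧
    ∀ i, ‖S.φ i S.x - S.φ i (fun s ↦ (y s : ℂ))‖ ≤ L * ‖S.t - y‖ := by
  classical
  -- a common bound
  obtain ⟨C, hC⟩ := exists_nat_gt (2 + (∑ i, (|(aeval S.t (S.pA i) : ℝ)| + |(aeval S.t (S.pB i) : ℝ)| +
    |(aeval S.t (S.pW i) : ℝ)|)) + (∑ c, |(aeval S.t (S.pD c) : ℝ)|) + ∑ s, |S.t s|)
  have hA0 : 0 ≤ ∑ i, (|(aeval S.t (S.pA i) : ℝ)| + |(aeval S.t (S.pB i) : ℝ)| +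
    |(aeval S.t (S.pW i) : ℝ)|) := Finset.sum_nonneg fun _ _ ↦ by positivity
  have hD0 : 0 ≤ ∑ c, |(aeval S.t (S.pD c) : ℝ)| := Finset.sum_nonneg fun _ _ ↦ abs_nonneg _
  have hT0 : 0 ≤ ∑ s, |S.t s| := Finset.sum_nonneg fun _ _ ↦ abs_nonneg _
  have hAi : ∀ i, |(aeval S.t (S.pA i) : ℝ)| + |(aeval S.t (S.pB i) : ℝ)| +
      |(aeval S.t (S.pW i) : ℝ)| < C := fun i ↦ by
    have := Finset.single_le_sum (f := fun i ↦ |(aeval S.t (S.pA i) : ℝ)| +
      |(aeval S.t (S.pB i) : ℝ)| + |(aeval S.t (S.pW i) : ℝ)|) (fun _ _ ↦ by positivity)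
      (Finset.mem_univ i)
    linarith
  have hDi : ∀ c, |(aeval S.t (S.pD c) : ℝ)| < C := fun c ↦ by
    have := Finset.single_le_sum (f := fun c ↦ |(aeval S.t (S.pD c) : ℝ)|)
      (fun _ _ ↦ abs_nonneg _) (Finset.mem_univ c)
    linarith
  have hTi : ∀ s, |S.t s| < C := fun s ↦ by
    have := Finset.single_le_sum (f := fun s ↦ |S.t s|) (fun _ _ ↦ abs_nonneg _) (Finset.mem_univ s)
    linarith
  have hpos : ∀ P : MvPolynomial (Fin m) ℤ, 0 < (aeval S.t P : ℝ) →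
      ∀ᶠ y in 𝓝 S.t, 0 < (aeval y P : ℝ) := fun P hP ↦
    (aeval_cont P).continuousAt.eventually (lt_mem_nhds hP)
  have hle : ∀ P : MvPolynomial (Fin m) ℤ, |(aeval S.t P : ℝ)| < C →
      ∀ᶠ y in 𝓝 S.t, |(aeval y P : ℝ)| < C := fun P hP ↦
    (aeval_cont P).abs.continuousAt.eventually (gt_mem_nhds hP)
  -- the Lipschitz bound
  have hLip : ∀ i, ∃ L : ℝ, 0 < L ∧ ∀ᶠ y in 𝓝 S.t,
      ‖S.φ i (fun s ↦ ((y s : ℝ) : ℂ)) - S.φ i S.x‖ ≤ L * ‖y - S.t‖ := by
    intro i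
    have h1 := (S.an_φ i).differentiableAt.isBigO_sub
    obtain ⟨L, hL, h2⟩ := h1.exists_pos
    refine ⟨L, hL, ?_⟩
    rw [Asymptotics.IsBigOWith] at h2
    have h3 : Tendsto (fun (y : Fin m → ℝ) (s : Fin m) ↦ ((y s : ℝ) : ℂ)) (𝓝 S.t) (𝓝 S.x) := by
      rw [tendsto_pi_nhds]
      intro s
      exact (Complex.continuous_ofReal.comp (continuous_apply s)).tendsto S.t
    filter_upwards [h3.eventually h2] with y hy
    refine hy.trans (le_of_eq ?_)
    congr 1
    rw [Pi.norm_def, Pi.norm_def]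
    congr 2
    ext s
    simp only [Pi.sub_apply, x]
    rw [← Complex.ofReal_sub, nnnorm_real]
  choose Lf hLf hLf2 using hLip
  have hall : ∀ᶠ y in 𝓝 S.t,
      (∀ i, 0 < (aeval y (S.pB i) : ℝ) ∧ 0 < (aeval y (S.pW i) : ℝ) ∧
        |(aeval y (S.pA i) : ℝ)| < (C : ℝ) ∧ |(aeval y (S.pB i) : ℝ)| < (C : ℝ) ∧
        |(aeval y (S.pW i) : ℝ)| < (C : ℝ)) ∧
      (∀ c, 0 < (aeval y (S.pD c) : ℝ) ∧ |(aeval y (S.pD c) : ℝ)| < (C : ℝ)) ∧
      (∀ s, |y s| < (C : ℝ)) ∧
      ∀ i, ‖S.φ i (fun s ↦ ((y s : ℝ) : ℂ)) - S.φ i S.x‖ ≤ Lf i * ‖y - S.t‖ := by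
    refine Eventually.and ?_ (Eventually.and ?_ (Eventually.and ?_ ?_))
    · rw [eventually_all]
      intro i
      have := hAi i
      have a1 := abs_nonneg (aeval S.t (S.pA i) : ℝ)
      have a2 := abs_nonneg (aeval S.t (S.pB i) : ℝ)
      have a3 := abs_nonneg (aeval S.t (S.pW i) : ℝ)
      exact (hpos _ (S.hpB i)).and ((hpos _ (S.hpW i)).and ((hle _ (by linarith)).and
        ((hle _ (by linarith)).and (hle _ (by linarith)))))
    · rw [eventually_all]
      intro c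
      exact (hpos _ (S.hpD c)).and (hle _ (hDi c))
    · rw [eventually_all]
      intro s
      exact (continuous_apply s).abs.continuousAt.eventually (gt_mem_nhds (hTi s))
    · rw [eventually_all]
      exact hLf2
  obtain ⟨ε, hε, hball⟩ := Metric.eventually_nhds_iff_ball.mp hall
  refine ⟨C, ∑ i, Lf i, ε, ?_, Finset.sum_nonneg fun i _ ↦ (hLf i).le, hε, fun y hy ↦ ?_⟩
  · have : (2 : ℝ) < C := by linarith
    exact_mod_cast this.le
  · have hyb : y ∈ Metric.ball S.t ε := by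
      rw [Metric.mem_ball, dist_pi_lt_iff hε]
      intro s
      rw [dist_comm, Real.dist_eq]
      exact hy s
    obtain ⟨h1, h2, h3, h4⟩ := hball y hyb
    refine ⟨fun i ↦ ?_, fun c ↦ ⟨(h2 c).1, ((le_abs_self _).trans_lt (h2 c).2).le⟩,
      fun s ↦ (h3 s).le, fun i ↦ ?_⟩
    · obtain ⟨g1, g2, g3, g4, g5⟩ := h1 i
      exact ⟨g1, g2, g3.le, ((le_abs_self _).trans_lt g4).le, ((le_abs_self _).trans_lt g5).le⟩
    · rw [norm_sub_rev, norm_sub_rev S.t]
      refine (h4 i).trans ?_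
      have := Finset.single_le_sum (f := Lf) (fun i _ ↦ (hLf i).le) (Finset.mem_univ i)
      gcongr

end Dat

end H32.T4

end S_H32_T4_B3

section S_H32_T4_B4

open UpperHalfPlane hiding I
open Complex EisensteinSeries ModularForm MatrixGroups Manifold
open scoped Real Topology
open MvPolynomial Filter

namespace H32.T4

open H32.T3

lemma toNat_spec {a : ℤ} {x : ℝ} (h : (a : ℝ) = x) (hx : 0 < x) :
    ((a.toNat : ℕ) : ℝ) = x ∧ 1 ≤ a.toNat := by
  have ha : 0 < a := by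
    have : (0 : ℝ) < a := by rw [h]; exact hx
    exact_mod_cast this
  have h1 : ((a.toNat : ℕ) : ℤ) = a := Int.toNat_of_nonneg ha.le
  refine ⟨?_, by omega⟩
  rw [← h]
  exact_mod_cast congrArg (fun z : ℤ ↦ (z : ℝ)) h1

namespace Dat

variable {m n b : ℕ} (S : Dat m n b)

theorem step (r : Fin n → Fin n) (hr : ∀ i, S.c (r i) = S.c i) (κ : ℕ) :
    ∃ (κ' : ℕ) (Q0 : ℕ), ∀ (q : ℕ) (p : Fin m → ℤ), Q0 ≤ q →
      (∀ s, |S.t s - p s / q| < Real.exp (-(q : ℝ) ^ κ')) →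
      ∃ (H : ℕ) (τ : Fin (n + m) → ℍ), q ≤ H ∧ Tup (n + m) H (exr m r) τ ∧
        (∀ j, (τ j : ℂ) = ext (fun i ↦ S.φ i (fun s ↦ (((p s : ℝ) / q : ℝ) : ℂ)))
          (fun s ↦ (((p s : ℝ) / q : ℝ) : ℂ)) j) ∧
        ∀ j, ‖ext (fun i ↦ S.φ i S.x) S.x j - τ j‖ < Real.exp (-(H : ℝ) ^ κ) := by
  classical
  obtain ⟨C, L, ε, hC, hL, hε, hnear⟩ := S.near
  set D : ℕ := (∑ i, ((S.pA i).totalDegree + (S.pB i).totalDegree + (S.pW i).totalDegree)) +
    ∑ c, (S.pD c).totalDegree with hD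
  have hDi : ∀ i, (S.pA i).totalDegree ≤ D ∧ (S.pB i).totalDegree ≤ D ∧
      (S.pW i).totalDegree ≤ D := fun i ↦ by
    have := Finset.single_le_sum (f := fun i ↦ (S.pA i).totalDegree + (S.pB i).totalDegree +
      (S.pW i).totalDegree) (fun _ _ ↦ Nat.zero_le _) (Finset.mem_univ i)
    refine ⟨?_, ?_, ?_⟩ <;> omega
  have hDc : ∀ c, (S.pD c).totalDegree ≤ D := fun c ↦ by
    have := Finset.single_le_sum (f := fun c ↦ (S.pD c).totalDegree) (fun _ _ ↦ Nat.zero_le _)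
      (Finset.mem_univ c)
    omega
  set E : ℕ := 2 * D + 1 with hE
  refine ⟨E * κ + 1, ⌈(C : ℝ) ^ κ + (L + 1) + 1⌉₊ + ⌈|Real.log ε|⌉₊ + 1, fun q p hq hp ↦ ?_⟩
  have hqC : (C : ℝ) ^ κ + (L + 1) + 1 ≤ q := by
    refine (Nat.le_ceil _).trans ?_
    exact_mod_cast (by omega : ⌈(C : ℝ) ^ κ + (L + 1) + 1⌉₊ ≤ q)
  have hqε : |Real.log ε| < q := by
    refine lt_of_le_of_lt (Nat.le_ceil _) ?_
    exact_mod_cast (by omega : ⌈|Real.log ε|⌉₊ < q)
  have hq1 : 1 ≤ q := by omega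
  have hqr : (1 : ℝ) ≤ q := by exact_mod_cast hq1
  have hq0 : (q : ℝ) ≠ 0 := by positivity
  set y : Fin m → ℝ := fun s ↦ (p s : ℝ) / q with hy
  have hyε : ∀ s, |S.t s - y s| < ε := fun s ↦ by
    refine (hp s).trans_le ?_
    rw [← Real.le_log_iff_exp_le hε]
    have h1 : (q : ℝ) ≤ (q : ℝ) ^ (E * κ + 1) := le_self_pow₀ hqr (by omega)
    have h2 := neg_abs_le (Real.log ε)
    linarith
  obtain ⟨h1, h2, h3, h4⟩ := hnear y hyε
  have hA := fun i ↦ hom_int (S.pA i) (hDi i).1 hq1 p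
  have hB := fun i ↦ hom_int (S.pB i) (hDi i).2.1 hq1 p
  have hW := fun i ↦ hom_int (S.pW i) (hDi i).2.2 hq1 p
  have hN := fun c ↦ hom_int (S.pD c) (hDc c) hq1 p
  choose u' hu' using hA
  choose v0 hv0 using hB
  choose w0 hw0 using hW
  choose N0 hN0 using hN
  set X : ℝ := (q : ℝ) ^ D with hX
  have hX1 : 1 ≤ X := one_le_pow₀ hqr
  have hX0 : 0 < X := by linarith
  have hC2 : (2 : ℝ) ≤ C := by exact_mod_cast hC
  have hH : ((C * q ^ E : ℕ) : ℝ) = C * (X * X * q) := by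
    rw [hX, hE]
    push_cast
    ring
  have hv := fun i ↦ toNat_spec (hv0 i) (mul_pos hX0 (h1 i).1)
  have hw := fun i ↦ toNat_spec (hw0 i) (mul_pos hX0 (h1 i).2.1)
  have hNn := fun c ↦ toNat_spec (hN0 c) (mul_pos hX0 (h2 c).1)
  set v' : Fin n → ℕ := fun i ↦ (v0 i).toNat with hv'
  set w' : Fin n → ℕ := fun i ↦ (w0 i).toNat with hw'
  set N' : Fin (b + 1) → ℕ := fun c ↦ (N0 c).toNat with hN'
  set d : Fin (n + m) → ℕ := Fin.append (fun i ↦ q ^ D * N' (S.c i)) (fun _ ↦ 1) with hd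
  set w : Fin (n + m) → ℕ := Fin.append (fun i ↦ w' i * q ^ D) (fun _ ↦ q) with hwd
  set u : Fin (n + m) → ℤ := Fin.append (fun i ↦ u' i * (q : ℤ) ^ D) p with hud
  set v : Fin (n + m) → ℕ := Fin.append v' (fun _ ↦ q) with hvd
  set τ : Fin (n + m) → ℂ := ext (fun i ↦ S.φ i (fun s ↦ ((y s : ℝ) : ℂ)))
    (fun s ↦ ((y s : ℝ) : ℂ)) with hτ
  have key : ∀ j, 1 ≤ d j ∧ (d j : ℝ) ≤ C * (X * X * q) ∧ 1 ≤ w j ∧ (w j : ℝ) ≤ C * (X * X * q) ∧
      |(u j : ℝ)| ≤ C * (X * X * q) ∧ 1 ≤ v j ∧ (v j : ℝ) ≤ C * (X * X * q) ∧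
      τ j = (u j + v j * (Real.sqrt (d j) * Complex.I)) / w j := by
    have hXX : X * X ≤ X * X * q := le_mul_of_one_le_right (by positivity) hqr
    have hX2 : X ≤ X * X * q := by
      calc X = X * 1 * 1 := by ring
        _ ≤ X * X * q := by gcongr
    have hq2 : (q : ℝ) ≤ X * X * q := by
      calc (q : ℝ) = 1 * 1 * q := by ring
        _ ≤ X * X * q := by gcongr
    have h12 : (1 : ℝ) ≤ X * X * q := by linarith
    intro j
    refine Fin.addCases (fun i ↦ ?_) (fun s ↦ ?_) j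
    · have ed : d (Fin.castAdd m i) = q ^ D * N' (S.c i) := Fin.append_left _ _ _
      have ew : w (Fin.castAdd m i) = w' i * q ^ D := Fin.append_left _ _ _
      have eu : u (Fin.castAdd m i) = u' i * (q : ℤ) ^ D := Fin.append_left _ _ _
      have ev : v (Fin.castAdd m i) = v' i := Fin.append_left _ _ _
      have eτ : τ (Fin.castAdd m i) = S.φ i (fun s ↦ ((y s : ℝ) : ℂ)) := Fin.append_left _ _ _
      have rd : (d (Fin.castAdd m i) : ℝ) = X * X * aeval y (S.pD (S.c i)) := by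
        rw [ed]
        push_cast
        rw [(hNn (S.c i)).1, ← hX]
        ring
      have rw' : (w (Fin.castAdd m i) : ℝ) = X * X * aeval y (S.pW i) := by
        rw [ew]
        push_cast
        rw [(hw i).1, ← hX]
        ring
      have ru : (u (Fin.castAdd m i) : ℝ) = X * X * aeval y (S.pA i) := by
        rw [eu]
        push_cast
        rw [hu' i]
        ring
      have rv : (v (Fin.castAdd m i) : ℝ) = X * aeval y (S.pB i) := by
        rw [ev]
        exact (hv i).1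
      obtain ⟨g1, g2, g3, g4, g5⟩ := h1 i
      obtain ⟨g6, g7⟩ := h2 (S.c i)
      refine ⟨?_, ?_, ?_, ?_, ?_, ?_, ?_, ?_⟩
      · rw [ed]
        exact Nat.mul_pos (Nat.pow_pos hq1) (hNn (S.c i)).2
      · rw [rd, mul_comm (C : ℝ)]
        gcongr
      · rw [ew]
        exact Nat.mul_pos (hw i).2 (Nat.pow_pos hq1)
      · rw [rw', mul_comm (C : ℝ)]
        gcongr
      · rw [ru, abs_mul, abs_of_pos (by positivity : 0 < X * X), mul_comm (C : ℝ)]
        gcongr
      · rw [ev]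
        exact (hv i).2
      · rw [rv, mul_comm (C : ℝ)]
        gcongr
      · have hsq : Real.sqrt (d (Fin.castAdd m i)) = X * Real.sqrt (aeval y (S.pD (S.c i))) := by
          rw [rd, Real.sqrt_mul (by positivity), Real.sqrt_mul_self hX0.le]
        have cu : (u (Fin.castAdd m i) : ℂ) = (X : ℂ) * X * ((aeval y (S.pA i) : ℝ) : ℂ) := by
          exact_mod_cast congrArg (fun z : ℝ ↦ (z : ℂ)) ru
        have cv : (v (Fin.castAdd m i) : ℂ) = (X : ℂ) * ((aeval y (S.pB i) : ℝ) : ℂ) := by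
          exact_mod_cast congrArg (fun z : ℝ ↦ (z : ℂ)) rv
        have cw : (w (Fin.castAdd m i) : ℂ) = (X : ℂ) * X * ((aeval y (S.pW i) : ℝ) : ℂ) := by
          exact_mod_cast congrArg (fun z : ℝ ↦ (z : ℂ)) rw'
        have hXc : (X : ℂ) ≠ 0 := by exact_mod_cast hX0.ne'
        have hWc : ((aeval y (S.pW i) : ℝ) : ℂ) ≠ 0 := by exact_mod_cast g2.ne'
        rw [eτ, S.φ_real i g6.le, hsq, cu, cv, cw]
        push_cast
        field_simp
    · have ed : d (Fin.natAdd n s) = 1 := Fin.append_right _ _ _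
      have ew : w (Fin.natAdd n s) = q := Fin.append_right _ _ _
      have eu : u (Fin.natAdd n s) = p s := Fin.append_right _ _ _
      have ev : v (Fin.natAdd n s) = q := Fin.append_right _ _ _
      have eτ : τ (Fin.natAdd n s) = ((y s : ℝ) : ℂ) + Complex.I := Fin.append_right _ _ _
      have hps : |(p s : ℝ)| ≤ C * q := by
        have h5 := h3 s
        rw [hy] at h5
        simp only at h5
        rw [abs_div, abs_of_pos (by linarith : (0 : ℝ) < q), div_le_iff₀ (by linarith)] at h5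
        exact h5
      rw [ed, ew, eu, ev, eτ]
      refine ⟨le_rfl, ?_, hq1, ?_, ?_, hq1, ?_, ?_⟩
      · push_cast
        nlinarith
      · nlinarith
      · refine hps.trans ?_
        gcongr
      · nlinarith
      · have hqc : (q : ℂ) ≠ 0 := by exact_mod_cast hq0
        rw [hy]
        push_cast
        rw [Real.sqrt_one]
        field_simp
        push_cast
        ring
  have hcast : ∀ a : ℕ, (a : ℝ) ≤ C * (X * X * q) → a ≤ C * q ^ E := by
    intro a ha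
    rw [← hH] at ha
    exact_mod_cast ha
  have him : ∀ j, 0 < (τ j).im := fun j ↦ by
    obtain ⟨k1, k2, k3, k4, k5, k6, k7, k8⟩ := key j
    exact tau_im k1 k3 k6 k8
  have hHq : q ≤ C * q ^ E := by
    calc q = 1 * q ^ 1 := by ring
      _ ≤ C * q ^ E := Nat.mul_le_mul (by omega) (Nat.pow_le_pow_right hq1 (by omega))
  refine ⟨C * q ^ E, fun j ↦ ⟨τ j, him j⟩, hHq, ⟨?_, d, w, u, v,
    fun j ↦ Real.sqrt (d j) * Complex.I, fun j ↦ ?_, fun j ↦ ?_⟩, fun j ↦ rfl, fun j ↦ ?_⟩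
  · calc 2 = 2 * 1 := rfl
      _ ≤ C * q ^ E := Nat.mul_le_mul hC (Nat.one_le_pow _ _ hq1)
  · obtain ⟨k1, k2, k3, k4, k5, k6, k7, k8⟩ := key j
    refine ⟨hcast _ k2, k3, hcast _ k4, ?_, k6, hcast _ k7, ?_, k8⟩
    · rw [← hH] at k5
      exact_mod_cast k5
    · rw [mul_pow, Complex.I_sq, ← Complex.ofReal_pow, Real.sq_sqrt (Nat.cast_nonneg _)]
      push_cast
      ring
  · have : d (exr m r j) = d j := by
      refine Fin.addCases (fun i ↦ ?_) (fun s ↦ ?_) j
      · rw [exr, Fin.append_left, hd, Fin.append_left, Fin.append_left, hr i]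
      · rw [exr, Fin.append_right]
    exact ⟨this, by simp only [this]⟩
  · have hlt : (L + 1) * Real.exp (-(q : ℝ) ^ (E * κ + 1)) <
        Real.exp (-((C * q ^ E : ℕ) : ℝ) ^ κ) := exp_cmp (by linarith) (by omega) hqC
    refine lt_of_le_of_lt ?_ hlt
    have hexp := Real.exp_pos (-(q : ℝ) ^ (E * κ + 1))
    have hty : ‖S.t - y‖ ≤ Real.exp (-(q : ℝ) ^ (E * κ + 1)) := by
      rw [pi_norm_le_iff_of_nonneg hexp.le]
      intro s
      exact (hp s).le
    change ‖ext (fun i ↦ S.φ i S.x) S.x j - τ j‖ ≤ _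
    refine Fin.addCases (fun i ↦ ?_) (fun s ↦ ?_) j
    · rw [hτ, ext, ext, Fin.append_left, Fin.append_left]
      refine (h4 i).trans ?_
      gcongr
      linarith
    · rw [hτ, ext, ext, Fin.append_right, Fin.append_right, add_sub_add_right_eq_sub, x,
        ← Complex.ofReal_sub, Complex.norm_real, Real.norm_eq_abs]
      refine (hp s).le.trans ?_
      nlinarith

end Dat

end H32.T4

end S_H32_T4_B4

section S_H32_T4_B5

open UpperHalfPlane hiding I
open Complex EisensteinSeries ModularForm MatrixGroups Manifold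
open scoped Real Topology
open Filter

namespace H32.T4

open H32.T3

/-- The functions of the transfer argument. -/
noncomputable def VV {n m : ℕ} (r : Fin n → Fin n) (a : Fin n) (w : Fin n → ℂ) (y : Fin m → ℂ) :
    (Fin n × Fin 5) ⊕ Fin m → ℂ :=
  Sum.elim (H32.T3.UU r a w) (fun s ↦ y s + Complex.I)

/-- The selection. -/
def sel {n m : ℕ} : (Fin n × Fin 5) ⊕ Fin m → Fin (n + m) × Fin 5 :=
  Sum.elim (fun x ↦ (Fin.castAdd m x.1, x.2)) (fun s ↦ (Fin.natAdd n s, 0))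

lemma UU_ext {n m : ℕ} (r : Fin n → Fin n) (a : Fin n) (w : Fin n → ℂ) (y : Fin m → ℂ)
    (u : (Fin n × Fin 5) ⊕ Fin m) :
    H32.T3.UU (exr m r) (Fin.castAdd m a) (ext w y) (sel u) = VV r a w y u := by
  rcases u with ⟨i, l⟩ | s
  · have e1 : ext w y (Fin.castAdd m i) = w i := Fin.append_left _ _ _
    have e2 : exr m r (Fin.castAdd m i) = Fin.castAdd m (r i) := Fin.append_left _ _ _
    have e3 : ext w y (Fin.castAdd m (r i)) = w (r i) := Fin.append_left _ _ _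
    change H32.T3.UU (exr m r) (Fin.castAdd m a) (ext w y) (Fin.castAdd m i, l) = H32.T3.UU r a w (i, l)
    rw [H32.T3.UU, H32.T3.UU]
    simp only [e1, e2, e3]
    by_cases hi : r i = a
    · rw [if_pos hi, if_pos (by rw [hi])]
    · rw [if_neg hi, if_neg (fun h ↦ hi (Fin.castAdd_injective n m h))]
  · have e1 : ext w y (Fin.natAdd n s) = y s + Complex.I := Fin.append_right _ _ _
    change H32.T3.UU (exr m r) (Fin.castAdd m a) (ext w y) (Fin.natAdd n s, 0) = y s + Complex.I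
    rw [H32.T3.UU]
    simp only [e1]
    split_ifs <;> rfl

theorem rank_V {n m : ℕ} (t : ℕ → Fin n → ℂ) (y : ℕ → Fin m → ℂ) (hG : ∀ᶠ k in atTop, Gd (t k))
    (r : Fin n → Fin n) (a : Fin n) (hr : ∀ i, r (r i) = r i)
    (hX : AlgebraicIndependent ℂ (Sum.elim (fun p : Fin n × Fin 3 ↦ mkU (fun k ↦ ee (t k p.1) p.2))
      (fun s : Fin m ↦ mkU (fun k ↦ y k s)))) :
    ∃ f : Fin (3 * n + m - ((Finset.univ.image r).erase a).card) → (Fin n × Fin 5) ⊕ Fin m,
      AlgebraicIndependent ℂ (fun j ↦ mkU (fun k ↦ VV r a (t k) (y k) (f j))) := by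
  classical
  set M := AlgebraicIndependent.matroid ℂ Ult with hM
  -- the sequences
  set w : Fin n → Ult := fun i ↦ mkU (fun k ↦ t k i) with hw
  set x : Fin n → Ult := fun i ↦ mkU (fun k ↦ (starRingEnd ℂ) (t k i)) with hx
  set J : Fin n → Ult := fun i ↦ mkU (fun k ↦ jc (t k i)) with hJ
  set φ : Fin n → Ult := fun i ↦ mkU (fun k ↦ ph (t k i)) with hφ
  set ψ : Fin n → Ult := fun i ↦ mkU (fun k ↦ ps (t k i)) with hψ
  set W : Fin n → Ult := fun i ↦ mkU (fun k ↦ Wf (t k i)) with hW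
  set g2 : Fin n → Ult := fun i ↦ mkU (fun k ↦ e2 (t k i)) with hg2
  set g4 : Fin n → Ult := fun i ↦ mkU (fun k ↦ e4 (t k i)) with hg4
  set g6 : Fin n → Ult := fun i ↦ mkU (fun k ↦ e6 (t k i)) with hg6
  have r1 : ∀ i, (φ i - ψ i) * ((w i - x i) * W i) = algebraMap ℂ Ult 12 := by
    intro i
    rw [algebraMap_Ult, hφ, hψ, hw, hx, hW]
    simp only
    rw [← map_sub, ← map_sub, ← map_mul, ← map_mul, ← sub_eq_zero, ← map_sub]
    refine mkU_zero_of_ev (hG.mono fun k hk ↦ ?_)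
    obtain ⟨h0, h4, h6⟩ := hk i
    have h := ps_eq' h0 h4 h6
    simp only [Pi.sub_apply, Pi.mul_apply]
    linear_combination -h
  have r2 : ∀ i, W i * g4 i = algebraMap ℂ Ult (2 * π * I) * g6 i := by
    intro i
    rw [algebraMap_Ult, hW, hg4, hg6]
    simp only
    rw [← map_mul, ← map_mul, ← sub_eq_zero, ← map_sub]
    refine mkU_zero_of_ev (hG.mono fun k hk ↦ ?_)
    obtain ⟨h0, h4, h6⟩ := hk i
    simp only [Pi.sub_apply, Pi.mul_apply]
    rw [Wf, div_mul_cancel₀ _ h4, sub_self]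
  have r3 : ∀ i, J i * (g4 i ^ 3 - g6 i ^ 2) = algebraMap ℂ Ult 1728 * g4 i ^ 3 := by
    intro i
    rw [algebraMap_Ult, hJ, hg4, hg6]
    simp only
    rw [← map_pow, ← map_pow, ← map_sub, ← map_mul, ← map_mul, ← sub_eq_zero, ← map_sub]
    refine mkU_zero_of_ev (Eventually.of_forall fun k ↦ ?_)
    simp only [Pi.sub_apply, Pi.mul_apply, Pi.pow_apply]
    rw [jc, div_mul_cancel₀ _ disc_ne, sub_self]
  have r4 : ∀ i, ψ i * g6 i = g2 i * g4 i := by
    intro i
    rw [hψ, hg2, hg4, hg6]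
    simp only
    rw [← map_mul, ← map_mul, ← sub_eq_zero, ← map_sub]
    refine mkU_zero_of_ev (hG.mono fun k hk ↦ ?_)
    obtain ⟨h0, h4, h6⟩ := hk i
    simp only [Pi.sub_apply, Pi.mul_apply]
    rw [ps, div_mul_cancel₀ _ h6, sub_self]
  have n4 : ∀ i, g4 i ≠ 0 := by
    intro i h0
    obtain ⟨k, h1, h2⟩ := ((freq_of_mkU_zero h0).and_eventually hG).exists
    exact (h2 i).2.1 h1
  have n6 : ∀ i, g6 i ≠ 0 := by
    intro i h0
    obtain ⟨k, h1, h2⟩ := ((freq_of_mkU_zero h0).and_eventually hG).exists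
    exact (h2 i).2.2 h1
  -- the sets
  set R : Finset (Fin n) := (Finset.univ.image r).erase a with hR
  set S : (Fin n × Fin 5) ⊕ Fin m → Ult := fun v ↦ mkU (fun k ↦ VV r a (t k) (y k) v) with hS
  have hSl : ∀ v, S (Sum.inl v) = mkU (fun k ↦ H32.T3.UU r a (t k) v) := fun v ↦ rfl
  set T : Set Ult := ψ '' (R : Set (Fin n)) with hT
  have hpiI : (2 * π * I : ℂ) ≠ 0 := by
    have hpi : (π : ℂ) ≠ 0 := by exact_mod_cast Real.pi_ne_zero
    exact mul_ne_zero (mul_ne_zero two_ne_zero hpi) Complex.I_ne_zero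
  set D : Subalgebra ℂ Ult := Algebra.adjoin ℂ (Set.range S ∪ T) with hD
  have hgen : ∀ v ∈ Set.range S ∪ T, IsAlgebraic D v := by
    intro v hv
    exact isAlgebraic_algebraMap (⟨v, Algebra.subset_adjoin hv⟩ : D)
  have aR : ∀ r : ℂ, IsAlgebraic D (algebraMap ℂ Ult r) := fun r ↦ by
    rw [IsScalarTower.algebraMap_apply ℂ D Ult]
    exact isAlgebraic_algebraMap _
  have aw : ∀ i, IsAlgebraic D (w i) := by
    intro i
    refine hgen _ (Or.inl ⟨Sum.inl (i, 0), ?_⟩)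
    rw [hSl, hw]
    refine congrArg mkU (funext fun k ↦ ?_)
    by_cases hi : r i = a
    · rw [H32.T3.UU, if_pos hi]; rfl
    · rw [H32.T3.UU, if_neg hi]; rfl
  have aJ : ∀ i, IsAlgebraic D (J i) := by
    intro i
    refine hgen _ (Or.inl ⟨Sum.inl (i, 1), ?_⟩)
    rw [hSl, hJ]
    refine congrArg mkU (funext fun k ↦ ?_)
    by_cases hi : r i = a
    · rw [H32.T3.UU, if_pos hi]; rfl
    · rw [H32.T3.UU, if_neg hi]; rfl
  have ax : ∀ i, r i ≠ a → IsAlgebraic D (x i) := by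
    intro i hi
    refine hgen _ (Or.inl ⟨Sum.inl (i, 3), ?_⟩)
    rw [hSl, hx]
    refine congrArg mkU (funext fun k ↦ ?_)
    rw [H32.T3.UU, if_neg hi]
    rfl
  have aφ : ∀ i, r i ≠ a → IsAlgebraic D (φ i) := by
    intro i hi
    refine hgen _ (Or.inl ⟨Sum.inl (i, 2), ?_⟩)
    rw [hSl, hφ]
    refine congrArg mkU (funext fun k ↦ ?_)
    rw [H32.T3.UU, if_neg hi]
    rfl
  have h12 : algebraMap ℂ Ult 12 ≠ 0 := (map_ne_zero _).mpr (by norm_num)
  -- the representatives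
  have aWr : ∀ i, r i = i → i ≠ a → IsAlgebraic D (W i) := by
    intro i hri hia
    have hi : r i ≠ a := by rw [hri]; exact hia
    have aψi : IsAlgebraic D (ψ i) := by
      refine hgen _ (Or.inr ⟨i, ?_, rfl⟩)
      rw [hR, Finset.mem_coe, Finset.mem_erase, Finset.mem_image]
      exact ⟨hia, i, Finset.mem_univ _, hri⟩
    have h1 := r1 i
    have hprod : (φ i - ψ i) * (w i - x i) ≠ 0 := by
      intro h0
      apply h12
      rw [← h1, ← mul_assoc, h0, zero_mul]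
    have e1 : W i = algebraMap ℂ Ult 12 * ((φ i - ψ i) * (w i - x i))⁻¹ := by
      rw [eq_mul_inv_iff_mul_eq₀ hprod, ← h1]
      ring
    rw [e1]
    exact (aR 12).mul (((aφ i hi).sub aψi).mul ((aw i).sub (ax i hi))).inv
  have aW : ∀ i, IsAlgebraic D (W i) := by
    intro i
    by_cases hi : r i = a
    · refine hgen _ (Or.inl ⟨Sum.inl (i, 2), ?_⟩)
      rw [hSl, hW]
      refine congrArg mkU (funext fun k ↦ ?_)
      rw [H32.T3.UU, if_pos hi]
      rfl
    · set Q : Ult := mkU (fun k ↦ Wf (t k i) / Wf (t k (r i))) with hQ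
      have aq : IsAlgebraic D Q := by
        refine hgen _ (Or.inl ⟨Sum.inl (i, 4), ?_⟩)
        rw [hSl, hQ]
        refine congrArg mkU (funext fun k ↦ ?_)
        rw [H32.T3.UU, if_neg hi]
        rfl
      have e1 : W i = Q * W (r i) := by
        rw [hW, hQ]
        simp only
        rw [← map_mul, ← sub_eq_zero, ← map_sub]
        refine mkU_zero_of_ev (hG.mono fun k hk ↦ ?_)
        simp only [Pi.sub_apply, Pi.mul_apply]
        have := Wf_ne (hk (r i)).2.1 (hk (r i)).2.2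
        field_simp
        ring
      rw [e1]
      exact aq.mul (aWr (r i) (hr i) hi)
  have aψ : ∀ i, IsAlgebraic D (ψ i) := by
    intro i
    by_cases hi : r i = a
    · refine hgen _ (Or.inl ⟨Sum.inl (i, 3), ?_⟩)
      rw [hSl, hψ]
      refine congrArg mkU (funext fun k ↦ ?_)
      rw [H32.T3.UU, if_pos hi]
      rfl
    · have h1 := r1 i
      have hprod : (w i - x i) * W i ≠ 0 := by
        intro h0
        apply h12
        rw [← h1, h0, mul_zero]
      have e1 : ψ i = φ i - algebraMap ℂ Ult 12 * ((w i - x i) * W i)⁻¹ := by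
        rw [← h1, mul_inv_cancel_right₀ hprod]
        ring
      rw [e1]
      exact (aφ i hi).sub ((aR 12).mul (((aw i).sub (ax i hi)).mul (aW i)).inv)
  have key : ∀ i, IsAlgebraic D (g2 i) ∧ IsAlgebraic D (g4 i) ∧ IsAlgebraic D (g6 i) := fun i ↦
    alg_gen D (c := 2 * π * I) hpiI (by norm_num) (n4 i) (n6 i) (r2 i) (r3 i) (r4 i)
      (aJ i) (aW i) (aψ i)
  set et : (Fin n × Fin 3) ⊕ Fin m → Ult :=
    Sum.elim (fun p : Fin n × Fin 3 ↦ mkU (fun k ↦ ee (t k p.1) p.2))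
      (fun s : Fin m ↦ mkU (fun k ↦ y k s)) with het
  have hind : M.Indep (Set.range et) := by
    rw [hM, AlgebraicIndependent.matroid_indep_iff]
    exact hX.to_subtype_range
  have hcard : (Set.range et).encard = ((3 * n + m : ℕ) : ℕ∞) := by
    rw [← Set.image_univ, hX.injective.encard_image, Set.encard_univ, ENat.card_eq_coe_fintype_card]
    rw [Fintype.card_sum, Fintype.card_prod, Fintype.card_fin, Fintype.card_fin, Fintype.card_fin,
      mul_comm n 3]
  have hsub : Set.range et ⊆ M.closure (Set.range S ∪ T) := by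
    rw [hM, AlgebraicIndependent.matroid_closure_eq]
    rintro _ ⟨u, rfl⟩
    change IsAlgebraic D (et u)
    rcases u with ⟨i, l⟩ | s
    · fin_cases l
      · exact (key i).1
      · exact (key i).2.1
      · exact (key i).2.2
    · have e1 : et (Sum.inr s) = S (Sum.inr s) - algebraMap ℂ Ult Complex.I := by
        rw [algebraMap_Ult, hS]
        simp only
        rw [← map_sub]
        refine congrArg mkU (funext fun k ↦ ?_)
        change y k s = y k s + Complex.I - Complex.I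
        ring
      rw [e1]
      exact (hgen _ (Or.inl ⟨Sum.inr s, rfl⟩)).sub (aR _)
  obtain ⟨B, hB'⟩ := M.exists_isBasis (Set.range S)
  have h1 : ((3 * n + m : ℕ) : ℕ∞) ≤ M.eRk (Set.range S ∪ T) := by
    rw [← M.eRk_closure_eq, ← hcard]
    exact hind.encard_le_eRk_of_subset hsub
  have hTc : M.eRk T ≤ ((R.card : ℕ) : ℕ∞) := by
    refine (M.eRk_le_encard T).trans ?_
    refine (Set.encard_image_le _ _).trans ?_
    rw [Set.encard_coe_eq_coe_finsetCard]
  have h2 : ((3 * n + m : ℕ) : ℕ∞) ≤ B.encard + ((R.card : ℕ) : ℕ∞) := by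
    refine h1.trans ((M.eRk_union_le_eRk_add_eRk _ _).trans ?_)
    rw [← hB'.eRk_eq_encard]
    gcongr
  have hRn : R.card ≤ 3 * n + m := by
    have := Finset.card_le_univ R
    rw [Fintype.card_fin] at this
    omega
  have h3 : ((3 * n + m - R.card : ℕ) : ℕ∞) ≤ B.encard := by
    have h5 : ((3 * n + m - R.card : ℕ) : ℕ∞) + ((R.card : ℕ) : ℕ∞) ≤
        B.encard + ((R.card : ℕ) : ℕ∞) := by
      refine le_trans (le_of_eq ?_) h2
      rw [← Nat.cast_add, Nat.sub_add_cancel hRn]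
    exact (ENat.add_le_add_iff_right (ENat.natCast_ne_top _)).mp h5
  refine extract_indep' S (B := B) ?_ hB'.subset h3
  have := hB'.indep
  rw [hM, AlgebraicIndependent.matroid_indep_iff] at this
  exact this

end H32.T4

end S_H32_T4_B5

section S_H32_T4_B6

open UpperHalfPlane hiding I
open Complex EisensteinSeries ModularForm MatrixGroups Manifold
open scoped Real Topology
open Filter

namespace H32.T4

open H32.T3

/-- Sorted approximations. -/
def SHier {m : ℕ} (t : Fin m → ℝ) : Prop :=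
  ∀ κ : ℕ, ∃ σ : Equiv.Perm (Fin m), ∀ K : ℕ, ∃ q : ℕ, K ≤ q ∧ ∃ p : Fin m → ℤ,
    (∀ s, 0 < |t s - p s / q| ∧ |t s - p s / q| < Real.exp (-(q : ℝ) ^ κ)) ∧
    ∀ a b, a < b → |t (σ a) - p (σ a) / q| < |t (σ b) - p (σ b) / q| ^ K

lemma Tup.quad {n H : ℕ} {r : Fin n → Fin n} {t : Fin n → ℍ} (h : Tup n H r t) (i : Fin n) :
    ∃ a b c : ℤ, a ≠ 0 ∧ (a : ℂ) * (t i : ℂ) ^ 2 + (b : ℂ) * (t i : ℂ) + (c : ℂ) = 0 := by
  obtain ⟨-, d, w, u, v, s, h1, -⟩ := h
  obtain ⟨-, hw1, -, -, hv1, -, hs, ht⟩ := h1 i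
  have hw0 : (w i : ℂ) ≠ 0 := by
    have : w i ≠ 0 := by omega
    exact_mod_cast this
  refine ⟨(w i : ℤ) ^ 2, -2 * w i * u i, u i ^ 2 + v i ^ 2 * d i, ?_, ?_⟩
  · have : w i ≠ 0 := by omega
    exact pow_ne_zero 2 (by exact_mod_cast this)
  · have e1 : (w i : ℂ) * (t i : ℂ) = u i + v i * s i := by
      rw [ht, mul_div_cancel₀ _ hw0]
    push_cast
    linear_combination ((w i : ℂ) * (t i : ℂ) - u i + v i * s i) * e1 + (v i : ℂ) ^ 2 * hs

namespace Dat

variable {m n b : ℕ} (S : Dat m n b)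

theorem V_indep (hS : SHier S.t)
    (hCM : ∀ i, ¬ ∃ a b c : ℤ, a ≠ 0 ∧ (a : ℂ) * S.φ i S.x ^ 2 + (b : ℂ) * S.φ i S.x + (c : ℂ) = 0)
    (hrel : ∀ i j, i ≠ j → ¬ ∃ a b c d : ℚ, 0 < a * d - b * c ∧
      S.φ j S.x = ((a : ℂ) * S.φ i S.x + b) / ((c : ℂ) * S.φ i S.x + d))
    (r : Fin n → Fin n) (hr : ∀ i, S.c (r i) = S.c i) (hr2 : ∀ i, r (r i) = r i) (a : Fin n) :
    Gd (fun i ↦ S.φ i S.x) ∧ (∀ i, ¬ IsAlgebraic ℤ (S.φ i S.x)) ∧
    ∃ f : Fin (3 * n + m - ((Finset.univ.image r).erase a).card) → (Fin n × Fin 5) ⊕ Fin m,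
      AlgebraicIndependent ℤ (fun j ↦ VV r a (fun i ↦ S.φ i S.x) S.x (f j)) := by
  classical
  obtain ⟨A, hA⟩ := transfer_U (n + m)
  set κ : ℕ := A + 1 with hκ
  obtain ⟨κ', Q0, hstep⟩ := S.step r hr κ
  obtain ⟨σ, hσ⟩ := hS κ'
  choose q hq p hp1 hp2 using fun k : ℕ ↦ hσ (Q0 + k + 2)
  choose H τ hH hT hτ hlt using fun k ↦ hstep (q k) (p k) (le_trans (by omega) (hq k))
    (fun s ↦ (hp1 k s).2)
  set z' : Fin (n + m) → ℂ := ext (fun i ↦ S.φ i S.x) S.x with hz'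
  set y : ℕ → Fin m → ℂ := fun k s ↦ (((p k s : ℝ) / q k : ℝ) : ℂ) with hy
  have hq1 : ∀ k, 1 ≤ q k := fun k ↦ le_trans (by omega) (hq k)
  have him : ∀ j, 0 < (z' j).im := by
    intro j
    refine Fin.addCases (fun i ↦ ?_) (fun s ↦ ?_) j
    · rw [hz', ext, Fin.append_left]
      exact S.im_φ i
    · rw [hz', ext, Fin.append_right, x]
      simp
  have hynorm : ∀ k s, ‖y k s - S.x s‖ = |S.t s - p k s / q k| := fun k s ↦ by
    rw [hy, x]
    simp only
    rw [← Complex.ofReal_sub, Complex.norm_real, Real.norm_eq_abs, abs_sub_comm]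
  set W : ApxN κ (n + m) (exr m r) z' :=
    { H := H
      t := τ
      hH := fun k ↦ le_trans (by omega) ((hq k).trans (hH k))
      hT := hT
      hlt := hlt
      hne := fun k j ↦ by
        refine Fin.addCases (fun i ↦ ?_) (fun s ↦ ?_) j
        · intro h0
          have h1 := Tup.quad (hT k) (Fin.castAdd m i)
          rw [h0, hz', ext, Fin.append_left] at h1
          exact hCM i h1
        · intro h0
          rw [hτ k, hz', ext, ext, Fin.append_right, Fin.append_right, add_left_inj] at h0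
          have h1 := (hp1 k s).1
          rw [← hynorm] at h1
          have h2 : y k s = S.x s := h0
          rw [h2, sub_self, norm_zero] at h1
          exact lt_irrefl _ h1 } with hW
  obtain ⟨hGz, hG, htr⟩ := hA κ (by omega) (exr m r) (Fin.castAdd m a) z' W him
  have hτe : ∀ k, (fun j ↦ (W.t k j : ℂ)) = ext (fun i ↦ S.φ i (y k)) (y k) := fun k ↦ by
    ext j
    exact hτ k j
  have hGz' : Gd (fun i ↦ S.φ i S.x) := fun i ↦ by
    have h1 := hGz (Fin.castAdd m i)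
    rwa [hz', ext, Fin.append_left] at h1
  have hG' : ∀ᶠ k in atTop, Gd (fun i ↦ S.φ i (y k)) := by
    filter_upwards [hG] with k hk i
    have h1 := hk (Fin.castAdd m i)
    have e1 : (W.t k (Fin.castAdd m i) : ℂ) = S.φ i (y k) := by
      have := congrFun (hτe k) (Fin.castAdd m i)
      rwa [ext, Fin.append_left] at this
    simp only [e1] at h1
    exact h1
  -- the sequence of parameters
  have hle : ∀ k s, |S.t s - p k s / q k| ≤ Real.exp (-(q k : ℝ) ^ κ') := fun k s ↦ (hp1 k s).2.le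
  have hle1 : ∀ k s, |S.t s - p k s / q k| ≤ 1 := fun k s ↦ by
    refine (hle k s).trans (Real.exp_le_one_iff.mpr ?_)
    have : (0 : ℝ) ≤ (q k : ℝ) ^ κ' := by positivity
    linarith
  have hyt : Tendsto y atTop (𝓝 S.x) := by
    have h1 := W.tendsto (by omega)
    rw [tendsto_pi_nhds] at h1 ⊢
    intro s
    have h2 := (h1 (Fin.natAdd n s)).sub_const Complex.I
    have e1 : ∀ k, (W.t k (Fin.natAdd n s) : ℂ) - Complex.I = y k s := fun k ↦ by
      have := congrFun (hτe k) (Fin.natAdd n s)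
      rw [ext, Fin.append_right] at this
      rw [this]
      ring
    have e2 : z' (Fin.natAdd n s) - Complex.I = S.x s := by
      rw [hz', ext, Fin.append_right]
      ring
    rw [e2] at h2
    exact h2.congr e1
  have hX := ult_ind S.x S.φ S.an_φ S.im_φ (S.nonvan_φ hCM hrel) y hyt σ
    (Eventually.of_forall fun k s ↦ by
      rw [hynorm]
      exact (hp1 k s).1) (fun C ↦ by
      filter_upwards [eventually_ge_atTop C] with k hk a b hab
      rw [hynorm, hynorm]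
      refine (hp2 k a b hab).le.trans ?_
      exact pow_le_pow_of_le_one (abs_nonneg _) (hle1 k _) (by omega))
  obtain ⟨f, hf⟩ := rank_V (fun k i ↦ S.φ i (y k)) y hG' r a hr2 hX
  refine ⟨hGz', fun i halg ↦ ?_, f, ?_⟩
  · obtain ⟨P, hP0, hP⟩ := halg
    have e1 : ∀ v : Fin (n + m) → ℂ, MvPolynomial.aeval (H32.T3.UU (exr m r) (Fin.castAdd m a) v)
        (Polynomial.aeval (MvPolynomial.X (Fin.castAdd m i, 0)) P :
          MvPolynomial (Fin (n + m) × Fin 5) ℤ) = Polynomial.aeval (v (Fin.castAdd m i)) P := by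
      intro v
      have h1 := Polynomial.map_aeval_eq_aeval_map (R := ℤ) (S := MvPolynomial (Fin (n + m) × Fin 5) ℤ)
        (T := ℤ) (U := ℂ) (φ := RingHom.id ℤ) (ψ := (MvPolynomial.aeval
          (H32.T3.UU (exr m r) (Fin.castAdd m a) v) : MvPolynomial (Fin (n + m) × Fin 5) ℤ →ₐ[ℤ] ℂ).toRingHom)
        (by ext; simp) P (MvPolynomial.X (Fin.castAdd m i, 0))
      rw [Polynomial.map_id] at h1
      refine h1.trans ?_
      congr 2
      change MvPolynomial.aeval _ (MvPolynomial.X _) = _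
      rw [MvPolynomial.aeval_X, H32.T3.UU]
      split_ifs <;> rfl
    have h1 := e1 z'
    have hzi : z' (Fin.castAdd m i) = S.φ i S.x := Fin.append_left _ _ _
    rw [hzi, hP] at h1
    have h2 := htr _ h1
    set PC : Polynomial ℂ := P.map (Int.castRingHom ℂ) with hPC
    have hPC0 : PC ≠ 0 := (Polynomial.map_ne_zero_iff (RingHom.injective_int _)).mpr hP0
    have h3 : ∀ᶠ k in atTop, (W.t k (Fin.castAdd m i) : ℂ) ∈ PC.roots.toFinset := by
      filter_upwards [h2] with k hk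
      rw [e1] at hk
      rw [Multiset.mem_toFinset, Polynomial.mem_roots hPC0, Polynomial.IsRoot, hPC,
        Polynomial.eval_map]
      exact hk
    have h4 : Tendsto (fun k ↦ (W.t k (Fin.castAdd m i) : ℂ)) atTop
        (𝓝 (z' (Fin.castAdd m i))) :=
      (tendsto_pi_nhds.mp (W.tendsto (by omega))) (Fin.castAdd m i)
    have h5 : IsOpen ((PC.roots.toFinset.erase (z' (Fin.castAdd m i)) : Set ℂ)ᶜ) :=
      (Finset.finite_toSet _).isClosed.isOpen_compl
    have h6 : z' (Fin.castAdd m i) ∈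
        ((PC.roots.toFinset.erase (z' (Fin.castAdd m i)) : Set ℂ)ᶜ) := by
      simp
    obtain ⟨k, hk1, hk2⟩ := (h3.and (h4.eventually (h5.mem_nhds h6))).exists
    apply hk2
    rw [Finset.mem_coe, Finset.mem_erase]
    exact ⟨W.hne k _, hk1⟩
  rw [algebraicIndependent_iff]
  intro P hP
  have h1 : MvPolynomial.aeval (H32.T3.UU (exr m r) (Fin.castAdd m a) z')
      (MvPolynomial.rename (sel ∘ f) P) = 0 := by
    rw [MvPolynomial.aeval_rename, ← hP]
    congr 2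
    ext j
    exact UU_ext r a (fun i ↦ S.φ i S.x) S.x (f j)
  have h2 := htr _ h1
  have h3 : MvPolynomial.aeval
      (fun j ↦ mkU (fun k ↦ VV r a (fun i ↦ S.φ i (y k)) (y k) (f j))) P = 0 := by
    rw [aeval_mkUZ']
    refine mkU_zero_of_ev (h2.mono fun k hk ↦ ?_)
    rw [MvPolynomial.aeval_rename] at hk
    rw [← hk]
    congr 2
    ext j
    rw [Function.comp_apply, Function.comp_apply, hτe k]
    exact (UU_ext r a (fun i ↦ S.φ i (y k)) (y k) (f j)).symm
  have h4 : MvPolynomial.aeval (fun j ↦ mkU (fun k ↦ VV r a (fun i ↦ S.φ i (y k)) (y k) (f j)))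
      (MvPolynomial.map (Int.castRingHom ℂ) P) = 0 := by
    rw [← h3, ← algebraMap_int_eq, MvPolynomial.aeval_map_algebraMap]
  have h5 := (algebraicIndependent_iff.mp hf) _ h4
  exact (MvPolynomial.map_injective _ (RingHom.injective_int _)) (by rw [h5, map_zero])

end Dat

end H32.T4

end S_H32_T4_B6

section S_H32_T4_B7

open UpperHalfPlane hiding I
open Complex EisensteinSeries ModularForm MatrixGroups Manifold
open scoped Real Topology
open Filter

namespace H32.T4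

open H32.T3

lemma alg_mono' {D D' : Subalgebra ℚ ℂ} (h : D ≤ D') {v : ℂ} (hv : IsAlgebraic D v) :
    IsAlgebraic D' v := by
  obtain ⟨p, hp0, hp⟩ := hv
  refine ⟨p.map (Subalgebra.inclusion h).toRingHom, ?_, ?_⟩
  · rwa [Ne, Polynomial.map_eq_zero_iff (Subalgebra.inclusion_injective h)]
  · rw [← hp, Polynomial.aeval_def, Polynomial.eval₂_map, Polynomial.aeval_def]
    rfl

theorem final_V {E4 E6 J : ℂ → ℂ}
    (h4 : ∀ τ : ℂ, E4 τ = 1 + 240 * ∑' m : ℕ, ((ArithmeticFunction.sigma 3 (m + 1) : ℕ) : ℂ) *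
      Complex.exp (2 * (Real.pi : ℂ) * Complex.I * ((m : ℂ) + 1) * τ))
    (h6 : ∀ τ : ℂ, E6 τ = 1 - 504 * ∑' m : ℕ, ((ArithmeticFunction.sigma 5 (m + 1) : ℕ) : ℂ) *
      Complex.exp (2 * (Real.pi : ℂ) * Complex.I * ((m : ℂ) + 1) * τ))
    (hJ : ∀ τ : ℂ, J τ = 1728 * E4 τ ^ 3 / (E4 τ ^ 3 - E6 τ ^ 2))
    {n m : ℕ} (r : Fin n → Fin n) (a : Fin n) (z : Fin n → ℂ) (x : Fin m → ℂ) (hG : Gd z)
    (hz : ∀ i, IsAlgebraic (Algebra.adjoin ℚ (Set.range x)) (z i))
    (hconj : ∀ i, IsAlgebraic (Algebra.adjoin ℚ (Set.range x)) ((starRingEnd ℂ) (z i)))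
    {N : ℕ} (f : Fin N → (Fin n × Fin 5) ⊕ Fin m)
    (hf : AlgebraicIndependent ℚ (fun j ↦ VV r a z x (f j)))
    {ρ : ℕ} (g : Fin ρ → Fin n) (hg : AlgebraicIndependent ℚ (fun k ↦ z (g k))) :
    ∃ f : Fin (N + ρ - m) → Fin n × Fin 4, AlgebraicIndependent ℚ (fun k ↦
      ![z (f k).1, J (z (f k).1), deriv J (z (f k).1), deriv (deriv J) (z (f k).1)] (f k).2) := by
  classical
  set M := AlgebraicIndependent.matroid ℚ ℂ with hM
  set S : Fin n × Fin 4 → ℂ := fun x ↦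
    ![z x.1, J (z x.1), deriv J (z x.1), deriv (deriv J) (z x.1)] x.2 with hS
  set T : Set ℂ := Set.range x with hT
  set D : Subalgebra ℚ ℂ := Algebra.adjoin ℚ (Set.range S ∪ T) with hD
  have hgen : ∀ v ∈ Set.range S ∪ T, IsAlgebraic D v := by
    intro v hv
    exact isAlgebraic_algebraMap (⟨v, Algebra.subset_adjoin hv⟩ : D)
  have aQ : ∀ q : ℚ, IsAlgebraic D (q : ℂ) := fun q ↦ by
    have : (q : ℂ) = algebraMap D ℂ (algebraMap ℚ D q) := by
      rw [← IsScalarTower.algebraMap_apply]; rfl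
    rw [this]
    exact isAlgebraic_algebraMap _
  have aI : IsAlgebraic D Complex.I := by
    refine IsAlgebraic.of_pow (n := 2) two_pos ?_
    rw [Complex.I_sq]
    have := aQ (-1)
    push_cast at this
    exact this
  have hTD : Algebra.adjoin ℚ T ≤ D := Algebra.adjoin_mono Set.subset_union_right
  have aw : ∀ i, IsAlgebraic D (z i) := fun i ↦ hgen _ (Or.inl ⟨(i, 0), rfl⟩)
  have aJ : ∀ i, IsAlgebraic D (J (z i)) := fun i ↦ hgen _ (Or.inl ⟨(i, 1), rfl⟩)
  have aJ1 : ∀ i, IsAlgebraic D (deriv J (z i)) := fun i ↦ hgen _ (Or.inl ⟨(i, 2), rfl⟩)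
  have aJ2 : ∀ i, IsAlgebraic D (deriv (deriv J) (z i)) := fun i ↦ hgen _ (Or.inl ⟨(i, 3), rfl⟩)
  have ax : ∀ i, IsAlgebraic D ((starRingEnd ℂ) (z i)) := fun i ↦ alg_mono' hTD (hconj i)
  have hJv : ∀ i, J (z i) = jc (z i) := fun i ↦ (J_values h4 h6 hJ (hG i).1).1
  have aWψ : ∀ i, IsAlgebraic D (Wf (z i)) ∧ IsAlgebraic D (ps (z i)) := by
    intro i
    obtain ⟨h0, hB, hC⟩ := hG i
    obtain ⟨v0, v1, v2⟩ := J_values h4 h6 hJ h0
    obtain ⟨f1, f2⟩ := psi_formula hB hC disc_ne v0 v1 v2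
    constructor
    · have e1 : Wf (z i) = -deriv J (z i) * (J (z i))⁻¹ := f1
      rw [e1]
      exact (aJ1 i).neg.mul (aJ i).inv
    · have e1 : ps (z i) = ((6 : ℚ) : ℂ) * (((2 / 3 : ℚ) : ℂ) + ((1 / 2 : ℚ) : ℂ) * (J (z i) *
        (J (z i) - ((1728 : ℚ) : ℂ))⁻¹) - deriv (deriv J) (z i) *
          (J (z i) * (deriv J (z i) * (J (z i))⁻¹) ^ 2)⁻¹) := f2
      rw [e1]
      exact (aQ _).mul (((aQ _).add ((aQ _).mul ((aJ i).mul ((aJ i).sub (aQ _)).inv))).sub
        ((aJ2 i).mul ((aJ i).mul (((aJ1 i).mul (aJ i).inv).pow 2)).inv))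
  have aU : ∀ u, IsAlgebraic D (VV r a z x u) := by
    rintro (⟨i, l⟩ | s)
    · change IsAlgebraic D (H32.T3.UU r a z (i, l))
      by_cases hi : r i = a
      · rw [H32.T3.UU, if_pos hi]
        fin_cases l
        · exact aw i
        · change IsAlgebraic D (jc (z i))
          rw [← hJv]
          exact aJ i
        · exact (aWψ i).1
        · exact (aWψ i).2
        · exact aw i
      · rw [H32.T3.UU, if_neg hi]
        fin_cases l
        · exact aw i
        · change IsAlgebraic D (jc (z i))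
          rw [← hJv]
          exact aJ i
        · change IsAlgebraic D (ph (z i))
          obtain ⟨h0, hB, hC⟩ := hG i
          have hp := ps_eq' h0 hB hC
          have hs : z i - (starRingEnd ℂ) (z i) ≠ 0 := by
            rw [sub_ne_zero]
            intro h0'
            have := Complex.conj_eq_iff_im.mp h0'.symm
            linarith
          have hW := Wf_ne hB hC
          have e1 : ph (z i) = ps (z i) + ((12 : ℚ) : ℂ) *
              ((z i - (starRingEnd ℂ) (z i)) * Wf (z i))⁻¹ := by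
            push_cast
            field_simp
            linear_combination -hp
          rw [e1]
          exact (aWψ i).2.add ((aQ _).mul (((aw i).sub (ax i)).mul (aWψ i).1).inv)
        · exact ax i
        · change IsAlgebraic D (Wf (z i) / Wf (z (r i)))
          rw [div_eq_mul_inv]
          exact (aWψ i).1.mul (aWψ (r i)).1.inv
    · change IsAlgebraic D (x s + Complex.I)
      exact (hgen _ (Or.inr ⟨s, rfl⟩)).add aI
  have hind : M.Indep (Set.range (fun j ↦ VV r a z x (f j))) := by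
    rw [hM, AlgebraicIndependent.matroid_indep_iff]
    exact hf.to_subtype_range
  have hcard : (Set.range (fun j ↦ VV r a z x (f j))).encard = ((N : ℕ) : ℕ∞) := by
    rw [← Set.image_univ, hf.injective.encard_image, Set.encard_univ,
      ENat.card_eq_coe_fintype_card, Fintype.card_fin]
  have hsub : Set.range (fun j ↦ VV r a z x (f j)) ⊆ M.closure (Set.range S ∪ T) := by
    rw [hM, AlgebraicIndependent.matroid_closure_eq]
    rintro _ ⟨j, rfl⟩
    exact aU _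
  have h1 : ((N : ℕ) : ℕ∞) ≤ M.eRk (Set.range S ∪ T) := by
    rw [← M.eRk_closure_eq, ← hcard]
    exact hind.encard_le_eRk_of_subset hsub
  -- the rank of the coordinates
  set Z : Set ℂ := Set.range (fun j : Fin n ↦ S (j, 0)) with hZ
  have hY : M.Indep (Set.range (fun k ↦ S (g k, 0))) := by
    rw [hM, AlgebraicIndependent.matroid_indep_iff]
    exact (show AlgebraicIndependent ℚ (fun k ↦ S (g k, 0)) from hg).to_subtype_range
  have hYcard : (Set.range (fun k ↦ S (g k, 0))).encard = (ρ : ℕ) := by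
    rw [← Set.image_univ, (show AlgebraicIndependent ℚ (fun k ↦ S (g k, 0)) from
      hg).injective.encard_image, Set.encard_univ]
    simp
  have h2 : (ρ : ℕ∞) ≤ M.eRk (Set.range S ∩ (Z ∪ T)) := by
    rw [← hYcard]
    refine hY.encard_le_eRk_of_subset ?_
    rintro _ ⟨k, rfl⟩
    exact ⟨⟨(g k, 0), rfl⟩, Or.inl ⟨g k, rfl⟩⟩
  have h3 : M.eRk (Z ∪ T) ≤ (m : ℕ∞) := by
    calc M.eRk (Z ∪ T) ≤ M.eRk (M.closure T) := by
          refine M.eRk_mono (Set.union_subset ?_ ?_)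
          · rw [hM, AlgebraicIndependent.matroid_closure_eq]
            rintro _ ⟨j, rfl⟩
            exact hz j
          · refine M.subset_closure _ ?_
            rw [hM]
            exact Set.subset_univ _
      _ = M.eRk T := M.eRk_closure_eq _
      _ ≤ T.encard := M.eRk_le_encard _
      _ ≤ (Set.univ : Set (Fin m)).encard := by
          rw [hT, ← Set.image_univ]
          exact Set.encard_image_le _ _
      _ = m := by simp
  have h5 := M.eRk_submod (Set.range S) (Z ∪ T)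
  have h7 : M.eRk (Set.range S ∪ T) ≤ M.eRk (Set.range S ∪ (Z ∪ T)) :=
    M.eRk_mono (Set.union_subset_union_right _ Set.subset_union_right)
  have h8 : (ρ : ℕ∞) + N ≤ M.eRk (Set.range S) + m :=
    (add_le_add h2 (h1.trans h7)).trans (h5.trans (add_le_add le_rfl h3))
  obtain ⟨B, hB'⟩ := M.exists_isBasis (Set.range S)
  have hBsub : B ⊆ Set.range S := hB'.subset
  have hBfin : B.Finite := (Set.finite_range S).subset hBsub
  rw [← hB'.encard_eq_eRk] at h8
  refine extract_indep' S (B := B) ?_ hBsub ?_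
  · have := hB'.indep
    rw [hM, AlgebraicIndependent.matroid_indep_iff] at this
    exact this
  · rw [hBfin.encard_eq_coe_toFinset_card] at h8 ⊢
    have h9 : ρ + N ≤ hBfin.toFinset.card + m := by exact_mod_cast h8
    have h10 : N + ρ - m ≤ hBfin.toFinset.card := by omega
    exact_mod_cast h10

end H32.T4

end S_H32_T4_B7
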