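import Mathlib
import Pool.Agent.H32.AKM.P12
import Pool.Agent.H32.AKM.P17
import Pool.Agent.H32.AKM.P19
import Pool.Agent.H32.AKM.P28
import Pool.Agent.H32.AKM.P29
import Pool.Agent.H32.AKM.P30
import Pool.Agent.H32.AKM.P31
import Pool.Agent.H32.AKM.P33
import Pool.Agent.H32.AKM.P36

/-! Modular Schanuel with derivatives for points algebraic over a field with good approximations, part 37: this file joins several modules to save build time. -/

section S_H32_AK_D6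

set_option autoImplicit false

open UpperHalfPlane hiding I
open Complex EisensteinSeries ModularForm MatrixGroups Manifold
open scoped Real Topology
open MvPolynomial Filter

namespace AK

open H32 H32.T3 H32.T4 AO

private theorem D6_near {m : ℕ} {x : Fin m → ℂ} {f : (Fin m → ℂ) → ℂ}
    (h : DifferentiableAt ℂ f x) : ∃ K : ℝ, 0 < K ∧ ∀ᶠ s in 𝓝 x, ‖f s - f x‖ ≤ K * ‖s - x‖ := by
  obtain ⟨K, hK0, hK⟩ := h.isBigO_sub.exists_pos
  rw [Asymptotics.IsBigOWith] at hK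
  exact ⟨K, hK0, hK⟩

private theorem D6_pow {a b : ℂ} {B δ : ℝ} (hB : 1 ≤ B) (ha : ‖a‖ ≤ B) (hb : ‖b‖ ≤ B)
    (hab : ‖a - b‖ ≤ δ) (i : ℕ) : ‖a ^ i - b ^ i‖ ≤ i * B ^ i * δ := by
  have hδ : 0 ≤ δ := (norm_nonneg _).trans hab
  have hB0 : 0 ≤ B := by linarith
  induction i with
  | zero => simp
  | succ i ih =>
    have e : a ^ (i + 1) - b ^ (i + 1) = a * (a ^ i - b ^ i) + (a - b) * b ^ i := by ring
    rw [e]
    refine (norm_add_le _ _).trans ?_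
    rw [norm_mul, norm_mul, norm_pow]
    have h1 : ‖a‖ * ‖a ^ i - b ^ i‖ ≤ B * (i * B ^ i * δ) := mul_le_mul ha ih (norm_nonneg _) hB0
    have h2 : ‖a - b‖ * ‖b‖ ^ i ≤ δ * B ^ i :=
      mul_le_mul hab (pow_le_pow_left₀ (norm_nonneg _) hb i) (by positivity) hδ
    have h3 : δ * B ^ i ≤ δ * B ^ (i + 1) :=
      mul_le_mul_of_nonneg_left (pow_le_pow_right₀ hB (Nat.le_succ i)) hδ
    have h4 : B * (i * B ^ i * δ) + δ * B ^ (i + 1) = ((i + 1 : ℕ) : ℝ) * B ^ (i + 1) * δ := by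
      push_cast
      ring
    linarith

private theorem D6_sub (f : Polynomial ℤ) {N : ℕ} (hN : f.natDegree ≤ N) {a b : ℂ} {B δ : ℝ}
    (hB : 1 ≤ B) (ha : ‖a‖ ≤ B) (hb : ‖b‖ ≤ B) (hab : ‖a - b‖ ≤ δ) :
    ‖Polynomial.aeval a f - Polynomial.aeval b f‖ ≤ CZ.nr f * (N * B ^ N * δ) := by
  have hδ : 0 ≤ δ := (norm_nonneg _).trans hab
  have hB0 : 0 ≤ B := by linarith
  have hnr : CZ.nr f = ∑ i ∈ Finset.range (f.natDegree + 1), |((f.coeff i : ℤ) : ℝ)| := by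
    unfold CZ.nr
    exact Polynomial.sum_over_range f (fun _ => by simp)
  rw [Polynomial.aeval_eq_sum_range, Polynomial.aeval_eq_sum_range, ← Finset.sum_sub_distrib, hnr,
    Finset.sum_mul]
  refine norm_sum_le_of_le _ fun i hi => ?_
  have hi' : i ≤ N := by
    have := Finset.mem_range.1 hi
    omega
  rw [← smul_sub, zsmul_eq_mul, norm_mul, Complex.norm_intCast]
  refine mul_le_mul_of_nonneg_left ?_ (abs_nonneg _)
  refine (D6_pow hB ha hb hab i).trans ?_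
  refine mul_le_mul_of_nonneg_right ?_ hδ
  have h1 : (i : ℝ) ≤ N := by exact_mod_cast hi'
  exact mul_le_mul h1 (pow_le_pow_right₀ hB hi') (by positivity) (Nat.cast_nonneg _)

private theorem D6_cmp {c : ℝ} (hc : 0 ≤ c) {q a κ : ℕ} (hq : c + 2 ≤ q) (ha : a + 1 ≤ κ) :
    c * Real.exp (-(q : ℝ) ^ κ) < Real.exp (-(q : ℝ) ^ a) := by
  have hq1 : (1 : ℝ) ≤ q := by linarith
  have h1 : (1 : ℝ) ≤ (q : ℝ) ^ a := one_le_pow₀ hq1
  have h2 : (q : ℝ) ^ (a + 1) ≤ (q : ℝ) ^ κ := pow_le_pow_right₀ hq1 ha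
  have h3 : c < Real.exp c := by
    have := Real.add_one_le_exp c
    linarith
  have h4 : c * Real.exp (-(q : ℝ) ^ κ) < Real.exp c * Real.exp (-(q : ℝ) ^ κ) :=
    mul_lt_mul_of_pos_right h3 (Real.exp_pos _)
  rw [← Real.exp_add] at h4
  refine h4.trans_le (Real.exp_le_exp.2 ?_)
  have h5 : (q : ℝ) ^ a * (c + 2) ≤ (q : ℝ) ^ (a + 1) := by
    rw [pow_succ]
    exact mul_le_mul_of_nonneg_left hq (by linarith)
  have h6 : c * 1 ≤ c * (q : ℝ) ^ a := mul_le_mul_of_nonneg_left h1 hc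
  nlinarith

private theorem D6_num {κ1 κ2 κ q : ℕ} {B K : ℝ} (hB : 1 ≤ B) (hK : 0 ≤ K)
    (hq : 4 + Real.log B + K ≤ q) (hκ : κ2 * (κ1 + 1) + 1 ≤ κ) :
    Real.exp ((q ^ κ2 : ℕ) : ℝ) * (((q ^ κ2 : ℕ) : ℝ) * B ^ (q ^ κ2) * (K * Real.exp (-(q : ℝ) ^ κ))) ≤
      Real.exp (-((q ^ κ2 : ℕ) : ℝ) ^ κ1 - 1) := by
  have hL0 : 0 ≤ Real.log B := Real.log_nonneg hB
  have hq1 : (1 : ℝ) ≤ q := by linarith
  obtain ⟨Λ, hΛ⟩ : ∃ Λ : ℕ, Λ = q ^ κ2 := ⟨_, rfl⟩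
  rw [← hΛ]
  have hΛr : (Λ : ℝ) = (q : ℝ) ^ κ2 := by
    rw [hΛ]
    push_cast
    rfl
  have hΛ1 : (1 : ℝ) ≤ Λ := by
    rw [hΛr]
    exact one_le_pow₀ hq1
  have e1 : (Λ : ℝ) ≤ Real.exp Λ := by
    have := Real.add_one_le_exp (Λ : ℝ)
    linarith
  have e2 : B ^ Λ = Real.exp (Λ * Real.log B) := by
    rw [Real.exp_nat_mul, Real.exp_log (by linarith)]
  have e3 : K ≤ Real.exp K := by
    have := Real.add_one_le_exp K
    linarith
  have e4 : (Λ : ℝ) * B ^ Λ * (K * Real.exp (-(q : ℝ) ^ κ)) ≤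
      Real.exp Λ * Real.exp (Λ * Real.log B) * (Real.exp K * Real.exp (-(q : ℝ) ^ κ)) := by
    rw [e2]
    have := Real.exp_pos (Λ * Real.log B)
    have := Real.exp_pos (-(q : ℝ) ^ κ)
    gcongr
  have e5 : Real.exp (Λ : ℝ) * ((Λ : ℝ) * B ^ Λ * (K * Real.exp (-(q : ℝ) ^ κ))) ≤
      Real.exp ((Λ : ℝ) + (Λ + Λ * Real.log B + (K + -(q : ℝ) ^ κ))) := by
    rw [Real.exp_add, Real.exp_add, Real.exp_add, Real.exp_add]
    exact mul_le_mul_of_nonneg_left e4 (Real.exp_pos _).le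
  refine e5.trans (Real.exp_le_exp.2 ?_)
  obtain ⟨P, hP⟩ : ∃ P : ℝ, P = (Λ : ℝ) ^ (κ1 + 1) := ⟨_, rfl⟩
  have hP1 : 1 ≤ P := by
    rw [hP]
    exact one_le_pow₀ hΛ1
  have hP2 : (Λ : ℝ) ≤ P := by
    rw [hP]
    exact le_self_pow₀ hΛ1 (Nat.succ_ne_zero _)
  have hP3 : (Λ : ℝ) ^ κ1 ≤ P := by
    rw [hP]
    exact pow_le_pow_right₀ hΛ1 (Nat.le_succ _)
  have hP4 : (q : ℝ) * P ≤ (q : ℝ) ^ κ := by
    have h1 : (q : ℝ) * P = (q : ℝ) ^ (κ2 * (κ1 + 1) + 1) := by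
      rw [hP, hΛr, ← pow_mul, pow_succ]
      ring
    rw [h1]
    exact pow_le_pow_right₀ hq1 hκ
  have hP5 : (4 + Real.log B + K) * P ≤ q * P := mul_le_mul_of_nonneg_right hq (by linarith)
  have hP6 : (Λ : ℝ) * Real.log B ≤ P * Real.log B := mul_le_mul_of_nonneg_right hP2 hL0
  have hP7 : K * 1 ≤ K * P := mul_le_mul_of_nonneg_left hP1 hK
  nlinarith

private theorem D6_meas {κ1 κ2 κ q : ℕ} {B K : ℝ} {J J' : ℂ} (hB : 1 ≤ B) (hK : 0 ≤ K)
    (hq : 4 + Real.log B + K ≤ q) (hκ : κ2 * (κ1 + 1) + 1 ≤ κ) (hκ2 : 1 ≤ κ2)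
    (hJ : ‖J‖ ≤ B) (hJ' : ‖J'‖ ≤ B) (hJJ : ‖J' - J‖ ≤ K * Real.exp (-(q : ℝ) ^ κ))
    (f : Polynomial ℤ) (hfd : f.natDegree ≤ q ^ κ2) (hfn : CZ.nr f ≤ Real.exp ((q ^ κ2 : ℕ) : ℝ))
    (hm : Real.exp (-((q ^ κ2 : ℕ) : ℝ) ^ κ1) ≤ ‖Polynomial.aeval J f‖) :
    Real.exp (-((q ^ κ2 : ℕ) : ℝ) ^ (κ1 + 1)) ≤ ‖Polynomial.aeval J' f‖ := by
  have hL0 : 0 ≤ Real.log B := Real.log_nonneg hB
  have hq1 : (4 : ℝ) ≤ q := by linarith
  have h1 := D6_sub f hfd hB hJ' hJ hJJ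
  have h2 : CZ.nr f * (((q ^ κ2 : ℕ) : ℝ) * B ^ (q ^ κ2) * (K * Real.exp (-(q : ℝ) ^ κ))) ≤
      Real.exp ((q ^ κ2 : ℕ) : ℝ) *
        (((q ^ κ2 : ℕ) : ℝ) * B ^ (q ^ κ2) * (K * Real.exp (-(q : ℝ) ^ κ))) := by
    refine mul_le_mul_of_nonneg_right hfn ?_
    have : 0 ≤ B := by linarith
    positivity
  have h3 := h1.trans (h2.trans (D6_num hB hK hq hκ))
  obtain ⟨Λ, hΛ⟩ : ∃ Λ : ℕ, Λ = q ^ κ2 := ⟨_, rfl⟩
  rw [← hΛ] at h3 hm ⊢
  have hΛ4 : (4 : ℝ) ≤ Λ := by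
    rw [hΛ]
    push_cast
    exact hq1.trans (le_self_pow₀ (by linarith) (by omega))
  have h4 : ‖Polynomial.aeval J f‖ ≤ ‖Polynomial.aeval J' f‖ +
      ‖Polynomial.aeval J' f - Polynomial.aeval J f‖ := by
    have e : Polynomial.aeval J f = Polynomial.aeval J' f -
        (Polynomial.aeval J' f - Polynomial.aeval J f) := by ring
    rw [e]
    exact (norm_sub_le _ _).trans (le_of_eq (by rw [← e]))
  have h5 : 2 * Real.exp (-(Λ : ℝ) ^ κ1 - 1) ≤ Real.exp (-(Λ : ℝ) ^ κ1) := by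
    have e : Real.exp (-(Λ : ℝ) ^ κ1) = Real.exp 1 * Real.exp (-(Λ : ℝ) ^ κ1 - 1) := by
      rw [← Real.exp_add]
      congr 1
      ring
    rw [e]
    refine mul_le_mul_of_nonneg_right ?_ (Real.exp_pos _).le
    have := Real.add_one_le_exp (1 : ℝ)
    linarith
  have h6 : Real.exp (-(Λ : ℝ) ^ (κ1 + 1)) ≤ Real.exp (-(Λ : ℝ) ^ κ1 - 1) := by
    refine Real.exp_le_exp.2 ?_
    have h7 : (1 : ℝ) ≤ (Λ : ℝ) ^ κ1 := one_le_pow₀ (by linarith)
    rw [pow_succ]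
    nlinarith
  linarith

theorem indep1_MO {M n : ℕ} (S : MO M n) {A : ℕ} (hS : S.Seq A) (hcm : NCM (S.Y S.x)) :
    AlgebraicIndependent ℚ (Sum.elim (S.WF S.x) (fun _ : Unit ↦ jc (S.Y S.x))) := by
  classical
  obtain ⟨τ, hτ⟩ : ∃ τ : ℍ, (τ : ℂ) = S.Y S.x := ⟨⟨S.Y S.x, S.im0⟩, rfl⟩
  have hE := AZ.E_ne (S.Y S.x) hcm τ hτ
  have h4 : e4 (S.Y S.x) ≠ 0 := by
    rw [← hτ, e4, ofComplex_apply]
    exact hE.1
  have h6 : e6 (S.Y S.x) ≠ 0 := by
    rw [← hτ, e6, ofComplex_apply]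
    exact hE.2
  have hcm' : NCM (τ : ℂ) := by
    rw [hτ]
    exact hcm
  obtain ⟨J, hJ⟩ : ∃ J, J = jc (S.Y S.x) := ⟨_, rfl⟩
  have hJτ : jf τ = J := by rw [hJ, ← hτ, jc_coe]
  have : Algebra.IsAlgebraic ℤ ℚ := IsLocalization.isAlgebraic ℚ (nonZeroDivisors ℤ)
  suffices hZ : AlgebraicIndependent ℤ (Sum.elim (S.WF S.x) (fun _ : Unit ↦ jc (S.Y S.x))) from
    hZ.extendScalars ℚ
  rw [algebraicIndependent_iff]
  intro G hG
  -- the function
  obtain ⟨F, hF⟩ : ∃ F : (Fin M → ℂ) → ℂ, ∀ s, F s =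
      aeval (Sum.elim (S.WF s) (fun _ : Unit ↦ jc (S.Y s))) G := ⟨_, fun _ => rfl⟩
  have hFa : AnalyticAt ℂ F S.x := by
    have h1 : AnalyticAt ℂ (fun s ↦ aeval (Sum.elim (S.WF s) (fun _ : Unit ↦ jc (S.Y s))) G) S.x := by
      refine AnalyticAt.aeval_mvPolynomial (𝕜 := ℂ)
        (f := fun s ↦ Sum.elim (S.WF s) (fun _ : Unit ↦ jc (S.Y s))) ?_ G
      rintro (j | u)
      · exact S.an_WF j
      · exact S.an_J
    have h2 : F = fun s ↦ aeval (Sum.elim (S.WF s) (fun _ : Unit ↦ jc (S.Y s))) G := funext hF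
    rw [h2]
    exact h1
  have hFx : F S.x = 0 := by
    rw [hF]
    exact hG
  obtain ⟨K1, hK10, hK1⟩ := D6_near hFa.differentiableAt
  rw [hFx] at hK1
  simp only [sub_zero] at hK1
  obtain ⟨K2, hK20, hK2⟩ := S.near_MO
  -- the renamed polynomial
  obtain ⟨N, e⟩ : ∃ N : ℕ, Nonempty (((Fin n × Fin 3) ⊕ Fin M) ≃ Fin N) :=
    ⟨_, ⟨Fintype.equivFin _⟩⟩
  obtain ⟨e⟩ := e
  have hren : ∀ s, aeval (Sum.elim (fun a ↦ S.WF s (e.symm a)) (fun _ : Unit ↦ jc (S.Y s)))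
      (rename (Sum.map e id) G) = F s := by
    intro s
    rw [aeval_rename, hF]
    congr 2
    funext a
    rcases a with a | u
    · show S.WF s (e.symm (e a)) = S.WF s a
      rw [Equiv.symm_apply_apply]
    · rfl
  -- the constants
  obtain ⟨A', Q3, hQ3⟩ := rootRel_good S A
  obtain ⟨κ1, hκ1⟩ := meas_w τ hcm' A A
  obtain ⟨B, hB⟩ : ∃ B : ℝ, B = ‖J‖ + 1 := ⟨_, rfl⟩
  have hB1 : 1 ≤ B := by
    rw [hB]
    linarith [norm_nonneg J]
  obtain ⟨A1, X0, hNL⟩ := NL_w (rename (Sum.map e id) G) B (κ1 + 1)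
  obtain ⟨κ2, hκ2⟩ : ∃ κ2, κ2 = (A' + 1) * (2 * N + 4) := ⟨_, rfl⟩
  have hκ21 : 1 ≤ κ2 := by
    rw [hκ2]
    exact Nat.mul_pos (Nat.succ_pos _) (by omega)
  obtain ⟨κ3, Q4, hQ4⟩ := hκ1 κ2
  obtain ⟨κ, hκ⟩ : ∃ κ, κ = κ3 + (A' + 1) * A1 + κ2 * (κ1 + 1) + 2 := ⟨_, rfl⟩
  obtain ⟨q, r, hq, hgood, hb, hr, hYalg, hX⟩ := hS κ
  have hrank := rank_MO S h4 h6 r hr hYalg hX
  -- vanishing
  have hlarge : ∀ᶠ k : ℕ in atTop, (4 : ℝ) + Real.log B + K1 + K2 ≤ (k : ℝ) :=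
    tendsto_natCast_atTop_atTop.eventually_ge_atTop _
  have hL0 : 0 ≤ Real.log B := Real.log_nonneg hB1
  have hv : ∀ᶠ k in atTop, F (r k) = 0 := by
    filter_upwards [hr.eventually hK1, hr.eventually hK2, hlarge,
      eventually_ge_atTop (X0 + Q3 + Q4)] with k h1 h2 h3 h3'
    by_contra hne0
    obtain ⟨_, hJk, _, hYk⟩ := h2
    have hqk : k + 2 ≤ q k := hq k
    have hq1 : 1 ≤ q k := by omega
    have hqr : (4 : ℝ) + Real.log B + K1 + K2 ≤ (q k : ℝ) := by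
      refine h3.trans ?_
      exact_mod_cast (by omega : k ≤ q k)
    have hq1r : (1 : ℝ) ≤ q k := by exact_mod_cast hq1
    rw [← hJ] at hJk
    have hbk := hb k
    -- the value of `j`
    have hJk' : ‖jc (S.Y (r k)) - J‖ ≤ K2 * Real.exp (-(q k : ℝ) ^ κ) :=
      hJk.trans (mul_le_mul_of_nonneg_left hbk hK20.le)
    have hYk' : ‖S.Y (r k) - (τ : ℂ)‖ ≤ Real.exp (-(q k : ℝ) ^ κ3) := by
      rw [hτ]
      refine (hYk.trans (mul_le_mul_of_nonneg_left hbk hK20.le)).trans ?_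
      exact (D6_cmp hK20.le (by linarith) (by omega)).le
    have hJk1 : ‖jc (S.Y (r k))‖ ≤ B := by
      have h5 : K2 * Real.exp (-(q k : ℝ) ^ κ) < Real.exp (-(q k : ℝ) ^ 0) :=
        D6_cmp hK20.le (by linarith) (by omega)
      have h6' : Real.exp (-(q k : ℝ) ^ 0) ≤ 1 := by
        rw [Real.exp_le_one_iff, pow_zero]
        norm_num
      have h7 : ‖jc (S.Y (r k))‖ ≤ ‖jc (S.Y (r k)) - J‖ + ‖J‖ := by
        have e1 : jc (S.Y (r k)) = (jc (S.Y (r k)) - J) + J := by ring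
        conv_lhs => rw [e1]
        exact norm_add_le _ _
      rw [hB]
      linarith
    -- the measure
    have hXk : X0 ≤ q k ^ (A' + 1) := by
      have h5 : q k ≤ q k ^ (A' + 1) := Nat.le_self_pow (by omega) _
      omega
    have hRR : ∀ a : Fin N, RootRel ((q k ^ (A' + 1) : ℕ) : ℝ) (jc (S.Y (r k)))
        (S.WF (r k) (e.symm a)) := by
      intro a
      refine (hQ3 (q k) (r k) (by omega) (hgood k).1 (e.symm a)).mono ?_
      push_cast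
      exact pow_le_pow_right₀ hq1r (by omega)
    have hpow : (q k ^ (A' + 1)) ^ (2 * N + 4) = q k ^ κ2 := by
      rw [← pow_mul, hκ2]
    have hmeas : ∀ f : Polynomial ℤ, f ≠ 0 → f.natDegree ≤ (q k ^ (A' + 1)) ^ (2 * N + 4) →
        CZ.nr f ≤ Real.exp (((q k ^ (A' + 1)) ^ (2 * N + 4) : ℕ) : ℝ) →
        Real.exp (-(((q k ^ (A' + 1)) ^ (2 * N + 4) : ℕ) : ℝ) ^ (κ1 + 1)) ≤
          ‖Polynomial.aeval (jc (S.Y (r k))) f‖ := by
      intro f hf0 hfd hfn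
      rw [hpow] at hfd hfn ⊢
      refine D6_meas (K := K2) (J := J) (κ := κ) hB1 hK20.le (by linarith) (by omega) hκ21
        (by rw [hB]; linarith) hJk1 hJk' f hfd hfn ?_
      have h5 := hQ4 (q k) (S.Y (r k)) (by omega) (hgood k).2 (hgood k).1.2.2.1 hYk' f (q k ^ κ2) hf0
        (Nat.le_self_pow (by omega) _) (by push_cast; exact le_rfl) hfd hfn
      rw [hJτ] at h5
      exact h5
    rcases hNL (q k ^ (A' + 1)) (jc (S.Y (r k))) (fun a ↦ S.WF (r k) (e.symm a)) hXk hJk1 hRR hmeas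
      with h5 | h5
    · rw [hren] at h5
      exact hne0 h5
    · rw [hren] at h5
      have h6' : ‖F (r k)‖ ≤ K1 * Real.exp (-(q k : ℝ) ^ κ) :=
        h1.trans (mul_le_mul_of_nonneg_left hbk hK10.le)
      have h7 : K1 * Real.exp (-(q k : ℝ) ^ κ) < Real.exp (-(q k : ℝ) ^ ((A' + 1) * A1)) :=
        D6_cmp hK10.le (by linarith) (by omega)
      have h8 : (((q k ^ (A' + 1) : ℕ) : ℝ)) ^ A1 = (q k : ℝ) ^ ((A' + 1) * A1) := by
        push_cast
        rw [← pow_mul]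
      rw [h8] at h5
      linarith
  -- the polynomial
  have hZ := hrank.restrictScalars (R := ℤ) (K := ℂ) (by
    intro a b hab
    have : ((a : ℤ) : ℂ) = ((b : ℤ) : ℂ) := hab
    exact_mod_cast this)
  refine (algebraicIndependent_iff.mp hZ) G ?_
  have h9 : (Sum.elim (fun j ↦ mkU (fun k ↦ S.WF (r k) j))
      (fun _ : Unit ↦ mkU (fun k ↦ jc (S.Y (r k))))) =
      fun i ↦ mkU ((Sum.elim (fun (j : (Fin n × Fin 3) ⊕ Fin M) (k : ℕ) ↦ S.WF (r k) j)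
        (fun (_ : Unit) (k : ℕ) ↦ jc (S.Y (r k))) : ((Fin n × Fin 3) ⊕ Fin M) ⊕ Unit → ℕ → ℂ) i) := by
    funext i
    rcases i with i | i <;> rfl
  rw [h9, AO.aeval_mkUZ']
  refine mkU_zero_of_ev ?_
  filter_upwards [hv] with k hk
  rw [← hk, hF]
  congr 2
  funext i
  rcases i with i | i <;> rfl

end AK

end S_H32_AK_D6

section S_H32_AK_D7

set_option autoImplicit false

open UpperHalfPlane hiding I
open Complex EisensteinSeries ModularForm MatrixGroups Manifold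
open scoped Real Topology
open MvPolynomial Filter

namespace AK

open H32 H32.T3 H32.T4 AO

private theorem D7_num (K : ℝ) (κ q : ℕ) (hq : 1 ≤ q) (hK : K ≤ q) (x : ℝ)
    (hK0 : 0 < K) (hx : x ≤ Real.exp (-(q : ℝ) ^ (κ + 1))) :
    K * x ≤ Real.exp (-(q : ℝ) ^ κ) := by
  have hq1 : (1 : ℝ) ≤ q := by exact_mod_cast hq
  have h1 : (q : ℝ) ≤ Real.exp ((q : ℝ) - 1) := by
    have := Real.add_one_le_exp ((q : ℝ) - 1)
    linarith
  have h2 : K * x ≤ Real.exp ((q : ℝ) - 1) * Real.exp (-(q : ℝ) ^ (κ + 1)) := by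
    refine (mul_le_mul_of_nonneg_left hx hK0.le).trans ?_
    exact mul_le_mul_of_nonneg_right (hK.trans h1) (Real.exp_pos _).le
  refine h2.trans ?_
  rw [← Real.exp_add]
  apply Real.exp_le_exp.2
  have h3 : (1 : ℝ) ≤ (q : ℝ) ^ κ := one_le_pow₀ hq1
  have h4 : (1 : ℝ) * ((q : ℝ) - 1) ≤ (q : ℝ) ^ κ * ((q : ℝ) - 1) :=
    mul_le_mul_of_nonneg_right h3 (by linarith)
  have h5 : (q : ℝ) ^ (κ + 1) = (q : ℝ) ^ κ * q := pow_succ _ _
  rw [h5]
  linarith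

private theorem D7_range {ι : Type} {N : ℕ} (e : Fin N ≃ ι) (f : ι → ℂ) (J : ℂ) :
    Set.range (Fin.append ![J] (fun l ↦ f (e l)) : Fin (1 + N) → ℂ) =
      Set.range (Sum.elim f (fun _ : Unit ↦ J)) := by
  ext z
  constructor
  · rintro ⟨i, rfl⟩
    induction i using Fin.addCases with
    | left a =>
      rw [Fin.append_left]
      refine ⟨Sum.inr (), ?_⟩
      have : a = 0 := Subsingleton.elim _ _
      rw [this]
      rfl
    | right b =>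
      rw [Fin.append_right]
      exact ⟨Sum.inl (e b), rfl⟩
  · rintro ⟨i, rfl⟩
    rcases i with i | i
    · refine ⟨Fin.natAdd 1 (e.symm i), ?_⟩
      rw [Fin.append_right]
      simp
    · refine ⟨Fin.castAdd N 0, ?_⟩
      rw [Fin.append_left]
      rfl

private theorem D7_up {S T : Set ℂ} (x : ℂ)
    (hT : ∀ θ ∈ T, IsAlgebraic (IntermediateField.adjoin ℚ S) θ)
    (hx : IsAlgebraic (IntermediateField.adjoin ℚ T) x) :
    IsAlgebraic (IntermediateField.adjoin ℚ S) x := by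
  set L := IntermediateField.adjoin ℚ S with hL
  have hle : IntermediateField.adjoin ℚ T ≤ (algebraicClosure L ℂ).restrictScalars ℚ := by
    rw [IntermediateField.adjoin_le_iff]
    intro θ hθ
    exact mem_algebraicClosure_iff.2 (hT θ hθ)
  have h1 : IsAlgebraic (algebraicClosure L ℂ) x := by
    have h2 := hx.ringHom_of_comp_eq
      (S := algebraicClosure L ℂ) (B := ℂ)
      ((IntermediateField.inclusion hle : _ →+* ((algebraicClosure L ℂ).restrictScalars ℚ)) :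
        IntermediateField.adjoin ℚ T →+* algebraicClosure L ℂ) (RingHom.id ℂ)
      (RingHom.injective _) (by ext z; rfl)
    exact h2
  exact h1.restrictScalars L

open scoped IntermediateField.algebraAdjoinAdjoin in
private theorem D7_frac {S : Set ℂ} {x : ℂ} (hx : IsAlgebraic (Algebra.adjoin ℚ S) x) :
    IsAlgebraic (IntermediateField.adjoin ℚ S) x :=
  (IsFractionRing.isAlgebraic_iff (Algebra.adjoin ℚ S) (IntermediateField.adjoin ℚ S) ℂ).1 hx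

private theorem D7_mem {S : Set ℂ} {x : ℂ} (hx : x ∈ S) : IsAlgebraic (IntermediateField.adjoin ℚ S) x :=
  isAlgebraic_algebraMap (⟨x, IntermediateField.subset_adjoin _ _ hx⟩ : IntermediateField.adjoin ℚ S)

theorem not_all_MO {M n : ℕ} (S : MO M n) {A : ℕ} (hS : S.Seq A) (hcm : NCM (S.Y S.x))
    {k : ℕ} (P : Fin k → ℂ) (C0 : ℕ) (hC0 : 1 ≤ C0)
    (hD : ∀ N K Q : ℕ, 1 ≤ N → U2.COV (S.Y S.x) N K →
      C0 * N * ((K : ℝ) + N) ^ 2 * Real.log (((K : ℝ) + N) * N + 2) ≤ Q → U2.Dat P C0 N Q) :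
    ¬ ∀ i, IsAlgebraic (IntermediateField.adjoin ℚ
      (Set.range (Sum.elim (S.WF S.x) (fun _ : Unit ↦ jc (S.Y S.x))))) (P i) := by
  intro halg
  have hindep := indep1_MO S hS hcm
  have hJt : Transcendental ℚ (jc (S.Y S.x)) := hindep.transcendental (Sum.inr ())
  obtain ⟨Cw, hCw1, hCw⟩ := win_of_near (S.Y S.x) A A
  obtain ⟨κ0, A0, Q0, hκ1, hκ2, hna⟩ := na2 (S.Y S.x) S.im0 P C0 hC0 hD Cw hCw1
  have hsc : ScAppr ![jc (S.Y S.x)] κ0 := line_sc _ hJt κ0 hκ2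
  obtain ⟨A', Q3, hA'⟩ := rootRel_good S A
  obtain ⟨K, hK0, hK⟩ := S.near_MO
  choose X0 hX01 hX0 using fun l : Fin (Fintype.card ((Fin n × Fin 3) ⊕ Fin M)) ↦
    rel_root (jc (S.Y S.x)) (S.WF S.x ((Fintype.equivFin ((Fin n × Fin 3) ⊕ Fin M)).symm l))
  refine chain_w P (jc (S.Y S.x))
    (fun l ↦ S.WF S.x ((Fintype.equivFin ((Fin n × Fin 3) ⊕ Fin M)).symm l)) κ0 hκ1 hκ2.le
    (max A0 (A' + 1)) hsc ?_ ?_
  · intro κ Q
    obtain ⟨κ', hκ'⟩ : ∃ κ' : ℕ, κ' = κ + 2 * (A' + 1) := ⟨_, rfl⟩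
    obtain ⟨q, r, hq, hgood, hr, hlim, -, -⟩ := hS (κ' + 3)
    obtain ⟨Q1, hQ1⟩ := hCw κ'
    obtain ⟨k, hk1, hk2⟩ := ((hlim.eventually hK).and
      (eventually_ge_atTop (Q + ⌈K⌉₊ + Q0 + Q1 + Q3 + ∑ l, ⌈X0 l⌉₊ + 2))).exists
    obtain ⟨n1, n2, -, n4⟩ := hk1
    have hqk := hq k
    have hrk := hr k
    obtain ⟨g1, g2⟩ := hgood k
    generalize q k = qk at *
    generalize r k = rk at *
    have hq2 : (2 : ℝ) ≤ qk := by exact_mod_cast (by omega : 2 ≤ qk)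
    have hq1 : (1 : ℝ) ≤ qk := by linarith
    have hKq : K ≤ (qk : ℝ) := (Nat.le_ceil K).trans (by exact_mod_cast (by omega : ⌈K⌉₊ ≤ qk))
    have hnum : K * ‖rk - S.x‖ ≤ Real.exp (-(qk : ℝ) ^ (κ' + 2)) :=
      D7_num K (κ' + 2) qk (by omega) hKq _ hK0 hrk
    have hnum1 : K * ‖rk - S.x‖ ≤ Real.exp (-(qk : ℝ) ^ (κ' + 1)) :=
      hnum.trans (Real.exp_le_exp.2 (neg_le_neg (pow_le_pow_right₀ hq1 (by omega))))
    have hnum2 : K * ‖rk - S.x‖ ≤ Real.exp (-(2 * (qk : ℝ) ^ κ')) := by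
      refine hnum1.trans (Real.exp_le_exp.2 (neg_le_neg ?_))
      rw [pow_succ, mul_comm]
      exact mul_le_mul_of_nonneg_left hq2 (by positivity)
    refine ⟨qk, by omega, ?_, ?_⟩
    · intro l
      have h1 : RootRel ((qk : ℝ) ^ (A' + 1)) (jc (S.Y rk))
          (S.WF rk ((Fintype.equivFin ((Fin n × Fin 3) ⊕ Fin M)).symm l)) :=
        (hA' qk rk (by omega) g1 _).mono (pow_le_pow_right₀ hq1 (by omega))
      have h2 : X0 l ≤ (qk : ℝ) ^ (A' + 1) := by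
        have a1 : ⌈X0 l⌉₊ ≤ ∑ l, ⌈X0 l⌉₊ :=
          Finset.single_le_sum (f := fun l ↦ ⌈X0 l⌉₊) (fun _ _ ↦ Nat.zero_le _) (Finset.mem_univ l)
        have a2 : X0 l ≤ (qk : ℝ) :=
          (Nat.le_ceil _).trans (by exact_mod_cast (by omega : ⌈X0 l⌉₊ ≤ qk))
        exact a2.trans (le_self_pow₀ hq1 (by omega))
      have h3 : ((qk : ℝ) ^ (A' + 1)) ^ 2 ≤ (qk : ℝ) ^ κ' := by
        rw [← pow_mul]
        exact pow_le_pow_right₀ hq1 (by omega)
      have h4 := hX0 l ((qk : ℝ) ^ (A' + 1)) ((qk : ℝ) ^ κ') _ _ h2 h3 h1 (n2.trans hnum2)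
        ((n1 _).trans hnum2)
      exact h4.mono (pow_le_pow_right₀ hq1 (le_max_right _ _)) (pow_le_pow_right₀ hq1 (by omega))
    · intro t V ht hqV hVq htV
      have hwin : Win (S.Y S.x) Cw qk ((qk : ℝ) ^ κ') :=
        hQ1 qk (S.Y rk) (by omega) g2 g1.2.2.1 (n4.trans hnum1)
      exact hna qk ((qk : ℝ) ^ κ') (by omega) hwin t V ht
        ((pow_le_pow_right₀ hq1 (le_max_left _ _)).trans hqV)
        (hVq.trans (pow_le_pow_right₀ hq1 (by omega))) htV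
  · intro i
    rw [D7_range]
    exact halg i

theorem indep2_MO {M n : ℕ} (S : MO M n) {A : ℕ} (hS : S.Seq A) (hcm : NCM (S.Y S.x))
    (hya : IsAlgebraic (IntermediateField.adjoin ℚ (Set.range S.x)) (S.Y S.x))
    {k : ℕ} (P : Fin k → ℂ) (C0 : ℕ) (hC0 : 1 ≤ C0)
    (hD : ∀ N K Q : ℕ, 1 ≤ N → U2.COV (S.Y S.x) N K →
      C0 * N * ((K : ℝ) + N) ^ 2 * Real.log (((K : ℝ) + N) * N + 2) ≤ Q → U2.Dat P C0 N Q)
    (θ1 θ2 : ℂ) (halg : ∀ i, IsAlgebraic (IntermediateField.adjoin ℚ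
      (Set.range (![S.Y S.x, jc (S.Y S.x), θ1, θ2] : Fin 4 → ℂ))) (P i)) :
    ∃ θ : ℂ, (θ = θ1 ∨ θ = θ2) ∧ AlgebraicIndependent ℚ
      (Sum.elim (fun _ : Unit ↦ θ) (Sum.elim (S.WF S.x) (fun _ : Unit ↦ jc (S.Y S.x)))) := by
  have hF := indep1_MO S hS hcm
  have hnot := not_all_MO S hS hcm P C0 hC0 hD
  by_contra hcon
  push Not at hcon
  have key : ∀ θ : ℂ, (θ = θ1 ∨ θ = θ2) → IsAlgebraic (IntermediateField.adjoin ℚ
      (Set.range (Sum.elim (S.WF S.x) (fun _ : Unit ↦ jc (S.Y S.x))))) θ := by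
    intro θ hθ
    by_contra ht
    refine hcon θ hθ ?_
    rw [AlgebraicIndependent.sumElim_iff]
    refine ⟨hF, ?_⟩
    rw [algebraicIndependent_unique_type_iff]
    exact fun h ↦ ht (D7_frac h)
  refine hnot fun i ↦ D7_up (P i) ?_ (halg i)
  rintro θ ⟨i, rfl⟩
  fin_cases i
  · refine D7_up _ ?_ hya
    rintro θ ⟨s, rfl⟩
    exact D7_mem ⟨Sum.inl (Sum.inr s), rfl⟩
  · exact D7_mem ⟨Sum.inr (), rfl⟩
  · exact key _ (Or.inl rfl)
  · exact key _ (Or.inr rfl)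

end AK

end S_H32_AK_D7

section S_H32_AK_E0

set_option autoImplicit false

namespace AK

private theorem E0_mul {x y X Y : ℤ} (hx : |x| ≤ X) (hy : |y| ≤ Y) : |x * y| ≤ X * Y :=
  (abs_mul x y).le.trans (mul_le_mul hx hy (abs_nonneg _) ((abs_nonneg _).trans hx))

theorem cm_rep {B : ℕ} (hB : 1 ≤ B) {y : ℂ} (hy : 0 < y.im) {a0 b0 c0 : ℤ} (ha0 : 0 < a0)
    (h1 : |a0| ≤ B) (h2 : |b0| ≤ B) (h3 : |c0| ≤ B)
    (h : (a0 : ℂ) * y ^ 2 + b0 * y + c0 = 0) :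
    ∃ (d0 : ℕ) (s : ℂ), d0 ≤ 13 * B ^ 4 ∧ s ^ 2 = -(d0 : ℂ) ∧
      ∀ a b c d : ℤ, 0 < a * d - b * c → |a| ≤ B → |b| ≤ B → |c| ≤ B → |d| ≤ B →
        ∃ (w : ℕ) (u : ℤ) (v : ℕ), 1 ≤ w ∧ w ≤ 13 * B ^ 4 ∧ |u| ≤ 13 * (B : ℤ) ^ 4 ∧ 1 ≤ v ∧
          v ≤ 13 * B ^ 4 ∧ (c : ℂ) * y + d ≠ 0 ∧
          ((a : ℂ) * y + b) / ((c : ℂ) * y + d) = (u + v * s) / w := by
  have hBz : (1 : ℤ) ≤ (B : ℤ) := by exact_mod_cast hB
  set Z : ℤ := (B : ℤ) with hZ
  have hZ2 : (1 : ℤ) ≤ Z ^ 2 := one_le_pow₀ hBz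
  have hZ24 : Z ^ 2 ≤ Z ^ 4 := pow_le_pow_right₀ hBz (by norm_num)
  have hZ34 : Z ^ 3 ≤ Z ^ 4 := pow_le_pow_right₀ hBz (by norm_num)
  set s : ℂ := 2 * a0 * y + b0 with hs
  have hs2 : s ^ 2 = ((b0 ^ 2 - 4 * a0 * c0 : ℤ) : ℂ) := by
    rw [hs]
    push_cast
    linear_combination (4 * (a0 : ℂ)) * h
  have hsim : 0 < s.im := by
    have e : s.im = 2 * (a0 : ℝ) * y.im := by
      rw [hs]
      simp [Complex.add_im, Complex.mul_im, Complex.mul_re]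
    rw [e]
    have : (0 : ℝ) < (a0 : ℝ) := by exact_mod_cast ha0
    positivity
  have hsre : s.re = 0 := by
    have e := congrArg Complex.im hs2
    rw [pow_two, Complex.mul_im, Complex.intCast_im] at e
    have e2 : s.re * s.im = 0 := by linarith
    rcases mul_eq_zero.1 e2 with h0 | h0
    · exact h0
    · exact absurd h0 hsim.ne'
  have hneg : b0 ^ 2 - 4 * a0 * c0 < 0 := by
    have e := congrArg Complex.re hs2
    rw [pow_two, Complex.mul_re, Complex.intCast_re, hsre] at e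
    have e2 : ((b0 ^ 2 - 4 * a0 * c0 : ℤ) : ℝ) < 0 := by
      rw [← e]
      nlinarith
    exact_mod_cast e2
  obtain ⟨d0, hd0⟩ : ∃ d0 : ℕ, (d0 : ℤ) = 4 * a0 * c0 - b0 ^ 2 :=
    ⟨(4 * a0 * c0 - b0 ^ 2).toNat, Int.toNat_of_nonneg (by linarith)⟩
  have hd0C : (d0 : ℂ) = 4 * a0 * c0 - b0 ^ 2 := by
    have := congrArg (fun z : ℤ => (z : ℂ)) hd0
    push_cast at this
    exact this
  have hd0pos : 0 < (d0 : ℤ) := by rw [hd0]; linarith
  have hac := abs_le.1 (E0_mul h1 h3)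
  have hd04 : (d0 : ℤ) ≤ 4 * Z ^ 2 := by
    rw [hd0]
    nlinarith [sq_nonneg b0, hac.2]
  refine ⟨d0, s, ?_, ?_, ?_⟩
  · have : (d0 : ℤ) ≤ 13 * Z ^ 4 := by linarith
    rw [hZ] at this
    exact_mod_cast this
  · rw [hs2, hd0C]
    push_cast
    ring
  intro a b c d hN ha hb hc hd
  set P : ℤ := 2 * a0 * b - a * b0 with hP
  set R : ℤ := 2 * a0 * d - c * b0 with hR
  have hPb : |P| ≤ 3 * Z ^ 2 := by
    have e1 := E0_mul h1 hb
    have e2 := E0_mul ha h2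
    rw [abs_le] at e1 e2 ⊢
    constructor <;> rw [hP] <;> nlinarith [e1.1, e1.2, e2.1, e2.2]
  have hRb : |R| ≤ 3 * Z ^ 2 := by
    have e1 := E0_mul h1 hd
    have e2 := E0_mul hc h2
    rw [abs_le] at e1 e2 ⊢
    constructor <;> rw [hR] <;> nlinarith [e1.1, e1.2, e2.1, e2.2]
  have hd0b : |(d0 : ℤ)| ≤ 4 * Z ^ 2 := by
    rw [abs_of_pos hd0pos]; exact hd04
  have hwpos : 0 < R ^ 2 + c ^ 2 * d0 := by
    by_cases hc0 : c = 0
    · have hd1 : d ≠ 0 := by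
        rintro rfl
        rw [hc0] at hN
        simp at hN
      have hR0 : R ≠ 0 := by
        rw [hR, hc0]
        have : 2 * a0 * d ≠ 0 := mul_ne_zero (mul_ne_zero two_ne_zero ha0.ne') hd1
        simpa using this
      have : 0 < R ^ 2 := by positivity
      rw [hc0]
      simpa using this
    · have h4 : 0 < c ^ 2 * (d0 : ℤ) := mul_pos (by positivity) hd0pos
      have h5 := sq_nonneg R
      linarith
  obtain ⟨w, hw⟩ : ∃ w : ℕ, (w : ℤ) = R ^ 2 + c ^ 2 * d0 :=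
    ⟨(R ^ 2 + c ^ 2 * d0).toNat, Int.toNat_of_nonneg hwpos.le⟩
  have hvpos : 0 < 2 * a0 * (a * d - b * c) := by positivity
  obtain ⟨v, hv⟩ : ∃ v : ℕ, (v : ℤ) = 2 * a0 * (a * d - b * c) :=
    ⟨(2 * a0 * (a * d - b * c)).toNat, Int.toNat_of_nonneg hvpos.le⟩
  have hwC : (w : ℂ) = R ^ 2 + c ^ 2 * d0 := by
    have := congrArg (fun z : ℤ => (z : ℂ)) hw
    push_cast at this
    exact this
  have hvC : (v : ℂ) = 2 * a0 * (a * d - b * c) := by
    have := congrArg (fun z : ℤ => (z : ℂ)) hv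
    push_cast at this
    exact this
  have hw0 : (w : ℂ) ≠ 0 := by
    have : w ≠ 0 := by
      rintro rfl
      rw [← hw] at hwpos
      simp at hwpos
    exact_mod_cast this
  have hcy : (c : ℂ) * y + d ≠ 0 := by
    intro h0
    have e1 := congrArg Complex.im h0
    have e2 := congrArg Complex.re h0
    simp only [Complex.add_im, Complex.mul_im, Complex.intCast_im, Complex.intCast_re,
      Complex.zero_im, Complex.add_re, Complex.mul_re, Complex.zero_re, zero_mul, add_zero,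
      sub_zero] at e1 e2
    have hc0 : (c : ℝ) = 0 := by
      rcases mul_eq_zero.1 e1 with h4 | h4
      · exact h4
      · exact absurd h4 hy.ne'
    rw [hc0, zero_mul, zero_add] at e2
    have hc0' : c = 0 := by exact_mod_cast hc0
    have hd0' : d = 0 := by exact_mod_cast e2
    rw [hc0', hd0'] at hN
    simp at hN
  refine ⟨w, P * R + a * c * d0, v, ?_, ?_, ?_, ?_, ?_, hcy, ?_⟩
  · have : 0 < (w : ℤ) := by rw [hw]; exact hwpos
    exact_mod_cast this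
  · have e1 := (abs_le.1 (E0_mul hRb hRb)).2
    have e2 := (abs_le.1 (E0_mul (E0_mul hc hc) hd0b)).2
    have : (w : ℤ) ≤ 13 * Z ^ 4 := by
      have e3 : R ^ 2 + c ^ 2 * d0 = R * R + c * c * d0 := by ring
      have e4 : 3 * Z ^ 2 * (3 * Z ^ 2) = 9 * Z ^ 4 := by ring
      have e5 : Z * Z * (4 * Z ^ 2) = 4 * Z ^ 4 := by ring
      rw [e4] at e1
      rw [e5] at e2
      rw [hw, e3]
      linarith
    rw [hZ] at this
    exact_mod_cast this
  · have e1 := abs_le.1 (E0_mul hPb hRb)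
    have e2 := abs_le.1 (E0_mul (E0_mul ha hc) hd0b)
    have e4 : 3 * Z ^ 2 * (3 * Z ^ 2) = 9 * Z ^ 4 := by ring
    have e5 : Z * Z * (4 * Z ^ 2) = 4 * Z ^ 4 := by ring
    rw [e4] at e1
    rw [e5] at e2
    rw [abs_le]
    constructor
    · linarith [e1.1, e2.1]
    · linarith [e1.2, e2.2]
  · have : 0 < (v : ℤ) := by rw [hv]; exact hvpos
    exact_mod_cast this
  · have e1 := abs_le.1 (E0_mul h1 (E0_mul ha hd))
    have e2 := abs_le.1 (E0_mul h1 (E0_mul hb hc))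
    have : (v : ℤ) ≤ 13 * Z ^ 4 := by
      have e3 : 2 * a0 * (a * d - b * c) = 2 * (a0 * (a * d)) - 2 * (a0 * (b * c)) := by ring
      have e4 : Z * (Z * Z) = Z ^ 3 := by ring
      rw [e4] at e1 e2
      rw [hv, e3]
      linarith [e1.1, e1.2, e2.1, e2.2]
    rw [hZ] at this
    exact_mod_cast this
  · rw [div_eq_div_iff hcy hw0, hwC, hvC, hd0C, hP, hR, hs]
    push_cast
    linear_combination (-4 * (a0 : ℂ) * (a * d - b * c) * c) * h -
      ((a : ℂ) * c * (c * y + d)) * hd0C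

end AK

end S_H32_AK_E0

section S_H32_AK_E1

set_option autoImplicit false

open UpperHalfPlane hiding I
open Complex EisensteinSeries ModularForm MatrixGroups Manifold
open scoped Real Topology
open MvPolynomial Filter

namespace AK

open H32 H32.T3 H32.T4 AO

private theorem E1_exp {δ : ℝ} (hδ : 0 < δ) {q k : ℕ} (hq : 1 ≤ q) (h : |Real.log δ| < q) :
    Real.exp (-(q : ℝ) ^ (k + 1)) ≤ δ := by
  rw [← Real.le_log_iff_exp_le hδ]
  have h1 : (q : ℝ) ≤ (q : ℝ) ^ (k + 1) := le_self_pow₀ (by exact_mod_cast hq) (by omega)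
  have h2 := neg_abs_le (Real.log δ)
  linarith

/-- all points of the tuple coming from the base point -/
private theorem E1_rep {M n : ℕ} (S : MO M n) {A q : ℕ} (hq : 1 ≤ q) {r : Fin M → ℂ}
    (hg : S.Good A q r) (hcm : ¬ NCM (S.Y r)) :
    ∃ (d0 : ℕ) (s : ℂ), d0 ≤ 208 * q ^ (4 * A + 4) ∧ s ^ 2 = -(d0 : ℂ) ∧
      ∀ i, ∃ (w : ℕ) (u : ℤ) (v : ℕ), 1 ≤ w ∧ w ≤ 208 * q ^ (4 * A + 4) ∧
        |u| ≤ ((208 * q ^ (4 * A + 4) : ℕ) : ℤ) ∧ 1 ≤ v ∧ v ≤ 208 * q ^ (4 * A + 4) ∧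
        S.ψ i r = (u + v * s) / w ∧ 0 < (S.ψ i r).im := by
  obtain ⟨him, -, halg, hmat⟩ := hg
  obtain ⟨a0, b0, c0, ha0, ⟨k1, k2, k3⟩, hroot⟩ := quad_of_cm halg him.ne' hcm
  obtain ⟨B, hB⟩ : ∃ B : ℕ, B = 2 * q ^ (A + 1) := ⟨_, rfl⟩
  have hqR : (1 : ℝ) ≤ q := by exact_mod_cast hq
  have hBR : (B : ℝ) = 2 * (q : ℝ) ^ (A + 1) := by
    rw [hB]
    push_cast
    ring
  have hqA : (q : ℝ) ^ A ≤ (q : ℝ) ^ (A + 1) := pow_le_pow_right₀ hqR (by omega)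
  have hqA1 : (0 : ℝ) < (q : ℝ) ^ (A + 1) := by positivity
  have hB1 : 1 ≤ B := by
    have h1 : 1 ≤ q ^ (A + 1) := Nat.one_le_pow _ _ hq
    omega
  have e1 : |a0| ≤ (B : ℤ) := by
    have : |(a0 : ℝ)| ≤ (B : ℝ) := by
      rw [hBR]
      linarith
    exact_mod_cast this
  have e2 : |b0| ≤ (B : ℤ) := by
    have : |(b0 : ℝ)| ≤ (B : ℝ) := by
      rw [hBR]
      linarith
    exact_mod_cast this
  have e3 : |c0| ≤ (B : ℤ) := by
    have : |(c0 : ℝ)| ≤ (B : ℝ) := by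
      rw [hBR]
      linarith
    exact_mod_cast this
  obtain ⟨d0, s, hd0, hs, hrep⟩ := cm_rep hB1 him ha0 e1 e2 e3 hroot
  have hB4 : 13 * B ^ 4 = 208 * q ^ (4 * A + 4) := by
    rw [hB]
    ring
  have hB4' : 13 * (B : ℤ) ^ 4 = ((208 * q ^ (4 * A + 4) : ℕ) : ℤ) := by
    rw [← hB4]
    push_cast
    ring
  rw [hB4] at hd0
  refine ⟨d0, s, hd0, hs, fun i ↦ ?_⟩
  refine Fin.cases ?_ (fun i ↦ ?_) i
  · obtain ⟨w, u, v, g1, g2, g3, g4, g5, -, g7⟩ := hrep 1 0 0 1 (by norm_num)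
      (by rw [abs_one]; exact_mod_cast hB1) (by rw [abs_zero]; exact Int.natCast_nonneg _)
      (by rw [abs_zero]; exact Int.natCast_nonneg _) (by rw [abs_one]; exact_mod_cast hB1)
    rw [hB4] at g2 g5
    rw [hB4'] at g3
    have h0 : S.ψ 0 r = S.Y r := rfl
    refine ⟨w, u, v, g1, g2, g3, g4, g5, ?_, ?_⟩
    · rw [h0, ← g7]
      push_cast
      rw [zero_mul, zero_add, div_one, one_mul, add_zero]
    · rw [h0]
      exact him
  · obtain ⟨a, b, c, e, hdet, ⟨l1, l2, l3, l4⟩, m1, m2, m3, m4⟩ := hmat i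
    have hle : ∀ z : ℤ, |(z : ℝ)| ≤ (q : ℝ) ^ (A + 1) → |z| ≤ (B : ℤ) := by
      intro z hz
      have : |(z : ℝ)| ≤ (B : ℝ) := by
        rw [hBR]
        linarith
      exact_mod_cast this
    obtain ⟨w, u, v, g1, g2, g3, g4, g5, -, g7⟩ := hrep a b c e hdet (hle a l1) (hle b l2)
      (hle c l3) (hle e l4)
    rw [hB4] at g2 g5
    rw [hB4'] at g3
    have h0 : S.ψ i.succ r = S.φ i r := rfl
    have hqC : (q : ℂ) ^ A ≠ 0 := by
      apply pow_ne_zero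
      have : q ≠ 0 := by omega
      exact_mod_cast this
    have h1 : S.φ i r = ((a : ℂ) * S.Y r + b) / ((c : ℂ) * S.Y r + e) := by
      rw [MO.φ, mob, m1, m2, m3, m4]
      have f1 : (q : ℂ) ^ A * aeval r (S.pA i) * S.Y r + (q : ℂ) ^ A * aeval r (S.pB i) =
          (q : ℂ) ^ A * (aeval r (S.pA i) * S.Y r + aeval r (S.pB i)) := by ring
      have f2 : (q : ℂ) ^ A * aeval r (S.pC i) * S.Y r + (q : ℂ) ^ A * aeval r (S.pD i) =
          (q : ℂ) ^ A * (aeval r (S.pC i) * S.Y r + aeval r (S.pD i)) := by ring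
      rw [f1, f2, mul_div_mul_left _ _ hqC]
    refine ⟨w, u, v, g1, g2, g3, g4, g5, ?_, ?_⟩
    · rw [h0, h1, g7]
    · have h2 := (im_mobC (a := (a : ℝ)) (b := (b : ℝ)) (c := (c : ℝ)) (d := (e : ℝ)) him
        (by exact_mod_cast hdet)).2.2
      rw [h0, h1]
      rw [mob] at h2
      push_cast at h2
      exact h2

theorem step_MO {M n : ℕ} (S : MO M n) (t : Fin M → ℝ) (hx : S.x = fun s ↦ (t s : ℂ))
    (hdet : ∀ i, 0 < (aeval t (S.dt i) : ℝ)) (d : ℕ) (G : ℕ → MvPolynomial (Fin M) ℤ)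
    (hd : aeval S.x (G d) ≠ 0)
    (hG : ∀ᶠ s in 𝓝 S.x, ∑ j ∈ Finset.range (d + 1), aeval s (G j) * S.Y s ^ j = 0) (κ : ℕ) :
    ∃ (κ' : ℕ) (Q0 : ℕ), ∀ (q : ℕ) (p : Fin M → ℤ), Q0 ≤ q →
      (∀ s, |t s - p s / q| < Real.exp (-(q : ℝ) ^ κ')) →
      ¬ NCM (S.Y (fun s ↦ (p s : ℂ) / q)) →
      ∃ (H : ℕ) (τ : Fin (n + 1 + M) → ℍ), q ≤ H ∧
        Tup (n + 1 + M) H (exr M (fun _ : Fin (n + 1) ↦ (0 : Fin (n + 1)))) τ ∧
        (∀ j, (τ j : ℂ) = H32.T4.ext (fun i ↦ S.ψ i (fun s ↦ (p s : ℂ) / q))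
          (fun s ↦ (p s : ℂ) / q) j) ∧
        ∀ j, ‖H32.T4.ext (fun i ↦ S.ψ i S.x) S.x j - τ j‖ < Real.exp (-(H : ℝ) ^ κ) := by
  classical
  obtain ⟨A, Q1, ε, hε, hgood⟩ := good_MO S t hx hdet d G hd hG
  obtain ⟨K, hK, hnear⟩ := S.near_MO
  obtain ⟨ε', hε', hball⟩ := Metric.eventually_nhds_iff_ball.mp hnear
  obtain ⟨T, hT⟩ : ∃ T : ℕ, ∀ s, |t s| + 1 ≤ (T : ℝ) := by
    refine ⟨⌈∑ s, |t s| + 1⌉₊, fun s ↦ le_trans ?_ (Nat.le_ceil _)⟩
    have := Finset.single_le_sum (f := fun s ↦ |t s|) (fun _ _ ↦ abs_nonneg _) (Finset.mem_univ s)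
    linarith
  obtain ⟨C, hC⟩ : ∃ C : ℕ, C = 208 + T := ⟨_, rfl⟩
  obtain ⟨E, hE⟩ : ∃ E : ℕ, E = 4 * A + 4 := ⟨_, rfl⟩
  refine ⟨E * κ + 1, ⌈(C : ℝ) ^ κ + (K + 1) + 1⌉₊ + ⌈|Real.log ε|⌉₊ + ⌈|Real.log ε'|⌉₊ + Q1 + 1,
    fun q p hq hp hcm ↦ ?_⟩
  have hqC : (C : ℝ) ^ κ + (K + 1) + 1 ≤ q := by
    refine (Nat.le_ceil _).trans ?_
    exact_mod_cast (by omega : ⌈(C : ℝ) ^ κ + (K + 1) + 1⌉₊ ≤ q)
  have hqε : |Real.log ε| < q := by
    refine lt_of_le_of_lt (Nat.le_ceil _) ?_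
    exact_mod_cast (by omega : ⌈|Real.log ε|⌉₊ < q)
  have hqε' : |Real.log ε'| < q := by
    refine lt_of_le_of_lt (Nat.le_ceil _) ?_
    exact_mod_cast (by omega : ⌈|Real.log ε'|⌉₊ < q)
  have hq1 : 1 ≤ q := by omega
  have hqr : (1 : ℝ) ≤ q := by exact_mod_cast hq1
  obtain ⟨r, hr⟩ : ∃ r : Fin M → ℂ, r = fun s ↦ (p s : ℂ) / q := ⟨_, rfl⟩
  have hgd : S.Good A q r := by
    rw [hr]
    exact hgood q p (by omega) fun s ↦ (hp s).trans_le (E1_exp hε hq1 hqε)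
  rw [← hr] at hcm ⊢
  have hdist : ∀ s, ‖S.x s - r s‖ = |t s - p s / q| := by
    intro s
    rw [hx, hr]
    have h1 : (t s : ℂ) - (p s : ℂ) / q = ((t s - p s / q : ℝ) : ℂ) := by push_cast; ring
    simp only
    rw [h1, Complex.norm_real, Real.norm_eq_abs]
  have hrb : r ∈ Metric.ball S.x ε' := by
    rw [Metric.mem_ball, dist_pi_lt_iff hε']
    intro s
    rw [dist_comm, dist_eq_norm, hdist s]
    exact (hp s).trans_le (E1_exp hε' hq1 hqε')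
  obtain ⟨-, -, hψ, -⟩ := hball r hrb
  have hexp := Real.exp_pos (-(q : ℝ) ^ (E * κ + 1))
  have hnorm : ‖r - S.x‖ ≤ Real.exp (-(q : ℝ) ^ (E * κ + 1)) := by
    rw [norm_sub_rev, pi_norm_le_iff_of_nonneg hexp.le]
    intro s
    rw [Pi.sub_apply, hdist s]
    exact (hp s).le
  obtain ⟨d0, s0, hd0, hs0, hrep⟩ := E1_rep S hq1 hgd hcm
  choose w' u' v' hw using hrep
  have hHle : 208 * q ^ (4 * A + 4) ≤ C * q ^ E := by
    rw [hE, hC]
    exact Nat.mul_le_mul (by omega) le_rfl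
  have hqE : q ≤ q ^ E := by
    calc q = q ^ 1 := (pow_one q).symm
      _ ≤ q ^ E := Nat.pow_le_pow_right hq1 (by omega)
  have hHq : q ≤ C * q ^ E := by
    calc q = 1 * q := (one_mul q).symm
      _ ≤ C * q ^ E := Nat.mul_le_mul (by omega) hqE
  have hH1 : 208 ≤ C * q ^ E := by
    calc 208 = 208 * 1 := rfl
      _ ≤ C * q ^ E := Nat.mul_le_mul (by omega) (Nat.one_le_pow _ _ hq1)
  have hps : ∀ s, |p s| ≤ ((C * q ^ E : ℕ) : ℤ) := by
    intro s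
    have h1 : |t s - p s / q| ≤ 1 := by
      refine (hp s).le.trans ?_
      rw [← Real.exp_zero]
      apply Real.exp_le_exp.2
      have : (0 : ℝ) ≤ (q : ℝ) ^ (E * κ + 1) := by positivity
      linarith
    have h2 : |(p s : ℝ) / q| ≤ T := by
      have h3 := abs_sub_abs_le_abs_sub ((p s : ℝ) / q) (t s)
      rw [abs_sub_comm] at h3
      have := hT s
      linarith
    rw [abs_div, abs_of_nonneg (by positivity : (0 : ℝ) ≤ q), div_le_iff₀ (by positivity)] at h2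
    have h4 : (T : ℝ) * q ≤ ((C * q ^ E : ℕ) : ℝ) := by
      exact_mod_cast (Nat.mul_le_mul (by omega) hqE : T * q ≤ C * q ^ E)
    have h5 := h2.trans h4
    exact_mod_cast h5
  obtain ⟨dd, hdd⟩ : ∃ dd : Fin (n + 1 + M) → ℕ, dd = Fin.append (fun _ ↦ d0) (fun _ ↦ 1) := ⟨_, rfl⟩
  obtain ⟨w, hwd⟩ : ∃ w : Fin (n + 1 + M) → ℕ, w = Fin.append w' (fun _ ↦ q) := ⟨_, rfl⟩
  obtain ⟨u, hud⟩ : ∃ u : Fin (n + 1 + M) → ℤ, u = Fin.append u' p := ⟨_, rfl⟩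
  obtain ⟨v, hvd⟩ : ∃ v : Fin (n + 1 + M) → ℕ, v = Fin.append v' (fun _ ↦ q) := ⟨_, rfl⟩
  obtain ⟨ss, hss⟩ : ∃ ss : Fin (n + 1 + M) → ℂ, ss = Fin.append (fun _ ↦ s0) (fun _ ↦ Complex.I) :=
    ⟨_, rfl⟩
  obtain ⟨τ, hτ⟩ : ∃ τ : Fin (n + 1 + M) → ℂ, τ = H32.T4.ext (fun i ↦ S.ψ i r) r := ⟨_, rfl⟩
  have key : ∀ j, (dd j ≤ C * q ^ E ∧ 1 ≤ w j ∧ w j ≤ C * q ^ E ∧ |u j| ≤ ((C * q ^ E : ℕ) : ℤ) ∧
      1 ≤ v j ∧ v j ≤ C * q ^ E ∧ ss j ^ 2 = -(dd j : ℂ) ∧ τ j = (u j + v j * ss j) / w j) ∧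
      0 < (τ j).im := by
    intro j
    refine Fin.addCases (fun i ↦ ?_) (fun s ↦ ?_) j
    · obtain ⟨g1, g2, g3, g4, g5, g6, g7⟩ := hw i
      have ed : dd (Fin.castAdd M i) = d0 := by rw [hdd]; exact Fin.append_left _ _ _
      have ew : w (Fin.castAdd M i) = w' i := by rw [hwd]; exact Fin.append_left _ _ _
      have eu : u (Fin.castAdd M i) = u' i := by rw [hud]; exact Fin.append_left _ _ _
      have ev : v (Fin.castAdd M i) = v' i := by rw [hvd]; exact Fin.append_left _ _ _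
      have es : ss (Fin.castAdd M i) = s0 := by rw [hss]; exact Fin.append_left _ _ _
      have eτ : τ (Fin.castAdd M i) = S.ψ i r := by rw [hτ]; exact Fin.append_left _ _ _
      rw [ed, ew, eu, ev, es, eτ]
      refine ⟨⟨hd0.trans hHle, g1, g2.trans hHle, g3.trans (by exact_mod_cast hHle), g4,
        g5.trans hHle, hs0, g6⟩, g7⟩
    · have ed : dd (Fin.natAdd (n + 1) s) = 1 := by rw [hdd]; exact Fin.append_right _ _ _
      have ew : w (Fin.natAdd (n + 1) s) = q := by rw [hwd]; exact Fin.append_right _ _ _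
      have eu : u (Fin.natAdd (n + 1) s) = p s := by rw [hud]; exact Fin.append_right _ _ _
      have ev : v (Fin.natAdd (n + 1) s) = q := by rw [hvd]; exact Fin.append_right _ _ _
      have es : ss (Fin.natAdd (n + 1) s) = Complex.I := by
        rw [hss]; exact Fin.append_right _ _ _
      have eτ : τ (Fin.natAdd (n + 1) s) = r s + Complex.I := by
        rw [hτ]; exact Fin.append_right _ _ _
      have hqc : (q : ℂ) ≠ 0 := by
        have : q ≠ 0 := by omega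
        exact_mod_cast this
      rw [ed, ew, eu, ev, es, eτ]
      refine ⟨⟨by omega, hq1, hHq, hps s, hq1, hHq, ?_, ?_⟩, ?_⟩
      · rw [Complex.I_sq]
        push_cast
        rfl
      · rw [hr]
        simp only
        field_simp
      · have h1 : r s = ((p s / q : ℝ) : ℂ) := by
          rw [hr]
          push_cast
          rfl
        rw [Complex.add_im, h1, Complex.ofReal_im, Complex.I_im, zero_add]
        exact one_pos
  refine ⟨C * q ^ E, fun j ↦ ⟨τ j, (key j).2⟩, hHq, ⟨by omega, dd, w, u, v, ss,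
    fun j ↦ ?_, fun j ↦ ?_⟩, fun j ↦ ?_, fun j ↦ ?_⟩
  · exact (key j).1
  · refine Fin.addCases (fun i ↦ ?_) (fun s ↦ ?_) j
    · rw [exr, Fin.append_left, hdd, hss, Fin.append_left, Fin.append_left, Fin.append_left,
        Fin.append_left]
      exact ⟨rfl, rfl⟩
    · rw [exr, Fin.append_right]
      exact ⟨rfl, rfl⟩
  · change τ j = _
    rw [hτ]
  · have hlt : (K + 1) * Real.exp (-(q : ℝ) ^ (E * κ + 1)) <
        Real.exp (-((C * q ^ E : ℕ) : ℝ) ^ κ) := H32.T4.exp_cmp (by linarith) (by omega) hqC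
    refine lt_of_le_of_lt ?_ hlt
    change ‖H32.T4.ext (fun i ↦ S.ψ i S.x) S.x j - τ j‖ ≤ _
    refine Fin.addCases (fun i ↦ ?_) (fun s ↦ ?_) j
    · rw [hτ, H32.T4.ext, H32.T4.ext, Fin.append_left, Fin.append_left, norm_sub_rev]
      refine (hψ i).trans ?_
      calc K * ‖r - S.x‖ ≤ K * Real.exp (-(q : ℝ) ^ (E * κ + 1)) :=
            mul_le_mul_of_nonneg_left hnorm hK.le
        _ ≤ (K + 1) * Real.exp (-(q : ℝ) ^ (E * κ + 1)) := by
            apply mul_le_mul_of_nonneg_right _ hexp.le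
            linarith
    · rw [hτ, H32.T4.ext, H32.T4.ext, Fin.append_right, Fin.append_right,
        add_sub_add_right_eq_sub, hdist s]
      refine (hp s).le.trans ?_
      nlinarith

end AK

end S_H32_AK_E1

section S_H32_AK_E2

set_option autoImplicit false

open UpperHalfPlane hiding I
open Complex EisensteinSeries ModularForm MatrixGroups Manifold
open scoped Real Topology
open MvPolynomial Filter

namespace AK

open H32 H32.T3 H32.T4 AO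

theorem V_MO {M n : ℕ} (S : MO M n) (t : Fin M → ℝ) (hx : S.x = fun s ↦ (t s : ℂ))
    (hdet : ∀ i, 0 < (aeval t (S.dt i) : ℝ)) (d : ℕ) (G : ℕ → MvPolynomial (Fin M) ℤ)
    (hd : aeval S.x (G d) ≠ 0)
    (hG : ∀ᶠ s in 𝓝 S.x, ∑ j ∈ Finset.range (d + 1), aeval s (G j) * S.Y s ^ j = 0)
    (htr : ∀ i, Transcendental ℚ (S.ψ i S.x))
    (hrel : ∀ i j, i ≠ j → ¬ ∃ a b c d : ℚ, 0 < a * d - b * c ∧
      S.ψ j S.x = ((a : ℂ) * S.ψ i S.x + b) / ((c : ℂ) * S.ψ i S.x + d))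
    (hP : SHierP t (fun q p ↦ ¬ NCM (S.Y (fun s ↦ (p s : ℂ) / q)))) :
    Gd (fun i ↦ S.ψ i S.x) ∧
    ∃ f : Fin (3 * (n + 1) + M) → (Fin (n + 1) × Fin 5) ⊕ Fin M,
      AlgebraicIndependent ℤ (fun j ↦
        VV (fun _ : Fin (n + 1) ↦ (0 : Fin (n + 1))) 0 (fun i ↦ S.ψ i S.x) S.x (f j)) := by
  classical
  obtain ⟨A, hA⟩ := transfer_U (n + 1 + M)
  set κ : ℕ := A + 1 with hκ
  obtain ⟨κ', Q0, hstep⟩ := step_MO S t hx hdet d G hd hG κ
  obtain ⟨σ, hσ⟩ := hP κ'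
  choose q hq p hp1 hp2 hncm using fun k : ℕ ↦ hσ (Q0 + k + 2)
  choose H τ hH hT hτ hlt using fun k ↦ hstep (q k) (p k) (le_trans (by omega) (hq k))
    (fun s ↦ (hp1 k s).2) (hncm k)
  set r : Fin (n + 1) → Fin (n + 1) := fun _ ↦ 0 with hr
  set z' : Fin (n + 1 + M) → ℂ := H32.T4.ext (fun i ↦ S.ψ i S.x) S.x with hz'
  set y : ℕ → Fin M → ℂ := fun k s ↦ (p k s : ℂ) / q k with hy
  have hq1 : ∀ k, 1 ≤ q k := fun k ↦ le_trans (by omega) (hq k)
  have him : ∀ j, 0 < (z' j).im := by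
    intro j
    refine Fin.addCases (fun i ↦ ?_) (fun s ↦ ?_) j
    · rw [hz', H32.T4.ext, Fin.append_left]
      exact S.im_ψ i
    · rw [hz', H32.T4.ext, Fin.append_right, hx]
      simp
  have hynorm : ∀ k s, ‖y k s - S.x s‖ = |t s - p k s / q k| := fun k s ↦ by
    have e1 : y k s - S.x s = (((p k s : ℝ) / q k - t s : ℝ) : ℂ) := by
      rw [hy, hx]
      push_cast
      rfl
    rw [e1, Complex.norm_real, Real.norm_eq_abs, abs_sub_comm]
  set W : ApxN κ (n + 1 + M) (exr M r) z' :=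
    { H := H
      t := τ
      hH := fun k ↦ le_trans (by omega) ((hq k).trans (hH k))
      hT := hT
      hlt := hlt
      hne := fun k j ↦ by
        refine Fin.addCases (fun i ↦ ?_) (fun s ↦ ?_) j
        · intro h0
          obtain ⟨a, b, c, ha, h1⟩ := Tup.quad (hT k) (Fin.castAdd M i)
          rw [h0, hz', H32.T4.ext, Fin.append_left] at h1
          refine htr i ?_
          refine ⟨Polynomial.C (a : ℚ) * Polynomial.X ^ 2 + Polynomial.C (b : ℚ) * Polynomial.X +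
            Polynomial.C (c : ℚ), ?_, ?_⟩
          · intro h2
            have h3 := congrArg (fun P : Polynomial ℚ ↦ P.coeff 2) h2
            simp only [Polynomial.coeff_add, Polynomial.coeff_C_mul, Polynomial.coeff_X_pow,
              Polynomial.coeff_X, Polynomial.coeff_C, Polynomial.coeff_zero] at h3
            norm_num at h3
            exact ha h3
          · rw [← h1]
            simp
        · intro h0
          rw [hτ k, hz', H32.T4.ext, H32.T4.ext, Fin.append_right, Fin.append_right,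
            add_left_inj] at h0
          have h1 := (hp1 k s).1
          rw [← hynorm] at h1
          have h2 : y k s = S.x s := h0
          rw [h2, sub_self, norm_zero] at h1
          exact lt_irrefl _ h1 } with hW
  obtain ⟨hGz, hG1, htr1⟩ := hA κ (by omega) (exr M r) (Fin.castAdd M 0) z' W him
  have hτe : ∀ k, (fun j ↦ (W.t k j : ℂ)) = H32.T4.ext (fun i ↦ S.ψ i (y k)) (y k) := fun k ↦ by
    ext j
    exact hτ k j
  have hGz' : Gd (fun i ↦ S.ψ i S.x) := fun i ↦ by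
    have h1 := hGz (Fin.castAdd M i)
    rwa [hz', H32.T4.ext, Fin.append_left] at h1
  have hG' : ∀ᶠ k in atTop, Gd (fun i ↦ S.ψ i (y k)) := by
    filter_upwards [hG1] with k hk i
    have h1 := hk (Fin.castAdd M i)
    have e1 : (W.t k (Fin.castAdd M i) : ℂ) = S.ψ i (y k) := by
      have := congrFun (hτe k) (Fin.castAdd M i)
      rwa [H32.T4.ext, Fin.append_left] at this
    simp only [e1] at h1
    exact h1
  -- the sequence of parameters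
  have hle : ∀ k s, |t s - p k s / q k| ≤ Real.exp (-(q k : ℝ) ^ κ') := fun k s ↦ (hp1 k s).2.le
  have hle1 : ∀ k s, |t s - p k s / q k| ≤ 1 := fun k s ↦ by
    refine (hle k s).trans (Real.exp_le_one_iff.mpr ?_)
    have : (0 : ℝ) ≤ (q k : ℝ) ^ κ' := by positivity
    linarith
  have hyt : Tendsto y atTop (𝓝 S.x) := by
    have h1 := W.tendsto (by omega)
    rw [tendsto_pi_nhds] at h1 ⊢
    intro s
    have h2 := (h1 (Fin.natAdd (n + 1) s)).sub_const Complex.I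
    have e1 : ∀ k, (W.t k (Fin.natAdd (n + 1) s) : ℂ) - Complex.I = y k s := fun k ↦ by
      have := congrFun (hτe k) (Fin.natAdd (n + 1) s)
      rw [H32.T4.ext, Fin.append_right] at this
      rw [this]
      ring
    have e2 : z' (Fin.natAdd (n + 1) s) - Complex.I = S.x s := by
      rw [hz', H32.T4.ext, Fin.append_right]
      ring
    rw [e2] at h2
    exact h2.congr e1
  have hX := AO.ult_ind S.x S.ψ S.an_ψ S.im_ψ (nonvan_MO S d G hd hG htr hrel) y hyt σ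
    (Eventually.of_forall fun k s ↦ by
      rw [hynorm]
      exact (hp1 k s).1) (fun C ↦ by
      filter_upwards [eventually_ge_atTop C] with k hk a b hab
      rw [hynorm, hynorm]
      refine (hp2 k a b hab).le.trans ?_
      exact pow_le_pow_of_le_one (abs_nonneg _) (hle1 k _) (by omega))
  obtain ⟨f0, hf0⟩ := rank_V (fun k i ↦ S.ψ i (y k)) y hG' r 0 (fun _ ↦ rfl) hX
  have hcard : 3 * (n + 1) + M - ((Finset.univ.image r).erase 0).card = 3 * (n + 1) + M := by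
    have h1 : (Finset.univ.image r).erase 0 = ∅ := by
      ext i
      simp only [hr, Finset.mem_erase, Finset.mem_image, Finset.mem_univ, true_and,
        Finset.notMem_empty, iff_false, not_and, not_exists]
      intro h1 h2 h3
      exact h1 h3.symm
    rw [h1, Finset.card_empty, Nat.sub_zero]
  obtain ⟨f, hf⟩ : ∃ f : Fin (3 * (n + 1) + M) → (Fin (n + 1) × Fin 5) ⊕ Fin M,
      AlgebraicIndependent ℂ (fun j ↦ mkU (fun k ↦ VV r 0 (fun i ↦ S.ψ i (y k)) (y k) (f j))) :=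
    ⟨f0 ∘ Fin.cast hcard.symm, hf0.comp _ (Fin.cast_injective _)⟩
  refine ⟨hGz', f, ?_⟩
  rw [algebraicIndependent_iff]
  intro P hP
  have h1 : MvPolynomial.aeval (H32.T3.UU (exr M r) (Fin.castAdd M 0) z')
      (MvPolynomial.rename (sel ∘ f) P) = 0 := by
    rw [MvPolynomial.aeval_rename, ← hP]
    congr 2
    ext j
    exact UU_ext r 0 (fun i ↦ S.ψ i S.x) S.x (f j)
  have h2 := htr1 _ h1
  have h3 : MvPolynomial.aeval
      (fun j ↦ mkU (fun k ↦ VV r 0 (fun i ↦ S.ψ i (y k)) (y k) (f j))) P = 0 := by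
    rw [AO.aeval_mkUZ']
    refine mkU_zero_of_ev (h2.mono fun k hk ↦ ?_)
    rw [MvPolynomial.aeval_rename] at hk
    rw [← hk]
    congr 2
    ext j
    rw [Function.comp_apply, Function.comp_apply, hτe k]
    exact (UU_ext r 0 (fun i ↦ S.ψ i (y k)) (y k) (f j)).symm
  have h4 : MvPolynomial.aeval (fun j ↦ mkU (fun k ↦ VV r 0 (fun i ↦ S.ψ i (y k)) (y k) (f j)))
      (MvPolynomial.map (Int.castRingHom ℂ) P) = 0 := by
    rw [← h3, ← algebraMap_int_eq, MvPolynomial.aeval_map_algebraMap]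
  have h5 := (algebraicIndependent_iff.mp hf) _ h4
  exact (MvPolynomial.map_injective _ (RingHom.injective_int _)) (by rw [h5, map_zero])

end AK

end S_H32_AK_E2

section S_H32_AK_E3

set_option autoImplicit false

open UpperHalfPlane hiding I
open Complex EisensteinSeries ModularForm MatrixGroups Manifold
open scoped Real Topology
open MvPolynomial Filter

namespace AK

open H32 H32.T3 H32.T4 AO

/-- Passing from the field to the ring generated by a set. -/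
private theorem E3_adj {T : Set ℂ} {z : ℂ} (h : IsAlgebraic (IntermediateField.adjoin ℚ T) z) :
    IsAlgebraic (Algebra.adjoin ℚ T) z := by
  open scoped IntermediateField.algebraAdjoinAdjoin in
  exact (IsFractionRing.isAlgebraic_iff (Algebra.adjoin ℚ T) (IntermediateField.adjoin ℚ T) ℂ).2 h

/-- Conjugates of numbers algebraic over a real ring. -/
private theorem E3_conj {T : Set ℂ} (hT : ∀ v ∈ T, (starRingEnd ℂ) v = v) {z : ℂ}
    (h : IsAlgebraic (Algebra.adjoin ℚ T) z) :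
    IsAlgebraic (Algebra.adjoin ℚ T) ((starRingEnd ℂ) z) := by
  have hreal : ∀ d ∈ Algebra.adjoin ℚ T, (starRingEnd ℂ) d = d := by
    intro d hd
    induction hd using Algebra.adjoin_induction with
    | mem x hx => exact hT x hx
    | algebraMap r => simp
    | add x y _ _ hx hy => rw [map_add, hx, hy]
    | mul x y _ _ hx hy => rw [map_mul, hx, hy]
  obtain ⟨p, hp0, hp⟩ := h
  refine ⟨p, hp0, ?_⟩
  have hc : (starRingEnd ℂ).comp (algebraMap (Algebra.adjoin ℚ T) ℂ) =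
      algebraMap (Algebra.adjoin ℚ T) ℂ := by
    ext d
    exact hreal _ d.2
  rw [Polynomial.aeval_def] at hp ⊢
  have h1 := Polynomial.hom_eval₂ p (algebraMap (Algebra.adjoin ℚ T) ℂ) (starRingEnd ℂ) z
  rw [hp, map_zero, hc] at h1
  exact h1.symm

theorem final_cm {E4 E6 J : ℂ → ℂ}
    (h4 : ∀ τ : ℂ, E4 τ = 1 + 240 * ∑' m : ℕ, ((ArithmeticFunction.sigma 3 (m + 1) : ℕ) : ℂ) *
      Complex.exp (2 * (Real.pi : ℂ) * Complex.I * ((m : ℂ) + 1) * τ))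
    (h6 : ∀ τ : ℂ, E6 τ = 1 - 504 * ∑' m : ℕ, ((ArithmeticFunction.sigma 5 (m + 1) : ℕ) : ℂ) *
      Complex.exp (2 * (Real.pi : ℂ) * Complex.I * ((m : ℂ) + 1) * τ))
    (hJ : ∀ τ : ℂ, J τ = 1728 * E4 τ ^ 3 / (E4 τ ^ 3 - E6 τ ^ 2))
    {M n : ℕ} (S : MO M n) (t : Fin M → ℝ) (hx : S.x = fun s ↦ (t s : ℂ))
    (hya : IsAlgebraic (IntermediateField.adjoin ℚ (Set.range S.x)) (S.Y S.x))
    (hGd : Gd (fun i ↦ S.ψ i S.x))
    (hf : ∃ f : Fin (3 * (n + 1) + M) → (Fin (n + 1) × Fin 5) ⊕ Fin M,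
      AlgebraicIndependent ℤ (fun j ↦
        VV (fun _ : Fin (n + 1) ↦ (0 : Fin (n + 1))) 0 (fun i ↦ S.ψ i S.x) S.x (f j)))
    {ρ : ℕ} (g : Fin ρ → Fin (n + 1))
    (hg : AlgebraicIndependent ℚ (fun k ↦ S.ψ (g k) S.x)) :
    ∃ f : Fin (3 * (n + 1) + ρ) → Fin (n + 1) × Fin 4, AlgebraicIndependent ℚ (fun k ↦
      (![S.ψ (f k).1 S.x, J (S.ψ (f k).1 S.x), deriv J (S.ψ (f k).1 S.x),
        deriv (deriv J) (S.ψ (f k).1 S.x)] : Fin 4 → ℂ) (f k).2) := by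
  have aQ : ∀ q : ℚ, IsAlgebraic (Algebra.adjoin ℚ (Set.range S.x)) (q : ℂ) := fun q ↦ by
    have : (q : ℂ) = algebraMap (Algebra.adjoin ℚ (Set.range S.x)) ℂ (algebraMap ℚ _ q) := by
      rw [← IsScalarTower.algebraMap_apply]; rfl
    rw [this]
    exact isAlgebraic_algebraMap _
  have aP : ∀ p : MvPolynomial (Fin M) ℤ,
      IsAlgebraic (Algebra.adjoin ℚ (Set.range S.x)) (aeval S.x p) := by
    intro p
    induction p using MvPolynomial.induction_on with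
    | C c =>
      rw [aeval_C]
      have := aQ (c : ℚ)
      simpa using this
    | add p q hp hq =>
      rw [map_add]
      exact hp.add hq
    | mul_X p s hp =>
      rw [map_mul, aeval_X]
      exact hp.mul (isAlgebraic_algebraMap
        (⟨S.x s, Algebra.subset_adjoin ⟨s, rfl⟩⟩ : Algebra.adjoin ℚ (Set.range S.x)))
  have aY : IsAlgebraic (Algebra.adjoin ℚ (Set.range S.x)) (S.Y S.x) := E3_adj hya
  have hz : ∀ i, IsAlgebraic (Algebra.adjoin ℚ (Set.range S.x)) (S.ψ i S.x) := by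
    intro i
    refine Fin.cases ?_ (fun i ↦ ?_) i
    · exact aY
    · change IsAlgebraic (Algebra.adjoin ℚ (Set.range S.x))
        ((aeval S.x (S.pA i) * S.Y S.x + aeval S.x (S.pB i)) /
          (aeval S.x (S.pC i) * S.Y S.x + aeval S.x (S.pD i)))
      rw [div_eq_mul_inv]
      exact (((aP _).mul aY).add (aP _)).mul (((aP _).mul aY).add (aP _)).inv
  have hreal : ∀ v ∈ Set.range S.x, (starRingEnd ℂ) v = v := by
    rintro _ ⟨s, rfl⟩
    rw [hx]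
    exact Complex.conj_ofReal _
  obtain ⟨f, hf⟩ := hf
  have halgZQ : Algebra.IsAlgebraic ℤ ℚ := IsLocalization.isAlgebraic ℚ (nonZeroDivisors ℤ)
  obtain ⟨f', hf'⟩ := final_V h4 h6 hJ (fun _ ↦ 0) 0 (fun i ↦ S.ψ i S.x) S.x hGd hz
    (fun i ↦ E3_conj hreal (hz i)) f (hf.extendScalars ℚ) g hg
  have hle : 3 * (n + 1) + ρ ≤ 3 * (n + 1) + M + ρ - M := by omega
  exact ⟨f' ∘ Fin.castLE hle, hf'.comp _ (Fin.castLE_injective hle)⟩

end AK

end S_H32_AK_E3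

section S_H32_AK_M1

set_option autoImplicit false

open UpperHalfPlane hiding I
open Complex EisensteinSeries ModularForm MatrixGroups Manifold
open scoped Real Topology
open Filter

namespace AK

open H32 H32.T3 AO

theorem algB_of {w : ℂ} (h : IsAlgebraic ℚ w) :
    ∃ d X0 : ℕ, 1 ≤ X0 ∧ ∀ q : ℕ, X0 ≤ q → AlgB d ((q : ℝ) ^ 1) w := by
  obtain ⟨F, hF0, hF⟩ := (IsFractionRing.isAlgebraic_iff ℤ ℚ ℂ).mpr h
  obtain ⟨X, hX⟩ := exists_nat_ge (CZ.nr F)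
  refine ⟨F.natDegree, max 1 X, le_max_left _ _, fun q hq => ⟨F, hF0, le_rfl, ?_, hF⟩⟩
  rw [pow_one]
  exact hX.trans (Nat.cast_le.2 ((le_max_right _ _).trans hq))

theorem meas_alg (τ : ℍ) (halg : IsAlgebraic ℚ (τ : ℂ)) (hcm : NCM (τ : ℂ)) : Meas (jf τ) := by
  obtain ⟨d, X0, _, hX⟩ := algB_of halg
  obtain ⟨κ1, h1⟩ := meas_w τ hcm d 1
  obtain ⟨κ', Q0, h2⟩ := h1 1
  refine ⟨κ1, max Q0 X0, fun f Λ hf hΛ hdeg hnr => ?_⟩
  refine h2 Λ (τ : ℂ) ((le_max_left _ _).trans hΛ) hcm (hX Λ ((le_max_right _ _).trans hΛ)) ?_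
    f Λ hf le_rfl (by rw [pow_one]) hdeg hnr
  rw [sub_self, norm_zero]
  exact (Real.exp_pos _).le

end AK

end S_H32_AK_M1

section S_H32_AK_M2

set_option autoImplicit false

open UpperHalfPlane hiding I
open scoped Real Topology
open Filter

namespace AK

open CZ U2

theorem nap_alg (z : ℂ) (hz : 0 < z.im) (halg : IsAlgebraic ℚ z) (hcm : NCM z) {k : ℕ}
    (P : Fin k → ℂ) (C0 : ℕ) (hC0 : 1 ≤ C0)
    (hD : ∀ N K Q : ℕ, 1 ≤ N → COV z N K →
      C0 * N * ((K : ℝ) + N) ^ 2 * Real.log (((K : ℝ) + N) * N + 2) ≤ Q → Dat P C0 N Q) :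
    ∃ κ0 : ℝ, 1 ≤ κ0 ∧ κ0 < 2 ∧ ¬ Appr P κ0 := by
  obtain ⟨d, X0, hX0, hB⟩ := algB_of halg
  obtain ⟨C, hC, hW⟩ := win_of_near z d 1
  obtain ⟨κ0, A, Q1, hκ1, hκ2, hna⟩ := na2 z hz P C0 hC0 hD C hC
  obtain ⟨Q2, hQ2⟩ := hW (A + 2)
  refine ⟨κ0, hκ1, hκ2, ?_⟩
  intro hA
  obtain ⟨Q, hQ⟩ : ∃ Q : ℕ, Q = max (max Q1 Q2) (max X0 (2 ^ (A + 1))) := ⟨_, rfl⟩
  have hQQ1 : Q1 ≤ Q := by rw [hQ]; exact (le_max_left _ _).trans (le_max_left _ _)
  have hQQ2 : Q2 ≤ Q := by rw [hQ]; exact (le_max_right _ _).trans (le_max_left _ _)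
  have hQX0 : X0 ≤ Q := by rw [hQ]; exact (le_max_left _ _).trans (le_max_right _ _)
  have hQA : 2 ^ (A + 1) ≤ Q := by rw [hQ]; exact (le_max_right _ _).trans (le_max_right _ _)
  obtain ⟨t, V, ht, hU, htV, hap⟩ := hA (((Q : ℝ) + 1) ^ (A + 1))
  have hV0 : 0 ≤ V := le_trans (by positivity) hU
  have hex : ∃ n : ℕ, V < ((n : ℝ) + 1) ^ (A + 1) := by
    obtain ⟨n, hn⟩ := exists_nat_gt V
    refine ⟨n, hn.trans_le ?_⟩
    have h1 : (1 : ℝ) ≤ (n : ℝ) + 1 := by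
      have : (0 : ℝ) ≤ n := Nat.cast_nonneg n
      linarith
    calc (n : ℝ) ≤ (n : ℝ) + 1 := by linarith
      _ = ((n : ℝ) + 1) ^ 1 := (pow_one _).symm
      _ ≤ ((n : ℝ) + 1) ^ (A + 1) := pow_le_pow_right₀ h1 (by omega)
  obtain ⟨q, hq1, hq2⟩ : ∃ q : ℕ, V < ((q : ℝ) + 1) ^ (A + 1) ∧ (q : ℝ) ^ (A + 1) ≤ V := by
    classical
    refine ⟨Nat.find hex, Nat.find_spec hex, ?_⟩
    by_cases h0 : Nat.find hex = 0
    · rw [h0, Nat.cast_zero, zero_pow (by omega)]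
      exact hV0
    · have h1 := Nat.find_min hex (m := Nat.find hex - 1) (by omega)
      rw [not_lt] at h1
      have h2 : (((Nat.find hex - 1 : ℕ) : ℝ) + 1) = (Nat.find hex : ℝ) := by
        rw [Nat.cast_sub (by omega)]
        push_cast
        ring
      rwa [h2] at h1
  have hQq : Q ≤ q := by
    by_contra hlt
    rw [not_le] at hlt
    have h1 : (q : ℝ) + 1 ≤ (Q : ℝ) + 1 := by
      have : (q : ℝ) ≤ Q := by exact_mod_cast hlt.le
      linarith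
    have h2 : ((q : ℝ) + 1) ^ (A + 1) ≤ ((Q : ℝ) + 1) ^ (A + 1) :=
      pow_le_pow_left₀ (by positivity) h1 _
    linarith
  have h2q : 2 ^ (A + 1) ≤ q := hQA.trans hQq
  have hq1' : 1 ≤ q := le_trans (Nat.one_le_two_pow) h2q
  have hqR : (1 : ℝ) ≤ q := by exact_mod_cast hq1'
  have h2qR : (2 : ℝ) ^ (A + 1) ≤ q := by exact_mod_cast h2q
  refine hna q ((q : ℝ) ^ (A + 2)) (hQQ1.trans hQq)
    (hQ2 q z (hQQ2.trans hQq) hcm (hB q (hQX0.trans hQq)) ?_) t V ht ?_ ?_ htV hap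
  · rw [sub_self, norm_zero]
    positivity
  · exact (pow_le_pow_right₀ hqR (by omega)).trans hq2
  · calc V ≤ ((q : ℝ) + 1) ^ (A + 1) := hq1.le
      _ ≤ (2 * (q : ℝ)) ^ (A + 1) := pow_le_pow_left₀ (by positivity) (by linarith) _
      _ = 2 ^ (A + 1) * (q : ℝ) ^ (A + 1) := mul_pow _ _ _
      _ ≤ (q : ℝ) * (q : ℝ) ^ (A + 1) := mul_le_mul_of_nonneg_right h2qR (by positivity)
      _ = (q : ℝ) ^ (A + 2) := by ring

end AK

end S_H32_AK_M2

section S_H32_AK_M3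

set_option autoImplicit false

open UpperHalfPlane hiding I
open Complex EisensteinSeries ModularForm MatrixGroups Manifold
open scoped Real Topology
open Filter

namespace AK

open H32 H32.T3 AO

private theorem M3_clo (X : Set ℂ) (x : ℂ) : x ∈ (AlgebraicIndependent.matroid ℚ ℂ).closure X ↔
    IsAlgebraic (IntermediateField.adjoin ℚ X) x := by
  rw [AlgebraicIndependent.matroid_closure_eq, SetLike.mem_coe, Subalgebra.mem_algebraicClosure,
    ← IntermediateField.isAlgebraic_adjoin_iff]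

private theorem M3_drop {z a b c : ℂ} (hz : IsAlgebraic ℚ z) {w : ℂ}
    (hw : IsAlgebraic (IntermediateField.adjoin ℚ (Set.range (![z, a, b, c] : Fin 4 → ℂ))) w) :
    IsAlgebraic (IntermediateField.adjoin ℚ ({a, b, c} : Set ℂ)) w := by
  have hr : Set.range (![z, a, b, c] : Fin 4 → ℂ) = insert z {a, b, c} := by
    ext x
    simp only [Matrix.range_cons, Matrix.range_empty, Set.union_empty, Set.mem_union,
      Set.mem_singleton_iff, Set.mem_insert_iff]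
  rw [hr, ← M3_clo] at hw
  have hz' : z ∈ (AlgebraicIndependent.matroid ℚ ℂ).closure ({a, b, c} : Set ℂ) := by
    rw [M3_clo]
    exact hz.extendScalars (algebraMap ℚ (IntermediateField.adjoin ℚ ({a, b, c} : Set ℂ))).injective
  rw [Matroid.closure_insert_eq_of_mem_closure hz', M3_clo] at hw
  exact hw

theorem hG2 {E4 E6 J : ℂ → ℂ}
    (h4 : ∀ τ : ℂ, E4 τ = 1 + 240 * ∑' m : ℕ, ((ArithmeticFunction.sigma 3 (m + 1) : ℕ) : ℂ) *
      Complex.exp (2 * (Real.pi : ℂ) * Complex.I * ((m : ℂ) + 1) * τ))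
    (h6 : ∀ τ : ℂ, E6 τ = 1 - 504 * ∑' m : ℕ, ((ArithmeticFunction.sigma 5 (m + 1) : ℕ) : ℂ) *
      Complex.exp (2 * (Real.pi : ℂ) * Complex.I * ((m : ℂ) + 1) * τ))
    (hJ : ∀ τ : ℂ, J τ = 1728 * E4 τ ^ 3 / (E4 τ ^ 3 - E6 τ ^ 2)) (τ : ℍ)
    (halg : IsAlgebraic ℚ (τ : ℂ)) (hcm : AO.NCM (τ : ℂ)) :
    Meas (jf τ) ∧ E₄ τ ≠ 0 ∧ E₆ τ ≠ 0 ∧ NAp J τ := by
  obtain ⟨e4, e6⟩ := AZ.E_ne (τ : ℂ) hcm τ rfl
  refine ⟨meas_alg τ halg hcm, e4, e6, ?_⟩
  obtain ⟨P, C, hC, hP, hD⟩ := U2.dat_u2 (τ : ℂ) τ.im_pos hcm E4 E6 J h4 h6 hJ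
  obtain ⟨κ0, h1, h2, h3⟩ := nap_alg (τ : ℂ) τ.im_pos halg hcm P C hC hD
  exact ⟨7, P, κ0, h1, h2, h3, fun i => M3_drop halg (hP i)⟩

end AK

end S_H32_AK_M3

section S_H32_AK_X1

set_option autoImplicit false

open UpperHalfPlane hiding I
open Complex EisensteinSeries ModularForm MatrixGroups Manifold
open scoped Real Topology
open MvPolynomial Filter

namespace AK

open H32 H32.T3 H32.T4 AO

theorem core_ncm {E4 E6 J : ℂ → ℂ}
    (h4 : ∀ τ : ℂ, E4 τ = 1 + 240 * ∑' m : ℕ, ((ArithmeticFunction.sigma 3 (m + 1) : ℕ) : ℂ) *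
      Complex.exp (2 * (Real.pi : ℂ) * Complex.I * ((m : ℂ) + 1) * τ))
    (h6 : ∀ τ : ℂ, E6 τ = 1 - 504 * ∑' m : ℕ, ((ArithmeticFunction.sigma 5 (m + 1) : ℕ) : ℂ) *
      Complex.exp (2 * (Real.pi : ℂ) * Complex.I * ((m : ℂ) + 1) * τ))
    (hJ : ∀ τ : ℂ, J τ = 1728 * E4 τ ^ 3 / (E4 τ ^ 3 - E6 τ ^ 2))
    {M n : ℕ} (S : MO M n) {A : ℕ} (hS : S.Seq A) (hcm : NCM (S.Y S.x))
    (hya : IsAlgebraic (IntermediateField.adjoin ℚ (Set.range S.x)) (S.Y S.x))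
    {ρ : ℕ} (g : Fin ρ → Fin (n + 1))
    (hg : AlgebraicIndependent ℚ (fun k ↦ S.ψ (g k) S.x)) :
    ∃ f : Fin (3 * (n + 1) + ρ - 1) → Fin (n + 1) × Fin 4, AlgebraicIndependent ℚ (fun k ↦
      (![S.ψ (f k).1 S.x, J (S.ψ (f k).1 S.x), deriv J (S.ψ (f k).1 S.x),
        deriv (deriv J) (S.ψ (f k).1 S.x)] : Fin 4 → ℂ) (f k).2) := by
  obtain ⟨n4, n6⟩ := AZ.E_ne (S.Y S.x) hcm ⟨S.Y S.x, S.im0⟩ rfl
  have y4 : e4 (S.Y S.x) ≠ 0 := by
    have h : e4 (((⟨S.Y S.x, S.im0⟩ : ℍ)) : ℂ) = E₄ ⟨S.Y S.x, S.im0⟩ := by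
      rw [e4, ofComplex_apply]
    change e4 (((⟨S.Y S.x, S.im0⟩ : ℍ)) : ℂ) ≠ 0
    rw [h]
    exact n4
  have y6 : e6 (S.Y S.x) ≠ 0 := by
    have h : e6 (((⟨S.Y S.x, S.im0⟩ : ℍ)) : ℂ) = E₆ ⟨S.Y S.x, S.im0⟩ := by
      rw [e6, ofComplex_apply]
    change e6 (((⟨S.Y S.x, S.im0⟩ : ℍ)) : ℂ) ≠ 0
    rw [h]
    exact n6
  have hJy : J (S.Y S.x) = jc (S.Y S.x) := (J_values h4 h6 hJ S.im0).1
  obtain ⟨P, C, hC, hP, hD⟩ := U2.dat_u2 (S.Y S.x) S.im0 hcm E4 E6 J h4 h6 hJ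
  obtain ⟨θ, hθ, hind⟩ := indep2_MO S hS hcm hya P C hC hD (deriv J (S.Y S.x))
    (deriv (deriv J) (S.Y S.x)) (fun i ↦ by rw [← hJy]; exact hP i)
  exact final_MO h4 h6 hJ S y4 y6 hya θ hθ hind g hg

end AK

end S_H32_AK_X1

section S_H32_AK_X2

set_option autoImplicit false

open UpperHalfPlane hiding I
open Complex EisensteinSeries ModularForm MatrixGroups Manifold
open scoped Real Topology
open MvPolynomial Filter

namespace AK

open H32 H32.T3 H32.T4 AO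

lemma ncm_of_tr {w : ℂ} (h : Transcendental ℚ w) : NCM w := by
  rintro ⟨a, b, c, hne, he⟩
  apply h
  have halg : IsAlgebraic ℤ w := by
    refine ⟨Polynomial.C a * Polynomial.X ^ 2 + Polynomial.C b * Polynomial.X + Polynomial.C c,
      ?_, ?_⟩
    · intro h0
      have e0 := congrArg (fun p ↦ Polynomial.coeff p 0) h0
      have e1 := congrArg (fun p ↦ Polynomial.coeff p 1) h0
      have e2 := congrArg (fun p ↦ Polynomial.coeff p 2) h0
      simp only [Polynomial.coeff_add, Polynomial.coeff_C_mul, Polynomial.coeff_X_pow,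
        Polynomial.coeff_X, Polynomial.coeff_C, Polynomial.coeff_zero] at e0 e1 e2
      norm_num at e0 e1 e2
      rcases hne with h | h | h
      · exact h e2
      · exact h e1
      · exact h e0
    · simp only [map_add, map_mul, Polynomial.aeval_C, Polynomial.aeval_X, map_pow]
      simpa using he
  exact (IsFractionRing.isAlgebraic_iff ℤ ℚ ℂ).mp halg

/-- The tuple `y, z 0, ..., z (n-1)`, all transcendental. -/
theorem core_tr {E4 E6 J : ℂ → ℂ}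
    (h4 : ∀ τ : ℂ, E4 τ = 1 + 240 * ∑' m : ℕ, ((ArithmeticFunction.sigma 3 (m + 1) : ℕ) : ℂ) *
      Complex.exp (2 * (Real.pi : ℂ) * Complex.I * ((m : ℂ) + 1) * τ))
    (h6 : ∀ τ : ℂ, E6 τ = 1 - 504 * ∑' m : ℕ, ((ArithmeticFunction.sigma 5 (m + 1) : ℕ) : ℂ) *
      Complex.exp (2 * (Real.pi : ℂ) * Complex.I * ((m : ℂ) + 1) * τ))
    (hJ : ∀ τ : ℂ, J τ = 1728 * E4 τ ^ 3 / (E4 τ ^ 3 - E6 τ ^ 2))
    {m n : ℕ} (t : Fin m → ℝ) (ht : AO.SHier t)
    (y : ℂ) (hy : 0 < y.im)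
    (hya : IsAlgebraic (IntermediateField.adjoin ℚ (Set.range fun s ↦ (t s : ℂ))) y)
    (z : Fin n → ℂ)
    (hz : ∀ i, ∃ A ∈ IntermediateField.adjoin ℚ (Set.range t),
      ∃ B ∈ IntermediateField.adjoin ℚ (Set.range t),
      ∃ C ∈ IntermediateField.adjoin ℚ (Set.range t),
      ∃ D ∈ IntermediateField.adjoin ℚ (Set.range t), 0 < A * D - B * C ∧
        z i = ((A : ℂ) * y + (B : ℂ)) / ((C : ℂ) * y + (D : ℂ)))
    (htr : ∀ i : Fin (n + 1), Transcendental ℚ ((Fin.cons y z : Fin (n + 1) → ℂ) i))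
    (hrel : ∀ i k : Fin (n + 1), i ≠ k → ¬ ∃ a b c d : ℚ, 0 < a * d - b * c ∧
      (Fin.cons y z : Fin (n + 1) → ℂ) k = ((a : ℂ) * (Fin.cons y z : Fin (n + 1) → ℂ) i + b) /
        ((c : ℂ) * (Fin.cons y z : Fin (n + 1) → ℂ) i + d))
    {ρ : ℕ} (g : Fin ρ → Fin (n + 1))
    (hg : AlgebraicIndependent ℚ (fun k ↦ (Fin.cons y z : Fin (n + 1) → ℂ) (g k))) :
    ∃ f : Fin (3 * (n + 1) + ρ - 1) → Fin (n + 1) × Fin 4, AlgebraicIndependent ℚ (fun k ↦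
      (![(Fin.cons y z : Fin (n + 1) → ℂ) (f k).1, J ((Fin.cons y z : Fin (n + 1) → ℂ) (f k).1),
        deriv J ((Fin.cons y z : Fin (n + 1) → ℂ) (f k).1),
        deriv (deriv J) ((Fin.cons y z : Fin (n + 1) → ℂ) (f k).1)] : Fin 4 → ℂ) (f k).2) := by
  obtain ⟨S, d, G, hx, hY, hφ, hdet, hd, hG⟩ := exists_MO t y hy hya z hz
  have hψ : (fun i ↦ S.ψ i S.x) = (Fin.cons y z : Fin (n + 1) → ℂ) := by
    funext i
    refine Fin.cases ?_ (fun i ↦ ?_) i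
    · exact hY
    · exact hφ i
  have hψ' : ∀ i, S.ψ i S.x = (Fin.cons y z : Fin (n + 1) → ℂ) i := fun i ↦ congrFun hψ i
  have hya' : IsAlgebraic (IntermediateField.adjoin ℚ (Set.range S.x)) (S.Y S.x) := by
    rw [hY, hx]
    exact hya
  have htr' : ∀ i, Transcendental ℚ (S.ψ i S.x) := fun i ↦ by rw [hψ']; exact htr i
  have hrel' : ∀ i j, i ≠ j → ¬ ∃ a b c d : ℚ, 0 < a * d - b * c ∧
      S.ψ j S.x = ((a : ℂ) * S.ψ i S.x + b) / ((c : ℂ) * S.ψ i S.x + d) := by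
    intro i j hij
    rw [hψ', hψ']
    exact hrel i j hij
  have hg' : AlgebraicIndependent ℚ (fun k ↦ S.ψ (g k) S.x) := by
    simp only [hψ']
    exact hg
  have key : ∃ f : Fin (3 * (n + 1) + ρ - 1) → Fin (n + 1) × Fin 4,
      AlgebraicIndependent ℚ (fun k ↦
      (![S.ψ (f k).1 S.x, J (S.ψ (f k).1 S.x), deriv J (S.ψ (f k).1 S.x),
        deriv (deriv J) (S.ψ (f k).1 S.x)] : Fin 4 → ℂ) (f k).2) := by
    rcases dich ht (fun q p ↦ NCM (S.Y (fun s ↦ (p s : ℂ) / q))) with hP | hP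
    · obtain ⟨A, hS⟩ := seq_MO S t hx hdet d G hd hG htr' hrel' hP
      exact core_ncm h4 h6 hJ S hS (ncm_of_tr (htr' 0)) hya' g hg'
    · obtain ⟨hGd, hf⟩ := V_MO S t hx hdet d G hd hG htr' hrel' hP
      obtain ⟨f, hf'⟩ := final_cm h4 h6 hJ S t hx hya' hGd hf g hg'
      have hle : 3 * (n + 1) + ρ - 1 ≤ 3 * (n + 1) + ρ := by omega
      exact ⟨f ∘ Fin.castLE hle, hf'.comp _ (Fin.castLE_injective hle)⟩
  simp only [hψ'] at key
  exact key

end AK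

end S_H32_AK_X2

section S_H32_AK_X3

set_option autoImplicit false

open UpperHalfPlane hiding I
open Complex EisensteinSeries ModularForm MatrixGroups Manifold
open scoped Real Topology
open Filter

namespace AK

open H32 H32.T3 H32.T4 AO

/-- Change of the base point. -/
lemma mob_change {a b c d A B C D : ℝ} {y : ℂ} (hy : 0 < y.im)
    (h : 0 < a * d - b * c) (hA : 0 < A * D - B * C) :
    ((A : ℂ) * y + (B : ℂ)) / ((C : ℂ) * y + (D : ℂ)) =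
      (((A * d - B * c : ℝ) : ℂ) * (((a : ℂ) * y + b) / ((c : ℂ) * y + d)) +
        ((B * a - A * b : ℝ) : ℂ)) /
      (((C * d - D * c : ℝ) : ℂ) * (((a : ℂ) * y + b) / ((c : ℂ) * y + d)) +
        ((D * a - C * b : ℝ) : ℂ)) := by
  have hw := (im_mobC hy h).1
  have hδ : ((a : ℂ) * d - b * c) ≠ 0 := by exact_mod_cast h.ne'
  have e1 : ((A * d - B * c : ℝ) : ℂ) * (((a : ℂ) * y + b) / ((c : ℂ) * y + d)) +
        ((B * a - A * b : ℝ) : ℂ) =
      (((a : ℂ) * d - b * c) / ((c : ℂ) * y + d)) * ((A : ℂ) * y + B) := by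
    push_cast
    field_simp
    ring
  have e2 : ((C * d - D * c : ℝ) : ℂ) * (((a : ℂ) * y + b) / ((c : ℂ) * y + d)) +
        ((D * a - C * b : ℝ) : ℂ) =
      (((a : ℂ) * d - b * c) / ((c : ℂ) * y + d)) * ((C : ℂ) * y + D) := by
    push_cast
    field_simp
    ring
  rw [e1, e2, mul_div_mul_left _ _ (div_ne_zero hδ hw)]

/-- The points have this form over each of them. -/
lemma change_base {m n : ℕ} (t : Fin m → ℝ) (y : ℂ) (hy : 0 < y.im) (z : Fin n → ℂ)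
    (hz : ∀ i, ∃ A ∈ IntermediateField.adjoin ℚ (Set.range t),
      ∃ B ∈ IntermediateField.adjoin ℚ (Set.range t),
      ∃ C ∈ IntermediateField.adjoin ℚ (Set.range t),
      ∃ D ∈ IntermediateField.adjoin ℚ (Set.range t), 0 < A * D - B * C ∧
        z i = ((A : ℂ) * y + (B : ℂ)) / ((C : ℂ) * y + (D : ℂ))) (i0 : Fin n) :
    0 < (z i0).im ∧ ∀ i, ∃ A ∈ IntermediateField.adjoin ℚ (Set.range t),
      ∃ B ∈ IntermediateField.adjoin ℚ (Set.range t),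
      ∃ C ∈ IntermediateField.adjoin ℚ (Set.range t),
      ∃ D ∈ IntermediateField.adjoin ℚ (Set.range t), 0 < A * D - B * C ∧
        z i = ((A : ℂ) * z i0 + (B : ℂ)) / ((C : ℂ) * z i0 + (D : ℂ)) := by
  obtain ⟨a, ha, b, hb, c, hc, d, hd, hpos, h0⟩ := hz i0
  refine ⟨by rw [h0]; exact (im_mobC hy hpos).2.2, fun i ↦ ?_⟩
  obtain ⟨A, hA, B, hB, C, hC, D, hD, hdet, he⟩ := hz i
  refine ⟨A * d - B * c, sub_mem (mul_mem hA hd) (mul_mem hB hc),
    B * a - A * b, sub_mem (mul_mem hB ha) (mul_mem hA hb),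
    C * d - D * c, sub_mem (mul_mem hC hd) (mul_mem hD hc),
    D * a - C * b, sub_mem (mul_mem hD ha) (mul_mem hC hb), ?_, ?_⟩
  · have e : (A * d - B * c) * (D * a - C * b) - (B * a - A * b) * (C * d - D * c) =
      (A * D - B * C) * (a * d - b * c) := by ring
    rw [e]
    exact mul_pos hdet hpos
  · rw [he, h0]
    exact mob_change hy hpos hdet

lemma mem_ofReal {m : ℕ} {t : Fin m → ℝ} {a : ℝ}
    (ha : a ∈ IntermediateField.adjoin ℚ (Set.range t)) :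
    (a : ℂ) ∈ IntermediateField.adjoin ℚ (Set.range fun s ↦ (t s : ℂ)) := by
  have h1 : (IntermediateField.adjoin ℚ (Set.range t)).map (Complex.ofRealAm.restrictScalars ℚ) =
      IntermediateField.adjoin ℚ (Set.range fun s ↦ ((t s : ℝ) : ℂ)) := by
    rw [IntermediateField.adjoin_map]
    congr 1
    rw [← Set.range_comp]
    rfl
  rw [← h1]
  exact ⟨a, ha, rfl⟩

theorem main_AK {E4 E6 J : ℂ → ℂ}
    (h4 : ∀ τ : ℂ, E4 τ = 1 + 240 * ∑' m : ℕ, ((ArithmeticFunction.sigma 3 (m + 1) : ℕ) : ℂ) *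
      Complex.exp (2 * (Real.pi : ℂ) * Complex.I * ((m : ℂ) + 1) * τ))
    (h6 : ∀ τ : ℂ, E6 τ = 1 - 504 * ∑' m : ℕ, ((ArithmeticFunction.sigma 5 (m + 1) : ℕ) : ℂ) *
      Complex.exp (2 * (Real.pi : ℂ) * Complex.I * ((m : ℂ) + 1) * τ))
    (hJ : ∀ τ : ℂ, J τ = 1728 * E4 τ ^ 3 / (E4 τ ^ 3 - E6 τ ^ 2))
    {m n : ℕ} (t : Fin m → ℝ) (ht : ∀ κ : ℝ, ∀ K : ℕ, ∃ q : ℕ, K ≤ q ∧ ∃ p : Fin m → ℤ,
      (∀ s, 0 < |t s - p s / q| ∧ |t s - p s / q| < Real.exp (-(q : ℝ) ^ κ)) ∧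
      ∀ r s, r ≠ s → |t r - p r / q| < |t s - p s / q| ^ K ∨
        |t s - p s / q| < |t r - p r / q| ^ K)
    (y : ℂ) (hy : 0 < y.im)
    (hya : IsAlgebraic (IntermediateField.adjoin ℚ (Set.range fun s ↦ (t s : ℂ))) y)
    (z : Fin n → ℂ)
    (hz : ∀ i, ∃ A ∈ IntermediateField.adjoin ℚ (Set.range t),
      ∃ B ∈ IntermediateField.adjoin ℚ (Set.range t),
      ∃ C ∈ IntermediateField.adjoin ℚ (Set.range t),
      ∃ D ∈ IntermediateField.adjoin ℚ (Set.range t), 0 < A * D - B * C ∧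
        z i = ((A : ℂ) * y + (B : ℂ)) / ((C : ℂ) * y + (D : ℂ)))
    (hcm : ∀ i, NCM (z i))
    (hrel : ∀ i k, i ≠ k → ¬ ∃ a b c d : ℚ, 0 < a * d - b * c ∧
      z k = ((a : ℂ) * z i + (b : ℂ)) / ((c : ℂ) * z i + (d : ℂ)))
    (ρ : ℕ) (g : Fin ρ → Fin n) (hg : AlgebraicIndependent ℚ (fun k ↦ z (g k))) :
    ∃ f : Fin (3 * n + ρ - 1) → Fin n × Fin 4, AlgebraicIndependent ℚ (fun k ↦
      (![z (f k).1, J (z (f k).1), deriv J (z (f k).1), deriv (deriv J) (z (f k).1)] :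
        Fin 4 → ℂ) (f k).2) := by
  by_cases halg : ∃ i0, IsAlgebraic ℚ (z i0)
  · obtain ⟨i0, hi0⟩ := halg
    obtain ⟨him, hz'⟩ := change_base t y hy z hz i0
    exact (AO.main_AO h4 h6 hJ (hG2 h4 h6 hJ) t ht (z i0) him hi0 (hcm i0) z hz' hrel).2 ρ g hg
  · push Not at halg
    rcases Nat.eq_zero_or_pos n with hn | hn
    · subst hn
      have hρ : ρ = 0 := by
        by_contra h
        exact (g ⟨0, Nat.pos_of_ne_zero h⟩).elim0
      subst hρ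
      have h0 : 3 * 0 + 0 - 1 = 0 := by omega
      rw [h0]
      refine ⟨fun i ↦ i.elim0, ?_⟩
      have : IsEmpty (Fin 0) := inferInstance
      exact algebraicIndependent_empty_type_iff.mpr (algebraMap ℚ ℂ).injective
    · obtain ⟨n', rfl⟩ : ∃ n', n = n' + 1 := ⟨n - 1, by omega⟩
      obtain ⟨him, hz'⟩ := change_base t y hy z hz 0
      have hcons : (Fin.cons (z 0) (fun i : Fin n' ↦ z i.succ) : Fin (n' + 1) → ℂ) = z := by
        funext i
        refine Fin.cases ?_ (fun i ↦ ?_) i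
        · rfl
        · rfl
      have hya' : IsAlgebraic (IntermediateField.adjoin ℚ (Set.range fun s ↦ (t s : ℂ))) (z 0) := by
        obtain ⟨a, ha, b, hb, c, hc, d, hd, -, h0⟩ := hz 0
        have hm : ∀ x : ℝ, x ∈ IntermediateField.adjoin ℚ (Set.range t) →
            IsAlgebraic (IntermediateField.adjoin ℚ (Set.range fun s ↦ (t s : ℂ))) (x : ℂ) := by
          intro x hx
          exact isAlgebraic_algebraMap (⟨(x : ℂ), mem_ofReal hx⟩ :
            IntermediateField.adjoin ℚ (Set.range fun s ↦ (t s : ℂ)))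
        rw [h0, div_eq_mul_inv]
        exact (((hm a ha).mul hya).add (hm b hb)).mul (((hm c hc).mul hya).add (hm d hd)).inv
      have h := core_tr h4 h6 hJ t (shier_of ht) (z 0) him hya' (fun i : Fin n' ↦ z i.succ)
        (fun i ↦ hz' i.succ) (fun i ↦ by rw [hcons]; exact halg i)
        (fun i k hik ↦ by rw [hcons]; exact hrel i k hik) g (by rw [hcons]; exact hg)
      rw [hcons] at h
      exact h

end AK

end S_H32_AK_X3
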